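import Mathlib
import Pool.Agent.HDN.Defs
import Pool.Agent.HDN.Phys

/-!
# Five bodies: definitions (project NB5, MP_73d3cc_mp)

Paper proof: `/team-store/nb5_proof.md`. Everything is stated in the STANDARD LABELLING: hard pair
`Q = {0, 1}`, triple `T = {0, 1, 2}`, the bodies `2, 3, 4` outside of `Q`. Another labelling is
obtained by a permutation `s` of `Fin 5`: masses `m ∘ s`, state `rel s x`. All length and velocity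
scales are integer powers of the level parameter `b ≥ 1`, where `V = b ^ 100`,
`rho1 = b ^ (-96)`, `rho5 = b ^ (-77)`.
-/

open MeasureTheory Set Filter Topology Metric
open scoped NNReal ENNReal RealInnerProductSpace

namespace NB5

open HDN

/-- states of five bodies in `ℝ^d` -/
abbrev St (d : ℕ) := Ph 5 d

variable {N d : ℕ}

/-- relabelling of the bodies of a state (the masses become `m ∘ s`) -/
def rel (s : Equiv.Perm (Fin 5)) (x : St d) : St d := (x.1 ∘ s, x.2 ∘ s)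

/-- bounds for the masses -/
def Mb (M : ℝ) (m : Fin 5 → ℝ) : Prop := 1 ≤ M ∧ ∀ i, 1 / M ≤ m i ∧ m i ≤ M

/-- parameters: `M` bounds the masses, `R` the conserved quantities, `Zp` and `Kg` are large, `k0` is
the lowest level of the weight `G` -/
structure Par where
  M : ℝ
  Zp : ℝ
  Kg : ℝ
  R : ℝ
  k0 : ℕ
  hM : 1 ≤ M
  hZ : 10 ^ 9 * M ^ 6 ≤ Zp
  hK : 10 ^ 9 * M ^ 6 ≤ Kg
  hR : 1 ≤ R

/-- size of the hard pair: `r ≤ Cr / b ^ 200` -/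
noncomputable def Par.Cr (P : Par) : ℝ := 4 * P.M ^ 2

/-- zone of the triple: `|x_j| < K2 / b ^ 96` -/
noncomputable def Par.K2 (P : Par) : ℝ := 32 * P.M ^ 4

/-- maximal size of the compact triple: `K3 / b ^ 96` -/
noncomputable def Par.K3 (P : Par) : ℝ := 4 * P.K2

/-- threshold `L1` for the energy `h = FQ - FT` of the third body -/
noncomputable def Par.L1 (P : Par) (b : ℝ) : ℝ := b ^ 96 / (4 * P.M ^ 2)

/-! ## Conserved quantities -/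

/-- centre of mass (of positions or of velocities) -/
noncomputable def cmv (m : Fin N → ℝ) (q : Cf N d) : Sp d := (∑ a, m a)⁻¹ • ∑ a, m a • q a

/-- moment of inertia `∑ m |q - X|^2` -/
noncomputable def Iner (m : Fin N → ℝ) (x : Ph N d) : ℝ := ∑ a, m a * ‖x.1 a - cmv m x.1‖ ^ 2

/-- half of the time derivative of `Iner` -/
noncomputable def Jner (m : Fin N → ℝ) (x : Ph N d) : ℝ :=
  ∑ a, m a * ⟪x.1 a - cmv m x.1, x.2 a - cmv m x.2⟫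

/-- bounded conserved quantities, and the consequence `I ≤ R (1 + |J|)` of Lagrange-Jacobi -/
def Inv (m : Fin N → ℝ) (R : ℝ) : Set (Ph N d) :=
  {x | Free x.1 ∧ |Ham m x| ≤ R ∧ ‖Lop m x‖ ≤ R ∧ ‖cmv m x.1‖ ≤ R ∧ ‖cmv m x.2‖ ≤ R ∧
    Iner m x ≤ R * (1 + |Jner m x|)}

/-! ## Distances -/

/-- the largest `s` such that the five bodies can be partitioned into `k` classes with all distances
between different classes at least `s`. `Rg 4` is the second smallest distance, `Rg 3` the third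
single linkage distance. -/
noncomputable def Rg (k : ℕ) (q : Cf 5 d) : ℝ :=
  sSup {s : ℝ | ∃ p : Fin 5 → Fin k, Function.Surjective p ∧
    ∀ i j, p i ≠ p j → s ≤ ‖q i - q j‖}

/-- `|x ∧ w|` -/
noncomputable def jw (x w : Sp d) : ℝ := √(‖x‖ ^ 2 * ‖w‖ ^ 2 - ⟪x, w⟫ ^ 2)

/-! ## Energies -/

/-- energy of the relative motion of the bodies `i`, `j` -/
noncomputable def hp (m : Fin 5 → ℝ) (i j : Fin 5) (x : St d) : ℝ :=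
  (1 / 2) * (m i * m j / (m i + m j)) * ‖x.2 i - x.2 j‖ ^ 2 - m i * m j / ‖x.1 i - x.1 j‖

/-- kinetic energy of `{0,1}, 2, 3, 4` -/
noncomputable def KQ (m : Fin 5 → ℝ) (v : Cf 5 d) : ℝ :=
  (1 / 2) * ((m 0 + m 1) * ‖cm m 0 1 v‖ ^ 2 + m 2 * ‖v 2‖ ^ 2 + m 3 * ‖v 3‖ ^ 2 + m 4 * ‖v 4‖ ^ 2)

/-- (minus) potential energy of `{0,1}, 2, 3, 4` -/
noncomputable def UQ (m : Fin 5 → ℝ) (q : Cf 5 d) : ℝ :=
  (m 0 + m 1) * m 2 / ‖q 2 - cm m 0 1 q‖ + (m 0 + m 1) * m 3 / ‖q 3 - cm m 0 1 q‖ +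
    (m 0 + m 1) * m 4 / ‖q 4 - cm m 0 1 q‖ + m 2 * m 3 / ‖q 2 - q 3‖ +
    m 2 * m 4 / ‖q 2 - q 4‖ + m 3 * m 4 / ‖q 3 - q 4‖

/-- energy of `{0,1}, 2, 3, 4` -/
noncomputable def FQ (m : Fin 5 → ℝ) (x : St d) : ℝ := KQ m x.2 - UQ m x.1

/-- kinetic energy of `{0,1,2}, 3, 4` -/
noncomputable def KT (m : Fin 5 → ℝ) (v : Cf 5 d) : ℝ :=
  (1 / 2) * ((m 0 + m 1 + m 2) * ‖cm3 m 0 1 2 v‖ ^ 2 + m 3 * ‖v 3‖ ^ 2 + m 4 * ‖v 4‖ ^ 2)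

/-- (minus) potential energy of `{0,1,2}, 3, 4` -/
noncomputable def UT (m : Fin 5 → ℝ) (q : Cf 5 d) : ℝ :=
  (m 0 + m 1 + m 2) * m 3 / ‖q 3 - cm3 m 0 1 2 q‖ +
    (m 0 + m 1 + m 2) * m 4 / ‖q 4 - cm3 m 0 1 2 q‖ + m 3 * m 4 / ‖q 3 - q 4‖

/-- energy of `{0,1,2}, 3, 4` -/
noncomputable def FT (m : Fin 5 → ℝ) (x : St d) : ℝ := KT m x.2 - UT m x.1

/-- kinetic energy of `{0,1}, {2,3}, 4` -/
noncomputable def KP (m : Fin 5 → ℝ) (v : Cf 5 d) : ℝ :=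
  (1 / 2) * ((m 0 + m 1) * ‖cm m 0 1 v‖ ^ 2 + (m 2 + m 3) * ‖cm m 2 3 v‖ ^ 2 + m 4 * ‖v 4‖ ^ 2)

/-- `FQ - FT` with the body `j` as third body of the triple -/
noncomputable def hh (m : Fin 5 → ℝ) (j : Fin 5) (x : St d) : ℝ :=
  FQ m x - FT (m ∘ Equiv.swap 2 j) (rel (Equiv.swap 2 j) x)

/-! ## State sets at the level `b` -/

/-- states with the hard pair `{0,1}` (mode I, close passages of a third body included) -/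
structure S1 (P : Par) (b : ℝ) (m : Fin 5 → ℝ) (x : St d) : Prop where
  r_le : ‖x.1 0 - x.1 1‖ ≤ P.Cr / b ^ 200
  F_ge : b ^ 200 / 2 ≤ FQ m x
  F_le : FQ m x ≤ 8 * b ^ 200
  x_ge : ∀ j : Fin 5, 2 ≤ j → P.Zp / b ^ 200 ≤ ‖x.1 j - cm m 0 1 x.1‖
  R3 : 1 / (2 * b ^ 77) ≤ Rg 3 x.1
  hard : ∀ i j : Fin 5, 2 ≤ i → 2 ≤ j → i ≠ j → -(3 * FQ m x) ≤ hp m i j x

/-- states with the compact triple `{0,1,2}` (mode III) -/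
structure S3 (P : Par) (b : ℝ) (m : Fin 5 → ℝ) (x : St d) : Prop where
  dT : ∀ i j : Fin 5, i ≤ 2 → j ≤ 2 → ‖x.1 i - x.1 j‖ ≤ P.K3 / b ^ 96
  F_ge : b ^ 200 / 2 ≤ FT m x
  F_le : FT m x ≤ 40 * b ^ 200
  R3 : 1 / (2 * b ^ 77) ≤ Rg 3 x.1

/-- strict mode I -/
structure SI (P : Par) (D b : ℝ) (m : Fin 5 → ℝ) (x : St d) : Prop where
  r_le : ‖x.1 0 - x.1 1‖ ≤ P.Cr / b ^ 200
  F_ge : (1 - D) * b ^ 200 ≤ FQ m x
  F_le : FQ m x ≤ 4 * b ^ 200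
  x_ge : ∀ j : Fin 5, 2 ≤ j → 2 / b ^ 96 ≤ ‖x.1 j - cm m 0 1 x.1‖
  h_ge : ∀ j : Fin 5, 2 ≤ j → ‖x.1 j - cm m 0 1 x.1‖ < P.K2 / b ^ 96 → -P.L1 b ≤ hh m j x
  R3 : 1 / (2 * b ^ 77) ≤ Rg 3 x.1
  hard : ∀ i j : Fin 5, 2 ≤ i → 2 ≤ j → i ≠ j → -(2 * FQ m x) ≤ hp m i j x

/-- entry of mode III -/
structure SIII (P : Par) (D b : ℝ) (m : Fin 5 → ℝ) (x : St d) : Prop where
  dT : ∀ i j : Fin 5, i ≤ 2 → j ≤ 2 → ‖x.1 i - x.1 j‖ ≤ 3 * P.K2 / b ^ 96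
  F_ge : (1 - D) * b ^ 200 ≤ FT m x - P.L1 b
  F_le : FT m x ≤ 20 * b ^ 200
  R3 : 1 / (2 * b ^ 77) ≤ Rg 3 x.1

/-- the condition on a pair at `(X, V)` and `(Y, U)` in `Good` -/
def GoodPair (Kg b w : ℝ) (X V Y U : Sp d) : Prop :=
  b ^ 10 + Kg * b ^ 96 / w ≤ ‖V - U‖ ∧
    Kg * b ^ 100 * (b ^ 96 / w + 1 / b ^ 3) ≤ jw (X - Y) (V - U)

/-- good exits of the body `2` from the hard pair -/
structure Good (P : Par) (b : ℝ) (m : Fin 5 → ℝ) (x : St d) : Prop where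
  w_ge : P.Kg * b ^ 48 ≤ ‖x.2 2 - cm m 0 1 x.2‖
  far3 : 1 ≤ ‖x.1 3 - cm m 0 1 x.1‖
  far4 : 1 ≤ ‖x.1 4 - cm m 0 1 x.1‖
  far34 : 1 ≤ ‖x.1 3 - x.1 4‖
  pairs : ∀ j : Fin 5, 3 ≤ j →
    GoodPair P.Kg b ‖x.2 2 - cm m 0 1 x.2‖ (cm m 0 1 x.1) (cm m 0 1 x.2) (x.1 j) (x.2 j) ∧
    GoodPair P.Kg b ‖x.2 2 - cm m 0 1 x.2‖ (x.1 2) (x.2 2) (x.1 j) (x.2 j)
  v34 : b ^ 10 ≤ ‖x.2 3 - x.2 4‖
  j34 : b ^ 97 ≤ jw (x.1 3 - x.1 4) (x.2 3 - x.2 4)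

/-- weight of an exit with relative position `x` and velocity `w` -/
noncomputable def Wt (b : ℝ) (x w : Sp d) : ℝ :=
  1 / (1 + (b ^ 200 * min (jw x w ^ 2) (jw x w / ‖w‖)) ^ 3)

/-! ## The start -/

/-- `0, 1` is the closest pair -/
def Closest (q : Cf 5 d) : Prop := ∀ i j : Fin 5, i ≠ j → ‖q 0 - q 1‖ ≤ ‖q i - q j‖

/-- the levels: `lev k ^ 100 = 2 ^ k` -/
noncomputable def lev (k : ℕ) : ℝ := (2 : ℝ) ^ ((k : ℝ) / 100)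

/-- `cn n ^ 20 = 2 ^ n = 1 / rho_n` -/
noncomputable def cn (n : ℕ) : ℝ := (2 : ℝ) ^ ((n : ℝ) / 20)

/-- bad crossing states: `w` is the relative velocity of the second link, `κ` the outer kinetic
energy -/
def BadCore (n : ℕ) (w κ κQ R3 : ℝ) : Prop :=
  (w ≤ cn n ^ 22 ∧ κ ≤ cn n ^ 16) ∨
  (w ≤ cn n ^ 22 ∧ cn n ^ 16 ≤ κ ∧
    ∃ k, lev k ^ 200 ≤ κ ∧ κ < 4 * lev k ^ 200 ∧ R3 < 32 / lev k ^ 77) ∨
  (cn n ^ 22 ≤ w ∧ ∃ k, lev k ^ 200 ≤ κQ ∧ κQ < 4 * lev k ^ 200 ∧ R3 < 32 / lev k ^ 77)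

/-- bad crossing states in which `0, 1, 2` are close -/
def BadT (n : ℕ) (m : Fin 5 → ℝ) (x : St d) : Prop :=
  Closest x.1 ∧ 1 / cn n ^ 20 ≤ Rg 4 x.1 ∧ ‖x.1 0 - x.1 2‖ ≤ 2 / cn n ^ 20 ∧
    BadCore n ‖x.2 2 - cm m 0 1 x.2‖ (KT m x.2) (KQ m x.2) (Rg 3 x.1)

/-- bad crossing states in which `0, 1` and `2, 3` are close -/
def BadP (n : ℕ) (m : Fin 5 → ℝ) (x : St d) : Prop :=
  Closest x.1 ∧ 1 / cn n ^ 20 ≤ Rg 4 x.1 ∧ ‖x.1 2 - x.1 3‖ ≤ 2 / cn n ^ 20 ∧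
    BadCore n ‖x.2 2 - x.2 3‖ (KP m x.2) (KQ m x.2) (Rg 3 x.1)

/-! ## The weight -/

open scoped Classical in
/-- the function `f` on the set of the `x` with `p x`, zero elsewhere -/
noncomputable def onSet (p : Prop) (f : ℝ) : ℝ≥0∞ := if p then ENNReal.ofReal f else 0

/-- crossings of the third linkage -/
noncomputable def gP (P : Par) (b : ℝ) (m : Fin 5 → ℝ) (x : St d) : ℝ≥0∞ :=
  onSet ((S1 P b m x ∨ S3 P b m x) ∧ Rg 3 x.1 ≤ 1 / b ^ 77) (b ^ 77 * √(Kin m x.2))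

/-- drift in mode III -/
noncomputable def gD (P : Par) (b : ℝ) (m : Fin 5 → ℝ) (x : St d) : ℝ≥0∞ :=
  onSet (S3 P b m x ∧ (‖x.1 3 - cm3 m 0 1 2 x.1‖ ≤ 1 / b ^ 50 ∨
    ‖x.1 4 - cm3 m 0 1 2 x.1‖ ≤ 1 / b ^ 50)) (b ^ 20)

/-- exits -/
noncomputable def gX (P : Par) (b : ℝ) (m : Fin 5 → ℝ) (x : St d) : ℝ≥0∞ :=
  onSet (S1 P b m x ∧ 1 / b ^ 96 ≤ ‖x.1 2 - cm m 0 1 x.1‖ ∧
    ‖x.1 2 - cm m 0 1 x.1‖ ≤ 2 / b ^ 96 ∧ ¬ Good P b m x)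
    (b ^ 96 * ‖x.2 2 - cm m 0 1 x.2‖ * Wt b (x.1 2 - cm m 0 1 x.1) (x.2 2 - cm m 0 1 x.2))

/-- crossings of the second smallest distance -/
noncomputable def gB (n : ℕ) (m : Fin 5 → ℝ) (x : St d) : ℝ≥0∞ :=
  onSet (BadT n m x ∨ BadP n m x) (cn n ^ 20 * √(Kin m x.2))

/-- the weight (levels at least `P.k0`) -/
noncomputable def G (P : Par) (m : Fin 5 → ℝ) (x : St d) : ℝ≥0∞ :=
  ∑ s : Equiv.Perm (Fin 5),
    ((∑' k : ℕ, (gP P (lev (P.k0 + k)) (m ∘ s) (rel s x) +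
      gD P (lev (P.k0 + k)) (m ∘ s) (rel s x) + gX P (lev (P.k0 + k)) (m ∘ s) (rel s x))) +
      ∑' n : ℕ, gB n (m ∘ s) (rel s x))

/-! ## The context of the backward tracing -/

/-- a solution on `[τ, T)`, `T - τ ≤ 1`, with small weight and arbitrarily small `Rg 4` -/
structure Cx (P : Par) (ε : ℝ) (m : Fin 5 → ℝ) (γ : ℝ → St d) (τ T : ℝ) : Prop where
  hm : Mb P.M m
  hτ : τ < T
  hT : T ≤ τ + 1
  sol : SolOn (nfield m) (FreeSet 5 d) γ (Ico τ T)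
  inv : ∀ t ∈ Ico τ T, γ t ∈ Inv m P.R
  hG : ∫⁻ t in Ico τ T, G P m (γ t) ≤ ENNReal.ofReal ε
  lim : ∀ δ > 0, ∃ t ∈ Ico τ T, Rg 4 (γ t).1 < δ

/-- accumulated relative error -/
noncomputable def Dg (P : Par) (C : ℝ) (m : Fin 5 → ℝ) (γ : ℝ → St d) (t t1 : ℝ) (k1 : ℕ) : ℝ :=
  C * ((∫⁻ s in Icc t t1, G P m (γ s)).toReal + (t1 - t) / lev k1 ^ 50)

/-- all states in `[t, t1]` are in `S1` or `S3` at levels between `k1` and `k` -/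
def TG (P : Par) (m : Fin 5 → ℝ) (γ : ℝ → St d) (t t1 : ℝ) (k1 k : ℕ) : Prop :=
  ∀ s ∈ Icc t t1, ∃ k', k1 ≤ k' ∧ k' ≤ k ∧ ∃ σ : Equiv.Perm (Fin 5),
    S1 P (lev k') (m ∘ σ) (rel σ (γ s)) ∨ S3 P (lev k') (m ∘ σ) (rel σ (γ s))

/-- strict mode I is reached at the time `t` -/
def StrI (P : Par) (C : ℝ) (m : Fin 5 → ℝ) (γ : ℝ → St d) (t t1 : ℝ) (k1 k : ℕ) : Prop :=
  k1 ≤ k ∧ t ≤ t1 ∧ TG P m γ t t1 k1 k ∧
    ∃ σ : Equiv.Perm (Fin 5), SI P (Dg P C m γ t t1 k1) (lev k) (m ∘ σ) (rel σ (γ t))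

/-- mode III is entered at the time `t` -/
def StrIII (P : Par) (C : ℝ) (m : Fin 5 → ℝ) (γ : ℝ → St d) (t t1 : ℝ) (k1 k : ℕ) : Prop :=
  k1 ≤ k ∧ t ≤ t1 ∧ TG P m γ t t1 k1 k ∧
    ∃ σ : Equiv.Perm (Fin 5), SIII P (Dg P C m γ t t1 k1) (lev k) (m ∘ σ) (rel σ (γ t))

/-- the conclusion of the tracing: an outer energy at the time `τ` is large -/
def Done (m : Fin 5 → ℝ) (γ : ℝ → St d) (τ : ℝ) (k1 : ℕ) : Prop :=
  ∃ σ : Equiv.Perm (Fin 5), lev k1 ^ 200 / 2 ≤ FQ (m ∘ σ) (rel σ (γ τ)) ∨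
    lev k1 ^ 200 / 2 ≤ FT (m ∘ σ) (rel σ (γ τ))

end NB5
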