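import Mathlib
import Pool.Agent.HDN.ConsH
import Pool.Agent.HDN.ConsL
import Pool.Agent.NB5.Defs

/-!
# Conserved quantities and the Lagrange-Jacobi bound (project NB5)

`exists_inv`: every solution on `[0, T)` stays in some `Inv m R`. With `I = Iner`, `J = Jner`:
`I' = 2 J` and `J' = 2 E_rel + U ≥ 2 E_rel`, so `J s ≤ J t + C` for `s ≤ t`, and integrating
`I t ≤ I 0 + 2 T (J t + C)`.
-/

open MeasureTheory Set Filter Topology Metric
open scoped NNReal ENNReal RealInnerProductSpace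

namespace NB5

open HDN

variable {N d : ℕ} {m : Fin N → ℝ}

theorem sum_smul_cmv (hm : ∀ i, 0 < m i) (v : Cf N d) :
    (∑ a, m a) • cmv m v = ∑ a, m a • v a := by
  unfold cmv
  rcases isEmpty_or_nonempty (Fin N) with hN | hN
  · simp
  · have h : (∑ a, m a) ≠ 0 := (Finset.sum_pos (fun i _ => hm i) Finset.univ_nonempty).ne'
    rw [smul_smul, mul_inv_cancel₀ h, one_smul]

theorem hasDerivAt_cmv_pos {γ : ℝ → Ph N d} {t : ℝ} (h : HasDerivAt γ (nfield m (γ t)) t) :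
    HasDerivAt (fun s => cmv m (γ s).1) (cmv m (γ t).2) t := by
  unfold cmv
  exact (HasDerivAt.fun_sum fun a _ => (ConsH.pos_deriv h a).const_smul (m a)).const_smul
    ((∑ a, m a)⁻¹)

theorem hasDerivAt_cmv_vel {γ : ℝ → Ph N d} {t : ℝ} (h : HasDerivAt γ (nfield m (γ t)) t) :
    HasDerivAt (fun s => cmv m (γ s).2) 0 t := by
  have h1 : HasDerivAt (fun s => cmv m (γ s).2) ((∑ a, m a)⁻¹ • ∑ a, m a • acc m (γ t).1 a) t := by
    unfold cmv
    exact (HasDerivAt.fun_sum fun a _ => (ConsH.vel_deriv h a).const_smul (m a)).const_smul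
      ((∑ a, m a)⁻¹)
  rwa [ConsL.sum_acc, smul_zero] at h1

theorem hasDerivAt_iner {γ : ℝ → Ph N d} {t : ℝ} (h : HasDerivAt γ (nfield m (γ t)) t) :
    HasDerivAt (fun s => Iner m (γ s)) (2 * Jner m (γ t)) t := by
  have h1 : HasDerivAt (fun s => Iner m (γ s))
      (∑ a, m a * (2 * ⟪(γ t).1 a - cmv m (γ t).1, (γ t).2 a - cmv m (γ t).2⟫)) t := by
    unfold Iner
    refine HasDerivAt.fun_sum fun a _ => ?_
    exact (((ConsH.pos_deriv h a).sub (hasDerivAt_cmv_pos h)).norm_sq).const_mul _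
  refine h1.congr_deriv ?_
  unfold Jner
  rw [Finset.mul_sum]
  refine Finset.sum_congr rfl fun a _ => ?_
  ring

/-- the potential is homogeneous of degree `-1` -/
theorem sum_inner_acc {q : Cf N d} (hq : Free q) :
    ∑ a, m a * ⟪q a, acc m q a⟫ = -Pot m q := by
  have h1 : ∑ a, m a * ⟪q a, acc m q a⟫ =
      ∑ a, ∑ b ∈ Finset.univ.erase a, m a * m b / ‖q b - q a‖ ^ 3 * ⟪q a, q b - q a⟫ := by
    refine Finset.sum_congr rfl fun a _ => ?_
    unfold acc
    rw [inner_sum, Finset.mul_sum]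
    refine Finset.sum_congr rfl fun b _ => ?_
    rw [inner_smul_right]
    ring
  have h2 : ∑ a, ∑ b ∈ Finset.univ.erase a, m a * m b / ‖q b - q a‖ ^ 3 * ⟪q a, q b - q a⟫ =
      ∑ a, ∑ b ∈ Finset.univ.erase a, m a * m b / ‖q b - q a‖ ^ 3 * ⟪q b, q a - q b⟫ := by
    rw [ConsH.sum_erase_comm]
    refine Finset.sum_congr rfl fun a _ => Finset.sum_congr rfl fun b _ => ?_
    rw [norm_sub_rev (q a) (q b), mul_comm (m b) (m a)]
  have h3 : 2 * ∑ a, ∑ b ∈ Finset.univ.erase a,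
      m a * m b / ‖q b - q a‖ ^ 3 * ⟪q a, q b - q a⟫ =
      -∑ a, ∑ b ∈ Finset.univ.erase a, m a * m b / ‖q b - q a‖ := by
    rw [two_mul]
    nth_rewrite 2 [h2]
    rw [← Finset.sum_add_distrib, ← Finset.sum_neg_distrib]
    refine Finset.sum_congr rfl fun a _ => ?_
    rw [← Finset.sum_add_distrib, ← Finset.sum_neg_distrib]
    refine Finset.sum_congr rfl fun b hb => ?_
    have hne : q b - q a ≠ 0 := sub_ne_zero.2 (hq b a (Finset.ne_of_mem_erase hb))
    have hpos : 0 < ‖q b - q a‖ := norm_pos_iff.2 hne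
    have h4 : ⟪q a, q b - q a⟫ + ⟪q b, q a - q b⟫ = -‖q b - q a‖ ^ 2 := by
      rw [← real_inner_self_eq_norm_sq, ← neg_sub (q b) (q a), inner_neg_right,
        ← sub_eq_add_neg, ← inner_sub_left, ← neg_sub (q b) (q a), inner_neg_left]
    rw [← mul_add, h4]
    field_simp
  rw [h1]
  unfold Pot
  linarith

theorem pot_nonneg (hm : ∀ i, 0 < m i) (q : Cf N d) : 0 ≤ Pot m q := by
  unfold Pot
  refine mul_nonneg (by norm_num) (Finset.sum_nonneg fun a _ => Finset.sum_nonneg fun b _ => ?_)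
  have := hm a
  have := hm b
  positivity

theorem kin_cmv (hm : ∀ i, 0 < m i) (v : Cf N d) :
    ∑ a, m a * ‖v a - cmv m v‖ ^ 2 = 2 * Kin m v - (∑ a, m a) * ‖cmv m v‖ ^ 2 := by
  have h1 : ∀ a, m a * ‖v a - cmv m v‖ ^ 2 =
      m a * ‖v a‖ ^ 2 - 2 * ⟪m a • v a, cmv m v⟫ + m a * ‖cmv m v‖ ^ 2 := by
    intro a
    rw [norm_sub_sq_real, real_inner_smul_left]
    ring
  rw [Finset.sum_congr rfl fun a _ => h1 a, Finset.sum_add_distrib, Finset.sum_sub_distrib,
    ← Finset.mul_sum, ← sum_inner, ← sum_smul_cmv hm, real_inner_smul_left,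
    real_inner_self_eq_norm_sq, ← Finset.sum_mul]
  unfold Kin
  ring

theorem hasDerivAt_jner (hm : ∀ i, 0 < m i) {γ : ℝ → Ph N d} {t : ℝ} (hf : Free (γ t).1)
    (h : HasDerivAt γ (nfield m (γ t)) t) :
    HasDerivAt (fun s => Jner m (γ s))
      (2 * Ham m (γ t) - (∑ a, m a) * ‖cmv m (γ t).2‖ ^ 2 + Pot m (γ t).1) t := by
  have h1 : HasDerivAt (fun s => Jner m (γ s))
      (∑ a, m a * (⟪(γ t).1 a - cmv m (γ t).1, acc m (γ t).1 a - 0⟫ +
        ⟪(γ t).2 a - cmv m (γ t).2, (γ t).2 a - cmv m (γ t).2⟫)) t := by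
    unfold Jner
    refine HasDerivAt.fun_sum fun a _ => ?_
    exact (((ConsH.pos_deriv h a).sub (hasDerivAt_cmv_pos h)).inner ℝ
      ((ConsH.vel_deriv h a).sub (hasDerivAt_cmv_vel h))).const_mul _
  refine h1.congr_deriv ?_
  have h2 : ∀ a, m a * (⟪(γ t).1 a - cmv m (γ t).1, acc m (γ t).1 a - 0⟫ +
        ⟪(γ t).2 a - cmv m (γ t).2, (γ t).2 a - cmv m (γ t).2⟫) =
      m a * ⟪(γ t).1 a, acc m (γ t).1 a⟫ - ⟪cmv m (γ t).1, m a • acc m (γ t).1 a⟫ +
        m a * ‖(γ t).2 a - cmv m (γ t).2‖ ^ 2 := by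
    intro a
    rw [sub_zero, inner_sub_left, real_inner_self_eq_norm_sq, real_inner_smul_right]
    ring
  rw [Finset.sum_congr rfl fun a _ => h2 a, Finset.sum_add_distrib, Finset.sum_sub_distrib,
    ← inner_sum, ConsL.sum_acc, inner_zero_right, sum_inner_acc hf, kin_cmv hm]
  unfold Ham
  ring

theorem cmv_vel_const {γ : ℝ → Ph N d} {T : ℝ}
    (hγ : SolOn (nfield m) (FreeSet N d) γ (Ico 0 T)) :
    ∀ t ∈ Ico 0 T, cmv m (γ t).2 = cmv m (γ 0).2 := by
  intro t ht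
  have hd : ∀ s ∈ Icc 0 t, HasDerivAt (fun s => cmv m (γ s).2) 0 s := fun s hs =>
    hasDerivAt_cmv_vel (hγ s ⟨hs.1, hs.2.trans_lt ht.2⟩).2
  exact constant_of_has_deriv_right_zero (a := 0) (b := t)
    (fun s hs => (hd s hs).continuousAt.continuousWithinAt)
    (fun s hs => (hd s (Ico_subset_Icc_self hs)).hasDerivWithinAt) t (right_mem_Icc.2 ht.1)

theorem cmv_pos_le {γ : ℝ → Ph N d} {T : ℝ}
    (hγ : SolOn (nfield m) (FreeSet N d) γ (Ico 0 T)) :
    ∀ t ∈ Ico 0 T, ‖cmv m (γ t).1‖ ≤ ‖cmv m (γ 0).1‖ + ‖cmv m (γ 0).2‖ * t := by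
  intro t ht
  have h1 : ‖cmv m (γ t).1 - cmv m (γ 0).1‖ ≤ ‖cmv m (γ 0).2‖ * (t - 0) := by
    refine norm_image_sub_le_of_norm_deriv_le_segment' (f := fun s => cmv m (γ s).1)
      (f' := fun s => cmv m (γ s).2) (a := 0) (b := t) ?_ ?_ t (right_mem_Icc.2 ht.1)
    · intro s hs
      exact (hasDerivAt_cmv_pos (hγ s ⟨hs.1, hs.2.trans_lt ht.2⟩).2).hasDerivWithinAt
    · intro s hs
      rw [cmv_vel_const hγ s ⟨hs.1, hs.2.trans ht.2⟩]
  rw [sub_zero] at h1
  have h2 := norm_add_le (cmv m (γ t).1 - cmv m (γ 0).1) (cmv m (γ 0).1)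
  rw [sub_add_cancel] at h2
  linarith

/-- every solution on a bounded time interval stays in some `Inv m R` -/
theorem exists_inv (hm : ∀ i, 0 < m i) {γ : ℝ → Ph N d} {T : ℝ}
    (hγ : SolOn (nfield m) (FreeSet N d) γ (Ico 0 T)) :
    ∃ R : ℕ, ∀ t ∈ Ico 0 T, γ t ∈ Inv m (R : ℝ) := by
  rcases le_or_gt T 0 with hT | hT
  · refine ⟨0, fun t ht => ?_⟩
    exact absurd (ht.1.trans_lt ht.2) (not_lt.2 hT)
  set E := Ham m (γ 0) with hE
  set P := cmv m (γ 0).2 with hP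
  set C := 2 * |E| + (∑ a, m a) * ‖P‖ ^ 2 with hC
  have hMnn : 0 ≤ ∑ a, m a := Finset.sum_nonneg fun i _ => (hm i).le
  have hC0 : 0 ≤ C := by positivity
  have hham := ham_const hγ
  have hvel := cmv_vel_const hγ
  have hJ : ∀ t ∈ Ico 0 T, ∀ s ∈ Icc 0 t, Jner m (γ s) ≤ Jner m (γ t) + C * T := by
    intro t ht s hs
    have hmono : MonotoneOn (fun s => Jner m (γ s) + C * s) (Icc s t) := by
      refine monotoneOn_of_hasDerivWithinAt_nonneg (convex_Icc s t) (f' := fun u =>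
        (2 * Ham m (γ u) - (∑ a, m a) * ‖cmv m (γ u).2‖ ^ 2 + Pot m (γ u).1) + C) ?_ ?_ ?_
      · intro u hu
        have hu' : u ∈ Ico 0 T := ⟨hs.1.trans hu.1, hu.2.trans_lt ht.2⟩
        have h1 := (hasDerivAt_jner hm (hγ u hu').1 (hγ u hu').2).continuousAt
        exact (h1.add (continuousAt_const.mul continuousAt_id)).continuousWithinAt
      · intro u hu
        rw [interior_Icc] at hu
        have hu' : u ∈ Ico 0 T := ⟨hs.1.trans hu.1.le, hu.2.trans ht.2⟩
        have h1 := hasDerivAt_jner hm (hγ u hu').1 (hγ u hu').2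
        have h2 := (hasDerivAt_id u).const_mul C
        rw [mul_one] at h2
        exact (h1.add h2).hasDerivWithinAt
      · intro u hu
        rw [interior_Icc] at hu
        have hu' : u ∈ Ico 0 T := ⟨hs.1.trans hu.1.le, hu.2.trans ht.2⟩
        rw [hham u hu', hvel u hu']
        have h1 := pot_nonneg hm (γ u).1
        have h2 := neg_abs_le E
        rw [hC]
        linarith
    have h3 := hmono (left_mem_Icc.2 hs.2) (right_mem_Icc.2 hs.2) hs.2
    simp only at h3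
    have h4 : C * t - C * s ≤ C * T := by
      rw [← mul_sub]
      exact mul_le_mul_of_nonneg_left (by linarith [hs.1, ht.2]) hC0
    linarith
  have hI : ∀ t ∈ Ico 0 T, Iner m (γ t) ≤ Iner m (γ 0) + 2 * T * (|Jner m (γ t)| + C * T) := by
    intro t ht
    set D := 2 * (Jner m (γ t) + C * T) with hD
    have hanti : MonotoneOn (fun s => D * s - Iner m (γ s)) (Icc 0 t) := by
      refine monotoneOn_of_hasDerivWithinAt_nonneg (convex_Icc 0 t) (f' := fun u =>
        D - 2 * Jner m (γ u)) ?_ ?_ ?_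
      · intro u hu
        have hu' : u ∈ Ico 0 T := ⟨hu.1, hu.2.trans_lt ht.2⟩
        have h1 := (hasDerivAt_iner (hγ u hu').2).continuousAt
        exact ((continuousAt_const.mul continuousAt_id).sub h1).continuousWithinAt
      · intro u hu
        rw [interior_Icc] at hu
        have hu' : u ∈ Ico 0 T := ⟨hu.1.le, hu.2.trans ht.2⟩
        have h1 := hasDerivAt_iner (hγ u hu').2
        have h2 := (hasDerivAt_id u).const_mul D
        rw [mul_one] at h2
        exact (h2.sub h1).hasDerivWithinAt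
      · intro u hu
        rw [interior_Icc] at hu
        have h1 := hJ t ht u ⟨hu.1.le, hu.2.le⟩
        rw [hD]
        linarith
    have h3 := hanti (left_mem_Icc.2 ht.1) (right_mem_Icc.2 ht.1) ht.1
    simp only [mul_zero, zero_sub] at h3
    have h4 : D * t ≤ 2 * T * (|Jner m (γ t)| + C * T) := by
      have h5 : D ≤ 2 * (|Jner m (γ t)| + C * T) := by
        rw [hD]
        linarith [le_abs_self (Jner m (γ t))]
      have h6 : 0 ≤ 2 * (|Jner m (γ t)| + C * T) := by positivity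
      calc D * t ≤ 2 * (|Jner m (γ t)| + C * T) * t := mul_le_mul_of_nonneg_right h5 ht.1
        _ ≤ 2 * (|Jner m (γ t)| + C * T) * T := mul_le_mul_of_nonneg_left ht.2.le h6
        _ = _ := by ring
    linarith
  obtain ⟨R, hR⟩ := exists_nat_ge (|E| + ‖Lop m (γ 0)‖ + (‖cmv m (γ 0).1‖ + ‖P‖ * T) + ‖P‖ +
    (|Iner m (γ 0)| + 2 * T * (C * T)) + 2 * T)
  have e1 := abs_nonneg E
  have e2 := norm_nonneg (Lop m (γ 0))
  have e3 := norm_nonneg (cmv m (γ 0).1)
  have e4 := norm_nonneg P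
  have e5 := abs_nonneg (Iner m (γ 0))
  have e6 : 0 ≤ ‖P‖ * T := by positivity
  have e7 : 0 ≤ 2 * T * (C * T) := by positivity
  refine ⟨R, fun t ht => ⟨(hγ t ht).1, ?_, ?_, ?_, ?_, ?_⟩⟩
  · rw [hham t ht]
    linarith
  · rw [lop_const hγ t ht]
    linarith
  · refine (cmv_pos_le hγ t ht).trans ?_
    have : ‖cmv m (γ 0).2‖ * t ≤ ‖P‖ * T := mul_le_mul_of_nonneg_left ht.2.le e4
    linarith
  · rw [hvel t ht]
    linarith
  · refine (hI t ht).trans ?_
    have h1 := le_abs_self (Iner m (γ 0))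
    have h2 : 0 ≤ |Jner m (γ t)| := abs_nonneg _
    have h3 : 2 * T * |Jner m (γ t)| ≤ R * |Jner m (γ t)| :=
      mul_le_mul_of_nonneg_right (by linarith) h2
    have h4 : (R : ℝ) * (1 + |Jner m (γ t)|) = R + R * |Jner m (γ t)| := by ring
    rw [h4]
    have h5 : 2 * T * (|Jner m (γ t)| + C * T) = 2 * T * |Jner m (γ t)| + 2 * T * (C * T) := by
      ring
    rw [h5]
    linarith

end NB5
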