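import Mathlib
import Pool.Agent.HDN.FinB
import Pool.Agent.HDN.Final
import Pool.Agent.NB5.Defs

/-!
# Singularities with an isolated pair (project NB5)

If on `[0, T)` there is at every time a pair such that all other distances are at least `δ`, a
singularity at `T` is a collision of exactly two bodies; these initial conditions form a null set.
So for almost every initial state `Rg 4` comes arbitrarily close to `0` before a singularity.
-/

open MeasureTheory Set Filter Topology Metric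
open scoped NNReal ENNReal RealInnerProductSpace

namespace NB5

open HDN

variable {N d : ℕ} {m : Fin N → ℝ}

/-- all distances but the one of `a`, `b` are at least `δ` -/
def Iso (δ : ℝ) (a b : Fin N) (q : Cf N d) : Prop :=
  ∀ i j, i ≠ j → ¬ (i = a ∧ j = b) → ¬ (i = b ∧ j = a) → δ ≤ ‖q i - q j‖

theorem others_ne {a b c : Fin N} (hc : c ∈ others a b) : c ≠ a ∧ c ≠ b := by
  unfold others at hc
  rw [Finset.mem_erase, Finset.mem_erase] at hc
  exact ⟨hc.2.1, hc.1⟩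

theorem est_of_iso (hm : ∀ i, 0 < m i) {δ : ℝ} (hδ : 0 < δ) (E : ℝ) :
    ∃ A > 0, ∀ (x : Ph N d) (a b : Fin N), a ≠ b → Free x.1 → Ham m x = E →
      ‖x.1 a - x.1 b‖ ≤ δ / 8 → Iso δ a b x.1 → Est m A (δ / 2) a b x := by
  set U := (1 / 2) * ∑ i : Fin N, ∑ j : Fin N, m i * m j / δ with hU
  have hU0 : 0 ≤ U := by
    rw [hU]
    refine mul_nonneg (by norm_num) (Finset.sum_nonneg fun i _ => Finset.sum_nonneg fun j _ => ?_)
    have := hm i
    have := hm j
    positivity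
  obtain ⟨μ, hμ, hμle⟩ : ∃ μ > 0, ∀ a b, a ≠ b → μ ≤ (1 / 2) * (m a * m b / (m a + m b)) := by
    have h1 : ∀ p : Fin N × Fin N, 0 < (1 / 2) * (m p.1 * m p.2 / (m p.1 + m p.2)) := by
      intro p
      have := hm p.1
      have := hm p.2
      positivity
    rcases isEmpty_or_nonempty (Fin N × Fin N) with hN | hN
    · exact ⟨1, one_pos, fun a b _ => (hN.false (a, b)).elim⟩
    · obtain ⟨p, hp⟩ := Finite.exists_min
        (fun p : Fin N × Fin N => (1 / 2) * (m p.1 * m p.2 / (m p.1 + m p.2)))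
      exact ⟨_, h1 p, fun a b _ => hp (a, b)⟩
  set S := ∑ i : Fin N, ∑ j : Fin N, m i * m j with hS
  have hS0 : 0 ≤ S := by
    refine Finset.sum_nonneg fun i _ => Finset.sum_nonneg fun j _ => ?_
    have := hm i
    have := hm j
    positivity
  have hmm : ∀ a b, m a * m b ≤ S := by
    intro a b
    have h1 : m a * m b ≤ ∑ j : Fin N, m a * m j :=
      Finset.single_le_sum (f := fun j => m a * m j) (fun j _ => by
        have := hm a
        have := hm j
        positivity) (Finset.mem_univ b)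
    have h2 : ∑ j : Fin N, m a * m j ≤ S :=
      Finset.single_le_sum (f := fun i => ∑ j : Fin N, m i * m j) (fun i _ =>
        Finset.sum_nonneg fun j _ => by
          have := hm i
          have := hm j
          positivity) (Finset.mem_univ a)
    exact h1.trans h2
  set A0 := δ * (|E| + U + 1) + S with hA0
  have hA00 : 0 < A0 := by
    have := abs_nonneg E
    positivity
  refine ⟨A0 + A0 / μ, by positivity, fun x a b hab hfree hH hr hiso => ?_⟩
  set r := ‖x.1 a - x.1 b‖ with hrdef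
  have hr0 : 0 < r := norm_pos_iff.2 (sub_ne_zero.2 (hfree a b hab))
  have hK := kin_split hm hab x.2
  have hP := BinA_pot hm hab hδ x.1 hiso
  have hKr := BinA_kred_nonneg hm a b x.2
  rw [abs_le] at hP
  have hE1 : Kred m a b x.2 + (1 / 2) * (m a * m b / (m a + m b)) * ‖x.2 a - x.2 b‖ ^ 2 ≤
      |E| + U + m a * m b / r := by
    have h1 : Kin m x.2 = E + Pot m x.1 := by
      rw [← hH]
      unfold Ham
      ring
    rw [← hK, h1]
    have := le_abs_self E
    linarith [hP.2]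
  have hmr : r * (m a * m b / r) = m a * m b := by field_simp
  have hE2 : r * (Kred m a b x.2 + 1 +
      (1 / 2) * (m a * m b / (m a + m b)) * ‖x.2 a - x.2 b‖ ^ 2) ≤ A0 := by
    have h1 : r * (Kred m a b x.2 + 1 +
        (1 / 2) * (m a * m b / (m a + m b)) * ‖x.2 a - x.2 b‖ ^ 2) ≤
        r * (|E| + U + 1 + m a * m b / r) :=
      mul_le_mul_of_nonneg_left (by linarith) hr0.le
    have h2 : r * (|E| + U + 1 + m a * m b / r) = r * (|E| + U + 1) + m a * m b := by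
      rw [mul_add, hmr]
    have h3 : r * (|E| + U + 1) ≤ δ * (|E| + U + 1) := by
      have := abs_nonneg E
      exact mul_le_mul_of_nonneg_right (by linarith) (by positivity)
    have h4 := hmm a b
    rw [hA0]
    linarith
  have hv0 : 0 ≤ (1 / 2) * (m a * m b / (m a + m b)) * ‖x.2 a - x.2 b‖ ^ 2 := by
    have := hm a
    have := hm b
    positivity
  have hsq : 1 ≤ √(Kred m a b x.2 + 1) := by
    rw [Real.one_le_sqrt]
    linarith
  obtain ⟨hca, hcb⟩ := cm_dist hm hab x.1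
  have hdc : ∀ c ∈ others a b, δ ≤ ‖x.1 c - x.1 a‖ ∧ δ ≤ ‖x.1 c - x.1 b‖ ∧
      δ / 2 + 3 * r ≤ ‖x.1 c - cm m a b x.1‖ := by
    intro c hc
    obtain ⟨h1, h2⟩ := others_ne hc
    have h3 : δ ≤ ‖x.1 c - x.1 a‖ := hiso c a h1 (fun h => h1 h.1) (fun h => h2 h.1)
    have h4 : δ ≤ ‖x.1 c - x.1 b‖ := hiso c b h2 (fun h => h1 h.1) (fun h => h2 h.1)
    refine ⟨h3, h4, ?_⟩
    have h5 : ‖x.1 c - x.1 a‖ ≤ ‖x.1 c - cm m a b x.1‖ + ‖cm m a b x.1 - x.1 a‖ := by
      calc ‖x.1 c - x.1 a‖ = ‖(x.1 c - cm m a b x.1) + (cm m a b x.1 - x.1 a)‖ := by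
            congr 1
            abel
        _ ≤ _ := norm_add_le _ _
    linarith
  have hA1 : A0 ≤ A0 + A0 / μ := by
    have : 0 ≤ A0 / μ := by positivity
    linarith
  refine ⟨?_, ?_, ?_, ?_⟩
  · refine le_trans ?_ hA1
    refine le_trans ?_ hE2
    exact mul_le_mul_of_nonneg_left (by linarith) hr0.le
  · have h1 : μ * (r * ‖x.2 a - x.2 b‖ ^ 2) ≤ A0 := by
      have h2 : μ * (r * ‖x.2 a - x.2 b‖ ^ 2) ≤
          r * ((1 / 2) * (m a * m b / (m a + m b)) * ‖x.2 a - x.2 b‖ ^ 2) := by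
        have h3 := hμle a b hab
        have h4 : 0 ≤ r * ‖x.2 a - x.2 b‖ ^ 2 := by positivity
        nlinarith
      refine h2.trans (le_trans ?_ hE2)
      exact mul_le_mul_of_nonneg_left (by linarith) hr0.le
    have h2 : r * ‖x.2 a - x.2 b‖ ^ 2 ≤ A0 / μ := by
      rw [le_div_iff₀ hμ]
      linarith
    linarith
  · intro c hc
    obtain ⟨h1, h2, h3⟩ := hdc c hc
    refine ⟨?_, by linarith, by linarith, by linarith⟩
    have h4 : ‖x.1 c - cm m a b x.1‖ ≤ √(Kred m a b x.2 + 1) * ‖x.1 c - cm m a b x.1‖ :=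
      le_mul_of_one_le_left (norm_nonneg _) hsq
    linarith
  · intro c hc e he hce
    obtain ⟨h1, h2⟩ := others_ne hc
    obtain ⟨h3, h4⟩ := others_ne he
    have h5 : δ ≤ ‖x.1 c - x.1 e‖ := hiso c e hce (fun h => h1 h.1) (fun h => h2 h.1)
    have h6 : ‖x.1 c - x.1 e‖ ≤ √(Kred m a b x.2 + 1) * ‖x.1 c - x.1 e‖ :=
      le_mul_of_one_le_left (norm_nonneg _) hsq
    exact ⟨by linarith, by linarith⟩

/-- a singularity with an isolated pair is a binary collision -/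
theorem binEnd_of_iso (hm : ∀ i, 0 < m i) {γ : ℝ → Ph N d} {T : ℝ} (hT : 0 < T)
    (hγ : SolOn (nfield m) (FreeSet N d) γ (Ico 0 T))
    (hK : ∀ K, IsCompact K → K ⊆ FreeSet N d → ∃ t ∈ Ico 0 T, γ t ∉ K)
    {δ : ℝ} (hδ : 0 < δ) (hiso : ∀ t ∈ Ico 0 T, ∃ a b, a ≠ b ∧ Iso δ a b (γ t).1) :
    ∃ a b, a ≠ b ∧ BinEnd m a b γ T := by
  have hP := painleve hm hT hγ hK
  have hspec : ∀ t ∈ Ico 0 T, ∀ a b, a ≠ b → ‖(γ t).1 a - (γ t).1 b‖ ≤ δ / 8 →
      Iso δ a b (γ t).1 := by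
    intro t ht a b hab hr
    obtain ⟨a', b', _, h1⟩ := hiso t ht
    have h2 : (a = a' ∧ b = b') ∨ (a = b' ∧ b = a') := by
      by_contra hcon
      rw [not_or] at hcon
      have := h1 a b hab hcon.1 hcon.2
      linarith
    intro i j hij h3 h4
    rcases h2 with ⟨rfl, rfl⟩ | ⟨rfl, rfl⟩
    · exact h1 i j hij h3 h4
    · exact h1 i j hij h4 h3
  have hcont : ContinuousOn γ (Ico 0 T) := fun t ht =>
    (hγ t ht).2.continuousAt.continuousWithinAt
  obtain ⟨a, b, hab, t₀, ht₀, hpair⟩ := exists_pair hcont (fun t ht => (hγ t ht).1) hP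
    (show 0 < δ / 8 by positivity) (fun t ht a b hab h1 _ i j hij h3 h4 => by
      have := hspec t ht a b hab h1 i j hij h3 h4
      linarith)
  obtain ⟨A, hA, hest⟩ := est_of_iso (N := N) (d := d) hm hδ (Ham m (γ 0))
  refine ⟨a, b, hab, binEnd_of_est hm ht₀ hA (show 0 < δ / 2 by positivity) hγ (ham_const hγ) hab
    (fun t ht => ?_) ?_⟩
  · have ht' : t ∈ Ico 0 T := ⟨ht₀.1.trans ht.1, ht.2⟩
    exact hest (γ t) a b hab (hγ t ht').1 (ham_const hγ t ht') (hpair t ht).1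
      (hspec t ht' a b hab (hpair t ht).1)
  · rw [Metric.tendsto_nhds]
    intro ε hε
    obtain ⟨t₁, ht₁, h1⟩ := hP ε hε
    have hmem : Ioo (max t₀ t₁) T ∈ 𝓝[<] T := Ioo_mem_nhdsLT (max_lt ht₀.2 ht₁.2)
    filter_upwards [hmem] with t ht
    have ht0 : t ∈ Ico t₀ T := ⟨((le_max_left _ _).trans_lt ht.1).le, ht.2⟩
    obtain ⟨i, j, hij, h2⟩ := h1 t ⟨((le_max_right _ _).trans_lt ht.1).le, ht.2⟩
    rw [Real.dist_eq, sub_zero, abs_of_nonneg (norm_nonneg _)]
    exact ((hpair t ht0).2 i j hij).trans_lt h2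

/-- for almost every initial state there is no singularity with an isolated pair -/
theorem iso_null (hd : 3 ≤ d) (hm : ∀ i, 0 < m i) :
    ∀ᵐ x : Ph N d, ∀ T > 0, ∀ γ : ℝ → Ph N d, γ 0 = x →
      SolOn (nfield m) (FreeSet N d) γ (Ico 0 T) →
      (∀ K, IsCompact K → K ⊆ FreeSet N d → ∃ t ∈ Ico 0 T, γ t ∉ K) →
      ∀ δ > 0, ∃ t ∈ Ico 0 T, ∀ a b, a ≠ b → ¬ Iso δ a b (γ t).1 := by
  have hnull : volume (⋃ (a : Fin N) (b : Fin N) (hab : a ≠ b),
        {x : Ph N d | ∃ q : ℚ, (0 : ℝ) ≤ q ∧ ∃ γ : ℝ → Ph N d, γ 0 = x ∧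
          SolOn (nfield m) (FreeSet N d) γ (Icc 0 (q : ℝ)) ∧ γ q ∈ Ncol m hab}) = 0 := by
    refine measure_iUnion_null fun a => measure_iUnion_null fun b =>
      measure_iUnion_null fun hab => ?_
    exact null_of_reach volume (isOpen_freeSet (N := N) (d := d)) (contDiffOn_nfield (m := m))
      (Ncol_null hd hab)
  have hae := measure_eq_zero_iff_ae_notMem.1 hnull
  filter_upwards [hae] with x hx T hT γ h0 hγ hK δ hδ
  by_contra hcon
  push Not at hcon
  obtain ⟨a, b, hab, hB⟩ := binEnd_of_iso hm hT hγ hK hδ hcon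
  obtain ⟨t₀, ht₀, hmem⟩ := mem_Ncol hm hab hT hγ hB
  obtain ⟨q, hq1, hq2⟩ := exists_rat_btwn ht₀.2
  apply hx
  simp only [mem_iUnion]
  refine ⟨a, b, hab, q, ht₀.1.trans hq1.le, γ, h0, ?_, hmem q ⟨hq1.le, hq2⟩⟩
  intro t ht
  exact hγ t ⟨ht.1, ht.2.trans_lt hq2⟩

theorem rg_mem {k : ℕ} (hk : 2 ≤ k) (hk5 : k ≤ 5) (q : Cf 5 d) :
    ∃ p : Fin 5 → Fin k, Function.Surjective p ∧ ∀ i j, p i ≠ p j → Rg k q ≤ ‖q i - q j‖ := by
  classical
  set A : Set ℝ := {s : ℝ | ∃ p : Fin 5 → Fin k, Function.Surjective p ∧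
    ∀ i j, p i ≠ p j → s ≤ ‖q i - q j‖} with hA
  have hcl : IsClosed A := by
    have h1 : A = ⋃ p ∈ {p : Fin 5 → Fin k | Function.Surjective p},
        ⋂ (i : Fin 5) (j : Fin 5) (_ : p i ≠ p j), Iic ‖q i - q j‖ := by
      ext s
      simp only [hA, mem_ofPred_eq, mem_iUnion, mem_iInter, mem_Iic, exists_prop]
    rw [h1]
    refine (Set.toFinite _).isClosed_biUnion fun p _ => ?_
    exact isClosed_iInter fun i => isClosed_iInter fun j => isClosed_iInter fun _ => isClosed_Iic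
  have hne : A.Nonempty := by
    refine ⟨0, fun i => ⟨min i (k - 1), by omega⟩, ?_, fun i j _ => norm_nonneg _⟩
    intro y
    have hy := y.2
    refine ⟨⟨y, by omega⟩, ?_⟩
    apply Fin.ext
    show min (y : ℕ) (k - 1) = y
    omega
  have hbdd : BddAbove A := by
    refine ⟨2 * ‖q‖, ?_⟩
    rintro s ⟨p, hp, h⟩
    obtain ⟨i, hi⟩ := hp ⟨0, by omega⟩
    obtain ⟨j, hj⟩ := hp ⟨1, by omega⟩
    have h1 : p i ≠ p j := by
      rw [hi, hj]
      intro h2
      have := congrArg Fin.val h2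
      simp at this
    have h2 := norm_sub_le (q i) (q j)
    have h3 := norm_le_pi_norm q i
    have h4 := norm_le_pi_norm q j
    linarith [h i j h1]
  exact hcl.csSup_mem hne hbdd

theorem le_rg {k : ℕ} (hk : 2 ≤ k) (q : Cf 5 d) {s : ℝ} {p : Fin 5 → Fin k}
    (hp : Function.Surjective p) (h : ∀ i j, p i ≠ p j → s ≤ ‖q i - q j‖) : s ≤ Rg k q := by
  have hbdd : BddAbove {s : ℝ | ∃ p : Fin 5 → Fin k, Function.Surjective p ∧
      ∀ i j, p i ≠ p j → s ≤ ‖q i - q j‖} := by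
    refine ⟨2 * ‖q‖, ?_⟩
    rintro s ⟨p, hp, h⟩
    obtain ⟨i, hi⟩ := hp ⟨0, by omega⟩
    obtain ⟨j, hj⟩ := hp ⟨1, by omega⟩
    have h1 : p i ≠ p j := by
      rw [hi, hj]
      intro h2
      have := congrArg Fin.val h2
      simp at this
    have h2 := norm_sub_le (q i) (q j)
    have h3 := norm_le_pi_norm q i
    have h4 := norm_le_pi_norm q j
    linarith [h i j h1]
  exact le_csSup hbdd ⟨p, hp, h⟩

/-- if `Rg 4` is at least `δ`, all distances but one are at least `δ` -/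
theorem iso_of_rg {δ : ℝ} {q : Cf 5 d} (h : δ ≤ Rg 4 q) : ∃ a b, a ≠ b ∧ Iso δ a b q := by
  classical
  obtain ⟨p, hps, hp⟩ := rg_mem (k := 4) (by norm_num) (by norm_num) q
  obtain ⟨a, b, hab, hpab⟩ := Fintype.exists_ne_map_eq_of_card_lt p (by simp)
  refine ⟨a, b, hab, ?_⟩
  -- `p` is injective away from `b`
  have hinj : Function.Injective (fun x : {x : Fin 5 // x ≠ b} => p x) := by
    have hsurj : Function.Surjective (fun x : {x : Fin 5 // x ≠ b} => p x) := by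
      intro y
      obtain ⟨x, hx⟩ := hps y
      by_cases hxb : x = b
      · exact ⟨⟨a, hab⟩, by rw [hxb] at hx; exact hpab.trans hx⟩
      · exact ⟨⟨x, hxb⟩, hx⟩
    have hcard : ∀ b : Fin 5, Fintype.card {x : Fin 5 // x ≠ b} = 4 := by decide
    refine ((Fintype.bijective_iff_surjective_and_card _).2 ⟨hsurj, ?_⟩).1
    rw [hcard b, Fintype.card_fin]
  intro i j hij h1 h2
  refine h.trans (hp i j ?_)
  intro hpij
  by_cases hib : i = b
  · have hja : j ≠ a := fun hja => h2 ⟨hib, hja⟩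
    have hjb : j ≠ b := fun hjb => hij (hib.trans hjb.symm)
    have h3 : p j = p a := by rw [← hpij, hib, hpab]
    have h4 := @hinj ⟨j, hjb⟩ ⟨a, hab⟩ h3
    exact hja (congrArg Subtype.val h4)
  · by_cases hjb : j = b
    · have hia : i ≠ a := fun hia => h1 ⟨hia, hjb⟩
      have h3 : p i = p a := by rw [hpij, hjb, hpab]
      have h4 := @hinj ⟨i, hib⟩ ⟨a, hab⟩ h3
      exact hia (congrArg Subtype.val h4)
    · have h4 := @hinj ⟨i, hib⟩ ⟨j, hjb⟩ hpij
      exact hij (congrArg Subtype.val h4)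

/-- `Rg k` is at least the smallest distance -/
theorem min_le_rg {k : ℕ} (hk : 2 ≤ k) (hk5 : k ≤ 5) {δ : ℝ} {q : Cf 5 d}
    (h : ∀ i j, i ≠ j → δ ≤ ‖q i - q j‖) : δ ≤ Rg k q := by
  refine le_rg hk q (p := fun i => ⟨min i (k - 1), by omega⟩) ?_ ?_
  · intro y
    have hy := y.2
    refine ⟨⟨y, by omega⟩, ?_⟩
    apply Fin.ext
    show min (y : ℕ) (k - 1) = y
    omega
  · intro i j hij
    apply h
    rintro rfl
    exact hij rfl

/-- for almost every initial state `Rg 4` comes arbitrarily close to zero before a singularity -/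
theorem rg_null (hd : 3 ≤ d) {m : Fin 5 → ℝ} (hm : ∀ i, 0 < m i) :
    ∀ᵐ x : Ph 5 d, ∀ T > 0, ∀ γ : ℝ → Ph 5 d, γ 0 = x →
      SolOn (nfield m) (FreeSet 5 d) γ (Ico 0 T) →
      (∀ K, IsCompact K → K ⊆ FreeSet 5 d → ∃ t ∈ Ico 0 T, γ t ∉ K) →
      ∀ δ > 0, ∀ τ ∈ Ico 0 T, ∃ t ∈ Ico τ T, Rg 4 (γ t).1 < δ := by
  filter_upwards [iso_null (N := 5) (d := d) hd hm] with x hx T hT γ h0 hγ hK δ hδ τ hτ
  -- lower bound for the distances on `[0, τ]`
  have hcont : ContinuousOn γ (Icc 0 τ) := fun t ht =>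
    ((hγ t ⟨ht.1, lt_of_le_of_lt ht.2 hτ.2⟩).2).continuousAt.continuousWithinAt
  have h3 : ∀ p : Fin 5 × Fin 5, ∃ e > 0, p.1 ≠ p.2 →
      ∀ t ∈ Icc 0 τ, e ≤ ‖(γ t).1 p.1 - (γ t).1 p.2‖ := by
    rintro ⟨a, b⟩
    by_cases hab : a = b
    · exact ⟨1, one_pos, fun h => absurd hab h⟩
    · have hc : ContinuousOn (fun t => ‖(γ t).1 a - (γ t).1 b‖) (Icc 0 τ) := by
        have hc1 : Continuous fun x : Ph 5 d => ‖x.1 a - x.1 b‖ := by fun_prop
        exact hc1.comp_continuousOn hcont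
      obtain ⟨s, hs, hmin⟩ := isCompact_Icc.exists_isMinOn (nonempty_Icc.2 hτ.1) hc
      refine ⟨‖(γ s).1 a - (γ s).1 b‖, ?_, fun _ t ht => hmin ht⟩
      have hfree : Free (γ s).1 := (hγ s ⟨hs.1, lt_of_le_of_lt hs.2 hτ.2⟩).1
      exact norm_pos_iff.2 (sub_ne_zero.2 (hfree a b hab))
  choose e he hle using h3
  obtain ⟨p0, hp0⟩ := Finite.exists_min e
  obtain ⟨t, ht, hbad⟩ := hx T hT γ h0 hγ hK (min δ (e p0)) (lt_min hδ (he p0))
  have hlt : Rg 4 (γ t).1 < min δ (e p0) := by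
    by_contra hcon
    rw [not_lt] at hcon
    obtain ⟨a, b, hab, hiso⟩ := iso_of_rg hcon
    exact hbad a b hab hiso
  refine ⟨t, ⟨?_, ht.2⟩, hlt.trans_le (min_le_left _ _)⟩
  by_contra hcon
  rw [not_le] at hcon
  have h4 : e p0 ≤ Rg 4 (γ t).1 := by
    refine min_le_rg (by norm_num) (by norm_num) fun i j hij => ?_
    exact (hp0 (i, j)).trans (hle (i, j) hij t ⟨ht.1, hcon.le⟩)
  have h5 := hlt.trans_le (min_le_right δ (e p0))
  linarith

end NB5
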