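import Mathlib
import Pool.Agent.HDN.FlowC

/-!
# Liouville's theorem for truncated separable fields (project NB5)

`(q, v)' = (h v, a q)` with `h`, `a` bounded and Lipschitz. The symplectic Euler steps are
compositions of two shears, so they preserve the measure `μ.prod μ`; they converge to the flow.
Hence the image of the measure under the flow is at most the measure.
-/

open MeasureTheory Set Filter Topology Metric
open scoped NNReal ENNReal

namespace NB5

section Euler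

variable {E : Type*} [NormedAddCommGroup E] [NormedSpace ℝ E]

/-- symplectic Euler step -/
def eul (h a : E → E) (τ : ℝ) (x : E × E) : E × E :=
  (x.1 + τ • h x.2, x.2 + τ • a (x.1 + τ • h x.2))

variable {f : E × E → E × E} {K : Set (E × E)} (F : HDN.Flow f K) {h a : E → E}

theorem h_lip (hg : ∀ x, F.g x = (h x.2, a x.1)) (v w : E) : ‖h v - h w‖ ≤ F.L * ‖v - w‖ := by
  have h1 := F.lip.dist_le_mul ((0 : E), v) ((0 : E), w)
  rw [hg, hg, dist_eq_norm, dist_eq_norm, Prod.norm_def, Prod.norm_def] at h1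
  simp only [Prod.fst_sub, Prod.snd_sub, sub_self, norm_zero] at h1
  rw [max_eq_right (norm_nonneg (v - w))] at h1
  exact (le_max_left _ _).trans h1

theorem a_lip (hg : ∀ x, F.g x = (h x.2, a x.1)) (v w : E) : ‖a v - a w‖ ≤ F.L * ‖v - w‖ := by
  have h1 := F.lip.dist_le_mul (v, (0 : E)) (w, (0 : E))
  rw [hg, hg, dist_eq_norm, dist_eq_norm, Prod.norm_def, Prod.norm_def] at h1
  simp only [Prod.fst_sub, Prod.snd_sub, sub_self, norm_zero] at h1
  rw [max_eq_left (norm_nonneg (v - w))] at h1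
  exact (le_max_right _ _).trans h1

theorem h_bdd (hg : ∀ x, F.g x = (h x.2, a x.1)) (v : E) : ‖h v‖ ≤ F.C := by
  have h1 := F.bdd ((0 : E), v)
  rw [hg, Prod.norm_def] at h1
  exact (le_max_left _ _).trans h1

theorem h_cont (hg : ∀ x, F.g x = (h x.2, a x.1)) : Continuous h :=
  (LipschitzWith.of_dist_le_mul (K := F.L) fun v w => by
    rw [dist_eq_norm, dist_eq_norm]
    exact h_lip F hg v w).continuous

theorem a_cont (hg : ∀ x, F.g x = (h x.2, a x.1)) : Continuous a :=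
  (LipschitzWith.of_dist_le_mul (K := F.L) fun v w => by
    rw [dist_eq_norm, dist_eq_norm]
    exact a_lip F hg v w).continuous

/-- local error -/
theorem eul_err (hg : ∀ x, F.g x = (h x.2, a x.1)) {τ : ℝ} (hτ : 0 ≤ τ) (x : E × E) :
    ‖F.Φ τ x - eul h a τ x‖ ≤ 2 * F.L * F.C * τ ^ 2 := by
  have h1 : ‖F.Φ τ x - (x + τ • F.g x)‖ ≤ F.L * F.C * τ ^ 2 := by
    have hd : ∀ s ∈ Icc (0 : ℝ) τ, HasDerivWithinAt (fun s => F.Φ s x - s • F.g x)
        (F.g (F.Φ s x) - F.g x) (Icc 0 τ) s := by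
      intro s _
      have e1 := F.deriv x s
      have e2 := (hasDerivAt_id s).smul_const (F.g x)
      rw [one_smul] at e2
      exact (e1.sub e2).hasDerivWithinAt
    have hb : ∀ s ∈ Icc (0 : ℝ) τ, ‖F.g (F.Φ s x) - F.g x‖ ≤ F.L * F.C * τ := by
      intro s hs
      have e1 := F.lip.dist_le_mul (F.Φ s x) x
      rw [dist_eq_norm, dist_eq_norm] at e1
      have e2 := F.dist_time x s 0
      rw [F.zero, dist_eq_norm, Real.dist_eq, sub_zero, abs_of_nonneg hs.1] at e2
      have e3 : (0 : ℝ) ≤ F.L := F.L.2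
      have e4 : (0 : ℝ) ≤ F.C := F.C.2
      calc ‖F.g (F.Φ s x) - F.g x‖ ≤ F.L * ‖F.Φ s x - x‖ := e1
        _ ≤ F.L * (F.C * s) := mul_le_mul_of_nonneg_left e2 e3
        _ ≤ F.L * (F.C * τ) := by
          apply mul_le_mul_of_nonneg_left _ e3
          exact mul_le_mul_of_nonneg_left hs.2 e4
        _ = F.L * F.C * τ := by ring
    have h2 := (convex_Icc (0 : ℝ) τ).norm_image_sub_le_of_norm_hasDerivWithin_le hd hb
      (left_mem_Icc.2 hτ) (right_mem_Icc.2 hτ)
    simp only [F.zero, zero_smul, sub_zero, Real.norm_eq_abs, abs_of_nonneg hτ] at h2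
    have h3 : F.Φ τ x - (x + τ • F.g x) = F.Φ τ x - τ • F.g x - x := by abel
    rw [h3]
    calc _ ≤ _ := h2
      _ = _ := by ring
  have h4 : ‖(x + τ • F.g x) - eul h a τ x‖ ≤ F.L * F.C * τ ^ 2 := by
    rw [hg]
    unfold eul
    rw [Prod.norm_def]
    simp only [Prod.fst_sub, Prod.snd_sub, Prod.fst_add, Prod.snd_add, Prod.smul_fst,
      Prod.smul_snd, sub_self, norm_zero]
    have e3 : (0 : ℝ) ≤ F.L := F.L.2
    have e4 : (0 : ℝ) ≤ F.C := F.C.2
    refine max_le (by positivity) ?_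
    rw [add_sub_add_left_eq_sub, ← smul_sub, norm_smul, Real.norm_eq_abs, abs_of_nonneg hτ]
    have e1 := a_lip F hg x.1 (x.1 + τ • h x.2)
    rw [sub_add_cancel_left, norm_neg, norm_smul, Real.norm_eq_abs, abs_of_nonneg hτ] at e1
    have e2 := h_bdd F hg x.2
    calc τ * ‖a x.1 - a (x.1 + τ • h x.2)‖ ≤ τ * (F.L * (τ * ‖h x.2‖)) :=
          mul_le_mul_of_nonneg_left e1 hτ
      _ ≤ τ * (F.L * (τ * F.C)) := by
          apply mul_le_mul_of_nonneg_left _ hτ
          apply mul_le_mul_of_nonneg_left _ e3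
          exact mul_le_mul_of_nonneg_left e2 hτ
      _ = F.L * F.C * τ ^ 2 := by ring
  calc ‖F.Φ τ x - eul h a τ x‖ = ‖(F.Φ τ x - (x + τ • F.g x)) + ((x + τ • F.g x) - eul h a τ x)‖ := by
        rw [sub_add_sub_cancel]
    _ ≤ F.L * F.C * τ ^ 2 + F.L * F.C * τ ^ 2 := (norm_add_le _ _).trans (add_le_add h1 h4)
    _ = 2 * F.L * F.C * τ ^ 2 := by ring

/-- the Euler step is Lipschitz -/
theorem eul_lip (hg : ∀ x, F.g x = (h x.2, a x.1)) {τ : ℝ} (hτ : 0 ≤ τ) (x y : E × E) :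
    ‖eul h a τ x - eul h a τ y‖ ≤ Real.exp (2 * F.L * τ) * ‖x - y‖ := by
  have e3 : (0 : ℝ) ≤ F.L := F.L.2
  have hx1 : ‖x.1 - y.1‖ ≤ ‖x - y‖ := norm_fst_le (x - y)
  have hx2 : ‖x.2 - y.2‖ ≤ ‖x - y‖ := norm_snd_le (x - y)
  have hn : 0 ≤ ‖x - y‖ := norm_nonneg _
  have h1 : ‖(x.1 + τ • h x.2) - (y.1 + τ • h y.2)‖ ≤ (1 + F.L * τ) * ‖x - y‖ := by
    have e : (x.1 + τ • h x.2) - (y.1 + τ • h y.2) = (x.1 - y.1) + τ • (h x.2 - h y.2) := by
      rw [smul_sub]
      abel
    rw [e]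
    refine (norm_add_le _ _).trans ?_
    rw [norm_smul, Real.norm_eq_abs, abs_of_nonneg hτ]
    have e1 := h_lip F hg x.2 y.2
    have e2 : τ * ‖h x.2 - h y.2‖ ≤ τ * (F.L * ‖x - y‖) :=
      mul_le_mul_of_nonneg_left (e1.trans (mul_le_mul_of_nonneg_left hx2 e3)) hτ
    nlinarith
  have h2 : ‖(x.2 + τ • a (x.1 + τ • h x.2)) - (y.2 + τ • a (y.1 + τ • h y.2))‖ ≤
      (1 + F.L * τ * (1 + F.L * τ)) * ‖x - y‖ := by
    have e : (x.2 + τ • a (x.1 + τ • h x.2)) - (y.2 + τ • a (y.1 + τ • h y.2)) =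
        (x.2 - y.2) + τ • (a (x.1 + τ • h x.2) - a (y.1 + τ • h y.2)) := by
      rw [smul_sub]
      abel
    rw [e]
    refine (norm_add_le _ _).trans ?_
    rw [norm_smul, Real.norm_eq_abs, abs_of_nonneg hτ]
    have e1 := a_lip F hg (x.1 + τ • h x.2) (y.1 + τ • h y.2)
    have e2 : τ * ‖a (x.1 + τ • h x.2) - a (y.1 + τ • h y.2)‖ ≤
        τ * (F.L * ((1 + F.L * τ) * ‖x - y‖)) :=
      mul_le_mul_of_nonneg_left (e1.trans (mul_le_mul_of_nonneg_left h1 e3)) hτ
    nlinarith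
  have h3 : (1 + F.L * τ) ^ 2 ≤ Real.exp (2 * F.L * τ) := by
    have e1 : 1 + F.L * τ ≤ Real.exp (F.L * τ) := by
      have := Real.add_one_le_exp ((F.L : ℝ) * τ)
      linarith
    have e2 : Real.exp (2 * F.L * τ) = Real.exp (F.L * τ) ^ 2 := by
      rw [← Real.exp_nat_mul]
      congr 1
      push_cast
      ring
    rw [e2]
    exact pow_le_pow_left₀ (by positivity) e1 2
  have h4 : ‖eul h a τ x - eul h a τ y‖ ≤ (1 + F.L * τ) ^ 2 * ‖x - y‖ := by
    unfold eul
    rw [Prod.norm_def]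
    refine max_le ?_ ?_
    · refine h1.trans (mul_le_mul_of_nonneg_right ?_ hn)
      have : 0 ≤ F.L * τ := by positivity
      nlinarith
    · refine h2.trans (mul_le_mul_of_nonneg_right ?_ hn)
      have : 0 ≤ F.L * τ := by positivity
      nlinarith
  exact h4.trans (mul_le_mul_of_nonneg_right h3 hn)

theorem eul_iter (hg : ∀ x, F.g x = (h x.2, a x.1)) {τ : ℝ} (hτ : 0 ≤ τ) (x : E × E) (k : ℕ) :
    ‖F.Φ (k * τ) x - (eul h a τ)^[k] x‖ ≤
      2 * F.L * F.C * τ ^ 2 * k * Real.exp (2 * F.L * τ) ^ k := by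
  have e3 : (0 : ℝ) ≤ F.L := F.L.2
  have e4 : (0 : ℝ) ≤ F.C := F.C.2
  induction k with
  | zero => simp [F.zero]
  | succ k ih =>
    rw [Function.iterate_succ_apply']
    have e1 : F.Φ (((k + 1 : ℕ) : ℝ) * τ) x = F.Φ τ (F.Φ (k * τ) x) := by
      rw [F.comp]
      congr 1
      push_cast
      ring
    rw [e1]
    have h1 := eul_err F hg hτ (F.Φ (k * τ) x)
    have h2 := eul_lip F hg hτ (F.Φ (k * τ) x) ((eul h a τ)^[k] x)
    set y := F.Φ (k * τ) x
    set z := (eul h a τ)^[k] x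
    have hexp : 1 ≤ Real.exp (2 * F.L * τ) := Real.one_le_exp (by positivity)
    have hc : 0 ≤ 2 * F.L * F.C * τ ^ 2 := by positivity
    calc ‖F.Φ τ y - eul h a τ z‖ = ‖(F.Φ τ y - eul h a τ y) + (eul h a τ y - eul h a τ z)‖ := by
          rw [sub_add_sub_cancel]
      _ ≤ 2 * F.L * F.C * τ ^ 2 + Real.exp (2 * F.L * τ) * ‖y - z‖ :=
          (norm_add_le _ _).trans (add_le_add h1 h2)
      _ ≤ 2 * F.L * F.C * τ ^ 2 * Real.exp (2 * F.L * τ) ^ (k + 1) + Real.exp (2 * F.L * τ) *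
          (2 * F.L * F.C * τ ^ 2 * k * Real.exp (2 * F.L * τ) ^ k) := by
          refine add_le_add ?_ (mul_le_mul_of_nonneg_left ih (Real.exp_pos _).le)
          exact le_mul_of_one_le_right hc (one_le_pow₀ hexp)
      _ = 2 * F.L * F.C * τ ^ 2 * ((k + 1 : ℕ) : ℝ) * Real.exp (2 * F.L * τ) ^ (k + 1) := by
          push_cast
          ring

/-- the Euler scheme converges -/
theorem eul_tendsto (hg : ∀ x, F.g x = (h x.2, a x.1)) {t : ℝ} (ht : 0 ≤ t) (x : E × E) :
    Tendsto (fun n : ℕ => (eul h a (t / (n + 1 : ℕ)))^[n + 1] x) atTop (𝓝 (F.Φ t x)) := by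
  rw [tendsto_iff_norm_sub_tendsto_zero]
  have h1 : ∀ n : ℕ, ‖(eul h a (t / (n + 1 : ℕ)))^[n + 1] x - F.Φ t x‖ ≤
      2 * F.L * F.C * t ^ 2 * Real.exp (2 * F.L * t) * (1 / ((n : ℝ) + 1)) := by
    intro n
    have hn : (0 : ℝ) < ((n + 1 : ℕ) : ℝ) := by positivity
    have hτ : 0 ≤ t / ((n + 1 : ℕ) : ℝ) := by positivity
    have h2 := eul_iter F hg hτ x (n + 1)
    have e1 : ((n + 1 : ℕ) : ℝ) * (t / ((n + 1 : ℕ) : ℝ)) = t := by
      field_simp
    rw [e1, ← Real.exp_nat_mul] at h2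
    rw [norm_sub_rev]
    refine h2.trans (le_of_eq ?_)
    have e2 : ((n + 1 : ℕ) : ℝ) * (2 * F.L * (t / ((n + 1 : ℕ) : ℝ))) = 2 * F.L * t := by
      field_simp
    rw [e2]
    have e5 : ((n + 1 : ℕ) : ℝ) = (n : ℝ) + 1 := by push_cast; ring
    rw [e5]
    have hn' : (n : ℝ) + 1 ≠ 0 := by positivity
    field_simp
  have h3 : Tendsto (fun n : ℕ => 2 * F.L * F.C * t ^ 2 * Real.exp (2 * F.L * t) *
      (1 / ((n : ℝ) + 1))) atTop (𝓝 0) := by
    have := (tendsto_one_div_add_atTop_nhds_zero_nat (𝕜 := ℝ)).const_mul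
      (2 * F.L * F.C * t ^ 2 * Real.exp (2 * F.L * t))
    rwa [mul_zero] at this
  exact squeeze_zero (fun _ => norm_nonneg _) h1 h3

end Euler

section Meas

variable {E : Type*} [NormedAddCommGroup E] [NormedSpace ℝ E] [FiniteDimensional ℝ E]
  [MeasurableSpace E] [BorelSpace E] (μ : Measure E) [μ.IsAddHaarMeasure]

/-- a shear preserves the measure -/
theorem mp_shear {g : E → E} (hg : Continuous g) :
    MeasurePreserving (fun p : E × E => (p.1, p.2 + g p.1)) (μ.prod μ) (μ.prod μ) := by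
  have h1 : Measurable (Function.uncurry fun (x y : E) => y + g x) := by
    have : Continuous (Function.uncurry fun (x y : E) => y + g x) := by
      unfold Function.uncurry
      fun_prop
    exact this.measurable
  exact (MeasurePreserving.id μ).skew_product (g := fun x y => y + g x) h1
    (Filter.Eventually.of_forall fun x => map_add_right_eq_self μ (g x))

theorem mp_eul {h a : E → E} (hh : Continuous h) (ha : Continuous a) (τ : ℝ) :
    MeasurePreserving (eul h a τ) (μ.prod μ) (μ.prod μ) := by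
  have h1 : MeasurePreserving (fun p : E × E => (p.1, p.2 + τ • a p.1)) (μ.prod μ) (μ.prod μ) :=
    mp_shear μ (ha.const_smul τ)
  have h2 : MeasurePreserving (fun p : E × E => (p.1, p.2 + τ • h p.1)) (μ.prod μ) (μ.prod μ) :=
    mp_shear μ (hh.const_smul τ)
  have hs : MeasurePreserving (Prod.swap : E × E → E × E) (μ.prod μ) (μ.prod μ) :=
    Measure.measurePreserving_swap
  have h3 := (h1.comp (hs.comp (h2.comp hs)))
  have e : eul h a τ = (fun p : E × E => (p.1, p.2 + τ • a p.1)) ∘ Prod.swap ∘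
      (fun p : E × E => (p.1, p.2 + τ • h p.1)) ∘ Prod.swap := by
    funext p
    rfl
  rw [e]
  exact h3

/-- Liouville: the flow does not increase the measure of preimages -/
theorem liouville_le {f : E × E → E × E} {K : Set (E × E)} (F : HDN.Flow f K) {h a : E → E}
    (hg : ∀ x, F.g x = (h x.2, a x.1)) {t : ℝ} (ht : 0 ≤ t) :
    (μ.prod μ).map (F.Φ t) ≤ μ.prod μ := by
  have hc : Continuous (F.Φ t) := (F.lipschitz t).continuous
  have hopen : ∀ U : Set (E × E), IsOpen U → (μ.prod μ).map (F.Φ t) U ≤ (μ.prod μ) U := by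
    intro U hU
    rw [Measure.map_apply hc.measurable hU.measurableSet]
    set S : ℕ → E × E → E × E := fun n => (eul h a (t / (n + 1 : ℕ)))^[n + 1] with hS
    have hSm : ∀ n, MeasurePreserving (S n) (μ.prod μ) (μ.prod μ) := fun n =>
      (mp_eul μ (h_cont F hg) (a_cont F hg) _).iterate (n + 1)
    have h1 : ∀ x, (F.Φ t ⁻¹' U).indicator (fun _ => (1 : ℝ≥0∞)) x ≤
        liminf (fun n => ((S n) ⁻¹' U).indicator (fun _ => (1 : ℝ≥0∞)) x) atTop := by
      intro x
      by_cases hx : x ∈ F.Φ t ⁻¹' U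
      · rw [indicator_of_mem hx]
        have h2 : ∀ᶠ n in atTop, x ∈ (S n) ⁻¹' U :=
          (eul_tendsto F hg ht x).eventually (hU.mem_nhds hx)
        refine le_liminf_of_le (by isBoundedDefault) ?_
        filter_upwards [h2] with n hn
        rw [indicator_of_mem hn]
      · rw [indicator_of_notMem hx]
        exact bot_le
    calc (μ.prod μ) (F.Φ t ⁻¹' U)
        = ∫⁻ x, (F.Φ t ⁻¹' U).indicator (fun _ => (1 : ℝ≥0∞)) x ∂(μ.prod μ) := by
          rw [lintegral_indicator (hU.preimage hc).measurableSet, lintegral_const,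
            Measure.restrict_apply MeasurableSet.univ, univ_inter, one_mul]
      _ ≤ ∫⁻ x, liminf (fun n => ((S n) ⁻¹' U).indicator (fun _ => (1 : ℝ≥0∞)) x) atTop
            ∂(μ.prod μ) := lintegral_mono h1
      _ ≤ liminf (fun n => ∫⁻ x, ((S n) ⁻¹' U).indicator (fun _ => (1 : ℝ≥0∞)) x ∂(μ.prod μ))
            atTop := by
          refine lintegral_liminf_le fun n => ?_
          exact measurable_const.indicator ((hSm n).measurable hU.measurableSet)
      _ = (μ.prod μ) U := by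
          have h3 : ∀ n, ∫⁻ x, ((S n) ⁻¹' U).indicator (fun _ => (1 : ℝ≥0∞)) x ∂(μ.prod μ) =
              (μ.prod μ) U := by
            intro n
            rw [lintegral_indicator ((hSm n).measurable hU.measurableSet), lintegral_const,
              Measure.restrict_apply MeasurableSet.univ, univ_inter, one_mul,
              (hSm n).measure_preimage hU.measurableSet.nullMeasurableSet]
          simp only [h3]
          exact liminf_const _
  rw [Measure.le_iff]
  intro A hA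
  rw [Set.measure_eq_iInf_isOpen A (μ.prod μ)]
  refine le_iInf fun U => le_iInf fun hAU => le_iInf fun hU => ?_
  exact (measure_mono hAU).trans (hopen U hU)

theorem lintegral_flow_le {f : E × E → E × E} {K : Set (E × E)} (F : HDN.Flow f K) {h a : E → E}
    (hg : ∀ x, F.g x = (h x.2, a x.1)) {t : ℝ} (ht : 0 ≤ t) {G : E × E → ℝ≥0∞}
    (hG : Measurable G) : ∫⁻ x, G (F.Φ t x) ∂(μ.prod μ) ≤ ∫⁻ x, G x ∂(μ.prod μ) := by
  have hc : Continuous (F.Φ t) := (F.lipschitz t).continuous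
  rw [← lintegral_map hG hc.measurable]
  exact lintegral_mono' (liouville_le μ F hg ht) le_rfl

end Meas

end NB5
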