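import Mathlib
import Pool.Agent.HDN.FinA
import Pool.Agent.HDN.Haar
import Pool.Agent.HDN.Exhaust
import Pool.Agent.HDN.FlowC
import Pool.Agent.NB5.MLiou

/-!
# Integrals along the solutions of the N-body problem (project NB5)

`markov`: if `∫_A G < ∞` then for almost every initial state `x` the integral of `G` along every
solution from `x` which stays in `A` and lives at most up to the time `R` is finite.
-/

open MeasureTheory Set Filter Topology Metric
open scoped NNReal ENNReal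

namespace NB5

open HDN

variable {N d : ℕ}

instance sigmaFinite_ph (N d : ℕ) : SigmaFinite (volume : Measure (Ph N d)) := inferInstance

theorem isOpen_free : IsOpen {q : Cf N d | Free q} := by
  have h : Continuous (fun q : Cf N d => ((q, 0) : Ph N d)) := by fun_prop
  exact isOpen_freeSet.preimage h

theorem contDiffOn_acc (m : Fin N → ℝ) : ContDiffOn ℝ 1 (acc m : Cf N d → Cf N d) {q | Free q} := by
  have h1 : ContDiff ℝ 1 (fun q : Cf N d => ((q, 0) : Ph N d)) := contDiff_id.prodMk contDiff_const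
  have h2 : ContDiffOn ℝ 1 (fun q : Cf N d => nfield m ((q, 0) : Ph N d)) {q | Free q} :=
    (contDiffOn_nfield (N := N) (d := d) (m := m)).comp h1.contDiffOn (fun q hq => hq)
  exact contDiff_snd.comp_contDiffOn h2

/-- truncated separable flow -/
theorem exists_sepFlow (m : Fin N → ℝ) {K : Set (Ph N d)} (hK : IsCompact K)
    (hKf : K ⊆ FreeSet N d) : ∃ (F : Flow (nfield m) K) (h a : Cf N d → Cf N d),
      ∀ x, F.g x = (h x.2, a x.1) := by
  obtain ⟨g1, L1, C1, hL1, hC1, he1⟩ := exists_trunc isOpen_free (contDiffOn_acc m)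
    (hK.image continuous_fst) (by
      rintro _ ⟨x, hx, rfl⟩
      exact hKf hx)
  obtain ⟨g2, L2, C2, hL2, hC2, he2⟩ := exists_trunc (V := Cf N d) isOpen_univ
    (contDiff_id (𝕜 := ℝ) (n := 1)).contDiffOn (hK.image continuous_snd) (subset_univ _)
  have hL : LipschitzWith (max L1 L2) (fun x : Ph N d => (g2 x.2, g1 x.1)) := by
    refine LipschitzWith.of_dist_le_mul fun x y => ?_
    rw [Prod.dist_eq]
    have e1 := hL1.dist_le_mul x.1 y.1
    have e2 := hL2.dist_le_mul x.2 y.2
    have e3 : dist x.1 y.1 ≤ dist x y := by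
      rw [Prod.dist_eq]
      exact le_max_left _ _
    have e4 : dist x.2 y.2 ≤ dist x y := by
      rw [Prod.dist_eq]
      exact le_max_right _ _
    refine max_le ?_ ?_
    · exact e2.trans (mul_le_mul (by exact_mod_cast le_max_right L1 L2) e4 dist_nonneg
        (NNReal.coe_nonneg _))
    · exact e1.trans (mul_le_mul (by exact_mod_cast le_max_left L1 L2) e3 dist_nonneg
        (NNReal.coe_nonneg _))
  have hC : ∀ x : Ph N d, ‖((g2 x.2, g1 x.1) : Ph N d)‖ ≤ (max C1 C2 : ℝ≥0) := by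
    intro x
    rw [Prod.norm_def]
    refine max_le ?_ ?_
    · exact (hC2 x.2).trans (by exact_mod_cast le_max_right C1 C2)
    · exact (hC1 x.1).trans (by exact_mod_cast le_max_left C1 C2)
  have he : EqOn (fun x : Ph N d => ((g2 x.2, g1 x.1) : Ph N d)) (nfield m) K := by
    intro x hx
    have e1 := he1 (mem_image_of_mem Prod.fst hx)
    have e2 := he2 (mem_image_of_mem Prod.snd hx)
    unfold nfield
    simp only [e1, e2, id]
  obtain ⟨Φ, h4, h5⟩ := exists_globalFlow hL hC
  exact ⟨⟨_, _, _, hL, hC, he, Φ, h4, h5⟩, g2, g1, fun _ => rfl⟩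

section Gen

variable {V : Type*} [NormedAddCommGroup V] [NormedSpace ℝ V]

theorem flow_continuous {f : V → V} {K : Set V} (F : Flow f K) :
    Continuous (fun p : ℝ × V => F.Φ p.1 p.2) := by
  rw [continuous_iff_continuousAt]
  rintro ⟨t, x⟩
  obtain ⟨c, hc⟩ := F.lipschitzOn (|t| + 1)
  refine hc.continuousOn.continuousAt ?_
  refine prod_mem_nhds (Icc_mem_nhds ?_ ?_) univ_mem
  · linarith [neg_abs_le t]
  · linarith [le_abs_self t]

/-- pairs of a time and a state such that the flow line stays in `K` before this time -/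
def stay {f : V → V} {K : Set V} (F : Flow f K) : Set (ℝ × V) :=
  {p | 0 ≤ p.1 ∧ ∀ s, 0 ≤ s → s < p.1 → F.Φ s p.2 ∈ K}

theorem isClosed_stay {f : V → V} {K : Set V} (hK : IsClosed K) (F : Flow f K) :
    IsClosed (stay F) := by
  have h : stay F = {p : ℝ × V | 0 ≤ p.1} ∩
      ⋂ (s : ℝ) (_ : 0 ≤ s), ({p : ℝ × V | p.1 ≤ s} ∪ {p | F.Φ s p.2 ∈ K}) := by
    ext p
    simp only [stay, mem_ofPred_eq, mem_inter_iff, mem_iInter, mem_union]
    refine and_congr_right fun _ => forall_congr' fun s => forall_congr' fun _ => ?_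
    constructor
    · intro h
      rcases le_or_gt p.1 s with h1 | h1
      · exact Or.inl h1
      · exact Or.inr (h h1)
    · rintro (h | h) h1
      · exact absurd h1 (not_lt.2 h)
      · exact h
  rw [h]
  refine (isClosed_le continuous_const continuous_fst).inter ?_
  refine isClosed_iInter fun s => isClosed_iInter fun _ => ?_
  refine (isClosed_le continuous_fst continuous_const).union ?_
  exact hK.preimage ((F.lipschitz s).continuous.comp continuous_snd)

theorem stay_mono {f : V → V} {K K' : Set V} (hKK : K ⊆ K') (F : Flow f K) (F' : Flow f K')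
    {p : ℝ × V} (hp : p ∈ stay F) : p ∈ stay F' ∧ F'.Φ p.1 p.2 = F.Φ p.1 p.2 := by
  have h1 : ∀ s ∈ Icc 0 p.1, F'.Φ s p.2 = F.Φ s p.2 := by
    intro s hs
    have h := F'.eq_of_sol (γ := fun s => F.Φ s p.2) (a := 0) (b := p.1) hp.1
      (F.continuous_line p.2).continuousOn
      (fun r hr => by
        have h2 : F.Φ r p.2 ∈ K := hp.2 r hr.1 hr.2
        refine ⟨hKK h2, ?_⟩
        have h3 := (F.deriv p.2 r).hasDerivWithinAt (s := Ici r)
        rwa [F.eqOn h2] at h3) s hs
    simp only [F.zero, sub_zero] at h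
    exact h.symm
  refine ⟨⟨hp.1, fun s hs1 hs2 => ?_⟩, h1 p.1 ⟨hp.1, le_rfl⟩⟩
  rw [h1 s ⟨hs1, hs2.le⟩]
  exact hKK (hp.2 s hs1 hs2)

theorem stay_of_sol {f : V → V} {K : Set V} (F : Flow f K) {γ : ℝ → V} {t : ℝ} (ht : 0 ≤ t)
    (hc : ContinuousOn γ (Icc 0 t)) (hγ : ∀ s ∈ Icc 0 t, γ s ∈ K ∧ HasDerivAt γ (f (γ s)) s) :
    (t, γ 0) ∈ stay F ∧ F.Φ t (γ 0) = γ t := by
  have h1 : ∀ s ∈ Icc 0 t, γ s = F.Φ (s - 0) (γ 0) :=
    F.eq_of_sol ht hc (fun s hs => ⟨(hγ s ⟨hs.1, hs.2.le⟩).1,
      (hγ s ⟨hs.1, hs.2.le⟩).2.hasDerivWithinAt⟩)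
  refine ⟨⟨ht, fun s hs1 hs2 => ?_⟩, ?_⟩
  · have h2 := h1 s ⟨hs1, hs2.le⟩
    rw [sub_zero] at h2
    show F.Φ s (γ 0) ∈ K
    rw [← h2]
    exact (hγ s ⟨hs1, hs2.le⟩).1
  · have h2 := h1 t ⟨ht, le_rfl⟩
    rw [sub_zero] at h2
    exact h2.symm

end Gen

/-- Markov's inequality for the integral along solutions -/
theorem markov (m : Fin N → ℝ) {A : Set (Ph N d)} (hA : MeasurableSet A) {G : Ph N d → ℝ≥0∞}
    (hG : Measurable G) (hfin : ∫⁻ x in A, G x ≠ ∞) (R : ℝ) :
    ∀ᵐ x : Ph N d, ∀ T ≤ R, ∀ γ : ℝ → Ph N d, γ 0 = x →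
      SolOn (nfield m) (FreeSet N d) γ (Ico 0 T) → (∀ t ∈ Ico 0 T, γ t ∈ A) →
      ∫⁻ t in Ico 0 T, G (γ t) ≠ ∞ := by
  obtain ⟨K, hKc, hKΩ, hKs, hKex⟩ := exists_seq_compact (isOpen_freeSet (N := N) (d := d))
  have hKm : Monotone K := monotone_nat_of_le_succ fun n => (hKs n).trans interior_subset
  choose F h a hg using fun n => exists_sepFlow m (hKc n) (hKΩ n)
  set H : Ph N d → ℝ≥0∞ := A.indicator G with hH
  have hHm : Measurable H := hG.indicator hA
  set g : ℕ → ℝ × Ph N d → ℝ≥0∞ := fun n =>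
    (stay (F n)).indicator (fun p => H ((F n).Φ p.1 p.2)) with hgdef
  have hgm : ∀ n, Measurable (g n) := fun n =>
    (hHm.comp (flow_continuous (F n)).measurable).indicator
      (isClosed_stay (hKc n).isClosed (F n)).measurableSet
  have hmono : Monotone g := by
    refine monotone_nat_of_le_succ fun n p => ?_
    simp only [hgdef]
    by_cases hp : p ∈ stay (F n)
    · obtain ⟨h1, h2⟩ := stay_mono (hKm (Nat.le_succ n)) (F n) (F (n + 1)) hp
      rw [indicator_of_mem hp, indicator_of_mem h1, h2]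
    · rw [indicator_of_notMem hp]
      exact bot_le
  set f : ℕ → Ph N d → ℝ≥0∞ := fun n x => ∫⁻ t in Ico 0 R, g n (t, x) with hf
  have hfm : ∀ n, Measurable (f n) := fun n => by
    have h1 : Measurable (fun q : Ph N d × ℝ => g n (q.2, q.1)) :=
      (hgm n).comp measurable_swap
    exact h1.lintegral_prod_right'
  have hfmono : Monotone f := fun i j hij x => lintegral_mono fun t => hmono hij (t, x)
  have hbound : ∀ n, ∫⁻ x, f n x ≤ ENNReal.ofReal R * ∫⁻ x in A, G x := by
    intro n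
    calc ∫⁻ x, f n x = ∫⁻ t in Ico 0 R, ∫⁻ x, g n (t, x) := by
          rw [hf]
          have h1 : Measurable (fun q : Ph N d × ℝ => g n (q.2, q.1)) :=
            (hgm n).comp measurable_swap
          exact lintegral_lintegral_swap (f := fun (x : Ph N d) (t : ℝ) => g n (t, x))
            h1.aemeasurable
      _ ≤ ∫⁻ t in Ico 0 R, ∫⁻ x in A, G x := by
          refine setLIntegral_mono measurable_const fun t ht => ?_
          calc ∫⁻ x, g n (t, x) ≤ ∫⁻ x, H ((F n).Φ t x) := by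
                refine lintegral_mono fun x => ?_
                simp only [hgdef]
                exact indicator_le_self _ _ _
            _ ≤ ∫⁻ x, H x := lintegral_flow_le (volume : Measure (Cf N d)) (F n) (hg n) ht.1 hHm
            _ = ∫⁻ x in A, G x := lintegral_indicator hA G
      _ = ENNReal.ofReal R * ∫⁻ x in A, G x := by
          rw [setLIntegral_const, Real.volume_Ico, sub_zero, mul_comm]
  have hsup : ∫⁻ x, ⨆ n, f n x ≤ ENNReal.ofReal R * ∫⁻ x in A, G x := by
    rw [lintegral_iSup hfm hfmono]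
    exact iSup_le hbound
  have hlt : ∀ᵐ x : Ph N d, ⨆ n, f n x < ∞ := by
    refine ae_lt_top (Measurable.iSup hfm) ?_
    exact ne_top_of_le_ne_top (ENNReal.mul_ne_top ENNReal.ofReal_ne_top hfin) hsup
  filter_upwards [hlt] with x hx T hTR γ h0 hγ hstay
  have key : ∀ t ∈ Ico 0 T, G (γ t) ≤ ⨆ n, g n (t, x) := by
    intro t ht
    have hcont : ContinuousOn γ (Icc 0 t) := fun s hs =>
      ((hγ s ⟨hs.1, hs.2.trans_lt ht.2⟩).2.continuousAt).continuousWithinAt
    have himΩ : γ '' Icc 0 t ⊆ FreeSet N d := by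
      rintro _ ⟨s, hs, rfl⟩
      exact (hγ s ⟨hs.1, hs.2.trans_lt ht.2⟩).1
    obtain ⟨n, hn⟩ := hKex _ (isCompact_Icc.image_of_continuousOn hcont) himΩ
    have h1 := stay_of_sol (F n) ht.1 hcont (fun s hs =>
      ⟨interior_subset (hn ⟨s, hs, rfl⟩), (hγ s ⟨hs.1, hs.2.trans_lt ht.2⟩).2⟩)
    rw [h0] at h1
    refine le_trans (le_of_eq ?_) (le_iSup (fun n => g n (t, x)) n)
    simp only [hgdef]
    rw [indicator_of_mem h1.1]
    simp only
    rw [h1.2, hH, indicator_of_mem (hstay t ht)]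
  refine ne_top_of_le_ne_top hx.ne ?_
  calc ∫⁻ t in Ico 0 T, G (γ t) ≤ ∫⁻ t in Ico 0 T, ⨆ n, g n (t, x) := by
        refine setLIntegral_mono' measurableSet_Ico key
    _ = ⨆ n, ∫⁻ t in Ico 0 T, g n (t, x) := by
        refine lintegral_iSup (fun n => (hgm n).comp measurable_prodMk_right) ?_
        exact fun i j hij t => hmono hij (t, x)
    _ ≤ ⨆ n, f n x := iSup_mono fun n => lintegral_mono_set (Ico_subset_Ico_right hTR)

end NB5
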