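import Mathlib
import Pool.Agent.HDN.Defs
import Pool.Agent.HDN.Phys
import Pool.Agent.NB5.Defs
import Pool.Agent.NB5.MIso

/-!
# Measurability of the weight (project NB5)
-/

open MeasureTheory Set Filter Topology Metric
open scoped NNReal ENNReal RealInnerProductSpace

namespace NB5

open HDN

variable {N d : ℕ}

@[fun_prop]
theorem continuous_lop (m : Fin N → ℝ) : Continuous (Lop m : Ph N d → _) := by
  have hw : ∀ (f g : Ph N d → Sp d), Continuous f → Continuous g →
      Continuous fun x => wedge (f x) (g x) := by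
    intro f g hf hg
    unfold wedge
    have h1 : ∀ (f g : Ph N d → Sp d), Continuous f → Continuous g →
        Continuous fun x => (innerSL ℝ (f x)).smulRight (g x) := by
      intro f g hf hg
      have h2 : Continuous fun x => innerSL ℝ (f x) := (innerSL ℝ).continuous.comp hf
      exact ((ContinuousLinearMap.smulRightL ℝ (Sp d) (Sp d)).continuous.comp h2).clm_apply hg
    exact (h1 g f hg hf).sub (h1 f g hf hg)
  unfold Lop
  refine Continuous.sub ?_ ?_
  · refine continuous_finsetSum _ fun a _ => ?_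
    have h1 := hw (fun x => x.1 a) (fun x => x.2 a) (by fun_prop) (by fun_prop)
    exact h1.fun_const_smul (m a)
  · have h1 := hw (fun x => ∑ a, m a • x.1 a) (fun x => ∑ a, m a • x.2 a)
      (by fun_prop) (by fun_prop)
    exact h1.fun_const_smul _

@[fun_prop]
theorem measurable_kin (m : Fin N → ℝ) : Measurable (Kin m : Cf N d → ℝ) := by
  unfold Kin
  fun_prop

@[fun_prop]
theorem measurable_pot (m : Fin N → ℝ) : Measurable (Pot m : Cf N d → ℝ) := by
  unfold Pot
  fun_prop

@[fun_prop]
theorem measurable_ham (m : Fin N → ℝ) : Measurable (Ham m : Ph N d → ℝ) := by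
  unfold Ham
  fun_prop

@[fun_prop]
theorem measurable_cmv (m : Fin N → ℝ) : Measurable (cmv m : Cf N d → Sp d) := by
  unfold cmv
  fun_prop

@[fun_prop]
theorem measurable_cm (m : Fin N → ℝ) (a b : Fin N) : Measurable (cm m a b : Cf N d → Sp d) := by
  unfold cm
  fun_prop

@[fun_prop]
theorem measurable_cm3 (m : Fin N → ℝ) (a b c : Fin N) :
    Measurable (cm3 m a b c : Cf N d → Sp d) := by
  unfold cm3
  fun_prop

@[fun_prop]
theorem measurable_iner (m : Fin N → ℝ) : Measurable (Iner m : Ph N d → ℝ) := by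
  unfold Iner
  fun_prop

@[fun_prop]
theorem measurable_jner (m : Fin N → ℝ) : Measurable (Jner m : Ph N d → ℝ) := by
  unfold Jner
  fun_prop

theorem measurableSet_inv (m : Fin N → ℝ) (R : ℝ) : MeasurableSet (Inv m R : Set (Ph N d)) := by
  have h1 : MeasurableSet {x : Ph N d | Free x.1} := isOpen_freeSet.measurableSet
  have h2 : MeasurableSet {x : Ph N d | |Ham m x| ≤ R} :=
    measurableSet_le (by fun_prop) measurable_const
  have h3 : MeasurableSet {x : Ph N d | ‖Lop m x‖ ≤ R} :=
    measurableSet_le (continuous_lop m).norm.measurable measurable_const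
  have h4 : MeasurableSet {x : Ph N d | ‖cmv m x.1‖ ≤ R} :=
    measurableSet_le (by fun_prop) measurable_const
  have h5 : MeasurableSet {x : Ph N d | ‖cmv m x.2‖ ≤ R} :=
    measurableSet_le (by fun_prop) measurable_const
  have h6 : MeasurableSet {x : Ph N d | Iner m x ≤ R * (1 + |Jner m x|)} :=
    measurableSet_le (by fun_prop) (by fun_prop)
  exact h1.inter (h2.inter (h3.inter (h4.inter (h5.inter h6))))

@[fun_prop]
theorem measurable_rg {k : ℕ} (hk : 2 ≤ k) (hk5 : k ≤ 5) : Measurable (Rg k : Cf 5 d → ℝ) := by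
  refine measurable_of_Ici fun s => ?_
  have h1 : Rg k ⁻¹' Ici s = ⋃ p ∈ {p : Fin 5 → Fin k | Function.Surjective p},
      ⋂ (i : Fin 5) (j : Fin 5) (_ : p i ≠ p j), {q : Cf 5 d | s ≤ ‖q i - q j‖} := by
    ext q
    simp only [mem_preimage, mem_Ici, mem_iUnion, mem_iInter, mem_ofPred_eq, exists_prop]
    constructor
    · intro h
      obtain ⟨p, hp, hpq⟩ := rg_mem hk hk5 q
      exact ⟨p, hp, fun i j hij => h.trans (hpq i j hij)⟩
    · rintro ⟨p, hp, hpq⟩
      exact le_rg hk q hp hpq
  rw [h1]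
  refine MeasurableSet.biUnion (Set.toFinite _).countable fun p _ => ?_
  refine MeasurableSet.iInter fun i => MeasurableSet.iInter fun j => MeasurableSet.iInter fun _ => ?_
  exact measurableSet_le measurable_const (by fun_prop)

@[fun_prop]
theorem measurable_rg3 : Measurable (Rg 3 : Cf 5 d → ℝ) := measurable_rg (by norm_num) (by norm_num)

@[fun_prop]
theorem measurable_rg4 : Measurable (Rg 4 : Cf 5 d → ℝ) := measurable_rg (by norm_num) (by norm_num)

@[fun_prop]
theorem measurable_rel (s : Equiv.Perm (Fin 5)) : Measurable (rel s : St d → St d) := by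
  unfold rel
  refine Measurable.prodMk ?_ ?_
  · exact measurable_pi_lambda _ fun i => (measurable_pi_apply (s i)).comp measurable_fst
  · exact measurable_pi_lambda _ fun i => (measurable_pi_apply (s i)).comp measurable_snd

theorem measurable_jw {X : Type*} [MeasurableSpace X] {f g : X → Sp d} (hf : Measurable f)
    (hg : Measurable g) : Measurable fun x => jw (f x) (g x) := by
  unfold jw
  fun_prop

@[fun_prop]
theorem measurable_hp (m : Fin 5 → ℝ) (i j : Fin 5) : Measurable (hp m i j : St d → ℝ) := by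
  unfold hp
  fun_prop

@[fun_prop]
theorem measurable_fq (m : Fin 5 → ℝ) : Measurable (FQ m : St d → ℝ) := by
  unfold FQ KQ UQ
  fun_prop

@[fun_prop]
theorem measurable_ft (m : Fin 5 → ℝ) : Measurable (FT m : St d → ℝ) := by
  unfold FT KT UT
  fun_prop

@[fun_prop]
theorem measurable_kq (m : Fin 5 → ℝ) : Measurable (KQ m : Cf 5 d → ℝ) := by
  unfold KQ
  fun_prop

@[fun_prop]
theorem measurable_kt (m : Fin 5 → ℝ) : Measurable (KT m : Cf 5 d → ℝ) := by
  unfold KT
  fun_prop

@[fun_prop]
theorem measurable_kp (m : Fin 5 → ℝ) : Measurable (KP m : Cf 5 d → ℝ) := by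
  unfold KP
  fun_prop

@[fun_prop]
theorem measurable_hh (m : Fin 5 → ℝ) (j : Fin 5) : Measurable (hh m j : St d → ℝ) := by
  unfold hh
  fun_prop

theorem measurableSet_s1 (P : Par) (b : ℝ) (m : Fin 5 → ℝ) :
    MeasurableSet {x : St d | S1 P b m x} := by
  have h1 : {x : St d | S1 P b m x} = {x : St d | ‖x.1 0 - x.1 1‖ ≤ P.Cr / b ^ 200} ∩
      ({x : St d | b ^ 200 / 2 ≤ FQ m x} ∩ ({x : St d | FQ m x ≤ 8 * b ^ 200} ∩
      ((⋂ (j : Fin 5) (_ : 2 ≤ j), {x : St d | P.Zp / b ^ 200 ≤ ‖x.1 j - cm m 0 1 x.1‖}) ∩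
      ({x : St d | 1 / (2 * b ^ 77) ≤ Rg 3 x.1} ∩
      ⋂ (i : Fin 5) (j : Fin 5) (_ : 2 ≤ i) (_ : 2 ≤ j) (_ : i ≠ j),
        {x : St d | -(3 * FQ m x) ≤ hp m i j x})))) := by
    ext x
    simp only [mem_inter_iff, mem_iInter, mem_ofPred_eq]
    constructor
    · rintro ⟨a, b, c, d, e, f⟩
      exact ⟨a, b, c, d, e, fun i j => f i j⟩
    · rintro ⟨a, b, c, d, e, f⟩
      exact ⟨a, b, c, d, e, fun i j => f i j⟩
  rw [h1]
  refine (measurableSet_le (by fun_prop) (by fun_prop)).inter
    ((measurableSet_le (by fun_prop) (by fun_prop)).inter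
    ((measurableSet_le (by fun_prop) (by fun_prop)).inter
    (MeasurableSet.inter ?_ ((measurableSet_le (by fun_prop) (by fun_prop)).inter ?_))))
  · exact MeasurableSet.iInter fun j => MeasurableSet.iInter fun _ =>
      measurableSet_le (by fun_prop) (by fun_prop)
  · exact MeasurableSet.iInter fun i => MeasurableSet.iInter fun j => MeasurableSet.iInter fun _ =>
      MeasurableSet.iInter fun _ => MeasurableSet.iInter fun _ =>
      measurableSet_le (by fun_prop) (by fun_prop)

theorem measurableSet_s3 (P : Par) (b : ℝ) (m : Fin 5 → ℝ) :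
    MeasurableSet {x : St d | S3 P b m x} := by
  have h1 : {x : St d | S3 P b m x} =
      (⋂ (i : Fin 5) (j : Fin 5) (_ : i ≤ 2) (_ : j ≤ 2),
        {x : St d | ‖x.1 i - x.1 j‖ ≤ P.K3 / b ^ 96}) ∩
      ({x : St d | b ^ 200 / 2 ≤ FT m x} ∩ ({x : St d | FT m x ≤ 40 * b ^ 200} ∩
      {x : St d | 1 / (2 * b ^ 77) ≤ Rg 3 x.1})) := by
    ext x
    simp only [mem_inter_iff, mem_iInter, mem_ofPred_eq]
    constructor
    · rintro ⟨a, b, c, d⟩
      exact ⟨fun i j => a i j, b, c, d⟩
    · rintro ⟨a, b, c, d⟩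
      exact ⟨fun i j => a i j, b, c, d⟩
  rw [h1]
  refine MeasurableSet.inter ?_ ((measurableSet_le (by fun_prop) (by fun_prop)).inter
    ((measurableSet_le (by fun_prop) (by fun_prop)).inter
    (measurableSet_le (by fun_prop) (by fun_prop))))
  exact MeasurableSet.iInter fun i => MeasurableSet.iInter fun j => MeasurableSet.iInter fun _ =>
      MeasurableSet.iInter fun _ => measurableSet_le (by fun_prop) (by fun_prop)

theorem measurableSet_goodPair (Kg b : ℝ) {w : St d → ℝ} {X V Y U : St d → Sp d}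
    (hw : Measurable w) (hX : Measurable X) (hV : Measurable V) (hY : Measurable Y)
    (hU : Measurable U) :
    MeasurableSet {x : St d | GoodPair Kg b (w x) (X x) (V x) (Y x) (U x)} := by
  have h1 : MeasurableSet {x : St d | b ^ 10 + Kg * b ^ 96 / w x ≤ ‖V x - U x‖} :=
    measurableSet_le (by fun_prop) (by fun_prop)
  have h2 : MeasurableSet {x : St d | Kg * b ^ 100 * (b ^ 96 / w x + 1 / b ^ 3) ≤
      jw (X x - Y x) (V x - U x)} :=
    measurableSet_le (by fun_prop) (measurable_jw (by fun_prop) (by fun_prop))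
  exact h1.inter h2

theorem measurableSet_good (P : Par) (b : ℝ) (m : Fin 5 → ℝ) :
    MeasurableSet {x : St d | Good P b m x} := by
  have h1 : {x : St d | Good P b m x} =
      {x : St d | P.Kg * b ^ 48 ≤ ‖x.2 2 - cm m 0 1 x.2‖} ∩
      ({x : St d | 1 ≤ ‖x.1 3 - cm m 0 1 x.1‖} ∩ ({x : St d | 1 ≤ ‖x.1 4 - cm m 0 1 x.1‖} ∩
      ({x : St d | 1 ≤ ‖x.1 3 - x.1 4‖} ∩
      ((⋂ (j : Fin 5) (_ : 3 ≤ j), ({x : St d | GoodPair P.Kg b ‖x.2 2 - cm m 0 1 x.2‖
          (cm m 0 1 x.1) (cm m 0 1 x.2) (x.1 j) (x.2 j)} ∩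
        {x : St d | GoodPair P.Kg b ‖x.2 2 - cm m 0 1 x.2‖ (x.1 2) (x.2 2) (x.1 j) (x.2 j)})) ∩
      ({x : St d | b ^ 10 ≤ ‖x.2 3 - x.2 4‖} ∩
        {x : St d | b ^ 97 ≤ jw (x.1 3 - x.1 4) (x.2 3 - x.2 4)}))))) := by
    ext x
    simp only [mem_inter_iff, mem_iInter, mem_ofPred_eq]
    constructor
    · rintro ⟨a, b, c, d, e, f, g⟩
      exact ⟨a, b, c, d, fun i => e i, f, g⟩
    · rintro ⟨a, b, c, d, e, f, g⟩
      exact ⟨a, b, c, d, fun i => e i, f, g⟩
  rw [h1]
  refine (measurableSet_le (by fun_prop) (by fun_prop)).inter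
    ((measurableSet_le (by fun_prop) (by fun_prop)).inter
    ((measurableSet_le (by fun_prop) (by fun_prop)).inter
    ((measurableSet_le (by fun_prop) (by fun_prop)).inter
    (MeasurableSet.inter ?_ ((measurableSet_le (by fun_prop) (by fun_prop)).inter
      (measurableSet_le (by fun_prop) (measurable_jw (by fun_prop) (by fun_prop))))))))
  refine MeasurableSet.iInter fun j => MeasurableSet.iInter fun _ => MeasurableSet.inter ?_ ?_
  · exact measurableSet_goodPair _ _ (by fun_prop) (by fun_prop) (by fun_prop) (by fun_prop)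
      (by fun_prop)
  · exact measurableSet_goodPair _ _ (by fun_prop) (by fun_prop) (by fun_prop) (by fun_prop)
      (by fun_prop)

theorem measurable_wt (b : ℝ) {f g : St d → Sp d} (hf : Measurable f) (hg : Measurable g) :
    Measurable fun x => Wt b (f x) (g x) := by
  unfold Wt
  have h1 := measurable_jw hf hg
  have h2 : Measurable fun x => min (jw (f x) (g x) ^ 2) (jw (f x) (g x) / ‖g x‖) :=
    (h1.pow_const 2).min (h1.div hg.norm)
  exact measurable_const.div (measurable_const.add ((measurable_const.mul h2).pow_const 3))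

theorem measurableSet_closest : MeasurableSet {q : Cf 5 d | Closest q} := by
  have h1 : {q : Cf 5 d | Closest q} = ⋂ (i : Fin 5) (j : Fin 5) (_ : i ≠ j),
      {q : Cf 5 d | ‖q 0 - q 1‖ ≤ ‖q i - q j‖} := by
    ext q
    simp only [mem_iInter, mem_ofPred_eq]
    exact Iff.rfl
  rw [h1]
  exact MeasurableSet.iInter fun i => MeasurableSet.iInter fun j => MeasurableSet.iInter fun _ =>
    measurableSet_le (by fun_prop) (by fun_prop)

theorem measurableSet_badCore (n : ℕ) {w κ κQ R3 : St d → ℝ} (hw : Measurable w)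
    (hκ : Measurable κ) (hκQ : Measurable κQ) (hR : Measurable R3) :
    MeasurableSet {x : St d | BadCore n (w x) (κ x) (κQ x) (R3 x)} := by
  have h0 : ∀ c : ℝ, MeasurableSet {x : St d | w x ≤ c} := fun c =>
    measurableSet_le hw measurable_const
  have h1 : ∀ c : ℝ, MeasurableSet {x : St d | c ≤ w x} := fun c =>
    measurableSet_le measurable_const hw
  have h2 : ∀ c : ℝ, MeasurableSet {x : St d | κ x ≤ c} := fun c =>
    measurableSet_le hκ measurable_const
  have h3 : ∀ c : ℝ, MeasurableSet {x : St d | c ≤ κ x} := fun c =>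
    measurableSet_le measurable_const hκ
  have h4 : ∀ f : St d → ℝ, Measurable f → MeasurableSet {x : St d | ∃ k, lev k ^ 200 ≤ f x ∧
      f x < 4 * lev k ^ 200 ∧ R3 x < 32 / lev k ^ 77} := by
    intro f hf
    have h5 : {x : St d | ∃ k, lev k ^ 200 ≤ f x ∧
      f x < 4 * lev k ^ 200 ∧ R3 x < 32 / lev k ^ 77} = ⋃ k, ({x : St d | lev k ^ 200 ≤ f x} ∩
      ({x : St d | f x < 4 * lev k ^ 200} ∩ {x : St d | R3 x < 32 / lev k ^ 77})) := by
      ext x
      simp only [mem_iUnion, mem_inter_iff, mem_ofPred_eq]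
    rw [h5]
    exact MeasurableSet.iUnion fun k => (measurableSet_le measurable_const hf).inter
      ((measurableSet_lt hf measurable_const).inter (measurableSet_lt hR measurable_const))
  exact ((h0 _).inter (h2 _)).union (((h0 _).inter ((h3 _).inter (h4 κ hκ))).union
    ((h1 _).inter (h4 κQ hκQ)))

theorem measurableSet_badT (n : ℕ) (m : Fin 5 → ℝ) : MeasurableSet {x : St d | BadT n m x} := by
  have h1 : MeasurableSet {x : St d | Closest x.1} := measurable_fst measurableSet_closest
  have h2 : MeasurableSet {x : St d | 1 / cn n ^ 20 ≤ Rg 4 x.1} :=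
    measurableSet_le (by fun_prop) (by fun_prop)
  have h3 : MeasurableSet {x : St d | ‖x.1 0 - x.1 2‖ ≤ 2 / cn n ^ 20} :=
    measurableSet_le (by fun_prop) (by fun_prop)
  exact h1.inter (h2.inter (h3.inter
    (measurableSet_badCore n (by fun_prop) (by fun_prop) (by fun_prop) (by fun_prop))))

theorem measurableSet_badP (n : ℕ) (m : Fin 5 → ℝ) : MeasurableSet {x : St d | BadP n m x} := by
  have h1 : MeasurableSet {x : St d | Closest x.1} := measurable_fst measurableSet_closest
  have h2 : MeasurableSet {x : St d | 1 / cn n ^ 20 ≤ Rg 4 x.1} :=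
    measurableSet_le (by fun_prop) (by fun_prop)
  have h3 : MeasurableSet {x : St d | ‖x.1 2 - x.1 3‖ ≤ 2 / cn n ^ 20} :=
    measurableSet_le (by fun_prop) (by fun_prop)
  exact h1.inter (h2.inter (h3.inter
    (measurableSet_badCore n (by fun_prop) (by fun_prop) (by fun_prop) (by fun_prop))))

theorem measurable_onSet {p : St d → Prop} {f : St d → ℝ} (hp : MeasurableSet {x | p x})
    (hf : Measurable f) : Measurable fun x => onSet (p x) (f x) := by
  unfold onSet
  exact Measurable.ite hp hf.ennreal_ofReal measurable_const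

theorem measurable_gP (P : Par) (b : ℝ) (m : Fin 5 → ℝ) : Measurable (gP P b m : St d → ℝ≥0∞) := by
  unfold gP
  refine measurable_onSet ?_ (by fun_prop)
  have h2 : MeasurableSet {x : St d | Rg 3 x.1 ≤ 1 / b ^ 77} :=
    measurableSet_le (by fun_prop) (by fun_prop)
  exact ((measurableSet_s1 P b m).union (measurableSet_s3 P b m)).inter h2

theorem measurable_gD (P : Par) (b : ℝ) (m : Fin 5 → ℝ) : Measurable (gD P b m : St d → ℝ≥0∞) := by
  unfold gD
  refine measurable_onSet ?_ (by fun_prop)
  have h2 : MeasurableSet {x : St d | ‖x.1 3 - cm3 m 0 1 2 x.1‖ ≤ 1 / b ^ 50} :=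
    measurableSet_le (by fun_prop) (by fun_prop)
  have h3 : MeasurableSet {x : St d | ‖x.1 4 - cm3 m 0 1 2 x.1‖ ≤ 1 / b ^ 50} :=
    measurableSet_le (by fun_prop) (by fun_prop)
  exact (measurableSet_s3 P b m).inter (h2.union h3)

theorem measurable_gX (P : Par) (b : ℝ) (m : Fin 5 → ℝ) : Measurable (gX P b m : St d → ℝ≥0∞) := by
  unfold gX
  refine measurable_onSet ?_ ?_
  · have h2 : MeasurableSet {x : St d | 1 / b ^ 96 ≤ ‖x.1 2 - cm m 0 1 x.1‖} :=
      measurableSet_le (by fun_prop) (by fun_prop)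
    have h3 : MeasurableSet {x : St d | ‖x.1 2 - cm m 0 1 x.1‖ ≤ 2 / b ^ 96} :=
      measurableSet_le (by fun_prop) (by fun_prop)
    exact (measurableSet_s1 P b m).inter (h2.inter (h3.inter (measurableSet_good P b m).compl))
  · exact Measurable.mul (by fun_prop) (measurable_wt b (by fun_prop) (by fun_prop))

theorem measurable_gB (n : ℕ) (m : Fin 5 → ℝ) : Measurable (gB n m : St d → ℝ≥0∞) := by
  unfold gB
  exact measurable_onSet ((measurableSet_badT n m).union (measurableSet_badP n m)) (by fun_prop)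

theorem measurable_weight (P : Par) (m : Fin 5 → ℝ) : Measurable (G P m : St d → ℝ≥0∞) := by
  unfold G
  refine Finset.measurable_sum _ fun s _ => ?_
  have h := measurable_rel (d := d) s
  refine Measurable.add (Measurable.tsum fun k => ?_) (Measurable.tsum fun n => ?_)
  · exact (((measurable_gP P _ _).comp h).add ((measurable_gD P _ _).comp h)).add
      ((measurable_gX P _ _).comp h)
  · exact (measurable_gB n _).comp h

end NB5
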