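import Mathlib
import Pool.Agent.HDN.Defs
import Pool.Agent.HDN.MaxSol
import Pool.Agent.HDN.Haar
import Pool.Agent.HDN.FinA
import Pool.Agent.HDN.FinC
import Pool.Agent.HDN.Glue
import Pool.Agent.NB5.Defs
import Pool.Agent.NB5.MMark
import Pool.Agent.NB5.MInv
import Pool.Agent.NB5.MIso
import Pool.Agent.NB5.MMeas

/-!
# From the state integral and the deterministic argument to the theorem (project NB5)

`exists_cx`: for almost every initial state every maximal solution on `[0, T)` has the context `Cx`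
for all `τ` close to `T`. `incomplete_null5`: the theorem, from the finiteness of the state integral
and the deterministic statement.
-/

open MeasureTheory Set Filter Topology Metric
open scoped NNReal ENNReal RealInnerProductSpace

namespace NB5

open HDN

variable {N d : ℕ}

theorem inv_mono {m : Fin N → ℝ} {R R' : ℝ} (h : R ≤ R') :
    (Inv m R : Set (Ph N d)) ⊆ Inv m R' := by
  rintro x ⟨h1, h2, h3, h4, h5, h6⟩
  refine ⟨h1, h2.trans h, h3.trans h, h4.trans h, h5.trans h, h6.trans ?_⟩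
  exact mul_le_mul_of_nonneg_right h (by positivity)

theorem exists_cx (hd : 3 ≤ d) {m : Fin 5 → ℝ} {M : ℝ} (hm : Mb M m) (P : ℕ → Par)
    (hPM : ∀ R, (P R).M = M) (hPR : ∀ R : ℕ, (R : ℝ) ≤ (P R).R)
    (hfin : ∀ R, ∫⁻ x in (Inv m (P R).R : Set (St d)), G (P R) m x ≠ ∞) :
    ∀ᵐ x : St d, ∀ T > 0, ∀ γ : ℝ → St d, γ 0 = x →
      SolOn (nfield m) (FreeSet 5 d) γ (Ico 0 T) →
      (∀ K, IsCompact K → K ⊆ FreeSet 5 d → ∃ t ∈ Ico 0 T, γ t ∉ K) →
      ∃ R : ℕ, ∀ ε > 0, ∀ᶠ τ in 𝓝[<] T, Cx (P R) ε m γ τ T := by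
  have hM : 0 < M := lt_of_lt_of_le one_pos hm.1
  have hmpos : ∀ i, 0 < m i := fun i => lt_of_lt_of_le (by positivity) (hm.2 i).1
  have h1 := ae_all_iff.2 fun p : ℕ × ℕ =>
    markov m (measurableSet_inv (d := d) m (P p.1).R) (measurable_weight (P p.1) m)
      (hfin p.1) p.2
  filter_upwards [h1, rg_null hd hmpos] with x hx hrg T hT γ h0 hγ hK
  obtain ⟨R, hR⟩ := exists_inv hmpos hγ
  obtain ⟨n, hn⟩ := exists_nat_ge T
  have hinv : ∀ t ∈ Ico 0 T, γ t ∈ Inv m (P R).R := fun t ht => inv_mono (hPR R) (hR t ht)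
  have hint := hx (R, n) T hn γ h0 hγ hinv
  refine ⟨R, fun ε hε => ?_⟩
  obtain ⟨δ, hδ, hs⟩ := exists_pos_setLIntegral_lt_of_measure_lt hint
    (ε := ENNReal.ofReal ε) (by simpa using hε)
  have hlim : ∀ᶠ τ in 𝓝[<] T, ENNReal.ofReal (T - τ) < δ := by
    have hc : Tendsto (fun τ : ℝ => ENNReal.ofReal (T - τ)) (𝓝[<] T) (𝓝 0) := by
      have h2 : Tendsto (fun τ : ℝ => T - τ) (𝓝[<] T) (𝓝 (T - T)) :=
        (tendsto_const_nhds.sub tendsto_id).mono_left nhdsWithin_le_nhds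
      rw [sub_self] at h2
      simpa using ENNReal.tendsto_ofReal h2
    exact hc (Iio_mem_nhds hδ)
  have hlt : ∀ᶠ τ in 𝓝[<] T, τ < T := self_mem_nhdsWithin
  have hgt : ∀ᶠ τ in 𝓝[<] T, max 0 (T - 1) < τ := by
    have h2 : Ioi (max 0 (T - 1)) ∈ 𝓝 T := Ioi_mem_nhds (max_lt hT (by linarith))
    exact nhdsWithin_le_nhds h2
  filter_upwards [hlim, hlt, hgt] with τ h2 h3 h4
  have h5 : 0 < τ := lt_of_le_of_lt (le_max_left _ _) h4
  have h6 : T - 1 < τ := lt_of_le_of_lt (le_max_right _ _) h4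
  have hsub : Ico τ T ⊆ Ico 0 T := Ico_subset_Ico_left h5.le
  refine ⟨by rw [hPM]; exact hm, h3, by linarith, fun t ht => hγ t (hsub ht),
    fun t ht => hinv t (hsub ht), ?_, fun δ' hδ' => hrg T hT γ h0 hγ hK δ' hδ' τ ⟨h5.le, h3⟩⟩
  have h7 := hs (Ico τ T) (by
    rw [Measure.restrict_apply measurableSet_Ico, inter_eq_self_of_subset_left hsub,
      Real.volume_Ico]
    exact h2)
  rw [Measure.restrict_restrict measurableSet_Ico, inter_eq_self_of_subset_left hsub] at h7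
  exact h7.le

theorem not_done (m : Fin 5 → ℝ) (γ : ℝ → St d) (τ : ℝ) : ∃ k0, ∀ k ≥ k0, ¬ Done m γ τ k := by
  classical
  have h1 : ∀ σ : Equiv.Perm (Fin 5), ∃ k0 : ℕ, ∀ k ≥ k0,
      ¬ (lev k ^ 200 / 2 ≤ FQ (m ∘ σ) (rel σ (γ τ)) ∨
        lev k ^ 200 / 2 ≤ FT (m ∘ σ) (rel σ (γ τ))) := by
    intro σ
    have h2 : Tendsto (fun k : ℕ => lev k ^ 200 / 2) atTop atTop := by
      have h3 : ∀ k : ℕ, lev k ^ 200 / 2 = 4 ^ k / 2 := by
        intro k
        unfold lev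
        rw [← Real.rpow_natCast, ← Real.rpow_mul (by norm_num)]
        have h4 : (k : ℝ) / 100 * ((200 : ℕ) : ℝ) = 2 * (k : ℝ) := by push_cast; ring
        rw [h4, Real.rpow_mul (by norm_num)]
        norm_num
      simp_rw [h3]
      exact (tendsto_pow_atTop_atTop_of_one_lt (by norm_num : (1 : ℝ) < 4)).atTop_div_const
        (by norm_num)
    have h3 := (h2.eventually_gt_atTop (max (FQ (m ∘ σ) (rel σ (γ τ)))
      (FT (m ∘ σ) (rel σ (γ τ))))).exists_forall_of_atTop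
    obtain ⟨k0, hk0⟩ := h3
    refine ⟨k0, fun k hk h => ?_⟩
    have h4 := hk0 k hk
    rcases h with h | h
    · exact absurd h (not_le.2 ((le_max_left _ _).trans_lt h4))
    · exact absurd h (not_le.2 ((le_max_right _ _).trans_lt h4))
  choose k0 hk0 using h1
  refine ⟨Finset.univ.sup k0, fun k hk h => ?_⟩
  obtain ⟨σ, hσ⟩ := h
  exact hk0 σ k ((Finset.le_sup (Finset.mem_univ σ)).trans hk) hσ

/-- the final statement, from the finiteness of the state integral (`hfin`) and from the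
deterministic part (`hdet`), both for a family `good` of parameters -/
theorem incomplete_null5 (hd : 3 ≤ d) {m : Fin 5 → ℝ} (hm : ∀ i, 0 < m i) (good : Par → Prop)
    (hgood : ∀ M ≥ 1, ∀ R ≥ 1, ∃ P : Par, P.M = M ∧ R ≤ P.R ∧ good P)
    (hfin : ∀ P : Par, good P → Mb P.M m →
      ∫⁻ x in (Inv m P.R : Set (St d)), G P m x ≠ ∞)
    (hdet : ∀ P : Par, good P → ∃ ε > 0, ∀ (γ : ℝ → St d) (τ T : ℝ),
      Cx P ε m γ τ T → ∀ k0, ∃ k ≥ k0, Done m γ τ k) :
    volume (incomplete m : Set (St d)) = 0 := by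
  classical
  -- a bound for the masses
  obtain ⟨M, hM⟩ : ∃ M, Mb M m := by
    obtain ⟨i0, hi0⟩ := Finite.exists_max fun i => max (m i) (1 / m i)
    refine ⟨max 1 (max (m i0) (1 / m i0)), le_max_left _ _, fun i => ⟨?_, ?_⟩⟩
    · have h1 : 1 / m i ≤ max 1 (max (m i0) (1 / m i0)) :=
        ((le_max_right _ _).trans (hi0 i)).trans (le_max_right _ _)
      have h2 : 0 < 1 / m i := by have := hm i; positivity
      calc 1 / max 1 (max (m i0) (1 / m i0)) ≤ 1 / (1 / m i) :=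
            one_div_le_one_div_of_le h2 h1
        _ = m i := one_div_one_div _
    · exact ((le_max_left _ _).trans (hi0 i)).trans (le_max_right _ _)
  choose P hPM hPR hPg using fun n : ℕ => hgood M hM.1 (max 1 (n : ℝ)) (le_max_left _ _)
  have h1 := exists_cx hd hM P hPM (fun R => (le_max_right _ _).trans (hPR R))
    (fun R => hfin (P R) (hPg R) (by rw [hPM]; exact hM))
  have hfw : volume {x : St d | Free x.1 ∧
      ¬ ∃ γ : ℝ → St d, γ 0 = x ∧ SolOn (nfield m) (FreeSet 5 d) γ (Ici 0)} = 0 := by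
    rw [measure_eq_zero_iff_ae_notMem]
    filter_upwards [h1] with x hx hmem
    obtain ⟨hx1, hx2⟩ := hmem
    rcases exists_maximal (isOpen_freeSet (N := 5) (d := d)) (contDiffOn_nfield (m := m))
      (show x ∈ FreeSet 5 d from hx1) with h | ⟨T, hT, γ, h0, hγ, hK⟩
    · exact hx2 h
    obtain ⟨R, hR⟩ := hx T hT γ h0 hγ hK
    obtain ⟨ε, hε, hdet1⟩ := hdet (P R) (hPg R)
    obtain ⟨τ, hτ⟩ := (hR ε hε).exists
    obtain ⟨k0, hk0⟩ := not_done m γ τ
    obtain ⟨k, hk, hD⟩ := hdet1 γ τ T hτ k0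
    exact hk0 k hk hD
  have h2 := null_reverse hfw
  refine measure_mono_null ?_ (measure_union_null hfw h2)
  intro x hx
  obtain ⟨hx1, hx2⟩ := hx
  by_cases hf : ∃ γ : ℝ → St d, γ 0 = x ∧ SolOn (nfield m) (FreeSet 5 d) γ (Ici 0)
  · right
    refine ⟨hx1, fun hb => hx2 ?_⟩
    obtain ⟨γ₁, h3, h4⟩ := hf
    obtain ⟨γ₂, h5, h6⟩ := sol_reverse hb
    exact sol_univ_of_forward_backward h3 h4 h5 h6
  · exact Or.inl ⟨hx1, hf⟩

end NB5
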