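import Mathlib
import Pool.Agent.NB5.Defs
import Pool.Agent.NB5.MIso

/-!
# The linkage distances `Rg 3`, `Rg 4` (project NB5, module NB5-RgB)

The set in the definition of `Rg k` is nonempty (`0`, any surjection), bounded above (a surjection
onto `Fin k`, `2 ≤ k`, separates two bodies; the finitely many distances are bounded by their sum),
downward closed, and the supremum is attained: there are finitely many `p`, for each of them the set
is `Iic` of the minimum of finitely many distances. For `Rg 4` with `0, 1` closest: a partition in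
four classes of five bodies merges exactly one pair `{i, j}`; all other distances are `≥ s`.
-/

open MeasureTheory Set Filter Topology Metric
open scoped NNReal ENNReal RealInnerProductSpace

namespace NB5

open HDN

variable {d : ℕ}

theorem le_Rg_iff {k : ℕ} (h2 : 2 ≤ k) (h5 : k ≤ 5) {q : Cf 5 d} {s : ℝ} :
    s ≤ Rg k q ↔ ∃ p : Fin 5 → Fin k, Function.Surjective p ∧
      ∀ i j, p i ≠ p j → s ≤ ‖q i - q j‖ := by
  constructor
  · intro hs
    obtain ⟨p, hp, h⟩ := rg_mem h2 h5 q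
    exact ⟨p, hp, fun i j hij => hs.trans (h i j hij)⟩
  · rintro ⟨p, hp, h⟩
    exact le_rg h2 q hp h

theorem Rg_sub_le {k : ℕ} (h2 : 2 ≤ k) (h5 : k ≤ 5) {q q' : Cf 5 d} {ε : ℝ}
    (h : ∀ i j, |‖q i - q j‖ - ‖q' i - q' j‖| ≤ ε) : |Rg k q - Rg k q'| ≤ ε := by
  have h1 : Rg k q - ε ≤ Rg k q' := by
    obtain ⟨p, hp, hh⟩ := rg_mem h2 h5 q
    refine le_rg h2 q' hp fun i j hij => ?_
    have a1 := hh i j hij
    have a2 := (abs_le.1 (h i j)).2
    linarith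
  have h3 : Rg k q' - ε ≤ Rg k q := by
    obtain ⟨p, hp, hh⟩ := rg_mem h2 h5 q'
    refine le_rg h2 q hp fun i j hij => ?_
    have a1 := hh i j hij
    have a2 := (abs_le.1 (h i j)).1
    linarith
  rw [abs_le]
  constructor <;> linarith

theorem continuous_Rg {k : ℕ} (h2 : 2 ≤ k) (h5 : k ≤ 5) :
    Continuous (Rg k : Cf 5 d → ℝ) := by
  refine LipschitzWith.continuous (K := 2) ?_
  refine LipschitzWith.of_dist_le_mul fun q q' => ?_
  rw [Real.dist_eq, dist_eq_norm]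
  refine Rg_sub_le h2 h5 fun i j => ?_
  refine (abs_norm_sub_norm_le _ _).trans ?_
  have e : q i - q j - (q' i - q' j) = (q - q') i - (q - q') j := by
    simp only [Pi.sub_apply]
    abel
  rw [e]
  refine (norm_sub_le _ _).trans ?_
  have a1 := norm_le_pi_norm (q - q') i
  have a2 := norm_le_pi_norm (q - q') j
  have e2 : ((2 : ℝ≥0) : ℝ) = 2 := by norm_num
  rw [e2]
  linarith

theorem Rg_rel {k : ℕ} (s : Equiv.Perm (Fin 5)) (q : Cf 5 d) : Rg k (q ∘ s) = Rg k q := by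
  unfold Rg
  congr 1
  ext t
  constructor
  · rintro ⟨p, hp, h⟩
    refine ⟨p ∘ s.symm, hp.comp s.symm.surjective, fun i j hij => ?_⟩
    have := h (s.symm i) (s.symm j) hij
    simpa using this
  · rintro ⟨p, hp, h⟩
    refine ⟨p ∘ s, hp.comp s.surjective, fun i j hij => ?_⟩
    exact h (s i) (s j) hij

theorem Rg4_le_Rg3 (q : Cf 5 d) : Rg 4 q ≤ Rg 3 q := by
  obtain ⟨p, hp, h⟩ := rg_mem (k := 4) (by norm_num) (by norm_num) q
  refine le_rg (k := 3) (by norm_num) q (p := (![0, 1, 2, 2] : Fin 4 → Fin 3) ∘ p) ?_ ?_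
  · refine Function.Surjective.comp ?_ hp
    intro y
    fin_cases y
    · exact ⟨0, rfl⟩
    · exact ⟨1, rfl⟩
    · exact ⟨2, rfl⟩
  · intro i j hij
    refine h i j fun e => hij ?_
    simp only [Function.comp_apply, e]

private theorem rgB_min (q : Cf 5 d) (C : Fin 5 → Fin 5 → Prop) (s : ℝ)
    (hC : ∀ i j, C i j → s < ‖q i - q j‖) : ∃ δ, s < δ ∧ ∀ i j, C i j → δ ≤ ‖q i - q j‖ := by
  classical
  have h1 : ∀ p : Fin 5 × Fin 5, s < (if C p.1 p.2 then ‖q p.1 - q p.2‖ else s + 1) := by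
    intro p
    by_cases hp : C p.1 p.2
    · rw [if_pos hp]
      exact hC _ _ hp
    · rw [if_neg hp]
      linarith
  obtain ⟨p, hp⟩ := Finite.exists_min
    (fun p : Fin 5 × Fin 5 => if C p.1 p.2 then ‖q p.1 - q p.2‖ else s + 1)
  refine ⟨_, h1 p, fun i j hij => ?_⟩
  have := hp (i, j)
  simp only [if_pos hij] at this
  exact this

theorem Rg_pos {k : ℕ} (h2 : 2 ≤ k) (h5 : k ≤ 5) {q : Cf 5 d} (hq : Free q) : 0 < Rg k q := by
  obtain ⟨δ, hδ, h⟩ := rgB_min q (fun i j => i ≠ j) 0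
    (fun i j hij => norm_pos_iff.2 (sub_ne_zero.2 (hq i j hij)))
  exact hδ.trans_le (min_le_rg h2 h5 h)

theorem Rg4_far {q : Cf 5 d} (hc : Closest q) {i j : Fin 5} (hij : i ≠ j)
    (h01 : ¬ (i ≤ 1 ∧ j ≤ 1)) : Rg 4 q ≤ ‖q i - q j‖ := by
  obtain ⟨a, b, hab, hiso⟩ := iso_of_rg (le_refl (Rg 4 q))
  by_cases h1 : (i = a ∧ j = b) ∨ (i = b ∧ j = a)
  · have h2 : Rg 4 q ≤ ‖q 0 - q 1‖ := by
      refine hiso 0 1 (by decide) ?_ ?_
      · rintro ⟨ha, hb⟩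
        rcases h1 with ⟨e1, e2⟩ | ⟨e1, e2⟩
        · exact h01 ⟨by rw [e1, ← ha]; decide, by rw [e2, ← hb]⟩
        · exact h01 ⟨by rw [e1, ← hb], by rw [e2, ← ha]; decide⟩
      · rintro ⟨hb, ha⟩
        rcases h1 with ⟨e1, e2⟩ | ⟨e1, e2⟩
        · exact h01 ⟨by rw [e1, ← ha], by rw [e2, ← hb]; decide⟩
        · exact h01 ⟨by rw [e1, ← hb]; decide, by rw [e2, ← ha]⟩
    exact h2.trans (hc i j hij)
  · rw [not_or] at h1
    exact hiso i j hij h1.1 h1.2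

theorem Rg4_near {q : Cf 5 d} {s : ℝ} (h : Rg 4 q ≤ s) :
    ∃ i j : Fin 5, i ≠ j ∧ ¬ (i ≤ 1 ∧ j ≤ 1) ∧ ‖q i - q j‖ ≤ s := by
  by_contra hcon
  push Not at hcon
  obtain ⟨δ, hδ, hh⟩ := rgB_min q (fun i j => i ≠ j ∧ ¬ (i ≤ 1 ∧ j ≤ 1)) s
    (fun i j hij => by
      refine hcon i j hij.1 ?_
      intro h1
      by_contra h2
      exact hij.2 ⟨h1, not_lt.1 h2⟩)
  have h1 : δ ≤ Rg 4 q := by
    refine le_rg (by norm_num) q (p := (![0, 0, 1, 2, 3] : Fin 5 → Fin 4)) ?_ ?_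
    · intro y
      fin_cases y
      · exact ⟨0, rfl⟩
      · exact ⟨2, rfl⟩
      · exact ⟨3, rfl⟩
      · exact ⟨4, rfl⟩
    · intro i j hij
      refine hh i j ?_
      revert hij
      revert i j
      decide
  linarith

private def rgB_perm (i j : Fin 5) : Equiv.Perm (Fin 5) :=
  if i ≤ 1 then Equiv.swap 0 i * Equiv.swap 2 j
  else if j ≤ 1 then Equiv.swap 0 j * Equiv.swap 2 i
  else Equiv.swap 2 i * Equiv.swap 3 (Equiv.swap 2 i j)

private theorem rgB_perm_spec : ∀ i j : Fin 5, i ≠ j → ¬ (i ≤ 1 ∧ j ≤ 1) →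
    ((rgB_perm i j 0 = 0 ∧ rgB_perm i j 1 = 1) ∨ (rgB_perm i j 0 = 1 ∧ rgB_perm i j 1 = 0)) ∧
    ((rgB_perm i j 0 = i ∧ rgB_perm i j 2 = j) ∨ (rgB_perm i j 0 = j ∧ rgB_perm i j 2 = i) ∨
      (rgB_perm i j 2 = i ∧ rgB_perm i j 3 = j)) := by
  decide

private theorem rgB_perm01 : ∀ a b : Fin 5, a ≠ b →
    ∃ σ : Equiv.Perm (Fin 5), σ 0 = a ∧ σ 1 = b := by
  intro a b hab
  refine ⟨Equiv.swap 0 a * Equiv.swap 1 (Equiv.swap 0 a b), ?_, ?_⟩
  · revert a b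
    decide
  · revert a b
    decide

/-- after relabelling `0, 1` is the closest pair, and a second close pair is `0, 2` or `2, 3` -/
theorem Rg4_class {q : Cf 5 d} {s : ℝ} (h : Rg 4 q ≤ s) :
    ∃ σ : Equiv.Perm (Fin 5), Closest (q ∘ σ) ∧
      (‖(q ∘ σ) 0 - (q ∘ σ) 2‖ ≤ s ∨ ‖(q ∘ σ) 2 - (q ∘ σ) 3‖ ≤ s) := by
  classical
  -- a closest pair
  have : Nonempty {p : Fin 5 × Fin 5 // p.1 ≠ p.2} := ⟨⟨(0, 1), by decide⟩⟩
  obtain ⟨⟨⟨a, b⟩, hab⟩, hmin⟩ := Finite.exists_min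
    (fun p : {p : Fin 5 × Fin 5 // p.1 ≠ p.2} => ‖q p.1.1 - q p.1.2‖)
  have hmin' : ∀ i j, i ≠ j → ‖q a - q b‖ ≤ ‖q i - q j‖ := fun i j hij => hmin ⟨(i, j), hij⟩
  obtain ⟨σ, ha, hb⟩ := rgB_perm01 a b hab
  have hR : Rg 4 (q ∘ σ) ≤ s := by rw [Rg_rel]; exact h
  obtain ⟨i, j, hij, h01, hs⟩ := Rg4_near hR
  obtain ⟨t01, tij⟩ := rgB_perm_spec i j hij h01
  refine ⟨σ * rgB_perm i j, ?_, ?_⟩
  · intro e f hef
    have h1 : ‖(q ∘ (σ * rgB_perm i j)) 0 - (q ∘ (σ * rgB_perm i j)) 1‖ = ‖q a - q b‖ := by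
      simp only [Function.comp_apply, Equiv.Perm.mul_apply]
      rcases t01 with ⟨e1, e2⟩ | ⟨e1, e2⟩
      · rw [e1, e2, ha, hb]
      · rw [e1, e2, ha, hb, norm_sub_rev]
    rw [h1]
    refine hmin' _ _ fun e1 => hef ?_
    exact (σ * rgB_perm i j).injective e1
  · simp only [Function.comp_apply, Equiv.Perm.mul_apply] at hs ⊢
    rcases tij with ⟨e1, e2⟩ | ⟨e1, e2⟩ | ⟨e1, e2⟩
    · left
      rw [e1, e2]
      exact hs
    · left
      rw [e1, e2, norm_sub_rev]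
      exact hs
    · right
      rw [e1, e2]
      exact hs

end NB5
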