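import Mathlib
import Pool.Agent.NB5.Defs
import Pool.Agent.NB5.RgB

/-!
# Relabelling, general facts (project NB5, module NB5-RelB)

All are reindexings of finite sums along `σ` (`Equiv.sum_comp`, `Function.Injective.sum...`).
`rel τ (rel σ x) = rel (σ * τ) x` and `(m ∘ σ) ∘ τ = m ∘ (σ * τ)` hold by `rfl` (or `funext`).
-/

open MeasureTheory Set Filter Topology Metric
open scoped NNReal ENNReal RealInnerProductSpace

namespace NB5

open HDN

variable {d : ℕ} {m : Fin 5 → ℝ} {M : ℝ}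

theorem rel_one (x : St d) : rel 1 x = x := rfl

theorem rel_rel (σ τ : Equiv.Perm (Fin 5)) (x : St d) : rel τ (rel σ x) = rel (σ * τ) x := rfl

theorem mass_mul (σ τ : Equiv.Perm (Fin 5)) (m : Fin 5 → ℝ) : (m ∘ σ) ∘ τ = m ∘ (σ * τ) := rfl

theorem continuous_rel (σ : Equiv.Perm (Fin 5)) : Continuous (rel σ : St d → St d) :=
  (continuous_pi fun i => (continuous_apply (σ i)).comp continuous_fst).prodMk
    (continuous_pi fun i => (continuous_apply (σ i)).comp continuous_snd)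

theorem Mb.rel (h : Mb M m) (σ : Equiv.Perm (Fin 5)) : Mb M (m ∘ σ) :=
  ⟨h.1, fun i => h.2 (σ i)⟩

theorem free_rel (σ : Equiv.Perm (Fin 5)) {x : St d} (h : Free x.1) : Free (rel σ x).1 :=
  fun _ _ hab => h _ _ (σ.injective.ne hab)

private theorem sum_erase_perm {A : Type*} [AddCommMonoid A] (σ : Equiv.Perm (Fin 5)) (a : Fin 5)
    (F : Fin 5 → A) :
    ∑ b ∈ Finset.univ.erase a, F (σ b) = ∑ b ∈ Finset.univ.erase (σ a), F b :=
  Finset.sum_equiv σ (by simp) (by simp)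

theorem acc_rel (σ : Equiv.Perm (Fin 5)) (q : Cf 5 d) : acc (m ∘ σ) (q ∘ σ) = acc m q ∘ σ := by
  funext a
  exact sum_erase_perm σ a fun b => (m b / ‖q b - q (σ a)‖ ^ 3) • (q b - q (σ a))

theorem sol_rel (σ : Equiv.Perm (Fin 5)) {γ : ℝ → St d} {S : Set ℝ}
    (h : SolOn (nfield m) (FreeSet 5 d) γ S) :
    SolOn (nfield (m ∘ σ)) (FreeSet 5 d) (fun t => rel σ (γ t)) S := by
  intro t ht
  obtain ⟨h1, h2⟩ := h t ht
  refine ⟨free_rel σ h1, ?_⟩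
  have h3 : HasDerivAt (fun s => (γ s).1) (γ t).2 t := h2.fst
  have h4 : HasDerivAt (fun s => (γ s).2) (acc m (γ t).1) t := h2.snd
  have h5 : HasDerivAt (fun s => (γ s).1 ∘ σ) ((γ t).2 ∘ σ) t :=
    hasDerivAt_pi.2 fun i => (hasDerivAt_pi.1 h3) (σ i)
  have h6 : HasDerivAt (fun s => (γ s).2 ∘ σ) (acc m (γ t).1 ∘ σ) t :=
    hasDerivAt_pi.2 fun i => (hasDerivAt_pi.1 h4) (σ i)
  have h7 := h5.prodMk h6
  rw [← acc_rel] at h7
  exact h7

theorem kin_rel (σ : Equiv.Perm (Fin 5)) (v : Cf 5 d) : Kin (m ∘ σ) (v ∘ σ) = Kin m v := by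
  unfold Kin
  congr 1
  exact Equiv.sum_comp σ fun a => m a * ‖v a‖ ^ 2

private theorem pot_rel (σ : Equiv.Perm (Fin 5)) (q : Cf 5 d) :
    Pot (m ∘ σ) (q ∘ σ) = Pot m q := by
  unfold Pot
  congr 1
  rw [← Equiv.sum_comp σ fun a => ∑ b ∈ Finset.univ.erase a, m a * m b / ‖q b - q a‖]
  refine Finset.sum_congr rfl fun a _ => ?_
  exact sum_erase_perm σ a fun b => m (σ a) * m b / ‖q b - q (σ a)‖

theorem ham_rel (σ : Equiv.Perm (Fin 5)) (x : St d) : Ham (m ∘ σ) (rel σ x) = Ham m x := by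
  unfold Ham
  exact congrArg₂ (· - ·) (kin_rel σ x.2) (pot_rel σ x.1)

private theorem mass_sum_rel (σ : Equiv.Perm (Fin 5)) : ∑ a, (m ∘ σ) a = ∑ a, m a :=
  Equiv.sum_comp σ m

private theorem cmv_rel (σ : Equiv.Perm (Fin 5)) (q : Cf 5 d) : cmv (m ∘ σ) (q ∘ σ) = cmv m q := by
  unfold cmv
  rw [mass_sum_rel]
  congr 1
  exact Equiv.sum_comp σ fun a => m a • q a

private theorem lop_rel (σ : Equiv.Perm (Fin 5)) (x : St d) :
    Lop (m ∘ σ) (rel σ x) = Lop m x := by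
  unfold Lop
  rw [mass_sum_rel]
  have h1 : ∑ a, (m ∘ σ) a • wedge ((rel σ x).1 a) ((rel σ x).2 a) =
      ∑ a, m a • wedge (x.1 a) (x.2 a) := Equiv.sum_comp σ fun a => m a • wedge (x.1 a) (x.2 a)
  have h2 : ∑ a, (m ∘ σ) a • (rel σ x).1 a = ∑ a, m a • x.1 a :=
    Equiv.sum_comp σ fun a => m a • x.1 a
  have h3 : ∑ a, (m ∘ σ) a • (rel σ x).2 a = ∑ a, m a • x.2 a :=
    Equiv.sum_comp σ fun a => m a • x.2 a
  rw [h1, h2, h3]

private theorem iner_rel (σ : Equiv.Perm (Fin 5)) (x : St d) :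
    Iner (m ∘ σ) (rel σ x) = Iner m x := by
  unfold Iner
  have h : cmv (m ∘ σ) (rel σ x).1 = cmv m x.1 := cmv_rel σ x.1
  rw [h]
  exact Equiv.sum_comp σ fun a => m a * ‖x.1 a - cmv m x.1‖ ^ 2

private theorem jner_rel (σ : Equiv.Perm (Fin 5)) (x : St d) :
    Jner (m ∘ σ) (rel σ x) = Jner m x := by
  unfold Jner
  have h : cmv (m ∘ σ) (rel σ x).1 = cmv m x.1 := cmv_rel σ x.1
  have h' : cmv (m ∘ σ) (rel σ x).2 = cmv m x.2 := cmv_rel σ x.2
  rw [h, h']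
  exact Equiv.sum_comp σ fun a => m a * ⟪x.1 a - cmv m x.1, x.2 a - cmv m x.2⟫

theorem inv_rel (σ : Equiv.Perm (Fin 5)) {x : St d} {R : ℝ} (h : x ∈ Inv m R) :
    rel σ x ∈ Inv (m ∘ σ) R := by
  obtain ⟨h1, h2, h3, h4, h5, h6⟩ := h
  refine ⟨free_rel σ h1, ?_, ?_, ?_, ?_, ?_⟩
  · rw [ham_rel]
    exact h2
  · rw [lop_rel]
    exact h3
  · rw [show cmv (m ∘ σ) (rel σ x).1 = cmv m x.1 from cmv_rel σ x.1]
    exact h4
  · rw [show cmv (m ∘ σ) (rel σ x).2 = cmv m x.2 from cmv_rel σ x.2]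
    exact h5
  · rw [iner_rel, jner_rel]
    exact h6

theorem hp_rel (σ : Equiv.Perm (Fin 5)) (i j : Fin 5) (x : St d) :
    hp (m ∘ σ) i j (rel σ x) = hp m (σ i) (σ j) x := rfl

theorem hp_comm (m : Fin 5 → ℝ) (i j : Fin 5) (x : St d) : hp m i j x = hp m j i x := by
  unfold hp
  rw [norm_sub_rev (x.2 i), norm_sub_rev (x.1 i), add_comm (m i), mul_comm (m i) (m j)]

theorem G_rel (P : Par) (σ : Equiv.Perm (Fin 5)) (x : St d) :
    G P (m ∘ σ) (rel σ x) = G P m x := by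
  unfold G
  exact Equiv.sum_comp (Equiv.mulLeft σ) fun s : Equiv.Perm (Fin 5) =>
    ((∑' k : ℕ, (gP P (lev (P.k0 + k)) (m ∘ s) (rel s x) +
      gD P (lev (P.k0 + k)) (m ∘ s) (rel s x) + gX P (lev (P.k0 + k)) (m ∘ s) (rel s x))) +
      ∑' n : ℕ, gB n (m ∘ s) (rel s x))

end NB5
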