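import Mathlib
import Pool.Agent.NB5.Defs

/-!
# Splitting the kinetic energy (project NB5, module NB5-KinSplit)

`m_a |v_a|^2 + m_b |v_b|^2 = (m_a + m_b) |V|^2 + m_a m_b / (m_a + m_b) |v_a - v_b|^2` with the centre
of mass velocity `V` (same proof as `HDN.kin_split`, `Pool/Agent/HDN/SingA.lean`); unfold the finite
sums over `Fin 5` with `Fin.sum_univ_five`. The bounds: each term of a sum of nonnegative terms is at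
most the sum, `1 / M ≤ m i`.
-/

open MeasureTheory Set Filter Topology Metric
open scoped NNReal ENNReal RealInnerProductSpace

namespace NB5

open HDN

variable {d : ℕ} {m : Fin 5 → ℝ} {M : ℝ}

private theorem ks_pair {α β : ℝ} (hα : 0 < α) (hβ : 0 < β) (x y : Sp d) :
    α * ‖x‖ ^ 2 + β * ‖y‖ ^ 2 = (α + β) * ‖(α + β)⁻¹ • (α • x + β • y)‖ ^ 2 +
      α * β / (α + β) * ‖x - y‖ ^ 2 := by
  have h0 : (0 : ℝ) < α + β := add_pos hα hβ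
  have e1 : ‖(α + β)⁻¹ • (α • x + β • y)‖ ^ 2 = ((α + β)⁻¹) ^ 2 * ‖α • x + β • y‖ ^ 2 := by
    rw [norm_smul, Real.norm_of_nonneg (inv_pos.2 h0).le, mul_pow]
  have e2 : ‖α • x + β • y‖ ^ 2 = α ^ 2 * ‖x‖ ^ 2 + 2 * (α * β * ⟪x, y⟫) + β ^ 2 * ‖y‖ ^ 2 := by
    rw [norm_add_sq_real, norm_smul, norm_smul, Real.norm_of_nonneg hα.le,
      Real.norm_of_nonneg hβ.le, real_inner_smul_left, real_inner_smul_right]
    ring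
  have e3 : ‖x - y‖ ^ 2 = ‖x‖ ^ 2 - 2 * ⟪x, y⟫ + ‖y‖ ^ 2 := norm_sub_sq_real x y
  rw [e1, e2, e3]
  field_simp
  ring

private theorem ks_cm {α β : ℝ} (hα : 0 < α) (hβ : 0 < β) (x y : Sp d) :
    (α + β) • ((α + β)⁻¹ • (α • x + β • y)) = α • x + β • y := by
  rw [smul_smul, mul_inv_cancel₀ (add_pos hα hβ).ne', one_smul]

private theorem ks_sub (x y : Sp d) : ‖x - y‖ ^ 2 ≤ 2 * ‖x‖ ^ 2 + 2 * ‖y‖ ^ 2 := by
  have h := norm_sub_le x y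
  have h1 : ‖x - y‖ ^ 2 ≤ (‖x‖ + ‖y‖) ^ 2 := pow_le_pow_left₀ (norm_nonneg _) h 2
  nlinarith [sq_nonneg (‖x‖ - ‖y‖)]

private theorem ks_bd (hM : 1 ≤ M) {μ K z : ℝ} (hμ : 1 / M ≤ μ) (hz : 0 ≤ z)
    (h : μ * z ≤ 2 * K) : z ≤ 2 * M * K := by
  have hM0 : 0 < M := by linarith
  have h1 : 1 / M * z ≤ 2 * K := (mul_le_mul_of_nonneg_right hμ hz).trans h
  have h2 : M * (1 / M * z) ≤ M * (2 * K) := mul_le_mul_of_nonneg_left h1 hM0.le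
  have h3 : M * (1 / M * z) = z := by
    field_simp
  linarith

private theorem ks_sub_bd (x y : Sp d) {B : ℝ} (hx : ‖x‖ ^ 2 ≤ 2 * M * B)
    (hy : ‖y‖ ^ 2 ≤ 2 * M * B) : ‖x - y‖ ^ 2 ≤ 8 * M * B := by
  have := ks_sub x y
  linarith

theorem kin_split_Q (hm : ∀ i, 0 < m i) (v : Cf 5 d) :
    Kin m v = (1 / 2) * (m 0 * m 1 / (m 0 + m 1)) * ‖v 0 - v 1‖ ^ 2 + KQ m v := by
  have h := ks_pair (hm 0) (hm 1) (v 0) (v 1)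
  unfold Kin KQ cm
  rw [Fin.sum_univ_five]
  linarith

theorem kq_split_T (hm : ∀ i, 0 < m i) (v : Cf 5 d) :
    KQ m v = (1 / 2) * ((m 0 + m 1) * m 2 / (m 0 + m 1 + m 2)) * ‖v 2 - cm m 0 1 v‖ ^ 2 +
      KT m v := by
  have h := ks_pair (add_pos (hm 0) (hm 1)) (hm 2) (cm m 0 1 v) (v 2)
  have e : (m 0 + m 1) • cm m 0 1 v = m 0 • v 0 + m 1 • v 1 := ks_cm (hm 0) (hm 1) _ _
  rw [e] at h
  unfold KQ KT cm3
  rw [norm_sub_rev]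
  linarith

theorem kq_split_P (hm : ∀ i, 0 < m i) (v : Cf 5 d) :
    KQ m v = (1 / 2) * (m 2 * m 3 / (m 2 + m 3)) * ‖v 2 - v 3‖ ^ 2 + KP m v := by
  have h : m 2 * ‖v 2‖ ^ 2 + m 3 * ‖v 3‖ ^ 2 = (m 2 + m 3) * ‖cm m 2 3 v‖ ^ 2 +
      m 2 * m 3 / (m 2 + m 3) * ‖v 2 - v 3‖ ^ 2 := ks_pair (hm 2) (hm 3) (v 2) (v 3)
  unfold KQ KP
  linarith

theorem kin_nonneg (hm : ∀ i, 0 < m i) (v : Cf 5 d) : 0 ≤ Kin m v := by
  unfold Kin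
  have h : 0 ≤ ∑ a, m a * ‖v a‖ ^ 2 :=
    Finset.sum_nonneg fun a _ => mul_nonneg (hm a).le (sq_nonneg _)
  linarith

theorem kq_nonneg (hm : ∀ i, 0 < m i) (v : Cf 5 d) : 0 ≤ KQ m v := by
  unfold KQ
  have h0 := hm 0
  have h1 := hm 1
  have h2 := hm 2
  have h3 := hm 3
  have h4 := hm 4
  positivity

theorem kt_nonneg (hm : ∀ i, 0 < m i) (v : Cf 5 d) : 0 ≤ KT m v := by
  unfold KT
  have h0 := hm 0
  have h1 := hm 1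
  have h2 := hm 2
  have h3 := hm 3
  have h4 := hm 4
  positivity

theorem kp_nonneg (hm : ∀ i, 0 < m i) (v : Cf 5 d) : 0 ≤ KP m v := by
  unfold KP
  have h0 := hm 0
  have h1 := hm 1
  have h2 := hm 2
  have h3 := hm 3
  have h4 := hm 4
  positivity

theorem Mb.pos (h : Mb M m) (i : Fin 5) : 0 < m i := by
  have h1 : 0 < 1 / M := by
    have := h.1
    positivity
  exact h1.trans_le (h.2 i).1

/-- velocities are bounded by the total kinetic energy -/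
theorem kin_bound (h : Mb M m) (v : Cf 5 d) (i : Fin 5) : ‖v i‖ ^ 2 ≤ 2 * M * Kin m v := by
  refine ks_bd h.1 (h.2 i).1 (sq_nonneg _) ?_
  have h1 : m i * ‖v i‖ ^ 2 ≤ ∑ a, m a * ‖v a‖ ^ 2 :=
    Finset.single_le_sum (f := fun a => m a * ‖v a‖ ^ 2)
      (fun a _ => mul_nonneg (Mb.pos h a).le (sq_nonneg _)) (Finset.mem_univ i)
  unfold Kin
  linarith

theorem kin_bound_sub (h : Mb M m) (v : Cf 5 d) (i j : Fin 5) :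
    ‖v i - v j‖ ^ 2 ≤ 8 * M * Kin m v :=
  ks_sub_bd _ _ (kin_bound h v i) (kin_bound h v j)

theorem kq_bound (h : Mb M m) (v : Cf 5 d) :
    ‖cm m 0 1 v‖ ^ 2 ≤ 2 * M * KQ m v ∧ ∀ j : Fin 5, 2 ≤ j → ‖v j‖ ^ 2 ≤ 2 * M * KQ m v := by
  have p0 := Mb.pos h 0
  have p1 := Mb.pos h 1
  have p2 := Mb.pos h 2
  have p3 := Mb.pos h 3
  have p4 := Mb.pos h 4
  have q0 : 0 ≤ (m 0 + m 1) * ‖cm m 0 1 v‖ ^ 2 := by positivity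
  have q2 : 0 ≤ m 2 * ‖v 2‖ ^ 2 := by positivity
  have q3 : 0 ≤ m 3 * ‖v 3‖ ^ 2 := by positivity
  have q4 : 0 ≤ m 4 * ‖v 4‖ ^ 2 := by positivity
  have hK : 2 * KQ m v = (m 0 + m 1) * ‖cm m 0 1 v‖ ^ 2 + m 2 * ‖v 2‖ ^ 2 + m 3 * ‖v 3‖ ^ 2 +
      m 4 * ‖v 4‖ ^ 2 := by
    unfold KQ
    ring
  refine ⟨ks_bd (μ := m 0 + m 1) h.1 ?_ (sq_nonneg _) (by linarith), ?_⟩
  · have := (h.2 0).1
    linarith
  · intro j hj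
    have hj' : j = 2 ∨ j = 3 ∨ j = 4 := by
      revert hj
      revert j
      decide
    rcases hj' with rfl | rfl | rfl
    · exact ks_bd h.1 (h.2 2).1 (sq_nonneg _) (by linarith)
    · exact ks_bd h.1 (h.2 3).1 (sq_nonneg _) (by linarith)
    · exact ks_bd h.1 (h.2 4).1 (sq_nonneg _) (by linarith)

/-- relative velocities of `{0,1}, 2, 3, 4` -/
theorem kq_bound_sub (h : Mb M m) (v : Cf 5 d) :
    (∀ j : Fin 5, 2 ≤ j → ‖v j - cm m 0 1 v‖ ^ 2 ≤ 8 * M * KQ m v) ∧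
    ∀ i j : Fin 5, 2 ≤ i → 2 ≤ j → ‖v i - v j‖ ^ 2 ≤ 8 * M * KQ m v := by
  obtain ⟨h1, h2⟩ := kq_bound h v
  exact ⟨fun j hj => ks_sub_bd _ _ (h2 j hj) h1,
    fun i j hi hj => ks_sub_bd _ _ (h2 i hi) (h2 j hj)⟩

/-- relative velocities of `{0,1,2}, 3, 4` -/
theorem kt_bound_sub (h : Mb M m) (v : Cf 5 d) :
    ‖v 3 - cm3 m 0 1 2 v‖ ^ 2 ≤ 8 * M * KT m v ∧ ‖v 4 - cm3 m 0 1 2 v‖ ^ 2 ≤ 8 * M * KT m v ∧
      ‖v 3 - v 4‖ ^ 2 ≤ 8 * M * KT m v := by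
  have p0 := Mb.pos h 0
  have p1 := Mb.pos h 1
  have p2 := Mb.pos h 2
  have p3 := Mb.pos h 3
  have p4 := Mb.pos h 4
  have q0 : 0 ≤ (m 0 + m 1 + m 2) * ‖cm3 m 0 1 2 v‖ ^ 2 := by positivity
  have q3 : 0 ≤ m 3 * ‖v 3‖ ^ 2 := by positivity
  have q4 : 0 ≤ m 4 * ‖v 4‖ ^ 2 := by positivity
  have hK : 2 * KT m v = (m 0 + m 1 + m 2) * ‖cm3 m 0 1 2 v‖ ^ 2 + m 3 * ‖v 3‖ ^ 2 +
      m 4 * ‖v 4‖ ^ 2 := by
    unfold KT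
    ring
  have h0 : ‖cm3 m 0 1 2 v‖ ^ 2 ≤ 2 * M * KT m v := by
    refine ks_bd (μ := m 0 + m 1 + m 2) h.1 ?_ (sq_nonneg _) (by linarith)
    have := (h.2 0).1
    linarith
  have h3 : ‖v 3‖ ^ 2 ≤ 2 * M * KT m v := ks_bd h.1 (h.2 3).1 (sq_nonneg _) (by linarith)
  have h4 : ‖v 4‖ ^ 2 ≤ 2 * M * KT m v := ks_bd h.1 (h.2 4).1 (sq_nonneg _) (by linarith)
  exact ⟨ks_sub_bd _ _ h3 h0, ks_sub_bd _ _ h4 h0, ks_sub_bd _ _ h3 h4⟩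

/-- relative velocities of `{0,1}, {2,3}, 4` -/
theorem kp_bound_sub (h : Mb M m) (v : Cf 5 d) :
    ‖cm m 2 3 v - cm m 0 1 v‖ ^ 2 ≤ 8 * M * KP m v ∧ ‖v 4 - cm m 0 1 v‖ ^ 2 ≤ 8 * M * KP m v ∧
      ‖v 4 - cm m 2 3 v‖ ^ 2 ≤ 8 * M * KP m v := by
  have p0 := Mb.pos h 0
  have p1 := Mb.pos h 1
  have p2 := Mb.pos h 2
  have p3 := Mb.pos h 3
  have p4 := Mb.pos h 4
  have q0 : 0 ≤ (m 0 + m 1) * ‖cm m 0 1 v‖ ^ 2 := by positivity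
  have q3 : 0 ≤ (m 2 + m 3) * ‖cm m 2 3 v‖ ^ 2 := by positivity
  have q4 : 0 ≤ m 4 * ‖v 4‖ ^ 2 := by positivity
  have hK : 2 * KP m v = (m 0 + m 1) * ‖cm m 0 1 v‖ ^ 2 + (m 2 + m 3) * ‖cm m 2 3 v‖ ^ 2 +
      m 4 * ‖v 4‖ ^ 2 := by
    unfold KP
    ring
  have h0 : ‖cm m 0 1 v‖ ^ 2 ≤ 2 * M * KP m v := by
    refine ks_bd (μ := m 0 + m 1) h.1 ?_ (sq_nonneg _) (by linarith)
    have := (h.2 0).1
    linarith
  have h3 : ‖cm m 2 3 v‖ ^ 2 ≤ 2 * M * KP m v := by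
    refine ks_bd (μ := m 2 + m 3) h.1 ?_ (sq_nonneg _) (by linarith)
    have := (h.2 2).1
    linarith
  have h4 : ‖v 4‖ ^ 2 ≤ 2 * M * KP m v := ks_bd h.1 (h.2 4).1 (sq_nonneg _) (by linarith)
  exact ⟨ks_sub_bd _ _ h3 h0, ks_sub_bd _ _ h4 h0, ks_sub_bd _ _ h4 h3⟩

/-- `KT ≤ KQ`, `KP ≤ KQ`, `KQ ≤ Kin` -/
theorem k_mono (hm : ∀ i, 0 < m i) (v : Cf 5 d) :
    KT m v ≤ KQ m v ∧ KP m v ≤ KQ m v ∧ KQ m v ≤ Kin m v := by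
  have p0 := hm 0
  have p1 := hm 1
  have p2 := hm 2
  have p3 := hm 3
  have e1 : 0 ≤ (1 / 2) * ((m 0 + m 1) * m 2 / (m 0 + m 1 + m 2)) * ‖v 2 - cm m 0 1 v‖ ^ 2 := by
    positivity
  have e2 : 0 ≤ (1 / 2) * (m 2 * m 3 / (m 2 + m 3)) * ‖v 2 - v 3‖ ^ 2 := by
    positivity
  have e3 : 0 ≤ (1 / 2) * (m 0 * m 1 / (m 0 + m 1)) * ‖v 0 - v 1‖ ^ 2 := by
    positivity
  have h1 := kq_split_T hm v
  have h2 := kq_split_P hm v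
  have h3 := kin_split_Q hm v
  exact ⟨by linarith, by linarith, by linarith⟩

end NB5
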