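import Mathlib
import Pool.Agent.NB5.Defs
import Pool.Agent.NB5.RgB
import Pool.Agent.NB5.KinSplit

/-!
# Crossings of the linkage distances (project NB5, module NB5-RgC)

`‖q i - q j‖` changes on `[s, t]` by at most `∫ ‖v i - v j‖ ≤ √(8 M) ∫ √Kin` (`kin_bound_sub`,
`norm_image_sub_le_of_norm_deriv...` or the fundamental theorem of calculus), then `Rg_sub_le`.
`Rg_cross` : the form with the Lebesgue integral of the weight.
-/

open MeasureTheory Set Filter Topology Metric
open scoped NNReal ENNReal RealInnerProductSpace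

namespace NB5

open HDN

variable {d : ℕ} {m : Fin 5 → ℝ} {M : ℝ}

private lemma rc_pos_deriv {γ : ℝ → St d} {S : Set ℝ}
    (hγ : SolOn (nfield m) (FreeSet 5 d) γ S) {u : ℝ} (hu : u ∈ S) (i j : Fin 5) :
    HasDerivAt (fun u => (γ u).1 i - (γ u).1 j) ((γ u).2 i - (γ u).2 j) u := by
  have h1 := (hγ u hu).2
  have h2 : HasDerivAt (fun u => (γ u).1) (nfield m (γ u)).1 u :=
    (hasFDerivAt_fst (𝕜 := ℝ) (p := γ u)).comp_hasDerivAt u h1
  have h3 := hasDerivAt_pi.1 h2
  exact (h3 i).sub (h3 j)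

private lemma rc_cont {γ : ℝ → St d} {S : Set ℝ}
    (hγ : SolOn (nfield m) (FreeSet 5 d) γ S) : ContinuousOn γ S :=
  fun u hu => (hγ u hu).2.continuousAt.continuousWithinAt

private lemma rc_cont_v {γ : ℝ → St d} {S : Set ℝ}
    (hγ : SolOn (nfield m) (FreeSet 5 d) γ S) (i : Fin 5) :
    ContinuousOn (fun u => (γ u).2 i) S :=
  ((continuous_apply i).comp continuous_snd).comp_continuousOn (rc_cont hγ)

private lemma rc_cont_kin {γ : ℝ → St d} {S : Set ℝ}
    (hγ : SolOn (nfield m) (FreeSet 5 d) γ S) :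
    ContinuousOn (fun u => √(Kin m (γ u).2)) S := by
  apply Real.continuous_sqrt.comp_continuousOn
  unfold Kin
  apply ContinuousOn.mul continuousOn_const
  apply continuousOn_finsetSum
  intro a _
  exact continuousOn_const.mul (((rc_cont_v hγ a).norm).pow 2)

private lemma rc_int_kin {γ : ℝ → St d} {s t : ℝ} (hst : s ≤ t)
    (hγ : SolOn (nfield m) (FreeSet 5 d) γ (Icc s t)) :
    IntervalIntegrable (fun u => √(Kin m (γ u).2)) volume s t := by
  apply ContinuousOn.intervalIntegrable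
  rw [uIcc_of_le hst]
  exact rc_cont_kin hγ

theorem Rg_move (h : Mb M m) {k : ℕ} (h2 : 2 ≤ k) (h5 : k ≤ 5) {γ : ℝ → St d} {s t : ℝ}
    (hst : s ≤ t) (hγ : SolOn (nfield m) (FreeSet 5 d) γ (Icc s t)) :
    |Rg k (γ t).1 - Rg k (γ s).1| ≤ √(8 * M) * ∫ u in s..t, √(Kin m (γ u).2) := by
  apply Rg_sub_le h2 h5
  intro i j
  refine (abs_norm_sub_norm_le _ _).trans ?_
  have hint : IntervalIntegrable (fun u => (γ u).2 i - (γ u).2 j) volume s t := by
    apply ContinuousOn.intervalIntegrable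
    rw [uIcc_of_le hst]
    exact (rc_cont_v hγ i).sub (rc_cont_v hγ j)
  have hF := intervalIntegral.integral_eq_sub_of_hasDerivAt
    (f := fun u => (γ u).1 i - (γ u).1 j) (f' := fun u => (γ u).2 i - (γ u).2 j)
    (a := s) (b := t) (fun u hu => by
      rw [uIcc_of_le hst] at hu
      exact rc_pos_deriv hγ hu i j) hint
  rw [← hF]
  refine (intervalIntegral.norm_integral_le_integral_norm hst).trans ?_
  rw [← intervalIntegral.integral_const_mul]
  apply intervalIntegral.integral_mono_on hst hint.norm ((rc_int_kin hst hγ).const_mul _)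
  intro u _
  have hb := kin_bound_sub h (γ u).2 i j
  have hM : 0 ≤ 8 * M := by linarith [h.1]
  rw [← Real.sqrt_mul hM]
  exact Real.le_sqrt_of_sq_le hb

/-- a function `g` which dominates `c √Kin` collects at least `c |Δ Rg| / √(8 M)` -/
theorem Rg_cross (h : Mb M m) {k : ℕ} (h2 : 2 ≤ k) (h5 : k ≤ 5) {γ : ℝ → St d} {s t c : ℝ}
    (hst : s ≤ t) (hγ : SolOn (nfield m) (FreeSet 5 d) γ (Icc s t)) (hc : 0 < c)
    {g : ℝ → ℝ≥0∞} (hg : ∀ u ∈ Icc s t, ENNReal.ofReal (c * √(Kin m (γ u).2)) ≤ g u) :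
    ENNReal.ofReal (c * |Rg k (γ t).1 - Rg k (γ s).1| / √(8 * M)) ≤ ∫⁻ u in Icc s t, g u := by
  have hM : 0 < 8 * M := by linarith [h.1]
  have hsq : 0 < √(8 * M) := Real.sqrt_pos.2 hM
  have mv := Rg_move h h2 h5 hst hγ
  have e1 : c * |Rg k (γ t).1 - Rg k (γ s).1| / √(8 * M) ≤
      ∫ u in s..t, c * √(Kin m (γ u).2) := by
    rw [intervalIntegral.integral_const_mul, div_le_iff₀ hsq]
    calc c * |Rg k (γ t).1 - Rg k (γ s).1| ≤
        c * (√(8 * M) * ∫ u in s..t, √(Kin m (γ u).2)) := mul_le_mul_of_nonneg_left mv hc.le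
      _ = _ := by ring
  refine (ENNReal.ofReal_le_ofReal e1).trans ?_
  have hi : IntegrableOn (fun u => c * √(Kin m (γ u).2)) (Ioc s t) volume := by
    have := (rc_int_kin hst hγ).const_mul c
    exact (intervalIntegrable_iff_integrableOn_Ioc_of_le hst).1 this
  rw [intervalIntegral.integral_of_le hst,
    ofReal_integral_eq_lintegral_ofReal hi (Filter.Eventually.of_forall (fun u => by
      show 0 ≤ c * √(Kin m (γ u).2)
      positivity))]
  refine (lintegral_mono_set Ioc_subset_Icc_self).trans ?_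
  exact setLIntegral_mono' measurableSet_Icc hg

end NB5
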