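import Mathlib
import Pool.Agent.NB5.Defs
import Pool.Agent.NB5.RelB

/-!
# Relabelling of the cluster quantities (project NB5, module NB5-RelC)

`PQ σ`: `σ` preserves `{0,1}`. `PT σ`: `σ` preserves `{0,1,2}`. `KQ`, `UQ` are symmetric in `0, 1` and
in `2, 3, 4`; `KT`, `UT` are symmetric in `0,1,2` and in `3,4`. There are 12 permutations of each
kind: either express everything as sums over the sets `{j | 2 ≤ j}` (`Finset.univ.filter`), which are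
mapped to themselves, or go through the cases of `σ 0, ..., σ 4`. `hh m j x` depends only on the set
`{0, 1, j}`: `swap 2 (σ j)` and `σ * swap 2 j` map `{0,1,2}` to the same set, so
`FT (m ∘ (σ * swap 2 j)) (rel ..)` and `FT (m ∘ swap 2 (σ j)) (rel ..)` agree by `FT_rel`.
-/

open MeasureTheory Set Filter Topology Metric
open scoped NNReal ENNReal RealInnerProductSpace

namespace NB5

open HDN

variable {d : ℕ} {m : Fin 5 → ℝ} {M : ℝ}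

/-- `σ` preserves the set `{0, 1}` -/
def PQ (σ : Equiv.Perm (Fin 5)) : Prop := ∀ i, σ i ≤ 1 ↔ i ≤ 1

/-- `σ` preserves the set `{0, 1, 2}` -/
def PT (σ : Equiv.Perm (Fin 5)) : Prop := ∀ i, σ i ≤ 2 ↔ i ≤ 2

private theorem val_ne {σ : Equiv.Perm (Fin 5)} {i j : Fin 5} (h : i ≠ j) :
    (σ i).val ≠ (σ j).val := fun e => h (σ.injective (Fin.ext e))

private theorem pq_cases {σ : Equiv.Perm (Fin 5)} (h : PQ σ) :
    ((σ 0 = 0 ∧ σ 1 = 1) ∨ (σ 0 = 1 ∧ σ 1 = 0)) ∧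
    ((σ 2 = 2 ∧ σ 3 = 3 ∧ σ 4 = 4) ∨ (σ 2 = 2 ∧ σ 3 = 4 ∧ σ 4 = 3) ∨
      (σ 2 = 3 ∧ σ 3 = 2 ∧ σ 4 = 4) ∨ (σ 2 = 3 ∧ σ 3 = 4 ∧ σ 4 = 2) ∨
      (σ 2 = 4 ∧ σ 3 = 2 ∧ σ 4 = 3) ∨ (σ 2 = 4 ∧ σ 3 = 3 ∧ σ 4 = 2)) := by
  have h0 : (σ 0).val ≤ 1 := (h 0).2 (by decide)
  have h1 : (σ 1).val ≤ 1 := (h 1).2 (by decide)
  have h2 : ¬ (σ 2).val ≤ 1 := fun e => absurd ((h 2).1 e) (by decide)
  have h3 : ¬ (σ 3).val ≤ 1 := fun e => absurd ((h 3).1 e) (by decide)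
  have h4 : ¬ (σ 4).val ≤ 1 := fun e => absurd ((h 4).1 e) (by decide)
  have n01 := val_ne (σ := σ) (show (0 : Fin 5) ≠ 1 by decide)
  have n23 := val_ne (σ := σ) (show (2 : Fin 5) ≠ 3 by decide)
  have n24 := val_ne (σ := σ) (show (2 : Fin 5) ≠ 4 by decide)
  have n34 := val_ne (σ := σ) (show (3 : Fin 5) ≠ 4 by decide)
  have l2 := (σ 2).isLt
  have l3 := (σ 3).isLt
  have l4 := (σ 4).isLt
  have e0 : ((0 : Fin 5) : ℕ) = 0 := rfl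
  have e1 : ((1 : Fin 5) : ℕ) = 1 := rfl
  have e2 : ((2 : Fin 5) : ℕ) = 2 := rfl
  have e3 : ((3 : Fin 5) : ℕ) = 3 := rfl
  have e4 : ((4 : Fin 5) : ℕ) = 4 := rfl
  simp only [Fin.ext_iff, e0, e1, e2, e3, e4]
  omega

private theorem pt_cases {σ : Equiv.Perm (Fin 5)} (h : PT σ) :
    ((σ 3 = 3 ∧ σ 4 = 4) ∨ (σ 3 = 4 ∧ σ 4 = 3)) ∧
    ((σ 0 = 0 ∧ σ 1 = 1 ∧ σ 2 = 2) ∨ (σ 0 = 0 ∧ σ 1 = 2 ∧ σ 2 = 1) ∨
      (σ 0 = 1 ∧ σ 1 = 0 ∧ σ 2 = 2) ∨ (σ 0 = 1 ∧ σ 1 = 2 ∧ σ 2 = 0) ∨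
      (σ 0 = 2 ∧ σ 1 = 0 ∧ σ 2 = 1) ∨ (σ 0 = 2 ∧ σ 1 = 1 ∧ σ 2 = 0)) := by
  have h0 : (σ 0).val ≤ 2 := (h 0).2 (by decide)
  have h1 : (σ 1).val ≤ 2 := (h 1).2 (by decide)
  have h2 : (σ 2).val ≤ 2 := (h 2).2 (by decide)
  have h3 : ¬ (σ 3).val ≤ 2 := fun e => absurd ((h 3).1 e) (by decide)
  have h4 : ¬ (σ 4).val ≤ 2 := fun e => absurd ((h 4).1 e) (by decide)
  have n01 := val_ne (σ := σ) (show (0 : Fin 5) ≠ 1 by decide)
  have n02 := val_ne (σ := σ) (show (0 : Fin 5) ≠ 2 by decide)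
  have n12 := val_ne (σ := σ) (show (1 : Fin 5) ≠ 2 by decide)
  have n34 := val_ne (σ := σ) (show (3 : Fin 5) ≠ 4 by decide)
  have l3 := (σ 3).isLt
  have l4 := (σ 4).isLt
  have e0 : ((0 : Fin 5) : ℕ) = 0 := rfl
  have e1 : ((1 : Fin 5) : ℕ) = 1 := rfl
  have e2 : ((2 : Fin 5) : ℕ) = 2 := rfl
  have e3 : ((3 : Fin 5) : ℕ) = 3 := rfl
  have e4 : ((4 : Fin 5) : ℕ) = 4 := rfl
  simp only [Fin.ext_iff, e0, e1, e2, e3, e4]
  omega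

private theorem pt_of {σ : Equiv.Perm (Fin 5)} (h0 : (σ 0).val ≤ 1) (h1 : (σ 1).val ≤ 1)
    (h2 : (σ 2).val = 2) : PT σ := by
  have n01 := val_ne (σ := σ) (show (0 : Fin 5) ≠ 1 by decide)
  have n03 := val_ne (σ := σ) (show (0 : Fin 5) ≠ 3 by decide)
  have n04 := val_ne (σ := σ) (show (0 : Fin 5) ≠ 4 by decide)
  have n13 := val_ne (σ := σ) (show (1 : Fin 5) ≠ 3 by decide)
  have n14 := val_ne (σ := σ) (show (1 : Fin 5) ≠ 4 by decide)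
  have n23 := val_ne (σ := σ) (show (2 : Fin 5) ≠ 3 by decide)
  have n24 := val_ne (σ := σ) (show (2 : Fin 5) ≠ 4 by decide)
  have key : ∀ i : Fin 5, (σ i).val ≤ 2 ↔ i.val ≤ 2 := by
    intro i
    fin_cases i
    · exact ⟨fun _ => by decide, fun _ => by show (σ 0).val ≤ 2; omega⟩
    · exact ⟨fun _ => by decide, fun _ => by show (σ 1).val ≤ 2; omega⟩
    · exact ⟨fun _ => by decide, fun _ => by show (σ 2).val ≤ 2; omega⟩
    · refine ⟨fun e => ?_, fun e => absurd e (by decide)⟩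
      have e' : (σ 3).val ≤ 2 := e
      omega
    · refine ⟨fun e => ?_, fun e => absurd e (by decide)⟩
      have e' : (σ 4).val ≤ 2 := e
      omega
  exact key

theorem cm_rel {σ : Equiv.Perm (Fin 5)} (h : PQ σ) (q : Cf 5 d) :
    cm (m ∘ σ) 0 1 (q ∘ σ) = cm m 0 1 q := by
  unfold cm
  simp only [Function.comp_apply]
  rcases (pq_cases h).1 with ⟨h0, h1⟩ | ⟨h0, h1⟩
  · rw [h0, h1]
  · rw [h0, h1, add_comm (m 1), add_comm (m 1 • q 1)]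

theorem cm3_rel {σ : Equiv.Perm (Fin 5)} (h : PT σ) (q : Cf 5 d) :
    cm3 (m ∘ σ) 0 1 2 (q ∘ σ) = cm3 m 0 1 2 q := by
  unfold cm3
  simp only [Function.comp_apply]
  have h1 : m (σ 0) + m (σ 1) + m (σ 2) = m 0 + m 1 + m 2 := by
    rcases (pt_cases h).2 with ⟨a, b, c⟩ | ⟨a, b, c⟩ | ⟨a, b, c⟩ | ⟨a, b, c⟩ | ⟨a, b, c⟩ |
      ⟨a, b, c⟩ <;> rw [a, b, c] <;> ring
  have h2 : m (σ 0) • q (σ 0) + m (σ 1) • q (σ 1) + m (σ 2) • q (σ 2) =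
      m 0 • q 0 + m 1 • q 1 + m 2 • q 2 := by
    rcases (pt_cases h).2 with ⟨a, b, c⟩ | ⟨a, b, c⟩ | ⟨a, b, c⟩ | ⟨a, b, c⟩ | ⟨a, b, c⟩ |
      ⟨a, b, c⟩ <;> rw [a, b, c] <;> abel
  rw [h1, h2]

private theorem m01_rel {σ : Equiv.Perm (Fin 5)} (h : PQ σ) (m : Fin 5 → ℝ) :
    m (σ 0) + m (σ 1) = m 0 + m 1 := by
  rcases (pq_cases h).1 with ⟨a, b⟩ | ⟨a, b⟩ <;> rw [a, b]
  ring

private theorem m012_rel {σ : Equiv.Perm (Fin 5)} (h : PT σ) (m : Fin 5 → ℝ) :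
    m (σ 0) + m (σ 1) + m (σ 2) = m 0 + m 1 + m 2 := by
  rcases (pt_cases h).2 with ⟨a, b, c⟩ | ⟨a, b, c⟩ | ⟨a, b, c⟩ | ⟨a, b, c⟩ | ⟨a, b, c⟩ |
    ⟨a, b, c⟩ <;> rw [a, b, c] <;> ring

theorem KQ_rel {σ : Equiv.Perm (Fin 5)} (h : PQ σ) (v : Cf 5 d) :
    KQ (m ∘ σ) (v ∘ σ) = KQ m v := by
  unfold KQ
  rw [cm_rel h]
  simp only [Function.comp_apply]
  rw [m01_rel h]
  rcases (pq_cases h).2 with ⟨a, b, c⟩ | ⟨a, b, c⟩ | ⟨a, b, c⟩ | ⟨a, b, c⟩ | ⟨a, b, c⟩ |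
    ⟨a, b, c⟩ <;> rw [a, b, c] <;> ring

theorem KT_rel {σ : Equiv.Perm (Fin 5)} (h : PT σ) (v : Cf 5 d) :
    KT (m ∘ σ) (v ∘ σ) = KT m v := by
  unfold KT
  rw [cm3_rel h]
  simp only [Function.comp_apply]
  rw [m012_rel h]
  rcases (pt_cases h).1 with ⟨a, b⟩ | ⟨a, b⟩ <;> rw [a, b]
  ring

private theorem UQ_rel {σ : Equiv.Perm (Fin 5)} (h : PQ σ) (q : Cf 5 d) :
    UQ (m ∘ σ) (q ∘ σ) = UQ m q := by
  unfold UQ
  rw [cm_rel h]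
  simp only [Function.comp_apply]
  rw [m01_rel h]
  have e1 := norm_sub_rev (q 3) (q 2)
  have e2 := norm_sub_rev (q 4) (q 2)
  have e3 := norm_sub_rev (q 4) (q 3)
  rcases (pq_cases h).2 with ⟨a, b, c⟩ | ⟨a, b, c⟩ | ⟨a, b, c⟩ | ⟨a, b, c⟩ | ⟨a, b, c⟩ |
    ⟨a, b, c⟩ <;> rw [a, b, c] <;> simp only [e1, e2, e3] <;> ring

private theorem UT_rel {σ : Equiv.Perm (Fin 5)} (h : PT σ) (q : Cf 5 d) :
    UT (m ∘ σ) (q ∘ σ) = UT m q := by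
  unfold UT
  rw [cm3_rel h]
  simp only [Function.comp_apply]
  rw [m012_rel h]
  have e3 := norm_sub_rev (q 4) (q 3)
  rcases (pt_cases h).1 with ⟨a, b⟩ | ⟨a, b⟩ <;> rw [a, b]
  rw [e3]
  ring

theorem FQ_rel {σ : Equiv.Perm (Fin 5)} (h : PQ σ) (x : St d) :
    FQ (m ∘ σ) (rel σ x) = FQ m x := by
  unfold FQ rel
  rw [KQ_rel h, UQ_rel h]

theorem FT_rel {σ : Equiv.Perm (Fin 5)} (h : PT σ) (x : St d) :
    FT (m ∘ σ) (rel σ x) = FT m x := by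
  unfold FT rel
  rw [KT_rel h, UT_rel h]

private theorem ge_two {σ : Equiv.Perm (Fin 5)} (h : PQ σ) {j : Fin 5} (hj : 2 ≤ j) :
    2 ≤ σ j := by
  have h1 : ¬ (σ j).val ≤ 1 := by
    intro e
    have h2 : j.val ≤ 1 := (h j).1 e
    have h3 : 2 ≤ j.val := hj
    omega
  have h4 : 2 ≤ (σ j).val := by omega
  exact h4

theorem hh_rel {σ : Equiv.Perm (Fin 5)} (h : PQ σ) {j : Fin 5} (hj : 2 ≤ j) (x : St d) :
    hh (m ∘ σ) j (rel σ x) = hh m (σ j) x := by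
  unfold hh
  rw [FQ_rel h]
  congr 1
  have hsj := ge_two h hj
  have hjv : 2 ≤ j.val := hj
  have hsv : 2 ≤ (σ j).val := hsj
  have h0v : (σ 0).val ≤ 1 := (h 0).2 (by decide)
  have h1v : (σ 1).val ≤ 1 := (h 1).2 (by decide)
  have hPT : PT (Equiv.swap 2 (σ j) * σ * Equiv.swap 2 j) := by
    have s0 : Equiv.swap 2 j 0 = 0 := Equiv.swap_apply_of_ne_of_ne (by decide) (by
      intro e
      rw [← e] at hjv
      exact absurd hjv (by decide))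
    have s1 : Equiv.swap 2 j 1 = 1 := Equiv.swap_apply_of_ne_of_ne (by decide) (by
      intro e
      rw [← e] at hjv
      exact absurd hjv (by decide))
    have t0 : Equiv.swap 2 (σ j) (σ 0) = σ 0 := Equiv.swap_apply_of_ne_of_ne (by
      intro e
      rw [e] at h0v
      exact absurd h0v (by decide)) (by
      intro e
      rw [e] at h0v
      omega)
    have t1 : Equiv.swap 2 (σ j) (σ 1) = σ 1 := Equiv.swap_apply_of_ne_of_ne (by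
      intro e
      rw [e] at h1v
      exact absurd h1v (by decide)) (by
      intro e
      rw [e] at h1v
      omega)
    refine pt_of ?_ ?_ ?_
    · rw [Equiv.Perm.mul_apply, Equiv.Perm.mul_apply, s0, t0]
      exact h0v
    · rw [Equiv.Perm.mul_apply, Equiv.Perm.mul_apply, s1, t1]
      exact h1v
    · rw [Equiv.Perm.mul_apply, Equiv.Perm.mul_apply, Equiv.swap_apply_left,
        Equiv.swap_apply_right]
      rfl
  have key := FT_rel (m := m ∘ Equiv.swap 2 (σ j)) hPT (rel (Equiv.swap 2 (σ j)) x)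
  rw [mass_mul, rel_rel] at key
  have hprod : Equiv.swap 2 (σ j) * (Equiv.swap 2 (σ j) * σ * Equiv.swap 2 j) =
      σ * Equiv.swap 2 j := by
    rw [mul_assoc, ← mul_assoc (Equiv.swap 2 (σ j)) (Equiv.swap 2 (σ j)), Equiv.swap_mul_self,
      one_mul]
  rw [hprod] at key
  rw [← key, mass_mul, rel_rel]

variable {P : Par} {D b : ℝ}

private theorem r01_rel {σ : Equiv.Perm (Fin 5)} (h : PQ σ) (q : Cf 5 d) :
    ‖q (σ 0) - q (σ 1)‖ = ‖q 0 - q 1‖ := by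
  rcases (pq_cases h).1 with ⟨a, b⟩ | ⟨a, b⟩ <;> rw [a, b]
  exact norm_sub_rev _ _

private theorem le_two {σ : Equiv.Perm (Fin 5)} (h : PT σ) {j : Fin 5} (hj : j ≤ 2) :
    σ j ≤ 2 := (h j).2 hj

theorem S1.rel {σ : Equiv.Perm (Fin 5)} (h : PQ σ) {x : St d} (hx : S1 P b m x) :
    S1 P b (m ∘ σ) (rel σ x) where
  r_le := by
    show ‖x.1 (σ 0) - x.1 (σ 1)‖ ≤ _
    rw [r01_rel h]
    exact hx.r_le
  F_ge := by
    rw [FQ_rel h]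
    exact hx.F_ge
  F_le := by
    rw [FQ_rel h]
    exact hx.F_le
  x_ge := by
    intro j hj
    show _ ≤ ‖x.1 (σ j) - cm (m ∘ σ) 0 1 (x.1 ∘ σ)‖
    rw [cm_rel h]
    exact hx.x_ge (σ j) (ge_two h hj)
  R3 := by
    show _ ≤ Rg 3 (x.1 ∘ σ)
    rw [Rg_rel]
    exact hx.R3
  hard := by
    intro i j hi hj hij
    rw [FQ_rel h, hp_rel]
    exact hx.hard (σ i) (σ j) (ge_two h hi) (ge_two h hj) (σ.injective.ne hij)

theorem SI.rel {σ : Equiv.Perm (Fin 5)} (h : PQ σ) {x : St d} (hx : SI P D b m x) :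
    SI P D b (m ∘ σ) (rel σ x) where
  r_le := by
    show ‖x.1 (σ 0) - x.1 (σ 1)‖ ≤ _
    rw [r01_rel h]
    exact hx.r_le
  F_ge := by
    rw [FQ_rel h]
    exact hx.F_ge
  F_le := by
    rw [FQ_rel h]
    exact hx.F_le
  x_ge := by
    intro j hj
    show _ ≤ ‖x.1 (σ j) - cm (m ∘ σ) 0 1 (x.1 ∘ σ)‖
    rw [cm_rel h]
    exact hx.x_ge (σ j) (ge_two h hj)
  h_ge := by
    intro j hj hlt
    have hlt' : ‖x.1 (σ j) - cm (m ∘ σ) 0 1 (x.1 ∘ σ)‖ < P.K2 / b ^ 96 := hlt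
    rw [cm_rel h] at hlt'
    rw [hh_rel h hj]
    exact hx.h_ge (σ j) (ge_two h hj) hlt'
  R3 := by
    show _ ≤ Rg 3 (x.1 ∘ σ)
    rw [Rg_rel]
    exact hx.R3
  hard := by
    intro i j hi hj hij
    rw [FQ_rel h, hp_rel]
    exact hx.hard (σ i) (σ j) (ge_two h hi) (ge_two h hj) (σ.injective.ne hij)

theorem S3.rel {σ : Equiv.Perm (Fin 5)} (h : PT σ) {x : St d} (hx : S3 P b m x) :
    S3 P b (m ∘ σ) (rel σ x) where
  dT := fun i j hi hj => hx.dT (σ i) (σ j) (le_two h hi) (le_two h hj)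
  F_ge := by
    rw [FT_rel h]
    exact hx.F_ge
  F_le := by
    rw [FT_rel h]
    exact hx.F_le
  R3 := by
    show _ ≤ Rg 3 (x.1 ∘ σ)
    rw [Rg_rel]
    exact hx.R3

theorem SIII.rel {σ : Equiv.Perm (Fin 5)} (h : PT σ) {x : St d} (hx : SIII P D b m x) :
    SIII P D b (m ∘ σ) (rel σ x) where
  dT := fun i j hi hj => hx.dT (σ i) (σ j) (le_two h hi) (le_two h hj)
  F_ge := by
    rw [FT_rel h]
    exact hx.F_ge
  F_le := by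
    rw [FT_rel h]
    exact hx.F_le
  R3 := by
    show _ ≤ Rg 3 (x.1 ∘ σ)
    rw [Rg_rel]
    exact hx.R3

end NB5
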