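import Mathlib
import Pool.Agent.NB5.Defs

/-!
# Multipole estimate for the potential (project NB5, module NB5-PotMul)

Put `z i = y - ξ i`; `‖z i‖ ≥ ‖y‖ / 2`. With `a = ‖z i‖`, `b = ‖y‖`, `p = ⟪y, ξ i⟫`,
`a ^ 2 = b ^ 2 - 2 p + ‖ξ i‖ ^ 2`, one has `1 / a = 1 / b + p / b ^ 3 + E i`, `|E i| ≤ 10 δ ^ 2 / b ^ 3`
(for instance `1/a - 1/b = (b^2 - a^2) / (a b (a + b))` and compare `1 / (a b (a + b))` with
`1 / (2 b ^ 3)`, `|a - b| ≤ δ`). Multiply by `μ i` and sum: `∑ μ i p i = ⟪y, ∑ μ i • ξ i⟫ = 0`.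
-/

open MeasureTheory Set Filter Topology Metric
open scoped NNReal ENNReal RealInnerProductSpace

namespace NB5

open HDN

variable {d : ℕ}

private theorem potMul_real {a b p s : ℝ} (hb : 0 < b) (ha : b / 2 ≤ a)
    (h1 : a ^ 2 = b ^ 2 - 2 * p + s ^ 2) (hp : |p| ≤ b * s) (hab : |a - b| ≤ s) :
    |1 / a - 1 / b - p / b ^ 3| ≤ 10 * s ^ 2 / b ^ 3 := by
  have ha0 : 0 < a := by linarith
  have hs : 0 ≤ s := (abs_nonneg _).trans hab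
  have key : 1 / a - 1 / b - p / b ^ 3 =
      (p * (b - a) * (2 * b + a) - s ^ 2 * b ^ 2) / (a * b ^ 3 * (a + b)) := by
    field_simp
    linear_combination (-b ^ 2) * h1
  rw [key, abs_div, abs_of_pos (show 0 < a * b ^ 3 * (a + b) by positivity),
    div_le_div_iff₀ (by positivity) (by positivity)]
  have hnum : |p * (b - a) * (2 * b + a) - s ^ 2 * b ^ 2| ≤
      b * s * s * (2 * b + a) + s ^ 2 * b ^ 2 := by
    calc |p * (b - a) * (2 * b + a) - s ^ 2 * b ^ 2| ≤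
          |p * (b - a) * (2 * b + a)| + |s ^ 2 * b ^ 2| := abs_sub _ _
      _ = |p| * |a - b| * (2 * b + a) + s ^ 2 * b ^ 2 := by
        rw [abs_mul, abs_mul, abs_sub_comm b a, abs_of_pos (show 0 < 2 * b + a by linarith),
          abs_of_nonneg (show 0 ≤ s ^ 2 * b ^ 2 by positivity)]
      _ ≤ b * s * s * (2 * b + a) + s ^ 2 * b ^ 2 := by
        have : |p| * |a - b| ≤ b * s * s :=
          mul_le_mul hp hab (abs_nonneg _) (by positivity)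
        have h2 := mul_le_mul_of_nonneg_right this (show 0 ≤ 2 * b + a by linarith)
        linarith
  have h3 : b * s * s * (2 * b + a) + s ^ 2 * b ^ 2 ≤ s ^ 2 * (10 * (a * (a + b))) := by
    have h4 : 3 * b ^ 2 + a * b ≤ 10 * (a * (a + b)) := by nlinarith
    have h5 := mul_le_mul_of_nonneg_left h4 (sq_nonneg s)
    nlinarith
  have h6 := mul_le_mul_of_nonneg_right (hnum.trans h3) (show 0 ≤ b ^ 3 by positivity)
  calc _ ≤ s ^ 2 * (10 * (a * (a + b))) * b ^ 3 := h6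
    _ = 10 * s ^ 2 * (a * b ^ 3 * (a + b)) := by ring

theorem pot_multipole {ι : Type*} [Fintype ι] {μ : ι → ℝ} {ξ : ι → Sp d} {δ : ℝ} {y : Sp d}
    (hμ : ∀ i, 0 ≤ μ i) (hs : ∑ i, μ i • ξ i = 0) (hξ : ∀ i, ‖ξ i‖ ≤ δ) (hy0 : 0 < ‖y‖)
    (hy : 2 * δ ≤ ‖y‖) :
    |∑ i, μ i / ‖y - ξ i‖ - (∑ i, μ i) / ‖y‖| ≤ 10 * (∑ i, μ i) * δ ^ 2 / ‖y‖ ^ 3 := by
  have hsum : ∑ i, μ i * ⟪y, ξ i⟫ = 0 := by
    have h1 : ⟪y, ∑ i, μ i • ξ i⟫ = 0 := by rw [hs, inner_zero_right]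
    rw [inner_sum] at h1
    simpa only [inner_smul_right] using h1
  have hE : ∀ i, |1 / ‖y - ξ i‖ - 1 / ‖y‖ - ⟪y, ξ i⟫ / ‖y‖ ^ 3| ≤ 10 * δ ^ 2 / ‖y‖ ^ 3 := by
    intro i
    have h0 : 0 ≤ ‖ξ i‖ := norm_nonneg _
    have hab : |‖y - ξ i‖ - ‖y‖| ≤ ‖ξ i‖ := by
      have := abs_norm_sub_norm_le (y - ξ i) y
      rwa [sub_sub_cancel_left, norm_neg] at this
    have ha : ‖y‖ / 2 ≤ ‖y - ξ i‖ := by
      have := (abs_le.1 hab).1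
      linarith [hξ i]
    refine (potMul_real hy0 ha ?_ ?_ hab).trans ?_
    · rw [norm_sub_sq_real]
    · exact abs_real_inner_le_norm _ _
    · have h2 : ‖ξ i‖ ^ 2 ≤ δ ^ 2 := pow_le_pow_left₀ h0 (hξ i) 2
      exact div_le_div_of_nonneg_right (by linarith) (by positivity)
  have hrw : ∑ i, μ i / ‖y - ξ i‖ - (∑ i, μ i) / ‖y‖ =
      ∑ i, μ i * (1 / ‖y - ξ i‖ - 1 / ‖y‖ - ⟪y, ξ i⟫ / ‖y‖ ^ 3) := by
    have h3 : ∑ i, μ i * (1 / ‖y - ξ i‖ - 1 / ‖y‖ - ⟪y, ξ i⟫ / ‖y‖ ^ 3) =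
        ∑ i, (μ i / ‖y - ξ i‖ - μ i / ‖y‖ - (μ i * ⟪y, ξ i⟫) / ‖y‖ ^ 3) :=
      Finset.sum_congr rfl fun i _ => by ring
    rw [h3, Finset.sum_sub_distrib, Finset.sum_sub_distrib, ← Finset.sum_div, ← Finset.sum_div,
      hsum, zero_div, sub_zero]
  rw [hrw]
  calc |∑ i, μ i * (1 / ‖y - ξ i‖ - 1 / ‖y‖ - ⟪y, ξ i⟫ / ‖y‖ ^ 3)| ≤
        ∑ i, |μ i * (1 / ‖y - ξ i‖ - 1 / ‖y‖ - ⟪y, ξ i⟫ / ‖y‖ ^ 3)| :=
        Finset.abs_sum_le_sum_abs _ _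
    _ ≤ ∑ i, μ i * (10 * δ ^ 2 / ‖y‖ ^ 3) := by
      refine Finset.sum_le_sum fun i _ => ?_
      rw [abs_mul, abs_of_nonneg (hμ i)]
      exact mul_le_mul_of_nonneg_left (hE i) (hμ i)
    _ = 10 * (∑ i, μ i) * δ ^ 2 / ‖y‖ ^ 3 := by
      rw [← Finset.sum_mul]
      ring

end NB5
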