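import Mathlib
import Pool.Agent.NB5.Defs
import Pool.Agent.NB5.KinSplit
import Pool.Agent.NB5.PotMul

/-!
# Splitting the energy (project NB5, module NB5-HamSplit)

`ham_Q`, `ham_T`: unfold (`Pot` is half of a double sum over `Fin 5`; use `Fin.sum_univ_five` and
`decide`/`simp` for the sets `univ.erase a`, or rewrite the double sum once as the sum over the ten
pairs, `norm_sub_rev`), `kin_split_Q`, `kq_split_T`. The bounds of `tauQ`, `tauT`: `pot_multipole`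
for each outside body `j`, `y = q j - X`, `ξ i = q i - X`, `X` the centre of mass, `‖ξ i‖ ≤ r`
(resp. `≤ δ`, all mutual distances are at most `δ` and `X` is a convex combination).
-/

open MeasureTheory Set Filter Topology Metric
open scoped NNReal ENNReal RealInnerProductSpace

namespace NB5

open HDN

variable {d : ℕ} {m : Fin 5 → ℝ} {M : ℝ}

/-- tidal energy of the pair `{0,1}` -/
noncomputable def tauQ (m : Fin 5 → ℝ) (q : Cf 5 d) : ℝ :=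
  ∑ j ∈ ({2, 3, 4} : Finset (Fin 5)), m j * ((m 0 + m 1) / ‖q j - cm m 0 1 q‖ -
    m 0 / ‖q j - q 0‖ - m 1 / ‖q j - q 1‖)

/-- tidal energy of the triple `{0,1,2}` -/
noncomputable def tauT (m : Fin 5 → ℝ) (q : Cf 5 d) : ℝ :=
  ∑ j ∈ ({3, 4} : Finset (Fin 5)), m j * ((m 0 + m 1 + m 2) / ‖q j - cm3 m 0 1 2 q‖ -
    m 0 / ‖q j - q 0‖ - m 1 / ‖q j - q 1‖ - m 2 / ‖q j - q 2‖)

/-- inner energy of the triple `{0,1,2}` -/
noncomputable def ET (m : Fin 5 → ℝ) (x : St d) : ℝ :=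
  (1 / 2) * (m 0 * m 1 / (m 0 + m 1)) * ‖x.2 0 - x.2 1‖ ^ 2 +
    (1 / 2) * ((m 0 + m 1) * m 2 / (m 0 + m 1 + m 2)) * ‖x.2 2 - cm m 0 1 x.2‖ ^ 2 -
    m 0 * m 1 / ‖x.1 0 - x.1 1‖ - m 0 * m 2 / ‖x.1 0 - x.1 2‖ - m 1 * m 2 / ‖x.1 1 - x.1 2‖

private theorem hs_pairs (q : Cf 5 d) : Pot m q =
    m 0 * m 1 / ‖q 0 - q 1‖ + m 0 * m 2 / ‖q 0 - q 2‖ + m 0 * m 3 / ‖q 0 - q 3‖ +
    m 0 * m 4 / ‖q 0 - q 4‖ + m 1 * m 2 / ‖q 1 - q 2‖ + m 1 * m 3 / ‖q 1 - q 3‖ +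
    m 1 * m 4 / ‖q 1 - q 4‖ + m 2 * m 3 / ‖q 2 - q 3‖ + m 2 * m 4 / ‖q 2 - q 4‖ +
    m 3 * m 4 / ‖q 3 - q 4‖ := by
  unfold Pot
  have h1 : ∀ a : Fin 5, ∑ b ∈ Finset.univ.erase a, m a * m b / ‖q b - q a‖ =
      ∑ b, m a * m b / ‖q b - q a‖ := by
    intro a
    apply Finset.sum_erase
    rw [sub_self, norm_zero, div_zero]
  simp only [h1, Fin.sum_univ_five, sub_self, norm_zero, div_zero]
  rw [norm_sub_rev (q 1) (q 0), norm_sub_rev (q 2) (q 0), norm_sub_rev (q 3) (q 0),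
    norm_sub_rev (q 4) (q 0), norm_sub_rev (q 2) (q 1), norm_sub_rev (q 3) (q 1),
    norm_sub_rev (q 4) (q 1), norm_sub_rev (q 3) (q 2), norm_sub_rev (q 4) (q 2),
    norm_sub_rev (q 4) (q 3)]
  ring

private theorem hs_tauQ (q : Cf 5 d) : tauQ m q =
    m 2 * ((m 0 + m 1) / ‖q 2 - cm m 0 1 q‖ - m 0 / ‖q 2 - q 0‖ - m 1 / ‖q 2 - q 1‖) +
    m 3 * ((m 0 + m 1) / ‖q 3 - cm m 0 1 q‖ - m 0 / ‖q 3 - q 0‖ - m 1 / ‖q 3 - q 1‖) +
    m 4 * ((m 0 + m 1) / ‖q 4 - cm m 0 1 q‖ - m 0 / ‖q 4 - q 0‖ - m 1 / ‖q 4 - q 1‖) := by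
  unfold tauQ
  rw [Finset.sum_insert (by decide), Finset.sum_insert (by decide), Finset.sum_singleton]
  ring

private theorem hs_tauT (q : Cf 5 d) : tauT m q =
    m 3 * ((m 0 + m 1 + m 2) / ‖q 3 - cm3 m 0 1 2 q‖ - m 0 / ‖q 3 - q 0‖ - m 1 / ‖q 3 - q 1‖ -
      m 2 / ‖q 3 - q 2‖) +
    m 4 * ((m 0 + m 1 + m 2) / ‖q 4 - cm3 m 0 1 2 q‖ - m 0 / ‖q 4 - q 0‖ - m 1 / ‖q 4 - q 1‖ -
      m 2 / ‖q 4 - q 2‖) := by
  unfold tauT
  rw [Finset.sum_insert (by decide), Finset.sum_singleton]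

theorem ham_Q (hm : ∀ i, 0 < m i) (x : St d) :
    Ham m x = hp m 0 1 x + FQ m x + tauQ m x.1 := by
  unfold Ham hp FQ UQ
  rw [kin_split_Q hm, hs_pairs, hs_tauQ, norm_sub_rev (x.1 2) (x.1 0),
    norm_sub_rev (x.1 3) (x.1 0), norm_sub_rev (x.1 4) (x.1 0), norm_sub_rev (x.1 2) (x.1 1),
    norm_sub_rev (x.1 3) (x.1 1), norm_sub_rev (x.1 4) (x.1 1)]
  ring

theorem ham_T (hm : ∀ i, 0 < m i) (x : St d) :
    Ham m x = ET m x + FT m x + tauT m x.1 := by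
  unfold Ham ET FT UT
  rw [kin_split_Q hm, kq_split_T hm, hs_pairs, hs_tauT, norm_sub_rev (x.1 3) (x.1 0),
    norm_sub_rev (x.1 4) (x.1 0), norm_sub_rev (x.1 3) (x.1 1), norm_sub_rev (x.1 4) (x.1 1),
    norm_sub_rev (x.1 3) (x.1 2), norm_sub_rev (x.1 4) (x.1 2)]
  ring

/-- the potential as a sum over the ten pairs -/
theorem pot_pairs (q : Cf 5 d) : Pot m q =
    m 0 * m 1 / ‖q 0 - q 1‖ + m 0 * m 2 / ‖q 0 - q 2‖ + m 0 * m 3 / ‖q 0 - q 3‖ +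
    m 0 * m 4 / ‖q 0 - q 4‖ + m 1 * m 2 / ‖q 1 - q 2‖ + m 1 * m 3 / ‖q 1 - q 3‖ +
    m 1 * m 4 / ‖q 1 - q 4‖ + m 2 * m 3 / ‖q 2 - q 3‖ + m 2 * m 4 / ‖q 2 - q 4‖ +
    m 3 * m 4 / ‖q 3 - q 4‖ := hs_pairs q

private theorem hs_smul_le {s t : ℝ} (hs : 0 < s) {x : Sp d} (h : ‖s • x‖ ≤ s * t) : ‖x‖ ≤ t := by
  rw [norm_smul, Real.norm_of_nonneg hs.le] at h
  exact le_of_mul_le_mul_left h hs

/-- the multipole estimate for two bodies -/
private theorem hs_two {a b δ : ℝ} (ha : 0 < a) (hb : 0 < b) {u v w : Sp d} (huv : ‖u - v‖ ≤ δ)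
    (hδ : 0 < δ) (hy : 4 * δ ≤ ‖w - (a + b)⁻¹ • (a • u + b • v)‖) :
    |(a + b) / ‖w - (a + b)⁻¹ • (a • u + b • v)‖ - a / ‖w - u‖ - b / ‖w - v‖| ≤
      10 * (a + b) * δ ^ 2 / ‖w - (a + b)⁻¹ • (a • u + b • v)‖ ^ 3 := by
  have hab : 0 < a + b := by linarith
  set X : Sp d := (a + b)⁻¹ • (a • u + b • v) with hX
  have hX1 : (a + b) • X = a • u + b • v := by
    rw [hX, smul_smul, mul_inv_cancel₀ hab.ne', one_smul]
  have h1 : ‖u - X‖ ≤ δ := by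
    refine hs_smul_le hab ?_
    have e : (a + b) • (u - X) = b • (u - v) := by
      rw [smul_sub, hX1, add_smul, smul_sub]
      abel
    rw [e, norm_smul, Real.norm_of_nonneg hb.le]
    have := norm_nonneg (u - v)
    nlinarith
  have h2 : ‖v - X‖ ≤ δ := by
    refine hs_smul_le hab ?_
    have e : (a + b) • (v - X) = -(a • (u - v)) := by
      rw [smul_sub, hX1, add_smul, smul_sub]
      abel
    rw [e, norm_neg, norm_smul, Real.norm_of_nonneg ha.le]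
    have := norm_nonneg (u - v)
    nlinarith
  have h := pot_multipole (ι := Fin 2) (μ := ![a, b]) (ξ := ![u - X, v - X]) (δ := δ)
    (y := w - X) (by
      intro i
      fin_cases i
      · exact ha.le
      · exact hb.le)
    (by
      rw [Fin.sum_univ_two]
      show a • (u - X) + b • (v - X) = 0
      have e : a • (u - X) + b • (v - X) = (a • u + b • v) - (a + b) • X := by
        rw [smul_sub, smul_sub, add_smul]
        abel
      rw [e, hX1, sub_self])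
    (by
      intro i
      fin_cases i
      · exact h1
      · exact h2)
    (by linarith) (by linarith)
  rw [Fin.sum_univ_two, Fin.sum_univ_two] at h
  have h' : |a / ‖w - X - (u - X)‖ + b / ‖w - X - (v - X)‖ - (a + b) / ‖w - X‖| ≤
      10 * (a + b) * δ ^ 2 / ‖w - X‖ ^ 3 := h
  rw [sub_sub_sub_cancel_right, sub_sub_sub_cancel_right] at h'
  have e : (a + b) / ‖w - X‖ - a / ‖w - u‖ - b / ‖w - v‖ =
      -(a / ‖w - u‖ + b / ‖w - v‖ - (a + b) / ‖w - X‖) := by ring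
  rw [e, abs_neg]
  exact h'

/-- the multipole estimate for three bodies -/
private theorem hs_three {a b c δ : ℝ} (ha : 0 < a) (hb : 0 < b) (hc : 0 < c) {u v z w : Sp d}
    (huv : ‖u - v‖ ≤ δ) (huz : ‖u - z‖ ≤ δ) (hvz : ‖v - z‖ ≤ δ)
    (hδ : 0 < δ) (hy : 4 * δ ≤ ‖w - (a + b + c)⁻¹ • (a • u + b • v + c • z)‖) :
    |(a + b + c) / ‖w - (a + b + c)⁻¹ • (a • u + b • v + c • z)‖ - a / ‖w - u‖ - b / ‖w - v‖ -
      c / ‖w - z‖| ≤
      10 * (a + b + c) * δ ^ 2 / ‖w - (a + b + c)⁻¹ • (a • u + b • v + c • z)‖ ^ 3 := by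
  have hab : 0 < a + b + c := by linarith
  set X : Sp d := (a + b + c)⁻¹ • (a • u + b • v + c • z) with hX
  have hX1 : (a + b + c) • X = a • u + b • v + c • z := by
    rw [hX, smul_smul, mul_inv_cancel₀ hab.ne', one_smul]
  have hn : ∀ (s t : ℝ) (x y : Sp d), 0 < s → 0 < t → ‖x‖ ≤ δ → ‖y‖ ≤ δ →
      ‖s • x + t • y‖ ≤ (s + t) * δ := by
    intro s t x y hs ht hx hy
    refine (norm_add_le _ _).trans ?_
    rw [norm_smul, norm_smul, Real.norm_of_nonneg hs.le, Real.norm_of_nonneg ht.le]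
    nlinarith
  have h1 : ‖u - X‖ ≤ δ := by
    refine hs_smul_le hab ?_
    have e : (a + b + c) • (u - X) = b • (u - v) + c • (u - z) := by
      rw [smul_sub, hX1, add_smul, add_smul, smul_sub, smul_sub]
      abel
    rw [e]
    refine (hn b c _ _ hb hc huv huz).trans ?_
    nlinarith
  have h2 : ‖v - X‖ ≤ δ := by
    refine hs_smul_le hab ?_
    have e : (a + b + c) • (v - X) = a • (v - u) + c • (v - z) := by
      rw [smul_sub, hX1, add_smul, add_smul, smul_sub, smul_sub]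
      abel
    rw [e]
    refine (hn a c _ _ ha hc (by rw [norm_sub_rev]; exact huv) hvz).trans ?_
    nlinarith
  have h3 : ‖z - X‖ ≤ δ := by
    refine hs_smul_le hab ?_
    have e : (a + b + c) • (z - X) = a • (z - u) + b • (z - v) := by
      rw [smul_sub, hX1, add_smul, add_smul, smul_sub, smul_sub]
      abel
    rw [e]
    refine (hn a b _ _ ha hb (by rw [norm_sub_rev]; exact huz)
      (by rw [norm_sub_rev]; exact hvz)).trans ?_
    nlinarith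
  have h := pot_multipole (ι := Fin 3) (μ := ![a, b, c]) (ξ := ![u - X, v - X, z - X]) (δ := δ)
    (y := w - X) (by
      intro i
      fin_cases i
      · exact ha.le
      · exact hb.le
      · exact hc.le)
    (by
      rw [Fin.sum_univ_three]
      show a • (u - X) + b • (v - X) + c • (z - X) = 0
      have e : a • (u - X) + b • (v - X) + c • (z - X) =
          (a • u + b • v + c • z) - (a + b + c) • X := by
        rw [smul_sub, smul_sub, smul_sub, add_smul, add_smul]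
        abel
      rw [e, hX1, sub_self])
    (by
      intro i
      fin_cases i
      · exact h1
      · exact h2
      · exact h3)
    (by linarith) (by linarith)
  rw [Fin.sum_univ_three, Fin.sum_univ_three] at h
  have h' : |a / ‖w - X - (u - X)‖ + b / ‖w - X - (v - X)‖ + c / ‖w - X - (z - X)‖ -
      (a + b + c) / ‖w - X‖| ≤ 10 * (a + b + c) * δ ^ 2 / ‖w - X‖ ^ 3 := h
  rw [sub_sub_sub_cancel_right, sub_sub_sub_cancel_right, sub_sub_sub_cancel_right] at h'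
  have e : (a + b + c) / ‖w - X‖ - a / ‖w - u‖ - b / ‖w - v‖ - c / ‖w - z‖ =
      -(a / ‖w - u‖ + b / ‖w - v‖ + c / ‖w - z‖ - (a + b + c) / ‖w - X‖) := by ring
  rw [e, abs_neg]
  exact h'

/-- multiplication of the estimate by the mass of the outside body -/
private theorem hs_mul {M μ s t δ y : ℝ} {c : ℝ} (hμ : 0 < μ) (hμM : μ ≤ M) (hs : 0 < s)
    (hsM : s ≤ c * M) (hc : 0 < c) (hy : 0 < y) (h : |t| ≤ 10 * s * δ ^ 2 / y ^ 3) :
    |μ * t| ≤ 10 * c * M ^ 2 * δ ^ 2 * (1 / y ^ 3) := by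
  rw [abs_mul, abs_of_pos hμ]
  have hM : 0 < M := lt_of_lt_of_le hμ hμM
  have hy3 : 0 < 1 / y ^ 3 := by positivity
  have h1 : 10 * s * δ ^ 2 / y ^ 3 = s * (10 * δ ^ 2 * (1 / y ^ 3)) := by ring
  have h2 : 0 ≤ 10 * δ ^ 2 * (1 / y ^ 3) := by positivity
  calc μ * |t| ≤ M * (s * (10 * δ ^ 2 * (1 / y ^ 3))) := by
        rw [← h1]
        exact mul_le_mul hμM h (abs_nonneg _) hM.le
    _ ≤ M * ((c * M) * (10 * δ ^ 2 * (1 / y ^ 3))) := by
        refine mul_le_mul_of_nonneg_left (mul_le_mul_of_nonneg_right hsM h2) hM.le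
    _ = 10 * c * M ^ 2 * δ ^ 2 * (1 / y ^ 3) := by ring

theorem tauQ_le (h : Mb M m) {q : Cf 5 d} (h0 : 0 < ‖q 0 - q 1‖)
    (hx : ∀ j : Fin 5, 2 ≤ j → 4 * ‖q 0 - q 1‖ ≤ ‖q j - cm m 0 1 q‖) :
    |tauQ m q| ≤ 20 * M ^ 2 * ‖q 0 - q 1‖ ^ 2 * (1 / ‖q 2 - cm m 0 1 q‖ ^ 3 +
      1 / ‖q 3 - cm m 0 1 q‖ ^ 3 + 1 / ‖q 4 - cm m 0 1 q‖ ^ 3) := by
  have hp0 := h.pos
  have key : ∀ j : Fin 5, 2 ≤ j → |m j * ((m 0 + m 1) / ‖q j - cm m 0 1 q‖ - m 0 / ‖q j - q 0‖ -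
      m 1 / ‖q j - q 1‖)| ≤ 10 * 2 * M ^ 2 * ‖q 0 - q 1‖ ^ 2 * (1 / ‖q j - cm m 0 1 q‖ ^ 3) := by
    intro j hj
    have h1 := hx j hj
    refine hs_mul (hp0 j) (h.2 j).2 (by linarith [hp0 0, hp0 1] : 0 < m 0 + m 1)
      (by linarith [(h.2 0).2, (h.2 1).2]) (by norm_num) (by linarith) ?_
    exact hs_two (hp0 0) (hp0 1) le_rfl h0 h1
  rw [hs_tauQ]
  have k2 := key 2 (by decide)
  have k3 := key 3 (by decide)
  have k4 := key 4 (by decide)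
  refine (abs_add_three _ _ _).trans ?_
  linarith

theorem tauT_le (h : Mb M m) {q : Cf 5 d} {δ : ℝ} (hδ : 0 < δ)
    (hd : ∀ i j : Fin 5, i ≤ 2 → j ≤ 2 → ‖q i - q j‖ ≤ δ)
    (h3 : 4 * δ ≤ ‖q 3 - cm3 m 0 1 2 q‖) (h4 : 4 * δ ≤ ‖q 4 - cm3 m 0 1 2 q‖) :
    |tauT m q| ≤ 30 * M ^ 2 * δ ^ 2 * (1 / ‖q 3 - cm3 m 0 1 2 q‖ ^ 3 +
      1 / ‖q 4 - cm3 m 0 1 2 q‖ ^ 3) := by
  have hp0 := h.pos
  have key : ∀ j : Fin 5, 4 * δ ≤ ‖q j - cm3 m 0 1 2 q‖ →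
      |m j * ((m 0 + m 1 + m 2) / ‖q j - cm3 m 0 1 2 q‖ - m 0 / ‖q j - q 0‖ -
        m 1 / ‖q j - q 1‖ - m 2 / ‖q j - q 2‖)| ≤
        10 * 3 * M ^ 2 * δ ^ 2 * (1 / ‖q j - cm3 m 0 1 2 q‖ ^ 3) := by
    intro j h1
    refine hs_mul (hp0 j) (h.2 j).2 (by linarith [hp0 0, hp0 1, hp0 2] : 0 < m 0 + m 1 + m 2)
      (by linarith [(h.2 0).2, (h.2 1).2, (h.2 2).2]) (by norm_num) (by linarith) ?_
    exact hs_three (hp0 0) (hp0 1) (hp0 2) (hd 0 1 (by decide) (by decide))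
      (hd 0 2 (by decide) (by decide)) (hd 1 2 (by decide) (by decide)) hδ h1
  rw [hs_tauT]
  have k3 := key 3 h3
  have k4 := key 4 h4
  refine (abs_add_le _ _).trans ?_
  linarith

end NB5
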