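import Mathlib
import Pool.Agent.NB5.Defs
import Pool.Agent.NB5.RgB
import Pool.Agent.NB5.KinSplit
import Pool.Agent.NB5.HamSplit

/-!
# Facts on mode I states (project NB5, module NB5-S1F)

`r := ‖q 0 - q 1‖ ≤ 4 M^2 / b^200` is much smaller than `1 / b^77`. By `R3` and `le_Rg_iff` there is a
surjection `p : Fin 5 → Fin 3` with all distances between different classes `≥ 1/(2 b^77)`.
* `s1_far`: `‖q 0 - q 1‖, ‖q 0 - q 2‖ < 1/(2 b^77)`, so `p 0 = p 1 = p 2` and `p 3`, `p 4` are the two other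
  classes; `‖q 0 - cm‖ ≤ r`, `‖q 0 - cm3‖ ≤ r + ‖x_2‖`.
* `s1_P`: `p 0 = p 1`, `p 2 = p 3`, so `p 4` is the third class.
* `s1_KQ`: `KQ = FQ + UQ`, `UQ ≤ 3 · 2 M^2 b^200 / Zp + 3 M^2 · 8 b^77 ≤ b^200`.
* `s1_KP`: `kq_split_P` gives `KP + hp m 2 3 x = FQ + U'`, `U' ≤ b^200 / 10`; `hard` and `F_le` give
  `KP ≤ 4 FQ + U'`; then `(1/2) μ ‖v 2 - v 3‖^2 ≤ FQ + U' + m 2 m 3/‖q 2 - q 3‖`, `μ ≥ 1/(2 M)`.
* `s1_r`: `ham_Q`, `tauQ_le`: `|tauQ| ≤ 60 M^2 · 16 M^4 / Zp^3 · b^200`, so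
  `m 0 m 1 / r ≥ - hp m 0 1 x ≥ FQ - R - b^200/1000 ≥ FQ / 1.1`.
-/

open MeasureTheory Set Filter Topology Metric
open scoped NNReal ENNReal RealInnerProductSpace

namespace NB5

open HDN

variable {d : ℕ}

private theorem sf_b {b M : ℝ} (hM : 1 ≤ M) (hb : 1000 * M ^ 2 ≤ b) :
    1 ≤ b ∧ 1000 * M ^ 2 * b ^ 77 ≤ b ^ 200 := by
  have hM2 : 1 ≤ M ^ 2 := one_le_pow₀ hM
  have h1 : 1 ≤ b := by linarith
  refine ⟨h1, ?_⟩
  have h2 : b ≤ b ^ 123 := le_self_pow₀ h1 (by norm_num)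
  have h3 : b ^ 200 = b ^ 123 * b ^ 77 := by ring
  rw [h3]
  exact mul_le_mul_of_nonneg_right (hb.trans h2) (by positivity)

private theorem sf_r {b M r : ℝ} (hM : 1 ≤ M) (hb : 1000 * M ^ 2 ≤ b)
    (hr : r ≤ 4 * M ^ 2 / b ^ 200) : r ≤ (1 / b ^ 77) / 250 := by
  obtain ⟨h1, h2⟩ := sf_b hM hb
  have h0 : 0 < b := by linarith
  refine hr.trans ?_
  rw [div_div, div_le_div_iff₀ (by positivity) (by positivity)]
  linarith

private theorem sf_cm {m : Fin 5 → ℝ} (hm : ∀ i, 0 < m i) (q : Cf 5 d) :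
    ‖q 0 - cm m 0 1 q‖ ≤ ‖q 0 - q 1‖ := by
  have h0 := hm 0
  have h1 := hm 1
  have hs : 0 < m 0 + m 1 := add_pos h0 h1
  have e : (m 0 + m 1) • (q 0 - cm m 0 1 q) = m 1 • (q 0 - q 1) := by
    unfold cm
    rw [smul_sub, smul_smul, mul_inv_cancel₀ hs.ne', one_smul, add_smul, smul_sub]
    abel
  have e2 : (m 0 + m 1) * ‖q 0 - cm m 0 1 q‖ = m 1 * ‖q 0 - q 1‖ := by
    have := congrArg norm e
    rwa [norm_smul, norm_smul, Real.norm_of_nonneg hs.le, Real.norm_of_nonneg h1.le] at this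
  have e3 : m 1 * ‖q 0 - q 1‖ ≤ (m 0 + m 1) * ‖q 0 - q 1‖ :=
    mul_le_mul_of_nonneg_right (by linarith) (norm_nonneg _)
  rw [← e2] at e3
  exact le_of_mul_le_mul_left e3 hs

private theorem sf_cm3 {m : Fin 5 → ℝ} (hm : ∀ i, 0 < m i) (q : Cf 5 d) {D : ℝ}
    (hD1 : ‖q 0 - q 1‖ ≤ D) (hD2 : ‖q 0 - q 2‖ ≤ D) : ‖q 0 - cm3 m 0 1 2 q‖ ≤ D := by
  have h0 := hm 0
  have h1 := hm 1
  have h2 := hm 2
  have hD : 0 ≤ D := (norm_nonneg _).trans hD1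
  have hs : 0 < m 0 + m 1 + m 2 := by linarith
  have e : (m 0 + m 1 + m 2) • (q 0 - cm3 m 0 1 2 q) = m 1 • (q 0 - q 1) + m 2 • (q 0 - q 2) := by
    unfold cm3
    rw [smul_sub, smul_smul, mul_inv_cancel₀ hs.ne', one_smul, add_smul, add_smul, smul_sub,
      smul_sub]
    abel
  have e2 : (m 0 + m 1 + m 2) * ‖q 0 - cm3 m 0 1 2 q‖
      ≤ m 1 * ‖q 0 - q 1‖ + m 2 * ‖q 0 - q 2‖ := by
    have := congrArg norm e
    rw [norm_smul, Real.norm_of_nonneg hs.le] at this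
    rw [this]
    refine (norm_add_le _ _).trans ?_
    rw [norm_smul, norm_smul, Real.norm_of_nonneg h1.le, Real.norm_of_nonneg h2.le]
  have e3 : m 1 * ‖q 0 - q 1‖ + m 2 * ‖q 0 - q 2‖ ≤ (m 0 + m 1 + m 2) * D := by
    have a1 := mul_le_mul_of_nonneg_left hD1 h1.le
    have a2 := mul_le_mul_of_nonneg_left hD2 h2.le
    have a3 : 0 ≤ m 0 * D := mul_nonneg h0.le hD
    linarith
  exact le_of_mul_le_mul_left (e2.trans e3) hs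

private theorem sf_p1 (p : Fin 5 → Fin 3) (hp : Function.Surjective p) (h1 : p 0 = p 1)
    (h2 : p 0 = p 2) : p 0 ≠ p 3 ∧ p 0 ≠ p 4 ∧ p 3 ≠ p 4 := by
  have key : ∀ a b c : Fin 3, (∀ e : Fin 3, e = a ∨ e = b ∨ e = c) → a ≠ b ∧ a ≠ c ∧ b ≠ c := by
    decide
  refine key (p 0) (p 3) (p 4) fun e => ?_
  obtain ⟨i, rfl⟩ := hp e
  match i with
  | 0 => exact Or.inl rfl
  | 1 => exact Or.inl h1.symm
  | 2 => exact Or.inl h2.symm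
  | 3 => exact Or.inr (Or.inl rfl)
  | 4 => exact Or.inr (Or.inr rfl)

private theorem sf_p2 (p : Fin 5 → Fin 3) (hp : Function.Surjective p) (h1 : p 0 = p 1)
    (h2 : p 2 = p 3) : p 0 ≠ p 2 ∧ p 0 ≠ p 4 ∧ p 2 ≠ p 4 := by
  have key : ∀ a b c : Fin 3, (∀ e : Fin 3, e = a ∨ e = b ∨ e = c) → a ≠ b ∧ a ≠ c ∧ b ≠ c := by
    decide
  refine key (p 0) (p 2) (p 4) fun e => ?_
  obtain ⟨i, rfl⟩ := hp e
  match i with
  | 0 => exact Or.inl rfl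
  | 1 => exact Or.inl h1.symm
  | 2 => exact Or.inr (Or.inl rfl)
  | 3 => exact Or.inr (Or.inl h2.symm)
  | 4 => exact Or.inr (Or.inr rfl)

private theorem sf_mm {m : Fin 5 → ℝ} {M : ℝ} (h : Mb M m) (i j : Fin 5) : m i * m j ≤ M ^ 2 := by
  have a1 := (h.2 i).2
  have a2 := (h.2 j).2
  have a3 := h.pos i
  have a4 := h.pos j
  calc m i * m j ≤ M * M := mul_le_mul a1 a2 a4.le (by linarith)
    _ = M ^ 2 := by ring

private theorem sf_mm2 {m : Fin 5 → ℝ} {M : ℝ} (h : Mb M m) (j : Fin 5) :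
    (m 0 + m 1) * m j ≤ 2 * M ^ 2 := by
  have a1 := sf_mm h 0 j
  have a2 := sf_mm h 1 j
  linarith

private theorem sf_div {a c x D : ℝ} (hc : 0 ≤ c) (hac : a ≤ c) (hD : 0 < D) (hx : D ≤ x) :
    a / x ≤ c / D := div_le_div₀ hc hac hD hx

theorem s1_far (P : Par) : ∃ b0 : ℝ, 1 ≤ b0 ∧ ∀ b ≥ b0, ∀ m : Fin 5 → ℝ, Mb P.M m →
    ∀ x : St d, S1 P b m x → ‖x.1 2 - cm m 0 1 x.1‖ ≤ 1 / (8 * b ^ 77) →
    (∀ i j : Fin 5, i ≤ 2 → 3 ≤ j → 1 / (2 * b ^ 77) ≤ ‖x.1 i - x.1 j‖) ∧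
    1 / (2 * b ^ 77) ≤ ‖x.1 3 - x.1 4‖ ∧
    (∀ j : Fin 5, 3 ≤ j → 1 / (3 * b ^ 77) ≤ ‖x.1 j - cm m 0 1 x.1‖) ∧
    (∀ j : Fin 5, 3 ≤ j → 1 / (3 * b ^ 77) ≤ ‖x.1 j - cm3 m 0 1 2 x.1‖) := by
  refine ⟨1000 * P.M ^ 2, ?_, ?_⟩
  · have := one_le_pow₀ P.hM (n := 2)
    linarith
  intro b hb m hm x hS hx2
  obtain ⟨hb1, hb2⟩ := sf_b P.hM hb
  have hb0 : 0 < b := by linarith
  have hpos := fun i => Mb.pos hm i
  have hr : ‖x.1 0 - x.1 1‖ ≤ (1 / b ^ 77) / 250 := sf_r P.hM hb hS.r_le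
  set E : ℝ := 1 / b ^ 77 with hE
  have hE0 : 0 < E := by positivity
  have e2 : 1 / (2 * b ^ 77) = E / 2 := by rw [hE]; ring
  have e3 : 1 / (3 * b ^ 77) = E / 3 := by rw [hE]; ring
  have e8 : 1 / (8 * b ^ 77) = E / 8 := by rw [hE]; ring
  have hR := hS.R3
  rw [e2] at hR ⊢
  rw [e3]
  rw [e8] at hx2
  obtain ⟨p, hp, hq⟩ := (le_Rg_iff (by norm_num) (by norm_num)).1 hR
  have hc0 := sf_cm hpos x.1
  have h02 : ‖x.1 0 - x.1 2‖ ≤ E / 250 + E / 8 := by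
    calc ‖x.1 0 - x.1 2‖ = ‖(x.1 0 - cm m 0 1 x.1) - (x.1 2 - cm m 0 1 x.1)‖ := by
          congr 1; abel
      _ ≤ ‖x.1 0 - cm m 0 1 x.1‖ + ‖x.1 2 - cm m 0 1 x.1‖ := norm_sub_le _ _
      _ ≤ _ := by linarith
  have p01 : p 0 = p 1 := by
    by_contra h
    have := hq 0 1 h
    linarith
  have p02 : p 0 = p 2 := by
    by_contra h
    have := hq 0 2 h
    linarith
  obtain ⟨n03, n04, n34⟩ := sf_p1 p hp p01 p02
  have hi2 : ∀ i : Fin 5, i ≤ 2 → i = 0 ∨ i = 1 ∨ i = 2 := by decide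
  have hj3 : ∀ j : Fin 5, 3 ≤ j → j = 3 ∨ j = 4 := by decide
  have hpi : ∀ i : Fin 5, i ≤ 2 → p i = p 0 := by
    intro i hi
    rcases hi2 i hi with h | h | h
    · rw [h]
    · rw [h, p01]
    · rw [h, p02]
  have hpj : ∀ j : Fin 5, 3 ≤ j → p 0 ≠ p j := by
    intro j hj
    rcases hj3 j hj with h | h
    · rw [h]; exact n03
    · rw [h]; exact n04
  have hc3 : ‖x.1 0 - cm3 m 0 1 2 x.1‖ ≤ E / 250 + E / 8 :=
    sf_cm3 hpos x.1 (by linarith) h02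
  have key : ∀ j : Fin 5, 3 ≤ j → ∀ z : Sp d, E / 2 - ‖x.1 0 - z‖ ≤ ‖x.1 j - z‖ := by
    intro j hj z
    have h1 := hq 0 j (hpj j hj)
    have h2 : ‖x.1 0 - x.1 j‖ ≤ ‖x.1 0 - z‖ + ‖x.1 j - z‖ := by
      calc ‖x.1 0 - x.1 j‖ = ‖(x.1 0 - z) - (x.1 j - z)‖ := by congr 1; abel
        _ ≤ _ := norm_sub_le _ _
    linarith
  refine ⟨?_, hq 3 4 n34, ?_, ?_⟩
  · intro i j hi hj
    refine hq i j ?_
    rw [hpi i hi]
    exact hpj j hj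
  · intro j hj
    have := key j hj (cm m 0 1 x.1)
    linarith
  · intro j hj
    have := key j hj (cm3 m 0 1 2 x.1)
    linarith

theorem s1_P (P : Par) : ∃ b0 : ℝ, 1 ≤ b0 ∧ ∀ b ≥ b0, ∀ m : Fin 5 → ℝ, Mb P.M m →
    ∀ x : St d, S1 P b m x → ‖x.1 2 - x.1 3‖ < 1 / (2 * b ^ 77) →
    (∀ i j : Fin 5, i ≤ 1 → 2 ≤ j → 1 / (2 * b ^ 77) ≤ ‖x.1 i - x.1 j‖) ∧
    1 / (2 * b ^ 77) ≤ ‖x.1 2 - x.1 4‖ ∧ 1 / (2 * b ^ 77) ≤ ‖x.1 3 - x.1 4‖ ∧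
    (∀ j : Fin 5, 2 ≤ j → 1 / (3 * b ^ 77) ≤ ‖x.1 j - cm m 0 1 x.1‖) := by
  refine ⟨1000 * P.M ^ 2, ?_, ?_⟩
  · have := one_le_pow₀ P.hM (n := 2)
    linarith
  intro b hb m hm x hS hx2
  obtain ⟨hb1, hb2⟩ := sf_b P.hM hb
  have hb0 : 0 < b := by linarith
  have hpos := fun i => Mb.pos hm i
  have hr : ‖x.1 0 - x.1 1‖ ≤ (1 / b ^ 77) / 250 := sf_r P.hM hb hS.r_le
  set E : ℝ := 1 / b ^ 77 with hE
  have hE0 : 0 < E := by positivity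
  have e2 : 1 / (2 * b ^ 77) = E / 2 := by rw [hE]; ring
  have e3 : 1 / (3 * b ^ 77) = E / 3 := by rw [hE]; ring
  have hR := hS.R3
  rw [e2] at hR hx2 ⊢
  rw [e3]
  obtain ⟨p, hp, hq⟩ := (le_Rg_iff (by norm_num) (by norm_num)).1 hR
  have hc0 := sf_cm hpos x.1
  have p01 : p 0 = p 1 := by
    by_contra h
    have := hq 0 1 h
    linarith
  have p23 : p 2 = p 3 := by
    by_contra h
    have := hq 2 3 h
    linarith
  obtain ⟨n02, n04, n24⟩ := sf_p2 p hp p01 p23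
  have hi1 : ∀ i : Fin 5, i ≤ 1 → i = 0 ∨ i = 1 := by decide
  have hj2 : ∀ j : Fin 5, 2 ≤ j → j = 2 ∨ j = 3 ∨ j = 4 := by decide
  have hpi : ∀ i : Fin 5, i ≤ 1 → p i = p 0 := by
    intro i hi
    rcases hi1 i hi with h | h
    · rw [h]
    · rw [h, p01]
  have hpj : ∀ j : Fin 5, 2 ≤ j → p 0 ≠ p j := by
    intro j hj
    rcases hj2 j hj with h | h | h
    · rw [h]; exact n02
    · rw [h, ← p23]; exact n02
    · rw [h]; exact n04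
  refine ⟨?_, hq 2 4 n24, hq 3 4 (by rw [← p23]; exact n24), ?_⟩
  · intro i j hi hj
    refine hq i j ?_
    rw [hpi i hi]
    exact hpj j hj
  · intro j hj
    have h1 := hq 0 j (hpj j hj)
    have h2 : ‖x.1 0 - x.1 j‖ ≤ ‖x.1 0 - cm m 0 1 x.1‖ + ‖x.1 j - cm m 0 1 x.1‖ := by
      calc ‖x.1 0 - x.1 j‖ = ‖(x.1 0 - cm m 0 1 x.1) - (x.1 j - cm m 0 1 x.1)‖ := by
            congr 1; abel
        _ ≤ _ := norm_sub_le _ _
    linarith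

theorem s1_KQ (P : Par) : ∃ b0 : ℝ, 1 ≤ b0 ∧ ∀ b ≥ b0, ∀ m : Fin 5 → ℝ, Mb P.M m →
    ∀ x : St d, S1 P b m x →
    (∀ i j : Fin 5, 2 ≤ i → 2 ≤ j → i ≠ j → 1 / (8 * b ^ 77) ≤ ‖x.1 i - x.1 j‖) →
    KQ m x.2 ≤ 9 * b ^ 200 := by
  refine ⟨1000 * P.M ^ 2, ?_, ?_⟩
  · have := one_le_pow₀ P.hM (n := 2)
    linarith
  intro b hb m hm x hS hq
  obtain ⟨hb1, hb2⟩ := sf_b P.hM hb
  have hb0 : 0 < b := by linarith
  have hM0 : 0 < P.M := by linarith [P.hM]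
  have hM2 : 1 ≤ P.M ^ 2 := one_le_pow₀ P.hM
  have hZ0 : 0 < P.Zp := by
    have := P.hZ
    have h6 : 0 < P.M ^ 6 := by positivity
    linarith
  have hF := hS.F_le
  have hK : KQ m x.2 = FQ m x + UQ m x.1 := by unfold FQ; ring
  have hZb : 2 * P.M ^ 2 / (P.Zp / b ^ 200) ≤ b ^ 200 / 100 := by
    rw [div_div_eq_mul_div, div_le_div_iff₀ hZ0 (by norm_num)]
    have h4 : 1 ≤ P.M ^ 4 := one_le_pow₀ P.hM
    have h6 : P.M ^ 2 ≤ P.M ^ 6 := by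
      have : P.M ^ 6 = P.M ^ 2 * P.M ^ 4 := by ring
      rw [this]
      exact le_mul_of_one_le_right (by positivity) h4
    have h7 : 200 * P.M ^ 2 ≤ P.Zp := by
      have := P.hZ
      linarith
    have h8 : 0 ≤ b ^ 200 := by positivity
    calc 2 * P.M ^ 2 * b ^ 200 * 100 = b ^ 200 * (200 * P.M ^ 2) := by ring
      _ ≤ b ^ 200 * P.Zp := mul_le_mul_of_nonneg_left h7 h8
  have hcm : ∀ j : Fin 5, 2 ≤ j → (m 0 + m 1) * m j / ‖x.1 j - cm m 0 1 x.1‖ ≤ b ^ 200 / 100 := by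
    intro j hj
    refine (sf_div (by positivity) (sf_mm2 hm j) (by positivity) (hS.x_ge j hj)).trans hZb
  have hMb : 0 ≤ P.M ^ 2 * b ^ 77 := by positivity
  have h8b : P.M ^ 2 / (1 / (8 * b ^ 77)) ≤ b ^ 200 / 100 := by
    rw [div_div_eq_mul_div, div_one]
    linarith
  have hpr : ∀ i j : Fin 5, 2 ≤ i → 2 ≤ j → i ≠ j →
      m i * m j / ‖x.1 i - x.1 j‖ ≤ b ^ 200 / 100 := by
    intro i j hi hj hij
    exact (sf_div (by positivity) (sf_mm hm i j) (by positivity) (hq i j hi hj hij)).trans h8b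
  have c2 := hcm 2 (by decide)
  have c3 := hcm 3 (by decide)
  have c4 := hcm 4 (by decide)
  have d23 := hpr 2 3 (by decide) (by decide) (by decide)
  have d24 := hpr 2 4 (by decide) (by decide) (by decide)
  have d34 := hpr 3 4 (by decide) (by decide) (by decide)
  have h200 : 0 ≤ b ^ 200 := by positivity
  rw [hK]
  unfold UQ
  linarith

theorem s1_KP (P : Par) : ∃ b0 : ℝ, 1 ≤ b0 ∧ ∀ b ≥ b0, ∀ m : Fin 5 → ℝ, Mb P.M m →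
    ∀ x : St d, Free x.1 → S1 P b m x → ‖x.1 2 - x.1 3‖ < 1 / (2 * b ^ 77) →
    KP m x.2 ≤ 34 * b ^ 200 ∧
    ‖x.2 2 - x.2 3‖ ^ 2 ≤ 40 * P.M ^ 3 * (b ^ 200 + 1 / ‖x.1 2 - x.1 3‖) := by
  obtain ⟨b0, hb01, hb0⟩ := s1_P (d := d) P
  refine ⟨max b0 (1000 * P.M ^ 2), hb01.trans (le_max_left _ _), ?_⟩
  intro b hb m hm x hfree hS hx
  obtain ⟨k1, k2, k3, k4⟩ := hb0 b ((le_max_left _ _).trans hb) m hm x hS hx
  obtain ⟨hb1, hb2⟩ := sf_b P.hM ((le_max_right _ _).trans hb)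
  have hbp : 0 < b := by linarith
  have hM0 : 0 < P.M := by linarith [P.hM]
  have hM1 := P.hM
  have hM2 : 1 ≤ P.M ^ 2 := one_le_pow₀ P.hM
  have hM3 : 1 ≤ P.M ^ 3 := one_le_pow₀ P.hM
  have hpos := fun i => Mb.pos hm i
  have hF := hS.F_le
  have h200 : 0 ≤ b ^ 200 := by positivity
  have hq0 : 0 < ‖x.1 2 - x.1 3‖ := norm_pos_iff.2 (sub_ne_zero.2 (hfree 2 3 (by decide)))
  have hMb : 0 ≤ P.M ^ 2 * b ^ 77 := by positivity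
  have t3 : 2 * P.M ^ 2 / (1 / (3 * b ^ 77)) ≤ b ^ 200 / 100 := by
    rw [div_div_eq_mul_div, div_one]
    linarith
  have t2 : P.M ^ 2 / (1 / (2 * b ^ 77)) ≤ b ^ 200 / 100 := by
    rw [div_div_eq_mul_div, div_one]
    linarith
  have hcm : ∀ j : Fin 5, 2 ≤ j → (m 0 + m 1) * m j / ‖x.1 j - cm m 0 1 x.1‖ ≤ b ^ 200 / 100 := by
    intro j hj
    exact (sf_div (by positivity) (sf_mm2 hm j) (by positivity) (k4 j hj)).trans t3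
  have c2 := hcm 2 (by decide)
  have c3 := hcm 3 (by decide)
  have c4 := hcm 4 (by decide)
  have d24 : m 2 * m 4 / ‖x.1 2 - x.1 4‖ ≤ b ^ 200 / 100 :=
    (sf_div (by positivity) (sf_mm hm 2 4) (by positivity) k2).trans t2
  have d34 : m 3 * m 4 / ‖x.1 3 - x.1 4‖ ≤ b ^ 200 / 100 :=
    (sf_div (by positivity) (sf_mm hm 3 4) (by positivity) k3).trans t2
  have hh := hS.hard 2 3 (by decide) (by decide) (by decide)
  have hsp := kq_split_P hpos x.2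
  have hK : KQ m x.2 = FQ m x + UQ m x.1 := by unfold FQ; ring
  have hKP0 := kp_nonneg hpos x.2
  have hU : UQ m x.1 - m 2 * m 3 / ‖x.1 2 - x.1 3‖ ≤ b ^ 200 / 20 := by
    unfold UQ
    linarith
  have hhp : hp m 2 3 x = (1 / 2) * (m 2 * m 3 / (m 2 + m 3)) * ‖x.2 2 - x.2 3‖ ^ 2
      - m 2 * m 3 / ‖x.1 2 - x.1 3‖ := rfl
  refine ⟨by linarith, ?_⟩
  have hμ : 1 / (2 * P.M) ≤ m 2 * m 3 / (m 2 + m 3) := by
    have a2 := (hm.2 2).1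
    have a3 := (hm.2 3).1
    have p2 := hpos 2
    have p3 := hpos 3
    rw [div_le_iff₀ hM0] at a2 a3
    rw [div_le_div_iff₀ (by positivity) (by positivity)]
    have e1 := mul_le_mul_of_nonneg_left a3 p2.le
    have e2 := mul_le_mul_of_nonneg_left a2 p3.le
    linarith
  have hv : (1 / 2) * (m 2 * m 3 / (m 2 + m 3)) * ‖x.2 2 - x.2 3‖ ^ 2
      ≤ 9 * b ^ 200 + P.M ^ 2 / ‖x.1 2 - x.1 3‖ := by
    have h5 : m 2 * m 3 / ‖x.1 2 - x.1 3‖ ≤ P.M ^ 2 / ‖x.1 2 - x.1 3‖ :=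
      div_le_div_of_nonneg_right (sf_mm hm 2 3) hq0.le
    linarith
  have hv2 : 1 / (4 * P.M) * ‖x.2 2 - x.2 3‖ ^ 2 ≤ 9 * b ^ 200 + P.M ^ 2 / ‖x.1 2 - x.1 3‖ := by
    refine le_trans ?_ hv
    have h5 : 1 / (4 * P.M) = (1 / 2) * (1 / (2 * P.M)) := by
      field_simp
      norm_num
    rw [h5]
    exact mul_le_mul_of_nonneg_right (mul_le_mul_of_nonneg_left hμ (by norm_num)) (sq_nonneg _)
  have hv3 : ‖x.2 2 - x.2 3‖ ^ 2 ≤ 4 * P.M * (9 * b ^ 200 + P.M ^ 2 / ‖x.1 2 - x.1 3‖) := by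
    have h5 := mul_le_mul_of_nonneg_left hv2 (show (0 : ℝ) ≤ 4 * P.M by positivity)
    have h6 : 4 * P.M * (1 / (4 * P.M) * ‖x.2 2 - x.2 3‖ ^ 2) = ‖x.2 2 - x.2 3‖ ^ 2 := by
      field_simp
    rwa [h6] at h5
  refine hv3.trans ?_
  have h7 : P.M * b ^ 200 ≤ P.M ^ 3 * b ^ 200 := by
    have : P.M ^ 3 = P.M * P.M ^ 2 := by ring
    rw [this]
    exact mul_le_mul_of_nonneg_right (le_mul_of_one_le_right hM0.le hM2) h200
  have h8 : 0 ≤ P.M ^ 3 * (1 / ‖x.1 2 - x.1 3‖) := by positivity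
  have h9 : 4 * P.M * (9 * b ^ 200 + P.M ^ 2 / ‖x.1 2 - x.1 3‖)
      = 36 * (P.M * b ^ 200) + 4 * (P.M ^ 3 * (1 / ‖x.1 2 - x.1 3‖)) := by ring
  rw [h9]
  have h10 : 0 ≤ P.M ^ 3 * b ^ 200 := by positivity
  linarith

theorem s1_r (P : Par) : ∃ b0 : ℝ, 1 ≤ b0 ∧ ∀ b ≥ b0, ∀ m : Fin 5 → ℝ, Mb P.M m →
    ∀ x : St d, x ∈ Inv m P.R → S1 P b m x →
    ‖x.1 0 - x.1 1‖ ≤ 1.1 * P.M ^ 2 / FQ m x ∧ |tauQ m x.1| ≤ b ^ 200 / 1000 ∧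
      -(1.01 * FQ m x) ≤ hp m 0 1 x := by
  refine ⟨1000 * P.M ^ 2 + 1000 * P.R, ?_, ?_⟩
  · have h1 := one_le_pow₀ P.hM (n := 2)
    have h2 := P.hR
    linarith
  intro b hb m hm x hI hS
  have hR1 := P.hR
  have hM0 : 0 < P.M := by linarith [P.hM]
  have hM2 : 1 ≤ P.M ^ 2 := one_le_pow₀ P.hM
  have hM4 : 1 ≤ P.M ^ 4 := one_le_pow₀ P.hM
  have hM6 : 1 ≤ P.M ^ 6 := one_le_pow₀ P.hM
  obtain ⟨hb1, hb2⟩ := sf_b P.hM (show 1000 * P.M ^ 2 ≤ b by linarith)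
  have hbp : 0 < b := by linarith
  have hpos := fun i => Mb.pos hm i
  obtain ⟨hfree, hH, -⟩ := hI
  have hr0 : 0 < ‖x.1 0 - x.1 1‖ := norm_pos_iff.2 (sub_ne_zero.2 (hfree 0 1 (by decide)))
  have h200 : 0 < b ^ 200 := by positivity
  have hbb : b ≤ b ^ 200 := le_self_pow₀ hb1 (by norm_num)
  have hZ : 10 ^ 9 * P.M ^ 6 ≤ P.Zp := P.hZ
  have hZ0 : 0 < P.Zp := by
    have h6 : 0 < P.M ^ 6 := by positivity
    linarith
  have hr := hS.r_le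
  have hCr : P.Cr = 4 * P.M ^ 2 := rfl
  rw [hCr] at hr
  have hM26 : P.M ^ 2 ≤ P.M ^ 6 := by
    have : P.M ^ 6 = P.M ^ 2 * P.M ^ 4 := by ring
    rw [this]
    exact le_mul_of_one_le_right (by positivity) hM4
  have h4r : ∀ j : Fin 5, 2 ≤ j → 4 * ‖x.1 0 - x.1 1‖ ≤ ‖x.1 j - cm m 0 1 x.1‖ := by
    intro j hj
    refine le_trans ?_ (hS.x_ge j hj)
    refine (mul_le_mul_of_nonneg_left hr (by norm_num)).trans ?_
    rw [← mul_div_assoc]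
    refine div_le_div_of_nonneg_right ?_ h200.le
    linarith
  have ht := tauQ_le hm hr0 h4r
  have hcube : ∀ j : Fin 5, 2 ≤ j → 1 / ‖x.1 j - cm m 0 1 x.1‖ ^ 3 ≤ 1 / (P.Zp / b ^ 200) ^ 3 := by
    intro j hj
    have h5 : 0 < P.Zp / b ^ 200 := by positivity
    exact one_div_le_one_div_of_le (by positivity) (pow_le_pow_left₀ h5.le (hS.x_ge j hj) 3)
  have c2 := hcube 2 (by decide)
  have c3 := hcube 3 (by decide)
  have c4 := hcube 4 (by decide)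
  have htau : |tauQ m x.1| ≤ b ^ 200 / 1000 := by
    refine ht.trans ?_
    have s1 : 1 / ‖x.1 2 - cm m 0 1 x.1‖ ^ 3 + 1 / ‖x.1 3 - cm m 0 1 x.1‖ ^ 3 +
        1 / ‖x.1 4 - cm m 0 1 x.1‖ ^ 3 ≤ 3 * (1 / (P.Zp / b ^ 200) ^ 3) := by linarith
    have s2 : ‖x.1 0 - x.1 1‖ ^ 2 ≤ (4 * P.M ^ 2 / b ^ 200) ^ 2 :=
      pow_le_pow_left₀ hr0.le hr 2
    have s3 : 20 * P.M ^ 2 * ‖x.1 0 - x.1 1‖ ^ 2 ≤ 20 * P.M ^ 2 * (4 * P.M ^ 2 / b ^ 200) ^ 2 :=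
      mul_le_mul_of_nonneg_left s2 (by positivity)
    refine (mul_le_mul s3 s1 (by positivity) (by positivity)).trans ?_
    have s4 : 20 * P.M ^ 2 * (4 * P.M ^ 2 / b ^ 200) ^ 2 * (3 * (1 / (P.Zp / b ^ 200) ^ 3))
        = 960 * P.M ^ 6 / P.Zp ^ 3 * b ^ 200 := by
      field_simp
      norm_num
    rw [s4]
    have s5 : 960 * P.M ^ 6 / P.Zp ^ 3 ≤ 1 / 1000 := by
      rw [div_le_div_iff₀ (by positivity) (by norm_num)]
      have s6 : 1 ≤ P.Zp := by linarith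
      have s7 : P.Zp ≤ P.Zp ^ 3 := le_self_pow₀ s6 (by norm_num)
      linarith
    calc 960 * P.M ^ 6 / P.Zp ^ 3 * b ^ 200 ≤ 1 / 1000 * b ^ 200 :=
          mul_le_mul_of_nonneg_right s5 h200.le
      _ = b ^ 200 / 1000 := by ring
  have hham := ham_Q hpos x
  have hF1 := hS.F_ge
  have ht1 := (abs_le.1 htau).1
  have ht2 := (abs_le.1 htau).2
  have hH1 := (abs_le.1 hH).1
  have hH2 := (abs_le.1 hH).2
  have hRb : 1000 * P.R ≤ b ^ 200 := by linarith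
  have hF0 : 0 < FQ m x := by linarith
  refine ⟨?_, htau, by linarith⟩
  have hhp : hp m 0 1 x = (1 / 2) * (m 0 * m 1 / (m 0 + m 1)) * ‖x.2 0 - x.2 1‖ ^ 2
      - m 0 * m 1 / ‖x.1 0 - x.1 1‖ := rfl
  have hkin : 0 ≤ (1 / 2) * (m 0 * m 1 / (m 0 + m 1)) * ‖x.2 0 - x.2 1‖ ^ 2 := by
    have p0 := hpos 0
    have p1 := hpos 1
    positivity
  have h6 : 0.99 * FQ m x ≤ m 0 * m 1 / ‖x.1 0 - x.1 1‖ := by
    have : 0.99 * FQ m x ≤ -hp m 0 1 x := by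
      norm_num
      linarith
    linarith
  rw [le_div_iff₀ hr0] at h6
  rw [le_div_iff₀ hF0]
  have h7 := sf_mm hm 0 1
  have h8 : 0.99 * (‖x.1 0 - x.1 1‖ * FQ m x) ≤ P.M ^ 2 := by
    calc 0.99 * (‖x.1 0 - x.1 1‖ * FQ m x) = 0.99 * FQ m x * ‖x.1 0 - x.1 1‖ := by ring
      _ ≤ _ := h6.trans h7
  norm_num at h8 ⊢
  linarith

end NB5
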