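import Mathlib
import Pool.Agent.NB5.Defs
import Pool.Agent.HDN.XDerA

/-!
# The derivative of `FT` (project NB5, module NB5-DerFT)

Direct computation: `HDN.XDerA` has `inv_norm_deriv` (derivative of `c / ‖y‖`) and the derivative of
the centre of mass; the acceleration of the centre of mass of `{0,1,2}` times `m0+m1+m2` is the sum of
the forces of the bodies `3, 4` on `0, 1, 2` (the inner forces cancel).
-/

open MeasureTheory Set Filter Topology Metric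
open scoped NNReal ENNReal RealInnerProductSpace

namespace NB5

open HDN

variable {d : ℕ} {m : Fin 5 → ℝ}

/-- the difference between the monopole acceleration and the true acceleration of the body `j`
caused by the triple `{0,1,2}` -/
noncomputable def DT (m : Fin 5 → ℝ) (q : Cf 5 d) (j : Fin 5) : Sp d :=
  (m 0 + m 1 + m 2) • grav (q j - cm3 m 0 1 2 q) - m 0 • grav (q j - q 0) -
    m 1 • grav (q j - q 1) - m 2 • grav (q j - q 2)

/-- the time derivative of `FT` -/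
noncomputable def dFT (m : Fin 5 → ℝ) (x : St d) : ℝ :=
  m 3 * ⟪x.2 3 - cm3 m 0 1 2 x.2, DT m x.1 3⟫ + m 4 * ⟪x.2 4 - cm3 m 0 1 2 x.2, DT m x.1 4⟫

private theorem DerFT_acc (q : Cf 5 d) (i : Fin 5) :
    acc m q i = m 0 • grav (q 0 - q i) + m 1 • grav (q 1 - q i) + m 2 • grav (q 2 - q i) +
      m 3 • grav (q 3 - q i) + m 4 • grav (q 4 - q i) := by
  have h0 : m i • grav (q i - q i) = 0 := by
    rw [sub_self, grav, smul_zero, smul_zero]
  rw [acc_eq_grav, ← Fin.sum_univ_five (fun b => m b • grav (q b - q i)),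
    ← Finset.add_sum_erase Finset.univ (fun b => m b • grav (q b - q i)) (Finset.mem_univ i), h0,
    zero_add]

private theorem DerFT_grav0 : grav (0 : Sp d) = 0 := by
  rw [grav, smul_zero]

private theorem DerFT_cm (hm : ∀ i, 0 < m i) (q : Cf 5 d) :
    (m 0 + m 1 + m 2) • cm3 m 0 1 2 (acc m q) =
      m 3 • (m 0 • grav (q 3 - q 0) + m 1 • grav (q 3 - q 1) + m 2 • grav (q 3 - q 2)) +
      m 4 • (m 0 • grav (q 4 - q 0) + m 1 • grav (q 4 - q 1) + m 2 • grav (q 4 - q 2)) := by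
  have hM : m 0 + m 1 + m 2 ≠ 0 := (add_pos (add_pos (hm 0) (hm 1)) (hm 2)).ne'
  rw [cm3, smul_smul, mul_inv_cancel₀ hM, one_smul, DerFT_acc q 0, DerFT_acc q 1, DerFT_acc q 2,
    sub_self, sub_self, sub_self, DerFT_grav0, XDerA.grav_sub_comm (q 0) (q 1),
    XDerA.grav_sub_comm (q 0) (q 2), XDerA.grav_sub_comm (q 1) (q 2)]
  module

theorem hasDerivAt_FT (hm : ∀ i, 0 < m i) {γ : ℝ → St d} {t : ℝ} (hfree : Free (γ t).1)
    (hγ : HasDerivAt γ (nfield m (γ t)) t)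
    (h3 : 0 < ‖(γ t).1 3 - cm3 m 0 1 2 (γ t).1‖) (h4 : 0 < ‖(γ t).1 4 - cm3 m 0 1 2 (γ t).1‖) :
    HasDerivAt (fun s => FT m (γ s)) (dFT m (γ t)) t := by
  have hq : ∀ i, HasDerivAt (fun s => (γ s).1 i) ((γ t).2 i) t := by
    have h := (ContinuousLinearMap.fst ℝ (Cf 5 d) (Cf 5 d)).hasFDerivAt.comp_hasDerivAt t hγ
    exact hasDerivAt_pi.1 h
  have hv : ∀ i, HasDerivAt (fun s => (γ s).2 i) (acc m (γ t).1 i) t := by
    have h := (ContinuousLinearMap.snd ℝ (Cf 5 d) (Cf 5 d)).hasFDerivAt.comp_hasDerivAt t hγ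
    exact hasDerivAt_pi.1 h
  have hcm : ∀ (η : ℝ → Cf 5 d) (η' : Cf 5 d), (∀ i, HasDerivAt (fun s => η s i) (η' i) t) →
      HasDerivAt (fun s => cm3 m 0 1 2 (η s)) (cm3 m 0 1 2 η') t := by
    intro η η' h
    unfold cm3
    exact ((((h 0).const_smul (m 0)).add ((h 1).const_smul (m 1))).add
      ((h 2).const_smul (m 2))).const_smul (m 0 + m 1 + m 2)⁻¹
  have hQ := hcm (fun s => (γ s).1) _ hq
  have hW := hcm (fun s => (γ s).2) _ hv
  have hK := ((((hW.norm_sq).const_mul (m 0 + m 1 + m 2)).add (((hv 3).norm_sq).const_mul (m 3))).add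
    (((hv 4).norm_sq).const_mul (m 4))).const_mul (1 / 2)
  have hU := ((XDerA.inv_norm_deriv ((hq 3).sub hQ) (norm_pos_iff.1 h3)
    ((m 0 + m 1 + m 2) * m 3)).add
    (XDerA.inv_norm_deriv ((hq 4).sub hQ) (norm_pos_iff.1 h4) ((m 0 + m 1 + m 2) * m 4))).add
    (XDerA.inv_norm_deriv ((hq 3).sub (hq 4)) (sub_ne_zero.2 (hfree 3 4 (by decide))) (m 3 * m 4))
  have hX := hK.sub hU
  have hc := DerFT_cm hm (γ t).1
  have ha3 := DerFT_acc (m := m) (γ t).1 3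
  have ha4 := DerFT_acc (m := m) (γ t).1 4
  refine hX.congr_deriv ?_
  set q := (γ t).1 with hqdef
  set v := (γ t).2 with hvdef
  set W := cm3 m 0 1 2 v with hWdef
  set A := cm3 m 0 1 2 (acc m q) with hA
  set Q := cm3 m 0 1 2 q with hQdef
  have e1 : (m 0 + m 1 + m 2) * ⟪W, A⟫ =
      ⟪W, m 3 • (m 0 • grav (q 3 - q 0) + m 1 • grav (q 3 - q 1) + m 2 • grav (q 3 - q 2)) +
      m 4 • (m 0 • grav (q 4 - q 0) + m 1 • grav (q 4 - q 1) + m 2 • grav (q 4 - q 2))⟫ := by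
    rw [← hc, real_inner_smul_right]
  rw [sub_self, DerFT_grav0, XDerA.grav_sub_comm (q 0) (q 3), XDerA.grav_sub_comm (q 1) (q 3),
    XDerA.grav_sub_comm (q 2) (q 3), XDerA.grav_sub_comm (q 4) (q 3)] at ha3
  rw [sub_self, DerFT_grav0, XDerA.grav_sub_comm (q 0) (q 4), XDerA.grav_sub_comm (q 1) (q 4),
    XDerA.grav_sub_comm (q 2) (q 4)] at ha4
  have e2 : 1 / 2 * ((m 0 + m 1 + m 2) * (2 * ⟪W, A⟫) + m 3 * (2 * ⟪v 3, acc m q 3⟫) +
      m 4 * (2 * ⟪v 4, acc m q 4⟫)) = (m 0 + m 1 + m 2) * ⟪W, A⟫ + m 3 * ⟪v 3, acc m q 3⟫ +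
      m 4 * ⟪v 4, acc m q 4⟫ := by ring
  have e3 : dFT m (γ t) = m 3 * ⟪v 3 - W, DT m q 3⟫ + m 4 * ⟪v 4 - W, DT m q 4⟫ := rfl
  have e4 : ∀ j, DT m q j = (m 0 + m 1 + m 2) • grav (q j - Q) - m 0 • grav (q j - q 0) -
    m 1 • grav (q j - q 1) - m 2 • grav (q j - q 2) := fun j => rfl
  rw [e3, e4, e4]
  refine Eq.trans (b := (m 0 + m 1 + m 2) * ⟪W, A⟫ + m 3 * ⟪v 3, acc m q 3⟫ +
      m 4 * ⟪v 4, acc m q 4⟫ - (-((m 0 + m 1 + m 2) * m 3 * ⟪grav (q 3 - Q), v 3 - W⟫) +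
      -((m 0 + m 1 + m 2) * m 4 * ⟪grav (q 4 - Q), v 4 - W⟫) +
      -(m 3 * m 4 * ⟪grav (q 3 - q 4), v 3 - v 4⟫))) ?_ ?_
  · rw [← e2]
    rfl
  · rw [e1, ha3, ha4]
    simp only [inner_add_right, inner_sub_right, inner_sub_left, real_inner_smul_right,
      inner_neg_right, inner_zero_right, smul_zero, smul_neg, smul_add,
      real_inner_comm _ (grav (q 3 - Q)), real_inner_comm _ (grav (q 4 - Q)),
      real_inner_comm _ (grav (q 3 - q 4))]
    ring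

end NB5
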