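import Mathlib
import Pool.Agent.NB5.Defs
import Pool.Agent.HDN.TidalA

/-!
# Multipole estimate for the force (project NB5, module NB5-GravMul)

Like `HDN.tidal` (file `Pool/Agent/HDN/TidalB.lean`, read its proof): `HDN.grav_taylor` with
`x = y - ξ i`; the terms linear in `ξ i` cancel after multiplication by `μ i` and summation because
`∑ μ i • ξ i = 0`.
-/

open MeasureTheory Set Filter Topology Metric
open scoped NNReal ENNReal RealInnerProductSpace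

namespace NB5

open HDN

variable {d : ℕ}

theorem grav_multipole {ι : Type*} [Fintype ι] {μ : ι → ℝ} {ξ : ι → Sp d} {δ : ℝ} {y : Sp d}
    (hμ : ∀ i, 0 ≤ μ i) (hs : ∑ i, μ i • ξ i = 0) (hξ : ∀ i, ‖ξ i‖ ≤ δ) (hy0 : 0 < ‖y‖)
    (hy : 2 * δ ≤ ‖y‖) :
    ‖∑ i, μ i • grav (y - ξ i) - (∑ i, μ i) • grav y‖ ≤ 1000 * (∑ i, μ i) * δ ^ 2 / ‖y‖ ^ 4 := by
  have hyne : y ≠ 0 := norm_pos_iff.mp hy0
  set T : ι → Sp d := fun i => grav (y - ξ i) - grav y -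
    ((‖y‖ ^ 3)⁻¹ • ((y - ξ i) - y) - (3 * ⟪y, (y - ξ i) - y⟫ * (‖y‖ ^ 5)⁻¹) • y) with hT
  have hn : ∀ i, (y - ξ i) - y = -ξ i := fun i => by abel
  have hnn : ∀ i, ‖(y - ξ i) - y‖ = ‖ξ i‖ := fun i => by rw [hn, norm_neg]
  have hb : ∀ i, ‖T i‖ ≤ 1000 * (δ ^ 2 / ‖y‖ ^ 4) := by
    intro i
    have h1 := grav_taylor (x := y - ξ i) hyne (by rw [hnn]; linarith [hξ i])
    rw [hnn] at h1
    refine h1.trans ?_
    have h2 := hξ i
    have h3 := norm_nonneg (ξ i)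
    gcongr
  have c1 : ∑ i, μ i • ((‖y‖ ^ 3)⁻¹ • ((y - ξ i) - y)) = 0 := by
    have h1 : ∀ i, μ i • ((‖y‖ ^ 3)⁻¹ • ((y - ξ i) - y)) = (-(‖y‖ ^ 3)⁻¹) • (μ i • ξ i) := by
      intro i
      rw [hn, smul_neg, smul_neg, smul_smul, smul_smul, ← neg_smul]
      congr 1
      ring
    rw [Finset.sum_congr rfl (fun i _ => h1 i), ← Finset.smul_sum, hs, smul_zero]
  have c2 : ∑ i, μ i • ((3 * ⟪y, (y - ξ i) - y⟫ * (‖y‖ ^ 5)⁻¹) • y) = 0 := by
    have h1 : ∀ i, μ i • ((3 * ⟪y, (y - ξ i) - y⟫ * (‖y‖ ^ 5)⁻¹) • y) =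
        ((-(3 * (‖y‖ ^ 5)⁻¹)) * ⟪y, μ i • ξ i⟫) • y := by
      intro i
      rw [hn, inner_neg_right, inner_smul_right, smul_smul]
      congr 1
      ring
    rw [Finset.sum_congr rfl (fun i _ => h1 i), ← Finset.sum_smul, ← Finset.mul_sum, ← inner_sum,
      hs, inner_zero_right, mul_zero, zero_smul]
  have key : ∑ i, μ i • grav (y - ξ i) - (∑ i, μ i) • grav y = ∑ i, μ i • T i := by
    have h1 : ∀ i, μ i • T i = μ i • grav (y - ξ i) - μ i • grav y -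
        (μ i • ((‖y‖ ^ 3)⁻¹ • ((y - ξ i) - y)) -
          μ i • ((3 * ⟪y, (y - ξ i) - y⟫ * (‖y‖ ^ 5)⁻¹) • y)) := by
      intro i
      rw [hT]
      simp only [smul_sub]
    rw [Finset.sum_congr rfl (fun i _ => h1 i), Finset.sum_sub_distrib, Finset.sum_sub_distrib,
      Finset.sum_sub_distrib, c1, c2, sub_zero, sub_zero, Finset.sum_smul]
  rw [key]
  calc ‖∑ i, μ i • T i‖ ≤ ∑ i, ‖μ i • T i‖ := norm_sum_le _ _
    _ ≤ ∑ i, μ i * (1000 * (δ ^ 2 / ‖y‖ ^ 4)) := by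
      refine Finset.sum_le_sum fun i _ => ?_
      rw [norm_smul, Real.norm_eq_abs, abs_of_nonneg (hμ i)]
      exact mul_le_mul_of_nonneg_left (hb i) (hμ i)
    _ = 1000 * (∑ i, μ i) * δ ^ 2 / ‖y‖ ^ 4 := by
      rw [← Finset.sum_mul]
      ring

end NB5
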