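import Mathlib
import Pool.Agent.NB5.Defs
import Pool.Agent.NB5.KinSplit
import Pool.Agent.NB5.PotMul

/-!
# The energy of the third body (project NB5, module NB5-HhSplit)

`hh m 2 x = FQ m x - FT m x` (`Equiv.swap 2 2` is the identity). `kq_split_T` for the kinetic part.
Potential part: for `j = 3, 4` the difference
`(m0+m1+m2) / ‖q j - XT‖ - (m0+m1) / ‖q j - XQ‖ - m2 / ‖q j - q 2‖` is `pot_multipole` with
`ι = Fin 2`, `μ = (m0+m1, m2)`, `ξ = (XQ - XT, q 2 - XT)`, `y = q j - XT`, of norm at most `‖q 2 - XQ‖`.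
-/

open MeasureTheory Set Filter Topology Metric
open scoped NNReal ENNReal RealInnerProductSpace

namespace NB5

open HDN

variable {d : ℕ} {m : Fin 5 → ℝ} {M : ℝ}

private lemma hs_pos (h : Mb M m) (i : Fin 5) : 0 < m i := Mb.pos h i

private lemma hs_cm (h : Mb M m) (q : Cf 5 d) :
    (m 0 + m 1) • cm m 0 1 q = m 0 • q 0 + m 1 • q 1 := by
  have := hs_pos h 0
  have := hs_pos h 1
  unfold cm
  rw [smul_smul, mul_inv_cancel₀ (by positivity), one_smul]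

private lemma hs_cm3 (h : Mb M m) (q : Cf 5 d) :
    (m 0 + m 1 + m 2) • cm3 m 0 1 2 q = (m 0 + m 1) • cm m 0 1 q + m 2 • q 2 := by
  have := hs_pos h 0
  have := hs_pos h 1
  have := hs_pos h 2
  rw [hs_cm h]
  unfold cm3
  rw [smul_smul, mul_inv_cancel₀ (by positivity), one_smul]

private lemma hs_d1 (h : Mb M m) (q : Cf 5 d) :
    ‖cm m 0 1 q - cm3 m 0 1 2 q‖ ≤ ‖q 2 - cm m 0 1 q‖ := by
  have h0 := hs_pos h 0
  have h1 := hs_pos h 1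
  have h2 := hs_pos h 2
  have hT : 0 < m 0 + m 1 + m 2 := by positivity
  have e : cm m 0 1 q - cm3 m 0 1 2 q = (-(m 2 / (m 0 + m 1 + m 2))) • (q 2 - cm m 0 1 q) := by
    have hc := hs_cm3 h q
    have e1 : cm3 m 0 1 2 q = (m 0 + m 1 + m 2)⁻¹ • ((m 0 + m 1) • cm m 0 1 q + m 2 • q 2) := by
      rw [← hc, smul_smul, inv_mul_cancel₀ hT.ne', one_smul]
    have e2 : (m 0 + m 1 + m 2)⁻¹ * (m 0 + m 1) = 1 - m 2 / (m 0 + m 1 + m 2) := by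
      field_simp
      ring
    rw [e1, smul_add, smul_smul, smul_smul, e2]
    module
  rw [e, norm_smul]
  have : ‖-(m 2 / (m 0 + m 1 + m 2))‖ ≤ 1 := by
    rw [norm_neg, Real.norm_eq_abs, abs_of_pos (by positivity), div_le_one hT]
    linarith
  calc _ ≤ 1 * ‖q 2 - cm m 0 1 q‖ := mul_le_mul_of_nonneg_right this (norm_nonneg _)
    _ = _ := one_mul _

private lemma hs_d2 (h : Mb M m) (q : Cf 5 d) :
    ‖q 2 - cm3 m 0 1 2 q‖ ≤ ‖q 2 - cm m 0 1 q‖ := by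
  have h0 := hs_pos h 0
  have h1 := hs_pos h 1
  have h2 := hs_pos h 2
  have hT : 0 < m 0 + m 1 + m 2 := by positivity
  have e : q 2 - cm3 m 0 1 2 q = ((m 0 + m 1) / (m 0 + m 1 + m 2)) • (q 2 - cm m 0 1 q) := by
    have hc := hs_cm3 h q
    have e1 : cm3 m 0 1 2 q = (m 0 + m 1 + m 2)⁻¹ • ((m 0 + m 1) • cm m 0 1 q + m 2 • q 2) := by
      rw [← hc, smul_smul, inv_mul_cancel₀ hT.ne', one_smul]
    have e2 : (m 0 + m 1 + m 2)⁻¹ * m 2 = 1 - (m 0 + m 1) / (m 0 + m 1 + m 2) := by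
      field_simp
      ring
    have e3 : (m 0 + m 1 + m 2)⁻¹ * (m 0 + m 1) = (m 0 + m 1) / (m 0 + m 1 + m 2) := by
      field_simp
    rw [e1, smul_add, smul_smul, smul_smul, e2, e3]
    module
  rw [e, norm_smul]
  have : ‖(m 0 + m 1) / (m 0 + m 1 + m 2)‖ ≤ 1 := by
    rw [Real.norm_eq_abs, abs_of_pos (by positivity), div_le_one hT]
    linarith
  calc _ ≤ 1 * ‖q 2 - cm m 0 1 q‖ := mul_le_mul_of_nonneg_right this (norm_nonneg _)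
    _ = _ := one_mul _

private lemma hs_pot (h : Mb M m) (q : Cf 5 d) (j : Fin 5) (h0 : 0 < ‖q 2 - cm m 0 1 q‖)
    (hj : 4 * ‖q 2 - cm m 0 1 q‖ ≤ ‖q j - cm3 m 0 1 2 q‖) :
    |m j * ((m 0 + m 1) / ‖q j - cm m 0 1 q‖ + m 2 / ‖q j - q 2‖ -
      (m 0 + m 1 + m 2) / ‖q j - cm3 m 0 1 2 q‖)| ≤
      30 * M ^ 2 * ‖q 2 - cm m 0 1 q‖ ^ 2 * (1 / ‖q j - cm3 m 0 1 2 q‖ ^ 3) := by
  have hm0 := hs_pos h 0
  have hm1 := hs_pos h 1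
  have hm2 := hs_pos h 2
  have hmj := hs_pos h j
  have b0 := (h.2 0).2
  have b1 := (h.2 1).2
  have b2 := (h.2 2).2
  have bj := (h.2 j).2
  have hM : 1 ≤ M := h.1
  have hy : 0 < ‖q j - cm3 m 0 1 2 q‖ := by linarith
  have key := pot_multipole (ι := Fin 2) (μ := ![m 0 + m 1, m 2])
    (ξ := ![cm m 0 1 q - cm3 m 0 1 2 q, q 2 - cm3 m 0 1 2 q]) (δ := ‖q 2 - cm m 0 1 q‖)
    (y := q j - cm3 m 0 1 2 q) (by
      intro i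
      fin_cases i
      · simp
        positivity
      · simp
        positivity) (by
      rw [Fin.sum_univ_two]
      simp only [Matrix.cons_val_zero, Matrix.cons_val_one]
      have hc := hs_cm3 h q
      have e : (m 0 + m 1) • (cm m 0 1 q - cm3 m 0 1 2 q) + m 2 • (q 2 - cm3 m 0 1 2 q) =
          ((m 0 + m 1) • cm m 0 1 q + m 2 • q 2) - (m 0 + m 1 + m 2) • cm3 m 0 1 2 q := by
        module
      rw [e, hc, sub_self]) (by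
      intro i
      fin_cases i
      · simpa using hs_d1 h q
      · simpa using hs_d2 h q) hy (by linarith)
  rw [Fin.sum_univ_two, Fin.sum_univ_two] at key
  simp only [Matrix.cons_val_zero, Matrix.cons_val_one] at key
  have s1 : q j - cm3 m 0 1 2 q - (cm m 0 1 q - cm3 m 0 1 2 q) = q j - cm m 0 1 q := by abel
  have s2 : q j - cm3 m 0 1 2 q - (q 2 - cm3 m 0 1 2 q) = q j - q 2 := by abel
  rw [s1, s2] at key
  rw [abs_mul, abs_of_pos hmj]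
  have hs3 : m 0 + m 1 + m 2 ≤ 3 * M := by linarith
  have hb : 0 ≤ ‖q 2 - cm m 0 1 q‖ ^ 2 / ‖q j - cm3 m 0 1 2 q‖ ^ 3 := by positivity
  calc m j * |(m 0 + m 1) / ‖q j - cm m 0 1 q‖ + m 2 / ‖q j - q 2‖ -
      (m 0 + m 1 + m 2) / ‖q j - cm3 m 0 1 2 q‖| ≤
      M * (10 * (m 0 + m 1 + m 2) * ‖q 2 - cm m 0 1 q‖ ^ 2 / ‖q j - cm3 m 0 1 2 q‖ ^ 3) :=
        mul_le_mul bj key (abs_nonneg _) (by linarith)
    _ = (10 * M * (m 0 + m 1 + m 2)) * (‖q 2 - cm m 0 1 q‖ ^ 2 / ‖q j - cm3 m 0 1 2 q‖ ^ 3) := by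
        ring
    _ ≤ (10 * M * (3 * M)) * (‖q 2 - cm m 0 1 q‖ ^ 2 / ‖q j - cm3 m 0 1 2 q‖ ^ 3) := by
        apply mul_le_mul_of_nonneg_right _ hb
        apply mul_le_mul_of_nonneg_left hs3
        linarith
    _ = _ := by ring

theorem hh_two (m : Fin 5 → ℝ) (x : St d) : hh m 2 x = FQ m x - FT m x := by
  unfold hh
  have e : rel (Equiv.swap (2 : Fin 5) 2) x = x := by
    unfold rel
    rw [Equiv.swap_self]
    rfl
  have e2 : m ∘ (Equiv.swap (2 : Fin 5) 2) = m := by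
    rw [Equiv.swap_self]
    rfl
  rw [e, e2]

theorem hh_kepler (h : Mb M m) (x : St d) (h0 : 0 < ‖x.1 2 - cm m 0 1 x.1‖)
    (h3 : 4 * ‖x.1 2 - cm m 0 1 x.1‖ ≤ ‖x.1 3 - cm3 m 0 1 2 x.1‖)
    (h4 : 4 * ‖x.1 2 - cm m 0 1 x.1‖ ≤ ‖x.1 4 - cm3 m 0 1 2 x.1‖) :
    |hh m 2 x - ((1 / 2) * ((m 0 + m 1) * m 2 / (m 0 + m 1 + m 2)) * ‖x.2 2 - cm m 0 1 x.2‖ ^ 2 -
      (m 0 + m 1) * m 2 / ‖x.1 2 - cm m 0 1 x.1‖)| ≤
      30 * M ^ 2 * ‖x.1 2 - cm m 0 1 x.1‖ ^ 2 * (1 / ‖x.1 3 - cm3 m 0 1 2 x.1‖ ^ 3 +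
        1 / ‖x.1 4 - cm3 m 0 1 2 x.1‖ ^ 3) := by
  have t3 := hs_pot h x.1 3 h0 h3
  have t4 := hs_pot h x.1 4 h0 h4
  have kk := kq_split_T (fun i => hs_pos h i) x.2
  rw [hh_two]
  unfold FQ FT UQ UT
  rw [kk]
  rw [norm_sub_rev (x.1 2) (x.1 3), norm_sub_rev (x.1 2) (x.1 4)]
  have e : (1 / 2) * ((m 0 + m 1) * m 2 / (m 0 + m 1 + m 2)) * ‖x.2 2 - cm m 0 1 x.2‖ ^ 2 +
      KT m x.2 - ((m 0 + m 1) * m 2 / ‖x.1 2 - cm m 0 1 x.1‖ +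
      (m 0 + m 1) * m 3 / ‖x.1 3 - cm m 0 1 x.1‖ +
      (m 0 + m 1) * m 4 / ‖x.1 4 - cm m 0 1 x.1‖ + m 2 * m 3 / ‖x.1 3 - x.1 2‖ +
      m 2 * m 4 / ‖x.1 4 - x.1 2‖ + m 3 * m 4 / ‖x.1 3 - x.1 4‖) -
      (KT m x.2 - ((m 0 + m 1 + m 2) * m 3 / ‖x.1 3 - cm3 m 0 1 2 x.1‖ +
      (m 0 + m 1 + m 2) * m 4 / ‖x.1 4 - cm3 m 0 1 2 x.1‖ + m 3 * m 4 / ‖x.1 3 - x.1 4‖)) -
      ((1 / 2) * ((m 0 + m 1) * m 2 / (m 0 + m 1 + m 2)) * ‖x.2 2 - cm m 0 1 x.2‖ ^ 2 -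
      (m 0 + m 1) * m 2 / ‖x.1 2 - cm m 0 1 x.1‖) =
      -(m 3 * ((m 0 + m 1) / ‖x.1 3 - cm m 0 1 x.1‖ + m 2 / ‖x.1 3 - x.1 2‖ -
        (m 0 + m 1 + m 2) / ‖x.1 3 - cm3 m 0 1 2 x.1‖)) -
      (m 4 * ((m 0 + m 1) / ‖x.1 4 - cm m 0 1 x.1‖ + m 2 / ‖x.1 4 - x.1 2‖ -
        (m 0 + m 1 + m 2) / ‖x.1 4 - cm3 m 0 1 2 x.1‖)) := by
    ring
  rw [e]
  refine (abs_sub _ _).trans ?_
  rw [abs_neg]
  calc _ ≤ _ := add_le_add t3 t4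
    _ = _ := by ring

end NB5
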