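import Mathlib
import Pool.Agent.NB5.Defs
import Pool.Agent.NB5.RgB
import Pool.Agent.NB5.KinSplit
import Pool.Agent.NB5.HamSplit
import Pool.Agent.NB5.HhSplit
import Pool.Agent.NB5.DerFT
import Pool.Agent.NB5.GravMul

/-!
# Facts on mode III states (project NB5, module NB5-S3F)

`diam {0,1,2} ≤ K3/b^96 < 1/(2 b^77)`, so (as in `s1_far`) `{0,1,2}, {3}, {4}` are the classes of the
partition given by `R3`. `KT = FT + UT ≤ 40 b^200 + C b^77`. `ET = Ham - FT - tauT`, `tauT_le` with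
`δ = K3/b^96`: `|tauT| ≤ C b^(-192+231)`. Since the kinetic part of `ET` is `≥ 0`, some of
the three potential terms is `≥ b^200/9`. `‖DT j‖ ≤ 1000 · 3 M δ^2/‖q j - XT‖^4` (`grav_multipole`,
`ι = Fin 3`), `‖v j - VT‖ ≤ 20 M b^100` (`kt_bound_sub`).
-/

open MeasureTheory Set Filter Topology Metric
open scoped NNReal ENNReal RealInnerProductSpace

namespace NB5

open HDN

variable {d : ℕ}

/-- the threshold for the levels -/
noncomputable def s3b0 (P : Par) : ℝ := 10 ^ 12 * P.M ^ 11 * P.R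

theorem s3b0_bounds (P : Par) {b : ℝ} (hb : s3b0 P ≤ b) :
    1 ≤ b ∧ 10 ^ 12 * P.M ^ 11 ≤ b ∧ 10 ^ 12 * P.R ≤ b := by
  have hM := P.hM
  have hR := P.hR
  have h1 : (1 : ℝ) ≤ P.M ^ 11 := one_le_pow₀ hM
  unfold s3b0 at hb
  have h2 : 10 ^ 12 * P.M ^ 11 ≤ 10 ^ 12 * P.M ^ 11 * P.R := by
    nlinarith [mul_le_mul_of_nonneg_left hR (by positivity : (0 : ℝ) ≤ 10 ^ 12 * P.M ^ 11)]
  have h3 : 10 ^ 12 * P.R ≤ 10 ^ 12 * P.M ^ 11 * P.R := by
    nlinarith [mul_le_mul_of_nonneg_right h1 (by positivity : (0 : ℝ) ≤ 10 ^ 12 * P.R)]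
  refine ⟨?_, h2.trans hb, h3.trans hb⟩
  nlinarith [h2.trans hb]

theorem K3_eq (P : Par) : P.K3 = 128 * P.M ^ 4 := by
  unfold Par.K3 Par.K2
  ring

/-- the partition -/
theorem s3_far_geo {b : ℝ} (P : Par) (hb : s3b0 P ≤ b) {q : Cf 5 d}
    (hd : ∀ i j : Fin 5, i ≤ 2 → j ≤ 2 → ‖q i - q j‖ ≤ P.K3 / b ^ 96)
    (hR3 : 1 / (2 * b ^ 77) ≤ Rg 3 q) :
    (∀ i j : Fin 5, i ≤ 2 → 3 ≤ j → 1 / (2 * b ^ 77) ≤ ‖q i - q j‖) ∧
    1 / (2 * b ^ 77) ≤ ‖q 3 - q 4‖ := by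
  obtain ⟨hb1, hb2, hb3⟩ := s3b0_bounds P hb
  have hb0 : 0 < b := lt_of_lt_of_le one_pos hb1
  have hM := P.hM
  have hK : P.K3 / b ^ 96 < 1 / (2 * b ^ 77) := by
    rw [K3_eq, div_lt_div_iff₀ (by positivity) (by positivity)]
    have h4 : P.M ^ 4 ≤ P.M ^ 11 := pow_le_pow_right₀ hM (by norm_num)
    have h5 : 128 * P.M ^ 4 * 2 < b := by
      have : 0 < P.M ^ 4 := by positivity
      nlinarith
    have h6 : b ≤ b ^ 19 := by
      calc b = b ^ 1 := (pow_one b).symm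
        _ ≤ b ^ 19 := pow_le_pow_right₀ hb1 (by norm_num)
    calc 128 * P.M ^ 4 * (2 * b ^ 77) = (128 * P.M ^ 4 * 2) * b ^ 77 := by ring
      _ < b ^ 19 * b ^ 77 := mul_lt_mul_of_pos_right (h5.trans_le h6) (by positivity)
      _ = 1 * b ^ 96 := by ring
  obtain ⟨p, hp, hs⟩ := (le_Rg_iff (by norm_num) (by norm_num)).1 hR3
  have hc : ∀ i j : Fin 5, i ≤ 2 → j ≤ 2 → p i = p j := by
    intro i j hi hj
    by_contra hne
    have := (hs i j hne).trans (hd i j hi hj)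
    exact absurd this (not_le.2 hK)
  have h01 : p 0 = p 1 := hc 0 1 (by decide) (by decide)
  have h02 : p 0 = p 2 := hc 0 2 (by decide) (by decide)
  have key : p 3 ≠ p 0 ∧ p 4 ≠ p 0 ∧ p 3 ≠ p 4 := by
    have hcard : ∀ a c e : Fin 3, (∀ y : Fin 3, y = a ∨ y = c ∨ y = e) →
        c ≠ a ∧ e ≠ a ∧ c ≠ e := by decide
    refine hcard (p 0) (p 3) (p 4) ?_
    intro y
    obtain ⟨i, rfl⟩ := hp y
    fin_cases i
    · left; rfl
    · left; exact h01.symm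
    · left; exact h02.symm
    · right; left; rfl
    · right; right; rfl
  refine ⟨?_, hs 3 4 key.2.2⟩
  intro i j hi hj
  apply hs
  rw [hc i 0 hi (by decide)]
  have : j = 3 ∨ j = 4 := by
    revert hj
    fin_cases j <;> decide
  rcases this with rfl | rfl
  · exact key.1.symm
  · exact key.2.1.symm

theorem s3_far {b : ℝ} (P : Par) (hb : s3b0 P ≤ b) {m : Fin 5 → ℝ} {x : St d}
    (h : S3 P b m x) :
    (∀ i j : Fin 5, i ≤ 2 → 3 ≤ j → 1 / (2 * b ^ 77) ≤ ‖x.1 i - x.1 j‖) ∧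
    1 / (2 * b ^ 77) ≤ ‖x.1 3 - x.1 4‖ := s3_far_geo P hb h.dT h.R3

theorem cm3_close {m : Fin 5 → ℝ} (hm : ∀ i, 0 < m i) {q : Cf 5 d} {δ : ℝ}
    (hd : ∀ i j : Fin 5, i ≤ 2 → j ≤ 2 → ‖q i - q j‖ ≤ δ) (i : Fin 5) (hi : i ≤ 2) :
    ‖q i - cm3 m 0 1 2 q‖ ≤ δ := by
  have h0 := hm 0
  have h1 := hm 1
  have h2 := hm 2
  have hS : 0 < m 0 + m 1 + m 2 := by positivity
  have e : q i - cm3 m 0 1 2 q = (m 0 + m 1 + m 2)⁻¹ •
      (m 0 • (q i - q 0) + m 1 • (q i - q 1) + m 2 • (q i - q 2)) := by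
    unfold cm3
    have : q i = (m 0 + m 1 + m 2)⁻¹ • ((m 0 + m 1 + m 2) • q i) := by
      rw [smul_smul, inv_mul_cancel₀ hS.ne', one_smul]
    conv_lhs => rw [this]
    rw [← smul_sub]
    congr 1
    module
  rw [e, norm_smul, Real.norm_eq_abs, abs_of_pos (inv_pos.2 hS)]
  have b0 := hd i 0 hi (by decide)
  have b1 := hd i 1 hi (by decide)
  have b2 := hd i 2 hi (by decide)
  have hn : ‖m 0 • (q i - q 0) + m 1 • (q i - q 1) + m 2 • (q i - q 2)‖ ≤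
      (m 0 + m 1 + m 2) * δ := by
    refine (norm_add₃_le).trans ?_
    rw [norm_smul, norm_smul, norm_smul, Real.norm_eq_abs, Real.norm_eq_abs, Real.norm_eq_abs,
      abs_of_pos h0, abs_of_pos h1, abs_of_pos h2]
    nlinarith
  calc (m 0 + m 1 + m 2)⁻¹ * ‖m 0 • (q i - q 0) + m 1 • (q i - q 1) + m 2 • (q i - q 2)‖
      ≤ (m 0 + m 1 + m 2)⁻¹ * ((m 0 + m 1 + m 2) * δ) :=
        mul_le_mul_of_nonneg_left hn (inv_nonneg.2 hS.le)
    _ = δ := by field_simp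

theorem s3_cm3_geo {b : ℝ} (P : Par) (hb : s3b0 P ≤ b) {m : Fin 5 → ℝ} (hm : Mb P.M m)
    {q : Cf 5 d} (hd : ∀ i j : Fin 5, i ≤ 2 → j ≤ 2 → ‖q i - q j‖ ≤ P.K3 / b ^ 96)
    (hR3 : 1 / (2 * b ^ 77) ≤ Rg 3 q) :
    ∀ j : Fin 5, 3 ≤ j → 1 / (3 * b ^ 77) ≤ ‖q j - cm3 m 0 1 2 q‖ := by
  obtain ⟨hb1, hb2, hb3⟩ := s3b0_bounds P hb
  have hb0 : 0 < b := lt_of_lt_of_le one_pos hb1
  have hM := P.hM
  have hK : P.K3 / b ^ 96 ≤ 1 / (6 * b ^ 77) := by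
    rw [K3_eq, div_le_div_iff₀ (by positivity) (by positivity)]
    have h4 : P.M ^ 4 ≤ P.M ^ 11 := pow_le_pow_right₀ hM (by norm_num)
    have h5 : 128 * P.M ^ 4 * 6 ≤ b := by
      have : 0 < P.M ^ 4 := by positivity
      nlinarith
    have h6 : b ≤ b ^ 19 := by
      calc b = b ^ 1 := (pow_one b).symm
        _ ≤ b ^ 19 := pow_le_pow_right₀ hb1 (by norm_num)
    calc 128 * P.M ^ 4 * (6 * b ^ 77) = (128 * P.M ^ 4 * 6) * b ^ 77 := by ring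
      _ ≤ b ^ 19 * b ^ 77 := mul_le_mul_of_nonneg_right (h5.trans h6) (by positivity)
      _ = 1 * b ^ 96 := by ring
  intro j hj
  have h1 := (s3_far_geo P hb hd hR3).1 0 j (by decide) hj
  have h2 := cm3_close (fun i => hm.pos i) hd 0 (by decide)
  have h3 : ‖q 0 - q j‖ ≤ ‖q 0 - cm3 m 0 1 2 q‖ + ‖q j - cm3 m 0 1 2 q‖ := by
    have : q 0 - q j = (q 0 - cm3 m 0 1 2 q) - (q j - cm3 m 0 1 2 q) := by abel
    rw [this]
    exact norm_sub_le _ _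
  have e : 1 / (3 * b ^ 77) = 1 / (2 * b ^ 77) - 1 / (6 * b ^ 77) := by
    field_simp
    norm_num
  linarith

theorem s3_cm3 {b : ℝ} (P : Par) (hb : s3b0 P ≤ b) {m : Fin 5 → ℝ} (hm : Mb P.M m) {x : St d}
    (h : S3 P b m x) : ∀ j : Fin 5, 3 ≤ j → 1 / (3 * b ^ 77) ≤ ‖x.1 j - cm3 m 0 1 2 x.1‖ :=
  s3_cm3_geo P hb hm h.dT h.R3

theorem s3_facts (P : Par) : ∃ b0 : ℝ, 1 ≤ b0 ∧ ∀ b ≥ b0, ∀ m : Fin 5 → ℝ, Mb P.M m →
    ∀ x : St d, x ∈ Inv m P.R → S3 P b m x →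
    (∀ i j : Fin 5, i ≤ 2 → 3 ≤ j → 1 / (2 * b ^ 77) ≤ ‖x.1 i - x.1 j‖) ∧
    1 / (2 * b ^ 77) ≤ ‖x.1 3 - x.1 4‖ ∧
    (∀ j : Fin 5, 3 ≤ j → 1 / (3 * b ^ 77) ≤ ‖x.1 j - cm3 m 0 1 2 x.1‖) ∧
    KT m x.2 ≤ 41 * b ^ 200 ∧ ET m x ≤ -(b ^ 200 / 3) ∧
    (‖x.1 0 - x.1 1‖ ≤ 9 * P.M ^ 2 / b ^ 200 ∨ ‖x.1 0 - x.1 2‖ ≤ 9 * P.M ^ 2 / b ^ 200 ∨
      ‖x.1 1 - x.1 2‖ ≤ 9 * P.M ^ 2 / b ^ 200) := by
  refine ⟨s3b0 P, (s3b0_bounds P le_rfl).1, ?_⟩
  intro b hb m hm x hx h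
  obtain ⟨hb1, hb2, hb3⟩ := s3b0_bounds P hb
  have hb0 : 0 < b := lt_of_lt_of_le one_pos hb1
  have hM := P.hM
  have hR := P.hR
  have hM0 : 0 < P.M := lt_of_lt_of_le one_pos hM
  have hfar := s3_far P hb h
  have hcm := s3_cm3 P hb hm h
  have hp := fun i => hm.pos i
  have hle := fun i => (hm.2 i).2
  have h3 := hcm 3 (by decide)
  have h4 := hcm 4 (by decide)
  have h34 := hfar.2
  have hB : 0 < b ^ 77 := by positivity
  have hprod : ∀ i j : Fin 5, m i * m j ≤ P.M ^ 2 := by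
    intro i j
    nlinarith [hle i, hle j, hp i, hp j, mul_le_mul (hle i) (hle j) (hp j).le hM0.le]
  -- bound of `UT`
  have hUT : UT m x.1 ≤ 20 * P.M ^ 2 * b ^ 77 := by
    have g : ∀ c y e : ℝ, 0 ≤ c → 0 < e → 1 / e ≤ y → c / y ≤ c * e := by
      intro c y e hc he hy
      have hy0 : 0 < y := lt_of_lt_of_le (by positivity) hy
      rw [div_le_iff₀ hy0]
      have : 1 ≤ e * y := by
        have := mul_le_mul_of_nonneg_left hy he.le
        rwa [mul_one_div_cancel he.ne'] at this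
      nlinarith
    unfold UT
    have a3 := g ((m 0 + m 1 + m 2) * m 3) _ _ (by have := hp 0; have := hp 1; have := hp 2; have := hp 3; positivity) (by positivity) h3
    have a4 := g ((m 0 + m 1 + m 2) * m 4) _ _ (by have := hp 0; have := hp 1; have := hp 2; have := hp 4; positivity) (by positivity) h4
    have a34 := g (m 3 * m 4) _ _ (by have := hp 3; have := hp 4; positivity) (by positivity) h34
    have c3 : (m 0 + m 1 + m 2) * m 3 ≤ 3 * P.M ^ 2 := by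
      nlinarith [hprod 0 3, hprod 1 3, hprod 2 3]
    have c4 : (m 0 + m 1 + m 2) * m 4 ≤ 3 * P.M ^ 2 := by
      nlinarith [hprod 0 4, hprod 1 4, hprod 2 4]
    have c34 := hprod 3 4
    nlinarith [mul_le_mul_of_nonneg_right c3 hB.le, mul_le_mul_of_nonneg_right c4 hB.le,
      mul_le_mul_of_nonneg_right c34 hB.le]
  have hbig : 20 * P.M ^ 2 * b ^ 77 ≤ b ^ 200 := by
    have hM2 : P.M ^ 2 ≤ P.M ^ 11 := pow_le_pow_right₀ hM (by norm_num)
    have h5 : 20 * P.M ^ 2 ≤ b := by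
      have : 0 < P.M ^ 2 := by positivity
      nlinarith
    have h6 : b ≤ b ^ 123 := by
      calc b = b ^ 1 := (pow_one b).symm
        _ ≤ b ^ 123 := pow_le_pow_right₀ hb1 (by norm_num)
    calc 20 * P.M ^ 2 * b ^ 77 ≤ b ^ 123 * b ^ 77 :=
          mul_le_mul_of_nonneg_right (h5.trans h6) hB.le
      _ = b ^ 200 := by ring
  have hKT : KT m x.2 ≤ 41 * b ^ 200 := by
    have : KT m x.2 = FT m x + UT m x.1 := by unfold FT; ring
    rw [this]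
    linarith [h.F_le]
  -- `tauT`
  have htau : |tauT m x.1| ≤ 10 ^ 9 * P.M ^ 10 * b ^ 39 := by
    have hδ : 0 < P.K3 / b ^ 96 := by rw [K3_eq]; positivity
    have h4δ : 4 * (P.K3 / b ^ 96) ≤ 1 / (3 * b ^ 77) := by
      rw [K3_eq, ← mul_div_assoc, div_le_div_iff₀ (by positivity) (by positivity)]
      have h4 : P.M ^ 4 ≤ P.M ^ 11 := pow_le_pow_right₀ hM (by norm_num)
      have h5 : 4 * (128 * P.M ^ 4) * 3 ≤ b := by
        have : 0 < P.M ^ 4 := by positivity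
        nlinarith
      have h6 : b ≤ b ^ 19 := by
        calc b = b ^ 1 := (pow_one b).symm
          _ ≤ b ^ 19 := pow_le_pow_right₀ hb1 (by norm_num)
      calc 4 * (128 * P.M ^ 4) * (3 * b ^ 77) = (4 * (128 * P.M ^ 4) * 3) * b ^ 77 := by ring
        _ ≤ b ^ 19 * b ^ 77 := mul_le_mul_of_nonneg_right (h5.trans h6) (by positivity)
        _ = 1 * b ^ 96 := by ring
    have ht := tauT_le hm hδ h.dT (h4δ.trans h3) (h4δ.trans h4)
    have hinv : ∀ y : ℝ, 1 / (3 * b ^ 77) ≤ y → 1 / y ^ 3 ≤ 27 * b ^ 231 := by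
      intro y hy
      have hy0 : 0 < y := lt_of_lt_of_le (by positivity) hy
      have h1 : (1 / (3 * b ^ 77)) ^ 3 ≤ y ^ 3 := pow_le_pow_left₀ (by positivity) hy 3
      rw [div_le_iff₀ (by positivity)]
      have h2 : 27 * b ^ 231 * (1 / (3 * b ^ 77)) ^ 3 = 1 := by
        field_simp
        norm_num
      have h3 := mul_le_mul_of_nonneg_left h1 (by positivity : (0 : ℝ) ≤ 27 * b ^ 231)
      linarith
    have i3 := hinv _ h3
    have i4 := hinv _ h4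
    refine ht.trans ?_
    have hc : 0 ≤ 30 * P.M ^ 2 * (P.K3 / b ^ 96) ^ 2 := by positivity
    calc 30 * P.M ^ 2 * (P.K3 / b ^ 96) ^ 2 * (1 / ‖x.1 3 - cm3 m 0 1 2 x.1‖ ^ 3 +
          1 / ‖x.1 4 - cm3 m 0 1 2 x.1‖ ^ 3)
        ≤ 30 * P.M ^ 2 * (P.K3 / b ^ 96) ^ 2 * (27 * b ^ 231 + 27 * b ^ 231) :=
          mul_le_mul_of_nonneg_left (add_le_add i3 i4) hc
      _ = (30 * 54 * 128 ^ 2) * P.M ^ 10 * b ^ 39 := by
          rw [K3_eq]
          field_simp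
          ring
      _ ≤ 10 ^ 9 * P.M ^ 10 * b ^ 39 := by
          have : 0 ≤ P.M ^ 10 * b ^ 39 := by positivity
          nlinarith
  have hET : ET m x ≤ -(b ^ 200 / 3) := by
    have hh := ham_T hp x
    have hH := hx.2.1
    have hF := h.F_ge
    have h1 : 10 ^ 9 * P.M ^ 10 * b ^ 39 ≤ b ^ 200 / 12 := by
      have hM2 : P.M ^ 10 ≤ P.M ^ 11 := pow_le_pow_right₀ hM (by norm_num)
      have h5 : 10 ^ 9 * P.M ^ 10 * 12 ≤ b := by
        have : 0 < P.M ^ 10 := by positivity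
        nlinarith
      have h6 : b ≤ b ^ 161 := by
        calc b = b ^ 1 := (pow_one b).symm
          _ ≤ b ^ 161 := pow_le_pow_right₀ hb1 (by norm_num)
      have : 10 ^ 9 * P.M ^ 10 * 12 * b ^ 39 ≤ b ^ 161 * b ^ 39 :=
        mul_le_mul_of_nonneg_right (h5.trans h6) (by positivity)
      have e : b ^ 161 * b ^ 39 = b ^ 200 := by ring
      rw [e] at this
      linarith
    have h2 : P.R ≤ b ^ 200 / 12 := by
      have h6 : b ≤ b ^ 200 := by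
        calc b = b ^ 1 := (pow_one b).symm
          _ ≤ b ^ 200 := pow_le_pow_right₀ hb1 (by norm_num)
      nlinarith
    have h3 := (abs_le.1 hH).2
    have h4 := (abs_le.1 htau).1
    linarith
  refine ⟨hfar.1, hfar.2, hcm, hKT, hET, ?_⟩
  by_contra hcon
  push Not at hcon
  obtain ⟨n1, n2, n3⟩ := hcon
  have g : ∀ i j : Fin 5, ∀ y : ℝ, 9 * P.M ^ 2 / b ^ 200 < y → m i * m j / y < b ^ 200 / 9 := by
    intro i j y hy
    have hy0 : 0 < y := lt_trans (by positivity) hy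
    rw [div_lt_iff₀ hy0]
    have h1 := hprod i j
    have h2 : P.M ^ 2 < b ^ 200 / 9 * y := by
      rw [div_lt_iff₀ (by positivity)] at hy
      linarith
    linarith
  have g1 := g 0 1 _ n1
  have g2 := g 0 2 _ n2
  have g3 := g 1 2 _ n3
  have hk1 : 0 ≤ (1 / 2) * (m 0 * m 1 / (m 0 + m 1)) * ‖x.2 0 - x.2 1‖ ^ 2 := by
    have := hp 0
    have := hp 1
    positivity
  have hk2 : 0 ≤ (1 / 2) * ((m 0 + m 1) * m 2 / (m 0 + m 1 + m 2)) *
      ‖x.2 2 - cm m 0 1 x.2‖ ^ 2 := by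
    have := hp 0
    have := hp 1
    have := hp 2
    positivity
  have hE2 := hET
  unfold ET at hE2
  linarith

theorem DT_le {b : ℝ} (P : Par) (hb : s3b0 P ≤ b) {m : Fin 5 → ℝ} (hm : Mb P.M m) {x : St d}
    (h : S3 P b m x) (j : Fin 5) (hj : 3 ≤ j) {s : ℝ} (hs : 0 < s)
    (hs1 : s ≤ ‖x.1 j - cm3 m 0 1 2 x.1‖) :
    ‖DT m x.1 j‖ ≤ 3000 * 128 ^ 2 * P.M ^ 9 / b ^ 192 / s ^ 4 := by
  obtain ⟨hb1, hb2, hb3⟩ := s3b0_bounds P hb
  have hb0 : 0 < b := lt_of_lt_of_le one_pos hb1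
  have hM := P.hM
  have hM0 : 0 < P.M := lt_of_lt_of_le one_pos hM
  have hcm := s3_cm3 P hb hm h j hj
  have hp := fun i => hm.pos i
  have hle := fun i => (hm.2 i).2
  set X := cm3 m 0 1 2 x.1 with hX
  set y := x.1 j - X with hy
  have hy0 : 0 < ‖y‖ := lt_of_lt_of_le (by positivity) hcm
  let μ : Fin 3 → ℝ := ![m 0, m 1, m 2]
  let ξ : Fin 3 → Sp d := ![x.1 0 - X, x.1 1 - X, x.1 2 - X]
  have hμ : ∀ i, 0 ≤ μ i := by
    intro i
    fin_cases i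
    · exact (hp 0).le
    · exact (hp 1).le
    · exact (hp 2).le
  have hS : 0 < m 0 + m 1 + m 2 := by
    have := hp 0
    have := hp 1
    have := hp 2
    positivity
  have hsum : ∑ i, μ i • ξ i = 0 := by
    rw [Fin.sum_univ_three]
    change m 0 • (x.1 0 - X) + m 1 • (x.1 1 - X) + m 2 • (x.1 2 - X) = 0
    have e : (m 0 + m 1 + m 2) • X = m 0 • x.1 0 + m 1 • x.1 1 + m 2 • x.1 2 := by
      rw [hX]
      unfold cm3
      rw [smul_smul, mul_inv_cancel₀ hS.ne', one_smul]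
    have e2 : m 0 • (x.1 0 - X) + m 1 • (x.1 1 - X) + m 2 • (x.1 2 - X) =
        (m 0 • x.1 0 + m 1 • x.1 1 + m 2 • x.1 2) - (m 0 + m 1 + m 2) • X := by module
    rw [e2, e, sub_self]
  have hξ : ∀ i, ‖ξ i‖ ≤ P.K3 / b ^ 96 := by
    intro i
    fin_cases i
    · exact cm3_close hp h.dT 0 (by decide)
    · exact cm3_close hp h.dT 1 (by decide)
    · exact cm3_close hp h.dT 2 (by decide)
  have hδ : 2 * (P.K3 / b ^ 96) ≤ ‖y‖ := by
    refine le_trans ?_ hcm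
    rw [K3_eq, ← mul_div_assoc, div_le_div_iff₀ (by positivity) (by positivity)]
    have h4 : P.M ^ 4 ≤ P.M ^ 11 := pow_le_pow_right₀ hM (by norm_num)
    have h5 : 2 * (128 * P.M ^ 4) * 3 ≤ b := by
      have : 0 < P.M ^ 4 := by positivity
      nlinarith
    have h6 : b ≤ b ^ 19 := by
      calc b = b ^ 1 := (pow_one b).symm
        _ ≤ b ^ 19 := pow_le_pow_right₀ hb1 (by norm_num)
    calc 2 * (128 * P.M ^ 4) * (3 * b ^ 77) = (2 * (128 * P.M ^ 4) * 3) * b ^ 77 := by ring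
      _ ≤ b ^ 19 * b ^ 77 := mul_le_mul_of_nonneg_right (h5.trans h6) (by positivity)
      _ = 1 * b ^ 96 := by ring
  have hmp := grav_multipole hμ hsum hξ hy0 hδ
  have e1 : ∑ i, μ i • grav (y - ξ i) - (∑ i, μ i) • grav y = -DT m x.1 j := by
    rw [Fin.sum_univ_three, Fin.sum_univ_three]
    change m 0 • grav (y - (x.1 0 - X)) + m 1 • grav (y - (x.1 1 - X)) +
      m 2 • grav (y - (x.1 2 - X)) - (m 0 + m 1 + m 2) • grav y = _
    have f : ∀ i : Fin 5, y - (x.1 i - X) = x.1 j - x.1 i := by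
      intro i
      rw [hy]
      abel
    rw [f, f, f]
    unfold DT
    rw [← hX, ← hy]
    abel
  rw [e1, norm_neg] at hmp
  refine hmp.trans ?_
  have hsm : ∑ i, μ i ≤ 3 * P.M := by
    rw [Fin.sum_univ_three]
    change m 0 + m 1 + m 2 ≤ 3 * P.M
    linarith [hle 0, hle 1, hle 2]
  have hsm0 : 0 ≤ ∑ i, μ i := Finset.sum_nonneg fun i _ => hμ i
  calc 1000 * (∑ i, μ i) * (P.K3 / b ^ 96) ^ 2 / ‖y‖ ^ 4
      ≤ 1000 * (3 * P.M) * (P.K3 / b ^ 96) ^ 2 / ‖y‖ ^ 4 := by gcongr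
    _ ≤ 1000 * (3 * P.M) * (P.K3 / b ^ 96) ^ 2 / s ^ 4 := by
        apply div_le_div_of_nonneg_left (by positivity) (by positivity)
        exact pow_le_pow_left₀ hs.le hs1 4
    _ = 3000 * 128 ^ 2 * P.M ^ 9 / b ^ 192 / s ^ 4 := by
        rw [K3_eq]
        field_simp
        ring

theorem drift_III (P : Par) : ∃ b0 : ℝ, 1 ≤ b0 ∧ ∀ b ≥ b0, ∀ m : Fin 5 → ℝ, Mb P.M m →
    ∀ x : St d, x ∈ Inv m P.R → S3 P b m x → |dFT m x| ≤ b ^ 220 ∧
    (1 / b ^ 50 ≤ ‖x.1 3 - cm3 m 0 1 2 x.1‖ → 1 / b ^ 50 ≤ ‖x.1 4 - cm3 m 0 1 2 x.1‖ →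
      |dFT m x| ≤ b ^ 110) := by
  obtain ⟨b0, hb01, hfacts⟩ := s3_facts (d := d) P
  refine ⟨max b0 (s3b0 P), le_max_of_le_left hb01, ?_⟩
  intro b hb' m hm x hx h
  have hb : s3b0 P ≤ b := (le_max_right _ _).trans hb'
  obtain ⟨hb1, hb2, hb3⟩ := s3b0_bounds P hb
  have hb0 : 0 < b := lt_of_lt_of_le one_pos hb1
  have hM := P.hM
  have hM0 : 0 < P.M := lt_of_lt_of_le one_pos hM
  have hKT := (hfacts b ((le_max_left _ _).trans hb') m hm x hx h).2.2.2.1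
  have hcm := s3_cm3 P hb hm h
  have hp := fun i => hm.pos i
  have hle := fun i => (hm.2 i).2
  have hKT0 := kt_nonneg hp x.2
  have hv := kt_bound_sub hm x.2
  have hvv : ∀ y : ℝ, 0 ≤ y → y ^ 2 ≤ 8 * P.M * KT m x.2 → y ≤ 19 * P.M * b ^ 100 := by
    intro y hy0 hy
    have h1 : y ^ 2 ≤ (19 * P.M * b ^ 100) ^ 2 := by
      refine hy.trans ?_
      calc 8 * P.M * KT m x.2 ≤ 8 * P.M * (41 * b ^ 200) := by gcongr
        _ = (328 * P.M) * b ^ 200 := by ring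
        _ ≤ (361 * P.M ^ 2) * b ^ 200 := by
            apply mul_le_mul_of_nonneg_right _ (by positivity)
            nlinarith
        _ = (19 * P.M * b ^ 100) ^ 2 := by ring
    exact (sq_le_sq₀ hy0 (by positivity)).1 h1
  have v3 := hvv _ (norm_nonneg _) hv.1
  have v4 := hvv _ (norm_nonneg _) hv.2.1
  have main : ∀ s : ℝ, 0 < s → s ≤ ‖x.1 3 - cm3 m 0 1 2 x.1‖ → s ≤ ‖x.1 4 - cm3 m 0 1 2 x.1‖ →
      |dFT m x| ≤ 2 * (P.M * ((19 * P.M * b ^ 100) *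
        (3000 * 128 ^ 2 * P.M ^ 9 / b ^ 192 / s ^ 4))) := by
    intro s hs h3 h4
    have d3 := DT_le P hb hm h 3 (by decide) hs h3
    have d4 := DT_le P hb hm h 4 (by decide) hs h4
    have t : ∀ j : Fin 5, ‖x.2 j - cm3 m 0 1 2 x.2‖ ≤ 19 * P.M * b ^ 100 →
        ‖DT m x.1 j‖ ≤ 3000 * 128 ^ 2 * P.M ^ 9 / b ^ 192 / s ^ 4 →
        |m j * ⟪x.2 j - cm3 m 0 1 2 x.2, DT m x.1 j⟫| ≤ P.M * ((19 * P.M * b ^ 100) *
        (3000 * 128 ^ 2 * P.M ^ 9 / b ^ 192 / s ^ 4)) := by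
      intro j a1 a2
      rw [abs_mul, abs_of_pos (hp j)]
      have a3 := abs_real_inner_le_norm (x.2 j - cm3 m 0 1 2 x.2) (DT m x.1 j)
      have a4 := mul_le_mul a1 a2 (norm_nonneg _) (by positivity)
      exact mul_le_mul (hle j) (a3.trans a4) (abs_nonneg _) hM0.le
    unfold dFT
    have t3 := t 3 v3 d3
    have t4 := t 4 v4 d4
    refine (abs_add_le _ _).trans ?_
    linarith
  have hC : 38 * 3000 * 128 ^ 2 * 81 * P.M ^ 11 ≤ b := by
    have : 0 < P.M ^ 11 := by positivity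
    nlinarith
  constructor
  · refine (main (1 / (3 * b ^ 77)) (by positivity) (hcm 3 (by decide))
      (hcm 4 (by decide))).trans ?_
    calc 2 * (P.M * ((19 * P.M * b ^ 100) *
        (3000 * 128 ^ 2 * P.M ^ 9 / b ^ 192 / (1 / (3 * b ^ 77)) ^ 4)))
        = (38 * 3000 * 128 ^ 2 * 81 * P.M ^ 11) * b ^ 216 := by
          field_simp
          ring
      _ ≤ b * b ^ 216 := mul_le_mul_of_nonneg_right hC (by positivity)
      _ = b ^ 217 := by ring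
      _ ≤ b ^ 220 := pow_le_pow_right₀ hb1 (by norm_num)
  · intro h3 h4
    refine (main (1 / b ^ 50) (by positivity) h3 h4).trans ?_
    calc 2 * (P.M * ((19 * P.M * b ^ 100) *
        (3000 * 128 ^ 2 * P.M ^ 9 / b ^ 192 / (1 / b ^ 50) ^ 4)))
        = (38 * 3000 * 128 ^ 2 * P.M ^ 11) * b ^ 108 := by
          field_simp
          ring
      _ ≤ b * b ^ 108 := by
          apply mul_le_mul_of_nonneg_right _ (by positivity)
          have : 0 < P.M ^ 11 := by positivity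
          nlinarith
      _ = b ^ 109 := by ring
      _ ≤ b ^ 110 := pow_le_pow_right₀ hb1 (by norm_num)

end NB5
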