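import Mathlib
import Pool.Agent.NB5.Defs
import Pool.Agent.NB5.RelC
import Pool.Agent.NB5.S1F
import Pool.Agent.NB5.S3F

/-!
# From mode III to strict mode I (project NB5, module NB5-T31)

`lev_basic`: `lev k ^ 100 = 2 ^ k`, `lev k ^ 200 = 4 ^ k`, `lev` is monotone and tends to infinity,
`1 ≤ lev k`. `lev_choose`: for `F ≥ (1 - D) lev k ^ 200`, `0 ≤ D ≤ 1/10`, there is `k' ≥ k` with
`(1 - D) lev k' ^ 200 ≤ F ≤ 4 lev k' ^ 200` (`k' = k` if `F ≤ 4 lev k ^ 200`, else the largest `k'` with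
`lev k' ^ 200 ≤ F`).

`three_to_one`: `b = lev k`. WLOG (`S3.rel`, `FT_rel`; permutation of `{0,1,2}`) `0, 1` is the closest
pair of the triple: `‖q 0 - q 1‖ ≤ 9 M^2/b^200` (`s3_facts`), so the pair of distance `K3/b^96` contains
`2` and `‖x_2‖ ≥ (K3 - 1)/b^96`. `hh m 2 x ≥ -2 M^2 b^96/(K3 - 1) - C b^39 ≥ -L1 b` (`hh_kepler`;
`K3 = 128 M^4`, `L1 b = b^96/(4 M^2)`), so `FQ = FT + hh m 2 x ≥ FT - L1 b ≥ (1 - D) b^200`. Choose `k'` by
`lev_choose` for `F = FQ`, `b' = lev k' ≥ b`. Check the fields of `SI P D b' m x`: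
`r_le`: `ham_Q`, `tauQ_le` (`r ≤ 9 M^2/b^200`, `‖x_j‖ ≥ (K3-1)/b^96`, so `|tauQ| ≤ 1`), `m 0 m 1/r ≥ FQ - R - 1
≥ 0.8 b'^200`; `x_ge`: `‖x_2‖ ≥ (K3-1)/b^96`, `‖x_3‖, ‖x_4‖ ≥ 1/(3 b^77)`; `h_ge`: vacuous as `K3 - 1 ≥ K2`;
`R3`: `1/(2 b'^77) ≤ 1/(2 b^77)`; `hard`: the distances between `2,3,4` are `≥ 1/(2 b^77)`.
-/

open MeasureTheory Set Filter Topology Metric
open scoped NNReal ENNReal RealInnerProductSpace

namespace NB5

open HDN

variable {d : ℕ}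

theorem lev_pow_hundred (k : ℕ) : lev k ^ 100 = 2 ^ k := by
  unfold lev
  rw [← Real.rpow_natCast, ← Real.rpow_mul (by norm_num)]
  rw [show ((k : ℝ) / 100) * ((100 : ℕ) : ℝ) = (k : ℝ) by push_cast; ring]
  exact Real.rpow_natCast 2 k

theorem lev_pow_twohundred (k : ℕ) : lev k ^ 200 = 4 ^ k := by
  rw [show (200 : ℕ) = 100 * 2 from rfl, pow_mul, lev_pow_hundred, ← pow_mul, mul_comm k 2, pow_mul]
  norm_num

theorem one_le_lev (k : ℕ) : 1 ≤ lev k := by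
  unfold lev
  exact Real.one_le_rpow (by norm_num) (by positivity)

theorem lev_mono : Monotone lev := by
  intro a b hab
  unfold lev
  apply Real.rpow_le_rpow_of_exponent_le (by norm_num)
  have : (a : ℝ) ≤ b := by exact_mod_cast hab
  linarith

theorem lev_tendsto : Tendsto lev atTop atTop := by
  unfold lev
  have h1 : Tendsto (fun k : ℕ => (k : ℝ) / 100) atTop atTop :=
    tendsto_natCast_atTop_atTop.atTop_div_const (by norm_num)
  have h2 : Tendsto (fun x : ℝ => (2 : ℝ) ^ x) atTop atTop :=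
    tendsto_rpow_atTop_of_base_gt_one 2 (by norm_num)
  exact h2.comp h1

theorem lev_choose {k : ℕ} {D F : ℝ} (hD0 : 0 ≤ D) (hF : (1 - D) * lev k ^ 200 ≤ F) :
    ∃ k', k ≤ k' ∧ (1 - D) * lev k' ^ 200 ≤ F ∧ F ≤ 4 * lev k' ^ 200 := by
  by_cases h : F ≤ 4 * lev k ^ 200
  · exact ⟨k, le_rfl, hF, h⟩
  push Not at h
  rw [lev_pow_twohundred] at h
  have h1 : (1 : ℝ) ≤ 4 ^ k := one_le_pow₀ (by norm_num)
  obtain ⟨n, hn1, hn2⟩ := exists_nat_pow_near (x := F) (y := 4) (by linarith) (by norm_num)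
  refine ⟨n, ?_, ?_, ?_⟩
  · by_contra hlt
    push Not at hlt
    have h2 : (4 : ℝ) ^ (n + 1) ≤ 4 ^ k := pow_le_pow_right₀ (by norm_num) (by omega)
    linarith
  · rw [lev_pow_twohundred]
    have h3 : (0 : ℝ) < 4 ^ n := by positivity
    nlinarith
  · rw [lev_pow_twohundred]
    rw [pow_succ] at hn2
    linarith

private lemma dv {b c : ℝ} (hb : 1 ≤ b) (hc : c ≤ b) {n m : ℕ} (h : n < m) :
    c / b ^ m ≤ 1 / b ^ n := by
  rw [div_le_div_iff₀ (by positivity) (by positivity)]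
  calc c * b ^ n ≤ b * b ^ n := by gcongr
    _ = b ^ (n + 1) := by ring
    _ ≤ b ^ m := pow_le_pow_right₀ hb h
    _ = 1 * b ^ m := by ring

/-- distances to the centre of mass of a pair -/
private lemma cm_near {m : Fin 5 → ℝ} (hm : ∀ i, 0 < m i) (q : Cf 5 d) :
    ‖q 0 - cm m 0 1 q‖ ≤ ‖q 0 - q 1‖ ∧ ‖q 1 - cm m 0 1 q‖ ≤ ‖q 0 - q 1‖ := by
  have h0 := hm 0
  have h1 := hm 1
  have hs : 0 < m 0 + m 1 := by linarith
  have e0 : q 0 - cm m 0 1 q = (m 1 / (m 0 + m 1)) • (q 0 - q 1) := by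
    unfold cm
    have : q 0 = (m 0 + m 1)⁻¹ • ((m 0 + m 1) • q 0) := by
      rw [smul_smul, inv_mul_cancel₀ hs.ne', one_smul]
    nth_rewrite 1 [this]
    rw [← smul_sub, div_eq_inv_mul, ← smul_smul]
    congr 1
    rw [add_smul, smul_sub]
    abel
  have e1 : q 1 - cm m 0 1 q = (m 0 / (m 0 + m 1)) • (q 1 - q 0) := by
    unfold cm
    have : q 1 = (m 0 + m 1)⁻¹ • ((m 0 + m 1) • q 1) := by
      rw [smul_smul, inv_mul_cancel₀ hs.ne', one_smul]
    nth_rewrite 1 [this]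
    rw [← smul_sub, div_eq_inv_mul, ← smul_smul]
    congr 1
    rw [add_smul, smul_sub]
    abel
  rw [e0, e1, norm_smul, norm_smul, Real.norm_of_nonneg (by positivity),
    Real.norm_of_nonneg (by positivity), norm_sub_rev (q 1) (q 0)]
  constructor
  · apply mul_le_of_le_one_left (norm_nonneg _)
    rw [div_le_one hs]
    linarith
  · apply mul_le_of_le_one_left (norm_nonneg _)
    rw [div_le_one hs]
    linarith

/-- the centre of mass of a pair is in the ball around a third body -/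
private lemma cm_ball {m : Fin 5 → ℝ} (hm : ∀ i, 0 < m i) (q : Cf 5 d) {p : Sp d} {δ : ℝ}
    (h0 : ‖p - q 0‖ ≤ δ) (h1 : ‖p - q 1‖ ≤ δ) : ‖p - cm m 0 1 q‖ ≤ δ := by
  have hm0 := hm 0
  have hm1 := hm 1
  have hs : 0 < m 0 + m 1 := by linarith
  have e : p - cm m 0 1 q = (m 0 + m 1)⁻¹ • (m 0 • (p - q 0) + m 1 • (p - q 1)) := by
    unfold cm
    have : p = (m 0 + m 1)⁻¹ • ((m 0 + m 1) • p) := by
      rw [smul_smul, inv_mul_cancel₀ hs.ne', one_smul]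
    nth_rewrite 1 [this]
    rw [← smul_sub]
    congr 1
    rw [add_smul, smul_sub, smul_sub]
    abel
  rw [e, norm_smul, Real.norm_of_nonneg (by positivity)]
  have h2 : ‖m 0 • (p - q 0) + m 1 • (p - q 1)‖ ≤ (m 0 + m 1) * δ := by
    calc ‖m 0 • (p - q 0) + m 1 • (p - q 1)‖ ≤ ‖m 0 • (p - q 0)‖ + ‖m 1 • (p - q 1)‖ :=
          norm_add_le _ _
      _ = m 0 * ‖p - q 0‖ + m 1 * ‖p - q 1‖ := by
          rw [norm_smul, norm_smul, Real.norm_of_nonneg hm0.le, Real.norm_of_nonneg hm1.le]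
      _ ≤ m 0 * δ + m 1 * δ := by gcongr
      _ = (m 0 + m 1) * δ := by ring
  calc (m 0 + m 1)⁻¹ * ‖m 0 • (p - q 0) + m 1 • (p - q 1)‖
      ≤ (m 0 + m 1)⁻¹ * ((m 0 + m 1) * δ) := by gcongr
    _ = δ := by rw [← mul_assoc, inv_mul_cancel₀ hs.ne', one_mul]

private lemma mass_mul_le {M : ℝ} {m : Fin 5 → ℝ} (h : Mb M m) (i j : Fin 5) :
    m i * m j ≤ M ^ 2 := by
  have hi := (h.2 i).2
  have hj := (h.2 j).2
  have h0 := (Mb.pos h i).le
  have h1 := (Mb.pos h j).le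
  nlinarith

/-- from mode III to strict mode I, when `0, 1` is the closest pair -/
private lemma core (P : Par) {b : ℝ} (hb : 1 ≤ b) (hB : 10 ^ 10 * P.M ^ 12 ≤ b)
    (hBR : 10 * (P.R + 1) ≤ b) {k : ℕ} (hk : b = lev k) {m : Fin 5 → ℝ} (hm : Mb P.M m)
    {x : St d} {D : ℝ} (hD0 : 0 ≤ D) (hD : D ≤ 1 / 10) (hI : x ∈ Inv m P.R)
    (h3 : S3 P b m x) (hF : (1 - D) * b ^ 200 ≤ FT m x - P.L1 b)
    (hpair : ∃ i j : Fin 5, i ≤ 2 ∧ j ≤ 2 ∧ ‖x.1 i - x.1 j‖ = P.K3 / b ^ 96)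
    (hfar : ∀ i j : Fin 5, i ≤ 2 → 3 ≤ j → 1 / (2 * b ^ 77) ≤ ‖x.1 i - x.1 j‖)
    (h34 : 1 / (2 * b ^ 77) ≤ ‖x.1 3 - x.1 4‖)
    (hXT : ∀ j : Fin 5, 3 ≤ j → 1 / (3 * b ^ 77) ≤ ‖x.1 j - cm3 m 0 1 2 x.1‖)
    (hr : ‖x.1 0 - x.1 1‖ ≤ 9 * P.M ^ 2 / b ^ 200) :
    ∃ k', k ≤ k' ∧ SI P D (lev k') m x := by
  have hM := P.hM
  have hR := P.hR
  have hm0 := fun i => Mb.pos hm i
  have hM2 : 1 ≤ P.M ^ 2 := one_le_pow₀ hM
  have hM4 : 1 ≤ P.M ^ 4 := one_le_pow₀ hM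
  have hM12 : P.M ^ 2 ≤ P.M ^ 12 := pow_le_pow_right₀ hM (by norm_num)
  have hM12' : P.M ^ 4 ≤ P.M ^ 12 := pow_le_pow_right₀ hM (by norm_num)
  have hM12'' : P.M ^ 6 ≤ P.M ^ 12 := pow_le_pow_right₀ hM (by norm_num)
  have hb0 : 0 < b := by linarith
  have hK3 : P.K3 = 128 * P.M ^ 4 := by unfold Par.K3 Par.K2; ring
  have hK2 : P.K2 = 32 * P.M ^ 4 := rfl
  have hL1 : P.L1 b = b ^ 96 / (4 * P.M ^ 2) := rfl
  obtain ⟨hfree, hham, -, -, -, -⟩ := hI
  set r := ‖x.1 0 - x.1 1‖ with hrdef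
  have hr0 : 0 < r := norm_pos_iff.mpr (sub_ne_zero.mpr (hfree 0 1 (by decide)))
  have hr96 : r ≤ 1 / b ^ 96 := hr.trans (dv hb (by linarith) (by norm_num))
  have hr77 : r ≤ 1 / b ^ 78 := hr.trans (dv hb (by linarith) (by norm_num))
  obtain ⟨hc0, hc1⟩ := cm_near hm0 x.1
  rw [← hrdef] at hc0 hc1
  -- the third body
  have h2lo : (P.K3 - 1) / b ^ 96 ≤ ‖x.1 2 - cm m 0 1 x.1‖ := by
    have key : ∀ i : Fin 5, i = 0 ∨ i = 1 → ‖x.1 2 - x.1 i‖ = P.K3 / b ^ 96 →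
        (P.K3 - 1) / b ^ 96 ≤ ‖x.1 2 - cm m 0 1 x.1‖ := by
      intro i hi h
      have h4 : ‖x.1 i - cm m 0 1 x.1‖ ≤ r := by
        rcases hi with rfl | rfl
        · exact hc0
        · exact hc1
      have h5 : ‖x.1 2 - x.1 i‖ ≤ ‖x.1 2 - cm m 0 1 x.1‖ + ‖x.1 i - cm m 0 1 x.1‖ := by
        have := norm_sub_le (x.1 2 - cm m 0 1 x.1) (x.1 i - cm m 0 1 x.1)
        rwa [sub_sub_sub_cancel_right] at this
      have h6 : (P.K3 - 1) / b ^ 96 = P.K3 / b ^ 96 - 1 / b ^ 96 := by ring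
      rw [h6, ← h]
      linarith
    obtain ⟨i, j, hi, hj, hij⟩ := hpair
    have hpos : 0 < P.K3 / b ^ 96 := by rw [hK3]; positivity
    have hne : r < P.K3 / b ^ 96 := by
      refine hr96.trans_lt ?_
      rw [hK3]
      gcongr
      linarith
    fin_cases i <;> fin_cases j <;> simp at hi hj hij
    all_goals first
      | (exfalso; linarith)
      | (exfalso; rw [norm_sub_rev, ← hrdef] at hij; linarith)
      | exact key 0 (Or.inl rfl) hij
      | exact key 1 (Or.inr rfl) hij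
      | exact key 0 (Or.inl rfl) ((norm_sub_rev _ _).trans hij)
      | exact key 1 (Or.inr rfl) ((norm_sub_rev _ _).trans hij)
  have h2hi : ‖x.1 2 - cm m 0 1 x.1‖ ≤ P.K3 / b ^ 96 :=
    cm_ball hm0 x.1 (h3.dT 2 0 (by decide) (by decide)) (h3.dT 2 1 (by decide) (by decide))
  have hb19 : b ≤ b ^ 19 := le_self_pow₀ hb (by norm_num)
  -- distances to the center of mass of the pair
  have hjlo : ∀ j : Fin 5, 3 ≤ j → 1 / (3 * b ^ 77) ≤ ‖x.1 j - cm m 0 1 x.1‖ := by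
    intro j hj
    have h4 := hfar 0 j (by decide) hj
    have h5 : ‖x.1 0 - x.1 j‖ ≤ ‖x.1 0 - cm m 0 1 x.1‖ + ‖x.1 j - cm m 0 1 x.1‖ := by
      have := norm_sub_le (x.1 0 - cm m 0 1 x.1) (x.1 j - cm m 0 1 x.1)
      rwa [sub_sub_sub_cancel_right] at this
    have h6 : 1 / b ^ 78 ≤ 1 / (6 * b ^ 77) := by
      rw [div_le_div_iff₀ (by positivity) (by positivity)]
      have : b ^ 78 = b * b ^ 77 := by ring
      rw [this]
      have h77 : 0 < b ^ 77 := by positivity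
      have := mul_le_mul_of_nonneg_right (show (6 : ℝ) ≤ b by linarith) h77.le
      linarith
    have h7 : 1 / (2 * b ^ 77) = 1 / (3 * b ^ 77) + 1 / (6 * b ^ 77) := by
      field_simp
      ring
    linarith
  -- comparison of the scales
  have hscale : 4 * (P.K3 / b ^ 96) ≤ 1 / (3 * b ^ 77) := by
    rw [hK3, ← mul_div_assoc, div_le_div_iff₀ (by positivity) (by positivity)]
    have : b ^ 96 = b ^ 19 * b ^ 77 := by ring
    rw [this]
    have h77 : 0 < b ^ 77 := by positivity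
    have h5 : 4 * (128 * P.M ^ 4) * 3 ≤ b ^ 19 := by linarith
    have := mul_le_mul_of_nonneg_right h5 h77.le
    linarith
  have h2pos : 0 < ‖x.1 2 - cm m 0 1 x.1‖ := by
    refine lt_of_lt_of_le ?_ h2lo
    have : 0 < P.K3 - 1 := by rw [hK3]; linarith
    positivity
  -- the energy of the third body
  have hkep := hh_kepler hm x h2pos (by linarith [hXT 3 (by decide)])
    (by linarith [hXT 4 (by decide)])
  have hinv3 : ∀ y : ℝ, 1 / (3 * b ^ 77) ≤ y → 1 / y ^ 3 ≤ 27 * b ^ 231 := by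
    intro y hy
    have hy0 : 0 < y := lt_of_lt_of_le (by positivity) hy
    have h5 : (1 / (3 * b ^ 77)) ^ 3 ≤ y ^ 3 := by gcongr
    rw [div_le_iff₀ (by positivity)]
    calc (1 : ℝ) = 27 * b ^ 231 * (1 / (3 * b ^ 77)) ^ 3 := by
          field_simp
          norm_num
      _ ≤ 27 * b ^ 231 * y ^ 3 := by gcongr
  have hhge : -P.L1 b ≤ hh m 2 x := by
    have e1 : (m 0 + m 1) * m 2 / ‖x.1 2 - cm m 0 1 x.1‖ ≤ 2 * P.M ^ 2 * b ^ 96 / (127 * P.M ^ 4) := by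
      have h5 : (m 0 + m 1) * m 2 ≤ 2 * P.M ^ 2 := by
        have := mass_mul_le hm 0 2
        have := mass_mul_le hm 1 2
        linarith
      have h6 : 127 * P.M ^ 4 / b ^ 96 ≤ ‖x.1 2 - cm m 0 1 x.1‖ := by
        refine le_trans ?_ h2lo
        rw [hK3]
        gcongr
        linarith
      calc (m 0 + m 1) * m 2 / ‖x.1 2 - cm m 0 1 x.1‖
          ≤ 2 * P.M ^ 2 / (127 * P.M ^ 4 / b ^ 96) := by
            apply div_le_div₀ (by positivity) h5 (by positivity) h6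
        _ = 2 * P.M ^ 2 * b ^ 96 / (127 * P.M ^ 4) := by
            field_simp
    have e2 : 30 * P.M ^ 2 * ‖x.1 2 - cm m 0 1 x.1‖ ^ 2 *
        (1 / ‖x.1 3 - cm3 m 0 1 2 x.1‖ ^ 3 + 1 / ‖x.1 4 - cm3 m 0 1 2 x.1‖ ^ 3) ≤
        30 * P.M ^ 2 * (P.K3 / b ^ 96) ^ 2 * (27 * b ^ 231 + 27 * b ^ 231) := by
      have a1 := hinv3 _ (hXT 3 (by decide))
      have a2 := hinv3 _ (hXT 4 (by decide))
      gcongr
    have e3 : 30 * P.M ^ 2 * (P.K3 / b ^ 96) ^ 2 * (27 * b ^ 231 + 27 * b ^ 231) =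
        1620 * P.M ^ 2 * P.K3 ^ 2 * b ^ 39 := by
      field_simp
      ring
    have e4 : (0 : ℝ) ≤ (1 / 2) * ((m 0 + m 1) * m 2 / (m 0 + m 1 + m 2)) *
        ‖x.2 2 - cm m 0 1 x.2‖ ^ 2 := by
      have := hm0 0
      have := hm0 1
      have := hm0 2
      positivity
    have e5 := (abs_le.mp hkep).1
    have e6 : 2 * P.M ^ 2 * b ^ 96 / (127 * P.M ^ 4) + 1620 * P.M ^ 2 * P.K3 ^ 2 * b ^ 39 ≤
        b ^ 96 / (4 * P.M ^ 2) := by
      have f1 : 2 * P.M ^ 2 * b ^ 96 / (127 * P.M ^ 4) = (2 / 127) * (b ^ 96 / P.M ^ 2) := by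
        field_simp
      have f2 : b ^ 96 / (4 * P.M ^ 2) = (1 / 4) * (b ^ 96 / P.M ^ 2) := by
        field_simp
      have f3 : 1620 * P.M ^ 2 * P.K3 ^ 2 * b ^ 39 ≤ (1 / 5) * (b ^ 96 / P.M ^ 2) := by
        rw [← mul_div_assoc, le_div_iff₀ (by positivity), hK3]
        have g1 : 1620 * P.M ^ 2 * (128 * P.M ^ 4) ^ 2 * b ^ 39 * P.M ^ 2 =
            (1620 * 128 ^ 2) * P.M ^ 12 * b ^ 39 := by ring
        have g2 : b ^ 96 = b ^ 57 * b ^ 39 := by ring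
        rw [g1, g2]
        have g3 : b ≤ b ^ 57 := le_self_pow₀ hb (by norm_num)
        have g4 : (1620 * 128 ^ 2) * P.M ^ 12 ≤ 1 / 5 * b ^ 57 := by
          have : 0 < P.M ^ 12 := by positivity
          linarith
        have g5 : 0 < b ^ 39 := by positivity
        have := mul_le_mul_of_nonneg_right g4 g5.le
        linarith
      have f4 : 0 < b ^ 96 / P.M ^ 2 := by positivity
      rw [f1, f2]
      linarith
    rw [hL1]
    linarith
  have hFQ : (1 - D) * b ^ 200 ≤ FQ m x := by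
    have := hh_two m x
    linarith
  rw [hk] at hFQ
  obtain ⟨k', hkk, hk1, hk2⟩ := lev_choose hD0 hFQ
  have hbb : b ≤ lev k' := by rw [hk]; exact lev_mono hkk
  set c := lev k' with hc
  have hc1' : 1 ≤ c := one_le_lev k'
  have hc0' : 0 < c := by linarith
  have hcc : c ≤ c ^ 200 := le_self_pow₀ hc1' (by norm_num)
  refine ⟨k', hkk, ?_⟩
  -- the tidal energy
  have htau : |tauQ m x.1| ≤ 1 := by
    have h4r : 4 * r ≤ 4 * (1 / b ^ 96) := by linarith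
    have hx4 : ∀ j : Fin 5, 2 ≤ j → 4 * ‖x.1 0 - x.1 1‖ ≤ ‖x.1 j - cm m 0 1 x.1‖ := by
      intro j hj
      rw [← hrdef]
      rcases eq_or_lt_of_le hj with rfl | hj'
      · refine h4r.trans (le_trans ?_ h2lo)
        rw [mul_one_div, hK3]
        gcongr
        linarith
      · have hj3 : 3 ≤ j := by
          revert hj'
          revert j
          decide
        refine h4r.trans (le_trans ?_ (hjlo j hj3))
        refine le_trans ?_ hscale
        rw [hK3]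
        gcongr
        linarith
    have h5 := tauQ_le hm (by rw [← hrdef]; exact hr0) hx4
    rw [← hrdef] at h5
    have g2 : 1 / ‖x.1 2 - cm m 0 1 x.1‖ ^ 3 ≤ b ^ 288 := by
      have h6 : 1 / b ^ 96 ≤ ‖x.1 2 - cm m 0 1 x.1‖ := by
        refine le_trans ?_ h2lo
        rw [hK3]
        gcongr
        linarith
      have h7 : (1 / b ^ 96) ^ 3 ≤ ‖x.1 2 - cm m 0 1 x.1‖ ^ 3 := by gcongr
      rw [div_le_iff₀ (by positivity)]
      calc (1 : ℝ) = b ^ 288 * (1 / b ^ 96) ^ 3 := by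
            field_simp
        _ ≤ b ^ 288 * ‖x.1 2 - cm m 0 1 x.1‖ ^ 3 := by gcongr
    have g3 := hinv3 _ (hjlo 3 (by decide))
    have g4 := hinv3 _ (hjlo 4 (by decide))
    have g5 : b ^ 231 ≤ b ^ 288 := pow_le_pow_right₀ hb (by norm_num)
    have g6 : 20 * P.M ^ 2 * r ^ 2 * (1 / ‖x.1 2 - cm m 0 1 x.1‖ ^ 3 +
        1 / ‖x.1 3 - cm m 0 1 x.1‖ ^ 3 + 1 / ‖x.1 4 - cm m 0 1 x.1‖ ^ 3) ≤
        20 * P.M ^ 2 * (9 * P.M ^ 2 / b ^ 200) ^ 2 * (55 * b ^ 288) := by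
      gcongr
      linarith
    have g7 : 20 * P.M ^ 2 * (9 * P.M ^ 2 / b ^ 200) ^ 2 * (55 * b ^ 288) =
        89100 * P.M ^ 6 / b ^ 112 := by
      field_simp
      ring
    have g8 : 89100 * P.M ^ 6 / b ^ 112 ≤ 1 := by
      rw [div_le_one (by positivity)]
      have : b ≤ b ^ 112 := le_self_pow₀ hb (by norm_num)
      linarith
    linarith
  have hFpos : 0.8 * c ^ 200 + P.R + 1 ≤ FQ m x := by
    have h5 : 0.9 * c ^ 200 ≤ (1 - D) * c ^ 200 :=
      mul_le_mul_of_nonneg_right (by linarith) (by positivity)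
    linarith
  have hrr : r ≤ P.Cr / c ^ 200 := by
    have h5 := ham_Q hm0 x
    have h6 : -(m 0 * m 1 / r) ≤ hp m 0 1 x := by
      unfold hp
      rw [← hrdef]
      have : 0 ≤ (1 / 2) * (m 0 * m 1 / (m 0 + m 1)) * ‖x.2 0 - x.2 1‖ ^ 2 := by
        have := hm0 0
        have := hm0 1
        positivity
      linarith
    have h7 := (abs_le.mp hham).2
    have h8 := (abs_le.mp htau).1
    have h9 : 0.8 * c ^ 200 ≤ m 0 * m 1 / r := by linarith
    rw [le_div_iff₀ hr0] at h9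
    have h10 := mass_mul_le hm 0 1
    have h11 : P.Cr = 4 * P.M ^ 2 := rfl
    rw [le_div_iff₀ (by positivity), h11]
    linarith
  have hpw : ∀ n : ℕ, b ^ n ≤ c ^ n := fun n => by gcongr
  have hfar' : ∀ i j : Fin 5, 2 ≤ i → 2 ≤ j → i ≠ j → 1 / (2 * b ^ 77) ≤ ‖x.1 i - x.1 j‖ := by
    intro i j hi hj hij
    fin_cases i <;> fin_cases j <;> simp at hi hj hij
    all_goals first
      | exact hfar 2 3 (by decide) (by decide)
      | exact hfar 2 4 (by decide) (by decide)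
      | exact h34
      | (rw [norm_sub_rev]; exact hfar 2 3 (by decide) (by decide))
      | (rw [norm_sub_rev]; exact hfar 2 4 (by decide) (by decide))
      | (rw [norm_sub_rev]; exact h34)
  have hxK : ∀ j : Fin 5, 2 ≤ j → P.K2 / c ^ 96 ≤ ‖x.1 j - cm m 0 1 x.1‖ := by
    intro j hj
    have h5 : P.K2 / c ^ 96 ≤ P.K2 / b ^ 96 := by
      have : 0 ≤ P.K2 := by rw [hK2]; positivity
      have := hpw 96
      gcongr
    refine h5.trans ?_
    rcases eq_or_lt_of_le hj with rfl | hj'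
    · refine le_trans ?_ h2lo
      rw [hK2, hK3]
      gcongr
      linarith
    · have hj3 : 3 ≤ j := by
        revert hj'
        revert j
        decide
      refine le_trans ?_ (hjlo j hj3)
      refine le_trans ?_ hscale
      rw [hK2, hK3, ← mul_div_assoc]
      refine div_le_div_of_nonneg_right ?_ (by positivity)
      linarith
  refine ⟨hrr, hk1, hk2, ?_, ?_, ?_, ?_⟩
  · intro j hj
    refine le_trans ?_ (hxK j hj)
    rw [hK2]
    gcongr
    linarith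
  · intro j hj hlt
    exact absurd (hxK j hj) (not_le.mpr hlt)
  · refine le_trans ?_ h3.R3
    have := hpw 77
    gcongr
  · intro i j hi hj hij
    have h5 := hfar' i j hi hj hij
    have h6 : -(m i * m j / ‖x.1 i - x.1 j‖) ≤ hp m i j x := by
      unfold hp
      have : 0 ≤ (1 / 2) * (m i * m j / (m i + m j)) * ‖x.2 i - x.2 j‖ ^ 2 := by
        have := hm0 i
        have := hm0 j
        positivity
      linarith
    have h7 : m i * m j / ‖x.1 i - x.1 j‖ ≤ P.M ^ 2 / (1 / (2 * b ^ 77)) :=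
      div_le_div₀ (by positivity) (mass_mul_le hm i j) (by positivity) h5
    have h8 : P.M ^ 2 / (1 / (2 * b ^ 77)) = 2 * P.M ^ 2 * b ^ 77 := by
      field_simp
    have h9 : P.M ^ 2 * b ^ 77 ≤ 0.8 * b ^ 200 := by
      have g1 : b ^ 200 = b ^ 123 * b ^ 77 := by ring
      have g2 : b ≤ b ^ 123 := le_self_pow₀ hb (by norm_num)
      have g3 : P.M ^ 2 ≤ 0.8 * b ^ 123 := by linarith
      have g4 : 0 < b ^ 77 := by positivity
      rw [g1]
      have := mul_le_mul_of_nonneg_right g3 g4.le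
      linarith
    have h10 := hpw 200
    linarith

theorem three_to_one (P : Par) : ∃ K : ℕ, ∀ k ≥ K, ∀ m : Fin 5 → ℝ, Mb P.M m →
    ∀ (x : St d) (D : ℝ), 0 ≤ D → D ≤ 1 / 10 → x ∈ Inv m P.R → S3 P (lev k) m x →
    (1 - D) * lev k ^ 200 ≤ FT m x - P.L1 (lev k) →
    (∃ i j : Fin 5, i ≤ 2 ∧ j ≤ 2 ∧ ‖x.1 i - x.1 j‖ = P.K3 / lev k ^ 96) →
    ∃ k', k ≤ k' ∧ ∃ σ : Equiv.Perm (Fin 5), SI P D (lev k') (m ∘ σ) (rel σ x) := by
  obtain ⟨b0, hb0, hfacts⟩ := s3_facts (d := d) P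
  have hev := lev_tendsto.eventually_ge_atTop (max b0 (max (10 ^ 10 * P.M ^ 12) (10 * (P.R + 1))))
  obtain ⟨K, hK⟩ := Filter.eventually_atTop.mp hev
  refine ⟨K, fun k hk m hm x D hD0 hD hI h3 hF hpair => ?_⟩
  have hkb := hK k hk
  have h1 : b0 ≤ lev k := (le_max_left _ _).trans hkb
  have h2 : 10 ^ 10 * P.M ^ 12 ≤ lev k :=
    (le_max_left _ _).trans ((le_max_right _ _).trans hkb)
  have h4 : 10 * (P.R + 1) ≤ lev k :=
    (le_max_right _ _).trans ((le_max_right _ _).trans hkb)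
  have main : ∀ σ : Equiv.Perm (Fin 5), PT σ →
      ‖x.1 (σ 0) - x.1 (σ 1)‖ ≤ 9 * P.M ^ 2 / lev k ^ 200 →
      ∃ k', k ≤ k' ∧ ∃ σ : Equiv.Perm (Fin 5), SI P D (lev k') (m ∘ σ) (rel σ x) := by
    intro σ hσ hr
    have hm' := hm.rel σ
    have hI' := inv_rel σ hI
    have h3' := h3.rel hσ
    obtain ⟨f1, f2, f3, -, -, -⟩ := hfacts (lev k) h1 (m ∘ σ) hm' (rel σ x) hI' h3'
    have hF' : (1 - D) * lev k ^ 200 ≤ FT (m ∘ σ) (rel σ x) - P.L1 (lev k) := by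
      rw [FT_rel hσ]
      exact hF
    have hpair' : ∃ i j : Fin 5, i ≤ 2 ∧ j ≤ 2 ∧
        ‖(rel σ x).1 i - (rel σ x).1 j‖ = P.K3 / lev k ^ 96 := by
      obtain ⟨i, j, hi, hj, hij⟩ := hpair
      refine ⟨σ.symm i, σ.symm j, ?_, ?_, ?_⟩
      · rw [← hσ, Equiv.apply_symm_apply]
        exact hi
      · rw [← hσ, Equiv.apply_symm_apply]
        exact hj
      · simpa [rel] using hij
    obtain ⟨k', hkk, hSI⟩ := core P (one_le_lev k) h2 h4 rfl hm' hD0 hD hI' h3' hF' hpair' f1 f2 f3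
      (by simpa [rel] using hr)
    exact ⟨k', hkk, σ, hSI⟩
  obtain ⟨-, -, -, -, -, hc⟩ := hfacts (lev k) h1 m hm x hI h3
  rcases hc with hc | hc | hc
  · exact main 1 (by intro i; rfl) hc
  · exact main (Equiv.swap 1 2) (by unfold PT; decide) (by
      rw [Equiv.swap_apply_left, Equiv.swap_apply_of_ne_of_ne (by decide) (by decide)]
      exact hc)
  · exact main (Equiv.swap 0 2) (by unfold PT; decide) (by
      rw [Equiv.swap_apply_left, Equiv.swap_apply_of_ne_of_ne (by decide) (by decide), norm_sub_rev]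
      exact hc)

end NB5
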