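import Mathlib
import Pool.Agent.NB5.Defs
import Pool.Agent.NB5.RgC
import Pool.Agent.NB5.RelB
import Pool.Agent.NB5.T31

/-!
# The third linkage does not shrink (project NB5, module NB5-P5L)

Suppose `R3 t0 ≤ 1/(2 b^77)` (`b = lev k`), `R3 t := Rg 3 (γ t).1`. By `TG` at `t0`, `R3 t0 ≥ 1/(2 lev k' ^77)`
with `k' ≤ k`, so equality. As `R3 t1 ≥ 1/lev k1^77 ≥ 1/b^77`, there is a first time `tw ∈ (t0, t1]` with
`R3 tw = 1/b^77` (continuity), `R3 ≤ 1/b^77` on `[t0, tw]`. For `s` in this interval `TG` gives `k' ≤ k`,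
`σ` with `S1 ∨ S3` at the level `k'`, so `1/(2 lev k'^77) ≤ R3 s ≤ 1/b^77 ≤ 1/lev k'^77`: `lev k'^77 ≥ b^77/2` and
`gP P (lev k') (m ∘ σ) (rel σ (γ s)) = ofReal (lev k'^77 √Kin) ≥ ofReal ((b^77/2) √Kin)`, a term of
`G P m (γ s)`. `Rg_cross` with `c = b^77/2`: `∫ G ≥ c (1/(2 b^77))/√(8 M) = 1/(4 √(8M))`, against
`Cx.hG` if `ε0 = 1/(8 √(8 M))`.
-/

open MeasureTheory Set Filter Topology Metric
open scoped NNReal ENNReal RealInnerProductSpace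

namespace NB5

open HDN

variable {d : ℕ}

private theorem P5L_term (P : Par) {k : ℕ} (hk : P.k0 ≤ k) (σ : Equiv.Perm (Fin 5))
    (m : Fin 5 → ℝ) (x : St d) :
    gP P (lev k) (m ∘ σ) (rel σ x) + gD P (lev k) (m ∘ σ) (rel σ x) +
      gX P (lev k) (m ∘ σ) (rel σ x) ≤ G P m x := by
  unfold G
  refine le_trans ?_ (Finset.single_le_sum (f := fun s : Equiv.Perm (Fin 5) =>
    ((∑' k : ℕ, (gP P (lev (P.k0 + k)) (m ∘ s) (rel s x) +
      gD P (lev (P.k0 + k)) (m ∘ s) (rel s x) + gX P (lev (P.k0 + k)) (m ∘ s) (rel s x))) +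
      ∑' n : ℕ, gB n (m ∘ s) (rel s x))) (fun _ _ => zero_le) (Finset.mem_univ σ))
  refine le_trans ?_ le_self_add
  have h := ENNReal.le_tsum (f := fun k : ℕ => (gP P (lev (P.k0 + k)) (m ∘ σ) (rel σ x) +
      gD P (lev (P.k0 + k)) (m ∘ σ) (rel σ x) + gX P (lev (P.k0 + k)) (m ∘ σ) (rel σ x)))
      (k - P.k0)
  simp only [Nat.add_sub_cancel' hk] at h
  exact h

/-- each term is at most the weight -/
theorem gP_le_G (P : Par) {k : ℕ} (hk : P.k0 ≤ k) (σ : Equiv.Perm (Fin 5)) (m : Fin 5 → ℝ) (x : St d) :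
    gP P (lev k) (m ∘ σ) (rel σ x) ≤ G P m x := by
  refine le_trans ?_ (P5L_term P hk σ m x)
  exact le_self_add.trans le_self_add

theorem gD_le_G (P : Par) {k : ℕ} (hk : P.k0 ≤ k) (σ : Equiv.Perm (Fin 5)) (m : Fin 5 → ℝ) (x : St d) :
    gD P (lev k) (m ∘ σ) (rel σ x) ≤ G P m x := by
  refine le_trans ?_ (P5L_term P hk σ m x)
  exact le_add_self.trans le_self_add

theorem gX_le_G (P : Par) {k : ℕ} (hk : P.k0 ≤ k) (σ : Equiv.Perm (Fin 5)) (m : Fin 5 → ℝ) (x : St d) :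
    gX P (lev k) (m ∘ σ) (rel σ x) ≤ G P m x := by
  refine le_trans ?_ (P5L_term P hk σ m x)
  exact le_add_self

theorem gB_le_G (P : Par) (n : ℕ) (σ : Equiv.Perm (Fin 5)) (m : Fin 5 → ℝ) (x : St d) :
    gB n (m ∘ σ) (rel σ x) ≤ G P m x := by
  unfold G
  refine le_trans ?_ (Finset.single_le_sum (f := fun s : Equiv.Perm (Fin 5) =>
    ((∑' k : ℕ, (gP P (lev (P.k0 + k)) (m ∘ s) (rel s x) +
      gD P (lev (P.k0 + k)) (m ∘ s) (rel s x) + gX P (lev (P.k0 + k)) (m ∘ s) (rel s x))) +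
      ∑' n : ℕ, gB n (m ∘ s) (rel s x))) (fun _ _ => zero_le) (Finset.mem_univ σ))
  refine le_trans ?_ le_add_self
  exact ENNReal.le_tsum (f := fun n : ℕ => gB n (m ∘ σ) (rel σ x)) n

theorem p5 (P : Par) : ∃ ε0 > 0, ∀ ε ≤ ε0, ∀ (m : Fin 5 → ℝ) (γ : ℝ → St d) (τ T : ℝ),
    Cx P ε m γ τ T → ∀ (t0 t1 : ℝ) (k1 k : ℕ), P.k0 ≤ k1 → τ ≤ t0 → t0 ≤ t1 → t1 < T → k1 ≤ k →
    TG P m γ t0 t1 k1 k → 1 / lev k1 ^ 77 ≤ Rg 3 (γ t1).1 →
    1 / (2 * lev k ^ 77) < Rg 3 (γ t0).1 := by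
  have hM := P.hM
  have hs8 : 0 < √(8 * P.M) := Real.sqrt_pos.2 (by linarith)
  refine ⟨1 / (8 * √(8 * P.M)), by positivity, ?_⟩
  intro ε hε m γ τ T hC t0 t1 k1 k _ h0 h01 h1 hk1 hTG hR1
  by_contra hcon
  have hR0 := not_lt.1 hcon
  have hb1 : (1 : ℝ) ≤ lev k := one_le_lev k
  have hb0 : (0 : ℝ) < lev k := by linarith
  have hb77 : (0 : ℝ) < lev k ^ 77 := pow_pos hb0 _
  have hsub : Icc t0 t1 ⊆ Ico τ T := fun t ht => ⟨h0.trans ht.1, lt_of_le_of_lt ht.2 h1⟩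
  have hcont : ContinuousOn (fun t => Rg 3 (γ t).1) (Icc t0 t1) := by
    intro t ht
    have hd := (hC.sol t (hsub ht)).2.continuousAt
    have h3 : ContinuousAt (fun t => Rg 3 (γ t).1) t :=
      ((continuous_Rg (k := 3) (by norm_num) (by norm_num)).comp continuous_fst).continuousAt.comp hd
    exact h3.continuousWithinAt
  have hlev : ∀ {a b : ℕ}, a ≤ b → 1 / lev b ^ 77 ≤ 1 / lev a ^ 77 := by
    intro a b hab
    have ha0 : (0 : ℝ) < lev a := lt_of_lt_of_le one_pos (one_le_lev a)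
    exact one_div_le_one_div_of_le (pow_pos ha0 _)
      (pow_le_pow_left₀ ha0.le (lev_mono hab) _)
  have hR1' : 1 / lev k ^ 77 ≤ Rg 3 (γ t1).1 := (hlev hk1).trans hR1
  -- first crossing time
  obtain ⟨tw, htw, hRw, hbelow⟩ : ∃ tw ∈ Icc t0 t1, Rg 3 (γ tw).1 = 1 / lev k ^ 77 ∧
      ∀ u ∈ Icc t0 tw, Rg 3 (γ u).1 ≤ 1 / lev k ^ 77 := by
    set S : Set ℝ := Icc t0 t1 ∩ (fun t => Rg 3 (γ t).1) ⁻¹' (Ici (1 / lev k ^ 77)) with hS
    have hSc : IsClosed S := hcont.preimage_isClosed_of_isClosed isClosed_Icc isClosed_Ici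
    have hSn : S.Nonempty := ⟨t1, ⟨h01, le_rfl⟩, hR1'⟩
    have hSb : BddBelow S := ⟨t0, fun t ht => ht.1.1⟩
    have hmem : sInf S ∈ S := hSc.csInf_mem hSn hSb
    have hR00 : Rg 3 (γ t0).1 ≤ 1 / lev k ^ 77 := by
      refine hR0.trans ?_
      exact one_div_le_one_div_of_le hb77 (by linarith)
    have hcont2 : ContinuousOn (fun t => Rg 3 (γ t).1) (Icc t0 (sInf S)) :=
      hcont.mono (Icc_subset_Icc le_rfl hmem.1.2)
    obtain ⟨u, hu, hu2⟩ := intermediate_value_Icc hmem.1.1 hcont2 ⟨hR00, hmem.2⟩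
    have hu3 : u ∈ S := ⟨⟨hu.1, hu.2.trans hmem.1.2⟩, ge_of_eq hu2⟩
    have hu4 : u = sInf S := le_antisymm hu.2 (csInf_le hSb hu3)
    refine ⟨sInf S, hmem.1, ?_, ?_⟩
    · rw [← hu4]
      exact hu2
    · intro v hv
      rcases eq_or_lt_of_le hv.2 with e | hlt
      · rw [e, ← hu4]
        exact le_of_eq hu2
      · by_contra hc
        have hv2 : v ∈ S := ⟨⟨hv.1, hv.2.trans hmem.1.2⟩, (not_le.1 hc).le⟩
        exact absurd (csInf_le hSb hv2) (not_le.2 hlt)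
  have hsub2 : Icc t0 tw ⊆ Ico τ T :=
    fun t ht => hsub ⟨ht.1, ht.2.trans htw.2⟩
  have hgu : ∀ u ∈ Icc t0 tw,
      ENNReal.ofReal (lev k ^ 77 / 2 * √(Kin m (γ u).2)) ≤ G P m (γ u) := by
    intro u hu
    obtain ⟨k', hk1', hk', σ, hσ⟩ := hTG u ⟨hu.1, hu.2.trans htw.2⟩
    have hc0 : (0 : ℝ) < lev k' := lt_of_lt_of_le one_pos (one_le_lev k')
    have hc77 : (0 : ℝ) < lev k' ^ 77 := pow_pos hc0 _
    have hRr : Rg 3 (rel σ (γ u)).1 = Rg 3 (γ u).1 := Rg_rel σ (γ u).1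
    have hR3 : 1 / (2 * lev k' ^ 77) ≤ Rg 3 (γ u).1 := by
      rw [← hRr]
      rcases hσ with h | h
      · exact h.R3
      · exact h.R3
    have hRu := hbelow u hu
    have hb2 : lev k ^ 77 / 2 ≤ lev k' ^ 77 := by
      have h5 : 1 / (2 * lev k' ^ 77) ≤ 1 / lev k ^ 77 := hR3.trans hRu
      rw [one_div_le_one_div (by positivity) hb77] at h5
      linarith
    have hkk : P.k0 ≤ k' := by omega
    refine le_trans ?_ (gP_le_G P hkk σ m (γ u))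
    unfold gP onSet
    rw [if_pos ⟨hσ, by rw [hRr]; exact hRu.trans (hlev hk')⟩]
    refine ENNReal.ofReal_le_ofReal ?_
    have hK : Kin (m ∘ σ) (rel σ (γ u)).2 = Kin m (γ u).2 := kin_rel σ (γ u).2
    rw [hK]
    exact mul_le_mul_of_nonneg_right hb2 (Real.sqrt_nonneg _)
  have hcross := Rg_cross hC.hm (k := 3) (by norm_num) (by norm_num) (γ := γ) (s := t0) (t := tw)
    (c := lev k ^ 77 / 2) htw.1 (fun t ht => hC.sol t (hsub2 ht)) (by positivity)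
    (g := fun u => G P m (γ u)) hgu
  have hle : ENNReal.ofReal (lev k ^ 77 / 2 * |Rg 3 (γ tw).1 - Rg 3 (γ t0).1| / √(8 * P.M)) ≤
      ENNReal.ofReal ε :=
    hcross.trans ((lintegral_mono_set hsub2).trans hC.hG)
  have hdiff : 1 / (2 * lev k ^ 77) ≤ |Rg 3 (γ tw).1 - Rg 3 (γ t0).1| := by
    refine le_trans ?_ (le_abs_self _)
    rw [hRw]
    have e : 1 / lev k ^ 77 = 1 / (2 * lev k ^ 77) + 1 / (2 * lev k ^ 77) := by
      field_simp
      norm_num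
    rw [e]
    linarith
  have h14 : 1 / (4 * √(8 * P.M)) ≤
      lev k ^ 77 / 2 * |Rg 3 (γ tw).1 - Rg 3 (γ t0).1| / √(8 * P.M) := by
    have h6 : (1 : ℝ) / 4 ≤ lev k ^ 77 / 2 * |Rg 3 (γ tw).1 - Rg 3 (γ t0).1| := by
      have h7 := mul_le_mul_of_nonneg_left hdiff (by positivity : (0 : ℝ) ≤ lev k ^ 77 / 2)
      have e : lev k ^ 77 / 2 * (1 / (2 * lev k ^ 77)) = 1 / 4 := by
        field_simp
        norm_num
      linarith
    rw [one_div, mul_inv, ← one_div, ← div_eq_mul_inv]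
    exact div_le_div_of_nonneg_right h6 hs8.le
  have hpos : (0 : ℝ) < 1 / (4 * √(8 * P.M)) := by positivity
  rcases (ENNReal.ofReal_le_ofReal_iff').1 hle with h | h
  · have h8 : 1 / (4 * √(8 * P.M)) ≤ 1 / (8 * √(8 * P.M)) := h14.trans (h.trans hε)
    rw [one_div_le_one_div (by positivity) (by positivity)] at h8
    nlinarith
  · linarith

end NB5
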