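import Mathlib
import Pool.Agent.NB5.Defs
import Pool.Agent.NB5.RgC
import Pool.Agent.NB5.RelB
import Pool.Agent.NB5.P5L

/-!
# Crossing times outside of the bad sets (project NB5, module NB5-StA)

Let `ρ = 1/cn n^20` (`cn n^20 = 2^n`). `Rg 4` is positive and continuous along `γ`; for `n` with
`2 ρ < Rg 4 (γ τ).1` there is (by `Cx.lim` and the intermediate value theorem) an interval
`[s1, s2] ⊆ (τ, T)` with `Rg 4 = 2 ρ` at `s1`, `= ρ` at `s2`, `ρ ≤ Rg 4 ≤ 2 ρ` in between. If every state in it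
is in `BadT` or `BadP` for some relabelling, `gB_le_G` and `Rg_cross` (`c = cn n^20 = 1/ρ`) give
`∫ G ≥ 1/√(8 M)`, against `Cx.hG` if `ε0 = 1/(2 √(8 M))`.
-/

open MeasureTheory Set Filter Topology Metric
open scoped NNReal ENNReal RealInnerProductSpace

namespace NB5

open HDN

variable {d : ℕ}

private theorem sta_cross {f : ℝ → ℝ} {a b ρ : ℝ} (hab : a ≤ b) (hf : ContinuousOn f (Icc a b))
    (ha : 2 * ρ < f a) (hb : f b < ρ) (hρ : 0 < ρ) :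
    ∃ s1 s2, a < s1 ∧ s1 ≤ s2 ∧ s2 ≤ b ∧ f s1 = 2 * ρ ∧ f s2 = ρ ∧
      ∀ u ∈ Icc s1 s2, ρ ≤ f u ∧ f u ≤ 2 * ρ := by
  have hK1 : IsCompact (Icc a b ∩ f ⁻¹' Ici (2 * ρ)) :=
    isCompact_Icc.of_isClosed_subset (hf.preimage_isClosed_of_isClosed isClosed_Icc isClosed_Ici)
      inter_subset_left
  obtain ⟨s1, hs1, hs1g⟩ := hK1.exists_isGreatest ⟨a, left_mem_Icc.2 hab, ha.le⟩
  have h1 : 2 * ρ ≤ f s1 := hs1.2
  have h2 : ∀ t, s1 < t → t ≤ b → f t < 2 * ρ := by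
    intro t h3 h4
    by_contra h5
    exact absurd (hs1g ⟨⟨hs1.1.1.trans h3.le, h4⟩, not_lt.1 h5⟩) (not_le.2 h3)
  have hf1 : ContinuousOn f (Icc s1 b) := hf.mono (Icc_subset_Icc_left hs1.1.1)
  have h3 : f s1 = 2 * ρ := by
    refine le_antisymm ?_ h1
    by_contra h4
    have h5 : (2 * ρ) ∈ Icc (f b) (f s1) := ⟨by linarith, h1⟩
    obtain ⟨t, ht, hte⟩ := intermediate_value_Icc' hs1.1.2 hf1 h5
    have h6 : s1 ≠ t := by
      intro h7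
      rw [h7] at h4
      exact h4 hte.le
    exact absurd hte (h2 t (lt_of_le_of_ne ht.1 h6) ht.2).ne
  have hK2 : IsCompact (Icc s1 b ∩ f ⁻¹' Iic ρ) :=
    isCompact_Icc.of_isClosed_subset (hf1.preimage_isClosed_of_isClosed isClosed_Icc isClosed_Iic)
      inter_subset_left
  obtain ⟨s2, hs2, hs2l⟩ := hK2.exists_isLeast ⟨b, right_mem_Icc.2 hs1.1.2, hb.le⟩
  have h4 : f s2 ≤ ρ := hs2.2
  have h5 : ∀ t, s1 ≤ t → t < s2 → ρ < f t := by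
    intro t h6 h7
    by_contra h8
    exact absurd (hs2l ⟨⟨h6, h7.le.trans hs2.1.2⟩, not_lt.1 h8⟩) (not_le.2 h7)
  have h6 : f s2 = ρ := by
    refine le_antisymm h4 ?_
    by_contra h7
    have h8 : ρ ∈ Icc (f s2) (f s1) := ⟨h4, by linarith⟩
    obtain ⟨t, ht, hte⟩ := intermediate_value_Icc' hs2.1.1
      (hf1.mono (Icc_subset_Icc_right hs2.1.2)) h8
    have h9 : t ≠ s2 := by
      intro h10
      rw [← h10] at h7
      exact h7 hte.ge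
    exact absurd hte (h5 t ht.1 (lt_of_le_of_ne ht.2 h9)).ne'
  refine ⟨s1, s2, ?_, hs2.1.1, hs2.1.2, h3, h6, ?_⟩
  · refine lt_of_le_of_ne hs1.1.1 ?_
    intro h7
    rw [← h7] at h3
    exact absurd h3 ha.ne'
  · intro u hu
    constructor
    · rcases eq_or_lt_of_le hu.2 with h7 | h7
      · rw [h7, h6]
      · exact (h5 u hu.1 h7).le
    · rcases eq_or_lt_of_le hu.1 with h7 | h7
      · rw [← h7, h3]
      · exact (h2 u h7 (hu.2.trans hs2.1.2)).le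

private theorem sta_cn (n : ℕ) : cn n ^ 20 = (2 : ℝ) ^ n := by
  unfold cn
  rw [← Real.rpow_natCast ((2 : ℝ) ^ ((n : ℝ) / 20)) 20, ← Real.rpow_mul (by norm_num),
    ← Real.rpow_natCast]
  congr 1
  push_cast
  ring

theorem start_cross (P : Par) : ∃ ε0 > 0, ∀ ε ≤ ε0,
    ∀ (m : Fin 5 → ℝ) (γ : ℝ → St d) (τ T : ℝ), Cx P ε m γ τ T →
    ∃ n0 : ℕ, ∀ n ≥ n0, ∃ t1 ∈ Ioo τ T, 1 / cn n ^ 20 ≤ Rg 4 (γ t1).1 ∧
      Rg 4 (γ t1).1 ≤ 2 / cn n ^ 20 ∧ ∀ σ : Equiv.Perm (Fin 5),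
        ¬ BadT n (m ∘ σ) (rel σ (γ t1)) ∧ ¬ BadP n (m ∘ σ) (rel σ (γ t1)) := by
  have hM : 0 < P.M := lt_of_lt_of_le one_pos P.hM
  have hκ : 0 < √(8 * P.M) := Real.sqrt_pos.2 (by positivity)
  refine ⟨1 / (2 * √(8 * P.M)), by positivity, ?_⟩
  intro ε hε m γ τ T hx
  have hpos : 0 < Rg 4 (γ τ).1 :=
    Rg_pos (by norm_num) (by norm_num) (hx.sol τ ⟨le_rfl, hx.hτ⟩).1
  obtain ⟨n0, hn0⟩ := exists_pow_lt_of_lt_one (show 0 < Rg 4 (γ τ).1 / 2 by positivity)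
    (show (1 / 2 : ℝ) < 1 by norm_num)
  refine ⟨n0, fun n hn => ?_⟩
  have hcn : cn n ^ 20 = (2 : ℝ) ^ n := sta_cn n
  rw [hcn]
  have hcpos : (0 : ℝ) < 2 ^ n := by positivity
  set ρ : ℝ := 1 / 2 ^ n with hρ
  have hρ0 : 0 < ρ := by positivity
  have hρ1 : 2 * ρ < Rg 4 (γ τ).1 := by
    have h1 : ρ ≤ (1 / 2 : ℝ) ^ n0 := by
      rw [hρ, ← one_div_pow]
      exact pow_le_pow_of_le_one (by norm_num) (by norm_num) hn
    linarith
  obtain ⟨t2, ht2, ht2l⟩ := hx.lim ρ hρ0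
  have hcont : ContinuousOn (fun t => Rg 4 (γ t).1) (Icc τ t2) := by
    intro t ht
    have h1 : ContinuousAt γ t := (hx.sol t ⟨ht.1, lt_of_le_of_lt ht.2 ht2.2⟩).2.continuousAt
    have h2 : ContinuousAt (fun t => (γ t).1) t := continuousAt_fst.comp h1
    exact ((continuous_Rg (by norm_num) (by norm_num)).continuousAt.comp h2).continuousWithinAt
  obtain ⟨s1, s2, h1, h2, h3, h4, h5, h6⟩ := sta_cross ht2.1 hcont hρ1 ht2l hρ0
  have h2ρ : (2 : ℝ) / 2 ^ n = 2 * ρ := by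
    rw [hρ]
    ring
  by_contra hcon
  push Not at hcon
  have hbad : ∀ u ∈ Icc s1 s2, ∃ σ : Equiv.Perm (Fin 5),
      BadT n (m ∘ σ) (rel σ (γ u)) ∨ BadP n (m ∘ σ) (rel σ (γ u)) := by
    intro u hu
    obtain ⟨h7, h8⟩ := h6 u hu
    obtain ⟨σ, hσ⟩ := hcon u ⟨lt_of_lt_of_le h1 hu.1, lt_of_le_of_lt (hu.2.trans h3) ht2.2⟩ h7
      (by rw [h2ρ]; exact h8)
    refine ⟨σ, ?_⟩
    by_cases h9 : BadT n (m ∘ σ) (rel σ (γ u))
    · exact Or.inl h9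
    · exact Or.inr (hσ h9)
  have hsub : Icc s1 s2 ⊆ Ico τ T := fun u hu =>
    ⟨h1.le.trans hu.1, lt_of_le_of_lt (hu.2.trans h3) ht2.2⟩
  have hsol : SolOn (nfield m) (FreeSet 5 d) γ (Icc s1 s2) := fun t ht => hx.sol t (hsub ht)
  have hg : ∀ u ∈ Icc s1 s2, ENNReal.ofReal (2 ^ n * √(Kin m (γ u).2)) ≤ G P m (γ u) := by
    intro u hu
    obtain ⟨σ, hσ⟩ := hbad u hu
    refine le_trans ?_ (gB_le_G P n σ m (γ u))
    unfold gB onSet
    rw [if_pos hσ, hcn]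
    have h7 : Kin (m ∘ σ) (rel σ (γ u)).2 = Kin m (γ u).2 := kin_rel σ _
    rw [h7]
  have h7 := Rg_cross hx.hm (k := 4) (by norm_num) (by norm_num) h2 hsol hcpos hg
  have h8 : (2 : ℝ) ^ n * |Rg 4 (γ s2).1 - Rg 4 (γ s1).1| / √(8 * P.M) = 1 / √(8 * P.M) := by
    have h9 : Rg 4 (γ s2).1 - Rg 4 (γ s1).1 = -ρ := by
      have h10 : Rg 4 (γ s1).1 = 2 * ρ := h4
      have h11 : Rg 4 (γ s2).1 = ρ := h5
      rw [h10, h11]
      ring
    rw [h9, abs_neg, abs_of_pos hρ0, hρ, mul_one_div_cancel hcpos.ne']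
  rw [h8] at h7
  have h9 : ENNReal.ofReal (1 / √(8 * P.M)) ≤ ENNReal.ofReal ε :=
    h7.trans ((lintegral_mono_set hsub).trans hx.hG)
  have h10 : (0 : ℝ) < 1 / √(8 * P.M) := by positivity
  have h11 : 1 / √(8 * P.M) ≤ ε := by
    by_contra h12
    push Not at h12
    exact absurd h9 (not_le.2 ((ENNReal.ofReal_lt_ofReal_iff h10).2 h12))
  have h12 : 1 / (2 * √(8 * P.M)) = (1 / √(8 * P.M)) / 2 := by
    field_simp
  rw [h12] at hε
  linarith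

end NB5
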