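import Mathlib
import Pool.Agent.NB5.Defs
import Pool.Agent.NB5.RgB
import Pool.Agent.NB5.HamSplit
import Pool.Agent.NB5.T31

/-!
# The start, case of a fast third body (project NB5, module NB5-StB)

`StOK`: strict mode I or entry of mode III at a level `k1 ≥ K`, with `Rg 3 ≥ 1/lev k1^77`.
`start_fast`: `c = cn n`, `ρ = 1/c^20`. All distances except `‖q 0 - q 1‖` are `≥ ρ` (`Rg4_far`). `Kin ≥ KQ ≥ c^43`
and `Kin - Pot = Ham`, `Pot ≤ 10 M^2/‖q 0 - q 1‖`, so `r = ‖q 0 - q 1‖ ≤ 11 M^2/KQ ≤ 11 M^2 c^(-43)`, so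
`‖x_j‖ ≥ ρ/2`, `UQ ≤ 15 M^2 c^20 ≤ KQ/100`, `0.99 KQ ≤ FQ ≤ KQ`. `|tauQ| ≤ 1`, so `m 0 m 1/r ≥ FQ/1.01`. Let `k'`
be the largest with `lev k'^200 ≤ FQ`; so `FQ ≤ 4 lev k'^200` and `k - 1 ≤ k' ≤ k` for the `k` with
`lev k^200 ≤ KQ < 4 lev k^200`. `SI P 0 (lev k') m x`: `x_ge`, `h_ge` vacuous since
`ρ/2 > K2/lev k'^96` (`lev k'^200 ≥ c^43/5` so `lev k'^96 ≥ c^20.6/5`), `hard`: `hp ≥ -M^2 c^20`, `Rg 3` by hypothesis:
`1/lev k'^77 ≤ 2^0.77/lev k^77 ≤ 2/lev k^77`.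
-/

open MeasureTheory Set Filter Topology Metric
open scoped NNReal ENNReal RealInnerProductSpace

namespace NB5

open HDN

variable {d : ℕ}

/-- the state `x` is a start of the tracing at a level at least `K` -/
def StOK (P : Par) (K : ℕ) (m : Fin 5 → ℝ) (x : St d) : Prop :=
  ∃ k1, K ≤ k1 ∧ 1 / lev k1 ^ 77 ≤ Rg 3 x.1 ∧ ∃ σ : Equiv.Perm (Fin 5),
    SI P 0 (lev k1) (m ∘ σ) (rel σ x) ∨ SIII P 0 (lev k1) (m ∘ σ) (rel σ x)

theorem cn_pow (n : ℕ) : cn n ^ 20 = 2 ^ n := by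
  unfold cn
  rw [← Real.rpow_natCast, ← Real.rpow_mul (by norm_num), ← Real.rpow_natCast 2 n]
  congr 1
  push_cast
  ring

theorem one_le_cn (n : ℕ) : 1 ≤ cn n := by
  unfold cn
  exact Real.one_le_rpow (by norm_num) (by positivity)

theorem cn_tendsto : Tendsto cn atTop atTop := by
  have h1 : Tendsto (fun n : ℕ => Real.log 2 * ((n : ℝ) / 20)) atTop atTop :=
    (tendsto_natCast_atTop_atTop.atTop_div_const (by norm_num)).const_mul_atTop
      (Real.log_pos (by norm_num))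
  have h2 := Real.tendsto_exp_atTop.comp h1
  refine h2.congr fun n => ?_
  simp only [Function.comp_apply, cn]
  rw [Real.rpow_def_of_pos (by norm_num)]

/-- a level for a number at least one -/
theorem exists_lev {F : ℝ} (hF : 1 ≤ F) : ∃ k, lev k ^ 200 ≤ F ∧ F < 4 * lev k ^ 200 := by
  obtain ⟨k, h1, h2⟩ := exists_nat_pow_near hF (show (1 : ℝ) < 4 by norm_num)
  refine ⟨k, ?_, ?_⟩
  · rw [lev_pow_twohundred]
    exact h1
  · rw [lev_pow_twohundred]
    rw [pow_succ] at h2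
    linarith

/-- two neighbouring levels -/
theorem lev_succ_pow (k : ℕ) : lev (k + 1) ^ 77 ≤ 2 * lev k ^ 77 ∧
    lev (k + 1) ^ 96 ≤ 2 * lev k ^ 96 ∧ lev (k + 1) ^ 200 = 4 * lev k ^ 200 := by
  have key : ∀ j : ℕ, j ≤ 100 → lev (k + 1) ^ j ≤ 2 * lev k ^ j := by
    intro j hj
    unfold lev
    rw [← Real.rpow_natCast, ← Real.rpow_mul (by norm_num), ← Real.rpow_natCast _ j,
      ← Real.rpow_mul (by norm_num)]
    have h2 : (2 : ℝ) * 2 ^ ((k : ℝ) / 100 * (j : ℝ)) = 2 ^ (1 + (k : ℝ) / 100 * (j : ℝ)) := by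
      rw [Real.rpow_add (by norm_num), Real.rpow_one]
    rw [h2]
    refine Real.rpow_le_rpow_of_exponent_le (by norm_num) ?_
    push_cast
    have : (j : ℝ) ≤ 100 := by exact_mod_cast hj
    nlinarith
  refine ⟨key 77 (by norm_num), key 96 (by norm_num), ?_⟩
  rw [lev_pow_twohundred, lev_pow_twohundred, pow_succ]
  ring

private theorem pair_cm_le {m : Fin 5 → ℝ} (hm : ∀ i, 0 < m i) (q : Cf 5 d) :
    ‖q 0 - cm m 0 1 q‖ ≤ ‖q 0 - q 1‖ := by
  have h0 := hm 0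
  have h1 := hm 1
  have e : q 0 - cm m 0 1 q = (m 1 / (m 0 + m 1)) • (q 0 - q 1) := by
    unfold cm
    have h2 : m 0 + m 1 ≠ 0 := by positivity
    have h3 : q 0 = (m 0 + m 1)⁻¹ • ((m 0 + m 1) • q 0) := by
      rw [smul_smul, inv_mul_cancel₀ h2, one_smul]
    conv_lhs => rw [h3]
    rw [← smul_sub, div_eq_inv_mul, ← smul_smul]
    congr 1
    conv_lhs => rw [← h3]
    rw [add_smul, smul_sub]
    abel
  rw [e, norm_smul, Real.norm_of_nonneg (by positivity)]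
  have : m 1 / (m 0 + m 1) ≤ 1 := by
    rw [div_le_one (by positivity)]
    linarith
  nlinarith [norm_nonneg (q 0 - q 1)]

private theorem div_pair_le {M a b r s : ℝ} (ha : 0 < a) (haM : a ≤ M) (hb : 0 < b) (hbM : b ≤ M)
    (hr : 0 < r) (hrs : r ≤ s) : a * b / s ≤ M ^ 2 / r := by
  have h1 : a * b ≤ M ^ 2 := by
    rw [sq]
    exact mul_le_mul haM hbM hb.le (ha.le.trans haM)
  have h2 : 0 < s := hr.trans_le hrs
  exact div_le_div₀ (by positivity) h1 hr hrs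

theorem start_fast (P : Par) (K : ℕ) : ∃ n0 : ℕ, ∀ n ≥ n0, ∀ m : Fin 5 → ℝ, Mb P.M m →
    ∀ x : St d, x ∈ Inv m P.R → Closest x.1 → 1 / cn n ^ 20 ≤ Rg 4 x.1 →
    cn n ^ 43 ≤ KQ m x.2 →
    (∀ k, lev k ^ 200 ≤ KQ m x.2 → KQ m x.2 < 4 * lev k ^ 200 → 2 / lev k ^ 77 ≤ Rg 3 x.1) →
    StOK P K m x := by
  have hM1 := P.hM
  have hR1 := P.hR
  obtain ⟨n0, hn0⟩ := (cn_tendsto.eventually_ge_atTop (100 * P.R + 1500 * P.M ^ 2 +
    58080 * P.M ^ 6 + (2 * P.K2) ^ 25 * 5 ^ 12 + 4 ^ (K + 2) + 100)).exists_forall_of_atTop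
  refine ⟨n0, ?_⟩
  intro n hn m hMb x hx hcl hR4 hKQ hR3
  have hc0 := hn0 n hn
  have hc1 := one_le_cn n
  set c := cn n with hcdef
  set M := P.M with hMdef
  set R := P.R with hRdef
  have hK2 : 32 ≤ P.K2 := by
    unfold Par.K2
    have : (1 : ℝ) ≤ P.M ^ 4 := one_le_pow₀ P.hM
    nlinarith
  have hm : ∀ i, 0 < m i := fun i => hMb.pos i
  have hmM : ∀ i, m i ≤ M := fun i => (hMb.2 i).2
  have hcpos : 0 < c := by linarith
  have hM2 : 1 ≤ M ^ 2 := one_le_pow₀ hM1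
  have hM6 : 1 ≤ M ^ 6 := one_le_pow₀ hM1
  have hK25 : 0 < (2 * P.K2) ^ 25 * 5 ^ 12 := by positivity
  have h4K : (0 : ℝ) < 4 ^ (K + 2) := by positivity
  have hcR : 100 * R ≤ c := by nlinarith
  have hcM : 1500 * M ^ 2 ≤ c := by nlinarith
  have hcM6 : 58080 * M ^ 6 ≤ c := by nlinarith
  have hcK2 : (2 * P.K2) ^ 25 * 5 ^ 12 ≤ c := by nlinarith
  have hc4 : (4 : ℝ) ^ (K + 2) ≤ c := by nlinarith
  have hc100 : 100 ≤ c := by nlinarith
  have hpw : ∀ j : ℕ, j ≠ 0 → c ≤ c ^ j := fun j hj => le_self_pow₀ hc1 hj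
  obtain ⟨hfree, hHam, -, -, -, -⟩ := hx
  set r := ‖x.1 0 - x.1 1‖ with hrdef
  have hr0 : 0 < r := by
    rw [hrdef, norm_pos_iff, sub_ne_zero]
    exact hfree 0 1 (by decide)
  -- distances
  have hfar : ∀ i j : Fin 5, i ≠ j → ¬ (i ≤ 1 ∧ j ≤ 1) → 1 / c ^ 20 ≤ ‖x.1 i - x.1 j‖ :=
    fun i j h1 h2 => hR4.trans (Rg4_far hcl h1 h2)
  have hρ : 0 < 1 / c ^ 20 := by positivity
  -- the potential
  have hpot : Pot m x.1 ≤ 10 * M ^ 2 / r := by
    rw [pot_pairs]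
    have key : ∀ i j : Fin 5, i ≠ j → m i * m j / ‖x.1 i - x.1 j‖ ≤ M ^ 2 / r := fun i j hij =>
      div_pair_le (hm i) (hmM i) (hm j) (hmM j) hr0 (hcl i j hij)
    have k1 := key 0 1 (by decide)
    have k2 := key 0 2 (by decide)
    have k3 := key 0 3 (by decide)
    have k4 := key 0 4 (by decide)
    have k5 := key 1 2 (by decide)
    have k6 := key 1 3 (by decide)
    have k7 := key 1 4 (by decide)
    have k8 := key 2 3 (by decide)
    have k9 := key 2 4 (by decide)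
    have k10 := key 3 4 (by decide)
    have e : 10 * M ^ 2 / r = 10 * (M ^ 2 / r) := by ring
    rw [e]
    linarith
  have hKin := (k_mono hm x.2).2.2
  have hHam2 : Ham m x = Kin m x.2 - Pot m x.1 := rfl
  have hH1 := abs_le.1 hHam
  have hc43 : c ≤ c ^ 43 := hpw 43 (by norm_num)
  have hKQ1 : 100 * R ≤ KQ m x.2 := by linarith
  have hKQpos : 0 < KQ m x.2 := by linarith
  have hr1 : r * KQ m x.2 ≤ 11 * M ^ 2 := by
    have h1 : KQ m x.2 - R ≤ 10 * M ^ 2 / r := by linarith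
    rw [le_div_iff₀ hr0] at h1
    nlinarith
  have hr2 : r * c ^ 43 ≤ 11 * M ^ 2 := by
    have : r * c ^ 43 ≤ r * KQ m x.2 := by gcongr
    linarith
  have hc23 : c ≤ c ^ 23 := hpw 23 (by norm_num)
  have hr3 : 8 * r ≤ 1 / c ^ 20 := by
    rw [le_div_iff₀ (by positivity)]
    have h1 : r * c ^ 20 * c ^ 23 ≤ 11 * M ^ 2 := by
      have : r * c ^ 20 * c ^ 23 = r * c ^ 43 := by ring
      linarith
    have h2 : r * c ^ 20 * (1500 * M ^ 2) ≤ r * c ^ 20 * c ^ 23 := by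
      gcongr
      linarith
    have h3 : (r * c ^ 20 * 1500) * M ^ 2 ≤ 11 * M ^ 2 := by
      have : (r * c ^ 20 * 1500) * M ^ 2 = r * c ^ 20 * (1500 * M ^ 2) := by ring
      linarith
    have h4 : r * c ^ 20 * 1500 ≤ 11 := le_of_mul_le_mul_right h3 (by positivity)
    linarith
  have hcm := pair_cm_le hm x.1
  have hxj : ∀ j : Fin 5, 2 ≤ j → 1 / (2 * c ^ 20) ≤ ‖x.1 j - cm m 0 1 x.1‖ := by
    intro j hj
    have h1 : 1 / c ^ 20 ≤ ‖x.1 j - x.1 0‖ := by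
      refine hfar j 0 ?_ ?_
      · rintro rfl
        exact absurd hj (by decide)
      · rintro ⟨h, -⟩
        exact absurd (hj.trans h) (by decide)
    have h2 : ‖x.1 j - x.1 0‖ ≤ ‖x.1 j - cm m 0 1 x.1‖ + ‖x.1 0 - cm m 0 1 x.1‖ := by
      have : x.1 j - x.1 0 = (x.1 j - cm m 0 1 x.1) - (x.1 0 - cm m 0 1 x.1) := by abel
      rw [this]
      exact norm_sub_le _ _
    have e : 1 / (2 * c ^ 20) = (1 / c ^ 20) / 2 := by
      field_simp
    rw [e]
    linarith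
  have hxj0 : ∀ j : Fin 5, 2 ≤ j → 0 < ‖x.1 j - cm m 0 1 x.1‖ := fun j hj =>
    lt_of_lt_of_le (by positivity) (hxj j hj)
  -- UQ
  have hUQ : UQ m x.1 ≤ 15 * M ^ 2 * c ^ 20 := by
    unfold UQ
    have k1 : ∀ j : Fin 5, 2 ≤ j →
        (m 0 + m 1) * m j / ‖x.1 j - cm m 0 1 x.1‖ ≤ 4 * M ^ 2 * c ^ 20 := by
      intro j hj
      rw [div_le_iff₀ (hxj0 j hj)]
      have h1 : (m 0 + m 1) * m j ≤ 2 * M ^ 2 := by
        have := hmM 0
        have := hmM 1
        have := hmM j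
        have := hm 0
        have := hm 1
        have := hm j
        nlinarith
      have h2 : 4 * M ^ 2 * c ^ 20 * (1 / (2 * c ^ 20)) ≤
          4 * M ^ 2 * c ^ 20 * ‖x.1 j - cm m 0 1 x.1‖ := by
        gcongr
        exact hxj j hj
      have h3 : 4 * M ^ 2 * c ^ 20 * (1 / (2 * c ^ 20)) = 2 * M ^ 2 := by
        field_simp
        ring
      linarith
    have k2 : ∀ i j : Fin 5, 2 ≤ i → i ≠ j → m i * m j / ‖x.1 i - x.1 j‖ ≤ M ^ 2 * c ^ 20 := by
      intro i j hi hij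
      have h := div_pair_le (hm i) (hmM i) (hm j) (hmM j) hρ (hfar i j hij (by
        rintro ⟨h, -⟩
        exact absurd (hi.trans h) (by decide)))
      have e : M ^ 2 / (1 / c ^ 20) = M ^ 2 * c ^ 20 := by
        field_simp
      linarith
    have a1 := k1 2 (by decide)
    have a2 := k1 3 (by decide)
    have a3 := k1 4 (by decide)
    have a4 := k2 2 3 (by decide) (by decide)
    have a5 := k2 2 4 (by decide) (by decide)
    have a6 := k2 3 4 (by decide) (by decide)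
    linarith
  have hUQ0 : 0 ≤ UQ m x.1 := by
    unfold UQ
    have := hm 0
    have := hm 1
    have := hm 2
    have := hm 3
    have := hm 4
    positivity
  have hUQ2 : 100 * UQ m x.1 ≤ KQ m x.2 := by
    have h1 : 1500 * M ^ 2 * c ^ 20 ≤ c ^ 23 * c ^ 20 := by
      gcongr
      linarith
    have h2 : c ^ 23 * c ^ 20 = c ^ 43 := by ring
    linarith
  have hFQ : FQ m x = KQ m x.2 - UQ m x.1 := rfl
  have hFle : FQ m x ≤ KQ m x.2 := by linarith
  have hFge : 99 / 100 * KQ m x.2 ≤ FQ m x := by linarith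
  have hFpos : 0 < FQ m x := by linarith
  -- tidal energy
  have htau : |tauQ m x.1| ≤ 1 := by
    have h1 := tauQ_le hMb hr0 (by
      intro j hj
      have h2 := hxj j hj
      have e : 1 / (2 * c ^ 20) = (1 / c ^ 20) / 2 := by
        field_simp
      rw [e] at h2
      linarith)
    refine h1.trans ?_
    have k1 : ∀ j : Fin 5, 2 ≤ j → 1 / ‖x.1 j - cm m 0 1 x.1‖ ^ 3 ≤ 8 * c ^ 60 := by
      intro j hj
      have h2 : (1 / (2 * c ^ 20)) ^ 3 ≤ ‖x.1 j - cm m 0 1 x.1‖ ^ 3 :=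
        pow_le_pow_left₀ (by positivity) (hxj j hj) 3
      have h3 : 1 / ‖x.1 j - cm m 0 1 x.1‖ ^ 3 ≤ 1 / (1 / (2 * c ^ 20)) ^ 3 :=
        one_div_le_one_div_of_le (by positivity) h2
      have h4 : 1 / (1 / (2 * c ^ 20)) ^ 3 = 8 * c ^ 60 := by
        field_simp
        ring
      linarith
    have a1 := k1 2 (by decide)
    have a2 := k1 3 (by decide)
    have a3 := k1 4 (by decide)
    have h5 : 20 * M ^ 2 * r ^ 2 * (1 / ‖x.1 2 - cm m 0 1 x.1‖ ^ 3 +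
        1 / ‖x.1 3 - cm m 0 1 x.1‖ ^ 3 + 1 / ‖x.1 4 - cm m 0 1 x.1‖ ^ 3) ≤
        20 * M ^ 2 * r ^ 2 * (24 * c ^ 60) := by
      gcongr
      linarith
    refine h5.trans ?_
    have h6 : (r * c ^ 43) ^ 2 ≤ (11 * M ^ 2) ^ 2 := pow_le_pow_left₀ (by positivity) hr2 2
    have h7 : 20 * M ^ 2 * r ^ 2 * (24 * c ^ 60) * c ^ 26 ≤ 58080 * M ^ 6 := by
      have : 20 * M ^ 2 * r ^ 2 * (24 * c ^ 60) * c ^ 26 = 480 * M ^ 2 * (r * c ^ 43) ^ 2 := by ring
      rw [this]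
      have : 58080 * M ^ 6 = 480 * M ^ 2 * (11 * M ^ 2) ^ 2 := by ring
      rw [this]
      gcongr
    have h8 : 58080 * M ^ 6 ≤ c ^ 26 := hcM6.trans (hpw 26 (by norm_num))
    have h9 : 20 * M ^ 2 * r ^ 2 * (24 * c ^ 60) * c ^ 26 ≤ 1 * c ^ 26 := by linarith
    exact le_of_mul_le_mul_right h9 (by positivity)
  have htau2 := abs_le.1 htau
  -- r from the energy
  have hhp : ∀ i j : Fin 5, -(m i * m j / ‖x.1 i - x.1 j‖) ≤ hp m i j x := by
    intro i j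
    unfold hp
    have := hm i
    have := hm j
    have h1 : 0 ≤ (1 / 2) * (m i * m j / (m i + m j)) * ‖x.2 i - x.2 j‖ ^ 2 := by positivity
    linarith
  have hr4 : r * FQ m x ≤ 2 * M ^ 2 := by
    have h1 := ham_Q hm x
    have h2 := hhp 0 1
    have h3 : FQ m x - 1 - R ≤ m 0 * m 1 / r := by linarith
    have h4 : m 0 * m 1 / r ≤ M ^ 2 / r :=
      div_pair_le (hm 0) (hmM 0) (hm 1) (hmM 1) hr0 le_rfl
    have h5 : FQ m x - 1 - R ≤ M ^ 2 / r := h3.trans h4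
    rw [le_div_iff₀ hr0] at h5
    nlinarith
  -- the level
  have hF1 : 1 ≤ FQ m x := by linarith
  obtain ⟨k', hk1, hk2⟩ := exists_lev hF1
  have hb1 := one_le_lev k'
  set b := lev k' with hbdef
  have hb0 : 0 < b := by linarith
  have hb200 : c ^ 43 / 5 ≤ b ^ 200 := by linarith
  have hb96 : 2 * P.K2 * c ^ 20 ≤ b ^ 96 := by
    have h1 : (2 * P.K2 * c ^ 20) ^ 25 ≤ (b ^ 96) ^ 25 := by
      have h2 : (b ^ 96) ^ 25 = (b ^ 200) ^ 12 := by ring
      rw [h2]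
      have h3 : (c ^ 43 / 5) ^ 12 ≤ (b ^ 200) ^ 12 := pow_le_pow_left₀ (by positivity) hb200 12
      refine le_trans ?_ h3
      have h4 : (c ^ 43 / 5) ^ 12 = c ^ 500 * (c ^ 16 / 5 ^ 12) := by ring
      have h5 : (2 * P.K2 * c ^ 20) ^ 25 = c ^ 500 * (2 * P.K2) ^ 25 := by ring
      rw [h4, h5]
      refine mul_le_mul_of_nonneg_left ?_ (by positivity)
      rw [le_div_iff₀ (by positivity)]
      exact hcK2.trans (hpw 16 (by norm_num))
    exact le_of_pow_le_pow_left₀ (by norm_num) (by positivity) h1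
  -- the third linkage
  have hR3' : 1 / b ^ 77 ≤ Rg 3 x.1 := by
    obtain ⟨k, hk3, hk4⟩ := exists_lev (hF1.trans hFle)
    refine le_trans ?_ (hR3 k hk3 hk4)
    have hkk : k ≤ k' + 1 := by
      by_contra hcon
      push Not at hcon
      have h1 : (4 : ℝ) ^ (k' + 2) ≤ 4 ^ k := pow_le_pow_right₀ (by norm_num) (by omega)
      have h2 : lev k ^ 200 = 4 ^ k := lev_pow_twohundred k
      have h3 : b ^ 200 = 4 ^ k' := lev_pow_twohundred k'
      have h4 : (4 : ℝ) ^ (k' + 2) = 16 * 4 ^ k' := by ring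
      linarith
    have h1 : lev k ^ 77 ≤ lev (k' + 1) ^ 77 :=
      pow_le_pow_left₀ (by linarith [one_le_lev k]) (lev_mono hkk) 77
    have h2 := (lev_succ_pow k').1
    have h3 : lev k ^ 77 ≤ 2 * b ^ 77 := h1.trans h2
    have h4 : 0 < lev k ^ 77 := pow_pos (by linarith [one_le_lev k]) 77
    rw [div_le_div_iff₀ (by positivity) h4]
    linarith
  refine ⟨k', ?_, hR3', 1, Or.inl ?_⟩
  · by_contra hcon
    push Not at hcon
    have h3 : b ^ 200 = 4 ^ k' := lev_pow_twohundred k'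
    have h1 : (4 : ℝ) ^ k' ≤ 4 ^ K := pow_le_pow_right₀ (by norm_num) (by omega)
    have h4 : (4 : ℝ) ^ (K + 2) = 16 * 4 ^ K := by ring
    have h5 : (0 : ℝ) < 4 ^ K := by positivity
    linarith
  have e1 : m ∘ (1 : Equiv.Perm (Fin 5)) = m := by
    ext i
    simp
  have e2 : rel 1 x = x := by
    unfold rel
    ext <;> simp
  rw [e1, e2]
  refine ⟨?_, ?_, hk2.le, ?_, ?_, ?_, ?_⟩
  · unfold Par.Cr
    rw [le_div_iff₀ (by positivity)]
    have : r * b ^ 200 ≤ r * FQ m x := by gcongr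
    have hMM : P.M = M := rfl
    rw [hMM]
    nlinarith
  · rw [sub_zero, one_mul]
    exact hk1
  · intro j hj
    refine le_trans ?_ (hxj j hj)
    rw [div_le_div_iff₀ (by positivity) (by positivity)]
    nlinarith [pow_pos hcpos 20]
  · intro j hj hlt
    exfalso
    have h1 := (hxj j hj).trans_lt hlt
    rw [div_lt_div_iff₀ (by positivity) (by positivity)] at h1
    nlinarith
  · refine le_trans ?_ hR3'
    rw [div_le_div_iff₀ (by positivity) (by positivity)]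
    nlinarith [pow_pos hb0 77]
  · intro i j hi hj hij
    have h := div_pair_le (hm i) (hmM i) (hm j) (hmM j) hρ (hfar i j hij (by
      rintro ⟨h, -⟩
      exact absurd (hi.trans h) (by decide)))
    have e : M ^ 2 / (1 / c ^ 20) = M ^ 2 * c ^ 20 := by
      field_simp
    have h1 : 1500 * M ^ 2 * c ^ 20 ≤ c ^ 23 * c ^ 20 := by
      gcongr
      linarith
    have h2 : c ^ 23 * c ^ 20 = c ^ 43 := by ring
    have h3 := hhp i j
    have h4 : 0 < M ^ 2 * c ^ 20 := by positivity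
    linarith

end NB5
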