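import Mathlib
import Pool.Agent.NB5.Defs
import Pool.Agent.NB5.RgB
import Pool.Agent.NB5.HamSplit
import Pool.Agent.NB5.HhSplit
import Pool.Agent.NB5.T31
import Pool.Agent.NB5.StB

/-!
# The start near a triple (project NB5, module NB5-StC)

`c = cn n`, `ρ = 1/c^20`, `κ = KT m x.2`, `w = ‖v 2 - VQ‖`; not `BadT` and the hypotheses give `¬ BadCore n w κ KQ R3`.
* `c^22 ≤ w`: `KQ ≥ w^2/(4 M) ≥ c^43`, and for the level `k` of `KQ`, `R3 ≥ 32/lev k^77` (third alternative of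
  `BadCore` fails): `start_fast`.
* `w < c^22`: the first alternative fails, so `κ > c^16`; let `b = lev k`, `b^200 ≤ κ < 4 b^200` (`exists_lev`); the second
  alternative fails: `R3 ≥ 32/b^77`.
  (i) `ρ ≥ 4/b^77`: `KQ ≥ κ ≥ b^200 ≥ (4 c^20)^(200/77) ≥ c^43` and `R3 ≥ 32/b^77`; for the level `k'` of `KQ`, `k' ≥ k`, so
  `2/lev k'^77 ≤ R3`: `start_fast`.
  (ii) `ρ < 4/b^77`: the distances in `{0,1,2}` are `≤ 4 ρ < 16/b^77 < R3`, so `{0,1,2}, {3}, {4}` are the classes of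
  the partition for `R3`: all other distances are `≥ 32/b^77`, `‖q j - XT‖, ‖x_j‖ ≥ 16/b^77` for `j = 3, 4`. `UT ≤ C b^77`,
  so `0.99 κ ≤ FT ≤ κ`; `ham_T` and `|tauT| ≤ C b^77` (directly, every term is `≤ 3 M^2 b^77/16`), so
  `ET ≤ -0.9 b^200`, and as `0, 1` is the closest pair, `3 M^2/r ≥ 0.9 b^200`, `r ≤ 4 M^2/b^200`.
  If all distances in `{0,1,2}` are `≤ 3 K2/b^96`: `SIII P 0 (lev (k-1)) m x` (`FT - L1 ≥ lev (k-1)^200 = b^200/4`,
  `FT ≤ 16 lev (k-1)^200`), `R3 ≥ 32/b^77 ≥ 1/lev (k-1)^77`.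
  Otherwise `‖x_2‖ ≥ 2.9 K2/b^96`; `FQ = KQ - UQ ≥ κ - 2 M^2/‖x_2‖ - C b^77 ≥ 0.9 b^200`, `FQ ≤ KQ`. Let `k'` be the
  level with `lev k'^200 ≤ FQ < 4 lev k'^200`; `k' ≥ k - 1`. `SI P 0 (lev k') m x`: `r ≤ 1.1 M^2/FQ` (`ham_Q`, `tauQ` bounded by
  `1`: `tauQ_le`), `‖x_2‖ ≥ 2.9 K2/b^96 ≥ K2/lev k'^96`, so `h_ge` is
  vacuous for `j = 2`; `‖x_3‖, ‖x_4‖ ≥ 16/b^77`; `hard`: distances between `2,3,4` are `≥ 32/b^77`.
-/

open MeasureTheory Set Filter Topology Metric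
open scoped NNReal ENNReal RealInnerProductSpace

namespace NB5

open HDN

variable {d : ℕ}

private theorem sc_fin3 : ∀ a b c : Fin 3, (∀ y, y = a ∨ y = b ∨ y = c) →
    a ≠ b ∧ a ≠ c ∧ b ≠ c := by
  decide

private theorem sc_part {q : Cf 5 d} {s : ℝ} (h : s ≤ Rg 3 q) (h1 : ‖q 0 - q 1‖ < s)
    (h2 : ‖q 0 - q 2‖ < s) : (∀ i j : Fin 5, i ≤ 2 → 3 ≤ j → s ≤ ‖q i - q j‖) ∧
      s ≤ ‖q 3 - q 4‖ := by
  obtain ⟨p, hp, hd⟩ := (le_Rg_iff (by norm_num) (by norm_num)).1 h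
  have e1 : p 0 = p 1 := by
    by_contra hne
    have := hd 0 1 hne
    linarith
  have e2 : p 0 = p 2 := by
    by_contra hne
    have := hd 0 2 hne
    linarith
  have hs : ∀ y, y = p 0 ∨ y = p 3 ∨ y = p 4 := by
    intro y
    obtain ⟨i, hi⟩ := hp y
    fin_cases i
    · exact Or.inl hi.symm
    · left
      rw [e1]
      exact hi.symm
    · left
      rw [e2]
      exact hi.symm
    · exact Or.inr (Or.inl hi.symm)
    · exact Or.inr (Or.inr hi.symm)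
  obtain ⟨n1, n2, n3⟩ := sc_fin3 _ _ _ hs
  have hi0 : ∀ i : Fin 5, i ≤ 2 → p i = p 0 := by
    intro i hi
    fin_cases i
    · rfl
    · exact e1.symm
    · exact e2.symm
    · exact absurd hi (by decide)
    · exact absurd hi (by decide)
  refine ⟨?_, hd 3 4 n3⟩
  intro i j hi hj
  apply hd
  rw [hi0 i hi]
  fin_cases j
  · exact absurd hj (by decide)
  · exact absurd hj (by decide)
  · exact absurd hj (by decide)
  · exact n1
  · exact n2

private theorem sc_q0 {m : Fin 5 → ℝ} (hm : ∀ i, 0 < m i) (q : Cf 5 d) :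
    ‖q 0 - cm m 0 1 q‖ ≤ ‖q 0 - q 1‖ := by
  have h0 := hm 0
  have h1 := hm 1
  have hs : m 0 + m 1 ≠ 0 := by positivity
  have h2 : q 0 - cm m 0 1 q = (m 1 / (m 0 + m 1)) • (q 0 - q 1) := by
    unfold cm
    match_scalars <;> field_simp <;> ring
  rw [h2, norm_smul, Real.norm_eq_abs, abs_of_nonneg (by positivity)]
  have h3 : m 1 / (m 0 + m 1) ≤ 1 := by
    rw [div_le_one (by positivity)]
    linarith
  have h4 : 0 ≤ ‖q 0 - q 1‖ := norm_nonneg _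
  nlinarith

private theorem sc_q1 {m : Fin 5 → ℝ} (hm : ∀ i, 0 < m i) (q : Cf 5 d) :
    ‖q 1 - cm m 0 1 q‖ ≤ ‖q 0 - q 1‖ := by
  have h0 := hm 0
  have h1 := hm 1
  have hs : m 0 + m 1 ≠ 0 := by positivity
  have h2 : q 1 - cm m 0 1 q = -((m 0 / (m 0 + m 1)) • (q 0 - q 1)) := by
    unfold cm
    match_scalars <;> field_simp <;> ring
  rw [h2, norm_neg, norm_smul, Real.norm_eq_abs, abs_of_nonneg (by positivity)]
  have h3 : m 0 / (m 0 + m 1) ≤ 1 := by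
    rw [div_le_one (by positivity)]
    linarith
  have h4 : 0 ≤ ‖q 0 - q 1‖ := norm_nonneg _
  nlinarith

private theorem sc_q3 {m : Fin 5 → ℝ} (hm : ∀ i, 0 < m i) (q : Cf 5 d) {s : ℝ}
    (h1 : ‖q 0 - q 1‖ ≤ s) (h2 : ‖q 0 - q 2‖ ≤ s) : ‖q 0 - cm3 m 0 1 2 q‖ ≤ s := by
  have m0 := hm 0
  have m1 := hm 1
  have m2 := hm 2
  have hs : m 0 + m 1 + m 2 ≠ 0 := by positivity
  have h3 : q 0 - cm3 m 0 1 2 q = (m 1 / (m 0 + m 1 + m 2)) • (q 0 - q 1) +
      (m 2 / (m 0 + m 1 + m 2)) • (q 0 - q 2) := by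
    unfold cm3
    match_scalars <;> field_simp <;> ring
  rw [h3]
  refine (norm_add_le _ _).trans ?_
  rw [norm_smul, norm_smul, Real.norm_eq_abs, Real.norm_eq_abs, abs_of_nonneg (by positivity),
    abs_of_nonneg (by positivity)]
  have hs0 : 0 ≤ s := (norm_nonneg _).trans h1
  calc m 1 / (m 0 + m 1 + m 2) * ‖q 0 - q 1‖ + m 2 / (m 0 + m 1 + m 2) * ‖q 0 - q 2‖
      ≤ m 1 / (m 0 + m 1 + m 2) * s + m 2 / (m 0 + m 1 + m 2) * s := by gcongr
    _ = (m 1 + m 2) / (m 0 + m 1 + m 2) * s := by ring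
    _ ≤ 1 * s := by
        apply mul_le_mul_of_nonneg_right _ hs0
        rw [div_le_one (by positivity)]
        linarith
    _ = s := one_mul s

/-- a quotient with a bounded numerator and a denominator bounded below -/
private theorem sc_div {a A r s : ℝ} (ha : 0 ≤ a) (hA : a ≤ A) (hs : 0 < s) (hr : s ≤ r) :
    a / r ≤ A / s := by
  apply div_le_div₀ (ha.trans hA) hA hs hr

private theorem sc_mass {M : ℝ} {m : Fin 5 → ℝ} (h : Mb M m) :
    (∀ i j, m i * m j ≤ M ^ 2) ∧ (∀ j, (m 0 + m 1) * m j ≤ 2 * M ^ 2) ∧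
      (∀ j, (m 0 + m 1 + m 2) * m j ≤ 3 * M ^ 2) ∧ 1 / (3 * M) ≤
        (1 / 2) * ((m 0 + m 1) * m 2 / (m 0 + m 1 + m 2)) := by
  have hM : 1 ≤ M := h.1
  have hp : ∀ i, 0 < m i := fun i => Mb.pos h i
  have hij : ∀ i j, m i * m j ≤ M ^ 2 := by
    intro i j
    rw [sq]
    exact mul_le_mul (h.2 i).2 (h.2 j).2 (hp j).le (by linarith)
  refine ⟨hij, ?_, ?_, ?_⟩
  · intro j
    have := hij 0 j
    have := hij 1 j
    linarith
  · intro j
    have := hij 0 j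
    have := hij 1 j
    have := hij 2 j
    linarith
  · have h0 := hp 0
    have h1 := hp 1
    have h2 := hp 2
    have k0 : 1 ≤ m 0 * M := by
      have := (h.2 0).1
      rwa [div_le_iff₀ (by linarith)] at this
    have k1 : 1 ≤ m 1 * M := by
      have := (h.2 1).1
      rwa [div_le_iff₀ (by linarith)] at this
    have k2 : 1 ≤ m 2 * M := by
      have := (h.2 2).1
      rwa [div_le_iff₀ (by linarith)] at this
    have e : (1 / 2) * ((m 0 + m 1) * m 2 / (m 0 + m 1 + m 2)) =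
        (m 0 + m 1) * m 2 / (2 * (m 0 + m 1 + m 2)) := by
      field_simp
    rw [e, div_le_div_iff₀ (by positivity) (by positivity)]
    nlinarith [mul_pos h0 h2, mul_pos h1 h2]

private theorem sc_num {b X : ℝ} {k : ℕ} (h1 : 1 ≤ b) (hX : 10 ^ 4 * X ≤ b) (hk : k + 1 ≤ 200) :
    X * b ^ k ≤ b ^ 200 / 10 ^ 4 := by
  have hb : 0 < b := by linarith
  have h2 : X ≤ b / 10 ^ 4 := by
    rw [le_div_iff₀ (by norm_num)]
    linarith
  calc X * b ^ k ≤ b / 10 ^ 4 * b ^ k := mul_le_mul_of_nonneg_right h2 (by positivity)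
    _ = b ^ (k + 1) / 10 ^ 4 := by
        rw [pow_succ]
        ring
    _ ≤ b ^ 200 / 10 ^ 4 := by
        apply div_le_div_of_nonneg_right _ (by norm_num)
        exact pow_le_pow_right₀ h1 hk

/-- energies when the bodies `3, 4` are far from the triple -/
private theorem sc_FT {M R b : ℝ} {m : Fin 5 → ℝ} (h : Mb M m) (hb : 1 ≤ b)
    (hM : 10 ^ 4 * M ^ 2 ≤ b) (hR : 10 ^ 4 * R ≤ b) {x : St d} (hinv : x ∈ Inv m R)
    (hc : Closest x.1)
    (hd : ∀ i j : Fin 5, i ≤ 2 → 3 ≤ j → 32 / b ^ 77 ≤ ‖x.1 i - x.1 j‖)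
    (h34 : 32 / b ^ 77 ≤ ‖x.1 3 - x.1 4‖)
    (h3 : 16 / b ^ 77 ≤ ‖x.1 3 - cm3 m 0 1 2 x.1‖) (h4 : 16 / b ^ 77 ≤ ‖x.1 4 - cm3 m 0 1 2 x.1‖)
    (hκ : b ^ 200 ≤ KT m x.2) :
    0.99 * KT m x.2 ≤ FT m x ∧ FT m x ≤ KT m x.2 ∧
      ‖x.1 0 - x.1 1‖ ≤ 4 * M ^ 2 / b ^ 200 := by
  have hbp : 0 < b := by linarith
  have hM1 : 1 ≤ M := h.1
  have hp : ∀ i, 0 < m i := fun i => Mb.pos h i
  obtain ⟨m1, m2, m3, _⟩ := sc_mass h
  have hf := hinv.1
  have hb77 : 0 < b ^ 77 := by positivity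
  have hb200 : 0 < b ^ 200 := by positivity
  have n77 : M ^ 2 * b ^ 77 ≤ b ^ 200 / 10 ^ 4 := sc_num hb hM (by norm_num)
  have nR : R ≤ b ^ 200 / 10 ^ 4 := by
    have := sc_num (k := 0) hb hR (by norm_num)
    simpa using this
  have s16 : 0 < 16 / b ^ 77 := by positivity
  have s32 : 0 < 32 / b ^ 77 := by positivity
  have hU : UT m x.1 ≤ M ^ 2 * b ^ 77 := by
    unfold UT
    have e1 := sc_div (mul_pos (by have := hp 0; have := hp 1; have := hp 2; positivity) (hp 3)).le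
      (m3 3) s16 h3
    have e2 := sc_div (mul_pos (by have := hp 0; have := hp 1; have := hp 2; positivity) (hp 4)).le
      (m3 4) s16 h4
    have e3 := sc_div (mul_pos (hp 3) (hp 4)).le (m1 3 4) s32 h34
    have e4 : 3 * M ^ 2 / (16 / b ^ 77) = (3 / 16) * (M ^ 2 * b ^ 77) := by
      field_simp
    have e5 : M ^ 2 / (32 / b ^ 77) = (1 / 32) * (M ^ 2 * b ^ 77) := by
      field_simp
    rw [e4] at e1 e2
    rw [e5] at e3
    have e6 : 0 < M ^ 2 * b ^ 77 := by positivity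
    linarith
  have hU0 : 0 ≤ UT m x.1 := by
    unfold UT
    have := hp 0
    have := hp 1
    have := hp 2
    have := hp 3
    have := hp 4
    positivity
  have hF1 : 0.99 * KT m x.2 ≤ FT m x := by
    unfold FT
    linarith
  have hF2 : FT m x ≤ KT m x.2 := by
    unfold FT
    linarith
  refine ⟨hF1, hF2, ?_⟩
  have htau : -(M ^ 2 * b ^ 77) ≤ tauT m x.1 := by
    unfold tauT
    rw [Finset.sum_insert (by decide), Finset.sum_singleton]
    have key : ∀ j : Fin 5, 3 ≤ j → -((3 / 32) * (M ^ 2 * b ^ 77)) ≤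
        m j * ((m 0 + m 1 + m 2) / ‖x.1 j - cm3 m 0 1 2 x.1‖ - m 0 / ‖x.1 j - x.1 0‖ -
          m 1 / ‖x.1 j - x.1 1‖ - m 2 / ‖x.1 j - x.1 2‖) := by
      intro j hj
      have c : ∀ i : Fin 5, i ≤ 2 → m j * (m i / ‖x.1 j - x.1 i‖) ≤
          (1 / 32) * (M ^ 2 * b ^ 77) := by
        intro i hi
        have e1 : m j * (m i / ‖x.1 j - x.1 i‖) = m j * m i / ‖x.1 i - x.1 j‖ := by
          rw [norm_sub_rev]
          ring
        rw [e1]
        refine (sc_div (mul_pos (hp j) (hp i)).le (m1 j i) s32 (hd i j hi hj)).trans ?_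
        apply le_of_eq
        field_simp
      have c0 := c 0 (by decide)
      have c1 := c 1 (by decide)
      have c2 := c 2 (by decide)
      have c3 : 0 ≤ m j * ((m 0 + m 1 + m 2) / ‖x.1 j - cm3 m 0 1 2 x.1‖) := by
        have := hp 0
        have := hp 1
        have := hp 2
        have := hp j
        positivity
      linarith
    have k3 := key 3 (by decide)
    have k4 := key 4 (by decide)
    have e6 : 0 < M ^ 2 * b ^ 77 := by positivity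
    linarith
  have hH := ham_T hp x
  have hHR := abs_le.1 hinv.2.1
  have hr : 0 < ‖x.1 0 - x.1 1‖ := norm_pos_iff.2 (sub_ne_zero.2 (hf 0 1 (by decide)))
  have hE : -(3 * M ^ 2 / ‖x.1 0 - x.1 1‖) ≤ ET m x := by
    unfold ET
    have e1 := sc_div (mul_pos (hp 0) (hp 1)).le (m1 0 1) hr (hc 0 1 (by decide))
    have e2 := sc_div (mul_pos (hp 0) (hp 2)).le (m1 0 2) hr (hc 0 2 (by decide))
    have e3 := sc_div (mul_pos (hp 1) (hp 2)).le (m1 1 2) hr (hc 1 2 (by decide))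
    have e4 : 3 * M ^ 2 / ‖x.1 0 - x.1 1‖ = M ^ 2 / ‖x.1 0 - x.1 1‖ + M ^ 2 / ‖x.1 0 - x.1 1‖ +
        M ^ 2 / ‖x.1 0 - x.1 1‖ := by ring
    have e5 : 0 ≤ (1 / 2) * (m 0 * m 1 / (m 0 + m 1)) * ‖x.2 0 - x.2 1‖ ^ 2 := by
      have := hp 0
      have := hp 1
      positivity
    have e6 : 0 ≤ (1 / 2) * ((m 0 + m 1) * m 2 / (m 0 + m 1 + m 2)) *
        ‖x.2 2 - cm m 0 1 x.2‖ ^ 2 := by
      have := hp 0
      have := hp 1
      have := hp 2
      positivity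
    linarith
  have hE2 : 0.98 * b ^ 200 ≤ 3 * M ^ 2 / ‖x.1 0 - x.1 1‖ := by
    linarith
  rw [le_div_iff₀ hr] at hE2
  rw [le_div_iff₀ hb200]
  have : 0 < ‖x.1 0 - x.1 1‖ * b ^ 200 := by positivity
  nlinarith

private theorem sc_hp {m : Fin 5 → ℝ} (hm : ∀ i, 0 < m i) (i j : Fin 5) (x : St d) :
    -(m i * m j / ‖x.1 i - x.1 j‖) ≤ hp m i j x := by
  unfold hp
  have := hm i
  have := hm j
  have h1 : 0 ≤ (1 / 2) * (m i * m j / (m i + m j)) * ‖x.2 i - x.2 j‖ ^ 2 := by positivity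
  linarith

private theorem sc_far {q : Cf 5 d} {s : ℝ}
    (hd : ∀ i j : Fin 5, i ≤ 2 → 3 ≤ j → s ≤ ‖q i - q j‖) (h34 : s ≤ ‖q 3 - q 4‖) :
    ∀ i j : Fin 5, 2 ≤ i → 2 ≤ j → i ≠ j → s ≤ ‖q i - q j‖ := by
  intro i j hi hj hij
  fin_cases i
  · exact absurd hi (by decide)
  · exact absurd hi (by decide)
  · fin_cases j
    · exact absurd hj (by decide)
    · exact absurd hj (by decide)
    · exact absurd rfl hij
    · exact hd 2 3 (by decide) (by decide)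
    · exact hd 2 4 (by decide) (by decide)
  · fin_cases j
    · exact absurd hj (by decide)
    · exact absurd hj (by decide)
    · rw [norm_sub_rev]
      exact hd 2 3 (by decide) (by decide)
    · exact absurd rfl hij
    · exact h34
  · fin_cases j
    · exact absurd hj (by decide)
    · exact absurd hj (by decide)
    · rw [norm_sub_rev]
      exact hd 2 4 (by decide) (by decide)
    · rw [norm_sub_rev]
      exact h34
    · exact absurd rfl hij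

private theorem sc_x2 {m : Fin 5 → ℝ} (hm : ∀ i, 0 < m i) {q : Cf 5 d} {s r : ℝ}
    (hr : ‖q 0 - q 1‖ ≤ r) (hrs : r < s)
    (h : ∃ i j : Fin 5, i ≤ 2 ∧ j ≤ 2 ∧ s < ‖q i - q j‖) : s - r ≤ ‖q 2 - cm m 0 1 q‖ := by
  have hr0 : 0 ≤ r := (norm_nonneg _).trans hr
  have k0 := sc_q0 hm q
  have k1 := sc_q1 hm q
  have c02 : s < ‖q 0 - q 2‖ → s - r ≤ ‖q 2 - cm m 0 1 q‖ := by
    intro h1
    have h2 : ‖q 0 - q 2‖ ≤ ‖q 0 - cm m 0 1 q‖ + ‖q 2 - cm m 0 1 q‖ := by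
      have h3 : q 0 - q 2 = (q 0 - cm m 0 1 q) - (q 2 - cm m 0 1 q) := by abel
      rw [h3]
      exact norm_sub_le _ _
    linarith
  have c12 : s < ‖q 1 - q 2‖ → s - r ≤ ‖q 2 - cm m 0 1 q‖ := by
    intro h1
    have h2 : ‖q 1 - q 2‖ ≤ ‖q 1 - cm m 0 1 q‖ + ‖q 2 - cm m 0 1 q‖ := by
      have h3 : q 1 - q 2 = (q 1 - cm m 0 1 q) - (q 2 - cm m 0 1 q) := by abel
      rw [h3]
      exact norm_sub_le _ _
    linarith
  obtain ⟨i, j, hi, hj, hij⟩ := h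
  have hzero : ∀ v : Sp d, ¬ s < ‖v - v‖ := by
    intro v hv
    rw [sub_self, norm_zero] at hv
    linarith
  fin_cases i
  · fin_cases j
    · exact absurd hij (hzero _)
    · exact absurd hij (by
        show ¬ s < ‖q 0 - q 1‖
        linarith)
    · exact c02 hij
    · exact absurd hj (by decide)
    · exact absurd hj (by decide)
  · fin_cases j
    · exact absurd hij (by
        show ¬ s < ‖q 1 - q 0‖
        rw [norm_sub_rev]
        linarith)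
    · exact absurd hij (hzero _)
    · exact c12 hij
    · exact absurd hj (by decide)
    · exact absurd hj (by decide)
  · fin_cases j
    · exact c02 (by
        rw [norm_sub_rev]
        exact hij)
    · exact c12 (by
        rw [norm_sub_rev]
        exact hij)
    · exact absurd hij (hzero _)
    · exact absurd hj (by decide)
    · exact absurd hj (by decide)
  · exact absurd hi (by decide)
  · exact absurd hi (by decide)

/-- the case of strict mode I -/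
private theorem sc_SI {P : Par} {b : ℝ} {m : Fin 5 → ℝ} (h : Mb P.M m) (hb : 1 ≤ b)
    (hbB : 10 ^ 4 * P.M ^ 6 * P.R ≤ b) {x : St d} (hinv : x ∈ Inv m P.R)
    (hr : ‖x.1 0 - x.1 1‖ ≤ 4 * P.M ^ 2 / b ^ 200)
    (hd : ∀ i j : Fin 5, 2 ≤ i → 2 ≤ j → i ≠ j → 32 / b ^ 77 ≤ ‖x.1 i - x.1 j‖)
    (hx2 : 2.9 * P.K2 / b ^ 96 ≤ ‖x.1 2 - cm m 0 1 x.1‖)
    (hx3 : ∀ j : Fin 5, 3 ≤ j → 24 / b ^ 77 ≤ ‖x.1 j - cm m 0 1 x.1‖)
    (hκ : b ^ 200 ≤ KT m x.2) :
    0.99 * b ^ 200 ≤ FQ m x ∧ ∀ b' : ℝ, 1 ≤ b' → b' ^ 200 ≤ FQ m x → FQ m x ≤ 4 * b' ^ 200 →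
      b ^ 77 ≤ 2 * b' ^ 77 → b ^ 96 ≤ 2 * b' ^ 96 → 32 / b ^ 77 ≤ Rg 3 x.1 → SI P 0 b' m x := by
  have hbp : 0 < b := by linarith
  have hM1 : 1 ≤ P.M := P.hM
  have hR1 : 1 ≤ P.R := P.hR
  have hp : ∀ i, 0 < m i := fun i => Mb.pos h i
  obtain ⟨m1, m2, m3, _⟩ := sc_mass h
  have hf := hinv.1
  have hb77 : 0 < b ^ 77 := by positivity
  have hb96 : 0 < b ^ 96 := by positivity
  have hb200 : 0 < b ^ 200 := by positivity
  have M6 : P.M ^ 6 ≤ P.M ^ 6 * P.R := le_mul_of_one_le_right (by positivity) hR1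
  have M26 : P.M ^ 2 ≤ P.M ^ 6 := pow_le_pow_right₀ hM1 (by norm_num)
  have M46 : P.M ^ 4 ≤ P.M ^ 6 := pow_le_pow_right₀ hM1 (by norm_num)
  have M61 : 1 ≤ P.M ^ 6 := one_le_pow₀ hM1
  have R6 : P.R ≤ P.M ^ 6 * P.R := le_mul_of_one_le_left (by linarith) M61
  have B2 : 10 ^ 4 * P.M ^ 2 ≤ b := by linarith
  have B4 : 10 ^ 4 * P.M ^ 4 ≤ b := by linarith
  have B6 : 10 ^ 4 * P.M ^ 6 ≤ b := by linarith
  have BR : 10 ^ 4 * P.R ≤ b := by linarith
  have B1 : 10 ^ 4 * (1 : ℝ) ≤ b := by linarith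
  have n77 : P.M ^ 2 * b ^ 77 ≤ b ^ 200 / 10 ^ 4 := sc_num hb B2 (by norm_num)
  have n96 : P.M ^ 2 * b ^ 96 ≤ b ^ 200 / 10 ^ 4 := sc_num hb B2 (by norm_num)
  have nR : P.R ≤ b ^ 200 / 10 ^ 4 := by
    have := sc_num (k := 0) hb BR (by norm_num)
    simpa using this
  have n1 : (1 : ℝ) ≤ b ^ 200 / 10 ^ 4 := by
    have := sc_num (k := 0) hb B1 (by norm_num)
    simpa using this
  have hK2 : 32 ≤ P.K2 := by
    unfold Par.K2
    have : 1 ≤ P.M ^ 4 := one_le_pow₀ hM1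
    linarith
  have s1 : 0 < 1 / b ^ 96 := by positivity
  have s24 : 0 < 24 / b ^ 77 := by positivity
  have s32 : 0 < 32 / b ^ 77 := by positivity
  have K296 : 32 * (1 / b ^ 96) ≤ P.K2 / b ^ 96 := by
    rw [mul_one_div]
    exact div_le_div_of_nonneg_right hK2 hb96.le
  have hx2' : 1 / b ^ 96 ≤ ‖x.1 2 - cm m 0 1 x.1‖ := by
    refine le_trans ?_ hx2
    rw [mul_div_assoc]
    linarith
  have c7796 : b ^ 77 * b ≤ b ^ 96 := by
    rw [← pow_succ]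
    exact pow_le_pow_right₀ hb (by norm_num)
  have c2496 : 2 * P.K2 / b ^ 96 ≤ 24 / b ^ 77 := by
    rw [div_le_div_iff₀ hb96 hb77]
    unfold Par.K2
    nlinarith
  have c1 : 1 / b ^ 96 ≤ 24 / b ^ 77 := by
    refine le_trans ?_ c2496
    rw [mul_div_assoc]
    linarith
  have hxj : ∀ j : Fin 5, 2 ≤ j → 1 / b ^ 96 ≤ ‖x.1 j - cm m 0 1 x.1‖ := by
    intro j hj
    rcases lt_or_ge j 3 with h1 | h1
    · have h2 : j = 2 := by
        fin_cases j
        · exact absurd hj (by decide)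
        · exact absurd hj (by decide)
        · rfl
        · exact absurd h1 (by decide)
        · exact absurd h1 (by decide)
      rw [h2]
      exact hx2'
    · exact c1.trans (hx3 j h1)
  have p01 : 0 ≤ m 0 + m 1 := by have := hp 0; have := hp 1; linarith
  have hU : UQ m x.1 ≤ b ^ 200 / 10 ^ 3 := by
    unfold UQ
    have e1 := sc_div (mul_nonneg p01 (hp 2).le) (m2 2) s1 hx2'
    have e2 := sc_div (mul_nonneg p01 (hp 3).le) (m2 3) s24 (hx3 3 (by decide))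
    have e3 := sc_div (mul_nonneg p01 (hp 4).le) (m2 4) s24 (hx3 4 (by decide))
    have e4 := sc_div (mul_pos (hp 2) (hp 3)).le (m1 2 3) s32
      (hd 2 3 (by decide) (by decide) (by decide))
    have e5 := sc_div (mul_pos (hp 2) (hp 4)).le (m1 2 4) s32
      (hd 2 4 (by decide) (by decide) (by decide))
    have e6 := sc_div (mul_pos (hp 3) (hp 4)).le (m1 3 4) s32
      (hd 3 4 (by decide) (by decide) (by decide))
    have f1 : 2 * P.M ^ 2 / (1 / b ^ 96) = 2 * (P.M ^ 2 * b ^ 96) := by field_simp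
    have f2 : 2 * P.M ^ 2 / (24 / b ^ 77) = (1 / 12) * (P.M ^ 2 * b ^ 77) := by
      field_simp
      norm_num
    have f3 : P.M ^ 2 / (32 / b ^ 77) = (1 / 32) * (P.M ^ 2 * b ^ 77) := by field_simp
    rw [f1] at e1
    rw [f2] at e2 e3
    rw [f3] at e4 e5 e6
    have : 0 < P.M ^ 2 * b ^ 77 := by positivity
    have : 0 < P.M ^ 2 * b ^ 96 := by positivity
    linarith
  have hkm := (k_mono hp x.2).1
  have hF : 0.99 * b ^ 200 ≤ FQ m x := by
    unfold FQ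
    linarith
  refine ⟨hF, ?_⟩
  intro b' hb'1 hb'F hb'F2 h77 h96 hR3
  have hb'p : 0 < b' := by linarith
  have hb'77 : 0 < b' ^ 77 := by positivity
  have hb'96 : 0 < b' ^ 96 := by positivity
  have hb'200 : 0 < b' ^ 200 := by positivity
  have i96 : 1 / b' ^ 96 ≤ 2 / b ^ 96 := by
    rw [div_le_div_iff₀ hb'96 hb96]
    linarith
  have hr0 : 0 < ‖x.1 0 - x.1 1‖ := norm_pos_iff.2 (sub_ne_zero.2 (hf 0 1 (by decide)))
  -- the tidal energy
  have h4r : 4 * ‖x.1 0 - x.1 1‖ ≤ 1 / b ^ 96 := by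
    have h1 : 4 * (4 * P.M ^ 2 / b ^ 200) ≤ 1 / b ^ 96 := by
      rw [← mul_div_assoc, div_le_div_iff₀ hb200 hb96]
      linarith
    linarith
  have htau : |tauQ m x.1| ≤ 1 := by
    refine (tauQ_le h hr0 (fun j hj => h4r.trans (hxj j hj))).trans ?_
    have g : ∀ j : Fin 5, 2 ≤ j → 1 / ‖x.1 j - cm m 0 1 x.1‖ ^ 3 ≤ b ^ 288 := by
      intro j hj
      have h1 := hxj j hj
      have h2 : (1 / b ^ 96) ^ 3 ≤ ‖x.1 j - cm m 0 1 x.1‖ ^ 3 := pow_le_pow_left₀ s1.le h1 3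
      have h3 : 0 < (1 / b ^ 96) ^ 3 := by positivity
      calc 1 / ‖x.1 j - cm m 0 1 x.1‖ ^ 3 ≤ 1 / (1 / b ^ 96) ^ 3 :=
            div_le_div_of_nonneg_left zero_le_one h3 h2
        _ = b ^ 288 := by
            field_simp
    have g2 := g 2 (by decide)
    have g3 := g 3 (by decide)
    have g4 := g 4 (by decide)
    have hr2 : ‖x.1 0 - x.1 1‖ ^ 2 ≤ (4 * P.M ^ 2 / b ^ 200) ^ 2 :=
      pow_le_pow_left₀ hr0.le hr 2
    calc 20 * P.M ^ 2 * ‖x.1 0 - x.1 1‖ ^ 2 * (1 / ‖x.1 2 - cm m 0 1 x.1‖ ^ 3 +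
          1 / ‖x.1 3 - cm m 0 1 x.1‖ ^ 3 + 1 / ‖x.1 4 - cm m 0 1 x.1‖ ^ 3)
        ≤ 20 * P.M ^ 2 * (4 * P.M ^ 2 / b ^ 200) ^ 2 * (b ^ 288 + b ^ 288 + b ^ 288) := by
          gcongr
      _ = 960 * P.M ^ 6 / b ^ 112 := by
          field_simp
          ring
      _ ≤ 1 := by
          rw [div_le_one (by positivity)]
          have h1 : b ≤ b ^ 112 := le_self_pow₀ hb (by norm_num)
          linarith
  have hH := ham_Q hp x
  have hHR := abs_le.1 hinv.2.1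
  have htau' := abs_le.1 htau
  have hhp := sc_hp hp 0 1 x
  have hmr : m 0 * m 1 / ‖x.1 0 - x.1 1‖ ≤ P.M ^ 2 / ‖x.1 0 - x.1 1‖ :=
    div_le_div_of_nonneg_right (m1 0 1) hr0.le
  have hMr : 0.9 * b' ^ 200 ≤ P.M ^ 2 / ‖x.1 0 - x.1 1‖ := by
    have h1 : P.R ≤ FQ m x / 1000 := by linarith
    have h2 : 1 ≤ FQ m x / 1000 := by linarith
    linarith
  have x2' : P.K2 / b' ^ 96 ≤ ‖x.1 2 - cm m 0 1 x.1‖ := by
    refine le_trans ?_ hx2
    rw [div_le_div_iff₀ hb'96 hb96]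
    nlinarith
  have x3' : ∀ j : Fin 5, 3 ≤ j → P.K2 / b' ^ 96 ≤ ‖x.1 j - cm m 0 1 x.1‖ := by
    intro j hj
    refine le_trans ?_ (c2496.trans (hx3 j hj))
    rw [div_le_div_iff₀ hb'96 hb96]
    nlinarith
  have xj' : ∀ j : Fin 5, 2 ≤ j → P.K2 / b' ^ 96 ≤ ‖x.1 j - cm m 0 1 x.1‖ := by
    intro j hj
    rcases lt_or_ge j 3 with h1 | h1
    · have h2 : j = 2 := by
        fin_cases j
        · exact absurd hj (by decide)
        · exact absurd hj (by decide)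
        · rfl
        · exact absurd h1 (by decide)
        · exact absurd h1 (by decide)
      rw [h2]
      exact x2'
    · exact x3' j h1
  refine ⟨?_, ?_, hb'F2, ?_, ?_, ?_, ?_⟩
  · unfold Par.Cr
    rw [le_div_iff₀ hr0] at hMr
    rw [le_div_iff₀ hb'200]
    have : 0 < b' ^ 200 * ‖x.1 0 - x.1 1‖ := by positivity
    nlinarith
  · linarith
  · intro j hj
    refine le_trans ?_ (xj' j hj)
    exact div_le_div_of_nonneg_right (by linarith) hb'96.le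
  · intro j hj hlt
    exact absurd hlt (not_lt.2 (xj' j hj))
  · refine le_trans ?_ hR3
    rw [div_le_div_iff₀ (by positivity) hb77]
    linarith
  · intro i j hi hj hij
    refine le_trans ?_ (sc_hp hp i j x)
    have e4 := sc_div (mul_pos (hp i) (hp j)).le (m1 i j) s32 (hd i j hi hj hij)
    have f3 : P.M ^ 2 / (32 / b ^ 77) = (1 / 32) * (P.M ^ 2 * b ^ 77) := by field_simp
    rw [f3] at e4
    have : 0 < P.M ^ 2 * b ^ 77 := by positivity
    linarith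

private theorem sc_slow (P : Par) (K : ℕ) : ∃ B : ℝ, 1 ≤ B ∧ ∀ k : ℕ, B ≤ lev k →
    ∀ m : Fin 5 → ℝ, Mb P.M m → ∀ x : St d, x ∈ Inv m P.R → Closest x.1 →
    ∀ ρ : ℝ, ‖x.1 0 - x.1 2‖ ≤ 2 * ρ → ρ < 4 / lev k ^ 77 → 32 / lev k ^ 77 ≤ Rg 3 x.1 →
    lev k ^ 200 ≤ KT m x.2 → KT m x.2 < 4 * lev k ^ 200 → StOK P K m x := by
  refine ⟨max (10 ^ 4 * P.M ^ 6 * P.R) (lev (K + 1) + 1),
    le_trans (by linarith [one_le_lev (K + 1)]) (le_max_right _ _), ?_⟩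
  intro k hB m hm x hinv hc ρ hρ hρ2 hR3 hκ1 hκ2
  rw [max_le_iff] at hB
  obtain ⟨hB1, hB2⟩ := hB
  have hkK : K + 1 < k := by
    by_contra hcon
    have := lev_mono (not_lt.1 hcon)
    linarith
  obtain ⟨k0, rfl⟩ : ∃ k0, k = k0 + 1 := ⟨k - 1, by omega⟩
  obtain ⟨l77, l96, l200⟩ := lev_succ_pow k0
  have hle0 : lev k0 ≤ lev (k0 + 1) := lev_mono (Nat.le_succ k0)
  obtain ⟨b, hb⟩ : ∃ b, b = lev (k0 + 1) := ⟨_, rfl⟩
  obtain ⟨b0, hb0⟩ : ∃ b0, b0 = lev k0 := ⟨_, rfl⟩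
  have hb0' : 1 ≤ b0 := by
    rw [hb0]
    exact one_le_lev k0
  rw [← hb] at hB1 hρ2 hR3 hκ1 hκ2 l77 l96 l200 hle0
  rw [← hb0] at l77 l96 l200 hle0
  have hb1 : 1 ≤ b := hb0'.trans hle0
  have hbp : 0 < b := by linarith
  have hb0p : 0 < b0 := by linarith
  have hM1 : 1 ≤ P.M := P.hM
  have hR1 : 1 ≤ P.R := P.hR
  have hp : ∀ i, 0 < m i := fun i => Mb.pos hm i
  have hb77 : 0 < b ^ 77 := by positivity
  have hb96 : 0 < b ^ 96 := by positivity
  have hb200 : 0 < b ^ 200 := by positivity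
  have hb077 : 0 < b0 ^ 77 := by positivity
  have hb096 : 0 < b0 ^ 96 := by positivity
  have hb0200 : 0 < b0 ^ 200 := by positivity
  have M6 : P.M ^ 6 ≤ P.M ^ 6 * P.R := le_mul_of_one_le_right (by positivity) hR1
  have M26 : P.M ^ 2 ≤ P.M ^ 6 := pow_le_pow_right₀ hM1 (by norm_num)
  have M61 : 1 ≤ P.M ^ 6 := one_le_pow₀ hM1
  have R6 : P.R ≤ P.M ^ 6 * P.R := le_mul_of_one_le_left (by linarith) M61
  have B2 : 10 ^ 4 * P.M ^ 2 ≤ b := by linarith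
  have BR : 10 ^ 4 * P.R ≤ b := by linarith
  have hK2 : 32 ≤ P.K2 := by
    unfold Par.K2
    have : 1 ≤ P.M ^ 4 := one_le_pow₀ hM1
    linarith
  -- distances
  have e8 : 8 / b ^ 77 = 8 * (1 / b ^ 77) := by ring
  have e24 : 24 / b ^ 77 = 24 * (1 / b ^ 77) := by ring
  have e16 : 16 / b ^ 77 = 16 * (1 / b ^ 77) := by ring
  have e4 : 4 / b ^ 77 = 4 * (1 / b ^ 77) := by ring
  have e32 : 32 / b ^ 77 = 32 * (1 / b ^ 77) := by ring
  have s77 : 0 < 1 / b ^ 77 := by positivity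
  have d02 : ‖x.1 0 - x.1 2‖ ≤ 8 / b ^ 77 := by linarith
  have d01 : ‖x.1 0 - x.1 1‖ ≤ 8 / b ^ 77 := (hc 0 2 (by decide)).trans d02
  obtain ⟨hfar, h34⟩ := sc_part hR3 (by linarith) (by linarith)
  have hXT := sc_q3 hp x.1 d01 d02
  have hXQ := (sc_q0 hp x.1).trans d01
  have hT : ∀ j : Fin 5, 3 ≤ j → 16 / b ^ 77 ≤ ‖x.1 j - cm3 m 0 1 2 x.1‖ := by
    intro j hj
    have h1 := hfar 0 j (by decide) hj
    have h2 : ‖x.1 0 - x.1 j‖ ≤ ‖x.1 0 - cm3 m 0 1 2 x.1‖ + ‖x.1 j - cm3 m 0 1 2 x.1‖ := by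
      have h3 : x.1 0 - x.1 j = (x.1 0 - cm3 m 0 1 2 x.1) - (x.1 j - cm3 m 0 1 2 x.1) := by abel
      rw [h3]
      exact norm_sub_le _ _
    linarith
  have hQ : ∀ j : Fin 5, 3 ≤ j → 24 / b ^ 77 ≤ ‖x.1 j - cm m 0 1 x.1‖ := by
    intro j hj
    have h1 := hfar 0 j (by decide) hj
    have h2 : ‖x.1 0 - x.1 j‖ ≤ ‖x.1 0 - cm m 0 1 x.1‖ + ‖x.1 j - cm m 0 1 x.1‖ := by
      have h3 : x.1 0 - x.1 j = (x.1 0 - cm m 0 1 x.1) - (x.1 j - cm m 0 1 x.1) := by abel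
      rw [h3]
      exact norm_sub_le _ _
    linarith
  obtain ⟨hF1, hF2, hr⟩ := sc_FT hm hb1 B2 BR hinv hc hfar h34 (hT 3 (by decide))
    (hT 4 (by decide)) hκ1
  have hR0 : 16 / b0 ^ 77 ≤ Rg 3 x.1 := by
    refine le_trans ?_ hR3
    rw [div_le_div_iff₀ hb077 hb77]
    linarith
  by_cases hall : ∃ i j : Fin 5, i ≤ 2 ∧ j ≤ 2 ∧ 3 * P.K2 / b ^ 96 < ‖x.1 i - x.1 j‖
  · -- strict mode I
    have hr2 : 4 * P.M ^ 2 / b ^ 200 ≤ P.K2 / b ^ 96 / 10 := by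
      have h1 : b ^ 97 ≤ b ^ 200 := pow_le_pow_right₀ hb1 (by norm_num)
      have h2 : 4 * P.M ^ 2 * b ^ 96 ≤ b ^ 97 := by
        have h3 : 4 * P.M ^ 2 ≤ b := by nlinarith
        calc 4 * P.M ^ 2 * b ^ 96 ≤ b * b ^ 96 := mul_le_mul_of_nonneg_right h3 hb96.le
          _ = b ^ 97 := by ring
      rw [div_div, div_le_div_iff₀ hb200 (by positivity)]
      nlinarith
    have hs : 3 * P.K2 / b ^ 96 = 3 * (P.K2 / b ^ 96) := by ring
    have hKp : 0 < P.K2 / b ^ 96 := by positivity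
    have hx2 : 2.9 * P.K2 / b ^ 96 ≤ ‖x.1 2 - cm m 0 1 x.1‖ := by
      have h1 := sc_x2 hp hr (lt_of_le_of_lt hr2 (by rw [hs]; linarith)) hall
      have h2 : 2.9 * P.K2 / b ^ 96 = 2.9 * (P.K2 / b ^ 96) := by ring
      rw [h2]
      rw [hs] at h1
      linarith
    obtain ⟨hFQ, hSI⟩ := sc_SI hm hb1 hB1 hinv hr (sc_far hfar h34) hx2 hQ hκ1
    have hF1' : 1 ≤ FQ m x := by
      have h1 : b ≤ b ^ 200 := le_self_pow₀ hb1 (by norm_num)
      have h2 : (10 : ℝ) ^ 4 ≤ b := by nlinarith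
      linarith
    obtain ⟨k', hk'1, hk'2⟩ := exists_lev hF1'
    have hkk : k0 ≤ k' := by
      by_contra hcon
      have h1 : k' + 1 ≤ k0 := by omega
      have h2 := lev_mono h1
      have h3 : lev (k' + 1) ^ 200 ≤ lev k0 ^ 200 :=
        pow_le_pow_left₀ (by linarith [one_le_lev (k' + 1)]) h2 200
      rw [(lev_succ_pow k').2.2, ← hb0] at h3
      linarith
    have hb' : b0 ≤ lev k' := by
      rw [hb0]
      exact lev_mono hkk
    have h77 : b0 ^ 77 ≤ lev k' ^ 77 := pow_le_pow_left₀ hb0p.le hb' 77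
    have h96 : b0 ^ 96 ≤ lev k' ^ 96 := pow_le_pow_left₀ hb0p.le hb' 96
    have hS := hSI (lev k') (one_le_lev k') hk'1 hk'2.le (by linarith) (by linarith) hR3
    refine ⟨k', by omega, ?_, 1, Or.inl hS⟩
    refine le_trans ?_ hR0
    have h3 : 0 < lev k' ^ 77 := lt_of_lt_of_le hb077 h77
    rw [div_le_div_iff₀ h3 hb077]
    linarith
  · -- mode III
    have hd3 : ∀ i j : Fin 5, i ≤ 2 → j ≤ 2 → ‖x.1 i - x.1 j‖ ≤ 3 * P.K2 / b ^ 96 := by
      intro i j hi hj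
      by_contra hcon
      exact hall ⟨i, j, hi, hj, not_le.1 hcon⟩
    refine ⟨k0, by omega, ?_, 1, Or.inr ?_⟩
    · rw [← hb0]
      refine le_trans ?_ hR0
      exact div_le_div_of_nonneg_right (by norm_num) hb077.le
    · rw [← hb0]
      have hb096le : b0 ^ 96 ≤ b0 ^ 200 := pow_le_pow_right₀ hb0' (by norm_num)
      refine ⟨?_, ?_, ?_, ?_⟩
      · intro i j hi hj
        refine (hd3 i j hi hj).trans ?_
        apply div_le_div_of_nonneg_left (by linarith) hb096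
        exact pow_le_pow_left₀ hb0p.le hle0 96
      · show (1 - 0) * b0 ^ 200 ≤ FT m x - P.L1 b0
        have h1 : P.L1 b0 ≤ b0 ^ 96 := by
          unfold Par.L1
          apply div_le_self hb096.le
          nlinarith
        linarith
      · show FT m x ≤ 20 * b0 ^ 200
        linarith
      · show 1 / (2 * b0 ^ 77) ≤ Rg 3 x.1
        refine le_trans ?_ hR0
        rw [div_le_div_iff₀ (by positivity) hb077]
        linarith

theorem start_T (P : Par) (K : ℕ) : ∃ n0 : ℕ, ∀ n ≥ n0, ∀ m : Fin 5 → ℝ, Mb P.M m →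
    ∀ x : St d, x ∈ Inv m P.R → Closest x.1 → 1 / cn n ^ 20 ≤ Rg 4 x.1 →
    ‖x.1 0 - x.1 2‖ ≤ 2 / cn n ^ 20 → ¬ BadT n m x → StOK P K m x := by
  obtain ⟨n1, hn1⟩ := start_fast (d := d) P K
  obtain ⟨B, hB1, hslow⟩ := sc_slow (d := d) P K
  have hev := cn_tendsto.eventually_ge_atTop (max (4 * B ^ 200) (3 * P.M))
  obtain ⟨n2, hn2⟩ := eventually_atTop.1 hev
  refine ⟨max n1 n2, ?_⟩
  intro n hn m hm x hinv hc hR4 h02 hbad
  have hc1 : 1 ≤ cn n := one_le_cn n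
  have hcb := hn2 n ((le_max_right _ _).trans hn)
  rw [max_le_iff] at hcb
  obtain ⟨hcB, hcM⟩ := hcb
  have hfast := hn1 n ((le_max_left _ _).trans hn) m hm x hinv hc hR4
  obtain ⟨c, hcd⟩ : ∃ c, c = cn n := ⟨_, rfl⟩
  have hcore : ¬ BadCore n ‖x.2 2 - cm m 0 1 x.2‖ (KT m x.2) (KQ m x.2) (Rg 3 x.1) := fun hb =>
    hbad ⟨hc, hR4, h02, hb⟩
  unfold BadCore at hcore
  rw [not_or, not_or] at hcore
  obtain ⟨hc1', hc2, hc3⟩ := hcore
  rw [← hcd] at hc1 hcB hcM hfast hc1' hc2 hc3 h02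
  have hcp : 0 < c := by linarith
  have hM1 : 1 ≤ P.M := P.hM
  have hp : ∀ i, 0 < m i := fun i => Mb.pos hm i
  have hsplit := kq_split_T hp x.2
  have hkt := kt_nonneg hp x.2
  rcases le_or_gt (c ^ 22) ‖x.2 2 - cm m 0 1 x.2‖ with hw | hw
  · -- fast third body
    apply hfast
    · obtain ⟨_, _, _, hμ⟩ := sc_mass hm
      have h1 : (c ^ 22) ^ 2 ≤ ‖x.2 2 - cm m 0 1 x.2‖ ^ 2 := pow_le_pow_left₀ (by positivity) hw 2
      have h2 : 1 / (3 * P.M) * (c ^ 22) ^ 2 ≤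
          (1 / 2) * ((m 0 + m 1) * m 2 / (m 0 + m 1 + m 2)) * ‖x.2 2 - cm m 0 1 x.2‖ ^ 2 := by
        apply mul_le_mul hμ h1 (by positivity)
        exact le_trans (by positivity) hμ
      have h3 : c ^ 43 ≤ 1 / (3 * P.M) * (c ^ 22) ^ 2 := by
        rw [div_mul_eq_mul_div, one_mul, le_div_iff₀ (by positivity)]
        calc c ^ 43 * (3 * P.M) ≤ c ^ 43 * c := mul_le_mul_of_nonneg_left hcM (by positivity)
          _ = (c ^ 22) ^ 2 := by ring
      linarith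
    · intro k hk1 hk2
      by_contra hcon
      apply hc3
      refine ⟨hw, k, hk1, hk2, ?_⟩
      refine lt_of_lt_of_le (not_le.1 hcon) ?_
      exact div_le_div_of_nonneg_right (by norm_num) (by have := one_le_lev k; positivity)
  -- slow third body
  have hκ : c ^ 16 < KT m x.2 := by
    by_contra hcon
    exact hc1' ⟨hw.le, not_lt.1 hcon⟩
  have hκ1 : 1 ≤ KT m x.2 := (one_le_pow₀ hc1).trans hκ.le
  obtain ⟨k, hk1, hk2⟩ := exists_lev hκ1
  have hbp : 0 < lev k := by linarith [one_le_lev k]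
  have hb77 : 0 < lev k ^ 77 := by positivity
  have hR3 : 32 / lev k ^ 77 ≤ Rg 3 x.1 := by
    by_contra hcon
    exact hc2 ⟨hw.le, hκ.le, k, hk1, hk2, not_le.1 hcon⟩
  have hkm := (k_mono hp x.2).1
  rcases le_or_gt (4 / lev k ^ 77) (1 / c ^ 20) with hρ | hρ
  · -- the level is high
    apply hfast
    · have h1 : c ^ 20 ≤ lev k ^ 77 := by
        rw [div_le_div_iff₀ hb77 (by positivity)] at hρ
        have : 0 < c ^ 20 := by positivity
        linarith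
      have h2 : (c ^ 43) ^ 77 ≤ (lev k ^ 200) ^ 77 := by
        calc (c ^ 43) ^ 77 = c ^ 3311 := by rw [← pow_mul]
          _ ≤ c ^ 4000 := pow_le_pow_right₀ hc1 (by norm_num)
          _ = (c ^ 20) ^ 200 := by rw [← pow_mul]
          _ ≤ (lev k ^ 77) ^ 200 := pow_le_pow_left₀ (by positivity) h1 200
          _ = (lev k ^ 200) ^ 77 := by rw [← pow_mul, ← pow_mul]
      have h3 : c ^ 43 ≤ lev k ^ 200 := le_of_pow_le_pow_left₀ (by norm_num) (by positivity) h2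
      linarith
    · intro k' hk'1 hk'2
      have hkk : k ≤ k' := by
        by_contra hcon
        have h1 : k' + 1 ≤ k := by omega
        have h3 : lev (k' + 1) ^ 200 ≤ lev k ^ 200 :=
          pow_le_pow_left₀ (by linarith [one_le_lev (k' + 1)]) (lev_mono h1) 200
        rw [(lev_succ_pow k').2.2] at h3
        linarith
      refine le_trans ?_ hR3
      apply div_le_div₀ (by norm_num) (by norm_num) hb77
      exact pow_le_pow_left₀ hbp.le (lev_mono hkk) 77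
  · -- the level is low
    refine hslow k ?_ m hm x hinv hc (1 / c ^ 20) ?_ hρ hR3 hk1 hk2
    · by_contra hcon
      have h1 : lev k ^ 200 ≤ B ^ 200 := pow_le_pow_left₀ hbp.le (not_le.1 hcon).le 200
      have h2 : c ≤ c ^ 16 := le_self_pow₀ hc1 (by norm_num)
      linarith
    · rw [mul_one_div]
      exact h02

end NB5
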