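import Mathlib
import Pool.Agent.NB5.Defs
import Pool.Agent.NB5.RgB
import Pool.Agent.NB5.HamSplit
import Pool.Agent.NB5.T31
import Pool.Agent.NB5.StB

/-!
# The start near two pairs (project NB5, module NB5-StD)

`c = cn n`, `ρ = 1/c^20`, `κ = KP m x.2`, `w = ‖v 2 - v 3‖`. As in `StC`: if `c^22 ≤ w`, or if `w < c^22` and
`ρ ≥ 4/b^77` (`b = lev k` the level of `κ > c^16`): `start_fast`. Otherwise `ρ < 4/b^77`, `R3 ≥ 32/b^77`, and
`‖q 0 - q 1‖ ≤ ‖q 2 - q 3‖ ≤ 2 ρ < 8/b^77 < R3`, so `{0,1}, {2,3}, {4}` are the classes: all other distances are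
`≥ 32/b^77`. Total energy: `Ham = hp m 0 1 + hp m 2 3 + KP - (sum of the 8 other potential terms)` (`kin_split_Q`,
`kq_split_P`, `pot_pairs`), so `-hp m 0 1 - hp m 2 3 ≥ κ - R - 8 M^2 b^77/32 ≥ 0.98 b^200`.
If `hp m 0 1 ≤ hp m 2 3`: `-hp m 0 1 ≥ 0.49 b^200`, `m 0 m 1/r ≥ -hp m 0 1` so `r ≤ 3 M^2/b^200`, `|tauQ| ≤ 1`
(`‖x_j‖ ≥ 16/b^77`), `FQ = Ham - hp m 0 1 - tauQ`, so `FQ ≥ 0.48 b^200` and `|FQ + hp m 0 1| ≤ R + 1`. Let `k'` be
the level of `FQ` (`lev k'^200 ≤ FQ < 4 lev k'^200`), `k' ≥ k - 1`. `SI P 0 (lev k') m x`: `r ≤ M^2/(FQ - R - 1)`; all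
`‖x_j‖ ≥ 16/b^77`, `h_ge` vacuous; `hard`: `hp m 2 3 ≥ hp m 0 1 ≥ -FQ - R - 1 ≥ -2 FQ`, the other distances are
large; `R3 ≥ 32/b^77 ≥ 1/lev k'^77`.
If `hp m 2 3 < hp m 0 1`: the same for the relabelled state, `σ = swap 0 2 * swap 1 3` (`ham_rel`, `hp_rel`).
-/

open MeasureTheory Set Filter Topology Metric
open scoped NNReal ENNReal RealInnerProductSpace

namespace NB5

open HDN

variable {d : ℕ}

private theorem stD_quot {M : ℝ} {m : Fin 5 → ℝ} (h : Mb M m) (i j : Fin 5) {D δ : ℝ} (hδ : 0 < δ)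
    (hD : δ ≤ D) : m i * m j / D ≤ M ^ 2 / δ := by
  have hi := (h.2 i).2
  have hj := (h.2 j).2
  have hi0 : 0 ≤ m i := (h.pos i).le
  have hj0 : 0 ≤ m j := (h.pos j).le
  have hM : 0 ≤ M := zero_le_one.trans h.1
  have h1 : m i * m j ≤ M ^ 2 := by
    rw [sq]
    exact mul_le_mul hi hj hj0 hM
  exact div_le_div₀ (sq_nonneg M) h1 hδ hD

private theorem stD_cm {m : Fin 5 → ℝ} (hm : ∀ i, 0 < m i) (q : Cf 5 d) :
    ‖q 0 - cm m 0 1 q‖ ≤ ‖q 0 - q 1‖ := by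
  have h0 := hm 0
  have h1 := hm 1
  have hne : m 0 + m 1 ≠ 0 := by positivity
  have h2 : (m 0 + m 1) • (q 0 - cm m 0 1 q) = m 1 • (q 0 - q 1) := by
    unfold cm
    rw [smul_sub, smul_smul, mul_inv_cancel₀ hne, one_smul]
    module
  have h3 := congrArg norm h2
  rw [norm_smul, norm_smul, Real.norm_of_nonneg (by positivity : 0 ≤ m 0 + m 1),
    Real.norm_of_nonneg h1.le] at h3
  have h4 : 0 ≤ m 0 * ‖q 0 - q 1‖ := mul_nonneg h0.le (norm_nonneg _)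
  have h5 : (m 0 + m 1) * ‖q 0 - cm m 0 1 q‖ ≤ (m 0 + m 1) * ‖q 0 - q 1‖ := by
    rw [h3]
    linarith [h4]
  exact le_of_mul_le_mul_left h5 (by positivity)

/-- the distance of an outer body from the centre of mass of the pair -/
private theorem stD_far {m : Fin 5 → ℝ} (hm : ∀ i, 0 < m i) (q : Cf 5 d) (j : Fin 5) :
    ‖q 0 - q j‖ - ‖q 0 - q 1‖ ≤ ‖q j - cm m 0 1 q‖ := by
  have h1 := stD_cm hm q
  have h2 : ‖q 0 - q j‖ ≤ ‖q 0 - cm m 0 1 q‖ + ‖q j - cm m 0 1 q‖ := by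
    have h3 : q 0 - q j = (q 0 - cm m 0 1 q) - (q j - cm m 0 1 q) := by abel
    rw [h3]
    exact norm_sub_le _ _
  linarith

private theorem stD_fin : ∀ j : Fin 5, 2 ≤ j → j = 2 ∨ j = 3 ∨ j = 4 := by decide

/-- the energy of two pairs -/
private theorem stD_ham {m : Fin 5 → ℝ} (hm : ∀ i, 0 < m i) (x : St d) :
    Ham m x = hp m 0 1 x + hp m 2 3 x + KP m x.2 -
      (m 0 * m 2 / ‖x.1 0 - x.1 2‖ + m 0 * m 3 / ‖x.1 0 - x.1 3‖ +
        m 0 * m 4 / ‖x.1 0 - x.1 4‖ + m 1 * m 2 / ‖x.1 1 - x.1 2‖ + m 1 * m 3 / ‖x.1 1 - x.1 3‖ +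
        m 1 * m 4 / ‖x.1 1 - x.1 4‖ + m 2 * m 4 / ‖x.1 2 - x.1 4‖ +
        m 3 * m 4 / ‖x.1 3 - x.1 4‖) := by
  unfold Ham
  rw [kin_split_Q hm, kq_split_P hm, pot_pairs]
  unfold hp
  ring

/-- the core: two pairs, the first one is the harder one -/
private theorem stD_core (P : Par) (K : ℕ) : ∃ k0 : ℕ, ∀ k ≥ k0, ∀ m : Fin 5 → ℝ, Mb P.M m →
    ∀ x : St d, x ∈ Inv m P.R → lev k ^ 200 ≤ KP m x.2 →
    ‖x.1 0 - x.1 1‖ ≤ 8 / lev k ^ 77 →
    32 / lev k ^ 77 ≤ ‖x.1 0 - x.1 2‖ → 32 / lev k ^ 77 ≤ ‖x.1 0 - x.1 3‖ →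
    32 / lev k ^ 77 ≤ ‖x.1 0 - x.1 4‖ → 32 / lev k ^ 77 ≤ ‖x.1 1 - x.1 2‖ →
    32 / lev k ^ 77 ≤ ‖x.1 1 - x.1 3‖ → 32 / lev k ^ 77 ≤ ‖x.1 1 - x.1 4‖ →
    32 / lev k ^ 77 ≤ ‖x.1 2 - x.1 4‖ → 32 / lev k ^ 77 ≤ ‖x.1 3 - x.1 4‖ →
    32 / lev k ^ 77 ≤ Rg 3 x.1 → hp m 0 1 x ≤ hp m 2 3 x →
    ∃ k1, K ≤ k1 ∧ 1 / lev k1 ^ 77 ≤ Rg 3 x.1 ∧ SI P 0 (lev k1) m x := by
  have hM := P.hM
  have hR := P.hR
  obtain ⟨k0, hk0⟩ := (tendsto_atTop_atTop.1 lev_tendsto) (1000 * (P.R + P.M ^ 6))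
  refine ⟨max k0 (K + 1), fun k hk m hm x hx hκ h01 h02 h03 h04 h12 h13 h14 h24 h34 hRg hhp => ?_⟩
  have hkk0 : k0 ≤ k := (le_max_left _ _).trans hk
  have hkK : K + 1 ≤ k := (le_max_right _ _).trans hk
  have hb := hk0 k hkk0
  obtain ⟨k1, rfl⟩ : ∃ k1, k = k1 + 1 := ⟨k - 1, by omega⟩
  obtain ⟨l77, l96, l200⟩ := lev_succ_pow k1
  set b := lev (k1 + 1) with hbdef
  have hmp : ∀ i, 0 < m i := hm.pos
  have hM2 : (1 : ℝ) ≤ P.M ^ 2 := one_le_pow₀ hM
  have hM26 : P.M ^ 2 ≤ P.M ^ 6 := pow_le_pow_right₀ hM (by norm_num)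
  have hM46 : P.M ^ 4 ≤ P.M ^ 6 := pow_le_pow_right₀ hM (by norm_num)
  have hM6 : (1 : ℝ) ≤ P.M ^ 6 := one_le_pow₀ hM
  have hb1000 : (1000 : ℝ) ≤ b := by linarith only [hb, hR, hM6]
  have hbR : 1000 * P.R ≤ b := by linarith only [hb, hM6]
  have hbM : 1000 * P.M ^ 6 ≤ b := by linarith only [hb, hR]
  have hb1 : (1 : ℝ) ≤ b := by linarith only [hb1000]
  have hb0 : (0 : ℝ) < b := by linarith only [hb1000]
  have hp77 : 0 < b ^ 77 := pow_pos hb0 _
  have hp96 : 0 < b ^ 96 := pow_pos hb0 _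
  have hp200 : 0 < b ^ 200 := pow_pos hb0 _
  have h78 : b * b ^ 77 ≤ b ^ 200 := by
    rw [← pow_succ']
    exact pow_le_pow_right₀ hb1 (by norm_num)
  have h1_200 : b ≤ b ^ 200 := by
    calc b = b ^ 1 := (pow_one b).symm
      _ ≤ b ^ 200 := pow_le_pow_right₀ hb1 (by norm_num)
  have h32 : 0 < 32 / b ^ 77 := by positivity
  -- the eight cross terms
  have e0 : P.M ^ 2 / (32 / b ^ 77) = P.M ^ 2 * b ^ 77 / 32 := by
    rw [div_div_eq_mul_div]
  have hMb : P.M ^ 2 * b ^ 77 ≤ b ^ 200 / 1000 := by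
    have h1 : P.M ^ 2 * b ^ 77 ≤ (b / 1000) * b ^ 77 :=
      mul_le_mul_of_nonneg_right (by linarith only [hbM, hM26]) hp77.le
    linarith [h1, h78]
  have q02 := stD_quot hm 0 2 h32 h02
  have q03 := stD_quot hm 0 3 h32 h03
  have q04 := stD_quot hm 0 4 h32 h04
  have q12 := stD_quot hm 1 2 h32 h12
  have q13 := stD_quot hm 1 3 h32 h13
  have q14 := stD_quot hm 1 4 h32 h14
  have q24 := stD_quot hm 2 4 h32 h24
  have q34 := stD_quot hm 3 4 h32 h34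
  rw [e0] at q02 q03 q04 q12 q13 q14 q24 q34
  have hH := abs_le.1 hx.2.1
  have hid := stD_ham hmp x
  have hRb : P.R ≤ b ^ 200 / 1000 := by linarith only [hbR, h1_200]
  -- the pair `{0,1}` is hard
  have hhard : hp m 0 1 x ≤ -(0.49 * b ^ 200) := by
    have h1 : hp m 0 1 x + hp m 2 3 x ≤ -(0.98 * b ^ 200) := by linarith only [hid, hH.1, hH.2, hRb, hMb, q02, q03, q04, q12, q13, q14, q24, q34, hκ, hp200]
    linarith only [h1, hhp]
  have hfree := hx.1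
  have hr0 : 0 < ‖x.1 0 - x.1 1‖ := by
    rw [norm_pos_iff, sub_ne_zero]
    exact hfree 0 1 (by decide)
  set r := ‖x.1 0 - x.1 1‖ with hr
  have hkin0 : 0 ≤ (1 / 2) * (m 0 * m 1 / (m 0 + m 1)) * ‖x.2 0 - x.2 1‖ ^ 2 := by
    have h0 := hmp 0
    have h1 := hmp 1
    positivity
  have hmm : m 0 * m 1 ≤ P.M ^ 2 := by
    have h1 := stD_quot hm 0 1 one_pos (le_refl (1 : ℝ))
    simpa using h1
  have hquot : -(hp m 0 1 x) ≤ m 0 * m 1 / r := by
    unfold hp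
    linarith only [hkin0]
  have hrM : -(hp m 0 1 x) * r ≤ P.M ^ 2 := by
    have h1 := mul_le_mul_of_nonneg_right hquot hr0.le
    rw [div_mul_cancel₀ _ hr0.ne'] at h1
    linarith only [h1, hmm]
  have hr3 : r * b ^ 200 ≤ 3 * P.M ^ 2 := by
    have h1 : 0.49 * b ^ 200 * r ≤ -(hp m 0 1 x) * r :=
      mul_le_mul_of_nonneg_right (by linarith only [hhard]) hr0.le
    have h2 : 0.49 * b ^ 200 * r = 0.49 * (r * b ^ 200) := by ring
    rw [h2] at h1
    linarith only [h1, hrM, hM2]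
  -- distances from the centre of mass
  have hfar : ∀ j : Fin 5, 2 ≤ j → 24 / b ^ 77 ≤ ‖x.1 j - cm m 0 1 x.1‖ := by
    intro j hj
    have h1 := stD_far hmp x.1 j
    have h2 : 32 / b ^ 77 ≤ ‖x.1 0 - x.1 j‖ := by
      rcases stD_fin j hj with rfl | rfl | rfl
      · exact h02
      · exact h03
      · exact h04
    have h3 : 32 / b ^ 77 - 8 / b ^ 77 = 24 / b ^ 77 := by ring
    linarith only [h1, h2, h3, h01]
  have hr4 : 4 * r ≤ 24 / b ^ 77 := by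
    rw [le_div_iff₀ hp77]
    have h1 : 4 * r * b ^ 77 ≤ 4 * r * (b ^ 200 / 1000) := by
      refine mul_le_mul_of_nonneg_left ?_ (by positivity)
      have h2 : (1000 : ℝ) * b ^ 77 ≤ b * b ^ 77 := mul_le_mul_of_nonneg_right hb1000 hp77.le
      linarith only [h2, h78]
    by_cases hc : r * b ^ 77 ≤ 6
    · linarith only [hc]
    · exfalso
      have h3 : r * b ^ 200 ≤ 3 * P.M ^ 2 := hr3
      have h4 : r * (1000 * P.M ^ 2 * b ^ 77) ≤ r * b ^ 200 := by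
        refine mul_le_mul_of_nonneg_left ?_ hr0.le
        linarith only [hMb]
      have h5 : r * (1000 * P.M ^ 2 * b ^ 77) = 1000 * P.M ^ 2 * (r * b ^ 77) := by ring
      rw [h5] at h4
      push Not at hc
      have h6 : 1000 * P.M ^ 2 * 6 < 1000 * P.M ^ 2 * (r * b ^ 77) :=
        mul_lt_mul_of_pos_left hc (by positivity)
      have h7 : 1000 * P.M ^ 2 * 6 < 3 * P.M ^ 2 := h6.trans_le (h4.trans h3)
      linarith only [h7, hM2]
  -- the tidal energy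
  have htau : |tauQ m x.1| ≤ 1 := by
    have h1 := tauQ_le hm hr0 (fun j hj => hr4.trans (hfar j hj))
    refine h1.trans ?_
    have hinv : ∀ j : Fin 5, 2 ≤ j → 1 / ‖x.1 j - cm m 0 1 x.1‖ ^ 3 ≤ (b ^ 77 / 24) ^ 3 := by
      intro j hj
      have h2 := hfar j hj
      have h3 : 0 < 24 / b ^ 77 := by positivity
      have h4 : (24 / b ^ 77) ^ 3 ≤ ‖x.1 j - cm m 0 1 x.1‖ ^ 3 := pow_le_pow_left₀ h3.le h2 3
      have h5 : 1 / ‖x.1 j - cm m 0 1 x.1‖ ^ 3 ≤ 1 / (24 / b ^ 77) ^ 3 :=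
        one_div_le_one_div_of_le (pow_pos h3 3) h4
      refine h5.trans_eq ?_
      rw [one_div, ← inv_pow, inv_div]
    have h2 := hinv 2 (by decide)
    have h3 := hinv 3 (by decide)
    have h4 := hinv 4 (by decide)
    have h5 : 20 * P.M ^ 2 * r ^ 2 * (1 / ‖x.1 2 - cm m 0 1 x.1‖ ^ 3 +
        1 / ‖x.1 3 - cm m 0 1 x.1‖ ^ 3 + 1 / ‖x.1 4 - cm m 0 1 x.1‖ ^ 3) ≤
        20 * P.M ^ 2 * r ^ 2 * (3 * (b ^ 77 / 24) ^ 3) := by
      refine mul_le_mul_of_nonneg_left ?_ (by positivity)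
      linarith only [h2, h3, h4]
    refine h5.trans ?_
    have h6 : (r * b ^ 200) ^ 2 ≤ (3 * P.M ^ 2) ^ 2 := pow_le_pow_left₀ (by positivity) hr3 2
    have h7 : (b ^ 77) ^ 3 * P.M ^ 6 ≤ (b ^ 200) ^ 2 := by
      calc (b ^ 77) ^ 3 * P.M ^ 6 ≤ (b ^ 77) ^ 3 * b :=
            mul_le_mul_of_nonneg_left (by linarith only [hbM, hM6]) (by positivity)
        _ = b ^ 232 := by ring
        _ ≤ b ^ 400 := pow_le_pow_right₀ hb1 (by norm_num)
        _ = (b ^ 200) ^ 2 := by ring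
    have h8 : 20 * P.M ^ 2 * r ^ 2 * (3 * (b ^ 77 / 24) ^ 3) =
        (60 / 13824) * (P.M ^ 2 * r ^ 2 * (b ^ 77) ^ 3) := by ring
    rw [h8]
    have h9 : P.M ^ 2 * r ^ 2 * (b ^ 77) ^ 3 ≤ 9 := by
      have h10 : P.M ^ 2 * r ^ 2 * (b ^ 77) ^ 3 * (b ^ 200) ^ 2 ≤ 9 * (b ^ 200) ^ 2 := by
        calc P.M ^ 2 * r ^ 2 * (b ^ 77) ^ 3 * (b ^ 200) ^ 2
            = P.M ^ 2 * (b ^ 77) ^ 3 * (r * b ^ 200) ^ 2 := by ring
          _ ≤ P.M ^ 2 * (b ^ 77) ^ 3 * (3 * P.M ^ 2) ^ 2 :=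
              mul_le_mul_of_nonneg_left h6 (by positivity)
          _ = 9 * ((b ^ 77) ^ 3 * P.M ^ 6) := by ring
          _ ≤ 9 * (b ^ 200) ^ 2 := by linarith only [h7]
      exact le_of_mul_le_mul_right h10 (by positivity)
    linarith only [h9]
  have htau' := abs_le.1 htau
  have hF := ham_Q hmp x
  have hFlow : 0.48 * b ^ 200 ≤ FQ m x := by linarith only [hF, hhard, htau'.1, htau'.2, hH.1, hH.2, hRb, h1_200, hb1000]
  have hF1 : 1 ≤ FQ m x := by linarith only [hFlow, h1_200, hb1000]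
  obtain ⟨k', hk1, hk2⟩ := exists_lev hF1
  have hkk : k1 ≤ k' := by
    by_contra hcon
    have h1 : k' + 1 ≤ k1 := by omega
    have h2 := (lev_succ_pow k').2.2
    have h3 : lev (k' + 1) ^ 200 ≤ lev k1 ^ 200 :=
      pow_le_pow_left₀ (zero_le_one.trans (one_le_lev _)) (lev_mono h1) _
    have h4 : 0 < lev k1 ^ 200 := pow_pos (zero_lt_one.trans_le (one_le_lev _)) _
    linarith only [h2, h3, h4, l200, hFlow, hk2, hk1]
  have hb'1 : 1 ≤ lev k' := one_le_lev k'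
  have hb'0 : 0 < lev k' := by linarith only [hb'1]
  have hlk : lev k1 ≤ lev k' := lev_mono hkk
  have hlk0 : 0 ≤ lev k1 := zero_le_one.trans (one_le_lev _)
  have g77 : b ^ 77 ≤ 2 * lev k' ^ 77 := by
    have h1 : lev k1 ^ 77 ≤ lev k' ^ 77 := pow_le_pow_left₀ hlk0 hlk _
    linarith only [h1, l77]
  have g96 : b ^ 96 ≤ 2 * lev k' ^ 96 := by
    have h1 : lev k1 ^ 96 ≤ lev k' ^ 96 := pow_le_pow_left₀ hlk0 hlk _
    linarith only [h1, l96]
  set b' := lev k' with hb'def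
  have p77 : 0 < b' ^ 77 := pow_pos hb'0 _
  have p96 : 0 < b' ^ 96 := pow_pos hb'0 _
  have p200 : 0 < b' ^ 200 := pow_pos hb'0 _
  have hR3 : 1 / b' ^ 77 ≤ Rg 3 x.1 := by
    refine le_trans ?_ hRg
    rw [div_le_div_iff₀ p77 hp77]
    linarith only [g77, hp77, p77]
  have h96 : b ^ 77 * b ≤ b ^ 96 := by
    rw [← pow_succ]
    exact pow_le_pow_right₀ hb1 (by norm_num)
  have hMb96 : P.M ^ 4 * b ^ 77 ≤ b ^ 96 / 1000 := by
    have h1 : P.M ^ 4 * b ^ 77 ≤ (b / 1000) * b ^ 77 :=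
      mul_le_mul_of_nonneg_right (by linarith only [hbM, hM46]) hp77.le
    linarith only [h1, h96]
  have hK2 : P.K2 / b' ^ 96 ≤ 24 / b ^ 77 := by
    unfold Par.K2
    rw [div_le_div_iff₀ p96 hp77]
    linarith only [g96, hMb96, p96, hp96]
  have hM4 : (1 : ℝ) ≤ P.M ^ 4 := one_le_pow₀ hM
  refine ⟨k', by omega, hR3, ?_⟩
  refine ⟨?_, ?_, ?_, ?_, ?_, ?_, ?_⟩
  · -- size of the pair
    unfold Par.Cr
    rw [le_div_iff₀ p200]
    have h1 : FQ m x / 2 ≤ -(hp m 0 1 x) := by linarith only [hF, htau'.1, htau'.2, hH.1, hH.2, hRb, hFlow, h1_200, hb1000]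
    have h2 : FQ m x / 2 * r ≤ -(hp m 0 1 x) * r := mul_le_mul_of_nonneg_right h1 hr0.le
    have h3 : r * b' ^ 200 ≤ r * FQ m x := mul_le_mul_of_nonneg_left hk1 hr0.le
    linarith only [h1, h2, h3, hrM, hM2]
  · linarith only [hk1]
  · exact hk2.le
  · intro j hj
    refine le_trans ?_ (hfar j hj)
    refine le_trans ?_ hK2
    unfold Par.K2
    exact div_le_div_of_nonneg_right (by linarith only [hM4]) p96.le
  · intro j hj hlt
    exfalso
    have h1 := hfar j hj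
    linarith only [h1, hlt, hK2]
  · refine le_trans ?_ hR3
    exact one_div_le_one_div_of_le p77 (by linarith only [p77])
  · -- the other pairs are not hard
    have hpair : ∀ i j : Fin 5, 32 / b ^ 77 ≤ ‖x.1 i - x.1 j‖ → -(2 * FQ m x) ≤ hp m i j x := by
      intro i j hij
      have h1 := stD_quot hm i j h32 hij
      rw [e0] at h1
      have h2 : 0 ≤ (1 / 2) * (m i * m j / (m i + m j)) * ‖x.2 i - x.2 j‖ ^ 2 := by
        have h3 := hmp i
        have h4 := hmp j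
        positivity
      unfold hp
      linarith only [h1, h2, hMb, hFlow, h1_200, hb1000]
    have h23 : -(2 * FQ m x) ≤ hp m 2 3 x := by linarith only [hhp, hF, htau'.1, htau'.2, hH.1, hH.2, hRb, hFlow, h1_200, hb1000]
    intro i j hi hj hij
    rcases stD_fin i hi with rfl | rfl | rfl <;> rcases stD_fin j hj with rfl | rfl | rfl
    · exact absurd rfl hij
    · exact h23
    · exact hpair 2 4 h24
    · rw [hp_comm]
      exact h23
    · exact absurd rfl hij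
    · exact hpair 3 4 h34
    · exact hpair 4 2 (by rw [norm_sub_rev]; exact h24)
    · exact hpair 4 3 (by rw [norm_sub_rev]; exact h34)
    · exact absurd rfl hij

private theorem stD_two (p : Fin 5 → Fin 3) (hs : Function.Surjective p) (a b : Fin 3)
    (h : ∀ i, p i = a ∨ p i = b) : False := by
  have h1 : (Finset.univ : Finset (Fin 3)) ⊆ {a, b} := by
    intro c _
    obtain ⟨i, rfl⟩ := hs c
    rw [Finset.mem_insert, Finset.mem_singleton]
    exact h i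
  have h2 := Finset.card_le_card h1
  have h3 : ({a, b} : Finset (Fin 3)).card ≤ 2 := Finset.card_le_two
  rw [Finset.card_univ, Fintype.card_fin] at h2
  omega

private theorem stD_all (P : Fin 5 → Prop) (h0 : P 0) (h1 : P 1) (h2 : P 2) (h3 : P 3) (h4 : P 4) :
    ∀ i, P i := by
  intro i
  have hi : ∀ i : Fin 5, i = 0 ∨ i = 1 ∨ i = 2 ∨ i = 3 ∨ i = 4 := by decide
  rcases hi i with rfl | rfl | rfl | rfl | rfl
  · exact h0
  · exact h1
  · exact h2
  · exact h3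
  · exact h4

private theorem stD_cls (p : Fin 5 → Fin 3) (hs : Function.Surjective p) (h01 : p 0 = p 1)
    (h23 : p 2 = p 3) : p 0 ≠ p 2 ∧ p 0 ≠ p 4 ∧ p 2 ≠ p 4 := by
  refine ⟨fun h => ?_, fun h => ?_, fun h => ?_⟩
  · exact stD_two p hs (p 0) (p 4) (stD_all _ (Or.inl rfl) (Or.inl h01.symm) (Or.inl h.symm)
      (Or.inl (h23.symm.trans h.symm)) (Or.inr rfl))
  · exact stD_two p hs (p 0) (p 2) (stD_all _ (Or.inl rfl) (Or.inl h01.symm) (Or.inr rfl)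
      (Or.inr h23.symm) (Or.inl h.symm))
  · exact stD_two p hs (p 0) (p 2) (stD_all _ (Or.inl rfl) (Or.inl h01.symm) (Or.inr rfl)
      (Or.inr h23.symm) (Or.inr h.symm))

/-- a large relative velocity of `{2,3}` gives a large kinetic energy -/
private theorem stD_kq {M c : ℝ} {m : Fin 5 → ℝ} (h : Mb M m) (hc : 4 * M ≤ c) (v : Cf 5 d)
    (hw : c ^ 22 ≤ ‖v 2 - v 3‖) : c ^ 43 ≤ KQ m v := by
  have hM := h.1
  have hc0 : 0 < c := by linarith
  have h2 := h.pos 2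
  have h3 := h.pos 3
  have hM0 : 0 < M := by linarith
  have hmu : 1 / (2 * M) ≤ m 2 * m 3 / (m 2 + m 3) := by
    rw [div_le_div_iff₀ (by positivity) (by positivity)]
    have h4 := (h.2 2).1
    have h5 := (h.2 3).1
    rw [div_le_iff₀ hM0] at h4 h5
    have h6 : m 3 ≤ m 2 * M * m 3 := by
      have := mul_le_mul_of_nonneg_right h4 h3.le
      linarith
    have h7 : m 2 ≤ m 3 * M * m 2 := by
      have := mul_le_mul_of_nonneg_right h5 h2.le
      linarith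
    linarith
  rw [kq_split_P h.pos]
  have hk := kp_nonneg h.pos v
  have h8 : (c ^ 22) ^ 2 ≤ ‖v 2 - v 3‖ ^ 2 := pow_le_pow_left₀ (by positivity) hw 2
  have h9 : (1 / 2) * (1 / (2 * M)) * (c ^ 22) ^ 2 ≤
      (1 / 2) * (m 2 * m 3 / (m 2 + m 3)) * ‖v 2 - v 3‖ ^ 2 := by
    refine mul_le_mul (mul_le_mul_of_nonneg_left hmu (by norm_num)) h8 (by positivity)
      (by positivity)
  have h10 : c ^ 43 ≤ (1 / 2) * (1 / (2 * M)) * (c ^ 22) ^ 2 := by
    have h11 : (1 / 2) * (1 / (2 * M)) * (c ^ 22) ^ 2 = c ^ 43 * (c / (4 * M)) := by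
      field_simp
      ring
    rw [h11]
    have h12 : 1 ≤ c / (4 * M) := by
      rw [le_div_iff₀ (by positivity)]
      linarith
    have h13 : 0 < c ^ 43 := by positivity
    calc c ^ 43 = c ^ 43 * 1 := (mul_one _).symm
      _ ≤ c ^ 43 * (c / (4 * M)) := mul_le_mul_of_nonneg_left h12 h13.le
  linarith

private theorem stD_pow {b c : ℝ} (hc : 1 ≤ c) (hb : 0 ≤ b) (h : 4 * c ^ 20 ≤ b ^ 77) :
    c ^ 43 ≤ b ^ 200 := by
  have hc0 : 0 ≤ c := by linarith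
  have h1 : c ^ 20 ≤ b ^ 77 := by
    have : 0 ≤ c ^ 20 := by positivity
    linarith
  have h2 : (c ^ 20) ^ 200 ≤ (b ^ 77) ^ 200 := pow_le_pow_left₀ (by positivity) h1 200
  have h3 : (c ^ 43) ^ 77 ≤ (b ^ 200) ^ 77 := by
    have e0 : (43 * 77 : ℕ) ≤ 20 * 200 := by decide
    have e1 : (c ^ 43) ^ 77 ≤ (c ^ 20) ^ 200 := by
      rw [← pow_mul, ← pow_mul]
      exact pow_le_pow_right₀ hc e0
    rw [pow_right_comm b 200 77]
    exact e1.trans h2
  have e2 : 0 ≤ b ^ 200 := pow_nonneg hb 200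
  by_contra hcon
  rw [not_le] at hcon
  have e3 : (b ^ 200) ^ 77 < (c ^ 43) ^ 77 := pow_lt_pow_left₀ hcon e2 (by decide)
  exact absurd h3 (not_le.2 e3)

private theorem stD_lev {k k' : ℕ} {F : ℝ} (h1 : lev k ^ 200 ≤ F) (h2 : F < 4 * lev k' ^ 200) :
    lev k ≤ lev k' := by
  refine lev_mono ?_
  by_contra hcon
  have h3 : k' + 1 ≤ k := by omega
  have h4 := (lev_succ_pow k').2.2
  have h5 : lev (k' + 1) ^ 200 ≤ lev k ^ 200 :=
    pow_le_pow_left₀ (zero_le_one.trans (one_le_lev _)) (lev_mono h3) _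
  linarith

private theorem stD_inv77 {k k' : ℕ} (h : lev k ≤ lev k') (A B : ℝ) (hA : 0 ≤ A) (hAB : A ≤ B) :
    A / lev k' ^ 77 ≤ B / lev k ^ 77 := by
  have h1 : 0 < lev k := zero_lt_one.trans_le (one_le_lev _)
  exact div_le_div₀ (hA.trans hAB) hAB (pow_pos h1 _) (pow_le_pow_left₀ h1.le h _)

theorem start_P (P : Par) (K : ℕ) : ∃ n0 : ℕ, ∀ n ≥ n0, ∀ m : Fin 5 → ℝ, Mb P.M m →
    ∀ x : St d, x ∈ Inv m P.R → Closest x.1 → 1 / cn n ^ 20 ≤ Rg 4 x.1 →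
    ‖x.1 2 - x.1 3‖ ≤ 2 / cn n ^ 20 → ¬ BadP n m x → StOK P K m x := by
  obtain ⟨n1, hn1⟩ := start_fast (d := d) P K
  obtain ⟨k0, hk0⟩ := stD_core (d := d) P K
  obtain ⟨n2, hn2⟩ := (tendsto_atTop_atTop.1 cn_tendsto) (4 * P.M + 4 ^ (k0 + 1))
  have hM := P.hM
  refine ⟨max n1 n2, fun n hn m hm x hx hcl hRg4 h23 hbad => ?_⟩
  have hc := hn2 n ((le_max_right _ _).trans hn)
  have hfast := hn1 n ((le_max_left _ _).trans hn) m hm x hx hcl hRg4
  have hcore : ¬ BadCore n ‖x.2 2 - x.2 3‖ (KP m x.2) (KQ m x.2) (Rg 3 x.1) :=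
    fun h => hbad ⟨hcl, hRg4, h23, h⟩
  have hc1 := one_le_cn n
  set c := cn n with hcdef
  have h4k : (0 : ℝ) < 4 ^ (k0 + 1) := by positivity
  have hcM : 4 * P.M ≤ c := by linarith
  have hck : (4 : ℝ) ^ (k0 + 1) ≤ c := by linarith
  have hc0 : 0 < c := by linarith
  have b1 : ¬ (‖x.2 2 - x.2 3‖ ≤ c ^ 22 ∧ KP m x.2 ≤ c ^ 16) := fun h => hcore (Or.inl h)
  have b2 := fun h => hcore (Or.inr (Or.inl h))
  have b3 := fun h => hcore (Or.inr (Or.inr h))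
  by_cases hw : c ^ 22 ≤ ‖x.2 2 - x.2 3‖
  · refine hfast (stD_kq hm hcM x.2 hw) fun k h1 h2 => ?_
    by_contra hcon
    rw [not_le] at hcon
    refine b3 ⟨hw, k, h1, h2, hcon.trans_le ?_⟩
    exact stD_inv77 (le_refl (lev k)) 2 32 (by norm_num) (by norm_num)
  · rw [not_le] at hw
    have hκ : c ^ 16 < KP m x.2 := by
      by_contra hcon
      exact b1 ⟨hw.le, not_lt.1 hcon⟩
    have hc16 : 1 ≤ c ^ 16 := one_le_pow₀ hc1
    obtain ⟨k, hk1, hk2⟩ := exists_lev (hc16.trans hκ.le)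
    have hR3 : 32 / lev k ^ 77 ≤ Rg 3 x.1 := by
      by_contra hcon
      exact b2 ⟨hw.le, hκ.le, k, hk1, hk2, not_le.1 hcon⟩
    have hlk : 1 ≤ lev k := one_le_lev k
    have hlk0 : 0 < lev k := by linarith
    have hKK := (k_mono hm.pos x.2).2.1
    by_cases hb : 4 * c ^ 20 ≤ lev k ^ 77
    · refine hfast ((stD_pow hc1 hlk0.le hb).trans (hk1.trans hKK)) fun k' h1 h2 => ?_
      have h3 : lev k ≤ lev k' := stD_lev (hk1.trans hKK) h2
      exact (stD_inv77 h3 2 32 (by norm_num) (by norm_num)).trans hR3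
    · rw [not_le] at hb
      have h8 : 2 / c ^ 20 ≤ 8 / lev k ^ 77 := by
        rw [div_le_div_iff₀ (by positivity) (by positivity)]
        linarith
      have d23 : ‖x.1 2 - x.1 3‖ ≤ 8 / lev k ^ 77 := h23.trans h8
      have d01 : ‖x.1 0 - x.1 1‖ ≤ 8 / lev k ^ 77 := (hcl 2 3 (by decide)).trans d23
      have h832 : 8 / lev k ^ 77 < 32 / lev k ^ 77 :=
        div_lt_div_of_pos_right (by norm_num) (by positivity)
      obtain ⟨p, hps, hpp⟩ := (le_Rg_iff (by norm_num) (by norm_num)).1 hR3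
      have p01 : p 0 = p 1 := by
        by_contra hcon
        have := hpp 0 1 hcon
        linarith
      have p23 : p 2 = p 3 := by
        by_contra hcon
        have := hpp 2 3 hcon
        linarith
      obtain ⟨p02, p04, p24⟩ := stD_cls p hps p01 p23
      have h02 := hpp 0 2 p02
      have h03 := hpp 0 3 (by rw [← p23]; exact p02)
      have h04 := hpp 0 4 p04
      have h12 := hpp 1 2 (by rw [← p01]; exact p02)
      have h13 := hpp 1 3 (by rw [← p01, ← p23]; exact p02)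
      have h14 := hpp 1 4 (by rw [← p01]; exact p04)
      have h24 := hpp 2 4 p24
      have h34 := hpp 3 4 (by rw [← p23]; exact p24)
      have hkk : k0 ≤ k := by
        have h1 : c ≤ c ^ 16 := by
          calc c = c ^ 1 := (pow_one c).symm
            _ ≤ c ^ 16 := pow_le_pow_right₀ hc1 (by norm_num)
        have h2 : (4 : ℝ) ^ (k0 + 1) < 4 ^ (k + 1) := by
          rw [lev_pow_twohundred] at hk2
          calc (4 : ℝ) ^ (k0 + 1) ≤ c ^ 16 := hck.trans h1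
            _ < KP m x.2 := hκ
            _ < 4 * 4 ^ k := hk2
            _ = 4 ^ (k + 1) := (pow_succ' _ _).symm
        have h3 := (pow_lt_pow_iff_right₀ (by norm_num : (1 : ℝ) < 4)).1 h2
        omega
      rcases le_total (hp m 0 1 x) (hp m 2 3 x) with hh | hh
      · obtain ⟨k1, hK, hR, hSI⟩ := hk0 k hkk m hm x hx hk1 d01 h02 h03 h04 h12 h13 h14 h24 h34
          hR3 hh
        exact ⟨k1, hK, hR, 1, Or.inl hSI⟩
      · set σ : Equiv.Perm (Fin 5) := Equiv.swap 0 2 * Equiv.swap 1 3 with hσ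
        have s0 : σ 0 = 2 := by decide
        have s1 : σ 1 = 3 := by decide
        have s2 : σ 2 = 0 := by decide
        have s3 : σ 3 = 1 := by decide
        have s4 : σ 4 = 4 := by decide
        have y : ∀ i, (rel σ x).1 i = x.1 (σ i) := fun _ => rfl
        have hKP : KP (m ∘ σ) (rel σ x).2 = KP m x.2 := by
          have e1 : (rel σ x).2 = x.2 ∘ σ := rfl
          rw [e1]
          unfold KP cm
          simp only [Function.comp_apply, s0, s1, s2, s3, s4]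
          ring
        obtain ⟨k1, hK, hR, hSI⟩ := hk0 k hkk (m ∘ σ) (hm.rel σ) (rel σ x) (inv_rel σ hx)
          (by rw [hKP]; exact hk1)
          (by rw [y, y, s0, s1]; exact d23)
          (by rw [y, y, s0, s2, norm_sub_rev]; exact h02)
          (by rw [y, y, s0, s3, norm_sub_rev]; exact h12)
          (by rw [y, y, s0, s4]; exact h24)
          (by rw [y, y, s1, s2, norm_sub_rev]; exact h03)
          (by rw [y, y, s1, s3, norm_sub_rev]; exact h13)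
          (by rw [y, y, s1, s4]; exact h34)
          (by rw [y, y, s2, s4]; exact h04)
          (by rw [y, y, s3, s4]; exact h14)
          (by
            have e1 : (rel σ x).1 = x.1 ∘ σ := rfl
            rw [e1, Rg_rel]
            exact hR3)
          (by rw [hp_rel, hp_rel, s0, s1, s2, s3]; exact hh)
        have e1 : (rel σ x).1 = x.1 ∘ σ := rfl
        rw [e1, Rg_rel] at hR
        exact ⟨k1, hK, hR, σ, Or.inl hSI⟩

end NB5
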