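import Mathlib
import Pool.Agent.NB5.Defs
import Pool.Agent.HDN.XDerA

/-!
# The derivative of `FQ` (project NB5, module NB5-DerFQ)

`FQ m x = HDN.Xred m 0 1 x` (unfold, `others 0 1 = {2, 3, 4}` by `decide`/`rfl`), then
`HDN.xred_hasDeriv` (`Pool/Agent/HDN/XDerA.lean`).
-/

open MeasureTheory Set Filter Topology Metric
open scoped NNReal ENNReal RealInnerProductSpace

namespace NB5

open HDN

variable {d : ℕ} {m : Fin 5 → ℝ}

/-- the quadrupole acceleration of the body `j` caused by the pair `{0,1}` -/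
noncomputable def DQ (m : Fin 5 → ℝ) (q : Cf 5 d) (j : Fin 5) : Sp d :=
  (m 0 + m 1) • grav (q j - cm m 0 1 q) - m 0 • grav (q j - q 0) - m 1 • grav (q j - q 1)

/-- the time derivative of `FQ` -/
noncomputable def dFQ (m : Fin 5 → ℝ) (x : St d) : ℝ :=
  m 2 * ⟪x.2 2 - cm m 0 1 x.2, DQ m x.1 2⟫ + m 3 * ⟪x.2 3 - cm m 0 1 x.2, DQ m x.1 3⟫ +
    m 4 * ⟪x.2 4 - cm m 0 1 x.2, DQ m x.1 4⟫

private theorem others01 : others (0 : Fin 5) 1 = {2, 3, 4} := by decide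

private theorem ge2 : ∀ c : Fin 5, c ∈ ({2, 3, 4} : Finset (Fin 5)) → 2 ≤ c := by decide

private theorem er2 : ({2, 3, 4} : Finset (Fin 5)).erase 2 = {3, 4} := by decide

private theorem er3 : ({2, 3, 4} : Finset (Fin 5)).erase 3 = {2, 4} := by decide

private theorem er4 : ({2, 3, 4} : Finset (Fin 5)).erase 4 = {2, 3} := by decide

private theorem sum3 (f : Fin 5 → ℝ) :
    ∑ c ∈ ({2, 3, 4} : Finset (Fin 5)), f c = f 2 + (f 3 + f 4) := by
  rw [Finset.sum_insert (by decide), Finset.sum_insert (by decide), Finset.sum_singleton]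

private theorem sum2 (f : Fin 5 → ℝ) {a b : Fin 5} (h : a ≠ b) :
    ∑ c ∈ ({a, b} : Finset (Fin 5)), f c = f a + f b := Finset.sum_pair h

theorem FQ_eq_Xred (m : Fin 5 → ℝ) (x : St d) : FQ m x = Xred m 0 1 x := by
  unfold FQ Xred KQ UQ Kred Ured
  rw [others01, sum3, sum3, sum3, er2, er3, er4, sum2 _ (by decide), sum2 _ (by decide),
    sum2 _ (by decide), norm_sub_rev (x.1 3) (x.1 2), norm_sub_rev (x.1 4) (x.1 2),
    norm_sub_rev (x.1 4) (x.1 3)]
  ring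

theorem hasDerivAt_FQ (hm : ∀ i, 0 < m i) {γ : ℝ → St d} {t : ℝ} (hfree : Free (γ t).1)
    (hγ : HasDerivAt γ (nfield m (γ t)) t)
    (hc : ∀ j : Fin 5, 2 ≤ j → 0 < ‖(γ t).1 j - cm m 0 1 (γ t).1‖) :
    HasDerivAt (fun s => FQ m (γ s)) (dFQ m (γ t)) t := by
  have hc' : ∀ c ∈ others (0 : Fin 5) 1, (γ t).1 c ≠ cm m 0 1 (γ t).1 := by
    intro c hcc h
    have h2 : 2 ≤ c := ge2 c (by rw [← others01]; exact hcc)
    have h3 := hc c h2
    rw [h, sub_self, norm_zero] at h3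
    exact lt_irrefl _ h3
  have h1 := xred_hasDeriv hm hfree hγ (show (0 : Fin 5) ≠ 1 by decide) hc'
  have h2 : (fun s => FQ m (γ s)) = fun s => Xred m 0 1 (γ s) := by
    funext s
    exact FQ_eq_Xred m (γ s)
  rw [h2]
  refine h1.congr_deriv ?_
  rw [others01, sum3]
  have key : ∀ j : Fin 5, m j * ⟪cm m 0 1 (γ t).2 - (γ t).2 j,
      m 0 • grav ((γ t).1 j - (γ t).1 0) + m 1 • grav ((γ t).1 j - (γ t).1 1) -
        (m 0 + m 1) • grav ((γ t).1 j - cm m 0 1 (γ t).1)⟫ =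
      m j * ⟪(γ t).2 j - cm m 0 1 (γ t).2, DQ m (γ t).1 j⟫ := by
    intro j
    have e1 : cm m 0 1 (γ t).2 - (γ t).2 j = -((γ t).2 j - cm m 0 1 (γ t).2) := by
      rw [neg_sub]
    have e2 : m 0 • grav ((γ t).1 j - (γ t).1 0) + m 1 • grav ((γ t).1 j - (γ t).1 1) -
        (m 0 + m 1) • grav ((γ t).1 j - cm m 0 1 (γ t).1) = -(DQ m (γ t).1 j) := by
      unfold DQ
      abel
    rw [e1, e2, inner_neg_neg]
  rw [key, key, key]
  unfold dFQ
  ring

end NB5
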