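import Mathlib
import Pool.Agent.NB5.Defs

/-!
# The quadrupole force is Lipschitz (project NB5, modules NB5-GravLipA, NB5-GravLip)

`D y = ∑ i, μ i • grav (y - ξ i) - (∑ i, μ i) • grav y`.
`grav_lip`: direct estimate. `grav_multipole_lip`: with `A = ‖z - a‖`, `B = ‖z‖`,
`grav (z - a) - grav z + grav' (z) a = ψ z • z - χ z • a`,
`ψ = A⁻³ - B⁻³ - 3 ⟪z, a⟫ B⁻⁵`, `χ = A⁻³ - B⁻³`; the mean value inequality for the real functions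
`ψ` and `χ` on the segment.
-/

open MeasureTheory Set Filter Topology Metric
open scoped NNReal ENNReal RealInnerProductSpace

namespace NB5

open HDN

variable {d : ℕ}

/-- `grav` is locally Lipschitz -/
theorem grav_lip {x y : Sp d} (hy : 0 < ‖y‖) (h : 2 * ‖x - y‖ ≤ ‖y‖) :
    ‖grav x - grav y‖ ≤ 100 * ‖x - y‖ / ‖y‖ ^ 3 := by
  have h1 : ‖x‖ ≤ ‖y‖ + ‖x - y‖ := by
    have := norm_add_le y (x - y)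
    simpa using this
  have h2 : ‖y‖ ≤ ‖x‖ + ‖x - y‖ := by
    have := norm_sub_le x (x - y)
    simpa using this
  have ha : 0 < ‖x‖ := by linarith [norm_nonneg (x - y)]
  have key : grav x - grav y = (‖x‖ ^ 3)⁻¹ • (x - y) + ((‖x‖ ^ 3)⁻¹ - (‖y‖ ^ 3)⁻¹) • y := by
    simp only [grav]
    module
  rw [key]
  set a := ‖x‖ with hadef
  set b := ‖y‖ with hbdef
  set r := ‖x - y‖ with hrdef
  have hr0 : 0 ≤ r := norm_nonneg _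
  have hab : |b - a| ≤ r := by
    rw [abs_le]; constructor <;> linarith
  have ha1 : b / 2 ≤ a := by linarith
  have ha2 : a ≤ 3 / 2 * b := by linarith
  have e1 : (a ^ 3)⁻¹ ≤ 8 / b ^ 3 := by
    have h3 : (b / 2) ^ 3 ≤ a ^ 3 := pow_le_pow_left₀ (by positivity) ha1 3
    calc (a ^ 3)⁻¹ ≤ ((b / 2) ^ 3)⁻¹ := inv_anti₀ (by positivity) h3
      _ = 8 / b ^ 3 := by field_simp; norm_num
  have e2 : |(a ^ 3)⁻¹ - (b ^ 3)⁻¹| * b ≤ 38 * r / b ^ 3 := by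
    have h3 : (a ^ 3)⁻¹ - (b ^ 3)⁻¹ = (b - a) * ((a ^ 2 + a * b + b ^ 2) * (b ^ 3)⁻¹) * (a ^ 3)⁻¹ := by
      field_simp
      ring
    rw [h3, abs_mul, abs_mul, abs_of_pos (show 0 < (a ^ 2 + a * b + b ^ 2) * (b ^ 3)⁻¹ by positivity),
      abs_of_pos (show 0 < (a ^ 3)⁻¹ by positivity)]
    have h4 : a ^ 2 + a * b + b ^ 2 ≤ 19 / 4 * b ^ 2 := by nlinarith
    calc |b - a| * ((a ^ 2 + a * b + b ^ 2) * (b ^ 3)⁻¹) * (a ^ 3)⁻¹ * b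
        ≤ r * ((19 / 4 * b ^ 2) * (b ^ 3)⁻¹) * (8 / b ^ 3) * b := by gcongr
      _ = 38 * r / b ^ 3 := by field_simp; ring
  calc ‖(a ^ 3)⁻¹ • (x - y) + ((a ^ 3)⁻¹ - (b ^ 3)⁻¹) • y‖
      ≤ ‖(a ^ 3)⁻¹ • (x - y)‖ + ‖((a ^ 3)⁻¹ - (b ^ 3)⁻¹) • y‖ := norm_add_le _ _
    _ = (a ^ 3)⁻¹ * r + |(a ^ 3)⁻¹ - (b ^ 3)⁻¹| * b := by
      rw [norm_smul, norm_smul, Real.norm_eq_abs, Real.norm_eq_abs,
        abs_of_pos (show 0 < (a ^ 3)⁻¹ by positivity)]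
    _ ≤ 8 / b ^ 3 * r + 38 * r / b ^ 3 := by gcongr
    _ = 46 * r / b ^ 3 := by ring
    _ ≤ 100 * r / b ^ 3 := by gcongr; norm_num

private lemma hd_norm (y h : Sp d) (s : ℝ) (hne : 0 < ‖y + s • h‖) :
    HasDerivAt (fun s : ℝ => ‖y + s • h‖) (⟪y + s • h, h⟫ / ‖y + s • h‖) s := by
  have h1 : HasDerivAt (fun s : ℝ => y + s • h) h s := by
    simpa using ((hasDerivAt_id s).smul_const h).const_add y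
  have h2 := h1.norm_sq
  have h3 := h2.sqrt (by positivity)
  have h4 : (fun s : ℝ => √(‖y + s • h‖ ^ 2)) = fun s : ℝ => ‖y + s • h‖ := by
    funext t
    exact Real.sqrt_sq (norm_nonneg _)
  rw [h4, Real.sqrt_sq (norm_nonneg _)] at h3
  convert h3 using 1
  field_simp

private lemma hd_inv3 (y h : Sp d) (s : ℝ) (hne : 0 < ‖y + s • h‖) :
    HasDerivAt (fun s : ℝ => (‖y + s • h‖ ^ 3)⁻¹)
      (-(3 * ⟪y + s • h, h⟫ * (‖y + s • h‖ ^ 5)⁻¹)) s := by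
  have h1 := ((hd_norm y h s hne).pow 3).fun_inv (pow_ne_zero 3 hne.ne')
  refine h1.congr_deriv ?_
  simp only [Pi.pow_apply]
  field_simp
  try norm_num
  try ring

private lemma hd_inv5 (y h : Sp d) (s : ℝ) (hne : 0 < ‖y + s • h‖) :
    HasDerivAt (fun s : ℝ => (‖y + s • h‖ ^ 5)⁻¹)
      (-(5 * ⟪y + s • h, h⟫ * (‖y + s • h‖ ^ 7)⁻¹)) s := by
  have h1 := ((hd_norm y h s hne).pow 5).fun_inv (pow_ne_zero 5 hne.ne')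
  refine h1.congr_deriv ?_
  simp only [Pi.pow_apply]
  field_simp
  try norm_num
  try ring

private lemma est5 {A B b r : ℝ} (hb : 0 < b) (hA : 3 / 4 * b ≤ A) (hB : 7 / 8 * b ≤ B)
    (hA' : A ≤ 5 / 4 * b) (hB' : B ≤ 9 / 8 * b) (hr : |A - B| ≤ r) :
    |(A ^ 5)⁻¹ - (B ^ 5)⁻¹| ≤ 200 * r / b ^ 6 := by
  have hA0 : 0 < A := by linarith
  have hB0 : 0 < B := by linarith
  have hr0 : 0 ≤ r := le_trans (abs_nonneg _) hr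
  have h3 : (A ^ 5)⁻¹ - (B ^ 5)⁻¹ = (B - A) *
      (A ^ 4 + A ^ 3 * B + A ^ 2 * B ^ 2 + A * B ^ 3 + B ^ 4) * (A ^ 5)⁻¹ * (B ^ 5)⁻¹ := by
    field_simp
    ring
  have hA4 : A ^ 4 ≤ (5 / 4 * b) ^ 4 := pow_le_pow_left₀ hA0.le hA' 4
  have hsum : A ^ 4 + A ^ 3 * B + A ^ 2 * B ^ 2 + A * B ^ 3 + B ^ 4 ≤ 5 * (5 / 4 * b) ^ 4 := by
    have hB'' : B ≤ 5 / 4 * b := by linarith
    have i1 : A ^ 3 * B ≤ (5 / 4 * b) ^ 3 * (5 / 4 * b) := by gcongr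
    have i2 : A ^ 2 * B ^ 2 ≤ (5 / 4 * b) ^ 2 * (5 / 4 * b) ^ 2 := by gcongr
    have i3 : A * B ^ 3 ≤ (5 / 4 * b) * (5 / 4 * b) ^ 3 := by gcongr
    have i4 : B ^ 4 ≤ (5 / 4 * b) ^ 4 := by gcongr
    calc A ^ 4 + A ^ 3 * B + A ^ 2 * B ^ 2 + A * B ^ 3 + B ^ 4
        ≤ (5 / 4 * b) ^ 4 + (5 / 4 * b) ^ 3 * (5 / 4 * b) + (5 / 4 * b) ^ 2 * (5 / 4 * b) ^ 2 +
          (5 / 4 * b) * (5 / 4 * b) ^ 3 + (5 / 4 * b) ^ 4 := by linarith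
      _ = 5 * (5 / 4 * b) ^ 4 := by ring
  have iA : (A ^ 5)⁻¹ ≤ ((3 / 4 * b) ^ 5)⁻¹ :=
    inv_anti₀ (by positivity) (pow_le_pow_left₀ (by positivity) hA 5)
  have iB : (B ^ 5)⁻¹ ≤ ((7 / 8 * b) ^ 5)⁻¹ :=
    inv_anti₀ (by positivity) (pow_le_pow_left₀ (by positivity) hB 5)
  rw [h3, abs_mul, abs_mul, abs_mul,
    abs_of_pos (show 0 < A ^ 4 + A ^ 3 * B + A ^ 2 * B ^ 2 + A * B ^ 3 + B ^ 4 by positivity),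
    abs_of_pos (show 0 < (A ^ 5)⁻¹ by positivity), abs_of_pos (show 0 < (B ^ 5)⁻¹ by positivity),
    abs_sub_comm]
  calc |A - B| * (A ^ 4 + A ^ 3 * B + A ^ 2 * B ^ 2 + A * B ^ 3 + B ^ 4) * (A ^ 5)⁻¹ * (B ^ 5)⁻¹
      ≤ r * (5 * (5 / 4 * b) ^ 4) * ((3 / 4 * b) ^ 5)⁻¹ * ((7 / 8 * b) ^ 5)⁻¹ := by gcongr
    _ = (5 * (5 / 4) ^ 4 * ((3 / 4) ^ 5)⁻¹ * ((7 / 8) ^ 5)⁻¹ : ℝ) * (r / b ^ 6) := by
      field_simp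
    _ ≤ 200 * (r / b ^ 6) := by
      apply mul_le_mul_of_nonneg_right _ (by positivity)
      norm_num
    _ = 200 * r / b ^ 6 := by ring

private lemma est3 {A B b r : ℝ} (hb : 0 < b) (hA : 3 / 4 * b ≤ A) (hB : 7 / 8 * b ≤ B)
    (hA' : A ≤ 5 / 4 * b) (hB' : B ≤ 9 / 8 * b) (hr : |A - B| ≤ r) {p : ℝ}
    (hp : A ^ 2 = B ^ 2 - 2 * p + r ^ 2) :
    |(A ^ 3)⁻¹ - (B ^ 3)⁻¹ - 3 * p * (B ^ 5)⁻¹| ≤ 1000 * r ^ 2 / b ^ 5 := by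
  have hA0 : 0 < A := by linarith
  have hB0 : 0 < B := by linarith
  have hr0 : 0 ≤ r := le_trans (abs_nonneg _) hr
  have hsq : (A - B) ^ 2 ≤ r ^ 2 := by
    rw [← sq_abs (A - B)]
    exact pow_le_pow_left₀ (abs_nonneg _) hr 2
  have hcoef : (A ^ 3)⁻¹ - (B ^ 3)⁻¹ - 3 * p * (B ^ 5)⁻¹
      = (A - B) ^ 2 * (3 * A ^ 3 + 6 * A ^ 2 * B + 4 * A * B ^ 2 + 2 * B ^ 3)
          * (2 * A ^ 3 * B ^ 5)⁻¹ - 3 / 2 * r ^ 2 * (B ^ 5)⁻¹ := by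
    have hp' : p = (B ^ 2 - A ^ 2 + r ^ 2) / 2 := by linarith
    rw [hp']
    field_simp
    ring
  have iA : (A ^ 3)⁻¹ ≤ ((3 / 4 * b) ^ 3)⁻¹ :=
    inv_anti₀ (by positivity) (pow_le_pow_left₀ (by positivity) hA 3)
  have iB : (B ^ 5)⁻¹ ≤ ((7 / 8 * b) ^ 5)⁻¹ :=
    inv_anti₀ (by positivity) (pow_le_pow_left₀ (by positivity) hB 5)
  have hB'' : B ≤ 5 / 4 * b := by linarith
  have hN : 3 * A ^ 3 + 6 * A ^ 2 * B + 4 * A * B ^ 2 + 2 * B ^ 3 ≤ 15 * (5 / 4 * b) ^ 3 := by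
    have i1 : A ^ 3 ≤ (5 / 4 * b) ^ 3 := by gcongr
    have i2 : A ^ 2 * B ≤ (5 / 4 * b) ^ 2 * (5 / 4 * b) := by gcongr
    have i3 : A * B ^ 2 ≤ (5 / 4 * b) * (5 / 4 * b) ^ 2 := by gcongr
    have i4 : B ^ 3 ≤ (5 / 4 * b) ^ 3 := by gcongr
    calc 3 * A ^ 3 + 6 * A ^ 2 * B + 4 * A * B ^ 2 + 2 * B ^ 3
        = 3 * A ^ 3 + 6 * (A ^ 2 * B) + 4 * (A * B ^ 2) + 2 * B ^ 3 := by ring
      _ ≤ 3 * (5 / 4 * b) ^ 3 + 6 * ((5 / 4 * b) ^ 2 * (5 / 4 * b)) +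
          4 * ((5 / 4 * b) * (5 / 4 * b) ^ 2) + 2 * (5 / 4 * b) ^ 3 := by linarith
      _ = 15 * (5 / 4 * b) ^ 3 := by ring
  rw [hcoef]
  have t1 : (A - B) ^ 2 * (3 * A ^ 3 + 6 * A ^ 2 * B + 4 * A * B ^ 2 + 2 * B ^ 3)
      * (2 * A ^ 3 * B ^ 5)⁻¹ ≤ 500 * (r ^ 2 / b ^ 5) := by
    calc (A - B) ^ 2 * (3 * A ^ 3 + 6 * A ^ 2 * B + 4 * A * B ^ 2 + 2 * B ^ 3)
          * (2 * A ^ 3 * B ^ 5)⁻¹
        = (A - B) ^ 2 * (3 * A ^ 3 + 6 * A ^ 2 * B + 4 * A * B ^ 2 + 2 * B ^ 3) * (2⁻¹ : ℝ)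
          * (A ^ 3)⁻¹ * (B ^ 5)⁻¹ := by rw [mul_inv, mul_inv]; ring
      _ ≤ r ^ 2 * (15 * (5 / 4 * b) ^ 3) * (2⁻¹ : ℝ) * ((3 / 4 * b) ^ 3)⁻¹ * ((7 / 8 * b) ^ 5)⁻¹ := by
        gcongr
      _ = (15 * (5 / 4) ^ 3 * 2⁻¹ * ((3 / 4) ^ 3)⁻¹ * ((7 / 8) ^ 5)⁻¹ : ℝ) * (r ^ 2 / b ^ 5) := by
        field_simp
      _ ≤ 500 * (r ^ 2 / b ^ 5) := by
        apply mul_le_mul_of_nonneg_right _ (by positivity)
        norm_num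
  have t2 : 3 / 2 * r ^ 2 * (B ^ 5)⁻¹ ≤ 500 * (r ^ 2 / b ^ 5) := by
    calc 3 / 2 * r ^ 2 * (B ^ 5)⁻¹ ≤ 3 / 2 * r ^ 2 * ((7 / 8 * b) ^ 5)⁻¹ := by gcongr
      _ = (3 / 2 * ((7 / 8) ^ 5)⁻¹ : ℝ) * (r ^ 2 / b ^ 5) := by field_simp
      _ ≤ 500 * (r ^ 2 / b ^ 5) := by
        apply mul_le_mul_of_nonneg_right _ (by positivity)
        norm_num
  have p1 : 0 ≤ (A - B) ^ 2 * (3 * A ^ 3 + 6 * A ^ 2 * B + 4 * A * B ^ 2 + 2 * B ^ 3)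
      * (2 * A ^ 3 * B ^ 5)⁻¹ := by positivity
  have p2 : 0 ≤ 3 / 2 * r ^ 2 * (B ^ 5)⁻¹ := by positivity
  have p3 : 1000 * r ^ 2 / b ^ 5 = 1000 * (r ^ 2 / b ^ 5) := by ring
  have p4 : 0 ≤ r ^ 2 / b ^ 5 := by positivity
  rw [p3, abs_le]
  constructor <;> linarith

private lemma est7 {A B b r : ℝ} (hb : 0 < b) (hA : 3 / 4 * b ≤ A) (hB : 7 / 8 * b ≤ B)
    (hA' : A ≤ 5 / 4 * b) (hB' : B ≤ 9 / 8 * b) (hr : |A - B| ≤ r) {p : ℝ}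
    (hp : A ^ 2 = B ^ 2 - 2 * p + r ^ 2) :
    |(A ^ 5)⁻¹ - (B ^ 5)⁻¹ - 5 * p * (B ^ 7)⁻¹| ≤ 5000 * r ^ 2 / b ^ 7 := by
  have hA0 : 0 < A := by linarith
  have hB0 : 0 < B := by linarith
  have hr0 : 0 ≤ r := le_trans (abs_nonneg _) hr
  have hsq : (A - B) ^ 2 ≤ r ^ 2 := by
    rw [← sq_abs (A - B)]
    exact pow_le_pow_left₀ (abs_nonneg _) hr 2
  have hcoef : (A ^ 5)⁻¹ - (B ^ 5)⁻¹ - 5 * p * (B ^ 7)⁻¹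
      = (A - B) ^ 2 * (5 * A ^ 5 + 10 * A ^ 4 * B + 8 * A ^ 3 * B ^ 2 + 6 * A ^ 2 * B ^ 3
          + 4 * A * B ^ 4 + 2 * B ^ 5) * (2 * A ^ 5 * B ^ 7)⁻¹ - 5 / 2 * r ^ 2 * (B ^ 7)⁻¹ := by
    have hp' : p = (B ^ 2 - A ^ 2 + r ^ 2) / 2 := by linarith
    rw [hp']
    field_simp
    ring
  have iA : (A ^ 5)⁻¹ ≤ ((3 / 4 * b) ^ 5)⁻¹ :=
    inv_anti₀ (by positivity) (pow_le_pow_left₀ (by positivity) hA 5)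
  have iB : (B ^ 7)⁻¹ ≤ ((7 / 8 * b) ^ 7)⁻¹ :=
    inv_anti₀ (by positivity) (pow_le_pow_left₀ (by positivity) hB 7)
  have hB'' : B ≤ 5 / 4 * b := by linarith
  have hN : 5 * A ^ 5 + 10 * A ^ 4 * B + 8 * A ^ 3 * B ^ 2 + 6 * A ^ 2 * B ^ 3
          + 4 * A * B ^ 4 + 2 * B ^ 5 ≤ 35 * (5 / 4 * b) ^ 5 := by
    have i1 : A ^ 5 ≤ (5 / 4 * b) ^ 5 := by gcongr
    have i2 : A ^ 4 * B ≤ (5 / 4 * b) ^ 4 * (5 / 4 * b) := by gcongr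
    have i3 : A ^ 3 * B ^ 2 ≤ (5 / 4 * b) ^ 3 * (5 / 4 * b) ^ 2 := by gcongr
    have i4 : A ^ 2 * B ^ 3 ≤ (5 / 4 * b) ^ 2 * (5 / 4 * b) ^ 3 := by gcongr
    have i5 : A * B ^ 4 ≤ (5 / 4 * b) * (5 / 4 * b) ^ 4 := by gcongr
    have i6 : B ^ 5 ≤ (5 / 4 * b) ^ 5 := by gcongr
    calc 5 * A ^ 5 + 10 * A ^ 4 * B + 8 * A ^ 3 * B ^ 2 + 6 * A ^ 2 * B ^ 3
          + 4 * A * B ^ 4 + 2 * B ^ 5
        = 5 * A ^ 5 + 10 * (A ^ 4 * B) + 8 * (A ^ 3 * B ^ 2) + 6 * (A ^ 2 * B ^ 3)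
          + 4 * (A * B ^ 4) + 2 * B ^ 5 := by ring
      _ ≤ 5 * (5 / 4 * b) ^ 5 + 10 * ((5 / 4 * b) ^ 4 * (5 / 4 * b)) +
          8 * ((5 / 4 * b) ^ 3 * (5 / 4 * b) ^ 2) + 6 * ((5 / 4 * b) ^ 2 * (5 / 4 * b) ^ 3)
          + 4 * ((5 / 4 * b) * (5 / 4 * b) ^ 4) + 2 * (5 / 4 * b) ^ 5 := by linarith
      _ = 35 * (5 / 4 * b) ^ 5 := by ring
  rw [hcoef]
  have t1 : (A - B) ^ 2 * (5 * A ^ 5 + 10 * A ^ 4 * B + 8 * A ^ 3 * B ^ 2 + 6 * A ^ 2 * B ^ 3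
          + 4 * A * B ^ 4 + 2 * B ^ 5) * (2 * A ^ 5 * B ^ 7)⁻¹ ≤ 2500 * (r ^ 2 / b ^ 7) := by
    calc (A - B) ^ 2 * (5 * A ^ 5 + 10 * A ^ 4 * B + 8 * A ^ 3 * B ^ 2 + 6 * A ^ 2 * B ^ 3
          + 4 * A * B ^ 4 + 2 * B ^ 5) * (2 * A ^ 5 * B ^ 7)⁻¹
        = (A - B) ^ 2 * (5 * A ^ 5 + 10 * A ^ 4 * B + 8 * A ^ 3 * B ^ 2 + 6 * A ^ 2 * B ^ 3
          + 4 * A * B ^ 4 + 2 * B ^ 5) * (2⁻¹ : ℝ)
          * (A ^ 5)⁻¹ * (B ^ 7)⁻¹ := by rw [mul_inv, mul_inv]; ring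
      _ ≤ r ^ 2 * (35 * (5 / 4 * b) ^ 5) * (2⁻¹ : ℝ) * ((3 / 4 * b) ^ 5)⁻¹ * ((7 / 8 * b) ^ 7)⁻¹ := by
        gcongr
      _ = (35 * (5 / 4) ^ 5 * 2⁻¹ * ((3 / 4) ^ 5)⁻¹ * ((7 / 8) ^ 7)⁻¹ : ℝ) * (r ^ 2 / b ^ 7) := by
        field_simp
      _ ≤ 2500 * (r ^ 2 / b ^ 7) := by
        apply mul_le_mul_of_nonneg_right _ (by positivity)
        norm_num
  have t2 : 5 / 2 * r ^ 2 * (B ^ 7)⁻¹ ≤ 2500 * (r ^ 2 / b ^ 7) := by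
    calc 5 / 2 * r ^ 2 * (B ^ 7)⁻¹ ≤ 5 / 2 * r ^ 2 * ((7 / 8 * b) ^ 7)⁻¹ := by gcongr
      _ = (5 / 2 * ((7 / 8) ^ 7)⁻¹ : ℝ) * (r ^ 2 / b ^ 7) := by field_simp
      _ ≤ 2500 * (r ^ 2 / b ^ 7) := by
        apply mul_le_mul_of_nonneg_right _ (by positivity)
        norm_num
  have p1 : 0 ≤ (A - B) ^ 2 * (5 * A ^ 5 + 10 * A ^ 4 * B + 8 * A ^ 3 * B ^ 2 + 6 * A ^ 2 * B ^ 3
          + 4 * A * B ^ 4 + 2 * B ^ 5) * (2 * A ^ 5 * B ^ 7)⁻¹ := by positivity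
  have p2 : 0 ≤ 5 / 2 * r ^ 2 * (B ^ 7)⁻¹ := by positivity
  have p3 : 5000 * r ^ 2 / b ^ 7 = 5000 * (r ^ 2 / b ^ 7) := by ring
  have p4 : 0 ≤ r ^ 2 / b ^ 7 := by positivity
  rw [p3, abs_le]
  constructor <;> linarith

/-- the Taylor remainder `ψ • z - χ • a` of `grav` at `z` in the direction `-a` -/
private lemma rem_lip {a y h : Sp d} (hy0 : 0 < ‖y‖) (ha : 8 * ‖a‖ ≤ ‖y‖)
    (hh : 8 * ‖h‖ ≤ ‖y‖) :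
    ‖(grav (y + h - a) - grav (y + h) + ((‖y + h‖ ^ 3)⁻¹ • a -
        (3 * ⟪y + h, a⟫ * (‖y + h‖ ^ 5)⁻¹) • (y + h))) -
      (grav (y - a) - grav y + ((‖y‖ ^ 3)⁻¹ • a - (3 * ⟪y, a⟫ * (‖y‖ ^ 5)⁻¹) • y))‖ ≤
      10 ^ 5 * (‖a‖ ^ 2 * ‖h‖ / ‖y‖ ^ 5) := by
  set b := ‖y‖ with hb
  set r := ‖a‖ with hr
  set k := ‖h‖ with hk
  have hr0 : 0 ≤ r := norm_nonneg _
  have hk0 : 0 ≤ k := norm_nonneg _
  -- norms on the segment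
  have hseg : ∀ s ∈ Icc (0 : ℝ) 1, ‖s • h‖ ≤ k := by
    intro s hs
    rw [norm_smul, Real.norm_eq_abs, abs_of_nonneg hs.1]
    calc s * ‖h‖ ≤ 1 * ‖h‖ := mul_le_mul_of_nonneg_right hs.2 (norm_nonneg _)
      _ = k := by rw [one_mul]
  have hB1 : ∀ s ∈ Icc (0 : ℝ) 1, 7 / 8 * b ≤ ‖y + s • h‖ := by
    intro s hs
    have h1 : ‖y‖ ≤ ‖y + s • h‖ + ‖s • h‖ := by
      have := norm_sub_le (y + s • h) (s • h)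
      simpa using this
    have h2 := hseg s hs
    linarith
  have hB2 : ∀ s ∈ Icc (0 : ℝ) 1, ‖y + s • h‖ ≤ 9 / 8 * b := by
    intro s hs
    have h1 := norm_add_le y (s • h)
    have h2 := hseg s hs
    linarith
  have hA1 : ∀ s ∈ Icc (0 : ℝ) 1, 3 / 4 * b ≤ ‖y - a + s • h‖ := by
    intro s hs
    have h1 : ‖y + s • h‖ ≤ ‖y - a + s • h‖ + ‖a‖ := by
      have := norm_add_le (y - a + s • h) a
      rwa [show y - a + s • h + a = y + s • h by abel] at this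
    have h2 := hB1 s hs
    linarith
  have hA2 : ∀ s ∈ Icc (0 : ℝ) 1, ‖y - a + s • h‖ ≤ 5 / 4 * b := by
    intro s hs
    have h1 : ‖y - a + s • h‖ ≤ ‖y + s • h‖ + ‖a‖ := by
      have := norm_sub_le (y + s • h) a
      rwa [show y + s • h - a = y - a + s • h by abel] at this
    have h2 := hB2 s hs
    linarith
  have hAB : ∀ s : ℝ, |‖y - a + s • h‖ - ‖y + s • h‖| ≤ r := by
    intro s
    have h1 := abs_norm_sub_norm_le (y - a + s • h) (y + s • h)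
    rwa [show y - a + s • h - (y + s • h) = -a by abel, norm_neg] at h1
  have hsqr : ∀ s : ℝ, ‖y - a + s • h‖ ^ 2 = ‖y + s • h‖ ^ 2 - 2 * ⟪y + s • h, a⟫ + r ^ 2 := by
    intro s
    have h1 := norm_sub_sq_real (y + s • h) a
    rwa [show y + s • h - a = y - a + s • h by abel] at h1
  -- the two scalar functions
  set ψ : ℝ → ℝ := fun s => (‖y - a + s • h‖ ^ 3)⁻¹ - (‖y + s • h‖ ^ 3)⁻¹ -
    3 * ⟪y + s • h, a⟫ * (‖y + s • h‖ ^ 5)⁻¹ with hψ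
  set χ : ℝ → ℝ := fun s => (‖y - a + s • h‖ ^ 3)⁻¹ - (‖y + s • h‖ ^ 3)⁻¹ with hχ
  have hin : ∀ s : ℝ, HasDerivAt (fun s : ℝ => ⟪y + s • h, a⟫) ⟪h, a⟫ s := by
    intro s
    have h1 : (fun s : ℝ => ⟪y + s • h, a⟫) = fun s : ℝ => ⟪y, a⟫ + s * ⟪h, a⟫ := by
      funext t
      rw [inner_add_left, real_inner_smul_left]
    rw [h1]
    simpa using ((hasDerivAt_id s).mul_const ⟪h, a⟫).const_add ⟪y, a⟫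
  have hdψ : ∀ s ∈ Icc (0 : ℝ) 1, HasDerivAt ψ
      (-(3 * ⟪y - a + s • h, h⟫ * (‖y - a + s • h‖ ^ 5)⁻¹) -
        -(3 * ⟪y + s • h, h⟫ * (‖y + s • h‖ ^ 5)⁻¹) -
        (3 * ⟪h, a⟫ * (‖y + s • h‖ ^ 5)⁻¹ + 3 * ⟪y + s • h, a⟫ *
          (-(5 * ⟪y + s • h, h⟫ * (‖y + s • h‖ ^ 7)⁻¹)))) s := by
    intro s hs
    have hA0 : 0 < ‖y - a + s • h‖ := by have := hA1 s hs; linarith
    have hB0 : 0 < ‖y + s • h‖ := by have := hB1 s hs; linarith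
    exact ((hd_inv3 (y - a) h s hA0).sub (hd_inv3 y h s hB0)).sub
      (((hin s).const_mul 3).mul (hd_inv5 y h s hB0))
  have hdχ : ∀ s ∈ Icc (0 : ℝ) 1, HasDerivAt χ
      (-(3 * ⟪y - a + s • h, h⟫ * (‖y - a + s • h‖ ^ 5)⁻¹) -
        -(3 * ⟪y + s • h, h⟫ * (‖y + s • h‖ ^ 5)⁻¹)) s := by
    intro s hs
    have hA0 : 0 < ‖y - a + s • h‖ := by have := hA1 s hs; linarith
    have hB0 : 0 < ‖y + s • h‖ := by have := hB1 s hs; linarith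
    exact (hd_inv3 (y - a) h s hA0).sub (hd_inv3 y h s hB0)
  have hia : ∀ s : ℝ, ⟪y - a + s • h, h⟫ = ⟪y + s • h, h⟫ - ⟪h, a⟫ := by
    intro s
    rw [show y - a + s • h = y + s • h - a by abel, inner_sub_left, real_inner_comm h a]
  have hha : |⟪h, a⟫| ≤ k * r := abs_real_inner_le_norm h a
  have hzh : ∀ s ∈ Icc (0 : ℝ) 1, |⟪y + s • h, h⟫| ≤ 9 / 8 * b * k := by
    intro s hs
    calc |⟪y + s • h, h⟫| ≤ ‖y + s • h‖ * ‖h‖ := abs_real_inner_le_norm _ _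
      _ ≤ 9 / 8 * b * k := mul_le_mul_of_nonneg_right (hB2 s hs) hk0
  have hψ1 : ‖ψ 1 - ψ 0‖ ≤ 20000 * (r ^ 2 * k / b ^ 6) := by
    refine norm_image_sub_le_of_norm_deriv_le_segment_01' (f := ψ)
      (fun s hs => (hdψ s hs).hasDerivWithinAt) ?_
    intro s hs'
    have hs : s ∈ Icc (0 : ℝ) 1 := ⟨hs'.1, hs'.2.le⟩
    have e5 := est5 hy0 (hA1 s hs) (hB1 s hs) (hA2 s hs) (hB2 s hs) (hAB s)
    have e7 := est7 hy0 (hA1 s hs) (hB1 s hs) (hA2 s hs) (hB2 s hs) (hAB s) (hsqr s)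
    have z1 := hzh s hs
    rw [hia s, Real.norm_eq_abs]
    set Z := ⟪y + s • h, h⟫
    set P := ⟪h, a⟫
    set A := ‖y - a + s • h‖
    set B := ‖y + s • h‖
    have id1 : -(3 * (Z - P) * (A ^ 5)⁻¹) - -(3 * Z * (B ^ 5)⁻¹) -
        (3 * P * (B ^ 5)⁻¹ + 3 * ⟪y + s • h, a⟫ * (-(5 * Z * (B ^ 7)⁻¹))) =
        (-3) * (Z * ((A ^ 5)⁻¹ - (B ^ 5)⁻¹ - 5 * ⟪y + s • h, a⟫ * (B ^ 7)⁻¹)) +
          3 * (P * ((A ^ 5)⁻¹ - (B ^ 5)⁻¹)) := by ring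
    rw [id1]
    have m1 : |Z * ((A ^ 5)⁻¹ - (B ^ 5)⁻¹ - 5 * ⟪y + s • h, a⟫ * (B ^ 7)⁻¹)| ≤
        (9 / 8 * b * k) * (5000 * r ^ 2 / b ^ 7) := by
      rw [abs_mul]
      exact mul_le_mul z1 e7 (abs_nonneg _) (by positivity)
    have m2 : |P * ((A ^ 5)⁻¹ - (B ^ 5)⁻¹)| ≤ (k * r) * (200 * r / b ^ 6) := by
      rw [abs_mul]
      exact mul_le_mul hha e5 (abs_nonneg _) (by positivity)
    have m3 : (9 / 8 * b * k) * (5000 * r ^ 2 / b ^ 7) = 5625 * (r ^ 2 * k / b ^ 6) := by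
      field_simp
      try norm_num
      try ring
    have m4 : (k * r) * (200 * r / b ^ 6) = 200 * (r ^ 2 * k / b ^ 6) := by ring
    have m5 : 0 ≤ r ^ 2 * k / b ^ 6 := by positivity
    calc |(-3) * (Z * ((A ^ 5)⁻¹ - (B ^ 5)⁻¹ - 5 * ⟪y + s • h, a⟫ * (B ^ 7)⁻¹)) +
          3 * (P * ((A ^ 5)⁻¹ - (B ^ 5)⁻¹))|
        ≤ |(-3) * (Z * ((A ^ 5)⁻¹ - (B ^ 5)⁻¹ - 5 * ⟪y + s • h, a⟫ * (B ^ 7)⁻¹))| +
          |3 * (P * ((A ^ 5)⁻¹ - (B ^ 5)⁻¹))| := abs_add_le _ _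
      _ = 3 * |Z * ((A ^ 5)⁻¹ - (B ^ 5)⁻¹ - 5 * ⟪y + s • h, a⟫ * (B ^ 7)⁻¹)| +
          3 * |P * ((A ^ 5)⁻¹ - (B ^ 5)⁻¹)| := by
        rw [abs_mul (-3), abs_mul 3, abs_neg, abs_of_pos (show (0 : ℝ) < 3 by norm_num)]
      _ ≤ 20000 * (r ^ 2 * k / b ^ 6) := by
        rw [m3] at m1
        rw [m4] at m2
        linarith
  have hχ1 : ‖χ 1 - χ 0‖ ≤ 20000 * (r * k / b ^ 5) := by
    refine norm_image_sub_le_of_norm_deriv_le_segment_01' (f := χ)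
      (fun s hs => (hdχ s hs).hasDerivWithinAt) ?_
    intro s hs'
    have hs : s ∈ Icc (0 : ℝ) 1 := ⟨hs'.1, hs'.2.le⟩
    have e5 := est5 hy0 (hA1 s hs) (hB1 s hs) (hA2 s hs) (hB2 s hs) (hAB s)
    have z1 := hzh s hs
    have a1 := hA1 s hs
    rw [hia s, Real.norm_eq_abs]
    set Z := ⟪y + s • h, h⟫
    set P := ⟪h, a⟫
    set A := ‖y - a + s • h‖
    set B := ‖y + s • h‖
    have id1 : -(3 * (Z - P) * (A ^ 5)⁻¹) - -(3 * Z * (B ^ 5)⁻¹) =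
        (-3) * (Z * ((A ^ 5)⁻¹ - (B ^ 5)⁻¹)) + 3 * (P * (A ^ 5)⁻¹) := by ring
    rw [id1]
    have iA : (A ^ 5)⁻¹ ≤ ((3 / 4 * b) ^ 5)⁻¹ :=
      inv_anti₀ (by positivity) (pow_le_pow_left₀ (by positivity) a1 5)
    have iA0 : 0 ≤ (A ^ 5)⁻¹ := by positivity
    have m1 : |Z * ((A ^ 5)⁻¹ - (B ^ 5)⁻¹)| ≤ (9 / 8 * b * k) * (200 * r / b ^ 6) := by
      rw [abs_mul]
      exact mul_le_mul z1 e5 (abs_nonneg _) (by positivity)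
    have m2 : |P * (A ^ 5)⁻¹| ≤ (k * r) * ((3 / 4 * b) ^ 5)⁻¹ := by
      rw [abs_mul, abs_of_nonneg iA0]
      exact mul_le_mul hha iA iA0 (by positivity)
    have m3 : (9 / 8 * b * k) * (200 * r / b ^ 6) = 225 * (r * k / b ^ 5) := by
      field_simp
      try norm_num
      try ring
    have m4 : (k * r) * ((3 / 4 * b) ^ 5)⁻¹ = (((3 / 4) ^ 5)⁻¹ : ℝ) * (r * k / b ^ 5) := by
      field_simp
    have m6 : (((3 / 4) ^ 5)⁻¹ : ℝ) ≤ 5 := by norm_num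
    have m5 : 0 ≤ r * k / b ^ 5 := by positivity
    have m7 : (((3 / 4) ^ 5)⁻¹ : ℝ) * (r * k / b ^ 5) ≤ 5 * (r * k / b ^ 5) :=
      mul_le_mul_of_nonneg_right m6 m5
    calc |(-3) * (Z * ((A ^ 5)⁻¹ - (B ^ 5)⁻¹)) + 3 * (P * (A ^ 5)⁻¹)|
        ≤ |(-3) * (Z * ((A ^ 5)⁻¹ - (B ^ 5)⁻¹))| + |3 * (P * (A ^ 5)⁻¹)| := abs_add_le _ _
      _ = 3 * |Z * ((A ^ 5)⁻¹ - (B ^ 5)⁻¹)| + 3 * |P * (A ^ 5)⁻¹| := by
        rw [abs_mul (-3), abs_mul 3, abs_neg, abs_of_pos (show (0 : ℝ) < 3 by norm_num)]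
      _ ≤ 20000 * (r * k / b ^ 5) := by
        rw [m3] at m1
        rw [m4] at m2
        linarith
  have hψ0 : |ψ 1| ≤ 1000 * r ^ 2 / b ^ 5 := by
    have h1 : (1 : ℝ) ∈ Icc (0 : ℝ) 1 := ⟨zero_le_one, le_refl _⟩
    exact est3 hy0 (hA1 1 h1) (hB1 1 h1) (hA2 1 h1) (hB2 1 h1) (hAB 1) (hsqr 1)
  have key : (grav (y + h - a) - grav (y + h) + ((‖y + h‖ ^ 3)⁻¹ • a -
        (3 * ⟪y + h, a⟫ * (‖y + h‖ ^ 5)⁻¹) • (y + h))) -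
      (grav (y - a) - grav y + ((‖y‖ ^ 3)⁻¹ • a - (3 * ⟪y, a⟫ * (‖y‖ ^ 5)⁻¹) • y)) =
      ψ 1 • h + (ψ 1 - ψ 0) • y - (χ 1 - χ 0) • a := by
    have e1 : y - a + (1 : ℝ) • h = y + h - a := by rw [one_smul]; abel
    have e2 : y + (1 : ℝ) • h = y + h := by rw [one_smul]
    have e3 : y - a + (0 : ℝ) • h = y - a := by rw [zero_smul, add_zero]
    have e4 : y + (0 : ℝ) • h = y := by rw [zero_smul, add_zero]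
    simp only [hψ, hχ, e1, e2, e3, e4, grav]
    module
  have hbn : b = ‖y‖ := hb
  rw [← hbn] at key
  rw [key]
  have q1 : ‖ψ 1 • h‖ ≤ 1000 * (r ^ 2 * k / b ^ 5) := by
    rw [norm_smul, Real.norm_eq_abs]
    calc |ψ 1| * ‖h‖ ≤ (1000 * r ^ 2 / b ^ 5) * k := mul_le_mul_of_nonneg_right hψ0 hk0
      _ = 1000 * (r ^ 2 * k / b ^ 5) := by ring
  have q2 : ‖(ψ 1 - ψ 0) • y‖ ≤ 20000 * (r ^ 2 * k / b ^ 5) := by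
    rw [norm_smul]
    calc ‖ψ 1 - ψ 0‖ * ‖y‖ ≤ (20000 * (r ^ 2 * k / b ^ 6)) * b :=
          mul_le_mul_of_nonneg_right hψ1 hy0.le
      _ = 20000 * (r ^ 2 * k / b ^ 5) := by field_simp
  have q3 : ‖(χ 1 - χ 0) • a‖ ≤ 20000 * (r ^ 2 * k / b ^ 5) := by
    rw [norm_smul]
    calc ‖χ 1 - χ 0‖ * ‖a‖ ≤ (20000 * (r * k / b ^ 5)) * r :=
          mul_le_mul_of_nonneg_right hχ1 hr0
      _ = 20000 * (r ^ 2 * k / b ^ 5) := by ring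
  have q4 : 0 ≤ r ^ 2 * k / b ^ 5 := by positivity
  calc ‖ψ 1 • h + (ψ 1 - ψ 0) • y - (χ 1 - χ 0) • a‖
      ≤ ‖ψ 1 • h + (ψ 1 - ψ 0) • y‖ + ‖(χ 1 - χ 0) • a‖ := norm_sub_le _ _
    _ ≤ ‖ψ 1 • h‖ + ‖(ψ 1 - ψ 0) • y‖ + ‖(χ 1 - χ 0) • a‖ := by
      gcongr
      exact norm_add_le _ _
    _ ≤ 10 ^ 5 * (r ^ 2 * k / b ^ 5) := by linarith

private lemma lin_sum {ι : Type*} [Fintype ι] {μ : ι → ℝ} {ξ : ι → Sp d}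
    (hs : ∑ i, μ i • ξ i = 0) (z : Sp d) (c e : ℝ) :
    ∑ i, μ i • (c • ξ i - (3 * ⟪z, ξ i⟫ * e) • z) = 0 := by
  have h1 : ∀ i, μ i • (c • ξ i - (3 * ⟪z, ξ i⟫ * e) • z) =
      c • (μ i • ξ i) - ((3 * e) * ⟪z, μ i • ξ i⟫) • z := by
    intro i
    rw [inner_smul_right, smul_sub, smul_comm, smul_smul (μ i)]
    congr 2
    ring
  rw [Finset.sum_congr rfl (fun i _ => h1 i), Finset.sum_sub_distrib, ← Finset.smul_sum, hs,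
    ← Finset.sum_smul, ← Finset.mul_sum, ← inner_sum, hs]
  simp

theorem grav_multipole_lip {ι : Type*} [Fintype ι] {μ : ι → ℝ} {ξ : ι → Sp d} {δ : ℝ}
    {y y' : Sp d} (hμ : ∀ i, 0 ≤ μ i) (hs : ∑ i, μ i • ξ i = 0) (hξ : ∀ i, ‖ξ i‖ ≤ δ)
    (hy0 : 0 < ‖y‖) (hy : 8 * δ ≤ ‖y‖) (hyy : 8 * ‖y' - y‖ ≤ ‖y‖) :
    ‖(∑ i, μ i • grav (y' - ξ i) - (∑ i, μ i) • grav y') -
      (∑ i, μ i • grav (y - ξ i) - (∑ i, μ i) • grav y)‖ ≤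
      10 ^ 6 * (∑ i, μ i) * δ ^ 2 * ‖y' - y‖ / ‖y‖ ^ 5 := by
  set T : ι → Sp d := fun i =>
    (grav (y + (y' - y) - ξ i) - grav (y + (y' - y)) + ((‖y + (y' - y)‖ ^ 3)⁻¹ • ξ i -
        (3 * ⟪y + (y' - y), ξ i⟫ * (‖y + (y' - y)‖ ^ 5)⁻¹) • (y + (y' - y)))) -
      (grav (y - ξ i) - grav y + ((‖y‖ ^ 3)⁻¹ • ξ i - (3 * ⟪y, ξ i⟫ * (‖y‖ ^ 5)⁻¹) • y)) with hT
  have hb : ∀ i, ‖T i‖ ≤ 10 ^ 5 * (δ ^ 2 * ‖y' - y‖ / ‖y‖ ^ 5) := by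
    intro i
    have h1 := rem_lip (a := ξ i) (h := y' - y) hy0 (by linarith [hξ i]) hyy
    refine h1.trans ?_
    have h2 := hξ i
    have h3 := norm_nonneg (ξ i)
    gcongr
  have hyy' : y + (y' - y) = y' := by abel
  have key : (∑ i, μ i • grav (y' - ξ i) - (∑ i, μ i) • grav y') -
      (∑ i, μ i • grav (y - ξ i) - (∑ i, μ i) • grav y) = ∑ i, μ i • T i := by
    have h1 : ∀ i, μ i • T i =
        ((μ i • grav (y' - ξ i) - μ i • grav y') +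
          μ i • ((‖y'‖ ^ 3)⁻¹ • ξ i - (3 * ⟪y', ξ i⟫ * (‖y'‖ ^ 5)⁻¹) • y')) -
        ((μ i • grav (y - ξ i) - μ i • grav y) +
          μ i • ((‖y‖ ^ 3)⁻¹ • ξ i - (3 * ⟪y, ξ i⟫ * (‖y‖ ^ 5)⁻¹) • y)) := by
      intro i
      simp only [hT, hyy']
      simp only [smul_sub, smul_add]
    rw [Finset.sum_congr rfl (fun i _ => h1 i), Finset.sum_sub_distrib, Finset.sum_add_distrib,
      Finset.sum_add_distrib, lin_sum hs, lin_sum hs, add_zero, add_zero,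
      Finset.sum_sub_distrib, Finset.sum_sub_distrib, Finset.sum_smul, Finset.sum_smul]
  rw [key]
  have hμs : 0 ≤ ∑ i, μ i := Finset.sum_nonneg fun i _ => hμ i
  have hq : 0 ≤ δ ^ 2 * ‖y' - y‖ / ‖y‖ ^ 5 := by positivity
  calc ‖∑ i, μ i • T i‖ ≤ ∑ i, ‖μ i • T i‖ := norm_sum_le _ _
    _ ≤ ∑ i, μ i * (10 ^ 5 * (δ ^ 2 * ‖y' - y‖ / ‖y‖ ^ 5)) := by
      refine Finset.sum_le_sum fun i _ => ?_
      rw [norm_smul, Real.norm_eq_abs, abs_of_nonneg (hμ i)]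
      exact mul_le_mul_of_nonneg_left (hb i) (hμ i)
    _ = 10 ^ 5 * ((∑ i, μ i) * (δ ^ 2 * ‖y' - y‖ / ‖y‖ ^ 5)) := by
      rw [← Finset.sum_mul]
      ring
    _ ≤ 10 ^ 6 * ((∑ i, μ i) * (δ ^ 2 * ‖y' - y‖ / ‖y‖ ^ 5)) := by
      apply mul_le_mul_of_nonneg_right _ (mul_nonneg hμs hq)
      norm_num
    _ = 10 ^ 6 * (∑ i, μ i) * δ ^ 2 * ‖y' - y‖ / ‖y‖ ^ 5 := by ring

end NB5
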