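import Mathlib
import Pool.Agent.NB5.Defs
import Pool.Agent.NB5.RelC
import Pool.Agent.NB5.DerFQ
import Pool.Agent.NB5.GravMul
import Pool.Agent.NB5.GravLip
import Pool.Agent.NB5.S1F

/-!
# `FQ` is almost conserved in mode I (project NB5, module NB5-DrI)

`dFQ m x = ∑_j m j ⟪v j - VQ, DQ j⟫`, `‖DQ j‖ ≤ 1000 (m0+m1) r^2 / ‖x_j‖^4` (`grav_multipole`, `ι = Fin 2`,
`ξ = (q 0 - XQ, q 1 - XQ)`), `r ≤ 4 M^2/b^200`, `‖x_j‖ ≥ 1/b^96`.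
Case 1: all distances between the bodies `2,3,4` are `≥ 1/(8 b^77)`: `s1_KQ`, `kq_bound_sub` give
`‖v j - VQ‖ ≤ 9 M b^100`; the sum is `≤ C b^(100-400+384)`.
Case 2: some of them is smaller, after relabelling (`dFQ` is invariant: it is the derivative of `FQ`,
or prove the symmetry directly; `dFQ_swap`) it is `‖q 2 - q 3‖`. `s1_P`, `s1_KP`: all `‖x_j‖ ≥ 1/(3 b^77)`.
With `W = cm m 2 3 v - VQ`, `u = v 2 - v 3`: `m 2 ⟪v 2 - VQ, D2⟫ + m 3 ⟪v 3 - VQ, D3⟫ =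
⟪W, m 2 D2 + m 3 D3⟫ + (m 2 m 3/(m 2+m 3)) ⟪u, D2 - D3⟫`, `‖W‖ ≤ C b^100` (`kp_bound_sub`),
`‖D2 - D3‖ ≤ 10^6 (m0+m1) r^2 ‖q 2 - q 3‖ (3 b^77)^5` (`grav_multipole_lip` if
`8 ‖q 2 - q 3‖ ≤ ‖x_2‖`, else by the triangle inequality), `‖u‖ ‖q 2 - q 3‖ ≤ C (b^100 /b^77 + 1)`
(`‖u‖^2 ≤ C (b^200 + 1/‖q 2 - q 3‖)`). The term of the body 4 as in case 1 (`kp_bound_sub`).
-/

open MeasureTheory Set Filter Topology Metric
open scoped NNReal ENNReal RealInnerProductSpace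

namespace NB5

open HDN

variable {d : ℕ}

private theorem PQ_01 {σ : Equiv.Perm (Fin 5)} (h : PQ σ) :
    (σ 0 = 0 ∧ σ 1 = 1) ∨ (σ 0 = 1 ∧ σ 1 = 0) := by
  have h0 : σ 0 ≤ 1 := (h 0).2 (by decide)
  have h1 : σ 1 ≤ 1 := (h 1).2 le_rfl
  have hne : σ 0 ≠ σ 1 := fun e => by
    have := σ.injective e
    exact absurd this (by decide)
  have key : ∀ a b : Fin 5, a ≤ 1 → b ≤ 1 → a ≠ b → (a = 0 ∧ b = 1) ∨ (a = 1 ∧ b = 0) := by
    decide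
  exact key _ _ h0 h1 hne

private theorem DQ_rel {σ : Equiv.Perm (Fin 5)} (h : PQ σ) (m : Fin 5 → ℝ) (q : Cf 5 d)
    (j : Fin 5) : DQ (m ∘ σ) (q ∘ σ) j = DQ m q (σ j) := by
  rw [DQ, DQ, cm_rel h]
  simp only [Function.comp_apply]
  rcases PQ_01 h with ⟨a, b⟩ | ⟨a, b⟩
  · rw [a, b]
  · rw [a, b, add_comm (m 1) (m 0)]
    abel

/-- `dFQ` is symmetric in the bodies `2, 3, 4` and in `0, 1` -/
theorem dFQ_rel {m : Fin 5 → ℝ} {σ : Equiv.Perm (Fin 5)} (h : PQ σ) (x : St d) :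
    dFQ (m ∘ σ) (rel σ x) = dFQ m x := by
  have hF : ∀ j, (m ∘ σ) j * ⟪(rel σ x).2 j - cm (m ∘ σ) 0 1 (rel σ x).2,
      DQ (m ∘ σ) (rel σ x).1 j⟫ = m (σ j) * ⟪x.2 (σ j) - cm m 0 1 x.2, DQ m x.1 (σ j)⟫ := by
    intro j
    have h1 : cm (m ∘ σ) 0 1 (rel σ x).2 = cm m 0 1 x.2 := cm_rel h x.2
    have h2 : DQ (m ∘ σ) (rel σ x).1 j = DQ m x.1 (σ j) := DQ_rel h m x.1 j
    rw [h1, h2]
    rfl
  rw [dFQ, hF, hF, hF, dFQ]
  have hs := Equiv.sum_comp σ (fun k => m k * ⟪x.2 k - cm m 0 1 x.2, DQ m x.1 k⟫)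
  rw [Fin.sum_univ_five, Fin.sum_univ_five] at hs
  rcases PQ_01 h with ⟨a, b⟩ | ⟨a, b⟩
  · rw [a, b] at hs
    linarith
  · rw [a, b] at hs
    linarith

private theorem sub_cm0 {m : Fin 5 → ℝ} (hs : m 0 + m 1 ≠ 0) (q : Cf 5 d) :
    q 0 - cm m 0 1 q = (m 1 / (m 0 + m 1)) • (q 0 - q 1) := by
  have h : q 0 = ((m 0 + m 1)⁻¹ * (m 0 + m 1)) • q 0 := by
    rw [inv_mul_cancel₀ hs, one_smul]
  have h2 : q 0 - cm m 0 1 q = ((m 0 + m 1)⁻¹ * (m 0 + m 1)) • q 0 - cm m 0 1 q := by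
    rw [← h]
  rw [h2, cm, div_eq_inv_mul]
  module

private theorem sub_cm1 {m : Fin 5 → ℝ} (hs : m 0 + m 1 ≠ 0) (q : Cf 5 d) :
    q 1 - cm m 0 1 q = (m 0 / (m 0 + m 1)) • (q 1 - q 0) := by
  have h : q 1 = ((m 0 + m 1)⁻¹ * (m 0 + m 1)) • q 1 := by
    rw [inv_mul_cancel₀ hs, one_smul]
  have h2 : q 1 - cm m 0 1 q = ((m 0 + m 1)⁻¹ * (m 0 + m 1)) • q 1 - cm m 0 1 q := by
    rw [← h]
  rw [h2, cm, div_eq_inv_mul]
  module

private theorem DQ_eq (m : Fin 5 → ℝ) (q : Cf 5 d) (j : Fin 5) :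
    DQ m q j = -(∑ i : Fin 2, (![m 0, m 1] : Fin 2 → ℝ) i • grav ((q j - cm m 0 1 q) -
      (![q 0 - cm m 0 1 q, q 1 - cm m 0 1 q] : Fin 2 → Sp d) i) -
      (∑ i : Fin 2, (![m 0, m 1] : Fin 2 → ℝ) i) • grav (q j - cm m 0 1 q)) := by
  rw [Fin.sum_univ_two, Fin.sum_univ_two]
  simp only [Matrix.cons_val_zero, Matrix.cons_val_one]
  rw [sub_sub_sub_cancel_right, sub_sub_sub_cancel_right, DQ]
  abel

private theorem pair_nonneg {m : Fin 5 → ℝ} (h0 : 0 < m 0) (h1 : 0 < m 1) :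
    ∀ i : Fin 2, 0 ≤ (![m 0, m 1] : Fin 2 → ℝ) i := by
  intro i
  fin_cases i
  · exact h0.le
  · exact h1.le

private theorem pair_sum {m : Fin 5 → ℝ} (h0 : 0 < m 0) (h1 : 0 < m 1) (q : Cf 5 d) :
    ∑ i : Fin 2, (![m 0, m 1] : Fin 2 → ℝ) i •
      (![q 0 - cm m 0 1 q, q 1 - cm m 0 1 q] : Fin 2 → Sp d) i = 0 := by
  have hs : m 0 + m 1 ≠ 0 := by linarith
  rw [Fin.sum_univ_two]
  simp only [Matrix.cons_val_zero, Matrix.cons_val_one]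
  rw [sub_cm0 hs, sub_cm1 hs, div_eq_mul_inv, div_eq_mul_inv]
  module

private theorem pair_norm {m : Fin 5 → ℝ} (h0 : 0 < m 0) (h1 : 0 < m 1) (q : Cf 5 d) :
    ∀ i : Fin 2, ‖(![q 0 - cm m 0 1 q, q 1 - cm m 0 1 q] : Fin 2 → Sp d) i‖ ≤ ‖q 0 - q 1‖ := by
  have hs : m 0 + m 1 ≠ 0 := by linarith
  have hs' : 0 < m 0 + m 1 := by linarith
  intro i
  fin_cases i
  · change ‖q 0 - cm m 0 1 q‖ ≤ _
    rw [sub_cm0 hs, norm_smul, Real.norm_of_nonneg (by positivity)]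
    have : m 1 / (m 0 + m 1) ≤ 1 := by
      rw [div_le_one hs']
      linarith
    exact mul_le_of_le_one_left (norm_nonneg _) this
  · change ‖q 1 - cm m 0 1 q‖ ≤ _
    rw [sub_cm1 hs, norm_smul, Real.norm_of_nonneg (by positivity), norm_sub_rev (q 1) (q 0)]
    have : m 0 / (m 0 + m 1) ≤ 1 := by
      rw [div_le_one hs']
      linarith
    exact mul_le_of_le_one_left (norm_nonneg _) this

private theorem pair_tot {m : Fin 5 → ℝ} {M : ℝ} (h : Mb M m) :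
    ∑ i : Fin 2, (![m 0, m 1] : Fin 2 → ℝ) i ≤ 2 * M := by
  rw [Fin.sum_univ_two]
  simp only [Matrix.cons_val_zero, Matrix.cons_val_one]
  linarith [(h.2 0).2, (h.2 1).2]

theorem DQ_le {m : Fin 5 → ℝ} {M : ℝ} (h : Mb M m) (q : Cf 5 d) (h01 : q 0 ≠ q 1) {j : Fin 5}
    (hj : 4 * ‖q 0 - q 1‖ ≤ ‖q j - cm m 0 1 q‖) :
    ‖DQ m q j‖ ≤ 2000 * M * ‖q 0 - q 1‖ ^ 2 / ‖q j - cm m 0 1 q‖ ^ 4 := by
  have hr : 0 < ‖q 0 - q 1‖ := norm_pos_iff.2 (sub_ne_zero.2 h01)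
  have hy0 : 0 < ‖q j - cm m 0 1 q‖ := by linarith
  have hmul := grav_multipole (pair_nonneg (h.pos 0) (h.pos 1)) (pair_sum (h.pos 0) (h.pos 1) q)
    (pair_norm (h.pos 0) (h.pos 1) q) hy0 (by linarith)
  rw [DQ_eq, norm_neg]
  refine hmul.trans ?_
  have h2 := pair_tot h
  have h3 : 1000 * (∑ i : Fin 2, (![m 0, m 1] : Fin 2 → ℝ) i) ≤ 2000 * M := by linarith
  gcongr

private theorem DQ_lip {m : Fin 5 → ℝ} {M : ℝ} (h : Mb M m) (q : Cf 5 d) {i j : Fin 5}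
    (hy0 : 0 < ‖q i - cm m 0 1 q‖) (hi : 8 * ‖q 0 - q 1‖ ≤ ‖q i - cm m 0 1 q‖)
    (hij : 8 * ‖q i - q j‖ ≤ ‖q i - cm m 0 1 q‖) :
    ‖DQ m q i - DQ m q j‖ ≤
      2 * 10 ^ 6 * M * ‖q 0 - q 1‖ ^ 2 * ‖q i - q j‖ / ‖q i - cm m 0 1 q‖ ^ 5 := by
  have e1 : ‖(q j - cm m 0 1 q) - (q i - cm m 0 1 q)‖ = ‖q i - q j‖ := by
    rw [sub_sub_sub_cancel_right, norm_sub_rev]
  have hmul := grav_multipole_lip (y' := q j - cm m 0 1 q) (pair_nonneg (h.pos 0) (h.pos 1))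
    (pair_sum (h.pos 0) (h.pos 1) q) (pair_norm (h.pos 0) (h.pos 1) q) hy0 hi (by rw [e1]; exact hij)
  rw [e1] at hmul
  rw [DQ_eq, DQ_eq]
  have e2 : ∀ a b : Sp d, -a - -b = b - a := fun a b => by abel
  rw [e2]
  refine hmul.trans ?_
  have h2 := pair_tot h
  have h3 : 10 ^ 6 * (∑ i : Fin 2, (![m 0, m 1] : Fin 2 → ℝ) i) ≤ 2 * 10 ^ 6 * M := by linarith
  gcongr

private theorem inner_bd {a b : Sp d} {A B : ℝ} (ha : ‖a‖ ≤ A) (hb : ‖b‖ ≤ B) :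
    |(⟪a, b⟫ : ℝ)| ≤ A * B :=
  (abs_real_inner_le_norm a b).trans
    (mul_le_mul ha hb (norm_nonneg _) ((norm_nonneg _).trans ha))

private theorem D_bd {M b r s c : ℝ} {k : ℕ} (hM : 1 ≤ M) (hb : 1 ≤ b) (hc : 0 < c) (hr0 : 0 ≤ r)
    (hr : r ≤ 4 * M ^ 2 / b ^ 200) (hs : 1 / (c * b ^ k) ≤ s) :
    2000 * M * r ^ 2 / s ^ 4 ≤ 32000 * M ^ 5 * c ^ 4 * b ^ (4 * k) / b ^ 400 := by
  have hb0 : 0 < b := by linarith
  calc 2000 * M * r ^ 2 / s ^ 4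
      ≤ 2000 * M * (4 * M ^ 2 / b ^ 200) ^ 2 / (1 / (c * b ^ k)) ^ 4 := by gcongr
    _ = 32000 * M ^ 5 * c ^ 4 * b ^ (4 * k) / b ^ 400 := by
        have e1 : b ^ (4 * k) = (b ^ k) ^ 4 := by rw [mul_comm, pow_mul]
        rw [e1]
        field_simp
        ring

private theorem case1 {M b : ℝ} (hM : 1 ≤ M) (hb : 10 ^ 6 * M ^ 7 ≤ b) {m : Fin 5 → ℝ}
    (hm : Mb M m) {x : St d} (h01 : x.1 0 ≠ x.1 1)
    (hr : ‖x.1 0 - x.1 1‖ ≤ 4 * M ^ 2 / b ^ 200)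
    (hr4 : ∀ j : Fin 5, 2 ≤ j → 4 * ‖x.1 0 - x.1 1‖ ≤ ‖x.1 j - cm m 0 1 x.1‖)
    (hx : ∀ j : Fin 5, 2 ≤ j → 1 / b ^ 96 ≤ ‖x.1 j - cm m 0 1 x.1‖)
    (hK : KQ m x.2 ≤ 9 * b ^ 200) : |dFQ m x| ≤ b ^ 85 := by
  have hM7 : (1 : ℝ) ≤ M ^ 7 := one_le_pow₀ hM
  have hb1 : 1 ≤ b := by linarith
  have hb0 : 0 < b := by linarith
  have hM0 : 0 < M := by linarith
  have hD : ∀ j : Fin 5, 2 ≤ j → ‖DQ m x.1 j‖ ≤ 32000 * M ^ 5 / b ^ 16 := by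
    intro j hj
    refine (DQ_le hm x.1 h01 (hr4 j hj)).trans ?_
    refine (D_bd (c := 1) (k := 96) hM hb1 one_pos (norm_nonneg _) hr
      (by rw [one_mul]; exact hx j hj)).trans (le_of_eq ?_)
    rw [one_pow, mul_one]
    field_simp
  have hV : ∀ j : Fin 5, 2 ≤ j → ‖x.2 j - cm m 0 1 x.2‖ ≤ 9 * M * b ^ 100 := by
    intro j hj
    have h1 := (kq_bound_sub hm x.2).1 j hj
    refine le_of_sq_le_sq (h1.trans ?_) (by positivity)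
    calc 8 * M * KQ m x.2 ≤ 8 * M * (9 * b ^ 200) := by gcongr
      _ ≤ (9 * M * b ^ 100) ^ 2 := by
          have e1 : (9 * M * b ^ 100) ^ 2 = 81 * M ^ 2 * b ^ 200 := by ring
          rw [e1]
          have e2 : 72 * M ≤ 81 * M ^ 2 := by nlinarith
          calc 8 * M * (9 * b ^ 200) = 72 * M * b ^ 200 := by ring
            _ ≤ 81 * M ^ 2 * b ^ 200 := by gcongr
  have hT : ∀ j : Fin 5, 2 ≤ j → |m j * ⟪x.2 j - cm m 0 1 x.2, DQ m x.1 j⟫| ≤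
      288000 * M ^ 7 * b ^ 84 := by
    intro j hj
    have h1 := inner_bd (hV j hj) (hD j hj)
    rw [abs_mul, abs_of_pos (hm.pos j)]
    calc m j * |(⟪x.2 j - cm m 0 1 x.2, DQ m x.1 j⟫ : ℝ)|
        ≤ M * (9 * M * b ^ 100 * (32000 * M ^ 5 / b ^ 16)) :=
          mul_le_mul (hm.2 j).2 h1 (abs_nonneg _) hM0.le
      _ = 288000 * M ^ 7 * b ^ 84 := by
          field_simp
          ring
  have h2 := hT 2 le_rfl
  have h3 := hT 3 (by decide)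
  have h4 := hT 4 (by decide)
  have h5 : |dFQ m x| ≤ 864000 * M ^ 7 * b ^ 84 := by
    rw [dFQ]
    refine (abs_add_three _ _ _).trans ?_
    linarith
  refine h5.trans ?_
  have h6 : 864000 * M ^ 7 ≤ b := by nlinarith
  calc 864000 * M ^ 7 * b ^ 84 ≤ b * b ^ 84 := by gcongr
    _ = b ^ 85 := by ring

private theorem split23 {m : Fin 5 → ℝ} (h2 : 0 < m 2) (h3 : 0 < m 3) (v : Cf 5 d) (V D2 D3 : Sp d) :
    m 2 * (⟪v 2 - V, D2⟫ : ℝ) + m 3 * ⟪v 3 - V, D3⟫ =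
      m 2 * ⟪cm m 2 3 v - V, D2⟫ + m 3 * ⟪cm m 2 3 v - V, D3⟫ +
        (m 2 * m 3 / (m 2 + m 3)) * ⟪v 2 - v 3, D2 - D3⟫ := by
  have hs : m 2 + m 3 ≠ 0 := by linarith
  have e2 : v 2 - V = (cm m 2 3 v - V) + (m 3 / (m 2 + m 3)) • (v 2 - v 3) := by
    have h : v 2 = ((m 2 + m 3)⁻¹ * (m 2 + m 3)) • v 2 := by
      rw [inv_mul_cancel₀ hs, one_smul]
    have h' : v 2 - V = ((m 2 + m 3)⁻¹ * (m 2 + m 3)) • v 2 - V := by
      rw [← h]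
    rw [h', cm, div_eq_inv_mul]
    module
  have e3 : v 3 - V = (cm m 2 3 v - V) - (m 2 / (m 2 + m 3)) • (v 2 - v 3) := by
    have h : v 3 = ((m 2 + m 3)⁻¹ * (m 2 + m 3)) • v 3 := by
      rw [inv_mul_cancel₀ hs, one_smul]
    have h' : v 3 - V = ((m 2 + m 3)⁻¹ * (m 2 + m 3)) • v 3 - V := by
      rw [← h]
    rw [h', cm, div_eq_inv_mul]
    module
  rw [e2, e3]
  generalize cm m 2 3 v - V = W
  generalize v 2 - v 3 = u
  rw [inner_add_left, inner_sub_left, real_inner_smul_left, real_inner_smul_left, inner_sub_right]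
  field_simp
  ring

private theorem case2 {M b : ℝ} (hM : 1 ≤ M) (hb : 10 ^ 12 * M ^ 8 ≤ b) {m : Fin 5 → ℝ}
    (hm : Mb M m) {x : St d} (h01 : x.1 0 ≠ x.1 1)
    (hr : ‖x.1 0 - x.1 1‖ ≤ 4 * M ^ 2 / b ^ 200)
    (hr8 : ∀ j : Fin 5, 2 ≤ j → 8 * ‖x.1 0 - x.1 1‖ ≤ ‖x.1 j - cm m 0 1 x.1‖)
    (hx : ∀ j : Fin 5, 2 ≤ j → 1 / (3 * b ^ 77) ≤ ‖x.1 j - cm m 0 1 x.1‖)
    (h23 : x.1 2 ≠ x.1 3) (h23' : ‖x.1 2 - x.1 3‖ < 1 / (8 * b ^ 77))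
    (hK : KP m x.2 ≤ 34 * b ^ 200)
    (hu : ‖x.2 2 - x.2 3‖ ^ 2 ≤ 40 * M ^ 3 * (b ^ 200 + 1 / ‖x.1 2 - x.1 3‖)) :
    |dFQ m x| ≤ b ^ 85 := by
  have hM8 : (1 : ℝ) ≤ M ^ 8 := one_le_pow₀ hM
  have hb1 : 1 ≤ b := by linarith
  have hb0 : 0 < b := by linarith
  have hM0 : 0 < M := by linarith
  have hρ0 : 0 < ‖x.1 2 - x.1 3‖ := norm_pos_iff.2 (sub_ne_zero.2 h23)
  have hr0 : 0 ≤ ‖x.1 0 - x.1 1‖ := norm_nonneg _
  have hD : ∀ j : Fin 5, 2 ≤ j → ‖DQ m x.1 j‖ ≤ 2592000 * M ^ 5 / b ^ 92 := by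
    intro j hj
    refine (DQ_le hm x.1 h01 (by linarith [hr8 j hj])).trans ?_
    refine (D_bd (c := 3) (k := 77) hM hb1 (by norm_num) (norm_nonneg _) hr (hx j hj)).trans
      (le_of_eq ?_)
    field_simp
    ring
  have hsq : ∀ a : ℝ, a ^ 2 ≤ 8 * M * KP m x.2 → a ≤ 17 * M * b ^ 100 := by
    intro a ha
    refine le_of_sq_le_sq (ha.trans ?_) (by positivity)
    calc 8 * M * KP m x.2 ≤ 8 * M * (34 * b ^ 200) := by gcongr
      _ ≤ (17 * M * b ^ 100) ^ 2 := by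
          have e1 : (17 * M * b ^ 100) ^ 2 = 289 * M ^ 2 * b ^ 200 := by ring
          rw [e1]
          have e2 : 272 * M ≤ 289 * M ^ 2 := by nlinarith
          calc 8 * M * (34 * b ^ 200) = 272 * M * b ^ 200 := by ring
            _ ≤ 289 * M ^ 2 * b ^ 200 := by gcongr
  have hW := hsq _ (kp_bound_sub hm x.2).1
  have h4 := hsq _ (kp_bound_sub hm x.2).2.1
  have hT : ∀ (j k : Fin 5) (w : Sp d), 2 ≤ j → ‖w‖ ≤ 17 * M * b ^ 100 →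
      |m k * ⟪w, DQ m x.1 j⟫| ≤ 44064000 * M ^ 7 * b ^ 8 := by
    intro j k w hj hw
    have h1 := inner_bd hw (hD j hj)
    rw [abs_mul, abs_of_pos (hm.pos k)]
    calc m k * |(⟪w, DQ m x.1 j⟫ : ℝ)|
        ≤ M * (17 * M * b ^ 100 * (2592000 * M ^ 5 / b ^ 92)) :=
          mul_le_mul (hm.2 k).2 h1 (abs_nonneg _) hM0.le
      _ = 44064000 * M ^ 7 * b ^ 8 := by
          field_simp
          ring
  have hmass : |m 2 * m 3 / (m 2 + m 3)| ≤ M := by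
    have p2 := hm.pos 2
    have p3 := hm.pos 3
    rw [abs_of_pos (by positivity), div_le_iff₀ (by linarith)]
    nlinarith [(hm.2 2).2, (hm.2 3).2]
  have hU : ‖x.2 2 - x.2 3‖ * ‖DQ m x.1 2 - DQ m x.1 3‖ ≤ 70000000000 * M ^ 7 * b ^ 8 := by
    rcases le_or_gt (8 * ‖x.1 2 - x.1 3‖) ‖x.1 2 - cm m 0 1 x.1‖ with h8 | h8
    · have hy0 : 0 < ‖x.1 2 - cm m 0 1 x.1‖ := by linarith
      have hl := DQ_lip hm x.1 hy0 (hr8 2 le_rfl) h8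
      have hl2 : ‖DQ m x.1 2 - DQ m x.1 3‖ ≤
          7776000000 * M ^ 5 / b ^ 15 * ‖x.1 2 - x.1 3‖ := by
        refine hl.trans ?_
        have hx2 := hx 2 le_rfl
        calc 2 * 10 ^ 6 * M * ‖x.1 0 - x.1 1‖ ^ 2 * ‖x.1 2 - x.1 3‖ / ‖x.1 2 - cm m 0 1 x.1‖ ^ 5
            ≤ 2 * 10 ^ 6 * M * (4 * M ^ 2 / b ^ 200) ^ 2 * ‖x.1 2 - x.1 3‖ /
                (1 / (3 * b ^ 77)) ^ 5 := by gcongr
          _ = 7776000000 * M ^ 5 / b ^ 15 * ‖x.1 2 - x.1 3‖ := by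
              field_simp
              ring
      have hur : ‖x.2 2 - x.2 3‖ * ‖x.1 2 - x.1 3‖ ≤ 9 * M ^ 2 * b ^ 23 := by
        refine le_of_sq_le_sq ?_ (by positivity)
        have e1 : (‖x.2 2 - x.2 3‖ * ‖x.1 2 - x.1 3‖) ^ 2 =
            ‖x.2 2 - x.2 3‖ ^ 2 * ‖x.1 2 - x.1 3‖ ^ 2 := by ring
        rw [e1]
        have hρ1 : ‖x.1 2 - x.1 3‖ ≤ 1 / b ^ 77 := by
          refine h23'.le.trans ?_
          have : b ^ 77 ≤ 8 * b ^ 77 := by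
            have : 0 < b ^ 77 := by positivity
            linarith
          exact one_div_le_one_div_of_le (by positivity) this
        have hρ2 : ‖x.1 2 - x.1 3‖ ≤ 1 := by
          refine hρ1.trans ?_
          rw [div_le_one (by positivity)]
          exact one_le_pow₀ hb1
        calc ‖x.2 2 - x.2 3‖ ^ 2 * ‖x.1 2 - x.1 3‖ ^ 2
            ≤ 40 * M ^ 3 * (b ^ 200 + 1 / ‖x.1 2 - x.1 3‖) * ‖x.1 2 - x.1 3‖ ^ 2 := by gcongr
          _ = 40 * M ^ 3 * (b ^ 200 * ‖x.1 2 - x.1 3‖ ^ 2 + ‖x.1 2 - x.1 3‖) := by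
              field_simp
          _ ≤ 40 * M ^ 3 * (b ^ 200 * (1 / b ^ 77) ^ 2 + 1) := by gcongr
          _ = 40 * M ^ 3 * (b ^ 46 + 1) := by
              have e2 : b ^ 200 * (1 / b ^ 77) ^ 2 = b ^ 46 := by
                field_simp
              rw [e2]
          _ ≤ 40 * M ^ 3 * (2 * b ^ 46) := by
              have : (1 : ℝ) ≤ b ^ 46 := one_le_pow₀ hb1
              gcongr
              linarith
          _ ≤ (9 * M ^ 2 * b ^ 23) ^ 2 := by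
              have e3 : (9 * M ^ 2 * b ^ 23) ^ 2 = 81 * M ^ 4 * b ^ 46 := by ring
              have e4 : 40 * M ^ 3 * (2 * b ^ 46) = 80 * M ^ 3 * b ^ 46 := by ring
              rw [e3, e4]
              have e5 : 80 * M ^ 3 ≤ 81 * M ^ 4 := by
                have : 0 < M ^ 3 := by positivity
                nlinarith
              gcongr
      calc ‖x.2 2 - x.2 3‖ * ‖DQ m x.1 2 - DQ m x.1 3‖
          ≤ ‖x.2 2 - x.2 3‖ * (7776000000 * M ^ 5 / b ^ 15 * ‖x.1 2 - x.1 3‖) := by gcongr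
        _ = 7776000000 * M ^ 5 / b ^ 15 * (‖x.2 2 - x.2 3‖ * ‖x.1 2 - x.1 3‖) := by ring
        _ ≤ 7776000000 * M ^ 5 / b ^ 15 * (9 * M ^ 2 * b ^ 23) := by gcongr
        _ = 69984000000 * M ^ 7 * b ^ 8 := by
            field_simp
            ring
        _ ≤ 70000000000 * M ^ 7 * b ^ 8 := by
            gcongr
            norm_num
    · have hx2 := hx 2 le_rfl
      have hρ1 : 1 / (24 * b ^ 77) ≤ ‖x.1 2 - x.1 3‖ := by
        have e1 : 1 / (24 * b ^ 77) = 1 / (3 * b ^ 77) / 8 := by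
          field_simp
          norm_num
        rw [e1]
        linarith
      have hinv : 1 / ‖x.1 2 - x.1 3‖ ≤ 24 * b ^ 77 := by
        rw [div_le_iff₀ hρ0]
        rw [div_le_iff₀ (by positivity)] at hρ1
        linarith
      have hun : ‖x.2 2 - x.2 3‖ ≤ 32 * M ^ 2 * b ^ 100 := by
        refine le_of_sq_le_sq (hu.trans ?_) (by positivity)
        have e1 : b ^ 77 ≤ b ^ 200 := pow_le_pow_right₀ hb1 (by norm_num)
        calc 40 * M ^ 3 * (b ^ 200 + 1 / ‖x.1 2 - x.1 3‖)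
            ≤ 40 * M ^ 3 * (b ^ 200 + 24 * b ^ 200) := by
              gcongr
              linarith
          _ = 1000 * M ^ 3 * b ^ 200 := by ring
          _ ≤ (32 * M ^ 2 * b ^ 100) ^ 2 := by
              have e3 : (32 * M ^ 2 * b ^ 100) ^ 2 = 1024 * M ^ 4 * b ^ 200 := by ring
              rw [e3]
              have e5 : 1000 * M ^ 3 ≤ 1024 * M ^ 4 := by
                have : 0 < M ^ 3 := by positivity
                nlinarith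
              gcongr
      have hDD : ‖DQ m x.1 2 - DQ m x.1 3‖ ≤ 5184000 * M ^ 5 / b ^ 92 := by
        refine (norm_sub_le _ _).trans ?_
        have a2 := hD 2 le_rfl
        have a3 := hD 3 (by decide)
        have e1 : 5184000 * M ^ 5 / b ^ 92 = 2592000 * M ^ 5 / b ^ 92 + 2592000 * M ^ 5 / b ^ 92 := by
          ring
        rw [e1]
        exact add_le_add a2 a3
      calc ‖x.2 2 - x.2 3‖ * ‖DQ m x.1 2 - DQ m x.1 3‖
          ≤ (32 * M ^ 2 * b ^ 100) * (5184000 * M ^ 5 / b ^ 92) :=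
            mul_le_mul hun hDD (norm_nonneg _) (by positivity)
        _ = 165888000 * M ^ 7 * b ^ 8 := by
            field_simp
            ring
        _ ≤ 70000000000 * M ^ 7 * b ^ 8 := by
            gcongr
            norm_num
  have hU2 : |m 2 * m 3 / (m 2 + m 3) * ⟪x.2 2 - x.2 3, DQ m x.1 2 - DQ m x.1 3⟫| ≤
      M * (70000000000 * M ^ 7 * b ^ 8) := by
    rw [abs_mul]
    exact mul_le_mul hmass ((abs_real_inner_le_norm _ _).trans hU) (abs_nonneg _) hM0.le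
  have t2 := hT 2 2 _ le_rfl hW
  have t3 := hT 3 3 _ (by decide) hW
  have t4 := hT 4 4 _ (by decide) h4
  have e1 : dFQ m x = m 2 * ⟪cm m 2 3 x.2 - cm m 0 1 x.2, DQ m x.1 2⟫ +
      m 3 * ⟪cm m 2 3 x.2 - cm m 0 1 x.2, DQ m x.1 3⟫ +
      (m 2 * m 3 / (m 2 + m 3)) * ⟪x.2 2 - x.2 3, DQ m x.1 2 - DQ m x.1 3⟫ +
      m 4 * ⟪x.2 4 - cm m 0 1 x.2, DQ m x.1 4⟫ := by
    rw [dFQ, split23 (hm.pos 2) (hm.pos 3)]
  have hM78 : M ^ 7 ≤ M ^ 8 := pow_le_pow_right₀ hM (by norm_num)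
  have h5 : |dFQ m x| ≤ 10 ^ 12 * M ^ 8 * b ^ 8 := by
    rw [e1]
    refine (abs_add_le _ _).trans ?_
    have h6 := abs_add_three (m 2 * ⟪cm m 2 3 x.2 - cm m 0 1 x.2, DQ m x.1 2⟫)
      (m 3 * ⟪cm m 2 3 x.2 - cm m 0 1 x.2, DQ m x.1 3⟫)
      ((m 2 * m 3 / (m 2 + m 3)) * ⟪x.2 2 - x.2 3, DQ m x.1 2 - DQ m x.1 3⟫)
    have hb8 : 0 < b ^ 8 := by positivity
    have h7 : M ^ 7 * b ^ 8 ≤ M ^ 8 * b ^ 8 := by gcongr
    have h8 : M * (70000000000 * M ^ 7 * b ^ 8) = 70000000000 * (M ^ 8 * b ^ 8) := by ring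
    rw [h8] at hU2
    have h9 : 0 < M ^ 8 * b ^ 8 := by positivity
    have h10 : 10 ^ 12 * M ^ 8 * b ^ 8 = 10 ^ 12 * (M ^ 8 * b ^ 8) := by ring
    rw [h10]
    have h11 : 44064000 * M ^ 7 * b ^ 8 = 44064000 * (M ^ 7 * b ^ 8) := by ring
    rw [h11] at t2 t3 t4
    have h12 : (10 : ℝ) ^ 12 = 1000000000000 := by norm_num
    rw [h12]
    linarith
  refine h5.trans ?_
  calc 10 ^ 12 * M ^ 8 * b ^ 8 ≤ b * b ^ 8 := by gcongr
    _ = b ^ 9 := by ring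
    _ ≤ b ^ 85 := pow_le_pow_right₀ hb1 (by norm_num)

private theorem exists_perm (i j : Fin 5) (hi : 2 ≤ i) (hj : 2 ≤ j) (hij : i ≠ j) :
    ∃ σ : Equiv.Perm (Fin 5), PQ σ ∧ σ 2 = i ∧ σ 3 = j := by
  refine ⟨Equiv.swap 2 i * Equiv.swap 3 (Equiv.swap 2 i j), ?_⟩
  unfold PQ
  revert i j
  decide

theorem drift_I (P : Par) : ∃ b0 : ℝ, 1 ≤ b0 ∧ ∀ b ≥ b0, ∀ m : Fin 5 → ℝ, Mb P.M m →
    ∀ x : St d, x ∈ Inv m P.R → S1 P b m x →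
    (∀ j : Fin 5, 2 ≤ j → 1 / b ^ 96 ≤ ‖x.1 j - cm m 0 1 x.1‖) → |dFQ m x| ≤ b ^ 85 := by
  obtain ⟨b1, hb1, hKQ⟩ := s1_KQ (d := d) P
  obtain ⟨b2, hb2, hP⟩ := s1_P (d := d) P
  obtain ⟨b3, hb3, hKP⟩ := s1_KP (d := d) P
  have hM := P.hM
  have hM0 : 0 < P.M := by linarith
  refine ⟨max (max b1 b2) (max b3 (10 ^ 12 * P.M ^ 8)), le_max_of_le_left (le_max_of_le_left hb1),
    fun b hb m hm x hinv hS hx => ?_⟩
  have hc1 : b1 ≤ b := ((le_max_left _ _).trans (le_max_left _ _)).trans hb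
  have hc2 : b2 ≤ b := ((le_max_right _ _).trans (le_max_left _ _)).trans hb
  have hc3 : b3 ≤ b := ((le_max_left _ _).trans (le_max_right _ _)).trans hb
  have hc4 : 10 ^ 12 * P.M ^ 8 ≤ b := ((le_max_right _ _).trans (le_max_right _ _)).trans hb
  have hb' : 1 ≤ b := hb1.trans hc1
  have hb0 : 0 < b := by linarith
  have hM8 : (1 : ℝ) ≤ P.M ^ 8 := one_le_pow₀ hM
  have hM28 : P.M ^ 2 ≤ P.M ^ 8 := pow_le_pow_right₀ hM (by norm_num)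
  have hM78 : P.M ^ 7 ≤ P.M ^ 8 := pow_le_pow_right₀ hM (by norm_num)
  by_cases hall : ∀ i j : Fin 5, 2 ≤ i → 2 ≤ j → i ≠ j → 1 / (8 * b ^ 77) ≤ ‖x.1 i - x.1 j‖
  · have hr : ‖x.1 0 - x.1 1‖ ≤ 4 * P.M ^ 2 / b ^ 200 := hS.r_le
    have hfree : Free x.1 := hinv.1
    have h01 : x.1 0 ≠ x.1 1 := hfree 0 1 (by decide)
    refine case1 hM (by linarith) hm h01 hr (fun j hj => ?_) hx (hKQ b hc1 m hm x hS hall)
    refine le_trans ?_ (hx j hj)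
    have e1 : 16 * P.M ^ 2 ≤ b ^ 104 := by
      have e2 : b ≤ b ^ 104 := le_self_pow₀ hb' (by norm_num)
      linarith
    calc 4 * ‖x.1 0 - x.1 1‖ ≤ 4 * (4 * P.M ^ 2 / b ^ 200) := by linarith
      _ = 16 * P.M ^ 2 / b ^ 200 := by ring
      _ ≤ b ^ 104 / b ^ 200 := by gcongr
      _ = 1 / b ^ 96 := by field_simp
  · push Not at hall
    obtain ⟨i, j, hi, hj, hij, hlt⟩ := hall
    obtain ⟨σ, hσ, h2, h3⟩ := exists_perm i j hi hj hij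
    rw [← dFQ_rel hσ x]
    have hm' := hm.rel σ
    have hS' := hS.rel hσ
    have hinv' := inv_rel σ hinv
    have hfree : Free (rel σ x).1 := hinv'.1
    have e23 : ‖(rel σ x).1 2 - (rel σ x).1 3‖ < 1 / (8 * b ^ 77) := by
      have : (rel σ x).1 2 - (rel σ x).1 3 = x.1 (σ 2) - x.1 (σ 3) := rfl
      rw [this, h2, h3]
      exact hlt
    have e23' : ‖(rel σ x).1 2 - (rel σ x).1 3‖ < 1 / (2 * b ^ 77) := by
      refine e23.trans_le (one_div_le_one_div_of_le (by positivity) ?_)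
      have : 0 < b ^ 77 := by positivity
      linarith
    have hr : ‖(rel σ x).1 0 - (rel σ x).1 1‖ ≤ 4 * P.M ^ 2 / b ^ 200 := hS'.r_le
    obtain ⟨-, -, -, hfar⟩ := hP b hc2 _ hm' _ hS' e23'
    obtain ⟨k1, k2⟩ := hKP b hc3 _ hm' _ hfree hS' e23'
    refine case2 hM hc4 hm' (hfree 0 1 (by decide)) hr (fun j hj => ?_) hfar
      (hfree 2 3 (by decide)) e23 k1 k2
    refine le_trans ?_ (hfar j hj)
    have e1 : 96 * P.M ^ 2 ≤ b ^ 123 := by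
      have e2 : b ≤ b ^ 123 := le_self_pow₀ hb' (by norm_num)
      linarith
    calc 8 * ‖(rel σ x).1 0 - (rel σ x).1 1‖ ≤ 8 * (4 * P.M ^ 2 / b ^ 200) := by linarith
      _ = 96 * P.M ^ 2 / (3 * b ^ 200) := by
          field_simp
          norm_num
      _ ≤ b ^ 123 / (3 * b ^ 200) := by gcongr
      _ = 1 / (3 * b ^ 77) := by field_simp

end NB5
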