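import Mathlib
import Pool.Agent.NB5.Defs
import Pool.Agent.NB5.GravMul
import Pool.Agent.NB5.GravLip
import Pool.Agent.HDN.XDerA

/-!
# Motion of the body 2 relative to the pair (project NB5, module NB5-RelMot)

`acc m q 2 - cm m 0 1 (acc m q)`. Put `x = q 2 - XQ`, `r = ‖q 0 - q 1‖`. The inner forces of the pair
cancel in `cm m 0 1 (acc m q)`. The part of `acc 2` caused by the pair is
`-(m 0 • grav (q 2 - q 0) + m 1 • grav (q 2 - q 1)) = -(m 0 + m 1) • grav x + O(1000 (m0+m1) r^2/‖x‖^4)`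
(`grav_multipole`, `ι = Fin 2`), the reaction on the pair gives `-(m 2) • grav x + O(..)`. For
`j = 3, 4`: `m j • (grav (q j - q 2) - grav (q j - XQ))`, `grav_lip`, plus
`m j • (grav (q j - XQ) - (m0+m1)⁻¹ • (m 0 • grav (q j - q 0) + m 1 • grav (q j - q 1)))`, of norm at
most `1000 m j r^2 / ‖q j - XQ‖^4 ≤ 1000 m j ‖x‖ / ‖q j - XQ‖^3`.
-/

open MeasureTheory Set Filter Topology Metric
open scoped NNReal ENNReal RealInnerProductSpace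

namespace NB5

open HDN

variable {d : ℕ} {m : Fin 5 → ℝ} {M : ℝ}

/-- the perturbation of the relative Kepler motion of the body 2 -/
noncomputable def pQ (m : Fin 5 → ℝ) (q : Cf 5 d) : Sp d :=
  acc m q 2 - cm m 0 1 (acc m q) + (m 0 + m 1 + m 2) • grav (q 2 - cm m 0 1 q)

private theorem rm_comp1 {γ : ℝ → St d} {t : ℝ} (hγ : HasDerivAt γ (nfield m (γ t)) t)
    (i : Fin 5) : HasDerivAt (fun s => (γ s).1 i) ((γ t).2 i) t := by
  have h1 : HasDerivAt (fun s => (γ s).1) ((nfield m (γ t)).1) t := hγ.fst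
  exact (hasDerivAt_pi.1 h1) i

private theorem rm_comp2 {γ : ℝ → St d} {t : ℝ} (hγ : HasDerivAt γ (nfield m (γ t)) t)
    (i : Fin 5) : HasDerivAt (fun s => (γ s).2 i) (acc m (γ t).1 i) t := by
  have h1 : HasDerivAt (fun s => (γ s).2) ((nfield m (γ t)).2) t := hγ.snd
  exact (hasDerivAt_pi.1 h1) i

theorem hasDerivAt_x2 {γ : ℝ → St d} {t : ℝ} (hγ : HasDerivAt γ (nfield m (γ t)) t) :
    HasDerivAt (fun s => (γ s).1 2 - cm m 0 1 (γ s).1) ((γ t).2 2 - cm m 0 1 (γ t).2) t :=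
  (rm_comp1 hγ 2).sub (XDerA.cm_deriv (γ := fun s => (γ s).1) (rm_comp1 hγ))

theorem hasDerivAt_w2 {γ : ℝ → St d} {t : ℝ} (hγ : HasDerivAt γ (nfield m (γ t)) t) :
    HasDerivAt (fun s => (γ s).2 2 - cm m 0 1 (γ s).2)
      (-((m 0 + m 1 + m 2) • grav ((γ t).1 2 - cm m 0 1 (γ t).1)) + pQ m (γ t).1) t := by
  have h := (rm_comp2 hγ 2).sub (XDerA.cm_deriv (m := m) (a := 0) (b := 1)
    (γ := fun s => (γ s).2) (rm_comp2 hγ))
  refine h.congr_deriv ?_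
  unfold pQ
  abel

private theorem rm_mul {μ0 μ1 : ℝ} (h0 : 0 < μ0) (h1 : 0 < μ1) {a b y X : Sp d} {δ : ℝ}
    (hX : X = (μ0 + μ1)⁻¹ • (μ0 • a + μ1 • b)) (hδ : ‖a - b‖ = δ) (hy0 : 0 < ‖y - X‖)
    (hy : 2 * δ ≤ ‖y - X‖) :
    ‖μ0 • grav (y - a) + μ1 • grav (y - b) - (μ0 + μ1) • grav (y - X)‖ ≤
      1000 * (μ0 + μ1) * δ ^ 2 / ‖y - X‖ ^ 4 := by
  have hs : 0 < μ0 + μ1 := by linarith
  have hsX : (μ0 + μ1) • X = μ0 • a + μ1 • b := by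
    rw [hX, smul_smul, mul_inv_cancel₀ hs.ne', one_smul]
  have ea : (μ0 + μ1) • (a - X) = μ1 • (a - b) := by
    rw [smul_sub, hsX, add_smul, smul_sub]
    abel
  have eb : (μ0 + μ1) • (b - X) = -(μ0 • (a - b)) := by
    rw [smul_sub, hsX, add_smul, smul_sub]
    abel
  have na : ‖a - X‖ ≤ δ := by
    have h := congrArg norm ea
    rw [norm_smul, norm_smul, Real.norm_of_nonneg hs.le, Real.norm_of_nonneg h1.le, hδ] at h
    have hd : 0 ≤ δ := hδ ▸ norm_nonneg _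
    have h2 : (μ0 + μ1) * ‖a - X‖ ≤ (μ0 + μ1) * δ := by
      rw [h]
      nlinarith
    exact le_of_mul_le_mul_left h2 hs
  have nb : ‖b - X‖ ≤ δ := by
    have h := congrArg norm eb
    rw [norm_neg, norm_smul, norm_smul, Real.norm_of_nonneg hs.le, Real.norm_of_nonneg h0.le,
      hδ] at h
    have hd : 0 ≤ δ := hδ ▸ norm_nonneg _
    have h2 : (μ0 + μ1) * ‖b - X‖ ≤ (μ0 + μ1) * δ := by
      rw [h]
      nlinarith
    exact le_of_mul_le_mul_left h2 hs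
  have hsum : μ0 • (a - X) + μ1 • (b - X) = 0 := by
    rw [smul_sub, smul_sub, show μ0 • a - μ0 • X + (μ1 • b - μ1 • X) =
      (μ0 • a + μ1 • b) - (μ0 + μ1) • X by rw [add_smul]; abel, hsX, sub_self]
  have key := grav_multipole (ι := Fin 2) (μ := ![μ0, μ1]) (ξ := ![a - X, b - X]) (δ := δ)
    (y := y - X) (by intro i; fin_cases i <;> simp [h0.le, h1.le])
    (by simpa [Fin.sum_univ_two] using hsum)
    (by intro i; fin_cases i <;> simp [na, nb]) hy0 hy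
  simpa [Fin.sum_univ_two] using key

private theorem rm_others : others (0 : Fin 5) 1 = {2, 3, 4} := by
  unfold others
  decide

private theorem rm_acc2 (q : Cf 5 d) : acc m q 2 =
    m 0 • grav (q 0 - q 2) + m 1 • grav (q 1 - q 2) + m 3 • grav (q 3 - q 2) +
      m 4 • grav (q 4 - q 2) := by
  rw [acc_eq_grav, show Finset.univ.erase (2 : Fin 5) = {0, 1, 3, 4} by decide]
  rw [Finset.sum_insert (by decide), Finset.sum_insert (by decide), Finset.sum_insert (by decide),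
    Finset.sum_singleton]
  abel

theorem pQ_le (h : Mb M m) {q : Cf 5 d} (hfree : Free q)
    (h2 : 4 * ‖q 0 - q 1‖ ≤ ‖q 2 - cm m 0 1 q‖)
    (h3 : 4 * ‖q 2 - cm m 0 1 q‖ ≤ ‖q 3 - cm m 0 1 q‖)
    (h4 : 4 * ‖q 2 - cm m 0 1 q‖ ≤ ‖q 4 - cm m 0 1 q‖) :
    ‖pQ m q‖ ≤ 10 ^ 4 * M * ‖q 0 - q 1‖ ^ 2 / ‖q 2 - cm m 0 1 q‖ ^ 4 +
      10 ^ 4 * M * ‖q 2 - cm m 0 1 q‖ * (1 / ‖q 3 - cm m 0 1 q‖ ^ 3 +
        1 / ‖q 4 - cm m 0 1 q‖ ^ 3) := by
  obtain ⟨hM, hb⟩ := h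
  have hM0 : 0 < M := by linarith
  have hm : ∀ i, 0 < m i := fun i => lt_of_lt_of_le (by positivity) (hb i).1
  have hmM : ∀ i, m i ≤ M := fun i => (hb i).2
  have m0 := hm 0
  have m1 := hm 1
  have m2 := hm 2
  have m3 := hm 3
  have m4 := hm 4
  have hs : 0 < m 0 + m 1 := by linarith
  have hr0 : 0 < ‖q 0 - q 1‖ := norm_pos_iff.2 (sub_ne_zero.2 (hfree 0 1 (by decide)))
  have hx0 : 0 < ‖q 2 - cm m 0 1 q‖ := by linarith
  have hy3 : 0 < ‖q 3 - cm m 0 1 q‖ := by linarith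
  have hy4 : 0 < ‖q 4 - cm m 0 1 q‖ := by linarith
  have hX : cm m 0 1 q = (m 0 + m 1)⁻¹ • (m 0 • q 0 + m 1 • q 1) := rfl
  have E2 := rm_mul m0 m1 (y := q 2) hX rfl hx0 (by linarith)
  have E3 := rm_mul m0 m1 (y := q 3) hX rfl hy3 (by linarith)
  have E4 := rm_mul m0 m1 (y := q 4) hX rfl hy4 (by linarith)
  have hcm := XDerA.cm_acc (m := m) hm (a := (0 : Fin 5)) (b := 1) (by decide) q
  rw [rm_others, Finset.sum_insert (by decide), Finset.sum_insert (by decide),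
    Finset.sum_singleton] at hcm
  have hacc := rm_acc2 (m := m) q
  rw [XDerA.grav_sub_comm (q 0) (q 2), XDerA.grav_sub_comm (q 1) (q 2)] at hacc
  set X := cm m 0 1 q with hXdef
  set g2 := m 0 • grav (q 2 - q 0) + m 1 • grav (q 2 - q 1) with hg2
  set g3 := m 0 • grav (q 3 - q 0) + m 1 • grav (q 3 - q 1) with hg3
  set g4 := m 0 • grav (q 4 - q 0) + m 1 • grav (q 4 - q 1) with hg4
  have hacc' : acc m q 2 = -g2 + m 3 • grav (q 3 - q 2) + m 4 • grav (q 4 - q 2) := by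
    rw [hacc, hg2, smul_neg, smul_neg]
    abel
  have hL3 : ‖grav (q 3 - q 2) - grav (q 3 - X)‖ ≤ 100 * ‖q 2 - X‖ / ‖q 3 - X‖ ^ 3 := by
    have e : ‖(q 3 - q 2) - (q 3 - X)‖ = ‖q 2 - X‖ := by
      rw [← norm_neg]
      congr 1
      abel
    have := grav_lip (x := q 3 - q 2) (y := q 3 - X) hy3 (by rw [e]; linarith)
    rwa [e] at this
  have hL4 : ‖grav (q 4 - q 2) - grav (q 4 - X)‖ ≤ 100 * ‖q 2 - X‖ / ‖q 4 - X‖ ^ 3 := by
    have e : ‖(q 4 - q 2) - (q 4 - X)‖ = ‖q 2 - X‖ := by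
      rw [← norm_neg]
      congr 1
      abel
    have := grav_lip (x := q 4 - q 2) (y := q 4 - X) hy4 (by rw [e]; linarith)
    rwa [e] at this
  have hcm' : cm m 0 1 (acc m q) = (m 0 + m 1)⁻¹ • (m 2 • g2 + (m 3 • g3 + m 4 • g4)) := by
    rw [← hcm, smul_smul, inv_mul_cancel₀ hs.ne', one_smul]
  have hdec : pQ m q = -((1 + m 2 * (m 0 + m 1)⁻¹) • (g2 - (m 0 + m 1) • grav (q 2 - X))) +
      m 3 • (grav (q 3 - q 2) - grav (q 3 - X)) + m 4 • (grav (q 4 - q 2) - grav (q 4 - X)) -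
      (m 3 * (m 0 + m 1)⁻¹) • (g3 - (m 0 + m 1) • grav (q 3 - X)) -
      (m 4 * (m 0 + m 1)⁻¹) • (g4 - (m 0 + m 1) • grav (q 4 - X)) := by
    unfold pQ
    rw [hacc', hcm', ← hXdef]
    have hne : (m 0 + m 1) ≠ 0 := hs.ne'
    match_scalars <;> field_simp <;> ring
  have hr2 : ‖q 0 - q 1‖ ^ 2 ≤ ‖q 2 - X‖ ^ 2 / 16 := by nlinarith
  have hk3 : ‖q 0 - q 1‖ ^ 2 / ‖q 3 - X‖ ^ 4 ≤ ‖q 2 - X‖ / ‖q 3 - X‖ ^ 3 := by
    rw [div_le_div_iff₀ (by positivity) (by positivity)]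
    have a1 : ‖q 0 - q 1‖ ^ 2 ≤ ‖q 2 - X‖ * ‖q 3 - X‖ := by nlinarith
    calc ‖q 0 - q 1‖ ^ 2 * ‖q 3 - X‖ ^ 3 ≤ (‖q 2 - X‖ * ‖q 3 - X‖) * ‖q 3 - X‖ ^ 3 :=
          mul_le_mul_of_nonneg_right a1 (by positivity)
      _ = ‖q 2 - X‖ * ‖q 3 - X‖ ^ 4 := by ring
  have hk4 : ‖q 0 - q 1‖ ^ 2 / ‖q 4 - X‖ ^ 4 ≤ ‖q 2 - X‖ / ‖q 4 - X‖ ^ 3 := by
    rw [div_le_div_iff₀ (by positivity) (by positivity)]
    have a1 : ‖q 0 - q 1‖ ^ 2 ≤ ‖q 2 - X‖ * ‖q 4 - X‖ := by nlinarith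
    calc ‖q 0 - q 1‖ ^ 2 * ‖q 4 - X‖ ^ 3 ≤ (‖q 2 - X‖ * ‖q 4 - X‖) * ‖q 4 - X‖ ^ 3 :=
          mul_le_mul_of_nonneg_right a1 (by positivity)
      _ = ‖q 2 - X‖ * ‖q 4 - X‖ ^ 4 := by ring
  set r := ‖q 0 - q 1‖ with hrdef
  set x := ‖q 2 - X‖ with hxdef
  set y3 := ‖q 3 - X‖ with hy3def
  set y4 := ‖q 4 - X‖ with hy4def
  have n2 : ‖(1 + m 2 * (m 0 + m 1)⁻¹) • (g2 - (m 0 + m 1) • grav (q 2 - X))‖ ≤
      3000 * M * (r ^ 2 / x ^ 4) := by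
    rw [norm_smul, Real.norm_of_nonneg (by positivity)]
    calc (1 + m 2 * (m 0 + m 1)⁻¹) * ‖g2 - (m 0 + m 1) • grav (q 2 - X)‖
        ≤ (1 + m 2 * (m 0 + m 1)⁻¹) * (1000 * (m 0 + m 1) * r ^ 2 / x ^ 4) :=
          mul_le_mul_of_nonneg_left E2 (by positivity)
      _ = 1000 * (m 0 + m 1 + m 2) * (r ^ 2 / x ^ 4) := by
          field_simp
      _ ≤ 3000 * M * (r ^ 2 / x ^ 4) := by
          refine mul_le_mul_of_nonneg_right ?_ (by positivity)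
          linarith [hmM 0, hmM 1, hmM 2]
  have n3 : ‖m 3 • (grav (q 3 - q 2) - grav (q 3 - X))‖ ≤ 100 * M * (x / y3 ^ 3) := by
    rw [norm_smul, Real.norm_of_nonneg m3.le]
    calc m 3 * ‖grav (q 3 - q 2) - grav (q 3 - X)‖ ≤ M * (100 * x / y3 ^ 3) :=
          mul_le_mul (hmM 3) hL3 (norm_nonneg _) hM0.le
      _ = 100 * M * (x / y3 ^ 3) := by ring
  have n4 : ‖m 4 • (grav (q 4 - q 2) - grav (q 4 - X))‖ ≤ 100 * M * (x / y4 ^ 3) := by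
    rw [norm_smul, Real.norm_of_nonneg m4.le]
    calc m 4 * ‖grav (q 4 - q 2) - grav (q 4 - X)‖ ≤ M * (100 * x / y4 ^ 3) :=
          mul_le_mul (hmM 4) hL4 (norm_nonneg _) hM0.le
      _ = 100 * M * (x / y4 ^ 3) := by ring
  have n5 : ‖(m 3 * (m 0 + m 1)⁻¹) • (g3 - (m 0 + m 1) • grav (q 3 - X))‖ ≤
      1000 * M * (x / y3 ^ 3) := by
    rw [norm_smul, Real.norm_of_nonneg (by positivity)]
    calc (m 3 * (m 0 + m 1)⁻¹) * ‖g3 - (m 0 + m 1) • grav (q 3 - X)‖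
        ≤ (m 3 * (m 0 + m 1)⁻¹) * (1000 * (m 0 + m 1) * r ^ 2 / y3 ^ 4) :=
          mul_le_mul_of_nonneg_left E3 (by positivity)
      _ = 1000 * m 3 * (r ^ 2 / y3 ^ 4) := by
          field_simp
      _ ≤ 1000 * M * (x / y3 ^ 3) := by
          refine mul_le_mul ?_ hk3 (by positivity) (by positivity)
          linarith [hmM 3]
  have n6 : ‖(m 4 * (m 0 + m 1)⁻¹) • (g4 - (m 0 + m 1) • grav (q 4 - X))‖ ≤
      1000 * M * (x / y4 ^ 3) := by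
    rw [norm_smul, Real.norm_of_nonneg (by positivity)]
    calc (m 4 * (m 0 + m 1)⁻¹) * ‖g4 - (m 0 + m 1) • grav (q 4 - X)‖
        ≤ (m 4 * (m 0 + m 1)⁻¹) * (1000 * (m 0 + m 1) * r ^ 2 / y4 ^ 4) :=
          mul_le_mul_of_nonneg_left E4 (by positivity)
      _ = 1000 * m 4 * (r ^ 2 / y4 ^ 4) := by
          field_simp
      _ ≤ 1000 * M * (x / y4 ^ 3) := by
          refine mul_le_mul ?_ hk4 (by positivity) (by positivity)
          linarith [hmM 4]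
  have hnorm : ‖pQ m q‖ ≤ 3000 * M * (r ^ 2 / x ^ 4) + 100 * M * (x / y3 ^ 3) +
      100 * M * (x / y4 ^ 3) + 1000 * M * (x / y3 ^ 3) + 1000 * M * (x / y4 ^ 3) := by
    rw [hdec]
    refine (norm_sub_le _ _).trans (add_le_add ?_ n6)
    refine (norm_sub_le _ _).trans (add_le_add ?_ n5)
    refine (norm_add_le _ _).trans (add_le_add ?_ n4)
    refine (norm_add_le _ _).trans (add_le_add ?_ n3)
    rwa [norm_neg]
  have p1 : 0 ≤ M * (r ^ 2 / x ^ 4) := by positivity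
  have p2 : 0 ≤ M * (x / y3 ^ 3) := by positivity
  have p3 : 0 ≤ M * (x / y4 ^ 3) := by positivity
  calc ‖pQ m q‖ ≤ _ := hnorm
    _ ≤ 10 ^ 4 * (M * (r ^ 2 / x ^ 4)) + 10 ^ 4 * (M * (x / y3 ^ 3)) +
        10 ^ 4 * (M * (x / y4 ^ 3)) := by linarith
    _ = 10 ^ 4 * M * r ^ 2 / x ^ 4 + 10 ^ 4 * M * x * (1 / y3 ^ 3 + 1 / y4 ^ 3) := by ring

end NB5
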