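import Mathlib
import Pool.Agent.NB5.Defs
import Pool.Agent.NB5.DerFQ
import Pool.Agent.NB5.RelMot
import Pool.Agent.NB5.HhSplit
import Pool.Agent.NB5.S1F
import Pool.Agent.NB5.DrI

/-!
# Facts on states with the body 2 close to the hard pair (project NB5, module NB5-ExF)

`‖x_2‖ ≤ 2/b^96 ≤ 1/(8 b^77)`: `s1_far`, `s1_KQ` (the distances between 2,3,4 are `≥ 1/(2 b^77)`),
`kq_bound_sub`. `ex_dF`: `DQ_le` with `r ≤ 4 M^2/b^200`. `ex_p`: `pQ_le`. `ex_A`: `‖x_2‖ ≥ Zp/b^200`,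
`Zp ≥ 10^9 M^6`. `ex_en`: `hh_kepler` and `-L1 b ≤ hh m 2 x`: the error is
`≤ 30 M^2 (4/b^192) · 2 · 27 b^231 ≤ C b^39`, `L1 b = b^96/(4 M^2)`, `(m0+m1) m2 ≥ 2/M^2`, so after division by
`μ = (m0+m1) m2/(m0+m1+m2)`: `L1 b/μ ≤ (m0+m1+m2) b^96/8`. `hh_auto`: `hh ≥ -(m0+m1) m2/‖x_2‖ - C b^39 ≥
-2 M^2 b^96/(0.9 · 32 M^4) - C b^39`.
-/

open MeasureTheory Set Filter Topology Metric
open scoped NNReal ENNReal RealInnerProductSpace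

namespace NB5

open HDN

variable {d : ℕ}

private lemma dA {b c : ℝ} (hb : 1 ≤ b) (h : c ≤ b ^ 19) : c / b ^ 96 ≤ 1 / b ^ 77 := by
  have h0 : (0:ℝ) < b := by linarith
  rw [div_le_div_iff₀ (by positivity) (by positivity)]
  calc c * b ^ 77 ≤ b ^ 19 * b ^ 77 := by gcongr
    _ = 1 * b ^ 96 := by ring

private lemma dB {b c : ℝ} (hb : 1 ≤ b) (h : c ≤ b ^ 123) : c / b ^ 200 ≤ 1 / b ^ 77 := by
  have h0 : (0:ℝ) < b := by linarith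
  rw [div_le_div_iff₀ (by positivity) (by positivity)]
  calc c * b ^ 77 ≤ b ^ 123 * b ^ 77 := by gcongr
    _ = 1 * b ^ 200 := by ring

private lemma pw1 {M b : ℝ} (hM : 1 ≤ M) (hb : 10 ^ 8 * M ^ 7 ≤ b) :
    10 ^ 8 ≤ b ∧ 1 ≤ b ∧ ∀ n : ℕ, 1 ≤ n → 10 ^ 8 * M ^ 7 ≤ b ^ n := by
  have h7 : (1:ℝ) ≤ M ^ 7 := one_le_pow₀ hM
  have h1 : (10:ℝ) ^ 8 ≤ b := by nlinarith
  have h2 : (1:ℝ) ≤ b := by linarith [h1, show (1:ℝ) ≤ 10 ^ 8 by norm_num]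
  refine ⟨h1, h2, fun n hn => hb.trans ?_⟩
  exact le_self_pow₀ h2 (by omega)

private lemma pw2 {M b : ℝ} (hM : 1 ≤ M) (hb : 10 ^ 8 * M ^ 7 ≤ b) {n : ℕ} (hn : 2 ≤ n) :
    10 ^ 16 * M ^ 14 ≤ b ^ n := by
  have h := (pw1 hM hb).2.1
  calc 10 ^ 16 * M ^ 14 = (10 ^ 8 * M ^ 7) ^ 2 := by ring
    _ ≤ b ^ 2 := by
      have : (0:ℝ) ≤ 10 ^ 8 * M ^ 7 := by positivity
      gcongr
    _ ≤ b ^ n := pow_le_pow_right₀ h hn

private lemma inv3 {b e : ℝ} (hb : 1 ≤ b) (h : 1 / (3 * b ^ 77) ≤ e) :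
    1 / e ^ 3 ≤ 27 * b ^ 231 := by
  have h0 : (0:ℝ) < b := by linarith
  have h1 : 0 < 1 / (3 * b ^ 77) := by positivity
  calc 1 / e ^ 3 ≤ 1 / (1 / (3 * b ^ 77)) ^ 3 := by gcongr
    _ = 27 * b ^ 231 := by field_simp; ring

private lemma inv4 {b e : ℝ} (hb : 1 ≤ b) (h : 1 / (3 * b ^ 77) ≤ e) :
    1 / e ^ 4 ≤ 81 * b ^ 308 := by
  have h0 : (0:ℝ) < b := by linarith
  have h1 : 0 < 1 / (3 * b ^ 77) := by positivity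
  calc 1 / e ^ 4 ≤ 1 / (1 / (3 * b ^ 77)) ^ 4 := by gcongr
    _ = 81 * b ^ 308 := by field_simp; ring

/-- distances of the bodies 3, 4 if the body 2 is close to the pair -/
private lemma farL (P : Par) : ∃ b0 : ℝ, 10 ^ 8 * P.M ^ 7 ≤ b0 ∧ ∀ b ≥ b0, ∀ m : Fin 5 → ℝ,
    Mb P.M m → ∀ x : St d, S1 P b m x → ‖x.1 2 - cm m 0 1 x.1‖ ≤ 64 * P.M ^ 4 / b ^ 96 →
    ((∀ i j : Fin 5, i ≤ 2 → 3 ≤ j → 1 / (2 * b ^ 77) ≤ ‖x.1 i - x.1 j‖) ∧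
    1 / (2 * b ^ 77) ≤ ‖x.1 3 - x.1 4‖ ∧
    (∀ j : Fin 5, 3 ≤ j → 1 / (3 * b ^ 77) ≤ ‖x.1 j - cm m 0 1 x.1‖) ∧
    (∀ j : Fin 5, 3 ≤ j → 1 / (3 * b ^ 77) ≤ ‖x.1 j - cm3 m 0 1 2 x.1‖)) ∧
    4 * ‖x.1 2 - cm m 0 1 x.1‖ ≤ 1 / (3 * b ^ 77) := by
  obtain ⟨b1, hb1, H⟩ := s1_far (d := d) P
  refine ⟨max b1 (10 ^ 8 * P.M ^ 7), le_max_right _ _, fun b hb m hm x hx hX => ?_⟩
  have hM := P.hM
  have hb1' : b1 ≤ b := (le_max_left _ _).trans hb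
  have hb2 : 10 ^ 8 * P.M ^ 7 ≤ b := (le_max_right _ _).trans hb
  obtain ⟨_, h1b, hpw⟩ := pw1 hM hb2
  have h19 := hpw 19 (by norm_num)
  have h47 : P.M ^ 4 ≤ P.M ^ 7 := pow_le_pow_right₀ hM (by norm_num)
  have e1 : 64 * P.M ^ 4 / b ^ 96 = (1 / 8) * (512 * P.M ^ 4 / b ^ 96) := by ring
  have e2 : 64 * P.M ^ 4 / b ^ 96 = (1 / 12) * (768 * P.M ^ 4 / b ^ 96) := by ring
  have f1 : 512 * P.M ^ 4 / b ^ 96 ≤ 1 / b ^ 77 := dA h1b (by nlinarith)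
  have f2 : 768 * P.M ^ 4 / b ^ 96 ≤ 1 / b ^ 77 := dA h1b (by nlinarith)
  have g1 : 1 / (8 * b ^ 77) = (1 / 8) * (1 / b ^ 77) := by
    rw [one_div_mul_one_div]
  have g2 : 1 / (3 * b ^ 77) = (1 / 3) * (1 / b ^ 77) := by
    rw [one_div_mul_one_div]
  refine ⟨H b hb1' m hm x hx ?_, ?_⟩
  · rw [g1]; linarith
  · rw [g2]; linarith

private lemma r_sq (P : Par) {b r : ℝ} (hr0 : 0 ≤ r) (hr : r ≤ P.Cr / b ^ 200) :
    r ^ 2 ≤ 16 * P.M ^ 4 / b ^ 400 := by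
  calc r ^ 2 ≤ (P.Cr / b ^ 200) ^ 2 := by gcongr
    _ = 16 * P.M ^ 4 / b ^ 400 := by
      unfold Par.Cr
      rw [div_pow]; ring

private lemma r4 (P : Par) {b : ℝ} (h1b : 1 ≤ b) {m : Fin 5 → ℝ} {x : St d} (hx : S1 P b m x)
    {j : Fin 5} (hj : 2 ≤ j) : 4 * ‖x.1 0 - x.1 1‖ ≤ ‖x.1 j - cm m 0 1 x.1‖ := by
  have h0 : (0:ℝ) < b := by linarith
  have hM := P.hM
  have hZ := P.hZ
  have h26 : P.M ^ 2 ≤ P.M ^ 6 := pow_le_pow_right₀ hM (by norm_num)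
  have h2 : 0 ≤ P.M ^ 2 := by positivity
  calc 4 * ‖x.1 0 - x.1 1‖ ≤ 4 * (P.Cr / b ^ 200) := by linarith [hx.r_le]
    _ = 4 * P.Cr / b ^ 200 := by ring
    _ ≤ P.Zp / b ^ 200 := by
      unfold Par.Cr
      gcongr
      nlinarith
    _ ≤ _ := hx.x_ge j hj

private lemma sum_ge {m : Fin 5 → ℝ} {M : ℝ} (h : Mb M m) :
    3 / M ≤ m 0 + m 1 + m 2 ∧ m 0 + m 1 + m 2 ≤ 3 * M := by
  have h0 := h.2 0
  have h1 := h.2 1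
  have h2 := h.2 2
  have : 3 / M = 1 / M + 1 / M + 1 / M := by ring
  constructor
  · rw [this]; linarith [h0.1, h1.1, h2.1]
  · linarith [h0.2, h1.2, h2.2]

private lemma prod_ge {m : Fin 5 → ℝ} {M : ℝ} (h : Mb M m) :
    2 / M ^ 2 ≤ (m 0 + m 1) * m 2 ∧ (m 0 + m 1) * m 2 ≤ 2 * M ^ 2 := by
  have hM : 0 < M := by linarith [h.1]
  have h0 := h.2 0
  have h1 := h.2 1
  have h2 := h.2 2
  have hp : 0 < 1 / M := by positivity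
  constructor
  · calc 2 / M ^ 2 = (1 / M + 1 / M) * (1 / M) := by field_simp; ring
      _ ≤ (m 0 + m 1) * m 2 := by
        apply mul_le_mul (by linarith [h0.1, h1.1]) h2.1 hp.le (by linarith [h0.1, h1.1])
  · have : (m 0 + m 1) * m 2 ≤ (M + M) * M :=
      mul_le_mul (by linarith [h0.2, h1.2]) h2.2 (by linarith [h2.1]) (by linarith)
    linarith

theorem ex_facts (P : Par) : ∃ b0 : ℝ, 1 ≤ b0 ∧ ∀ b ≥ b0, ∀ m : Fin 5 → ℝ, Mb P.M m →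
    ∀ x : St d, x ∈ Inv m P.R → S1 P b m x → ‖x.1 2 - cm m 0 1 x.1‖ ≤ 2 / b ^ 96 →
    KQ m x.2 ≤ 9 * b ^ 200 ∧
    (∀ j : Fin 5, 2 ≤ j → ‖x.2 j - cm m 0 1 x.2‖ ≤ 9 * P.M * b ^ 100) ∧
    |dFQ m x| ≤ 10 ^ 5 * P.M ^ 6 * ‖x.2 2 - cm m 0 1 x.2‖ /
      (b ^ 400 * ‖x.1 2 - cm m 0 1 x.1‖ ^ 4) + b ^ 9 ∧
    ‖pQ m x.1‖ ≤ (10 ^ 6 * P.M ^ 5 / b ^ 400) / ‖x.1 2 - cm m 0 1 x.1‖ ^ 4 +
      (10 ^ 6 * P.M * b ^ 231) * ‖x.1 2 - cm m 0 1 x.1‖ ∧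
    10 ^ 6 * P.M ^ 5 / b ^ 400 ≤ (m 0 + m 1 + m 2) * ‖x.1 2 - cm m 0 1 x.1‖ ^ 2 / 10 ^ 6 ∧
    (10 ^ 6 * P.M * b ^ 231) * (1 / b ^ 96) ^ 3 ≤ (m 0 + m 1 + m 2) / 10 ^ 6 := by
  obtain ⟨b1, hb1, H⟩ := farL (d := d) P
  obtain ⟨b2, hb2, HK⟩ := s1_KQ (d := d) P
  have hM := P.hM
  have h7 : (1:ℝ) ≤ P.M ^ 7 := one_le_pow₀ hM
  refine ⟨max b1 b2, hb2.trans (le_max_right _ _), fun b hb m hm x hI hx hX => ?_⟩
  have hbb1 : b1 ≤ b := (le_max_left _ _).trans hb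
  have hbb2 : b2 ≤ b := (le_max_right _ _).trans hb
  have hbM : 10 ^ 8 * P.M ^ 7 ≤ b := hb1.trans hbb1
  obtain ⟨h8b, h1b, hpw⟩ := pw1 hM hbM
  have h0b : (0:ℝ) < b := by linarith
  have hM0 : (0:ℝ) < P.M := by linarith
  have hfree : Free x.1 := hI.1
  have hX' : ‖x.1 2 - cm m 0 1 x.1‖ ≤ 64 * P.M ^ 4 / b ^ 96 := by
    refine hX.trans ?_
    have : (1:ℝ) ≤ P.M ^ 4 := one_le_pow₀ hM
    gcongr
    linarith
  obtain ⟨⟨F1, F2, F3, F4⟩, F5⟩ := H b hbb1 m hm x hx hX'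
  have hmpos : ∀ i, 0 < m i := hm.pos
  -- the distances between 2, 3, 4
  have hfar : ∀ i j : Fin 5, 2 ≤ i → 2 ≤ j → i ≠ j → 1 / (8 * b ^ 77) ≤ ‖x.1 i - x.1 j‖ := by
    have g : 1 / (8 * b ^ 77) ≤ 1 / (2 * b ^ 77) := by
      apply one_div_le_one_div_of_le (by positivity)
      have : 0 < b ^ 77 := by positivity
      linarith
    intro i j hi hj hij
    refine g.trans ?_
    fin_cases i <;> fin_cases j <;> first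
      | exact absurd hi (by decide)
      | exact absurd hj (by decide)
      | exact absurd rfl hij
      | exact F1 _ _ (by decide) (by decide)
      | exact F2
      | (rw [norm_sub_rev]; exact F1 _ _ (by decide) (by decide))
      | (rw [norm_sub_rev]; exact F2)
  have hKQ : KQ m x.2 ≤ 9 * b ^ 200 := HK b hbb2 m hm x hx hfar
  have hw : ∀ j : Fin 5, 2 ≤ j → ‖x.2 j - cm m 0 1 x.2‖ ≤ 9 * P.M * b ^ 100 := by
    intro j hj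
    have h1 := (kq_bound_sub hm x.2).1 j hj
    have h2 : ‖x.2 j - cm m 0 1 x.2‖ ^ 2 ≤ (9 * P.M * b ^ 100) ^ 2 := by
      calc ‖x.2 j - cm m 0 1 x.2‖ ^ 2 ≤ 8 * P.M * (9 * b ^ 200) := by
            refine h1.trans ?_
            gcongr
        _ = 72 * P.M * b ^ 200 := by ring
        _ ≤ 81 * P.M ^ 2 * b ^ 200 := by
          have : P.M ≤ P.M ^ 2 := le_self_pow₀ hM (by norm_num)
          have h2 : 72 * P.M ≤ 81 * P.M ^ 2 := by linarith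
          gcongr
        _ = (9 * P.M * b ^ 100) ^ 2 := by ring
    exact le_of_sq_le_sq h2 (by positivity)
  have hr2 := r_sq P (norm_nonneg (x.1 0 - x.1 1)) hx.r_le
  have h01 : x.1 0 ≠ x.1 1 := hfree 0 1 (by decide)
  have hXpos : 0 < ‖x.1 2 - cm m 0 1 x.1‖ := by
    have h := r4 P h1b hx (le_refl (2 : Fin 5))
    have : 0 < ‖x.1 0 - x.1 1‖ := norm_pos_iff.2 (sub_ne_zero.2 h01)
    linarith
  set X := ‖x.1 2 - cm m 0 1 x.1‖ with hXdef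
  have hZ := P.hZ
  have hXge : 10 ^ 9 * P.M ^ 6 / b ^ 200 ≤ X := by
    refine le_trans ?_ (hx.x_ge 2 (le_refl _))
    gcongr
  refine ⟨hKQ, hw, ?_, ?_, ?_, ?_⟩
  · -- the derivative
    have D2 := DQ_le hm x.1 h01 (r4 P h1b hx (le_refl (2 : Fin 5)))
    have D3 := DQ_le hm x.1 h01 (r4 P h1b hx (show (2 : Fin 5) ≤ 3 by decide))
    have D4 := DQ_le hm x.1 h01 (r4 P h1b hx (show (2 : Fin 5) ≤ 4 by decide))
    have E2 : ‖DQ m x.1 2‖ ≤ 32000 * P.M ^ 5 / (b ^ 400 * X ^ 4) := by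
      refine D2.trans ?_
      calc 2000 * P.M * ‖x.1 0 - x.1 1‖ ^ 2 / X ^ 4
          ≤ 2000 * P.M * (16 * P.M ^ 4 / b ^ 400) / X ^ 4 := by gcongr
        _ = 32000 * P.M ^ 5 / (b ^ 400 * X ^ 4) := by
          field_simp; ring
    have EE : ∀ j : Fin 5, 3 ≤ j →
        ‖DQ m x.1 j‖ ≤ 2000 * P.M * ‖x.1 0 - x.1 1‖ ^ 2 / ‖x.1 j - cm m 0 1 x.1‖ ^ 4 →
        ‖DQ m x.1 j‖ ≤ 2592000 * P.M ^ 5 * (b ^ 308 / b ^ 400) := by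
      intro j hj hD
      have h4 := inv4 h1b (F3 j hj)
      calc ‖DQ m x.1 j‖ ≤ 2000 * P.M * ‖x.1 0 - x.1 1‖ ^ 2 / ‖x.1 j - cm m 0 1 x.1‖ ^ 4 := hD
        _ = 2000 * P.M * ‖x.1 0 - x.1 1‖ ^ 2 * (1 / ‖x.1 j - cm m 0 1 x.1‖ ^ 4) := by ring
        _ ≤ 2000 * P.M * (16 * P.M ^ 4 / b ^ 400) * (81 * b ^ 308) := by gcongr
        _ = 2592000 * P.M ^ 5 * (b ^ 308 / b ^ 400) := by ring
    have E3 := EE 3 (le_refl _) D3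
    have E4 := EE 4 (by decide) D4
    have T : ∀ j : Fin 5, |m j * ⟪x.2 j - cm m 0 1 x.2, DQ m x.1 j⟫| ≤
        P.M * (‖x.2 j - cm m 0 1 x.2‖ * ‖DQ m x.1 j‖) := by
      intro j
      rw [abs_mul, abs_of_pos (hmpos j)]
      exact mul_le_mul (hm.2 j).2 (abs_real_inner_le_norm _ _) (abs_nonneg _) hM0.le
    have T2 : |m 2 * ⟪x.2 2 - cm m 0 1 x.2, DQ m x.1 2⟫| ≤
        10 ^ 5 * P.M ^ 6 * ‖x.2 2 - cm m 0 1 x.2‖ / (b ^ 400 * X ^ 4) := by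
      refine (T 2).trans ?_
      calc P.M * (‖x.2 2 - cm m 0 1 x.2‖ * ‖DQ m x.1 2‖)
          ≤ P.M * (‖x.2 2 - cm m 0 1 x.2‖ * (32000 * P.M ^ 5 / (b ^ 400 * X ^ 4))) := by gcongr
        _ = 32000 * P.M ^ 6 * ‖x.2 2 - cm m 0 1 x.2‖ / (b ^ 400 * X ^ 4) := by ring
        _ ≤ _ := by
          gcongr
          norm_num
    have TT : ∀ j : Fin 5, 2 ≤ j → ‖DQ m x.1 j‖ ≤ 2592000 * P.M ^ 5 * (b ^ 308 / b ^ 400) →
        |m j * ⟪x.2 j - cm m 0 1 x.2, DQ m x.1 j⟫| ≤ b ^ 9 / 2 := by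
      intro j hj hD
      refine (T j).trans ?_
      calc P.M * (‖x.2 j - cm m 0 1 x.2‖ * ‖DQ m x.1 j‖)
          ≤ P.M * ((9 * P.M * b ^ 100) * (2592000 * P.M ^ 5 * (b ^ 308 / b ^ 400))) := by
            have := hw j hj
            gcongr
        _ = 23328000 * P.M ^ 7 * b ^ 8 := by
          field_simp; ring
        _ ≤ (b / 2) * b ^ 8 := by
          gcongr
          nlinarith
        _ = b ^ 9 / 2 := by ring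
    have T3 := TT 3 (by decide) E3
    have T4 := TT 4 (by decide) E4
    unfold dFQ
    calc |m 2 * ⟪x.2 2 - cm m 0 1 x.2, DQ m x.1 2⟫ + m 3 * ⟪x.2 3 - cm m 0 1 x.2, DQ m x.1 3⟫ +
          m 4 * ⟪x.2 4 - cm m 0 1 x.2, DQ m x.1 4⟫|
        ≤ |m 2 * ⟪x.2 2 - cm m 0 1 x.2, DQ m x.1 2⟫| +
          |m 3 * ⟪x.2 3 - cm m 0 1 x.2, DQ m x.1 3⟫| +
          |m 4 * ⟪x.2 4 - cm m 0 1 x.2, DQ m x.1 4⟫| := abs_add_three _ _ _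
      _ ≤ _ := by linarith
  · -- the perturbation
    have h3 := F3 3 (le_refl _)
    have h4 := F3 4 (by decide)
    have p := pQ_le hm hfree (r4 P h1b hx (le_refl (2 : Fin 5))) (F5.trans h3) (F5.trans h4)
    refine p.trans ?_
    have i3 := inv3 h1b h3
    have i4 := inv3 h1b h4
    apply add_le_add
    · calc 10 ^ 4 * P.M * ‖x.1 0 - x.1 1‖ ^ 2 / X ^ 4
          ≤ 10 ^ 4 * P.M * (16 * P.M ^ 4 / b ^ 400) / X ^ 4 := by gcongr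
        _ = (160000 * P.M ^ 5 / b ^ 400) / X ^ 4 := by ring
        _ ≤ _ := by
          gcongr
          norm_num
    · calc 10 ^ 4 * P.M * X * (1 / ‖x.1 3 - cm m 0 1 x.1‖ ^ 3 + 1 / ‖x.1 4 - cm m 0 1 x.1‖ ^ 3)
          ≤ 10 ^ 4 * P.M * X * (27 * b ^ 231 + 27 * b ^ 231) := by gcongr
        _ = (540000 * P.M * b ^ 231) * X := by ring
        _ ≤ _ := by
          gcongr
          norm_num
  · -- `A`
    have hs := (sum_ge hm).1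
    have h511 : P.M ^ 5 ≤ P.M ^ 11 := pow_le_pow_right₀ hM (by norm_num)
    calc 10 ^ 6 * P.M ^ 5 / b ^ 400 ≤ 3 * 10 ^ 12 * P.M ^ 11 / b ^ 400 := by
          gcongr
          norm_num
      _ = (3 / P.M) * (10 ^ 9 * P.M ^ 6 / b ^ 200) ^ 2 / 10 ^ 6 := by
          field_simp
      _ ≤ (m 0 + m 1 + m 2) * X ^ 2 / 10 ^ 6 := by
          have hs0 : 0 ≤ m 0 + m 1 + m 2 := le_trans (by positivity) hs
          gcongr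
  · -- `B`
    have hs := (sum_ge hm).1
    have h57 := pw2 hM hbM (show 2 ≤ 57 by norm_num)
    have h214 : P.M ^ 2 ≤ P.M ^ 14 := pow_le_pow_right₀ hM (by norm_num)
    have hb57 : 0 < b ^ 57 := by positivity
    calc (10 ^ 6 * P.M * b ^ 231) * (1 / b ^ 96) ^ 3 = 10 ^ 6 * P.M / b ^ 57 := by
          field_simp
      _ ≤ (3 / P.M) / 10 ^ 6 := by
          rw [div_div, div_le_div_iff₀ hb57 (by positivity)]
          nlinarith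
      _ ≤ (m 0 + m 1 + m 2) / 10 ^ 6 := by gcongr

theorem ex_en (P : Par) : ∃ b0 : ℝ, 1 ≤ b0 ∧ ∀ b ≥ b0, ∀ m : Fin 5 → ℝ, Mb P.M m →
    ∀ x : St d, x ∈ Inv m P.R → S1 P b m x → ‖x.1 2 - cm m 0 1 x.1‖ ≤ 2 / b ^ 96 →
    -P.L1 b ≤ hh m 2 x →
    -((m 0 + m 1 + m 2) / (7 * (1 / b ^ 96))) ≤
      ‖x.2 2 - cm m 0 1 x.2‖ ^ 2 / 2 - (m 0 + m 1 + m 2) / ‖x.1 2 - cm m 0 1 x.1‖ := by
  obtain ⟨b1, hb1, H⟩ := farL (d := d) P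
  have hM := P.hM
  have h7 : (1:ℝ) ≤ P.M ^ 7 := one_le_pow₀ hM
  refine ⟨b1, le_trans (by nlinarith) hb1, fun b hb m hm x hI hx hX hL => ?_⟩
  have hbM : 10 ^ 8 * P.M ^ 7 ≤ b := hb1.trans hb
  obtain ⟨h8b, h1b, hpw⟩ := pw1 hM hbM
  have h0b : (0:ℝ) < b := by linarith
  have hM0 : (0:ℝ) < P.M := by linarith
  have hX' : ‖x.1 2 - cm m 0 1 x.1‖ ≤ 64 * P.M ^ 4 / b ^ 96 := by
    refine hX.trans ?_
    have : (1:ℝ) ≤ P.M ^ 4 := one_le_pow₀ hM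
    gcongr
    linarith
  obtain ⟨⟨F1, F2, F3, F4⟩, F5⟩ := H b hb m hm x hx hX'
  have h01 : x.1 0 ≠ x.1 1 := hI.1 0 1 (by decide)
  have hXpos : 0 < ‖x.1 2 - cm m 0 1 x.1‖ := by
    have h := r4 P h1b hx (le_refl (2 : Fin 5))
    have : 0 < ‖x.1 0 - x.1 1‖ := norm_pos_iff.2 (sub_ne_zero.2 h01)
    linarith
  have h3 := F4 3 (le_refl _)
  have h4 := F4 4 (by decide)
  have K := hh_kepler hm x hXpos (F5.trans h3) (F5.trans h4)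
  have i3 := inv3 h1b h3
  have i4 := inv3 h1b h4
  set X := ‖x.1 2 - cm m 0 1 x.1‖ with hXdef
  set w := ‖x.2 2 - cm m 0 1 x.2‖ with hwdef
  have hE : 30 * P.M ^ 2 * X ^ 2 * (1 / ‖x.1 3 - cm3 m 0 1 2 x.1‖ ^ 3 +
        1 / ‖x.1 4 - cm3 m 0 1 2 x.1‖ ^ 3) ≤ 6480 * P.M ^ 2 * b ^ 39 := by
    calc 30 * P.M ^ 2 * X ^ 2 * (1 / ‖x.1 3 - cm3 m 0 1 2 x.1‖ ^ 3 +
        1 / ‖x.1 4 - cm3 m 0 1 2 x.1‖ ^ 3)
        ≤ 30 * P.M ^ 2 * (2 / b ^ 96) ^ 2 * (27 * b ^ 231 + 27 * b ^ 231) := by gcongr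
      _ = 6480 * P.M ^ 2 * b ^ 39 := by field_simp; ring
  have K1 := (abs_le.1 (K.trans hE)).2
  have hG := (sum_ge hm).1
  have hG0 : 0 < m 0 + m 1 + m 2 := lt_of_lt_of_le (by positivity) hG
  have hp := (prod_ge hm).1
  have hp0 : 0 < (m 0 + m 1) * m 2 := lt_of_lt_of_le (by positivity) hp
  unfold Par.L1 at hL
  -- `μ (w²/2 - G/X) ≥ - L1 - err`
  have e1 : (1 / 2) * ((m 0 + m 1) * m 2 / (m 0 + m 1 + m 2)) * w ^ 2 -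
      (m 0 + m 1) * m 2 / X = ((m 0 + m 1) * m 2 / (m 0 + m 1 + m 2)) *
        (w ^ 2 / 2 - (m 0 + m 1 + m 2) / X) := by
    field_simp
  rw [e1] at K1
  have h57 := pw2 hM hbM (show 2 ≤ 57 by norm_num)
  have h414 : P.M ^ 4 ≤ P.M ^ 14 := pow_le_pow_right₀ hM (by norm_num)
  have hb39 : 0 < b ^ 39 := by positivity
  -- the numerical inequality
  have num : b ^ 96 / (4 * P.M ^ 2) + 6480 * P.M ^ 2 * b ^ 39 ≤ (2 / P.M ^ 2) * (b ^ 96 / 7) := by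
    have : 6480 * P.M ^ 2 * b ^ 39 ≤ (1 / 28) * (b ^ 96 / P.M ^ 2) := by
      rw [← mul_div_assoc, le_div_iff₀ (by positivity)]
      calc 6480 * P.M ^ 2 * b ^ 39 * P.M ^ 2 = (6480 * P.M ^ 4) * b ^ 39 := by ring
        _ ≤ ((1 / 28) * b ^ 57) * b ^ 39 := by
          have h14 : (0:ℝ) ≤ P.M ^ 14 := by positivity
          have h1 : 6480 * P.M ^ 4 ≤ 6480 * P.M ^ 14 := by linarith
          have h2 : 6480 * P.M ^ 14 ≤ (1 / 28) * (10 ^ 16 * P.M ^ 14) := by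
            nlinarith
          have h3 : 6480 * P.M ^ 4 ≤ (1 / 28) * b ^ 57 := by linarith
          exact mul_le_mul_of_nonneg_right h3 hb39.le
        _ = 1 / 28 * b ^ 96 := by ring
    have e : (2 / P.M ^ 2) * (b ^ 96 / 7) - b ^ 96 / (4 * P.M ^ 2) =
        (1 / 28) * (b ^ 96 / P.M ^ 2) := by field_simp; ring
    linarith
  have K2 : -(((m 0 + m 1) * m 2) * (b ^ 96 / 7)) ≤ ((m 0 + m 1) * m 2 / (m 0 + m 1 + m 2)) *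
        (w ^ 2 / 2 - (m 0 + m 1 + m 2) / X) := by
    have : (2 / P.M ^ 2) * (b ^ 96 / 7) ≤ ((m 0 + m 1) * m 2) * (b ^ 96 / 7) := by gcongr
    linarith
  have e2 : -((m 0 + m 1 + m 2) / (7 * (1 / b ^ 96))) = ((m 0 + m 1 + m 2) / ((m 0 + m 1) * m 2)) *
      -(((m 0 + m 1) * m 2) * (b ^ 96 / 7)) := by
    have e4 : ((m 0 + m 1 + m 2) / ((m 0 + m 1) * m 2)) * -(((m 0 + m 1) * m 2) * (b ^ 96 / 7)) =
      -((m 0 + m 1 + m 2) / ((m 0 + m 1) * m 2) * ((m 0 + m 1) * m 2) * (b ^ 96 / 7)) := by ring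
    rw [e4, div_mul_cancel₀ _ hp0.ne']
    field_simp
  have e3 : w ^ 2 / 2 - (m 0 + m 1 + m 2) / X = ((m 0 + m 1 + m 2) / ((m 0 + m 1) * m 2)) *
      (((m 0 + m 1) * m 2 / (m 0 + m 1 + m 2)) * (w ^ 2 / 2 - (m 0 + m 1 + m 2) / X)) := by
    rw [← mul_assoc, div_mul_div_comm, mul_comm (m 0 + m 1 + m 2) ((m 0 + m 1) * m 2),
      div_self (by positivity), one_mul]
  rw [e2, e3]
  exact mul_le_mul_of_nonneg_left K2 (by positivity)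

/-- `hh > -L1` if the body is not very close -/
theorem hh_auto (P : Par) : ∃ b0 : ℝ, 1 ≤ b0 ∧ ∀ b ≥ b0, ∀ m : Fin 5 → ℝ, Mb P.M m →
    ∀ x : St d, x ∈ Inv m P.R → S1 P b m x →
    0.9 * P.K2 / b ^ 96 ≤ ‖x.1 2 - cm m 0 1 x.1‖ → ‖x.1 2 - cm m 0 1 x.1‖ ≤ 2 * P.K2 / b ^ 96 →
    -P.L1 b < hh m 2 x := by
  obtain ⟨b1, hb1, H⟩ := farL (d := d) P
  have hM := P.hM
  have h7 : (1:ℝ) ≤ P.M ^ 7 := one_le_pow₀ hM
  refine ⟨b1, le_trans (by nlinarith) hb1, fun b hb m hm x hI hx hX1 hX2 => ?_⟩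
  have hbM : 10 ^ 8 * P.M ^ 7 ≤ b := hb1.trans hb
  obtain ⟨h8b, h1b, hpw⟩ := pw1 hM hbM
  have h0b : (0:ℝ) < b := by linarith
  have hM0 : (0:ℝ) < P.M := by linarith
  unfold Par.K2 at hX1 hX2
  have hX' : ‖x.1 2 - cm m 0 1 x.1‖ ≤ 64 * P.M ^ 4 / b ^ 96 := by
    refine hX2.trans (le_of_eq ?_)
    ring
  obtain ⟨⟨F1, F2, F3, F4⟩, F5⟩ := H b hb m hm x hx hX'
  have hXpos : 0 < ‖x.1 2 - cm m 0 1 x.1‖ := lt_of_lt_of_le (by positivity) hX1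
  have h3 := F4 3 (le_refl _)
  have h4 := F4 4 (by decide)
  have K := hh_kepler hm x hXpos (F5.trans h3) (F5.trans h4)
  have i3 := inv3 h1b h3
  have i4 := inv3 h1b h4
  set X := ‖x.1 2 - cm m 0 1 x.1‖ with hXdef
  set w := ‖x.2 2 - cm m 0 1 x.2‖ with hwdef
  have hE : 30 * P.M ^ 2 * X ^ 2 * (1 / ‖x.1 3 - cm3 m 0 1 2 x.1‖ ^ 3 +
        1 / ‖x.1 4 - cm3 m 0 1 2 x.1‖ ^ 3) ≤ 6635520 * P.M ^ 10 * b ^ 39 := by
    calc 30 * P.M ^ 2 * X ^ 2 * (1 / ‖x.1 3 - cm3 m 0 1 2 x.1‖ ^ 3 +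
        1 / ‖x.1 4 - cm3 m 0 1 2 x.1‖ ^ 3)
        ≤ 30 * P.M ^ 2 * (64 * P.M ^ 4 / b ^ 96) ^ 2 * (27 * b ^ 231 + 27 * b ^ 231) := by gcongr
      _ = 6635520 * P.M ^ 10 * b ^ 39 := by field_simp; ring
  have K1 := (abs_le.1 (K.trans hE)).1
  have hG := (sum_ge hm).1
  have hG0 : 0 < m 0 + m 1 + m 2 := lt_of_lt_of_le (by positivity) hG
  obtain ⟨hp, hp'⟩ := prod_ge hm
  have hp0 : 0 < (m 0 + m 1) * m 2 := lt_of_lt_of_le (by positivity) hp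
  have hkin : 0 ≤ (1 / 2) * ((m 0 + m 1) * m 2 / (m 0 + m 1 + m 2)) * w ^ 2 := by positivity
  have hpot : (m 0 + m 1) * m 2 / X ≤ b ^ 96 / (14.4 * P.M ^ 2) := by
    calc (m 0 + m 1) * m 2 / X ≤ (2 * P.M ^ 2) / (0.9 * (32 * P.M ^ 4) / b ^ 96) := by gcongr
      _ = b ^ 96 / (14.4 * P.M ^ 2) := by
        field_simp
        norm_num
  have h57 := pw2 hM hbM (show 2 ≤ 57 by norm_num)
  have h1214 : P.M ^ 12 ≤ P.M ^ 14 := pow_le_pow_right₀ hM (by norm_num)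
  have h12 : 0 < P.M ^ 12 := by positivity
  have hb39 : 0 < b ^ 39 := by positivity
  have num : 6635520 * P.M ^ 10 * b ^ 39 < b ^ 96 / (4 * P.M ^ 2) - b ^ 96 / (14.4 * P.M ^ 2) := by
    have : 6635520 * P.M ^ 10 * b ^ 39 < (1 / 10) * (b ^ 96 / P.M ^ 2) := by
      rw [← mul_div_assoc, lt_div_iff₀ (by positivity)]
      calc 6635520 * P.M ^ 10 * b ^ 39 * P.M ^ 2 = (6635520 * P.M ^ 12) * b ^ 39 := by ring
        _ < ((1 / 10) * b ^ 57) * b ^ 39 := by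
          apply mul_lt_mul_of_pos_right _ hb39
          nlinarith
        _ = 1 / 10 * b ^ 96 := by ring
    have e : b ^ 96 / (4 * P.M ^ 2) - b ^ 96 / (14.4 * P.M ^ 2) - (1 / 10) * (b ^ 96 / P.M ^ 2) =
        (1 / 4 - 1 / 14.4 - 1 / 10) * (b ^ 96 / P.M ^ 2) := by field_simp
    have e' : 0 ≤ (1 / 4 - 1 / 14.4 - 1 / 10 : ℝ) * (b ^ 96 / P.M ^ 2) := by
      apply mul_nonneg (by norm_num) (by positivity)
    linarith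
  unfold Par.L1
  linarith

end NB5
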