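import Mathlib
import Pool.Agent.NB5.Defs

/-!
# The norm of the bivector `x ∧ w` (project NB5, module NB5-JwL)

`wdv x w : Sp d ⊗ ...` is realised as the vector with the entries `(x i * w j - x j * w i) / √2`
in `EuclideanSpace ℝ (Fin d × Fin d)`; it is bilinear and `‖wdv x w‖ = jw x w` (Lagrange identity:
`∑ i j (x i w j - x j w i)^2 = 2 (‖x‖^2 ‖w‖^2 - ⟪x,w⟫^2)`). All the rest follows from this and the
triangle inequality.
-/

open MeasureTheory Set Filter Topology Metric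
open scoped NNReal ENNReal RealInnerProductSpace

namespace NB5

open HDN

variable {d : ℕ}

/-- the bivector `x ∧ w` as a vector -/
noncomputable def wdv (x w : Sp d) : EuclideanSpace ℝ (Fin d × Fin d) :=
  WithLp.toLp 2 fun p => (x p.1 * w p.2 - x p.2 * w p.1) / √2

private theorem wdv_nsq (x w : Sp d) :
    ‖wdv x w‖ ^ 2 = ‖x‖ ^ 2 * ‖w‖ ^ 2 - ⟪x, w⟫ ^ 2 := by
  have h2 : (√2 : ℝ) ^ 2 = 2 := Real.sq_sqrt (by norm_num)
  have hx : ‖x‖ ^ 2 = ∑ i, x i ^ 2 := by
    rw [EuclideanSpace.norm_sq_eq]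
    exact Finset.sum_congr rfl fun i _ => by rw [Real.norm_eq_abs, sq_abs]
  have hw : ‖w‖ ^ 2 = ∑ i, w i ^ 2 := by
    rw [EuclideanSpace.norm_sq_eq]
    exact Finset.sum_congr rfl fun i _ => by rw [Real.norm_eq_abs, sq_abs]
  have hi : ⟪x, w⟫ = ∑ i, x i * w i := by
    rw [PiLp.inner_apply]
    exact Finset.sum_congr rfl fun i _ => by
      rw [real_inner_eq_re_inner, RCLike.inner_apply]
      simp [mul_comm]
  have hl : ‖wdv x w‖ ^ 2 = ∑ i, ∑ j, (x i ^ 2 * w j ^ 2 / 2 + x j ^ 2 * w i ^ 2 / 2 -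
      (x i * w i) * (x j * w j)) := by
    rw [EuclideanSpace.norm_sq_eq, Fintype.sum_prod_type]
    refine Finset.sum_congr rfl fun i _ => Finset.sum_congr rfl fun j _ => ?_
    have e : wdv x w (i, j) = (x i * w j - x j * w i) / √2 := rfl
    rw [e, Real.norm_eq_abs, sq_abs, div_pow, h2]
    ring
  have h3 : ∑ i, ∑ j, x i ^ 2 * w j ^ 2 / 2 = (∑ i, x i ^ 2) * (∑ j, w j ^ 2) / 2 := by
    rw [Finset.sum_mul_sum, Finset.sum_div]
    exact Finset.sum_congr rfl fun i _ => by rw [Finset.sum_div]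
  have h4 : ∑ i, ∑ j, x j ^ 2 * w i ^ 2 / 2 = (∑ i, x i ^ 2) * (∑ j, w j ^ 2) / 2 := by
    rw [Finset.sum_comm]
    exact h3
  have h5 : ∑ i, ∑ j, (x i * w i) * (x j * w j) = (∑ i, x i * w i) ^ 2 := by
    rw [sq, Finset.sum_mul_sum]
  rw [hl, hx, hw, hi, ← h5]
  simp only [Finset.sum_sub_distrib, Finset.sum_add_distrib]
  rw [h3, h4]
  ring

private theorem wdv_sub (x w y v : Sp d) :
    wdv x w - wdv y v = wdv (x - y) w + wdv y (w - v) := by
  ext p
  show (x p.1 * w p.2 - x p.2 * w p.1) / √2 - (y p.1 * v p.2 - y p.2 * v p.1) / √2 =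
    ((x p.1 - y p.1) * w p.2 - (x p.2 - y p.2) * w p.1) / √2 +
      (y p.1 * (w p.2 - v p.2) - y p.2 * (w p.1 - v p.1)) / √2
  ring

private theorem wdv_add_left (x y w : Sp d) : wdv (x + y) w = wdv x w + wdv y w := by
  ext p
  show ((x p.1 + y p.1) * w p.2 - (x p.2 + y p.2) * w p.1) / √2 =
    (x p.1 * w p.2 - x p.2 * w p.1) / √2 + (y p.1 * w p.2 - y p.2 * w p.1) / √2
  ring

private theorem wdv_add_right (x w v : Sp d) : wdv x (w + v) = wdv x w + wdv x v := by
  ext p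
  show (x p.1 * (w p.2 + v p.2) - x p.2 * (w p.1 + v p.1)) / √2 =
    (x p.1 * w p.2 - x p.2 * w p.1) / √2 + (x p.1 * v p.2 - x p.2 * v p.1) / √2
  ring

private theorem wdv_hasDerivAt {x w : ℝ → Sp d} {x' w' : Sp d} {t : ℝ}
    (hx : HasDerivAt x x' t) (hw : HasDerivAt w w' t) :
    HasDerivAt (fun s => wdv (x s) (w s)) (wdv x' (w t) + wdv (x t) w') t := by
  have hxi : ∀ i, HasDerivAt (fun s => x s i) (x' i) t := fun i =>
    (EuclideanSpace.proj i : Sp d →L[ℝ] ℝ).hasFDerivAt.comp_hasDerivAt t hx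
  have hwi : ∀ i, HasDerivAt (fun s => w s i) (w' i) t := fun i =>
    (EuclideanSpace.proj i : Sp d →L[ℝ] ℝ).hasFDerivAt.comp_hasDerivAt t hw
  have hg : HasDerivAt (fun s => fun p : Fin d × Fin d =>
      (x s p.1 * w s p.2 - x s p.2 * w s p.1) / √2)
      (fun p => (x' p.1 * w t p.2 - x' p.2 * w t p.1) / √2 +
        (x t p.1 * w' p.2 - x t p.2 * w' p.1) / √2) t := by
    rw [hasDerivAt_pi]
    intro p
    have h1 := (((hxi p.1).mul (hwi p.2)).sub ((hxi p.2).mul (hwi p.1))).div_const (√2)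
    refine h1.congr_deriv ?_
    ring
  exact (EuclideanSpace.equiv (Fin d × Fin d) ℝ).symm.toContinuousLinearMap.hasFDerivAt.comp_hasDerivAt
    t hg

theorem jw_eq (x w : Sp d) : jw x w = ‖wdv x w‖ := by

  unfold jw
  rw [← wdv_nsq, Real.sqrt_sq (norm_nonneg _)]


theorem jw_nonneg (x w : Sp d) : 0 ≤ jw x w := Real.sqrt_nonneg _

theorem jw_sq (x w : Sp d) : jw x w ^ 2 = ‖x‖ ^ 2 * ‖w‖ ^ 2 - ⟪x, w⟫ ^ 2 := by

  rw [jw_eq, wdv_nsq]


theorem jw_le (x w : Sp d) : jw x w ≤ ‖x‖ * ‖w‖ := by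

  have h1 : jw x w ≤ √((‖x‖ * ‖w‖) ^ 2) := by
    unfold jw
    apply Real.sqrt_le_sqrt
    rw [mul_pow]
    linarith [sq_nonneg ⟪x, w⟫]
  rwa [Real.sqrt_sq (mul_nonneg (norm_nonneg _) (norm_nonneg _))] at h1


theorem jw_comm (x w : Sp d) : jw w x = jw x w := by

  unfold jw
  rw [real_inner_comm, mul_comm]


theorem jw_neg_left (x w : Sp d) : jw (-x) w = jw x w := by

  unfold jw
  rw [norm_neg, inner_neg_left, neg_sq]


theorem jw_neg_right (x w : Sp d) : jw x (-w) = jw x w := by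

  unfold jw
  rw [norm_neg, inner_neg_right, neg_sq]


theorem jw_add_left_le (x y w : Sp d) : jw (x + y) w ≤ jw x w + jw y w := by

  rw [jw_eq, jw_eq, jw_eq, wdv_add_left]
  exact norm_add_le _ _


theorem jw_add_right_le (x w v : Sp d) : jw x (w + v) ≤ jw x w + jw x v := by

  rw [jw_eq, jw_eq, jw_eq, wdv_add_right]
  exact norm_add_le _ _


theorem jw_sub_abs (x w y v : Sp d) : |jw x w - jw y v| ≤ jw (x - y) w + jw y (w - v) := by

  rw [jw_eq, jw_eq, jw_eq, jw_eq]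
  refine (abs_norm_sub_norm_le _ _).trans ?_
  rw [wdv_sub]
  exact norm_add_le _ _


/-- adding a multiple of `w` to `x` does not change `x ∧ w` -/
theorem jw_add_smul (x w : Sp d) (c : ℝ) : jw (x + c • w) w = jw x w := by

  rw [jw_eq, jw_eq]
  congr 1
  ext p
  show ((x p.1 + c * w p.1) * w p.2 - (x p.2 + c * w p.2) * w p.1) / √2 =
    (x p.1 * w p.2 - x p.2 * w p.1) / √2
  ring


/-- if `x` is orthogonal to `w` then `jw x w = ‖x‖ * ‖w‖` -/
theorem jw_of_inner_eq_zero {x w : Sp d} (h : ⟪x, w⟫ = 0) : jw x w = ‖x‖ * ‖w‖ := by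

  unfold jw
  rw [h, zero_pow two_ne_zero, sub_zero, ← mul_pow,
    Real.sqrt_sq (mul_nonneg (norm_nonneg _) (norm_nonneg _))]


theorem continuous_jw : Continuous fun z : Sp d × Sp d => jw z.1 z.2 := by
  unfold jw
  fun_prop

/-- the angular momentum along a curve with acceleration `c • x + p` -/
theorem jw_along {x w : ℝ → Sp d} {c : ℝ → ℝ} {p : ℝ → Sp d} {α β : ℝ} (hab : α ≤ β)
    (hx : ∀ t ∈ Icc α β, HasDerivAt x (w t) t)
    (hw : ∀ t ∈ Icc α β, HasDerivAt w (c t • x t + p t) t)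
    {B : ℝ → ℝ} (hB : ContinuousOn B (Icc α β)) (hp : ∀ t ∈ Icc α β, ‖x t‖ * ‖p t‖ ≤ B t) :
    |jw (x β) (w β) - jw (x α) (w α)| ≤ ∫ t in α..β, B t := by

  have hmem : ∀ t : ℝ, max α (min β t) ∈ Icc α β := fun t =>
    ⟨le_max_left _ _, max_le hab (min_le_left _ _)⟩
  have hBc : Continuous fun t : ℝ => B (max α (min β t)) :=
    hB.comp_continuous (by fun_prop) hmem
  have hBe : ∀ t ∈ Icc α β, B (max α (min β t)) = B t := by
    intro t ht
    rw [min_eq_right ht.2, max_eq_right ht.1]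
  have hder : ∀ t ∈ Icc α β, HasDerivAt (fun s => wdv (x s) (w s) - wdv (x α) (w α))
      (wdv (x t) (p t)) t := by
    intro t ht
    have h1 := (wdv_hasDerivAt (hx t ht) (hw t ht)).sub_const (wdv (x α) (w α))
    refine h1.congr_deriv ?_
    ext q
    show (w t q.1 * w t q.2 - w t q.2 * w t q.1) / √2 +
      (x t q.1 * (c t * x t q.2 + p t q.2) - x t q.2 * (c t * x t q.1 + p t q.1)) / √2 =
      (x t q.1 * p t q.2 - x t q.2 * p t q.1) / √2
    ring
  have hprim : ∀ t, HasDerivAt (fun s => ∫ u in α..s, B (max α (min β u)))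
      (B (max α (min β t))) t := fun t => (hBc.integral_hasStrictDerivAt α t).hasDerivAt
  have key := image_norm_le_of_norm_deriv_right_le_deriv_boundary
    (f := fun s => wdv (x s) (w s) - wdv (x α) (w α)) (f' := fun t => wdv (x t) (p t))
    (a := α) (b := β)
    (fun t ht => (hder t ht).continuousAt.continuousWithinAt)
    (fun t ht => (hder t ⟨ht.1, ht.2.le⟩).hasDerivWithinAt)
    (B := fun s => ∫ u in α..s, B (max α (min β u))) (B' := fun t => B (max α (min β t)))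
    (by rw [sub_self, norm_zero, intervalIntegral.integral_same]) hprim
    (fun t ht => by
      have ht' : t ∈ Icc α β := ⟨ht.1, ht.2.le⟩
      show ‖wdv (x t) (p t)‖ ≤ B (max α (min β t))
      rw [hBe t ht', ← jw_eq]
      exact (jw_le _ _).trans (hp t ht'))
    (right_mem_Icc.2 hab)
  have hint : ∫ u in α..β, B (max α (min β u)) = ∫ u in α..β, B u := by
    refine intervalIntegral.integral_congr fun u hu => ?_
    rw [uIcc_of_le hab] at hu
    exact hBe u hu
  rw [jw_eq, jw_eq]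
  refine (abs_norm_sub_norm_le _ _).trans ?_
  rw [← hint]
  exact key


end NB5
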