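import Mathlib
import Pool.Agent.NB5.Defs
import Pool.Agent.NB5.JwL

/-!
# Kinematics of fast passages (project NB5, module NB5-FrA)

`pass`: `z' = u` on `[α, β]`, `β - α ≤ 1`, `‖u s - u0‖ ≤ Δ`, `10 Δ ≤ ‖u0‖`, `u0 = u α`. Then
`z s = z α + (s - α) u0 + e s`, `‖e s‖ ≤ (s - α) Δ ≤ Δ`. If `‖z s‖ < κ` then
`jw (z α) u0 = jw (z s - e s) u0 ≤ (κ + Δ) ‖u0‖` (`jw_add_smul`), so `(κ + Δ) ‖u0‖ ≤ jw (z α) u0` implies
`κ ≤ ‖z s‖`. Time integral of `1/‖z‖^2`: the function `f s = ⟪z s, u0⟫/‖u0‖` has `f' ≥ 0.9 ‖u0‖` and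
`‖z s‖ ≥ max κ |f s|`, so `1/‖z‖^2 ≤ 2/(κ^2 + f^2)`, and `f'/(κ^2+f^2)` is the derivative of
`arctan (f/κ)/κ`: `∫ 1/‖z‖^2 ≤ (2/(0.9 ‖u0‖)) π/κ ≤ 8/(κ ‖u0‖)`.
`escape`: `⟪x α, w α⟫ ≥ 0`, `‖w s - w α‖ ≤ ‖w α‖/5`. `x s = x α + (s-α) w α + e`, `‖e‖ ≤ (s-α)‖w α‖/5`,
`‖x α + (s-α) w α‖^2 ≥ ‖x α‖^2 + (s-α)^2 ‖w α‖^2 ≥ (1/2) (‖x α‖ + (s-α)‖w α‖)^2`.
-/

open MeasureTheory Set Filter Topology Metric
open scoped NNReal ENNReal RealInnerProductSpace

namespace NB5

open HDN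

variable {d : ℕ}

/-- deviation from uniform motion -/
private lemma fra_dev {z u : ℝ → Sp d} {α β Δ : ℝ}
    (hz : ∀ s ∈ Icc α β, HasDerivAt z (u s) s)
    (hΔ : ∀ s ∈ Icc α β, ‖u s - u α‖ ≤ Δ) {s : ℝ} (hs : s ∈ Icc α β) :
    ‖z s - (z α + (s - α) • u α)‖ ≤ Δ * (s - α) := by
  have hf : ∀ t ∈ Icc α β, HasDerivWithinAt (fun t => z t - (t - α) • u α) (u t - u α)
      (Icc α β) t := by
    intro t ht
    have h1 : HasDerivAt (fun t : ℝ => (t - α) • u α) ((1 : ℝ) • u α) t :=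
      ((hasDerivAt_id t).sub_const α).smul_const (u α)
    have h2 := (hz t ht).sub h1
    rw [one_smul] at h2
    exact h2.hasDerivWithinAt
  have h := norm_image_sub_le_of_norm_deriv_le_segment' hf
    (fun t ht => hΔ t ⟨ht.1, ht.2.le⟩) s hs
  have e : (z s - (s - α) • u α) - (z α - (α - α) • u α) = z s - (z α + (s - α) • u α) := by
    rw [sub_self, zero_smul]
    abel
  have h' : ‖(z s - (s - α) • u α) - (z α - (α - α) • u α)‖ ≤ Δ * (s - α) := h
  rw [e] at h'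
  exact h'

theorem pass {z u : ℝ → Sp d} {α β Δ κ : ℝ} (hαβ : α ≤ β) (h1 : β ≤ α + 1)
    (hz : ∀ s ∈ Icc α β, HasDerivAt z (u s) s) (hu : ContinuousOn u (Icc α β))
    (hΔ : ∀ s ∈ Icc α β, ‖u s - u α‖ ≤ Δ) (hκ : 0 < κ) (hu0 : 10 * Δ ≤ ‖u α‖) (hpos : 0 < ‖u α‖)
    (hj : (κ + Δ) * ‖u α‖ ≤ jw (z α) (u α)) :
    (∀ s ∈ Icc α β, κ ≤ ‖z s‖) ∧ ∫ s in α..β, 1 / ‖z s‖ ^ 2 ≤ 8 / (κ * ‖u α‖) := by
  have hΔ0 : 0 ≤ Δ := (norm_nonneg _).trans (hΔ α ⟨le_rfl, hαβ⟩)
  have hlow : ∀ s ∈ Icc α β, κ ≤ ‖z s‖ := by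
    intro s hs
    have hd := fra_dev hz hΔ hs
    have hd1 : ‖z s - (z α + (s - α) • u α)‖ ≤ Δ := by
      refine hd.trans ?_
      have : s - α ≤ 1 := by linarith [hs.2]
      nlinarith
    have e1 : jw (z α) (u α) = jw (z α + (s - α) • u α) (u α) := (jw_add_smul _ _ _).symm
    have e2 : jw (z α + (s - α) • u α) (u α) ≤ ‖z α + (s - α) • u α‖ * ‖u α‖ := jw_le _ _
    have e3 : ‖z α + (s - α) • u α‖ ≤ ‖z s‖ + Δ := by
      have : z α + (s - α) • u α = z s - (z s - (z α + (s - α) • u α)) := by abel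
      rw [this]
      exact (norm_sub_le _ _).trans (by linarith)
    have e4 : (κ + Δ) * ‖u α‖ ≤ (‖z s‖ + Δ) * ‖u α‖ := by
      calc (κ + Δ) * ‖u α‖ ≤ jw (z α) (u α) := hj
        _ ≤ ‖z α + (s - α) • u α‖ * ‖u α‖ := by rw [e1]; exact e2
        _ ≤ _ := mul_le_mul_of_nonneg_right e3 hpos.le
    have e5 := le_of_mul_le_mul_right e4 hpos
    linarith
  refine ⟨hlow, ?_⟩
  have hzc : ContinuousOn z (Icc α β) := fun s hs => (hz s hs).continuousAt.continuousWithinAt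
  set U : ℝ := ‖u α‖ with hU
  -- the comparison function
  have hmain := intervalIntegral.integral_le_sub_of_hasDeriv_right_of_le (a := α) (b := β)
    (g := fun s => (20 / (9 * U * κ)) * Real.arctan (⟪z s, u α⟫ / (U * κ)))
    (g' := fun s => (20 / (9 * U * κ)) *
      (1 / (1 + (⟪z s, u α⟫ / (U * κ)) ^ 2) * (⟪u s, u α⟫ / (U * κ))))
    (φ := fun s => 1 / ‖z s‖ ^ 2) hαβ ?_ ?_ ?_ ?_
  · refine hmain.trans ?_
    have a1 := Real.arctan_lt_pi_div_two (⟪z β, u α⟫ / (U * κ))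
    have a2 := Real.neg_pi_div_two_lt_arctan (⟪z α, u α⟫ / (U * κ))
    have hc : 0 < 20 / (9 * U * κ) := by positivity
    have a3 : (20 / (9 * U * κ)) * Real.arctan (⟪z β, u α⟫ / (U * κ)) -
        (20 / (9 * U * κ)) * Real.arctan (⟪z α, u α⟫ / (U * κ)) ≤ (20 / (9 * U * κ)) * 3.15 := by
      rw [← mul_sub]
      refine mul_le_mul_of_nonneg_left ?_ hc.le
      have := Real.pi_lt_d2
      linarith
    refine a3.trans ?_
    rw [div_mul_eq_mul_div, div_le_div_iff₀ (by positivity) (by positivity)]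
    have : 0 < U * κ := by positivity
    nlinarith
  · refine ContinuousOn.mul continuousOn_const ?_
    refine Real.continuous_arctan.comp_continuousOn ?_
    exact (hzc.inner continuousOn_const).div_const _
  · intro s hs
    have hs' : s ∈ Icc α β := ⟨hs.1.le, hs.2.le⟩
    have d1 : HasDerivAt (fun s => ⟪z s, u α⟫ / (U * κ)) (⟪u s, u α⟫ / (U * κ)) s := by
      have := (hz s hs').inner ℝ (hasDerivAt_const s (u α))
      simp only [inner_zero_right, zero_add] at this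
      exact this.div_const _
    have d2 := (d1.arctan).const_mul (20 / (9 * U * κ))
    exact d2.hasDerivWithinAt
  · refine ContinuousOn.integrableOn_Icc ?_
    refine ContinuousOn.div continuousOn_const (hzc.norm.pow 2) ?_
    intro s hs
    have h9 := lt_of_lt_of_le hκ (hlow s hs)
    positivity
  · intro s hs
    have hs' : s ∈ Icc α β := ⟨hs.1.le, hs.2.le⟩
    have hk := hlow s hs'
    have hzpos : 0 < ‖z s‖ := lt_of_lt_of_le hκ hk
    -- inner products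
    have i1 : |⟪z s, u α⟫| ≤ ‖z s‖ * U := abs_real_inner_le_norm _ _
    have i2 : (9 / 10) * U ^ 2 ≤ ⟪u s, u α⟫ := by
      have : ⟪u s, u α⟫ = ⟪u s - u α, u α⟫ + U ^ 2 := by
        rw [inner_sub_left, real_inner_self_eq_norm_sq]; ring
      rw [this]
      have h3 : |⟪u s - u α, u α⟫| ≤ ‖u s - u α‖ * U := abs_real_inner_le_norm _ _
      have h4 := (abs_le.1 h3).1
      have h5 : ‖u s - u α‖ * U ≤ (U / 10) * U := by
        refine mul_le_mul_of_nonneg_right ?_ hpos.le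
        have := hΔ s hs'
        linarith
      nlinarith
    have i3 : ⟪z s, u α⟫ ^ 2 ≤ ‖z s‖ ^ 2 * U ^ 2 := by
      rw [← mul_pow, ← sq_abs]
      exact pow_le_pow_left₀ (abs_nonneg _) i1 2
    have hUk : 0 < U * κ := by positivity
    have key : (1 : ℝ) + (⟪z s, u α⟫ / (U * κ)) ^ 2 ≤ 2 * ‖z s‖ ^ 2 / κ ^ 2 := by
      rw [div_pow, le_div_iff₀ (by positivity), add_mul, div_mul_eq_mul_div]
      have h6 : ⟪z s, u α⟫ ^ 2 * κ ^ 2 / (U * κ) ^ 2 ≤ ‖z s‖ ^ 2 := by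
        rw [div_le_iff₀ (by positivity)]
        have : ⟪z s, u α⟫ ^ 2 * κ ^ 2 ≤ (‖z s‖ ^ 2 * U ^ 2) * κ ^ 2 :=
          mul_le_mul_of_nonneg_right i3 (by positivity)
        calc _ ≤ _ := this
          _ = _ := by ring
      have h7 : κ ^ 2 ≤ ‖z s‖ ^ 2 := pow_le_pow_left₀ hκ.le hk 2
      linarith
    have hden : 0 < (1 : ℝ) + (⟪z s, u α⟫ / (U * κ)) ^ 2 := by positivity
    have key2 : κ ^ 2 / (2 * ‖z s‖ ^ 2) ≤ 1 / (1 + (⟪z s, u α⟫ / (U * κ)) ^ 2) := by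
      rw [div_le_div_iff₀ (by positivity) hden]
      have := mul_le_mul_of_nonneg_left key (by positivity : (0 : ℝ) ≤ κ ^ 2)
      calc _ ≤ _ := this
        _ = 1 * (2 * ‖z s‖ ^ 2) := by field_simp
    have key3 : (9 / 10) * U / κ ≤ ⟪u s, u α⟫ / (U * κ) := by
      rw [div_le_div_iff₀ hκ hUk]
      have := mul_le_mul_of_nonneg_right i2 hκ.le
      nlinarith
    have key4 : κ ^ 2 / (2 * ‖z s‖ ^ 2) * ((9 / 10) * U / κ) ≤
        1 / (1 + (⟪z s, u α⟫ / (U * κ)) ^ 2) * (⟪u s, u α⟫ / (U * κ)) :=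
      mul_le_mul key2 key3 (by positivity) (by positivity)
    have key5 := mul_le_mul_of_nonneg_left key4 (by positivity : (0 : ℝ) ≤ 20 / (9 * U * κ))
    refine le_trans (le_of_eq ?_) key5
    have hUne : U ≠ 0 := hpos.ne'
    have hκne : κ ≠ 0 := hκ.ne'
    have hzne : ‖z s‖ ≠ 0 := hzpos.ne'
    field_simp
    ring

theorem escape {x w : ℝ → Sp d} {α β : ℝ} (hαβ : α ≤ β)
    (hx : ∀ s ∈ Icc α β, HasDerivAt x (w s) s) (hw : ContinuousOn w (Icc α β))
    (h0 : 0 ≤ ⟪x α, w α⟫) (hΔ : ∀ s ∈ Icc α β, ‖w s - w α‖ ≤ ‖w α‖ / 5) (hpos : 0 < ‖x α‖)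
    (hw0 : 0 < ‖w α‖) :
    (∀ s ∈ Icc α β, (1 / 2) * (‖x α‖ + (s - α) * ‖w α‖) ≤ ‖x s‖) ∧
      ∫ s in α..β, 1 / ‖x s‖ ^ 2 ≤ 4 / (‖x α‖ * ‖w α‖) ∧
      ∫ s in α..β, 1 / ‖x s‖ ^ 4 ≤ 16 / (‖x α‖ ^ 3 * ‖w α‖) := by
  set a : ℝ := ‖x α‖ with ha
  set W : ℝ := ‖w α‖ with hW
  have hlow : ∀ s ∈ Icc α β, (1 / 2) * (a + (s - α) * W) ≤ ‖x s‖ := by
    intro s hs
    have hs0 : 0 ≤ s - α := by linarith [hs.1]
    have hd := fra_dev hx hΔ hs
    have hsq : (a + (s - α) * W) ^ 2 ≤ 2 * ‖x α + (s - α) • w α‖ ^ 2 := by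
      rw [norm_add_sq_real, inner_smul_right, norm_smul, Real.norm_eq_abs, abs_of_nonneg hs0]
      have : 0 ≤ (s - α) * ⟪x α, w α⟫ := mul_nonneg hs0 h0
      nlinarith [sq_nonneg (a - (s - α) * W)]
    have h7 : (7 / 10) * (a + (s - α) * W) ≤ ‖x α + (s - α) • w α‖ := by
      have h77 : 0 ≤ (7 / 10) * (a + (s - α) * W) := by positivity
      refine (pow_le_pow_iff_left₀ h77 (norm_nonneg _) two_ne_zero).1 ?_
      nlinarith [sq_nonneg (a + (s - α) * W)]
    have h8 : ‖x α + (s - α) • w α‖ ≤ ‖x s‖ + W / 5 * (s - α) := by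
      have : x α + (s - α) • w α = x s - (x s - (x α + (s - α) • w α)) := by abel
      rw [this]
      exact (norm_sub_le _ _).trans (by linarith)
    nlinarith [mul_nonneg hs0 hw0.le]
  have hxc : ContinuousOn x (Icc α β) := fun s hs => (hx s hs).continuousAt.continuousWithinAt
  have hDpos : ∀ s ∈ Icc α β, 0 < a + (s - α) * W := by
    intro s hs
    have hs0 : 0 ≤ s - α := by linarith [hs.1]
    positivity
  have hxpos : ∀ s ∈ Icc α β, 0 < ‖x s‖ := fun s hs =>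
    lt_of_lt_of_le (by have := hDpos s hs; positivity) (hlow s hs)
  have hD : ∀ s, HasDerivAt (fun s : ℝ => a + (s - α) * W) W s := by
    intro s
    have h := (((hasDerivAt_id s).sub_const α).mul_const W).const_add a
    simpa using h
  refine ⟨hlow, ?_, ?_⟩
  · have hmain := intervalIntegral.integral_le_sub_of_hasDeriv_right_of_le (a := α) (b := β)
      (g := fun s => -(4 / W) * (a + (s - α) * W)⁻¹)
      (g' := fun s => -(4 / W) * (-W / (a + (s - α) * W) ^ 2))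
      (φ := fun s => 1 / ‖x s‖ ^ 2) hαβ ?_ ?_ ?_ ?_
    · refine hmain.trans ?_
      have h1 : 0 ≤ (4 / W) * (a + (β - α) * W)⁻¹ := by
        have := hDpos β ⟨hαβ, le_rfl⟩
        positivity
      have h2 : (4 / W) * (a + (α - α) * W)⁻¹ = 4 / (a * W) := by
        rw [sub_self, zero_mul, add_zero]
        field_simp
      simp only [neg_mul, sub_neg_eq_add]
      linarith
    · refine ContinuousOn.mul continuousOn_const ?_
      refine ContinuousOn.inv₀ (by fun_prop) (fun s hs => (hDpos s hs).ne')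
    · intro s hs
      have hs' : s ∈ Icc α β := ⟨hs.1.le, hs.2.le⟩
      exact (((hD s).fun_inv (hDpos s hs').ne').const_mul _).hasDerivWithinAt
    · refine ContinuousOn.integrableOn_Icc ?_
      refine ContinuousOn.div continuousOn_const (hxc.norm.pow 2) ?_
      intro s hs
      have h9 := hxpos s hs
      positivity
    · intro s hs
      have hs' : s ∈ Icc α β := ⟨hs.1.le, hs.2.le⟩
      have h1 := hlow s hs'
      have h2 := hDpos s hs'
      have h3 := hxpos s hs'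
      have h4 : -(4 / W) * (-W / (a + (s - α) * W) ^ 2) = 4 / (a + (s - α) * W) ^ 2 := by
        field_simp
      rw [h4, div_le_div_iff₀ (by positivity) (by positivity)]
      have h5 := pow_le_pow_left₀ (by positivity) h1 2
      nlinarith
  · have hmain := intervalIntegral.integral_le_sub_of_hasDeriv_right_of_le (a := α) (b := β)
      (g := fun s => -(16 / (3 * W)) * ((a + (s - α) * W)⁻¹) ^ 3)
      (g' := fun s => -(16 / (3 * W)) *
        (((3 : ℕ) : ℝ) * ((a + (s - α) * W)⁻¹) ^ (3 - 1) * (-W / (a + (s - α) * W) ^ 2)))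
      (φ := fun s => 1 / ‖x s‖ ^ 4) hαβ ?_ ?_ ?_ ?_
    · refine hmain.trans ?_
      have h1 : 0 ≤ (16 / (3 * W)) * ((a + (β - α) * W)⁻¹) ^ 3 := by
        have := hDpos β ⟨hαβ, le_rfl⟩
        positivity
      have h2 : (16 / (3 * W)) * ((a + (α - α) * W)⁻¹) ^ 3 ≤ 16 / (a ^ 3 * W) := by
        rw [sub_self, zero_mul, add_zero, inv_pow, ← div_eq_mul_inv, div_div,
          div_le_div_iff₀ (by positivity) (by positivity)]
        have : 0 < a ^ 3 * W := by positivity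
        nlinarith
      simp only [neg_mul, sub_neg_eq_add]
      linarith
    · refine ContinuousOn.mul continuousOn_const (ContinuousOn.pow ?_ 3)
      refine ContinuousOn.inv₀ (by fun_prop) (fun s hs => (hDpos s hs).ne')
    · intro s hs
      have hs' : s ∈ Icc α β := ⟨hs.1.le, hs.2.le⟩
      exact ((((hD s).fun_inv (hDpos s hs').ne').fun_pow 3).const_mul _).hasDerivWithinAt
    · refine ContinuousOn.integrableOn_Icc ?_
      refine ContinuousOn.div continuousOn_const (hxc.norm.pow 4) ?_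
      intro s hs
      have h9 := hxpos s hs
      positivity
    · intro s hs
      have hs' : s ∈ Icc α β := ⟨hs.1.le, hs.2.le⟩
      have h1 := hlow s hs'
      have h2 := hDpos s hs'
      have h3 := hxpos s hs'
      have h4 : -(16 / (3 * W)) *
          (((3 : ℕ) : ℝ) * ((a + (s - α) * W)⁻¹) ^ (3 - 1) * (-W / (a + (s - α) * W) ^ 2)) =
          16 / (a + (s - α) * W) ^ 4 := by
        have h5 : (3 : ℕ) - 1 = 2 := rfl
        rw [h5]
        push_cast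
        field_simp
      rw [h4, div_le_div_iff₀ (by positivity) (by positivity)]
      have h5 := pow_le_pow_left₀ (by positivity) h1 4
      rw [mul_pow] at h5
      norm_num at h5
      nlinarith

end NB5
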