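import Mathlib
import Pool.Agent.NB5.Defs
import Pool.Agent.NB5.GravMul
import Pool.Agent.HDN.XDerA

/-!
# Bounds for accelerations (project NB5, module NB5-FrB)

`acc m q j = ∑_{i ≠ j} m i • grav (q i - q j)` (`HDN.XDerA.acc_eq_grav`), `‖grav x‖ = 1/‖x‖^2`. The bodies
`0, 1` are at distance `≥ ‖q j - XQ‖ - r ≥ (3/4) ‖q j - XQ‖` from `q j`. For the centre of mass of the
pair the inner forces cancel.
-/

open MeasureTheory Set Filter Topology Metric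
open scoped NNReal ENNReal RealInnerProductSpace

namespace NB5

open HDN

variable {d : ℕ} {m : Fin 5 → ℝ} {M : ℝ}

private theorem frB_norm_grav (x : Sp d) : ‖grav x‖ = 1 / ‖x‖ ^ 2 := by
  unfold grav
  rw [norm_smul, norm_inv, norm_pow, norm_norm]
  rcases eq_or_ne ‖x‖ 0 with h | h
  · rw [h]
    simp
  · field_simp

private theorem frB_pos (h : Mb M m) (i : Fin 5) : 0 < m i := by
  have h1 : 0 < M := lt_of_lt_of_le one_pos h.1
  exact lt_of_lt_of_le (by positivity) (h.2 i).1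

private theorem frB_cm0 (h : Mb M m) (q : Cf 5 d) : ‖q 0 - cm m 0 1 q‖ ≤ ‖q 0 - q 1‖ := by
  have h0 := frB_pos h 0
  have h1 := frB_pos h 1
  have hs : m 0 + m 1 ≠ 0 := (add_pos h0 h1).ne'
  have e : q 0 - cm m 0 1 q = ((m 0 + m 1)⁻¹ * m 1) • (q 0 - q 1) := by
    have e1 : q 0 = (m 0 + m 1)⁻¹ • ((m 0 + m 1) • q 0) := by
      rw [smul_smul, inv_mul_cancel₀ hs, one_smul]
    unfold cm
    nth_rewrite 1 [e1]
    rw [← smul_sub, mul_smul]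
    congr 1
    rw [add_smul, smul_sub]
    abel
  rw [e, norm_smul, Real.norm_eq_abs, abs_of_pos (mul_pos (inv_pos.2 (add_pos h0 h1)) h1)]
  have h2 : (m 0 + m 1)⁻¹ * m 1 ≤ 1 := by
    rw [inv_mul_le_iff₀ (add_pos h0 h1)]
    linarith
  nlinarith [norm_nonneg (q 0 - q 1)]

private theorem frB_cm1 (h : Mb M m) (q : Cf 5 d) : ‖q 1 - cm m 0 1 q‖ ≤ ‖q 0 - q 1‖ := by
  have h0 := frB_pos h 0
  have h1 := frB_pos h 1
  have hs : m 0 + m 1 ≠ 0 := (add_pos h0 h1).ne'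
  have e : q 1 - cm m 0 1 q = ((m 0 + m 1)⁻¹ * m 0) • (q 1 - q 0) := by
    have e1 : q 1 = (m 0 + m 1)⁻¹ • ((m 0 + m 1) • q 1) := by
      rw [smul_smul, inv_mul_cancel₀ hs, one_smul]
    unfold cm
    nth_rewrite 1 [e1]
    rw [← smul_sub, mul_smul]
    congr 1
    rw [add_smul, smul_sub]
    abel
  rw [e, norm_smul, Real.norm_eq_abs, abs_of_pos (mul_pos (inv_pos.2 (add_pos h0 h1)) h0),
    norm_sub_rev (q 1) (q 0)]
  have h2 : (m 0 + m 1)⁻¹ * m 0 ≤ 1 := by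
    rw [inv_mul_le_iff₀ (add_pos h0 h1)]
    linarith
  nlinarith [norm_nonneg (q 0 - q 1)]

/-- a body near the centre of mass -/
private theorem frB_near {x y X : Sp d} {r : ℝ} (hx : ‖x - X‖ ≤ r) (hr : 4 * r ≤ ‖y - X‖)
    (h0 : 0 < ‖y - X‖) : 1 / ‖x - y‖ ^ 2 ≤ 2 * (1 / ‖y - X‖ ^ 2) := by
  have h1 : ‖y - X‖ ≤ ‖x - y‖ + ‖x - X‖ := by
    have : y - X = (x - X) - (x - y) := by abel
    rw [this]
    calc ‖(x - X) - (x - y)‖ ≤ ‖x - X‖ + ‖x - y‖ := norm_sub_le _ _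
      _ = _ := add_comm _ _
  have h2 : (3 / 4) * ‖y - X‖ ≤ ‖x - y‖ := by linarith
  have h3 : 0 < ‖x - y‖ := by linarith [mul_pos (by norm_num : (0 : ℝ) < 3 / 4) h0]
  rw [mul_one_div, div_le_div_iff₀ (by positivity) (by positivity)]
  nlinarith [mul_le_mul h2 h2 (by positivity) h3.le]

theorem acc_j_le (h : Mb M m) {q : Cf 5 d} {j : Fin 5} (hj : 2 ≤ j)
    (hr : 4 * ‖q 0 - q 1‖ ≤ ‖q j - cm m 0 1 q‖) (h0 : 0 < ‖q j - cm m 0 1 q‖) :
    ‖acc m q j‖ ≤ 4 * M * (1 / ‖q j - cm m 0 1 q‖ ^ 2 +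
      ∑ i ∈ ({2, 3, 4} : Finset (Fin 5)).erase j, 1 / ‖q i - q j‖ ^ 2) := by
  have hM : 0 < M := lt_of_lt_of_le one_pos h.1
  have hs : ∀ f : Fin 5 → Sp d, ∑ i ∈ Finset.univ.erase j, f i =
      f 0 + (f 1 + ∑ i ∈ ({2, 3, 4} : Finset (Fin 5)).erase j, f i) := by
    intro f
    have e : Finset.univ.erase j =
        insert 0 (insert 1 (({2, 3, 4} : Finset (Fin 5)).erase j)) := by
      clear f h0 hr
      revert j
      decide
    rw [e, Finset.sum_insert, Finset.sum_insert]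
    · simp
    · simp
  rw [acc_eq_grav, hs]
  have b0 : ‖m 0 • grav (q 0 - q j)‖ ≤ 2 * M * (1 / ‖q j - cm m 0 1 q‖ ^ 2) := by
    rw [norm_smul, frB_norm_grav, Real.norm_eq_abs, abs_of_pos (frB_pos h 0)]
    have h1 := frB_near (frB_cm0 h q) hr h0
    have h2 := (h.2 0).2
    have h3 : 0 ≤ 1 / ‖q 0 - q j‖ ^ 2 := by positivity
    nlinarith [mul_le_mul h2 h1 h3 hM.le]
  have b1 : ‖m 1 • grav (q 1 - q j)‖ ≤ 2 * M * (1 / ‖q j - cm m 0 1 q‖ ^ 2) := by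
    rw [norm_smul, frB_norm_grav, Real.norm_eq_abs, abs_of_pos (frB_pos h 1)]
    have h1 := frB_near (frB_cm1 h q) hr h0
    have h2 := (h.2 1).2
    have h3 : 0 ≤ 1 / ‖q 1 - q j‖ ^ 2 := by positivity
    nlinarith [mul_le_mul h2 h1 h3 hM.le]
  have b2 : ‖∑ i ∈ ({2, 3, 4} : Finset (Fin 5)).erase j, m i • grav (q i - q j)‖ ≤
      ∑ i ∈ ({2, 3, 4} : Finset (Fin 5)).erase j, M * (1 / ‖q i - q j‖ ^ 2) := by
    refine (norm_sum_le _ _).trans (Finset.sum_le_sum fun i _ => ?_)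
    rw [norm_smul, frB_norm_grav, Real.norm_eq_abs, abs_of_pos (frB_pos h i)]
    exact mul_le_mul_of_nonneg_right (h.2 i).2 (by positivity)
  rw [← Finset.mul_sum] at b2
  have h4 : 0 ≤ ∑ i ∈ ({2, 3, 4} : Finset (Fin 5)).erase j, 1 / ‖q i - q j‖ ^ 2 :=
    Finset.sum_nonneg fun i _ => by positivity
  have h5 := norm_add_le (m 0 • grav (q 0 - q j)) (m 1 • grav (q 1 - q j) +
    ∑ i ∈ ({2, 3, 4} : Finset (Fin 5)).erase j, m i • grav (q i - q j))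
  have h6 := norm_add_le (m 1 • grav (q 1 - q j))
    (∑ i ∈ ({2, 3, 4} : Finset (Fin 5)).erase j, m i • grav (q i - q j))
  have h7 : 0 ≤ M * ∑ i ∈ ({2, 3, 4} : Finset (Fin 5)).erase j, 1 / ‖q i - q j‖ ^ 2 :=
    mul_nonneg hM.le h4
  rw [mul_add]
  linarith

theorem acc_Q_le (h : Mb M m) {q : Cf 5 d}
    (hr : ∀ j : Fin 5, 2 ≤ j → 4 * ‖q 0 - q 1‖ ≤ ‖q j - cm m 0 1 q‖)
    (h0 : ∀ j : Fin 5, 2 ≤ j → 0 < ‖q j - cm m 0 1 q‖) :
    ‖cm m 0 1 (acc m q)‖ ≤ 4 * M * (1 / ‖q 2 - cm m 0 1 q‖ ^ 2 + 1 / ‖q 3 - cm m 0 1 q‖ ^ 2 +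
      1 / ‖q 4 - cm m 0 1 q‖ ^ 2) := by
  have hM : 0 < M := lt_of_lt_of_le one_pos h.1
  have p0 := frB_pos h 0
  have p1 := frB_pos h 1
  have hS : 0 < m 0 + m 1 := add_pos p0 p1
  have e := XDerA.cm_acc (frB_pos h) (a := 0) (b := 1) (by decide) q
  have eo : others (0 : Fin 5) 1 = {2, 3, 4} := by decide
  rw [eo] at e
  have key : ∀ j : Fin 5, 2 ≤ j → ‖m j • (m 0 • grav (q j - q 0) + m 1 • grav (q j - q 1))‖ ≤
      (m 0 + m 1) * (2 * M * (1 / ‖q j - cm m 0 1 q‖ ^ 2)) := by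
    intro j hj
    have n0 := frB_near (frB_cm0 h q) (hr j hj) (h0 j hj)
    have n1 := frB_near (frB_cm1 h q) (hr j hj) (h0 j hj)
    rw [norm_sub_rev] at n0 n1
    have b0 : ‖m 0 • grav (q j - q 0)‖ ≤ m 0 * (2 * (1 / ‖q j - cm m 0 1 q‖ ^ 2)) := by
      rw [norm_smul, frB_norm_grav, Real.norm_eq_abs, abs_of_pos p0]
      exact mul_le_mul_of_nonneg_left n0 p0.le
    have b1 : ‖m 1 • grav (q j - q 1)‖ ≤ m 1 * (2 * (1 / ‖q j - cm m 0 1 q‖ ^ 2)) := by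
      rw [norm_smul, frB_norm_grav, Real.norm_eq_abs, abs_of_pos p1]
      exact mul_le_mul_of_nonneg_left n1 p1.le
    have b2 := (norm_add_le (m 0 • grav (q j - q 0)) (m 1 • grav (q j - q 1))).trans
      (add_le_add b0 b1)
    rw [norm_smul, Real.norm_eq_abs, abs_of_pos (frB_pos h j)]
    have b3 := mul_le_mul (h.2 j).2 b2 (norm_nonneg _) hM.le
    calc _ ≤ _ := b3
      _ = _ := by ring
  have h1 : (m 0 + m 1) * ‖cm m 0 1 (acc m q)‖ ≤ (m 0 + m 1) *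
      (2 * M * (1 / ‖q 2 - cm m 0 1 q‖ ^ 2 + 1 / ‖q 3 - cm m 0 1 q‖ ^ 2 +
      1 / ‖q 4 - cm m 0 1 q‖ ^ 2)) := by
    have e2 : (m 0 + m 1) * ‖cm m 0 1 (acc m q)‖ = ‖(m 0 + m 1) • cm m 0 1 (acc m q)‖ := by
      rw [norm_smul, Real.norm_eq_abs, abs_of_pos hS]
    rw [e2, e]
    refine (norm_sum_le _ _).trans ?_
    have e3 : ∀ f : Fin 5 → ℝ, ∑ i ∈ ({2, 3, 4} : Finset (Fin 5)), f i = f 2 + (f 3 + f 4) := by
      intro f
      rw [Finset.sum_insert (by decide), Finset.sum_insert (by decide), Finset.sum_singleton]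
    rw [e3]
    have k2 := key 2 (by decide)
    have k3 := key 3 (by decide)
    have k4 := key 4 (by decide)
    calc _ ≤ _ := add_le_add k2 (add_le_add k3 k4)
      _ = _ := by ring
  have h2 := le_of_mul_le_mul_left h1 hS
  have h3 : 0 ≤ M * (1 / ‖q 2 - cm m 0 1 q‖ ^ 2 + 1 / ‖q 3 - cm m 0 1 q‖ ^ 2 +
      1 / ‖q 4 - cm m 0 1 q‖ ^ 2) := by positivity
  linarith

end NB5
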