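import Mathlib
import Pool.Agent.NB5.Defs
import Pool.Agent.NB5.RelC
import Pool.Agent.NB5.FrA
import Pool.Agent.NB5.FrB
import Pool.Agent.NB5.DrI
import Pool.Agent.NB5.ExF
import Pool.Agent.HDN.SingA

/-!
# Good exits are frozen (project NB5, module NB5-FrC)

Section 5 of the paper proof. Write `w0 = ‖w_2(τ)‖`, `β4 = C M b^(-4)`, `Ω = C M (b^96/w0 + b^(-4))` (explicit
constants `C`, e.g. `C = 10^3`; `Kg ≥ 10^9 M^6`). Let `A` be the set of `t ∈ [τ, T)` such that for all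
`s ∈ [τ, t]`:
(1) `‖v 3(s) - v 3(τ)‖, ‖v 4(s) - v 4(τ)‖ ≤ β4`, `‖v 2(s) - v 2(τ)‖, ‖VQ(s) - VQ(τ)‖ ≤ Ω`;
(2) `‖q 0 - q 1‖ ≤ 4 M^2/b^200`;
(3) `‖q i - q j‖, ‖q j - XQ‖ ≥ b^(-6)` for `i ∈ {2}`, `j ∈ {3,4}` and `(3,4)`; `‖x_2(s)‖ ≥ b^(-96)/2`.
`A` is closed in `[τ, T)`; with strict improvements of all conditions it is open, so `A = [τ, T)`:
on `[τ, t]`, `t ∈ A`: `escape` for `x_2` (`‖w_2(s) - w_2(τ)‖ ≤ 2 Ω ≤ w0/5`), `pass` for the pairs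
`(Q,3), (Q,4), (2,3), (2,4)` with `Δ = Ω + β4`, `κ = 2 b^(-6)` and `(3,4)` with `Δ = 2 β4`
(`‖v i - v j‖ ≤ 20 M b^100`, hypotheses `GoodPair`, `v34`, `j34`); then
`∫ 1/dist^2 ≤ 8/(2 b^(-6) b^10) = 4 b^(-4)`, `∫ 1/‖x_2‖^2 ≤ 4 b^96/w0`, and `acc_j_le`, `acc_Q_le` give (1)
with half of the constants. (2): `FQ` changes by at most `∫ |dFQ| ≤ C (b^100 b^(-400) ∫ 1/‖x_2‖^4 +
b^100 b^(-400) b^24) ≤ 1` (`DQ_le`, `∫ 1/‖x_2‖^4 ≤ 16 b^288/w0`), so `FQ ≥ b^200/3`, `|tauQ| ≤ b^200/1000`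
(`tauQ_le`), `ham_Q`, `|Ham| ≤ R`: `‖q 0 - q 1‖ ≤ 3.1 M^2/b^200`. Speeds: `KQ ≤ 9 b^200` at `τ` (`s1_KQ`).
You may split this file in two.
-/

open MeasureTheory Set Filter Topology Metric
open scoped NNReal ENNReal RealInnerProductSpace

namespace NB5

open HDN

variable {d : ℕ}

namespace FrC

/-- continuity induction -/
theorem boot {τ T : ℝ} (g : ℝ → ℝ) (hc : ContinuousOn g (Ico τ T)) (h0 : g τ ≤ 0)
    (hs : ∀ t ∈ Ico τ T, (∀ s ∈ Icc τ t, g s ≤ 0) → g t < 0) :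
    ∀ t ∈ Ico τ T, g t ≤ 0 := by
  by_contra hcon
  push Not at hcon
  obtain ⟨t1, ht1, hg1⟩ := hcon
  have hsub : Icc τ t1 ⊆ Ico τ T := fun s hs' => ⟨hs'.1, lt_of_le_of_lt hs'.2 ht1.2⟩
  have hcl : IsClosed (Icc τ t1 ∩ g ⁻¹' Ici 0) :=
    (hc.mono hsub).preimage_isClosed_of_isClosed isClosed_Icc isClosed_Ici
  set S : Set ℝ := Icc τ t1 ∩ g ⁻¹' Ici 0 with hS
  have hcomp : IsCompact S := isCompact_Icc.of_isClosed_subset hcl inter_subset_left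
  have hne : S.Nonempty := ⟨t1, ⟨ht1.1, le_rfl⟩, hg1.le⟩
  have hmem : sInf S ∈ S := hcomp.sInf_mem hne
  set a := sInf S with ha
  have haI : a ∈ Ico τ T := hsub hmem.1
  have hlt : ∀ s ∈ Ico τ a, g s ≤ 0 := by
    intro s hs'
    by_contra hcon
    push Not at hcon
    have : s ∈ S := ⟨⟨hs'.1, hs'.2.le.trans hmem.1.2⟩, hcon.le⟩
    have h2 : a ≤ s := csInf_le hcomp.bddBelow this
    exact absurd h2 (not_le.2 hs'.2)
  have hga : g a ≤ 0 := by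
    rcases eq_or_lt_of_le haI.1 with h | h
    · rw [← h]; exact h0
    · have hsub2 : Ico τ a ⊆ Ico τ T := fun s hs' => ⟨hs'.1, hs'.2.trans haI.2⟩
      have hten : Tendsto g (𝓝[Ico τ a] a) (𝓝 (g a)) := ((hc a haI).mono hsub2)
      have hnb : (𝓝[Ico τ a] a).NeBot := by
        rw [← mem_closure_iff_nhdsWithin_neBot, closure_Ico h.ne]
        exact ⟨h.le, le_rfl⟩
      exact le_of_tendsto hten (eventually_nhdsWithin_of_forall hlt)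
  have := hs a haI (fun s hs' => by
    rcases eq_or_lt_of_le hs'.2 with h | h
    · rw [h]; exact hga
    · exact hlt s ⟨hs'.1, h⟩)
  exact absurd hmem.2 (not_le.2 this)

theorem norm_le_integral {E : Type*} [NormedAddCommGroup E] [NormedSpace ℝ E] {f f' : ℝ → E}
    {B : ℝ → ℝ} {α β : ℝ} (hab : α ≤ β) (hf : ∀ s ∈ Icc α β, HasDerivAt f (f' s) s)
    (hB : ContinuousOn B (Icc α β)) (hb : ∀ s ∈ Icc α β, ‖f' s‖ ≤ B s) :
    ‖f β - f α‖ ≤ ∫ s in α..β, B s := by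
  set B1 : ℝ → ℝ := IccExtend hab ((Icc α β).domRestrict B) with hB1
  have hB1c : Continuous B1 := (continuousOn_iff_continuous_domRestrict.1 hB).Icc_extend'
  have hB1e : ∀ s ∈ Icc α β, B1 s = B s := fun s hs => by
    rw [hB1, IccExtend_of_mem hab _ hs]; rfl
  have hint : ∫ s in α..β, B s = ∫ s in α..β, B1 s := by
    refine intervalIntegral.integral_congr fun s hs => ?_
    rw [uIcc_of_le hab] at hs
    exact (hB1e s hs).symm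
  rw [hint]
  have hder : ∀ x, HasDerivAt (fun x => ∫ s in α..x, B1 s) (B1 x) x := fun x =>
    (hB1c.integral_hasStrictDerivAt α x).hasDerivAt
  have key := image_norm_le_of_norm_deriv_right_le_deriv_boundary' (a := α) (b := β)
    (f := fun s => f s - f α) (f' := f') (B := fun x => ∫ s in α..x, B1 s) (B' := B1)
    (fun s hs => ((hf s hs).continuousAt.continuousWithinAt.sub continuousWithinAt_const))
    (fun s hs => ((hf s ⟨hs.1, hs.2.le⟩).sub_const _).hasDerivWithinAt)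
    (by simp) (fun s _ => (hder s).continuousAt.continuousWithinAt)
    (fun s _ => (hder s).hasDerivWithinAt)
    (fun s hs => by rw [hB1e s ⟨hs.1, hs.2.le⟩]; exact hb s ⟨hs.1, hs.2.le⟩)
  exact key ⟨hab, le_rfl⟩


/-- fast passage of a pair -/
theorem pairStep {X V Y U : ℝ → Sp d} {τ t b Δ : ℝ} (hτt : τ ≤ t) (ht1 : t ≤ τ + 1) (hb : 1 ≤ b)
    (hX : ∀ s ∈ Icc τ t, HasDerivAt X (V s) s) (hY : ∀ s ∈ Icc τ t, HasDerivAt Y (U s) s)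
    (hV : ContinuousOn V (Icc τ t)) (hU : ContinuousOn U (Icc τ t))
    (hΔ : ∀ s ∈ Icc τ t, ‖V s - V τ‖ + ‖U s - U τ‖ ≤ Δ)
    (h10 : 10 * Δ ≤ ‖V τ - U τ‖) (hv : b ^ 10 ≤ ‖V τ - U τ‖)
    (hj : (2 / b ^ 6 + Δ) * ‖V τ - U τ‖ ≤ jw (X τ - Y τ) (V τ - U τ)) :
    (∀ s ∈ Icc τ t, 2 / b ^ 6 ≤ ‖X s - Y s‖) ∧
      ∫ s in τ..t, 1 / ‖X s - Y s‖ ^ 2 ≤ 4 / b ^ 4 := by
  have hb0 : 0 < b := by linarith
  have hpos : 0 < ‖V τ - U τ‖ := lt_of_lt_of_le (by positivity) hv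
  have h := pass (z := fun s => X s - Y s) (u := fun s => V s - U s) (α := τ) (β := t) (Δ := Δ)
    (κ := 2 / b ^ 6) hτt ht1 (fun s hs => (hX s hs).sub (hY s hs)) (hV.sub hU)
    (fun s hs => by
      have e : V s - U s - (V τ - U τ) = (V s - V τ) - (U s - U τ) := by abel
      rw [e]
      exact (norm_sub_le _ _).trans (hΔ s hs)) (by positivity) h10 hpos hj
  refine ⟨h.1, h.2.trans ?_⟩
  have e1 : (4 : ℝ) / b ^ 4 = 8 / (2 / b ^ 6 * b ^ 10) := by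
    field_simp
    norm_num
  rw [e1]
  have hp6 : 0 < 2 / b ^ 6 := by positivity
  gcongr

/-- bound for the velocities of `2` and `Q` -/
noncomputable def Om (P : Par) (b : ℝ) (m : Fin 5 → ℝ) (x0 : St d) : ℝ :=
  100 * P.M * (b ^ 96 / ‖x0.2 2 - cm m 0 1 x0.2‖ + 1 / b ^ 4)

/-- bound for the velocities of `3` and `4` -/
noncomputable def be (P : Par) (b : ℝ) : ℝ := 100 * P.M * (1 / b ^ 4)

/-- all conditions of the bootstrap in one function -/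
noncomputable def Gf (P : Par) (b : ℝ) (m : Fin 5 → ℝ) (x0 x : St d) : ℝ :=
  max (‖x.2 2 - x0.2 2‖ - Om P b m x0) (max (‖cm m 0 1 x.2 - cm m 0 1 x0.2‖ - Om P b m x0)
    (max (‖x.2 3 - x0.2 3‖ - be P b) (max (‖x.2 4 - x0.2 4‖ - be P b)
      (max (‖x.1 0 - x.1 1‖ - 4 * P.M ^ 2 / b ^ 200)
        (max (1 / (3 * b ^ 96) - ‖x.1 2 - cm m 0 1 x.1‖)
          (max (1 / b ^ 6 - ‖x.1 3 - cm m 0 1 x.1‖) (max (1 / b ^ 6 - ‖x.1 4 - cm m 0 1 x.1‖)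
            (max (1 / b ^ 6 - ‖x.1 2 - x.1 3‖) (max (1 / b ^ 6 - ‖x.1 2 - x.1 4‖)
              (1 / b ^ 6 - ‖x.1 3 - x.1 4‖))))))))))

structure Cd (P : Par) (b : ℝ) (m : Fin 5 → ℝ) (x0 x : St d) : Prop where
  v2 : ‖x.2 2 - x0.2 2‖ ≤ Om P b m x0
  vQ : ‖cm m 0 1 x.2 - cm m 0 1 x0.2‖ ≤ Om P b m x0
  v3 : ‖x.2 3 - x0.2 3‖ ≤ be P b
  v4 : ‖x.2 4 - x0.2 4‖ ≤ be P b
  r : ‖x.1 0 - x.1 1‖ ≤ 4 * P.M ^ 2 / b ^ 200
  x2 : 1 / (3 * b ^ 96) ≤ ‖x.1 2 - cm m 0 1 x.1‖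
  x3 : 1 / b ^ 6 ≤ ‖x.1 3 - cm m 0 1 x.1‖
  x4 : 1 / b ^ 6 ≤ ‖x.1 4 - cm m 0 1 x.1‖
  d23 : 1 / b ^ 6 ≤ ‖x.1 2 - x.1 3‖
  d24 : 1 / b ^ 6 ≤ ‖x.1 2 - x.1 4‖
  d34 : 1 / b ^ 6 ≤ ‖x.1 3 - x.1 4‖

theorem Gf_le {P : Par} {b : ℝ} {m : Fin 5 → ℝ} {x0 x : St d} :
    Gf P b m x0 x ≤ 0 ↔ Cd P b m x0 x := by
  unfold Gf
  simp only [max_le_iff, sub_nonpos]
  constructor
  · rintro ⟨h1, h2, h3, h4, h5, h6, h7, h8, h9, h10, h11⟩
    exact ⟨h1, h2, h3, h4, h5, h6, h7, h8, h9, h10, h11⟩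
  · rintro ⟨h1, h2, h3, h4, h5, h6, h7, h8, h9, h10, h11⟩
    exact ⟨h1, h2, h3, h4, h5, h6, h7, h8, h9, h10, h11⟩

theorem Gf_lt {P : Par} {b : ℝ} {m : Fin 5 → ℝ} {x0 x : St d}
    (h1 : ‖x.2 2 - x0.2 2‖ < Om P b m x0) (h2 : ‖cm m 0 1 x.2 - cm m 0 1 x0.2‖ < Om P b m x0)
    (h3 : ‖x.2 3 - x0.2 3‖ < be P b) (h4 : ‖x.2 4 - x0.2 4‖ < be P b)
    (h5 : ‖x.1 0 - x.1 1‖ < 4 * P.M ^ 2 / b ^ 200)
    (h6 : 1 / (3 * b ^ 96) < ‖x.1 2 - cm m 0 1 x.1‖)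
    (h7 : 1 / b ^ 6 < ‖x.1 3 - cm m 0 1 x.1‖) (h8 : 1 / b ^ 6 < ‖x.1 4 - cm m 0 1 x.1‖)
    (h9 : 1 / b ^ 6 < ‖x.1 2 - x.1 3‖) (h10 : 1 / b ^ 6 < ‖x.1 2 - x.1 4‖)
    (h11 : 1 / b ^ 6 < ‖x.1 3 - x.1 4‖) : Gf P b m x0 x < 0 := by
  unfold Gf
  simp only [max_lt_iff, sub_neg]
  exact ⟨h1, h2, h3, h4, h5, h6, h7, h8, h9, h10, h11⟩

theorem Gf_cont {P : Par} {b : ℝ} {m : Fin 5 → ℝ} {x0 : St d} :
    Continuous (fun x : St d => Gf P b m x0 x) := by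
  unfold Gf cm
  fun_prop

theorem le_of_sq {a c : ℝ} (ha : 0 ≤ a) (hc : 0 ≤ c) (h : a ^ 2 ≤ c ^ 2) : a ≤ c :=
  (pow_le_pow_iff_left₀ ha hc two_ne_zero).1 h

/-- numerical facts -/
theorem num {M K b w0 : ℝ} (hM : 1 ≤ M) (hK : 10 ^ 9 * M ^ 6 ≤ K) (hb : 10 ^ 12 * M ^ 10 ≤ b)
    (hw : K * b ^ 48 ≤ w0) :
    0 < w0 ∧ b ^ 96 / w0 ≤ b ^ 48 ∧ 1 ≤ w0 ∧
    10 * (100 * M * (b ^ 96 / w0 + 1 / b ^ 4)) ≤ w0 ∧
    10 * (100 * M * (b ^ 96 / w0 + 1 / b ^ 4) + 100 * M * (1 / b ^ 4)) ≤ b ^ 10 + K * b ^ 96 / w0 ∧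
    (2 / b ^ 6 + (100 * M * (b ^ 96 / w0 + 1 / b ^ 4) + 100 * M * (1 / b ^ 4))) *
      (9 * M * b ^ 100) ≤ K * b ^ 100 * (b ^ 96 / w0 + 1 / b ^ 3) ∧
    10 * (2 * (100 * M * (1 / b ^ 4))) ≤ b ^ 10 ∧
    (2 / b ^ 6 + 2 * (100 * M * (1 / b ^ 4))) * (9 * M * b ^ 100) ≤ b ^ 97 := by
  have hM10 : M ≤ M ^ 10 := le_self_pow₀ hM (by norm_num)
  have hM2 : M ^ 2 ≤ M ^ 10 := pow_le_pow_right₀ hM (by norm_num)
  have hM26 : M ^ 2 ≤ M ^ 6 := pow_le_pow_right₀ hM (by norm_num)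
  have hM16 : M ≤ M ^ 6 := le_self_pow₀ hM (by norm_num)
  have hM1 : 1 ≤ M ^ 2 := one_le_pow₀ hM
  have hb1 : 1 ≤ b := by nlinarith
  have hb0 : 0 < b := by linarith
  have hbM : 10 ^ 12 * M ≤ b := by nlinarith
  have hbM2 : 10 ^ 12 * M ^ 2 ≤ b := by nlinarith
  have hKM : 10 ^ 9 * M ≤ K := by nlinarith
  have hKM2 : 10 ^ 9 * M ^ 2 ≤ K := by nlinarith
  have hK1 : 10 ^ 9 ≤ K := by nlinarith
  have hb48 : 1 ≤ b ^ 48 := one_le_pow₀ hb1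
  have hw1 : 10 ^ 9 * M * b ^ 48 ≤ w0 := le_trans (by gcongr) hw
  have hw2 : b ^ 48 ≤ w0 := by nlinarith
  have hw3 : 10 ^ 9 ≤ w0 := by nlinarith
  have hw0 : 0 < w0 := by linarith
  have hq : b ^ 96 / w0 ≤ b ^ 48 := by
    rw [div_le_iff₀ hw0]
    calc b ^ 96 = b ^ 48 * b ^ 48 := by ring
      _ ≤ b ^ 48 * w0 := by gcongr
  have hq0 : 0 ≤ b ^ 96 / w0 := by positivity
  have h4 : M * (1 / b ^ 4) ≤ 1 / 10 ^ 12 := by
    rw [mul_one_div, div_le_div_iff₀ (by positivity) (by norm_num)]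
    have : b ≤ b ^ 4 := le_self_pow₀ hb1 (by norm_num)
    linarith
  have h40 : 0 ≤ M * (1 / b ^ 4) := by positivity
  have hb10 : 1 ≤ b ^ 10 := one_le_pow₀ hb1
  refine ⟨hw0, hq, by linarith, ?_, ?_, ?_, by linarith, ?_⟩
  · have : 1000 * (M * (b ^ 96 / w0)) ≤ w0 / 2 := by
      have h1 : M * (b ^ 96 / w0) ≤ M * b ^ 48 := by gcongr
      nlinarith
    have h2 : 10 * (100 * M * (b ^ 96 / w0 + 1 / b ^ 4)) =
        1000 * (M * (b ^ 96 / w0)) + 1000 * (M * (1 / b ^ 4)) := by ring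
    rw [h2]
    nlinarith
  · have h2 : 10 * (100 * M * (b ^ 96 / w0 + 1 / b ^ 4) + 100 * M * (1 / b ^ 4)) =
        (1000 * M) * (b ^ 96 / w0) + 2000 * (M * (1 / b ^ 4)) := by ring
    rw [h2, mul_div_assoc K]
    have h3 : (1000 * M) * (b ^ 96 / w0) ≤ K * (b ^ 96 / w0) := by
      gcongr
      linarith
    nlinarith
  · have e : (2 / b ^ 6 + (100 * M * (b ^ 96 / w0 + 1 / b ^ 4) + 100 * M * (1 / b ^ 4))) *
        (9 * M * b ^ 100) = b ^ 100 * ((900 * M ^ 2) * (b ^ 96 / w0) +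
          (18 * M * (1 / b ^ 6) + 1800 * M ^ 2 * (1 / b ^ 4))) := by ring
    have e2 : K * b ^ 100 * (b ^ 96 / w0 + 1 / b ^ 3) =
        b ^ 100 * (K * (b ^ 96 / w0) + K * (1 / b ^ 3)) := by ring
    rw [e, e2]
    have h3 : (1 : ℝ) / b ^ 6 ≤ 1 / b ^ 3 := by
      apply one_div_le_one_div_of_le (by positivity)
      exact pow_le_pow_right₀ hb1 (by norm_num)
    have h5 : (1 : ℝ) / b ^ 4 ≤ 1 / b ^ 3 := by
      apply one_div_le_one_div_of_le (by positivity)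
      exact pow_le_pow_right₀ hb1 (by norm_num)
    gcongr ?_ * (?_ + ?_)
    · have h6 : 900 * M ^ 2 ≤ K := by nlinarith
      gcongr
    · calc 18 * M * (1 / b ^ 6) + 1800 * M ^ 2 * (1 / b ^ 4)
          ≤ 18 * M * (1 / b ^ 3) + 1800 * M ^ 2 * (1 / b ^ 3) := by gcongr
        _ = (18 * M + 1800 * M ^ 2) * (1 / b ^ 3) := by ring
        _ ≤ K * (1 / b ^ 3) := by
          gcongr
          nlinarith
  · have e : (2 / b ^ 6 + 2 * (100 * M * (1 / b ^ 4))) * (9 * M * b ^ 100) =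
        18 * M * b ^ 94 + 1800 * M ^ 2 * b ^ 96 := by
      field_simp
      ring
    rw [e]
    have h3 : b ^ 94 ≤ b ^ 96 := pow_le_pow_right₀ hb1 (by norm_num)
    calc 18 * M * b ^ 94 + 1800 * M ^ 2 * b ^ 96 ≤ 18 * M * b ^ 96 + 1800 * M ^ 2 * b ^ 96 := by
          gcongr
      _ = (18 * M + 1800 * M ^ 2) * b ^ 96 := by ring
      _ ≤ b * b ^ 96 := by
          gcongr
          nlinarith
      _ = b ^ 97 := by ring

theorem contInv {z : ℝ → Sp d} {τ t : ℝ} (hz : ContinuousOn z (Icc τ t))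
    (h0 : ∀ s ∈ Icc τ t, 0 < ‖z s‖) (n : ℕ) :
    ContinuousOn (fun s => 1 / ‖z s‖ ^ n) (Icc τ t) :=
  ContinuousOn.div continuousOn_const (hz.norm.pow n) fun s hs => (pow_pos (h0 s hs) n).ne'

theorem int3 {f1 f2 f3 : ℝ → ℝ} {τ t C c1 c2 c3 : ℝ} (h : τ ≤ t) (hC : 0 ≤ C)
    (h1 : ContinuousOn f1 (Icc τ t)) (h2 : ContinuousOn f2 (Icc τ t))
    (h3 : ContinuousOn f3 (Icc τ t)) (i1 : ∫ s in τ..t, f1 s ≤ c1) (i2 : ∫ s in τ..t, f2 s ≤ c2)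
    (i3 : ∫ s in τ..t, f3 s ≤ c3) :
    ∫ s in τ..t, C * (f1 s + (f2 s + f3 s)) ≤ C * (c1 + (c2 + c3)) := by
  have j1 := h1.intervalIntegrable_of_Icc (μ := volume) h
  have j2 := h2.intervalIntegrable_of_Icc (μ := volume) h
  have j3 := h3.intervalIntegrable_of_Icc (μ := volume) h
  rw [intervalIntegral.integral_const_mul, intervalIntegral.integral_add j1 (j2.add j3),
    intervalIntegral.integral_add j2 j3]
  gcongr

/-- the setting of the bootstrap step -/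
structure Set0 (P : Par) (b : ℝ) (m : Fin 5 → ℝ) (γ : ℝ → St d) (τ t : ℝ) : Prop where
  hm : Mb P.M m
  hb : 10 ^ 12 * P.M ^ 10 * P.R ≤ b
  h1 : τ ≤ t
  h2 : t ≤ τ + 1
  sol : ∀ s ∈ Icc τ t, γ s ∈ FreeSet 5 d ∧ HasDerivAt γ (nfield m (γ s)) s
  ham : |Ham m (γ t)| ≤ P.R
  good : Good P b m (γ τ)
  F : b ^ 200 / 2 ≤ FQ m (γ τ)
  K : KQ m (γ τ).2 ≤ 9 * b ^ 200
  x1 : 1 / b ^ 96 ≤ ‖(γ τ).1 2 - cm m 0 1 (γ τ).1‖
  x0 : 0 ≤ ⟪(γ τ).1 2 - cm m 0 1 (γ τ).1, (γ τ).2 2 - cm m 0 1 (γ τ).2⟫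
  cd : ∀ s ∈ Icc τ t, Cd P b m (γ τ) (γ s)

section

variable {P : Par} {b : ℝ} {m : Fin 5 → ℝ} {γ : ℝ → St d} {τ t : ℝ}

theorem hasD {s : ℝ} (h : HasDerivAt γ (nfield m (γ s)) s) :
    (∀ i, HasDerivAt (fun s => (γ s).1 i) ((γ s).2 i) s) ∧
    (∀ i, HasDerivAt (fun s => (γ s).2 i) (acc m (γ s).1 i) s) ∧
    HasDerivAt (fun s => cm m 0 1 (γ s).1) (cm m 0 1 (γ s).2) s ∧
    HasDerivAt (fun s => cm m 0 1 (γ s).2) (cm m 0 1 (acc m (γ s).1)) s := by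
  have hq : ∀ i, HasDerivAt (fun s => (γ s).1 i) ((γ s).2 i) s := by
    have h := (ContinuousLinearMap.fst ℝ (Cf 5 d) (Cf 5 d)).hasFDerivAt.comp_hasDerivAt s h
    exact hasDerivAt_pi.1 h
  have hv : ∀ i, HasDerivAt (fun s => (γ s).2 i) (acc m (γ s).1 i) s := by
    have h := (ContinuousLinearMap.snd ℝ (Cf 5 d) (Cf 5 d)).hasFDerivAt.comp_hasDerivAt s h
    exact hasDerivAt_pi.1 h
  exact ⟨hq, hv, XDerA.cm_deriv hq, XDerA.cm_deriv hv⟩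

namespace Set0

theorem b12 (h : Set0 P b m γ τ t) : 10 ^ 12 * P.M ^ 10 ≤ b := by
  refine le_trans ?_ h.hb
  have : 0 ≤ (10 : ℝ) ^ 12 * P.M ^ 10 := by
    have := P.hM
    positivity
  nlinarith [P.hR]

theorem b1 (h : Set0 P b m γ τ t) : 1 ≤ b := by
  have h1 := h.b12
  have h2 : 1 ≤ P.M ^ 10 := one_le_pow₀ P.hM
  linarith

theorem nm (h : Set0 P b m γ τ t) :
    0 < ‖(γ τ).2 2 - cm m 0 1 (γ τ).2‖ ∧
    b ^ 96 / ‖(γ τ).2 2 - cm m 0 1 (γ τ).2‖ ≤ b ^ 48 ∧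
    1 ≤ ‖(γ τ).2 2 - cm m 0 1 (γ τ).2‖ ∧
    10 * Om P b m (γ τ) ≤ ‖(γ τ).2 2 - cm m 0 1 (γ τ).2‖ ∧
    10 * (Om P b m (γ τ) + be P b) ≤
      b ^ 10 + P.Kg * b ^ 96 / ‖(γ τ).2 2 - cm m 0 1 (γ τ).2‖ ∧
    (2 / b ^ 6 + (Om P b m (γ τ) + be P b)) * (9 * P.M * b ^ 100) ≤
      P.Kg * b ^ 100 * (b ^ 96 / ‖(γ τ).2 2 - cm m 0 1 (γ τ).2‖ + 1 / b ^ 3) ∧
    10 * (2 * be P b) ≤ b ^ 10 ∧
    (2 / b ^ 6 + 2 * be P b) * (9 * P.M * b ^ 100) ≤ b ^ 97 :=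
  num (w0 := ‖(γ τ).2 2 - cm m 0 1 (γ τ).2‖) P.hM P.hK h.b12 h.good.w_ge

theorem mem0 (h : Set0 P b m γ τ t) : τ ∈ Icc τ t := ⟨le_rfl, h.h1⟩

theorem memt (h : Set0 P b m γ τ t) : t ∈ Icc τ t := ⟨h.h1, le_rfl⟩

theorem cont (h : Set0 P b m γ τ t) : ContinuousOn γ (Icc τ t) := fun s hs =>
  (h.sol s hs).2.continuousAt.continuousWithinAt

theorem contv (h : Set0 P b m γ τ t) (i : Fin 5) : ContinuousOn (fun s => (γ s).2 i) (Icc τ t) :=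
  fun s hs => ((hasD (h.sol s hs).2).2.1 i).continuousAt.continuousWithinAt

theorem contV (h : Set0 P b m γ τ t) : ContinuousOn (fun s => cm m 0 1 (γ s).2) (Icc τ t) :=
  fun s hs => (hasD (h.sol s hs).2).2.2.2.continuousAt.continuousWithinAt

theorem contq (h : Set0 P b m γ τ t) (i : Fin 5) : ContinuousOn (fun s => (γ s).1 i) (Icc τ t) :=
  fun s hs => ((hasD (h.sol s hs).2).1 i).continuousAt.continuousWithinAt

theorem contX (h : Set0 P b m γ τ t) : ContinuousOn (fun s => cm m 0 1 (γ s).1) (Icc τ t) :=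
  fun s hs => (hasD (h.sol s hs).2).2.2.1.continuousAt.continuousWithinAt

/-- velocities at the time `τ` -/
theorem vel (h : Set0 P b m γ τ t) :
    (∀ j : Fin 5, 2 ≤ j → ‖(γ τ).2 j - cm m 0 1 (γ τ).2‖ ≤ 9 * P.M * b ^ 100) ∧
    ∀ i j : Fin 5, 2 ≤ i → 2 ≤ j → ‖(γ τ).2 i - (γ τ).2 j‖ ≤ 9 * P.M * b ^ 100 := by
  have hM := P.hM
  have hb := h.b1
  have hk := kq_bound_sub h.hm (γ τ).2
  have key : 8 * P.M * KQ m (γ τ).2 ≤ (9 * P.M * b ^ 100) ^ 2 := by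
    have h1 : 8 * P.M * KQ m (γ τ).2 ≤ 8 * P.M * (9 * b ^ 200) := by
      have := h.K
      gcongr
    have h2 : (9 * P.M * b ^ 100) ^ 2 = 81 * P.M ^ 2 * b ^ 200 := by ring
    rw [h2]
    have h3 : 0 ≤ b ^ 200 := by positivity
    nlinarith
  have hnn : 0 ≤ 9 * P.M * b ^ 100 := by positivity
  exact ⟨fun j hj => le_of_sq (norm_nonneg _) hnn ((hk.1 j hj).trans key),
    fun i j hi hj => le_of_sq (norm_nonneg _) hnn ((hk.2 i j hi hj).trans key)⟩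

theorem om_eq : Om P b m (γ τ) =
    100 * P.M * (b ^ 96 / ‖(γ τ).2 2 - cm m 0 1 (γ τ).2‖ + 1 / b ^ 4) := rfl

theorem vj (h : Set0 P b m γ τ t) {j : Fin 5} (hj : 3 ≤ j) {s : ℝ} (hs : s ∈ Icc τ t) :
    ‖(γ s).2 j - (γ τ).2 j‖ ≤ be P b := by
  have hc := h.cd s hs
  have : j = 3 ∨ j = 4 := by
    revert hj; revert j; decide
  rcases this with rfl | rfl
  · exact hc.v3
  · exact hc.v4

theorem gp {X V : ℝ → Sp d} (h : Set0 P b m γ τ t) {j : Fin 5} (hj : 3 ≤ j)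
    (hX : ∀ s ∈ Icc τ t, HasDerivAt X (V s) s) (hV : ContinuousOn V (Icc τ t))
    (hO : ∀ s ∈ Icc τ t, ‖V s - V τ‖ ≤ Om P b m (γ τ))
    (hv : ‖V τ - (γ τ).2 j‖ ≤ 9 * P.M * b ^ 100)
    (hg : GoodPair P.Kg b ‖(γ τ).2 2 - cm m 0 1 (γ τ).2‖ (X τ) (V τ) ((γ τ).1 j) ((γ τ).2 j)) :
    (∀ s ∈ Icc τ t, 2 / b ^ 6 ≤ ‖X s - (γ s).1 j‖) ∧
      ∫ s in τ..t, 1 / ‖X s - (γ s).1 j‖ ^ 2 ≤ 4 / b ^ 4 := by
  obtain ⟨n1, n2, n3, n4, n5, n6, n7, n8⟩ := h.nm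
  have hM := P.hM
  have hb := h.b1
  have hK : 0 ≤ P.Kg := le_trans (by positivity) P.hK
  have hpos : 0 ≤ P.Kg * b ^ 96 / ‖(γ τ).2 2 - cm m 0 1 (γ τ).2‖ :=
    div_nonneg (mul_nonneg hK (pow_nonneg (by linarith) 96)) (norm_nonneg _)
  refine pairStep (V := V) (U := fun s => (γ s).2 j) (Y := fun s => (γ s).1 j)
    (Δ := Om P b m (γ τ) + be P b) h.h1 h.h2 hb hX
    (fun s hs => (hasD (h.sol s hs).2).1 j) hV (h.contv j)
    (fun s hs => add_le_add (hO s hs) (h.vj hj hs)) ?_ ?_ ?_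
  · exact le_trans n5 hg.1
  · exact le_trans (by linarith) hg.1
  · refine le_trans ?_ hg.2
    refine le_trans ?_ n6
    have : 0 ≤ 2 / b ^ 6 + (Om P b m (γ τ) + be P b) := by
      unfold Om be
      positivity
    exact mul_le_mul_of_nonneg_left hv this

theorem pQ (h : Set0 P b m γ τ t) {j : Fin 5} (hj : 3 ≤ j) :
    (∀ s ∈ Icc τ t, 2 / b ^ 6 ≤ ‖cm m 0 1 (γ s).1 - (γ s).1 j‖) ∧
      ∫ s in τ..t, 1 / ‖cm m 0 1 (γ s).1 - (γ s).1 j‖ ^ 2 ≤ 4 / b ^ 4 := by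
  have hj2 : 2 ≤ j := by revert hj; revert j; decide
  refine h.gp (X := fun s => cm m 0 1 (γ s).1) (V := fun s => cm m 0 1 (γ s).2) hj
    (fun s hs => (hasD (h.sol s hs).2).2.2.1) h.contV (fun s hs => (h.cd s hs).vQ) ?_
    (h.good.pairs j hj).1
  rw [norm_sub_rev]
  exact h.vel.1 j hj2

theorem p2 (h : Set0 P b m γ τ t) {j : Fin 5} (hj : 3 ≤ j) :
    (∀ s ∈ Icc τ t, 2 / b ^ 6 ≤ ‖(γ s).1 2 - (γ s).1 j‖) ∧
      ∫ s in τ..t, 1 / ‖(γ s).1 2 - (γ s).1 j‖ ^ 2 ≤ 4 / b ^ 4 := by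
  have hj2 : 2 ≤ j := by revert hj; revert j; decide
  exact h.gp (X := fun s => (γ s).1 2) (V := fun s => (γ s).2 2) hj
    (fun s hs => (hasD (h.sol s hs).2).1 2) (h.contv 2) (fun s hs => (h.cd s hs).v2)
    (h.vel.2 2 j le_rfl hj2) (h.good.pairs j hj).2

theorem p34 (h : Set0 P b m γ τ t) :
    (∀ s ∈ Icc τ t, 2 / b ^ 6 ≤ ‖(γ s).1 3 - (γ s).1 4‖) ∧
      ∫ s in τ..t, 1 / ‖(γ s).1 3 - (γ s).1 4‖ ^ 2 ≤ 4 / b ^ 4 := by
  obtain ⟨n1, n2, n3, n4, n5, n6, n7, n8⟩ := h.nm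
  have hM := P.hM
  have hb := h.b1
  refine pairStep (X := fun s => (γ s).1 3) (V := fun s => (γ s).2 3) (U := fun s => (γ s).2 4)
    (Y := fun s => (γ s).1 4)
    (Δ := 2 * be P b) h.h1 h.h2 hb (fun s hs => (hasD (h.sol s hs).2).1 3)
    (fun s hs => (hasD (h.sol s hs).2).1 4) (h.contv 3) (h.contv 4)
    (fun s hs => ?_) ?_ ?_ ?_
  · have h3 := h.vj (j := 3) (by decide) hs
    have h4 := h.vj (j := 4) (by decide) hs
    linarith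
  · exact le_trans n7 h.good.v34
  · exact h.good.v34
  · refine le_trans ?_ h.good.j34
    refine le_trans ?_ n8
    have : 0 ≤ 2 / b ^ 6 + 2 * be P b := by
      unfold be
      positivity
    exact mul_le_mul_of_nonneg_left (h.vel.2 3 4 (by decide) (by decide)) this

theorem esc (h : Set0 P b m γ τ t) :
    (∀ s ∈ Icc τ t, 1 / (2 * b ^ 96) ≤ ‖(γ s).1 2 - cm m 0 1 (γ s).1‖) ∧
      ∫ s in τ..t, 1 / ‖(γ s).1 2 - cm m 0 1 (γ s).1‖ ^ 2 ≤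
        4 * (b ^ 96 / ‖(γ τ).2 2 - cm m 0 1 (γ τ).2‖) ∧
      ∫ s in τ..t, 1 / ‖(γ s).1 2 - cm m 0 1 (γ s).1‖ ^ 4 ≤ 16 * b ^ 288 := by
  obtain ⟨n1, n2, n3, n4, n5, n6, n7, n8⟩ := h.nm
  have hM := P.hM
  have hb := h.b1
  have hb0 : 0 < b := by linarith
  have hx1 := h.x1
  set x0 := ‖(γ τ).1 2 - cm m 0 1 (γ τ).1‖ with hx0d
  set w0 := ‖(γ τ).2 2 - cm m 0 1 (γ τ).2‖ with hw0d
  have hxpos : 0 < x0 := lt_of_lt_of_le (by positivity) hx1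
  have key := escape (x := fun s => (γ s).1 2 - cm m 0 1 (γ s).1)
    (w := fun s => (γ s).2 2 - cm m 0 1 (γ s).2) h.h1
    (fun s hs => ((hasD (h.sol s hs).2).1 2).sub (hasD (h.sol s hs).2).2.2.1)
    ((h.contv 2).sub h.contV) h.x0
    (fun s hs => by
      have e : (γ s).2 2 - cm m 0 1 (γ s).2 - ((γ τ).2 2 - cm m 0 1 (γ τ).2) =
        ((γ s).2 2 - (γ τ).2 2) - (cm m 0 1 (γ s).2 - cm m 0 1 (γ τ).2) := by abel
      rw [e]
      have h1 := norm_sub_le ((γ s).2 2 - (γ τ).2 2) (cm m 0 1 (γ s).2 - cm m 0 1 (γ τ).2)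
      have h2 := (h.cd s hs).v2
      have h3 := (h.cd s hs).vQ
      linarith) hxpos n1
  refine ⟨fun s hs => ?_, key.2.1.trans ?_, key.2.2.trans ?_⟩
  · refine le_trans ?_ (key.1 s hs)
    have h1 : 0 ≤ (s - τ) * w0 := mul_nonneg (by linarith [hs.1]) n1.le
    have h2 : 1 / (2 * b ^ 96) = (1 / 2) * (1 / b ^ 96) := by ring
    rw [h2]
    linarith
  · have e : 4 * (b ^ 96 / w0) = 4 / ((1 / b ^ 96) * w0) := by field_simp
    rw [e]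
    gcongr
  · have e : 16 * b ^ 288 = 16 / ((1 / b ^ 96) ^ 3 * 1) := by
      field_simp
    rw [e]
    gcongr

theorem bpow (h : Set0 P b m γ τ t) : 0 < b ∧ b ≤ b ^ 104 ∧ b ≤ b ^ 12 ∧ b ≤ b ^ 112 ∧
    b ≤ b ^ 200 ∧ b ^ 6 ≤ b ^ 96 ∧ b ^ 24 ≤ b ^ 288 :=
  ⟨by linarith [h.b1], le_self_pow₀ h.b1 (by norm_num), le_self_pow₀ h.b1 (by norm_num),
    le_self_pow₀ h.b1 (by norm_num), le_self_pow₀ h.b1 (by norm_num),
    pow_le_pow_right₀ h.b1 (by norm_num), pow_le_pow_right₀ h.b1 (by norm_num)⟩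

theorem far3 (h : Set0 P b m γ τ t) {s : ℝ} (hs : s ∈ Icc τ t) {j : Fin 5} (hj : 3 ≤ j) :
    1 / b ^ 6 ≤ ‖(γ s).1 j - cm m 0 1 (γ s).1‖ := by
  have hc := h.cd s hs
  have : j = 3 ∨ j = 4 := by
    revert hj; revert j; decide
  rcases this with rfl | rfl
  · exact hc.x3
  · exact hc.x4

theorem far (h : Set0 P b m γ τ t) {s : ℝ} (hs : s ∈ Icc τ t) {j : Fin 5} (hj : 2 ≤ j) :
    1 / (3 * b ^ 96) ≤ ‖(γ s).1 j - cm m 0 1 (γ s).1‖ := by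
  have hc := h.cd s hs
  obtain ⟨p0, p1, p2, p3, p4, p5, p6⟩ := h.bpow
  have : j = 2 ∨ 3 ≤ j := by
    revert hj; revert j; decide
  rcases this with rfl | h3
  · exact hc.x2
  · refine le_trans ?_ (h.far3 hs h3)
    apply one_div_le_one_div_of_le (by positivity)
    nlinarith [pow_pos p0 96]

theorem farpos (h : Set0 P b m γ τ t) {s : ℝ} (hs : s ∈ Icc τ t) {j : Fin 5} (hj : 2 ≤ j) :
    0 < ‖(γ s).1 j - cm m 0 1 (γ s).1‖ := by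
  have := h.bpow.1
  exact lt_of_lt_of_le (by positivity) (h.far hs hj)

theorem hr (h : Set0 P b m γ τ t) {s : ℝ} (hs : s ∈ Icc τ t) {j : Fin 5} (hj : 2 ≤ j) :
    4 * ‖(γ s).1 0 - (γ s).1 1‖ ≤ ‖(γ s).1 j - cm m 0 1 (γ s).1‖ := by
  refine le_trans ?_ (h.far hs hj)
  obtain ⟨p0, p1, p2, p3, p4, p5, p6⟩ := h.bpow
  have hc := (h.cd s hs).r
  have hM := P.hM
  have hb := h.b12
  have hM2 : P.M ^ 2 ≤ P.M ^ 10 := pow_le_pow_right₀ hM (by norm_num)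
  have h1 : 4 * (4 * P.M ^ 2 / b ^ 200) ≤ 1 / (3 * b ^ 96) := by
    rw [← mul_div_assoc, div_le_div_iff₀ (by positivity) (by positivity)]
    have h2 : 48 * P.M ^ 2 ≤ b ^ 104 := by nlinarith
    calc 4 * (4 * P.M ^ 2) * (3 * b ^ 96) = (48 * P.M ^ 2) * b ^ 96 := by ring
      _ ≤ b ^ 104 * b ^ 96 := by gcongr
      _ = 1 * b ^ 200 := by ring
  linarith

theorem cont2 (h : Set0 P b m γ τ t) (n : ℕ) :
    ContinuousOn (fun s => 1 / ‖(γ s).1 2 - cm m 0 1 (γ s).1‖ ^ n) (Icc τ t) :=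
  contInv ((h.contq 2).sub h.contX) (fun _ hs => h.farpos hs le_rfl) n

theorem contQ (h : Set0 P b m γ τ t) {j : Fin 5} (hj : 3 ≤ j) :
    ContinuousOn (fun s => 1 / ‖cm m 0 1 (γ s).1 - (γ s).1 j‖ ^ 2) (Icc τ t) :=
  contInv (h.contX.sub (h.contq j)) (fun s hs => by
    have := h.bpow.1
    exact lt_of_lt_of_le (by positivity) ((h.pQ hj).1 s hs)) 2

theorem cont2j (h : Set0 P b m γ τ t) {j : Fin 5} (hj : 3 ≤ j) :
    ContinuousOn (fun s => 1 / ‖(γ s).1 2 - (γ s).1 j‖ ^ 2) (Icc τ t) :=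
  contInv ((h.contq 2).sub (h.contq j)) (fun s hs => by
    have := h.bpow.1
    exact lt_of_lt_of_le (by positivity) ((h.p2 hj).1 s hs)) 2

theorem cont34 (h : Set0 P b m γ τ t) :
    ContinuousOn (fun s => 1 / ‖(γ s).1 3 - (γ s).1 4‖ ^ 2) (Icc τ t) :=
  contInv ((h.contq 3).sub (h.contq 4)) (fun s hs => by
    have := h.bpow.1
    exact lt_of_lt_of_le (by positivity) (h.p34.1 s hs)) 2

theorem v3lt (h : Set0 P b m γ τ t) : ‖(γ t).2 3 - (γ τ).2 3‖ < be P b := by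
  have hM := P.hM
  have p0 := h.bpow.1
  have key := norm_le_integral (f := fun s => (γ s).2 3) (f' := fun s => acc m (γ s).1 3)
    (B := fun s => 4 * P.M * (1 / ‖cm m 0 1 (γ s).1 - (γ s).1 3‖ ^ 2 +
      (1 / ‖(γ s).1 2 - (γ s).1 3‖ ^ 2 + 1 / ‖(γ s).1 3 - (γ s).1 4‖ ^ 2))) h.h1
    (fun s hs => (hasD (h.sol s hs).2).2.1 3)
    (continuousOn_const.mul ((h.contQ (by decide)).add ((h.cont2j (by decide)).add h.cont34)))
    (fun s hs => by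
      have h1 := acc_j_le h.hm (q := (γ s).1) (j := 3) (by decide) (h.hr hs (by decide))
        (h.farpos hs (by decide))
      have e : ({2, 3, 4} : Finset (Fin 5)).erase 3 = {2, 4} := by decide
      rw [e, Finset.sum_pair (by decide), norm_sub_rev ((γ s).1 3) (cm m 0 1 (γ s).1),
        norm_sub_rev ((γ s).1 4) ((γ s).1 3)] at h1
      exact h1)
  have h2 := int3 h.h1 (C := 4 * P.M) (by positivity) (h.contQ (j := 3) (by decide))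
    (h.cont2j (j := 3) (by decide)) h.cont34 (h.pQ (j := 3) (by decide)).2
    (h.p2 (j := 3) (by decide)).2 h.p34.2
  refine lt_of_le_of_lt (key.trans h2) ?_
  unfold be
  have e : 4 * P.M * (4 / b ^ 4 + (4 / b ^ 4 + 4 / b ^ 4)) = 48 * (P.M * (1 / b ^ 4)) := by ring
  rw [e]
  have : 0 < P.M * (1 / b ^ 4) := by positivity
  linarith

theorem v4lt (h : Set0 P b m γ τ t) : ‖(γ t).2 4 - (γ τ).2 4‖ < be P b := by
  have hM := P.hM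
  have p0 := h.bpow.1
  have key := norm_le_integral (f := fun s => (γ s).2 4) (f' := fun s => acc m (γ s).1 4)
    (B := fun s => 4 * P.M * (1 / ‖cm m 0 1 (γ s).1 - (γ s).1 4‖ ^ 2 +
      (1 / ‖(γ s).1 2 - (γ s).1 4‖ ^ 2 + 1 / ‖(γ s).1 3 - (γ s).1 4‖ ^ 2))) h.h1
    (fun s hs => (hasD (h.sol s hs).2).2.1 4)
    (continuousOn_const.mul ((h.contQ (by decide)).add ((h.cont2j (by decide)).add h.cont34)))
    (fun s hs => by
      have h1 := acc_j_le h.hm (q := (γ s).1) (j := 4) (by decide) (h.hr hs (by decide))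
        (h.farpos hs (by decide))
      have e : ({2, 3, 4} : Finset (Fin 5)).erase 4 = {2, 3} := by decide
      rw [e, Finset.sum_pair (by decide), norm_sub_rev ((γ s).1 4) (cm m 0 1 (γ s).1)] at h1
      exact h1)
  have h2 := int3 h.h1 (C := 4 * P.M) (by positivity) (h.contQ (j := 4) (by decide))
    (h.cont2j (j := 4) (by decide)) h.cont34 (h.pQ (j := 4) (by decide)).2
    (h.p2 (j := 4) (by decide)).2 h.p34.2
  refine lt_of_le_of_lt (key.trans h2) ?_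
  unfold be
  have e : 4 * P.M * (4 / b ^ 4 + (4 / b ^ 4 + 4 / b ^ 4)) = 48 * (P.M * (1 / b ^ 4)) := by ring
  rw [e]
  have : 0 < P.M * (1 / b ^ 4) := by positivity
  linarith

theorem omlt (h : Set0 P b m γ τ t) : 4 * P.M * (4 * (b ^ 96 /
    ‖(γ τ).2 2 - cm m 0 1 (γ τ).2‖) + (4 / b ^ 4 + 4 / b ^ 4)) < Om P b m (γ τ) := by
  have hM := P.hM
  have p0 := h.bpow.1
  have n1 := h.nm.1
  unfold Om
  have e : 4 * P.M * (4 * (b ^ 96 / ‖(γ τ).2 2 - cm m 0 1 (γ τ).2‖) + (4 / b ^ 4 + 4 / b ^ 4)) =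
    16 * (P.M * (b ^ 96 / ‖(γ τ).2 2 - cm m 0 1 (γ τ).2‖)) + 32 * (P.M * (1 / b ^ 4)) := by ring
  have e2 : 100 * P.M * (b ^ 96 / ‖(γ τ).2 2 - cm m 0 1 (γ τ).2‖ + 1 / b ^ 4) =
    100 * (P.M * (b ^ 96 / ‖(γ τ).2 2 - cm m 0 1 (γ τ).2‖)) + 100 * (P.M * (1 / b ^ 4)) := by ring
  rw [e, e2]
  have h1 : 0 < P.M * (1 / b ^ 4) := by positivity
  have h2 : 0 < P.M * (b ^ 96 / ‖(γ τ).2 2 - cm m 0 1 (γ τ).2‖) := by positivity
  linarith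

theorem v2lt (h : Set0 P b m γ τ t) : ‖(γ t).2 2 - (γ τ).2 2‖ < Om P b m (γ τ) := by
  have hM := P.hM
  have key := norm_le_integral (f := fun s => (γ s).2 2) (f' := fun s => acc m (γ s).1 2)
    (B := fun s => 4 * P.M * (1 / ‖(γ s).1 2 - cm m 0 1 (γ s).1‖ ^ 2 +
      (1 / ‖(γ s).1 2 - (γ s).1 3‖ ^ 2 + 1 / ‖(γ s).1 2 - (γ s).1 4‖ ^ 2))) h.h1
    (fun s hs => (hasD (h.sol s hs).2).2.1 2)
    (continuousOn_const.mul ((h.cont2 2).add ((h.cont2j (by decide)).add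
      (h.cont2j (by decide)))))
    (fun s hs => by
      have h1 := acc_j_le h.hm (q := (γ s).1) (j := 2) (by decide) (h.hr hs (by decide))
        (h.farpos hs (by decide))
      have e : ({2, 3, 4} : Finset (Fin 5)).erase 2 = {3, 4} := by decide
      rw [e, Finset.sum_pair (by decide), norm_sub_rev ((γ s).1 3) ((γ s).1 2),
        norm_sub_rev ((γ s).1 4) ((γ s).1 2)] at h1
      exact h1)
  have h2 := int3 h.h1 (C := 4 * P.M) (by positivity) (h.cont2 2)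
    (h.cont2j (j := 3) (by decide)) (h.cont2j (j := 4) (by decide)) h.esc.2.1
    (h.p2 (j := 3) (by decide)).2 (h.p2 (j := 4) (by decide)).2
  exact lt_of_le_of_lt (key.trans h2) h.omlt

theorem vQlt (h : Set0 P b m γ τ t) :
    ‖cm m 0 1 (γ t).2 - cm m 0 1 (γ τ).2‖ < Om P b m (γ τ) := by
  have hM := P.hM
  have key := norm_le_integral (f := fun s => cm m 0 1 (γ s).2)
    (f' := fun s => cm m 0 1 (acc m (γ s).1))
    (B := fun s => 4 * P.M * (1 / ‖(γ s).1 2 - cm m 0 1 (γ s).1‖ ^ 2 +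
      (1 / ‖cm m 0 1 (γ s).1 - (γ s).1 3‖ ^ 2 + 1 / ‖cm m 0 1 (γ s).1 - (γ s).1 4‖ ^ 2))) h.h1
    (fun s hs => (hasD (h.sol s hs).2).2.2.2)
    (continuousOn_const.mul ((h.cont2 2).add ((h.contQ (by decide)).add
      (h.contQ (by decide)))))
    (fun s hs => by
      have h1 := acc_Q_le h.hm (q := (γ s).1) (fun j hj => h.hr hs hj)
        (fun j hj => h.farpos hs hj)
      rw [norm_sub_rev ((γ s).1 3) (cm m 0 1 (γ s).1),
        norm_sub_rev ((γ s).1 4) (cm m 0 1 (γ s).1), add_assoc] at h1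
      exact h1)
  have h2 := int3 h.h1 (C := 4 * P.M) (by positivity) (h.cont2 2)
    (h.contQ (j := 3) (by decide)) (h.contQ (j := 4) (by decide)) h.esc.2.1
    (h.pQ (j := 3) (by decide)).2 (h.pQ (j := 4) (by decide)).2
  exact lt_of_le_of_lt (key.trans h2) h.omlt

theorem vel_s (h : Set0 P b m γ τ t) {s : ℝ} (hs : s ∈ Icc τ t) {j : Fin 5} (hj : 2 ≤ j) :
    ‖(γ s).2 j - cm m 0 1 (γ s).2‖ ≤ 11 * P.M * b ^ 100 := by
  have hM := P.hM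
  obtain ⟨p0, p1, p2, p3, p4, p5, p6⟩ := h.bpow
  obtain ⟨n1, n2, n3, n4, n5, n6, n7, n8⟩ := h.nm
  have hbo : be P b ≤ Om P b m (γ τ) := by
    unfold be Om
    have : 0 ≤ P.M * (b ^ 96 / ‖(γ τ).2 2 - cm m 0 1 (γ τ).2‖) := by positivity
    have h2 : 100 * P.M * (b ^ 96 / ‖(γ τ).2 2 - cm m 0 1 (γ τ).2‖ + 1 / b ^ 4) =
      100 * (P.M * (b ^ 96 / ‖(γ τ).2 2 - cm m 0 1 (γ τ).2‖)) + 100 * P.M * (1 / b ^ 4) := by ring
    linarith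
  have hw := h.vel.1 2 le_rfl
  have h1 : ‖(γ s).2 j - (γ τ).2 j‖ ≤ Om P b m (γ τ) := by
    have : j = 2 ∨ 3 ≤ j := by
      revert hj; revert j; decide
    rcases this with rfl | h3
    · exact (h.cd s hs).v2
    · exact (h.vj h3 hs).trans hbo
  have h2 := (h.cd s hs).vQ
  have h3 := h.vel.1 j hj
  have e : (γ s).2 j - cm m 0 1 (γ s).2 = ((γ s).2 j - (γ τ).2 j) +
    ((γ τ).2 j - cm m 0 1 (γ τ).2) - (cm m 0 1 (γ s).2 - cm m 0 1 (γ τ).2) := by abel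
  rw [e]
  have h4 := norm_sub_le (((γ s).2 j - (γ τ).2 j) + ((γ τ).2 j - cm m 0 1 (γ τ).2))
    (cm m 0 1 (γ s).2 - cm m 0 1 (γ τ).2)
  have h5 := norm_add_le ((γ s).2 j - (γ τ).2 j) ((γ τ).2 j - cm m 0 1 (γ τ).2)
  linarith

theorem term_le (h : Set0 P b m γ τ t) {s : ℝ} (hs : s ∈ Icc τ t) {j : Fin 5} (hj : 2 ≤ j) :
    |m j * ⟪(γ s).2 j - cm m 0 1 (γ s).2, DQ m (γ s).1 j⟫| ≤
      352000 * P.M ^ 7 / b ^ 300 * (1 / ‖(γ s).1 j - cm m 0 1 (γ s).1‖ ^ 4) := by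
  have hM := P.hM
  have p0 := h.bpow.1
  have h01 : (γ s).1 0 ≠ (γ s).1 1 := (h.sol s hs).1 0 1 (by decide)
  have h1 := DQ_le h.hm (γ s).1 h01 (h.hr hs hj)
  have h2 := h.vel_s hs hj
  have h3 := (h.cd s hs).r
  have hx := h.farpos hs hj
  have hmj := (h.hm.2 j).2
  have hm0 := h.hm.pos j
  rw [abs_mul, abs_of_pos hm0]
  have h4 := abs_real_inner_le_norm ((γ s).2 j - cm m 0 1 (γ s).2) (DQ m (γ s).1 j)
  have h5 : ‖(γ s).1 0 - (γ s).1 1‖ ^ 2 ≤ (4 * P.M ^ 2 / b ^ 200) ^ 2 := by gcongr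
  calc m j * |⟪(γ s).2 j - cm m 0 1 (γ s).2, DQ m (γ s).1 j⟫|
      ≤ P.M * ((11 * P.M * b ^ 100) * (2000 * P.M * (4 * P.M ^ 2 / b ^ 200) ^ 2 /
          ‖(γ s).1 j - cm m 0 1 (γ s).1‖ ^ 4)) := by
        gcongr
        refine h4.trans ?_
        gcongr
        refine h1.trans ?_
        gcongr
    _ = 352000 * P.M ^ 7 / b ^ 300 * (1 / ‖(γ s).1 j - cm m 0 1 (γ s).1‖ ^ 4) := by
        field_simp
        ring

theorem dF_le (h : Set0 P b m γ τ t) {s : ℝ} (hs : s ∈ Icc τ t) :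
    |dFQ m (γ s)| ≤ 352000 * P.M ^ 7 / b ^ 300 *
      (1 / ‖(γ s).1 2 - cm m 0 1 (γ s).1‖ ^ 4 + 2 * b ^ 24) := by
  have hM := P.hM
  have p0 := h.bpow.1
  have h2 := h.term_le hs (j := 2) (by decide)
  have h3 := h.term_le hs (j := 3) (by decide)
  have h4 := h.term_le hs (j := 4) (by decide)
  have hf : ∀ j : Fin 5, 3 ≤ j → 1 / ‖(γ s).1 j - cm m 0 1 (γ s).1‖ ^ 4 ≤ b ^ 24 := by
    intro j hj
    have h5 := h.far3 hs hj
    have h6 : (1 / b ^ 6) ^ 4 ≤ ‖(γ s).1 j - cm m 0 1 (γ s).1‖ ^ 4 := by gcongr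
    have h7 : (1 / b ^ 6) ^ 4 = 1 / b ^ 24 := by
      field_simp
    rw [h7] at h6
    have h8 : 0 < 1 / b ^ 24 := by positivity
    calc 1 / ‖(γ s).1 j - cm m 0 1 (γ s).1‖ ^ 4 ≤ 1 / (1 / b ^ 24) := by gcongr
      _ = b ^ 24 := by field_simp
  have hc : 0 ≤ 352000 * P.M ^ 7 / b ^ 300 := by positivity
  have h5 := mul_le_mul_of_nonneg_left (hf 3 (by decide)) hc
  have h6 := mul_le_mul_of_nonneg_left (hf 4 (by decide)) hc
  unfold dFQ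
  refine (abs_add_three _ _ _).trans ?_
  linarith

theorem F_change (h : Set0 P b m γ τ t) : |FQ m (γ t) - FQ m (γ τ)| ≤ 1 := by
  have hM := P.hM
  obtain ⟨p0, p1, p2, p3, p4, p5, p6⟩ := h.bpow
  have hb := h.b12
  have hM7 : P.M ^ 7 ≤ P.M ^ 10 := pow_le_pow_right₀ hM (by norm_num)
  have key := norm_le_integral (f := fun s => FQ m (γ s)) (f' := fun s => dFQ m (γ s))
    (B := fun s => 352000 * P.M ^ 7 / b ^ 300 *
      (1 / ‖(γ s).1 2 - cm m 0 1 (γ s).1‖ ^ 4 + (b ^ 24 + b ^ 24))) h.h1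
    (fun s hs => hasDerivAt_FQ h.hm.pos (h.sol s hs).1 (h.sol s hs).2
      (fun j hj => h.farpos hs hj))
    (continuousOn_const.mul ((h.cont2 4).add (continuousOn_const.add continuousOn_const)))
    (fun s hs => by
      rw [Real.norm_eq_abs]
      have := h.dF_le hs
      rw [two_mul] at this
      exact this)
  have hi : ∫ s in τ..t, b ^ 24 ≤ b ^ 24 := by
    rw [intervalIntegral.integral_const, smul_eq_mul]
    have h1 := h.h1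
    have h2 := h.h2
    have : 0 ≤ b ^ 24 := by positivity
    nlinarith
  have h2 := int3 h.h1 (C := 352000 * P.M ^ 7 / b ^ 300) (by positivity) (h.cont2 4)
    (continuousOn_const (c := b ^ 24)) (continuousOn_const (c := b ^ 24)) h.esc.2.2 hi hi
  rw [Real.norm_eq_abs] at key
  refine (key.trans h2).trans ?_
  have h3 : 352000 * P.M ^ 7 / b ^ 300 * (16 * b ^ 288 + (b ^ 24 + b ^ 24)) ≤
      352000 * P.M ^ 7 / b ^ 300 * (18 * b ^ 288) := by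
    gcongr
    linarith
  refine h3.trans ?_
  have e : 352000 * P.M ^ 7 / b ^ 300 * (18 * b ^ 288) = 6336000 * P.M ^ 7 / b ^ 12 := by
    field_simp
    ring
  rw [e, div_le_one (by positivity)]
  nlinarith

theorem tau_le (h : Set0 P b m γ τ t) : |tauQ m (γ t).1| ≤ 1 := by
  have hM := P.hM
  obtain ⟨p0, p1, p2, p3, p4, p5, p6⟩ := h.bpow
  have hb := h.b12
  have hM6 : P.M ^ 6 ≤ P.M ^ 10 := pow_le_pow_right₀ hM (by norm_num)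
  have h01 : (γ t).1 0 ≠ (γ t).1 1 := (h.sol t h.memt).1 0 1 (by decide)
  have h1 := tauQ_le h.hm (q := (γ t).1) (norm_pos_iff.2 (sub_ne_zero.2 h01))
    (fun j hj => h.hr h.memt hj)
  have hf : ∀ j : Fin 5, 2 ≤ j → 1 / ‖(γ t).1 j - cm m 0 1 (γ t).1‖ ^ 3 ≤ 27 * b ^ 288 := by
    intro j hj
    have h5 := h.far h.memt hj
    have h6 : (1 / (3 * b ^ 96)) ^ 3 ≤ ‖(γ t).1 j - cm m 0 1 (γ t).1‖ ^ 3 := by gcongr
    have h7 : (1 / (3 * b ^ 96)) ^ 3 = 1 / (27 * b ^ 288) := by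
      field_simp
      norm_num
    rw [h7] at h6
    have h8 : 0 < 1 / (27 * b ^ 288) := by positivity
    calc 1 / ‖(γ t).1 j - cm m 0 1 (γ t).1‖ ^ 3 ≤ 1 / (1 / (27 * b ^ 288)) := by gcongr
      _ = 27 * b ^ 288 := by field_simp
  have h2 := hf 2 (by decide)
  have h3 := hf 3 (by decide)
  have h4 := hf 4 (by decide)
  have hr := (h.cd t h.memt).r
  refine h1.trans ?_
  calc 20 * P.M ^ 2 * ‖(γ t).1 0 - (γ t).1 1‖ ^ 2 * (1 / ‖(γ t).1 2 - cm m 0 1 (γ t).1‖ ^ 3 +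
      1 / ‖(γ t).1 3 - cm m 0 1 (γ t).1‖ ^ 3 + 1 / ‖(γ t).1 4 - cm m 0 1 (γ t).1‖ ^ 3)
      ≤ 20 * P.M ^ 2 * (4 * P.M ^ 2 / b ^ 200) ^ 2 * (27 * b ^ 288 + 27 * b ^ 288 + 27 * b ^ 288) := by
        gcongr
    _ = 25920 * P.M ^ 6 / b ^ 112 := by
        field_simp
        ring
    _ ≤ 1 := by
        rw [div_le_one (by positivity)]
        nlinarith

theorem rlt (h : Set0 P b m γ τ t) : ‖(γ t).1 0 - (γ t).1 1‖ < 4 * P.M ^ 2 / b ^ 200 := by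
  have hM := P.hM
  have hR := P.hR
  obtain ⟨p0, p1, p2, p3, p4, p5, p6⟩ := h.bpow
  have hb := h.hb
  have hM10 : 1 ≤ P.M ^ 10 := one_le_pow₀ hM
  have hbR : 10 ^ 12 * P.R ≤ b := by
    refine le_trans ?_ hb
    have : P.R ≤ P.M ^ 10 * P.R := le_mul_of_one_le_left (by linarith) hM10
    nlinarith
  have h01 : (γ t).1 0 ≠ (γ t).1 1 := (h.sol t h.memt).1 0 1 (by decide)
  have hr0 : 0 < ‖(γ t).1 0 - (γ t).1 1‖ := norm_pos_iff.2 (sub_ne_zero.2 h01)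
  have hham := ham_Q (h.hm.pos) (γ t)
  have h1 := abs_le.1 h.F_change
  have h2 := abs_le.1 h.tau_le
  have h3 := abs_le.1 h.ham
  have h4 := h.F
  have hm0 := h.hm.pos 0
  have hm1 := h.hm.pos 1
  have hp1 : -(m 0 * m 1 / ‖(γ t).1 0 - (γ t).1 1‖) ≤ hp m 0 1 (γ t) := by
    unfold hp
    have : 0 ≤ (1 / 2) * (m 0 * m 1 / (m 0 + m 1)) * ‖(γ t).2 0 - (γ t).2 1‖ ^ 2 := by positivity
    linarith
  have h5 : b ^ 200 / 3 ≤ m 0 * m 1 / ‖(γ t).1 0 - (γ t).1 1‖ := by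
    linarith [h1.1, h2.1, h3.1, h3.2]
  rw [le_div_iff₀ hr0] at h5
  have h6 : m 0 * m 1 ≤ P.M ^ 2 := by
    rw [pow_two]
    exact mul_le_mul (h.hm.2 0).2 (h.hm.2 1).2 hm1.le (by linarith)
  rw [lt_div_iff₀ (by positivity)]
  have hMp : 0 < P.M ^ 2 := by positivity
  nlinarith

theorem step (h : Set0 P b m γ τ t) : Gf P b m (γ τ) (γ t) < 0 := by
  obtain ⟨p0, p1, p2, p3, p4, p5, p6⟩ := h.bpow
  have hlt : (1 : ℝ) / b ^ 6 < 2 / b ^ 6 := by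
    gcongr
    norm_num
  refine Gf_lt h.v2lt h.vQlt h.v3lt h.v4lt h.rlt ?_ ?_ ?_ ?_ ?_ ?_
  · refine lt_of_lt_of_le ?_ (h.esc.1 t h.memt)
    apply one_div_lt_one_div_of_lt (by positivity)
    have : 0 < b ^ 96 := by positivity
    linarith
  · rw [norm_sub_rev]
    exact lt_of_lt_of_le hlt ((h.pQ (j := 3) (by decide)).1 t h.memt)
  · rw [norm_sub_rev]
    exact lt_of_lt_of_le hlt ((h.pQ (j := 4) (by decide)).1 t h.memt)
  · exact lt_of_lt_of_le hlt ((h.p2 (j := 3) (by decide)).1 t h.memt)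
  · exact lt_of_lt_of_le hlt ((h.p2 (j := 4) (by decide)).1 t h.memt)
  · exact lt_of_lt_of_le hlt (h.p34.1 t h.memt)

end Set0

end

end FrC

theorem frozen (P : Par) : ∃ b0 : ℝ, 1 ≤ b0 ∧ ∀ b ≥ b0, ∀ m : Fin 5 → ℝ, Mb P.M m →
    ∀ (γ : ℝ → St d) (τ T : ℝ), τ < T → T ≤ τ + 1 →
    SolOn (nfield m) (FreeSet 5 d) γ (Ico τ T) → (∀ t ∈ Ico τ T, γ t ∈ Inv m P.R) →
    S1 P b m (γ τ) → Good P b m (γ τ) →
    1 / b ^ 96 ≤ ‖(γ τ).1 2 - cm m 0 1 (γ τ).1‖ → ‖(γ τ).1 2 - cm m 0 1 (γ τ).1‖ ≤ 2 / b ^ 96 →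
    0 ≤ ⟪(γ τ).1 2 - cm m 0 1 (γ τ).1, (γ τ).2 2 - cm m 0 1 (γ τ).2⟫ →
    ∀ t ∈ Ico τ T, 1 / (4 * b ^ 96) ≤ Rg 4 (γ t).1 := by
  obtain ⟨b1, hb1, hKQ⟩ := s1_KQ (d := d) P
  refine ⟨max b1 (10 ^ 12 * P.M ^ 10 * P.R), le_max_of_le_left hb1, ?_⟩
  intro b hb m hm γ τ T hτT hT1 hsol hinv hS1 hg hx1 hx2 hx0
  have hbb1 : b1 ≤ b := le_trans (le_max_left _ _) hb
  have hbb2 : 10 ^ 12 * P.M ^ 10 * P.R ≤ b := le_trans (le_max_right _ _) hb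
  have hb1' : 1 ≤ b := hb1.trans hbb1
  have p0 : 0 < b := by linarith
  have hM := P.hM
  have hM10 : 1 ≤ P.M ^ 10 := one_le_pow₀ hM
  have hR := P.hR
  have hb12 : 10 ^ 12 ≤ b := by
    refine le_trans ?_ hbb2
    have : 1 ≤ P.M ^ 10 * P.R := by nlinarith
    nlinarith
  have hb96 : b ≤ b ^ 96 := le_self_pow₀ hb1' (by norm_num)
  have hb77 : 1 ≤ b ^ 77 := one_le_pow₀ hb1'
  have hb6 : 1 ≤ b ^ 6 := one_le_pow₀ hb1'
  have h2b : 2 / b ^ 96 ≤ 1 / 2 := by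
    rw [div_le_div_iff₀ (by positivity) (by norm_num)]
    linarith
  -- distances at the time `τ`
  have d23 : 1 / 2 ≤ ‖(γ τ).1 2 - (γ τ).1 3‖ := by
    have h1 := hg.far3
    have h2 := norm_sub_norm_le ((γ τ).1 3 - cm m 0 1 (γ τ).1) ((γ τ).1 2 - cm m 0 1 (γ τ).1)
    rw [sub_sub_sub_cancel_right, norm_sub_rev ((γ τ).1 3) ((γ τ).1 2)] at h2
    linarith
  have d24 : 1 / 2 ≤ ‖(γ τ).1 2 - (γ τ).1 4‖ := by
    have h1 := hg.far4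
    have h2 := norm_sub_norm_le ((γ τ).1 4 - cm m 0 1 (γ τ).1) ((γ τ).1 2 - cm m 0 1 (γ τ).1)
    rw [sub_sub_sub_cancel_right, norm_sub_rev ((γ τ).1 4) ((γ τ).1 2)] at h2
    linarith
  have d34 : 1 / 2 ≤ ‖(γ τ).1 3 - (γ τ).1 4‖ := by
    have := hg.far34
    linarith
  have h77 : 1 / (8 * b ^ 77) ≤ 1 / 2 := by
    apply one_div_le_one_div_of_le (by norm_num)
    linarith
  have h6 : 1 / b ^ 6 ≤ 1 / 2 := by
    apply one_div_le_one_div_of_le (by norm_num)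
    have : b ≤ b ^ 6 := le_self_pow₀ hb1' (by norm_num)
    linarith
  have hK : KQ m (γ τ).2 ≤ 9 * b ^ 200 := by
    refine hKQ b hbb1 m hm (γ τ) hS1 ?_
    intro i j hi hj hij
    have : (i = 2 ∧ j = 3) ∨ (i = 2 ∧ j = 4) ∨ (i = 3 ∧ j = 4) ∨ (i = 3 ∧ j = 2) ∨
        (i = 4 ∧ j = 2) ∨ (i = 4 ∧ j = 3) := by
      revert hi hj hij
      revert i j
      decide
    rcases this with ⟨rfl, rfl⟩ | ⟨rfl, rfl⟩ | ⟨rfl, rfl⟩ | ⟨rfl, rfl⟩ | ⟨rfl, rfl⟩ | ⟨rfl, rfl⟩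
    · exact h77.trans d23
    · exact h77.trans d24
    · exact h77.trans d34
    · rw [norm_sub_rev]; exact h77.trans d23
    · rw [norm_sub_rev]; exact h77.trans d24
    · rw [norm_sub_rev]; exact h77.trans d34
  have hset : ∀ t ∈ Ico τ T, (∀ s ∈ Icc τ t, FrC.Cd P b m (γ τ) (γ s)) →
      FrC.Set0 P b m γ τ t := fun t ht hc =>
    { hm := hm
      hb := hbb2
      h1 := ht.1
      h2 := by linarith [ht.2]
      sol := fun s hs => hsol s ⟨hs.1, lt_of_le_of_lt hs.2 ht.2⟩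
      ham := (hinv t ht).2.1
      good := hg
      F := hS1.F_ge
      K := hK
      x1 := hx1
      x0 := hx0
      cd := hc }
  have hOm : 0 ≤ FrC.Om P b m (γ τ) := by
    unfold FrC.Om
    have h1 : 0 ≤ b ^ 96 / ‖(γ τ).2 2 - cm m 0 1 (γ τ).2‖ :=
      div_nonneg (pow_nonneg p0.le 96) (norm_nonneg _)
    have h2 : 0 ≤ 1 / b ^ 4 := by positivity
    exact mul_nonneg (by linarith) (add_nonneg h1 h2)
  have hboot := FrC.boot (τ := τ) (T := T) (fun s => FrC.Gf P b m (γ τ) (γ s))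
    (fun s hs => (FrC.Gf_cont.continuousAt.comp
      (hsol s hs).2.continuousAt).continuousWithinAt)
    (by
      refine FrC.Gf_le.2 ⟨?_, ?_, ?_, ?_, hS1.r_le, ?_, ?_, ?_, h6.trans d23, h6.trans d24,
        h6.trans d34⟩
      · rw [sub_self, norm_zero]; exact hOm
      · rw [sub_self, norm_zero]; exact hOm
      · rw [sub_self, norm_zero]; unfold FrC.be; positivity
      · rw [sub_self, norm_zero]; unfold FrC.be; positivity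
      · refine le_trans ?_ hx1
        apply one_div_le_one_div_of_le (by positivity)
        have : 0 < b ^ 96 := by positivity
        linarith
      · have := hg.far3
        linarith
      · have := hg.far4
        linarith)
    (fun t ht hc => (hset t ht (fun s hs => FrC.Gf_le.1 (hc s hs))).step)
  intro t ht
  have hcd : ∀ s ∈ Icc τ t, FrC.Cd P b m (γ τ) (γ s) := fun s hs =>
    FrC.Gf_le.1 (hboot s ⟨hs.1, lt_of_le_of_lt hs.2 ht.2⟩)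
  have hS := hset t ht hcd
  have hc := hcd t hS.memt
  set q := (γ t).1 with hq
  have hlow : 1 / (4 * b ^ 96) ≤ 1 / b ^ 6 := by
    apply one_div_le_one_div_of_le (by positivity)
    have := hS.bpow.2.2.2.2.2.1
    have h96 : 0 < b ^ 96 := by positivity
    linarith
  have hpair : ∀ i j : Fin 5, i ≤ 1 → 2 ≤ j → 1 / (4 * b ^ 96) ≤ ‖q i - q j‖ := by
    intro i j hi hj
    have h1 := hS.far hS.memt hj
    have h2 := hS.hr hS.memt hj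
    have h3 : ‖cm m 0 1 q - q i‖ ≤ ‖q 0 - q 1‖ := by
      have hd := cm_dist hm.pos (a := 0) (b := 1) (by decide) q
      have : i = 0 ∨ i = 1 := by
        revert hi; revert i; decide
      rcases this with rfl | rfl
      · exact hd.1
      · exact hd.2
    have h4 := norm_sub_norm_le (q j - cm m 0 1 q) (q i - cm m 0 1 q)
    rw [sub_sub_sub_cancel_right, norm_sub_rev (q j) (q i), norm_sub_rev (q i) (cm m 0 1 q)] at h4
    have e : 1 / (4 * b ^ 96) = (3 / 4) * (1 / (3 * b ^ 96)) := by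
      field_simp
    rw [e]
    rw [← hq] at h1 h2
    linarith
  refine (le_Rg_iff (by norm_num) (by norm_num)).2 ⟨![0, 0, 1, 2, 3], by decide, ?_⟩
  intro i j hij
  have hcase : (i ≤ 1 ∧ 2 ≤ j) ∨ (j ≤ 1 ∧ 2 ≤ i) ∨ (i = 2 ∧ j = 3) ∨ (i = 2 ∧ j = 4) ∨
      (i = 3 ∧ j = 4) ∨ (i = 3 ∧ j = 2) ∨ (i = 4 ∧ j = 2) ∨ (i = 4 ∧ j = 3) := by
    revert hij
    revert i j
    decide
  rcases hcase with ⟨h1, h2⟩ | ⟨h1, h2⟩ | ⟨rfl, rfl⟩ | ⟨rfl, rfl⟩ | ⟨rfl, rfl⟩ | ⟨rfl, rfl⟩ |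
    ⟨rfl, rfl⟩ | ⟨rfl, rfl⟩
  · exact hpair i j h1 h2
  · rw [norm_sub_rev]; exact hpair j i h1 h2
  · exact hlow.trans hc.d23
  · exact hlow.trans hc.d24
  · exact hlow.trans hc.d34
  · rw [norm_sub_rev]; exact hlow.trans hc.d23
  · rw [norm_sub_rev]; exact hlow.trans hc.d24
  · rw [norm_sub_rev]; exact hlow.trans hc.d34

end NB5
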