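import Mathlib
import Pool.Agent.NB5.Defs

/-!
# Perturbed Kepler motion (project NB5): definition
-/

open MeasureTheory Set Filter Topology Metric
open scoped NNReal ENNReal RealInnerProductSpace

namespace NB5

open HDN

variable {d : ℕ}

/-- `x'' = - G x / ‖x‖^3 + p` on `[α, β]`, inside the ball of radius `2 ρ1`, with energy at least
`- G / (7 ρ1)` and small perturbation `p` -/
structure Kep (G ρ1 A B α β : ℝ) (x w p : ℝ → Sp d) : Prop where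
  hαβ : α ≤ β
  hG : 0 < G
  hρ : 0 < ρ1
  hA : 0 ≤ A
  hB : 0 ≤ B
  hx : ∀ t ∈ Icc α β, HasDerivAt x (w t) t
  hw : ∀ t ∈ Icc α β, HasDerivAt w (-(G • grav (x t)) + p t) t
  hp : ContinuousOn p (Icc α β)
  x0 : ∀ t ∈ Icc α β, 0 < ‖x t‖
  x1 : ∀ t ∈ Icc α β, ‖x t‖ ≤ 2 * ρ1
  en : ∀ t ∈ Icc α β, -(G / (7 * ρ1)) ≤ ‖w t‖ ^ 2 / 2 - G / ‖x t‖
  pb : ∀ t ∈ Icc α β, ‖p t‖ ≤ A / ‖x t‖ ^ 4 + B * ‖x t‖
  A_le : ∀ t ∈ Icc α β, A ≤ G * ‖x t‖ ^ 2 / 10 ^ 6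
  B_le : B * ρ1 ^ 3 ≤ G / 10 ^ 6

end NB5
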