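import Mathlib
import Pool.Agent.NB5.KepDef

/-!
# Convexity of `‖x‖^2` (project NB5, module NB5-KepA)

Let `η = ‖w‖^2/2 - G/‖x‖ ≥ -G/(7 ρ1)`. As `‖x‖ ≤ 2 ρ1`, `‖w‖^2 = 2 η + 2 G/‖x‖ ≥ (10/7) G/‖x‖`
(`kep_w`). The derivative of `⟪x, w⟫` is `‖w‖^2 + ⟪x, -G grav x + p⟫ = ‖w‖^2 - G/‖x‖ + ⟪x, p⟫`
(`⟪x, grav x⟫ = 1/‖x‖`), `G/‖x‖ ≤ 0.7 ‖w‖^2`, `|⟪x, p⟫| ≤ ‖x‖ ‖p‖ ≤ A/‖x‖^3 + B ‖x‖^2 ≤
10^(-5) G/‖x‖` (`kep_xp`). Time bound: `f = ‖x‖^2` has `f' = 2⟪x, w⟫`, `f'' ≥ 2 G/(3 ‖x‖) ≥ G/(3 ρ1)`,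
`0 ≤ f ≤ 4 ρ1^2` on `[α, β]`; a function with `f'' ≥ c` on an interval of length `L` has oscillation
`≥ c L^2/8` (compare with the quadratic at the midpoint `μ`: `f t ≥ f μ + f' μ (t-μ) + c (t-μ)^2/2`
for `t = α` or `t = β` according to the sign of `f' μ`). `KepRev`: time reversal.
-/

open MeasureTheory Set Filter Topology Metric
open scoped NNReal ENNReal RealInnerProductSpace

namespace NB5

open HDN

variable {d : ℕ} {G ρ1 A B α β : ℝ} {x w p : ℝ → Sp d}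

theorem kep_w (K : Kep G ρ1 A B α β x w p) {t : ℝ} (ht : t ∈ Icc α β) :
    (10 / 7) * (G / ‖x t‖) ≤ ‖w t‖ ^ 2 := by
  have h0 := K.x0 t ht
  have h1 := K.x1 t ht
  have h2 := K.en t ht
  have hG := K.hG
  have hρ := K.hρ
  have h3 : G / (7 * ρ1) ≤ 2 * G / (7 * ‖x t‖) := by
    rw [div_le_div_iff₀ (by positivity) (by positivity)]
    nlinarith
  have h4 : 2 * G / (7 * ‖x t‖) = (2 / 7) * (G / ‖x t‖) := by
    field_simp
  rw [h4] at h3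
  linarith

theorem kep_xp (K : Kep G ρ1 A B α β x w p) {t : ℝ} (ht : t ∈ Icc α β) :
    ‖x t‖ * ‖p t‖ ≤ (1 / 10 ^ 5) * (G / ‖x t‖) := by
  have h0 := K.x0 t ht
  have h1 := K.x1 t ht
  have h2 := K.pb t ht
  have hG := K.hG
  have hρ := K.hρ
  have hB := K.hB
  have hA := K.A_le t ht
  have hB2 := K.B_le
  have h3 : ‖x t‖ * ‖p t‖ ≤ ‖x t‖ * (A / ‖x t‖ ^ 4 + B * ‖x t‖) :=
    mul_le_mul_of_nonneg_left h2 h0.le
  have h4 : ‖x t‖ * (A / ‖x t‖ ^ 4 + B * ‖x t‖) = (A / ‖x t‖ ^ 2 + B * ‖x t‖ ^ 3) / ‖x t‖ := by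
    field_simp
  have h5 : A / ‖x t‖ ^ 2 ≤ G / 10 ^ 6 := by
    rw [div_le_iff₀ (by positivity)]
    calc A ≤ G * ‖x t‖ ^ 2 / 10 ^ 6 := hA
      _ = G / 10 ^ 6 * ‖x t‖ ^ 2 := by ring
  have h6 : B * ‖x t‖ ^ 3 ≤ 8 * (G / 10 ^ 6) := by
    have h7 : ‖x t‖ ^ 3 ≤ (2 * ρ1) ^ 3 := pow_le_pow_left₀ h0.le h1 3
    calc B * ‖x t‖ ^ 3 ≤ B * (2 * ρ1) ^ 3 := mul_le_mul_of_nonneg_left h7 hB
      _ = 8 * (B * ρ1 ^ 3) := by ring
      _ ≤ 8 * (G / 10 ^ 6) := by linarith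
  rw [h4] at h3
  refine h3.trans ?_
  rw [← mul_div_assoc]
  refine div_le_div_of_nonneg_right ?_ h0.le
  linarith

private theorem kep_grav (y : Sp d) (hy : 0 < ‖y‖) : ⟪y, grav y⟫ = 1 / ‖y‖ := by
  unfold grav
  rw [inner_smul_right, real_inner_self_eq_norm_sq]
  field_simp

/-- derivative of `⟪x, w⟫` -/
theorem kep_conv (K : Kep G ρ1 A B α β x w p) {t : ℝ} (ht : t ∈ Icc α β) :
    ∃ κ, HasDerivAt (fun s => ⟪x s, w s⟫) κ t ∧ ‖w t‖ ^ 2 / 4 ≤ κ ∧ G / (3 * ‖x t‖) ≤ κ := by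
  have h0 := K.x0 t ht
  have hG := K.hG
  have h1 := (K.hx t ht).inner ℝ (K.hw t ht)
  have h2 := kep_w K ht
  have h3 := kep_xp K ht
  have h4 := abs_real_inner_le_norm (x t) (p t)
  have h5 := (abs_le.1 h4).1
  have h6 : ⟪x t, -(G • grav (x t)) + p t⟫ = -(G / ‖x t‖) + ⟪x t, p t⟫ := by
    rw [inner_add_right, inner_neg_right, inner_smul_right, kep_grav _ h0]
    ring
  have h7 : G / (3 * ‖x t‖) = (1 / 3) * (G / ‖x t‖) := by
    field_simp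
  have hu : 0 < G / ‖x t‖ := div_pos hG h0
  refine ⟨_, h1, ?_, ?_⟩
  · rw [h6, real_inner_self_eq_norm_sq]
    linarith
  · rw [h6, real_inner_self_eq_norm_sq, h7]
    linarith

/-- derivative of `‖x‖^2` -/
theorem kep_y (K : Kep G ρ1 A B α β x w p) {t : ℝ} (ht : t ∈ Icc α β) :
    HasDerivAt (fun s => ‖x s‖ ^ 2) (2 * ⟪x t, w t⟫) t := (K.hx t ht).norm_sq

/-- a function with nonnegative derivative -/
private theorem kep_mono {f f' : ℝ → ℝ} {a b : ℝ} (h : ∀ t ∈ Icc a b, HasDerivAt f (f' t) t)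
    (h' : ∀ t ∈ Icc a b, 0 ≤ f' t) : MonotoneOn f (Icc a b) := by
  refine monotoneOn_of_deriv_nonneg (convex_Icc a b)
    (fun t ht => (h t ht).continuousAt.continuousWithinAt)
    (fun t ht => ((h t (interior_subset ht)).differentiableAt).differentiableWithinAt)
    (fun t ht => ?_)
  rw [(h t (interior_subset ht)).deriv]
  exact h' t (interior_subset ht)

theorem kep_time (K : Kep G ρ1 A B α β x w p) : (β - α) ^ 2 * G ≤ 100 * ρ1 ^ 3 := by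
  have hG := K.hG
  have hρ := K.hρ
  have hαβ := K.hαβ
  choose! κ hκ1 hκ2 hκ3 using fun (t : ℝ) (ht : t ∈ Icc α β) => kep_conv K ht
  set c : ℝ := G / (3 * ρ1) with hc
  have hc0 : 0 < c := by positivity
  have hκc : ∀ t ∈ Icc α β, c / 2 ≤ κ t := by
    intro t ht
    have h0 := K.x0 t ht
    have h1 := K.x1 t ht
    refine le_trans ?_ (hκ3 t ht)
    rw [hc, div_div, div_le_div_iff₀ (by positivity) (by positivity)]
    nlinarith
  obtain ⟨μ, hμ⟩ : ∃ μ, μ = (α + β) / 2 := ⟨_, rfl⟩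
  have hμα : α ≤ μ := by linarith
  have hμβ : μ ≤ β := by linarith
  have hμm : μ ∈ Icc α β := ⟨hμα, hμβ⟩
  -- `g - c/2 (t - μ)` is monotone
  have hg : MonotoneOn (fun t => ⟪x t, w t⟫ - c / 2 * (t - μ)) (Icc α β) := by
    refine kep_mono (f' := fun t => κ t - c / 2) (fun t ht => ?_) (fun t ht => ?_)
    · have h1 : HasDerivAt (fun t : ℝ => c / 2 * (t - μ)) (c / 2) t := by
        have := ((hasDerivAt_id t).sub_const μ).const_mul (c / 2)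
        simpa using this
      exact (hκ1 t ht).sub h1
    · have := hκc t ht
      linarith
  have hF : ∀ t ∈ Icc α β, HasDerivAt (fun t => ‖x t‖ ^ 2 - c / 2 * (t - μ) ^ 2)
      (2 * (⟪x t, w t⟫ - c / 2 * (t - μ))) t := by
    intro t ht
    have h1 : HasDerivAt (fun t : ℝ => c / 2 * (t - μ) ^ 2) (c / 2 * (2 * (t - μ))) t := by
      have := (((hasDerivAt_id t).sub_const μ).pow 2).const_mul (c / 2)
      simpa using this
    have h2 := (kep_y K ht).sub h1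
    have h3 : 2 * (⟪x t, w t⟫ - c / 2 * (t - μ)) = 2 * ⟪x t, w t⟫ - c / 2 * (2 * (t - μ)) := by
      ring
    rw [h3]
    exact h2
  have hfin : ∀ t ∈ Icc α β, c / 2 * (t - μ) ^ 2 ≤ ‖x t‖ ^ 2 → (t - μ) ^ 2 = ((β - α) / 2) ^ 2 →
      (β - α) ^ 2 * G ≤ 100 * ρ1 ^ 3 := by
    intro t ht h1 h2
    have h3 : ‖x t‖ ^ 2 ≤ (2 * ρ1) ^ 2 := pow_le_pow_left₀ (norm_nonneg _) (K.x1 t ht) 2
    rw [h2] at h1
    have h4 : c / 2 * ((β - α) / 2) ^ 2 ≤ (2 * ρ1) ^ 2 := h1.trans h3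
    have h5 : c / 2 * ((β - α) / 2) ^ 2 = ((β - α) ^ 2 * G) / (24 * ρ1) := by
      rw [hc]
      field_simp
      ring
    rw [h5, div_le_iff₀ (by positivity)] at h4
    nlinarith [pow_pos hρ 3]
  rcases le_total 0 (⟪x μ, w μ⟫) with hs | hs
  · -- to the right
    have hm : MonotoneOn (fun t => ‖x t‖ ^ 2 - c / 2 * (t - μ) ^ 2) (Icc μ β) := by
      refine kep_mono (f' := fun t => 2 * (⟪x t, w t⟫ - c / 2 * (t - μ)))
        (fun t ht => hF t ⟨hμα.trans ht.1, ht.2⟩) (fun t ht => ?_)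
      have h1 := hg hμm ⟨hμα.trans ht.1, ht.2⟩ ht.1
      simp only [sub_self, mul_zero, sub_zero] at h1
      have h2 := hs.trans h1
      change 0 ≤ 2 * (⟪x t, w t⟫ - c / 2 * (t - μ))
      linarith
    have h1 := hm ⟨le_refl μ, hμβ⟩ ⟨hμβ, le_refl β⟩ hμβ
    simp only [sub_self] at h1
    refine hfin β ⟨hαβ, le_refl β⟩ ?_ ?_
    · have := sq_nonneg ‖x μ‖
      nlinarith
    · rw [hμ]
      ring
  · -- to the left
    have hm : MonotoneOn (fun t => -(‖x t‖ ^ 2 - c / 2 * (t - μ) ^ 2)) (Icc α μ) := by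
      refine kep_mono (f' := fun t => -(2 * (⟪x t, w t⟫ - c / 2 * (t - μ))))
        (fun t ht => (hF t ⟨ht.1, ht.2.trans hμβ⟩).neg) (fun t ht => ?_)
      have h1 := hg ⟨ht.1, ht.2.trans hμβ⟩ hμm ht.2
      simp only [sub_self, mul_zero, sub_zero] at h1
      have h2 := h1.trans hs
      change 0 ≤ -(2 * (⟪x t, w t⟫ - c / 2 * (t - μ)))
      linarith
    have h1 := hm ⟨le_refl α, hμα⟩ ⟨hμα, le_refl μ⟩ hμα
    simp only [sub_self] at h1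
    refine hfin α ⟨le_refl α, hαβ⟩ ?_ ?_
    · have := sq_nonneg ‖x μ‖
      nlinarith
    · rw [hμ]
      ring

/-- restriction to a smaller interval -/
theorem Kep.mono (K : Kep G ρ1 A B α β x w p) {α' β' : ℝ} (h1 : α ≤ α') (h2 : α' ≤ β')
    (h3 : β' ≤ β) : Kep G ρ1 A B α' β' x w p := by
  have hs : ∀ t ∈ Icc α' β', t ∈ Icc α β := fun t ht => ⟨h1.trans ht.1, ht.2.trans h3⟩
  exact ⟨h2, K.hG, K.hρ, K.hA, K.hB, fun t ht => K.hx t (hs t ht), fun t ht => K.hw t (hs t ht),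
    K.hp.mono hs, fun t ht => K.x0 t (hs t ht), fun t ht => K.x1 t (hs t ht),
    fun t ht => K.en t (hs t ht), fun t ht => K.pb t (hs t ht), fun t ht => K.A_le t (hs t ht),
    K.B_le⟩

/-- time reversal -/
theorem Kep.rev (K : Kep G ρ1 A B α β x w p) :
    Kep G ρ1 A B (-β) (-α) (fun t => x (-t)) (fun t => -w (-t)) (fun t => p (-t)) := by
  have hs : ∀ t ∈ Icc (-β) (-α), -t ∈ Icc α β := fun t ht =>
    ⟨by linarith [ht.2], by linarith [ht.1]⟩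
  refine ⟨by linarith [K.hαβ], K.hG, K.hρ, K.hA, K.hB, fun t ht => ?_, fun t ht => ?_,
    K.hp.comp continuous_neg.continuousOn hs, fun t ht => K.x0 _ (hs t ht),
    fun t ht => K.x1 _ (hs t ht), fun t ht => ?_, fun t ht => K.pb _ (hs t ht),
    fun t ht => K.A_le _ (hs t ht), K.B_le⟩
  · have h1 := (K.hx (-t) (hs t ht)).scomp t (hasDerivAt_neg t)
    rw [neg_one_smul] at h1
    exact h1
  · have h1 := ((K.hw (-t) (hs t ht)).scomp t (hasDerivAt_neg t)).neg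
    rw [neg_one_smul, neg_neg] at h1
    exact h1
  · rw [norm_neg]
    exact K.en _ (hs t ht)

end NB5
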