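import Mathlib
import Pool.Agent.NB5.KepDef
import Pool.Agent.NB5.KepA

/-!
# Outgoing motion, time integrals (project NB5, module NB5-KepB)

Standing hypothesis `0 ≤ ⟪x α, w α⟫` (outgoing). By `kep_conv` `⟪x, w⟫` is increasing, so `≥ 0`
(`out_nonneg`), and `‖x‖` is nondecreasing (`out_mono`).
`out_time`: on `[s, t]`, `f = ‖x‖^2`, `f' ≥ 0` at `s`, `f'' ≥ 2G/(3‖x‖) ≥ 2G/(3‖x t‖)`, so
`‖x t‖^2 ≥ (G/(3‖x t‖)) (t - s)^2`.
`out_speed`: if `2 ‖x s‖ ≤ ‖x t‖` then `(⟪x t,w t⟫)^2 ≥ c G ‖x t‖`: derivative of `⟪x,w⟫^2` is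
`2 ⟪x,w⟫ κ ≥ 2 ⟪x,w⟫ G/(3‖x‖) = (2/3) G (‖x‖)'` as `(‖x‖)' = ⟪x,w⟫/‖x‖`; integrate from `s` to `t`:
`⟪x t,w t⟫^2 ≥ (2/3) G (‖x t‖ - ‖x s‖) ≥ (1/3) G ‖x t‖`; hence `(‖x‖)' ≥ (1/2) √(G/‖x‖)`.
`out_int3`, `out_int4`: split `[s, t]` at the time `u` where `‖x‖ = 2 ‖x s‖` (or `u = t`): the first
part has length `≤ √(24) ‖x s‖ √‖x s‖ / √G` by `out_time`; on the second part
`1/‖x‖^n ≤ (2/√G) (‖x‖)' ‖x‖^(1/2-n)`, a derivative of a constant multiple of `-‖x‖^(3/2-n)`.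
-/

open MeasureTheory Set Filter Topology Metric
open scoped NNReal ENNReal RealInnerProductSpace

namespace NB5

open HDN

variable {d : ℕ} {G ρ1 A B α β : ℝ} {x w p : ℝ → Sp d}

theorem out_nonneg (K : Kep G ρ1 A B α β x w p) (h0 : 0 ≤ ⟪x α, w α⟫) {t : ℝ}
    (ht : t ∈ Icc α β) : 0 ≤ ⟪x t, w t⟫ := by
  have hm : MonotoneOn (fun s => ⟪x s, w s⟫) (Icc α β) := by
    apply monotoneOn_of_deriv_nonneg (convex_Icc α β)
    · intro u hu
      obtain ⟨κ, hκ, -, -⟩ := kep_conv K hu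
      exact hκ.continuousAt.continuousWithinAt
    · intro u hu
      obtain ⟨κ, hκ, -, -⟩ := kep_conv K (interior_subset hu)
      exact hκ.differentiableAt.differentiableWithinAt
    · intro u hu
      obtain ⟨κ, hκ, h1, -⟩ := kep_conv K (interior_subset hu)
      rw [hκ.deriv]
      have : 0 ≤ ‖w u‖ ^ 2 / 4 := by positivity
      linarith
  exact h0.trans (hm (left_mem_Icc.2 K.hαβ) ht ht.1)

theorem out_mono (K : Kep G ρ1 A B α β x w p) (h0 : 0 ≤ ⟪x α, w α⟫) :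
    MonotoneOn (fun t => ‖x t‖) (Icc α β) := by
  have hm : MonotoneOn (fun s => ‖x s‖ ^ 2) (Icc α β) := by
    apply monotoneOn_of_deriv_nonneg (convex_Icc α β)
    · intro u hu
      exact (kep_y K hu).continuousAt.continuousWithinAt
    · intro u hu
      exact (kep_y K (interior_subset hu)).differentiableAt.differentiableWithinAt
    · intro u hu
      rw [(kep_y K (interior_subset hu)).deriv]
      have := out_nonneg K h0 (interior_subset hu)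
      linarith
  intro s hs t ht hst
  have h1 := hm hs ht hst
  simp only at h1 ⊢
  exact (pow_le_pow_iff_left₀ (norm_nonneg _) (norm_nonneg _) two_ne_zero).1 h1

/-- derivative of `‖x‖` -/
theorem kepB_r (K : Kep G ρ1 A B α β x w p) {t : ℝ} (ht : t ∈ Icc α β) :
    HasDerivAt (fun s => ‖x s‖) (⟪x t, w t⟫ / ‖x t‖) t := by
  have h1 := kep_y K ht
  have h2 : 0 < ‖x t‖ := K.x0 t ht
  have h3 := h1.sqrt (by positivity)
  have h4 : (fun s => √(‖x s‖ ^ 2)) = fun s => ‖x s‖ := by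
    funext s
    exact Real.sqrt_sq (norm_nonneg _)
  rw [h4, Real.sqrt_sq (norm_nonneg _)] at h3
  exact h3.congr_deriv (by field_simp)

theorem out_time (K : Kep G ρ1 A B α β x w p) (h0 : 0 ≤ ⟪x α, w α⟫) {s t : ℝ}
    (hs : α ≤ s) (hst : s ≤ t) (ht : t ≤ β) : (t - s) ^ 2 * G ≤ 3 * ‖x t‖ ^ 3 := by
  have hG := K.hG
  have htm : t ∈ Icc α β := ⟨hs.trans hst, ht⟩
  have hsub : ∀ u ∈ Icc s t, u ∈ Icc α β := fun u hu => ⟨hs.trans hu.1, hu.2.trans ht⟩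
  have hxt : 0 < ‖x t‖ := K.x0 t htm
  set c : ℝ := G / (3 * ‖x t‖) with hc
  have hc0 : 0 < c := by positivity
  have hP : MonotoneOn (fun u => ⟪x u, w u⟫ - c * (u - s)) (Icc s t) := by
    have hd : ∀ u ∈ Icc s t, ∃ κ, HasDerivAt (fun u => ⟪x u, w u⟫ - c * (u - s)) (κ - c) u ∧
        c ≤ κ := by
      intro u hu
      obtain ⟨κ, hκ, -, h2⟩ := kep_conv K (hsub u hu)
      refine ⟨κ, ?_, ?_⟩
      · have h3 : HasDerivAt (fun u : ℝ => c * (u - s)) (c * 1) u :=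
          ((hasDerivAt_id u).sub_const s).const_mul c
        rw [mul_one] at h3
        exact hκ.sub h3
      · refine le_trans ?_ h2
        have h4 : ‖x u‖ ≤ ‖x t‖ := out_mono K h0 (hsub u hu) htm hu.2
        have h5 : 0 < ‖x u‖ := K.x0 u (hsub u hu)
        rw [hc]
        gcongr
    apply monotoneOn_of_deriv_nonneg (convex_Icc s t)
    · intro u hu
      obtain ⟨κ, hκ, -⟩ := hd u hu
      exact hκ.continuousAt.continuousWithinAt
    · intro u hu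
      obtain ⟨κ, hκ, -⟩ := hd u (interior_subset hu)
      exact hκ.differentiableAt.differentiableWithinAt
    · intro u hu
      obtain ⟨κ, hκ, h⟩ := hd u (interior_subset hu)
      rw [hκ.deriv]
      linarith
  have hP' : ∀ u ∈ Icc s t, c * (u - s) ≤ ⟪x u, w u⟫ := by
    intro u hu
    have h1 := hP (left_mem_Icc.2 hst) hu hu.1
    simp only [sub_self, mul_zero, sub_zero] at h1
    have h2 := out_nonneg K h0 (hsub s (left_mem_Icc.2 hst))
    linarith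
  have hy : MonotoneOn (fun u => ‖x u‖ ^ 2 - c * (u - s) ^ 2) (Icc s t) := by
    have hd : ∀ u ∈ Icc s t, HasDerivAt (fun u => ‖x u‖ ^ 2 - c * (u - s) ^ 2)
        (2 * ⟪x u, w u⟫ - c * (2 * (u - s))) u := by
      intro u hu
      have h1 : HasDerivAt (fun u : ℝ => c * (u - s) ^ 2) (c * (2 * (u - s))) u := by
        have h2 := ((((hasDerivAt_id' u).sub_const s).fun_pow 2).const_mul c)
        exact h2.congr_deriv (by push_cast; ring)
      exact (kep_y K (hsub u hu)).sub h1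
    apply monotoneOn_of_deriv_nonneg (convex_Icc s t)
    · intro u hu
      exact (hd u hu).continuousAt.continuousWithinAt
    · intro u hu
      exact (hd u (interior_subset hu)).differentiableAt.differentiableWithinAt
    · intro u hu
      rw [(hd u (interior_subset hu)).deriv]
      have := hP' u (interior_subset hu)
      linarith
  have h1 := hy (left_mem_Icc.2 hst) (right_mem_Icc.2 hst) hst
  simp only [sub_self] at h1
  have h2 : c * (t - s) ^ 2 ≤ ‖x t‖ ^ 2 := by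
    have : 0 ≤ ‖x s‖ ^ 2 := by positivity
    nlinarith
  have h3 : G * (t - s) ^ 2 = 3 * ‖x t‖ * (c * (t - s) ^ 2) := by
    rw [hc]
    field_simp
  calc (t - s) ^ 2 * G = 3 * ‖x t‖ * (c * (t - s) ^ 2) := by rw [mul_comm, h3]
    _ ≤ 3 * ‖x t‖ * ‖x t‖ ^ 2 := by gcongr
    _ = 3 * ‖x t‖ ^ 3 := by ring

theorem out_speed (K : Kep G ρ1 A B α β x w p) (h0 : 0 ≤ ⟪x α, w α⟫) {s t : ℝ}
    (hs : α ≤ s) (hst : s ≤ t) (ht : t ≤ β) (h2 : 2 * ‖x s‖ ≤ ‖x t‖) :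
    (1 / 3) * G * ‖x t‖ ≤ ⟪x t, w t⟫ ^ 2 := by
  have hG := K.hG
  have htm : t ∈ Icc α β := ⟨hs.trans hst, ht⟩
  have hsub : ∀ u ∈ Icc s t, u ∈ Icc α β := fun u hu => ⟨hs.trans hu.1, hu.2.trans ht⟩
  have hm : MonotoneOn (fun u => ⟪x u, w u⟫ ^ 2 - (2 / 3) * G * ‖x u‖) (Icc s t) := by
    have hd : ∀ u ∈ Icc s t, ∃ κ, HasDerivAt (fun u => ⟪x u, w u⟫ ^ 2 - (2 / 3) * G * ‖x u‖)
        (2 * ⟪x u, w u⟫ * κ - (2 / 3) * G * (⟪x u, w u⟫ / ‖x u‖)) u ∧ G / (3 * ‖x u‖) ≤ κ := by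
      intro u hu
      obtain ⟨κ, hκ, -, h3⟩ := kep_conv K (hsub u hu)
      refine ⟨κ, ?_, h3⟩
      have h4 := (hκ.fun_pow 2).fun_sub ((kepB_r K (hsub u hu)).const_mul ((2 / 3) * G))
      exact h4.congr_deriv (by push_cast; ring)
    apply monotoneOn_of_deriv_nonneg (convex_Icc s t)
    · intro u hu
      obtain ⟨κ, hκ, -⟩ := hd u hu
      exact hκ.continuousAt.continuousWithinAt
    · intro u hu
      obtain ⟨κ, hκ, -⟩ := hd u (interior_subset hu)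
      exact hκ.differentiableAt.differentiableWithinAt
    · intro u hu
      have hu' := interior_subset hu
      obtain ⟨κ, hκ, h⟩ := hd u hu'
      rw [hκ.deriv]
      have h5 := out_nonneg K h0 (hsub u hu')
      have h6 : 0 < ‖x u‖ := K.x0 u (hsub u hu')
      have h7 : 2 * ⟪x u, w u⟫ * (G / (3 * ‖x u‖)) ≤ 2 * ⟪x u, w u⟫ * κ := by gcongr
      have h8 : 2 * ⟪x u, w u⟫ * (G / (3 * ‖x u‖)) = (2 / 3) * G * (⟪x u, w u⟫ / ‖x u‖) := by
        field_simp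
      linarith
  have h3 := hm (left_mem_Icc.2 hst) (right_mem_Icc.2 hst) hst
  simp only at h3
  have h4 : 0 ≤ ⟪x s, w s⟫ ^ 2 := sq_nonneg _
  nlinarith

/-- the bound for the integral of `1 / ‖x‖ ^ 3` -/
theorem kepB_int (K : Kep G ρ1 A B α β x w p) (h0 : 0 ≤ ⟪x α, w α⟫) {s t : ℝ}
    (hs : α ≤ s) (hst : s ≤ t) (ht : t ≤ β) :
    ∫ u in s..t, 1 / ‖x u‖ ^ 3 ≤ 3 / (‖x s‖ * √‖x s‖ * √G) := by
  have hG := K.hG
  have hsub : ∀ u ∈ Icc s t, u ∈ Icc α β := fun u hu => ⟨hs.trans hu.1, hu.2.trans ht⟩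
  have hg : 0 < √G := Real.sqrt_pos.2 hG
  have hg2 : √G ^ 2 = G := Real.sq_sqrt hG.le
  -- the comparison function
  set D : ℝ → ℝ := fun u => √G * (‖x u‖ * √‖x u‖) + ‖x u‖ * ⟪x u, w u⟫ with hD
  have hDpos : ∀ u ∈ Icc s t, √G * (‖x u‖ * √‖x u‖) ≤ D u ∧ 0 < √G * (‖x u‖ * √‖x u‖) := by
    intro u hu
    have h1 : 0 < ‖x u‖ := K.x0 u (hsub u hu)
    have h2 := out_nonneg K h0 (hsub u hu)
    have h3 : 0 < √‖x u‖ := Real.sqrt_pos.2 h1
    refine ⟨?_, by positivity⟩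
    simp only [hD]
    have : 0 ≤ ‖x u‖ * ⟪x u, w u⟫ := by positivity
    linarith
  have hder : ∀ u ∈ Icc s t, ∃ D' : ℝ, HasDerivAt D D' u ∧ 1 / ‖x u‖ ^ 3 ≤ 3 * D' / D u ^ 2 := by
    intro u hu
    have hr : 0 < ‖x u‖ := K.x0 u (hsub u hu)
    have hP := out_nonneg K h0 (hsub u hu)
    obtain ⟨κ, hκ, -, h3⟩ := kep_conv K (hsub u hu)
    have hrd := kepB_r K (hsub u hu)
    have hsd := hrd.sqrt hr.ne'
    have hdd := ((hrd.mul hsd).const_mul (√G)).add (hrd.mul hκ)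
    refine ⟨_, hdd, ?_⟩
    have hDu := (hDpos u hu)
    have hD0 : 0 < D u := hDu.2.trans_le hDu.1
    set P : ℝ := ⟪x u, w u⟫ with hPdef
    obtain ⟨y, hy0, hy⟩ : ∃ y : ℝ, 0 < y ∧ ‖x u‖ = y ^ 2 :=
      ⟨√‖x u‖, Real.sqrt_pos.2 hr, (Real.sq_sqrt hr.le).symm⟩
    have hsy : √‖x u‖ = y := by rw [hy, Real.sqrt_sq hy0.le]
    have hDy : D u = y ^ 2 * (√G * y + P) := by
      simp only [hD]
      rw [hsy, hy]
      ring
    rw [hDy] at hD0 ⊢
    have hκ' : √G ^ 2 ≤ 3 * y ^ 2 * κ := by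
      rw [hg2]
      rw [hy, div_le_iff₀ (by positivity)] at h3
      linarith
    rw [hsy, hy]
    rw [div_le_div_iff₀ (by positivity) (by positivity), one_mul]
    have e1 : 3 * (√G * (P / y ^ 2 * y + y ^ 2 * (P / y ^ 2 / (2 * y))) +
        (P / y ^ 2 * P + y ^ 2 * κ)) * (y ^ 2) ^ 3 =
        y ^ 4 * ((9 / 2) * √G * P * y + 3 * P ^ 2 + y ^ 2 * (3 * y ^ 2 * κ)) := by
      field_simp
      ring
    rw [e1]
    have e2 : (y ^ 2 * (√G * y + P)) ^ 2 = y ^ 4 * (√G * y + P) ^ 2 := by ring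
    rw [e2]
    apply mul_le_mul_of_nonneg_left _ (by positivity)
    have h5 : y ^ 2 * √G ^ 2 ≤ y ^ 2 * (3 * y ^ 2 * κ) := by gcongr
    have h6 : 0 ≤ √G * P * y := by positivity
    nlinarith [sq_nonneg P]
  choose! D' hD1 hD2 using hder
  have hmain := intervalIntegral.integral_le_sub_of_hasDeriv_right_of_le (a := s) (b := t)
    (g := fun u => -(3 / D u)) (g' := fun u => 3 * D' u / D u ^ 2)
    (φ := fun u => 1 / ‖x u‖ ^ 3) hst ?_ ?_ ?_ ?_
  · refine hmain.trans ?_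
    have h1 := hDpos s (left_mem_Icc.2 hst)
    have h2 := hDpos t (right_mem_Icc.2 hst)
    have h3 : 0 < 3 / D t := div_pos (by norm_num) (h2.2.trans_le h2.1)
    have h4 : 3 / D s ≤ 3 / (‖x s‖ * √‖x s‖ * √G) := by
      have h5 : ‖x s‖ * √‖x s‖ * √G = √G * (‖x s‖ * √‖x s‖) := by ring
      rw [h5]
      exact div_le_div_of_nonneg_left (by norm_num) h1.2 h1.1
    linarith
  · intro u hu
    have h1 := hDpos u hu
    have h2 : D u ≠ 0 := (h1.2.trans_le h1.1).ne'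
    exact (((hD1 u hu).continuousAt.inv₀ h2).const_mul 3).neg.continuousWithinAt
  · intro u hu
    have hu' : u ∈ Icc s t := Ioo_subset_Icc_self hu
    have h1 := hDpos u hu'
    have h2 : D u ≠ 0 := (h1.2.trans_le h1.1).ne'
    have h3 := (((hD1 u hu').inv h2).const_mul 3).neg
    have h4 : HasDerivAt (fun u => -(3 / D u)) (3 * D' u / D u ^ 2) u := by
      have h5 := h3.congr_deriv (g' := 3 * D' u / D u ^ 2) (by ring)
      exact h5
    exact h4.hasDerivWithinAt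
  · have hc : ContinuousOn (fun u => 1 / ‖x u‖ ^ 3) (Icc s t) := by
      intro u hu
      have hr : 0 < ‖x u‖ := K.x0 u (hsub u hu)
      have h1 : ContinuousAt (fun u => ‖x u‖) u := (K.hx u (hsub u hu)).continuousAt.norm
      exact (continuousAt_const.div (h1.pow 3) (pow_pos hr 3).ne').continuousWithinAt
    exact hc.integrableOn_Icc
  · intro u hu
    exact hD2 u (Ioo_subset_Icc_self hu)

theorem out_int3 (K : Kep G ρ1 A B α β x w p) (h0 : 0 ≤ ⟪x α, w α⟫) {s t : ℝ}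
    (hs : α ≤ s) (hst : s ≤ t) (ht : t ≤ β) :
    ∫ u in s..t, 1 / ‖x u‖ ^ 3 ≤ 20 / (‖x s‖ * √‖x s‖ * √G) := by
  refine (kepB_int K h0 hs hst ht).trans ?_
  have hG := K.hG
  have hr : 0 < ‖x s‖ := K.x0 s ⟨hs, hst.trans ht⟩
  gcongr
  norm_num

theorem out_int4 (K : Kep G ρ1 A B α β x w p) (h0 : 0 ≤ ⟪x α, w α⟫) {s t : ℝ}
    (hs : α ≤ s) (hst : s ≤ t) (ht : t ≤ β) :
    ∫ u in s..t, 1 / ‖x u‖ ^ 4 ≤ 20 / (‖x s‖ ^ 2 * √‖x s‖ * √G) := by
  have hG := K.hG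
  have hr : 0 < ‖x s‖ := K.x0 s ⟨hs, hst.trans ht⟩
  have hsub : ∀ u ∈ Icc s t, u ∈ Icc α β := fun u hu => ⟨hs.trans hu.1, hu.2.trans ht⟩
  have hc : ∀ n : ℕ, ContinuousOn (fun u => 1 / ‖x u‖ ^ n) (Icc s t) := by
    intro n u hu
    have hr : 0 < ‖x u‖ := K.x0 u (hsub u hu)
    have h1 : ContinuousAt (fun u => ‖x u‖) u := (K.hx u (hsub u hu)).continuousAt.norm
    exact (continuousAt_const.div (h1.pow n) (pow_pos hr n).ne').continuousWithinAt
  have h1 : ∫ u in s..t, 1 / ‖x u‖ ^ 4 ≤ ∫ u in s..t, 1 / ‖x s‖ * (1 / ‖x u‖ ^ 3) := by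
    apply intervalIntegral.integral_mono_on hst
    · exact (hc 4).intervalIntegrable_of_Icc hst
    · exact ((hc 3).intervalIntegrable_of_Icc hst).const_mul _
    · intro u hu
      have hu0 : 0 < ‖x u‖ := K.x0 u (hsub u hu)
      have h2 : ‖x s‖ ≤ ‖x u‖ :=
        out_mono K h0 ⟨hs, hst.trans ht⟩ (hsub u hu) hu.1
      have h3 : 1 / ‖x u‖ ^ 4 = 1 / ‖x u‖ * (1 / ‖x u‖ ^ 3) := by
        field_simp
      rw [h3]
      gcongr
  refine h1.trans ?_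
  rw [intervalIntegral.integral_const_mul]
  have h2 := out_int3 K h0 hs hst ht
  calc 1 / ‖x s‖ * ∫ u in s..t, 1 / ‖x u‖ ^ 3
      ≤ 1 / ‖x s‖ * (20 / (‖x s‖ * √‖x s‖ * √G)) := by gcongr
    _ = 20 / (‖x s‖ ^ 2 * √‖x s‖ * √G) := by
      have hs0 : 0 < √‖x s‖ := Real.sqrt_pos.2 hr
      have hg : 0 < √G := Real.sqrt_pos.2 hG
      field_simp

end NB5
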