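import Mathlib
import Pool.Agent.NB5.KepDef
import Pool.Agent.NB5.KepB

/-!
# Outgoing motion, speeds (project NB5, module NB5-KepC)

`out_w`: `‖w t‖ ≤ 2 ‖w s‖` for `s ≤ t`. `d/du ‖w‖^2 = 2 ⟪w, -G grav x + p⟫ ≤ 2 ‖w‖ ‖p‖` (outgoing:
`⟪w, x⟫ ≥ 0`), and `‖w‖ > 0` by `kep_w`, so `d/du ‖w‖ ≤ ‖p‖ ≤ A/‖x‖^4 + B ‖x‖`. By `out_int4`,
`A_le` at `s`, `B_le` and `kep_time`: `∫ ‖p‖ ≤ 20 A/(‖x s‖^2 √‖x s‖ √G) + 2 B ρ1 · 10 ρ1 √ρ1/√G ≤
10^(-3) √(G/‖x s‖) ≤ 10^(-3) ‖w s‖` (`‖x s‖ ≤ 2 ρ1`).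
`out_w_int`: if `‖x t‖ ≤ 2 ‖x s‖` then `∫_s^t ‖w‖ ≤ 10 ‖x s‖`: with the midpoint `μ`,
`⟪x u, w u⟫ ≥ (1/4) ∫_s^μ ‖w‖^2` for `u ≥ μ`, so `‖x t‖^2 ≥ (t-μ) (1/2) ∫_s^μ ‖w‖^2 ≥
(1/2) (∫_s^μ ‖w‖)^2` (Cauchy-Schwarz, `μ - s = t - μ`), so `∫_s^μ ‖w‖ ≤ √2 · 2 ‖x s‖`, and
`∫_μ^t ‖w‖ ≤ 2 ∫_s^μ ‖w‖` by `out_w` and translation.
`out_rad`: if `2 ‖x s‖ ≤ ‖x t‖` then `‖w t‖ ≤ 32 ⟪x t, w t⟫ / ‖x t‖ = 32 (‖x‖)'(t)`:
`⟪x t, w t⟫ ≥ (1/4) ∫_s^t ‖w‖^2 ≥ (1/8) ‖w t‖ ∫_s^t ‖w‖ ≥ (1/8) ‖w t‖ (‖x t‖ - ‖x s‖)`.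
`out_intw4`, `out_intwx`: split at `‖x‖ = 2 ‖x s‖`.
`out_energy`: `|‖w t‖^2/2 - G/‖x t‖ - (‖w s‖^2/2 - G/‖x s‖)| ≤ ∫ ‖w‖ ‖p‖`.
-/

open MeasureTheory Set Filter Topology Metric
open scoped NNReal ENNReal RealInnerProductSpace

namespace NB5

open HDN

variable {d : ℕ} {G ρ1 A B α β : ℝ} {x w p : ℝ → Sp d}

private theorem kc_sq {a b : ℝ} (h : a ^ 2 ≤ b ^ 2) (hb : 0 ≤ b) : a ≤ b :=
  (le_abs_self a).trans (abs_le_of_sq_le_sq h hb)

private theorem kc_norm {f : ℝ → Sp d} {f' : Sp d} {t : ℝ} (hf : HasDerivAt f f' t)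
    (h : 0 < ‖f t‖) : HasDerivAt (fun s => ‖f s‖) (⟪f t, f'⟫ / ‖f t‖) t := by
  have h1 : HasDerivAt (fun s => ‖f s‖ ^ 2) (2 * ⟪f t, f'⟫) t := hf.norm_sq
  have h2 := h1.sqrt (by positivity)
  have h3 : (fun s => √(‖f s‖ ^ 2)) = fun s => ‖f s‖ := by
    funext s
    exact Real.sqrt_sq (norm_nonneg _)
  rw [h3, Real.sqrt_sq (norm_nonneg _)] at h2
  refine h2.congr_deriv ?_
  field_simp

private theorem kc_wpos (K : Kep G ρ1 A B α β x w p) {t : ℝ} (ht : t ∈ Icc α β) : 0 < ‖w t‖ := by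
  have h1 := kep_w K ht
  have h2 := div_pos K.hG (K.x0 t ht)
  by_contra h
  have h3 : ‖w t‖ = 0 := le_antisymm (not_lt.1 h) (norm_nonneg _)
  rw [h3] at h1
  norm_num at h1
  linarith

private theorem kc_x_cont (K : Kep G ρ1 A B α β x w p) : ContinuousOn x (Icc α β) :=
  fun t ht => (K.hx t ht).continuousAt.continuousWithinAt

private theorem kc_w_cont (K : Kep G ρ1 A B α β x w p) : ContinuousOn w (Icc α β) :=
  fun t ht => (K.hw t ht).continuousAt.continuousWithinAt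

private theorem kc_grav (z v : Sp d) : ⟪v, grav z⟫ = ⟪z, v⟫ / ‖z‖ ^ 3 := by
  rw [grav, real_inner_smul_right, real_inner_comm]
  ring

/-- `d/dt ‖w‖ ≤ ‖p‖` -/
private theorem kc_wderiv (K : Kep G ρ1 A B α β x w p) (h0 : 0 ≤ ⟪x α, w α⟫) {t : ℝ}
    (ht : t ∈ Icc α β) : ∃ v', HasDerivAt (fun s => ‖w s‖) v' t ∧ v' ≤ ‖p t‖ := by
  have hw := kc_wpos K ht
  refine ⟨_, kc_norm (K.hw t ht) hw, ?_⟩
  rw [div_le_iff₀ hw, inner_add_right, inner_neg_right, real_inner_smul_right, kc_grav]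
  have h1 := out_nonneg K h0 ht
  have h2 : 0 ≤ G * (⟪x t, w t⟫ / ‖x t‖ ^ 3) :=
    mul_nonneg K.hG.le (div_nonneg h1 (by positivity))
  have h3 := real_inner_le_norm (w t) (p t)
  nlinarith

private theorem kc_sub {s t : ℝ} (hs : α ≤ s) (ht : t ≤ β) : Icc s t ⊆ Icc α β :=
  Icc_subset_Icc hs ht

private theorem kc_int {φ : ℝ → ℝ} {s t : ℝ} (hst : s ≤ t) (h : ContinuousOn φ (Icc s t)) :
    IntervalIntegrable φ volume s t :=
  ContinuousOn.intervalIntegrable (by rwa [uIcc_of_le hst])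

private theorem kc_ftc_le {g g' φ : ℝ → ℝ} {s t : ℝ} (hst : s ≤ t)
    (hg : ∀ u ∈ Icc s t, HasDerivAt g (g' u) u) (hφ : ContinuousOn φ (Icc s t))
    (h : ∀ u ∈ Ioo s t, g' u ≤ φ u) : g t - g s ≤ ∫ u in s..t, φ u := by
  refine intervalIntegral.sub_le_integral_of_hasDeriv_right_of_le hst
    (fun u hu => (hg u hu).continuousAt.continuousWithinAt)
    (fun u hu => (hg u (Ioo_subset_Icc_self hu)).hasDerivWithinAt) hφ.integrableOn_Icc h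

private theorem kc_ftc_ge {g g' φ : ℝ → ℝ} {s t : ℝ} (hst : s ≤ t)
    (hg : ∀ u ∈ Icc s t, HasDerivAt g (g' u) u) (hφ : ContinuousOn φ (Icc s t))
    (h : ∀ u ∈ Ioo s t, φ u ≤ g' u) : ∫ u in s..t, φ u ≤ g t - g s := by
  refine intervalIntegral.integral_le_sub_of_hasDeriv_right_of_le hst
    (fun u hu => (hg u hu).continuousAt.continuousWithinAt)
    (fun u hu => (hg u (Ioo_subset_Icc_self hu)).hasDerivWithinAt) hφ.integrableOn_Icc h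

private theorem kc_sqrt_w (K : Kep G ρ1 A B α β x w p) {t : ℝ} (ht : t ∈ Icc α β) :
    √G / √‖x t‖ ≤ ‖w t‖ := by
  have h1 := kep_w K ht
  have hx := K.x0 t ht
  have hG := K.hG
  have h2 : 0 < G / ‖x t‖ := div_pos hG hx
  rw [← Real.sqrt_div hG.le]
  refine Real.sqrt_le_iff.2 ⟨norm_nonneg _, ?_⟩
  nlinarith

/-- the integral of the perturbation -/
private theorem kc_intp (K : Kep G ρ1 A B α β x w p) (h0 : 0 ≤ ⟪x α, w α⟫) {s t : ℝ}
    (hs : α ≤ s) (hst : s ≤ t) (ht : t ≤ β) : ∫ u in s..t, ‖p u‖ ≤ ‖w s‖ := by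
  have hsub := kc_sub hs ht
  have hsm : s ∈ Icc α β := ⟨hs, hst.trans ht⟩
  have hxs := K.x0 s hsm
  have hG := K.hG
  have hρ := K.hρ
  have hc4 : ContinuousOn (fun u => 1 / ‖x u‖ ^ 4) (Icc s t) := by
    refine ContinuousOn.div continuousOn_const (((kc_x_cont K).mono hsub).norm.pow 4) ?_
    intro u hu
    have := K.x0 u (hsub hu)
    positivity
  have hi4 := kc_int hst hc4
  have hip : IntervalIntegrable (fun u => ‖p u‖) volume s t :=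
    kc_int hst ((K.hp.mono hsub).norm)
  have h1 : ∫ u in s..t, ‖p u‖ ≤ ∫ u in s..t, (A * (1 / ‖x u‖ ^ 4) + B * (2 * ρ1)) := by
    refine intervalIntegral.integral_mono_on hst hip
      ((hi4.const_mul A).add intervalIntegrable_const) ?_
    intro u hu
    have h2 := K.pb u (hsub hu)
    have h3 := mul_le_mul_of_nonneg_left (K.x1 u (hsub hu)) K.hB
    have h4 : A / ‖x u‖ ^ 4 = A * (1 / ‖x u‖ ^ 4) := by ring
    linarith
  rw [intervalIntegral.integral_add (hi4.const_mul A) intervalIntegrable_const,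
    intervalIntegral.integral_const_mul, intervalIntegral.integral_const, smul_eq_mul] at h1
  -- first term
  have h5 := out_int4 K h0 hs hst ht
  have h6 := K.A_le s hsm
  set a := √‖x s‖ with ha
  set γ := √G with hγ
  have ha0 : 0 < a := Real.sqrt_pos.2 hxs
  have hγ0 : 0 < γ := Real.sqrt_pos.2 hG
  have haa : a ^ 2 = ‖x s‖ := Real.sq_sqrt hxs.le
  have hγγ : γ ^ 2 = G := Real.sq_sqrt hG.le
  have h7 : A * (∫ u in s..t, 1 / ‖x u‖ ^ 4) ≤ (20 / 10 ^ 6) * (γ / a) := by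
    have h8 : A * (∫ u in s..t, 1 / ‖x u‖ ^ 4) ≤
        (G * ‖x s‖ ^ 2 / 10 ^ 6) * (20 / (‖x s‖ ^ 2 * a * γ)) := by
      refine mul_le_mul h6 h5 ?_ (by positivity)
      exact intervalIntegral.integral_nonneg hst fun u _ => by positivity
    refine h8.trans (le_of_eq ?_)
    rw [← hγγ]
    field_simp
  -- second term
  have h9 : (t - s) ^ 2 * G ≤ 100 * ρ1 ^ 3 := by
    have h10 := kep_time K
    have h11 : (t - s) ^ 2 ≤ (β - α) ^ 2 := by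
      apply pow_le_pow_left₀ (by linarith)
      linarith
    nlinarith
  set b := √ρ1 with hb
  have hb0 : 0 < b := Real.sqrt_pos.2 hρ
  have hbb : b ^ 2 = ρ1 := Real.sq_sqrt hρ.le
  have h10 : (t - s) * γ ≤ 10 * b ^ 3 := by
    refine kc_sq ?_ (by positivity)
    calc ((t - s) * γ) ^ 2 = (t - s) ^ 2 * G := by rw [mul_pow, hγγ]
      _ ≤ 100 * ρ1 ^ 3 := h9
      _ = (10 * b ^ 3) ^ 2 := by rw [← hbb]; ring
  have h11 : (t - s) * (B * (2 * ρ1)) ≤ (20 / 10 ^ 6) * (γ / b) := by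
    have h12 := K.B_le
    have h13 : (t - s) * (B * (2 * ρ1)) * (γ * ρ1 ^ 2) ≤
        (20 / 10 ^ 6) * (γ / b) * (γ * ρ1 ^ 2) := by
      have h14 : (t - s) * (B * (2 * ρ1)) * (γ * ρ1 ^ 2) =
          2 * (((t - s) * γ) * (B * ρ1 ^ 3)) := by ring
      have h15 : (20 / 10 ^ 6) * (γ / b) * (γ * ρ1 ^ 2) = 2 * ((10 * b ^ 3) * (G / 10 ^ 6)) := by
        rw [← hγγ, ← hbb]
        field_simp
        ring
      rw [h14, h15]
      refine mul_le_mul_of_nonneg_left ?_ (by norm_num)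
      refine mul_le_mul h10 h12 ?_ (by positivity)
      exact mul_nonneg K.hB (by positivity)
    exact le_of_mul_le_mul_right h13 (by positivity)
  have h12 : γ / b ≤ 2 * (γ / a) := by
    have h13 := K.x1 s hsm
    have h14 : a ≤ 2 * b := by
      refine kc_sq ?_ (by positivity)
      rw [haa, mul_pow, hbb]
      linarith
    rw [div_le_iff₀ hb0]
    have h15 : 2 * (γ / a) * b = γ * (2 * b) / a := by ring
    rw [h15, le_div_iff₀ ha0]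
    exact mul_le_mul_of_nonneg_left h14 hγ0.le
  have h13 := kc_sqrt_w K hsm
  rw [← hγ, ← ha] at h13
  have h14 : 0 < γ / a := div_pos hγ0 ha0
  linarith

theorem out_w (K : Kep G ρ1 A B α β x w p) (h0 : 0 ≤ ⟪x α, w α⟫) {s t : ℝ}
    (hs : α ≤ s) (hst : s ≤ t) (ht : t ≤ β) : ‖w t‖ ≤ 2 * ‖w s‖ := by
  have hsub := kc_sub hs ht
  have h1 : ∀ u, ∃ v', u ∈ Icc s t → HasDerivAt (fun s => ‖w s‖) v' u ∧ v' ≤ ‖p u‖ := by
    intro u
    by_cases hu : u ∈ Icc s t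
    · obtain ⟨v', hv⟩ := kc_wderiv K h0 (hsub hu)
      exact ⟨v', fun _ => hv⟩
    · exact ⟨0, fun h => absurd h hu⟩
  choose v' hv' using h1
  have h2 := kc_ftc_le hst (fun u hu => (hv' u hu).1) ((K.hp.mono hsub).norm)
    (fun u hu => (hv' u (Ioo_subset_Icc_self hu)).2)
  have h3 := kc_intp K h0 hs hst ht
  linarith

/-- growth of `⟪x, w⟫` -/
private theorem kc_xw (K : Kep G ρ1 A B α β x w p) {s t : ℝ}
    (hs : α ≤ s) (hst : s ≤ t) (ht : t ≤ β) :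
    ∫ u in s..t, ‖w u‖ ^ 2 / 4 ≤ ⟪x t, w t⟫ - ⟪x s, w s⟫ := by
  have hsub := kc_sub hs ht
  have h1 : ∀ u, ∃ κ, u ∈ Icc s t → HasDerivAt (fun s => ⟪x s, w s⟫) κ u ∧ ‖w u‖ ^ 2 / 4 ≤ κ := by
    intro u
    by_cases hu : u ∈ Icc s t
    · obtain ⟨κ, h1, h2, -⟩ := kep_conv K (hsub hu)
      exact ⟨κ, fun _ => ⟨h1, h2⟩⟩
    · exact ⟨0, fun h => absurd h hu⟩
  choose κ hκ using h1
  exact kc_ftc_ge hst (fun u hu => (hκ u hu).1)
    ((((kc_w_cont K).mono hsub).norm.pow 2).div_const 4)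
    (fun u hu => (hκ u (Ioo_subset_Icc_self hu)).2)

private theorem kc_wint (K : Kep G ρ1 A B α β x w p) {s t : ℝ}
    (hs : α ≤ s) (hst : s ≤ t) (ht : t ≤ β) : IntervalIntegrable (fun u => ‖w u‖) volume s t :=
  kc_int hst ((kc_w_cont K).mono (kc_sub hs ht)).norm

private theorem kc_w2int (K : Kep G ρ1 A B α β x w p) {s t : ℝ}
    (hs : α ≤ s) (hst : s ≤ t) (ht : t ≤ β) :
    IntervalIntegrable (fun u => ‖w u‖ ^ 2) volume s t :=
  kc_int hst (((kc_w_cont K).mono (kc_sub hs ht)).norm.pow 2)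

theorem out_w_int (K : Kep G ρ1 A B α β x w p) (h0 : 0 ≤ ⟪x α, w α⟫) {s t : ℝ}
    (hs : α ≤ s) (hst : s ≤ t) (ht : t ≤ β) (h2 : ‖x t‖ ≤ 2 * ‖x s‖) :
    ∫ u in s..t, ‖w u‖ ≤ 10 * ‖x s‖ := by
  have hsm : s ∈ Icc α β := ⟨hs, hst.trans ht⟩
  have hxs := K.x0 s hsm
  set h := (t - s) / 2 with hh
  have hh0 : 0 ≤ h := by rw [hh]; linarith
  have hμ1 : s ≤ s + h := by linarith
  have hμ2 : s + h ≤ t := by rw [hh]; linarith
  have ht' : t = s + h + h := by rw [hh]; ring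
  set J := ∫ u in s..(s + h), ‖w u‖ with hJ
  set I1 := ∫ u in s..(s + h), ‖w u‖ ^ 2 with hI1
  -- the inner product after the midpoint
  have h3 : ∀ u ∈ Icc (s + h) t, I1 / 4 ≤ ⟪x u, w u⟫ := by
    intro u hu
    have h4 := kc_xw K hs hμ1 (hμ2.trans ht)
    have h5 := kc_xw K (hs.trans hμ1) hu.1 (hu.2.trans ht)
    have h6 : 0 ≤ ∫ v in (s + h)..u, ‖w v‖ ^ 2 / 4 :=
      intervalIntegral.integral_nonneg hu.1 fun v _ => by positivity
    have h7 := out_nonneg K h0 hsm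
    rw [intervalIntegral.integral_div] at h4
    linarith
  have h4 : (t - (s + h)) * (I1 / 2) ≤ ‖x t‖ ^ 2 - ‖x (s + h)‖ ^ 2 := by
    have h5 := kc_ftc_ge (g := fun u => ‖x u‖ ^ 2) (g' := fun u => 2 * ⟪x u, w u⟫)
      (φ := fun _ => I1 / 2) hμ2
      (fun u hu => kep_y K ⟨(hs.trans hμ1).trans hu.1, hu.2.trans ht⟩) continuousOn_const
      (fun u hu => by
        have := h3 u (Ioo_subset_Icc_self hu)
        linarith)
    rw [intervalIntegral.integral_const, smul_eq_mul] at h5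
    exact h5
  have h5 : h * I1 ≤ 8 * ‖x s‖ ^ 2 := by
    have h6 : t - (s + h) = h := by rw [ht']; ring
    rw [h6] at h4
    have h7 : ‖x t‖ ^ 2 ≤ (2 * ‖x s‖) ^ 2 := pow_le_pow_left₀ (norm_nonneg _) h2 2
    have h8 : 0 ≤ ‖x (s + h)‖ ^ 2 := by positivity
    nlinarith
  -- Cauchy-Schwarz
  have hwi := kc_wint K hs hμ1 (hμ2.trans ht)
  have hw2i := kc_w2int K hs hμ1 (hμ2.trans ht)
  have h6 : J ^ 2 ≤ h * I1 := by
    rcases hh0.eq_or_lt with h0' | h0'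
    · have h7 : J = 0 := by
        rw [hJ, ← h0', add_zero, intervalIntegral.integral_same]
      rw [h7, ← h0']
      simp
    · have h7 : 0 ≤ ∫ u in s..(s + h), (‖w u‖ - J / h) ^ 2 :=
        intervalIntegral.integral_nonneg hμ1 fun u _ => by positivity
      have h8 : ∫ u in s..(s + h), (‖w u‖ - J / h) ^ 2 =
          I1 - 2 * (J / h) * J + h * (J / h) ^ 2 := by
        have h9 : (fun u => (‖w u‖ - J / h) ^ 2) =
            fun u => (‖w u‖ ^ 2 - (2 * (J / h)) * ‖w u‖) + (J / h) ^ 2 := by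
          funext u
          ring
        rw [h9, intervalIntegral.integral_add (hw2i.sub (hwi.const_mul _))
          intervalIntegrable_const, intervalIntegral.integral_sub hw2i (hwi.const_mul _),
          intervalIntegral.integral_const_mul, intervalIntegral.integral_const, smul_eq_mul,
          ← hJ, ← hI1]
        ring
      rw [h8] at h7
      have h9 : h * (I1 - 2 * (J / h) * J + h * (J / h) ^ 2) = h * I1 - J ^ 2 := by
        field_simp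
        ring
      nlinarith [mul_nonneg h0'.le h7]
  have h7 : J ≤ 3 * ‖x s‖ := by
    refine kc_sq ?_ (by positivity)
    nlinarith [sq_nonneg ‖x s‖]
  -- the second half
  have h8 : ∫ u in (s + h)..t, ‖w u‖ ≤ 2 * J := by
    have h9 : ∫ u in (s + h)..t, ‖w u‖ = ∫ u in s..(s + h), ‖w (u + h)‖ := by
      rw [intervalIntegral.integral_comp_add_right (fun u => ‖w u‖) h, ← ht']
    rw [h9, hJ, ← intervalIntegral.integral_const_mul]
    refine intervalIntegral.integral_mono_on hμ1 ?_ (hwi.const_mul 2) ?_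
    · have h10 := kc_wint K (hs.trans hμ1) hμ2 ht
      have h11 := h10.comp_add_right h
      rw [add_sub_cancel_right] at h11
      have h12 : t - h = s + h := by rw [ht']; ring
      rw [h12] at h11
      exact h11
    · intro u hu
      refine out_w K h0 (hs.trans hu.1) (by linarith) ?_
      have := hu.2
      linarith
  have h9 : ∫ u in s..t, ‖w u‖ = J + ∫ u in (s + h)..t, ‖w u‖ := by
    rw [hJ, intervalIntegral.integral_add_adjacent_intervals hwi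
      (kc_wint K (hs.trans hμ1) hμ2 ht)]
  rw [h9]
  linarith

/-- the derivative of `‖x‖` -/
private theorem kc_xn (K : Kep G ρ1 A B α β x w p) {t : ℝ} (ht : t ∈ Icc α β) :
    HasDerivAt (fun s => ‖x s‖) (⟪x t, w t⟫ / ‖x t‖) t := kc_norm (K.hx t ht) (K.x0 t ht)

private theorem kc_rad (K : Kep G ρ1 A B α β x w p) (h0 : 0 ≤ ⟪x α, w α⟫) {s t : ℝ}
    (hs : α ≤ s) (hst : s ≤ t) (ht : t ≤ β) (h2 : 2 * ‖x s‖ ≤ ‖x t‖) :
    ‖w t‖ * ‖x t‖ ≤ 16 * ⟪x t, w t⟫ := by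
  have hsub := kc_sub hs ht
  have hsm : s ∈ Icc α β := ⟨hs, hst.trans ht⟩
  have h3 := kc_xw K hs hst ht
  have h4 := out_nonneg K h0 hsm
  have hwi := kc_wint K hs hst ht
  have h5 : (‖w t‖ / 8) * ∫ u in s..t, ‖w u‖ ≤ ∫ u in s..t, ‖w u‖ ^ 2 / 4 := by
    rw [← intervalIntegral.integral_const_mul]
    refine intervalIntegral.integral_mono_on hst (hwi.const_mul _)
      ((kc_w2int K hs hst ht).div_const 4) ?_
    intro u hu
    have h6 := out_w K h0 (hs.trans hu.1) hu.2 ht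
    have h7 : 0 ≤ ‖w u‖ := norm_nonneg _
    nlinarith
  have h6 : ‖x t‖ - ‖x s‖ ≤ ∫ u in s..t, ‖w u‖ := by
    refine kc_ftc_le (g := fun u => ‖x u‖) (g' := fun u => ⟪x u, w u⟫ / ‖x u‖) hst
      (fun u hu => kc_xn K (hsub hu)) ((kc_w_cont K).mono hsub).norm ?_
    intro u hu
    have h7 := K.x0 u (hsub (Ioo_subset_Icc_self hu))
    rw [div_le_iff₀ h7, mul_comm]
    exact real_inner_le_norm _ _
  have h7 : 0 ≤ ‖w t‖ := norm_nonneg _
  have h8 : (‖w t‖ / 8) * (‖x t‖ / 2) ≤ (‖w t‖ / 8) * ∫ u in s..t, ‖w u‖ := by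
    refine mul_le_mul_of_nonneg_left ?_ (by positivity)
    linarith
  linarith

theorem out_rad (K : Kep G ρ1 A B α β x w p) (h0 : 0 ≤ ⟪x α, w α⟫) {s t : ℝ}
    (hs : α ≤ s) (hst : s ≤ t) (ht : t ≤ β) (h2 : 2 * ‖x s‖ ≤ ‖x t‖) :
    ‖w t‖ * ‖x t‖ ≤ 32 * ⟪x t, w t⟫ := by
  have h3 := kc_rad K h0 hs hst ht h2
  have h4 := out_nonneg K h0 (t := t) ⟨hs.trans hst, ht⟩
  linarith

/-- the doubling time -/
private theorem kc_split (K : Kep G ρ1 A B α β x w p) (h0 : 0 ≤ ⟪x α, w α⟫) {s t : ℝ}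
    (hs : α ≤ s) (hst : s ≤ t) (ht : t ≤ β) :
    ∃ v ∈ Icc s t, ‖x v‖ ≤ 2 * ‖x s‖ ∧ ∀ u ∈ Ioo v t, 2 * ‖x s‖ ≤ ‖x u‖ := by
  have hsub := kc_sub hs ht
  have hxs := K.x0 s ⟨hs, hst.trans ht⟩
  rcases le_total ‖x t‖ (2 * ‖x s‖) with h | h
  · exact ⟨t, ⟨hst, le_rfl⟩, h, fun u hu => absurd (hu.1.trans hu.2) (lt_irrefl _)⟩
  · have hc : ContinuousOn (fun u => ‖x u‖) (Icc s t) := ((kc_x_cont K).mono hsub).norm
    obtain ⟨v, hv, hv2⟩ := intermediate_value_Icc hst hc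
      (show 2 * ‖x s‖ ∈ Icc ‖x s‖ ‖x t‖ from ⟨by linarith, h⟩)
    refine ⟨v, hv, le_of_eq hv2, fun u hu => ?_⟩
    have h3 := out_mono K h0 (hsub hv) (hsub ⟨hv.1.trans hu.1.le, hu.2.le⟩) hu.1.le
    simp only at h3 hv2
    rw [← hv2]
    exact h3

theorem out_intw4 (K : Kep G ρ1 A B α β x w p) (h0 : 0 ≤ ⟪x α, w α⟫) {s t : ℝ}
    (hs : α ≤ s) (hst : s ≤ t) (ht : t ≤ β) :
    ∫ u in s..t, ‖w u‖ / ‖x u‖ ^ 4 ≤ 20 / ‖x s‖ ^ 3 := by
  have hsub := kc_sub hs ht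
  have hsm : s ∈ Icc α β := ⟨hs, hst.trans ht⟩
  have hxs := K.x0 s hsm
  obtain ⟨v, hv, hv1, hv2⟩ := kc_split K h0 hs hst ht
  have hcont : ContinuousOn (fun u => ‖w u‖ / ‖x u‖ ^ 4) (Icc s t) := by
    refine ContinuousOn.div ((kc_w_cont K).mono hsub).norm
      (((kc_x_cont K).mono hsub).norm.pow 4) ?_
    intro u hu
    have := K.x0 u (hsub hu)
    positivity
  have hc1 : ContinuousOn (fun u => ‖w u‖ / ‖x u‖ ^ 4) (Icc s v) :=
    hcont.mono (Icc_subset_Icc le_rfl hv.2)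
  have hc2 : ContinuousOn (fun u => ‖w u‖ / ‖x u‖ ^ 4) (Icc v t) :=
    hcont.mono (Icc_subset_Icc hv.1 le_rfl)
  have h1 : ∫ u in s..v, ‖w u‖ / ‖x u‖ ^ 4 ≤ 10 / ‖x s‖ ^ 3 := by
    have h2 : ∫ u in s..v, ‖w u‖ / ‖x u‖ ^ 4 ≤ ∫ u in s..v, (1 / ‖x s‖ ^ 4) * ‖w u‖ := by
      refine intervalIntegral.integral_mono_on hv.1 (kc_int hv.1 hc1)
        ((kc_wint K hs hv.1 (hv.2.trans ht)).const_mul _) ?_
      intro u hu
      have h3 : ‖x s‖ ≤ ‖x u‖ := out_mono K h0 hsm (hsub ⟨hu.1, hu.2.trans hv.2⟩) hu.1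
      have h4 : ‖w u‖ / ‖x u‖ ^ 4 ≤ ‖w u‖ / ‖x s‖ ^ 4 :=
        div_le_div_of_nonneg_left (norm_nonneg _) (by positivity)
          (pow_le_pow_left₀ hxs.le h3 4)
      have h5 : (1 / ‖x s‖ ^ 4) * ‖w u‖ = ‖w u‖ / ‖x s‖ ^ 4 := by ring
      rw [h5]
      exact h4
    rw [intervalIntegral.integral_const_mul] at h2
    have h3 := out_w_int K h0 hs hv.1 (hv.2.trans ht) hv1
    have h4 : (1 / ‖x s‖ ^ 4) * (∫ u in s..v, ‖w u‖) ≤ (1 / ‖x s‖ ^ 4) * (10 * ‖x s‖) :=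
      mul_le_mul_of_nonneg_left h3 (by positivity)
    have h5 : (1 / ‖x s‖ ^ 4) * (10 * ‖x s‖) = 10 / ‖x s‖ ^ 3 := by
      field_simp
    linarith
  have h2 : ∫ u in v..t, ‖w u‖ / ‖x u‖ ^ 4 ≤ (16 / 3) / ‖x s‖ ^ 3 := by
    have hvm : v ∈ Icc α β := hsub hv
    have hd : ∀ u ∈ Icc v t, HasDerivAt (fun u => -(16 / 3) * (‖x u‖ ^ 3)⁻¹)
        (16 * (⟪x u, w u⟫ / ‖x u‖) / ‖x u‖ ^ 4) u := by
      intro u hu
      have hum : u ∈ Icc α β := hsub ⟨hv.1.trans hu.1, hu.2⟩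
      have hxu := K.x0 u hum
      have h3 : HasDerivAt (fun u => ‖x u‖ ^ 3) (3 * ‖x u‖ ^ 2 * (⟪x u, w u⟫ / ‖x u‖)) u := by
        have h4 := (kc_xn K hum).fun_pow 3
        norm_num at h4
        exact h4
      have h4 : HasDerivAt (fun u => (‖x u‖ ^ 3)⁻¹)
          (-(3 * ‖x u‖ ^ 2 * (⟪x u, w u⟫ / ‖x u‖)) / (‖x u‖ ^ 3) ^ 2) u :=
        h3.fun_inv (by positivity)
      refine (h4.const_mul (-(16 / 3))).congr_deriv ?_
      field_simp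
    have h3 := kc_ftc_ge hv.2 hd hc2 (by
      intro u hu
      have hum : u ∈ Icc s t := ⟨hv.1.trans hu.1.le, hu.2.le⟩
      have hxu := K.x0 u (hsub hum)
      have h4 := kc_rad K h0 hs hum.1 (hum.2.trans ht) (hv2 u hu)
      refine (div_le_div_iff_of_pos_right (by positivity)).2 ?_
      rw [← mul_div_assoc, le_div_iff₀ hxu]
      exact h4)
    refine h3.trans ?_
    have hxt := K.x0 t (hsub ⟨hst, le_rfl⟩)
    have hxv := K.x0 v hvm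
    have h4 : 0 ≤ (16 / 3) * (‖x t‖ ^ 3)⁻¹ := by positivity
    have h5 : (‖x v‖ ^ 3)⁻¹ ≤ (‖x s‖ ^ 3)⁻¹ :=
      inv_anti₀ (by positivity) (pow_le_pow_left₀ hxs.le (out_mono K h0 hsm hvm hv.1) 3)
    have h6 : (16 / 3) / ‖x s‖ ^ 3 = (16 / 3) * (‖x s‖ ^ 3)⁻¹ := by rw [div_eq_mul_inv]
    rw [h6]
    linarith
  rw [← intervalIntegral.integral_add_adjacent_intervals (kc_int hv.1 hc1) (kc_int hv.2 hc2)]
  have h3 : (20 : ℝ) / ‖x s‖ ^ 3 = 10 / ‖x s‖ ^ 3 + (16 / 3) / ‖x s‖ ^ 3 +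
      (14 / 3) / ‖x s‖ ^ 3 := by ring
  have h4 : 0 ≤ (14 / 3) / ‖x s‖ ^ 3 := by positivity
  linarith

theorem out_intwx (K : Kep G ρ1 A B α β x w p) (h0 : 0 ≤ ⟪x α, w α⟫) {s t : ℝ}
    (hs : α ≤ s) (hst : s ≤ t) (ht : t ≤ β) :
    ∫ u in s..t, ‖w u‖ * ‖x u‖ ≤ 200 * ρ1 ^ 2 := by
  have hsub := kc_sub hs ht
  have hsm : s ∈ Icc α β := ⟨hs, hst.trans ht⟩
  have hxs := K.x0 s hsm
  have hρ := K.hρ
  obtain ⟨v, hv, hv1, hv2⟩ := kc_split K h0 hs hst ht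
  have hcont : ContinuousOn (fun u => ‖w u‖ * ‖x u‖) (Icc s t) :=
    ((kc_w_cont K).mono hsub).norm.mul ((kc_x_cont K).mono hsub).norm
  have hc1 : ContinuousOn (fun u => ‖w u‖ * ‖x u‖) (Icc s v) :=
    hcont.mono (Icc_subset_Icc le_rfl hv.2)
  have hc2 : ContinuousOn (fun u => ‖w u‖ * ‖x u‖) (Icc v t) :=
    hcont.mono (Icc_subset_Icc hv.1 le_rfl)
  have h1 : ∫ u in s..v, ‖w u‖ * ‖x u‖ ≤ 40 * ρ1 ^ 2 := by
    have h2 : ∫ u in s..v, ‖w u‖ * ‖x u‖ ≤ ∫ u in s..v, (2 * ρ1) * ‖w u‖ := by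
      refine intervalIntegral.integral_mono_on hv.1 (kc_int hv.1 hc1)
        ((kc_wint K hs hv.1 (hv.2.trans ht)).const_mul _) ?_
      intro u hu
      have h3 := K.x1 u (hsub ⟨hu.1, hu.2.trans hv.2⟩)
      rw [mul_comm]
      exact mul_le_mul_of_nonneg_right h3 (norm_nonneg _)
    rw [intervalIntegral.integral_const_mul] at h2
    have h3 := out_w_int K h0 hs hv.1 (hv.2.trans ht) hv1
    have h4 := K.x1 s hsm
    have h5 : (2 * ρ1) * (∫ u in s..v, ‖w u‖) ≤ (2 * ρ1) * (10 * (2 * ρ1)) := by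
      refine mul_le_mul_of_nonneg_left ?_ (by positivity)
      linarith
    nlinarith
  have h2 : ∫ u in v..t, ‖w u‖ * ‖x u‖ ≤ 32 * ρ1 ^ 2 := by
    have h3 := kc_ftc_ge (g := fun u => 8 * ‖x u‖ ^ 2) (g' := fun u => 8 * (2 * ⟪x u, w u⟫)) hv.2
      (fun u hu => (kep_y K (hsub ⟨hv.1.trans hu.1, hu.2⟩)).const_mul 8) hc2 (by
      intro u hu
      have hum : u ∈ Icc s t := ⟨hv.1.trans hu.1.le, hu.2.le⟩
      have h4 := kc_rad K h0 hs hum.1 (hum.2.trans ht) (hv2 u hu)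
      linarith)
    refine h3.trans ?_
    have h4 := K.x1 t (hsub ⟨hst, le_rfl⟩)
    have h5 : ‖x t‖ ^ 2 ≤ (2 * ρ1) ^ 2 := pow_le_pow_left₀ (norm_nonneg _) h4 2
    have h6 : 0 ≤ 8 * ‖x v‖ ^ 2 := by positivity
    nlinarith
  rw [← intervalIntegral.integral_add_adjacent_intervals (kc_int hv.1 hc1) (kc_int hv.2 hc2)]
  nlinarith [sq_nonneg ρ1]

theorem out_energy (K : Kep G ρ1 A B α β x w p) (h0 : 0 ≤ ⟪x α, w α⟫) {s t : ℝ}
    (hs : α ≤ s) (hst : s ≤ t) (ht : t ≤ β) :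
    |(‖w t‖ ^ 2 / 2 - G / ‖x t‖) - (‖w s‖ ^ 2 / 2 - G / ‖x s‖)| ≤ G / (100 * ‖x s‖) := by
  have hsub := kc_sub hs ht
  have hsm : s ∈ Icc α β := ⟨hs, hst.trans ht⟩
  have hxs := K.x0 s hsm
  have hρ := K.hρ
  have hG := K.hG
  -- the derivative
  have hd : ∀ u ∈ Icc s t, HasDerivAt (fun u => ‖w u‖ ^ 2 / 2 - G / ‖x u‖) ⟪w u, p u⟫ u := by
    intro u hu
    have hum := hsub hu
    have hxu := K.x0 u hum
    have h1 := ((K.hw u hum).norm_sq).div_const 2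
    have h2 := (kc_xn K hum).inv hxu.ne'
    have h3 := h1.sub (h2.const_mul G)
    have h4 : (fun u => ‖w u‖ ^ 2 / 2 - G / ‖x u‖) = fun u => ‖w u‖ ^ 2 / 2 - G * (‖x u‖)⁻¹ := by
      funext u
      rw [div_eq_mul_inv G]
    rw [h4]
    refine h3.congr_deriv ?_
    rw [inner_add_right, inner_neg_right, real_inner_smul_right, kc_grav]
    field_simp
    ring
  have hwp : ∀ u ∈ Icc s t, |⟪w u, p u⟫| ≤ ‖w u‖ * ‖p u‖ := fun u _ => abs_real_inner_le_norm _ _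
  have hc : ContinuousOn (fun u => ‖w u‖ * ‖p u‖) (Icc s t) :=
    ((kc_w_cont K).mono hsub).norm.mul (K.hp.mono hsub).norm
  have h1 := kc_ftc_le hst hd hc fun u hu =>
    (le_abs_self _).trans (hwp u (Ioo_subset_Icc_self hu))
  have h2 := kc_ftc_ge (φ := fun u => -(‖w u‖ * ‖p u‖)) hst hd hc.neg fun u hu =>
    (neg_le_neg (hwp u (Ioo_subset_Icc_self hu))).trans (neg_abs_le _)
  rw [intervalIntegral.integral_neg] at h2
  have h3 : ∫ u in s..t, ‖w u‖ * ‖p u‖ ≤ G / (100 * ‖x s‖) := by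
    have hcw4 : ContinuousOn (fun u => ‖w u‖ / ‖x u‖ ^ 4) (Icc s t) := by
      refine ContinuousOn.div ((kc_w_cont K).mono hsub).norm
        (((kc_x_cont K).mono hsub).norm.pow 4) ?_
      intro u hu
      have := K.x0 u (hsub hu)
      positivity
    have hcwx : ContinuousOn (fun u => ‖w u‖ * ‖x u‖) (Icc s t) :=
      ((kc_w_cont K).mono hsub).norm.mul ((kc_x_cont K).mono hsub).norm
    have h4 : ∫ u in s..t, ‖w u‖ * ‖p u‖ ≤
        ∫ u in s..t, (A * (‖w u‖ / ‖x u‖ ^ 4) + B * (‖w u‖ * ‖x u‖)) := by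
      refine intervalIntegral.integral_mono_on hst (kc_int hst hc)
        (((kc_int hst hcw4).const_mul A).add ((kc_int hst hcwx).const_mul B)) ?_
      intro u hu
      have h5 := mul_le_mul_of_nonneg_left (K.pb u (hsub hu)) (norm_nonneg (w u))
      refine h5.trans (le_of_eq ?_)
      ring
    rw [intervalIntegral.integral_add ((kc_int hst hcw4).const_mul A)
      ((kc_int hst hcwx).const_mul B), intervalIntegral.integral_const_mul,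
      intervalIntegral.integral_const_mul] at h4
    have h5 : A * (∫ u in s..t, ‖w u‖ / ‖x u‖ ^ 4) ≤
        (G * ‖x s‖ ^ 2 / 10 ^ 6) * (20 / ‖x s‖ ^ 3) := by
      refine mul_le_mul (K.A_le s hsm) (out_intw4 K h0 hs hst ht) ?_ (by positivity)
      exact intervalIntegral.integral_nonneg hst fun u _ => by positivity
    have h6 : (G * ‖x s‖ ^ 2 / 10 ^ 6) * (20 / ‖x s‖ ^ 3) = (20 / 10 ^ 6) * (G / ‖x s‖) := by
      field_simp
    have h7 : B * (∫ u in s..t, ‖w u‖ * ‖x u‖) ≤ B * (200 * ρ1 ^ 2) :=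
      mul_le_mul_of_nonneg_left (out_intwx K h0 hs hst ht) K.hB
    have h8 : B * (200 * ρ1 ^ 2) ≤ (400 / 10 ^ 6) * (G / ‖x s‖) := by
      have h9 := K.B_le
      have h10 := K.x1 s hsm
      have h11 : (400 / 10 ^ 6) * (G / ‖x s‖) = (400 / 10 ^ 6) * G / ‖x s‖ := by ring
      rw [h11, le_div_iff₀ hxs]
      have h12 : 0 ≤ B * (200 * ρ1 ^ 2) := mul_nonneg K.hB (by positivity)
      have h13 : B * (200 * ρ1 ^ 2) * ‖x s‖ ≤ B * (200 * ρ1 ^ 2) * (2 * ρ1) :=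
        mul_le_mul_of_nonneg_left h10 h12
      nlinarith
    have h9 : G / (100 * ‖x s‖) = (1 / 100) * (G / ‖x s‖) := by
      field_simp
    have h10 : 0 < G / ‖x s‖ := div_pos hG hxs
    rw [h9]
    linarith
  rw [abs_le]
  constructor
  · linarith
  · linarith

end NB5
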