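import Mathlib
import Pool.Agent.NB5.KepDef
import Pool.Agent.NB5.KepC
import Pool.Agent.NB5.JwL

/-!
# The flyby lemma (project NB5, module NB5-KepM)

Let `tp` be a minimum of `‖x‖` on `[α, β]` (compactness), `ρp = ‖x tp‖`. On `[tp, β]`
`⟪x, w⟫ ≥ 0` (at `tp`: interior minimum `⟪x,w⟫ = 0`, or `tp = α` and one-sided derivative `≥ 0`;
if `tp = β` nothing to do), so the lemmas `out_*` apply to `K.mono`; on `[α, tp]` apply them to
`K.rev` (`jw x (-w) = jw x w`). (i) add the two halves of `out_intw4`; (ii) `out_energy` from `tp` to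
both sides and `|G/‖x t‖ - G/‖x s‖| ≤ G/ρp`; (iii) `jw_along` with `c = -G/‖x‖^3`, `‖x‖ ‖p‖ ≤
A/‖x‖^3 + B ‖x‖^2`, `out_int3` on both halves, `kep_time`.
-/

open MeasureTheory Set Filter Topology Metric
open scoped NNReal ENNReal RealInnerProductSpace

namespace NB5

open HDN

variable {d : ℕ} {G ρ1 A B α β : ℝ} {x w p : ℝ → Sp d}

private lemma kepm_xc (K : Kep G ρ1 A B α β x w p) : ContinuousOn x (Icc α β) :=
  fun s hs => (K.hx s hs).continuousAt.continuousWithinAt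

private lemma kepm_wc (K : Kep G ρ1 A B α β x w p) : ContinuousOn w (Icc α β) :=
  fun s hs => (K.hw s hs).continuousAt.continuousWithinAt

/-- one sided derivative at a minimum -/
private lemma kepm_inner (K : Kep G ρ1 A B α β x w p) (hlt : α < β)
    (hmin : ∀ t ∈ Icc α β, ‖x α‖ ≤ ‖x t‖) : 0 ≤ ⟪x α, w α⟫ := by
  have hd := (kep_y K (left_mem_Icc.2 K.hαβ)).hasDerivWithinAt (s := Ioi α)
  rw [hasDerivWithinAt_iff_tendsto_slope' self_notMem_Ioi] at hd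
  have h : 0 ≤ 2 * ⟪x α, w α⟫ := by
    refine ge_of_tendsto hd ?_
    filter_upwards [Ioc_mem_nhdsGT hlt] with t ht
    rw [slope_def_field]
    have h1 : ‖x α‖ ^ 2 ≤ ‖x t‖ ^ 2 :=
      pow_le_pow_left₀ (norm_nonneg _) (hmin t ⟨ht.1.le, ht.2⟩) 2
    exact div_nonneg (by linarith) (by linarith [ht.1])
  linarith

private lemma kepm_w4 (K : Kep G ρ1 A B α β x w p)
    (hmin : ∀ t ∈ Icc α β, ‖x α‖ ≤ ‖x t‖) :
    ∫ u in α..β, ‖w u‖ / ‖x u‖ ^ 4 ≤ 20 / ‖x α‖ ^ 3 := by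
  rcases K.hαβ.lt_or_eq with hlt | rfl
  · exact out_intw4 K (kepm_inner K hlt hmin) le_rfl hlt.le le_rfl
  · rw [intervalIntegral.integral_same]
    positivity

private lemma kepm_i3 (K : Kep G ρ1 A B α β x w p)
    (hmin : ∀ t ∈ Icc α β, ‖x α‖ ≤ ‖x t‖) :
    ∫ u in α..β, 1 / ‖x u‖ ^ 3 ≤ 20 / (‖x α‖ * √‖x α‖ * √G) := by
  rcases K.hαβ.lt_or_eq with hlt | rfl
  · exact out_int3 K (kepm_inner K hlt hmin) le_rfl hlt.le le_rfl
  · rw [intervalIntegral.integral_same]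
    positivity

private lemma kepm_en (K : Kep G ρ1 A B α β x w p)
    (hmin : ∀ t ∈ Icc α β, ‖x α‖ ≤ ‖x t‖) {t : ℝ} (ht : t ∈ Icc α β) :
    |(‖w t‖ ^ 2 / 2 - G / ‖x t‖) - (‖w α‖ ^ 2 / 2 - G / ‖x α‖)| ≤ G / (100 * ‖x α‖) := by
  rcases K.hαβ.lt_or_eq with hlt | h
  · exact out_energy K (kepm_inner K hlt hmin) le_rfl ht.1 ht.2
  · have : t = α := le_antisymm (h ▸ ht.2) ht.1
    subst this
    rw [sub_self, abs_zero]
    have := K.hG
    positivity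

/-- the pericentre and both halves -/
private lemma kepm_peri (K : Kep G ρ1 A B α β x w p) :
    ∃ tp ∈ Icc α β, (∀ t ∈ Icc α β, ‖x tp‖ ≤ ‖x t‖) ∧
      Kep G ρ1 A B tp β x w p ∧
      Kep G ρ1 A B (-tp) (-α) (fun t => x (-t)) (fun t => -w (-t)) (fun t => p (-t)) := by
  obtain ⟨tp, htp, hmin⟩ := isCompact_Icc.exists_isMinOn
    (nonempty_Icc.2 K.hαβ) (kepm_xc K).norm
  refine ⟨tp, htp, fun t ht => hmin ht, K.mono htp.1 htp.2 le_rfl, ?_⟩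
  exact (K.mono le_rfl htp.1 htp.2).rev

private lemma kepm_int_w4 (K : Kep G ρ1 A B α β x w p) {s t : ℝ} (hs : s ∈ Icc α β)
    (ht : t ∈ Icc α β) :
    IntervalIntegrable (fun u => ‖w u‖ / ‖x u‖ ^ 4) volume s t := by
  refine ContinuousOn.intervalIntegrable ?_
  have hsub : uIcc s t ⊆ Icc α β := by
    intro u hu
    rw [mem_uIcc] at hu
    rcases hu with hu | hu
    · exact ⟨hs.1.trans hu.1, hu.2.trans ht.2⟩
    · exact ⟨ht.1.trans hu.1, hu.2.trans hs.2⟩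
  refine ContinuousOn.mono ?_ hsub
  refine (kepm_wc K).norm.div ((kepm_xc K).norm.pow 4) ?_
  intro u hu
  have := K.x0 u hu
  positivity

private lemma kepm_int_3 (K : Kep G ρ1 A B α β x w p) {s t : ℝ} (hs : s ∈ Icc α β)
    (ht : t ∈ Icc α β) :
    IntervalIntegrable (fun u => 1 / ‖x u‖ ^ 3) volume s t := by
  refine ContinuousOn.intervalIntegrable ?_
  have hsub : uIcc s t ⊆ Icc α β := by
    intro u hu
    rw [mem_uIcc] at hu
    rcases hu with hu | hu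
    · exact ⟨hs.1.trans hu.1, hu.2.trans ht.2⟩
    · exact ⟨ht.1.trans hu.1, hu.2.trans hs.2⟩
  refine ContinuousOn.mono ?_ hsub
  refine continuousOn_const.div ((kepm_xc K).norm.pow 3) ?_
  intro u hu
  have := K.x0 u hu
  positivity

theorem fb_int (K : Kep G ρ1 A B α β x w p) {ρp : ℝ} (h0 : 0 < ρp)
    (h1 : ∀ t ∈ Icc α β, ρp ≤ ‖x t‖) :
    ∫ u in α..β, ‖w u‖ / ‖x u‖ ^ 4 ≤ 40 / ρp ^ 3 := by
  obtain ⟨tp, htp, hmin, K1, K2⟩ := kepm_peri K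
  have e1 := kepm_w4 K1 (fun t ht => hmin t ⟨htp.1.trans ht.1, ht.2⟩)
  have e2 := kepm_w4 K2 (fun t ht => by
    rw [neg_neg]
    exact hmin (-t) ⟨by linarith [ht.2], by linarith [ht.1, htp.2]⟩)
  have e3 : ∫ u in (-tp)..(-α), ‖-w (-u)‖ / ‖x (-u)‖ ^ 4 = ∫ u in α..tp, ‖w u‖ / ‖x u‖ ^ 4 := by
    have := intervalIntegral.integral_comp_neg (a := -tp) (b := -α)
      (fun u => ‖w u‖ / ‖x u‖ ^ 4)
    simp only [neg_neg] at this
    simp only [norm_neg]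
    exact this
  simp only [neg_neg] at e2
  rw [e3] at e2
  have e4 := intervalIntegral.integral_add_adjacent_intervals
    (kepm_int_w4 K (left_mem_Icc.2 K.hαβ) htp) (kepm_int_w4 K htp (right_mem_Icc.2 K.hαβ))
  rw [← e4]
  have h2 : ρp ^ 3 ≤ ‖x tp‖ ^ 3 := pow_le_pow_left₀ h0.le (h1 tp htp) 3
  have h3 : 20 / ‖x tp‖ ^ 3 ≤ 20 / ρp ^ 3 :=
    div_le_div_of_nonneg_left (by norm_num) (by positivity) h2
  have h4 : 40 / ρp ^ 3 = 20 / ρp ^ 3 + 20 / ρp ^ 3 := by ring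
  rw [h4]
  linarith

private lemma kepm_i3_tot (K : Kep G ρ1 A B α β x w p) {ρp : ℝ} (h0 : 0 < ρp)
    (h1 : ∀ t ∈ Icc α β, ρp ≤ ‖x t‖) :
    ∫ u in α..β, 1 / ‖x u‖ ^ 3 ≤ 40 / (ρp * √ρp * √G) := by
  obtain ⟨tp, htp, hmin, K1, K2⟩ := kepm_peri K
  have e1 := kepm_i3 K1 (fun t ht => hmin t ⟨htp.1.trans ht.1, ht.2⟩)
  have e2 := kepm_i3 K2 (fun t ht => by
    rw [neg_neg]
    exact hmin (-t) ⟨by linarith [ht.2], by linarith [ht.1, htp.2]⟩)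
  have e3 : ∫ u in (-tp)..(-α), 1 / ‖x (-u)‖ ^ 3 = ∫ u in α..tp, 1 / ‖x u‖ ^ 3 := by
    have := intervalIntegral.integral_comp_neg (a := -tp) (b := -α)
      (fun u => 1 / ‖x u‖ ^ 3)
    simp only [neg_neg] at this
    exact this
  simp only [neg_neg] at e2
  rw [e3] at e2
  have e4 := intervalIntegral.integral_add_adjacent_intervals
    (kepm_int_3 K (left_mem_Icc.2 K.hαβ) htp) (kepm_int_3 K htp (right_mem_Icc.2 K.hαβ))
  rw [← e4]
  have hG := K.hG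
  have h2 : ρp * √ρp * √G ≤ ‖x tp‖ * √‖x tp‖ * √G := by
    refine mul_le_mul_of_nonneg_right ?_ (Real.sqrt_nonneg _)
    exact mul_le_mul (h1 tp htp) (Real.sqrt_le_sqrt (h1 tp htp)) (Real.sqrt_nonneg _)
      (norm_nonneg _)
  have h3 : 20 / (‖x tp‖ * √‖x tp‖ * √G) ≤ 20 / (ρp * √ρp * √G) :=
    div_le_div_of_nonneg_left (by norm_num) (by positivity) h2
  have h4 : 40 / (ρp * √ρp * √G) = 20 / (ρp * √ρp * √G) + 20 / (ρp * √ρp * √G) := by ring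
  rw [h4]
  linarith

private lemma kepm_en_tot (K : Kep G ρ1 A B α β x w p) {ρp : ℝ} (h0 : 0 < ρp)
    (h1 : ∀ t ∈ Icc α β, ρp ≤ ‖x t‖) {s t : ℝ} (hs : s ∈ Icc α β) (ht : t ∈ Icc α β) :
    (‖w t‖ ^ 2 / 2 - G / ‖x t‖) - (‖w s‖ ^ 2 / 2 - G / ‖x s‖) ≤ G / ρp := by
  obtain ⟨tp, htp, hmin, K1, K2⟩ := kepm_peri K
  have hG := K.hG
  have h2 : G / (100 * ‖x tp‖) ≤ G / (2 * ρp) :=
    div_le_div_of_nonneg_left hG.le (by positivity) (by linarith [h1 tp htp])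
  have key : ∀ r ∈ Icc α β,
      |(‖w r‖ ^ 2 / 2 - G / ‖x r‖) - (‖w tp‖ ^ 2 / 2 - G / ‖x tp‖)| ≤ G / (2 * ρp) := by
    intro r hr
    refine le_trans ?_ h2
    rcases le_total tp r with h | h
    · exact kepm_en K1 (fun t ht => hmin t ⟨htp.1.trans ht.1, ht.2⟩) ⟨h, hr.2⟩
    · have := kepm_en K2 (fun t ht => by
        rw [neg_neg]
        exact hmin (-t) ⟨by linarith [ht.2], by linarith [ht.1, htp.2]⟩)
        (t := -r) ⟨by linarith, by linarith [hr.1]⟩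
      simpa only [neg_neg, norm_neg] using this
  have a1 := abs_le.1 (key t ht)
  have a2 := abs_le.1 (key s hs)
  have h4 : G / ρp = G / (2 * ρp) + G / (2 * ρp) := by
    field_simp
    ring
  rw [h4]
  linarith [a1.2, a2.1]

theorem fb_speed (K : Kep G ρ1 A B α β x w p) {ρp : ℝ} (h0 : 0 < ρp)
    (h1 : ∀ t ∈ Icc α β, ρp ≤ ‖x t‖) {s t : ℝ} (hs : s ∈ Icc α β) (ht : t ∈ Icc α β) :
    ‖w t‖ ^ 2 ≤ ‖w s‖ ^ 2 + 4 * (G / ρp) := by
  have hG := K.hG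
  have e := kepm_en_tot K h0 h1 hs ht
  have h2 : G / ‖x t‖ ≤ G / ρp := div_le_div_of_nonneg_left hG.le h0 (h1 t ht)
  have h3 : 0 ≤ G / ‖x s‖ := by positivity
  linarith

private lemma kepm_jw_le (K : Kep G ρ1 A B α β x w p) {ρp : ℝ} (h0 : 0 < ρp)
    (h1 : ∀ t ∈ Icc α β, ρp ≤ ‖x t‖) {s t : ℝ} (hs : s ∈ Icc α β) (ht : t ∈ Icc α β)
    (hst : s ≤ t) :
    |jw (x t) (w t) - jw (x s) (w s)| ≤
      10 ^ 3 * (A / (ρp * √ρp) + B * ρ1 ^ 3 * √ρ1) / √G := by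
  have hG := K.hG
  have hρ := K.hρ
  have hA := K.hA
  have hB := K.hB
  have K3 : Kep G ρ1 A B s t x w p := K.mono hs.1 hst ht.2
  have hsub : Icc s t ⊆ Icc α β := Icc_subset_Icc hs.1 ht.2
  have j1 := jw_along (x := x) (w := w) (c := fun u => -(G * (‖x u‖ ^ 3)⁻¹)) (p := p)
    (B := fun u => A * (1 / ‖x u‖ ^ 3) + B * (4 * ρ1 ^ 2)) hst K3.hx ?_ ?_ ?_
  · refine j1.trans ?_
    have i3 := kepm_int_3 K3 (left_mem_Icc.2 hst) (right_mem_Icc.2 hst)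
    rw [intervalIntegral.integral_add (i3.const_mul A) intervalIntegrable_const,
      intervalIntegral.integral_const_mul, intervalIntegral.integral_const, smul_eq_mul]
    have t3 := kepm_i3_tot K3 h0 (fun u hu => h1 u (hsub hu))
    have tt := kep_time K3
    -- length
    have len : t - s ≤ 10 * (ρ1 * √ρ1) / √G := by
      have hsq : ((t - s) * √G) ^ 2 ≤ (10 * (ρ1 * √ρ1)) ^ 2 := by
        rw [mul_pow, mul_pow, mul_pow, Real.sq_sqrt hG.le, Real.sq_sqrt hρ.le]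
        calc (t - s) ^ 2 * G ≤ 100 * ρ1 ^ 3 := tt
          _ = _ := by ring
      have h5 : (t - s) * √G ≤ 10 * (ρ1 * √ρ1) :=
        (pow_le_pow_iff_left₀ (mul_nonneg (by linarith) (Real.sqrt_nonneg _)) (by positivity)
          two_ne_zero).1 hsq
      rw [le_div_iff₀ (by positivity)]
      exact h5
    have q1 : A * ∫ u in s..t, 1 / ‖x u‖ ^ 3 ≤ A * (40 / (ρp * √ρp * √G)) :=
      mul_le_mul_of_nonneg_left t3 hA
    have q2 : (t - s) * (B * (4 * ρ1 ^ 2)) ≤ (10 * (ρ1 * √ρ1) / √G) * (B * (4 * ρ1 ^ 2)) :=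
      mul_le_mul_of_nonneg_right len (by positivity)
    have q3 : A * (40 / (ρp * √ρp * √G)) = 40 * (A / (ρp * √ρp)) / √G := by
      field_simp
    have q4 : (10 * (ρ1 * √ρ1) / √G) * (B * (4 * ρ1 ^ 2)) = 40 * (B * ρ1 ^ 3 * √ρ1) / √G := by
      ring
    have q5 : 40 * (A / (ρp * √ρp)) / √G + 40 * (B * ρ1 ^ 3 * √ρ1) / √G ≤
        10 ^ 3 * (A / (ρp * √ρp) + B * ρ1 ^ 3 * √ρ1) / √G := by
      rw [← add_div]
      refine div_le_div_of_nonneg_right ?_ (Real.sqrt_nonneg _)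
      have r1 : 0 ≤ A / (ρp * √ρp) := by positivity
      have r2 : 0 ≤ B * ρ1 ^ 3 * √ρ1 := by positivity
      linarith
    linarith
  · intro u hu
    have h := K3.hw u hu
    have e : -(G * (‖x u‖ ^ 3)⁻¹) • x u + p u = -(G • grav (x u)) + p u := by
      rw [neg_smul, mul_smul]
      rfl
    simp only
    rw [e]
    exact h
  · refine ContinuousOn.add (ContinuousOn.mul continuousOn_const ?_) continuousOn_const
    refine continuousOn_const.div ((kepm_xc K3).norm.pow 3) ?_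
    intro u hu
    have := K3.x0 u hu
    positivity
  · intro u hu
    have hx0 := K3.x0 u hu
    have hx1 := K3.x1 u hu
    have hb := K3.pb u hu
    have r1 : ‖x u‖ * ‖p u‖ ≤ ‖x u‖ * (A / ‖x u‖ ^ 4 + B * ‖x u‖) :=
      mul_le_mul_of_nonneg_left hb hx0.le
    have r2 : ‖x u‖ * (A / ‖x u‖ ^ 4 + B * ‖x u‖) = A * (1 / ‖x u‖ ^ 3) + B * ‖x u‖ ^ 2 := by
      field_simp
    have r3 : ‖x u‖ ^ 2 ≤ 4 * ρ1 ^ 2 := by
      have := pow_le_pow_left₀ hx0.le hx1 2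
      calc _ ≤ _ := this
        _ = _ := by ring
    have r4 : B * ‖x u‖ ^ 2 ≤ B * (4 * ρ1 ^ 2) := mul_le_mul_of_nonneg_left r3 hB
    linarith

theorem fb_jw (K : Kep G ρ1 A B α β x w p) {ρp : ℝ} (h0 : 0 < ρp)
    (h1 : ∀ t ∈ Icc α β, ρp ≤ ‖x t‖) {s t : ℝ} (hs : s ∈ Icc α β) (ht : t ∈ Icc α β) :
    |jw (x t) (w t) - jw (x s) (w s)| ≤
      10 ^ 3 * (A / (ρp * √ρp) + B * ρ1 ^ 3 * √ρ1) / √G := by
  rcases le_total s t with h | h
  · exact kepm_jw_le K h0 h1 hs ht h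
  · rw [abs_sub_comm]
    exact kepm_jw_le K h0 h1 ht hs h

end NB5
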