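import Mathlib
import Pool.Agent.NB5.Defs
import Pool.Agent.NB5.KepM
import Pool.Agent.NB5.ExF
import Pool.Agent.NB5.FrC
import Pool.Agent.NB5.P5L

/-!
# The Kepler structure of an excursion (project NB5, module NB5-KepE) and the weight collected by an
exit (module NB5-Shl)

`Exc`: on `[α, β]` the states are in `S1`, the body 2 is within `2/b^96` of the pair and `hh ≥ -L1`.
`kep_exc`: fields of `Kep` from `hasDerivAt_x2`, `hasDerivAt_w2`, `ex_facts`, `ex_en`; `pQ m (γ t).1` is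
continuous in `t` (positions are pairwise different, `2` is away from the centre of mass).
-/

open MeasureTheory Set Filter Topology Metric
open scoped NNReal ENNReal RealInnerProductSpace

namespace NB5

open HDN

variable {d : ℕ}

/-- relative position and velocity of the body 2 -/
noncomputable def x2 (m : Fin 5 → ℝ) (γ : ℝ → St d) (t : ℝ) : Sp d := (γ t).1 2 - cm m 0 1 (γ t).1

/-- relative velocity of the body 2 -/
noncomputable def w2 (m : Fin 5 → ℝ) (γ : ℝ → St d) (t : ℝ) : Sp d := (γ t).2 2 - cm m 0 1 (γ t).2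

/-- excursion of the body 2 into the ball of radius `2/b^96` around the hard pair -/
structure Exc (P : Par) (b : ℝ) (m : Fin 5 → ℝ) (γ : ℝ → St d) (α β : ℝ) : Prop where
  hαβ : α ≤ β
  sol : SolOn (nfield m) (FreeSet 5 d) γ (Icc α β)
  inv : ∀ t ∈ Icc α β, γ t ∈ Inv m P.R
  s1 : ∀ t ∈ Icc α β, S1 P b m (γ t)
  near : ∀ t ∈ Icc α β, ‖x2 m γ t‖ ≤ 2 / b ^ 96
  hh_ge : ∀ t ∈ Icc α β, -P.L1 b ≤ hh m 2 (γ t)

private theorem cont_acc (m : Fin 5 → ℝ) {γ : ℝ → St d} {s : Set ℝ}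
    (hc : ContinuousOn (fun t => (γ t).1) s) (hf : ∀ t ∈ s, Free (γ t).1) (a : Fin 5) :
    ContinuousOn (fun t => acc m (γ t).1 a) s := by
  have hq : ∀ i : Fin 5, ContinuousOn (fun t => (γ t).1 i) s := fun i =>
    (continuous_apply i).comp_continuousOn hc
  unfold acc
  refine continuousOn_finset_sum _ fun b hb => ?_
  have hba : b ≠ a := Finset.ne_of_mem_erase hb
  have h1 : ContinuousOn (fun t => (γ t).1 b - (γ t).1 a) s := (hq b).sub (hq a)
  refine ContinuousOn.smul (continuousOn_const.div (h1.norm.pow 3) fun t ht => ?_) h1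
  exact pow_ne_zero _ (norm_ne_zero_iff.2 (sub_ne_zero.2 (hf t ht b a hba)))

private theorem cont_cm (m : Fin 5 → ℝ) {f : ℝ → Cf 5 d} {s : Set ℝ}
    (h0 : ContinuousOn (fun t => f t 0) s) (h1 : ContinuousOn (fun t => f t 1) s) :
    ContinuousOn (fun t => cm m 0 1 (f t)) s := by
  unfold cm
  have h2 : ContinuousOn (fun t => m 0 • f t 0) s := h0.const_smul (m 0)
  have h3 : ContinuousOn (fun t => m 1 • f t 1) s := h1.const_smul (m 1)
  have h4 : ContinuousOn (fun t => m 0 • f t 0 + m 1 • f t 1) s := h2.add h3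
  exact h4.const_smul (m 0 + m 1)⁻¹

private theorem cont_grav {f : ℝ → Sp d} {s : Set ℝ} (hf : ContinuousOn f s)
    (h0 : ∀ t ∈ s, 0 < ‖f t‖) : ContinuousOn (fun t => grav (f t)) s := by
  unfold grav
  exact ContinuousOn.smul ((hf.norm.pow 3).inv₀ fun t ht => pow_ne_zero _ (h0 t ht).ne') hf

theorem kep_exc (P : Par) : ∃ b0 : ℝ, 1 ≤ b0 ∧ ∀ b ≥ b0, ∀ m : Fin 5 → ℝ, Mb P.M m →
    ∀ (γ : ℝ → St d) (α β : ℝ), Exc P b m γ α β →
    Kep (m 0 + m 1 + m 2) (1 / b ^ 96) (10 ^ 6 * P.M ^ 5 / b ^ 400) (10 ^ 6 * P.M * b ^ 231) α β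
      (x2 m γ) (w2 m γ) (fun t => pQ m (γ t).1) := by
  obtain ⟨b1, hb1, H1⟩ := ex_facts (d := d) P
  obtain ⟨b2, hb2, H2⟩ := ex_en (d := d) P
  refine ⟨max b1 b2, le_max_of_le_left hb1, fun b hb m hm γ α β X => ?_⟩
  have hbb1 : b1 ≤ b := le_trans (le_max_left _ _) hb
  have hbb2 : b2 ≤ b := le_trans (le_max_right _ _) hb
  have hb0 : 0 < b := lt_of_lt_of_le one_pos (le_trans hb1 hbb1)
  have hM0 : 0 < P.M := lt_of_lt_of_le one_pos P.hM
  have hmpos : ∀ i, 0 < m i := fun i => lt_of_lt_of_le (by positivity) (hm.2 i).1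
  have hG : 0 < m 0 + m 1 + m 2 := by
    have h0 := hmpos 0
    have h1 := hmpos 1
    have h2 := hmpos 2
    linarith
  have hZ : 0 < P.Zp := lt_of_lt_of_le (by positivity) P.hZ
  have hx0 : ∀ t ∈ Icc α β, 0 < ‖(γ t).1 2 - cm m 0 1 (γ t).1‖ := fun t ht =>
    lt_of_lt_of_le (by positivity) ((X.s1 t ht).x_ge 2 le_rfl)
  have hγc : ContinuousOn (fun t => (γ t).1) (Icc α β) := by
    have h1 : ContinuousOn γ (Icc α β) := fun t ht =>
      ((X.sol t ht).2.continuousAt).continuousWithinAt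
    exact continuous_fst.comp_continuousOn h1
  have hq : ∀ i : Fin 5, ContinuousOn (fun t => (γ t).1 i) (Icc α β) := fun i =>
    (continuous_apply i).comp_continuousOn hγc
  have hfree : ∀ t ∈ Icc α β, Free (γ t).1 := fun t ht => (X.sol t ht).1
  have hx2c : ContinuousOn (fun t => (γ t).1 2 - cm m 0 1 (γ t).1) (Icc α β) :=
    (hq 2).sub (cont_cm m (hq 0) (hq 1))
  refine
    { hαβ := X.hαβ
      hG := hG
      hρ := by positivity
      hA := by positivity
      hB := by positivity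
      hx := fun t ht => hasDerivAt_x2 (X.sol t ht).2
      hw := fun t ht => hasDerivAt_w2 (X.sol t ht).2
      hp := ?_
      x0 := hx0
      x1 := fun t ht => (X.near t ht).trans (le_of_eq (by ring))
      en := fun t ht => H2 b hbb2 m hm (γ t) (X.inv t ht) (X.s1 t ht) (X.near t ht) (X.hh_ge t ht)
      pb := fun t ht =>
        (H1 b hbb1 m hm (γ t) (X.inv t ht) (X.s1 t ht) (X.near t ht)).2.2.2.1
      A_le := fun t ht =>
        (H1 b hbb1 m hm (γ t) (X.inv t ht) (X.s1 t ht) (X.near t ht)).2.2.2.2.1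
      B_le := ?_ }
  · have h5 : ContinuousOn (fun t => (m 0 + m 1 + m 2) • grav ((γ t).1 2 - cm m 0 1 (γ t).1))
        (Icc α β) := (cont_grav hx2c hx0).const_smul (m 0 + m 1 + m 2)
    have h6 : ContinuousOn (fun t => acc m (γ t).1 2 - cm m 0 1 (acc m (γ t).1)) (Icc α β) :=
      (cont_acc m hγc hfree 2).sub
        (cont_cm m (cont_acc m hγc hfree 0) (cont_acc m hγc hfree 1))
    exact h6.add h5
  · have hα : α ∈ Icc α β := ⟨le_rfl, X.hαβ⟩
    exact (H1 b hbb1 m hm (γ α) (X.inv α hα) (X.s1 α hα) (X.near α hα)).2.2.2.2.2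

end NB5
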