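import Mathlib
import Pool.Agent.NB5.Defs
import Pool.Agent.NB5.KepE

/-!
# The weight collected by an exit (project NB5, module NB5-Shl)

`[te, t]`: excursion with `1/b^96 ≤ ‖x2‖ ≤ 2/b^96`, `‖x2‖ = 1/b^96` at `te`, `= 2/b^96` at `t`,
`⟪x2, w2⟫ ≥ 0` at `te`. Then `⟪x2, w2⟫ ≥ 0` on `[te, t]` (`out_nonneg`). No state on `[te, t]` is
`Good`: otherwise `frozen` (from the time `s`, `T ≤ τ + 1 ≤ s + 1`) gives `Rg 4 ≥ 1/(4 b^96)` on
`[s, T)`, and on the compact interval `[τ, s]` `Rg 4` has a positive minimum, against `Cx.lim`. So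
`G P m (γ s) ≥ gX = ofReal (b^96 ‖w2‖ Wt b x2 w2)` on `[te, t]`. Comparison of the weights: let
`je = jw` at `te`, `we = ‖w2 te‖`. `fb_jw` (`ρp = 1/b^96`): `|j s - je| ≤ C (b^(-400+144) + b^(231-336)) ≤ b^(-104)`;
`fb_speed` and `kep_w`: `we ≤ 3 ‖w2 s‖`, `‖w2 s‖ ≤ 3 we`; `we ≤ 9 M b^100`. So
`b^200 min (j s^2) (j s/‖w2 s‖) ≤ C M (b^200 min (je^2) (je/we) + 1)`: if `je we ≤ 1` use
`b^200 (j s)^2 ≤ 2 b^200 je^2 + 1`; if `je we ≥ 1` then `b^(-104) ≤ C M b^(-4) je`. Hence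
`Wt (s) ≥ Wt (te)/(C M)^3`. Finally `∫ ‖w2‖ ≥ ‖x2 t‖ - ‖x2 te‖ = 1/b^96`.
(Take the `K` of the statement at least `P.k0`, needed by `gX_le_G`.)
-/

open MeasureTheory Set Filter Topology Metric
open scoped NNReal ENNReal RealInnerProductSpace

namespace NB5

open HDN

variable {d : ℕ}

private theorem wt_aux {M b je we j w : ℝ} (hM : 1 ≤ M) (hb : 1 ≤ b) (hje : 0 ≤ je)
    (hj : 0 ≤ j) (hwe : 0 < we) (hw : 0 < w) (h1 : we ≤ 9 * M * b ^ 100) (h2 : we ≤ 3 * w)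
    (h3 : |j - je| ≤ 1 / b ^ 100) :
    b ^ 200 * min (j ^ 2) (j / w) ≤ 30 * M * (b ^ 200 * min (je ^ 2) (je / we) + 1) := by
  have hB : (0 : ℝ) < b ^ 100 := pow_pos (by linarith) _
  have hB2 : (0 : ℝ) < b ^ 200 := pow_pos (by linarith) _
  have hBB : b ^ 200 = b ^ 100 * b ^ 100 := by rw [← pow_add]
  obtain ⟨e, he⟩ : ∃ e, e = 1 / b ^ 100 := ⟨_, rfl⟩
  have he0 : 0 < e := by
    rw [he]
    positivity
  have heB : b ^ 100 * e = 1 := by
    rw [he]
    field_simp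
  have hee : b ^ 200 * e ^ 2 = 1 := by
    rw [hBB]
    calc b ^ 100 * b ^ 100 * e ^ 2 = (b ^ 100 * e) * (b ^ 100 * e) := by ring
      _ = 1 := by rw [heB, one_mul]
  rw [← he] at h3
  have hje2 : j ≤ je + e := by linarith [(abs_le.1 h3).2]
  rcases le_or_gt (je * we) 1 with hc | hc
  · have hmin : min (je ^ 2) (je / we) = je ^ 2 := by
      apply min_eq_left
      rw [le_div_iff₀ hwe]
      nlinarith
    rw [hmin]
    have h4 : j ^ 2 ≤ 2 * je ^ 2 + 2 * e ^ 2 := by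
      nlinarith [sq_nonneg (je - e)]
    have h5 : b ^ 200 * min (j ^ 2) (j / w) ≤ b ^ 200 * (2 * je ^ 2 + 2 * e ^ 2) :=
      mul_le_mul_of_nonneg_left ((min_le_left _ _).trans h4) hB2.le
    have h6 : 0 ≤ b ^ 200 * je ^ 2 := mul_nonneg hB2.le (sq_nonneg _)
    nlinarith
  · have hje0 : 0 < je := by
      by_contra h
      have : je = 0 := le_antisymm (not_lt.1 h) hje
      rw [this, zero_mul] at hc
      linarith
    have hmin : min (je ^ 2) (je / we) = je / we := by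
      apply min_eq_right
      rw [div_le_iff₀ hwe]
      nlinarith
    rw [hmin]
    have h4 : e ≤ 9 * M * je := by
      have h5 : je * we ≤ je * (9 * M * b ^ 100) := mul_le_mul_of_nonneg_left h1 hje
      have h6 : 1 * e ≤ (9 * M * je * b ^ 100) * e :=
        mul_le_mul_of_nonneg_right (by linarith) he0.le
      calc e = 1 * e := (one_mul e).symm
        _ ≤ (9 * M * je * b ^ 100) * e := h6
        _ = 9 * M * je * (b ^ 100 * e) := by ring
        _ = 9 * M * je := by rw [heB, mul_one]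
    have h7 : j / w ≤ 3 * (1 + 9 * M) * (je / we) := by
      rw [← mul_div_assoc, div_le_div_iff₀ hw hwe]
      have h8 : j ≤ (1 + 9 * M) * je := by linarith
      calc j * we ≤ ((1 + 9 * M) * je) * we := mul_le_mul_of_nonneg_right h8 hwe.le
        _ ≤ ((1 + 9 * M) * je) * (3 * w) := mul_le_mul_of_nonneg_left h2 (by positivity)
        _ = 3 * (1 + 9 * M) * je * w := by ring
    have h9 : b ^ 200 * min (j ^ 2) (j / w) ≤ b ^ 200 * (3 * (1 + 9 * M) * (je / we)) :=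
      mul_le_mul_of_nonneg_left ((min_le_right _ _).trans h7) hB2.le
    have h10 : 0 ≤ b ^ 200 * (je / we) := by positivity
    nlinarith

/-- comparison of the weights (real numbers only) -/
theorem wt_compare {M : ℝ} (hM : 1 ≤ M) : ∃ C > 0, ∀ (b je we j w : ℝ), 1 ≤ b → 0 ≤ je → 0 ≤ j →
    0 < we → 0 < w → we ≤ 9 * M * b ^ 100 → we ≤ 3 * w → |j - je| ≤ 1 / b ^ 100 →
    1 / (1 + (b ^ 200 * min (je ^ 2) (je / we)) ^ 3) ≤
      C * (1 / (1 + (b ^ 200 * min (j ^ 2) (j / w)) ^ 3)) := by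
  refine ⟨1 + 4 * (30 * M) ^ 3, by positivity, ?_⟩
  intro b je we j w hb hje hj hwe hw h1 h2 h3
  have h4 := wt_aux hM hb hje hj hwe hw h1 h2 h3
  have hb0 : 0 < b := by linarith
  have hA : 0 ≤ b ^ 200 * min (je ^ 2) (je / we) :=
    mul_nonneg (by positivity) (le_min (by positivity) (by positivity))
  have hB : 0 ≤ b ^ 200 * min (j ^ 2) (j / w) :=
    mul_nonneg (by positivity) (le_min (by positivity) (by positivity))
  generalize b ^ 200 * min (je ^ 2) (je / we) = A at *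
  generalize b ^ 200 * min (j ^ 2) (j / w) = B at *
  have h5 : B ^ 3 ≤ (30 * M * (A + 1)) ^ 3 := pow_le_pow_left₀ hB h4 3
  have h6 : (A + 1) ^ 3 ≤ 4 * (A ^ 3 + 1) := by nlinarith [sq_nonneg (A - 1), sq_nonneg A]
  have h7 : (30 * M * (A + 1)) ^ 3 ≤ (30 * M) ^ 3 * (4 * (A ^ 3 + 1)) := by
    rw [mul_pow]
    exact mul_le_mul_of_nonneg_left h6 (by positivity)
  have hA3 : 0 ≤ A ^ 3 := by positivity
  have hB3 : 0 ≤ B ^ 3 := by positivity
  rw [mul_one_div, div_le_div_iff₀ (by linarith) (by linarith), one_mul]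
  nlinarith

theorem shell (P : Par) : ∃ C > 0, ∃ K : ℕ, ∀ (ε : ℝ) (m : Fin 5 → ℝ) (γ : ℝ → St d) (τ T : ℝ),
    Cx P ε m γ τ T → ∀ (te t : ℝ) (k : ℕ), K ≤ k → τ ≤ te → te < t → t < T →
    Exc P (lev k) m γ te t → (∀ s ∈ Icc te t, 1 / lev k ^ 96 ≤ ‖x2 m γ s‖) →
    ‖x2 m γ te‖ = 1 / lev k ^ 96 → ‖x2 m γ t‖ = 2 / lev k ^ 96 → 0 ≤ ⟪x2 m γ te, w2 m γ te⟫ →
    ENNReal.ofReal (Wt (lev k) (x2 m γ te) (w2 m γ te)) ≤
      ENNReal.ofReal C * ∫⁻ s in Icc te t, G P m (γ s) := by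
  obtain ⟨b1, hb1, H1⟩ := kep_exc (d := d) P
  obtain ⟨b2, hb2, H2⟩ := frozen (d := d) P
  obtain ⟨b3, hb3, H3⟩ := ex_facts (d := d) P
  obtain ⟨C, hC, hW⟩ := wt_compare P.hM
  obtain ⟨K0, hK0⟩ := (lev_tendsto.eventually_ge_atTop
    (max (max b1 b2) (max b3 (10 ^ 10 * P.M ^ 6)))).exists_forall_of_atTop
  refine ⟨C, hC, max K0 P.k0, ?_⟩
  intro ε m γ τ T hCx te t k hk hτ hte htT hE hρ hxe hxt hin
  have hk0 : P.k0 ≤ k := (le_max_right _ _).trans hk
  have hlev := hK0 k ((le_max_left _ _).trans hk)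
  have hlb1 : b1 ≤ lev k := ((le_max_left _ _).trans (le_max_left _ _)).trans hlev
  have hlb2 : b2 ≤ lev k := ((le_max_right _ _).trans (le_max_left _ _)).trans hlev
  have hlb3 : b3 ≤ lev k := ((le_max_left _ _).trans (le_max_right _ _)).trans hlev
  have hlb4 : 10 ^ 10 * P.M ^ 6 ≤ lev k := ((le_max_right _ _).trans (le_max_right _ _)).trans hlev
  have hM := P.hM
  have hmb := hCx.hm
  have hKep := H1 (lev k) hlb1 m hmb γ te t hE
  have hone : 1 ≤ lev k := hb1.trans hlb1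
  generalize hbdef : lev k = b at *
  have hb0 : 0 < b := by linarith
  have hB96 : (0 : ℝ) < b ^ 96 := pow_pos hb0 _
  have hρ0 : (0 : ℝ) < 1 / b ^ 96 := by positivity
  -- (a) no state is good
  have hgood : ∀ s ∈ Icc te t, ¬ Good P b m (γ s) := by
    intro s hs hg
    have hsT : s < T := lt_of_le_of_lt hs.2 htT
    have hτs : τ ≤ s := hτ.trans hs.1
    have hfr := H2 b hlb2 m hmb γ s T hsT (by linarith [hCx.hT])
      (fun u hu => hCx.sol u ⟨hτs.trans hu.1, hu.2⟩) (fun u hu => hCx.inv u ⟨hτs.trans hu.1, hu.2⟩)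
      (hE.s1 s hs) hg (hρ s hs) (hE.near s hs) (out_nonneg hKep hin hs)
    have hcont : ContinuousOn (fun u => Rg 4 (γ u).1) (Icc τ s) := by
      intro u hu
      have h1 : ContinuousAt γ u := (hCx.sol u ⟨hu.1, lt_of_le_of_lt hu.2 hsT⟩).2.continuousAt
      exact (((continuous_Rg (d := d) (k := 4) (by norm_num) (by norm_num)).comp
        continuous_fst).continuousAt.comp h1).continuousWithinAt
    obtain ⟨u0, hu0, hmin⟩ := isCompact_Icc.exists_isMinOn (nonempty_Icc.2 hτs) hcont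
    have hpos : 0 < Rg 4 (γ u0).1 := Rg_pos (by norm_num) (by norm_num)
      (hCx.sol u0 ⟨hu0.1, lt_of_le_of_lt hu0.2 hsT⟩).1
    obtain ⟨u, hu, hlt⟩ := hCx.lim (min (Rg 4 (γ u0).1) (1 / (4 * b ^ 96)))
      (lt_min hpos (by positivity))
    rcases le_or_gt u s with h | h
    · have h2 : Rg 4 (γ u0).1 ≤ Rg 4 (γ u).1 := hmin ⟨hu.1, h⟩
      exact absurd (lt_of_lt_of_le hlt (min_le_left _ _)) (not_lt.2 h2)
    · have h2 := hfr u ⟨h.le, hu.2⟩
      exact absurd (lt_of_lt_of_le hlt (min_le_right _ _)) (not_lt.2 h2)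
  -- (b) lower bound of the weight
  have hG : ∀ s ∈ Icc te t, ENNReal.ofReal (b ^ 96 * ‖w2 m γ s‖ * Wt b (x2 m γ s) (w2 m γ s)) ≤
      G P m (γ s) := by
    intro s hs
    have h1 := gX_le_G P hk0 1 m (γ s)
    rw [hbdef] at h1
    have h2 : gX P b (m ∘ (1 : Equiv.Perm (Fin 5))) (rel 1 (γ s)) =
        ENNReal.ofReal (b ^ 96 * ‖w2 m γ s‖ * Wt b (x2 m γ s) (w2 m γ s)) := by
      have h3 : S1 P b m (γ s) ∧ 1 / b ^ 96 ≤ ‖(γ s).1 2 - cm m 0 1 (γ s).1‖ ∧
          ‖(γ s).1 2 - cm m 0 1 (γ s).1‖ ≤ 2 / b ^ 96 ∧ ¬ Good P b m (γ s) :=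
        ⟨hE.s1 s hs, hρ s hs, hE.near s hs, hgood s hs⟩
      show onSet _ _ = _
      exact if_pos h3
    rw [h2] at h1
    exact h1
  -- the constants
  obtain ⟨g0, hg0⟩ : ∃ g0, g0 = m 0 + m 1 + m 2 := ⟨_, rfl⟩
  rw [← hg0] at hKep
  have hMpos : 0 < P.M := by linarith
  have hg1 : 1 / P.M ≤ g0 := by
    rw [hg0]
    have h0 := (hmb.2 0).1
    have h1 := (hmb.2 1).1
    have h2 := (hmb.2 2).1
    have h3 : 0 < 1 / P.M := by positivity
    linarith
  have hg2 : 0 < g0 := lt_of_lt_of_le (by positivity) hg1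
  have htem : te ∈ Icc te t := ⟨le_rfl, hte.le⟩
  have hwpos : ∀ s ∈ Icc te t, 0 < ‖w2 m γ s‖ := by
    intro s hs
    have h1 := kep_w hKep hs
    have h2 := hKep.x0 s hs
    have h3 : 0 < (10 / 7) * (g0 / ‖x2 m γ s‖) := by positivity
    have h4 : 0 < ‖w2 m γ s‖ ^ 2 := lt_of_lt_of_le h3 h1
    by_contra h5
    have h6 : ‖w2 m γ s‖ = 0 := le_antisymm (not_lt.1 h5) (norm_nonneg _)
    rw [h6] at h4
    norm_num at h4
  have hsp : ∀ s ∈ Icc te t, ‖w2 m γ te‖ ≤ 3 * ‖w2 m γ s‖ := by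
    intro s hs
    have h1 := fb_speed hKep hρ0 hρ hs htem
    have h2 := kep_w hKep hs
    have h3 : g0 / (2 / b ^ 96) ≤ g0 / ‖x2 m γ s‖ :=
      div_le_div_of_nonneg_left hg2.le (hKep.x0 s hs) (hE.near s hs)
    have h4 : g0 / (1 / b ^ 96) = 2 * (g0 / (2 / b ^ 96)) := by
      field_simp
    have h5 : ‖w2 m γ te‖ ^ 2 ≤ (3 * ‖w2 m γ s‖) ^ 2 := by
      rw [h4] at h1
      nlinarith
    exact (pow_le_pow_iff_left₀ (norm_nonneg _) (by positivity) two_ne_zero).1 h5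
  have hjw : ∀ s ∈ Icc te t, |jw (x2 m γ s) (w2 m γ s) - jw (x2 m γ te) (w2 m γ te)| ≤
      1 / b ^ 100 := by
    intro s hs
    have h1 := fb_jw hKep hρ0 hρ htem hs
    refine h1.trans ?_
    have hsq : √(1 / b ^ 96) = 1 / b ^ 48 := by
      rw [show (1 : ℝ) / b ^ 96 = (1 / b ^ 48) ^ 2 by rw [div_pow, one_pow, ← pow_mul]]
      exact Real.sqrt_sq (by positivity)
    rw [hsq]
    have hsg : 1 / P.M ≤ √g0 := by
      have h2 : (1 / P.M) ^ 2 ≤ g0 := by
        have h3 : (1 / P.M) ^ 2 ≤ 1 / P.M := by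
          have h4 : 1 / P.M ≤ 1 := by
            rw [div_le_one hMpos]
            exact hM
          have h5 : 0 ≤ 1 / P.M := by positivity
          nlinarith
        linarith
      exact Real.le_sqrt_of_sq_le h2
    have hsg0 : 0 < √g0 := Real.sqrt_pos.2 hg2
    have hX : 10 ^ 3 * (10 ^ 6 * P.M ^ 5 / b ^ 400 / (1 / b ^ 96 * (1 / b ^ 48)) +
        10 ^ 6 * P.M * b ^ 231 * (1 / b ^ 96) ^ 3 * (1 / b ^ 48)) ≤
        2 * 10 ^ 9 * P.M ^ 5 / b ^ 105 := by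
      have e1 : 10 ^ 6 * P.M ^ 5 / b ^ 400 / (1 / b ^ 96 * (1 / b ^ 48)) =
          10 ^ 6 * P.M ^ 5 / b ^ 256 := by
        field_simp
      have e2 : 10 ^ 6 * P.M * b ^ 231 * (1 / b ^ 96) ^ 3 * (1 / b ^ 48) =
          10 ^ 6 * P.M / b ^ 105 := by
        field_simp
      rw [e1, e2]
      have e3 : 10 ^ 6 * P.M ^ 5 / b ^ 256 ≤ 10 ^ 6 * P.M ^ 5 / b ^ 105 :=
        div_le_div_of_nonneg_left (by positivity) (by positivity)
          (pow_le_pow_right₀ hone (by norm_num))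
      have e4 : 10 ^ 6 * P.M / b ^ 105 ≤ 10 ^ 6 * P.M ^ 5 / b ^ 105 := by
        apply div_le_div_of_nonneg_right _ (by positivity)
        have : P.M ≤ P.M ^ 5 := le_self_pow₀ hM (by norm_num)
        linarith
      have e5 : 2 * 10 ^ 9 * P.M ^ 5 / b ^ 105 =
          10 ^ 3 * (10 ^ 6 * P.M ^ 5 / b ^ 105 + 10 ^ 6 * P.M ^ 5 / b ^ 105) := by ring
      rw [e5]
      exact mul_le_mul_of_nonneg_left (add_le_add e3 e4) (by norm_num)
    rw [div_le_iff₀ hsg0]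
    refine hX.trans ?_
    have h6 : 2 * 10 ^ 9 * P.M ^ 5 / b ^ 105 ≤ 1 / b ^ 100 * (1 / P.M) := by
      rw [div_mul_div_comm, one_mul, div_le_div_iff₀ (by positivity) (by positivity), one_mul]
      have h7 : b ^ 105 = b ^ 100 * (b * b ^ 4) := by ring
      rw [h7]
      have h8 : (1 : ℝ) ≤ b ^ 4 := one_le_pow₀ hone
      have h9 : 10 ^ 10 * P.M ^ 6 ≤ b * b ^ 4 := by
        calc 10 ^ 10 * P.M ^ 6 ≤ b * 1 := by linarith
          _ ≤ b * b ^ 4 := mul_le_mul_of_nonneg_left h8 hb0.le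
      have h10 : 0 ≤ P.M ^ 6 := by positivity
      calc 2 * 10 ^ 9 * P.M ^ 5 * (b ^ 100 * P.M) = b ^ 100 * (2 * 10 ^ 9 * P.M ^ 6) := by ring
        _ ≤ b ^ 100 * (b * b ^ 4) :=
            mul_le_mul_of_nonneg_left (by linarith) (by positivity)
    exact h6.trans (mul_le_mul_of_nonneg_left hsg (by positivity))
  -- (c) comparison of the weights
  have hWt : ∀ s ∈ Icc te t, Wt b (x2 m γ te) (w2 m γ te) ≤
      C * Wt b (x2 m γ s) (w2 m γ s) := by
    intro s hs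
    have h1 := (H3 b hlb3 m hmb (γ te) (hE.inv te htem) (hE.s1 te htem) (hE.near te htem)).2.1 2
      (by decide)
    exact hW b _ _ _ _ hone (jw_nonneg _ _) (jw_nonneg _ _) (hwpos te htem) (hwpos s hs) h1
      (hsp s hs) (hjw s hs)
  -- (d) the integral of the speed
  have hwc : ContinuousOn (w2 m γ) (Icc te t) := fun s hs =>
    (hKep.hw s hs).continuousAt.continuousWithinAt
  have hnc : ContinuousOn (fun s => ‖w2 m γ s‖) (Icc te t) := hwc.norm
  have hint : 1 / b ^ 96 ≤ ∫ s in Icc te t, ‖w2 m γ s‖ := by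
    rw [integral_Icc_eq_integral_Ioc, ← intervalIntegral.integral_of_le hte.le]
    have h1 : ∫ s in te..t, w2 m γ s = x2 m γ t - x2 m γ te := by
      apply intervalIntegral.integral_eq_sub_of_hasDerivAt
      · intro s hs
        rw [uIcc_of_le hte.le] at hs
        exact hKep.hx s hs
      · apply ContinuousOn.intervalIntegrable
        rw [uIcc_of_le hte.le]
        exact hwc
    have h2 := intervalIntegral.norm_integral_le_integral_norm (f := w2 m γ) (μ := volume) hte.le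
    rw [h1] at h2
    have h3 := norm_sub_norm_le (x2 m γ t) (x2 m γ te)
    rw [hxt, hxe] at h3
    have h4 : (2 : ℝ) / b ^ 96 - 1 / b ^ 96 = 1 / b ^ 96 := by ring
    linarith
  have hWte : 0 ≤ Wt b (x2 m γ te) (w2 m γ te) := by
    unfold Wt
    have h1 : 0 ≤ b ^ 200 * min (jw (x2 m γ te) (w2 m γ te) ^ 2)
        (jw (x2 m γ te) (w2 m γ te) / ‖w2 m γ te‖) :=
      mul_nonneg (by positivity) (le_min (by positivity)
        (div_nonneg (jw_nonneg _ _) (norm_nonneg _)))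
    exact div_nonneg zero_le_one (add_nonneg zero_le_one (pow_nonneg h1 3))
  have hlow : ENNReal.ofReal (Wt b (x2 m γ te) (w2 m γ te) / C) ≤
      ∫⁻ s in Icc te t, G P m (γ s) := by
    have hc0 : 0 ≤ b ^ 96 * (Wt b (x2 m γ te) (w2 m γ te) / C) :=
      mul_nonneg hB96.le (div_nonneg hWte hC.le)
    have h1 : ∫⁻ s in Icc te t, ENNReal.ofReal
        (b ^ 96 * (Wt b (x2 m γ te) (w2 m γ te) / C) * ‖w2 m γ s‖) ≤
        ∫⁻ s in Icc te t, G P m (γ s) := by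
      refine setLIntegral_mono' measurableSet_Icc fun s hs => ?_
      refine le_trans (ENNReal.ofReal_le_ofReal ?_) (hG s hs)
      have h2 : Wt b (x2 m γ te) (w2 m γ te) / C ≤ Wt b (x2 m γ s) (w2 m γ s) := by
        rw [div_le_iff₀ hC, mul_comm]
        exact hWt s hs
      calc b ^ 96 * (Wt b (x2 m γ te) (w2 m γ te) / C) * ‖w2 m γ s‖
          = b ^ 96 * ‖w2 m γ s‖ * (Wt b (x2 m γ te) (w2 m γ te) / C) := by ring
        _ ≤ b ^ 96 * ‖w2 m γ s‖ * Wt b (x2 m γ s) (w2 m γ s) :=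
            mul_le_mul_of_nonneg_left h2 (mul_nonneg hB96.le (norm_nonneg _))
    refine le_trans ?_ h1
    have hii : IntegrableOn (fun s => b ^ 96 * (Wt b (x2 m γ te) (w2 m γ te) / C) * ‖w2 m γ s‖)
        (Icc te t) := (continuousOn_const.mul hnc).integrableOn_Icc
    rw [← ofReal_integral_eq_lintegral_ofReal hii
      (Filter.Eventually.of_forall fun s => mul_nonneg hc0 (norm_nonneg _)),
      MeasureTheory.integral_const_mul]
    apply ENNReal.ofReal_le_ofReal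
    calc Wt b (x2 m γ te) (w2 m γ te) / C
        = b ^ 96 * (Wt b (x2 m γ te) (w2 m γ te) / C) * (1 / b ^ 96) := by
          field_simp
      _ ≤ b ^ 96 * (Wt b (x2 m γ te) (w2 m γ te) / C) * ∫ s in Icc te t, ‖w2 m γ s‖ :=
          mul_le_mul_of_nonneg_left hint hc0
  calc ENNReal.ofReal (Wt b (x2 m γ te) (w2 m γ te))
      = ENNReal.ofReal C * ENNReal.ofReal (Wt b (x2 m γ te) (w2 m γ te) / C) := by
        rw [← ENNReal.ofReal_mul hC.le]
        congr 1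
        field_simp
    _ ≤ ENNReal.ofReal C * ∫⁻ s in Icc te t, G P m (γ s) := by gcongr

end NB5
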