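import Mathlib
import Pool.Agent.NB5.Defs

/-!
# Two lemmas of real analysis (project NB5, module NB5-Stp)

`stop`: `t0 = sInf {s ∈ Icc a t | ∀ r ∈ Icc s t, ∀ i, 0 ≤ f i r}`; the set contains `t`, and `t0`
belongs to it by continuity. If `t0 > a` and all `f i t0 > 0` then (finite index set) all are positive
on a neighbourhood of `t0`, contradiction.
`drift_int`: `f b - f a = ∫ f'` (`f'` continuous), `|∫ f'| ≤ ∫ |f'|`, and the Lebesgue integral of
`ofReal |f'|` is at most `K (∫⁻ g + ofReal c (b - a))`.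
`real_ind`: real induction with finitely many closed sets. Let `S = ⋃ i, A i`, `t0 = sInf S`; `t0` is a
limit of points of `S`, so of one of the `A i`, which is closed, so `t0 ∈ A i`; if `a < t0` then
there is a smaller point.
-/

open MeasureTheory Set Filter Topology Metric
open scoped NNReal ENNReal RealInnerProductSpace

namespace NB5

theorem stop {ι : Type*} [Finite ι] {f : ι → ℝ → ℝ} {a t : ℝ} (hat : a ≤ t)
    (hf : ∀ i, ContinuousOn (f i) (Icc a t)) (h0 : ∀ i, 0 ≤ f i t) :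
    ∃ t0 ∈ Icc a t, (∀ s ∈ Icc t0 t, ∀ i, 0 ≤ f i s) ∧ (t0 = a ∨ ∃ i, f i t0 = 0) := by

  set T : Set ℝ := {s | s ∈ Icc a t ∧ ∀ r ∈ Icc s t, ∀ i, 0 ≤ f i r} with hT
  have htT : t ∈ T := by
    refine ⟨right_mem_Icc.2 hat, ?_⟩
    intro r hr i
    rw [le_antisymm hr.2 hr.1]
    exact h0 i
  have hbdd : BddBelow T := ⟨a, fun s hs => hs.1.1⟩
  have hne : T.Nonempty := ⟨t, htT⟩
  set t0 := sInf T with ht0
  have h1 : a ≤ t0 := le_csInf hne fun s hs => hs.1.1
  have h2 : t0 ≤ t := csInf_le hbdd htT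
  have hpos : ∀ r, t0 < r → r ≤ t → ∀ i, 0 ≤ f i r := by
    intro r hr hrt i
    obtain ⟨s, hs, hsr⟩ := exists_lt_of_csInf_lt hne hr
    exact hs.2 r ⟨hsr.le, hrt⟩ i
  have h3 : ∀ i, 0 ≤ f i t0 := by
    intro i
    rcases eq_or_lt_of_le h2 with h | h
    · rw [h]
      exact h0 i
    · have hc : ContinuousWithinAt (f i) (Ioc t0 t) t0 :=
        ((hf i) t0 ⟨h1, h2⟩).mono fun r hr => ⟨h1.trans hr.1.le, hr.2⟩
      haveI : (𝓝[Ioc t0 t] t0).NeBot := by
        rw [nhdsWithin_Ioc_eq_nhdsGT h]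
        infer_instance
      refine ge_of_tendsto hc ?_
      filter_upwards [self_mem_nhdsWithin] with r hr
      exact hpos r hr.1 hr.2 i
  have h4 : ∀ s ∈ Icc t0 t, ∀ i, 0 ≤ f i s := by
    intro s hs i
    rcases eq_or_lt_of_le hs.1 with h | h
    · rw [← h]
      exact h3 i
    · exact hpos s h hs.2 i
  refine ⟨t0, ⟨h1, h2⟩, h4, ?_⟩
  by_contra hcon
  push Not at hcon
  obtain ⟨hta, hne0⟩ := hcon
  have hlt : a < t0 := lt_of_le_of_ne h1 (Ne.symm hta)
  have hev : ∀ i, ∀ᶠ r in 𝓝[Icc a t] t0, 0 < f i r := fun i =>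
    ((hf i) t0 ⟨h1, h2⟩).eventually (lt_mem_nhds (lt_of_le_of_ne (h3 i) (Ne.symm (hne0 i))))
  have hev2 : ∀ᶠ r in 𝓝[Icc a t] t0, ∀ i, 0 < f i r := eventually_all.2 hev
  obtain ⟨δ, hδ, hδ'⟩ := Metric.mem_nhdsWithin_iff.1 hev2
  set s := max a (t0 - δ / 2) with hs
  have hst : s < t0 := max_lt hlt (by linarith)
  have hsT : s ∈ T := by
    refine ⟨⟨le_max_left _ _, hst.le.trans h2⟩, ?_⟩
    intro r hr i
    rcases lt_or_ge r t0 with h | h
    · have h5 : r ∈ ball t0 δ ∩ Icc a t := by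
        refine ⟨?_, (le_max_left _ _).trans hr.1, hr.2⟩
        rw [mem_ball, Real.dist_eq, abs_of_neg (by linarith)]
        have h6 : t0 - δ / 2 ≤ r := (le_max_right _ _).trans hr.1
        linarith
      exact (hδ' h5 i).le
    · exact h4 r ⟨h, hr.2⟩ i
  exact absurd (csInf_le hbdd hsT) (not_le.2 hst)


theorem drift_int {f f' : ℝ → ℝ} {a b K c : ℝ} (hab : a ≤ b) (hK : 0 ≤ K) (hc : 0 ≤ c)
    (hf : ∀ t ∈ Icc a b, HasDerivAt f (f' t) t) (hf' : ContinuousOn f' (Icc a b))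
    {g : ℝ → ℝ≥0∞} (hg : ∫⁻ t in Icc a b, g t ≠ ⊤)
    (h : ∀ t ∈ Icc a b, ENNReal.ofReal |f' t| ≤ ENNReal.ofReal K * (g t + ENNReal.ofReal c)) :
    |f b - f a| ≤ K * ((∫⁻ t in Icc a b, g t).toReal + c * (b - a)) := by

  have hint : IntervalIntegrable f' volume a b := by
    apply ContinuousOn.intervalIntegrable
    rw [uIcc_of_le hab]
    exact hf'
  have e1 : ∫ t in a..b, f' t = f b - f a := by
    apply intervalIntegral.integral_eq_sub_of_hasDerivAt
    · intro t ht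
      rw [uIcc_of_le hab] at ht
      exact hf t ht
    · exact hint
  have hI : IntegrableOn f' (Icc a b) := hf'.integrableOn_compact isCompact_Icc
  have e2 : |f b - f a| ≤ ∫ t in Icc a b, |f' t| := by
    rw [← e1, intervalIntegral.integral_of_le hab, ← integral_Icc_eq_integral_Ioc]
    exact abs_integral_le_integral_abs
  have e3 : ∫ t in Icc a b, |f' t| = (∫⁻ t in Icc a b, ENNReal.ofReal |f' t|).toReal := by
    rw [integral_eq_lintegral_of_nonneg_ae (Eventually.of_forall fun t => abs_nonneg _)]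
    exact hI.abs.aestronglyMeasurable
  have e4 : ∫⁻ t in Icc a b, ENNReal.ofReal |f' t| ≤
      ENNReal.ofReal K * ((∫⁻ t in Icc a b, g t) + ENNReal.ofReal c * ENNReal.ofReal (b - a)) := by
    calc ∫⁻ t in Icc a b, ENNReal.ofReal |f' t|
        ≤ ∫⁻ t in Icc a b, ENNReal.ofReal K * (g t + ENNReal.ofReal c) :=
          setLIntegral_mono' measurableSet_Icc h
      _ = _ := by
          rw [lintegral_const_mul' _ _ ENNReal.ofReal_ne_top, lintegral_add_right _ measurable_const,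
            lintegral_const, Measure.restrict_apply_univ, Real.volume_Icc]
  have hfin : ENNReal.ofReal K *
      ((∫⁻ t in Icc a b, g t) + ENNReal.ofReal c * ENNReal.ofReal (b - a)) ≠ ⊤ :=
    ENNReal.mul_ne_top ENNReal.ofReal_ne_top
      (ENNReal.add_ne_top.2 ⟨hg, ENNReal.mul_ne_top ENNReal.ofReal_ne_top ENNReal.ofReal_ne_top⟩)
  have e5 := ENNReal.toReal_mono hfin e4
  rw [ENNReal.toReal_mul, ENNReal.toReal_add hg
    (ENNReal.mul_ne_top ENNReal.ofReal_ne_top ENNReal.ofReal_ne_top), ENNReal.toReal_mul,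
    ENNReal.toReal_ofReal hK, ENNReal.toReal_ofReal hc,
    ENNReal.toReal_ofReal (by linarith)] at e5
  linarith


theorem real_ind {ι : Type*} [Finite ι] {a b : ℝ} {A : ι → Set ℝ} (hA : ∀ i, IsClosed (A i))
    (hsub : ∀ i, A i ⊆ Icc a b) (hne : ∃ i, (A i).Nonempty)
    (hstep : ∀ i, ∀ t ∈ A i, a < t → ∃ j, ∃ t' ∈ A j, t' < t) : ∃ i, a ∈ A i := by

  have hcl : IsClosed (⋃ i, A i) := isClosed_iUnion_of_finite hA
  have hbdd : BddBelow (⋃ i, A i) := ⟨a, fun t ht => by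
    obtain ⟨i, hi⟩ := mem_iUnion.1 ht
    exact (hsub i hi).1⟩
  have hne' : (⋃ i, A i).Nonempty := by
    obtain ⟨i, t, ht⟩ := hne
    exact ⟨t, mem_iUnion.2 ⟨i, ht⟩⟩
  obtain ⟨i, hi⟩ := mem_iUnion.1 (hcl.csInf_mem hne' hbdd)
  have h1 : a ≤ sInf (⋃ i, A i) := (hsub i hi).1
  rcases eq_or_lt_of_le h1 with h | h
  · exact ⟨i, by rw [h]; exact hi⟩
  · obtain ⟨j, t', ht', hlt⟩ := hstep i _ hi h
    exact absurd (csInf_le hbdd (mem_iUnion.2 ⟨j, ht'⟩)) (not_le.2 hlt)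


end NB5
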