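import Mathlib
import Pool.Agent.NB5.Defs
import Pool.Agent.NB5.Shl
import Pool.Agent.NB5.DrI
import Pool.Agent.NB5.Stp

/-!
# The estimate for an excursion (project NB5, module NB5-ExE)

`[α, β]`: excursion at the level `b = lev k`, at the right end `‖x2‖ = 2/b^96` and `⟪x2, w2⟫ > 0`. By
`kep_conv` (through `kep_exc`) `y = ‖x2‖^2` is convex.
Case 1: `‖x2‖ ≥ 1/b^96` on `[α, β]`: `drift_I` (the bodies 3, 4 are far, `s1_far`), so `FQ` changes by at
most `b^85 (β - α)`.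
Case 2: let `te` be the last time with `‖x2‖ ≤ 1/b^96`; `‖x2 te‖ = 1/b^96`, `⟪x2, w2⟫ ≥ 0` at `te`
(right derivative). `shell` on `[te, β]`: with `W = Wt (te)`, `W ≤ C ∫ G ≤ C ε ≤` small, so
`b^200 min (je^2) (je/we) ≥ Z1` where `Z1 = (1/(2 C ε))^(1/3)` is as large as we want. On `[te, β]`
`drift_I`. On `[α, te]` (`Kep.mono`): let `ρp = min ‖x2‖`. By `S1`, `ρp ≥ Zp/b^200`. `fb_jw`: `j ≥ je/2`
on `[α, te]` (`A/(ρp √ρp) ≤ C b^(-400) b^300`, `je ≥ √Z1/b^100`); `fb_speed`: `‖w2‖^2 ≤ we^2 + 4 G/ρp`; at the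
minimum `je/2 ≤ ρp ‖w2‖`, so `ρp ≥ c min (je^2) (je/we) ≥ c Z1/b^200` with `c = c(M)`, which is `> Zp/b^200`:
strict inequality; and `fb_int`, `ex_facts`: `FQ` changes by at most
`10^5 M^6 b^(-400) 40/ρp^3 + b^9 ≤ C b^(-400) (min (je^2) (je/we))^(-3) + b^9 ≤ C b^200 W + b^9`.
The conclusion uses `b^85, b^9 ≤ b^200/b^50`.
(Take the `K` of the statement at least `P.k0` if needed.)
-/

open MeasureTheory Set Filter Topology Metric
open scoped NNReal ENNReal RealInnerProductSpace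

namespace NB5

open HDN

variable {d : ℕ}

private theorem ex_lev_one (k : ℕ) : 1 ≤ lev k := by
  unfold lev
  exact Real.one_le_rpow (by norm_num) (by positivity)

private theorem ex_lev_ge (b0 : ℝ) : ∃ K : ℕ, ∀ k, K ≤ k → b0 ≤ lev k := by
  have h1 : Tendsto (fun k : ℕ => ((k : ℝ) / 100)) atTop atTop :=
    tendsto_natCast_atTop_atTop.atTop_div_const (by norm_num)
  have h : Tendsto lev atTop atTop :=
    (tendsto_rpow_atTop_of_base_gt_one 2 (by norm_num)).comp h1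
  exact eventually_atTop.1 (h.eventually_ge_atTop b0)

set_option maxHeartbeats 4000000 in
private theorem ex_int {f f' g : ℝ → ℝ} {a b : ℝ} (hab : a ≤ b)
    (hf : ∀ t ∈ Icc a b, HasDerivAt f (f' t) t) (hg : ContinuousOn g (Icc a b))
    (h : ∀ t ∈ Icc a b, |f' t| ≤ g t) : |f b - f a| ≤ ∫ t in a..b, g t := by
  have hmem : ∀ t : ℝ, max a (min b t) ∈ Icc a b := fun t =>
    ⟨le_max_left _ _, max_le hab (min_le_left _ _)⟩
  have hgc : Continuous fun t : ℝ => g (max a (min b t)) :=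
    hg.comp_continuous (by fun_prop) hmem
  have hge : ∀ t ∈ Icc a b, g (max a (min b t)) = g t := by
    intro t ht
    rw [min_eq_right ht.2, max_eq_right ht.1]
  have hB : ∀ t, HasDerivAt (fun u => ∫ s in a..u, g (max a (min b s)))
      (g (max a (min b t))) t := fun t =>
    (hgc.integral_hasStrictDerivAt a t).hasDerivAt
  have hfc : ContinuousOn (fun t => f t - f a) (Icc a b) := fun t ht =>
    ((hf t ht).continuousAt.sub continuousAt_const).continuousWithinAt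
  have key := image_norm_le_of_norm_deriv_right_le_deriv_boundary (f := fun t => f t - f a)
    (f' := f') (a := a) (b := b) hfc
    (fun t ht => ((hf t (Ico_subset_Icc_self ht)).sub_const (f a)).hasDerivWithinAt)
    (B := fun u => ∫ s in a..u, g (max a (min b s))) (by simp) hB
    (fun t ht => by
      rw [Real.norm_eq_abs, hge t (Ico_subset_Icc_self ht)]
      exact h t (Ico_subset_Icc_self ht)) (right_mem_Icc.2 hab)
  rw [Real.norm_eq_abs] at key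
  refine key.trans (le_of_eq ?_)
  refine intervalIntegral.integral_congr fun t ht => ?_
  rw [uIcc_of_le hab] at ht
  exact hge t ht

/-- restriction of an excursion -/
private theorem Exc.mono' {P : Par} {b : ℝ} {m : Fin 5 → ℝ} {γ : ℝ → St d} {α β α' β' : ℝ}
    (E : Exc P b m γ α β) (h1 : α ≤ α') (h2 : α' ≤ β') (h3 : β' ≤ β) :
    Exc P b m γ α' β' := by
  have hs : Icc α' β' ⊆ Icc α β := Icc_subset_Icc h1 h3
  exact ⟨h2, fun t ht => E.sol t (hs ht), fun t ht => E.inv t (hs ht),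
    fun t ht => E.s1 t (hs ht), fun t ht => E.near t (hs ht), fun t ht => E.hh_ge t (hs ht)⟩

/-- numbers: the weight is small, so the normalised quantity is large -/
private theorem ex_num1 {X Z C ε : ℝ} (hX : 0 ≤ X) (hZ : 0 ≤ Z) (hC : 0 < C)
    (hε : ε = 1 / (C * (1 + Z ^ 3))) {J : ℝ} (hJ : J ≤ ε) (h : 1 / (1 + X ^ 3) ≤ C * J) : Z ≤ X := by
  by_contra hlt
  push Not at hlt
  have h1 : X ^ 3 < Z ^ 3 := pow_lt_pow_left₀ hlt hX (by norm_num)
  have h2 : (0 : ℝ) < 1 + X ^ 3 := by positivity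
  have h3 : 1 / (1 + Z ^ 3) < 1 / (1 + X ^ 3) := one_div_lt_one_div_of_lt h2 (by linarith)
  have h4 : C * J ≤ C * ε := mul_le_mul_of_nonneg_left hJ hC.le
  have h5 : C * ε = 1 / (1 + Z ^ 3) := by
    rw [hε]
    have : (0 : ℝ) < 1 + Z ^ 3 := by positivity
    field_simp
  linarith

/-- numbers: the pericentre is not small -/
private theorem ex_num2 {M G ρ je we w : ℝ} (hM : 1 ≤ M) (hG0 : 0 < G) (hG : G ≤ 3 * M) (hρ : 0 < ρ)
    (hje : 0 ≤ je) (hwe : 0 < we) (_hw0 : 0 ≤ w) (hw : w ^ 2 ≤ we ^ 2 + 4 * (G / ρ))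
    (hj : je / 2 ≤ ρ * w) : min (je ^ 2) (je / we) ≤ 96 * M * ρ := by
  have h1 : je ^ 2 / 4 ≤ ρ ^ 2 * we ^ 2 + 4 * G * ρ := by
    have h2 : (je / 2) ^ 2 ≤ (ρ * w) ^ 2 := pow_le_pow_left₀ (by positivity) hj 2
    have h3 : (ρ * w) ^ 2 ≤ ρ ^ 2 * (we ^ 2 + 4 * (G / ρ)) := by
      rw [mul_pow]
      exact mul_le_mul_of_nonneg_left hw (by positivity)
    have h4 : ρ ^ 2 * (we ^ 2 + 4 * (G / ρ)) = ρ ^ 2 * we ^ 2 + 4 * G * ρ := by
      field_simp
    rw [h4] at h3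
    calc je ^ 2 / 4 = (je / 2) ^ 2 := by ring
      _ ≤ _ := h2.trans h3
  by_cases hc : je ^ 2 / 8 ≤ ρ ^ 2 * we ^ 2
  · refine (min_le_right _ _).trans ?_
    rw [div_le_iff₀ hwe]
    have h5 : je ^ 2 ≤ (96 * M * ρ * we) ^ 2 := by
      have h6 : (96 * M * ρ * we) ^ 2 = 9216 * M ^ 2 * (ρ ^ 2 * we ^ 2) := by ring
      rw [h6]
      have h7 : (1 : ℝ) ≤ M ^ 2 := one_le_pow₀ hM
      have h8 : 0 ≤ ρ ^ 2 * we ^ 2 := by positivity
      nlinarith
    exact (sq_le_sq₀ hje (by positivity)).1 h5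
  · push Not at hc
    refine (min_le_left _ _).trans ?_
    have h5 : G * ρ ≤ 3 * M * ρ := mul_le_mul_of_nonneg_right hG hρ.le
    nlinarith

/-- numbers: the angular momentum is almost constant -/
private theorem ex_num3 {M b g ρ : ℝ} (hM : 1 ≤ M) (hb : 1 ≤ b) (hG : 1 / M ≤ g)
    (hρ : 1 / b ^ 200 ≤ ρ) :
    10 ^ 3 * (10 ^ 6 * M ^ 5 / b ^ 400 / (ρ * √ρ) +
        10 ^ 6 * M * b ^ 231 * (1 / b ^ 96) ^ 3 * √(1 / b ^ 96)) / √g ≤
      2 * 10 ^ 9 * M ^ 6 / b ^ 100 := by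
  have hM0 : 0 < M := lt_of_lt_of_le one_pos hM
  have hb0 : 0 < b := lt_of_lt_of_le one_pos hb
  have hρ0 : 0 < ρ := lt_of_lt_of_le (by positivity) hρ
  have hs : 1 / M ≤ √g := by
    apply Real.le_sqrt_of_sq_le
    refine le_trans ?_ hG
    have h1 : 1 / M ≤ 1 := by
      rw [div_le_one hM0]
      exact hM
    have h2 : 0 ≤ 1 / M := by positivity
    nlinarith
  have hs0 : 0 < √g := lt_of_lt_of_le (by positivity) hs
  have hsρ : 1 / b ^ 100 ≤ √ρ := by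
    apply Real.le_sqrt_of_sq_le
    refine le_trans (le_of_eq ?_) hρ
    rw [div_pow, one_pow, ← pow_mul]
  have t0 : 1 ≤ b ^ 300 * (ρ * √ρ) := by
    have h1 : 1 / b ^ 200 * (1 / b ^ 100) ≤ ρ * √ρ :=
      mul_le_mul hρ hsρ (by positivity) hρ0.le
    have h2 : b ^ 300 * (1 / b ^ 200 * (1 / b ^ 100)) ≤ b ^ 300 * (ρ * √ρ) :=
      mul_le_mul_of_nonneg_left h1 (by positivity)
    have h3 : b ^ 300 * (1 / b ^ 200 * (1 / b ^ 100)) = 1 := by
      have : b ^ 300 = b ^ 200 * b ^ 100 := by rw [← pow_add]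
      rw [this]
      field_simp
    linarith
  have t1 : 10 ^ 6 * M ^ 5 / b ^ 400 / (ρ * √ρ) ≤ 10 ^ 6 * M ^ 5 / b ^ 100 := by
    rw [div_div]
    refine div_le_div_of_nonneg_left (by positivity) (by positivity) ?_
    have h1 : b ^ 400 = b ^ 100 * b ^ 300 := by rw [← pow_add]
    calc b ^ 100 = b ^ 100 * 1 := (mul_one _).symm
      _ ≤ b ^ 100 * (b ^ 300 * (ρ * √ρ)) := mul_le_mul_of_nonneg_left t0 (by positivity)
      _ = b ^ 400 * (ρ * √ρ) := by rw [h1]; ring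
  have t2 : 10 ^ 6 * M * b ^ 231 * (1 / b ^ 96) ^ 3 * √(1 / b ^ 96) ≤
      10 ^ 6 * M ^ 5 / b ^ 100 := by
    have h1 : √(1 / b ^ 96) = 1 / b ^ 48 := by
      have h2 : 1 / b ^ 96 = (1 / b ^ 48) ^ 2 := by rw [div_pow, one_pow, ← pow_mul]
      rw [h2]
      exact Real.sqrt_sq (by positivity)
    have h3 : 10 ^ 6 * M * b ^ 231 * (1 / b ^ 96) ^ 3 * (1 / b ^ 48) = 10 ^ 6 * M / b ^ 105 := by
      have h4 : (1 / b ^ 96) ^ 3 * (1 / b ^ 48) = 1 / b ^ 336 := by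
        rw [div_pow, one_pow, ← pow_mul, div_mul_div_comm, one_mul, ← pow_add]
      have h5 : b ^ 336 = b ^ 231 * b ^ 105 := by rw [← pow_add]
      rw [mul_assoc, h4, h5]
      have h6 : b ^ 231 ≠ 0 := by positivity
      have h7 : b ^ 105 ≠ 0 := by positivity
      generalize b ^ 231 = u at h6 ⊢
      generalize b ^ 105 = v at h7 ⊢
      field_simp
    rw [h1, h3, div_le_div_iff₀ (by positivity) (by positivity)]
    have h6 : M ≤ M ^ 5 := by
      calc M = M ^ 1 := (pow_one M).symm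
        _ ≤ M ^ 5 := pow_le_pow_right₀ hM (by norm_num)
    have h7 : b ^ 100 ≤ b ^ 105 := pow_le_pow_right₀ hb (by norm_num)
    calc 10 ^ 6 * M * b ^ 100 ≤ 10 ^ 6 * M ^ 5 * b ^ 100 :=
          mul_le_mul_of_nonneg_right (mul_le_mul_of_nonneg_left h6 (by norm_num)) (by positivity)
      _ ≤ 10 ^ 6 * M ^ 5 * b ^ 105 := mul_le_mul_of_nonneg_left h7 (by positivity)
  rw [div_le_iff₀ hs0]
  calc 10 ^ 3 * (10 ^ 6 * M ^ 5 / b ^ 400 / (ρ * √ρ) +
        10 ^ 6 * M * b ^ 231 * (1 / b ^ 96) ^ 3 * √(1 / b ^ 96))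
      ≤ 10 ^ 3 * (10 ^ 6 * M ^ 5 / b ^ 100 + 10 ^ 6 * M ^ 5 / b ^ 100) :=
        mul_le_mul_of_nonneg_left (add_le_add t1 t2) (by norm_num)
    _ = 2 * 10 ^ 9 * M ^ 6 / b ^ 100 * (1 / M) := by
        have h7 : b ^ 100 ≠ 0 := by positivity
        generalize b ^ 100 = v at h7 ⊢
        field_simp
        norm_num
    _ ≤ 2 * 10 ^ 9 * M ^ 6 / b ^ 100 * √g := mul_le_mul_of_nonneg_left hs (by positivity)

private theorem ex_num5 {a u v Z je r : ℝ} (ha : 0 ≤ a) (hv : 0 < v) (huv : u = v ^ 2)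
    (hZ : a ^ 2 ≤ Z) (hX : Z ≤ u * min (je ^ 2) r) (hje : 0 ≤ je) : a / v ≤ je := by
  have h1 : u * min (je ^ 2) r ≤ u * je ^ 2 :=
    mul_le_mul_of_nonneg_left (min_le_left _ _) (by rw [huv]; positivity)
  have h2 : a ^ 2 ≤ (v * je) ^ 2 := by
    refine hZ.trans (hX.trans (h1.trans (le_of_eq ?_)))
    rw [huv, mul_pow]
  have h3 := (sq_le_sq₀ ha (by positivity)).1 h2
  rw [div_le_iff₀ hv]
  linarith

private theorem ex_fin {D D1 D2 c u I x y z : ℝ} (hc : 0 ≤ c) (hu : 0 ≤ u) (hI : 0 ≤ I)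
    (hz : 0 ≤ z) (hxy : x + y = z) (h : D ≤ D1 + D2) (h1 : D1 ≤ u * x)
    (h2 : D2 ≤ c * u * I + u * y) : D ≤ (c + 1) * u * (I + z) := by
  have e : (c + 1) * u * (I + z) = c * u * I + u * z + (u * I + c * (u * z)) := by ring
  have h3 : 0 ≤ u * I + c * (u * z) := by positivity
  have h4 : u * x + u * y = u * z := by rw [← mul_add, hxy]
  rw [e]
  linarith

/-- numbers: the change of energy in the inner part -/
private theorem ex_num4 {M b ρ X C I : ℝ} (hM : 1 ≤ M) (hb : 1 ≤ b) (hρ : 0 < ρ) (hX : 1 ≤ X)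
    (h : X ≤ 96 * M * (b ^ 200 * ρ)) (hI : 1 / (1 + X ^ 3) ≤ C * I) :
    10 ^ 5 * M ^ 6 / b ^ 400 * (40 / ρ ^ 3) ≤
      10 ^ 5 * M ^ 6 * 40 * (96 * M) ^ 3 * 2 * C * b ^ 200 * I := by
  have hM0 : 0 < M := lt_of_lt_of_le one_pos hM
  have hb0 : 0 < b := lt_of_lt_of_le one_pos hb
  have hX0 : 0 < X := lt_of_lt_of_le one_pos hX
  have hX3 : 1 ≤ X ^ 3 := one_le_pow₀ hX
  have h1 : X ^ 3 ≤ (96 * M) ^ 3 * b ^ 600 * ρ ^ 3 := by
    refine (pow_le_pow_left₀ hX0.le h 3).trans (le_of_eq ?_)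
    have e : b ^ 600 = (b ^ 200) ^ 3 := by rw [← pow_mul]
    rw [e]
    generalize b ^ 200 = u
    ring
  have h2 : 1 / X ^ 3 ≤ 2 * (1 / (1 + X ^ 3)) := by
    rw [mul_one_div, div_le_div_iff₀ (by positivity) (by positivity)]
    linarith
  have h3 : 1 / ρ ^ 3 ≤ (96 * M) ^ 3 * b ^ 600 * (1 / X ^ 3) := by
    rw [mul_one_div, div_le_div_iff₀ (by positivity) (by positivity), one_mul]
    exact h1
  have h4 : 1 / ρ ^ 3 ≤ (96 * M) ^ 3 * b ^ 600 * (2 * (C * I)) := by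
    refine h3.trans (mul_le_mul_of_nonneg_left ?_ (by positivity))
    linarith
  have h5 : 10 ^ 5 * M ^ 6 / b ^ 400 * (40 / ρ ^ 3) =
      10 ^ 5 * M ^ 6 * 40 / b ^ 400 * (1 / ρ ^ 3) := by ring
  rw [h5]
  refine (mul_le_mul_of_nonneg_left h4 (by positivity)).trans (le_of_eq ?_)
  have h6 : b ^ 600 = b ^ 400 * b ^ 200 := by rw [← pow_add]
  rw [h6]
  have h7 : b ^ 400 ≠ 0 := by positivity
  generalize b ^ 400 = u at h7 ⊢
  generalize b ^ 200 = v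
  field_simp

set_option maxHeartbeats 4000000 in
theorem exc_est (P : Par) : ∃ C > 0, ∃ ε0 > 0, ∃ K : ℕ, ∀ ε ≤ ε0,
    ∀ (m : Fin 5 → ℝ) (γ : ℝ → St d) (τ T : ℝ), Cx P ε m γ τ T →
    ∀ (α β : ℝ) (k : ℕ), K ≤ k → τ ≤ α → α < β → β < T →
    Exc P (lev k) m γ α β → ‖x2 m γ β‖ = 2 / lev k ^ 96 → 0 < ⟪x2 m γ β, w2 m γ β⟫ →
    (∀ t ∈ Icc α β, P.Zp / lev k ^ 200 < ‖x2 m γ t‖) ∧
    |FQ m (γ β) - FQ m (γ α)| ≤ C * lev k ^ 200 *
      ((∫⁻ s in Icc α β, G P m (γ s)).toReal + (β - α) / lev k ^ 50) := by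
  obtain ⟨C1, hC1, K1, hshell⟩ := shell (d := d) P
  obtain ⟨b1, hb11, hkep⟩ := kep_exc (d := d) P
  obtain ⟨b2, hb21, hfacts⟩ := ex_facts (d := d) P
  have hM := P.hM
  have hM0 : 0 < P.M := lt_of_lt_of_le one_pos hM
  have hZp : 0 < P.Zp := lt_of_lt_of_le (by positivity) P.hZ
  have hZp1 : 1 ≤ P.Zp := by
    refine le_trans ?_ P.hZ
    have h6 : (1 : ℝ) ≤ P.M ^ 6 := one_le_pow₀ hM
    linarith
  set Z1 : ℝ := 16 * 10 ^ 18 * P.M ^ 12 + 97 * P.M * P.Zp with hZ1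
  have hZ1a : (4 * 10 ^ 9 * P.M ^ 6) ^ 2 ≤ Z1 := by
    have : (4 * 10 ^ 9 * P.M ^ 6) ^ 2 = 16 * 10 ^ 18 * P.M ^ 12 := by ring
    rw [this, hZ1]
    have : 0 ≤ 97 * P.M * P.Zp := by positivity
    linarith
  have hZ1b : 97 * P.M * P.Zp ≤ Z1 := by
    rw [hZ1]
    have : 0 ≤ 16 * 10 ^ 18 * P.M ^ 12 := by positivity
    linarith
  have hZ1c : 1 ≤ Z1 := by
    refine le_trans ?_ hZ1a
    have h6 : (1 : ℝ) ≤ P.M ^ 6 := one_le_pow₀ hM
    have h7 : (1 : ℝ) ≤ 4 * 10 ^ 9 * P.M ^ 6 := by nlinarith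
    exact one_le_pow₀ h7
  set ca : ℝ := 9 * 10 ^ 5 * P.M ^ 7 with hca
  have hca0 : 0 ≤ ca := by positivity
  obtain ⟨K2, hK2⟩ := ex_lev_ge (max (max b1 b2) (max (P.Zp + 2) (ca + 1)))
  set cb : ℝ := 10 ^ 5 * P.M ^ 6 * 40 * (96 * P.M) ^ 3 * 2 * C1 with hcb
  have hcb0 : 0 < cb := by positivity
  refine ⟨cb + 1, by positivity, 1 / (C1 * (1 + Z1 ^ 3)), by positivity, max K1 K2, ?_⟩
  intro ε hε m γ τ T cx α β k hk hτα hαβ hβT E hxβ hwβ
  have hb1 : b1 ≤ lev k := ((le_max_left _ _).trans (le_max_left _ _)).trans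
    (hK2 k ((le_max_right _ _).trans hk))
  have hb2 : b2 ≤ lev k := ((le_max_right _ _).trans (le_max_left _ _)).trans
    (hK2 k ((le_max_right _ _).trans hk))
  have hb3 : P.Zp + 2 ≤ lev k := ((le_max_left _ _).trans (le_max_right _ _)).trans
    (hK2 k ((le_max_right _ _).trans hk))
  have hb4 : ca + 1 ≤ lev k := ((le_max_right _ _).trans (le_max_right _ _)).trans
    (hK2 k ((le_max_right _ _).trans hk))
  have hshell' := hshell ε m γ τ T cx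
  generalize hb : lev k = b at *
  have hb0 : 1 ≤ b := by rw [← hb]; exact ex_lev_one k
  have hbp : 0 < b := lt_of_lt_of_le one_pos hb0
  have hm : Mb P.M m := cx.hm
  have hmp : ∀ i, 0 < m i := fun i => lt_of_lt_of_le (by positivity) (hm.2 i).1
  have Kp := hkep b hb1 m hm γ α β E
  have hG0 : 0 < m 0 + m 1 + m 2 := Kp.hG
  have hG3 : m 0 + m 1 + m 2 ≤ 3 * P.M := by
    linarith [(hm.2 0).2, (hm.2 1).2, (hm.2 2).2]
  have hG1 : 1 / P.M ≤ m 0 + m 1 + m 2 := by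
    linarith [(hm.2 0).1, hmp 1, hmp 2]
  -- continuity
  have hxc : ContinuousOn (fun t => ‖x2 m γ t‖) (Icc α β) := fun t ht =>
    (Kp.hx t ht).continuousAt.norm.continuousWithinAt
  have hwc : ContinuousOn (fun t => ‖w2 m γ t‖) (Icc α β) := fun t ht =>
    (Kp.hw t ht).continuousAt.norm.continuousWithinAt
  -- the derivative of FQ
  have hder : ∀ t ∈ Icc α β, HasDerivAt (fun s => FQ m (γ s)) (dFQ m (γ t)) t := by
    intro t ht
    refine hasDerivAt_FQ hmp (E.sol t ht).1 (E.sol t ht).2 fun j hj => ?_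
    exact lt_of_lt_of_le (by positivity) ((E.s1 t ht).x_ge j hj)
  have hbd : ∀ t ∈ Icc α β, |dFQ m (γ t)| ≤
      10 ^ 5 * P.M ^ 6 / b ^ 400 * (‖w2 m γ t‖ / ‖x2 m γ t‖ ^ 4) + b ^ 9 := by
    intro t ht
    have h := (hfacts b hb2 m hm (γ t) (E.inv t ht) (E.s1 t ht) (E.near t ht)).2.2.1
    refine h.trans (le_of_eq ?_)
    have e1 : ‖(γ t).1 2 - cm m 0 1 (γ t).1‖ = ‖x2 m γ t‖ := rfl
    have e2 : ‖(γ t).2 2 - cm m 0 1 (γ t).2‖ = ‖w2 m γ t‖ := rfl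
    rw [e1, e2]
    have := Kp.x0 t ht
    field_simp
  have hwb : ∀ t ∈ Icc α β, ‖w2 m γ t‖ ≤ 9 * P.M * b ^ 100 := fun t ht =>
    (hfacts b hb2 m hm (γ t) (E.inv t ht) (E.s1 t ht) (E.near t ht)).2.1 2 le_rfl
  -- far away
  have hfar : ∀ t ∈ Icc α β, 1 / b ^ 96 ≤ ‖x2 m γ t‖ → |dFQ m (γ t)| ≤ b ^ 150 := by
    intro t ht h1
    refine (hbd t ht).trans ?_
    have hx0 := Kp.x0 t ht
    have h2 : ‖w2 m γ t‖ / ‖x2 m γ t‖ ^ 4 ≤ 9 * P.M * b ^ 100 * b ^ 384 := by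
      rw [div_le_iff₀ (by positivity)]
      have h3 : 1 ≤ b ^ 384 * ‖x2 m γ t‖ ^ 4 := by
        have h4 : 1 ≤ b ^ 96 * ‖x2 m γ t‖ := by
          rw [div_le_iff₀ (by positivity)] at h1
          linarith
        calc (1 : ℝ) ≤ (b ^ 96 * ‖x2 m γ t‖) ^ 4 := one_le_pow₀ h4
          _ = b ^ 384 * ‖x2 m γ t‖ ^ 4 := by rw [mul_pow, ← pow_mul]
      calc ‖w2 m γ t‖ ≤ 9 * P.M * b ^ 100 * 1 := by rw [mul_one]; exact hwb t ht
        _ ≤ 9 * P.M * b ^ 100 * (b ^ 384 * ‖x2 m γ t‖ ^ 4) :=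
          mul_le_mul_of_nonneg_left h3 (by positivity)
        _ = _ := by ring
    have h5 : 10 ^ 5 * P.M ^ 6 / b ^ 400 * (‖w2 m γ t‖ / ‖x2 m γ t‖ ^ 4) ≤ ca * b ^ 84 := by
      calc 10 ^ 5 * P.M ^ 6 / b ^ 400 * (‖w2 m γ t‖ / ‖x2 m γ t‖ ^ 4)
          ≤ 10 ^ 5 * P.M ^ 6 / b ^ 400 * (9 * P.M * b ^ 100 * b ^ 384) :=
            mul_le_mul_of_nonneg_left h2 (by positivity)
        _ = ca * b ^ 84 := by
            rw [hca]
            have e : b ^ 100 * b ^ 384 = b ^ 400 * b ^ 84 := by rw [← pow_add, ← pow_add]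
            have e2 : 9 * P.M * b ^ 100 * b ^ 384 = 9 * P.M * (b ^ 400 * b ^ 84) := by
              rw [← e]; ring
            rw [e2]
            field_simp
    have h6 : b ^ 9 ≤ b ^ 84 := pow_le_pow_right₀ hb0 (by norm_num)
    have h7 : b ^ 85 ≤ b ^ 150 := pow_le_pow_right₀ hb0 (by norm_num)
    have h8 : (ca + 1) * b ^ 84 ≤ b * b ^ 84 := mul_le_mul_of_nonneg_right hb4 (by positivity)
    have h9 : b * b ^ 84 = b ^ 85 := by ring
    nlinarith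
  have hZb : P.Zp / b ^ 200 < 1 / b ^ 96 := by
    rw [div_lt_div_iff₀ (by positivity) (by positivity)]
    have h1 : P.Zp < b ^ 104 := by
      calc P.Zp < b := by linarith
        _ = b ^ 1 := (pow_one b).symm
        _ ≤ b ^ 104 := pow_le_pow_right₀ hb0 (by norm_num)
    calc P.Zp * b ^ 96 < b ^ 104 * b ^ 96 := mul_lt_mul_of_pos_right h1 (by positivity)
      _ = 1 * b ^ 200 := by rw [← pow_add, one_mul]
  have h150 : ∀ t : ℝ, 0 ≤ t → b ^ 150 * t = b ^ 200 * (t / b ^ 50) := by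
    intro t _
    have : b ^ 200 = b ^ 150 * b ^ 50 := by rw [← pow_add]
    rw [this]
    field_simp
  by_cases hcase : ∀ t ∈ Icc α β, 1 / b ^ 96 ≤ ‖x2 m γ t‖
  · refine ⟨fun t ht => hZb.trans_le (hcase t ht), ?_⟩
    have h1 := ex_int hαβ.le hder (g := fun _ => b ^ 150) continuousOn_const
      fun t ht => hfar t ht (hcase t ht)
    rw [intervalIntegral.integral_const, smul_eq_mul, mul_comm, h150 _ (by linarith)] at h1
    refine h1.trans ?_
    have h2 : 0 ≤ (∫⁻ s in Icc α β, G P m (γ s)).toReal := ENNReal.toReal_nonneg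
    have h3 : 0 ≤ (β - α) / b ^ 50 := div_nonneg (by linarith) (by positivity)
    have h4 : (0 : ℝ) ≤ b ^ 200 := by positivity
    calc b ^ 200 * ((β - α) / b ^ 50) ≤ 1 * b ^ 200 * ((∫⁻ s in Icc α β, G P m (γ s)).toReal +
          (β - α) / b ^ 50) := by
          rw [one_mul]
          exact mul_le_mul_of_nonneg_left (by linarith) h4
      _ ≤ _ := by
          apply mul_le_mul_of_nonneg_right _ (by positivity)
          apply mul_le_mul_of_nonneg_right _ h4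
          linarith
  -- the last time in the small ball
  push Not at hcase
  obtain ⟨tc, htc, htc1⟩ := hcase
  have hScl : IsCompact {t ∈ Icc α β | ‖x2 m γ t‖ ≤ 1 / b ^ 96} := by
    refine isCompact_Icc.of_isClosed_subset ?_ fun t ht => ht.1
    exact hxc.preimage_isClosed_of_isClosed isClosed_Icc isClosed_Iic
  have hSne : {t ∈ Icc α β | ‖x2 m γ t‖ ≤ 1 / b ^ 96}.Nonempty := ⟨tc, htc, htc1.le⟩
  obtain ⟨te, hte, hmax⟩ := hScl.exists_isGreatest hSne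
  have hteI : te ∈ Icc α β := hte.1
  have hteβ : te < β := by
    refine lt_of_le_of_ne hteI.2 fun h => ?_
    have h1 := hte.2
    rw [h, hxβ] at h1
    have : (0 : ℝ) < b ^ 96 := by positivity
    rw [div_le_div_iff_of_pos_right this] at h1
    norm_num at h1
  have hgt : ∀ t ∈ Icc α β, te < t → 1 / b ^ 96 < ‖x2 m γ t‖ := by
    intro t ht h1
    by_contra h2
    push Not at h2
    exact absurd (hmax ⟨ht, h2⟩) (not_le.2 h1)
  have hsubR : Icc te β ⊆ Icc α β := Icc_subset_Icc hteI.1 le_rfl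
  have hsubL : Icc α te ⊆ Icc α β := Icc_subset_Icc le_rfl hteI.2
  have hxe : ‖x2 m γ te‖ = 1 / b ^ 96 := by
    have h1 : 1 / b ^ 96 ∈ Icc ‖x2 m γ te‖ ‖x2 m γ β‖ := by
      refine ⟨hte.2, ?_⟩
      rw [hxβ]
      exact div_le_div_of_nonneg_right (by norm_num) (by positivity)
    obtain ⟨t, ht, ht1⟩ := intermediate_value_Icc hteβ.le (hxc.mono hsubR) h1
    have h2 : t ≤ te := hmax ⟨hsubR ht, ht1.le⟩
    have h3 : t = te := le_antisymm h2 ht.1
    rw [← h3]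
    exact ht1
  have hinn : 0 ≤ ⟪x2 m γ te, w2 m γ te⟫ := by
    have h1 := kep_y Kp hteI
    rw [hasDerivAt_iff_tendsto_slope] at h1
    have h2 : Tendsto (slope (fun s => ‖x2 m γ s‖ ^ 2) te) (𝓝[>] te)
        (𝓝 (2 * ⟪x2 m γ te, w2 m γ te⟫)) :=
      h1.mono_left (nhdsWithin_mono _ fun t ht => ne_of_gt ht)
    have h3 : 0 ≤ 2 * ⟪x2 m γ te, w2 m γ te⟫ := by
      refine ge_of_tendsto h2 ?_
      filter_upwards [Ioo_mem_nhdsGT hteβ] with t ht
      rw [slope_def_field]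
      refine div_nonneg ?_ (by linarith [ht.1])
      have h4 := hgt t ⟨hteI.1.trans ht.1.le, ht.2.le⟩ ht.1
      rw [← hxe] at h4
      have := pow_le_pow_left₀ (norm_nonneg _) h4.le 2
      linarith
    linarith
  -- the weight
  have hshe := hshell' te β k ((le_max_left _ _).trans hk) (hτα.trans hteI.1) hteβ hβT
  rw [hb] at hshe
  have hW := hshe (E.mono' hteI.1 hteβ.le le_rfl)
    (fun s hs => by
      rcases hs.1.lt_or_eq with h | h
      · exact (hgt s (hsubR hs) h).le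
      · rw [← h, hxe]) hxe hxβ hinn
  have hJle : ∫⁻ s in Icc te β, G P m (γ s) ≤ ENNReal.ofReal (1 / (C1 * (1 + Z1 ^ 3))) := by
    refine (lintegral_mono_set (fun s hs => ?_)).trans
      (cx.hG.trans (ENNReal.ofReal_le_ofReal hε))
    exact ⟨(hτα.trans hteI.1).trans hs.1, lt_of_le_of_lt hs.2 hβT⟩
  have hIle : ∫⁻ s in Icc α β, G P m (γ s) ≤ ENNReal.ofReal (1 / (C1 * (1 + Z1 ^ 3))) := by
    refine (lintegral_mono_set (fun s hs => ?_)).trans
      (cx.hG.trans (ENNReal.ofReal_le_ofReal hε))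
    exact ⟨hτα.trans hs.1, lt_of_le_of_lt hs.2 hβT⟩
  have hJfin : ∫⁻ s in Icc te β, G P m (γ s) ≠ ⊤ :=
    ne_top_of_le_ne_top ENNReal.ofReal_ne_top hJle
  have hIfin : ∫⁻ s in Icc α β, G P m (γ s) ≠ ⊤ :=
    ne_top_of_le_ne_top ENNReal.ofReal_ne_top hIle
  have hJ : (∫⁻ s in Icc te β, G P m (γ s)).toReal ≤ 1 / (C1 * (1 + Z1 ^ 3)) :=
    ENNReal.toReal_le_of_le_ofReal (by positivity) hJle
  have hJI : (∫⁻ s in Icc te β, G P m (γ s)).toReal ≤ (∫⁻ s in Icc α β, G P m (γ s)).toReal :=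
    ENNReal.toReal_mono hIfin (lintegral_mono_set hsubR)
  have hWr : Wt b (x2 m γ te) (w2 m γ te) ≤ C1 * (∫⁻ s in Icc te β, G P m (γ s)).toReal := by
    rw [← ENNReal.ofReal_toReal hJfin, ← ENNReal.ofReal_mul hC1.le] at hW
    exact (ENNReal.ofReal_le_ofReal_iff
      (mul_nonneg hC1.le ENNReal.toReal_nonneg)).1 hW
  have hwe0 : 0 < ‖w2 m γ te‖ := by
    have h1 := kep_w Kp hteI
    have h2 : 0 < (10 / 7) * ((m 0 + m 1 + m 2) / ‖x2 m γ te‖) := by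
      have := Kp.x0 te hteI
      positivity
    by_contra h3
    have h4 : ‖w2 m γ te‖ = 0 := le_antisymm (not_lt.1 h3) (norm_nonneg _)
    rw [h4] at h1
    norm_num at h1
    linarith
  set je : ℝ := jw (x2 m γ te) (w2 m γ te) with hje
  set we : ℝ := ‖w2 m γ te‖ with hwe
  have hje0 : 0 ≤ je := jw_nonneg _ _
  set X : ℝ := b ^ 200 * min (je ^ 2) (je / we) with hX
  have hmin0 : 0 ≤ min (je ^ 2) (je / we) := le_min (by positivity) (by positivity)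
  have hX0 : 0 ≤ X := by positivity
  have hWX : Wt b (x2 m γ te) (w2 m γ te) = 1 / (1 + X ^ 3) := rfl
  have hXZ : Z1 ≤ X := ex_num1 hX0 (by linarith) hC1 rfl hJ (by rw [← hWX]; exact hWr)
  have hXpos : 0 < X := by linarith
  -- the angular momentum
  have hjeb : 4 * 10 ^ 9 * P.M ^ 6 / b ^ 100 ≤ je := by
    exact ex_num5 (by positivity) (by positivity) (by rw [← pow_mul]) hZ1a hXZ hje0
  -- the pericentre
  have KL := Kp.mono le_rfl hteI.1 hteI.2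
  obtain ⟨tp, htp, hmin⟩ := isCompact_Icc.exists_isMinOn (nonempty_Icc.2 hteI.1)
    (hxc.mono hsubL)
  have hρ1 : ∀ t ∈ Icc α te, ‖x2 m γ tp‖ ≤ ‖x2 m γ t‖ := fun t ht => hmin ht
  have hρ0 : 0 < ‖x2 m γ tp‖ := Kp.x0 tp (hsubL htp)
  have hρZ : P.Zp / b ^ 200 ≤ ‖x2 m γ tp‖ := (E.s1 tp (hsubL htp)).x_ge 2 le_rfl
  have hjp : je / 2 ≤ jw (x2 m γ tp) (w2 m γ tp) := by
    have h1 := fb_jw KL hρ0 hρ1 (right_mem_Icc.2 hteI.1) htp
    have h2 : 10 ^ 3 * (10 ^ 6 * P.M ^ 5 / b ^ 400 / (‖x2 m γ tp‖ * √‖x2 m γ tp‖) +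
        10 ^ 6 * P.M * b ^ 231 * (1 / b ^ 96) ^ 3 * √(1 / b ^ 96)) / √(m 0 + m 1 + m 2) ≤
        2 * 10 ^ 9 * P.M ^ 6 / b ^ 100 := by
      refine ex_num3 hM hb0 hG1 (le_trans ?_ hρZ)
      exact div_le_div_of_nonneg_right hZp1 (by positivity)
    have h3 := (abs_le.1 (h1.trans h2)).1
    have h4 : 2 * 10 ^ 9 * P.M ^ 6 / b ^ 100 ≤ je / 2 := by
      have : 4 * 10 ^ 9 * P.M ^ 6 / b ^ 100 = 2 * (2 * 10 ^ 9 * P.M ^ 6 / b ^ 100) := by ring
      linarith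
    linarith
  have hsp := fb_speed KL hρ0 hρ1 (right_mem_Icc.2 hteI.1) htp
  have hper : min (je ^ 2) (je / we) ≤ 96 * P.M * ‖x2 m γ tp‖ :=
    ex_num2 hM hG0 hG3 hρ0 hje0 hwe0 (norm_nonneg _) hsp (hjp.trans (jw_le _ _))
  have hperX : X ≤ 96 * P.M * (b ^ 200 * ‖x2 m γ tp‖) := by
    calc X ≤ b ^ 200 * (96 * P.M * ‖x2 m γ tp‖) := mul_le_mul_of_nonneg_left hper (by positivity)
      _ = _ := by ring
  have hstrict : P.Zp / b ^ 200 < ‖x2 m γ tp‖ := by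
    rw [div_lt_iff₀ (by positivity)]
    have h1 : 97 * P.M * P.Zp ≤ 96 * P.M * (b ^ 200 * ‖x2 m γ tp‖) := hZ1b.trans (hXZ.trans hperX)
    have h2 : 0 < P.M * P.Zp := by positivity
    have h3 : P.M * P.Zp < P.M * (b ^ 200 * ‖x2 m γ tp‖) := by nlinarith
    have h4 := lt_of_mul_lt_mul_left h3 hM0.le
    linarith
  refine ⟨fun t ht => ?_, ?_⟩
  · rcases le_or_gt t te with h | h
    · exact hstrict.trans_le (hρ1 t ⟨ht.1, h⟩)
    · exact hZb.trans (hgt t ht h)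
  -- the change of FQ
  have hR : |FQ m (γ β) - FQ m (γ te)| ≤ b ^ 200 * ((β - te) / b ^ 50) := by
    have h1 := ex_int hteβ.le (fun t ht => hder t (hsubR ht)) (g := fun _ => b ^ 150)
      continuousOn_const fun t ht => hfar t (hsubR ht) (by
        rcases ht.1.lt_or_eq with h | h
        · exact (hgt t (hsubR ht) h).le
        · rw [← h, hxe])
    rw [intervalIntegral.integral_const, smul_eq_mul, mul_comm, h150 _ (by linarith)] at h1
    exact h1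
  have hL : |FQ m (γ te) - FQ m (γ α)| ≤
      10 ^ 5 * P.M ^ 6 / b ^ 400 * (40 / ‖x2 m γ tp‖ ^ 3) + b ^ 9 * (te - α) := by
    have hgc : ContinuousOn (fun t => ‖w2 m γ t‖ / ‖x2 m γ t‖ ^ 4) (Icc α te) :=
      (hwc.mono hsubL).div ((hxc.mono hsubL).pow 4) fun t ht =>
        (pow_pos (Kp.x0 t (hsubL ht)) 4).ne'
    have h1 := ex_int hteI.1 (fun t ht => hder t (hsubL ht))
      (g := fun t => 10 ^ 5 * P.M ^ 6 / b ^ 400 * (‖w2 m γ t‖ / ‖x2 m γ t‖ ^ 4) + b ^ 9)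
      ((continuousOn_const.mul hgc).add continuousOn_const) fun t ht => hbd t (hsubL ht)
    refine h1.trans ?_
    have hii : IntervalIntegrable (fun t => ‖w2 m γ t‖ / ‖x2 m γ t‖ ^ 4) volume α te :=
      ContinuousOn.intervalIntegrable (by rwa [uIcc_of_le hteI.1])
    rw [intervalIntegral.integral_add (hii.const_mul _) intervalIntegrable_const,
      intervalIntegral.integral_const_mul, intervalIntegral.integral_const, smul_eq_mul,
      mul_comm (te - α)]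
    exact add_le_add (mul_le_mul_of_nonneg_left (fb_int KL hρ0 hρ1) (by positivity)) le_rfl
  have hmain : 10 ^ 5 * P.M ^ 6 / b ^ 400 * (40 / ‖x2 m γ tp‖ ^ 3) ≤
      cb * b ^ 200 * (∫⁻ s in Icc α β, G P m (γ s)).toReal := by
    refine ex_num4 hM hb0 hρ0 (hZ1c.trans hXZ) hperX ?_
    rw [← hWX]
    exact hWr.trans (mul_le_mul_of_nonneg_left hJI hC1.le)
  have h9 : b ^ 9 * (te - α) ≤ b ^ 200 * ((te - α) / b ^ 50) := by
    rw [← h150 _ (by linarith [hteI.1])]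
    exact mul_le_mul_of_nonneg_right (pow_le_pow_right₀ hb0 (by norm_num))
      (by linarith [hteI.1])
  have htri : |FQ m (γ β) - FQ m (γ α)| ≤
      |FQ m (γ β) - FQ m (γ te)| + |FQ m (γ te) - FQ m (γ α)| := abs_sub_le _ _ _
  have hI0 : 0 ≤ (∫⁻ s in Icc α β, G P m (γ s)).toReal := ENNReal.toReal_nonneg
  have hd0 : 0 ≤ (β - α) / b ^ 50 := div_nonneg (by linarith) (by positivity)
  refine ex_fin hcb0.le (by positivity) hI0 hd0 ?_ htri hR (hL.trans (add_le_add hmain h9))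
  rw [← add_div]
  congr 1
  ring

end NB5
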