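import Mathlib
import Pool.Agent.NB5.Defs
import Pool.Agent.NB5.RelB

/-!
# Relabelling of the tracing context (project NB5, module NB5-RelD)

`G_rel`, `sol_rel`, `inv_rel`, `Rg_rel`, `rel_rel`, `mass_mul`; in `TG`, `StrI`, `StrIII`, `Done` the
permutation under the existential quantifier is multiplied by `σ` or `σ⁻¹`.
-/

open MeasureTheory Set Filter Topology Metric
open scoped NNReal ENNReal RealInnerProductSpace

namespace NB5

open HDN

variable {d : ℕ} {m : Fin 5 → ℝ} {P : Par} {ε C τ T t t1 : ℝ} {γ : ℝ → St d} {k1 k : ℕ}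

private theorem ex_rel (Q : (Fin 5 → ℝ) → St d → Prop) (m : Fin 5 → ℝ) (σ : Equiv.Perm (Fin 5))
    (x : St d) : (∃ s : Equiv.Perm (Fin 5), Q ((m ∘ σ) ∘ s) (rel s (rel σ x))) ↔
      ∃ s : Equiv.Perm (Fin 5), Q (m ∘ s) (rel s x) := by
  constructor
  · rintro ⟨s, h⟩
    exact ⟨σ * s, h⟩
  · rintro ⟨s, h⟩
    refine ⟨σ⁻¹ * s, ?_⟩
    rw [rel_rel, mass_mul, mul_inv_cancel_left]
    exact h

theorem Cx.rel (h : Cx P ε m γ τ T) (σ : Equiv.Perm (Fin 5)) :
    Cx P ε (m ∘ σ) (fun t => rel σ (γ t)) τ T where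
  hm := h.hm.rel σ
  hτ := h.hτ
  hT := h.hT
  sol := sol_rel σ h.sol
  inv := fun t ht => inv_rel σ (h.inv t ht)
  hG := by
    have h1 := h.hG
    simp only [G_rel]
    exact h1
  lim := by
    intro δ hδ
    obtain ⟨t, ht, h1⟩ := h.lim δ hδ
    refine ⟨t, ht, ?_⟩
    show Rg 4 ((γ t).1 ∘ σ) < δ
    rw [Rg_rel]
    exact h1

theorem Dg_rel (σ : Equiv.Perm (Fin 5)) :
    Dg P C (m ∘ σ) (fun t => rel σ (γ t)) t t1 k1 = Dg P C m γ t t1 k1 := by
  unfold Dg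
  simp only [G_rel]

theorem TG_rel (σ : Equiv.Perm (Fin 5)) :
    TG P (m ∘ σ) (fun t => rel σ (γ t)) t t1 k1 k ↔ TG P m γ t t1 k1 k := by
  unfold TG
  refine forall_congr' fun s => forall_congr' fun hs => exists_congr fun k' => ?_
  refine and_congr_right fun _ => and_congr_right fun _ => ?_
  exact ex_rel (fun m x => S1 P (lev k') m x ∨ S3 P (lev k') m x) m σ (γ s)

theorem StrI_rel (σ : Equiv.Perm (Fin 5)) :
    StrI P C (m ∘ σ) (fun t => rel σ (γ t)) t t1 k1 k ↔ StrI P C m γ t t1 k1 k := by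
  unfold StrI
  rw [TG_rel, Dg_rel]
  refine and_congr_right fun _ => and_congr_right fun _ => and_congr_right fun _ => ?_
  exact ex_rel (fun m' x => SI P (Dg P C m γ t t1 k1) (lev k) m' x) m σ (γ t)

theorem StrIII_rel (σ : Equiv.Perm (Fin 5)) :
    StrIII P C (m ∘ σ) (fun t => rel σ (γ t)) t t1 k1 k ↔ StrIII P C m γ t t1 k1 k := by
  unfold StrIII
  rw [TG_rel, Dg_rel]
  refine and_congr_right fun _ => and_congr_right fun _ => and_congr_right fun _ => ?_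
  exact ex_rel (fun m' x => SIII P (Dg P C m γ t t1 k1) (lev k) m' x) m σ (γ t)

theorem Done_rel (σ : Equiv.Perm (Fin 5)) :
    Done (m ∘ σ) (fun t => rel σ (γ t)) τ k1 ↔ Done m γ τ k1 := by
  unfold Done
  exact ex_rel (fun m' x => lev k1 ^ 200 / 2 ≤ FQ m' x ∨ lev k1 ^ 200 / 2 ≤ FT m' x) m σ (γ τ)

end NB5
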