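import Mathlib
import Pool.Agent.NB5.Defs
import Pool.Agent.NB5.RelC
import Pool.Agent.NB5.S1F
import Pool.Agent.NB5.T31

/-!
# Strict mode I states: simple facts and the switch of the hard pair (project NB5, module NB5-Swi)

`si_s1`: `SI` implies `S1` (`(1 - D) b^200 ≥ b^200/2`, `Zp/b^200 ≤ 2/b^96` for large `b`,
`hp ≥ -2 FQ ≥ -3 FQ`). `si_up`: relevelling, all bounds only get weaker.
`switch`: `m 2 m 3/‖q 2 - q 3‖ ≥ 2 FQ`, so `‖q 2 - q 3‖ ≤ M^2/(2 FQ)`, tiny; `s1_P`. Put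
`σ = swap 0 2 * swap 1 3`, `x' = rel σ x`; `FQ (m ∘ σ) x' = Ham - hp m 2 3 x - tauQ (m ∘ σ) x'.1`
(`ham_Q` for the relabelled state, `ham_rel`, `hp_rel`), `|tauQ| ≤ 1` (`tauQ_le`, distances `≥ 1/(3 b^77)`), so
`1.9 FQ ≤ F' := FQ (m ∘ σ) x'`. `lev_choose` for `F'`. `r_le`: `m 2 m 3/‖q 2 - q 3‖ ≥ - hp m 2 3 x ≥ F'/1.1`. The
distances from the new pair are `≥ 1/(3 b^77) > K2/b'^96`. Hardness of the others: `hp m 0 1 x ≥ -1.01 FQ`
(`s1_r`), the other pairs have distance `≥ 1/(2 b^77)`.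
-/

open MeasureTheory Set Filter Topology Metric
open scoped NNReal ENNReal RealInnerProductSpace

namespace NB5

open HDN

variable {d : ℕ}

private theorem hp_ge {M : ℝ} {m : Fin 5 → ℝ} (hm : Mb M m) (i j : Fin 5) (x : St d) {δ : ℝ}
    (hδ : 0 < δ) (h : δ ≤ ‖x.1 i - x.1 j‖) : -(M ^ 2 / δ) ≤ hp m i j x := by
  have hi := hm.pos i
  have hj := hm.pos j
  have hM := hm.1
  unfold hp
  have h1 : m i * m j / ‖x.1 i - x.1 j‖ ≤ M ^ 2 / δ := by
    have h2 : m i * m j ≤ M ^ 2 := by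
      have := hm.2 i
      have := hm.2 j
      nlinarith
    exact div_le_div₀ (by positivity) h2 hδ h
  have h3 : 0 ≤ (1 / 2) * (m i * m j / (m i + m j)) * ‖x.2 i - x.2 j‖ ^ 2 := by positivity
  linarith

private theorem three (j : Fin 5) (hj : 2 ≤ j) : j = 2 ∨ j = 3 ∨ j = 4 := by
  revert j
  decide

private theorem pw {b : ℝ} (hb : 1 ≤ b) (n : ℕ) : b ≤ b ^ n * b :=
  le_mul_of_one_le_left (by linarith) (one_le_pow₀ hb)

private theorem f9 {D F B : ℝ} (hB : 0 ≤ B) (hD : D ≤ 1 / 10) (h : (1 - D) * B ≤ F) :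
    9 / 10 * B ≤ F := by
  have h1 : 9 / 10 * B ≤ (1 - D) * B := mul_le_mul_of_nonneg_right (by linarith) hB
  linarith

private theorem mm_le {M : ℝ} {m : Fin 5 → ℝ} (hm : Mb M m) (i j : Fin 5) : m i * m j ≤ M ^ 2 := by
  have h1 := (hm.2 i).2
  have h2 := (hm.2 j).2
  rw [pow_two]
  exact mul_le_mul h1 h2 (hm.pos j).le (by linarith [hm.1])

private theorem rs_aux {b r M : ℝ} (hb : 1 ≤ b) (hr : 0 < r) (h1 : r * b ^ 200 ≤ M)
    (h2 : 1000 * M ≤ b) : r ≤ 1 / (1000 * b ^ 77) := by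
  have hb0 : 0 < b := by linarith
  rw [le_div_iff₀ (by positivity)]
  have e1 : b ^ 200 = b ^ 77 * (b ^ 122 * b) := by ring
  have e3 := pw hb 122
  rw [e1] at h1
  have e5 : r * (b ^ 77 * b) ≤ r * (b ^ 77 * (b ^ 122 * b)) :=
    mul_le_mul_of_nonneg_left (mul_le_mul_of_nonneg_left e3 (by positivity)) hr.le
  have e6 : r * (1000 * b ^ 77) * b ≤ 1 * b := by
    calc r * (1000 * b ^ 77) * b = 1000 * (r * (b ^ 77 * b)) := by ring
      _ ≤ 1000 * (r * (b ^ 77 * (b ^ 122 * b))) := by linarith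
      _ ≤ 1 * b := by linarith
  exact le_of_mul_le_mul_right e6 hb0

private theorem tau_aux {b r M : ℝ} (hb : 1 ≤ b) (hM : 1 ≤ M) (hr : 0 < r)
    (hrb : r * b ^ 200 ≤ M ^ 2) (h2 : 3000 * M ^ 6 ≤ b) :
    20 * M ^ 2 * r ^ 2 * (81 * b ^ 231) ≤ 1 := by
  have hb0 : 0 < b := by linarith
  have h6 : r ^ 2 * b ^ 400 ≤ M ^ 4 := by
    have h7 : (r * b ^ 200) ^ 2 ≤ (M ^ 2) ^ 2 := pow_le_pow_left₀ (by positivity) hrb 2
    calc r ^ 2 * b ^ 400 = (r * b ^ 200) ^ 2 := by ring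
      _ ≤ (M ^ 2) ^ 2 := h7
      _ = M ^ 4 := by ring
  have h9 : b ^ 231 * b ≤ b ^ 400 := by
    have : b ^ 231 * b = b ^ 232 := by ring
    rw [this]
    exact pow_le_pow_right₀ hb (by norm_num)
  have h10 : r ^ 2 * (b ^ 231 * b) ≤ r ^ 2 * b ^ 400 :=
    mul_le_mul_of_nonneg_left h9 (by positivity)
  have h12 : 20 * M ^ 2 * r ^ 2 * (81 * b ^ 231) * b ≤ 1 * b := by
    calc 20 * M ^ 2 * r ^ 2 * (81 * b ^ 231) * b = 1620 * M ^ 2 * (r ^ 2 * (b ^ 231 * b)) := by ring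
      _ ≤ 1620 * M ^ 2 * M ^ 4 := mul_le_mul_of_nonneg_left (h10.trans h6) (by positivity)
      _ = 1620 * M ^ 6 := by ring
      _ ≤ 1 * b := by
        have : 0 ≤ M ^ 6 := by positivity
        linarith
  exact le_of_mul_le_mul_right h12 hb0

private theorem far_aux {b K : ℝ} (hb : 1 ≤ b) (h : K * 3 < b) :
    K / b ^ 96 < 1 / (3 * b ^ 77) := by
  have hb0 : 0 < b := by linarith
  rw [div_lt_div_iff₀ (by positivity) (by positivity)]
  have e2 := pw hb 18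
  calc K * (3 * b ^ 77) = (K * 3) * b ^ 77 := by ring
    _ < (b ^ 18 * b) * b ^ 77 := mul_lt_mul_of_pos_right (by linarith) (by positivity)
    _ = 1 * b ^ 96 := by ring

private theorem pot_aux {b M F : ℝ} (hb : 1 ≤ b) (h : 1000 * M ≤ b) (hF : b ^ 200 ≤ F) :
    M / (1 / (2 * b ^ 77)) < 2 * F := by
  have hb0 : 0 < b := by linarith
  rw [div_div_eq_mul_div, div_one]
  have e2 := pw hb 122
  have h3 : (1000 * M) * b ^ 77 ≤ (b ^ 122 * b) * b ^ 77 :=
    mul_le_mul_of_nonneg_right (by linarith) (by positivity)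
  have h4 : (b ^ 122 * b) * b ^ 77 = b ^ 200 := by ring
  have h5 : 0 < b ^ 200 := by positivity
  linarith

private def sw : Equiv.Perm (Fin 5) := Equiv.swap 0 2 * Equiv.swap 1 3

private theorem sw0 : sw 0 = 2 := by decide
private theorem sw1 : sw 1 = 3 := by decide
private theorem sw2 : sw 2 = 0 := by decide
private theorem sw3 : sw 3 = 1 := by decide
private theorem sw4 : sw 4 = 4 := by decide

theorem si_s1 (P : Par) : ∃ b0 : ℝ, 1 ≤ b0 ∧ ∀ b ≥ b0, ∀ (m : Fin 5 → ℝ) (x : St d) (D : ℝ),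
    D ≤ 1 / 10 → SI P D b m x → S1 P b m x := by
  refine ⟨max 1 P.Zp, le_max_left _ _, fun b hb m x D hD h => ?_⟩
  have hb1 : 1 ≤ b := (le_max_left _ _).trans hb
  have hbZ : P.Zp ≤ b := (le_max_right _ _).trans hb
  have hb0 : 0 < b := by linarith
  have h200 : 0 < b ^ 200 := by positivity
  have hF : b ^ 200 / 2 ≤ FQ m x := by
    have h1 := h.F_ge
    nlinarith
  have hF0 : 0 ≤ FQ m x := by linarith
  refine ⟨h.r_le, hF, by linarith [h.F_le], fun j hj => ?_, h.R3, fun i j hi hj hij => ?_⟩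
  · refine le_trans ?_ (h.x_ge j hj)
    rw [div_le_div_iff₀ h200 (by positivity)]
    have h1 : b ^ 200 = b ^ 96 * (b ^ 103 * b) := by ring
    have h2 : (1 : ℝ) ≤ b ^ 103 := one_le_pow₀ hb1
    have h3 : P.Zp ≤ 2 * (b ^ 103 * b) := by nlinarith
    calc P.Zp * b ^ 96 ≤ 2 * (b ^ 103 * b) * b ^ 96 :=
          mul_le_mul_of_nonneg_right h3 (by positivity)
      _ = 2 * b ^ 200 := by rw [h1]; ring
  · have h1 := h.hard i j hi hj hij
    linarith

theorem siii_s3 (P : Par) : ∃ b0 : ℝ, 1 ≤ b0 ∧ ∀ b ≥ b0, ∀ (m : Fin 5 → ℝ) (x : St d) (D : ℝ),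
    D ≤ 1 / 10 → SIII P D b m x → S3 P b m x := by
  refine ⟨1, le_rfl, fun b hb m x D hD h => ?_⟩
  have hM := P.hM
  have hb0 : 0 < b := by linarith
  have h200 : 0 < b ^ 200 := by positivity
  have hL : 0 ≤ P.L1 b := by
    unfold Par.L1
    positivity
  have hK2 : 0 ≤ P.K2 := by
    unfold Par.K2
    positivity
  refine ⟨fun i j hi hj => (h.dT i j hi hj).trans ?_, ?_, by linarith [h.F_le], h.R3⟩
  · unfold Par.K3
    exact div_le_div_of_nonneg_right (by linarith) (by positivity)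
  · have h1 := h.F_ge
    nlinarith

/-- relevelling -/
theorem si_up {P : Par} {D : ℝ} {k k' : ℕ} {m : Fin 5 → ℝ} {x : St d} (h : SI P D (lev k) m x)
    (hk : k ≤ k') (hr : ‖x.1 0 - x.1 1‖ ≤ P.Cr / lev k' ^ 200)
    (h1 : (1 - D) * lev k' ^ 200 ≤ FQ m x) (h2 : FQ m x ≤ 4 * lev k' ^ 200) :
    SI P D (lev k') m x := by
  have hM := P.hM
  have hk1 := one_le_lev k
  have hk2 := lev_mono hk
  have h0 : 0 < lev k := by linarith
  have h0' : 0 < lev k' := by linarith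
  have h96 : lev k ^ 96 ≤ lev k' ^ 96 := pow_le_pow_left₀ h0.le hk2 96
  have h77 : lev k ^ 77 ≤ lev k' ^ 77 := pow_le_pow_left₀ h0.le hk2 77
  have hK2 : 0 ≤ P.K2 := by
    unfold Par.K2
    positivity
  have hL : P.L1 (lev k) ≤ P.L1 (lev k') := by
    unfold Par.L1
    exact div_le_div_of_nonneg_right h96 (by positivity)
  refine ⟨hr, h1, h2, fun j hj => ?_, fun j hj hlt => ?_, ?_, h.hard⟩
  · refine le_trans ?_ (h.x_ge j hj)
    exact div_le_div_of_nonneg_left (by norm_num) (by positivity) h96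
  · have h3 : P.K2 / lev k' ^ 96 ≤ P.K2 / lev k ^ 96 :=
      div_le_div_of_nonneg_left hK2 (by positivity) h96
    have h4 := h.h_ge j hj (hlt.trans_le h3)
    linarith
  · refine le_trans ?_ h.R3
    exact div_le_div_of_nonneg_left (by norm_num) (by positivity) (by linarith)

theorem switch (P : Par) : ∃ K : ℕ, ∀ k ≥ K, ∀ m : Fin 5 → ℝ, Mb P.M m →
    ∀ (x : St d) (D : ℝ), 0 ≤ D → D ≤ 1 / 10 → x ∈ Inv m P.R → SI P D (lev k) m x →
    hp m 2 3 x ≤ -(2 * FQ m x) →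
    ∃ k', k ≤ k' ∧ ∃ σ : Equiv.Perm (Fin 5), SI P D (lev k') (m ∘ σ) (rel σ x) ∧
      (∀ i j : Fin 5, 2 ≤ i → 2 ≤ j → i ≠ j →
        -(2 * FQ (m ∘ σ) (rel σ x)) < hp (m ∘ σ) i j (rel σ x)) ∧
      (∀ j : Fin 5, 2 ≤ j →
        P.K2 / lev k' ^ 96 < ‖(rel σ x).1 j - cm (m ∘ σ) 0 1 (rel σ x).1‖) := by
  obtain ⟨b1, hb11, hb1⟩ := si_s1 (d := d) P
  obtain ⟨b2, hb22, hb2⟩ := s1_P (d := d) P
  obtain ⟨b3, hb33, hb3⟩ := s1_r (d := d) P
  have hM := P.hM
  have hR := P.hR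
  have hM2 : 1 ≤ P.M ^ 2 := one_le_pow₀ hM
  have hM6 : 1 ≤ P.M ^ 6 := one_le_pow₀ hM
  have hK2 : 1 ≤ P.K2 := by
    unfold Par.K2
    have : 1 ≤ P.M ^ 4 := one_le_pow₀ hM
    linarith
  set B : ℝ := b1 + b2 + b3 + 3000 * P.M ^ 6 + 1000 * P.R + 10 * P.K2 with hB
  obtain ⟨K, hK⟩ := (lev_tendsto.eventually_ge_atTop B).exists_forall_of_atTop
  refine ⟨K, fun k hk m hm x D hD0 hD hI hSI hhp => ?_⟩
  set b : ℝ := lev k with hbdef
  have hbB : B ≤ b := hK k hk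
  have hbb1 : b1 ≤ b := by linarith
  have hbb2 : b2 ≤ b := by linarith
  have hbb3 : b3 ≤ b := by linarith
  have hbM : 3000 * P.M ^ 6 ≤ b := by linarith
  have hbR : 1000 * P.R ≤ b := by linarith
  have hbK : 10 * P.K2 ≤ b := by linarith
  have hbone : 1 ≤ b := by linarith
  have hb0 : 0 < b := by linarith
  have hS1 := hb1 b hbb1 m x D hD hSI
  obtain ⟨hr1, htau1, hhp01⟩ := hb3 b hbb3 m hm x hI hS1
  -- powers of `b`
  have hp1 : ∀ n : ℕ, 1 ≤ b ^ n := fun n => one_le_pow₀ hbone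
  have h200 : 0 < b ^ 200 := by positivity
  have hb77 : 0 < b ^ 77 := by positivity
  have hF9 : 9 / 10 * b ^ 200 ≤ FQ m x := f9 h200.le hD hSI.F_ge
  have hF0 : 0 < FQ m x := by linarith
  have hm0 := hm.pos 2
  have hm3 := hm.pos 3
  have hmm : m 2 * m 3 ≤ P.M ^ 2 := mm_le hm 2 3
  -- the new hard pair
  set r : ℝ := ‖x.1 2 - x.1 3‖ with hrdef
  have hkin : 0 ≤ (1 / 2) * (m 2 * m 3 / (m 2 + m 3)) * ‖x.2 2 - x.2 3‖ ^ 2 := by positivity
  have hpot : -(hp m 2 3 x) ≤ m 2 * m 3 / r := by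
    unfold hp
    linarith
  have hrne : r ≠ 0 := by
    intro h0
    rw [h0, div_zero] at hpot
    linarith
  have hr0 : 0 < r := lt_of_le_of_ne (norm_nonneg _) (Ne.symm hrne)
  have hrle : r * (2 * FQ m x) ≤ P.M ^ 2 := by
    have h1 : 2 * FQ m x ≤ m 2 * m 3 / r := by linarith
    rw [le_div_iff₀ hr0] at h1
    linarith
  have hrb : r * b ^ 200 ≤ P.M ^ 2 := by
    have h1 : r * b ^ 200 ≤ r * (2 * FQ m x) := mul_le_mul_of_nonneg_left (by linarith) hr0.le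
    linarith
  -- `r` is small compared to `1 / b ^ 77`
  have hM26 : P.M ^ 2 ≤ P.M ^ 6 := pow_le_pow_right₀ hM (by norm_num)
  have hrs : r ≤ 1 / (1000 * b ^ 77) := rs_aux hbone hr0 hrb (by linarith)
  have hclose : r < 1 / (2 * b ^ 77) := by
    refine hrs.trans_lt ?_
    exact one_div_lt_one_div_of_lt (by positivity) (by linarith)
  obtain ⟨hf1, hf24, hf34, -⟩ := hb2 b hbb2 m hm x hS1 hclose
  -- relabelled state
  have hm' : Mb P.M (m ∘ sw) := hm.rel sw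
  set x' : St d := rel sw x with hx'
  have q0 : x'.1 0 = x.1 2 := by show x.1 (sw 0) = _; rw [sw0]
  have q1 : x'.1 1 = x.1 3 := by show x.1 (sw 1) = _; rw [sw1]
  have q2 : x'.1 2 = x.1 0 := by show x.1 (sw 2) = _; rw [sw2]
  have q3 : x'.1 3 = x.1 1 := by show x.1 (sw 3) = _; rw [sw3]
  have q4 : x'.1 4 = x.1 4 := by show x.1 (sw 4) = _; rw [sw4]
  have hX : ∀ q : Sp d, ‖q - x.1 2‖ - r ≤ ‖q - cm (m ∘ sw) 0 1 x'.1‖ := by
    intro q
    have e1 : x.1 2 - cm (m ∘ sw) 0 1 x'.1 = (m 3 / (m 2 + m 3)) • (x.1 2 - x.1 3) := by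
      unfold cm
      have ea : (m ∘ sw) 0 = m 2 := by show m (sw 0) = _; rw [sw0]
      have eb : (m ∘ sw) 1 = m 3 := by show m (sw 1) = _; rw [sw1]
      rw [q0, q1, ea, eb]
      have h1 : m 2 + m 3 ≠ 0 := by positivity
      have h2 : x.1 2 = ((m 2 + m 3)⁻¹ * (m 2 + m 3)) • x.1 2 := by
        rw [inv_mul_cancel₀ h1, one_smul]
      nth_rewrite 1 [h2]
      rw [div_eq_inv_mul]
      module
    have e2 : ‖x.1 2 - cm (m ∘ sw) 0 1 x'.1‖ ≤ r := by
      rw [e1, norm_smul, Real.norm_of_nonneg (by positivity)]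
      have h1 : m 3 / (m 2 + m 3) ≤ 1 := by
        rw [div_le_one (by positivity)]
        linarith
      calc m 3 / (m 2 + m 3) * ‖x.1 2 - x.1 3‖ ≤ 1 * ‖x.1 2 - x.1 3‖ :=
            mul_le_mul_of_nonneg_right h1 (norm_nonneg _)
        _ = r := one_mul _
    have e3 : ‖q - x.1 2‖ ≤ ‖q - cm (m ∘ sw) 0 1 x'.1‖ + ‖x.1 2 - cm (m ∘ sw) 0 1 x'.1‖ := by
      have h1 : q - x.1 2 = (q - cm (m ∘ sw) 0 1 x'.1) - (x.1 2 - cm (m ∘ sw) 0 1 x'.1) := by abel
      rw [h1]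
      exact norm_sub_le _ _
    linarith
  have hfar : ∀ j : Fin 5, 2 ≤ j → 1 / (3 * b ^ 77) ≤ ‖x'.1 j - cm (m ∘ sw) 0 1 x'.1‖ := by
    have e0 : 1 / (3 * b ^ 77) ≤ 1 / (2 * b ^ 77) - 1 / (1000 * b ^ 77) := by
      have : 1 / (2 * b ^ 77) - 1 / (1000 * b ^ 77) - 1 / (3 * b ^ 77) =
          (1 / 2 - 1 / 1000 - 1 / 3) / b ^ 77 := by
        field_simp
      have h2 : 0 ≤ (1 / 2 - 1 / 1000 - 1 / 3) / b ^ 77 := by positivity
      linarith
    have e1 : ∀ q : Sp d, 1 / (2 * b ^ 77) ≤ ‖q - x.1 2‖ →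
        1 / (3 * b ^ 77) ≤ ‖q - cm (m ∘ sw) 0 1 x'.1‖ := by
      intro q hq
      have := hX q
      linarith
    intro j hj
    rcases three j hj with rfl | rfl | rfl
    · rw [q2]
      exact e1 _ (hf1 0 2 (by decide) (by decide))
    · rw [q3]
      exact e1 _ (hf1 1 2 (by decide) (by decide))
    · rw [q4]
      refine e1 _ ?_
      rw [norm_sub_rev]
      exact hf24
  -- energies
  have hham : |Ham m x| ≤ P.R := hI.2.1
  have hhamQ := ham_Q (m := m ∘ sw) (fun i => hm'.pos i) x'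
  have hhamr : Ham (m ∘ sw) x' = Ham m x := ham_rel sw x
  have hhpr : hp (m ∘ sw) 0 1 x' = hp m 2 3 x := by
    rw [hx', hp_rel, sw0, sw1]
  have hr01 : ‖x'.1 0 - x'.1 1‖ = r := by rw [q0, q1]
  have htau : |tauQ (m ∘ sw) x'.1| ≤ 1 := by
    have h1 := tauQ_le (q := x'.1) hm' (by rw [hr01]; exact hr0) (by
      intro j hj
      rw [hr01]
      refine le_trans ?_ (hfar j hj)
      refine (mul_le_mul_of_nonneg_left hrs (by norm_num : (0 : ℝ) ≤ 4)).trans ?_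
      rw [mul_one_div, div_le_div_iff₀ (by positivity) (by positivity)]
      linarith)
    rw [hr01] at h1
    refine h1.trans ?_
    have h2 : ∀ j : Fin 5, 2 ≤ j → 1 / ‖x'.1 j - cm (m ∘ sw) 0 1 x'.1‖ ^ 3 ≤ 27 * b ^ 231 := by
      intro j hj
      have h3 := hfar j hj
      have h4 : (1 / (3 * b ^ 77)) ^ 3 ≤ ‖x'.1 j - cm (m ∘ sw) 0 1 x'.1‖ ^ 3 :=
        pow_le_pow_left₀ (by positivity) h3 3
      calc 1 / ‖x'.1 j - cm (m ∘ sw) 0 1 x'.1‖ ^ 3 ≤ 1 / (1 / (3 * b ^ 77)) ^ 3 :=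
            one_div_le_one_div_of_le (by positivity) h4
        _ = 27 * b ^ 231 := by
            field_simp
            ring
    have h3 := h2 2 (by decide)
    have h4 := h2 3 (by decide)
    have h5 := h2 4 (by decide)
    have h11 : 20 * P.M ^ 2 * r ^ 2 * (1 / ‖x'.1 2 - cm (m ∘ sw) 0 1 x'.1‖ ^ 3 +
        1 / ‖x'.1 3 - cm (m ∘ sw) 0 1 x'.1‖ ^ 3 + 1 / ‖x'.1 4 - cm (m ∘ sw) 0 1 x'.1‖ ^ 3) ≤
        20 * P.M ^ 2 * r ^ 2 * (81 * b ^ 231) :=
      mul_le_mul_of_nonneg_left (by linarith) (by positivity)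
    exact h11.trans (tau_aux hbone hM hr0 hrb hbM)
  rw [abs_le] at hham htau
  have hRb : 1000 * P.R ≤ b ^ 200 := by
    refine hbR.trans ?_
    calc b = b ^ 1 := (pow_one b).symm
      _ ≤ b ^ 200 := pow_le_pow_right₀ hbone (by norm_num)
  set F' : ℝ := FQ (m ∘ sw) x' with hF'
  have hF1 : 19 / 10 * FQ m x ≤ F' := by
    have h1 : F' = Ham m x - hp m 2 3 x - tauQ (m ∘ sw) x'.1 := by
      rw [hhamr, hhpr] at hhamQ
      linarith
    linarith [hham.1, htau.2]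
  obtain ⟨k', hkk', hk1, hk2⟩ := lev_choose (k := k) (D := D) (F := F') hD0 (by
    have := hSI.F_ge
    linarith)
  have hlev := lev_mono hkk'
  have hbb' : b ≤ lev k' := hlev
  have hb0' : 0 < lev k' := by linarith
  have h96 : b ^ 96 ≤ lev k' ^ 96 := pow_le_pow_left₀ hb0.le hbb' 96
  have h77 : b ^ 77 ≤ lev k' ^ 77 := pow_le_pow_left₀ hb0.le hbb' 77
  have hKfar : P.K2 / lev k' ^ 96 < 1 / (3 * b ^ 77) := by
    have h1 : P.K2 / lev k' ^ 96 ≤ P.K2 / b ^ 96 :=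
      div_le_div_of_nonneg_left (by linarith) (by positivity) h96
    exact h1.trans_lt (far_aux hbone (by linarith))
  have hstrict : ∀ i j : Fin 5, 2 ≤ i → 2 ≤ j → i ≠ j → -(2 * F') < hp (m ∘ sw) i j x' := by
    have h1 : P.M ^ 2 / (1 / (2 * b ^ 77)) < 2 * F' :=
      pot_aux hbone (by linarith) (by linarith)
    have h2 : -(2 * F') < hp m 0 1 x := by linarith
    have h3 : -(2 * F') < hp m 0 4 x := by
      have := hp_ge hm 0 4 x (δ := 1 / (2 * b ^ 77)) (by positivity) (hf1 0 4 (by decide) (by decide))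
      linarith
    have h4 : -(2 * F') < hp m 1 4 x := by
      have := hp_ge hm 1 4 x (δ := 1 / (2 * b ^ 77)) (by positivity) (hf1 1 4 (by decide) (by decide))
      linarith
    intro i j hi hj hij
    rw [hx', hp_rel]
    rcases three i hi with rfl | rfl | rfl <;> rcases three j hj with rfl | rfl | rfl
    · exact absurd rfl hij
    · rw [sw2, sw3]; exact h2
    · rw [sw2, sw4]; exact h3
    · rw [sw2, sw3, hp_comm]; exact h2
    · exact absurd rfl hij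
    · rw [sw3, sw4]; exact h4
    · rw [sw2, sw4, hp_comm]; exact h3
    · rw [sw3, sw4, hp_comm]; exact h4
    · exact absurd rfl hij
  refine ⟨k', hkk', sw, ⟨?_, hk1, hk2, fun j hj => ?_, fun j hj hlt => ?_, ?_, ?_⟩, ?_, fun j hj => ?_⟩
  · -- `r_le`
    rw [hr01]
    have h1 : m 2 * m 3 / r ≥ F' - P.R - 1 := by
      have h1 : F' = Ham m x - hp m 2 3 x - tauQ (m ∘ sw) x'.1 := by
        rw [hhamr, hhpr] at hhamQ
        linarith
      linarith [hham.2, htau.1]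
    have h2 : F' / 2 ≤ m 2 * m 3 / r := by linarith
    rw [le_div_iff₀ hr0] at h2
    rw [le_div_iff₀ (by positivity)]
    unfold Par.Cr
    have h3 : 9 / 10 * lev k' ^ 200 ≤ F' := f9 (by positivity) hD hk1
    have h4 : 9 / 10 * lev k' ^ 200 / 2 * r ≤ P.M ^ 2 := by
      have : 9 / 10 * lev k' ^ 200 / 2 * r ≤ F' / 2 * r :=
        mul_le_mul_of_nonneg_right (by linarith) hr0.le
      linarith
    linarith
  · refine le_trans ?_ (hfar j hj)
    have h2 : 2 / lev k' ^ 96 ≤ 2 / b ^ 96 :=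
      div_le_div_of_nonneg_left (by norm_num) (by positivity) h96
    exact h2.trans (far_aux hbone (by linarith)).le
  · exfalso
    have := hfar j hj
    linarith
  · have h1 : Rg 3 x'.1 = Rg 3 x.1 := Rg_rel sw x.1
    rw [h1]
    refine le_trans ?_ hSI.R3
    exact div_le_div_of_nonneg_left (by norm_num) (by positivity) (by linarith)
  · exact fun i j hi hj hij => (hstrict i j hi hj hij).le
  · exact hstrict
  · exact hKfar.trans_le (hfar j hj)

end NB5
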