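import Mathlib
import Pool.Agent.NB5.Defs
import Pool.Agent.NB5.Stp
import Pool.Agent.NB5.P5L
import Pool.Agent.NB5.S3F
import Pool.Agent.NB5.T31
import Pool.Agent.NB5.Swi
import Pool.Agent.NB5.RelD

/-!
# Mode III backwards in time (project NB5, module NB5-M3)

WLOG `σ = 1` in `StrIII` (`Cx.rel`, `StrIII_rel`, `StrI_rel`, `Done_rel`). If `t = τ`: `FT ≥ (1-D) b^200 ≥ b^200/2 ≥
lev k1^200/2`, `Done`. Otherwise `stop` on `[τ, t]` with the functions `K3/b^96 - ‖q i - q j‖`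
(`i, j ≤ 2`), `FT - b^200/2`, `40 b^200 - FT`, `Rg 3 - 1/(2 b^77)` (`b = lev k`), all `≥ 0` at `t` (first
with the first and the last ones, so that `FT` is continuous). We get
`t3`, `S3 P b m (γ s)` on `[t3, t]`, so `TG P m γ t3 t1 k1 k`. `drift_int` with `f = FT m (γ ·)`
(`hasDerivAt_FT`, distances from `s3_facts`), `drift_III`, `gD_le_G`: `|FT' | ≤ b^200 (G + b^(-90))`, so
`|FT (t3) - FT (t)| ≤ b^200 (∫_{t3}^t G + (t - t3)/b^50)`; with `1 ≤ C`:
`FT (γ t3) - L1 b ≥ (1 - Dg (t3)) b^200` (additivity of `∫_{t3}^{t1} G`, `lev k1 ≤ b`), `FT (γ t3) ≤ 21 b^200`.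
`p5`: `Rg 3 (γ t3).1 > 1/(2 b^77)`. So if `t3 > τ` the function which vanishes at `t3` is one of the first
kind: `three_to_one` with `D = Dg (t3) ≤ 1/10` gives `SI` at `t3`, and `t3 < t` because at `t` the diameter
is `≤ 3 K2/b^96 < K3/b^96`. `TG P m γ t3 t1 k1 k'` by monotonicity. If `t3 = τ`: `Done`.
(Take the `K` of the statement at least `P.k0`, needed by `gD_le_G` and `p5`.)
-/

open MeasureTheory Set Filter Topology Metric
open scoped NNReal ENNReal RealInnerProductSpace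

namespace NB5

open HDN

variable {d : ℕ}

/-- the integral of the weight over a subinterval -/
theorem Cx.int_le {P : Par} {ε : ℝ} {m : Fin 5 → ℝ} {γ : ℝ → St d} {τ T : ℝ}
    (h : Cx P ε m γ τ T) {a c : ℝ} (ha : τ ≤ a) (hc : c < T) :
    ∫⁻ s in Icc a c, G P m (γ s) ≤ ENNReal.ofReal ε := by
  refine le_trans (lintegral_mono_set ?_) h.hG
  intro s hs
  exact ⟨ha.trans hs.1, hs.2.trans_lt hc⟩

/-- `Dg` is small for small `ε` and large `k1` -/
theorem Dg_small (P : Par) {C : ℝ} (hC : 0 < C) : ∃ ε0 > 0, ∃ K : ℕ, ∀ ε ≤ ε0,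
    ∀ (m : Fin 5 → ℝ) (γ : ℝ → St d) (τ T : ℝ), Cx P ε m γ τ T →
    ∀ (t t1 : ℝ) (k1 : ℕ), K ≤ k1 → τ ≤ t → t ≤ t1 → t1 < T →
    0 ≤ Dg P C m γ t t1 k1 ∧ Dg P C m γ t t1 k1 ≤ 1 / 10 := by
  obtain ⟨K, hK⟩ := (tendsto_atTop.1 lev_tendsto (20 * C)).exists
  refine ⟨1 / (20 * C), by positivity, K, ?_⟩
  intro ε hε m γ τ T h t t1 k1 hk1 hτt htt1 ht1
  have hI : (∫⁻ s in Icc t t1, G P m (γ s)).toReal ≤ 1 / (20 * C) := by
    have h1 := h.int_le hτt ht1
    have h2 : ∫⁻ s in Icc t t1, G P m (γ s) ≤ ENNReal.ofReal (1 / (20 * C)) :=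
      h1.trans (ENNReal.ofReal_le_ofReal hε)
    exact ENNReal.toReal_le_of_le_ofReal (by positivity) h2
  have hl1 : 1 ≤ lev k1 := one_le_lev k1
  have hl : 20 * C ≤ lev k1 ^ 50 := by
    calc 20 * C ≤ lev K := hK
      _ ≤ lev k1 := lev_mono hk1
      _ = lev k1 ^ 1 := (pow_one _).symm
      _ ≤ lev k1 ^ 50 := pow_le_pow_right₀ hl1 (by norm_num)
  have hd0 : 0 ≤ (t1 - t) / lev k1 ^ 50 := div_nonneg (by linarith) (by positivity)
  have hd : (t1 - t) / lev k1 ^ 50 ≤ 1 / (20 * C) := by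
    have h1 : t1 - t ≤ 1 := by linarith [h.hT]
    calc (t1 - t) / lev k1 ^ 50 ≤ 1 / lev k1 ^ 50 := by gcongr
      _ ≤ 1 / (20 * C) := one_div_le_one_div_of_le (by positivity) hl
  unfold Dg
  constructor
  · have := ENNReal.toReal_nonneg (a := ∫⁻ s in Icc t t1, G P m (γ s))
    positivity
  · calc C * ((∫⁻ s in Icc t t1, G P m (γ s)).toReal + (t1 - t) / lev k1 ^ 50)
        ≤ C * (1 / (20 * C) + 1 / (20 * C)) := by gcongr
      _ = 1 / 10 := by
        field_simp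
        norm_num

/-- additivity of `Dg` -/
theorem Dg_add (P : Par) {C ε : ℝ} {m : Fin 5 → ℝ} {γ : ℝ → St d} {τ T : ℝ}
    (h : Cx P ε m γ τ T) {t' t t1 : ℝ} {k1 : ℕ} (h0 : τ ≤ t') (h1 : t' ≤ t) (h2 : t ≤ t1)
    (h3 : t1 < T) :
    Dg P C m γ t' t1 k1 = Dg P C m γ t t1 k1 +
      C * ((∫⁻ s in Icc t' t, G P m (γ s)).toReal + (t - t') / lev k1 ^ 50) := by
  have e : ∫⁻ s in Icc t' t1, G P m (γ s) =
      (∫⁻ s in Icc t' t, G P m (γ s)) + ∫⁻ s in Icc t t1, G P m (γ s) := by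
    have e1 : Icc t' t1 = Ico t' t ∪ Icc t t1 := (Ico_union_Icc_eq_Icc h1 h2).symm
    rw [e1, lintegral_union measurableSet_Icc]
    · congr 1
      exact setLIntegral_congr Ico_ae_eq_Icc
    · rw [Set.disjoint_left]
      rintro s hs hs'
      exact absurd hs.2 (not_lt.2 hs'.1)
  have f1 : ∫⁻ s in Icc t' t, G P m (γ s) ≠ ⊤ :=
    ((h.int_le h0 (h2.trans_lt h3)).trans_lt ENNReal.ofReal_lt_top).ne
  have f2 : ∫⁻ s in Icc t t1, G P m (γ s) ≠ ⊤ :=
    ((h.int_le (h0.trans h1) h3).trans_lt ENNReal.ofReal_lt_top).ne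
  unfold Dg
  rw [e, ENNReal.toReal_add f1 f2]
  ring

theorem continuousOn_grav_comp {S : Set ℝ} {g : ℝ → Sp d} (hg : ContinuousOn g S)
    (h0 : ∀ s ∈ S, g s ≠ 0) : ContinuousOn (fun s => grav (g s)) S := by
  unfold grav
  exact ((hg.norm.pow 3).inv₀ fun s hs => pow_ne_zero _ (norm_ne_zero_iff.2 (h0 s hs))).smul hg

/-- `dFT` is continuous along a curve -/
theorem continuousOn_dFT {m : Fin 5 → ℝ} {γ : ℝ → St d} {S : Set ℝ} (hγ : ContinuousOn γ S)
    (h1 : ∀ s ∈ S, ∀ i j : Fin 5, i ≤ 2 → 3 ≤ j → 0 < ‖(γ s).1 i - (γ s).1 j‖)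
    (h2 : ∀ s ∈ S, ∀ j : Fin 5, 3 ≤ j → 0 < ‖(γ s).1 j - cm3 m 0 1 2 (γ s).1‖) :
    ContinuousOn (fun s => dFT m (γ s)) S := by
  have hcq : ContinuousOn (fun s => (γ s).1) S := continuous_fst.comp_continuousOn hγ
  have hcv : ContinuousOn (fun s => (γ s).2) S := continuous_snd.comp_continuousOn hγ
  have hcqi : ∀ i, ContinuousOn (fun s => (γ s).1 i) S := fun i =>
    (continuous_apply i).comp_continuousOn hcq
  have hcvi : ∀ i, ContinuousOn (fun s => (γ s).2 i) S := fun i =>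
    (continuous_apply i).comp_continuousOn hcv
  have cc : ∀ (c : ℝ) (g : ℝ → Sp d), ContinuousOn g S → ContinuousOn (fun s => c • g s) S :=
    fun c g hg => by
      have h3 : ContinuousOn (fun _ : ℝ => c) S := continuousOn_const
      exact h3.smul hg
  have cX : ContinuousOn (fun s => cm3 m 0 1 2 (γ s).1) S :=
    cc _ _ (((cc _ _ (hcqi 0)).add (cc _ _ (hcqi 1))).add (cc _ _ (hcqi 2)))
  have cV : ContinuousOn (fun s => cm3 m 0 1 2 (γ s).2) S :=
    cc _ _ (((cc _ _ (hcvi 0)).add (cc _ _ (hcvi 1))).add (cc _ _ (hcvi 2)))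
  have cg : ∀ i j : Fin 5, i ≤ 2 → 3 ≤ j →
      ContinuousOn (fun s => grav ((γ s).1 j - (γ s).1 i)) S := by
    intro i j hi hj
    apply continuousOn_grav_comp ((hcqi j).sub (hcqi i))
    intro s hs
    have h3 := h1 s hs i j hi hj
    rw [norm_sub_rev] at h3
    exact norm_pos_iff.1 h3
  have cgX : ∀ j : Fin 5, 3 ≤ j →
      ContinuousOn (fun s => grav ((γ s).1 j - cm3 m 0 1 2 (γ s).1)) S := by
    intro j hj
    apply continuousOn_grav_comp ((hcqi j).sub cX)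
    intro s hs
    exact norm_pos_iff.1 (h2 s hs j hj)
  have cD : ∀ j : Fin 5, 3 ≤ j → ContinuousOn (fun s => DT m (γ s).1 j) S := fun j hj =>
    (((cc _ _ (cgX j hj)).sub (cc _ _ (cg 0 j (by decide) hj))).sub
      (cc _ _ (cg 1 j (by decide) hj))).sub (cc _ _ (cg 2 j (by decide) hj))
  have ci : ∀ j : Fin 5, 3 ≤ j → ContinuousOn (fun s =>
      m j * ⟪(γ s).2 j - cm3 m 0 1 2 (γ s).2, DT m (γ s).1 j⟫) S := fun j hj =>
    continuousOn_const.mul (((hcvi j).sub cV).inner (cD j hj))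
  exact (ci 3 (by decide)).add (ci 4 (by decide))

/-- the case of the trivial relabelling -/
theorem mode_III_core (P : Par) : ∀ C ≥ 1, ∃ ε0 > 0, ∃ K : ℕ, ∀ ε ≤ ε0,
    ∀ (m : Fin 5 → ℝ) (γ : ℝ → St d) (τ T : ℝ), Cx P ε m γ τ T →
    ∀ (t t1 : ℝ) (k1 k : ℕ), K ≤ k1 → τ ≤ t → t1 < T → 1 / lev k1 ^ 77 ≤ Rg 3 (γ t1).1 →
    k1 ≤ k → t ≤ t1 → TG P m γ t t1 k1 k → SIII P (Dg P C m γ t t1 k1) (lev k) m (γ t) →
    Done m γ τ k1 ∨ ∃ t' ∈ Ico τ t, ∃ k', k ≤ k' ∧ StrI P C m γ t' t1 k1 k' := by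
  intro C hC
  obtain ⟨ε1, hε1, K1, hDg⟩ := Dg_small (d := d) P (lt_of_lt_of_le one_pos hC)
  obtain ⟨ε2, hε2, hp5⟩ := p5 (d := d) P
  obtain ⟨bA, hbA1, hsiii⟩ := siii_s3 (d := d) P
  obtain ⟨bB, hbB1, hdrift⟩ := drift_III (d := d) P
  obtain ⟨K2, h31⟩ := three_to_one (d := d) P
  obtain ⟨K3, hK3⟩ := (tendsto_atTop.1 lev_tendsto (max (max bA bB) (s3b0 P))).exists
  refine ⟨min ε1 ε2, lt_min hε1 hε2, max (max K1 K2) (max K3 P.k0), ?_⟩
  intro ε hε m γ τ T h t t1 k1 k hK hτt ht1 hR31 hk1k htt1 hTG hS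
  have hεA : ε ≤ ε1 := hε.trans (min_le_left _ _)
  have hεB : ε ≤ ε2 := hε.trans (min_le_right _ _)
  have hKK1 : K1 ≤ k1 := ((le_max_left _ _).trans (le_max_left _ _)).trans hK
  have hKK2 : K2 ≤ k1 := ((le_max_right _ _).trans (le_max_left _ _)).trans hK
  have hKK3 : K3 ≤ k1 := ((le_max_left _ _).trans (le_max_right _ _)).trans hK
  have hKk0 : P.k0 ≤ k1 := ((le_max_right _ _).trans (le_max_right _ _)).trans hK
  set b := lev k with hbdef
  have hb1 : 1 ≤ b := one_le_lev k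
  have hb0 : 0 < b := lt_of_lt_of_le one_pos hb1
  have hblk : lev k1 ≤ b := lev_mono hk1k
  have hlk0 : 0 < lev k1 := lt_of_lt_of_le one_pos (one_le_lev k1)
  have hbig : max (max bA bB) (s3b0 P) ≤ b := hK3.trans (lev_mono (hKK3.trans hk1k))
  have hbA : bA ≤ b := ((le_max_left _ _).trans (le_max_left _ _)).trans hbig
  have hbB : bB ≤ b := ((le_max_right _ _).trans (le_max_left _ _)).trans hbig
  have hbS : s3b0 P ≤ b := (le_max_right _ _).trans hbig
  have hM := P.hM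
  have hM0 : 0 < P.M := lt_of_lt_of_le one_pos hM
  have hp := fun i => h.hm.pos i
  have htT : t < T := htt1.trans_lt ht1
  have hL1 : 0 ≤ P.L1 b := by unfold Par.L1; positivity
  have hK2 : P.K2 = 32 * P.M ^ 4 := rfl
  have hK3' : P.K3 = 4 * P.K2 := rfl
  have hK2pos : 0 < P.K2 := by rw [hK2]; positivity
  -- `Done` from a lower bound of `FT`
  have hdone : b ^ 200 / 2 ≤ FT m (γ τ) → Done m γ τ k1 := by
    intro hF
    refine ⟨1, Or.inr ?_⟩
    change lev k1 ^ 200 / 2 ≤ FT m (γ τ)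
    have : lev k1 ^ 200 ≤ b ^ 200 := pow_le_pow_left₀ hlk0.le hblk 200
    linarith
  have hDt := hDg ε hεA m γ τ T h t t1 k1 hKK1 hτt htt1 ht1
  have hS3t : S3 P b m (γ t) := hsiii b hbA m (γ t) _ hDt.2 hS
  -- continuity
  have hcont : ∀ s ∈ Icc τ t, ContinuousAt γ s := fun s hs =>
    (h.sol s ⟨hs.1, hs.2.trans_lt htT⟩).2.continuousAt
  have hcγ : ContinuousOn γ (Icc τ t) := fun s hs => (hcont s hs).continuousWithinAt
  have hcq : ContinuousOn (fun s => (γ s).1) (Icc τ t) := continuous_fst.comp_continuousOn hcγ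
  have hcv : ContinuousOn (fun s => (γ s).2) (Icc τ t) := continuous_snd.comp_continuousOn hcγ
  have hcqi : ∀ i, ContinuousOn (fun s => (γ s).1 i) (Icc τ t) := fun i =>
    (continuous_apply i).comp_continuousOn hcq
  have hcvi : ∀ i, ContinuousOn (fun s => (γ s).2 i) (Icc τ t) := fun i =>
    (continuous_apply i).comp_continuousOn hcv
  have hcd : ∀ i j, ContinuousOn (fun s => ‖(γ s).1 i - (γ s).1 j‖) (Icc τ t) := fun i j =>
    ((hcqi i).sub (hcqi j)).norm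
  have hcR : ContinuousOn (fun s => Rg 3 (γ s).1) (Icc τ t) :=
    (continuous_Rg (by norm_num) (by norm_num)).comp_continuousOn hcq
  -- first stopping time
  let fA : (Fin 5 × Fin 5) ⊕ Unit → ℝ → ℝ := fun c s => match c with
    | Sum.inl (i, j) => if i ≤ 2 ∧ j ≤ 2 then P.K3 / b ^ 96 - ‖(γ s).1 i - (γ s).1 j‖ else 1
    | Sum.inr _ => Rg 3 (γ s).1 - 1 / (2 * b ^ 77)
  have hfAc : ∀ c, ContinuousOn (fA c) (Icc τ t) := by
    rintro (⟨i, j⟩ | u)
    · by_cases hij : i ≤ 2 ∧ j ≤ 2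
      · have : fA (Sum.inl (i, j)) = fun s => P.K3 / b ^ 96 - ‖(γ s).1 i - (γ s).1 j‖ := by
          funext s
          simp only [fA, if_pos hij]
        rw [this]
        exact continuousOn_const.sub (hcd i j)
      · have : fA (Sum.inl (i, j)) = fun _ => 1 := by
          funext s
          simp only [fA, if_neg hij]
        rw [this]
        exact continuousOn_const
    · exact hcR.sub continuousOn_const
  have hfA0 : ∀ c, 0 ≤ fA c t := by
    rintro (⟨i, j⟩ | u)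
    · by_cases hij : i ≤ 2 ∧ j ≤ 2
      · simp only [fA, if_pos hij]
        linarith [hS3t.dT i j hij.1 hij.2]
      · simp only [fA, if_neg hij]
        norm_num
    · simp only [fA]
      linarith [hS3t.R3]
  obtain ⟨tA, htA, hposA, hendA⟩ := stop hτt hfAc hfA0
  have hgeo : ∀ s ∈ Icc tA t, (∀ i j : Fin 5, i ≤ 2 → j ≤ 2 →
      ‖(γ s).1 i - (γ s).1 j‖ ≤ P.K3 / b ^ 96) ∧ 1 / (2 * b ^ 77) ≤ Rg 3 (γ s).1 := by
    intro s hs
    constructor
    · intro i j hi hj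
      have := hposA s hs (Sum.inl (i, j))
      simp only [fA, if_pos (And.intro hi hj)] at this
      linarith
    · have := hposA s hs (Sum.inr ())
      simp only [fA] at this
      linarith
  have hXfar : ∀ s ∈ Icc tA t, ∀ j : Fin 5, 3 ≤ j →
      1 / (3 * b ^ 77) ≤ ‖(γ s).1 j - cm3 m 0 1 2 (γ s).1‖ := fun s hs =>
    s3_cm3_geo P hbS h.hm (hgeo s hs).1 (hgeo s hs).2
  have hsubA : Icc tA t ⊆ Icc τ t := Icc_subset_Icc_left htA.1
  have hFT' : ∀ s ∈ Icc tA t, HasDerivAt (fun r => FT m (γ r)) (dFT m (γ s)) s := by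
    intro s hs
    have hs' := hsubA hs
    have hsol := h.sol s ⟨hs'.1, hs'.2.trans_lt htT⟩
    exact hasDerivAt_FT hp hsol.1 hsol.2
      (lt_of_lt_of_le (by positivity) (hXfar s hs 3 (by decide)))
      (lt_of_lt_of_le (by positivity) (hXfar s hs 4 (by decide)))
  have hcFT : ContinuousOn (fun r => FT m (γ r)) (Icc tA t) := fun s hs =>
    (hFT' s hs).continuousAt.continuousWithinAt
  -- second stopping time
  let fB : Bool → ℝ → ℝ := fun c s => match c with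
    | true => FT m (γ s) - b ^ 200 / 2
    | false => 40 * b ^ 200 - FT m (γ s)
  have hfBc : ∀ c, ContinuousOn (fB c) (Icc tA t) := by
    rintro (_ | _)
    · exact continuousOn_const.sub hcFT
    · exact hcFT.sub continuousOn_const
  have hfB0 : ∀ c, 0 ≤ fB c t := by
    rintro (_ | _)
    · simp only [fB]
      linarith [hS3t.F_le]
    · simp only [fB]
      linarith [hS3t.F_ge]
  obtain ⟨t3, ht3, hposB, hendB⟩ := stop htA.2 hfBc hfB0
  have hsub3A : Icc t3 t ⊆ Icc tA t := Icc_subset_Icc_left ht3.1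
  have hS3 : ∀ s ∈ Icc t3 t, S3 P b m (γ s) := by
    intro s hs
    have g := hgeo s (hsub3A hs)
    have f1 := hposB s hs true
    have f2 := hposB s hs false
    simp only [fB] at f1 f2
    exact ⟨g.1, by linarith, by linarith, g.2⟩
  have hτ3 : τ ≤ t3 := htA.1.trans ht3.1
  have h3T : t3 < T := ht3.2.trans_lt htT
  have h31' : t3 ≤ t1 := ht3.2.trans htt1
  have hTG3 : TG P m γ t3 t1 k1 k := by
    intro s hs
    rcases le_total t s with hts | hst
    · exact hTG s ⟨hts, hs.2⟩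
    · exact ⟨k, hk1k, le_rfl, 1, Or.inr (hS3 s ⟨hs.1, hst⟩)⟩
  have hD3 := hDg ε hεA m γ τ T h t3 t1 k1 hKK1 hτ3 h31' ht1
  have hadd := Dg_add P (C := C) h (k1 := k1) hτ3 ht3.2 htt1 ht1
  -- the drift
  have hfin : ∫⁻ s in Icc t3 t, G P m (γ s) ≠ ⊤ :=
    ((h.int_le hτ3 htT).trans_lt ENNReal.ofReal_lt_top).ne
  have hcd' : ContinuousOn (fun s => dFT m (γ s)) (Icc t3 t) := by
    apply continuousOn_dFT (hcγ.mono (hsub3A.trans hsubA))
    · intro s hs i j hi hj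
      have h1 := (s3_far_geo P hbS (hgeo s (hsub3A hs)).1 (hgeo s (hsub3A hs)).2).1 i j hi hj
      exact lt_of_lt_of_le (by positivity) h1
    · intro s hs j hj
      exact lt_of_lt_of_le (by positivity) (hXfar s (hsub3A hs) j hj)
  have e110 : b ^ 110 = b ^ 200 * (1 / b ^ 90) := by field_simp
  have e220 : b ^ 220 = b ^ 200 * b ^ 20 := by ring
  have hdr : ∀ s ∈ Icc t3 t, ENNReal.ofReal |dFT m (γ s)| ≤
      ENNReal.ofReal (b ^ 200) * (G P m (γ s) + ENNReal.ofReal (1 / b ^ 90)) := by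
    intro s hs
    have hS3s := hS3 s hs
    have hs' := hsubA (hsub3A hs)
    have hinv := h.inv s ⟨hs'.1, hs'.2.trans_lt htT⟩
    obtain ⟨d1, d2⟩ := hdrift b hbB m h.hm (γ s) hinv hS3s
    by_cases hfar : 1 / b ^ 50 ≤ ‖(γ s).1 3 - cm3 m 0 1 2 (γ s).1‖ ∧
        1 / b ^ 50 ≤ ‖(γ s).1 4 - cm3 m 0 1 2 (γ s).1‖
    · have d3 := d2 hfar.1 hfar.2
      calc ENNReal.ofReal |dFT m (γ s)| ≤ ENNReal.ofReal (b ^ 110) :=
            ENNReal.ofReal_le_ofReal d3
        _ = ENNReal.ofReal (b ^ 200) * ENNReal.ofReal (1 / b ^ 90) := by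
            rw [← ENNReal.ofReal_mul (by positivity), e110]
        _ ≤ ENNReal.ofReal (b ^ 200) * (G P m (γ s) + ENNReal.ofReal (1 / b ^ 90)) :=
            mul_le_mul' le_rfl le_add_self
    · have hnear : ‖(γ s).1 3 - cm3 m 0 1 2 (γ s).1‖ ≤ 1 / b ^ 50 ∨
          ‖(γ s).1 4 - cm3 m 0 1 2 (γ s).1‖ ≤ 1 / b ^ 50 := by
        by_contra hc
        push Not at hc
        exact hfar ⟨hc.1.le, hc.2.le⟩
      have hgD : gD P b m (γ s) = ENNReal.ofReal (b ^ 20) := by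
        unfold gD onSet
        exact if_pos ⟨hS3s, hnear⟩
      have hG : ENNReal.ofReal (b ^ 20) ≤ G P m (γ s) := by
        rw [← hgD]
        exact gD_le_G P (hKk0.trans hk1k) 1 m (γ s)
      calc ENNReal.ofReal |dFT m (γ s)| ≤ ENNReal.ofReal (b ^ 220) :=
            ENNReal.ofReal_le_ofReal d1
        _ = ENNReal.ofReal (b ^ 200) * ENNReal.ofReal (b ^ 20) := by
            rw [← ENNReal.ofReal_mul (by positivity), e220]
        _ ≤ ENNReal.ofReal (b ^ 200) * (G P m (γ s) + ENNReal.ofReal (1 / b ^ 90)) :=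
            mul_le_mul' le_rfl (hG.trans le_self_add)
  have hint := drift_int ht3.2 (by positivity : (0 : ℝ) ≤ b ^ 200)
    (by positivity : (0 : ℝ) ≤ 1 / b ^ 90) (fun s hs => hFT' s (hsub3A hs)) hcd' hfin hdr
  set I3 := (∫⁻ s in Icc t3 t, G P m (γ s)).toReal with hI3
  have hI0 : 0 ≤ I3 := ENNReal.toReal_nonneg
  have hcmp : 1 / b ^ 90 * (t - t3) ≤ (t - t3) / lev k1 ^ 50 := by
    have h1 : lev k1 ^ 50 ≤ b ^ 90 :=
      (pow_le_pow_left₀ hlk0.le hblk 50).trans (pow_le_pow_right₀ hb1 (by norm_num))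
    have h2 : 1 / b ^ 90 ≤ 1 / lev k1 ^ 50 := one_div_le_one_div_of_le (by positivity) h1
    have h3 : 0 ≤ t - t3 := by linarith [ht3.2]
    calc 1 / b ^ 90 * (t - t3) ≤ 1 / lev k1 ^ 50 * (t - t3) := by gcongr
      _ = (t - t3) / lev k1 ^ 50 := by ring
  have hJ0 : 0 ≤ (t - t3) / lev k1 ^ 50 := div_nonneg (by linarith [ht3.2]) (by positivity)
  have hdiff : |FT m (γ t) - FT m (γ t3)| ≤
      b ^ 200 * (Dg P C m γ t3 t1 k1 - Dg P C m γ t t1 k1) := by
    refine hint.trans ?_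
    apply mul_le_mul_of_nonneg_left _ (by positivity)
    rw [hadd]
    nlinarith
  have hab := abs_le.1 hdiff
  have hBpos : 0 < b ^ 200 := by positivity
  have hFlow : (1 - Dg P C m γ t3 t1 k1) * b ^ 200 ≤ FT m (γ t3) - P.L1 b := by
    have := hS.F_ge
    nlinarith [hab.2]
  have hFup : FT m (γ t3) ≤ 21 * b ^ 200 := by
    have h1 := hS.F_le
    have h2 : b ^ 200 * (Dg P C m γ t3 t1 k1 - Dg P C m γ t t1 k1) ≤ b ^ 200 * 1 := by
      apply mul_le_mul_of_nonneg_left _ hBpos.le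
      linarith [hD3.2, hDt.1]
    linarith [hab.1]
  have hFhalf : b ^ 200 / 2 < FT m (γ t3) := by
    have h1 : (1 - 1 / 10) * b ^ 200 ≤ (1 - Dg P C m γ t3 t1 k1) * b ^ 200 := by
      apply mul_le_mul_of_nonneg_right _ hBpos.le
      linarith [hD3.2]
    linarith
  rcases eq_or_lt_of_le hτ3 with heq | hlt
  · left
    apply hdone
    rw [heq]
    exact hFhalf.le
  · right
    have hp5' := hp5 ε hεB m γ τ T h t3 t1 k1 k hKk0 hτ3 h31' ht1 hk1k hTG3 hR31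
    have h3A : t3 = tA := by
      rcases hendB with h1 | ⟨c, hc⟩
      · exact h1
      · exfalso
        rcases c with _ | _
        · simp only [fB] at hc
          linarith
        · simp only [fB] at hc
          linarith
    have hex : ∃ i j : Fin 5, i ≤ 2 ∧ j ≤ 2 ∧ ‖(γ t3).1 i - (γ t3).1 j‖ = P.K3 / b ^ 96 := by
      rcases hendA with h1 | ⟨c, hc⟩
      · exfalso
        rw [h3A, h1] at hlt
        exact lt_irrefl _ hlt
      · rcases c with ⟨i, j⟩ | u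
        · by_cases hij : i ≤ 2 ∧ j ≤ 2
          · simp only [fA, if_pos hij] at hc
            rw [h3A]
            exact ⟨i, j, hij.1, hij.2, by linarith⟩
          · simp only [fA, if_neg hij] at hc
            norm_num at hc
        · exfalso
          simp only [fA] at hc
          rw [← h3A] at hc
          linarith
    have ht3t : t3 < t := by
      rcases eq_or_lt_of_le ht3.2 with h1 | h1
      · exfalso
        obtain ⟨i, j, hi, hj, hij⟩ := hex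
        rw [h1] at hij
        have h2 := hS.dT i j hi hj
        rw [hij, div_le_div_iff_of_pos_right (by positivity), hK3'] at h2
        linarith
      · exact h1
    have hS3t3 := hS3 t3 ⟨le_rfl, ht3.2⟩
    obtain ⟨k', hkk', σ, hSI⟩ := h31 k (hKK2.trans hk1k) m h.hm (γ t3) _ hD3.1 hD3.2
      (h.inv t3 ⟨hτ3, h3T⟩) hS3t3 hFlow hex
    refine ⟨t3, ⟨hτ3, ht3t⟩, k', hkk', hk1k.trans hkk', h31', ?_, σ, hSI⟩
    intro s hs
    obtain ⟨k'', h1, h2, h3⟩ := hTG3 s hs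
    exact ⟨k'', h1, h2.trans hkk', h3⟩

theorem mode_III (P : Par) : ∀ C ≥ 1, ∃ ε0 > 0, ∃ K : ℕ, ∀ ε ≤ ε0,
    ∀ (m : Fin 5 → ℝ) (γ : ℝ → St d) (τ T : ℝ), Cx P ε m γ τ T →
    ∀ (t t1 : ℝ) (k1 k : ℕ), K ≤ k1 → τ ≤ t → t1 < T → 1 / lev k1 ^ 77 ≤ Rg 3 (γ t1).1 →
    StrIII P C m γ t t1 k1 k →
    Done m γ τ k1 ∨ ∃ t' ∈ Ico τ t, ∃ k', k ≤ k' ∧ StrI P C m γ t' t1 k1 k' := by
  intro C hC
  obtain ⟨ε0, hε0, K, hcore⟩ := mode_III_core (d := d) P C hC
  refine ⟨ε0, hε0, K, ?_⟩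
  intro ε hε m γ τ T h t t1 k1 k hK hτt ht1 hR hS
  obtain ⟨hk, htt1, hTG, σ, hσ⟩ := hS
  have h' := h.rel σ
  have hR' : 1 / lev k1 ^ 77 ≤ Rg 3 (rel σ (γ t1)).1 := by
    have e : Rg 3 (rel σ (γ t1)).1 = Rg 3 (γ t1).1 := Rg_rel σ (γ t1).1
    rw [e]
    exact hR
  have hσ' : SIII P (Dg P C (m ∘ σ) (fun t => rel σ (γ t)) t t1 k1) (lev k) (m ∘ σ)
      (rel σ (γ t)) := by
    rw [Dg_rel]
    exact hσ
  rcases hcore ε hε (m ∘ σ) (fun t => rel σ (γ t)) τ T h' t t1 k1 k hK hτt ht1 hR' hk htt1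
    ((TG_rel σ).2 hTG) hσ' with h1 | ⟨t', ht', k', hk', h1⟩
  · exact Or.inl ((Done_rel σ).1 h1)
  · exact Or.inr ⟨t', ht', k', hk', (StrI_rel σ).1 h1⟩

end NB5
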