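import Mathlib
import Pool.Agent.NB5.Defs
import Pool.Agent.NB5.Stp
import Pool.Agent.NB5.P5L
import Pool.Agent.NB5.ExE
import Pool.Agent.NB5.T31
import Pool.Agent.NB5.Swi
import Pool.Agent.NB5.M3

/-!
# Excursions backwards in time (project NB5, module NB5-ExL)

`b = lev k`. `stop` on `[τ, t]` with the functions: `4 M^2/b^200 - r`, `FQ - b^200/2`, `8 b^200 - FQ`,
`‖x_j‖ - Zp/b^200` (`j = 2,3,4`), `Rg 3 - 1/(2 b^77)`, `hp m i j + 3 FQ` (`i ≠ j` in `{2,3,4}`),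
`2/b^96 - ‖x2‖`, `hh m 2 + L1 b`. All are `≥ 0` at `t` (`si_s1`), and all but `2/b^96 - ‖x2‖` are `> 0` at
`t` (`s1_r`, `p5`, ...), and `‖x2‖ < 2/b^96` just before `t` as `⟪x2, w2⟫ > 0`. So `t0 < t`, `Exc P b m γ t0 t`, `TG P m γ
t0 t1 k1 k`. `exc_est` gives `FQ (γ t0) ≥ (1 - Dg (t0)) b^200` (`C ≥ ` the constant of `exc_est`, `Dg_add`) and
`FQ (γ t0) ≤ 5 b^200`; `‖x2‖ > Zp/b^200`. If `t0 = τ`: `Done`. Otherwise one of the functions vanishes at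
`t0`: not `r` (`s1_r`), not `FQ`, not `‖x_j‖` (`j = 3,4` far by `s1_far`), not `Rg 3` (`p5`), not `hp` (distances
between 2,3,4 are `≥ 1/(2 b^77)`). So `‖x2 (t0)‖ = 2/b^96`: `SI` at `t0` at the level `k` or `k+1` (`h_ge`: for
`j = 2` from `Exc.hh_ge`, for `j = 3, 4` vacuous), or `hh m 2 (γ t0) = -L1 b`: then `FT = FQ + L1 b` (`hh_two`),
`SIII` at `t0`: distances in `{0,1,2}` are `≤ 2/b^96 + 2 r ≤ 3 K2/b^96`.
(Take the `K` of the statement at least `P.k0`, needed by `p5`.)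
-/

open MeasureTheory Set Filter Topology Metric
open scoped NNReal ENNReal RealInnerProductSpace

namespace NB5

open HDN

variable {d : ℕ}

/-- inequalities for large `b` -/
private theorem exl_large (P : Par) : ∃ b0 : ℝ, 1 ≤ b0 ∧ ∀ b ≥ b0,
    1 ≤ b ∧ P.Zp / b ^ 200 < 2 / b ^ 96 ∧ P.Zp / b ^ 200 < 1 / (3 * b ^ 77) ∧
    2 / b ^ 96 ≤ 1 / (8 * b ^ 77) ∧ P.K2 / b ^ 96 ≤ 1 / (3 * b ^ 77) ∧
    P.M ^ 2 * (2 * b ^ 77) ≤ b ^ 200 ∧ P.L1 b ≤ b ^ 200 ∧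
    2 / b ^ 96 + P.Cr / b ^ 200 ≤ 3 * P.K2 / b ^ 96 := by
  have hM := P.hM
  have hM2 : 1 ≤ P.M ^ 2 := one_le_pow₀ hM
  have hM4 : 1 ≤ P.M ^ 4 := one_le_pow₀ hM
  have hK2 : P.K2 = 32 * P.M ^ 4 := rfl
  have hCr : P.Cr = 4 * P.M ^ 2 := rfl
  have hZ : 0 ≤ P.Zp := le_trans (by positivity) P.hZ
  refine ⟨3 * P.Zp + 3 * P.K2 + 16 + 4 * P.M ^ 2, by rw [hK2]; nlinarith, fun b hb => ?_⟩
  have hb1 : 1 ≤ b := by rw [hK2] at hb; nlinarith
  have hb0 : 0 < b := by linarith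
  have hp : ∀ n : ℕ, n ≠ 0 → b ≤ b ^ n := fun n hn => le_self_pow₀ hb1 hn
  have h19 := hp 19 (by norm_num)
  have h104 := hp 104 (by norm_num)
  have h123 := hp 123 (by norm_num)
  have e1 : b ^ 200 = b ^ 104 * b ^ 96 := by ring
  have e2 : b ^ 200 = b ^ 123 * b ^ 77 := by ring
  have e3 : b ^ 96 = b ^ 19 * b ^ 77 := by ring
  have p77 : 0 < b ^ 77 := by positivity
  have p96 : 0 < b ^ 96 := by positivity
  have p200 : 0 < b ^ 200 := by positivity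
  have hK : 0 ≤ P.K2 := by rw [hK2]; positivity
  refine ⟨hb1, ?_, ?_, ?_, ?_, ?_, ?_, ?_⟩
  · rw [div_lt_div_iff₀ p200 p96, e1]
    nlinarith
  · rw [div_lt_div_iff₀ p200 (by positivity), e2]
    nlinarith
  · rw [div_le_div_iff₀ p96 (by positivity), e3]
    nlinarith
  · rw [div_le_div_iff₀ p96 (by positivity), e3]
    nlinarith
  · rw [e2]
    nlinarith
  · unfold Par.L1
    have h1 : b ^ 96 / (4 * P.M ^ 2) ≤ b ^ 96 := div_le_self p96.le (by nlinarith)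
    have h2 : b ^ 96 ≤ b ^ 200 := pow_le_pow_right₀ hb1 (by norm_num)
    linarith
  · have h1 : P.Cr / b ^ 200 ≤ 1 / b ^ 96 := by
      rw [div_le_div_iff₀ p200 p96, e1, hCr]
      nlinarith
    have h2 : 3 / b ^ 96 ≤ 3 * P.K2 / b ^ 96 :=
      div_le_div_of_nonneg_right (by rw [hK2]; nlinarith) p96.le
    have h3 : 2 / b ^ 96 + 1 / b ^ 96 = 3 / b ^ 96 := by ring
    linarith

private theorem exl_stop3 {ι κ : Type*} [Finite ι] [Finite κ] {f : ι → ℝ → ℝ} {g : κ → ℝ → ℝ}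
    {h : ℝ → ℝ} {a t : ℝ} (hat : a ≤ t) (hf : ∀ i, ContinuousOn (f i) (Icc a t))
    (hg : ∀ s ∈ Icc a t, (∀ r ∈ Icc s t, ∀ i, 0 ≤ f i r) → ∀ j, ContinuousOn (g j) (Icc s t))
    (hh : ∀ s ∈ Icc a t, (∀ r ∈ Icc s t, (∀ i, 0 ≤ f i r) ∧ ∀ j, 0 ≤ g j r) →
      ContinuousOn h (Icc s t))
    (f0 : ∀ i, 0 ≤ f i t) (g0 : ∀ j, 0 ≤ g j t) (h0 : 0 ≤ h t) :
    ∃ t0 ∈ Icc a t, (∀ s ∈ Icc t0 t, (∀ i, 0 ≤ f i s) ∧ (∀ j, 0 ≤ g j s) ∧ 0 ≤ h s) ∧
      (t0 = a ∨ (∃ i, f i t0 = 0) ∨ (∃ j, g j t0 = 0) ∨ h t0 = 0) := by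
  obtain ⟨u, hu, hu1, hu2⟩ := stop hat hf f0
  obtain ⟨v, hv, hv1, hv2⟩ := stop hu.2 (hg u hu hu1) g0
  have hva : v ∈ Icc a t := ⟨hu.1.trans hv.1, hv.2⟩
  obtain ⟨w, hw, hw1, hw2⟩ := stop (ι := Unit) (f := fun _ => h) hv.2
    (fun _ => hh v hva fun r hr => ⟨fun i => hu1 r ⟨hv.1.trans hr.1, hr.2⟩ i, fun j => hv1 r hr j⟩)
    (fun _ => h0)
  refine ⟨w, ⟨hva.1.trans hw.1, hw.2⟩, fun s hs => ⟨fun i => hu1 s ⟨(hv.1.trans hw.1).trans hs.1,
    hs.2⟩ i, fun j => hv1 s ⟨hw.1.trans hs.1, hs.2⟩ j, hw1 s hs ()⟩, ?_⟩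
  rcases hw2 with hw2 | ⟨_, hw2⟩
  · rcases hv2 with hv2 | hv2
    · rcases hu2 with hu2 | hu2
      · left
        rw [hw2, hv2, hu2]
      · right; left
        rw [hw2, hv2]
        exact hu2
    · right; right; left
      rw [hw2]
      exact hv2
  · right; right; right
    exact hw2

/-- strict inequalities for the fields of `S1` -/
private theorem exl_strict (P : Par) : ∃ b0 : ℝ, 1 ≤ b0 ∧ ∀ b ≥ b0, ∀ m : Fin 5 → ℝ, Mb P.M m →
    ∀ x : St d, x ∈ Inv m P.R → S1 P b m x → ‖x.1 2 - cm m 0 1 x.1‖ ≤ 2 / b ^ 96 →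
    P.Zp / b ^ 200 < ‖x.1 2 - cm m 0 1 x.1‖ → (9 / 10) * b ^ 200 ≤ FQ m x → FQ m x ≤ 5 * b ^ 200 →
    ‖x.1 0 - x.1 1‖ < P.Cr / b ^ 200 ∧ b ^ 200 / 2 < FQ m x ∧ FQ m x < 8 * b ^ 200 ∧
    (∀ j : Fin 5, 2 ≤ j → P.Zp / b ^ 200 < ‖x.1 j - cm m 0 1 x.1‖) ∧
    (∀ j : Fin 5, 3 ≤ j → 1 / (3 * b ^ 77) ≤ ‖x.1 j - cm m 0 1 x.1‖) ∧
    (∀ i j : Fin 5, 2 ≤ i → 2 ≤ j → i ≠ j →
      -(2 * FQ m x) ≤ hp m i j x ∧ -(3 * FQ m x) < hp m i j x) := by
  obtain ⟨b1, hb1, H1⟩ := exl_large P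
  obtain ⟨b2, hb2, H2⟩ := s1_far (d := d) P
  obtain ⟨b3, hb3, H3⟩ := s1_r (d := d) P
  refine ⟨max b1 (max b2 b3), le_trans hb1 (le_max_left _ _), fun b hb m hm x hx hS hnear hZ hF1 hF2 => ?_⟩
  have hbb1 : b1 ≤ b := le_trans (le_max_left _ _) hb
  have hbb2 : b2 ≤ b := le_trans (le_trans (le_max_left _ _) (le_max_right _ _)) hb
  have hbb3 : b3 ≤ b := le_trans (le_trans (le_max_right _ _) (le_max_right _ _)) hb
  obtain ⟨h1, hL1, hL2, hL3, hL4, hL5, hL6, hL7⟩ := H1 b hbb1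
  obtain ⟨hr, -, -⟩ := H3 b hbb3 m hm x hx hS
  obtain ⟨f1, f2, f3, -⟩ := H2 b hbb2 m hm x hS (hnear.trans hL3)
  have hb0 : 0 < b := by linarith
  have p77 : 0 < b ^ 77 := by positivity
  have p200 : 0 < b ^ 200 := by positivity
  have hFpos : 0 < FQ m x := by linarith
  have hM2 : 1 ≤ P.M ^ 2 := one_le_pow₀ P.hM
  have hj3 : ∀ j : Fin 5, 2 ≤ j → j ≠ 2 → 3 ≤ j := by decide
  have hj34 : ∀ i j : Fin 5, 2 ≤ i → 2 ≤ j → i ≠ j → i ≠ 2 → j ≠ 2 →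
      (i = 3 ∧ j = 4) ∨ (i = 4 ∧ j = 3) := by decide
  refine ⟨?_, by linarith, by linarith, ?_, f3, ?_⟩
  · refine lt_of_le_of_lt hr ?_
    show 1.1 * P.M ^ 2 / FQ m x < 4 * P.M ^ 2 / b ^ 200
    rw [div_lt_div_iff₀ hFpos p200]
    nlinarith
  · intro j hj
    by_cases hj2 : j = 2
    · rw [hj2]
      exact hZ
    · exact lt_of_lt_of_le hL2 (f3 j (hj3 j hj hj2))
  · intro i j hi hj hij
    have hdist : 1 / (2 * b ^ 77) ≤ ‖x.1 i - x.1 j‖ := by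
      by_cases hi2 : i = 2
      · exact f1 i j hi2.le (hj3 j hj fun hc => hij (hi2.trans hc.symm))
      · by_cases hj2 : j = 2
        · rw [norm_sub_rev]
          exact f1 j i hj2.le (hj3 i hi hi2)
        · have hc : (i = 3 ∧ j = 4) ∨ (i = 4 ∧ j = 3) := hj34 i j hi hj hij hi2 hj2
          rcases hc with ⟨rfl, rfl⟩ | ⟨rfl, rfl⟩
          · exact f2
          · rw [norm_sub_rev]
            exact f2
    have hdpos : 0 < ‖x.1 i - x.1 j‖ := lt_of_lt_of_le (by positivity) hdist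
    have hmi := hm.pos i
    have hmj := hm.pos j
    have hmm : m i * m j ≤ P.M ^ 2 := by
      have h3 := (hm.2 i).2
      have h4 := (hm.2 j).2
      nlinarith
    have h5 : m i * m j / ‖x.1 i - x.1 j‖ ≤ P.M ^ 2 * (2 * b ^ 77) := by
      rw [div_le_iff₀ hdpos]
      have h6 : 1 ≤ (2 * b ^ 77) * ‖x.1 i - x.1 j‖ := by
        rw [div_le_iff₀ (by positivity)] at hdist
        linarith
      calc m i * m j ≤ P.M ^ 2 * 1 := by linarith
        _ ≤ P.M ^ 2 * ((2 * b ^ 77) * ‖x.1 i - x.1 j‖) := by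
            exact mul_le_mul_of_nonneg_left h6 (by positivity)
        _ = P.M ^ 2 * (2 * b ^ 77) * ‖x.1 i - x.1 j‖ := by ring
    have h7 : -(m i * m j / ‖x.1 i - x.1 j‖) ≤ hp m i j x := by
      unfold hp
      have h8 : 0 ≤ (1 / 2) * (m i * m j / (m i + m j)) * ‖x.2 i - x.2 j‖ ^ 2 := by positivity
      linarith
    constructor <;> linarith

/-- a state with `‖x2‖ = 2 / b ^ 96` is in strict mode I -/
private theorem exl_SI (P : Par) : ∃ b0 : ℝ, 1 ≤ b0 ∧ ∀ k : ℕ, b0 ≤ lev k → ∀ m : Fin 5 → ℝ,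
    Mb P.M m → ∀ (x : St d) (D : ℝ), 0 ≤ D → D ≤ 1 / 10 → x ∈ Inv m P.R → S1 P (lev k) m x →
    ‖x.1 2 - cm m 0 1 x.1‖ = 2 / lev k ^ 96 → (1 - D) * lev k ^ 200 ≤ FQ m x →
    FQ m x ≤ 5 * lev k ^ 200 → -P.L1 (lev k) ≤ hh m 2 x → ∃ k', k ≤ k' ∧ SI P D (lev k') m x := by
  obtain ⟨b1, hb1, H1⟩ := exl_large P
  obtain ⟨b2, hb2, H2⟩ := exl_strict (d := d) P
  obtain ⟨b3, hb3, H3⟩ := s1_r (d := d) P
  refine ⟨max b1 (max b2 b3), le_trans hb1 (le_max_left _ _), fun k hb m hm x D hD0 hD1 hx hS hnear hF1 hF2 hhh => ?_⟩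
  have hbb1 : b1 ≤ lev k := le_trans (le_max_left _ _) hb
  have hbb2 : b2 ≤ lev k := le_trans (le_trans (le_max_left _ _) (le_max_right _ _)) hb
  have hbb3 : b3 ≤ lev k := le_trans (le_trans (le_max_right _ _) (le_max_right _ _)) hb
  obtain ⟨h1, hL1, hL2, hL3, hL4, hL5, hL6, hL7⟩ := H1 _ hbb1
  obtain ⟨hr, -, -⟩ := H3 _ hbb3 m hm x hx hS
  have hb0 : 0 < lev k := by linarith
  have p200 : 0 < lev k ^ 200 := by positivity
  have hF1' : (9 / 10) * lev k ^ 200 ≤ FQ m x := by nlinarith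
  obtain ⟨-, -, -, -, g5, g6⟩ := H2 _ hbb2 m hm x hx hS hnear.le (by rw [hnear]; exact hL1) hF1' hF2
  obtain ⟨k', hk', hk1, hk2⟩ := lev_choose hD0 hF1
  have hle : lev k ≤ lev k' := lev_mono hk'
  have hb0' : 0 < lev k' := by linarith
  have q77 : 0 < lev k' ^ 77 := by positivity
  have q96 : 0 < lev k' ^ 96 := by positivity
  have q200 : 0 < lev k' ^ 200 := by positivity
  have p77 : 0 < lev k ^ 77 := by positivity
  have p96 : 0 < lev k ^ 96 := by positivity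
  have l77 : lev k ^ 77 ≤ lev k' ^ 77 := pow_le_pow_left₀ hb0.le hle 77
  have l96 : lev k ^ 96 ≤ lev k' ^ 96 := pow_le_pow_left₀ hb0.le hle 96
  have hM2 : 1 ≤ P.M ^ 2 := one_le_pow₀ P.hM
  have hFpos : 0 < FQ m x := by linarith
  have t1 : 2 / lev k' ^ 96 ≤ 2 / lev k ^ 96 := div_le_div_of_nonneg_left (by norm_num) p96 l96
  have hj3 : ∀ j : Fin 5, 2 ≤ j → j ≠ 2 → 3 ≤ j := by decide
  refine ⟨k', hk', ⟨?_, hk1, hk2, ?_, ?_, ?_, ?_⟩⟩
  · refine hr.trans ?_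
    show 1.1 * P.M ^ 2 / FQ m x ≤ 4 * P.M ^ 2 / lev k' ^ 200
    rw [div_le_div_iff₀ hFpos q200]
    have h9 : (9 / 10) * lev k' ^ 200 ≤ FQ m x := by nlinarith
    nlinarith
  · intro j hj
    by_cases hj2 : j = 2
    · rw [hj2, hnear]
      exact t1
    · have h8 : 1 / (8 * lev k ^ 77) ≤ 1 / (3 * lev k ^ 77) :=
        one_div_le_one_div_of_le (by positivity) (by linarith)
      exact t1.trans ((hL3.trans h8).trans (g5 j (hj3 j hj hj2)))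
  · intro j hj hjK
    by_cases hj2 : j = 2
    · rw [hj2]
      have h9 : P.L1 (lev k) ≤ P.L1 (lev k') := by
        unfold Par.L1
        exact div_le_div_of_nonneg_right l96 (by positivity)
      linarith
    · exfalso
      have hK2 : 0 ≤ P.K2 := by
        show 0 ≤ 32 * P.M ^ 4
        have := P.hM
        positivity
      have h9 : P.K2 / lev k' ^ 96 ≤ P.K2 / lev k ^ 96 := div_le_div_of_nonneg_left hK2 p96 l96
      linarith [g5 j (hj3 j hj hj2)]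
  · refine le_trans ?_ hS.R3
    exact one_div_le_one_div_of_le (by positivity) (by linarith)
  · intro i j hi hj hij
    exact (g6 i j hi hj hij).1

/-- a state with `h = - L1` is an entry of mode III -/
private theorem exl_SIII (P : Par) : ∃ b0 : ℝ, 1 ≤ b0 ∧ ∀ b ≥ b0, ∀ m : Fin 5 → ℝ,
    Mb P.M m → ∀ (x : St d) (D : ℝ), S1 P b m x →
    ‖x.1 2 - cm m 0 1 x.1‖ ≤ 2 / b ^ 96 → (1 - D) * b ^ 200 ≤ FQ m x →
    FQ m x ≤ 5 * b ^ 200 → hh m 2 x = -P.L1 b → SIII P D b m x := by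
  obtain ⟨b1, hb1, H1⟩ := exl_large P
  refine ⟨b1, hb1, fun b hb m hm x D hS hnear hF1 hF2 hhh => ?_⟩
  obtain ⟨h1, hL1, hL2, hL3, hL4, hL5, hL6, hL7⟩ := H1 b hb
  have hb0 : 0 < b := by linarith
  have p96 : 0 < b ^ 96 := by positivity
  have p200 : 0 < b ^ 200 := by positivity
  have hm0 := hm.pos 0
  have hm1 := hm.pos 1
  have hr := hS.r_le
  have hFT : FT m x = FQ m x + P.L1 b := by
    have := hh_two m x
    linarith
  -- distances to the centre of mass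
  have hc0 : ‖x.1 0 - cm m 0 1 x.1‖ ≤ ‖x.1 0 - x.1 1‖ := by
    have e : x.1 0 - cm m 0 1 x.1 = (m 1 / (m 0 + m 1)) • (x.1 0 - x.1 1) := by
      unfold cm
      have hs : m 0 + m 1 ≠ 0 := by positivity
      rw [smul_add, smul_smul, smul_smul, smul_sub]
      have e1 : x.1 0 = ((m 0 + m 1)⁻¹ * m 0) • x.1 0 + (m 1 / (m 0 + m 1)) • x.1 0 := by
        rw [← add_smul]
        have : (m 0 + m 1)⁻¹ * m 0 + m 1 / (m 0 + m 1) = 1 := by field_simp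
        rw [this, one_smul]
      have e2 : (m 0 + m 1)⁻¹ * m 1 = m 1 / (m 0 + m 1) := by ring
      rw [e2]
      nth_rewrite 1 [e1]
      abel
    rw [e, norm_smul, Real.norm_eq_abs, abs_of_nonneg (by positivity)]
    refine mul_le_of_le_one_left (norm_nonneg _) ?_
    rw [div_le_one (by positivity)]
    linarith
  have hc1 : ‖x.1 1 - cm m 0 1 x.1‖ ≤ ‖x.1 0 - x.1 1‖ := by
    have e : x.1 1 - cm m 0 1 x.1 = (m 0 / (m 0 + m 1)) • (x.1 1 - x.1 0) := by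
      unfold cm
      have hs : m 0 + m 1 ≠ 0 := by positivity
      rw [smul_add, smul_smul, smul_smul, smul_sub]
      have e1 : x.1 1 = ((m 0 + m 1)⁻¹ * m 1) • x.1 1 + (m 0 / (m 0 + m 1)) • x.1 1 := by
        rw [← add_smul]
        have : (m 0 + m 1)⁻¹ * m 1 + m 0 / (m 0 + m 1) = 1 := by field_simp; ring
        rw [this, one_smul]
      have e2 : (m 0 + m 1)⁻¹ * m 0 = m 0 / (m 0 + m 1) := by ring
      rw [e2]
      nth_rewrite 1 [e1]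
      abel
    rw [e, norm_smul, Real.norm_eq_abs, abs_of_nonneg (by positivity), norm_sub_rev (x.1 1)]
    refine mul_le_of_le_one_left (norm_nonneg _) ?_
    rw [div_le_one (by positivity)]
    linarith
  have hK2 : 0 ≤ P.K2 := by
    show 0 ≤ 32 * P.M ^ 4
    have := P.hM
    positivity
  have hbig : ∀ y : ℝ, y ≤ 2 / b ^ 96 + P.Cr / b ^ 200 → y ≤ 3 * P.K2 / b ^ 96 :=
    fun y hy => hy.trans hL7
  have p2 : 0 ≤ 2 / b ^ 96 := by positivity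
  have h01 : ‖x.1 0 - x.1 1‖ ≤ 3 * P.K2 / b ^ 96 := hbig _ (by linarith)
  have h02 : ‖x.1 0 - x.1 2‖ ≤ 3 * P.K2 / b ^ 96 := by
    refine hbig _ ?_
    have h5 : ‖x.1 0 - x.1 2‖ ≤ ‖x.1 0 - cm m 0 1 x.1‖ + ‖cm m 0 1 x.1 - x.1 2‖ :=
      norm_sub_le_norm_sub_add_norm_sub _ _ _
    rw [norm_sub_rev (cm m 0 1 x.1)] at h5
    linarith
  have h12 : ‖x.1 1 - x.1 2‖ ≤ 3 * P.K2 / b ^ 96 := by
    refine hbig _ ?_
    have h5 : ‖x.1 1 - x.1 2‖ ≤ ‖x.1 1 - cm m 0 1 x.1‖ + ‖cm m 0 1 x.1 - x.1 2‖ :=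
      norm_sub_le_norm_sub_add_norm_sub _ _ _
    rw [norm_sub_rev (cm m 0 1 x.1)] at h5
    linarith
  have hz : (0 : ℝ) ≤ 3 * P.K2 / b ^ 96 := by positivity
  refine ⟨?_, by rw [hFT]; linarith, by rw [hFT]; linarith, hS.R3⟩
  intro i j hi hj
  have hi' : i = 0 ∨ i = 1 ∨ i = 2 := by revert i; decide
  have hj' : j = 0 ∨ j = 1 ∨ j = 2 := by revert j; decide
  rcases hi' with rfl | rfl | rfl <;> rcases hj' with rfl | rfl | rfl
  · rw [sub_self, norm_zero]; exact hz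
  · exact h01
  · exact h02
  · rw [norm_sub_rev]; exact h01
  · rw [sub_self, norm_zero]; exact hz
  · exact h12
  · rw [norm_sub_rev]; exact h02
  · rw [norm_sub_rev]; exact h12
  · rw [sub_self, norm_zero]; exact hz

/-- the functions of the stopping argument, first stage -/
private noncomputable def exlF (P : Par) (b : ℝ) (m : Fin 5 → ℝ) (γ : ℝ → St d) :
    Option (Option (Option {j : Fin 5 // (2 : Fin 5) ≤ j})) → ℝ → ℝ
  | none => fun s => P.Cr / b ^ 200 - ‖(γ s).1 0 - (γ s).1 1‖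
  | some none => fun s => Rg 3 (γ s).1 - 1 / (2 * b ^ 77)
  | some (some none) => fun s => 2 / b ^ 96 - ‖x2 m γ s‖
  | some (some (some j)) => fun s => ‖(γ s).1 j.1 - cm m 0 1 (γ s).1‖ - P.Zp / b ^ 200

/-- second stage -/
private noncomputable def exlG (b : ℝ) (m : Fin 5 → ℝ) (γ : ℝ → St d) :
    Option (Option {q : Fin 5 × Fin 5 // 2 ≤ q.1 ∧ 2 ≤ q.2 ∧ q.1 ≠ q.2}) → ℝ → ℝ
  | none => fun s => FQ m (γ s) - b ^ 200 / 2
  | some none => fun s => 8 * b ^ 200 - FQ m (γ s)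
  | some (some q) => fun s => hp m q.1.1 q.1.2 (γ s) + 3 * FQ m (γ s)

private theorem exlF_cont (P : Par) (b : ℝ) (m : Fin 5 → ℝ) {γ : ℝ → St d} {s : ℝ}
    (hγ : ContinuousAt γ s) (i : Option (Option (Option {j : Fin 5 // (2 : Fin 5) ≤ j}))) :
    ContinuousAt (exlF P b m γ i) s := by
  have hcm : Continuous (fun x : St d => cm m 0 1 x.1) := by
    unfold cm
    fun_prop
  rcases i with _ | _ | _ | j
  · have h1 : Continuous (fun x : St d => P.Cr / b ^ 200 - ‖x.1 0 - x.1 1‖) := by fun_prop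
    exact h1.continuousAt.comp hγ
  · have h1 : Continuous (fun x : St d => Rg 3 x.1 - 1 / (2 * b ^ 77)) :=
      ((continuous_Rg (by norm_num) (by norm_num)).comp continuous_fst).sub continuous_const
    exact h1.continuousAt.comp hγ
  · have h1 : Continuous (fun x : St d => 2 / b ^ 96 - ‖x.1 2 - cm m 0 1 x.1‖) := by fun_prop
    exact h1.continuousAt.comp hγ
  · have h1 : Continuous (fun x : St d => ‖x.1 j.1 - cm m 0 1 x.1‖ - P.Zp / b ^ 200) := by fun_prop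
    exact h1.continuousAt.comp hγ

private theorem exl_hp_cont (m : Fin 5 → ℝ) {γ : ℝ → St d} {s : ℝ} (hγ : ContinuousAt γ s)
    {i j : Fin 5} (hij : (γ s).1 i ≠ (γ s).1 j) : ContinuousAt (fun s => hp m i j (γ s)) s := by
  have h1 : ContinuousAt (fun x : St d => hp m i j x) (γ s) := by
    unfold hp
    have h2 : Continuous (fun x : St d =>
        (1 / 2) * (m i * m j / (m i + m j)) * ‖x.2 i - x.2 j‖ ^ 2) := by fun_prop
    have h3 : Continuous (fun x : St d => ‖x.1 i - x.1 j‖) := by fun_prop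
    exact h2.continuousAt.sub (continuousAt_const.div h3.continuousAt
      (norm_ne_zero_iff.2 (sub_ne_zero.2 hij)))
  exact h1.comp hγ

private theorem exlG_cont (b : ℝ) (m : Fin 5 → ℝ) {γ : ℝ → St d} {s : ℝ} (hm : ∀ i, 0 < m i)
    (hfree : Free (γ s).1) (hγ : HasDerivAt γ (nfield m (γ s)) s)
    (hc : ∀ j : Fin 5, 2 ≤ j → 0 < ‖(γ s).1 j - cm m 0 1 (γ s).1‖)
    (i : Option (Option {q : Fin 5 × Fin 5 // 2 ≤ q.1 ∧ 2 ≤ q.2 ∧ q.1 ≠ q.2})) :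
    ContinuousAt (exlG b m γ i) s := by
  have hFQ : ContinuousAt (fun s => FQ m (γ s)) s := (hasDerivAt_FQ hm hfree hγ hc).continuousAt
  rcases i with _ | _ | q
  · exact hFQ.sub continuousAt_const
  · exact continuousAt_const.sub hFQ
  · exact (exl_hp_cont m hγ.continuousAt (hfree _ _ q.2.2.2)).add (continuousAt_const.mul hFQ)

private theorem exl_hh_cont (m : Fin 5 → ℝ) {γ : ℝ → St d} {s : ℝ} (hm : ∀ i, 0 < m i)
    (hfree : Free (γ s).1) (hγ : HasDerivAt γ (nfield m (γ s)) s)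
    (hc : ∀ j : Fin 5, 2 ≤ j → 0 < ‖(γ s).1 j - cm m 0 1 (γ s).1‖)
    (h3 : 0 < ‖(γ s).1 3 - cm3 m 0 1 2 (γ s).1‖) (h4 : 0 < ‖(γ s).1 4 - cm3 m 0 1 2 (γ s).1‖)
    (c : ℝ) : ContinuousAt (fun s => hh m 2 (γ s) + c) s := by
  have hFQ : ContinuousAt (fun s => FQ m (γ s)) s := (hasDerivAt_FQ hm hfree hγ hc).continuousAt
  have hFT : ContinuousAt (fun s => FT m (γ s)) s :=
    (hasDerivAt_FT hm hfree hγ h3 h4).continuousAt
  have e : (fun s => hh m 2 (γ s) + c) = fun s => FQ m (γ s) - FT m (γ s) + c := by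
    funext r
    rw [hh_two]
  rw [e]
  exact (hFQ.sub hFT).add continuousAt_const

/-- the functions are nonnegative iff the state is in `S1` and near -/
private theorem exl_iff (P : Par) (b : ℝ) (m : Fin 5 → ℝ) (γ : ℝ → St d) (s : ℝ) :
    ((∀ i, 0 ≤ exlF P b m γ i s) ∧ ∀ j, 0 ≤ exlG b m γ j s) ↔
      (S1 P b m (γ s) ∧ ‖x2 m γ s‖ ≤ 2 / b ^ 96) := by
  constructor
  · rintro ⟨h1, h2⟩
    have a1 : 0 ≤ P.Cr / b ^ 200 - ‖(γ s).1 0 - (γ s).1 1‖ := h1 none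
    have a2 : 0 ≤ Rg 3 (γ s).1 - 1 / (2 * b ^ 77) := h1 (some none)
    have a3 : 0 ≤ 2 / b ^ 96 - ‖x2 m γ s‖ := h1 (some (some none))
    have a4 : ∀ j : Fin 5, 2 ≤ j → 0 ≤ ‖(γ s).1 j - cm m 0 1 (γ s).1‖ - P.Zp / b ^ 200 :=
      fun j hj => h1 (some (some (some ⟨j, hj⟩)))
    have b1 : 0 ≤ FQ m (γ s) - b ^ 200 / 2 := h2 none
    have b2 : 0 ≤ 8 * b ^ 200 - FQ m (γ s) := h2 (some none)
    have b3 : ∀ i j : Fin 5, 2 ≤ i → 2 ≤ j → i ≠ j → 0 ≤ hp m i j (γ s) + 3 * FQ m (γ s) :=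
      fun i j hi hj hij => h2 (some (some ⟨(i, j), hi, hj, hij⟩))
    exact ⟨⟨by linarith, by linarith, by linarith, fun j hj => by linarith [a4 j hj], by linarith,
      fun i j hi hj hij => by linarith [b3 i j hi hj hij]⟩, by linarith⟩
  · rintro ⟨h1, h2⟩
    constructor
    · intro i
      rcases i with _ | _ | _ | j
      · exact sub_nonneg.2 h1.r_le
      · exact sub_nonneg.2 h1.R3
      · exact sub_nonneg.2 h2
      · exact sub_nonneg.2 (h1.x_ge j.1 j.2)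
    · intro i
      rcases i with _ | _ | q
      · exact sub_nonneg.2 h1.F_ge
      · exact sub_nonneg.2 h1.F_le
      · have h3 := h1.hard q.1.1 q.1.2 q.2.1 q.2.2.1 q.2.2.2
        show 0 ≤ hp m q.1.1 q.1.2 (γ s) + 3 * FQ m (γ s)
        linarith

/-- a function with a positive derivative was smaller before -/
private theorem exl_before {f : ℝ → ℝ} {f' t : ℝ} (hf : HasDerivAt f f' t) (h : 0 < f') :
    ∀ᶠ s in 𝓝[<] t, f s < f t := by
  have h1 := hasDerivAt_iff_tendsto_slope.1 hf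
  have h2 : ∀ᶠ s in 𝓝[≠] t, 0 < slope f t s := h1.eventually (lt_mem_nhds h)
  have h3 : 𝓝[<] t ≤ 𝓝[≠] t := nhdsWithin_mono t fun s hs => ne_of_lt hs
  filter_upwards [h3 h2, self_mem_nhdsWithin] with s hs hst
  have hst' : s - t < 0 := sub_neg.2 hst
  rw [slope_def_field] at hs
  by_contra hle
  rw [not_lt] at hle
  have : (f s - f t) / (s - t) ≤ 0 :=
    div_nonpos_of_nonneg_of_nonpos (sub_nonneg.2 hle) hst'.le
  linarith

/-- going back from `t` while the state is in an excursion -/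
private theorem exl_back (P : Par) : ∃ b0 : ℝ, 1 ≤ b0 ∧ ∀ b ≥ b0, ∀ (ε : ℝ) (m : Fin 5 → ℝ)
    (γ : ℝ → St d) (τ T : ℝ), Cx P ε m γ τ T → ∀ t : ℝ, τ < t → t < T → S1 P b m (γ t) →
    ‖x2 m γ t‖ = 2 / b ^ 96 → 0 < ⟪x2 m γ t, w2 m γ t⟫ → -P.L1 b < hh m 2 (γ t) →
    (9 / 10) * b ^ 200 ≤ FQ m (γ t) → FQ m (γ t) ≤ 5 * b ^ 200 →
    1 / (2 * b ^ 77) < Rg 3 (γ t).1 →
    ∃ t0 ∈ Ico τ t, Exc P b m γ t0 t ∧ (t0 = τ ∨ (∃ i, exlF P b m γ i t0 = 0) ∨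
      (∃ j, exlG b m γ j t0 = 0) ∨ hh m 2 (γ t0) + P.L1 b = 0) := by
  obtain ⟨b1, hb1, H1⟩ := exl_large P
  obtain ⟨b2, hb2, H2⟩ := exl_strict (d := d) P
  obtain ⟨b3, hb3, H3⟩ := s1_far (d := d) P
  refine ⟨max b1 (max b2 b3), le_trans hb1 (le_max_left _ _), fun b hb ε m γ τ T h t hτt htT hS
    hx2 hpos hhh hF1 hF2 hR => ?_⟩
  have hbb1 : b1 ≤ b := le_trans (le_max_left _ _) hb
  have hbb2 : b2 ≤ b := le_trans (le_trans (le_max_left _ _) (le_max_right _ _)) hb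
  have hbb3 : b3 ≤ b := le_trans (le_trans (le_max_right _ _) (le_max_right _ _)) hb
  obtain ⟨h1, hL1, hL2, hL3, hL4, hL5, hL6, hL7⟩ := H1 b hbb1
  have hm := h.hm
  have hb0 : 0 < b := by linarith
  have hZ : 0 < P.Zp / b ^ 200 := by
    have h1 := P.hZ
    have h2 := P.hM
    have h3 : 0 < P.Zp := lt_of_lt_of_le (by positivity) h1
    positivity
  have p77 : 0 < 1 / (3 * b ^ 77) := by positivity
  have hmp : ∀ i, 0 < m i := fun i => hm.pos i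
  have hfree : ∀ s ∈ Ico τ T, Free (γ s).1 := fun s hs => (h.inv s hs).1
  have hder : ∀ s ∈ Ico τ T, HasDerivAt γ (nfield m (γ s)) s := fun s hs => (h.sol s hs).2
  have htI : t ∈ Ico τ T := ⟨hτt.le, htT⟩
  -- continuity of the second and third stages
  have hGc : ∀ s ∈ Ico τ T, (∀ i, 0 ≤ exlF P b m γ i s) → ∀ j, ContinuousAt (exlG b m γ j) s := by
    intro s hs hF j
    refine exlG_cont b m hmp (hfree s hs) (hder s hs) (fun j hj => ?_) j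
    have h5 : 0 ≤ ‖(γ s).1 j - cm m 0 1 (γ s).1‖ - P.Zp / b ^ 200 := hF (some (some (some ⟨j, hj⟩)))
    linarith
  have hHc : ∀ s ∈ Ico τ T, S1 P b m (γ s) → ‖x2 m γ s‖ ≤ 2 / b ^ 96 →
      ContinuousAt (fun s => hh m 2 (γ s) + P.L1 b) s := by
    intro s hs hSs hn
    obtain ⟨-, -, -, f4⟩ := H3 b hbb3 m hm (γ s) hSs (hn.trans hL3)
    exact exl_hh_cont m hmp (hfree s hs) (hder s hs)
      (fun j hj => lt_of_lt_of_le hZ (hSs.x_ge j hj))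
      (lt_of_lt_of_le p77 (f4 3 le_rfl)) (lt_of_lt_of_le p77 (f4 4 (by decide))) _
  -- near `t`
  obtain ⟨s1, s2, s3, s4, s5, s6⟩ := H2 b hbb2 m hm (γ t) (h.inv t htI) hS hx2.le
    (by
      have : P.Zp / b ^ 200 < ‖x2 m γ t‖ := by rw [hx2]; exact hL1
      exact this) hF1 hF2
  have hFt : (∀ i, 0 ≤ exlF P b m γ i t) ∧ ∀ j, 0 ≤ exlG b m γ j t :=
    (exl_iff P b m γ t).2 ⟨hS, hx2.le⟩
  have hposev : ∀ f : ℝ → ℝ, ContinuousAt f t → 0 < f t → ∀ᶠ s in 𝓝[<] t, 0 ≤ f s := by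
    intro f hf hft
    have h5 : ∀ᶠ s in 𝓝 t, 0 < f s := hf.eventually (lt_mem_nhds hft)
    exact (h5.filter_mono nhdsWithin_le_nhds).mono fun s hs => le_of_lt hs
  have hnearev : ∀ᶠ s in 𝓝[<] t, ‖x2 m γ s‖ ≤ 2 / b ^ 96 := by
    have h5 : HasDerivAt (x2 m γ) (w2 m γ t) t := hasDerivAt_x2 (hder t htI)
    have h6 : HasDerivAt (fun s => ‖x2 m γ s‖ ^ 2) (2 * ⟪x2 m γ t, w2 m γ t⟫) t := h5.norm_sq
    filter_upwards [exl_before h6 (by linarith)] with s hs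
    rw [← hx2]
    exact le_of_lt (lt_of_pow_lt_pow_left₀ 2 (norm_nonneg _) hs)
  have evF : ∀ i, ∀ᶠ s in 𝓝[<] t, 0 ≤ exlF P b m γ i s := by
    intro i
    rcases i with _ | _ | _ | j
    · exact hposev _ (exlF_cont P b m (hder t htI).continuousAt none) (sub_pos.2 s1)
    · exact hposev _ (exlF_cont P b m (hder t htI).continuousAt (some none)) (sub_pos.2 hR)
    · exact hnearev.mono fun s hs => sub_nonneg.2 hs
    · exact hposev _ (exlF_cont P b m (hder t htI).continuousAt (some (some (some j))))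
        (sub_pos.2 (s4 j.1 j.2))
  have evG : ∀ i, ∀ᶠ s in 𝓝[<] t, 0 ≤ exlG b m γ i s := by
    intro i
    refine hposev _ (hGc t htI hFt.1 i) ?_
    rcases i with _ | _ | q
    · exact sub_pos.2 s2
    · exact sub_pos.2 s3
    · have h5 := (s6 q.1.1 q.1.2 q.2.1 q.2.2.1 q.2.2.2).2
      show 0 < hp m q.1.1 q.1.2 (γ t) + 3 * FQ m (γ t)
      linarith
  have evH : ∀ᶠ s in 𝓝[<] t, 0 ≤ hh m 2 (γ s) + P.L1 b :=
    hposev _ (hHc t htI hS hx2.le) (by linarith)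
  have ev : ∀ᶠ s in 𝓝[<] t, (∀ i, 0 ≤ exlF P b m γ i s) ∧ (∀ j, 0 ≤ exlG b m γ j s) ∧
      0 ≤ hh m 2 (γ s) + P.L1 b :=
    (eventually_all.2 evF).and ((eventually_all.2 evG).and evH)
  obtain ⟨l, hl, hlt⟩ := (mem_nhdsLT_iff_exists_mem_Ico_Ioo_subset hτt).1 ev
  -- the stopping argument on `[τ, t2]`
  have ht2 : l < (l + t) / 2 ∧ (l + t) / 2 < t := ⟨by linarith [hl.2], by linarith [hl.2]⟩
  have hτ2 : τ ≤ (l + t) / 2 := by linarith [hl.1, ht2.1]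
  have hsub : ∀ s ∈ Icc τ ((l + t) / 2), s ∈ Ico τ T := fun s hs =>
    ⟨hs.1, lt_of_le_of_lt hs.2 (ht2.2.trans htT)⟩
  have h2t := hlt (show (l + t) / 2 ∈ Ioo l t from ⟨ht2.1, ht2.2⟩)
  obtain ⟨t0, ht0, hall, hend⟩ := exl_stop3 (f := exlF P b m γ) (g := exlG b m γ)
    (h := fun s => hh m 2 (γ s) + P.L1 b) hτ2
    (fun i s hs => (exlF_cont P b m (hder s (hsub s hs)).continuousAt i).continuousWithinAt)
    (fun s hs hF j r hr => (hGc r (hsub r ⟨hs.1.trans hr.1, hr.2⟩) (fun i => hF r hr i)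
      j).continuousWithinAt)
    (fun s hs hFG r hr => by
      obtain ⟨hSr, hnr⟩ := (exl_iff P b m γ r).1 (hFG r hr)
      exact (hHc r (hsub r ⟨hs.1.trans hr.1, hr.2⟩) hSr hnr).continuousWithinAt)
    h2t.1 h2t.2.1 h2t.2.2
  have ht0t : t0 < t := lt_of_le_of_lt ht0.2 ht2.2
  have hfin : ∀ s ∈ Icc t0 t, (∀ i, 0 ≤ exlF P b m γ i s) ∧ (∀ j, 0 ≤ exlG b m γ j s) ∧
      0 ≤ hh m 2 (γ s) + P.L1 b := by
    intro s hs
    rcases le_or_gt s ((l + t) / 2) with hs2 | hs2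
    · exact hall s ⟨hs.1, hs2⟩
    · rcases lt_or_eq_of_le hs.2 with hst | hst
      · exact hlt (show s ∈ Ioo l t from ⟨ht2.1.trans hs2, hst⟩)
      · rw [hst]
        exact ⟨hFt.1, hFt.2, by linarith⟩
  have hIcc : ∀ s ∈ Icc t0 t, s ∈ Ico τ T := fun s hs =>
    ⟨ht0.1.trans hs.1, lt_of_le_of_lt hs.2 htT⟩
  refine ⟨t0, ⟨ht0.1, ht0t⟩, ⟨ht0t.le, fun s hs => h.sol s (hIcc s hs),
    fun s hs => h.inv s (hIcc s hs),
    fun s hs => ((exl_iff P b m γ s).1 ⟨(hfin s hs).1, (hfin s hs).2.1⟩).1,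
    fun s hs => ((exl_iff P b m γ s).1 ⟨(hfin s hs).1, (hfin s hs).2.1⟩).2,
    fun s hs => by linarith [(hfin s hs).2.2]⟩, hend⟩

theorem excursion (P : Par) : ∃ C0 ≥ 1, ∀ C ≥ C0, ∃ ε0 > 0, ∃ K : ℕ, ∀ ε ≤ ε0,
    ∀ (m : Fin 5 → ℝ) (γ : ℝ → St d) (τ T : ℝ), Cx P ε m γ τ T →
    ∀ (t t1 : ℝ) (k1 k : ℕ), K ≤ k1 → k1 ≤ k → τ < t → t ≤ t1 → t1 < T →
    1 / lev k1 ^ 77 ≤ Rg 3 (γ t1).1 → TG P m γ t t1 k1 k →
    SI P (Dg P C m γ t t1 k1) (lev k) m (γ t) →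
    ‖x2 m γ t‖ = 2 / lev k ^ 96 → 0 < ⟪x2 m γ t, w2 m γ t⟫ → -P.L1 (lev k) < hh m 2 (γ t) →
    Done m γ τ k1 ∨ (∃ t' ∈ Ico τ t, ∃ k', k ≤ k' ∧ StrI P C m γ t' t1 k1 k') ∨
      ∃ t' ∈ Ico τ t, StrIII P C m γ t' t1 k1 k := by
  obtain ⟨Ce, hCe, ε1, hε1, K1, HE⟩ := exc_est (d := d) P
  obtain ⟨b1, hb1, H1⟩ := exl_large P
  obtain ⟨b2, hb2, H2⟩ := exl_strict (d := d) P
  obtain ⟨b3, hb3, H3⟩ := exl_SI (d := d) P
  obtain ⟨b4, hb4, H4⟩ := exl_SIII (d := d) P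
  obtain ⟨b5, hb5, H5⟩ := si_s1 (d := d) P
  obtain ⟨b6, hb6, H6⟩ := exl_back (d := d) P
  obtain ⟨ε5, hε5, HP⟩ := p5 (d := d) P
  refine ⟨max 1 Ce, le_max_left _ _, fun C hC => ?_⟩
  have hC1 : 1 ≤ C := le_trans (le_max_left _ _) hC
  have hCCe : Ce ≤ C := le_trans (le_max_right _ _) hC
  have hC0 : 0 < C := by linarith
  obtain ⟨ε6, hε6, K6, HD⟩ := Dg_small (d := d) P hC0
  obtain ⟨K7, hK7⟩ := (lev_tendsto.eventually_ge_atTop
    (max b1 (max b2 (max b3 (max b4 (max b5 b6)))))).exists_forall_of_atTop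
  refine ⟨min ε1 (min ε5 ε6), lt_min hε1 (lt_min hε5 hε6), max K1 (max P.k0 (max K6 K7)),
    fun ε hε m γ τ T h t t1 k1 k hK hk hτt htt1 ht1T hR htg hSI hx2 hpos hhh => ?_⟩
  have hK1 : K1 ≤ k1 := le_trans (le_max_left _ _) hK
  have hKP : P.k0 ≤ k1 := le_trans (le_trans (le_max_left _ _) (le_max_right _ _)) hK
  have hK6 : K6 ≤ k1 := le_trans (le_trans (le_trans (le_max_left _ _) (le_max_right _ _))
    (le_max_right _ _)) hK
  have hK7' : K7 ≤ k1 := le_trans (le_trans (le_trans (le_max_right _ _) (le_max_right _ _))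
    (le_max_right _ _)) hK
  have he1 : ε ≤ ε1 := hε.trans (min_le_left _ _)
  have he5 : ε ≤ ε5 := hε.trans ((min_le_right _ _).trans (min_le_left _ _))
  have he6 : ε ≤ ε6 := hε.trans ((min_le_right _ _).trans (min_le_right _ _))
  have hbig := hK7 k (hK7'.trans hk)
  have B1 : b1 ≤ lev k := le_trans (le_max_left _ _) hbig
  have hbig2 := le_trans (le_max_right _ _) hbig
  have B2 : b2 ≤ lev k := le_trans (le_max_left _ _) hbig2
  have hbig3 := le_trans (le_max_right _ _) hbig2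
  have B3 : b3 ≤ lev k := le_trans (le_max_left _ _) hbig3
  have hbig4 := le_trans (le_max_right _ _) hbig3
  have B4 : b4 ≤ lev k := le_trans (le_max_left _ _) hbig4
  have hbig5 := le_trans (le_max_right _ _) hbig4
  have B5 : b5 ≤ lev k := le_trans (le_max_left _ _) hbig5
  have B6 : b6 ≤ lev k := le_trans (le_max_right _ _) hbig5
  obtain ⟨h1, hL1, hL2, hL3, hL4, hL5, hL6, hL7⟩ := H1 _ B1
  have hb0 : 0 < lev k := by linarith
  have p200 : 0 < lev k ^ 200 := by positivity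
  have htT : t < T := lt_of_le_of_lt htt1 ht1T
  obtain ⟨hD0, hD1⟩ := HD ε he6 m γ τ T h t t1 k1 hK6 hτt.le htt1 ht1T
  have hS : S1 P (lev k) m (γ t) := H5 _ B5 m (γ t) _ hD1 hSI
  have hFt : (9 / 10) * lev k ^ 200 ≤ FQ m (γ t) := by
    have h7 := hSI.F_ge
    have h8 : (9 / 10) * lev k ^ 200 ≤ (1 - Dg P C m γ t t1 k1) * lev k ^ 200 :=
      mul_le_mul_of_nonneg_right (by linarith) p200.le
    linarith
  have hRt := HP ε he5 m γ τ T h t t1 k1 k hKP hτt.le htt1 ht1T hk htg hR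
  obtain ⟨t0, ht0, hE, hend⟩ := H6 _ B6 ε m γ τ T h t hτt htT hS hx2 hpos hhh hFt
    (by linarith [hSI.F_le]) hRt
  obtain ⟨hxe, hFe⟩ := HE ε he1 m γ τ T h t0 t k (hK1.trans hk) ht0.1 ht0.2 htT hE hx2 hpos
  have ht01 : t0 ≤ t1 := ht0.2.le.trans htt1
  have hadd := Dg_add P (C := C) h (k1 := k1) ht0.1 ht0.2.le htt1 ht1T
  obtain ⟨hD0', hD1'⟩ := HD ε he6 m γ τ T h t0 t1 k1 hK6 ht0.1 ht01 ht1T
  -- the drift
  have hdr : |FQ m (γ t) - FQ m (γ t0)| ≤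
      lev k ^ 200 * (Dg P C m γ t0 t1 k1 - Dg P C m γ t t1 k1) := by
    have hI : 0 ≤ (∫⁻ s in Icc t0 t, G P m (γ s)).toReal := ENNReal.toReal_nonneg
    have htt0 : 0 ≤ t - t0 := by linarith [ht0.2]
    have hl1 : 0 < lev k1 := lt_of_lt_of_le one_pos (one_le_lev k1)
    have hlev : (t - t0) / lev k ^ 50 ≤ (t - t0) / lev k1 ^ 50 :=
      div_le_div_of_nonneg_left htt0 (by positivity)
        (pow_le_pow_left₀ hl1.le (lev_mono hk) 50)
    have hp50 : 0 < lev k ^ 50 := by positivity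
    have hX : 0 ≤ (∫⁻ s in Icc t0 t, G P m (γ s)).toReal + (t - t0) / lev k ^ 50 :=
      add_nonneg hI (div_nonneg htt0 hp50.le)
    calc |FQ m (γ t) - FQ m (γ t0)|
        ≤ Ce * lev k ^ 200 *
          ((∫⁻ s in Icc t0 t, G P m (γ s)).toReal + (t - t0) / lev k ^ 50) := hFe
      _ = lev k ^ 200 * (Ce *
          ((∫⁻ s in Icc t0 t, G P m (γ s)).toReal + (t - t0) / lev k ^ 50)) := by ring
      _ ≤ lev k ^ 200 * (C *
          ((∫⁻ s in Icc t0 t, G P m (γ s)).toReal + (t - t0) / lev k1 ^ 50)) := by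
          refine mul_le_mul_of_nonneg_left ?_ p200.le
          exact mul_le_mul hCCe (by linarith) hX hC0.le
      _ = lev k ^ 200 * (Dg P C m γ t0 t1 k1 - Dg P C m γ t t1 k1) := by
          rw [hadd]
          ring
  have hdr' := abs_le.1 hdr
  have hF0 : (1 - Dg P C m γ t0 t1 k1) * lev k ^ 200 ≤ FQ m (γ t0) := by
    have h7 := hSI.F_ge
    have h8 : (1 - Dg P C m γ t0 t1 k1) * lev k ^ 200 = (1 - Dg P C m γ t t1 k1) * lev k ^ 200 -
      lev k ^ 200 * (Dg P C m γ t0 t1 k1 - Dg P C m γ t t1 k1) := by ring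
    have h9 := hdr'.2
    linarith
  have hF1 : FQ m (γ t0) ≤ 5 * lev k ^ 200 := by
    have h7 := hSI.F_le
    have h8 : lev k ^ 200 * (Dg P C m γ t0 t1 k1 - Dg P C m γ t t1 k1) ≤ lev k ^ 200 * (1 / 10) :=
      mul_le_mul_of_nonneg_left (by linarith) p200.le
    have h9 := hdr'.1
    linarith
  have hF2 : (9 / 10) * lev k ^ 200 ≤ FQ m (γ t0) := by
    have h8 : (9 / 10) * lev k ^ 200 ≤ (1 - Dg P C m γ t0 t1 k1) * lev k ^ 200 :=
      mul_le_mul_of_nonneg_right (by linarith) p200.le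
    linarith
  have htI0 : t0 ∈ Icc t0 t := ⟨le_rfl, ht0.2.le⟩
  have hS0 : S1 P (lev k) m (γ t0) := hE.s1 t0 htI0
  have hinv0 := hE.inv t0 htI0
  have hnear0 : ‖x2 m γ t0‖ ≤ 2 / lev k ^ 96 := hE.near t0 htI0
  have hhh0 := hE.hh_ge t0 htI0
  have htg0 : TG P m γ t0 t1 k1 k := by
    intro s hs
    rcases le_or_gt s t with hst | hst
    · exact ⟨k, hk, le_rfl, 1, Or.inl (hE.s1 s ⟨hs.1, hst⟩)⟩
    · exact htg s ⟨hst.le, hs.2⟩
  have hR0 := HP ε he5 m γ τ T h t0 t1 k1 k hKP ht0.1 ht01 ht1T hk htg0 hR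
  obtain ⟨s1, s2, s3, s4, s5, s6⟩ := H2 _ B2 m h.hm (γ t0) hinv0 hS0 hnear0 (hxe t0 htI0) hF2 hF1
  rcases hend with hend | ⟨i, hi⟩ | ⟨j, hj⟩ | hend
  · -- the time `τ` is reached
    left
    refine ⟨1, Or.inl ?_⟩
    show lev k1 ^ 200 / 2 ≤ FQ m (γ τ)
    rw [← hend]
    have hl1 : 0 < lev k1 := lt_of_lt_of_le one_pos (one_le_lev k1)
    have h7 : lev k1 ^ 200 ≤ lev k ^ 200 := pow_le_pow_left₀ hl1.le (lev_mono hk) 200
    linarith
  · rcases i with _ | _ | _ | j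
    · exfalso
      have h7 : P.Cr / lev k ^ 200 - ‖(γ t0).1 0 - (γ t0).1 1‖ = 0 := hi
      linarith
    · exfalso
      have h7 : Rg 3 (γ t0).1 - 1 / (2 * lev k ^ 77) = 0 := hi
      linarith
    · have h7 : 2 / lev k ^ 96 - ‖x2 m γ t0‖ = 0 := hi
      obtain ⟨k', hk', hSI'⟩ := H3 k B3 m h.hm (γ t0) _ hD0' hD1' hinv0 hS0
        (show ‖x2 m γ t0‖ = 2 / lev k ^ 96 by linarith) hF0 hF1 hhh0
      right; left
      refine ⟨t0, ht0, k', hk', hk.trans hk', ht01, ?_, 1, hSI'⟩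
      intro s hs
      obtain ⟨k2, a1, a2, σ, a3⟩ := htg0 s hs
      exact ⟨k2, a1, a2.trans hk', σ, a3⟩
    · exfalso
      have h7 : ‖(γ t0).1 j.1 - cm m 0 1 (γ t0).1‖ - P.Zp / lev k ^ 200 = 0 := hi
      linarith [s4 j.1 j.2]
  · exfalso
    rcases j with _ | _ | q
    · have h7 : FQ m (γ t0) - lev k ^ 200 / 2 = 0 := hj
      linarith
    · have h7 : 8 * lev k ^ 200 - FQ m (γ t0) = 0 := hj
      linarith
    · have h7 : hp m q.1.1 q.1.2 (γ t0) + 3 * FQ m (γ t0) = 0 := hj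
      linarith [(s6 q.1.1 q.1.2 q.2.1 q.2.2.1 q.2.2.2).2]
  · right; right
    exact ⟨t0, ht0, hk, ht01, htg0, 1, H4 _ B4 m h.hm (γ t0) _ hS0 hnear0 hF0 hF1 (by linarith)⟩

end NB5
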