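import Mathlib
import Pool.Agent.NB5.Defs
import Pool.Agent.NB5.ExL
import Pool.Agent.NB5.CsC

/-!
# One step of the tracing (project NB5, module NB5-StpB)

WLOG `σ = 1` in `StrI` (`Cx.rel`, `StrI_rel`, `StrIII_rel`, `Done_rel`, `rel_rel`). `b = lev k`,
`D = Dg (t) ≤ 1/10` (`Dg_small`). Take `C = ` the constant `C0 ≥ 1` of `excursion`.
(A) some `i ≠ j` in `{2,3,4}` with `hp m i j ≤ -2 FQ`: relabel by a permutation in `PQ` (`SI.rel`, `hp_rel`,
`FQ_rel`) so that `{i, j} = {2, 3}`; `switch` gives `σ'`, `k'` with `SI` and strict inequalities; `case_C` for the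
relabelled context (its hypotheses on the `x_j` are vacuous since `2 < K2`).
(B) not (A), and some `j ≥ 2` with `‖x_j‖ < K2/b^96`, `hh m j ≤ -L1 b` (so `=` by `SI.h_ge`): relabel by
`swap 2 j`; `SIII P D b m (γ t)`: `FT - L1 b = FQ` (`hh_two`), `FT ≤ 4 b^200 + L1 b ≤ 20 b^200`, distances in
`{0,1,2}`: `≤ K2/b^96 + 2 r ≤ 3 K2/b^96`. So `StrIII` at `t`; `mode_III`.
(C) not (A), (B), and for no `j`: `‖x_j‖ = 2/b^96` and `⟪x_j, w_j⟫ > 0`: `case_C`.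
(D) otherwise relabel by `swap 2 j`: `excursion`; in its third alternative apply `mode_III` at `t'`.
-/

open MeasureTheory Set Filter Topology Metric
open scoped NNReal ENNReal RealInnerProductSpace

namespace NB5

open HDN

variable {d : ℕ}

/-! ### permutations -/

private theorem perm_ij : ∀ i j : Fin 5, 2 ≤ i → 2 ≤ j → i ≠ j →
    (∀ a, (Equiv.swap 2 i * Equiv.swap 3 (Equiv.swap 2 i j)) a ≤ 1 ↔ a ≤ 1) ∧
      (Equiv.swap 2 i * Equiv.swap 3 (Equiv.swap 2 i j)) 2 = i ∧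
      (Equiv.swap 2 i * Equiv.swap 3 (Equiv.swap 2 i j)) 3 = j := by
  decide

private theorem perm_j : ∀ j : Fin 5, 2 ≤ j → ∀ a, Equiv.swap 2 j a ≤ 1 ↔ a ≤ 1 := by
  decide

private theorem TG.mono' {P : Par} {m : Fin 5 → ℝ} {γ : ℝ → St d} {t t1 : ℝ} {k1 k k' : ℕ}
    (h : TG P m γ t t1 k1 k) (hk : k ≤ k') : TG P m γ t t1 k1 k' := by
  intro s hs
  obtain ⟨l, h1, h2, h3⟩ := h s hs
  exact ⟨l, h1, h2.trans hk, h3⟩

/-! ### from strict mode I to the entry of mode III -/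

private theorem dist_cm {m : Fin 5 → ℝ} (hm : ∀ i, 0 < m i) (q : Cf 5 d) :
    ‖cm m 0 1 q - q 0‖ ≤ ‖q 0 - q 1‖ ∧ ‖cm m 0 1 q - q 1‖ ≤ ‖q 0 - q 1‖ := by
  have h0 := hm 0
  have h1 := hm 1
  have hs : m 0 + m 1 ≠ 0 := by positivity
  have e0 : cm m 0 1 q - q 0 = (-(m 1 / (m 0 + m 1))) • (q 0 - q 1) := by
    unfold cm
    match_scalars
    · field_simp
      ring
    · field_simp
  have e1 : cm m 0 1 q - q 1 = (m 0 / (m 0 + m 1)) • (q 0 - q 1) := by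
    unfold cm
    match_scalars
    · field_simp
    · field_simp
      ring
  constructor
  · rw [e0, norm_smul, norm_neg, Real.norm_eq_abs, abs_of_pos (by positivity)]
    have : m 1 / (m 0 + m 1) ≤ 1 := by
      rw [div_le_one (by positivity)]; linarith
    exact mul_le_of_le_one_left (norm_nonneg _) this
  · rw [e1, norm_smul, Real.norm_eq_abs, abs_of_pos (by positivity)]
    have : m 0 / (m 0 + m 1) ≤ 1 := by
      rw [div_le_one (by positivity)]; linarith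
    exact mul_le_of_le_one_left (norm_nonneg _) this

private theorem K2_ge (P : Par) : 32 ≤ P.K2 := by
  have h := P.hM
  have : (1 : ℝ) ≤ P.M ^ 4 := one_le_pow₀ h
  unfold Par.K2
  linarith

private theorem Cr_le (P : Par) : P.Cr ≤ P.K2 := by
  have h := P.hM
  have h2 : P.M ^ 2 ≤ P.M ^ 4 := pow_le_pow_right₀ h (by norm_num)
  have h3 : (0 : ℝ) ≤ P.M ^ 4 := by positivity
  unfold Par.Cr Par.K2
  linarith

private theorem L1_nonneg (P : Par) {b : ℝ} (hb : 1 ≤ b) : 0 ≤ P.L1 b := by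
  have h := P.hM
  unfold Par.L1
  positivity

private theorem L1_le (P : Par) {b : ℝ} (hb : 1 ≤ b) : P.L1 b ≤ b ^ 200 := by
  have h := P.hM
  have h2 : (1 : ℝ) ≤ P.M ^ 2 := one_le_pow₀ h
  have h3 : b ^ 96 ≤ b ^ 200 := pow_le_pow_right₀ hb (by norm_num)
  have h4 : (0 : ℝ) ≤ b ^ 96 := by positivity
  unfold Par.L1
  rw [div_le_iff₀ (by positivity)]
  nlinarith [mul_le_mul h3 (show (1 : ℝ) ≤ 4 * P.M ^ 2 by linarith) (by norm_num)
    (by positivity : (0 : ℝ) ≤ b ^ 200)]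

private theorem si_siii {P : Par} {D b : ℝ} {m : Fin 5 → ℝ} (hm : ∀ i, 0 < m i) {x : St d}
    (hb : 1 ≤ b) (h : SI P D b m x) (hx : ‖x.1 2 - cm m 0 1 x.1‖ < P.K2 / b ^ 96)
    (he : FT m x = FQ m x + P.L1 b) : SIII P D b m x := by
  have hb0 : 0 < b := by linarith
  have hK := K2_ge P
  obtain ⟨g0, g1⟩ := dist_cm hm x.1
  have hr : ‖x.1 0 - x.1 1‖ ≤ P.K2 / b ^ 96 := by
    refine h.r_le.trans ?_
    have h3 : b ^ 96 ≤ b ^ 200 := pow_le_pow_right₀ hb (by norm_num)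
    exact div_le_div₀ (by linarith) (Cr_le P) (by positivity) h3
  have hK0 : 0 ≤ P.K2 / b ^ 96 := by positivity
  have e3 : 3 * P.K2 / b ^ 96 = 3 * (P.K2 / b ^ 96) := by ring
  have d20 : ‖x.1 2 - x.1 0‖ ≤ 3 * P.K2 / b ^ 96 := by
    have e : x.1 2 - x.1 0 = (x.1 2 - cm m 0 1 x.1) + (cm m 0 1 x.1 - x.1 0) := by abel
    rw [e, e3]
    refine (norm_add_le _ _).trans ?_
    linarith
  have d21 : ‖x.1 2 - x.1 1‖ ≤ 3 * P.K2 / b ^ 96 := by
    have e : x.1 2 - x.1 1 = (x.1 2 - cm m 0 1 x.1) + (cm m 0 1 x.1 - x.1 1) := by abel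
    rw [e, e3]
    refine (norm_add_le _ _).trans ?_
    linarith
  have d01 : ‖x.1 0 - x.1 1‖ ≤ 3 * P.K2 / b ^ 96 := by
    rw [e3]; linarith
  have dii : ∀ i : Fin 5, ‖x.1 i - x.1 i‖ ≤ 3 * P.K2 / b ^ 96 := by
    intro i
    rw [sub_self, norm_zero, e3]
    linarith
  refine ⟨?_, ?_, ?_, h.R3⟩
  · intro i j hi hj
    have ci : i = 0 ∨ i = 1 ∨ i = 2 := by
      revert hi; revert i; decide
    have cj : j = 0 ∨ j = 1 ∨ j = 2 := by
      revert hj; revert j; decide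
    rcases ci with rfl | rfl | rfl <;> rcases cj with rfl | rfl | rfl
    · exact dii 0
    · exact d01
    · rw [norm_sub_rev]; exact d20
    · rw [norm_sub_rev]; exact d01
    · exact dii 1
    · rw [norm_sub_rev]; exact d21
    · exact d20
    · exact d21
    · exact dii 2
  · rw [he]
    have := h.F_ge
    linarith
  · rw [he]
    have h1 := h.F_le
    have h2 := L1_le P hb
    have h3 : (0 : ℝ) ≤ b ^ 200 := by positivity
    linarith

/-! ### the step for the identity labelling -/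

private theorem step_one (P : Par) : ∃ C ≥ 1, ∃ ε0 > 0, ∃ K : ℕ, ∀ ε ≤ ε0,
    ∀ (m : Fin 5 → ℝ) (γ : ℝ → St d) (τ T : ℝ), Cx P ε m γ τ T →
    ∀ (t t1 : ℝ) (k1 k : ℕ), K ≤ k1 → k1 ≤ k → τ < t → t ≤ t1 → t1 < T →
    1 / lev k1 ^ 77 ≤ Rg 3 (γ t1).1 → TG P m γ t t1 k1 k →
    SI P (Dg P C m γ t t1 k1) (lev k) m (γ t) →
    Done m γ τ k1 ∨ ∃ t' ∈ Ico τ t, ∃ k', k ≤ k' ∧ StrI P C m γ t' t1 k1 k' := by
  obtain ⟨C, hC, hexc⟩ := excursion (d := d) P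
  have hC0 : 0 < C := by linarith
  obtain ⟨ε1, hε1, K1, H1⟩ := hexc C le_rfl
  obtain ⟨ε2, hε2, K2, H2⟩ := case_C (d := d) P C hC
  obtain ⟨ε3, hε3, K3, H3⟩ := mode_III (d := d) P C hC
  obtain ⟨ε4, hε4, K4, H4⟩ := Dg_small (d := d) P hC0
  obtain ⟨K5, H5⟩ := switch (d := d) P
  refine ⟨C, hC, min (min ε1 ε2) (min ε3 ε4), by positivity,
    K1 + K2 + K3 + K4 + K5, ?_⟩
  intro ε hε m γ τ T hCx t t1 k1 k hK hkk hτ htt1 ht1 hR hTG hSI
  have hεa : ε ≤ ε1 := hε.trans ((min_le_left _ _).trans (min_le_left _ _))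
  have hεb : ε ≤ ε2 := hε.trans ((min_le_left _ _).trans (min_le_right _ _))
  have hεc : ε ≤ ε3 := hε.trans ((min_le_right _ _).trans (min_le_left _ _))
  have hεd : ε ≤ ε4 := hε.trans ((min_le_right _ _).trans (min_le_right _ _))
  have hDs := H4 ε hεd m γ τ T hCx t t1 k1 (by omega) hτ.le htt1 ht1
  have hb : 1 ≤ lev k := one_le_lev k
  have hb0 : 0 < lev k := by linarith
  have htm : t ∈ Ico τ T := ⟨hτ.le, by linarith⟩
  have hK2 := K2_ge P
  -- the relabelled context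
  have hRg : ∀ s : Equiv.Perm (Fin 5), 1 / lev k1 ^ 77 ≤ Rg 3 ((fun t => rel s (γ t)) t1).1 := by
    intro s
    show _ ≤ Rg 3 ((γ t1).1 ∘ s)
    rw [Rg_rel]
    exact hR
  by_cases hA : ∃ i j : Fin 5, 2 ≤ i ∧ 2 ≤ j ∧ i ≠ j ∧ hp m i j (γ t) ≤ -(2 * FQ m (γ t))
  · -- case A
    obtain ⟨i, j, hi, hj, hij, hh⟩ := hA
    obtain ⟨p1, p2, p3⟩ := perm_ij i j hi hj hij
    set s : Equiv.Perm (Fin 5) := Equiv.swap 2 i * Equiv.swap 3 (Equiv.swap 2 i j) with hs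
    have hPQ : PQ s := p1
    have hSI' := SI.rel hPQ hSI
    have hh' : hp (m ∘ s) 2 3 (rel s (γ t)) ≤ -(2 * FQ (m ∘ s) (rel s (γ t))) := by
      rw [hp_rel, FQ_rel hPQ, p2, p3]
      exact hh
    obtain ⟨k', hkk', σ, hs1, hs2, hs3⟩ := H5 k (by omega) (m ∘ s) (hCx.hm.rel s)
      (rel s (γ t)) (Dg P C m γ t t1 k1) hDs.1 hDs.2 (inv_rel s (hCx.inv t htm)) hSI' hh'
    have hb' : 1 ≤ lev k' := one_le_lev k'
    have hb0' : 0 < lev k' := by linarith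
    have hCx' := hCx.rel (s * σ)
    have hTG' : TG P (m ∘ ⇑(s * σ)) (fun t => rel (s * σ) (γ t)) t t1 k1 k' :=
      (TG_rel (s * σ)).2 (hTG.mono' hkk')
    have hSI'' : SI P (Dg P C (m ∘ ⇑(s * σ)) (fun t => rel (s * σ) (γ t)) t t1 k1) (lev k')
        (m ∘ ⇑(s * σ)) (rel (s * σ) (γ t)) := by
      rw [Dg_rel]
      exact hs1
    obtain ⟨t', ht', k'', hk'', hst⟩ := H2 ε hεb _ _ τ T hCx' t t1 k1 k' (by omega)
      (hkk.trans hkk') hτ htt1 ht1 (hRg _) hTG' hSI'' hs2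
      (fun j hj hlt => absurd hlt (not_lt.2 (hs3 j hj).le))
      (fun j hj he => by
        exfalso
        have h1 := hs3 j hj
        have h2 : (2 : ℝ) / lev k' ^ 96 ≤ P.K2 / lev k' ^ 96 :=
          div_le_div_of_nonneg_right (by linarith) (by positivity)
        have h3 : ‖(rel σ (rel s (γ t))).1 j - cm ((m ∘ s) ∘ σ) 0 1 (rel σ (rel s (γ t))).1‖ =
          2 / lev k' ^ 96 := he
        linarith)
    exact Or.inr ⟨t', ht', k'', hkk'.trans hk'', (StrI_rel (s * σ)).1 hst⟩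
  · -- hard strict
    have hA' : ∀ i j : Fin 5, 2 ≤ i → 2 ≤ j → i ≠ j → -(2 * FQ m (γ t)) < hp m i j (γ t) := by
      intro i j hi hj hij
      by_contra hc
      exact hA ⟨i, j, hi, hj, hij, not_lt.1 hc⟩
    by_cases hB : ∃ j : Fin 5, 2 ≤ j ∧ ‖(γ t).1 j - cm m 0 1 (γ t).1‖ < P.K2 / lev k ^ 96 ∧
        hh m j (γ t) ≤ -P.L1 (lev k)
    · -- case B
      obtain ⟨j, hj, hlt, hle⟩ := hB
      have heq : hh m j (γ t) = -P.L1 (lev k) := le_antisymm hle (hSI.h_ge j hj hlt)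
      set s : Equiv.Perm (Fin 5) := Equiv.swap 2 j with hs
      have hPQ : PQ s := perm_j j hj
      have hSI' := SI.rel hPQ hSI
      have hs2 : s 2 = j := Equiv.swap_apply_left 2 j
      have e2 : ‖(rel s (γ t)).1 2 - cm (m ∘ s) 0 1 (rel s (γ t)).1‖ =
          ‖(γ t).1 j - cm m 0 1 (γ t).1‖ := by
        show ‖(γ t).1 (s 2) - cm (m ∘ s) 0 1 ((γ t).1 ∘ s)‖ = _
        rw [cm_rel hPQ, hs2]
      have hfq : FT (m ∘ s) (rel s (γ t)) = FQ (m ∘ s) (rel s (γ t)) + P.L1 (lev k) := by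
        have h1 := hh_two (m ∘ s) (rel s (γ t))
        rw [hh_rel hPQ (by decide : (2 : Fin 5) ≤ 2), hs2, heq] at h1
        linarith
      have hIII := si_siii (hCx.hm.rel s).pos hb hSI' (by rw [e2]; exact hlt) hfq
      have hCx' := hCx.rel s
      have hst : StrIII P C (m ∘ s) (fun t => rel s (γ t)) t t1 k1 k := by
        refine ⟨hkk, htt1, (TG_rel s).2 hTG, 1, ?_⟩
        rw [Dg_rel]
        exact hIII
      rcases H3 ε hεc _ _ τ T hCx' t t1 k1 k (by omega) hτ.le ht1 (hRg s) hst with h | h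
      · exact Or.inl ((Done_rel s).1 h)
      · obtain ⟨t', ht', k', hk', h'⟩ := h
        exact Or.inr ⟨t', ht', k', hk', (StrI_rel s).1 h'⟩
    · have hB' : ∀ j : Fin 5, 2 ≤ j → ‖(γ t).1 j - cm m 0 1 (γ t).1‖ < P.K2 / lev k ^ 96 →
          -P.L1 (lev k) < hh m j (γ t) := by
        intro j hj hlt
        by_contra hc
        exact hB ⟨j, hj, hlt, not_lt.1 hc⟩
      by_cases hD : ∃ j : Fin 5, 2 ≤ j ∧ ‖(γ t).1 j - cm m 0 1 (γ t).1‖ = 2 / lev k ^ 96 ∧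
          0 < ⟪(γ t).1 j - cm m 0 1 (γ t).1, (γ t).2 j - cm m 0 1 (γ t).2⟫
      · -- case D
        obtain ⟨j, hj, hj1, hj2⟩ := hD
        set s : Equiv.Perm (Fin 5) := Equiv.swap 2 j with hs
        have hPQ : PQ s := perm_j j hj
        have hSI' := SI.rel hPQ hSI
        have hs2 : s 2 = j := Equiv.swap_apply_left 2 j
        have ex : x2 (m ∘ s) (fun t => rel s (γ t)) t = (γ t).1 j - cm m 0 1 (γ t).1 := by
          show (γ t).1 (s 2) - cm (m ∘ s) 0 1 ((γ t).1 ∘ s) = _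
          rw [cm_rel hPQ, hs2]
        have ew : w2 (m ∘ s) (fun t => rel s (γ t)) t = (γ t).2 j - cm m 0 1 (γ t).2 := by
          show (γ t).2 (s 2) - cm (m ∘ s) 0 1 ((γ t).2 ∘ s) = _
          rw [cm_rel hPQ, hs2]
        have hlt : ‖(γ t).1 j - cm m 0 1 (γ t).1‖ < P.K2 / lev k ^ 96 := by
          rw [hj1]
          exact div_lt_div_of_pos_right (by linarith) (by positivity)
        have hhj : -P.L1 (lev k) < hh (m ∘ s) 2 (rel s (γ t)) := by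
          rw [hh_rel hPQ (by decide : (2 : Fin 5) ≤ 2), hs2]
          exact hB' j hj hlt
        have hCx' := hCx.rel s
        have hSI'' : SI P (Dg P C (m ∘ s) (fun t => rel s (γ t)) t t1 k1) (lev k)
            (m ∘ s) (rel s (γ t)) := by
          rw [Dg_rel]
          exact hSI'
        rcases H1 ε hεa _ _ τ T hCx' t t1 k1 k (by omega) hkk hτ htt1 ht1 (hRg s)
          ((TG_rel s).2 hTG) hSI'' (by rw [ex]; exact hj1) (by rw [ex, ew]; exact hj2) hhj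
          with h | h | h
        · exact Or.inl ((Done_rel s).1 h)
        · obtain ⟨t', ht', k', hk', h'⟩ := h
          exact Or.inr ⟨t', ht', k', hk', (StrI_rel s).1 h'⟩
        · obtain ⟨t', ht', h'⟩ := h
          rcases H3 ε hεc _ _ τ T hCx' t' t1 k1 k (by omega) ht'.1 ht1 (hRg s) h' with g | g
          · exact Or.inl ((Done_rel s).1 g)
          · obtain ⟨t'', ht'', k', hk', h''⟩ := g
            exact Or.inr ⟨t'', ⟨ht''.1, ht''.2.trans ht'.2⟩, k', hk', (StrI_rel s).1 h''⟩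
      · -- case C
        have hD' : ∀ j : Fin 5, 2 ≤ j → ‖(γ t).1 j - cm m 0 1 (γ t).1‖ = 2 / lev k ^ 96 →
            ⟪(γ t).1 j - cm m 0 1 (γ t).1, (γ t).2 j - cm m 0 1 (γ t).2⟫ ≤ 0 := by
          intro j hj he
          by_contra hc
          exact hD ⟨j, hj, he, not_le.1 hc⟩
        exact Or.inr (H2 ε hεb m γ τ T hCx t t1 k1 k (by omega) hkk hτ htt1 ht1 hR hTG hSI
          hA' hB' hD')

theorem trace_step (P : Par) : ∃ C ≥ 1, ∃ ε0 > 0, ∃ K : ℕ, ∀ ε ≤ ε0,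
    ∀ (m : Fin 5 → ℝ) (γ : ℝ → St d) (τ T : ℝ), Cx P ε m γ τ T →
    ∀ (t t1 : ℝ) (k1 k : ℕ), K ≤ k1 → τ < t → t1 < T →
    1 / lev k1 ^ 77 ≤ Rg 3 (γ t1).1 → StrI P C m γ t t1 k1 k →
    Done m γ τ k1 ∨ ∃ t' ∈ Ico τ t, ∃ k', k ≤ k' ∧ StrI P C m γ t' t1 k1 k' := by
  obtain ⟨C, hC, ε0, hε0, K, H⟩ := step_one (d := d) P
  refine ⟨C, hC, ε0, hε0, K, ?_⟩
  intro ε hε m γ τ T hCx t t1 k1 k hK hτ ht1 hR hst
  obtain ⟨hkk, htt1, hTG, σ, hSI⟩ := hst
  have hR' : 1 / lev k1 ^ 77 ≤ Rg 3 ((fun t => rel σ (γ t)) t1).1 := by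
    show _ ≤ Rg 3 ((γ t1).1 ∘ σ)
    rw [Rg_rel]
    exact hR
  have hSI' : SI P (Dg P C (m ∘ σ) (fun t => rel σ (γ t)) t t1 k1) (lev k)
      (m ∘ σ) (rel σ (γ t)) := by
    rw [Dg_rel]
    exact hSI
  rcases H ε hε _ _ τ T (hCx.rel σ) t t1 k1 k hK hkk hτ htt1 ht1 hR' ((TG_rel σ).2 hTG) hSI'
    with h | h
  · exact Or.inl ((Done_rel σ).1 h)
  · obtain ⟨t', ht', k', hk', h'⟩ := h
    exact Or.inr ⟨t', ht', k', hk', (StrI_rel σ).1 h'⟩

end NB5
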