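import Mathlib
import Pool.Agent.NB5.Defs
import Pool.Agent.NB5.MCombo
import Pool.Agent.NB5.Trc
import Pool.Agent.NB5.StA
import Pool.Agent.NB5.StC
import Pool.Agent.NB5.StD

/-!
# The deterministic theorem (project NB5, module NB5-Core)

`ε = min` of the constants of `start_cross` and `trace`. Let `B` be the maximum over `σ` of `FQ`, `FT` at the time
`τ`; choose `K` (at least the `K` of `trace`) with `lev K^200/2 > B` (`lev_tendsto`, `lev_mono`). Choose `n` large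
(`start_cross`, `start_T`, `start_P` for this `K`); `Rg4_class` gives a relabelling `σ` of the crossing state `γ t1` to
which `start_T` or `start_P` applies (`inv_rel`, `Mb.rel`, `Rg_rel`): `StOK` for `m ∘ σ`, so for `m` (`rel_rel`,
`mass_mul`). `trace` gives `Done m γ τ k1` with `k1 ≥ K`: contradiction.
-/

open MeasureTheory Set Filter Topology Metric
open scoped NNReal ENNReal RealInnerProductSpace

namespace NB5

open HDN

variable {d : ℕ}

theorem core (P : Par) : ∃ ε > 0, ∀ (m : Fin 5 → ℝ) (γ : ℝ → St d) (τ T : ℝ),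
    ¬ Cx P ε m γ τ T := by
  obtain ⟨εA, hεA, hA⟩ := start_cross (d := d) P
  obtain ⟨C, hC, εB, hεB, KB, hB⟩ := trace (d := d) P
  refine ⟨min εA εB, lt_min hεA hεB, fun m γ τ T hCx => ?_⟩
  obtain ⟨k0, hk0⟩ := not_done m γ τ
  obtain ⟨n0, hn0⟩ := hA _ (min_le_left _ _) m γ τ T hCx
  obtain ⟨nT, hT⟩ := start_T (d := d) P (max KB k0)
  obtain ⟨nP, hP⟩ := start_P (d := d) P (max KB k0)
  set n := max n0 (max nT nP) with hn
  obtain ⟨t1, ht1, h1, h2, h3⟩ := hn0 n (le_max_left _ _)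
  obtain ⟨σ, hcl, hσ⟩ := Rg4_class h2
  have hM : Mb P.M (m ∘ σ) := hCx.hm.rel σ
  have hinv : rel σ (γ t1) ∈ Inv (m ∘ σ) P.R := inv_rel σ (hCx.inv t1 ⟨ht1.1.le, ht1.2⟩)
  have hR4 : 1 / cn n ^ 20 ≤ Rg 4 (rel σ (γ t1)).1 := by
    show 1 / cn n ^ 20 ≤ Rg 4 ((γ t1).1 ∘ σ)
    rw [Rg_rel]
    exact h1
  have hok : StOK P (max KB k0) (m ∘ σ) (rel σ (γ t1)) := by
    rcases hσ with h | h
    · exact hT n ((le_max_left _ _).trans (le_max_right _ _)) _ hM _ hinv hcl hR4 h (h3 σ).1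
    · exact hP n ((le_max_right _ _).trans (le_max_right _ _)) _ hM _ hinv hcl hR4 h (h3 σ).2
  obtain ⟨k1, hk1, hR3, σ', hS⟩ := hok
  have hR3' : 1 / lev k1 ^ 77 ≤ Rg 3 (γ t1).1 := by
    have h4 : Rg 3 (rel σ (γ t1)).1 = Rg 3 (γ t1).1 := Rg_rel σ _
    rw [← h4]
    exact hR3
  have hD := hB _ (min_le_right _ _) m γ τ T hCx t1 k1 ((le_max_left _ _).trans hk1) ht1.1.le
    ht1.2 hR3' ⟨σ * σ', hS⟩
  exact hk0 k1 ((le_max_right _ _).trans hk1) hD

end NB5
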