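import Mathlib
import Pool.Agent.NB5.MCombo
import Pool.Agent.NB5.Core

/-!
# From the finiteness of the state integral to the theorem (project NB5)
-/

open MeasureTheory Set Filter Topology Metric
open scoped NNReal ENNReal RealInnerProductSpace

namespace NB5

open HDN

variable {d : ℕ}

/-- the conclusion, from the finiteness of the integral of the weight for arbitrarily large bounds -/
theorem null_of_fin (hd : 3 ≤ d) {m : Fin 5 → ℝ} (hm : ∀ i, 0 < m i)
    (hfin : ∀ M ≥ 1, Mb M m → ∀ R ≥ 1, ∃ P : Par, P.M = M ∧ R ≤ P.R ∧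
      ∫⁻ x in (Inv m P.R : Set (St d)), G P m x ≠ ∞) :
    volume (incomplete m : Set (St d)) = 0 := by
  refine incomplete_null5 hd hm
    (fun P => Mb P.M m → ∫⁻ x in (Inv m P.R : Set (St d)), G P m x ≠ ∞) ?_ ?_ ?_
  · intro M hM R hR
    by_cases h : Mb M m
    · obtain ⟨P, h1, h2, h3⟩ := hfin M hM h R hR
      exact ⟨P, h1, h2, fun _ => h3⟩
    · refine ⟨⟨M, 10 ^ 9 * M ^ 6, 10 ^ 9 * M ^ 6, R, 0, hM, le_refl _, le_refl _, hR⟩, rfl,
        le_refl _, fun h' => absurd h' h⟩
  · intro P hP hM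
    exact hP hM
  · intro P _
    obtain ⟨ε, hε, h⟩ := core (d := d) P
    exact ⟨ε, hε, fun γ τ T hC => absurd hC (h m γ τ T)⟩

end NB5
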