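import Pool.Agent.NB5.VDefs

/-!
# NB5-VRad: integrals of negative powers of the norm over balls

PLAN. Scaling or dyadic shells. `Module.finrank ℝ (Sp d) = d`; `d ≥ 1` because `0 ≤ p < d`.
Dyadic: the ball of radius `r` is `{0}` (null, as `d ≥ 1`) and the shells
`2^(-k-1) r < ‖y‖ ≤ 2^(-k) r`; on the shell `‖y‖^(-p) ≤ (2^(-k-1) r)^(-p)` and its volume is at most
`ω_d (2^(-k) r)^d` (`Measure.addHaar_closedBall`), so the sum is
`≤ ω_d 2^p r^(d-p) ∑ 2^(-k(d-p))`, a geometric series with ratio `2^(-(d-p)) < 1`.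
(Alternatively the layer-cake formula, or `integral_fun_norm_addHaar`.) For `r = 0` both sides are `0`
(`volume {0} = 0`).
-/

open MeasureTheory Set Filter Topology Metric
open scoped NNReal ENNReal RealInnerProductSpace

namespace NB5

open HDN

/-- radial integrals of negative powers -/
theorem rad_aux (d : ℕ) (p : ℝ) (hp0 : 0 ≤ p) (hp : p < d) (r : ℝ) (hr : 0 ≤ r) :
    ∫⁻ y in closedBall (0 : Sp d) r, ENNReal.ofReal (‖y‖ ^ (-p)) ≤
      ENNReal.ofReal ((d : ℝ) * (volume.real (ball (0 : Sp d) 1) * (1 / ((d : ℝ) - p))) *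
        r ^ ((d : ℝ) - p)) := by
  have hd : 1 ≤ d := by
    rcases Nat.eq_zero_or_pos d with h | h
    · exfalso; rw [h] at hp; simp at hp; linarith
    · exact h
  have : Nonempty (Fin d) := ⟨⟨0, hd⟩⟩
  have : Nontrivial (Sp d) := inferInstance
  have hfr : Module.finrank ℝ (Sp d) = d := by simp
  have hdp : 0 < (d : ℝ) - p := by linarith
  have he : -1 < ((d : ℝ) - 1) - p := by linarith
  set f : ℝ → ℝ := (Iic r).indicator (fun t => t ^ (-p)) with hf
  -- the radial function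
  have hcast : ((d - 1 : ℕ) : ℝ) = (d : ℝ) - 1 := by
    rw [Nat.cast_sub hd]; simp
  have hEq : EqOn (fun y : ℝ => y ^ (Module.finrank ℝ (Sp d) - 1) • f y)
      ((Ioc 0 r).indicator (fun y : ℝ => y ^ (((d : ℝ) - 1) - p))) (Ioi 0) := by
    intro y hy
    have hy0 : 0 < y := hy
    by_cases hyr : y ≤ r
    · have h1 : y ∈ Iic r := hyr
      have h2 : y ∈ Ioc 0 r := ⟨hy0, hyr⟩
      simp only [hf, indicator_of_mem h1, indicator_of_mem h2, hfr, smul_eq_mul]
      rw [← Real.rpow_natCast, ← Real.rpow_add hy0, hcast]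
      congr 1
    · have h1 : y ∉ Iic r := hyr
      have h2 : y ∉ Ioc 0 r := fun h => hyr h.2
      simp only [hf, indicator_of_notMem h1, indicator_of_notMem h2, smul_zero]
  have hI0 : IntegrableOn (fun y : ℝ => y ^ (((d : ℝ) - 1) - p)) (Ioc 0 r) := by
    have := intervalIntegral.intervalIntegrable_rpow' (a := 0) (b := r) he
    rwa [intervalIntegrable_iff_integrableOn_Ioc_of_le hr] at this
  have hInt : IntegrableOn (fun y : ℝ => y ^ (Module.finrank ℝ (Sp d) - 1) • f y) (Ioi 0) := by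
    rw [integrableOn_congr_fun hEq measurableSet_Ioi]
    rw [← integrable_indicator_iff measurableSet_Ioi]
    have h0 : Integrable ((Ioc 0 r).indicator (fun y : ℝ => y ^ (((d : ℝ) - 1) - p))) :=
      (integrable_indicator_iff measurableSet_Ioc).2 hI0
    exact h0.indicator measurableSet_Ioi
  have hIn : Integrable (fun y : Sp d => f ‖y‖) volume :=
    (integrable_fun_norm_addHaar (volume : Measure (Sp d)) (f := f)).2 hInt
  have hval := integral_fun_norm_addHaar (volume : Measure (Sp d)) f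
  have hrad : ∫ y in Ioi (0 : ℝ), y ^ (Module.finrank ℝ (Sp d) - 1) • f y =
      1 / ((d : ℝ) - p) * r ^ ((d : ℝ) - p) := by
    rw [setIntegral_congr_fun measurableSet_Ioi hEq, setIntegral_indicator measurableSet_Ioc]
    have h1 : Ioi (0 : ℝ) ∩ Ioc 0 r = Ioc 0 r := by
      ext y; constructor
      · exact fun h => h.2
      · exact fun h => ⟨h.1, h⟩
    rw [h1, ← intervalIntegral.integral_of_le hr, integral_rpow (Or.inl he)]
    have h2 : (d : ℝ) - 1 - p + 1 = (d : ℝ) - p := by ring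
    rw [h2, Real.zero_rpow hdp.ne']
    ring
  rw [hrad, hfr] at hval
  have hf0 : ∀ y : Sp d, 0 ≤ f ‖y‖ := by
    intro y
    by_cases hyr : ‖y‖ ≤ r
    · have h1 : ‖y‖ ∈ Iic r := hyr
      simp only [hf, indicator_of_mem h1]
      exact Real.rpow_nonneg (norm_nonneg y) _
    · have h1 : ‖y‖ ∉ Iic r := hyr
      simp only [hf, indicator_of_notMem h1]
      exact le_refl _
  have hlin : ∫⁻ y in closedBall (0 : Sp d) r, ENNReal.ofReal (‖y‖ ^ (-p)) =
      ∫⁻ y : Sp d, ENNReal.ofReal (f ‖y‖) := by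
    rw [← lintegral_indicator measurableSet_closedBall]
    refine lintegral_congr fun y => ?_
    by_cases hyr : ‖y‖ ≤ r
    · have h1 : ‖y‖ ∈ Iic r := hyr
      have h2 : y ∈ closedBall (0 : Sp d) r := by simpa using hyr
      simp only [hf, indicator_of_mem h1, indicator_of_mem h2]
    · have h1 : ‖y‖ ∉ Iic r := hyr
      have h2 : y ∉ closedBall (0 : Sp d) r := by simpa using hyr
      simp only [hf, indicator_of_notMem h1, indicator_of_notMem h2, ENNReal.ofReal_zero]
  rw [hlin, ← ofReal_integral_eq_lintegral_ofReal hIn (Eventually.of_forall hf0), hval]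
  apply ENNReal.ofReal_le_ofReal
  rw [nsmul_eq_mul, smul_eq_mul]
  apply le_of_eq
  ring

theorem rad (d : ℕ) (p : ℝ) (hp0 : 0 ≤ p) (hp : p < d) : ∃ C : ℝ, 0 < C ∧ ∀ r : ℝ, 0 ≤ r →
    ∫⁻ y in closedBall (0 : Sp d) r, ENNReal.ofReal (‖y‖ ^ (-p)) ≤
      ENNReal.ofReal (C * r ^ ((d : ℝ) - p)) := by
  refine ⟨(d : ℝ) * (volume.real (ball (0 : Sp d) 1) * (1 / ((d : ℝ) - p))) + 1, ?_, ?_⟩
  · have h1 : 0 < (d : ℝ) - p := by linarith
    have h2 : 0 ≤ volume.real (ball (0 : Sp d) 1) := measureReal_nonneg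
    positivity
  · intro r hr
    refine (rad_aux d p hp0 hp r hr).trans (ENNReal.ofReal_le_ofReal ?_)
    have h3 : 0 ≤ r ^ ((d : ℝ) - p) := Real.rpow_nonneg hr _
    nlinarith

/-- the same with the indicator inside -/
theorem rad' (d : ℕ) (p : ℝ) (hp0 : 0 ≤ p) (hp : p < d) : ∃ C : ℝ, 0 < C ∧ ∀ r : ℝ, 0 ≤ r →
    ∫⁻ y : Sp d, onSet (‖y‖ ≤ r) (‖y‖ ^ (-p)) ≤ ENNReal.ofReal (C * r ^ ((d : ℝ) - p)) := by
  obtain ⟨C, hC, h⟩ := rad d p hp0 hp
  refine ⟨C, hC, fun r hr => (le_of_eq ?_).trans (h r hr)⟩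
  rw [← lintegral_indicator measurableSet_closedBall]
  refine lintegral_congr fun y => ?_
  by_cases hyr : ‖y‖ ≤ r
  · have h2 : y ∈ closedBall (0 : Sp d) r := by simpa using hyr
    rw [indicator_of_mem h2, onSet, if_pos hyr]
  · have h2 : y ∉ closedBall (0 : Sp d) r := by simpa using hyr
    rw [indicator_of_notMem h2, onSet, if_neg hyr]

end NB5
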