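import Pool.Agent.NB5.VKer
import Pool.Agent.NB5.VRad

/-!
# NB5-VK3: the kernel integrated over the third Jacobi pair

PLAN. `lintegral_prod_le` (volume on `Sp d × Sp d` is `volume.prod volume`), then for fixed
`y = z.1 ≠ 0` the set of the `u = z.2` is contained in a cylinder:
* `k3_ball`: `{u | ‖u + c‖ ≤ r} ⊆ cyl (‖y‖⁻¹ • y) (-c) (-c) r r` (`|⟪e, v⟫| ≤ ‖v‖`, `‖perp e v‖ ≤ ‖v‖`);
  `ker_cyl` gives `C r^(d-1)/(μ ‖y‖)`, and `rad'` with `p = 1`.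
* `k3_jw`: `jw y w = ‖y‖ ‖perp (‖y‖⁻¹ • y) w‖`; the set is contained in
  `cyl (‖y‖⁻¹ • y) 0 (-c) V (Z / ‖y‖)`; `ker_cyl` gives `C V Z^(d-2) ‖y‖^(-(d-1))/μ`, and `rad'` with
  `p = d - 1`.
`{y = 0}` is a null set (`d ≥ 1`). `onSet p f = if p then ofReal f else 0`; the constants may depend
on `μ`.
-/

open MeasureTheory Set Filter Topology Metric
open scoped NNReal ENNReal RealInnerProductSpace

namespace NB5

open HDN

variable {d : ℕ}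

private theorem vk_main (hd : 3 ≤ d) {p : ℝ} (K : ℝ≥0∞) (hK : K ≠ ⊤) (F : Sp d × Sp d → ℝ≥0∞)
    (s : ℝ) (hF : ∀ y : Sp d, y ≠ 0 → ∫⁻ u, F (y, u) ≤ onSet (‖y‖ ≤ s) (‖y‖ ^ (-p)) * K) :
    ∫⁻ z, F z ≤ (∫⁻ y : Sp d, onSet (‖y‖ ≤ s) (‖y‖ ^ (-p))) * K := by
  have hne : Nonempty (Fin d) := ⟨⟨0, by omega⟩⟩
  have hnt : Nontrivial (Sp d) := inferInstance
  have h0 : ∀ᵐ y : Sp d, y ≠ 0 := compl_mem_ae_iff.2 (measure_singleton (0 : Sp d))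
  calc ∫⁻ z, F z ≤ ∫⁻ y, ∫⁻ u, F (y, u) := lintegral_prod_le F
    _ ≤ ∫⁻ y : Sp d, onSet (‖y‖ ≤ s) (‖y‖ ^ (-p)) * K := lintegral_mono_ae (h0.mono hF)
    _ = (∫⁻ y : Sp d, onSet (‖y‖ ≤ s) (‖y‖ ^ (-p))) * K := lintegral_mul_const' _ _ hK

private theorem vk_inner (Q : Prop) (S cy : Set (Sp d)) (f : Sp d → ℝ≥0∞) (B : ℝ≥0∞)
    (hS : S ⊆ cy) (hB : ∫⁻ u in cy, f u ≤ B) (G : Sp d → ℝ≥0∞)
    (hG : ∀ u, G u = onSet (Q ∧ u ∈ S) 1 * f u) (b : ℝ) (K : ℝ≥0∞)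
    (hBK : B ≤ ENNReal.ofReal b * K) : ∫⁻ u, G u ≤ onSet Q b * K := by
  classical
  by_cases hQ : Q
  · have h1 : onSet Q b = ENNReal.ofReal b := by
      unfold onSet
      rw [if_pos hQ]
    rw [h1]
    calc ∫⁻ u, G u ≤ ∫⁻ u, cy.indicator f u := by
          apply lintegral_mono
          intro u
          rw [hG]
          by_cases hu : u ∈ S
          · rw [Set.indicator_of_mem (hS hu)]
            unfold onSet
            rw [if_pos ⟨hQ, hu⟩, ENNReal.ofReal_one, one_mul]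
          · unfold onSet
            rw [if_neg (fun h => hu h.2), zero_mul]
            exact bot_le
      _ ≤ ∫⁻ u in cy, f u := lintegral_indicator_le _ _
      _ ≤ B := hB
      _ ≤ ENNReal.ofReal b * K := hBK
  · have h1 : ∀ u, G u = 0 := by
      intro u
      rw [hG]
      unfold onSet
      rw [if_neg (fun h => hQ h.1), zero_mul]
    simp only [h1, lintegral_zero]
    exact bot_le

private theorem vk_e {y : Sp d} (hy : y ≠ 0) : ‖(‖y‖⁻¹ • y)‖ = 1 := by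
  rw [norm_smul, norm_inv, norm_norm, inv_mul_cancel₀ (norm_ne_zero_iff.2 hy)]

private theorem vk_perp_sq {e : Sp d} (he : ‖e‖ = 1) (v : Sp d) :
    ‖perp e v‖ ^ 2 = ‖v‖ ^ 2 - ⟪e, v⟫ ^ 2 := by
  unfold perp
  rw [norm_sub_sq_real, norm_smul, he, real_inner_smul_right, real_inner_comm v e, mul_one,
    Real.norm_eq_abs, sq_abs]
  ring

private theorem vk_inner_le {e : Sp d} (he : ‖e‖ = 1) (v : Sp d) : |⟪e, v⟫| ≤ ‖v‖ := by
  have h := abs_real_inner_le_norm e v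
  rwa [he, one_mul] at h

private theorem vk_perp_le {e : Sp d} (he : ‖e‖ = 1) (v : Sp d) : ‖perp e v‖ ≤ ‖v‖ := by
  apply (sq_le_sq₀ (norm_nonneg _) (norm_nonneg _)).1
  rw [vk_perp_sq he]
  nlinarith [sq_nonneg ⟪e, v⟫]

private theorem vk_jw {y : Sp d} (hy : y ≠ 0) (w : Sp d) :
    jw y w = ‖y‖ * ‖perp (‖y‖⁻¹ • y) w‖ := by
  have hy0 : ‖y‖ ≠ 0 := norm_ne_zero_iff.2 hy
  unfold jw
  have h1 : ‖y‖ ^ 2 * ‖w‖ ^ 2 - ⟪y, w⟫ ^ 2 = (‖y‖ * ‖perp (‖y‖⁻¹ • y) w‖) ^ 2 := by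
    rw [mul_pow, vk_perp_sq (vk_e hy), real_inner_smul_left]
    field_simp
  rw [h1, Real.sqrt_sq (by positivity)]

theorem k3_ball (hd : 3 ≤ d) {μ : ℝ} (hμ : 0 < μ) : ∃ C : ℝ, 0 < C ∧
    ∀ (T : Sp d →L[ℝ] Sp d) (c : Sp d) (r s : ℝ), 0 ≤ r → 0 ≤ s →
    ∫⁻ z : Sp d × Sp d, onSet (‖z.1‖ ≤ s ∧ ‖z.2 + c‖ ≤ r) 1 * ker1 (T + μ • wedge z.1 z.2) ≤
      ENNReal.ofReal (C * r ^ (d - 1) * s ^ (d - 1)) := by
  obtain ⟨C0, hC0, hk⟩ := ker_cyl hd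
  obtain ⟨C1, hC1, hr⟩ := rad' d 1 zero_le_one (by exact_mod_cast (by omega : 1 < d))
  refine ⟨C1 * C0 / μ, by positivity, ?_⟩
  intro T c r s h0r h0s
  have key := vk_main hd (p := 1) (ENNReal.ofReal (C0 * r ^ (d - 1) / μ)) ENNReal.ofReal_ne_top
    (fun z : Sp d × Sp d => onSet (‖z.1‖ ≤ s ∧ ‖z.2 + c‖ ≤ r) 1 * ker1 (T + μ • wedge z.1 z.2)) s ?_
  · refine key.trans ?_
    refine (mul_le_mul_left (hr s h0s) _).trans ?_
    rw [← ENNReal.ofReal_mul (by positivity)]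
    apply ENNReal.ofReal_le_ofReal
    have h1 : ((d : ℝ) - 1) = ((d - 1 : ℕ) : ℝ) := by
      rw [Nat.cast_sub (by omega), Nat.cast_one]
    rw [h1, Real.rpow_natCast]
    apply le_of_eq
    field_simp
  · intro y hy
    have he := vk_e hy
    have hy0 : 0 < ‖y‖ := norm_pos_iff.2 hy
    apply vk_inner (‖y‖ ≤ s) {u | ‖u + c‖ ≤ r} (cyl (‖y‖⁻¹ • y) (-c) (-c) r r)
      (fun u => ker1 (T + μ • wedge y u)) _ ?_ (hk μ y T (-c) (-c) r r hμ hy h0r h0r)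
    · intro u
      rfl
    · rw [← ENNReal.ofReal_mul (by positivity)]
      apply ENNReal.ofReal_le_ofReal
      rw [Real.rpow_neg_one]
      have h2 : r ^ (d - 1) = r * r ^ (d - 2) := by
        rw [← pow_succ', show d - 2 + 1 = d - 1 by omega]
      rw [h2]
      apply le_of_eq
      field_simp
    · intro u hu
      have hu' : ‖u + c‖ ≤ r := hu
      constructor
      · rw [sub_neg_eq_add]
        exact (vk_inner_le he _).trans hu'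
      · rw [sub_neg_eq_add]
        exact (vk_perp_le he _).trans hu'

theorem k3_jw (hd : 3 ≤ d) {μ : ℝ} (hμ : 0 < μ) : ∃ C : ℝ, 0 < C ∧
    ∀ (T : Sp d →L[ℝ] Sp d) (c : Sp d) (D V Z : ℝ), 0 ≤ D → 0 ≤ V → 0 ≤ Z →
    ∫⁻ z : Sp d × Sp d, onSet (‖z.1‖ ≤ D ∧ ‖z.2‖ ≤ V ∧ jw z.1 (z.2 + c) ≤ Z) 1 *
      ker1 (T + μ • wedge z.1 z.2) ≤ ENNReal.ofReal (C * V * Z ^ (d - 2) * D) := by
  obtain ⟨C0, hC0, hk⟩ := ker_cyl hd
  obtain ⟨C1, hC1, hr⟩ := rad' d ((d : ℝ) - 1)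
    (by
      have : (3 : ℝ) ≤ d := by exact_mod_cast hd
      linarith) (by linarith)
  refine ⟨C1 * C0 / μ, by positivity, ?_⟩
  intro T c D V Z h0D h0V h0Z
  have key := vk_main hd (p := (d : ℝ) - 1) (ENNReal.ofReal (C0 * V * Z ^ (d - 2) / μ))
    ENNReal.ofReal_ne_top
    (fun z : Sp d × Sp d => onSet (‖z.1‖ ≤ D ∧ ‖z.2‖ ≤ V ∧ jw z.1 (z.2 + c) ≤ Z) 1 *
      ker1 (T + μ • wedge z.1 z.2)) D ?_
  · refine key.trans ?_
    refine (mul_le_mul_left (hr D h0D) _).trans ?_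
    rw [← ENNReal.ofReal_mul (by positivity)]
    apply ENNReal.ofReal_le_ofReal
    have h1 : (d : ℝ) - ((d : ℝ) - 1) = 1 := by ring
    rw [h1, Real.rpow_one]
    apply le_of_eq
    field_simp
  · intro y hy
    have he := vk_e hy
    have hy0 : 0 < ‖y‖ := norm_pos_iff.2 hy
    apply vk_inner (‖y‖ ≤ D) {u | ‖u‖ ≤ V ∧ jw y (u + c) ≤ Z}
      (cyl (‖y‖⁻¹ • y) 0 (-c) V (Z / ‖y‖))
      (fun u => ker1 (T + μ • wedge y u)) _ ?_
      (hk μ y T 0 (-c) V (Z / ‖y‖) hμ hy h0V (by positivity))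
    · intro u
      rfl
    · rw [← ENNReal.ofReal_mul (by positivity)]
      apply ENNReal.ofReal_le_ofReal
      have h2 : ‖y‖ ^ (-((d : ℝ) - 1)) = (‖y‖ ^ (d - 2))⁻¹ * ‖y‖⁻¹ := by
        have h1 : ((d : ℝ) - 1) = ((d - 2 + 1 : ℕ) : ℝ) := by
          rw [show d - 2 + 1 = d - 1 by omega, Nat.cast_sub (by omega), Nat.cast_one]
        rw [h1, Real.rpow_neg hy0.le, Real.rpow_natCast, pow_succ, mul_inv]
      rw [h2, div_pow]
      apply le_of_eq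
      field_simp
    · rintro u ⟨hu1, hu2⟩
      constructor
      · rw [sub_zero]
        exact (vk_inner_le he _).trans hu1
      · rw [sub_neg_eq_add, le_div_iff₀ hy0, mul_comm]
        rwa [vk_jw hy] at hu2

end NB5
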