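import Pool.Agent.NB5.VSt
import Pool.Agent.NB5.VK3

/-!
# NB5-VIA: the integral over a box of type A

PLAN. `smaster` with `a y = onSet (‖y‖ ≤ r0) (1/√‖y‖)`, `S y = 1 + C/√‖y‖`, `D y = D1 + D2/√√‖y‖`,
`W y = V`, `β y p = onSet (‖p.1‖ ≤ s1 ∧ ‖p.2‖ ≤ C/√‖y‖) 1`,
`c y p z = onSet (‖z.1‖ ≤ s2 ∧ ‖z.2‖ ≤ V) 1`, `K3 y p = ofReal (C3 V^(d-1) s2^(d-1))` (`k3_ball` with
`c = 0`), `B = C + C²` (`‖y‖ ≤ r0 ≤ C`: `‖y‖ S y = ‖y‖ + C √‖y‖ ≤ C + C √C`).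
`∫ β dp ≤ ω² s1^d (C/√‖y‖)^d` (`lintegral_prod_le` or `volume` of a product of balls;
`Measure.addHaar_closedBall`). For `‖y‖ ≤ r0 ≤ C`: `S y ≤ 2C/√‖y‖` (`1 ≤ C/√‖y‖` as `√‖y‖ ≤ √C ≤ C`),
so the outer integrand is
`≤ C'' s1^d V^d s2^(d-1) (D1 + D2 ‖y‖^(-1/4)) ‖y‖^(-1/2 - (d-2)/2 - d/2)`, exponents `-(d - 1/2)`
and `-(d - 1/4)`: `rad'`.
-/

open MeasureTheory Set Filter Topology Metric
open scoped NNReal ENNReal RealInnerProductSpace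

namespace NB5

open HDN

variable {d : ℕ} {m : Fin 5 → ℝ} {A : Fin 4 → Fin 5 → ℝ} {μ : Fin 4 → ℝ}

private theorem via_ne (p : Prop) (f : ℝ) : onSet p f ≠ ⊤ := by
  unfold onSet
  split_ifs
  · exact ENNReal.ofReal_ne_top
  · exact ENNReal.zero_ne_top

private theorem via_true {p : Prop} (h : p) (f : ℝ) : onSet p f = ENNReal.ofReal f := by
  unfold onSet
  rw [if_pos h]

private theorem via_false {p : Prop} (h : ¬ p) (f : ℝ) : onSet p f = 0 := by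
  unfold onSet
  rw [if_neg h]

/-- volume of a product of two balls -/
private theorem via_prod {C0 : ℝ}
    (h0 : ∀ r : ℝ, 0 ≤ r → ∫⁻ y : Sp d, onSet (‖y‖ ≤ r) (‖y‖ ^ (-(0 : ℝ))) ≤
      ENNReal.ofReal (C0 * r ^ ((d : ℝ) - 0))) (hC0 : 0 < C0) {s t : ℝ} (hs : 0 ≤ s) (ht : 0 ≤ t) :
    ∫⁻ p : Sp d × Sp d, onSet (‖p.1‖ ≤ s ∧ ‖p.2‖ ≤ t) 1 ≤
      ENNReal.ofReal (C0 ^ 2 * s ^ d * t ^ d) := by
  have h1 : ∀ r : ℝ, 0 ≤ r → ∫⁻ y : Sp d, onSet (‖y‖ ≤ r) 1 ≤ ENNReal.ofReal (C0 * r ^ d) := by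
    intro r hr
    have h := h0 r hr
    simp only [neg_zero, Real.rpow_zero, sub_zero, Real.rpow_natCast] at h
    exact h
  calc ∫⁻ p : Sp d × Sp d, onSet (‖p.1‖ ≤ s ∧ ‖p.2‖ ≤ t) 1
      ≤ ∫⁻ x : Sp d, ∫⁻ y : Sp d, onSet (‖x‖ ≤ s ∧ ‖y‖ ≤ t) 1 := lintegral_prod_le _
    _ ≤ ∫⁻ x : Sp d, onSet (‖x‖ ≤ s) 1 * ENNReal.ofReal (C0 * t ^ d) := by
        apply lintegral_mono
        intro x
        show ∫⁻ y : Sp d, onSet (‖x‖ ≤ s ∧ ‖y‖ ≤ t) 1 ≤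
          onSet (‖x‖ ≤ s) 1 * ENNReal.ofReal (C0 * t ^ d)
        by_cases hx : ‖x‖ ≤ s
        · rw [via_true hx, ENNReal.ofReal_one, one_mul]
          refine le_trans (le_of_eq ?_) (h1 t ht)
          apply lintegral_congr
          intro y
          by_cases hy : ‖y‖ ≤ t
          · rw [via_true hy, via_true ⟨hx, hy⟩]
          · rw [via_false hy, via_false fun h => hy h.2]
        · rw [via_false hx, zero_mul]
          have h2 : ∀ y : Sp d, onSet (‖x‖ ≤ s ∧ ‖y‖ ≤ t) 1 = 0 := fun y => via_false (fun h => hx h.1) _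
          simp only [h2, lintegral_zero]
          exact le_refl _
    _ = (∫⁻ x : Sp d, onSet (‖x‖ ≤ s) 1) * ENNReal.ofReal (C0 * t ^ d) :=
        lintegral_mul_const' _ _ ENNReal.ofReal_ne_top
    _ ≤ ENNReal.ofReal (C0 * s ^ d) * ENNReal.ofReal (C0 * t ^ d) :=
        mul_le_mul_left (h1 s hs) _
    _ = ENNReal.ofReal (C0 ^ 2 * s ^ d * t ^ d) := by
        rw [← ENNReal.ofReal_mul (by positivity)]
        congr 1
        ring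

private theorem via_pow1 (d : ℕ) (hd : 3 ≤ d) {t : ℝ} (ht : 0 < t) :
    t ^ (-((d : ℝ) - 1 / 2)) = (1 / √t) ^ (2 * d - 1) := by
  have h1 : 1 / √t = t ^ (-(1 / 2 : ℝ)) := by
    rw [Real.rpow_neg ht.le, ← Real.sqrt_eq_rpow, one_div]
  rw [h1, ← Real.rpow_natCast, ← Real.rpow_mul ht.le]
  congr 1
  rw [Nat.cast_sub (by omega)]
  push_cast
  ring

private theorem via_pow2 (d : ℕ) (hd : 3 ≤ d) {t : ℝ} (ht : 0 < t) :
    t ^ (-((d : ℝ) - 1 / 4)) = (1 / √t) ^ (2 * d - 1) * (1 / √√t) := by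
  have h1 : 1 / √√t = t ^ (-(1 / 4 : ℝ)) := by
    rw [Real.sqrt_eq_rpow, Real.sqrt_eq_rpow, ← Real.rpow_mul ht.le, one_div, ← Real.rpow_neg ht.le]
    norm_num
  rw [← via_pow1 d hd ht, h1, ← Real.rpow_add ht]
  congr 1
  ring

private theorem via_real {C C0 C3 s1 s2 V D1 D2 t : ℝ} (hd : 3 ≤ d) (hC : 1 ≤ C) (hC0 : 0 < C0)
    (hC3 : 0 < C3) (hs1 : 0 ≤ s1) (hs2 : 0 ≤ s2) (hV : 0 ≤ V) (hD1 : 0 ≤ D1) (hD2 : 0 ≤ D2)
    (ht : 0 < t) (htC : t ≤ C) :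
    1 / √t * ((1 + C / √t) ^ (d - 2) * (D1 + D2 / √√t) * V) *
      (C0 ^ 2 * s1 ^ d * (C / √t) ^ d * (C3 * V ^ (d - 1) * s2 ^ (d - 1))) ≤
    ((2 * C) ^ (d - 2) * C ^ d * C0 ^ 2 * C3 * (s1 ^ d * V ^ d * s2 ^ (d - 1))) * D1 *
        t ^ (-((d : ℝ) - 1 / 2)) +
      ((2 * C) ^ (d - 2) * C ^ d * C0 ^ 2 * C3 * (s1 ^ d * V ^ d * s2 ^ (d - 1))) * D2 *
        t ^ (-((d : ℝ) - 1 / 4)) := by
  have hsq : 0 < √t := Real.sqrt_pos.2 ht
  have hC0' : 0 < C := by linarith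
  have h1 : √t ≤ C := by
    rw [Real.sqrt_le_left hC0'.le]
    nlinarith
  have h2 : 1 + C / √t ≤ 2 * C * (1 / √t) := by
    have : 1 ≤ C / √t := by rwa [one_le_div hsq]
    have e : 2 * C * (1 / √t) = C / √t + C / √t := by ring
    rw [e]
    linarith
  have h3 : (1 + C / √t) ^ (d - 2) ≤ (2 * C) ^ (d - 2) * (1 / √t) ^ (d - 2) := by
    rw [← mul_pow]
    exact pow_le_pow_left₀ (by positivity) h2 _
  have hw : D2 / √√t = D2 * (1 / √√t) := by ring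
  have hu : (C / √t) ^ d = C ^ d * (1 / √t) ^ d := by rw [← mul_pow]; congr 1; ring
  rw [via_pow1 d hd ht, via_pow2 d hd ht, hw, hu]
  set u := 1 / √t with hudef
  set w := 1 / √√t with hwdef
  have hu0 : 0 < u := by positivity
  have hw0 : 0 ≤ w := by positivity
  have e1 : u ^ (2 * d - 1) = u * u ^ (d - 2) * u ^ d := by
    rw [← pow_succ', ← pow_add]
    congr 1
    omega
  have e2 : V ^ d = V * V ^ (d - 1) := by
    rw [← pow_succ']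
    congr 1
    omega
  calc u * ((1 + C / √t) ^ (d - 2) * (D1 + D2 * w) * V) *
        (C0 ^ 2 * s1 ^ d * (C ^ d * u ^ d) * (C3 * V ^ (d - 1) * s2 ^ (d - 1)))
      ≤ u * (((2 * C) ^ (d - 2) * u ^ (d - 2)) * (D1 + D2 * w) * V) *
        (C0 ^ 2 * s1 ^ d * (C ^ d * u ^ d) * (C3 * V ^ (d - 1) * s2 ^ (d - 1))) := by
        gcongr
    _ = _ := by
        rw [e1, e2]
        ring

theorem boxA (hd : 3 ≤ d) (hj : Jac m A μ) {R C : ℝ} (hR : 0 ≤ R) (hC : 1 ≤ C) :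
    ∃ C' : ℝ, 0 < C' ∧ ∀ r0 s1 s2 V D1 D2 : ℝ, 0 ≤ r0 → r0 ≤ C → 0 ≤ s1 → 0 ≤ s2 → 0 ≤ V →
    0 ≤ D1 → 0 ≤ D2 →
    ∫⁻ x : St d in Inv m R, gA A C r0 s1 s2 V D1 D2 x ≤
      ENNReal.ofReal (C' * (√r0 * D1 + √√r0 * D2) * s1 ^ d * V ^ d * s2 ^ (d - 1)) := by
  have hC0' : 0 < C := by linarith
  have hd3 : (3 : ℝ) ≤ d := by exact_mod_cast hd
  obtain ⟨Cs, hCs, hs⟩ := smaster (d := d) hd hj hR (B := C + C ^ 2) (by positivity)
  obtain ⟨C3, hC3, h3⟩ := k3_ball (d := d) hd (hj.pos 2)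
  obtain ⟨C0, hC0, h0⟩ := rad' d 0 le_rfl (by linarith)
  obtain ⟨C1, hC1, hr1⟩ := rad' d ((d : ℝ) - 1 / 2) (by linarith) (by linarith)
  obtain ⟨C2, hC2, hr2⟩ := rad' d ((d : ℝ) - 1 / 4) (by linarith) (by linarith)
  have hκ0 : 0 < (2 * C) ^ (d - 2) * C ^ d * C0 ^ 2 * C3 := by positivity
  refine ⟨Cs * ((2 * C) ^ (d - 2) * C ^ d * C0 ^ 2 * C3) * (C1 + C2), by positivity, ?_⟩
  intro r0 s1 s2 V D1 D2 hr0 hr0C hs1 hs2 hV hD1 hD2
  have hSnn : ∀ y : Sp d, 0 ≤ C / √‖y‖ := fun y => by positivity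
  have key := hs (gA A C r0 s1 s2 V D1 D2) (fun y => onSet (‖y‖ ≤ r0) (1 / √‖y‖))
    (fun y => 1 + C / √‖y‖) (fun y => D1 + D2 / √√‖y‖) (fun _ => V)
    (fun y p => onSet (‖p.1‖ ≤ s1 ∧ ‖p.2‖ ≤ C / √‖y‖) 1)
    (fun _ _ z => onSet (‖z.1‖ ≤ s2 ∧ ‖z.2‖ ≤ V) 1)
    (fun _ _ => ENNReal.ofReal (C3 * V ^ (d - 1) * s2 ^ (d - 1)))
    (fun y => via_ne _ _) (fun y p => via_ne _ _) (fun y p z => via_ne _ _)
    (fun y => by
      have := hSnn y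
      show (1 : ℝ) ≤ 1 + C / √‖y‖
      linarith)
    (fun y => by
      show (0 : ℝ) ≤ D1 + D2 / √√‖y‖
      positivity)
    (fun _ => hV)
    (by
      intro y hy
      have hy1 : ‖y‖ ≤ r0 := by
        by_contra hc
        exact hy (via_false hc _)
      have hy0 := norm_nonneg y
      show ‖y‖ * (1 + C / √‖y‖) ≤ C + C ^ 2
      have e1 : ‖y‖ * (1 + C / √‖y‖) = ‖y‖ + C * √‖y‖ := by
        rcases hy0.eq_or_lt with h | h
        · rw [← h]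
          simp
        · have h4 : 0 < √‖y‖ := Real.sqrt_pos.2 h
          have h5 : √‖y‖ * √‖y‖ = ‖y‖ := Real.mul_self_sqrt hy0
          have h6 : ‖y‖ * (C / √‖y‖) = C * √‖y‖ := by
            rw [mul_div_assoc', div_eq_iff h4.ne', mul_assoc, h5]
            ring
          rw [mul_add, mul_one, h6]
      have e2 : √‖y‖ ≤ C := by
        rw [Real.sqrt_le_left hC0'.le]
        nlinarith
      rw [e1]
      nlinarith)
    (by
      intro y p T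
      have h := h3 T 0 V s2 hV hs2
      simp only [add_zero] at h
      exact h)
    (by
      intro x _
      by_cases hx : BoxA A C r0 s1 s2 V D1 D2 x
      · obtain ⟨g1, g2, g3, g4, g5, g6, g7, g8⟩ := hx
        unfold gA
        rw [via_true ⟨g1, g2, g3, g4, g5, g6, g7, g8⟩]
        show ENNReal.ofReal (1 / √‖Yc A 0 x.1‖) ≤ onSet (‖Yc A 0 x.1‖ ≤ r0) (1 / √‖Yc A 0 x.1‖) *
          (onSet (‖Yc A 1 x.1‖ ≤ s1 ∧ ‖Yc A 1 x.2‖ ≤ C / √‖Yc A 0 x.1‖) 1 *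
            (onSet (‖Yc A 2 x.1‖ ≤ s2 ∧ ‖Yc A 2 x.2‖ ≤ V) 1 *
              onSet (‖Yc A 3 x.1‖ ≤ D1 + D2 / √√‖Yc A 0 x.1‖ ∧ ‖Yc A 3 x.2‖ ≤ V ∧
                ‖Yc A 0 x.2‖ ≤ 1 + C / √‖Yc A 0 x.1‖) 1))
        rw [via_true g1, via_true ⟨g3, g4⟩, via_true ⟨g5, g6⟩,
          via_true ⟨g7, g8, by linarith⟩, ENNReal.ofReal_one, one_mul, one_mul, mul_one]
      · unfold gA
        rw [via_false hx]
        exact bot_le)
  refine key.trans ?_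
  have hne : Nonempty (Fin d) := ⟨⟨0, by omega⟩⟩
  have hnt : Nontrivial (Sp d) := inferInstance
  have hae : ∀ᵐ y : Sp d, y ≠ 0 := compl_mem_ae_iff.2 (measure_singleton (0 : Sp d))
  set κ : ℝ := (2 * C) ^ (d - 2) * C ^ d * C0 ^ 2 * C3 * (s1 ^ d * V ^ d * s2 ^ (d - 1)) with hκ
  have hκnn : 0 ≤ κ := by positivity
  have hpt : ∀ᵐ y : Sp d, onSet (‖y‖ ≤ r0) (1 / √‖y‖) *
      ENNReal.ofReal ((1 + C / √‖y‖) ^ (d - 2) * (D1 + D2 / √√‖y‖) * V) *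
      ∫⁻ p : Sp d × Sp d, onSet (‖p.1‖ ≤ s1 ∧ ‖p.2‖ ≤ C / √‖y‖) 1 *
        ENNReal.ofReal (C3 * V ^ (d - 1) * s2 ^ (d - 1)) ≤
      ENNReal.ofReal (κ * D1) * onSet (‖y‖ ≤ r0) (‖y‖ ^ (-((d : ℝ) - 1 / 2))) +
        ENNReal.ofReal (κ * D2) * onSet (‖y‖ ≤ r0) (‖y‖ ^ (-((d : ℝ) - 1 / 4))) := by
    refine hae.mono fun y hy => ?_
    by_cases hy1 : ‖y‖ ≤ r0
    · have hy0 : 0 < ‖y‖ := norm_pos_iff.2 hy
      rw [via_true hy1, via_true hy1, via_true hy1]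
      rw [lintegral_mul_const' _ _ ENNReal.ofReal_ne_top]
      have hp := via_prod h0 hC0 hs1 (hSnn y)
      refine (mul_le_mul_right (mul_le_mul_left hp _) _).trans ?_
      rw [← ENNReal.ofReal_mul (by positivity), ← ENNReal.ofReal_mul (by positivity),
        ← ENNReal.ofReal_mul (by positivity), ← ENNReal.ofReal_mul (by positivity),
        ← ENNReal.ofReal_mul (by positivity), ← ENNReal.ofReal_add (by positivity) (by positivity)]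
      apply ENNReal.ofReal_le_ofReal
      exact via_real hd hC hC0 hC3 hs1 hs2 hV hD1 hD2 hy0 (hy1.trans hr0C)
    · rw [via_false hy1, via_false hy1, via_false hy1, zero_mul, zero_mul]
      exact bot_le
  have hmeas : Measurable fun y : Sp d => ENNReal.ofReal (κ * D1) *
      onSet (‖y‖ ≤ r0) (‖y‖ ^ (-((d : ℝ) - 1 / 2))) := by
    refine Measurable.const_mul ?_ _
    unfold onSet
    refine Measurable.ite (measurableSet_le measurable_norm measurable_const) ?_ measurable_const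
    exact (measurable_norm.pow_const _).ennreal_ofReal
  have hint : ∫⁻ y : Sp d, onSet (‖y‖ ≤ r0) (1 / √‖y‖) *
      ENNReal.ofReal ((1 + C / √‖y‖) ^ (d - 2) * (D1 + D2 / √√‖y‖) * V) *
      ∫⁻ p : Sp d × Sp d, onSet (‖p.1‖ ≤ s1 ∧ ‖p.2‖ ≤ C / √‖y‖) 1 *
        ENNReal.ofReal (C3 * V ^ (d - 1) * s2 ^ (d - 1)) ≤
      ENNReal.ofReal (κ * (D1 * (C1 * √r0) + D2 * (C2 * √√r0))) := by
    refine (lintegral_mono_ae hpt).trans ?_
    rw [lintegral_add_left hmeas, lintegral_const_mul' _ _ ENNReal.ofReal_ne_top,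
      lintegral_const_mul' _ _ ENNReal.ofReal_ne_top]
    have k1 := hr1 r0 hr0
    have k2 := hr2 r0 hr0
    have f1 : (d : ℝ) - ((d : ℝ) - 1 / 2) = 1 / 2 := by ring
    have f2 : (d : ℝ) - ((d : ℝ) - 1 / 4) = 1 / 2 * (1 / 2) := by ring
    rw [f1, ← Real.sqrt_eq_rpow] at k1
    rw [f2, Real.rpow_mul hr0, ← Real.sqrt_eq_rpow, ← Real.sqrt_eq_rpow] at k2
    refine (add_le_add (mul_le_mul_right k1 _) (mul_le_mul_right k2 _)).trans ?_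
    rw [← ENNReal.ofReal_mul (by positivity), ← ENNReal.ofReal_mul (by positivity),
      ← ENNReal.ofReal_add (by positivity) (by positivity)]
    apply ENNReal.ofReal_le_ofReal
    apply le_of_eq
    ring
  refine (mul_le_mul_right hint _).trans ?_
  rw [← ENNReal.ofReal_mul hCs.le]
  apply ENNReal.ofReal_le_ofReal
  have hfin : D1 * (C1 * √r0) + D2 * (C2 * √√r0) ≤ (C1 + C2) * (√r0 * D1 + √√r0 * D2) := by
    have g1 : 0 ≤ √r0 * D1 := by positivity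
    have g2 : 0 ≤ √√r0 * D2 := by positivity
    nlinarith
  calc Cs * (κ * (D1 * (C1 * √r0) + D2 * (C2 * √√r0)))
      ≤ Cs * (κ * ((C1 + C2) * (√r0 * D1 + √√r0 * D2))) := by gcongr
    _ = _ := by
        rw [hκ]
        ring

end NB5
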