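import Pool.Agent.NB5.VDefs
import Pool.Agent.NB5.MMeas

/-!
# NB5-VMe: measurability of the box functions

PLAN. `onSet p f = if p then ofReal f else 0`: `Measurable.ite` with the measurability of the set
`{x | BoxA ...}` (finite intersections of `measurableSet_le`; `Yc A j x.1` is measurable, in fact
continuous in `x`; `fun_prop`) and of the real function. See `measurable_gp` etc. in `MMeas.lean` for the
same for `gP, gD, gX, gB` (`measurable_jw`, and the measurability of `Wt`).
-/

open MeasureTheory Set Filter Topology Metric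
open scoped NNReal ENNReal RealInnerProductSpace

namespace NB5

open HDN

variable {d : ℕ}

@[fun_prop]
private theorem vme_yc (A : Fin 4 → Fin 5 → ℝ) (j : Fin 4) :
    Measurable (Yc A j : Cf 5 d → Sp d) := by
  unfold Yc
  fun_prop

private theorem vme_and {p q : St d → Prop} (hp : MeasurableSet {x | p x})
    (hq : MeasurableSet {x | q x}) : MeasurableSet {x | p x ∧ q x} := hp.inter hq

private theorem vme_boxX (A : Fin 4 → Fin 5 → ℝ) (C b : ℝ) :
    MeasurableSet {x : St d | BoxX A C b x} := by
  unfold BoxX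
  refine vme_and ?_ (vme_and ?_ (vme_and ?_ (vme_and ?_ (vme_and ?_ (vme_and ?_
    (vme_and ?_ ?_))))))
  all_goals exact measurableSet_le (by fun_prop) (by fun_prop)

private theorem vme_condX (i : Fin 4) (A : Fin 4 → Fin 5 → ℝ) (C β b : ℝ) :
    MeasurableSet {x : St d | CondX i A C β b x} := by
  have hj : Measurable fun x : St d => jw (Yc A 2 x.1) (Yc A 2 x.2 + β • Yc A 1 x.2) :=
    measurable_jw (by fun_prop) (by fun_prop)
  fin_cases i
  · exact measurableSet_le (by fun_prop) (by fun_prop)
  · refine vme_and ?_ ?_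
    all_goals exact measurableSet_le (by fun_prop) (by fun_prop)
  · refine vme_and ?_ ?_
    all_goals exact measurableSet_le (by fun_prop) (by fun_prop)
  · refine vme_and ?_ ?_
    · exact measurableSet_le (by fun_prop) (by fun_prop)
    · exact measurableSet_le hj (by fun_prop)

theorem measurable_gA (A : Fin 4 → Fin 5 → ℝ) (C r0 s1 s2 V D1 D2 : ℝ) :
    Measurable (gA A C r0 s1 s2 V D1 D2 : St d → ℝ≥0∞) := by
  refine measurable_onSet ?_ (by fun_prop)
  unfold BoxA
  refine vme_and ?_ (vme_and ?_ (vme_and ?_ (vme_and ?_ (vme_and ?_ (vme_and ?_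
    (vme_and ?_ ?_))))))
  all_goals exact measurableSet_le (by fun_prop) (by fun_prop)

theorem measurable_gPb (A : Fin 4 → Fin 5 → ℝ) (C b : ℝ) :
    Measurable (gPb A C b : St d → ℝ≥0∞) := by
  refine measurable_onSet ?_ (by fun_prop)
  unfold BoxP
  refine vme_and ?_ (vme_and ?_ (vme_and ?_ (vme_and ?_ (vme_and ?_ (vme_and ?_
    (vme_and ?_ ?_))))))
  all_goals exact measurableSet_le (by fun_prop) (by fun_prop)

theorem measurable_gXb (i : Fin 4) (A : Fin 4 → Fin 5 → ℝ) (C β b : ℝ) :
    Measurable (gXb i A C β b : St d → ℝ≥0∞) := by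
  refine measurable_onSet (vme_and (vme_boxX A C b) (vme_condX i A C β b)) ?_
  have hj : Measurable fun x : St d => Wt b (Yc A 1 x.1) (Yc A 1 x.2) :=
    measurable_wt b (by fun_prop) (by fun_prop)
  fun_prop

end NB5
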