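import Pool.Agent.NB5.VBF

/-!
# NB5-VSum: the sums over the levels

PLAN. `lev k = 2^(k/100)`, `cn n = 2^(n/20)` are geometric sequences: `C/lev k = C (2^(-1/100))^k`, a
summable geometric series (`ENNReal.ofReal_tsum_of_nonneg`, `summable_geometric_of_lt_one`).
`sum_b2`: exchange the sums (`ENNReal.tsum_comm`); for fixed `k` the sum over the `n` with
`1/cn n ^ 20 = 2^(-n) ≤ s := C/lev k ^ 77` of `(2^(-n))^(d-1)` is `≤ 2 s^(d-1)` (geometric series with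
ratio `≤ 1/4` starting at the first such `n`; e.g. `(2^(-n))^(d-1) ≤ s^(d-2) 2^(-n)` and the sum of the
`2^(-n) ≤ s` is `≤ 2 s`). So the term is `≤ C' lev^(-77(d-1) + 23 d + 77) = C' lev^(154 - 54 d) ≤ C'/lev k`
(`d ≥ 3`, `lev k ≥ 1`).
-/

open MeasureTheory Set Filter Topology Metric
open scoped NNReal ENNReal RealInnerProductSpace

namespace NB5

open HDN

deriving instance DecidableEq, Fintype for Tree

private theorem vsum_lev (k : ℕ) : lev k = ((2 : ℝ) ^ ((1 : ℝ) / 100)) ^ k := by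
  rw [lev, ← Real.rpow_natCast, ← Real.rpow_mul (by norm_num)]
  congr 1
  ring

private theorem vsum_cn (k : ℕ) : cn k = ((2 : ℝ) ^ ((1 : ℝ) / 20)) ^ k := by
  rw [cn, ← Real.rpow_natCast, ← Real.rpow_mul (by norm_num)]
  congr 1
  ring

private theorem vsum_geo (C q : ℝ) (hq : 1 < q) : ∑' k : ℕ, ENNReal.ofReal (C / q ^ k) ≠ ⊤ := by
  have h1 : Summable fun k : ℕ => C / q ^ k := by
    have h2 : Summable fun k : ℕ => C * (q⁻¹) ^ k :=
      (summable_geometric_of_lt_one (by positivity) (inv_lt_one_of_one_lt₀ hq)).mul_left C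
    refine h2.congr fun k => ?_
    rw [inv_pow, div_eq_mul_inv]
  exact h1.tsum_ofReal_ne_top

private theorem vsum_q : (1 : ℝ) < (2 : ℝ) ^ ((1 : ℝ) / 100) :=
  Real.one_lt_rpow (by norm_num) (by norm_num)

/-- the sum over the `n` with `ρ_n ≤ s` -/
private theorem vsum_inner (e : ℕ) (he : 1 ≤ e) (C s L : ℝ) (hC : 0 ≤ C) (hs : 0 < s)
    (hL : 0 ≤ L) : ∑' n : ℕ, onSet (1 / cn n ^ 20 ≤ s) (C * (1 / cn n ^ 20) ^ e * L) ≤
      ENNReal.ofReal (2 * (C * s ^ e * L)) := by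
  have hc : ∀ n, 1 / cn n ^ 20 = (1 / 2 : ℝ) ^ n := by
    intro n
    rw [cn_powV, one_div_pow]
  simp only [hc]
  have hex : ∃ n : ℕ, (1 / 2 : ℝ) ^ n ≤ s := by
    obtain ⟨n, hn⟩ := exists_pow_lt_of_lt_one hs (by norm_num : (1 / 2 : ℝ) < 1)
    exact ⟨n, hn.le⟩
  classical
  obtain ⟨n0, hn0, hmin⟩ : ∃ n0 : ℕ, (1 / 2 : ℝ) ^ n0 ≤ s ∧
      ∀ n, (1 / 2 : ℝ) ^ n ≤ s → n0 ≤ n :=
    ⟨Nat.find hex, Nat.find_spec hex, fun n hn => Nat.find_min' hex hn⟩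
  have hinj : Function.Injective (fun j : ℕ => n0 + j) := fun a b h => Nat.add_left_cancel h
  have hsup : Function.support (fun n : ℕ =>
      onSet ((1 / 2 : ℝ) ^ n ≤ s) (C * ((1 / 2 : ℝ) ^ n) ^ e * L)) ⊆
      Set.range (fun j : ℕ => n0 + j) := by
    intro n hn
    have h1 : (1 / 2 : ℝ) ^ n ≤ s := by
      by_contra h2
      apply hn
      show onSet ((1 / 2 : ℝ) ^ n ≤ s) _ = 0
      unfold onSet
      rw [if_neg h2]
    have h3 := hmin n h1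
    exact ⟨n - n0, by show n0 + (n - n0) = n; omega⟩
  rw [← hinj.tsum_eq hsup]
  have h5 : ∀ j : ℕ, onSet ((1 / 2 : ℝ) ^ (n0 + j) ≤ s) (C * ((1 / 2 : ℝ) ^ (n0 + j)) ^ e * L) ≤
      ENNReal.ofReal ((C * s ^ e * L) * (1 / 2 : ℝ) ^ j) := by
    intro j
    have h6 : (1 / 2 : ℝ) ^ (n0 + j) ≤ s * (1 / 2 : ℝ) ^ j := by
      rw [pow_add]
      gcongr
    have h7 : ((1 / 2 : ℝ) ^ (n0 + j)) ^ e ≤ s ^ e * (1 / 2 : ℝ) ^ j := by
      calc ((1 / 2 : ℝ) ^ (n0 + j)) ^ e ≤ (s * (1 / 2 : ℝ) ^ j) ^ e := by gcongr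
        _ = s ^ e * ((1 / 2 : ℝ) ^ j) ^ e := mul_pow _ _ _
        _ ≤ s ^ e * ((1 / 2 : ℝ) ^ j) ^ 1 := by
            apply mul_le_mul_of_nonneg_left _ (by positivity)
            exact pow_le_pow_of_le_one (by positivity) (pow_le_one₀ (by norm_num) (by norm_num)) he
        _ = s ^ e * (1 / 2 : ℝ) ^ j := by rw [pow_one]
    have h8 : C * ((1 / 2 : ℝ) ^ (n0 + j)) ^ e * L ≤ (C * s ^ e * L) * (1 / 2 : ℝ) ^ j := by
      calc C * ((1 / 2 : ℝ) ^ (n0 + j)) ^ e * L ≤ C * (s ^ e * (1 / 2 : ℝ) ^ j) * L := by gcongr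
        _ = _ := by ring
    unfold onSet
    split_ifs
    · exact ENNReal.ofReal_le_ofReal h8
    · exact bot_le
  calc ∑' j : ℕ, onSet ((1 / 2 : ℝ) ^ (n0 + j) ≤ s) (C * ((1 / 2 : ℝ) ^ (n0 + j)) ^ e * L)
      ≤ ∑' j : ℕ, ENNReal.ofReal ((C * s ^ e * L) * (1 / 2 : ℝ) ^ j) := ENNReal.tsum_le_tsum h5
    _ = ENNReal.ofReal (∑' j : ℕ, (C * s ^ e * L) * (1 / 2 : ℝ) ^ j) := by
        rw [ENNReal.ofReal_tsum_of_nonneg (fun j => by positivity)
          (summable_geometric_two.mul_left _)]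
    _ = ENNReal.ofReal (2 * (C * s ^ e * L)) := by
        rw [tsum_mul_left, tsum_geometric_two, mul_comm]

theorem sum_lev (C : ℝ) : ∑' k : ℕ, ENNReal.ofReal (C / lev k) ≠ ⊤ := by
  simp only [vsum_lev]
  exact vsum_geo C _ vsum_q

theorem sum_cn (C : ℝ) : ∑' n : ℕ, ENNReal.ofReal (C / cn n) ≠ ⊤ := by
  simp only [vsum_cn]
  exact vsum_geo C _ (Real.one_lt_rpow (by norm_num) (by norm_num))

theorem sum_b2 {d : ℕ} (hd : 3 ≤ d) (C : ℝ) (hC : 1 ≤ C) :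
    ∑' n : ℕ, ∑' k : ℕ, onSet (1 / cn n ^ 20 ≤ C / lev k ^ 77)
      (C * (1 / cn n ^ 20) ^ (d - 1) * lev k ^ (23 * d + 77)) ≠ ⊤ := by
  rw [ENNReal.tsum_comm]
  have hC0 : 0 ≤ C := by linarith
  have h1 : ∀ k : ℕ, ∑' n : ℕ, onSet (1 / cn n ^ 20 ≤ C / lev k ^ 77)
      (C * (1 / cn n ^ 20) ^ (d - 1) * lev k ^ (23 * d + 77)) ≤
      ENNReal.ofReal ((2 * C ^ d) / lev k) := by
    intro k
    have hl := lev_one k
    have hl0 : 0 < lev k := by linarith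
    refine (vsum_inner (d - 1) (by omega) C (C / lev k ^ 77) (lev k ^ (23 * d + 77)) hC0
      (by positivity) (by positivity)).trans ?_
    apply ENNReal.ofReal_le_ofReal
    have e1 : C ^ d = C * C ^ (d - 1) := by
      rw [← pow_succ']
      congr 1
      omega
    have e2 : lev k ^ (23 * d + 77) * lev k ≤ (lev k ^ 77) ^ (d - 1) := by
      rw [← pow_succ, ← pow_mul]
      exact pow_le_pow_right₀ hl (by omega)
    rw [div_pow, le_div_iff₀ hl0, e1]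
    calc 2 * (C * (C ^ (d - 1) / (lev k ^ 77) ^ (d - 1)) * lev k ^ (23 * d + 77)) * lev k
        = 2 * (C * C ^ (d - 1)) * ((lev k ^ (23 * d + 77) * lev k) / (lev k ^ 77) ^ (d - 1)) := by
          ring
      _ ≤ 2 * (C * C ^ (d - 1)) * 1 := by
          apply mul_le_mul_of_nonneg_left _ (by positivity)
          rw [div_le_one (by positivity)]
          exact e2
      _ = _ := mul_one _
  exact ne_top_of_le_ne_top (sum_lev (2 * C ^ d)) (ENNReal.tsum_le_tsum h1)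

theorem lev_add (j k : ℕ) : lev (j + k) = lev j * lev k := by
  rw [vsum_lev, vsum_lev, vsum_lev, pow_add]

theorem lev_large (K : ℝ) : ∃ k : ℕ, K ≤ lev k := by
  obtain ⟨n, hn⟩ := pow_unbounded_of_one_lt K vsum_q
  exact ⟨n, by rw [vsum_lev]; exact hn.le⟩

end NB5
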