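import Pool.Agent.NB5.VDefs

/-!
# NB5-VYc: explicit Jacobi coordinates of the trees, and simple bounds

PLAN. Explicit forms: `simp [Yc, TA, Fin.sum_univ_five, cm, cm3, smul_add, smul_smul, ...]`, `module`
or `ext; simp; field_simp; ring`. Bounds: a coordinate is a difference of two convex combinations:
`yc_vel`: `Yc (TA t m) j v` is, for `j ≥ 1`, a combination with coefficients of total modulus `≤ 2` of
`cm m 0 1 v, v 2, v 3, v 4` (`(m 0 + m 1) • cm m 0 1 v = m 0 • v 0 + m 1 • v 1`); `yc_vel2`: the same for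
`j ≥ 2` and `cm m 0 1 v, cm m 2 3 v, v 4`. `yc_le` (general): with `A⁺, A⁻` the positive and negative
parts, `∑ A⁺ = ∑ A⁻ =: s ≤ 1`, `s • ∑ A a • q a = ∑_{a, b} A⁺ b A⁻ a • (q b - q a)`.
-/

open MeasureTheory Set Filter Topology Metric
open scoped NNReal ENNReal RealInnerProductSpace

namespace NB5

open HDN

variable {d : ℕ} {m : Fin 5 → ℝ}

private theorem Yc_eq (A : Fin 4 → Fin 5 → ℝ) (j : Fin 4) (q : Cf 5 d) :
    Yc A j q = A j 0 • q 0 + A j 1 • q 1 + A j 2 • q 2 + A j 3 • q 3 + A j 4 • q 4 := by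
  simp only [Yc, Fin.sum_univ_five]

theorem yc0 (t : Tree) (m : Fin 5 → ℝ) (q : Cf 5 d) : Yc (TA t m) 0 q = q 0 - q 1 := by
  cases t <;> rw [Yc_eq] <;> simp [TA, sub_eq_add_neg]

theorem ycC1 (hm : ∀ i, 0 < m i) (q : Cf 5 d) : Yc (TA .C m) 1 q = q 2 - cm m 0 1 q := by
  rw [Yc_eq]
  simp [TA, cm]
  module

theorem ycK1 (hm : ∀ i, 0 < m i) (q : Cf 5 d) : Yc (TA .K m) 1 q = q 2 - cm m 0 1 q := by
  rw [Yc_eq]
  simp [TA, cm]
  module

theorem ycH1 (m : Fin 5 → ℝ) (q : Cf 5 d) : Yc (TA .H m) 1 q = q 2 - q 3 := by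
  rw [Yc_eq]
  simp [TA, sub_eq_add_neg]

theorem ycG1 (m : Fin 5 → ℝ) (q : Cf 5 d) : Yc (TA .G m) 1 q = q 2 - q 3 := by
  rw [Yc_eq]
  simp [TA, sub_eq_add_neg]

theorem ycL1 (m : Fin 5 → ℝ) (q : Cf 5 d) : Yc (TA .L m) 1 q = q 2 - q 3 := by
  rw [Yc_eq]
  simp [TA, sub_eq_add_neg]

theorem ycC2 (hm : ∀ i, 0 < m i) (q : Cf 5 d) : Yc (TA .C m) 2 q = q 3 - cm3 m 0 1 2 q := by
  rw [Yc_eq]
  simp [TA, cm3]
  module

theorem ycK2 (m : Fin 5 → ℝ) (q : Cf 5 d) : Yc (TA .K m) 2 q = q 3 - q 4 := by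
  rw [Yc_eq]
  simp [TA, sub_eq_add_neg]

theorem ycH2 (hm : ∀ i, 0 < m i) (q : Cf 5 d) : Yc (TA .H m) 2 q = cm m 2 3 q - cm m 0 1 q := by
  rw [Yc_eq]
  simp [TA, cm]
  module

theorem ycG2 (hm : ∀ i, 0 < m i) (q : Cf 5 d) : Yc (TA .G m) 2 q = q 4 - cm m 2 3 q := by
  rw [Yc_eq]
  simp [TA, cm]
  module

theorem ycL2 (hm : ∀ i, 0 < m i) (q : Cf 5 d) : Yc (TA .L m) 2 q = q 4 - cm m 0 1 q := by
  rw [Yc_eq]
  simp [TA, cm]
  module

private theorem TA_sum_abs (hm : ∀ i, 0 < m i) (t : Tree) (j : Fin 4) :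
    ∑ a, TA t m j a = 0 ∧ ∑ a, |TA t m j a| ≤ 2 := by
  have m0 := hm 0
  have m1 := hm 1
  have m2 := hm 2
  have m3 := hm 3
  have m4 := hm 4
  have p01 : 0 < m 0 + m 1 := by positivity
  have p23 : 0 < m 2 + m 3 := by positivity
  have p34 : 0 < m 3 + m 4 := by positivity
  have p012 : 0 < m 0 + m 1 + m 2 := by positivity
  have p234 : 0 < m 2 + m 3 + m 4 := by positivity
  have p014 : 0 < m 0 + m 1 + m 4 := by positivity
  have p0123 : 0 < m 0 + m 1 + m 2 + m 3 := by positivity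
  have e01 : m 0 / (m 0 + m 1) + m 1 / (m 0 + m 1) = 1 := by field_simp
  have e23 : m 2 / (m 2 + m 3) + m 3 / (m 2 + m 3) = 1 := by field_simp
  have e34 : m 3 / (m 3 + m 4) + m 4 / (m 3 + m 4) = 1 := by field_simp
  have e012 : m 0 / (m 0 + m 1 + m 2) + m 1 / (m 0 + m 1 + m 2) + m 2 / (m 0 + m 1 + m 2) = 1 := by
    field_simp
  have e234 : m 2 / (m 2 + m 3 + m 4) + m 3 / (m 2 + m 3 + m 4) + m 4 / (m 2 + m 3 + m 4) = 1 := by
    field_simp
  have e014 : m 0 / (m 0 + m 1 + m 4) + m 1 / (m 0 + m 1 + m 4) + m 4 / (m 0 + m 1 + m 4) = 1 := by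
    field_simp
  have e0123 : m 0 / (m 0 + m 1 + m 2 + m 3) + m 1 / (m 0 + m 1 + m 2 + m 3) +
      m 2 / (m 0 + m 1 + m 2 + m 3) + m 3 / (m 0 + m 1 + m 2 + m 3) = 1 := by field_simp
  cases t <;> fin_cases j <;> constructor <;>
    simp [TA, Fin.sum_univ_five, abs_div, abs_of_pos m0, abs_of_pos m1, abs_of_pos m2,
      abs_of_pos m3, abs_of_pos m4, abs_of_pos p01, abs_of_pos p23, abs_of_pos p34,
      abs_of_pos p012, abs_of_pos p234, abs_of_pos p014, abs_of_pos p0123] <;> linarith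

private theorem comb_le (A : Fin 5 → ℝ) (w : Cf 5 d) {V : ℝ} (h1 : ∑ a, |A a| ≤ 2)
    (h : ∀ a, ‖w a‖ ≤ V) : ‖∑ a, A a • w a‖ ≤ 2 * V := by
  have hV : 0 ≤ V := (norm_nonneg _).trans (h 0)
  calc ‖∑ a, A a • w a‖ ≤ ∑ a, ‖A a • w a‖ := norm_sum_le _ _
    _ ≤ ∑ a, |A a| * V := by
        refine Finset.sum_le_sum fun a _ => ?_
        rw [norm_smul, Real.norm_eq_abs]
        exact mul_le_mul_of_nonneg_left (h a) (abs_nonneg _)
    _ = (∑ a, |A a|) * V := by rw [Finset.sum_mul]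
    _ ≤ 2 * V := mul_le_mul_of_nonneg_right h1 hV

/-- coordinates of vector number `j ≥ 1` are bounded by the velocities of `{0,1}, 2, 3, 4` -/
theorem yc_vel (hm : ∀ i, 0 < m i) (t : Tree) (v : Cf 5 d) {V : ℝ} (h0 : ‖cm m 0 1 v‖ ≤ V)
    (h : ∀ j : Fin 5, 2 ≤ j → ‖v j‖ ≤ V) (j : Fin 4) (hj : 1 ≤ j) : ‖Yc (TA t m) j v‖ ≤ 2 * V := by
  have m0 := hm 0
  have m1 := hm 1
  have p01 : m 0 + m 1 ≠ 0 := by positivity
  have hrat : TA t m j 0 * m 1 = TA t m j 1 * m 0 := by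
    cases t <;> fin_cases j <;> simp at hj <;> simp [TA] <;> ring
  have hw : Yc (TA t m) j v = ∑ a, TA t m j a • (![cm m 0 1 v, cm m 0 1 v, v 2, v 3, v 4] : Cf 5 d) a := by
    rw [Yc_eq, Fin.sum_univ_five]
    have h2 : TA t m j 0 • v 0 + TA t m j 1 • v 1 =
        TA t m j 0 • cm m 0 1 v + TA t m j 1 • cm m 0 1 v := by
      have h3 : TA t m j 0 = (TA t m j 0 + TA t m j 1) * ((m 0 + m 1)⁻¹ * m 0) := by
        field_simp
        linear_combination hrat
      have h4 : TA t m j 1 = (TA t m j 0 + TA t m j 1) * ((m 0 + m 1)⁻¹ * m 1) := by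
        field_simp
        linear_combination (-1 : ℝ) * hrat
      rw [← add_smul, cm, smul_smul, smul_add, smul_smul, smul_smul, mul_assoc, mul_assoc, ← h3, ← h4]
    simp only [Matrix.cons_val]
    rw [h2]
  rw [hw]
  refine comb_le _ _ (TA_sum_abs hm t j).2 ?_
  intro a
  fin_cases a
  · exact h0
  · exact h0
  · exact h 2 le_rfl
  · exact h 3 (by decide)
  · exact h 4 (by decide)

theorem yc_vel2 (hm : ∀ i, 0 < m i) (t : Tree) (ht : t = .H ∨ t = .G ∨ t = .L) (v : Cf 5 d) {V : ℝ}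
    (h0 : ‖cm m 0 1 v‖ ≤ V) (h1 : ‖cm m 2 3 v‖ ≤ V) (h4 : ‖v 4‖ ≤ V) (j : Fin 4) (hj : 2 ≤ j) :
    ‖Yc (TA t m) j v‖ ≤ 2 * V := by
  have m0 := hm 0
  have m1 := hm 1
  have m2 := hm 2
  have m3 := hm 3
  have p01 : m 0 + m 1 ≠ 0 := by positivity
  have p23 : m 2 + m 3 ≠ 0 := by positivity
  have hrat : TA t m j 0 * m 1 = TA t m j 1 * m 0 := by
    rcases ht with rfl | rfl | rfl <;> fin_cases j <;> simp at hj <;> simp [TA] <;> ring
  have hrat' : TA t m j 2 * m 3 = TA t m j 3 * m 2 := by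
    rcases ht with rfl | rfl | rfl <;> fin_cases j <;> simp at hj <;> simp [TA] <;> ring
  have hw : Yc (TA t m) j v =
      ∑ a, TA t m j a • (![cm m 0 1 v, cm m 0 1 v, cm m 2 3 v, cm m 2 3 v, v 4] : Cf 5 d) a := by
    rw [Yc_eq, Fin.sum_univ_five]
    have h2 : TA t m j 0 • v 0 + TA t m j 1 • v 1 =
        TA t m j 0 • cm m 0 1 v + TA t m j 1 • cm m 0 1 v := by
      have h3 : TA t m j 0 = (TA t m j 0 + TA t m j 1) * ((m 0 + m 1)⁻¹ * m 0) := by
        field_simp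
        linear_combination hrat
      have h4 : TA t m j 1 = (TA t m j 0 + TA t m j 1) * ((m 0 + m 1)⁻¹ * m 1) := by
        field_simp
        linear_combination (-1 : ℝ) * hrat
      rw [← add_smul, cm, smul_smul, smul_add, smul_smul, smul_smul, mul_assoc, mul_assoc, ← h3, ← h4]
    have h2' : TA t m j 2 • v 2 + TA t m j 3 • v 3 =
        TA t m j 2 • cm m 2 3 v + TA t m j 3 • cm m 2 3 v := by
      have h3 : TA t m j 2 = (TA t m j 2 + TA t m j 3) * ((m 2 + m 3)⁻¹ * m 2) := by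
        field_simp
        linear_combination hrat'
      have h4 : TA t m j 3 = (TA t m j 2 + TA t m j 3) * ((m 2 + m 3)⁻¹ * m 3) := by
        field_simp
        linear_combination (-1 : ℝ) * hrat'
      rw [← add_smul, cm, smul_smul, smul_add, smul_smul, smul_smul, mul_assoc, mul_assoc, ← h3, ← h4]
    simp only [Matrix.cons_val]
    calc TA t m j 0 • v 0 + TA t m j 1 • v 1 + TA t m j 2 • v 2 + TA t m j 3 • v 3 + TA t m j 4 • v 4
        = (TA t m j 0 • v 0 + TA t m j 1 • v 1) + (TA t m j 2 • v 2 + TA t m j 3 • v 3) +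
          TA t m j 4 • v 4 := by abel
      _ = _ := by rw [h2, h2']; abel
  rw [hw]
  refine comb_le _ _ (TA_sum_abs hm t j).2 ?_
  intro a
  fin_cases a
  · exact h0
  · exact h0
  · exact h1
  · exact h1
  · exact h4

theorem yc_vel3 (hm : ∀ i, 0 < m i) (t : Tree) (ht : t = .C ∨ t = .K) (v : Cf 5 d) {V : ℝ}
    (h0 : ‖cm3 m 0 1 2 v‖ ≤ V) (h3 : ‖v 3‖ ≤ V) (h4 : ‖v 4‖ ≤ V) (j : Fin 4) (hj : 2 ≤ j) :
    ‖Yc (TA t m) j v‖ ≤ 2 * V := by
  have m0 := hm 0
  have m1 := hm 1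
  have m2 := hm 2
  have p012 : m 0 + m 1 + m 2 ≠ 0 := by positivity
  have hrat : ∃ κ : ℝ, TA t m j 0 = κ * m 0 ∧ TA t m j 1 = κ * m 1 ∧ TA t m j 2 = κ * m 2 := by
    rcases ht with rfl | rfl <;> fin_cases j
    · simp at hj
    · simp at hj
    · refine ⟨-(m 0 + m 1 + m 2)⁻¹, ?_, ?_, ?_⟩ <;> simp [TA] <;> ring
    · refine ⟨-(m 0 + m 1 + m 2 + m 3)⁻¹, ?_, ?_, ?_⟩ <;> simp [TA] <;> ring
    · simp at hj
    · simp at hj
    · refine ⟨0, ?_, ?_, ?_⟩ <;> simp [TA]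
    · refine ⟨-(m 0 + m 1 + m 2)⁻¹, ?_, ?_, ?_⟩ <;> simp [TA] <;> ring
  obtain ⟨κ, k0, k1, k2⟩ := hrat
  have hw : Yc (TA t m) j v =
      ∑ a, TA t m j a • (![cm3 m 0 1 2 v, cm3 m 0 1 2 v, cm3 m 0 1 2 v, v 3, v 4] : Cf 5 d) a := by
    rw [Yc_eq, Fin.sum_univ_five]
    have h2 : TA t m j 0 • v 0 + TA t m j 1 • v 1 + TA t m j 2 • v 2 =
        TA t m j 0 • cm3 m 0 1 2 v + TA t m j 1 • cm3 m 0 1 2 v + TA t m j 2 • cm3 m 0 1 2 v := by
      rw [← add_smul, ← add_smul, k0, k1, k2, cm3, smul_smul]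
      have h5 : (κ * m 0 + κ * m 1 + κ * m 2) * (m 0 + m 1 + m 2)⁻¹ = κ := by
        field_simp
      rw [h5]
      module
    simp only [Matrix.cons_val]
    rw [h2]
  rw [hw]
  refine comb_le _ _ (TA_sum_abs hm t j).2 ?_
  intro a
  fin_cases a
  · exact h0
  · exact h0
  · exact h0
  · exact h3
  · exact h4

/-- a difference of two convex combinations -/
theorem yc_le (A : Fin 5 → ℝ) (q : Cf 5 d) {s : ℝ} (hs : 0 ≤ s) (hz : ∑ a, A a = 0)
    (h1 : ∑ a, |A a| ≤ 2) (h : ∀ a b, A a < 0 → 0 < A b → ‖q a - q b‖ ≤ s) :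
    ‖∑ a, A a • q a‖ ≤ s := by
  set P : Fin 5 → ℝ := fun a => max (A a) 0 with hP
  set N : Fin 5 → ℝ := fun a => max (-A a) 0 with hN
  have hP0 : ∀ a, 0 ≤ P a := fun a => le_max_right _ _
  have hN0 : ∀ a, 0 ≤ N a := fun a => le_max_right _ _
  have hPN : ∀ a, P a - N a = A a := by
    intro a
    simp only [hP, hN]
    rcases le_total (A a) 0 with h | h
    · rw [max_eq_right h, max_eq_left (by linarith)]; ring
    · rw [max_eq_left h, max_eq_right (by linarith)]; ring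
  have hPN' : ∀ a, P a + N a = |A a| := by
    intro a
    simp only [hP, hN]
    rcases le_total (A a) 0 with h | h
    · rw [max_eq_right h, max_eq_left (by linarith), abs_of_nonpos h]; ring
    · rw [max_eq_left h, max_eq_right (by linarith), abs_of_nonneg h]; ring
  set σ : ℝ := ∑ a, P a with hσ
  have hNσ : ∑ a, N a = σ := by
    have : ∑ a, (P a - N a) = 0 := by simp only [hPN, hz]
    rw [Finset.sum_sub_distrib] at this
    linarith
  have hσ1 : σ ≤ 1 := by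
    have : ∑ a, (P a + N a) ≤ 2 := by simpa only [hPN'] using h1
    rw [Finset.sum_add_distrib] at this
    linarith
  have hσ0 : 0 ≤ σ := Finset.sum_nonneg fun a _ => hP0 a
  have key : σ • ∑ a, A a • q a = ∑ a, ∑ b, (N a * P b) • (q b - q a) := by
    have e1 : ∑ a, ∑ b, (N a * P b) • (q b - q a) = ∑ a, ∑ b, (N a * P b) • q b -
        ∑ a, ∑ b, (N a * P b) • q a := by
      simp only [smul_sub, Finset.sum_sub_distrib]
    have e2 : ∑ a, ∑ b, (N a * P b) • q b = σ • ∑ b, P b • q b := by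
      rw [← hNσ, Finset.sum_smul]
      refine Finset.sum_congr rfl fun a _ => ?_
      rw [Finset.smul_sum]
      refine Finset.sum_congr rfl fun b _ => ?_
      rw [smul_smul]
    have e3 : ∑ a, ∑ b, (N a * P b) • q a = σ • ∑ a, N a • q a := by
      rw [Finset.smul_sum]
      refine Finset.sum_congr rfl fun a _ => ?_
      rw [← Finset.sum_smul, ← Finset.mul_sum, ← hσ, smul_smul, mul_comm]
    rw [e1, e2, e3, ← smul_sub, ← Finset.sum_sub_distrib]
    congr 1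
    refine Finset.sum_congr rfl fun a _ => ?_
    rw [← sub_smul, hPN]
  rcases hσ0.eq_or_lt with h0 | h0
  · have hA : ∀ a, A a = 0 := by
      have hP' : ∀ a, P a = 0 := by
        intro a
        exact (Finset.sum_eq_zero_iff_of_nonneg fun a _ => hP0 a).1 (hσ ▸ h0.symm) a
          (Finset.mem_univ _)
      have hN' : ∀ a, N a = 0 := by
        intro a
        exact (Finset.sum_eq_zero_iff_of_nonneg fun a _ => hN0 a).1 (hNσ.trans h0.symm) a
          (Finset.mem_univ _)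
      intro a
      rw [← hPN, hP', hN', sub_zero]
    simp only [hA, zero_smul, Finset.sum_const_zero, norm_zero]
    exact hs
  · have hb : ‖σ • ∑ a, A a • q a‖ ≤ σ * σ * s := by
      rw [key]
      calc ‖∑ a, ∑ b, (N a * P b) • (q b - q a)‖ ≤ ∑ a, ∑ b, ‖(N a * P b) • (q b - q a)‖ :=
            (norm_sum_le _ _).trans (Finset.sum_le_sum fun a _ => norm_sum_le _ _)
        _ ≤ ∑ a, ∑ b, (N a * P b) * s := by
            refine Finset.sum_le_sum fun a _ => Finset.sum_le_sum fun b _ => ?_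
            rw [norm_smul, Real.norm_of_nonneg (mul_nonneg (hN0 a) (hP0 b))]
            rcases lt_or_ge (A a) 0 with ha | ha
            · rcases lt_or_ge 0 (A b) with hb | hb
              · rw [norm_sub_rev]
                exact mul_le_mul_of_nonneg_left (h a b ha hb) (mul_nonneg (hN0 a) (hP0 b))
              · have : P b = 0 := max_eq_right hb
                rw [this]; simp
            · have : N a = 0 := max_eq_right (by linarith)
              rw [this]; simp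
        _ = σ * σ * s := by
            simp only [← Finset.sum_mul, ← Finset.mul_sum]
            rw [← hσ, hNσ]
    rw [norm_smul, Real.norm_of_nonneg hσ0, mul_assoc] at hb
    have hb' := le_of_mul_le_mul_left hb h0
    calc ‖∑ a, A a • q a‖ ≤ σ * s := hb'
      _ ≤ 1 * s := mul_le_mul_of_nonneg_right hσ1 hs
      _ = s := one_mul s

/-- all coordinates are bounded by the diameter -/
theorem yc_diam (hm : ∀ i, 0 < m i) (t : Tree) (q : Cf 5 d) {s : ℝ} (h : ∀ a b, ‖q a - q b‖ ≤ s)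
    (j : Fin 4) : ‖Yc (TA t m) j q‖ ≤ s :=
  yc_le _ q ((norm_nonneg _).trans (h 0 0)) (TA_sum_abs hm t j).1 (TA_sum_abs hm t j).2
    fun a b _ _ => h a b

/-- positions: tree `C` -/
theorem ycC2_le (hm : ∀ i, 0 < m i) (q : Cf 5 d) {s : ℝ}
    (h : ∀ i : Fin 5, i ≤ 2 → ‖q i - q 3‖ ≤ s) : ‖Yc (TA .C m) 2 q‖ ≤ s := by
  have m0 := hm 0
  have m1 := hm 1
  have m2 := hm 2
  have c0 : 0 < m 0 / (m 0 + m 1 + m 2) := by positivity
  have c1 : 0 < m 1 / (m 0 + m 1 + m 2) := by positivity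
  have c2 : 0 < m 2 / (m 0 + m 1 + m 2) := by positivity
  refine yc_le _ q ((norm_nonneg _).trans (h 0 (by decide))) (TA_sum_abs hm .C 2).1
    (TA_sum_abs hm .C 2).2 fun a b ha hb => ?_
  fin_cases b <;> simp [TA] at hb
  · linarith
  · linarith
  · linarith
  · fin_cases a <;> simp [TA] at ha
    · exact h 0 (by decide)
    · exact h 1 (by decide)
    · exact h 2 (by decide)
    · linarith

theorem ycC1_le (hm : ∀ i, 0 < m i) (q : Cf 5 d) {s : ℝ} (h0 : ‖q 0 - q 2‖ ≤ s)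
    (h1 : ‖q 1 - q 2‖ ≤ s) : ‖Yc (TA .C m) 1 q‖ ≤ s ∧ ‖Yc (TA .K m) 1 q‖ ≤ s := by
  have m0 := hm 0
  have m1 := hm 1
  have c0 : 0 < m 0 / (m 0 + m 1) := by positivity
  have c1 : 0 < m 1 / (m 0 + m 1) := by positivity
  constructor
  · refine yc_le _ q ((norm_nonneg _).trans h0) (TA_sum_abs hm .C 1).1
      (TA_sum_abs hm .C 1).2 fun a b ha hb => ?_
    fin_cases b <;> simp [TA] at hb
    · linarith
    · linarith
    · fin_cases a <;> simp [TA] at ha
      · exact h0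
      · exact h1
      · linarith
  · refine yc_le _ q ((norm_nonneg _).trans h0) (TA_sum_abs hm .K 1).1
      (TA_sum_abs hm .K 1).2 fun a b ha hb => ?_
    fin_cases b <;> simp [TA] at hb
    · linarith
    · linarith
    · fin_cases a <;> simp [TA] at ha
      · exact h0
      · exact h1
      · linarith

theorem ycH2_le (hm : ∀ i, 0 < m i) (q : Cf 5 d) {s : ℝ}
    (h : ∀ i j : Fin 5, i ≤ 1 → j = 2 ∨ j = 3 → ‖q i - q j‖ ≤ s) : ‖Yc (TA .H m) 2 q‖ ≤ s := by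
  have m0 := hm 0
  have m1 := hm 1
  have m2 := hm 2
  have m3 := hm 3
  have c0 : 0 < m 0 / (m 0 + m 1) := by positivity
  have c1 : 0 < m 1 / (m 0 + m 1) := by positivity
  have c2 : 0 < m 2 / (m 2 + m 3) := by positivity
  have c3 : 0 < m 3 / (m 2 + m 3) := by positivity
  refine yc_le _ q ((norm_nonneg _).trans (h 0 2 (by decide) (Or.inl rfl))) (TA_sum_abs hm .H 2).1
    (TA_sum_abs hm .H 2).2 fun a b ha hb => ?_
  fin_cases b <;> simp [TA] at hb
  · linarith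
  · linarith
  · fin_cases a <;> simp [TA] at ha
    · exact h 0 2 (by decide) (Or.inl rfl)
    · exact h 1 2 (by decide) (Or.inl rfl)
    · linarith
    · linarith
  · fin_cases a <;> simp [TA] at ha
    · exact h 0 3 (by decide) (Or.inr rfl)
    · exact h 1 3 (by decide) (Or.inr rfl)
    · linarith
    · linarith

theorem ycG2_le (hm : ∀ i, 0 < m i) (q : Cf 5 d) {s : ℝ} (h2 : ‖q 2 - q 4‖ ≤ s)
    (h3 : ‖q 3 - q 4‖ ≤ s) : ‖Yc (TA .G m) 2 q‖ ≤ s := by
  have m2 := hm 2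
  have m3 := hm 3
  have c2 : 0 < m 2 / (m 2 + m 3) := by positivity
  have c3 : 0 < m 3 / (m 2 + m 3) := by positivity
  refine yc_le _ q ((norm_nonneg _).trans h2) (TA_sum_abs hm .G 2).1
    (TA_sum_abs hm .G 2).2 fun a b ha hb => ?_
  fin_cases b <;> simp [TA] at hb
  · linarith
  · linarith
  · fin_cases a <;> simp [TA] at ha
    · exact h2
    · exact h3
    · linarith

theorem ycL2_le (hm : ∀ i, 0 < m i) (q : Cf 5 d) {s : ℝ} (h0 : ‖q 0 - q 4‖ ≤ s)
    (h1 : ‖q 1 - q 4‖ ≤ s) : ‖Yc (TA .L m) 2 q‖ ≤ s := by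
  have m0 := hm 0
  have m1 := hm 1
  have c0 : 0 < m 0 / (m 0 + m 1) := by positivity
  have c1 : 0 < m 1 / (m 0 + m 1) := by positivity
  refine yc_le _ q ((norm_nonneg _).trans h0) (TA_sum_abs hm .L 2).1
    (TA_sum_abs hm .L 2).2 fun a b ha hb => ?_
  fin_cases b <;> simp [TA] at hb
  · linarith
  · linarith
  · fin_cases a <;> simp [TA] at ha
    · exact h0
    · exact h1
    · linarith

end NB5
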