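import Pool.Agent.NB5.VLnk
import Pool.Agent.NB5.VYc

/-!
# NB5-VGeo: choice of the tree from the two clusters

PLAN. `two_cl` gives `f`. Note `0 ≤ s`. Trees (see `VYc` for the coordinates and `yc*_le`, `yc_diam`):
`geoT`: the set `{i ≥ 2 | f i = false}` has 1, 2 or 3 elements:
* 1 element `c`, `{a, b}` the others: `σ` with `σ 2 = a, σ 3 = b, σ 4 = c`, tree `C` (`ycC1_le`, `ycC2_le`);
* 2 elements `{b, c}`: `σ 2 = a, σ 3 = b, σ 4 = c`, tree `K` (`ycC1_le`, `ycK2`);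
* 3 elements: `σ = 1`, tree `G` (`ycG1`, `ycG2_le`).
`geoP` (`σ 2 = j, σ 3 = k, σ 4 = i` is prescribed): if `f j ≠ f k` all distances are `≤ 9 s` and any tree
will do (`yc_diam`). If `f j = f k = true`: `f i = false`, tree `H` (`ycH2_le`). If `f j = f k = false`:
`f i = false`: tree `G` (`ycG2_le`); `f i = true`: tree `L` (`ycL2_le`).
`geoTT`: if `f 2 = false` all distances are `≤ 9 s`. If `f 2 = true` and both `f 3, f 4` are `false`: tree
`K` (`ycK2`), `σ = 1`. Otherwise one of `3, 4` is in the class of `0` (if it is `4` take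
`σ = Equiv.swap 3 4`): tree `C` (`ycC2_le`).
Permutations with prescribed values: e.g. products of `Equiv.swap`, checked by `decide`, after
`fin_cases` on `i, j, k`.
-/

open MeasureTheory Set Filter Topology Metric
open scoped NNReal ENNReal RealInnerProductSpace

namespace NB5

open HDN

variable {d : ℕ} {m : Fin 5 → ℝ}

private theorem s_nonneg {q : Cf 5 d} {s : ℝ} (h01 : ‖q 0 - q 1‖ ≤ s) : 0 ≤ s :=
  (norm_nonneg _).trans h01

private theorem all9 {q : Cf 5 d} {s : ℝ} (hs : 0 ≤ s) {f : Fin 5 → Bool}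
    (hf : ∀ i j, f i = f j → ‖q i - q j‖ ≤ 4 * s) {x y : Fin 5} (hxy : f x ≠ f y)
    (h : ‖q x - q y‖ ≤ s) (a b : Fin 5) : ‖q a - q b‖ ≤ 9 * s := by
  have key : ∀ a b : Fin 5, f a = f x → f b = f y → ‖q a - q b‖ ≤ 9 * s := by
    intro a b ha hb
    have h1 := hf a x ha
    have h2 := hf b y hb
    rw [norm_sub_rev] at h2
    have e : q a - q b = (q a - q x) + (q x - q y) + (q y - q b) := by abel
    rw [e]
    have h3 := norm_add_le ((q a - q x) + (q x - q y)) (q y - q b)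
    have h4 := norm_add_le (q a - q x) (q x - q y)
    linarith
  by_cases hab : f a = f b
  · have := hf a b hab
    linarith
  · by_cases hax : f a = f x
    · have hb : f b = f y := by
        cases ha : f a <;> cases hb : f b <;> cases hx : f x <;> cases hy : f y <;> simp_all
      exact key a b hax hb
    · have hb : f b = f x := by
        cases ha : f a <;> cases hb : f b <;> cases hx : f x <;> simp_all
      have ha : f a = f y := by
        cases ha : f a <;> cases hb : f b <;> cases hx : f x <;> cases hy : f y <;> simp_all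
      rw [norm_sub_rev]
      exact key b a hb ha

private theorem perm_ex1 : ∀ i j k a b : Fin 5, (2 ≤ i ∧ 2 ≤ j ∧ 2 ≤ k ∧ i ≠ j ∧ i ≠ k ∧ j ≠ k ∧
    (![0, 1, j, k, i] : Fin 5 → Fin 5) a = (![0, 1, j, k, i] : Fin 5 → Fin 5) b) → a = b := by
  decide +kernel

private theorem perm_ex (i j k : Fin 5) (h1 : 2 ≤ i) (h2 : 2 ≤ j) (h3 : 2 ≤ k) (h4 : i ≠ j)
    (h5 : i ≠ k) (h6 : j ≠ k) (a b : Fin 5)
    (h : (![0, 1, j, k, i] : Fin 5 → Fin 5) a = (![0, 1, j, k, i] : Fin 5 → Fin 5) b) : a = b :=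
  perm_ex1 i j k a b ⟨h1, h2, h3, h4, h5, h6, h⟩

private theorem le2_of (i : Fin 5) (hi : i ≤ 2) : i = 0 ∨ i = 1 ∨ i = 2 := by
  revert i; decide

private theorem le1_of (i : Fin 5) (hi : i ≤ 1) : i = 0 ∨ i = 1 := by
  revert i; decide

private theorem geoC (hm : ∀ i, 0 < m i) {q : Cf 5 d} {s : ℝ} {f : Fin 5 → Bool}
    (h0 : f 0 = true) (h1 : f 1 = true) (hf : ∀ i j, f i = f j → ‖q i - q j‖ ≤ 4 * s)
    (σ : Equiv.Perm (Fin 5)) (s0 : σ 0 = 0) (s1 : σ 1 = 1) (h2 : f (σ 2) = true)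
    (h3 : f (σ 3) = true) :
    ‖Yc (TA .C (m ∘ σ)) 1 (q ∘ σ)‖ ≤ 4 * s ∧ ‖Yc (TA .C (m ∘ σ)) 2 (q ∘ σ)‖ ≤ 4 * s := by
  constructor
  · refine (ycC1_le (fun i => hm (σ i)) (q ∘ σ) ?_ ?_).1
    · simp only [Function.comp_apply]
      exact hf _ _ (by rw [s0, h0, h2])
    · simp only [Function.comp_apply]
      exact hf _ _ (by rw [s1, h1, h2])
  · refine ycC2_le (fun i => hm (σ i)) (q ∘ σ) ?_
    intro i hi
    simp only [Function.comp_apply]
    refine hf _ _ ?_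
    rcases le2_of i hi with rfl | rfl | rfl
    · rw [s0, h0, h3]
    · rw [s1, h1, h3]
    · rw [h2, h3]

private theorem geoK (hm : ∀ i, 0 < m i) {q : Cf 5 d} {s : ℝ} {f : Fin 5 → Bool}
    (h0 : f 0 = true) (h1 : f 1 = true) (hf : ∀ i j, f i = f j → ‖q i - q j‖ ≤ 4 * s)
    (σ : Equiv.Perm (Fin 5)) (s0 : σ 0 = 0) (s1 : σ 1 = 1) (h2 : f (σ 2) = true)
    (h3 : f (σ 3) = f (σ 4)) :
    ‖Yc (TA .K (m ∘ σ)) 1 (q ∘ σ)‖ ≤ 4 * s ∧ ‖Yc (TA .K (m ∘ σ)) 2 (q ∘ σ)‖ ≤ 4 * s := by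
  constructor
  · refine (ycC1_le (fun i => hm (σ i)) (q ∘ σ) ?_ ?_).2
    · simp only [Function.comp_apply]
      exact hf _ _ (by rw [s0, h0, h2])
    · simp only [Function.comp_apply]
      exact hf _ _ (by rw [s1, h1, h2])
  · rw [ycK2]
    simp only [Function.comp_apply]
    exact hf _ _ h3

theorem geoT (hm : ∀ i, 0 < m i) {q : Cf 5 d} {s : ℝ} (h : Rg 3 q ≤ s)
    (h01 : ‖q 0 - q 1‖ ≤ s) :
    ∃ (σ : Equiv.Perm (Fin 5)) (t : Tree), σ 0 = 0 ∧ σ 1 = 1 ∧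
      ‖Yc (TA t (m ∘ σ)) 1 (q ∘ σ)‖ ≤ 4 * s ∧ ‖Yc (TA t (m ∘ σ)) 2 (q ∘ σ)‖ ≤ 4 * s := by
  obtain ⟨f, h0, h1, -, hf⟩ := two_cl h h01
  have e1 : ∀ a b : Fin 5, (Equiv.swap a b) a = b := fun a b => Equiv.swap_apply_left a b
  have e2 : ∀ a b : Fin 5, (Equiv.swap a b) b = a := fun a b => Equiv.swap_apply_right a b
  have hC : ∀ σ : Equiv.Perm (Fin 5), σ 0 = 0 → σ 1 = 1 → f (σ 2) = true → f (σ 3) = true →
      ∃ (σ : Equiv.Perm (Fin 5)) (t : Tree), σ 0 = 0 ∧ σ 1 = 1 ∧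
      ‖Yc (TA t (m ∘ σ)) 1 (q ∘ σ)‖ ≤ 4 * s ∧ ‖Yc (TA t (m ∘ σ)) 2 (q ∘ σ)‖ ≤ 4 * s :=
    fun σ s0 s1 h2 h3 => ⟨σ, .C, s0, s1, geoC hm h0 h1 hf σ s0 s1 h2 h3⟩
  have hK : ∀ σ : Equiv.Perm (Fin 5), σ 0 = 0 → σ 1 = 1 → f (σ 2) = true → f (σ 3) = f (σ 4) →
      ∃ (σ : Equiv.Perm (Fin 5)) (t : Tree), σ 0 = 0 ∧ σ 1 = 1 ∧
      ‖Yc (TA t (m ∘ σ)) 1 (q ∘ σ)‖ ≤ 4 * s ∧ ‖Yc (TA t (m ∘ σ)) 2 (q ∘ σ)‖ ≤ 4 * s :=
    fun σ s0 s1 h2 h3 => ⟨σ, .K, s0, s1, geoK hm h0 h1 hf σ s0 s1 h2 h3⟩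
  rcases h2 : f 2 with _ | _
  · rcases h3 : f 3 with _ | _
    · rcases h4 : f 4 with _ | _
      · refine ⟨1, .G, rfl, rfl, ?_, ?_⟩
        · rw [ycG1]
          simp only [Function.comp_apply, Equiv.Perm.coe_one, id_eq]
          exact hf _ _ (by rw [h2, h3])
        · refine ycG2_le (fun i => hm _) _ ?_ ?_
          · simp only [Function.comp_apply, Equiv.Perm.coe_one, id_eq]
            exact hf _ _ (by rw [h2, h4])
          · simp only [Function.comp_apply, Equiv.Perm.coe_one, id_eq]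
            exact hf _ _ (by rw [h3, h4])
      · exact hK (Equiv.swap 2 4) (by decide) (by decide) (by rw [e1, h4])
          (by rw [e2, h2, show (Equiv.swap (2 : Fin 5) 4) 3 = 3 by decide, h3])
    · rcases h4 : f 4 with _ | _
      · exact hK (Equiv.swap 2 3) (by decide) (by decide) (by rw [e1, h3])
          (by rw [e2, h2, show (Equiv.swap (2 : Fin 5) 3) 4 = 4 by decide, h4])
      · exact hC (Equiv.swap 2 4) (by decide) (by decide) (by rw [e1, h4])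
          (by rw [show (Equiv.swap (2 : Fin 5) 4) 3 = 3 by decide, h3])
  · rcases h3 : f 3 with _ | _
    · rcases h4 : f 4 with _ | _
      · exact hK 1 rfl rfl (by simpa using h2) (by simp [h3, h4])
      · exact hC (Equiv.swap 3 4) (by decide) (by decide)
          (by rw [show (Equiv.swap (3 : Fin 5) 4) 2 = 2 by decide, h2]) (by rw [e1, h4])
    · exact hC 1 rfl rfl (by simpa using h2) (by simpa using h3)

theorem geoP (hm : ∀ i, 0 < m i) {q : Cf 5 d} {s : ℝ} (h : Rg 3 q ≤ s)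
    (h01 : ‖q 0 - q 1‖ ≤ s) {i j k : Fin 5} (hi : 2 ≤ i) (hj : 2 ≤ j) (hk : 2 ≤ k) (hij : i ≠ j)
    (hik : i ≠ k) (hjk : j ≠ k) (hs : ‖q j - q k‖ ≤ s) :
    ∃ (σ : Equiv.Perm (Fin 5)) (t : Tree), σ 0 = 0 ∧ σ 1 = 1 ∧ σ 2 = j ∧ σ 3 = k ∧ σ 4 = i ∧
      (t = .H ∨ t = .G ∨ t = .L) ∧ ‖Yc (TA t (m ∘ σ)) 2 (q ∘ σ)‖ ≤ 9 * s := by
  obtain ⟨f, h0, h1, -, hf⟩ := two_cl h h01
  have hs0 := s_nonneg h01
  have hinj : Function.Injective (![0, 1, j, k, i] : Fin 5 → Fin 5) :=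
    fun a b hab => perm_ex i j k hi hj hk hij hik hjk a b hab
  have hbij : Function.Bijective (![0, 1, j, k, i] : Fin 5 → Fin 5) := Finite.injective_iff_bijective.1 hinj
  obtain ⟨σ, hσ⟩ : ∃ σ : Equiv.Perm (Fin 5), ∀ a, σ a = (![0, 1, j, k, i] : Fin 5 → Fin 5) a :=
    ⟨Equiv.ofBijective _ hbij, fun a => rfl⟩
  have s0 : σ 0 = 0 := by rw [hσ]; rfl
  have s1 : σ 1 = 1 := by rw [hσ]; rfl
  have s2 : σ 2 = j := by rw [hσ]; rfl
  have s3 : σ 3 = k := by rw [hσ]; rfl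
  have s4 : σ 4 = i := by rw [hσ]; rfl
  have hf9 : ∀ a b, f a = f b → ‖q a - q b‖ ≤ 9 * s := fun a b hab => by
    have := hf a b hab; linarith
  by_cases hjk' : f j = f k
  · rcases hj' : f j with _ | _
    · have hk' : f k = false := by rw [← hjk', hj']
      rcases hi' : f i with _ | _
      · refine ⟨σ, .G, s0, s1, s2, s3, s4, Or.inr (Or.inl rfl), ?_⟩
        refine ycG2_le (fun i => hm _) _ ?_ ?_
        · simp only [Function.comp_apply, s2, s4]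
          exact hf9 _ _ (by rw [hj', hi'])
        · simp only [Function.comp_apply, s3, s4]
          exact hf9 _ _ (by rw [hk', hi'])
      · refine ⟨σ, .L, s0, s1, s2, s3, s4, Or.inr (Or.inr rfl), ?_⟩
        refine ycL2_le (fun i => hm _) _ ?_ ?_
        · simp only [Function.comp_apply, s0, s4]
          exact hf9 _ _ (by rw [h0, hi'])
        · simp only [Function.comp_apply, s1, s4]
          exact hf9 _ _ (by rw [h1, hi'])
    · have hk' : f k = true := by rw [← hjk', hj']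
      refine ⟨σ, .H, s0, s1, s2, s3, s4, Or.inl rfl, ?_⟩
      refine ycH2_le (fun i => hm _) _ ?_
      intro a b ha hb
      simp only [Function.comp_apply]
      rcases le1_of a ha with rfl | rfl <;> rcases hb with rfl | rfl
      · rw [s0, s2]; exact hf9 _ _ (by rw [h0, hj'])
      · rw [s0, s3]; exact hf9 _ _ (by rw [h0, hk'])
      · rw [s1, s2]; exact hf9 _ _ (by rw [h1, hj'])
      · rw [s1, s3]; exact hf9 _ _ (by rw [h1, hk'])
  · refine ⟨σ, .H, s0, s1, s2, s3, s4, Or.inl rfl, ?_⟩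
    exact yc_diam (fun i => hm _) _ _ (fun a b => all9 hs0 hf hjk' hs _ _) 2

theorem geoTT (hm : ∀ i, 0 < m i) {q : Cf 5 d} {s : ℝ} (h : Rg 3 q ≤ s)
    (h01 : ‖q 0 - q 1‖ ≤ s) (h02 : ‖q 0 - q 2‖ ≤ s) :
    ∃ (σ : Equiv.Perm (Fin 5)) (t : Tree), σ 0 = 0 ∧ σ 1 = 1 ∧ σ 2 = 2 ∧ (t = .C ∨ t = .K) ∧
      ‖Yc (TA t (m ∘ σ)) 2 (q ∘ σ)‖ ≤ 9 * s := by
  obtain ⟨f, h0, h1, -, hf⟩ := two_cl h h01
  have hs0 := s_nonneg h01
  have hw : ∀ {x : ℝ}, x ≤ 4 * s → x ≤ 9 * s := fun {x} hx => by linarith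
  rcases h2 : f 2 with _ | _
  · refine ⟨1, .C, rfl, rfl, rfl, Or.inl rfl, ?_⟩
    exact yc_diam (fun i => hm _) _ _
      (fun a b => all9 hs0 hf (x := 0) (y := 2) (by rw [h0, h2]; decide) h02 _ _) 2
  · rcases h3 : f 3 with _ | _
    · rcases h4 : f 4 with _ | _
      · refine ⟨1, .K, rfl, rfl, rfl, Or.inr rfl, ?_⟩
        exact hw (geoK hm h0 h1 hf 1 rfl rfl (by simpa using h2) (by simp [h3, h4])).2
      · refine ⟨Equiv.swap 3 4, .C, by decide, by decide, by decide, Or.inl rfl, ?_⟩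
        exact hw (geoC hm h0 h1 hf (Equiv.swap 3 4) (by decide) (by decide)
          (by rw [show (Equiv.swap (3 : Fin 5) 4) 2 = 2 by decide, h2])
          (by rw [Equiv.swap_apply_left, h4])).2
    · refine ⟨1, .C, rfl, rfl, rfl, Or.inl rfl, ?_⟩
      exact hw (geoC hm h0 h1 hf 1 rfl rfl (by simpa using h2) (by simpa using h3)).2

end NB5
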