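import Pool.Agent.NB5.VId

/-!
# NB5-VPos: bound for all Jacobi coordinates (positions)

PLAN. `Z = max_j ‖Yc A j x.1‖`. By `jac_iner`, `jac_jner`, Cauchy-Schwarz and the hypothesis:
`l Z² ≤ Iner ≤ R (1 + ∑ μ j (E + V ‖y j‖)) ≤ R (1 + 4 u (E + V Z)) ≤ Γ l (E + V Z)` with
`Γ = R (1 + 4u)/l`. If `Z > 2 Γ V` then `Z² ≤ Γ E + Z²/2`, so `Z ≤ √(2 Γ) √E`. Hence
`Z ≤ 2 Γ V + √(2 Γ) √E`; `C = 1 + 2 Γ + √(2 Γ)`.
-/

open MeasureTheory Set Filter Topology Metric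
open scoped NNReal ENNReal RealInnerProductSpace

namespace NB5

open HDN

private theorem jpos_real {Γ Z E V : ℝ} (hΓ : 0 ≤ Γ) (hE : 1 ≤ E) (hV : 0 ≤ V)
    (h : Z ^ 2 ≤ Γ * (E + V * Z)) : Z ≤ (1 + 2 * Γ + √(2 * Γ)) * (V + √E) := by
  have hs : 0 ≤ √(2 * Γ) := Real.sqrt_nonneg _
  have hsE : 0 ≤ √E := Real.sqrt_nonneg _
  have h1 : Z ≤ 2 * Γ * V + √(2 * Γ) * √E := by
    by_contra hcon
    push Not at hcon
    have h0 : 0 ≤ 2 * Γ * V + √(2 * Γ) * √E := by positivity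
    have hZ : 0 < Z := h0.trans_lt hcon
    have h2 : √(2 * Γ) * √E ≤ Z := by
      have : 0 ≤ 2 * Γ * V := by positivity
      linarith
    have h3 : 2 * Γ * E ≤ √(2 * Γ) * √E * Z := by
      have e : (√(2 * Γ) * √E) * (√(2 * Γ) * √E) = 2 * Γ * E := by
        calc (√(2 * Γ) * √E) * (√(2 * Γ) * √E) = (√(2 * Γ) * √(2 * Γ)) * (√E * √E) := by ring
          _ = 2 * Γ * E := by
            rw [Real.mul_self_sqrt (by positivity), Real.mul_self_sqrt (by linarith)]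
      rw [← e]
      exact mul_le_mul_of_nonneg_left h2 (by positivity)
    have h4 : (2 * Γ * V + √(2 * Γ) * √E) * Z < Z * Z := mul_lt_mul_of_pos_right hcon hZ
    have h5 : 0 ≤ Γ * E := by positivity
    have h6 : 0 ≤ Γ * (V * Z) := by positivity
    nlinarith
  have h7 : 0 ≤ (1 + √(2 * Γ)) * V := by positivity
  have h8 : 0 ≤ (1 + 2 * Γ) * √E := by positivity
  nlinarith

theorem jpos {R l u : ℝ} (hR : 0 ≤ R) (hl : 0 < l) (hu : 0 < u) : ∃ C : ℝ, 1 ≤ C ∧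
    ∀ {d : ℕ} {m : Fin 5 → ℝ} {A : Fin 4 → Fin 5 → ℝ} {μ : Fin 4 → ℝ}, Jac m A μ →
    (∀ j, l ≤ μ j ∧ μ j ≤ u) → ∀ x : St d, Iner m x ≤ R * (1 + |Jner m x|) →
    ∀ E V : ℝ, 1 ≤ E → 0 ≤ V →
    (∀ j, ‖Yc A j x.1‖ * ‖Yc A j x.2‖ ≤ E + V * ‖Yc A j x.1‖) →
    ∀ j, ‖Yc A j x.1‖ ≤ C * (V + √E) := by
  have hΓ : 0 ≤ R * (1 + 4 * u) / l := by positivity
  refine ⟨1 + 2 * (R * (1 + 4 * u) / l) + √(2 * (R * (1 + 4 * u) / l)), ?_, ?_⟩
  · have : 0 ≤ √(2 * (R * (1 + 4 * u) / l)) := Real.sqrt_nonneg _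
    linarith
  intro d m A μ hJ hμ x hx E V hE hV hy
  obtain ⟨i, -, hi⟩ := Finset.exists_max_image (Finset.univ : Finset (Fin 4))
    (fun j => ‖Yc A j x.1‖) ⟨0, Finset.mem_univ _⟩
  have hi' : ∀ j, ‖Yc A j x.1‖ ≤ ‖Yc A i x.1‖ := fun j => hi j (Finset.mem_univ _)
  intro j
  refine (hi' j).trans (jpos_real hΓ hE hV ?_)
  set Z := ‖Yc A i x.1‖ with hZ
  have hZ0 : 0 ≤ Z := norm_nonneg _
  have hVZ : 0 ≤ V * Z := mul_nonneg hV hZ0
  have h1 : l * Z ^ 2 ≤ Iner m x := by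
    rw [jac_iner hJ]
    calc l * Z ^ 2 ≤ μ i * Z ^ 2 := mul_le_mul_of_nonneg_right (hμ i).1 (sq_nonneg _)
      _ ≤ ∑ j, μ j * ‖Yc A j x.1‖ ^ 2 :=
        Finset.single_le_sum (f := fun j => μ j * ‖Yc A j x.1‖ ^ 2)
          (fun j _ => mul_nonneg (hl.le.trans (hμ j).1) (sq_nonneg _)) (Finset.mem_univ i)
  have h2 : |Jner m x| ≤ 4 * u * (E + V * Z) := by
    rw [jac_jner hJ]
    calc |∑ j, μ j * ⟪Yc A j x.1, Yc A j x.2⟫| ≤ ∑ j, |μ j * ⟪Yc A j x.1, Yc A j x.2⟫| :=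
          Finset.abs_sum_le_sum_abs _ _
      _ ≤ ∑ _j : Fin 4, u * (E + V * Z) := by
        refine Finset.sum_le_sum fun j _ => ?_
        have h0 : 0 ≤ μ j := hl.le.trans (hμ j).1
        rw [abs_mul, abs_of_nonneg h0]
        have h3 : |⟪Yc A j x.1, Yc A j x.2⟫| ≤ E + V * Z := by
          refine (abs_real_inner_le_norm _ _).trans ((hy j).trans ?_)
          have := mul_le_mul_of_nonneg_left (hi' j) hV
          linarith
        exact mul_le_mul (hμ j).2 h3 (abs_nonneg _) hu.le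
      _ = 4 * u * (E + V * Z) := by
        rw [Finset.sum_const, Finset.card_univ, Fintype.card_fin, nsmul_eq_mul]
        push_cast
        ring
  have h3 : l * Z ^ 2 ≤ R * (1 + 4 * u) * (E + V * Z) := by
    have h4 : 1 + |Jner m x| ≤ (1 + 4 * u) * (E + V * Z) := by nlinarith
    have h5 := mul_le_mul_of_nonneg_left h4 hR
    calc l * Z ^ 2 ≤ R * (1 + |Jner m x|) := h1.trans hx
      _ ≤ R * ((1 + 4 * u) * (E + V * Z)) := h5
      _ = R * (1 + 4 * u) * (E + V * Z) := by ring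
  rw [div_mul_eq_mul_div, le_div_iff₀ hl, mul_comm]
  exact h3

end NB5
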