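import Pool.Agent.NB5.VDefs
import Pool.Agent.NB5.MMeas

/-!
# NB5-VRel: relabelling the bodies

PLAN. `inv_relV`: all sums `∑ a, f (σ a)` are `∑ a, f a` (`Equiv.sum_comp`; for the double sum in `Pot`,
`Finset.univ.erase`, write `∑ b ∈ univ.erase a, F a b = ∑ b, if b = a then 0 else F a b` or use
`Finset.sum_nbij`); `Free` is invariant. `rel_map`: `rel σ` is a measurable equivalence preserving the
volume (`MeasurableEquiv.piCongrLeft`, `volume_measurePreserving_piCongrLeft`, product: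
`MeasurePreserving.prod`), and `MeasurePreserving.setLIntegral_comp_emb` (no measurability of `f`).
`rel_sum`: `setLIntegral_mono'` (`measurableSet_inv`), `lintegral_finset_sum` (measurable terms, `rel σ`
is measurable), `rel_map`, `Fintype.card (Equiv.Perm (Fin 5)) = 120` (`Fintype.card_perm`, `decide`).
-/

open MeasureTheory Set Filter Topology Metric
open scoped NNReal ENNReal RealInnerProductSpace

namespace NB5

open HDN

variable {d : ℕ}

theorem kin_relV (m : Fin 5 → ℝ) (σ : Equiv.Perm (Fin 5)) (v : Cf 5 d) :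
    Kin (m ∘ σ) (v ∘ σ) = Kin m v := by
  unfold Kin
  congr 1
  exact Equiv.sum_comp σ (fun a => m a * ‖v a‖ ^ 2)

private theorem VRel_pot' (m : Fin 5 → ℝ) (q : Cf 5 d) :
    Pot m q = (1 / 2) * ∑ a, ∑ b, m a * m b / ‖q b - q a‖ := by
  unfold Pot
  congr 1
  refine Finset.sum_congr rfl fun a _ => ?_
  rw [← Finset.add_sum_erase Finset.univ (fun b => m a * m b / ‖q b - q a‖) (Finset.mem_univ a),
    sub_self, norm_zero, div_zero, zero_add]

private theorem VRel_pot (m : Fin 5 → ℝ) (σ : Equiv.Perm (Fin 5)) (q : Cf 5 d) :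
    Pot (m ∘ σ) (q ∘ σ) = Pot m q := by
  rw [VRel_pot', VRel_pot']
  congr 1
  refine Eq.trans ?_ (Equiv.sum_comp σ (fun a => ∑ b, m a * m b / ‖q b - q a‖))
  refine Finset.sum_congr rfl fun a _ => ?_
  exact Equiv.sum_comp σ (fun b => m (σ a) * m b / ‖q b - q (σ a)‖)

private theorem VRel_cmv (m : Fin 5 → ℝ) (σ : Equiv.Perm (Fin 5)) (q : Cf 5 d) :
    cmv (m ∘ σ) (q ∘ σ) = cmv m q := by
  unfold cmv
  have h1 : ∑ a, (m ∘ σ) a = ∑ a, m a := Equiv.sum_comp σ m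
  have h2 : ∑ a, (m ∘ σ) a • (q ∘ σ) a = ∑ a, m a • q a :=
    Equiv.sum_comp σ (fun a => m a • q a)
  rw [h1, h2]

private theorem VRel_lop (m : Fin 5 → ℝ) (σ : Equiv.Perm (Fin 5)) (x : St d) :
    Lop (m ∘ σ) (rel σ x) = Lop m x := by
  unfold Lop
  have h1 : ∑ a, (m ∘ σ) a = ∑ a, m a := Equiv.sum_comp σ m
  have h2 : ∑ a, (m ∘ σ) a • (rel σ x).1 a = ∑ a, m a • x.1 a :=
    Equiv.sum_comp σ (fun a => m a • x.1 a)
  have h3 : ∑ a, (m ∘ σ) a • (rel σ x).2 a = ∑ a, m a • x.2 a :=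
    Equiv.sum_comp σ (fun a => m a • x.2 a)
  have h4 : ∑ a, (m ∘ σ) a • wedge ((rel σ x).1 a) ((rel σ x).2 a) =
      ∑ a, m a • wedge (x.1 a) (x.2 a) :=
    Equiv.sum_comp σ (fun a => m a • wedge (x.1 a) (x.2 a))
  rw [h1, h2, h3, h4]

private theorem VRel_iner (m : Fin 5 → ℝ) (σ : Equiv.Perm (Fin 5)) (x : St d) :
    Iner (m ∘ σ) (rel σ x) = Iner m x := by
  unfold Iner
  have h1 : cmv (m ∘ σ) (rel σ x).1 = cmv m x.1 := VRel_cmv m σ x.1
  rw [h1]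
  exact Equiv.sum_comp σ (fun a => m a * ‖x.1 a - cmv m x.1‖ ^ 2)

private theorem VRel_jner (m : Fin 5 → ℝ) (σ : Equiv.Perm (Fin 5)) (x : St d) :
    Jner (m ∘ σ) (rel σ x) = Jner m x := by
  unfold Jner
  have h1 : cmv (m ∘ σ) (rel σ x).1 = cmv m x.1 := VRel_cmv m σ x.1
  have h2 : cmv (m ∘ σ) (rel σ x).2 = cmv m x.2 := VRel_cmv m σ x.2
  rw [h1, h2]
  exact Equiv.sum_comp σ (fun a => m a * ⟪x.1 a - cmv m x.1, x.2 a - cmv m x.2⟫)

private theorem VRel_ham (m : Fin 5 → ℝ) (σ : Equiv.Perm (Fin 5)) (x : St d) :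
    Ham (m ∘ σ) (rel σ x) = Ham m x := by
  unfold Ham
  have h1 : Kin (m ∘ σ) (rel σ x).2 = Kin m x.2 := kin_relV m σ x.2
  have h2 : Pot (m ∘ σ) (rel σ x).1 = Pot m x.1 := VRel_pot m σ x.1
  rw [h1, h2]

private theorem VRel_free (σ : Equiv.Perm (Fin 5)) (x : St d) :
    Free (rel σ x).1 ↔ Free x.1 := by
  constructor
  · intro h a b hab
    have h1 := h (σ.symm a) (σ.symm b) (fun h2 => hab (σ.symm.injective h2))
    have h2 : (rel σ x).1 (σ.symm a) = x.1 a := congrArg x.1 (σ.apply_symm_apply a)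
    have h3 : (rel σ x).1 (σ.symm b) = x.1 b := congrArg x.1 (σ.apply_symm_apply b)
    rwa [h2, h3] at h1
  · intro h a b hab
    exact h (σ a) (σ b) (fun h2 => hab (σ.injective h2))

theorem inv_relV (m : Fin 5 → ℝ) (R : ℝ) (σ : Equiv.Perm (Fin 5)) (x : St d) :
    rel σ x ∈ Inv (m ∘ σ) R ↔ x ∈ Inv m R := by
  have h1 : cmv (m ∘ σ) (rel σ x).1 = cmv m x.1 := VRel_cmv m σ x.1
  have h2 : cmv (m ∘ σ) (rel σ x).2 = cmv m x.2 := VRel_cmv m σ x.2
  show (Free (rel σ x).1 ∧ |Ham (m ∘ σ) (rel σ x)| ≤ R ∧ ‖Lop (m ∘ σ) (rel σ x)‖ ≤ R ∧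
    ‖cmv (m ∘ σ) (rel σ x).1‖ ≤ R ∧ ‖cmv (m ∘ σ) (rel σ x).2‖ ≤ R ∧
    Iner (m ∘ σ) (rel σ x) ≤ R * (1 + |Jner (m ∘ σ) (rel σ x)|)) ↔
    (Free x.1 ∧ |Ham m x| ≤ R ∧ ‖Lop m x‖ ≤ R ∧ ‖cmv m x.1‖ ≤ R ∧ ‖cmv m x.2‖ ≤ R ∧
    Iner m x ≤ R * (1 + |Jner m x|))
  rw [VRel_free, VRel_ham, VRel_lop, h1, h2, VRel_iner, VRel_jner]

private noncomputable def VRel_e (σ : Equiv.Perm (Fin 5)) : St d ≃ᵐ St d :=
  (MeasurableEquiv.arrowCongr' σ.symm (MeasurableEquiv.refl (Sp d))).prodCongr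
    (MeasurableEquiv.arrowCongr' σ.symm (MeasurableEquiv.refl (Sp d)))

private theorem VRel_e_apply (σ : Equiv.Perm (Fin 5)) : (VRel_e σ : St d → St d) = rel σ := rfl

private theorem VRel_mp (σ : Equiv.Perm (Fin 5)) :
    MeasurePreserving (rel σ : St d → St d) volume volume := by
  have h1 : MeasurePreserving
      (MeasurableEquiv.arrowCongr' σ.symm (MeasurableEquiv.refl (Sp d))) volume volume :=
    volume_preserving_arrowCongr' σ.symm (MeasurableEquiv.refl (Sp d)) (MeasurePreserving.id _)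
  exact h1.prod h1

theorem rel_map (m : Fin 5 → ℝ) (R : ℝ) (σ : Equiv.Perm (Fin 5)) (f : St d → ℝ≥0∞) :
    ∫⁻ x in Inv m R, f (rel σ x) = ∫⁻ x in Inv (m ∘ σ) R, f x := by
  have h1 : (rel σ : St d → St d) ⁻¹' Inv (m ∘ σ) R = Inv m R := by
    ext x
    exact inv_relV m R σ x
  have h2 : MeasurableEmbedding (rel σ : St d → St d) := (VRel_e σ).measurableEmbedding
  have h3 := (VRel_mp (d := d) σ).setLIntegral_comp_preimage_emb h2 f (Inv (m ∘ σ) R)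
  rwa [h1] at h3

theorem rel_sum {ι : Type*} [Fintype ι] (m : Fin 5 → ℝ) (R : ℝ) (g : St d → ℝ≥0∞)
    (f : Equiv.Perm (Fin 5) → ι → St d → ℝ≥0∞) (hf : ∀ σ i, Measurable (f σ i)) (B : ℝ≥0∞)
    (hB : ∀ (σ : Equiv.Perm (Fin 5)) (i : ι), ∫⁻ x in Inv (m ∘ σ) R, f σ i x ≤ B)
    (hg : ∀ x ∈ Inv m R, g x ≤ ∑ σ, ∑ i, f σ i (rel σ x)) :
    ∫⁻ x in Inv m R, g x ≤ (120 * Fintype.card ι : ℕ) * B := by
  have hm : ∀ σ i, Measurable fun x : St d => f σ i (rel σ x) := fun σ i =>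
    (hf σ i).comp (VRel_mp σ).measurable
  calc ∫⁻ x in Inv m R, g x ≤ ∫⁻ x in Inv m R, ∑ σ, ∑ i, f σ i (rel σ x) :=
        setLIntegral_mono' (measurableSet_inv m R) hg
    _ = ∑ σ, ∑ i, ∫⁻ x in Inv m R, f σ i (rel σ x) := by
        rw [lintegral_finsetSum _ fun σ _ => Finset.measurable_fun_sum _ fun i _ => hm σ i]
        refine Finset.sum_congr rfl fun σ _ => ?_
        rw [lintegral_finsetSum _ fun i _ => hm σ i]
    _ ≤ ∑ σ : Equiv.Perm (Fin 5), ∑ i : ι, B := by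
        refine Finset.sum_le_sum fun σ _ => Finset.sum_le_sum fun i _ => ?_
        rw [rel_map]
        exact hB σ i
    _ = (120 * Fintype.card ι : ℕ) * B := by
        rw [Finset.sum_const, Finset.sum_const, Finset.card_univ, Finset.card_univ,
          Fintype.card_perm, Fintype.card_fin, smul_smul, nsmul_eq_mul]
        rfl

end NB5
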