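import Pool.Agent.NB5.VBF
import Pool.Agent.NB5.VGeo
import Pool.Agent.NB5.VPos
import Pool.Agent.NB5.VRel

/-!
# NB5-VTBP: bad crossing states (`BadP`) are in boxes of type A

PLAN. Let `ρ = 1/cn n ^ 20`. `r = ‖q 0 - q 1‖ ≤ ‖q 2 - q 3‖ ≤ 2ρ`: `bad_facts`. `w = v 2 - v 3`.
Trees `H`, `G`, `L` and `σ 0 = 0, σ 1 = 1, σ 2 = 2, σ 3 = 3` (so `σ = 1`): `Yc 1 = q 2 - q 3`
(`ycH1`, `ycG1`, `ycL1`), `Yc 1` of the velocities is `w`; `yc_kin` for `j = 0, 1`; `yc_vel2` and `vel_KP`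
for `j ≥ 2`. (B1) `‖w‖ ≤ cn^22`, `KP ≤ cn^16`: tree `H`. `jpos` with `V = C cn^8`, `E = C cn^2`
(`‖Y0‖‖U0‖ ≤ C √r ≤ C`, `‖Y1‖ ‖w‖ ≤ 2 cn^(-20) cn^22`), `√E ≤ C cn ≤ C cn^8`.
(B2) level `k`, `b = lev k`: `ρ ≤ Rg 4 ≤ Rg 3 < 32/b^77` (`rg34`); `s = 64/b^77`: `geoP` with `j = 2, k = 3`,
`i = 4`. `r ≤ C/b^200` by `bad_facts` as `b^200 ≤ KP ≤ KQ ≤ Kin` resp. `b^200 ≤ KQ ≤ Kin` (`KQ_KP`,
`kin_KQ`); `KP ≤ 4 b^200`, so velocities number `2, 3` are `≤ C b^100`. `jpos` with `V = C b^100`: in the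
slow case `E = C cn^2`, `√E ≤ C cn ≤ C cn^8 ≤ C b^100` since `cn^16 ≤ KP < 4 b^200`; in the fast case
`‖w‖ ≤ C √KQ ≤ C b^100`, `E = C`.
(`tree_jac`, `tmu_bd`, `inv_rel`; the cases of `BadCore` are in the order B1, slow, fast.)
-/

open MeasureTheory Set Filter Topology Metric
open scoped NNReal ENNReal RealInnerProductSpace

namespace NB5

open HDN

private theorem sqrt_le_self' {a : ℝ} (ha : 1 ≤ a) : √a ≤ a := by
  rw [Real.sqrt_le_left (by linarith)]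
  nlinarith

private theorem tbP_core {M R C0 C1 : ℝ} (hM : 1 ≤ M) (hC0 : 1 ≤ C0)
    (H1 : ∀ {d : ℕ} {m : Fin 5 → ℝ} {A : Fin 4 → Fin 5 → ℝ} {μ : Fin 4 → ℝ}, Jac m A μ →
      (∀ j, 1 / (2 * M) ≤ μ j ∧ μ j ≤ 5 * M) → ∀ x : St d,
      Iner m x ≤ max R 0 * (1 + |Jner m x|) → ∀ E V : ℝ, 1 ≤ E → 0 ≤ V →
      (∀ j, ‖Yc A j x.1‖ * ‖Yc A j x.2‖ ≤ E + V * ‖Yc A j x.1‖) →
      ∀ j, ‖Yc A j x.1‖ ≤ C1 * (V + √E))
    {d : ℕ} {m : Fin 5 → ℝ} {x : St d} (hm : Mb M m) (hI : x ∈ Inv m R)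
    (hr0 : 0 < ‖x.1 0 - x.1 1‖) (hr2 : ‖x.1 0 - x.1 1‖ ≤ 2)
    (hK : √(Kin m x.2) ≤ C0 / √‖x.1 0 - x.1 1‖) (t : Tree) (ht : t = .H ∨ t = .G ∨ t = .L)
    {W E : ℝ} (hW : 0 ≤ W) (hE : 8 * M * C0 + 2 ≤ E) (hKP : √(KP m x.2) ≤ W)
    (hw : ‖x.1 2 - x.1 3‖ * ‖x.2 2 - x.2 3‖ ≤ E + 4 * M * W * ‖x.1 2 - x.1 3‖) :
    ‖Yc (TA t m) 0 x.2‖ ≤ 4 * M * C0 / √‖x.1 0 - x.1 1‖ ∧
    ‖Yc (TA t m) 1 x.2‖ ≤ 4 * M * C0 / √‖x.1 0 - x.1 1‖ ∧
    Yc (TA t m) 1 x.1 = x.1 2 - x.1 3 ∧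
    (∀ j : Fin 4, 2 ≤ j → ‖Yc (TA t m) j x.2‖ ≤ 4 * M * W) ∧
    ∀ j, ‖Yc (TA t m) j x.1‖ ≤ C1 * (4 * M * W + √E) := by
  have hmp : ∀ i, 0 < m i := fun i => lt_of_lt_of_le (by positivity) (hm.2 i).1
  have hY1 : ∀ q : Cf 5 d, Yc (TA t m) 1 q = q 2 - q 3 := by
    intro q
    rcases ht with rfl | rfl | rfl
    · exact ycH1 m q
    · exact ycG1 m q
    · exact ycL1 m q
  have hk : ∀ j : Fin 4, ‖Yc (TA t m) j x.2‖ ≤ 4 * M * C0 / √‖x.1 0 - x.1 1‖ := by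
    intro j
    calc ‖Yc (TA t m) j x.2‖ ≤ 4 * M * √(Kin m x.2) := yc_kin hm t j x.2
      _ ≤ 4 * M * (C0 / √‖x.1 0 - x.1 1‖) := by gcongr
      _ = 4 * M * C0 / √‖x.1 0 - x.1 1‖ := by ring
  have hvel := vel_KP hm x.2
  have hb : 2 * M * √(KP m x.2) ≤ 2 * M * W := by gcongr
  have hv2 : ∀ j : Fin 4, 2 ≤ j → ‖Yc (TA t m) j x.2‖ ≤ 4 * M * W := by
    intro j hj
    have := yc_vel2 hmp t ht x.2 (hvel.1.trans hb) (hvel.2.1.trans hb) (hvel.2.2.trans hb) j hj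
    linarith
  have hMW : 0 ≤ 4 * M * W := by positivity
  have hE1 : 1 ≤ E := by
    have : 0 ≤ 8 * M * C0 := by positivity
    linarith
  refine ⟨hk 0, hk 1, hY1 _, hv2, ?_⟩
  refine H1 (tree_jac t hmp) (tmu_bd hm t) x ?_ E (4 * M * W) hE1 hMW ?_
  · refine hI.2.2.2.2.2.trans ?_
    have : 0 ≤ 1 + |Jner m x| := by positivity
    exact mul_le_mul_of_nonneg_right (le_max_left _ _) this
  · intro j
    by_cases hj : 2 ≤ j
    · have h1 := hv2 j hj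
      have h2 : ‖Yc (TA t m) j x.1‖ * ‖Yc (TA t m) j x.2‖ ≤
          ‖Yc (TA t m) j x.1‖ * (4 * M * W) := mul_le_mul_of_nonneg_left h1 (norm_nonneg _)
      linarith
    · have hj' : j = 0 ∨ j = 1 := by
        revert hj; revert j; decide
      rcases hj' with rfl | rfl
      · rw [yc0 t m x.1]
        have h1 := hk 0
        have h2 : ‖x.1 0 - x.1 1‖ * ‖Yc (TA t m) 0 x.2‖ ≤
            ‖x.1 0 - x.1 1‖ * (4 * M * C0 / √‖x.1 0 - x.1 1‖) :=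
          mul_le_mul_of_nonneg_left h1 (norm_nonneg _)
        have h3 : ‖x.1 0 - x.1 1‖ * (4 * M * C0 / √‖x.1 0 - x.1 1‖) =
            4 * M * C0 * √‖x.1 0 - x.1 1‖ := by
          have h4 : ‖x.1 0 - x.1 1‖ / √‖x.1 0 - x.1 1‖ = √‖x.1 0 - x.1 1‖ := Real.div_sqrt
          calc ‖x.1 0 - x.1 1‖ * (4 * M * C0 / √‖x.1 0 - x.1 1‖) =
              4 * M * C0 * (‖x.1 0 - x.1 1‖ / √‖x.1 0 - x.1 1‖) := by ring
            _ = _ := by rw [h4]
        have h5 : √‖x.1 0 - x.1 1‖ ≤ 2 := by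
          rw [Real.sqrt_le_left (by norm_num)]
          linarith
        have h6 : 4 * M * C0 * √‖x.1 0 - x.1 1‖ ≤ 4 * M * C0 * 2 :=
          mul_le_mul_of_nonneg_left h5 (by positivity)
        have h7 : 0 ≤ 4 * M * W * ‖x.1 0 - x.1 1‖ := by positivity
        linarith
      · rw [hY1, hY1]
        exact hw

theorem tbP (M R : ℝ) : ∃ C : ℝ, 1 ≤ C ∧
    ∀ {d : ℕ} (m : Fin 5 → ℝ) (n : ℕ) (x : St d), Mb M m → x ∈ Inv m R → BadP n m x →
    ∃ (σ : Equiv.Perm (Fin 5)) (t : Tree),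
      √(Kin m x.2) ≤ C / √‖Yc (TA t (m ∘ σ)) 0 (rel σ x).1‖ ∧
      (BoxA (TA t (m ∘ σ)) C (C / cn n ^ 20) (C / cn n ^ 20) (C * cn n ^ 8) (C * cn n ^ 8)
        (C * cn n ^ 8) 0 (rel σ x) ∨
      ∃ k : ℕ, 1 / cn n ^ 20 ≤ C / lev k ^ 77 ∧
        BoxA (TA t (m ∘ σ)) C (C / lev k ^ 200) (C / cn n ^ 20) (C / lev k ^ 77)
          (C * lev k ^ 100) (C * lev k ^ 100) 0 (rel σ x)) := by
  by_cases hM : 1 ≤ M
  swap
  · exact ⟨1, le_refl _, fun m n x hm => absurd hm.1 hM⟩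
  have hM0 : 0 < M := by linarith
  obtain ⟨C0, hC0, H0⟩ := bad_facts M R
  obtain ⟨C1, hC1, H1⟩ := jpos (R := max R 0) (l := 1 / (2 * M)) (u := 5 * M) (le_max_right _ _)
    (by positivity) (by positivity)
  have hQ0 : 0 ≤ 8 * M * C0 := by positivity
  refine ⟨600 + 8 * M * C0 + 8 * M + C1 * (16 * M + 2 * (8 * M * C0 + 2)), ?_, ?_⟩
  · have : 0 ≤ C1 * (16 * M + 2 * (8 * M * C0 + 2)) := by positivity
    linarith
  intro d m n x hm hI hB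
  set C := 600 + 8 * M * C0 + 8 * M + C1 * (16 * M + 2 * (8 * M * C0 + 2)) with hCdef
  have hC2 : 0 ≤ C1 * (16 * M + 2 * (8 * M * C0 + 2)) := by positivity
  have hCa : 576 ≤ C := by linarith
  have hCb : 4 * M * C0 ≤ C := by
    have : 0 ≤ 4 * M * C0 := by positivity
    linarith
  have hCb' : C0 ≤ C := by
    have : C0 ≤ 4 * M * C0 := by nlinarith
    linarith
  have hCc : 8 * M ≤ C := by linarith
  have hCd : C1 * (16 * M + 2 * (8 * M * C0 + 2)) ≤ C := by linarith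
  have hCpos : 0 < C := by linarith
  obtain ⟨hcl, hR4, h23, hcore⟩ := hB
  have hmp : ∀ i, 0 < m i := fun i => lt_of_lt_of_le (by positivity) (hm.2 i).1
  have hcn := cn_one n
  have hcn0 : 0 < cn n := by linarith
  set ρ : ℝ := 1 / cn n ^ 20 with hρ
  have hρ0 : 0 < ρ := by positivity
  have hρ1 : ρ ≤ 1 := by
    rw [hρ, div_le_one (by positivity)]
    exact one_le_pow₀ hcn
  have h23' : ‖x.1 2 - x.1 3‖ ≤ 2 * ρ := by
    rw [hρ]; refine h23.trans (le_of_eq (by ring))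
  have hr : ‖x.1 0 - x.1 1‖ ≤ ‖x.1 2 - x.1 3‖ := hcl 2 3 (by decide)
  have hr' : ‖x.1 0 - x.1 1‖ ≤ 2 * ρ := hr.trans h23'
  have hr0 : 0 < ‖x.1 0 - x.1 1‖ := norm_pos_iff.2 (sub_ne_zero.2 (hI.1 0 1 (by decide)))
  have hr2 : ‖x.1 0 - x.1 1‖ ≤ 2 := by linarith
  obtain ⟨hK, hlev⟩ := H0 m x ρ hm hρ0 hρ1 hI hcl hR4 hr'
  have hsr : 0 < √‖x.1 0 - x.1 1‖ := Real.sqrt_pos.2 hr0
  have hKC : √(Kin m x.2) ≤ C / √‖x.1 0 - x.1 1‖ := hK.trans (by gcongr)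
  have hVC : 4 * M * C0 / √‖x.1 0 - x.1 1‖ ≤ C / √‖x.1 0 - x.1 1‖ := by gcongr
  have h23C : ‖x.1 2 - x.1 3‖ ≤ C / cn n ^ 20 := by
    refine h23.trans ?_
    gcongr
    linarith
  -- kinetic energies
  have hKPnn : 0 ≤ KP m x.2 := by
    have h0 := hmp 0; have h1 := hmp 1; have h2 := hmp 2; have h3 := hmp 3; have h4 := hmp 4
    unfold KP
    positivity
  have hKPKQ : KP m x.2 ≤ KQ m x.2 := by
    have h2 := hmp 2; have h3 := hmp 3
    rw [KQ_KP hmp]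
    have : 0 ≤ (1 / 2) * (m 2 * m 3 / (m 2 + m 3)) * ‖x.2 2 - x.2 3‖ ^ 2 := by positivity
    linarith
  have hKQKin : KQ m x.2 ≤ Kin m x.2 := by
    have h0 := hmp 0; have h1 := hmp 1
    rw [kin_KQ hmp]
    have : 0 ≤ (1 / 2) * (m 0 * m 1 / (m 0 + m 1)) * ‖x.2 0 - x.2 1‖ ^ 2 := by positivity
    linarith
  -- the slow product
  have hslow : ‖x.2 2 - x.2 3‖ ≤ cn n ^ 22 →
      ‖x.1 2 - x.1 3‖ * ‖x.2 2 - x.2 3‖ ≤ (8 * M * C0 + 2) * cn n ^ 2 := by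
    intro hw
    calc ‖x.1 2 - x.1 3‖ * ‖x.2 2 - x.2 3‖ ≤ (2 / cn n ^ 20) * cn n ^ 22 := by gcongr
      _ = 2 * cn n ^ 2 := by field_simp
      _ ≤ (8 * M * C0 + 2) * cn n ^ 2 := by
        gcongr
        linarith
  have hEcn : 8 * M * C0 + 2 ≤ (8 * M * C0 + 2) * cn n ^ 2 := by
    have : 1 ≤ cn n ^ 2 := one_le_pow₀ hcn
    nlinarith
  have hsqE : √((8 * M * C0 + 2) * cn n ^ 2) ≤ (8 * M * C0 + 2) * cn n := by
    rw [Real.sqrt_mul (by linarith), Real.sqrt_sq hcn0.le]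
    gcongr
    exact sqrt_le_self' (by linarith)
  have hcn8 : cn n ≤ cn n ^ 8 := le_self_pow₀ hcn (by norm_num)
  have hC1' : 0 ≤ C1 := by linarith
  rcases hcore with ⟨hw, hκ⟩ | ⟨hw, hκ, k, hk1, hk2, hk3⟩ | ⟨hw, k, hk1, hk2, hk3⟩
  · -- B1
    refine ⟨1, .H, ?_, Or.inl ?_⟩
    · show √(Kin m x.2) ≤ C / √‖Yc (TA .H m) 0 x.1‖
      rw [yc0]; exact hKC
    have hKP : √(KP m x.2) ≤ cn n ^ 8 := by
      rw [Real.sqrt_le_left (by positivity)]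
      calc KP m x.2 ≤ cn n ^ 16 := hκ
        _ = (cn n ^ 8) ^ 2 := by ring
    have hwp : ‖x.1 2 - x.1 3‖ * ‖x.2 2 - x.2 3‖ ≤
        (8 * M * C0 + 2) * cn n ^ 2 + 4 * M * cn n ^ 8 * ‖x.1 2 - x.1 3‖ := by
      have h1 := hslow hw
      have h2 : 0 ≤ 4 * M * cn n ^ 8 * ‖x.1 2 - x.1 3‖ := by positivity
      linarith
    obtain ⟨a1, a2, a3, a4, a5⟩ := tbP_core hM hC0 H1 hm hI hr0 hr2 hK .H (Or.inl rfl)
      (W := cn n ^ 8) (by positivity) hEcn hKP hwp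
    have hpos : C1 * (4 * M * cn n ^ 8 + √((8 * M * C0 + 2) * cn n ^ 2)) ≤ C * cn n ^ 8 := by
      calc C1 * (4 * M * cn n ^ 8 + √((8 * M * C0 + 2) * cn n ^ 2))
          ≤ C1 * (4 * M * cn n ^ 8 + (8 * M * C0 + 2) * cn n ^ 8) := by
            have : (8 * M * C0 + 2) * cn n ≤ (8 * M * C0 + 2) * cn n ^ 8 := by gcongr
            gcongr
            exact hsqE.trans this
        _ = (C1 * (4 * M + (8 * M * C0 + 2))) * cn n ^ 8 := by ring
        _ ≤ C * cn n ^ 8 := by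
            gcongr
            refine le_trans ?_ hCd
            gcongr
            · norm_num
            · linarith
    have hvel : 4 * M * cn n ^ 8 ≤ C * cn n ^ 8 := by
      gcongr
      linarith
    show BoxA (TA .H m) C (C / cn n ^ 20) (C / cn n ^ 20) (C * cn n ^ 8) (C * cn n ^ 8)
        (C * cn n ^ 8) 0 x
    refine ⟨?_, ?_, ?_, ?_, ?_, ?_, ?_, ?_⟩
    · rw [yc0]; exact hr.trans h23C
    · rw [yc0 _ _ x.1]; exact a1.trans hVC
    · rw [a3]; exact h23C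
    · rw [yc0 _ _ x.1]; exact a2.trans hVC
    · exact (a5 2).trans hpos
    · exact (a4 2 (by decide)).trans hvel
    · rw [zero_div, add_zero]; exact (a5 3).trans hpos
    · exact (a4 3 (by decide)).trans hvel
  all_goals
    have hb1 := lev_one k
    have hb0 : 0 < lev k := by linarith
    have hb100 : 1 ≤ lev k ^ 100 := one_le_pow₀ hb1
    have hρR3 : ρ ≤ Rg 3 x.1 := hR4.trans (rg34 x.1)
    have hR3s : Rg 3 x.1 ≤ 64 / lev k ^ 77 := by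
      refine hk3.le.trans ?_
      gcongr
      norm_num
    have h2s : 2 * ρ ≤ 64 / lev k ^ 77 := by
      have : 64 / lev k ^ 77 = 2 * (32 / lev k ^ 77) := by ring
      rw [this]; linarith
    obtain ⟨σ, t, s0, s1, s2, s3, s4, ht, hY2⟩ := geoP hmp hR3s (hr'.trans h2s) (i := 4) (j := 2)
      (k := 3) (by decide) (by decide) (by decide) (by decide) (by decide) (by decide)
      (h23'.trans h2s)
    have hσ : σ = 1 := by
      ext a
      fin_cases a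
      · exact congrArg Fin.val s0
      · exact congrArg Fin.val s1
      · exact congrArg Fin.val s2
      · exact congrArg Fin.val s3
      · exact congrArg Fin.val s4
    subst hσ
    have hY2' : ‖Yc (TA t m) 2 x.1‖ ≤ 9 * (64 / lev k ^ 77) := hY2
    have hY2C : ‖Yc (TA t m) 2 x.1‖ ≤ C / lev k ^ 77 := by
      refine hY2'.trans ?_
      calc 9 * (64 / lev k ^ 77) = 576 / lev k ^ 77 := by ring
        _ ≤ C / lev k ^ 77 := by gcongr
    have hρC : 1 / cn n ^ 20 ≤ C / lev k ^ 77 := by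
      refine hρR3.trans (hk3.le.trans ?_)
      gcongr
      linarith
  · -- slow
    have hKin : lev k ^ 200 ≤ Kin m x.2 := hk1.trans (hKPKQ.trans hKQKin)
    have hrC : ‖x.1 0 - x.1 1‖ ≤ C / lev k ^ 200 := by
      refine (hlev (lev k) hb1 hKin).trans ?_
      gcongr
    have hKP : √(KP m x.2) ≤ 2 * lev k ^ 100 := by
      rw [Real.sqrt_le_left (by positivity)]
      calc KP m x.2 ≤ 4 * lev k ^ 200 := hk2.le
        _ = (2 * lev k ^ 100) ^ 2 := by ring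
    have hwp : ‖x.1 2 - x.1 3‖ * ‖x.2 2 - x.2 3‖ ≤
        (8 * M * C0 + 2) * cn n ^ 2 + 4 * M * (2 * lev k ^ 100) * ‖x.1 2 - x.1 3‖ := by
      have h1 := hslow hw
      have h2 : 0 ≤ 4 * M * (2 * lev k ^ 100) * ‖x.1 2 - x.1 3‖ := by positivity
      linarith
    obtain ⟨a1, a2, a3, a4, a5⟩ := tbP_core hM hC0 H1 hm hI hr0 hr2 hK t ht
      (W := 2 * lev k ^ 100) (by positivity) hEcn hKP hwp
    have hcnb : cn n ≤ 2 * lev k ^ 100 := by
      refine hcn8.trans ?_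
      have h1 : (cn n ^ 8) ^ 2 ≤ (2 * lev k ^ 100) ^ 2 := by
        calc (cn n ^ 8) ^ 2 = cn n ^ 16 := by ring
          _ ≤ 4 * lev k ^ 200 := hκ.trans hk2.le
          _ = (2 * lev k ^ 100) ^ 2 := by ring
      exact le_of_sq_le_sq h1 (by positivity)
    have hpos : C1 * (4 * M * (2 * lev k ^ 100) + √((8 * M * C0 + 2) * cn n ^ 2)) ≤
        C * lev k ^ 100 := by
      calc C1 * (4 * M * (2 * lev k ^ 100) + √((8 * M * C0 + 2) * cn n ^ 2))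
          ≤ C1 * (4 * M * (2 * lev k ^ 100) + (8 * M * C0 + 2) * (2 * lev k ^ 100)) := by
            have : (8 * M * C0 + 2) * cn n ≤ (8 * M * C0 + 2) * (2 * lev k ^ 100) := by gcongr
            gcongr
            exact hsqE.trans this
        _ = (C1 * (8 * M + 2 * (8 * M * C0 + 2))) * lev k ^ 100 := by ring
        _ ≤ C * lev k ^ 100 := by
            gcongr
            refine le_trans ?_ hCd
            gcongr
            norm_num
    have hvel : 4 * M * (2 * lev k ^ 100) ≤ C * lev k ^ 100 := by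
      calc 4 * M * (2 * lev k ^ 100) = (8 * M) * lev k ^ 100 := by ring
        _ ≤ C * lev k ^ 100 := by gcongr
    refine ⟨1, t, ?_, Or.inr ⟨k, hρC, ?_⟩⟩
    · show √(Kin m x.2) ≤ C / √‖Yc (TA t m) 0 x.1‖
      rw [yc0]; exact hKC
    show BoxA (TA t m) C (C / lev k ^ 200) (C / cn n ^ 20) (C / lev k ^ 77)
          (C * lev k ^ 100) (C * lev k ^ 100) 0 x
    refine ⟨?_, ?_, ?_, ?_, ?_, ?_, ?_, ?_⟩
    · rw [yc0]; exact hrC
    · rw [yc0 _ _ x.1]; exact a1.trans hVC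
    · rw [a3]; exact h23C
    · rw [yc0 _ _ x.1]; exact a2.trans hVC
    · exact hY2C
    · exact (a4 2 (by decide)).trans hvel
    · rw [zero_div, add_zero]; exact (a5 3).trans hpos
    · exact (a4 3 (by decide)).trans hvel
  · -- fast
    have hKin : lev k ^ 200 ≤ Kin m x.2 := hk1.trans hKQKin
    have hrC : ‖x.1 0 - x.1 1‖ ≤ C / lev k ^ 200 := by
      refine (hlev (lev k) hb1 hKin).trans ?_
      gcongr
    have hKQ' : √(KQ m x.2) ≤ 2 * lev k ^ 100 := by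
      rw [Real.sqrt_le_left (by positivity)]
      calc KQ m x.2 ≤ 4 * lev k ^ 200 := hk2.le
        _ = (2 * lev k ^ 100) ^ 2 := by ring
    have hKP : √(KP m x.2) ≤ 2 * lev k ^ 100 := (Real.sqrt_le_sqrt hKPKQ).trans hKQ'
    have hwv : ‖x.2 2 - x.2 3‖ ≤ 4 * M * (2 * lev k ^ 100) := by
      have h := (vel_KQ hm x.2).2
      have h2 := h 2 (by decide)
      have h3 := h 3 (by decide)
      have h4 := norm_sub_le (x.2 2) (x.2 3)
      have h5 : 2 * M * √(KQ m x.2) ≤ 2 * M * (2 * lev k ^ 100) := by gcongr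
      linarith
    have hwp : ‖x.1 2 - x.1 3‖ * ‖x.2 2 - x.2 3‖ ≤
        (8 * M * C0 + 2) + 4 * M * (2 * lev k ^ 100) * ‖x.1 2 - x.1 3‖ := by
      have h1 : ‖x.1 2 - x.1 3‖ * ‖x.2 2 - x.2 3‖ ≤
        ‖x.1 2 - x.1 3‖ * (4 * M * (2 * lev k ^ 100)) := by gcongr
      linarith
    obtain ⟨a1, a2, a3, a4, a5⟩ := tbP_core hM hC0 H1 hm hI hr0 hr2 hK t ht
      (W := 2 * lev k ^ 100) (by positivity) (le_refl _) hKP hwp
    have hpos : C1 * (4 * M * (2 * lev k ^ 100) + √(8 * M * C0 + 2)) ≤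
        C * lev k ^ 100 := by
      calc C1 * (4 * M * (2 * lev k ^ 100) + √(8 * M * C0 + 2))
          ≤ C1 * (4 * M * (2 * lev k ^ 100) + (8 * M * C0 + 2) * (2 * lev k ^ 100)) := by
            have h1 : √(8 * M * C0 + 2) ≤ 8 * M * C0 + 2 := sqrt_le_self' (by linarith)
            have h2 : 8 * M * C0 + 2 ≤ (8 * M * C0 + 2) * (2 * lev k ^ 100) := by
              apply le_mul_of_one_le_right (by linarith) (by linarith)
            gcongr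
            exact h1.trans h2
        _ = (C1 * (8 * M + 2 * (8 * M * C0 + 2))) * lev k ^ 100 := by ring
        _ ≤ C * lev k ^ 100 := by
            gcongr
            refine le_trans ?_ hCd
            gcongr
            norm_num
    have hvel : 4 * M * (2 * lev k ^ 100) ≤ C * lev k ^ 100 := by
      calc 4 * M * (2 * lev k ^ 100) = (8 * M) * lev k ^ 100 := by ring
        _ ≤ C * lev k ^ 100 := by gcongr
    refine ⟨1, t, ?_, Or.inr ⟨k, hρC, ?_⟩⟩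
    · show √(Kin m x.2) ≤ C / √‖Yc (TA t m) 0 x.1‖
      rw [yc0]; exact hKC
    show BoxA (TA t m) C (C / lev k ^ 200) (C / cn n ^ 20) (C / lev k ^ 77)
          (C * lev k ^ 100) (C * lev k ^ 100) 0 x
    refine ⟨?_, ?_, ?_, ?_, ?_, ?_, ?_, ?_⟩
    · rw [yc0]; exact hrC
    · rw [yc0 _ _ x.1]; exact a1.trans hVC
    · rw [a3]; exact h23C
    · rw [yc0 _ _ x.1]; exact a2.trans hVC
    · exact hY2C
    · exact (a4 2 (by decide)).trans hvel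
    · rw [zero_div, add_zero]; exact (a5 3).trans hpos
    · exact (a4 3 (by decide)).trans hvel

end NB5
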