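import Pool.Agent.NB5.VTBT
import Pool.Agent.NB5.VTBP
import Pool.Agent.NB5.VIA
import Pool.Agent.NB5.VMe
import Pool.Agent.NB5.VSum

/-!
# NB5-VAsB: the integrals of `gB`

PLAN. `tbT`, `tbP` (constants `C1`, `C2`, both `≥ 1`; index `e : Bool`). For `x ∈ Inv m R`:
`gB n m x ≤ ∑ σ, ∑ (t, e), f σ (t, e) (rel σ x)`, where (`C = C1` or `C2`, `c = cn n`)
`f = ofReal (C c^20) * (gA .. C (C/c^20) (C/c^20) (C c^8) (C c^8) (C c^8) 0 +
  ∑' k, (if 1/c^20 ≤ C/lev k^77 then 1 else 0) *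
    gA .. C (C/lev k^200) (C/c^20) (C/lev k^77) (C lev k^100) (C lev k^100) 0)` (`√Kin ≤ C/√‖Y0‖`;
`ENNReal.le_tsum`). `rel_sum`, `measurable_gA`, `lintegral_add_left`, `lintegral_tsum`,
`lintegral_const_mul`, `boxA` (`tree_jac`, `mb_perm`; maximum of the finitely many constants):
first term: `c^20 √(1/c^20) c^8 c^(-20 d) c^(8 d) c^(8(d-1)) = c^(10 - 4 d) ≤ 1/c`; second term:
`c^20 √(lev^(-200)) lev^100 c^(-20 d) lev^(100 d) lev^(-77 (d-1)) = (1/c^20)^(d-1) lev^(23 d + 77)`.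
`sum_cn`, `sum_b2` (`ENNReal.tsum_le_tsum`, `ENNReal.tsum_add`, `ENNReal.tsum_mul_left`).
-/

open MeasureTheory Set Filter Topology Metric
open scoped NNReal ENNReal RealInnerProductSpace

namespace NB5

open HDN

/-- the common majorant -/
private noncomputable def Fb {d : ℕ} (A : Fin 4 → Fin 5 → ℝ) (C c : ℝ) (x : St d) : ℝ≥0∞ :=
  ENNReal.ofReal (C * c ^ 20) * (gA A C (C / c ^ 20) (C / c ^ 20) (C * c ^ 8) (C * c ^ 8)
    (C * c ^ 8) 0 x + ∑' k : ℕ, onSet (1 / c ^ 20 ≤ C / lev k ^ 77) 1 *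
      gA A C (C / lev k ^ 200) (C / c ^ 20) (C / lev k ^ 77) (C * lev k ^ 100)
        (C * lev k ^ 100) 0 x)

private theorem asb_meas {d : ℕ} (A : Fin 4 → Fin 5 → ℝ) (C c : ℝ) :
    Measurable (Fb A C c : St d → ℝ≥0∞) := by
  unfold Fb
  refine Measurable.const_mul ?_ _
  refine (measurable_gA _ _ _ _ _ _ _ _).add (Measurable.tsum fun k => ?_)
  exact (measurable_gA _ _ _ _ _ _ _ _).const_mul _

private theorem asb_pt {d : ℕ} (A : Fin 4 → Fin 5 → ℝ) {C c w : ℝ} (hC : 1 ≤ C) (hc : 1 ≤ c)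
    (y : St d) (h1 : w ≤ C / √‖Yc A 0 y.1‖)
    (h2 : BoxA A C (C / c ^ 20) (C / c ^ 20) (C * c ^ 8) (C * c ^ 8) (C * c ^ 8) 0 y ∨
      ∃ k : ℕ, 1 / c ^ 20 ≤ C / lev k ^ 77 ∧
        BoxA A C (C / lev k ^ 200) (C / c ^ 20) (C / lev k ^ 77) (C * lev k ^ 100)
          (C * lev k ^ 100) 0 y) :
    ENNReal.ofReal (c ^ 20 * w) ≤ Fb A C c y := by
  have hc0 : 0 < c := by linarith
  have hC0 : 0 < C := by linarith
  have h3 : c ^ 20 * w ≤ C * c ^ 20 * (1 / √‖Yc A 0 y.1‖) := by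
    calc c ^ 20 * w ≤ c ^ 20 * (C / √‖Yc A 0 y.1‖) :=
          mul_le_mul_of_nonneg_left h1 (by positivity)
      _ = C * c ^ 20 * (1 / √‖Yc A 0 y.1‖) := by ring
  calc ENNReal.ofReal (c ^ 20 * w) ≤ ENNReal.ofReal (C * c ^ 20 * (1 / √‖Yc A 0 y.1‖)) :=
        ENNReal.ofReal_le_ofReal h3
    _ = ENNReal.ofReal (C * c ^ 20) * ENNReal.ofReal (1 / √‖Yc A 0 y.1‖) :=
        ENNReal.ofReal_mul (by positivity)
    _ ≤ Fb A C c y := by
        unfold Fb
        refine mul_le_mul_right ?_ _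
        rcases h2 with h | ⟨k, hk, h⟩
        · refine le_trans (le_of_eq ?_) le_self_add
          unfold gA onSet
          rw [if_pos h]
        · refine le_trans (le_trans (le_of_eq ?_) (ENNReal.le_tsum k)) le_add_self
          unfold gA onSet
          rw [if_pos h, if_pos hk, ENNReal.ofReal_one, one_mul]

private theorem asb_sqrt {C L : ℝ} (hC : 1 ≤ C) (hL : 1 ≤ L) (a : ℕ) :
    √(C / L ^ (2 * a)) = √C / L ^ a := by
  have hL0 : 0 < L := by linarith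
  rw [Real.sqrt_div (by linarith), show L ^ (2 * a) = (L ^ a) ^ 2 by rw [← pow_mul, mul_comm],
    Real.sqrt_sq (by positivity)]

private theorem asb_r1 {C c K : ℝ} (hC : 1 ≤ C) (hc : 1 ≤ c) (hK : 0 ≤ K) (n : ℕ) :
    (C * c ^ 20) * (K * (√(C / c ^ 20) * (C * c ^ 8) + √√(C / c ^ 20) * 0) *
      (C / c ^ 20) ^ (n + 3) * (C * c ^ 8) ^ (n + 3) * (C * c ^ 8) ^ (n + 2)) ≤
    K * (C * √C * C * C ^ (n + 3) * C ^ (n + 3) * C ^ (n + 2)) / c := by
  have hc0 : 0 < c := by linarith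
  have hC0 : 0 < C := by linarith
  have e := asb_sqrt hC hc 10
  rw [show 2 * 10 = 20 by norm_num] at e
  rw [e, mul_zero, add_zero, mul_pow, mul_pow, div_pow]
  have key : c ^ 18 * (c ^ 8) ^ (n + 3) * (c ^ 8) ^ (n + 2) / (c ^ 20) ^ (n + 3) ≤ 1 / c := by
    rw [div_le_div_iff₀ (by positivity) hc0]
    have h1 : c ^ 18 * (c ^ 8) ^ (n + 3) * (c ^ 8) ^ (n + 2) * c = c ^ (16 * n + 59) := by
      simp only [← pow_mul, ← pow_add, ← pow_succ]
      ring
    have h2 : 1 * (c ^ 20) ^ (n + 3) = c ^ (20 * n + 60) := by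
      rw [one_mul, ← pow_mul]
      ring
    rw [h1, h2]
    exact pow_le_pow_right₀ hc (by omega)
  have hk0 : 0 ≤ K * (C * √C * C * C ^ (n + 3) * C ^ (n + 3) * C ^ (n + 2)) := by positivity
  calc (C * c ^ 20) * (K * (√C / c ^ 10 * (C * c ^ 8)) *
        (C ^ (n + 3) / (c ^ 20) ^ (n + 3)) * (C ^ (n + 3) * (c ^ 8) ^ (n + 3)) *
        (C ^ (n + 2) * (c ^ 8) ^ (n + 2)))
      = K * (C * √C * C * C ^ (n + 3) * C ^ (n + 3) * C ^ (n + 2)) *
        (c ^ 18 * (c ^ 8) ^ (n + 3) * (c ^ 8) ^ (n + 2) / (c ^ 20) ^ (n + 3)) := by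
        have e2 : c ^ 20 * (c ^ 8 / c ^ 10) = c ^ 18 := by
          field_simp
        rw [← e2]
        ring
    _ ≤ K * (C * √C * C * C ^ (n + 3) * C ^ (n + 3) * C ^ (n + 2)) * (1 / c) :=
        mul_le_mul_of_nonneg_left key hk0
    _ = _ := by ring

private theorem asb_r2 {C c K L : ℝ} (hC : 1 ≤ C) (hc : 1 ≤ c) (hL : 1 ≤ L) (n : ℕ) :
    (C * c ^ 20) * (K * (√(C / L ^ 200) * (C * L ^ 100) + √√(C / L ^ 200) * 0) *
      (C / c ^ 20) ^ (n + 3) * (C * L ^ 100) ^ (n + 3) * (C / L ^ 77) ^ (n + 2)) =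
    K * (C * √C * C * C ^ (n + 3) * C ^ (n + 3) * C ^ (n + 2)) * (1 / c ^ 20) ^ (n + 2) *
      L ^ (23 * (n + 3) + 77) := by
  have hc0 : 0 < c := by linarith
  have hC0 : 0 < C := by linarith
  have hL0 : 0 < L := by linarith
  have e := asb_sqrt hC hL 100
  rw [show 2 * 100 = 200 by norm_num] at e
  rw [e, mul_zero, add_zero, mul_pow, div_pow, div_pow, div_pow, one_pow]
  have h1 : c ^ 20 / (c ^ 20) ^ (n + 3) = 1 / (c ^ 20) ^ (n + 2) := by
    rw [pow_succ (c ^ 20) (n + 2)]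
    field_simp
  have h2 : (L ^ 100) ^ (n + 3) / (L ^ 77) ^ (n + 2) = L ^ (23 * (n + 3) + 77) := by
    rw [div_eq_iff (by positivity)]
    simp only [← pow_mul, ← pow_add]
    congr 1
    ring
  have h3 : L ^ 100 / L ^ 100 = 1 := div_self (by positivity)
  rw [← h1, ← h2]
  calc (C * c ^ 20) * (K * (√C / L ^ 100 * (C * L ^ 100)) *
        (C ^ (n + 3) / (c ^ 20) ^ (n + 3)) * (C ^ (n + 3) * (L ^ 100) ^ (n + 3)) *
        (C ^ (n + 2) / (L ^ 77) ^ (n + 2)))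
      = K * (C * √C * C * C ^ (n + 3) * C ^ (n + 3) * C ^ (n + 2)) *
        (c ^ 20 / (c ^ 20) ^ (n + 3)) * ((L ^ 100) ^ (n + 3) / (L ^ 77) ^ (n + 2)) *
        (L ^ 100 / L ^ 100) := by ring
    _ = _ := by rw [h3, mul_one]

private theorem asb_int {d : ℕ} (hd : 3 ≤ d) (S : Set (St d)) (A : Fin 4 → Fin 5 → ℝ)
    {C c K0 K : ℝ} (hC : 1 ≤ C) (hc : 1 ≤ c) (hK0 : 0 ≤ K0) (hK : K0 ≤ K)
    (h : ∀ r0 s1 s2 V D1 D2 : ℝ, 0 ≤ r0 → r0 ≤ C → 0 ≤ s1 → 0 ≤ s2 → 0 ≤ V →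
      0 ≤ D1 → 0 ≤ D2 → ∫⁻ x : St d in S, gA A C r0 s1 s2 V D1 D2 x ≤
        ENNReal.ofReal (K0 * (√r0 * D1 + √√r0 * D2) * s1 ^ d * V ^ d * s2 ^ (d - 1))) :
    ∫⁻ x in S, Fb A C c x ≤
      ENNReal.ofReal (K * (C * √C * C * C ^ d * C ^ d * C ^ (d - 1)) / c) +
      ∑' k : ℕ, onSet (1 / c ^ 20 ≤ C / lev k ^ 77)
        (K * (C * √C * C * C ^ d * C ^ d * C ^ (d - 1)) * (1 / c ^ 20) ^ (d - 1) *
          lev k ^ (23 * d + 77)) := by
  obtain ⟨n, hn⟩ := Nat.exists_eq_add_of_le hd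
  have hn1 : d = n + 3 := by omega
  subst hn1
  have hc0 : 0 < c := by linarith
  have hC0 : 0 < C := by linarith
  have hKn : 0 ≤ K := hK0.trans hK
  have hsub : n + 3 - 1 = n + 2 := by omega
  rw [hsub] at h ⊢
  unfold Fb
  rw [lintegral_const_mul' _ _ ENNReal.ofReal_ne_top,
    lintegral_add_left (measurable_gA _ _ _ _ _ _ _ _),
    lintegral_tsum fun k => ((measurable_gA _ _ _ _ _ _ _ _).const_mul _).aemeasurable,
    mul_add, ← ENNReal.tsum_mul_left]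
  refine add_le_add ?_ (ENNReal.tsum_le_tsum fun k => ?_)
  · have h1 := h (C / c ^ 20) (C / c ^ 20) (C * c ^ 8) (C * c ^ 8) (C * c ^ 8) 0 (by positivity)
      (div_le_self hC0.le (one_le_pow₀ hc)) (by positivity) (by positivity) (by positivity)
      (by positivity) le_rfl
    refine (mul_le_mul_right h1 _).trans ?_
    rw [← ENNReal.ofReal_mul (by positivity)]
    apply ENNReal.ofReal_le_ofReal
    refine le_trans ?_ (asb_r1 hC hc hKn n)
    gcongr
  · have hL := lev_one k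
    have hL0 : 0 < lev k := by linarith
    rw [lintegral_const_mul _ (measurable_gA _ _ _ _ _ _ _ _)]
    have h1 := h (C / lev k ^ 200) (C / c ^ 20) (C / lev k ^ 77) (C * lev k ^ 100)
      (C * lev k ^ 100) 0 (by positivity)
      (div_le_self hC0.le (one_le_pow₀ hL)) (by positivity) (by positivity) (by positivity)
      (by positivity) le_rfl
    by_cases hk : 1 / c ^ 20 ≤ C / lev k ^ 77
    · unfold onSet
      rw [if_pos hk, if_pos hk, ENNReal.ofReal_one, one_mul]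
      refine (mul_le_mul_right h1 _).trans ?_
      rw [← ENNReal.ofReal_mul (by positivity)]
      apply ENNReal.ofReal_le_ofReal
      rw [← asb_r2 hC hc hL n]
      gcongr
    · unfold onSet
      rw [if_neg hk, zero_mul, mul_zero]
      exact bot_le

theorem asB {d : ℕ} (hd : 3 ≤ d) {m : Fin 5 → ℝ} {M R : ℝ} (hm : Mb M m) (hR : 0 ≤ R) :
    ∑' n : ℕ, ∫⁻ x : St d in Inv m R, gB n m x ≠ ⊤ := by
  obtain ⟨C1, hC1, hT⟩ := tbT M R
  obtain ⟨C2, hC2, hP⟩ := tbP M R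
  set Ce : Bool → ℝ := fun e => cond e C1 C2 with hCedef
  have hCe : ∀ e, 1 ≤ Ce e := by
    intro e
    cases e
    · exact hC2
    · exact hC1
  have hM1 : 1 ≤ M := hm.1
  have hmp : ∀ i, 0 < m i := fun i => lt_of_lt_of_le (by positivity) (hm.2 i).1
  have hbox : ∀ (σ : Equiv.Perm (Fin 5)) (t : Tree) (e : Bool), ∃ C' : ℝ, 0 < C' ∧
      ∀ r0 s1 s2 V D1 D2 : ℝ, 0 ≤ r0 → r0 ≤ Ce e → 0 ≤ s1 → 0 ≤ s2 → 0 ≤ V →
      0 ≤ D1 → 0 ≤ D2 →
      ∫⁻ x : St d in Inv (m ∘ σ) R, gA (TA t (m ∘ σ)) (Ce e) r0 s1 s2 V D1 D2 x ≤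
        ENNReal.ofReal (C' * (√r0 * D1 + √√r0 * D2) * s1 ^ d * V ^ d * s2 ^ (d - 1)) :=
    fun σ t e => boxA hd (tree_jac t (fun i => hmp (σ i))) hR (hCe e)
  choose K0 hK0 hK using hbox
  obtain ⟨K, hKb⟩ : ∃ K : ℝ, ∀ σ t e, K0 σ t e ≤ K := by
    obtain ⟨K, h⟩ := (Set.finite_range
      (fun i : Equiv.Perm (Fin 5) × Tree × Bool => K0 i.1 i.2.1 i.2.2)).bddAbove
    exact ⟨K, fun σ t e => h ⟨(σ, t, e), rfl⟩⟩
  have hKpos : 0 < K := lt_of_lt_of_le (hK0 1 Tree.C true) (hKb 1 Tree.C true)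
  set kap : Bool → ℝ := fun e => K * (Ce e * √(Ce e) * Ce e * Ce e ^ d * Ce e ^ d *
    Ce e ^ (d - 1)) with hkap
  have hkap0 : ∀ e, 0 ≤ kap e := by
    intro e
    have := hCe e
    have h0 : 0 < Ce e := by linarith
    simp only [hkap]
    positivity
  set C₀ : ℝ := C1 + C2 + kap true + kap false with hC₀
  have hC₀1 : 1 ≤ C₀ := by
    have h1 := hkap0 true
    have h2 := hkap0 false
    linarith
  have hCeC : ∀ e, Ce e ≤ C₀ := by
    intro e
    have h1 := hkap0 true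
    have h2 := hkap0 false
    cases e
    · show C2 ≤ C₀
      linarith
    · show C1 ≤ C₀
      linarith
  have hkC : ∀ e, kap e ≤ C₀ := by
    intro e
    have h1 := hkap0 true
    have h2 := hkap0 false
    cases e <;> linarith
  set Bn : ℕ → ℝ≥0∞ := fun n => ENNReal.ofReal (C₀ / cn n) +
    ∑' k : ℕ, onSet (1 / cn n ^ 20 ≤ C₀ / lev k ^ 77)
      (C₀ * (1 / cn n ^ 20) ^ (d - 1) * lev k ^ (23 * d + 77)) with hBn
  have hone : ∀ n : ℕ, ∫⁻ x : St d in Inv m R, gB n m x ≤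
      (120 * Fintype.card (Tree × Bool) : ℕ) * Bn n := by
    intro n
    have hc := cn_one n
    have hc0 : 0 < cn n := by linarith
    refine rel_sum m R (gB n m)
      (fun σ (i : Tree × Bool) => (Fb (TA i.1 (m ∘ σ)) (Ce i.2) (cn n) : St d → ℝ≥0∞))
      (fun σ i => asb_meas _ _ _) (Bn n) ?_ ?_
    · intro σ i
      obtain ⟨t, e⟩ := i
      refine (asb_int hd (Inv (m ∘ σ) R) (TA t (m ∘ σ)) (hCe e) hc (hK0 σ t e).le (hKb σ t e)
        (hK σ t e)).trans ?_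
      simp only [hBn]
      refine add_le_add ?_ (ENNReal.tsum_le_tsum fun k => ?_)
      · apply ENNReal.ofReal_le_ofReal
        exact div_le_div_of_nonneg_right (hkC e) hc0.le
      · have hL := lev_one k
        have hL0 : 0 < lev k := by linarith
        by_cases hk : 1 / cn n ^ 20 ≤ Ce e / lev k ^ 77
        · have hk2 : 1 / cn n ^ 20 ≤ C₀ / lev k ^ 77 :=
            hk.trans (div_le_div_of_nonneg_right (hCeC e) (by positivity))
          unfold onSet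
          rw [if_pos hk, if_pos hk2]
          apply ENNReal.ofReal_le_ofReal
          have h5 := hkC e
          simp only [hkap] at h5
          gcongr
        · unfold onSet
          rw [if_neg hk]
          exact bot_le
    · intro x hx
      by_cases hb : BadT n m x ∨ BadP n m x
      · have e1 : gB n m x = ENNReal.ofReal (cn n ^ 20 * √(Kin m x.2)) := by
          unfold gB onSet
          rw [if_pos hb]
        rw [e1]
        have hsum : ∀ (σ : Equiv.Perm (Fin 5)) (i : Tree × Bool),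
            Fb (TA i.1 (m ∘ σ)) (Ce i.2) (cn n) (rel σ x) ≤
            ∑ σ : Equiv.Perm (Fin 5), ∑ i : Tree × Bool,
              Fb (TA i.1 (m ∘ σ)) (Ce i.2) (cn n) (rel σ x) := by
          intro σ i
          refine le_trans ?_ (Finset.single_le_sum (f := fun σ : Equiv.Perm (Fin 5) =>
            ∑ i : Tree × Bool, Fb (TA i.1 (m ∘ σ)) (Ce i.2) (cn n) (rel σ x))
            (fun _ _ => bot_le) (Finset.mem_univ σ))
          exact Finset.single_le_sum (f := fun i : Tree × Bool =>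
            Fb (TA i.1 (m ∘ σ)) (Ce i.2) (cn n) (rel σ x))
            (fun _ _ => bot_le) (Finset.mem_univ i)
        rcases hb with hb | hb
        · obtain ⟨σ, t, h1, h2⟩ := hT m n x hm hx hb
          exact (asb_pt (TA t (m ∘ σ)) hC1 hc (rel σ x) h1 h2).trans (hsum σ (t, true))
        · obtain ⟨σ, t, h1, h2⟩ := hP m n x hm hx hb
          exact (asb_pt (TA t (m ∘ σ)) hC2 hc (rel σ x) h1 h2).trans (hsum σ (t, false))
      · have e1 : gB n m x = 0 := by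
          unfold gB onSet
          rw [if_neg hb]
        rw [e1]
        exact bot_le
  refine ne_top_of_le_ne_top ?_ (ENNReal.tsum_le_tsum hone)
  rw [ENNReal.tsum_mul_left]
  refine ENNReal.mul_ne_top (ENNReal.natCast_ne_top _) ?_
  simp only [hBn]
  rw [ENNReal.tsum_add]
  exact ENNReal.add_ne_top.2 ⟨sum_cn C₀, sum_b2 hd C₀ hC₀1⟩

end NB5
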