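import Pool.Agent.NB5.VTS3
import Pool.Agent.NB5.VIA
import Pool.Agent.NB5.VMe
import Pool.Agent.NB5.VSum

/-!
# NB5-VAsD: the integral of `gD` at the level `b`

PLAN. Second part of `ts3` (constant `C1`). In the box `0 < ‖Y0‖ ≤ C1/b^200` (`Y0 = q 0 - q 1` of the relabelled
state is not zero since the state is free), so `b^20 ≤ √C1 b^(-80)/√‖Y0‖`. Hence
`gD P b m x ≤ ∑ σ, ∑ t : Tree, f σ t (rel σ x)`,
`f σ t = ofReal (√C1 / b^80) * gA (TA t (m ∘ σ)) C1 (C1/b^200) (C1/b^96) (C1/b^50) (C1 b^100) (C1 b^100) C1`.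
`rel_sum`, `measurable_gA`, `boxA`, `tree_jac`, `mb_perm`. Exponents of `b`:
`-80 - 96 d + 100 d - 50 (d-1) ≤ -1`. (`Fintype Tree` is in `VSum.lean`.)
-/

open MeasureTheory Set Filter Topology Metric
open scoped NNReal ENNReal RealInnerProductSpace

namespace NB5

open HDN

private theorem asD_pow {b : ℝ} (hb : 1 ≤ b) {p q : ℕ} (h : p + 1 ≤ q) : b ^ p / b ^ q ≤ 1 / b := by
  have hb0 : 0 < b := by linarith
  rw [div_le_div_iff₀ (pow_pos hb0 _) hb0, one_mul, ← pow_succ]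
  exact pow_le_pow_right₀ hb h

private theorem asD_real {b C1 C' : ℝ} (hb : 1 ≤ b) (hC1 : 1 ≤ C1) (hC' : 0 < C') {d : ℕ}
    (hd : 3 ≤ d) :
    √C1 / b ^ 80 * (C' * (√(C1 / b ^ 200) * (C1 * b ^ 100) + √√(C1 / b ^ 200) * C1) *
      (C1 / b ^ 96) ^ d * (C1 * b ^ 100) ^ d * (C1 / b ^ 50) ^ (d - 1)) ≤
      (C1 * (C' * (2 * C1 ^ 2) * C1 ^ d * C1 ^ d * C1 ^ (d - 1))) / b := by
  have hb0 : 0 < b := by linarith
  have hC0 : 0 < C1 := by linarith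
  have hs1 : √C1 ≤ C1 := by
    rw [Real.sqrt_le_left hC0.le]
    nlinarith
  have hsb : √(b ^ 200) = b ^ 100 := by
    rw [show b ^ 200 = (b ^ 100) ^ 2 by rw [← pow_mul]]
    exact Real.sqrt_sq (by positivity)
  have hsb2 : √(b ^ 100) = b ^ 50 := by
    rw [show b ^ 100 = (b ^ 50) ^ 2 by rw [← pow_mul]]
    exact Real.sqrt_sq (by positivity)
  have e1 : √(C1 / b ^ 200) = √C1 / b ^ 100 := by
    rw [Real.sqrt_div hC0.le, hsb]
  have e2 : √√(C1 / b ^ 200) = √√C1 / b ^ 50 := by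
    rw [e1, Real.sqrt_div (Real.sqrt_nonneg _), hsb2]
  have hs2 : √√C1 ≤ C1 := by
    have h1 : √√C1 ≤ √C1 := Real.sqrt_le_sqrt hs1
    linarith
  have f1 : √(C1 / b ^ 200) * (C1 * b ^ 100) ≤ C1 ^ 2 := by
    rw [e1]
    calc √C1 / b ^ 100 * (C1 * b ^ 100) = √C1 * C1 := by field_simp
      _ ≤ C1 * C1 := by gcongr
      _ = C1 ^ 2 := by ring
  have f2 : √√(C1 / b ^ 200) * C1 ≤ C1 ^ 2 := by
    rw [e2]
    have h50 : 1 ≤ b ^ 50 := one_le_pow₀ hb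
    calc √√C1 / b ^ 50 * C1 ≤ C1 / 1 * C1 := by gcongr
      _ = C1 ^ 2 := by ring
  have g1 : (C1 / b ^ 96) ^ d * (C1 * b ^ 100) ^ d * (C1 / b ^ 50) ^ (d - 1) / b ^ 80 ≤
      C1 ^ d * C1 ^ d * C1 ^ (d - 1) * (1 / b) := by
    have h1 : (C1 / b ^ 96) ^ d * (C1 * b ^ 100) ^ d * (C1 / b ^ 50) ^ (d - 1) / b ^ 80 =
        C1 ^ d * C1 ^ d * C1 ^ (d - 1) * (b ^ (100 * d) / b ^ (96 * d + 50 * (d - 1) + 80)) := by
      rw [div_pow, mul_pow, div_pow, ← pow_mul, ← pow_mul, ← pow_mul, pow_add, pow_add]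
      field_simp
    rw [h1]
    have h2 := asD_pow hb (show 100 * d + 1 ≤ 96 * d + 50 * (d - 1) + 80 by omega)
    gcongr
  have g0 : 0 ≤ (C1 / b ^ 96) ^ d * (C1 * b ^ 100) ^ d * (C1 / b ^ 50) ^ (d - 1) / b ^ 80 := by
    positivity
  calc √C1 / b ^ 80 * (C' * (√(C1 / b ^ 200) * (C1 * b ^ 100) + √√(C1 / b ^ 200) * C1) *
      (C1 / b ^ 96) ^ d * (C1 * b ^ 100) ^ d * (C1 / b ^ 50) ^ (d - 1))
      = √C1 * (C' * (√(C1 / b ^ 200) * (C1 * b ^ 100) + √√(C1 / b ^ 200) * C1)) *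
        ((C1 / b ^ 96) ^ d * (C1 * b ^ 100) ^ d * (C1 / b ^ 50) ^ (d - 1) / b ^ 80) := by ring
    _ ≤ C1 * (C' * (2 * C1 ^ 2)) *
        ((C1 / b ^ 96) ^ d * (C1 * b ^ 100) ^ d * (C1 / b ^ 50) ^ (d - 1) / b ^ 80) := by
        gcongr
        linarith
    _ ≤ C1 * (C' * (2 * C1 ^ 2)) * (C1 ^ d * C1 ^ d * C1 ^ (d - 1) * (1 / b)) := by
        gcongr
    _ = _ := by ring

theorem asD (P : Par) : ∃ K : ℝ, 1 ≤ K ∧ ∀ {d : ℕ}, 3 ≤ d → ∀ m : Fin 5 → ℝ, Mb P.M m →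
    ∃ C : ℝ, 0 < C ∧ ∀ b : ℝ, K ≤ b →
    ∫⁻ x : St d in Inv m P.R, gD P b m x ≤ ENNReal.ofReal (C / b) := by
  obtain ⟨C1, K, hC1, hK, hts⟩ := ts3 P
  refine ⟨K, hK, ?_⟩
  intro d hd m hm
  have hR : 0 ≤ P.R := by linarith [P.hR]
  have hC0 : 0 < C1 := by linarith
  have hbox : ∀ (σ : Equiv.Perm (Fin 5)) (t : Tree), ∃ C' : ℝ, 0 < C' ∧
      ∀ r0 s1 s2 V D1 D2 : ℝ, 0 ≤ r0 → r0 ≤ C1 → 0 ≤ s1 → 0 ≤ s2 → 0 ≤ V → 0 ≤ D1 → 0 ≤ D2 →
      ∫⁻ x : St d in Inv (m ∘ σ) P.R, gA (TA t (m ∘ σ)) C1 r0 s1 s2 V D1 D2 x ≤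
        ENNReal.ofReal (C' * (√r0 * D1 + √√r0 * D2) * s1 ^ d * V ^ d * s2 ^ (d - 1)) := by
    intro σ t
    have hm' := mb_perm hm σ
    have hpos : ∀ i, 0 < (m ∘ σ) i := by
      intro i
      have h1 := (hm'.2 i).1
      have hM : 0 < P.M := by linarith [P.hM]
      exact lt_of_lt_of_le (by positivity) h1
    exact boxA hd (tree_jac (m := m ∘ σ) t hpos) hR hC1
  choose Cf hCf hInt using hbox
  set B : ℝ := ∑ σ : Equiv.Perm (Fin 5), ∑ t : Tree, Cf σ t with hB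
  have hCB : ∀ σ t, Cf σ t ≤ B := by
    intro σ t
    have h1 : Cf σ t ≤ ∑ t : Tree, Cf σ t :=
      Finset.single_le_sum (f := fun t => Cf σ t) (fun j _ => (hCf σ j).le) (Finset.mem_univ t)
    have h3 : (∑ t : Tree, Cf σ t) ≤ B :=
      Finset.single_le_sum (f := fun σ => ∑ t : Tree, Cf σ t)
        (fun j _ => Finset.sum_nonneg fun k _ => (hCf j k).le) (Finset.mem_univ σ)
    linarith
  have hB0 : 0 < B := lt_of_lt_of_le (hCf 1 Tree.C) (hCB 1 Tree.C)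
  set Q : ℝ := C1 * (B * (2 * C1 ^ 2) * C1 ^ d * C1 ^ d * C1 ^ (d - 1)) with hQ
  have hQ0 : 0 < Q := by positivity
  refine ⟨(120 * Fintype.card Tree : ℕ) * Q, ?_, ?_⟩
  · have h1 : 0 < Fintype.card Tree := Fintype.card_pos_iff.mpr ⟨Tree.C⟩
    have h2 : (0 : ℝ) < ((120 * Fintype.card Tree : ℕ) : ℝ) := by
      exact_mod_cast Nat.mul_pos (by norm_num) h1
    positivity
  intro b hb
  have hb1 : 1 ≤ b := hK.trans hb
  have hb0 : 0 < b := by linarith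
  have hw0 : 0 ≤ √C1 / b ^ 80 := by positivity
  have key := rel_sum (d := d) (ι := Tree) m P.R (gD P b m)
    (fun σ t x => ENNReal.ofReal (√C1 / b ^ 80) *
      gA (TA t (m ∘ σ)) C1 (C1 / b ^ 200) (C1 / b ^ 96) (C1 / b ^ 50) (C1 * b ^ 100)
        (C1 * b ^ 100) C1 x)
    (fun σ t => (measurable_gA _ _ _ _ _ _ _ _).const_mul _) (ENNReal.ofReal (Q / b)) ?_ ?_
  · refine key.trans ?_
    have e0 : ((120 * Fintype.card Tree : ℕ) : ℝ) * Q / b =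
        ((120 * Fintype.card Tree : ℕ) : ℝ) * (Q / b) := mul_div_assoc _ _ _
    rw [e0, ENNReal.ofReal_mul (by positivity), ENNReal.ofReal_natCast]
  · intro σ t
    rw [lintegral_const_mul' _ _ ENNReal.ofReal_ne_top]
    have h200 : 1 ≤ b ^ 200 := one_le_pow₀ hb1
    have h1 := hInt σ t (C1 / b ^ 200) (C1 / b ^ 96) (C1 / b ^ 50) (C1 * b ^ 100)
      (C1 * b ^ 100) C1 (by positivity) (div_le_self hC0.le h200) (by positivity) (by positivity)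
      (by positivity) (by positivity) hC0.le
    refine (mul_le_mul_right h1 _).trans ?_
    rw [← ENNReal.ofReal_mul hw0]
    apply ENNReal.ofReal_le_ofReal
    refine (asD_real hb1 hC1 (hCf σ t) hd).trans ?_
    apply div_le_div_of_nonneg_right _ hb0.le
    rw [hQ]
    have := hCB σ t
    gcongr
  · intro x hx
    by_cases h : S3 P b m x ∧ (‖x.1 3 - cm3 m 0 1 2 x.1‖ ≤ 1 / b ^ 50 ∨
        ‖x.1 4 - cm3 m 0 1 2 x.1‖ ≤ 1 / b ^ 50)
    · obtain ⟨σ, t, h5⟩ := (hts m b x hm hb hx h.1).2 h.2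
      have hle : gD P b m x ≤ ENNReal.ofReal (√C1 / b ^ 80) *
          gA (TA t (m ∘ σ)) C1 (C1 / b ^ 200) (C1 / b ^ 96) (C1 / b ^ 50) (C1 * b ^ 100)
            (C1 * b ^ 100) C1 (rel σ x) := by
        have g1 : gD P b m x = ENNReal.ofReal (b ^ 20) := if_pos h
        have g2 : gA (TA t (m ∘ σ)) C1 (C1 / b ^ 200) (C1 / b ^ 96) (C1 / b ^ 50) (C1 * b ^ 100)
            (C1 * b ^ 100) C1 (rel σ x) =
            ENNReal.ofReal (1 / √‖Yc (TA t (m ∘ σ)) 0 (rel σ x).1‖) := if_pos h5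
        rw [g1, g2, ← ENNReal.ofReal_mul hw0]
        apply ENNReal.ofReal_le_ofReal
        have hy : Yc (TA t (m ∘ σ)) 0 (rel σ x).1 = x.1 (σ 0) - x.1 (σ 1) := yc0 t (m ∘ σ) _
        have hy0 : 0 < ‖Yc (TA t (m ∘ σ)) 0 (rel σ x).1‖ := by
          rw [hy]
          exact norm_pos_iff.mpr (sub_ne_zero.mpr
            (hx.1 (σ 0) (σ 1) (fun he => absurd (σ.injective he) (by decide))))
        have hyle : ‖Yc (TA t (m ∘ σ)) 0 (rel σ x).1‖ ≤ C1 / b ^ 200 := h5.1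
        have hs : √‖Yc (TA t (m ∘ σ)) 0 (rel σ x).1‖ ≤ √C1 / b ^ 100 := by
          have e1 : √(C1 / b ^ 200) = √C1 / b ^ 100 := by
            rw [Real.sqrt_div hC0.le, show b ^ 200 = (b ^ 100) ^ 2 by rw [← pow_mul],
              Real.sqrt_sq (by positivity)]
          rw [← e1]
          exact Real.sqrt_le_sqrt hyle
        have hs0 : 0 < √‖Yc (TA t (m ∘ σ)) 0 (rel σ x).1‖ := Real.sqrt_pos.mpr hy0
        have hC1s : 0 < √C1 := Real.sqrt_pos.mpr hC0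
        calc b ^ 20 = √C1 / b ^ 80 * (1 / (√C1 / b ^ 100)) := by
              field_simp
          _ ≤ √C1 / b ^ 80 * (1 / √‖Yc (TA t (m ∘ σ)) 0 (rel σ x).1‖) := by
              gcongr
      refine hle.trans ?_
      have h7 := Finset.single_le_sum (s := Finset.univ) (a := t)
        (f := fun t : Tree => ENNReal.ofReal (√C1 / b ^ 80) *
          gA (TA t (m ∘ σ)) C1 (C1 / b ^ 200) (C1 / b ^ 96) (C1 / b ^ 50) (C1 * b ^ 100)
            (C1 * b ^ 100) C1 (rel σ x))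
          (fun _ _ => bot_le) (Finset.mem_univ _)
      have h8 := Finset.single_le_sum (s := Finset.univ) (a := σ)
        (f := fun σ : Equiv.Perm (Fin 5) => ∑ t : Tree, ENNReal.ofReal (√C1 / b ^ 80) *
          gA (TA t (m ∘ σ)) C1 (C1 / b ^ 200) (C1 / b ^ 96) (C1 / b ^ 50) (C1 * b ^ 100)
            (C1 * b ^ 100) C1 (rel σ x))
          (fun _ _ => bot_le) (Finset.mem_univ _)
      exact h7.trans h8
    · have : gD P b m x = 0 := if_neg h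
      rw [this]
      exact bot_le

end NB5
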