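import Pool.Agent.NB5.VXM
import Pool.Agent.NB5.VK3

/-!
# NB5-VX0: exit integrals, condition 0

PLAN. `xmaster` with `c u z = onSet (‖u‖ ≤ C b^48 ∧ ‖z.1‖ ≤ C b^100 ∧ ‖z.2‖ ≤ C b^100) 1`,
`k3 u = onSet (‖u‖ ≤ C b^48) (C3 (C b^100)^(2(d-1)))` (`k3_ball` with `c = 0`). For `s = ‖u‖`:
`phiB = s^(2-d) b^(-100(d-1)) + s b^(-96(d-3)-400)`; `rad'` with `p = d - 2` (`∫_{s ≤ C b^48} s^(2-d) ≤ C' b^96`)
and `∫_{s ≤ C b^48} s ≤ C' b^(48(d+1))` (`s ≤ C b^48`, `rad'` with `p = 0`). Exponents of `b`: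
`-100 d + 200(d-1) - 100(d-1) + 96 = -4`; `-100 d + 200(d-1) + 48(d+1) - 96(d-3) - 400 = 52 d - 264 ≤ -4`
(here `d ≤ 5` is used; `interval_cases d`).
The hypothesis of `xmaster` on `g = gXb 0 A C β b` is the definition of `gXb`, `BoxX`, `CondX`
(a product of indicators).
-/

open MeasureTheory Set Filter Topology Metric
open scoped NNReal ENNReal RealInnerProductSpace

namespace NB5

open HDN

variable {d : ℕ} {m : Fin 5 → ℝ} {A : Fin 4 → Fin 5 → ℝ} {μ : Fin 4 → ℝ}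

private theorem x0_div {b : ℝ} (hb : 1 ≤ b) {a c : ℕ} (h : a + 1 ≤ c) : b ^ a / b ^ c ≤ 1 / b := by
  have hb0 : 0 < b := by linarith
  rw [div_le_div_iff₀ (pow_pos hb0 _) hb0, one_mul, ← pow_succ]
  exact pow_le_pow_right₀ hb h

private theorem x0_real (hd : 3 ≤ d) (hd5 : d ≤ 5) {b C C' C1 C2 C3 : ℝ} (hb : 1 ≤ b)
    (hC : 0 < C) (hC' : 0 < C') (hC1 : 0 < C1) (hC2 : 0 < C2) (hC3 : 0 < C3) :
    C' / b ^ (100 * d) * (C1 * (C * b ^ 48) ^ 2 *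
        (C3 * (C * b ^ 100) ^ (d - 1) * (C * b ^ 100) ^ (d - 1) / b ^ (100 * (d - 1))) +
      C2 * (C * b ^ 48) ^ d * (C3 * (C * b ^ 100) ^ (d - 1) * (C * b ^ 100) ^ (d - 1) *
        (C * b ^ 48) / (b ^ (96 * (d - 3)) * b ^ 400))) ≤
      (C' * C1 * C ^ 2 * C3 * (C ^ (d - 1)) ^ 2 + C' * C2 * C ^ d * C3 * (C ^ (d - 1)) ^ 2 * C) /
        b := by
  have hb0 : 0 < b := by linarith
  have e1 : b ^ (96 + 100 * (d - 1)) / b ^ (100 * d) ≤ 1 / b := x0_div hb (by omega)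
  have e2 : b ^ (48 * d + (100 * (d - 1) + 100 * (d - 1)) + 48) /
      b ^ (100 * d + (96 * (d - 3) + 400)) ≤ 1 / b := x0_div hb (by omega)
  have f1 : (C * b ^ 48) ^ 2 = C ^ 2 * b ^ 96 := by
    rw [mul_pow, ← pow_mul]
  have f2 : (C * b ^ 100) ^ (d - 1) = C ^ (d - 1) * b ^ (100 * (d - 1)) := by
    rw [mul_pow, ← pow_mul]
  have f3 : (C * b ^ 48) ^ d = C ^ d * b ^ (48 * d) := by
    rw [mul_pow, ← pow_mul]
  rw [f1, f2, f3]
  rw [pow_add] at e1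
  rw [pow_add, pow_add, pow_add, pow_add, pow_add b (96 * (d - 3)) 400] at e2
  have p1 : 0 < b ^ (100 * (d - 1)) := pow_pos hb0 _
  have p2 : 0 < b ^ (100 * d) := pow_pos hb0 _
  have p3 : 0 < b ^ (96 * (d - 3)) := pow_pos hb0 _
  have p4 : 0 < b ^ 400 := pow_pos hb0 _
  generalize b ^ (100 * (d - 1)) = B1 at *
  generalize b ^ (100 * d) = B2 at *
  generalize b ^ (96 * (d - 3)) = B3 at *
  generalize b ^ (48 * d) = B4 at *
  generalize b ^ 400 = B5 at *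
  generalize b ^ 96 = B6 at *
  generalize b ^ 48 = B7 at *
  generalize hG : C ^ (d - 1) = G at *
  generalize hH : C ^ d = H at *
  have hGp : 0 < G := by rw [← hG]; exact pow_pos hC _
  have hHp : 0 < H := by rw [← hH]; exact pow_pos hC _
  have g1 : C' / B2 * (C1 * (C ^ 2 * B6) * (C3 * (G * B1) * (G * B1) / B1) +
      C2 * (H * B4) * (C3 * (G * B1) * (G * B1) * (C * B7) / (B3 * B5))) =
      C' * C1 * C ^ 2 * C3 * G ^ 2 * (B6 * B1 / B2) +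
      C' * C2 * H * C3 * G ^ 2 * C * (B4 * (B1 * B1) * B7 / (B2 * (B3 * B5))) := by
    field_simp
  rw [g1]
  have g2 : C' * C1 * C ^ 2 * C3 * G ^ 2 * (B6 * B1 / B2) ≤
      C' * C1 * C ^ 2 * C3 * G ^ 2 * (1 / b) :=
    mul_le_mul_of_nonneg_left e1 (by positivity)
  have g3 : C' * C2 * H * C3 * G ^ 2 * C * (B4 * (B1 * B1) * B7 / (B2 * (B3 * B5))) ≤
      C' * C2 * H * C3 * G ^ 2 * C * (1 / b) :=
    mul_le_mul_of_nonneg_left e2 (by positivity)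
  calc _ ≤ C' * C1 * C ^ 2 * C3 * G ^ 2 * (1 / b) + C' * C2 * H * C3 * G ^ 2 * C * (1 / b) :=
        add_le_add g2 g3
    _ = _ := by ring

private theorem x0_phi (hd : 3 ≤ d) {b r s K : ℝ} (hb : 1 ≤ b) (hs : 0 ≤ s) (hsr : s ≤ r)
    (hK : 0 ≤ K) : phiB d b s * K ≤ s ^ (-((d : ℝ) - 2)) * (K / b ^ (100 * (d - 1))) +
      s ^ (-(0 : ℝ)) * (K * r / (b ^ (96 * (d - 3)) * b ^ 400)) := by
  have hb0 : 0 < b := by linarith
  unfold phiB
  rw [neg_zero, Real.rpow_zero, one_mul]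
  have hr : 0 ≤ r := hs.trans hsr
  have p3 : 0 < b ^ (96 * (d - 3)) * b ^ 400 := by positivity
  have h2 : K * s / (b ^ (96 * (d - 3)) * b ^ 400) ≤ K * r / (b ^ (96 * (d - 3)) * b ^ 400) :=
    div_le_div_of_nonneg_right (mul_le_mul_of_nonneg_left hsr hK) p3.le
  rcases eq_or_lt_of_le hs with h0 | h0
  · rw [← h0]
    have h3 : (0 : ℝ) ≤ (0 : ℝ) ^ (-((d : ℝ) - 2)) := Real.rpow_nonneg le_rfl _
    have h4 : 0 ≤ K / b ^ (100 * (d - 1)) := by positivity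
    have h5 : 0 ≤ K * r / (b ^ (96 * (d - 3)) * b ^ 400) := by positivity
    rw [zero_mul, zero_mul]
    exact add_nonneg (mul_nonneg h3 h4) h5
  · have h1 : ((d : ℝ) - 2) = ((d - 2 : ℕ) : ℝ) := by
      rw [Nat.cast_sub (by omega)]
      norm_num
    have e1 : (b ^ 100 * s) ^ (d - 1) = b ^ (100 * (d - 1)) * (s ^ (d - 2) * s) := by
      rw [mul_pow, ← pow_mul, ← pow_succ, show d - 2 + 1 = d - 1 by omega]
    rw [h1, Real.rpow_neg hs, Real.rpow_natCast, e1]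
    have p1 : 0 < b ^ (100 * (d - 1)) := pow_pos hb0 _
    have p2 : 0 < s ^ (d - 2) := pow_pos h0 _
    calc s * (1 / (b ^ (100 * (d - 1)) * (s ^ (d - 2) * s)) +
          1 / (b ^ (96 * (d - 3)) * b ^ 400)) * K =
        (s ^ (d - 2))⁻¹ * (K / b ^ (100 * (d - 1))) + K * s / (b ^ (96 * (d - 3)) * b ^ 400) := by
          field_simp
      _ ≤ _ := by linarith

private theorem x0_meas (r p : ℝ) : Measurable fun u : Sp d => onSet (‖u‖ ≤ r) (‖u‖ ^ (-p)) := by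
  classical
  unfold onSet
  refine Measurable.ite (measurableSet_le measurable_norm measurable_const) ?_ measurable_const
  exact (measurable_norm.pow_const _).ennreal_ofReal

private theorem x0_int (hd : 3 ≤ d) {b D r K c1 c2 : ℝ} (hb : 1 ≤ b) (hr : 0 ≤ r) (hK : 0 ≤ K)
    (h1 : ∫⁻ y : Sp d, onSet (‖y‖ ≤ r) (‖y‖ ^ (-((d : ℝ) - 2))) ≤ ENNReal.ofReal c1)
    (h2 : ∫⁻ y : Sp d, onSet (‖y‖ ≤ r) (‖y‖ ^ (-(0 : ℝ))) ≤ ENNReal.ofReal c2) (hc1 : 0 ≤ c1)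
    (hc2 : 0 ≤ c2) :
    ∫⁻ u : Sp d, onSet (‖u‖ ≤ D) (phiB d b ‖u‖) * onSet (‖u‖ ≤ r) K ≤
      ENNReal.ofReal (c1 * (K / b ^ (100 * (d - 1))) +
        c2 * (K * r / (b ^ (96 * (d - 3)) * b ^ 400))) := by
  have hb0 : 0 < b := by linarith
  have k1 : 0 ≤ K / b ^ (100 * (d - 1)) := by positivity
  have k2 : 0 ≤ K * r / (b ^ (96 * (d - 3)) * b ^ 400) := by positivity
  calc ∫⁻ u : Sp d, onSet (‖u‖ ≤ D) (phiB d b ‖u‖) * onSet (‖u‖ ≤ r) K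
      ≤ ∫⁻ u : Sp d, (onSet (‖u‖ ≤ r) (‖u‖ ^ (-((d : ℝ) - 2))) *
          ENNReal.ofReal (K / b ^ (100 * (d - 1))) +
        onSet (‖u‖ ≤ r) (‖u‖ ^ (-(0 : ℝ))) *
          ENNReal.ofReal (K * r / (b ^ (96 * (d - 3)) * b ^ 400))) := by
        apply lintegral_mono
        intro u
        show onSet (‖u‖ ≤ D) (phiB d b ‖u‖) * onSet (‖u‖ ≤ r) K ≤
          onSet (‖u‖ ≤ r) (‖u‖ ^ (-((d : ℝ) - 2))) * ENNReal.ofReal (K / b ^ (100 * (d - 1))) +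
          onSet (‖u‖ ≤ r) (‖u‖ ^ (-(0 : ℝ))) *
            ENNReal.ofReal (K * r / (b ^ (96 * (d - 3)) * b ^ 400))
        by_cases hu : ‖u‖ ≤ r
        · have g1 : onSet (‖u‖ ≤ D) (phiB d b ‖u‖) ≤ ENNReal.ofReal (phiB d b ‖u‖) := by
            unfold onSet
            split_ifs
            · exact le_rfl
            · exact bot_le
          have g2 : onSet (‖u‖ ≤ r) K = ENNReal.ofReal K := by
            unfold onSet
            rw [if_pos hu]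
          have g3 : onSet (‖u‖ ≤ r) (‖u‖ ^ (-((d : ℝ) - 2))) =
              ENNReal.ofReal (‖u‖ ^ (-((d : ℝ) - 2))) := by
            unfold onSet
            rw [if_pos hu]
          have g4 : onSet (‖u‖ ≤ r) (‖u‖ ^ (-(0 : ℝ))) = ENNReal.ofReal (‖u‖ ^ (-(0 : ℝ))) := by
            unfold onSet
            rw [if_pos hu]
          rw [g2, g3, g4]
          refine (mul_le_mul_left g1 _).trans ?_
          rw [← ENNReal.ofReal_mul' hK, ← ENNReal.ofReal_mul' k1, ← ENNReal.ofReal_mul' k2,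
            ← ENNReal.ofReal_add (mul_nonneg (Real.rpow_nonneg (norm_nonneg _) _) k1)
              (mul_nonneg (Real.rpow_nonneg (norm_nonneg _) _) k2)]
          exact ENNReal.ofReal_le_ofReal (x0_phi hd hb (norm_nonneg _) hu hK)
        · have g2 : onSet (‖u‖ ≤ r) K = 0 := by
            unfold onSet
            rw [if_neg hu]
          rw [g2, mul_zero]
          exact bot_le
    _ = (∫⁻ u : Sp d, onSet (‖u‖ ≤ r) (‖u‖ ^ (-((d : ℝ) - 2)))) *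
          ENNReal.ofReal (K / b ^ (100 * (d - 1))) +
        (∫⁻ u : Sp d, onSet (‖u‖ ≤ r) (‖u‖ ^ (-(0 : ℝ)))) *
          ENNReal.ofReal (K * r / (b ^ (96 * (d - 3)) * b ^ 400)) := by
        rw [lintegral_add_left ((x0_meas r _).mul_const _),
          lintegral_mul_const' _ _ ENNReal.ofReal_ne_top,
          lintegral_mul_const' _ _ ENNReal.ofReal_ne_top]
    _ ≤ ENNReal.ofReal c1 * ENNReal.ofReal (K / b ^ (100 * (d - 1))) +
        ENNReal.ofReal c2 * ENNReal.ofReal (K * r / (b ^ (96 * (d - 3)) * b ^ 400)) :=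
        add_le_add (mul_le_mul_left h1 _) (mul_le_mul_left h2 _)
    _ = _ := by
        rw [← ENNReal.ofReal_mul' k1, ← ENNReal.ofReal_mul' k2,
          ← ENNReal.ofReal_add (mul_nonneg hc1 k1) (mul_nonneg hc2 k2)]

theorem boxX0 (hd : 3 ≤ d) (hd5 : d ≤ 5) (hj : Jac m A μ) {R C : ℝ} (hR : 0 ≤ R) (hC : 1 ≤ C) :
    ∃ C' : ℝ, 0 < C' ∧ ∀ b β : ℝ, 1 ≤ b →
    ∫⁻ x : St d in Inv m R, gXb 0 A C β b x ≤ ENNReal.ofReal (C' / b) := by

  have hC0 : 0 < C := by linarith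
  obtain ⟨C', hC', hx⟩ := xmaster hd hd5 hj hR hC
  obtain ⟨C3, hC3, hk⟩ := k3_ball hd (hj.pos 2)
  obtain ⟨C1, hC1, hr1⟩ := rad' d ((d : ℝ) - 2)
    (by
      have : (3 : ℝ) ≤ d := by exact_mod_cast hd
      linarith) (by linarith)
  obtain ⟨C2, hC2, hr2⟩ := rad' d 0 le_rfl
    (by
      have : (3 : ℝ) ≤ d := by exact_mod_cast hd
      linarith)
  refine ⟨C' * C1 * C ^ 2 * C3 * (C ^ (d - 1)) ^ 2 + C' * C2 * C ^ d * C3 * (C ^ (d - 1)) ^ 2 * C,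
    by positivity, ?_⟩
  intro b β hb
  have hb0 : 0 < b := by linarith
  have key := hx b (gXb 0 A C β b)
    (fun u z => onSet (‖u‖ ≤ C * b ^ 48 ∧ ‖z.1‖ ≤ C * b ^ 100 ∧ ‖z.2‖ ≤ C * b ^ 100) 1)
    (fun u => onSet (‖u‖ ≤ C * b ^ 48) (C3 * (C * b ^ 100) ^ (d - 1) * (C * b ^ 100) ^ (d - 1)))
    hb ?_ ?_ ?_
  · refine key.trans ?_
    have hin := x0_int (D := C * b ^ 100) hd hb (mul_nonneg hC0.le (pow_nonneg hb0.le 48))
      (K := C3 * (C * b ^ 100) ^ (d - 1) * (C * b ^ 100) ^ (d - 1)) (by positivity)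
      (hr1 (C * b ^ 48) (by positivity)) (hr2 (C * b ^ 48) (by positivity))
      (by positivity) (by positivity)
    refine (mul_le_mul_right hin _).trans ?_
    rw [← ENNReal.ofReal_mul (by positivity)]
    apply ENNReal.ofReal_le_ofReal
    refine le_trans (le_of_eq ?_) (x0_real hd hd5 hb hC0 hC' hC1 hC2 hC3)
    have h1 : (d : ℝ) - ((d : ℝ) - 2) = ((2 : ℕ) : ℝ) := by
      push_cast
      ring
    rw [h1, Real.rpow_natCast, sub_zero, Real.rpow_natCast]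
  · intro u z
    unfold onSet
    split_ifs
    · exact ENNReal.ofReal_ne_top
    · exact ENNReal.zero_ne_top
  · intro u T
    by_cases hu : ‖u‖ ≤ C * b ^ 48
    · have h1 := hk T 0 (C * b ^ 100) (C * b ^ 100) (by positivity) (by positivity)
      have h2 : onSet (‖u‖ ≤ C * b ^ 48)
          (C3 * (C * b ^ 100) ^ (d - 1) * (C * b ^ 100) ^ (d - 1)) =
          ENNReal.ofReal (C3 * (C * b ^ 100) ^ (d - 1) * (C * b ^ 100) ^ (d - 1)) := by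
        unfold onSet
        rw [if_pos hu]
      show _ ≤ onSet (‖u‖ ≤ C * b ^ 48)
          (C3 * (C * b ^ 100) ^ (d - 1) * (C * b ^ 100) ^ (d - 1))
      rw [h2]
      refine le_trans (le_of_eq ?_) h1
      refine lintegral_congr fun z => ?_
      congr 1
      show onSet (‖u‖ ≤ C * b ^ 48 ∧ ‖z.1‖ ≤ C * b ^ 100 ∧ ‖z.2‖ ≤ C * b ^ 100) 1 =
        onSet (‖z.1‖ ≤ C * b ^ 100 ∧ ‖z.2 + 0‖ ≤ C * b ^ 100) 1
      rw [add_zero]
      have h3 : (‖u‖ ≤ C * b ^ 48 ∧ ‖z.1‖ ≤ C * b ^ 100 ∧ ‖z.2‖ ≤ C * b ^ 100) =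
          (‖z.1‖ ≤ C * b ^ 100 ∧ ‖z.2‖ ≤ C * b ^ 100) :=
        propext ⟨fun h => h.2, fun h => ⟨hu, h⟩⟩
      rw [h3]
    · have h1 : ∀ z : Sp d × Sp d,
          onSet (‖u‖ ≤ C * b ^ 48 ∧ ‖z.1‖ ≤ C * b ^ 100 ∧ ‖z.2‖ ≤ C * b ^ 100) 1 = 0 := by
        intro z
        unfold onSet
        rw [if_neg fun h => hu h.1]
      simp only [h1, zero_mul, lintegral_zero]
      exact bot_le
  · intro x
    unfold gXb
    by_cases h : BoxX A C b x ∧ CondX 0 A C β b x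
    · have h1 : ‖Yc A 1 x.2‖ ≤ C * b ^ 48 := h.2
      have h2 : ‖Yc A 2 x.1‖ ≤ C * b ^ 100 ∧ ‖Yc A 2 x.2‖ ≤ C * b ^ 100 :=
        ⟨h.1.2.2.2.2.1, h.1.2.2.2.2.2.1⟩
      have e1 : onSet (‖Yc A 1 x.2‖ ≤ C * b ^ 48 ∧ ‖Yc A 2 x.1‖ ≤ C * b ^ 100 ∧
          ‖Yc A 2 x.2‖ ≤ C * b ^ 100) 1 = 1 := by
        unfold onSet
        rw [if_pos ⟨h1, h2⟩, ENNReal.ofReal_one]
      show _ ≤ _ * onSet (‖Yc A 1 x.2‖ ≤ C * b ^ 48 ∧ ‖Yc A 2 x.1‖ ≤ C * b ^ 100 ∧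
          ‖Yc A 2 x.2‖ ≤ C * b ^ 100) 1
      rw [e1, mul_one]
      unfold onSet
      rw [if_pos h, if_pos h.1]
    · have e1 : onSet (BoxX A C b x ∧ CondX 0 A C β b x)
          (b ^ 96 * ‖Yc A 1 x.2‖ * Wt b (Yc A 1 x.1) (Yc A 1 x.2)) = 0 := by
        unfold onSet
        rw [if_neg h]
      rw [e1]
      exact bot_le


end NB5
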