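import Pool.Agent.NB5.VXM
import Pool.Agent.NB5.VK3

/-!
# NB5-VX1: exit integrals, condition 1

PLAN. `xmaster` with `c u z = onSet (1 ≤ ‖u‖ ∧ ‖z.1‖ ≤ C ∧ ‖z.2‖ ≤ C b^100) 1`,
`k3 u = onSet (1 ≤ ‖u‖) (C3 (C b^100)^(d-1) C^(d-1))` or without the indicator (`k3_ball`, `c = 0`). For
`s = ‖u‖ ≤ C b^100`: `phiB = s^(2-d) b^(-100(d-1)) + s b^(-96(d-3)-400)`; `rad'` with `p = d - 2`
(`∫ s^(2-d) ≤ C' b^200`) and `∫ s ≤ C' b^(100(d+1))`. Exponents: `-100 d + 100(d-1) - 100(d-1) + 200 =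
200 - 100 d ≤ -100`; `-100 + 100(d+1) - 96(d-3) - 400 = 4 d - 112 ≤ -92`.
The hypothesis of `xmaster` on `g = gXb 1 A C β b` is the definition of `gXb`, `BoxX`, `CondX`
(a product of indicators).
-/

open MeasureTheory Set Filter Topology Metric
open scoped NNReal ENNReal RealInnerProductSpace

namespace NB5

open HDN

variable {d : ℕ} {m : Fin 5 → ℝ} {A : Fin 4 → Fin 5 → ℝ} {μ : Fin 4 → ℝ}

private theorem vx1_meas (d : ℕ) (S : ℝ) {f : Sp d → ℝ} (hf : Measurable f) :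
    Measurable (fun u : Sp d => onSet (‖u‖ ≤ S) (f u)) := by
  unfold onSet
  exact Measurable.ite (measurableSet_le measurable_norm measurable_const)
    (ENNReal.measurable_ofReal.comp hf) measurable_const

private theorem vx1_pt (k : ℕ) {b S K : ℝ} (hb : 1 ≤ b) (u : Sp (k + 3)) (hK : 0 ≤ K) :
    onSet (‖u‖ ≤ S) (phiB (k + 3) b ‖u‖) * onSet (1 ≤ ‖u‖) K ≤
      ENNReal.ofReal K * (ENNReal.ofReal (1 / (b ^ 100) ^ (k + 2)) *
        onSet (‖u‖ ≤ S) (‖u‖ ^ (-(((k + 3 : ℕ) : ℝ) - 2))) +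
        ENNReal.ofReal (S / (b ^ (96 * k) * b ^ 400)) * onSet (‖u‖ ≤ S) (‖u‖ ^ (-(0 : ℝ)))) := by
  by_cases h1 : ‖u‖ ≤ S
  · by_cases h2 : 1 ≤ ‖u‖
    · have e1 : ∀ a : ℝ, onSet (‖u‖ ≤ S) a = ENNReal.ofReal a := by
        intro a
        unfold onSet
        rw [if_pos h1]
      have e2 : onSet (1 ≤ ‖u‖) K = ENNReal.ofReal K := by
        unfold onSet
        rw [if_pos h2]
      have hs : 0 < ‖u‖ := by linarith
      have hb0 : 0 < b := by linarith
      have hS : 0 ≤ S := by linarith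
      rw [e1, e1, e1, e2, mul_comm]
      apply mul_le_mul_right
      rw [← ENNReal.ofReal_mul (by positivity), ← ENNReal.ofReal_mul (by positivity),
        ← ENNReal.ofReal_add (by positivity) (by positivity)]
      apply ENNReal.ofReal_le_ofReal
      unfold phiB
      have e3 : k + 3 - 1 = k + 2 := by omega
      have e4 : k + 3 - 3 = k := by omega
      have e5 : ((k + 3 : ℕ) : ℝ) - 2 = ((k + 1 : ℕ) : ℝ) := by
        push_cast
        ring
      rw [e3, e4, e5, Real.rpow_neg hs.le, Real.rpow_natCast, neg_zero, Real.rpow_zero, mul_add]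
      apply add_le_add
      · apply le_of_eq
        rw [mul_pow, pow_succ ‖u‖ (k + 1)]
        field_simp
      · rw [mul_one, mul_one_div]
        gcongr
    · have e2 : onSet (1 ≤ ‖u‖) K = 0 := by
        unfold onSet
        rw [if_neg h2]
      rw [e2, mul_zero]
      exact bot_le
  · have e2 : onSet (‖u‖ ≤ S) (phiB (k + 3) b ‖u‖) = 0 := by
      unfold onSet
      rw [if_neg h1]
    rw [e2, zero_mul]
    exact bot_le

private theorem vx1_int (k : ℕ) : ∃ Ca Cb : ℝ, 0 < Ca ∧ 0 < Cb ∧ ∀ {b S K : ℝ}, 1 ≤ b → 0 ≤ S →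
    0 ≤ K → ∫⁻ u : Sp (k + 3), onSet (‖u‖ ≤ S) (phiB (k + 3) b ‖u‖) * onSet (1 ≤ ‖u‖) K ≤
      ENNReal.ofReal (K * (1 / (b ^ 100) ^ (k + 2) * (Ca * S ^ 2) +
        S / (b ^ (96 * k) * b ^ 400) * (Cb * S ^ (k + 3)))) := by
  obtain ⟨Ca, hCa, ha⟩ := rad' (k + 3) (((k + 3 : ℕ) : ℝ) - 2)
    (by push_cast; linarith [Nat.cast_nonneg (α := ℝ) k]) (by linarith)
  obtain ⟨Cb, hCb, hb'⟩ := rad' (k + 3) 0 le_rfl (by push_cast; positivity)
  refine ⟨Ca, Cb, hCa, hCb, ?_⟩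
  intro b S K hb hS hK
  have hb0 : 0 < b := by linarith
  refine (lintegral_mono (fun u => vx1_pt k hb u hK)).trans ?_
  rw [lintegral_const_mul' _ _ ENNReal.ofReal_ne_top]
  rw [lintegral_add_left]
  · rw [lintegral_const_mul' _ _ ENNReal.ofReal_ne_top, lintegral_const_mul' _ _ ENNReal.ofReal_ne_top,
      ENNReal.ofReal_mul hK]
    apply mul_le_mul_right
    rw [ENNReal.ofReal_add (by positivity) (by positivity),
      ENNReal.ofReal_mul (p := 1 / (b ^ 100) ^ (k + 2)) (by positivity),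
      ENNReal.ofReal_mul (p := S / (b ^ (96 * k) * b ^ 400)) (by positivity)]
    have ha1 := ha S hS
    have hb1 := hb' S hS
    have e1 : ((k + 3 : ℕ) : ℝ) - (((k + 3 : ℕ) : ℝ) - 2) = 2 := by ring
    rw [e1, Real.rpow_two] at ha1
    rw [sub_zero, Real.rpow_natCast] at hb1
    exact add_le_add (mul_le_mul_right ha1 _) (mul_le_mul_right hb1 _)
  · apply Measurable.const_mul
    apply vx1_meas
    exact measurable_norm.pow_const _

private theorem vx1_pow {b : ℝ} (hb : 1 ≤ b) {N M : ℕ} (h : N + 1 ≤ M) : b ^ N / b ^ M ≤ 1 / b := by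
  have hb0 : 0 < b := by linarith
  rw [div_le_div_iff₀ (by positivity) hb0, one_mul, ← pow_succ]
  exact pow_le_pow_right₀ hb h

theorem boxX1 (hd : 3 ≤ d) (hd5 : d ≤ 5) (hj : Jac m A μ) {R C : ℝ} (hR : 0 ≤ R) (hC : 1 ≤ C) :
    ∃ C' : ℝ, 0 < C' ∧ ∀ b β : ℝ, 1 ≤ b →
    ∫⁻ x : St d in Inv m R, gXb 1 A C β b x ≤ ENNReal.ofReal (C' / b) := by
  obtain ⟨k, rfl⟩ : ∃ k, d = k + 3 := ⟨d - 3, by omega⟩
  obtain ⟨C1, hC1, H⟩ := xmaster hd hd5 hj hR hC
  obtain ⟨C3, hC3, H3⟩ := k3_ball (d := k + 3) hd (hj.pos 2)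
  obtain ⟨Ca, Cb, hCa, hCb, HI⟩ := vx1_int k
  have hC0 : 0 < C := by linarith
  refine ⟨C1 * C3 * C ^ (k + 2) * C ^ (k + 2) * Ca * C ^ 2 +
    C1 * C3 * C ^ (k + 2) * C ^ (k + 2) * C * Cb * C ^ (k + 3), by positivity, ?_⟩
  intro b β hb
  have hb0 : 0 < b := by linarith
  have hK : 0 ≤ C3 * (C * b ^ 100) ^ (k + 2) * C ^ (k + 2) := by positivity
  have key := H b (gXb 1 A C β b)
    (fun u z => onSet (1 ≤ ‖u‖ ∧ ‖z.1‖ ≤ C ∧ ‖z.2‖ ≤ C * b ^ 100) 1)
    (fun u => onSet (1 ≤ ‖u‖) (C3 * (C * b ^ 100) ^ (k + 2) * C ^ (k + 2))) hb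
    (by
      intro u z
      unfold onSet
      split_ifs
      · exact ENNReal.ofReal_ne_top
      · exact ENNReal.zero_ne_top)
    (by
      intro u T
      by_cases h1 : 1 ≤ ‖u‖
      · have e1 : onSet (1 ≤ ‖u‖) (C3 * (C * b ^ 100) ^ (k + 2) * C ^ (k + 2)) =
            ENNReal.ofReal (C3 * (C * b ^ 100) ^ (k + 2) * C ^ (k + 2)) := by
          unfold onSet
          rw [if_pos h1]
        rw [e1]
        have h3 := H3 T 0 (C * b ^ 100) C (by positivity) hC0.le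
        have e2 : k + 3 - 1 = k + 2 := by omega
        rw [e2] at h3
        refine le_trans (le_of_eq ?_) h3
        apply lintegral_congr
        intro z
        have e3 : (1 ≤ ‖u‖ ∧ ‖z.1‖ ≤ C ∧ ‖z.2‖ ≤ C * b ^ 100) =
            (‖z.1‖ ≤ C ∧ ‖z.2 + 0‖ ≤ C * b ^ 100) := by
          rw [add_zero]
          apply propext
          constructor
          · exact fun h => h.2
          · exact fun h => ⟨h1, h⟩
        show onSet (1 ≤ ‖u‖ ∧ ‖z.1‖ ≤ C ∧ ‖z.2‖ ≤ C * b ^ 100) 1 * _ = _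
        rw [e3]
      · have e1 : ∀ z : Sp (k + 3) × Sp (k + 3),
            onSet (1 ≤ ‖u‖ ∧ ‖z.1‖ ≤ C ∧ ‖z.2‖ ≤ C * b ^ 100) 1 = 0 := by
          intro z
          unfold onSet
          rw [if_neg (fun h => h1 h.1)]
        simp only [e1, zero_mul, lintegral_zero]
        exact bot_le)
    (by
      intro x
      unfold gXb
      by_cases hx : BoxX A C b x ∧ CondX 1 A C β b x
      · have h2 : 1 ≤ ‖Yc A 1 x.2‖ ∧ ‖Yc A 2 x.1‖ ≤ C := hx.2
        have e1 : onSet (1 ≤ ‖Yc A 1 x.2‖ ∧ ‖Yc A 2 x.1‖ ≤ C ∧ ‖Yc A 2 x.2‖ ≤ C * b ^ 100) 1 = 1 := by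
          unfold onSet
          rw [if_pos ⟨h2.1, h2.2, hx.1.2.2.2.2.2.1⟩, ENNReal.ofReal_one]
        show _ ≤ onSet (BoxX A C b x) _ *
          onSet (1 ≤ ‖Yc A 1 x.2‖ ∧ ‖Yc A 2 x.1‖ ≤ C ∧ ‖Yc A 2 x.2‖ ≤ C * b ^ 100) 1
        rw [e1, mul_one]
        unfold onSet
        rw [if_pos hx, if_pos hx.1]
      · unfold onSet
        rw [if_neg hx]
        exact bot_le)
  refine key.trans ?_
  refine (mul_le_mul_right (HI hb (by positivity) hK) _).trans ?_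
  rw [← ENNReal.ofReal_mul (by positivity)]
  apply ENNReal.ofReal_le_ofReal
  have hk2 : k ≤ 2 := by omega
  have q1 := vx1_pow hb (N := 200) (M := 100 * (k + 3)) (by omega)
  have q2 := vx1_pow hb (N := 200 * k + 600) (M := 196 * k + 700) (by omega)
  have c1 : 0 ≤ C1 * C3 * C ^ (k + 2) * C ^ (k + 2) * Ca * C ^ 2 := by positivity
  have c2 : 0 ≤ C1 * C3 * C ^ (k + 2) * C ^ (k + 2) * C * Cb * C ^ (k + 3) := by positivity
  calc C1 / b ^ (100 * (k + 3)) * (C3 * (C * b ^ 100) ^ (k + 2) * C ^ (k + 2) *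
      (1 / (b ^ 100) ^ (k + 2) * (Ca * (C * b ^ 100) ^ 2) +
        C * b ^ 100 / (b ^ (96 * k) * b ^ 400) * (Cb * (C * b ^ 100) ^ (k + 3)))) =
      (C1 * C3 * C ^ (k + 2) * C ^ (k + 2) * Ca * C ^ 2) * (b ^ 200 / b ^ (100 * (k + 3))) +
      (C1 * C3 * C ^ (k + 2) * C ^ (k + 2) * C * Cb * C ^ (k + 3)) *
        (b ^ (200 * k + 600) / b ^ (196 * k + 700)) := by
        have r1 : (C * b ^ 100) ^ (k + 2) = C ^ (k + 2) * (b ^ 100) ^ (k + 2) := mul_pow _ _ _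
        have r2 : (C * b ^ 100) ^ (k + 3) = C ^ (k + 3) * (b ^ 100) ^ (k + 3) := mul_pow _ _ _
        have r3 : b ^ (200 * k + 600) = (b ^ 100) ^ (k + 2) * b ^ 100 * (b ^ 100) ^ (k + 3) := by
          rw [← pow_mul, ← pow_mul, ← pow_add, ← pow_add]
          apply congrArg (fun n => b ^ n)
          ring
        have r4 : b ^ (196 * k + 700) = b ^ (100 * (k + 3)) * (b ^ (96 * k) * b ^ 400) := by
          rw [← pow_add, ← pow_add]
          apply congrArg (fun n => b ^ n)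
          ring
        have r5 : b ^ 200 = (b ^ 100) ^ 2 := by rw [← pow_mul]
        rw [r1, r2, r3, r4, r5]
        have n1 : (b ^ 100) ^ (k + 2) ≠ 0 := by positivity
        have n2 : b ^ (100 * (k + 3)) ≠ 0 := by positivity
        have n3 : b ^ (96 * k) ≠ 0 := by positivity
        have n4 : b ^ 400 ≠ 0 := by positivity
        generalize (b ^ 100) ^ (k + 2) = P1 at *
        generalize b ^ (100 * (k + 3)) = P2 at *
        generalize b ^ (96 * k) = P3 at *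
        generalize b ^ 400 = P4 at *
        generalize (b ^ 100) ^ (k + 3) = P5 at *
        generalize b ^ 100 = P6 at *
        field_simp
    _ ≤ (C1 * C3 * C ^ (k + 2) * C ^ (k + 2) * Ca * C ^ 2) * (1 / b) +
      (C1 * C3 * C ^ (k + 2) * C ^ (k + 2) * C * Cb * C ^ (k + 3)) * (1 / b) :=
        add_le_add (mul_le_mul_of_nonneg_left q1 c1) (mul_le_mul_of_nonneg_left q2 c2)
    _ = _ := by ring

end NB5
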