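import Pool.Agent.NB5.VXM
import Pool.Agent.NB5.VK3

/-!
# NB5-VX3: exit integrals, condition 3

PLAN. `xmaster` with `Z = C b^100 (b^96/‖u‖ + 1/b^3)`,
`c u z = onSet (1 ≤ ‖u‖ ∧ ‖z.1‖ ≤ C b^100 ∧ ‖z.2‖ ≤ C b^100 ∧ jw z.1 (z.2 + β • u) ≤ Z) 1`,
`k3 u = onSet (1 ≤ ‖u‖) (C3 (C b^100) Z^(d-2) (C b^100))` (`k3_jw` with `c = β • u`). For
`s = ‖u‖ ∈ [1, C b^100]`, `phiB = s^(2-d) b^(-100(d-1)) + s b^(-96(d-3)-400)`,
`Z^(d-2) ≤ C b^(100(d-2)) (b^(96(d-2)) s^(-(d-2)) + b^(-3(d-2)))`. The powers of `b` in front: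
`-100 d + 200 + 100(d-2) = 0`. Four terms: (1) `b^(-100(d-1) + 96(d-2)) ∫ s^(4-2d)`,
`s^(4-2d) ≤ s^(-(d-1))` (`s ≥ 1, d ≥ 3`), `∫ ≤ C b^100`: total `8 - 4 d ≤ -4`;
(2) `b^(-100(d-1) - 3(d-2)) ∫ s^(2-d)`, `∫ ≤ C b^200`: `306 - 103 d ≤ -3`;
(3) `b^(-96(d-3) - 400 + 96(d-2)) ∫ s^(3-d)`, `∫ ≤ C b^300`: `-4`;
(4) `b^(-96(d-3) - 400 - 3(d-2)) ∫ s`, `∫ ≤ C b^(100(d+1))`: `d - 6 ≤ -1` (here `d ≤ 5`).
(`rad'`; `interval_cases d`.)
The hypothesis of `xmaster` on `g = gXb 3 A C β b` is the definition of `gXb`, `BoxX`, `CondX`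
(a product of indicators).
-/

open MeasureTheory Set Filter Topology Metric
open scoped NNReal ENNReal RealInnerProductSpace

namespace NB5

open HDN

variable {d : ℕ} {m : Fin 5 → ℝ} {A : Fin 4 → Fin 5 → ℝ} {μ : Fin 4 → ℝ}

private theorem vx3_ne (p : Prop) (f : ℝ) : onSet p f ≠ ⊤ := by
  unfold onSet
  split_ifs
  · exact ENNReal.ofReal_ne_top
  · exact ENNReal.zero_ne_top

private theorem vx3_mul (p q : Prop) (f : ℝ) : onSet (p ∧ q) f = onSet p f * onSet q 1 := by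
  unfold onSet
  by_cases hp : p
  · by_cases hq : q
    · rw [if_pos ⟨hp, hq⟩, if_pos hp, if_pos hq, ENNReal.ofReal_one, mul_one]
    · rw [if_neg (fun h => hq h.2), if_neg hq, mul_zero]
  · rw [if_neg (fun h => hp h.1), if_neg hp, zero_mul]

/-- one radial integral -/
private theorem vx3_rad1 (d p : ℕ) (hp : p < d) {C : ℝ} (hC : 1 ≤ C) : ∃ K : ℝ, 0 < K ∧
    ∀ b α : ℝ, 1 ≤ b → 0 ≤ α →
    ∫⁻ u : Sp d, onSet (‖u‖ ≤ C * b ^ 100) (α / ‖u‖ ^ p) ≤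
      ENNReal.ofReal (K * (α * b ^ (100 * (d - p)))) := by
  obtain ⟨K, hK, h⟩ := rad' d p (Nat.cast_nonneg p) (by exact_mod_cast hp)
  refine ⟨K * C ^ (d - p), by positivity, fun b α hb hα => ?_⟩
  have h1 : ∀ u : Sp d, onSet (‖u‖ ≤ C * b ^ 100) (α / ‖u‖ ^ p) =
      ENNReal.ofReal α * onSet (‖u‖ ≤ C * b ^ 100) (‖u‖ ^ (-(p : ℝ))) := by
    intro u
    unfold onSet
    split_ifs
    · rw [← ENNReal.ofReal_mul hα, Real.rpow_neg (norm_nonneg _), Real.rpow_natCast,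
        div_eq_mul_inv]
    · rw [mul_zero]
  simp only [h1]
  rw [lintegral_const_mul' _ _ ENNReal.ofReal_ne_top]
  calc ENNReal.ofReal α * ∫⁻ u : Sp d, onSet (‖u‖ ≤ C * b ^ 100) (‖u‖ ^ (-(p : ℝ)))
      ≤ ENNReal.ofReal α * ENNReal.ofReal (K * (C * b ^ 100) ^ ((d : ℝ) - p)) :=
        mul_le_mul_right (h _ (by positivity)) _
    _ = ENNReal.ofReal (K * C ^ (d - p) * (α * b ^ (100 * (d - p)))) := by
        rw [← ENNReal.ofReal_mul hα]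
        congr 1
        have h2 : (d : ℝ) - p = ((d - p : ℕ) : ℝ) := by
          rw [Nat.cast_sub hp.le]
        rw [h2, Real.rpow_natCast, mul_pow, ← pow_mul]
        ring

private theorem vx3_meas (d p : ℕ) (r α : ℝ) :
    Measurable fun u : Sp d => onSet (‖u‖ ≤ r) (α / ‖u‖ ^ p) := by
  classical
  have h1 : Measurable fun u : Sp d =>
      if ‖u‖ ≤ r then ENNReal.ofReal (α / ‖u‖ ^ p) else (0 : ℝ≥0∞) := by
    refine Measurable.ite (measurableSet_le measurable_norm measurable_const) ?_ measurable_const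
    exact (measurable_const.div (measurable_norm.pow_const p)).ennreal_ofReal
  convert h1 using 1
  funext u
  unfold onSet
  congr

/-- four radial integrals -/
private theorem vx3_rad (hd : 3 ≤ d) {C : ℝ} (hC : 1 ≤ C) : ∃ K : ℝ, 0 < K ∧
    ∀ (b α1 α2 α3 α4 B : ℝ) (g : Sp d → ℝ≥0∞), 1 ≤ b → 0 ≤ α1 → 0 ≤ α2 → 0 ≤ α3 →
    0 ≤ α4 → (∀ u : Sp d, g u ≤ onSet (‖u‖ ≤ C * b ^ 100)
      (α1 / ‖u‖ ^ (d - 2) + α2 / ‖u‖ ^ (d - 1) + α3 / ‖u‖ ^ 0 + α4 / ‖u‖ ^ (d - 3))) →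
    α1 * b ^ 200 ≤ B → α2 * b ^ 100 ≤ B → α3 * b ^ (100 * d) ≤ B → α4 * b ^ 300 ≤ B →
    ∫⁻ u : Sp d, g u ≤ ENNReal.ofReal (K * B) := by
  obtain ⟨K1, hK1, h1⟩ := vx3_rad1 d (d - 2) (by omega) hC
  obtain ⟨K2, hK2, h2⟩ := vx3_rad1 d (d - 1) (by omega) hC
  obtain ⟨K3, hK3, h3⟩ := vx3_rad1 d 0 (by omega) hC
  obtain ⟨K4, hK4, h4⟩ := vx3_rad1 d (d - 3) (by omega) hC
  refine ⟨K1 + K2 + K3 + K4, by positivity, ?_⟩
  intro b α1 α2 α3 α4 B g hb a1 a2 a3 a4 hg e1 e2 e3 e4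
  have hB : 0 ≤ B := le_trans (by positivity) e1
  have t1 := h1 b α1 hb a1
  have t2 := h2 b α2 hb a2
  have t3 := h3 b α3 hb a3
  have t4 := h4 b α4 hb a4
  rw [show 100 * (d - (d - 2)) = 200 by omega] at t1
  rw [show 100 * (d - (d - 1)) = 100 by omega] at t2
  rw [show 100 * (d - 0) = 100 * d by omega] at t3
  rw [show 100 * (d - (d - 3)) = 300 by omega] at t4
  have t1' := t1.trans (ENNReal.ofReal_le_ofReal (mul_le_mul_of_nonneg_left e1 hK1.le))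
  have t2' := t2.trans (ENNReal.ofReal_le_ofReal (mul_le_mul_of_nonneg_left e2 hK2.le))
  have t3' := t3.trans (ENNReal.ofReal_le_ofReal (mul_le_mul_of_nonneg_left e3 hK3.le))
  have t4' := t4.trans (ENNReal.ofReal_le_ofReal (mul_le_mul_of_nonneg_left e4 hK4.le))
  have hs : ∀ u : Sp d, onSet (‖u‖ ≤ C * b ^ 100)
      (α1 / ‖u‖ ^ (d - 2) + α2 / ‖u‖ ^ (d - 1) + α3 / ‖u‖ ^ 0 + α4 / ‖u‖ ^ (d - 3)) ≤
      ((onSet (‖u‖ ≤ C * b ^ 100) (α1 / ‖u‖ ^ (d - 2)) +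
        onSet (‖u‖ ≤ C * b ^ 100) (α2 / ‖u‖ ^ (d - 1))) +
        onSet (‖u‖ ≤ C * b ^ 100) (α3 / ‖u‖ ^ 0)) +
        onSet (‖u‖ ≤ C * b ^ 100) (α4 / ‖u‖ ^ (d - 3)) := by
    intro u
    unfold onSet
    split_ifs
    · rw [← ENNReal.ofReal_add (by positivity) (by positivity),
        ← ENNReal.ofReal_add (by positivity) (by positivity),
        ← ENNReal.ofReal_add (by positivity) (by positivity)]
    · exact bot_le
  calc ∫⁻ u : Sp d, g u ≤ ∫⁻ u : Sp d, (((onSet (‖u‖ ≤ C * b ^ 100) (α1 / ‖u‖ ^ (d - 2)) +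
        onSet (‖u‖ ≤ C * b ^ 100) (α2 / ‖u‖ ^ (d - 1))) +
        onSet (‖u‖ ≤ C * b ^ 100) (α3 / ‖u‖ ^ 0)) +
        onSet (‖u‖ ≤ C * b ^ 100) (α4 / ‖u‖ ^ (d - 3))) :=
        lintegral_mono fun u => (hg u).trans (hs u)
    _ = ((∫⁻ u : Sp d, onSet (‖u‖ ≤ C * b ^ 100) (α1 / ‖u‖ ^ (d - 2))) +
        (∫⁻ u : Sp d, onSet (‖u‖ ≤ C * b ^ 100) (α2 / ‖u‖ ^ (d - 1))) +
        (∫⁻ u : Sp d, onSet (‖u‖ ≤ C * b ^ 100) (α3 / ‖u‖ ^ 0))) +
        (∫⁻ u : Sp d, onSet (‖u‖ ≤ C * b ^ 100) (α4 / ‖u‖ ^ (d - 3))) := by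
        rw [lintegral_add_right _ (vx3_meas d (d - 3) _ _), lintegral_add_right _ (vx3_meas d 0 _ _),
          lintegral_add_right _ (vx3_meas d (d - 1) _ _)]
    _ ≤ ((ENNReal.ofReal (K1 * B) + ENNReal.ofReal (K2 * B)) + ENNReal.ofReal (K3 * B)) +
        ENNReal.ofReal (K4 * B) := add_le_add (add_le_add (add_le_add t1' t2') t3') t4'
    _ = ENNReal.ofReal ((K1 + K2 + K3 + K4) * B) := by
        rw [← ENNReal.ofReal_add (by positivity) (by positivity),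
          ← ENNReal.ofReal_add (by positivity) (by positivity),
          ← ENNReal.ofReal_add (by positivity) (by positivity)]
        congr 1
        ring

/-- the algebra of the four terms -/
private theorem vx3_alg (n : ℕ) (hn : 1 ≤ n) (b s C E : ℝ) (hb : 1 ≤ b) (hs : 1 ≤ s) (hC : 1 ≤ C)
    (hsC : s ≤ C * b ^ 100) (hE0 : 0 < E) (h1 : b ^ (301 + 100 * n) ≤ E * b ^ (3 * n))
    (h2 : b ^ (200 + 196 * n) * b ≤ E * b ^ (100 * (n - 1))) :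
    (s * (1 / (b ^ 100 * s) ^ (n + 1) + 1 / E)) *
      (b ^ 200 * ((b ^ 100) ^ n * (b ^ 96 / s + 1 / b ^ 3) ^ n)) ≤
      2 ^ (n - 1) * (b ^ 97 / s ^ n + b ^ (96 * n + 100) / s ^ (n + 1) + C / b +
        (b ^ (100 * (n - 1)) / b) / s ^ (n - 1)) := by
  have hb0 : 0 < b := by linarith
  have hs0 : 0 < s := by linarith
  have e0 : (b ^ 96 / s + 1 / b ^ 3) ^ n ≤ 2 ^ (n - 1) * ((b ^ 96 / s) ^ n + (1 / b ^ 3) ^ n) :=
    add_pow_le (by positivity) (by positivity) n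
  have hsn : s ^ n = s ^ (n - 1) * s := by
    rw [← pow_succ]
    congr 1
    omega
  have f1 : s * (1 / (b ^ 100 * s) ^ (n + 1)) * (b ^ 200 * ((b ^ 100) ^ n * (b ^ 96 / s) ^ n)) ≤
      b ^ (96 * n + 100) / s ^ (n + 1) := by
    have g1 : s * (1 / (b ^ 100 * s) ^ (n + 1)) * (b ^ 200 * ((b ^ 100) ^ n * (b ^ 96 / s) ^ n)) =
        b ^ (96 * n + 100) / s ^ (n + 1) * (1 / s ^ (n - 1)) := by
      have e1 : b ^ (96 * n + 100) = (b ^ 96) ^ n * b ^ 100 := by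
        rw [← pow_mul, ← pow_add]
      have e2 : b ^ 200 = b ^ 100 * b ^ 100 := by
        rw [← pow_add]
      rw [mul_pow, div_pow, e1, pow_succ, pow_succ s n, e2]
      nth_rw 2 [hsn]
      field_simp
    rw [g1]
    have g2 : 1 / s ^ (n - 1) ≤ 1 := by
      rw [div_le_one (by positivity)]
      exact one_le_pow₀ hs
    calc b ^ (96 * n + 100) / s ^ (n + 1) * (1 / s ^ (n - 1)) ≤
          b ^ (96 * n + 100) / s ^ (n + 1) * 1 := mul_le_mul_of_nonneg_left g2 (by positivity)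
      _ = _ := mul_one _
  have f2 : s * (1 / (b ^ 100 * s) ^ (n + 1)) * (b ^ 200 * ((b ^ 100) ^ n * (1 / b ^ 3) ^ n)) ≤
      b ^ 97 / s ^ n := by
    have g1 : s * (1 / (b ^ 100 * s) ^ (n + 1)) * (b ^ 200 * ((b ^ 100) ^ n * (1 / b ^ 3) ^ n)) =
        b ^ 100 / (b ^ (3 * n) * s ^ n) := by
      have e2 : b ^ 200 = b ^ 100 * b ^ 100 := by
        rw [← pow_add]
      rw [mul_pow, one_div_pow, pow_mul b 3 n, pow_succ, pow_succ s n, e2]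
      field_simp
    rw [g1, div_le_div_iff₀ (by positivity) (by positivity)]
    have g3 : b ^ 100 ≤ b ^ 97 * b ^ (3 * n) := by
      rw [← pow_add]
      exact pow_le_pow_right₀ hb (by omega)
    calc b ^ 100 * s ^ n ≤ (b ^ 97 * b ^ (3 * n)) * s ^ n := by gcongr
      _ = _ := by ring
  have f3 : s * (1 / E) * (b ^ 200 * ((b ^ 100) ^ n * (1 / b ^ 3) ^ n)) ≤ C / b := by
    have g1 : s * (1 / E) * (b ^ 200 * ((b ^ 100) ^ n * (1 / b ^ 3) ^ n)) =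
        s * b ^ (200 + 100 * n) / (E * b ^ (3 * n)) := by
      have e1 : b ^ (200 + 100 * n) = b ^ 200 * (b ^ 100) ^ n := by
        rw [← pow_mul, ← pow_add]
      rw [one_div_pow, e1, pow_mul b 3 n]
      field_simp
    rw [g1, div_le_div_iff₀ (by positivity) hb0]
    calc s * b ^ (200 + 100 * n) * b ≤ (C * b ^ 100) * b ^ (200 + 100 * n) * b := by gcongr
      _ = C * b ^ (301 + 100 * n) := by ring
      _ ≤ C * (E * b ^ (3 * n)) := by gcongr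
  have f4 : s * (1 / E) * (b ^ 200 * ((b ^ 100) ^ n * (b ^ 96 / s) ^ n)) ≤
      (b ^ (100 * (n - 1)) / b) / s ^ (n - 1) := by
    have g1 : s * (1 / E) * (b ^ 200 * ((b ^ 100) ^ n * (b ^ 96 / s) ^ n)) =
        b ^ (200 + 196 * n) / (E * s ^ (n - 1)) := by
      have g2 : b ^ (200 + 196 * n) = b ^ 200 * ((b ^ 100) ^ n * (b ^ 96) ^ n) := by
        rw [← mul_pow, ← pow_add, ← pow_mul, ← pow_add]
      rw [div_pow, g2, hsn]
      field_simp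
    rw [g1, div_div, div_le_div_iff₀ (by positivity) (by positivity)]
    calc b ^ (200 + 196 * n) * (b * s ^ (n - 1)) = (b ^ (200 + 196 * n) * b) * s ^ (n - 1) := by
          ring
      _ ≤ (E * b ^ (100 * (n - 1))) * s ^ (n - 1) := by gcongr
      _ = b ^ (100 * (n - 1)) * (E * s ^ (n - 1)) := by ring
  have h0 : 0 ≤ s * (1 / (b ^ 100 * s) ^ (n + 1) + 1 / E) := by positivity
  calc (s * (1 / (b ^ 100 * s) ^ (n + 1) + 1 / E)) *
        (b ^ 200 * ((b ^ 100) ^ n * (b ^ 96 / s + 1 / b ^ 3) ^ n))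
      ≤ (s * (1 / (b ^ 100 * s) ^ (n + 1) + 1 / E)) * (b ^ 200 * ((b ^ 100) ^ n *
        (2 ^ (n - 1) * ((b ^ 96 / s) ^ n + (1 / b ^ 3) ^ n)))) := by gcongr
    _ = 2 ^ (n - 1) *
        (s * (1 / (b ^ 100 * s) ^ (n + 1)) * (b ^ 200 * ((b ^ 100) ^ n * (b ^ 96 / s) ^ n)) +
        s * (1 / (b ^ 100 * s) ^ (n + 1)) * (b ^ 200 * ((b ^ 100) ^ n * (1 / b ^ 3) ^ n)) +
        s * (1 / E) * (b ^ 200 * ((b ^ 100) ^ n * (1 / b ^ 3) ^ n)) +
        s * (1 / E) * (b ^ 200 * ((b ^ 100) ^ n * (b ^ 96 / s) ^ n))) := by ring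
    _ ≤ 2 ^ (n - 1) * (b ^ 97 / s ^ n + b ^ (96 * n + 100) / s ^ (n + 1) + C / b +
        (b ^ (100 * (n - 1)) / b) / s ^ (n - 1)) := by
        apply mul_le_mul_of_nonneg_left _ (by positivity)
        linarith [f1, f2, f3, f4]

/-- the pointwise bound -/
private theorem vx3_pt (hd : 3 ≤ d) (hd5 : d ≤ 5) {b s C C3 : ℝ} (hb : 1 ≤ b) (hs : 1 ≤ s)
    (hC : 1 ≤ C) (hC3 : 0 ≤ C3) (hsC : s ≤ C * b ^ 100) :
    phiB d b s * (C3 * (C * b ^ 100) * (C * (b ^ 100 * (b ^ 96 / s + 1 / b ^ 3))) ^ (d - 2) *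
      (C * b ^ 100)) ≤
      (C3 * C ^ d * 2 ^ (d - 3) * b ^ 97) / s ^ (d - 2) +
      (C3 * C ^ d * 2 ^ (d - 3) * b ^ (96 * (d - 2) + 100)) / s ^ (d - 1) +
      (C3 * C ^ d * 2 ^ (d - 3) * (C / b)) / s ^ 0 +
      (C3 * C ^ d * 2 ^ (d - 3) * (b ^ (100 * (d - 3)) / b)) / s ^ (d - 3) := by
  have hb0 : 0 < b := by linarith
  have h1 : b ^ (301 + 100 * (d - 2)) ≤ (b ^ (96 * (d - 3)) * b ^ 400) * b ^ (3 * (d - 2)) := by
    rw [← pow_add, ← pow_add]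
    exact pow_le_pow_right₀ hb (by omega)
  have h2 : b ^ (200 + 196 * (d - 2)) * b ≤
      (b ^ (96 * (d - 3)) * b ^ 400) * b ^ (100 * (d - 2 - 1)) := by
    rw [← pow_add, ← pow_add, ← pow_succ]
    exact pow_le_pow_right₀ hb (by omega)
  have h := vx3_alg (d - 2) (by omega) b s C (b ^ (96 * (d - 3)) * b ^ 400) hb hs hC hsC
    (by positivity) h1 h2
  rw [show d - 2 - 1 = d - 3 by omega, show d - 2 + 1 = d - 1 by omega] at h
  have h3 : 0 ≤ C3 * C ^ d := by positivity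
  have h4 := mul_le_mul_of_nonneg_left h h3
  have hCd : C ^ d = C ^ (d - 2) * C ^ 2 := by
    rw [← pow_add]
    congr 1
    omega
  unfold phiB
  calc s * (1 / (b ^ 100 * s) ^ (d - 1) + 1 / (b ^ (96 * (d - 3)) * b ^ 400)) *
        (C3 * (C * b ^ 100) * (C * (b ^ 100 * (b ^ 96 / s + 1 / b ^ 3))) ^ (d - 2) * (C * b ^ 100))
      = C3 * C ^ d * (s * (1 / (b ^ 100 * s) ^ (d - 1) +
        1 / (b ^ (96 * (d - 3)) * b ^ 400)) *
        (b ^ 200 * ((b ^ 100) ^ (d - 2) * (b ^ 96 / s + 1 / b ^ 3) ^ (d - 2)))) := by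
        rw [mul_pow C, mul_pow (b ^ 100) (b ^ 96 / s + 1 / b ^ 3), hCd]
        ring
    _ ≤ _ := h4
    _ = _ := by
        rw [pow_zero]
        ring

theorem boxX3 (hd : 3 ≤ d) (hd5 : d ≤ 5) (hj : Jac m A μ) {R C : ℝ} (hR : 0 ≤ R) (hC : 1 ≤ C) :
    ∃ C' : ℝ, 0 < C' ∧ ∀ b β : ℝ, 1 ≤ b →
    ∫⁻ x : St d in Inv m R, gXb 3 A C β b x ≤ ENNReal.ofReal (C' / b) := by
  obtain ⟨C3, hC3, h3⟩ := k3_jw (d := d) hd (hj.pos 2)
  obtain ⟨C1, hC1, h1⟩ := xmaster hd hd5 hj hR hC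
  obtain ⟨K, hK, h2⟩ := vx3_rad hd hC
  set Q : ℝ := C3 * C ^ d * 2 ^ (d - 3) with hQ
  have hQ0 : 0 < Q := by positivity
  refine ⟨C1 * (K * (Q * C)), by positivity, ?_⟩
  intro b β hb
  have hb0 : 0 < b := by linarith
  have h4 := h1 b (gXb 3 A C β b) (fun u z => onSet (1 ≤ ‖u‖ ∧ (‖z.1‖ ≤ C * b ^ 100 ∧
    ‖z.2‖ ≤ C * b ^ 100 ∧ jw z.1 (z.2 + β • u) ≤
      C * (b ^ 100 * (b ^ 96 / ‖u‖ + 1 / b ^ 3)))) 1)
    (fun u => onSet (1 ≤ ‖u‖) (C3 * (C * b ^ 100) *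
      (C * (b ^ 100 * (b ^ 96 / ‖u‖ + 1 / b ^ 3))) ^ (d - 2) * (C * b ^ 100))) hb
    (fun u z => vx3_ne _ _) ?_ ?_
  · have hmax : ∀ k : ℕ, k + 1 ≤ 100 * d → b ^ k ≤ b ^ (100 * d) / b := by
      intro k hk
      rw [le_div_iff₀ hb0, ← pow_succ]
      exact pow_le_pow_right₀ hb hk
    have h5 := h2 b (Q * b ^ 97) (Q * b ^ (96 * (d - 2) + 100))
      (Q * (C / b)) (Q * (b ^ (100 * (d - 3)) / b)) (Q * C * (b ^ (100 * d) / b))
      (fun u : Sp d => onSet (‖u‖ ≤ C * b ^ 100) (phiB d b ‖u‖) * onSet (1 ≤ ‖u‖)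
        (C3 * (C * b ^ 100) * (C * (b ^ 100 * (b ^ 96 / ‖u‖ + 1 / b ^ 3))) ^ (d - 2) *
          (C * b ^ 100))) hb
      (by positivity) (by positivity) (by positivity) (by positivity) ?_ ?_ ?_ ?_ ?_
    · refine h4.trans ((mul_le_mul_right h5 _).trans ?_)
      rw [← ENNReal.ofReal_mul (by positivity)]
      apply ENNReal.ofReal_le_ofReal
      apply le_of_eq
      field_simp
    · intro u
      unfold onSet
      by_cases hu : ‖u‖ ≤ C * b ^ 100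
      · rw [if_pos hu, if_pos hu]
        by_cases hu1 : 1 ≤ ‖u‖
        · rw [if_pos hu1, ← ENNReal.ofReal_mul (by unfold phiB; positivity)]
          apply ENNReal.ofReal_le_ofReal
          exact vx3_pt hd hd5 hb hu1 hC hC3.le hu
        · rw [if_neg hu1, mul_zero]
          exact bot_le
      · rw [if_neg hu, if_neg hu, zero_mul]
    · calc Q * b ^ 97 * b ^ 200 = Q * 1 * b ^ 297 := by ring
        _ ≤ Q * C * (b ^ (100 * d) / b) := by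
            have e1 := hmax 297 (by omega)
            gcongr
    · calc Q * b ^ (96 * (d - 2) + 100) * b ^ 100 = Q * 1 * b ^ (96 * (d - 2) + 200) := by
            rw [pow_add, pow_add]
            ring
        _ ≤ Q * C * (b ^ (100 * d) / b) := by
            have e1 := hmax (96 * (d - 2) + 200) (by omega)
            gcongr
    · apply le_of_eq
      ring
    · have e1 : b ^ (100 * d) = b ^ (100 * (d - 3)) * b ^ 300 := by
        rw [← pow_add]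
        congr 1
        omega
      calc Q * (b ^ (100 * (d - 3)) / b) * b ^ 300 = Q * 1 * (b ^ (100 * d) / b) := by
            rw [e1]
            ring
        _ ≤ Q * C * (b ^ (100 * d) / b) := by gcongr
  · intro u T
    by_cases hu : 1 ≤ ‖u‖
    · have h6 := h3 T (β • u) (C * b ^ 100) (C * b ^ 100)
        (C * (b ^ 100 * (b ^ 96 / ‖u‖ + 1 / b ^ 3))) (by positivity) (by positivity)
        (by positivity)
      have h7 : onSet (1 ≤ ‖u‖) (C3 * (C * b ^ 100) *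
          (C * (b ^ 100 * (b ^ 96 / ‖u‖ + 1 / b ^ 3))) ^ (d - 2) * (C * b ^ 100)) =
          ENNReal.ofReal (C3 * (C * b ^ 100) *
          (C * (b ^ 100 * (b ^ 96 / ‖u‖ + 1 / b ^ 3))) ^ (d - 2) * (C * b ^ 100)) := by
        unfold onSet
        rw [if_pos hu]
      rw [h7]
      refine le_trans (le_of_eq ?_) h6
      congr 1
      funext z
      rw [eq_true hu, true_and]
    · have h7 : ∀ z : Sp d × Sp d, onSet (1 ≤ ‖u‖ ∧ (‖z.1‖ ≤ C * b ^ 100 ∧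
          ‖z.2‖ ≤ C * b ^ 100 ∧ jw z.1 (z.2 + β • u) ≤
          C * (b ^ 100 * (b ^ 96 / ‖u‖ + 1 / b ^ 3)))) 1 * ker1 (T + μ 2 • wedge z.1 z.2) = 0 := by
        intro z
        unfold onSet
        rw [if_neg (fun h => hu h.1), zero_mul]
      simp only [h7, lintegral_zero]
      exact bot_le
  · intro x
    rw [← vx3_mul]
    unfold gXb
    by_cases hx : BoxX A C b x ∧ CondX 3 A C β b x
    · have hx2 : 1 ≤ ‖Yc A 1 x.2‖ ∧ jw (Yc A 2 x.1) (Yc A 2 x.2 + β • Yc A 1 x.2) ≤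
          C * (b ^ 100 * (b ^ 96 / ‖Yc A 1 x.2‖ + 1 / b ^ 3)) := hx.2
      have hx1 : ‖Yc A 2 x.1‖ ≤ C * b ^ 100 := hx.1.2.2.2.2.1
      have hx3 : ‖Yc A 2 x.2‖ ≤ C * b ^ 100 := hx.1.2.2.2.2.2.1
      unfold onSet
      rw [if_pos hx, if_pos ⟨hx.1, hx2.1, hx1, hx3, hx2.2⟩]
    · unfold onSet
      rw [if_neg hx]
      exact bot_le

end NB5
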