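import Pool.Agent.NB5.VTX
import Pool.Agent.NB5.VX0
import Pool.Agent.NB5.VX1
import Pool.Agent.NB5.VX2
import Pool.Agent.NB5.VX3
import Pool.Agent.NB5.VMe
import Pool.Agent.NB5.VSum

/-!
# NB5-VAsX: the integral of `gX` at the level `b`

PLAN. `tx` (constant `C1`): for `x ∈ Inv m P.R`:
`gX P b m x ≤ ∑ σ, ∑ (t, i, l) : Tree × Fin 4 × Fin 3, f σ (t, i, l) (rel σ x)`,
`f σ (t, i, l) = gXb i (TA t (m ∘ σ)) C1 (Xb (m ∘ σ) l) b` (the weight is the same because `Yc 1` is `x_2`,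
resp. `w_2`). `rel_sum`, `measurable_gXb`, `boxX0 .. boxX3` (`fin_cases i`), maximum of finitely many
constants (`σ`, `t`, `i`, `l`).
-/

open MeasureTheory Set Filter Topology Metric
open scoped NNReal ENNReal RealInnerProductSpace

namespace NB5

open HDN

theorem asX (P : Par) : ∃ K : ℝ, 1 ≤ K ∧ ∀ {d : ℕ}, 3 ≤ d → d ≤ 5 → ∀ m : Fin 5 → ℝ, Mb P.M m →
    ∃ C : ℝ, 0 < C ∧ ∀ b : ℝ, K ≤ b →
    ∫⁻ x : St d in Inv m P.R, gX P b m x ≤ ENNReal.ofReal (C / b) := by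
  obtain ⟨C1, K, hC1, hK, htx⟩ := tx P
  refine ⟨K, hK, ?_⟩
  intro d hd hd5 m hm
  have hR : 0 ≤ P.R := by linarith [P.hR]
  -- the constants of the boxes
  have hbox : ∀ (σ : Equiv.Perm (Fin 5)) (t : Tree) (i : Fin 4), ∃ C' : ℝ, 0 < C' ∧
      ∀ b β : ℝ, 1 ≤ b → ∫⁻ x : St d in Inv (m ∘ σ) P.R, gXb i (TA t (m ∘ σ)) C1 β b x ≤
        ENNReal.ofReal (C' / b) := by
    intro σ t i
    have hm' := mb_perm hm σ
    have hpos : ∀ i, 0 < (m ∘ σ) i := by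
      intro i
      have h1 := (hm'.2 i).1
      have hM : 0 < P.M := by linarith [P.hM]
      exact lt_of_lt_of_le (by positivity) h1
    have hj := tree_jac (m := m ∘ σ) t hpos
    fin_cases i
    · exact boxX0 hd hd5 hj hR hC1
    · exact boxX1 hd hd5 hj hR hC1
    · exact boxX2 hd hd5 hj hR hC1
    · exact boxX3 hd hd5 hj hR hC1
  choose Cf hCf hInt using hbox
  set B : ℝ := ∑ σ : Equiv.Perm (Fin 5), ∑ t : Tree, ∑ i : Fin 4, Cf σ t i with hB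
  have hCB : ∀ σ t i, Cf σ t i ≤ B := by
    intro σ t i
    have h1 : Cf σ t i ≤ ∑ i : Fin 4, Cf σ t i :=
      Finset.single_le_sum (f := fun i => Cf σ t i) (fun j _ => (hCf σ t j).le) (Finset.mem_univ i)
    have h2 : (∑ i : Fin 4, Cf σ t i) ≤ ∑ t : Tree, ∑ i : Fin 4, Cf σ t i :=
      Finset.single_le_sum (f := fun t => ∑ i : Fin 4, Cf σ t i)
        (fun j _ => Finset.sum_nonneg fun k _ => (hCf σ j k).le) (Finset.mem_univ t)
    have h3 : (∑ t : Tree, ∑ i : Fin 4, Cf σ t i) ≤ B :=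
      Finset.single_le_sum (f := fun σ => ∑ t : Tree, ∑ i : Fin 4, Cf σ t i)
        (fun j _ => Finset.sum_nonneg fun k _ => Finset.sum_nonneg fun l _ => (hCf j k l).le)
        (Finset.mem_univ σ)
    linarith
  have hB0 : 0 < B := lt_of_lt_of_le (hCf 1 Tree.C 0) (hCB 1 Tree.C 0)
  refine ⟨(120 * Fintype.card (Tree × Fin 4 × Fin 3) : ℕ) * B, ?_, ?_⟩
  · have h1 : 0 < Fintype.card (Tree × Fin 4 × Fin 3) := Fintype.card_pos_iff.mpr ⟨(Tree.C, 0, 0)⟩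
    have h2 : (0 : ℝ) < ((120 * Fintype.card (Tree × Fin 4 × Fin 3) : ℕ) : ℝ) := by
      exact_mod_cast Nat.mul_pos (by norm_num) h1
    positivity
  intro b hb
  have hb1 : 1 ≤ b := hK.trans hb
  have hb0 : 0 < b := by linarith
  have key := rel_sum (d := d) (ι := Tree × Fin 4 × Fin 3) m P.R (gX P b m)
    (fun σ k => gXb k.2.1 (TA k.1 (m ∘ σ)) C1 (Xb (m ∘ σ) k.2.2) b)
    (fun σ k => measurable_gXb _ _ _ _ _) (ENNReal.ofReal (B / b)) ?_ ?_
  · refine key.trans ?_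
    rw [mul_div_assoc, ENNReal.ofReal_mul (by positivity), ENNReal.ofReal_natCast]
  · rintro σ ⟨t, i, l⟩
    refine (hInt σ t i b _ hb1).trans ?_
    apply ENNReal.ofReal_le_ofReal
    exact div_le_div_of_nonneg_right (hCB σ t i) hb0.le
  · intro x hx
    by_cases h : S1 P b m x ∧ 1 / b ^ 96 ≤ ‖x.1 2 - cm m 0 1 x.1‖ ∧
        ‖x.1 2 - cm m 0 1 x.1‖ ≤ 2 / b ^ 96 ∧ ¬ Good P b m x
    · obtain ⟨σ, t, i, l, e1, e2, h5, h6⟩ := htx m b x hm hb hx h.1 h.2.2.1 h.2.2.2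
      have hle : gX P b m x ≤
          gXb i (TA t (m ∘ σ)) C1 (Xb (m ∘ σ) l) b (rel σ x) := by
        have g1 : gX P b m x = ENNReal.ofReal (b ^ 96 * ‖x.2 2 - cm m 0 1 x.2‖ *
            Wt b (x.1 2 - cm m 0 1 x.1) (x.2 2 - cm m 0 1 x.2)) := if_pos h
        have g2 : gXb i (TA t (m ∘ σ)) C1 (Xb (m ∘ σ) l) b (rel σ x) =
            ENNReal.ofReal (b ^ 96 * ‖Yc (TA t (m ∘ σ)) 1 (rel σ x).2‖ *
            Wt b (Yc (TA t (m ∘ σ)) 1 (rel σ x).1) (Yc (TA t (m ∘ σ)) 1 (rel σ x).2)) :=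
          if_pos (And.intro h5 h6)
        rw [g1, g2, e1, e2]
      refine hle.trans ?_
      have h7 := Finset.single_le_sum (s := Finset.univ) (a := ((t, i, l) : Tree × Fin 4 × Fin 3))
        (f := fun k : Tree × Fin 4 × Fin 3 =>
          gXb k.2.1 (TA k.1 (m ∘ σ)) C1 (Xb (m ∘ σ) k.2.2) b (rel σ x))
          (fun _ _ => bot_le) (Finset.mem_univ _)
      have h8 := Finset.single_le_sum (s := Finset.univ) (a := σ)
        (f := fun σ : Equiv.Perm (Fin 5) => ∑ k : Tree × Fin 4 × Fin 3,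
            gXb k.2.1 (TA k.1 (m ∘ σ)) C1 (Xb (m ∘ σ) k.2.2) b (rel σ x))
          (fun _ _ => bot_le) (Finset.mem_univ _)
      exact h7.trans h8
    · have : gX P b m x = 0 := by
        unfold gX onSet
        rw [if_neg h]
      rw [this]
      exact bot_le

end NB5
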