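import Pool.Agent.NB5.VAsP
import Pool.Agent.NB5.VAsD
import Pool.Agent.NB5.VAsX
import Pool.Agent.NB5.VAsB

/-!
# NB5-VFin: the weight is integrable

PLAN. If there is no `P0 : Par` with the given fields there is nothing to prove. Otherwise fix one;
every `P` with the same fields `M, Zp, Kg, R` satisfies `gP P = gP P0`, `gD P = gD P0`, `gX P = gX P0`
(destructure both structures, `subst`; the definitions do not use `k0`). Take `K0` with
`K ≤ lev K0` for the three `K` of `asP P0`, `asD P0`, `asX P0` (`lev_large`). For `P.k0 ≥ K0`: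
`lev (P.k0 + k) = lev P.k0 * lev k ≥ lev K0 ≥ K` and `C/lev (P.k0 + k) ≤ C/lev k` (`lev_add`, `lev_one`).
`∫ G = ∑ σ, ∫ ...` (`lintegral_finset_sum`, `lintegral_add_left`, `lintegral_tsum`; measurability of
`gP, gD, gX, gB` is in `MMeas.lean`, `rel σ` is measurable), each by `rel_map` with masses `m ∘ σ`
(`mb_perm`), `asP`, `asD`, `asX`, `sum_lev`, `asB`. A finite sum of finite quantities is finite
(`ENNReal.sum_ne_top`).
-/

open MeasureTheory Set Filter Topology Metric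
open scoped NNReal ENNReal RealInnerProductSpace

namespace NB5

open HDN

private theorem vfin_s1 {d : ℕ} {P P' : Par} (h1 : P.M = P'.M) (h2 : P.Zp = P'.Zp) {b : ℝ}
    {m : Fin 5 → ℝ} {x : St d} (h : S1 P b m x) : S1 P' b m x := by
  have h3 : P.Cr = P'.Cr := by
    unfold Par.Cr
    rw [h1]
  exact ⟨by rw [← h3]; exact h.r_le, h.F_ge, h.F_le, by rw [← h2]; exact h.x_ge, h.R3, h.hard⟩

private theorem vfin_s3 {d : ℕ} {P P' : Par} (h1 : P.M = P'.M) {b : ℝ}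
    {m : Fin 5 → ℝ} {x : St d} (h : S3 P b m x) : S3 P' b m x := by
  have h3 : P.K3 = P'.K3 := by
    unfold Par.K3 Par.K2
    rw [h1]
  exact ⟨by rw [← h3]; exact h.dT, h.F_ge, h.F_le, h.R3⟩

private theorem vfin_good {d : ℕ} {P P' : Par} (h1 : P.Kg = P'.Kg) {b : ℝ}
    {m : Fin 5 → ℝ} {x : St d} (h : Good P b m x) : Good P' b m x :=
  ⟨by rw [← h1]; exact h.w_ge, h.far3, h.far4, h.far34, by rw [← h1]; exact h.pairs, h.v34, h.j34⟩

private theorem vfin_gP {d : ℕ} {P P' : Par} (h1 : P.M = P'.M) (h2 : P.Zp = P'.Zp) (b : ℝ)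
    (m : Fin 5 → ℝ) (x : St d) : gP P b m x = gP P' b m x := by
  have e1 : S1 P b m x = S1 P' b m x := propext ⟨vfin_s1 h1 h2, vfin_s1 h1.symm h2.symm⟩
  have e2 : S3 P b m x = S3 P' b m x := propext ⟨vfin_s3 h1, vfin_s3 h1.symm⟩
  unfold gP
  rw [e1, e2]

private theorem vfin_gD {d : ℕ} {P P' : Par} (h1 : P.M = P'.M) (b : ℝ)
    (m : Fin 5 → ℝ) (x : St d) : gD P b m x = gD P' b m x := by
  have e2 : S3 P b m x = S3 P' b m x := propext ⟨vfin_s3 h1, vfin_s3 h1.symm⟩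
  unfold gD
  rw [e2]

private theorem vfin_gX {d : ℕ} {P P' : Par} (h1 : P.M = P'.M) (h2 : P.Zp = P'.Zp)
    (h3 : P.Kg = P'.Kg) (b : ℝ) (m : Fin 5 → ℝ) (x : St d) : gX P b m x = gX P' b m x := by
  have e1 : S1 P b m x = S1 P' b m x := propext ⟨vfin_s1 h1 h2, vfin_s1 h1.symm h2.symm⟩
  have e2 : Good P b m x = Good P' b m x := propext ⟨vfin_good h3, vfin_good h3.symm⟩
  unfold gX
  rw [e1, e2]

private theorem vfin_sum {K : ℝ} {k0 K0 : ℕ} (hK : K ≤ lev K0) (hk : K0 ≤ k0)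
    {f : ℝ → ℝ≥0∞} {C : ℝ} (hC : 0 < C) (h : ∀ b : ℝ, K ≤ b → f b ≤ ENNReal.ofReal (C / b)) :
    ∑' k : ℕ, f (lev (k0 + k)) ≠ ⊤ := by
  refine ne_top_of_le_ne_top (sum_lev C) (ENNReal.tsum_le_tsum fun k => ?_)
  have h1 : lev K0 ≤ lev (k0 + k) := by
    obtain ⟨j, hj⟩ := Nat.exists_eq_add_of_le (show K0 ≤ k0 + k by omega)
    rw [hj, lev_add]
    exact le_mul_of_one_le_right (zero_le_one.trans (lev_one K0)) (lev_one j)
  refine (h _ (hK.trans h1)).trans (ENNReal.ofReal_le_ofReal ?_)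
  have h2 : lev k ≤ lev (k0 + k) := by
    rw [lev_add]
    exact le_mul_of_one_le_left (zero_le_one.trans (lev_one k)) (lev_one k0)
  exact div_le_div_of_nonneg_left hC.le (lt_of_lt_of_le one_pos (lev_one k)) h2

theorem G_fin {d : ℕ} (hd : 3 ≤ d) (hd5 : d ≤ 5) (m : Fin 5 → ℝ) (M Zp Kg R : ℝ) :
    ∃ K0 : ℕ, ∀ P : Par, P.M = M → P.Zp = Zp → P.Kg = Kg → P.R = R → K0 ≤ P.k0 → Mb P.M m →
    ∫⁻ x : St d in Inv m P.R, G P m x ≠ ⊤ := by
  by_cases hex : ∃ P0 : Par, P0.M = M ∧ P0.Zp = Zp ∧ P0.Kg = Kg ∧ P0.R = R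
  swap
  · exact ⟨0, fun P h1 h2 h3 h4 => absurd ⟨P, h1, h2, h3, h4⟩ hex⟩
  obtain ⟨P0, g1, g2, g3, g4⟩ := hex
  obtain ⟨K1, -, hP⟩ := asP P0
  obtain ⟨K2, -, hD⟩ := asD P0
  obtain ⟨K3, -, hX⟩ := asX P0
  obtain ⟨K0, hK0⟩ := lev_large (max K1 (max K2 K3))
  refine ⟨K0, fun P h1 h2 h3 h4 hk hm => ?_⟩
  have f1 : P.M = P0.M := h1.trans g1.symm
  have f2 : P.Zp = P0.Zp := h2.trans g2.symm
  have f3 : P.Kg = P0.Kg := h3.trans g3.symm
  have f4 : P.R = P0.R := h4.trans g4.symm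
  have hG : ∫⁻ x : St d in Inv m P.R, G P m x = ∑ σ : Equiv.Perm (Fin 5),
      ((∑' k : ℕ, ((∫⁻ x : St d in Inv (m ∘ σ) P.R, gP P (lev (P.k0 + k)) (m ∘ σ) x) +
        (∫⁻ x : St d in Inv (m ∘ σ) P.R, gD P (lev (P.k0 + k)) (m ∘ σ) x) +
        (∫⁻ x : St d in Inv (m ∘ σ) P.R, gX P (lev (P.k0 + k)) (m ∘ σ) x))) +
      ∑' n : ℕ, ∫⁻ x : St d in Inv (m ∘ σ) P.R, gB n (m ∘ σ) x) := by
    unfold G
    have hmP : ∀ (σ : Equiv.Perm (Fin 5)) (k : ℕ), Measurable fun x : St d =>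
        gP P (lev (P.k0 + k)) (m ∘ σ) (rel σ x) := fun σ k =>
      (measurable_gP P _ _).comp (measurable_rel σ)
    have hmD : ∀ (σ : Equiv.Perm (Fin 5)) (k : ℕ), Measurable fun x : St d =>
        gD P (lev (P.k0 + k)) (m ∘ σ) (rel σ x) := fun σ k =>
      (measurable_gD P _ _).comp (measurable_rel σ)
    have hmX : ∀ (σ : Equiv.Perm (Fin 5)) (k : ℕ), Measurable fun x : St d =>
        gX P (lev (P.k0 + k)) (m ∘ σ) (rel σ x) := fun σ k =>
      (measurable_gX P _ _).comp (measurable_rel σ)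
    have hmB : ∀ (σ : Equiv.Perm (Fin 5)) (n : ℕ), Measurable fun x : St d =>
        gB n (m ∘ σ) (rel σ x) := fun σ n =>
      (measurable_gB n _).comp (measurable_rel σ)
    have hm3 : ∀ (σ : Equiv.Perm (Fin 5)) (k : ℕ), Measurable fun x : St d =>
        gP P (lev (P.k0 + k)) (m ∘ σ) (rel σ x) + gD P (lev (P.k0 + k)) (m ∘ σ) (rel σ x) +
          gX P (lev (P.k0 + k)) (m ∘ σ) (rel σ x) := fun σ k =>
      ((hmP σ k).add (hmD σ k)).add (hmX σ k)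
    have hmT : ∀ σ : Equiv.Perm (Fin 5), Measurable fun x : St d =>
        ∑' k : ℕ, (gP P (lev (P.k0 + k)) (m ∘ σ) (rel σ x) +
          gD P (lev (P.k0 + k)) (m ∘ σ) (rel σ x) + gX P (lev (P.k0 + k)) (m ∘ σ) (rel σ x)) :=
      fun σ => Measurable.tsum (hm3 σ)
    have hmU : ∀ σ : Equiv.Perm (Fin 5), Measurable fun x : St d =>
        ∑' n : ℕ, gB n (m ∘ σ) (rel σ x) := fun σ => Measurable.tsum (hmB σ)
    have hmS : ∀ σ ∈ (Finset.univ : Finset (Equiv.Perm (Fin 5))), Measurable fun x : St d =>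
        (∑' k : ℕ, (gP P (lev (P.k0 + k)) (m ∘ σ) (rel σ x) +
          gD P (lev (P.k0 + k)) (m ∘ σ) (rel σ x) + gX P (lev (P.k0 + k)) (m ∘ σ) (rel σ x))) +
        ∑' n : ℕ, gB n (m ∘ σ) (rel σ x) := fun σ _ => (hmT σ).add (hmU σ)
    rw [lintegral_finsetSum _ hmS]
    refine Finset.sum_congr rfl fun σ _ => ?_
    rw [lintegral_add_left (hmT σ),
      lintegral_tsum fun k => (hm3 σ k).aemeasurable,
      lintegral_tsum fun n => (hmB σ n).aemeasurable]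
    congr 1
    · refine tsum_congr fun k => ?_
      have hm2 : Measurable fun x : St d => gP P (lev (P.k0 + k)) (m ∘ σ) (rel σ x) +
          gD P (lev (P.k0 + k)) (m ∘ σ) (rel σ x) := (hmP σ k).add (hmD σ k)
      rw [lintegral_add_left hm2, lintegral_add_left (hmP σ k),
        rel_map m P.R σ (gP P (lev (P.k0 + k)) (m ∘ σ)),
        rel_map m P.R σ (gD P (lev (P.k0 + k)) (m ∘ σ)),
        rel_map m P.R σ (gX P (lev (P.k0 + k)) (m ∘ σ))]
    · exact tsum_congr fun n => rel_map m P.R σ (gB n (m ∘ σ))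
  rw [hG]
  refine (ENNReal.sum_ne_top).2 fun σ _ => ?_
  have hmσ : Mb P0.M (m ∘ σ) := by
    rw [← f1]
    exact mb_perm hm σ
  refine ENNReal.add_ne_top.2 ⟨?_, asB hd hmσ (zero_le_one.trans P.hR)⟩
  rw [ENNReal.tsum_add, ENNReal.tsum_add]
  refine ENNReal.add_ne_top.2 ⟨ENNReal.add_ne_top.2 ⟨?_, ?_⟩, ?_⟩
  · obtain ⟨C, hC, h⟩ := hP hd (m ∘ σ) hmσ
    have := vfin_sum ((le_max_left _ _).trans hK0) hk hC h
    simp only [vfin_gP f1 f2, f4]
    exact this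
  · obtain ⟨C, hC, h⟩ := hD hd (m ∘ σ) hmσ
    have := vfin_sum (((le_max_left _ _).trans (le_max_right _ _)).trans hK0) hk hC h
    simp only [vfin_gD f1, f4]
    exact this
  · obtain ⟨C, hC, h⟩ := hX hd hd5 (m ∘ σ) hmσ
    have := vfin_sum (((le_max_right _ _).trans (le_max_right _ _)).trans hK0) hk hC h
    simp only [vfin_gX f1 f2 f3, f4]
    exact this

end NB5
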