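import Mathlib
import Pool.Agent.HDN.Final
import Pool.Agent.NB5.Glue
import Pool.Agent.NB5.VFin

/-!
# Almost every solution of the five body problem in `ℝ^d`, `d ≥ 3`, is complete (project NB5)
-/

open MeasureTheory Set Filter Topology Metric
open scoped NNReal ENNReal RealInnerProductSpace

namespace NB5

open HDN

variable {d : ℕ}

theorem five_bodies (hd : 3 ≤ d) {m : Fin 5 → ℝ} (hm : ∀ i, 0 < m i) :
    volume (incomplete m : Set (St d)) = 0 := by
  rcases le_or_gt 6 d with h | h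
  · exact HDN.incomplete_null (by norm_num) hd (by omega) hm
  · refine null_of_fin hd hm fun M hM hMb R hR => ?_
    obtain ⟨K0, hK0⟩ := G_fin (d := d) hd (by omega) m M (10 ^ 9 * M ^ 6) (10 ^ 9 * M ^ 6) R
    exact ⟨⟨M, 10 ^ 9 * M ^ 6, 10 ^ 9 * M ^ 6, R, K0, hM, le_refl _, le_refl _, hR⟩, rfl,
      le_refl _, hK0 _ rfl rfl rfl rfl (le_refl _) hMb⟩

end NB5
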