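import Pool.Agent.NB5.VSt
import Pool.Agent.NB5.VK3

/-!
# NB5-VIP: the integral over a box of type P

PLAN. `smaster` with `a y = onSet (‖y‖ ≤ C/b^200) 1`, `S y = 1 + C/√‖y‖`, `D y = W y = C b^100`,
`β y p = onSet (‖p.1‖ ≤ C/b^77 ∧ ‖p.2‖ ≤ C (b^100 + 1/√‖p.1‖)) (1/√‖y‖ + 1/√‖p.1‖)`,
`c y p z = onSet (‖z.1‖ ≤ C/b^77 ∧ ‖z.2‖ ≤ C b^100) 1`,
`K3 = ofReal (C3 (C b^100)^(d-1) (C/b^77)^(d-1))` (`k3_ball`), `B = C + C²`.
For `0 < ‖y‖ ≤ C/b^200` put `g = ‖y‖`, `s = ‖p.1‖`. `1/√g ≥ b^100/√C`, so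
`1/√g + 1/√s ≤ C (1/√g) (1 + (b^200 s)^(-1/2))`. The `p.2`-integral is
`≤ ω C^d (b^100 + 1/√s)^d ≤ C' b^(100 d) (1 + (b^200 s)^(-d/2))`. So (with `τ = b^200`)
`∫ β dp ≤ C'' b^(100 d)/√g ∫_{s ≤ C/b^77} (1 + (τ s)^(-1/2) + (τ s)^(-d/2) + (τ s)^(-(d+1)/2)) dp.1
 ≤ C''' b^(100 d) b^(-77 d)/√g`: by `rad'` with `p = 0, 1/2, d/2, (d+1)/2 < d` each term is
`≤ C (C/b^77)^d (τ C/b^77)^(-p)` and `τ C/b^77 ≥ 1`.
Outer integral: `S y ≤ 2C/√g`: `∫_{g ≤ C/b^200} g^(-1/2 - (d-2)/2) dy = ∫ g^(-(d-1)/2) ≤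
C (C/b^200)^((d+1)/2) ≤ C' b^(-100(d+1))` (`rad'`, `p = (d-1)/2`), times `D W = C² b^200`.
Total exponent of `b`: `200 - 100(d+1) + 23 d + 23(d-1) = 77 - 54 d`.
-/

open MeasureTheory Set Filter Topology Metric
open scoped NNReal ENNReal RealInnerProductSpace

namespace NB5

open HDN

variable {d : ℕ} {m : Fin 5 → ℝ} {A : Fin 4 → Fin 5 → ℝ} {μ : Fin 4 → ℝ}

private theorem vip_rpow {s : ℝ} (hs : 0 ≤ s) (n : ℕ) :
    s ^ (-((n : ℝ) / 2)) = (1 / √s) ^ n := by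
  rw [Real.sqrt_eq_rpow, one_div, ← Real.rpow_neg hs, ← Real.rpow_natCast, ← Real.rpow_mul hs]
  congr 1
  ring

private theorem vip_rpow' {s : ℝ} (hs : 0 ≤ s) (n : ℕ) : s ^ ((n : ℝ) / 2) = (√s) ^ n := by
  rw [Real.sqrt_eq_rpow, ← Real.rpow_natCast, ← Real.rpow_mul hs]
  congr 1
  ring

private theorem vip_rad1 (hd : 3 ≤ d) : ∃ C : ℝ, 0 < C ∧ ∀ r : ℝ, 0 ≤ r →
    ∫⁻ y : Sp d, onSet (‖y‖ ≤ r) ((1 / √‖y‖) ^ (d + 1)) ≤
      ENNReal.ofReal (C * (√r) ^ (d - 1)) := by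
  have hd3 : (3 : ℝ) ≤ d := by exact_mod_cast hd
  obtain ⟨C, hC, h⟩ := rad' d (((d + 1 : ℕ) : ℝ) / 2) (by positivity)
    (by push_cast; linarith)
  refine ⟨C, hC, fun r hr => ?_⟩
  have h1 := h r hr
  have e : ((d : ℝ) - ((d + 1 : ℕ) : ℝ) / 2) = ((d - 1 : ℕ) : ℝ) / 2 := by
    rw [Nat.cast_sub (by omega)]
    push_cast
    ring
  rw [e, vip_rpow' hr] at h1
  refine le_trans (le_of_eq (lintegral_congr fun y => ?_)) h1
  rw [vip_rpow (norm_nonneg y)]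

private theorem vip_rad2 (hd : 3 ≤ d) : ∃ C : ℝ, 0 < C ∧ ∀ r : ℝ, 0 ≤ r →
    ∫⁻ y : Sp d, onSet (‖y‖ ≤ r) ((1 / √‖y‖) ^ (d - 1)) ≤
      ENNReal.ofReal (C * (√r) ^ (d + 1)) := by
  have hd3 : (3 : ℝ) ≤ d := by exact_mod_cast hd
  have ec : ((d - 1 : ℕ) : ℝ) = (d : ℝ) - 1 := by
    rw [Nat.cast_sub (by omega), Nat.cast_one]
  obtain ⟨C, hC, h⟩ := rad' d (((d - 1 : ℕ) : ℝ) / 2) (by positivity)
    (by rw [ec]; linarith)
  refine ⟨C, hC, fun r hr => ?_⟩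
  have h1 := h r hr
  have e : ((d : ℝ) - ((d - 1 : ℕ) : ℝ) / 2) = ((d + 1 : ℕ) : ℝ) / 2 := by
    rw [ec]
    push_cast
    ring
  rw [e, vip_rpow' hr] at h1
  refine le_trans (le_of_eq (lintegral_congr fun y => ?_)) h1
  rw [vip_rpow (norm_nonneg y)]

/-- bound of the integrand over the second velocity -/
private theorem vip_real {C b g s : ℝ} (hC : 1 ≤ C) (hb : 1 ≤ b) (hg : 0 < g)
    (hg2 : g ≤ C / b ^ 200) (hs : 0 < s) (hs2 : s ≤ C / b ^ 77) (n : ℕ) :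
    (1 / √g + 1 / √s) * (C * (b ^ 100 + 1 / √s)) ^ n ≤
      (2 * C) * (2 * C) ^ n * (b ^ 100) ^ n * (1 / √g) *
        ((√(C / b ^ 77)) ^ (n + 1) * (1 / √s) ^ (n + 1)) := by
  have hb0 : 0 < b := by linarith
  have hC0 : 0 < C := by linarith
  have hρ0 : 0 < C / b ^ 77 := by positivity
  have hsq : 0 < √s := Real.sqrt_pos.2 hs
  have hgq : 0 < √g := Real.sqrt_pos.2 hg
  have hρq : 0 < √(C / b ^ 77) := Real.sqrt_pos.2 hρ0
  set σ : ℝ := √(C / b ^ 77) with hσ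
  set u : ℝ := 1 / √s with hu
  have hu0 : 0 < u := by positivity
  set τ : ℝ := σ * u with hτ
  have hτ0 : 0 < τ := by positivity
  have hτ1 : 1 ≤ τ := by
    have h1 : √s ≤ σ := Real.sqrt_le_sqrt hs2
    rw [hτ, hu, mul_one_div, le_div_iff₀ hsq, one_mul]
    exact h1
  have h1 : 1 ≤ σ * b ^ 100 := by
    have e : σ * b ^ 100 = √(C / b ^ 77 * (b ^ 100) ^ 2) := by
      rw [Real.sqrt_mul hρ0.le, Real.sqrt_sq (by positivity)]
    rw [e, Real.one_le_sqrt]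
    have e2 : C / b ^ 77 * (b ^ 100) ^ 2 = C * b ^ 123 := by
      field_simp
    rw [e2]
    have h3 : 1 ≤ b ^ 123 := one_le_pow₀ hb
    nlinarith
  have hsb : u ≤ τ * b ^ 100 := by
    calc u = u * 1 := by ring
      _ ≤ u * (σ * b ^ 100) := mul_le_mul_of_nonneg_left h1 hu0.le
      _ = τ * b ^ 100 := by rw [hτ]; ring
  have hbg : b ^ 100 ≤ C * (1 / √g) := by
    rw [mul_one_div, le_div_iff₀ hgq]
    have e : b ^ 100 * √g = √((b ^ 100) ^ 2 * g) := by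
      rw [Real.sqrt_mul (by positivity), Real.sqrt_sq (by positivity)]
    rw [e]
    refine Real.sqrt_le_iff.2 ⟨hC0.le, ?_⟩
    rw [le_div_iff₀ (by positivity)] at hg2
    have e3 : (b ^ 100) ^ 2 * g = g * b ^ 200 := by ring
    rw [e3]
    nlinarith
  set w : ℝ := 1 / √g with hw
  have hw0 : 0 < w := by positivity
  have hA : w + u ≤ 2 * C * τ * w := by
    have a1 : u ≤ τ * (C * w) := hsb.trans (mul_le_mul_of_nonneg_left hbg hτ0.le)
    have a2 : 1 ≤ C * τ := by nlinarith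
    have a3 : w ≤ C * τ * w := le_mul_of_one_le_left hw0.le a2
    linarith
  have hB : C * (b ^ 100 + u) ≤ 2 * C * b ^ 100 * τ := by
    have a0 : 0 ≤ b ^ 100 := by positivity
    have a1 : b ^ 100 ≤ τ * b ^ 100 := le_mul_of_one_le_left a0 hτ1
    have a2 : b ^ 100 + u ≤ 2 * (τ * b ^ 100) := by linarith
    calc C * (b ^ 100 + u) ≤ C * (2 * (τ * b ^ 100)) := mul_le_mul_of_nonneg_left a2 hC0.le
      _ = 2 * C * b ^ 100 * τ := by ring
  have hB' : (C * (b ^ 100 + u)) ^ n ≤ (2 * C * b ^ 100 * τ) ^ n :=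
    pow_le_pow_left₀ (by positivity) hB n
  calc (w + u) * (C * (b ^ 100 + u)) ^ n ≤ (2 * C * τ * w) * (2 * C * b ^ 100 * τ) ^ n :=
        mul_le_mul hA hB' (by positivity) (by positivity)
    _ = (2 * C) * (2 * C) ^ n * (b ^ 100) ^ n * w * (σ ^ (n + 1) * u ^ (n + 1)) := by
        rw [hτ, ← mul_pow σ u (n + 1), mul_pow, mul_pow, pow_succ (σ * u)]
        ring

private theorem vip_inner (hd : 3 ≤ d) {C : ℝ} (hC : 1 ≤ C) : ∃ C1 : ℝ, 0 < C1 ∧
    ∀ b : ℝ, 1 ≤ b → ∀ g : ℝ, 0 < g → g ≤ C / b ^ 200 →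
    ∫⁻ p : Sp d × Sp d, onSet (‖p.1‖ ≤ C / b ^ 77 ∧ ‖p.2‖ ≤ C * (b ^ 100 + 1 / √‖p.1‖))
      (1 / √g + 1 / √‖p.1‖) ≤
      ENNReal.ofReal (C1 * (C / b ^ 77) ^ d * (b ^ 100) ^ d * (1 / √g)) := by
  have hC0 : 0 < C := by linarith
  obtain ⟨Cr, hCr, hr⟩ := vip_rad1 hd
  have hω0 : 0 ≤ volume.real (ball (0 : Sp d) 1) := measureReal_nonneg
  set ω : ℝ := volume.real (ball (0 : Sp d) 1) with hω
  refine ⟨Cr * ((ω + 1) * ((2 * C) * (2 * C) ^ d)), by positivity, ?_⟩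
  intro b hb g hg hg2
  have hb0 : 0 < b := by linarith
  have hne : Nonempty (Fin d) := ⟨⟨0, by omega⟩⟩
  have hnt : Nontrivial (Sp d) := inferInstance
  have h0 : ∀ᵐ y : Sp d, y ≠ 0 := compl_mem_ae_iff.2 (measure_singleton (0 : Sp d))
  have hρ0 : 0 < C / b ^ 77 := by positivity
  set E : ℝ := (ω + 1) * ((2 * C) * (2 * C) ^ d * (b ^ 100) ^ d * (1 / √g) *
    (√(C / b ^ 77)) ^ (d + 1)) with hE
  have hE0 : 0 ≤ E := by positivity
  have key : ∀ y : Sp d, y ≠ 0 → ∫⁻ u : Sp d, onSet (‖y‖ ≤ C / b ^ 77 ∧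
      ‖u‖ ≤ C * (b ^ 100 + 1 / √‖y‖)) (1 / √g + 1 / √‖y‖) ≤
      onSet (‖y‖ ≤ C / b ^ 77) ((1 / √‖y‖) ^ (d + 1)) * ENNReal.ofReal E := by
    intro y hy
    have hy0 : 0 < ‖y‖ := norm_pos_iff.2 hy
    by_cases hyr : ‖y‖ ≤ C / b ^ 77
    · have hr0 : 0 ≤ C * (b ^ 100 + 1 / √‖y‖) := by positivity
      have e1 : onSet (‖y‖ ≤ C / b ^ 77) ((1 / √‖y‖) ^ (d + 1)) =
          ENNReal.ofReal ((1 / √‖y‖) ^ (d + 1)) := by
        unfold onSet
        rw [if_pos hyr]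
      rw [e1]
      calc ∫⁻ u : Sp d, onSet (‖y‖ ≤ C / b ^ 77 ∧ ‖u‖ ≤ C * (b ^ 100 + 1 / √‖y‖))
            (1 / √g + 1 / √‖y‖)
          ≤ ∫⁻ u : Sp d, (closedBall (0 : Sp d) (C * (b ^ 100 + 1 / √‖y‖))).indicator
              (fun _ => ENNReal.ofReal (1 / √g + 1 / √‖y‖)) u := by
            apply lintegral_mono
            intro u
            show onSet (‖y‖ ≤ C / b ^ 77 ∧ ‖u‖ ≤ C * (b ^ 100 + 1 / √‖y‖))
              (1 / √g + 1 / √‖y‖) ≤ _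
            by_cases hu : ‖u‖ ≤ C * (b ^ 100 + 1 / √‖y‖)
            · have h2 : u ∈ closedBall (0 : Sp d) (C * (b ^ 100 + 1 / √‖y‖)) := by
                rw [mem_closedBall, dist_zero_right]
                exact hu
              rw [indicator_of_mem h2]
              unfold onSet
              rw [if_pos ⟨hyr, hu⟩]
            · unfold onSet
              rw [if_neg (fun h => hu h.2)]
              exact bot_le
        _ = ENNReal.ofReal (1 / √g + 1 / √‖y‖) *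
              volume (closedBall (0 : Sp d) (C * (b ^ 100 + 1 / √‖y‖))) := by
            rw [lintegral_indicator measurableSet_closedBall, setLIntegral_const]
        _ = ENNReal.ofReal ((1 / √g + 1 / √‖y‖) * ((C * (b ^ 100 + 1 / √‖y‖)) ^ d * ω)) := by
            rw [Measure.addHaar_closedBall _ _ hr0, finrank_euclideanSpace_fin, hω,
              ← ofReal_measureReal, ← ENNReal.ofReal_mul (by positivity),
              ← ENNReal.ofReal_mul (by positivity)]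
        _ ≤ ENNReal.ofReal ((1 / √‖y‖) ^ (d + 1) * E) := by
            apply ENNReal.ofReal_le_ofReal
            have h3 := vip_real hC hb hg hg2 hy0 hyr d
            have h4 : 0 ≤ (1 / √g + 1 / √‖y‖) * (C * (b ^ 100 + 1 / √‖y‖)) ^ d := by positivity
            calc (1 / √g + 1 / √‖y‖) * ((C * (b ^ 100 + 1 / √‖y‖)) ^ d * ω)
                = ((1 / √g + 1 / √‖y‖) * (C * (b ^ 100 + 1 / √‖y‖)) ^ d) * ω := by ring
              _ ≤ ((1 / √g + 1 / √‖y‖) * (C * (b ^ 100 + 1 / √‖y‖)) ^ d) * (ω + 1) :=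
                  mul_le_mul_of_nonneg_left (by linarith) h4
              _ ≤ ((2 * C) * (2 * C) ^ d * (b ^ 100) ^ d * (1 / √g) *
                  ((√(C / b ^ 77)) ^ (d + 1) * (1 / √‖y‖) ^ (d + 1))) * (ω + 1) :=
                  mul_le_mul_of_nonneg_right h3 (by linarith)
              _ = (1 / √‖y‖) ^ (d + 1) * E := by rw [hE]; ring
        _ = ENNReal.ofReal ((1 / √‖y‖) ^ (d + 1)) * ENNReal.ofReal E :=
            ENNReal.ofReal_mul (by positivity)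
    · have h1 : ∀ u : Sp d, onSet (‖y‖ ≤ C / b ^ 77 ∧ ‖u‖ ≤ C * (b ^ 100 + 1 / √‖y‖))
          (1 / √g + 1 / √‖y‖) = 0 := by
        intro u
        unfold onSet
        rw [if_neg (fun h => hyr h.1)]
      simp only [h1, lintegral_zero]
      exact bot_le
  calc ∫⁻ p : Sp d × Sp d, onSet (‖p.1‖ ≤ C / b ^ 77 ∧
        ‖p.2‖ ≤ C * (b ^ 100 + 1 / √‖p.1‖)) (1 / √g + 1 / √‖p.1‖)
      ≤ ∫⁻ y : Sp d, ∫⁻ u : Sp d, onSet (‖y‖ ≤ C / b ^ 77 ∧
          ‖u‖ ≤ C * (b ^ 100 + 1 / √‖y‖)) (1 / √g + 1 / √‖y‖) := lintegral_prod_le _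
    _ ≤ ∫⁻ y : Sp d, onSet (‖y‖ ≤ C / b ^ 77) ((1 / √‖y‖) ^ (d + 1)) * ENNReal.ofReal E :=
        lintegral_mono_ae (h0.mono key)
    _ = (∫⁻ y : Sp d, onSet (‖y‖ ≤ C / b ^ 77) ((1 / √‖y‖) ^ (d + 1))) * ENNReal.ofReal E :=
        lintegral_mul_const' _ _ ENNReal.ofReal_ne_top
    _ ≤ ENNReal.ofReal (Cr * (√(C / b ^ 77)) ^ (d - 1)) * ENNReal.ofReal E :=
        mul_le_mul_left (hr _ hρ0.le) _
    _ = ENNReal.ofReal (Cr * ((ω + 1) * ((2 * C) * (2 * C) ^ d)) * (C / b ^ 77) ^ d *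
          (b ^ 100) ^ d * (1 / √g)) := by
        rw [← ENNReal.ofReal_mul (by positivity)]
        congr 1
        have e2 : (√(C / b ^ 77)) ^ (d - 1) * (√(C / b ^ 77)) ^ (d + 1) = (C / b ^ 77) ^ d := by
          rw [← pow_add, show d - 1 + (d + 1) = 2 * d by omega, pow_mul,
            Real.sq_sqrt hρ0.le]
        rw [← e2, hE]
        ring

private theorem vip_final {C : ℝ} (hC : 1 ≤ C) {b : ℝ} (hb : 1 ≤ b) (n : ℕ) :
    (√(C / b ^ 200)) ^ (n + 3 + 1) * ((C * b ^ 100) ^ 2 * ((C / b ^ 77) ^ (n + 3) *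
      (b ^ 100) ^ (n + 3) * ((C * b ^ 100) ^ (n + 2) * (C / b ^ 77) ^ (n + 2)))) =
    ((√C) ^ (n + 4) * (C ^ 2 * (C ^ (n + 3) * (C ^ (n + 2) * C ^ (n + 2))))) *
      (b ^ 77 / b ^ (54 * (n + 3))) := by
  have hb0 : 0 < b := by linarith
  have hC0 : 0 < C := by linarith
  have e : √(C / b ^ 200) = √C / b ^ 100 := by
    rw [Real.sqrt_div hC0.le]
    congr 1
    rw [show b ^ 200 = (b ^ 100) ^ 2 by ring, Real.sqrt_sq (by positivity)]
  rw [e, div_pow, div_pow, div_pow, mul_pow, mul_pow]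
  have key : ((b ^ 100) ^ 2 * ((b ^ 100) ^ (n + 3) * (b ^ 100) ^ (n + 2))) * b ^ (54 * (n + 3))
      = b ^ 77 * ((b ^ 100) ^ (n + 3 + 1) * ((b ^ 77) ^ (n + 3) * (b ^ 77) ^ (n + 2))) := by
    simp only [← pow_mul, ← pow_add]
    congr 1
    ring
  have h1 : b ^ (54 * (n + 3)) ≠ 0 := by positivity
  have h2 : (b ^ 100) ^ (n + 3 + 1) ≠ 0 := by positivity
  have h3 : (b ^ 77) ^ (n + 3) ≠ 0 := by positivity
  have h4 : (b ^ 77) ^ (n + 2) ≠ 0 := by positivity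
  generalize (b ^ 100) ^ 2 = X1 at *
  generalize (b ^ 100) ^ (n + 3) = X2 at *
  generalize (b ^ 100) ^ (n + 2) = X3 at *
  generalize b ^ (54 * (n + 3)) = X4 at *
  generalize (b ^ 100) ^ (n + 3 + 1) = X5 at *
  generalize (b ^ 77) ^ (n + 3) = X6 at *
  generalize (b ^ 77) ^ (n + 2) = X7 at *
  generalize b ^ 77 = X8 at *
  have e5 : n + 3 + 1 = n + 4 := by ring
  rw [e5]
  field_simp
  linear_combination key

theorem boxP (hd : 3 ≤ d) (hj : Jac m A μ) {R C : ℝ} (hR : 0 ≤ R) (hC : 1 ≤ C) :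
    ∃ C' : ℝ, 0 < C' ∧ ∀ b : ℝ, 1 ≤ b →
    ∫⁻ x : St d in Inv m R, gPb A C b x ≤ ENNReal.ofReal (C' * b ^ 77 / b ^ (54 * d)) := by
  have hC0 : 0 < C := by linarith
  obtain ⟨Cm, hCm, hmas⟩ := smaster (d := d) hd hj hR (show (0 : ℝ) ≤ C + C ^ 2 by positivity)
  obtain ⟨C3, hC3, hk3⟩ := k3_ball hd (hj.pos 2)
  obtain ⟨C1, hC1, hin⟩ := vip_inner hd hC
  obtain ⟨Cr, hCr, hrad⟩ := vip_rad2 hd
  have hne : Nonempty (Fin d) := ⟨⟨0, by omega⟩⟩
  have hnt : Nontrivial (Sp d) := inferInstance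
  have h0 : ∀ᵐ y : Sp d, y ≠ 0 := compl_mem_ae_iff.2 (measure_singleton (0 : Sp d))
  refine ⟨Cm * (Cr * ((2 * C) ^ (d - 2) * C1 * C3)) * ((√C) ^ (d + 1) * (C ^ 2 * (C ^ d *
    (C ^ (d - 1) * C ^ (d - 1))))), by positivity, ?_⟩
  intro b hb
  have hb0 : 0 < b := by linarith
  have hγ0 : 0 < C / b ^ 200 := by positivity
  have hρ0 : 0 < C / b ^ 77 := by positivity
  have hγC : C / b ^ 200 ≤ C := div_le_self hC0.le (one_le_pow₀ hb)
  set Q : ℝ := C3 * (C * b ^ 100) ^ (d - 1) * (C / b ^ 77) ^ (d - 1) with hQ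
  have hQ0 : 0 ≤ Q := by positivity
  have hsC : √C ≤ C := by
    rw [Real.sqrt_le_left hC0.le]
    nlinarith
  have hmain := hmas (gPb A C b) (fun y => onSet (‖y‖ ≤ C / b ^ 200) 1)
    (fun y => 1 + C / √‖y‖) (fun _ => C * b ^ 100) (fun _ => C * b ^ 100)
    (fun y p => onSet (‖p.1‖ ≤ C / b ^ 77 ∧ ‖p.2‖ ≤ C * (b ^ 100 + 1 / √‖p.1‖))
      (1 / √‖y‖ + 1 / √‖p.1‖))
    (fun _ _ z => onSet (‖z.1‖ ≤ C / b ^ 77 ∧ ‖z.2‖ ≤ C * b ^ 100) 1)
    (fun _ _ => ENNReal.ofReal Q)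
    (fun y => by
      unfold onSet
      split_ifs
      · exact ENNReal.ofReal_ne_top
      · exact ENNReal.zero_ne_top)
    (fun y p => by
      unfold onSet
      split_ifs
      · exact ENNReal.ofReal_ne_top
      · exact ENNReal.zero_ne_top)
    (fun y p z => by
      unfold onSet
      split_ifs
      · exact ENNReal.ofReal_ne_top
      · exact ENNReal.zero_ne_top)
    (fun y => by
      have : 0 ≤ C / √‖y‖ := by positivity
      linarith)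
    (fun _ => by positivity) (fun _ => by positivity)
    (fun y hy => by
      have hyγ : ‖y‖ ≤ C / b ^ 200 := by
        by_contra h
        apply hy
        unfold onSet
        rw [if_neg h]
      have e1 : ‖y‖ * (1 + C / √‖y‖) = ‖y‖ + C * √‖y‖ := by
        have e2 : ‖y‖ * (C / √‖y‖) = C * (‖y‖ / √‖y‖) := by ring
        rw [mul_add, mul_one, e2, Real.div_sqrt]
      have h2 : √‖y‖ ≤ C := (Real.sqrt_le_sqrt (hyγ.trans hγC)).trans hsC
      have h3 := mul_le_mul_of_nonneg_left h2 hC0.le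
      have h4 := hyγ.trans hγC
      show ‖y‖ * (1 + C / √‖y‖) ≤ C + C ^ 2
      rw [e1]
      nlinarith)
    (fun y p T => by
      have h1 := hk3 T 0 (C * b ^ 100) (C / b ^ 77) (by positivity) hρ0.le
      simp only [add_zero] at h1
      exact h1)
    (fun x _ => by
      by_cases hx : BoxP A C b x
      · obtain ⟨b1, b2, b3, b4, b5, b6, b7, b8⟩ := hx
        have hu : ‖Yc A 0 x.2‖ ≤ 1 + C / √‖Yc A 0 x.1‖ := by linarith
        unfold gPb onSet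
        rw [if_pos ⟨b1, b2, b3, b4, b5, b6, b7, b8⟩, if_pos b1, if_pos ⟨b3, b4⟩,
          if_pos ⟨b5, b6⟩, if_pos ⟨b7, b8, hu⟩]
        simp only [ENNReal.ofReal_one, one_mul, mul_one, le_refl]
      · unfold gPb
        have : onSet (BoxP A C b x) (1 / √‖Yc A 0 x.1‖ + 1 / √‖Yc A 1 x.1‖) = 0 := by
          unfold onSet
          rw [if_neg hx]
        rw [this]
        exact bot_le)
  refine hmain.trans ?_
  set E : ℝ := (2 * C) ^ (d - 2) * (C * b ^ 100) ^ 2 * (C1 * (C / b ^ 77) ^ d * (b ^ 100) ^ d)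
    * Q with hE
  have hE0 : 0 ≤ E := by positivity
  have key : ∀ y : Sp d, y ≠ 0 → onSet (‖y‖ ≤ C / b ^ 200) 1 *
      ENNReal.ofReal ((1 + C / √‖y‖) ^ (d - 2) * (C * b ^ 100) * (C * b ^ 100)) *
      ∫⁻ p : Sp d × Sp d, onSet (‖p.1‖ ≤ C / b ^ 77 ∧
        ‖p.2‖ ≤ C * (b ^ 100 + 1 / √‖p.1‖)) (1 / √‖y‖ + 1 / √‖p.1‖) * ENNReal.ofReal Q ≤
      onSet (‖y‖ ≤ C / b ^ 200) ((1 / √‖y‖) ^ (d - 1)) * ENNReal.ofReal E := by
    intro y hy
    have hy0 : 0 < ‖y‖ := norm_pos_iff.2 hy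
    by_cases hyr : ‖y‖ ≤ C / b ^ 200
    · have e1 : ∀ f : ℝ, onSet (‖y‖ ≤ C / b ^ 200) f = ENNReal.ofReal f := by
        intro f
        unfold onSet
        rw [if_pos hyr]
      rw [e1, e1, ENNReal.ofReal_one, one_mul, lintegral_mul_const' _ _ ENNReal.ofReal_ne_top]
      have h5 := hin b hb ‖y‖ hy0 hyr
      have hsy : 0 < √‖y‖ := Real.sqrt_pos.2 hy0
      set w : ℝ := 1 / √‖y‖ with hw
      have hw0 : 0 < w := by positivity
      have hCw : 1 ≤ C * w := by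
        rw [hw, mul_one_div, le_div_iff₀ hsy, one_mul]
        exact (Real.sqrt_le_sqrt (hyr.trans hγC)).trans hsC
      have hS : 1 + C / √‖y‖ ≤ 2 * C * w := by
        have e3 : C / √‖y‖ = C * w := by rw [hw]; ring
        rw [e3]
        linarith
      have hSp : (1 + C / √‖y‖) ^ (d - 2) ≤ (2 * C) ^ (d - 2) * w ^ (d - 2) := by
        rw [← mul_pow]
        exact pow_le_pow_left₀ (by positivity) hS _
      calc ENNReal.ofReal ((1 + C / √‖y‖) ^ (d - 2) * (C * b ^ 100) * (C * b ^ 100)) *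
            ((∫⁻ p : Sp d × Sp d, onSet (‖p.1‖ ≤ C / b ^ 77 ∧
              ‖p.2‖ ≤ C * (b ^ 100 + 1 / √‖p.1‖)) (w + 1 / √‖p.1‖)) * ENNReal.ofReal Q)
          ≤ ENNReal.ofReal ((1 + C / √‖y‖) ^ (d - 2) * (C * b ^ 100) * (C * b ^ 100)) *
            (ENNReal.ofReal (C1 * (C / b ^ 77) ^ d * (b ^ 100) ^ d * w) *
              ENNReal.ofReal Q) := by
            gcongr
        _ = ENNReal.ofReal (((1 + C / √‖y‖) ^ (d - 2) * (C * b ^ 100) * (C * b ^ 100)) *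
              ((C1 * (C / b ^ 77) ^ d * (b ^ 100) ^ d * w) * Q)) := by
            rw [← ENNReal.ofReal_mul (by positivity), ← ENNReal.ofReal_mul (by positivity)]
        _ ≤ ENNReal.ofReal (w ^ (d - 1) * E) := by
            apply ENNReal.ofReal_le_ofReal
            have e4 : w ^ (d - 1) = w ^ (d - 2) * w := by
              rw [← pow_succ, show d - 2 + 1 = d - 1 by omega]
            have h6 : 0 ≤ (C * b ^ 100) * (C * b ^ 100) *
              ((C1 * (C / b ^ 77) ^ d * (b ^ 100) ^ d * w) * Q) := by positivity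
            calc ((1 + C / √‖y‖) ^ (d - 2) * (C * b ^ 100) * (C * b ^ 100)) *
                  ((C1 * (C / b ^ 77) ^ d * (b ^ 100) ^ d * w) * Q)
                = (1 + C / √‖y‖) ^ (d - 2) * ((C * b ^ 100) * (C * b ^ 100) *
                  ((C1 * (C / b ^ 77) ^ d * (b ^ 100) ^ d * w) * Q)) := by ring
              _ ≤ ((2 * C) ^ (d - 2) * w ^ (d - 2)) * ((C * b ^ 100) * (C * b ^ 100) *
                  ((C1 * (C / b ^ 77) ^ d * (b ^ 100) ^ d * w) * Q)) :=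
                  mul_le_mul_of_nonneg_right hSp h6
              _ = w ^ (d - 1) * E := by rw [e4, hE]; ring
        _ = ENNReal.ofReal (w ^ (d - 1)) * ENNReal.ofReal E :=
            ENNReal.ofReal_mul (by positivity)
    · have e1 : onSet (‖y‖ ≤ C / b ^ 200) 1 = 0 := by
        unfold onSet
        rw [if_neg hyr]
      rw [e1, zero_mul, zero_mul]
      exact bot_le
  calc ENNReal.ofReal Cm * ∫⁻ y : Sp d, onSet (‖y‖ ≤ C / b ^ 200) 1 *
        ENNReal.ofReal ((1 + C / √‖y‖) ^ (d - 2) * (C * b ^ 100) * (C * b ^ 100)) *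
        ∫⁻ p : Sp d × Sp d, onSet (‖p.1‖ ≤ C / b ^ 77 ∧
          ‖p.2‖ ≤ C * (b ^ 100 + 1 / √‖p.1‖)) (1 / √‖y‖ + 1 / √‖p.1‖) * ENNReal.ofReal Q
      ≤ ENNReal.ofReal Cm * ∫⁻ y : Sp d, onSet (‖y‖ ≤ C / b ^ 200) ((1 / √‖y‖) ^ (d - 1)) *
          ENNReal.ofReal E := by
        refine mul_le_mul_right ?_ _
        exact lintegral_mono_ae (h0.mono key)
    _ = ENNReal.ofReal Cm * ((∫⁻ y : Sp d, onSet (‖y‖ ≤ C / b ^ 200)
          ((1 / √‖y‖) ^ (d - 1))) * ENNReal.ofReal E) := by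
        rw [lintegral_mul_const' _ _ ENNReal.ofReal_ne_top]
    _ ≤ ENNReal.ofReal Cm * (ENNReal.ofReal (Cr * (√(C / b ^ 200)) ^ (d + 1)) *
          ENNReal.ofReal E) := by
        have := hrad _ hγ0.le
        gcongr
    _ = ENNReal.ofReal (Cm * ((Cr * (√(C / b ^ 200)) ^ (d + 1)) * E)) := by
        rw [← ENNReal.ofReal_mul (by positivity), ← ENNReal.ofReal_mul hCm.le]
    _ ≤ _ := by
        apply ENNReal.ofReal_le_ofReal
        apply le_of_eq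
        obtain ⟨n, hn⟩ := Nat.exists_eq_add_of_le hd
        have hn1 : d = n + 3 := by omega
        have hfin := vip_final hC hb n
        have a1 : d - 2 = n + 1 := by omega
        have a2 : d - 1 = n + 2 := by omega
        have a3 : d + 1 = n + 4 := by omega
        rw [hE, hQ, a1, a2, hn1]
        rw [show n + 3 + 1 = n + 4 by ring] at hfin ⊢
        calc Cm * (Cr * √(C / b ^ 200) ^ (n + 4) * ((2 * C) ^ (n + 1) * (C * b ^ 100) ^ 2 *
              (C1 * (C / b ^ 77) ^ (n + 3) * (b ^ 100) ^ (n + 3)) *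
              (C3 * (C * b ^ 100) ^ (n + 2) * (C / b ^ 77) ^ (n + 2))))
            = (Cm * (Cr * ((2 * C) ^ (n + 1) * C1 * C3))) *
              ((√(C / b ^ 200)) ^ (n + 4) * ((C * b ^ 100) ^ 2 * ((C / b ^ 77) ^ (n + 3) *
              (b ^ 100) ^ (n + 3) * ((C * b ^ 100) ^ (n + 2) * (C / b ^ 77) ^ (n + 2))))) := by
              ring
          _ = _ := by
              rw [hfin]
              ring

end NB5
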