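import Pool.Agent.NB5.VS3
import Pool.Agent.NB5.VGeo
import Pool.Agent.NB5.VPos
import Pool.Agent.NB5.VRel

/-!
# NB5-VTS3: states of `S3` are in a box of type A

PLAN. Take `σ₀` of `s3_fct` and `x' = rel σ₀ x`, `m' = m ∘ σ₀`; `rel σ (rel σ₀ x) = rel (σ₀ * σ) x`
(`(q ∘ σ₀) ∘ σ`), the final permutation is `σ₀ * σ`.
First statement: `geoTT` for `x'.1` with `s = max C 1/b^77`-like (`Rg 3 x'.1 = Rg 3 x.1 ≤ 1/b^77` since `Rg`
is invariant under permutations: prove it, or apply `lnk`-type arguments; `C/b^96 ≤ C/b^77`); second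
statement: tree `C`, `σ = 1` or `swap 3 4` (`ycC2`: `Yc 2 = q 3 - cm3`). `Yc 1` is `q 2 - cm m 0 1 q`
(`ycC1_le`) `≤ C/b^96`. Velocities: `yc_kin` for `j = 0, 1` (`kin_relV`), `yc_vel3` for `j ≥ 2`. Positions:
`jpos` with `V = C b^100`, `E = C (1 + 1/√r)`, `r = ‖Y0‖`: `‖Y0‖‖U0‖ ≤ C √r ≤ C`,
`‖Y1‖ ‖U1‖ ≤ C/√r`; `√E ≤ C (1 + 1/√√r)`, so `‖Y3‖ ≤ C (b^100 + 1/√√r)`: this is `D1 + D2/√√‖Y0‖`
with `D1 = C b^100`, `D2 = C`. (`tree_jac`, `tmu_bd`, `inv_relV`.)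
-/

open MeasureTheory Set Filter Topology Metric
open scoped NNReal ENNReal RealInnerProductSpace

namespace NB5

open HDN

private theorem vts3_rg {d : ℕ} {k : ℕ} (hk : 2 ≤ k) (hk5 : k ≤ 5) (σ : Equiv.Perm (Fin 5))
    (q : Cf 5 d) : Rg k (q ∘ σ) ≤ Rg k q := by
  obtain ⟨p, hp, h⟩ := rg_mem hk hk5 (q ∘ σ)
  refine le_rg hk q (p := p ∘ σ.symm) (hp.comp σ.symm.surjective) fun i j hij => ?_
  have h1 := h (σ.symm i) (σ.symm j) hij
  simpa using h1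

private theorem vts3_sqrt {A r : ℝ} (hA : 0 ≤ A) : √(A * (1 + 1 / √r)) ≤ √A * (1 + 1 / √√r) := by
  rw [Real.sqrt_mul hA]
  refine mul_le_mul_of_nonneg_left ?_ (Real.sqrt_nonneg _)
  have h0 : 0 ≤ 1 / √√r := by positivity
  rw [Real.sqrt_le_left (by positivity)]
  have h1 : (1 / √√r) ^ 2 = 1 / √r := by
    rw [div_pow, one_pow, Real.sq_sqrt (Real.sqrt_nonneg _)]
  have h2 : (1 + 1 / √√r) ^ 2 = 1 + 2 * (1 / √√r) + (1 / √√r) ^ 2 := by ring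
  rw [h2, h1]
  linarith

private theorem vts3_box {M R C : ℝ} (hM : 1 ≤ M) (hR : 0 ≤ R) (hC : 1 ≤ C) :
    ∃ C' : ℝ, 9 * C ≤ C' ∧ ∀ {d : ℕ} (m : Fin 5 → ℝ) (b : ℝ) (y : St d) (t : Tree) (s2 : ℝ),
      Mb M m → 1 ≤ b → y ∈ Inv m R → (t = .C ∨ t = .K) →
      (∀ i j : Fin 5, i ≤ 2 → j ≤ 2 → ‖y.1 i - y.1 j‖ ≤ C / b ^ 96) →
      ‖y.1 0 - y.1 1‖ ≤ C / b ^ 200 → √(Kin m y.2) ≤ C / √‖y.1 0 - y.1 1‖ →
      ‖cm3 m 0 1 2 y.2‖ ≤ C * b ^ 100 → ‖y.2 3‖ ≤ C * b ^ 100 → ‖y.2 4‖ ≤ C * b ^ 100 →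
      ‖Yc (TA t m) 2 y.1‖ ≤ s2 →
      BoxA (TA t m) C' (C' / b ^ 200) (C' / b ^ 96) s2 (C' * b ^ 100) (C' * b ^ 100) C' y ∧
      √(Kin m y.2) ≤ C' / √‖Yc (TA t m) 0 y.1‖ := by
  have hM0 : 0 < M := by linarith
  obtain ⟨Cj, hCj, hj⟩ := jpos hR (l := 1 / (2 * M)) (u := 5 * M) (by positivity) (by positivity)
  set C1 : ℝ := 4 * M * C with hC1
  have hC11 : 1 ≤ C1 := by nlinarith
  set A : ℝ := C * C1 with hA
  have hA1 : 1 ≤ A := by nlinarith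
  have hsA : 0 ≤ √A := Real.sqrt_nonneg _
  set C' : ℝ := 9 * C + C1 + Cj * (2 * C + √A) with hC'
  have hCj' : 0 ≤ Cj * (2 * C + √A) := by positivity
  refine ⟨C', by linarith, ?_⟩
  intro d m b y t s2 hm hb hI ht hd h01 hK hc3 h3 h4 hs2
  have hb0 : 0 < b := by linarith
  have hmp : ∀ i, 0 < m i := fun i => lt_of_lt_of_le (by positivity) (hm.2 i).1
  have hfree : Free y.1 := hI.1
  have hin : Iner m y ≤ R * (1 + |Jner m y|) := hI.2.2.2.2.2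
  have e0 : Yc (TA t m) 0 y.1 = y.1 0 - y.1 1 := yc0 t m y.1
  set r : ℝ := ‖y.1 0 - y.1 1‖ with hr
  have hr0 : 0 < r := norm_pos_iff.2 (sub_ne_zero.2 (hfree 0 1 (by decide)))
  have hsr : 0 < √r := Real.sqrt_pos.2 hr0
  have hb96 : 0 < b ^ 96 := by positivity
  have hb100 : 1 ≤ b ^ 100 := one_le_pow₀ hb
  have hb200 : 1 ≤ b ^ 200 := one_le_pow₀ hb
  have hb961 : 1 ≤ b ^ 96 := one_le_pow₀ hb
  have hr1 : r ≤ C := h01.trans (div_le_self (by linarith) hb200)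
  -- velocities
  have hU : ∀ j, ‖Yc (TA t m) j y.2‖ ≤ C1 / √r := by
    intro j
    refine (yc_kin hm t j y.2).trans ?_
    have h1 := mul_le_mul_of_nonneg_left hK (by positivity : (0 : ℝ) ≤ 4 * M)
    refine h1.trans (le_of_eq ?_)
    rw [hC1]
    ring
  have hV : ∀ j : Fin 4, 2 ≤ j → ‖Yc (TA t m) j y.2‖ ≤ 2 * (C * b ^ 100) :=
    fun j hj => yc_vel3 hmp t ht y.2 hc3 h3 h4 j hj
  -- positions
  have hY1 : ‖Yc (TA t m) 1 y.1‖ ≤ C / b ^ 96 := by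
    have h1 := ycC1_le hmp y.1 (hd 0 2 (by decide) (by decide)) (hd 1 2 (by decide) (by decide))
    rcases ht with rfl | rfl
    · exact h1.1
    · exact h1.2
  have hY1' : ‖Yc (TA t m) 1 y.1‖ ≤ C := hY1.trans (div_le_self (by linarith) hb961)
  have hE : 1 ≤ A * (1 + 1 / √r) := by
    have h1 : 0 ≤ 1 / √r := by positivity
    nlinarith
  have hprod : ∀ j, ‖Yc (TA t m) j y.1‖ * ‖Yc (TA t m) j y.2‖ ≤
      A * (1 + 1 / √r) + 2 * (C * b ^ 100) * ‖Yc (TA t m) j y.1‖ := by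
    have h01' : ∀ j, ‖Yc (TA t m) j y.1‖ ≤ C → ‖Yc (TA t m) j y.1‖ * ‖Yc (TA t m) j y.2‖ ≤
        A * (1 + 1 / √r) + 2 * (C * b ^ 100) * ‖Yc (TA t m) j y.1‖ := by
      intro j hj
      have h1 : ‖Yc (TA t m) j y.1‖ * ‖Yc (TA t m) j y.2‖ ≤ C * (C1 / √r) :=
        mul_le_mul hj (hU j) (norm_nonneg _) (by linarith)
      have h2 : C * (C1 / √r) ≤ A * (1 + 1 / √r) := by
        rw [hA]
        have h3 : C * (C1 / √r) = C * C1 * (1 / √r) := by ring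
        rw [h3]
        exact mul_le_mul_of_nonneg_left (by linarith) (by positivity)
      have h3 : 0 ≤ 2 * (C * b ^ 100) * ‖Yc (TA t m) j y.1‖ := by positivity
      linarith
    have h23 : ∀ j : Fin 4, 2 ≤ j → ‖Yc (TA t m) j y.1‖ * ‖Yc (TA t m) j y.2‖ ≤
        A * (1 + 1 / √r) + 2 * (C * b ^ 100) * ‖Yc (TA t m) j y.1‖ := by
      intro j hj
      have h1 := mul_le_mul_of_nonneg_left (hV j hj) (norm_nonneg (Yc (TA t m) j y.1))
      have h2 : 0 ≤ A * (1 + 1 / √r) := by linarith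
      linarith
    intro j
    fin_cases j
    · exact h01' 0 (by rw [e0]; exact hr1)
    · exact h01' 1 hY1'
    · exact h23 2 (by decide)
    · exact h23 3 (by decide)
  have hY3 := hj (tree_jac t hmp) (fun j => tmu_bd hm t j) y hin _ _ hE
    (by positivity : (0 : ℝ) ≤ 2 * (C * b ^ 100)) hprod 3
  have hY3' : ‖Yc (TA t m) 3 y.1‖ ≤ C' * b ^ 100 + C' / √√r := by
    refine hY3.trans ?_
    have h1 := vts3_sqrt (A := A) (r := r) (by linarith)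
    have h2 : Cj * (2 * (C * b ^ 100) + √(A * (1 + 1 / √r))) ≤
        Cj * (2 * (C * b ^ 100) + √A * (1 + 1 / √√r)) :=
      mul_le_mul_of_nonneg_left (by linarith) (by linarith)
    refine h2.trans ?_
    have h3 : Cj * (2 * (C * b ^ 100) + √A * (1 + 1 / √√r)) =
        Cj * (2 * C) * b ^ 100 + Cj * √A * 1 + Cj * √A * (1 / √√r) := by ring
    rw [h3]
    have h4 : Cj * √A * 1 ≤ Cj * √A * b ^ 100 := mul_le_mul_of_nonneg_left hb100 (by positivity)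
    have h5 : Cj * (2 * C) * b ^ 100 + Cj * √A * b ^ 100 = Cj * (2 * C + √A) * b ^ 100 := by ring
    have h6 : Cj * (2 * C + √A) * b ^ 100 ≤ C' * b ^ 100 :=
      mul_le_mul_of_nonneg_right (by linarith) (by positivity)
    have h7 : Cj * √A * (1 / √√r) ≤ C' / √√r := by
      have h8 : Cj * √A ≤ C' := by
        have : 0 ≤ Cj * (2 * C) := by positivity
        nlinarith
      have h9 : C' / √√r = C' * (1 / √√r) := by ring
      rw [h9]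
      exact mul_le_mul_of_nonneg_right h8 (by positivity)
    linarith
  have hCC : C ≤ C' := by linarith
  have hC1C : C1 ≤ C' := by linarith
  have hU' : ∀ j, ‖Yc (TA t m) j y.2‖ ≤ C' / √r := fun j =>
    (hU j).trans (div_le_div_of_nonneg_right hC1C hsr.le)
  have hV' : ∀ j : Fin 4, 2 ≤ j → ‖Yc (TA t m) j y.2‖ ≤ C' * b ^ 100 := by
    intro j hj
    refine (hV j hj).trans ?_
    have h1 : 2 * (C * b ^ 100) = 2 * C * b ^ 100 := by ring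
    rw [h1]
    exact mul_le_mul_of_nonneg_right (by linarith) (by positivity)
  refine ⟨⟨?_, ?_, ?_, ?_, hs2, hV' 2 (by decide), ?_, hV' 3 (by decide)⟩, ?_⟩
  · rw [e0]
    exact h01.trans (div_le_div_of_nonneg_right hCC (by positivity))
  · rw [e0]
    exact hU' 0
  · exact hY1.trans (div_le_div_of_nonneg_right hCC (by positivity))
  · rw [e0]
    exact hU' 1
  · rw [e0]
    exact hY3'
  · rw [e0]
    exact hK.trans (div_le_div_of_nonneg_right hCC hsr.le)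

theorem ts3 (P : Par) : ∃ C K : ℝ, 1 ≤ C ∧ 1 ≤ K ∧
    ∀ {d : ℕ} (m : Fin 5 → ℝ) (b : ℝ) (x : St d), Mb P.M m → K ≤ b → x ∈ Inv m P.R →
    S3 P b m x →
    (Rg 3 x.1 ≤ 1 / b ^ 77 → ∃ (σ : Equiv.Perm (Fin 5)) (t : Tree),
      BoxA (TA t (m ∘ σ)) C (C / b ^ 200) (C / b ^ 96) (C / b ^ 77) (C * b ^ 100) (C * b ^ 100) C
        (rel σ x) ∧
      √(Kin m x.2) ≤ C / √‖Yc (TA t (m ∘ σ)) 0 (rel σ x).1‖) ∧
    (‖x.1 3 - cm3 m 0 1 2 x.1‖ ≤ 1 / b ^ 50 ∨ ‖x.1 4 - cm3 m 0 1 2 x.1‖ ≤ 1 / b ^ 50 →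
      ∃ (σ : Equiv.Perm (Fin 5)) (t : Tree),
      BoxA (TA t (m ∘ σ)) C (C / b ^ 200) (C / b ^ 96) (C / b ^ 50) (C * b ^ 100) (C * b ^ 100) C
        (rel σ x)) := by
  obtain ⟨C, K, hC, hK, hfct⟩ := s3_fct P
  obtain ⟨C', hC', hbox⟩ := vts3_box P.hM (by linarith [P.hR] : (0 : ℝ) ≤ P.R) hC
  refine ⟨C', K, by linarith, hK, ?_⟩
  intro d m b x hm hb hI hS3
  obtain ⟨hv0, hv3, hv4, σ₀, s3, s4, hcm, hdT, h01, hKin⟩ := hfct m b x hm hb hI hS3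
  have hb1 : 1 ≤ b := hK.trans hb
  have hb0 : 0 < b := by linarith
  -- the general step
  have key : ∀ (σ : Equiv.Perm (Fin 5)) (t : Tree) (s2 : ℝ), σ 0 = 0 → σ 1 = 1 → σ 2 = 2 →
      (t = .C ∨ t = .K) → ‖Yc (TA t ((m ∘ σ₀) ∘ σ)) 2 ((rel σ₀ x).1 ∘ σ)‖ ≤ s2 →
      BoxA (TA t (m ∘ ⇑(σ₀ * σ))) C' (C' / b ^ 200) (C' / b ^ 96) s2 (C' * b ^ 100) (C' * b ^ 100) C'
        (rel (σ₀ * σ) x) ∧
      √(Kin m x.2) ≤ C' / √‖Yc (TA t (m ∘ ⇑(σ₀ * σ))) 0 (rel (σ₀ * σ) x).1‖ := by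
    intro σ t s2 t0 t1 t2 ht hs2
    have hm' : Mb P.M (m ∘ ⇑(σ₀ * σ)) := mb_perm hm _
    have hI' : rel (σ₀ * σ) x ∈ Inv (m ∘ ⇑(σ₀ * σ)) P.R := (inv_relV m P.R (σ₀ * σ) x).2 hI
    have hk : Kin (m ∘ ⇑(σ₀ * σ)) (rel (σ₀ * σ) x).2 = Kin m x.2 := kin_relV m (σ₀ * σ) x.2
    have hle : ∀ i : Fin 5, i ≤ 2 → σ i = i := by
      intro i hi
      have h5 : ∀ i : Fin 5, i ≤ 2 → i = 0 ∨ i = 1 ∨ i = 2 := by decide
      rcases h5 i hi with rfl | rfl | rfl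
      · exact t0
      · exact t1
      · exact t2
    have h34 : ∀ i : Fin 5, 3 ≤ i → σ i = 3 ∨ σ i = 4 := by
      intro i hi
      have h5 : ∀ j : Fin 5, j ≤ 2 ∨ j = 3 ∨ j = 4 := by decide
      rcases h5 (σ i) with h | h
      · exfalso
        have h6 := σ.injective (hle (σ i) h)
        have h7 : i ≤ 2 := by rw [← h6]; exact h
        have h8 : ∀ i : Fin 5, 3 ≤ i → ¬ i ≤ 2 := by decide
        exact h8 i hi h7
      · exact h
    have hvel : ∀ i : Fin 5, 3 ≤ i → ‖(rel (σ₀ * σ) x).2 i‖ ≤ C * b ^ 100 := by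
      intro i hi
      have e : (rel (σ₀ * σ) x).2 i = x.2 (σ₀ (σ i)) := rfl
      rw [e]
      rcases h34 i hi with h | h
      · rw [h, s3]
        exact hv3
      · rw [h, s4]
        exact hv4
    have hcm3 : cm3 (m ∘ ⇑(σ₀ * σ)) 0 1 2 (rel (σ₀ * σ) x).2 = cm3 m 0 1 2 x.2 := by
      rw [← hcm x.2]
      unfold cm3
      have e : ∀ i : Fin 5, i ≤ 2 → (m ∘ ⇑(σ₀ * σ)) i = (m ∘ σ₀) i ∧
          (rel (σ₀ * σ) x).2 i = (x.2 ∘ σ₀) i := by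
        intro i hi
        constructor
        · show m (σ₀ (σ i)) = m (σ₀ i)
          rw [hle i hi]
        · show x.2 (σ₀ (σ i)) = x.2 (σ₀ i)
          rw [hle i hi]
      rw [(e 0 (by decide)).1, (e 1 (by decide)).1, (e 2 (by decide)).1, (e 0 (by decide)).2,
        (e 1 (by decide)).2, (e 2 (by decide)).2]
    have hp : ∀ i : Fin 5, i ≤ 2 → (rel (σ₀ * σ) x).1 i = (rel σ₀ x).1 i := by
      intro i hi
      show x.1 (σ₀ (σ i)) = x.1 (σ₀ i)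
      rw [hle i hi]
    have h := hbox (m ∘ ⇑(σ₀ * σ)) b (rel (σ₀ * σ) x) t s2 hm' hb1 hI' ht
      (fun i j hi hj => by rw [hp i hi, hp j hj]; exact hdT i j hi hj)
      (by rw [hp 0 (by decide), hp 1 (by decide)]; exact h01)
      (by rw [hk, hp 0 (by decide), hp 1 (by decide)]; exact hKin)
      (by rw [hcm3]; exact hv0) (hvel 3 (by decide)) (hvel 4 (by decide)) hs2
    rw [hk] at h
    exact h
  constructor
  · intro hR3
    have h77 : 0 < b ^ 77 := by positivity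
    have hpow : C / b ^ 96 ≤ C / b ^ 77 :=
      div_le_div_of_nonneg_left (by linarith) h77 (pow_le_pow_right₀ hb1 (by norm_num))
    have h1 : Rg 3 (rel σ₀ x).1 ≤ C / b ^ 77 := by
      refine (vts3_rg (by norm_num) (by norm_num) σ₀ x.1).trans (hR3.trans ?_)
      exact div_le_div_of_nonneg_right hC h77.le
    obtain ⟨σ, t, t0, t1, t2, ht, hY⟩ := geoTT (m := m ∘ σ₀)
      (fun i => lt_of_lt_of_le (by have := P.hM; positivity) (hm.2 (σ₀ i)).1) h1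
      ((hdT 0 1 (by decide) (by decide)).trans hpow) ((hdT 0 2 (by decide) (by decide)).trans hpow)
    refine ⟨σ₀ * σ, t, key σ t _ t0 t1 t2 ht (hY.trans ?_)⟩
    rw [← mul_div_assoc]
    exact div_le_div_of_nonneg_right hC' h77.le
  · intro h
    have h50 : 0 < b ^ 50 := by positivity
    have hC50 : 1 / b ^ 50 ≤ C' / b ^ 50 := div_le_div_of_nonneg_right (by linarith) h50.le
    have hmp : ∀ i, 0 < (m ∘ σ₀) i := fun i =>
      lt_of_lt_of_le (by have := P.hM; positivity) (hm.2 (σ₀ i)).1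
    rcases h with h | h
    · refine ⟨σ₀ * 1, .C, (key 1 .C _ rfl rfl rfl (Or.inl rfl) ?_).1⟩
      rw [ycC2 (m := (m ∘ σ₀) ∘ (1 : Equiv.Perm (Fin 5))) (fun i => hmp _)]
      have e1 : ((rel σ₀ x).1 ∘ (1 : Equiv.Perm (Fin 5))) 3 = x.1 3 := by
        show x.1 (σ₀ 3) = x.1 3
        rw [s3]
      have e2 : cm3 ((m ∘ σ₀) ∘ (1 : Equiv.Perm (Fin 5))) 0 1 2
          ((rel σ₀ x).1 ∘ (1 : Equiv.Perm (Fin 5))) = cm3 m 0 1 2 x.1 := hcm x.1
      rw [e1, e2]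
      exact h.trans hC50
    · refine ⟨σ₀ * Equiv.swap 3 4, .C,
        (key (Equiv.swap 3 4) .C _ (by decide) (by decide) (by decide) (Or.inl rfl) ?_).1⟩
      rw [ycC2 (m := (m ∘ σ₀) ∘ (Equiv.swap (3 : Fin 5) 4)) (fun i => hmp _)]
      have w0 : (Equiv.swap (3 : Fin 5) 4) 0 = 0 := by decide
      have w1 : (Equiv.swap (3 : Fin 5) 4) 1 = 1 := by decide
      have w2 : (Equiv.swap (3 : Fin 5) 4) 2 = 2 := by decide
      have w3 : (Equiv.swap (3 : Fin 5) 4) 3 = 4 := by decide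
      have e1 : ((rel σ₀ x).1 ∘ (Equiv.swap (3 : Fin 5) 4)) 3 = x.1 4 := by
        show x.1 (σ₀ ((Equiv.swap (3 : Fin 5) 4) 3)) = x.1 4
        rw [w3, s4]
      have e2 : cm3 ((m ∘ σ₀) ∘ (Equiv.swap (3 : Fin 5) 4)) 0 1 2
          ((rel σ₀ x).1 ∘ (Equiv.swap (3 : Fin 5) 4)) = cm3 m 0 1 2 x.1 := by
        rw [← hcm x.1]
        unfold cm3
        simp only [Function.comp_apply, w0, w1, w2]
        rfl
      rw [e1, e2]
      exact h.trans hC50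

end NB5
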