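import Pool.Agent.NB5.VTP1
import Pool.Agent.NB5.VTS3
import Pool.Agent.NB5.VIA
import Pool.Agent.NB5.VIP
import Pool.Agent.NB5.VMe
import Pool.Agent.NB5.VSum

/-!
# NB5-VAsP: the integral of `gP` at the level `b`

PLAN. Let `C` be larger than the constants of `tp1`, `ts3` (apply them with their own `C`, no
monotonicity of boxes is needed: use two constants `C1, C2`). For `x ∈ Inv m P.R`:
`gP P b m x ≤ ∑ σ, ∑ i : Tree ⊕ Tree, f σ i (rel σ x)` with
`f σ (inl t) = ofReal (C1 b^77) * gPb (TA t (m ∘ σ)) C1 b`,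
`f σ (inr t) = ofReal (C2 b^77) * gA (TA t (m ∘ σ)) C2 (C2/b^200) (C2/b^96) (C2/b^77) (C2 b^100) (C2 b^100) C2`
(one term of the sum is already large enough, `Finset.single_le_sum`). `rel_sum`, `measurable_gA`,
`measurable_gPb`, `boxP`, `boxA` for `m ∘ σ` (finitely many `σ`, `t`: take the maximum of the constants;
`tree_jac`, `mb_perm`), `lintegral_const_mul`. Exponents of `b`: `77 + 77 - 54 d ≤ -8`;
`77 + [√(1/b^200) b^100 + √√(1/b^200)] - 96 d + 100 d - 77 (d-1) ≤ 154 - 73 d ≤ -65`. `K` is the maximum of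
the two `K`. (`Fintype Tree` is in `VSum.lean`.)
-/

open MeasureTheory Set Filter Topology Metric
open scoped NNReal ENNReal RealInnerProductSpace

namespace NB5

open HDN

private theorem vasp_single {ι : Type*} [Fintype ι] (F : Equiv.Perm (Fin 5) → ι → ℝ≥0∞)
    (σ : Equiv.Perm (Fin 5)) (i : ι) : F σ i ≤ ∑ σ, ∑ i, F σ i :=
  (Finset.single_le_sum (f := fun j => F σ j) (fun _ _ => bot_le) (Finset.mem_univ i)).trans
    (Finset.single_le_sum (f := fun τ => ∑ j, F τ j) (fun _ _ => bot_le) (Finset.mem_univ σ))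

private theorem vasp_singleR {ι κ : Type*} [Fintype ι] [Fintype κ] (F : κ → ι → ℝ)
    (hF : ∀ σ i, 0 ≤ F σ i) (σ : κ) (i : ι) : F σ i ≤ ∑ σ, ∑ i, F σ i :=
  (Finset.single_le_sum (f := fun j => F σ j) (fun _ _ => hF _ _) (Finset.mem_univ i)).trans
    (Finset.single_le_sum (f := fun τ => ∑ j, F τ j)
      (fun _ _ => Finset.sum_nonneg fun _ _ => hF _ _) (Finset.mem_univ σ))

private theorem vasp_num1 {b : ℝ} (hb : 1 ≤ b) {d : ℕ} (hd : 3 ≤ d) :
    b ^ 77 * (b ^ 77 / b ^ (54 * d)) ≤ 1 / b := by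
  have hb0 : 0 < b := by linarith
  rw [← mul_div_assoc, div_le_div_iff₀ (by positivity) hb0, one_mul]
  calc b ^ 77 * b ^ 77 * b = b ^ 155 := by ring
    _ ≤ b ^ (54 * d) := pow_le_pow_right₀ hb (by omega)

private theorem vasp_num2 {b C : ℝ} (hC : 1 ≤ C) (hb : 1 ≤ b) {d : ℕ} (hd : 3 ≤ d) :
    b ^ 77 * ((√(C / b ^ 200) * (C * b ^ 100) + √√(C / b ^ 200) * C) * (C / b ^ 96) ^ d *
      (C * b ^ 100) ^ d * (C / b ^ 77) ^ (d - 1)) ≤
      (2 * C ^ 2 * C ^ d * C ^ d * C ^ (d - 1)) * (1 / b) := by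
  have hb0 : 0 < b := by linarith
  have hC0 : 0 < C := by linarith
  have e : √(C / b ^ 200) = √C / b ^ 100 := by
    rw [Real.sqrt_div hC0.le]
    congr 1
    rw [show b ^ 200 = (b ^ 100) ^ 2 by ring, Real.sqrt_sq (by positivity)]
  have hsC : √C ≤ C := by
    rw [Real.sqrt_le_left hC0.le]
    nlinarith
  have h1 : √(C / b ^ 200) * (C * b ^ 100) ≤ C ^ 2 := by
    rw [e]
    have h2 : √C / b ^ 100 * (C * b ^ 100) = √C * C := by
      field_simp
    rw [h2]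
    nlinarith
  have h2 : √√(C / b ^ 200) * C ≤ C ^ 2 := by
    have h3 : √(C / b ^ 200) ≤ C := by
      rw [e]
      exact (div_le_self (Real.sqrt_nonneg _) (one_le_pow₀ hb)).trans hsC
    have h4 : √√(C / b ^ 200) ≤ C := (Real.sqrt_le_sqrt h3).trans hsC
    nlinarith
  have h5 : √(C / b ^ 200) * (C * b ^ 100) + √√(C / b ^ 200) * C ≤ 2 * C ^ 2 := by linarith
  obtain ⟨n, rfl⟩ := Nat.exists_eq_add_of_le hd
  have hn : 3 + n - 1 = n + 2 := by omega
  rw [hn]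
  have h6 : b ^ 77 * ((C / b ^ 96) ^ (3 + n) * (C * b ^ 100) ^ (3 + n) * (C / b ^ 77) ^ (n + 2)) ≤
      (C ^ (3 + n) * C ^ (3 + n) * C ^ (n + 2)) * (1 / b) := by
    rw [div_pow, div_pow, mul_pow]
    have h7 : b ^ 77 * (b ^ 100) ^ (3 + n) * b ≤ (b ^ 96) ^ (3 + n) * (b ^ 77) ^ (n + 2) := by
      calc b ^ 77 * (b ^ 100) ^ (3 + n) * b = b ^ (78 + 100 * (3 + n)) := by ring
        _ ≤ b ^ (96 * (3 + n) + 77 * (n + 2)) := pow_le_pow_right₀ hb (by omega)
        _ = (b ^ 96) ^ (3 + n) * (b ^ 77) ^ (n + 2) := by ring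
    have h8 : b ^ 77 * (C ^ (3 + n) / (b ^ 96) ^ (3 + n) * (C ^ (3 + n) * (b ^ 100) ^ (3 + n)) *
        (C ^ (n + 2) / (b ^ 77) ^ (n + 2))) = (C ^ (3 + n) * C ^ (3 + n) * C ^ (n + 2)) *
        ((b ^ 77 * (b ^ 100) ^ (3 + n)) / ((b ^ 96) ^ (3 + n) * (b ^ 77) ^ (n + 2))) := by
      field_simp
    rw [h8]
    refine mul_le_mul_of_nonneg_left ?_ (by positivity)
    rw [div_le_div_iff₀ (by positivity) hb0, one_mul]
    exact h7
  calc b ^ 77 * ((√(C / b ^ 200) * (C * b ^ 100) + √√(C / b ^ 200) * C) * (C / b ^ 96) ^ (3 + n) *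
        (C * b ^ 100) ^ (3 + n) * (C / b ^ 77) ^ (n + 2))
      = (√(C / b ^ 200) * (C * b ^ 100) + √√(C / b ^ 200) * C) *
        (b ^ 77 * ((C / b ^ 96) ^ (3 + n) * (C * b ^ 100) ^ (3 + n) * (C / b ^ 77) ^ (n + 2))) := by
        ring
    _ ≤ (2 * C ^ 2) * ((C ^ (3 + n) * C ^ (3 + n) * C ^ (n + 2)) * (1 / b)) :=
        mul_le_mul h5 h6 (by positivity) (by positivity)
    _ = _ := by ring

theorem asP (P : Par) : ∃ K : ℝ, 1 ≤ K ∧ ∀ {d : ℕ}, 3 ≤ d → ∀ m : Fin 5 → ℝ, Mb P.M m →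
    ∃ C : ℝ, 0 < C ∧ ∀ b : ℝ, K ≤ b →
    ∫⁻ x : St d in Inv m P.R, gP P b m x ≤ ENNReal.ofReal (C / b) := by
  obtain ⟨C1, K1, hC1, hK1, h1⟩ := tp1 P
  obtain ⟨C2, K2, hC2, hK2, h2⟩ := ts3 P
  refine ⟨max K1 K2, hK1.trans (le_max_left _ _), ?_⟩
  intro d hd m hm
  have hR : 0 ≤ P.R := zero_le_one.trans P.hR
  have hpos : ∀ σ : Equiv.Perm (Fin 5), ∀ i, 0 < (m ∘ σ) i := fun σ i =>
    lt_of_lt_of_le (one_div_pos.2 (lt_of_lt_of_le one_pos hm.1)) (hm.2 (σ i)).1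
  choose CP hCP0 hCP using fun (σ : Equiv.Perm (Fin 5)) (t : Tree) =>
    boxP (d := d) hd (tree_jac t (hpos σ)) hR hC1
  choose CA hCA0 hCA using fun (σ : Equiv.Perm (Fin 5)) (t : Tree) =>
    boxA (d := d) hd (tree_jac t (hpos σ)) hR hC2
  set SP : ℝ := ∑ σ, ∑ t, CP σ t with hSP
  set SA : ℝ := ∑ σ, ∑ t, CA σ t with hSA
  have hSP0 : 0 ≤ SP := Finset.sum_nonneg fun σ _ => Finset.sum_nonneg fun t _ => (hCP0 σ t).le
  have hSA0 : 0 ≤ SA := Finset.sum_nonneg fun σ _ => Finset.sum_nonneg fun t _ => (hCA0 σ t).le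
  have hC10 : 0 < C1 := by linarith
  have hC20 : 0 < C2 := by linarith
  set E : ℝ := C1 * SP + C2 * SA * (2 * C2 ^ 2 * C2 ^ d * C2 ^ d * C2 ^ (d - 1)) with hE
  have hE0 : 0 ≤ E := by positivity
  refine ⟨(120 * Fintype.card (Tree ⊕ Tree) : ℕ) * E + 1, by positivity, ?_⟩
  intro b hb
  have hb1 : 1 ≤ b := (hK1.trans (le_max_left _ _)).trans hb
  have hb0 : 0 < b := by linarith
  have hbK1 : K1 ≤ b := (le_max_left _ _).trans hb
  have hbK2 : K2 ≤ b := (le_max_right _ _).trans hb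
  let f : Equiv.Perm (Fin 5) → (Tree ⊕ Tree) → St d → ℝ≥0∞ := fun σ i x =>
    match i with
    | .inl t => ENNReal.ofReal (C1 * b ^ 77) * gPb (TA t (m ∘ σ)) C1 b x
    | .inr t => ENNReal.ofReal (C2 * b ^ 77) * gA (TA t (m ∘ σ)) C2 (C2 / b ^ 200) (C2 / b ^ 96)
        (C2 / b ^ 77) (C2 * b ^ 100) (C2 * b ^ 100) C2 x
  have hf : ∀ σ i, Measurable (f σ i) := by
    intro σ i
    rcases i with t | t
    · exact (measurable_gPb _ _ _).const_mul _
    · exact (measurable_gA _ _ _ _ _ _ _ _).const_mul _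
  have hB : ∀ (σ : Equiv.Perm (Fin 5)) (i : Tree ⊕ Tree),
      ∫⁻ x in Inv (m ∘ σ) P.R, f σ i x ≤ ENNReal.ofReal (E / b) := by
    intro σ i
    rcases i with t | t
    · show ∫⁻ x in Inv (m ∘ σ) P.R, ENNReal.ofReal (C1 * b ^ 77) *
        gPb (TA t (m ∘ σ)) C1 b x ≤ _
      rw [lintegral_const_mul' _ _ ENNReal.ofReal_ne_top]
      refine (mul_le_mul_right (hCP σ t b hb1) _).trans ?_
      rw [← ENNReal.ofReal_mul (by positivity)]
      refine ENNReal.ofReal_le_ofReal ?_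
      have h3 : CP σ t ≤ SP := vasp_singleR CP (fun σ t => (hCP0 σ t).le) σ t
      calc C1 * b ^ 77 * (CP σ t * b ^ 77 / b ^ (54 * d))
          = C1 * CP σ t * (b ^ 77 * (b ^ 77 / b ^ (54 * d))) := by ring
        _ ≤ C1 * SP * (1 / b) := mul_le_mul (mul_le_mul_of_nonneg_left h3 hC10.le)
            (vasp_num1 hb1 hd) (by positivity) (by positivity)
        _ ≤ E / b := by
            rw [mul_one_div]
            refine div_le_div_of_nonneg_right ?_ hb0.le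
            rw [hE]
            have : 0 ≤ C2 * SA * (2 * C2 ^ 2 * C2 ^ d * C2 ^ d * C2 ^ (d - 1)) := by positivity
            linarith
    · show ∫⁻ x in Inv (m ∘ σ) P.R, ENNReal.ofReal (C2 * b ^ 77) *
        gA (TA t (m ∘ σ)) C2 (C2 / b ^ 200) (C2 / b ^ 96)
        (C2 / b ^ 77) (C2 * b ^ 100) (C2 * b ^ 100) C2 x ≤ _
      rw [lintegral_const_mul' _ _ ENNReal.ofReal_ne_top]
      have h4 := hCA σ t (C2 / b ^ 200) (C2 / b ^ 96) (C2 / b ^ 77) (C2 * b ^ 100) (C2 * b ^ 100) C2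
        (by positivity) (div_le_self hC20.le (one_le_pow₀ hb1)) (by positivity) (by positivity)
        (by positivity) (by positivity) hC20.le
      refine (mul_le_mul_right h4 _).trans ?_
      rw [← ENNReal.ofReal_mul (by positivity)]
      refine ENNReal.ofReal_le_ofReal ?_
      have h3 : CA σ t ≤ SA := vasp_singleR CA (fun σ t => (hCA0 σ t).le) σ t
      calc C2 * b ^ 77 * (CA σ t * (√(C2 / b ^ 200) * (C2 * b ^ 100) + √√(C2 / b ^ 200) * C2) *
            (C2 / b ^ 96) ^ d * (C2 * b ^ 100) ^ d * (C2 / b ^ 77) ^ (d - 1))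
          = C2 * CA σ t * (b ^ 77 * ((√(C2 / b ^ 200) * (C2 * b ^ 100) +
            √√(C2 / b ^ 200) * C2) * (C2 / b ^ 96) ^ d * (C2 * b ^ 100) ^ d *
            (C2 / b ^ 77) ^ (d - 1))) := by ring
        _ ≤ C2 * SA * ((2 * C2 ^ 2 * C2 ^ d * C2 ^ d * C2 ^ (d - 1)) * (1 / b)) :=
            mul_le_mul (mul_le_mul_of_nonneg_left h3 hC20.le)
              (vasp_num2 hC2 hb1 hd) (by positivity) (by positivity)
        _ = C2 * SA * (2 * C2 ^ 2 * C2 ^ d * C2 ^ d * C2 ^ (d - 1)) / b := by ring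
        _ ≤ E / b := by
            refine div_le_div_of_nonneg_right ?_ hb0.le
            rw [hE]
            have : 0 ≤ C1 * SP := by positivity
            linarith
  have hg : ∀ x ∈ Inv m P.R, gP P b m x ≤ ∑ σ, ∑ i, f σ i (rel σ x) := by
    intro x hx
    unfold gP onSet
    by_cases hc : (S1 P b m x ∨ S3 P b m x) ∧ Rg 3 x.1 ≤ 1 / b ^ 77
    · rw [if_pos hc]
      obtain ⟨hc1 | hc3, hr⟩ := hc
      · obtain ⟨σ, t, h3, h4⟩ := h1 m b x hm hbK1 hx hc1 hr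
        refine le_trans ?_ (vasp_single (fun σ i => f σ i (rel σ x)) σ (.inl t))
        show ENNReal.ofReal (b ^ 77 * √(Kin m x.2)) ≤ ENNReal.ofReal (C1 * b ^ 77) *
          gPb (TA t (m ∘ σ)) C1 b (rel σ x)
        unfold gPb onSet
        rw [if_pos h3, ← ENNReal.ofReal_mul (by positivity)]
        refine ENNReal.ofReal_le_ofReal ?_
        calc b ^ 77 * √(Kin m x.2) ≤ b ^ 77 * (C1 * (1 / √‖Yc (TA t (m ∘ σ)) 0 (rel σ x).1‖ +
              1 / √‖Yc (TA t (m ∘ σ)) 1 (rel σ x).1‖)) :=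
              mul_le_mul_of_nonneg_left h4 (by positivity)
          _ = _ := by ring
      · obtain ⟨σ, t, h3, h4⟩ := (h2 m b x hm hbK2 hx hc3).1 hr
        refine le_trans ?_ (vasp_single (fun σ i => f σ i (rel σ x)) σ (.inr t))
        show ENNReal.ofReal (b ^ 77 * √(Kin m x.2)) ≤ ENNReal.ofReal (C2 * b ^ 77) *
          gA (TA t (m ∘ σ)) C2 (C2 / b ^ 200) (C2 / b ^ 96)
          (C2 / b ^ 77) (C2 * b ^ 100) (C2 * b ^ 100) C2 (rel σ x)
        unfold gA onSet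
        rw [if_pos h3, ← ENNReal.ofReal_mul (by positivity)]
        refine ENNReal.ofReal_le_ofReal ?_
        calc b ^ 77 * √(Kin m x.2) ≤ b ^ 77 * (C2 / √‖Yc (TA t (m ∘ σ)) 0 (rel σ x).1‖) :=
              mul_le_mul_of_nonneg_left h4 (by positivity)
          _ = _ := by ring
    · rw [if_neg hc]
      exact bot_le
  have hmain := rel_sum m P.R (gP P b m) f hf (ENNReal.ofReal (E / b)) hB hg
  refine hmain.trans ?_
  rw [← ENNReal.ofReal_natCast, ← ENNReal.ofReal_mul (by positivity)]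
  refine ENNReal.ofReal_le_ofReal ?_
  rw [← mul_div_assoc]
  exact div_le_div_of_nonneg_right (by linarith) hb0.le

end NB5
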