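import Pool.Agent.NB5.VDefs
import Pool.Agent.NB5.MIso

/-!
# NB5-VLnk: linkage distances `Rg 3`, `Rg 4`

`MIso.lean` has `rg_mem` (the supremum is attained) and `le_rg`.

PLAN. `lnk`: otherwise all cross distances are `> s`; there are finitely many, so they are all
`≥ s'` for some `s' > s`, and `le_rg` gives `s' ≤ Rg 3 q ≤ s`. `rg34`: take the partition of `rg_mem` for
`k = 4` and merge two classes (compose with a surjection `Fin 4 → Fin 3`). `rg4_pairs`: the attained
partition in 4 classes has exactly one pair `{a, b}` in one class, all other pairs are cross pairs; if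
`{a,b} ≠ {0,1}` then `0, 1` is a cross pair and `Closest` bounds all pairs. `two_cl`: let `∼` be the
equivalence relation generated by `‖q i - q j‖ ≤ s` (e.g. `SimpleGraph.Reachable` of the graph with these
edges): equivalent bodies are joined by a path of length `≤ 4`, so their distance is `≤ 4 s` (`0 ≤ s`
because of `h01`); there are at most two classes (otherwise there is a surjection `Fin 5 → Fin 3` which is
constant on the classes, contradiction with `lnk`); `f i = true ↔ i ∼ 0`; if there is only one class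
choose `f = (· ≠ 4)`. (Alternatively a direct case analysis with `lnk` for suitable partitions.)
`part3`, `part3T`: `rg_mem` for `k = 3`, `p 0 = p 1` because `‖q 0 - q 1‖ < s`; then the statement about
`p : Fin 5 → Fin 3` can be proved by `decide` (243 functions, `decide +kernel` if necessary; do it as a
separate lemma about `p`), or by `fin_cases`.
-/

open MeasureTheory Set Filter Topology Metric
open scoped NNReal ENNReal RealInnerProductSpace

namespace NB5

open HDN

variable {d : ℕ}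

theorem lnk {q : Cf 5 d} {s : ℝ} (h : Rg 3 q ≤ s) {p : Fin 5 → Fin 3}
    (hp : Function.Surjective p) : ∃ i j, p i ≠ p j ∧ ‖q i - q j‖ ≤ s := by
  classical
  by_contra hcon
  push Not at hcon
  obtain ⟨x0, hx0⟩ := Finite.exists_min
    (fun x : Fin 5 × Fin 5 => if p x.1 ≠ p x.2 then ‖q x.1 - q x.2‖ else s + 1)
  have h1 : s < (if p x0.1 ≠ p x0.2 then ‖q x0.1 - q x0.2‖ else s + 1) := by
    split_ifs with h2
    · exact hcon _ _ h2
    · linarith
  have h2 := le_rg (k := 3) (by norm_num) q hp (fun i j hij => by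
    have h3 := hx0 (i, j)
    simp only at h3
    rw [if_pos hij] at h3
    exact h3)
  linarith

theorem rg34 (q : Cf 5 d) : Rg 4 q ≤ Rg 3 q := by
  obtain ⟨p, hp, h⟩ := rg_mem (k := 4) (by norm_num) (by norm_num) q
  have hg : Function.Surjective (![0, 1, 2, 2] : Fin 4 → Fin 3) := by decide
  refine le_rg (k := 3) (by norm_num) q (hg.comp hp) fun i j hij => h i j fun h1 => hij ?_
  simp only [Function.comp, h1]

theorem rg4_pairs {q : Cf 5 d} {s : ℝ} (h : s ≤ Rg 4 q) (hc : Closest q) (i j : Fin 5)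
    (hij : i ≠ j) (h1 : ¬ (i ≤ 1 ∧ j ≤ 1)) : s ≤ ‖q i - q j‖ := by
  obtain ⟨a, b, _, hiso⟩ := iso_of_rg h
  by_cases h2 : (i = a ∧ j = b) ∨ (i = b ∧ j = a)
  · refine le_trans (hiso 0 1 (by decide) ?_ ?_) (hc i j hij)
    · rintro ⟨ha, hb⟩
      rcases h2 with ⟨h3, h4⟩ | ⟨h3, h4⟩ <;> subst h3 <;> subst h4 <;> subst ha <;> subst hb <;>
        exact h1 (by decide)
    · rintro ⟨ha, hb⟩
      rcases h2 with ⟨h3, h4⟩ | ⟨h3, h4⟩ <;> subst h3 <;> subst h4 <;> subst ha <;> subst hb <;>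
        exact h1 (by decide)
  · rw [not_or] at h2
    exact hiso i j hij h2.1 h2.2

/-- the graph of the distances at most `s` -/
private def vlnkG (q : Cf 5 d) (s : ℝ) : SimpleGraph (Fin 5) where
  Adj i j := i ≠ j ∧ ‖q i - q j‖ ≤ s
  symm := ⟨fun i j h => ⟨h.1.symm, by rw [norm_sub_rev]; exact h.2⟩⟩
  loopless := ⟨fun _ h => h.1 rfl⟩

private theorem vlnk_walk {q : Cf 5 d} {s : ℝ} {i j : Fin 5} (w : (vlnkG q s).Walk i j) :
    ‖q i - q j‖ ≤ w.length * s := by
  induction w with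
  | nil => simp
  | @cons u v w hadj p ih =>
    have h1 : ‖q u - q v‖ ≤ s := hadj.2
    have h2 : ‖q u - q w‖ ≤ ‖q u - q v‖ + ‖q v - q w‖ := by
      have := norm_add_le (q u - q v) (q v - q w)
      rwa [sub_add_sub_cancel] at this
    rw [SimpleGraph.Walk.length_cons]
    push_cast
    linarith

private theorem vlnk_reach {q : Cf 5 d} {s : ℝ} (hs : 0 ≤ s) {i j : Fin 5}
    (h : (vlnkG q s).Reachable i j) : ‖q i - q j‖ ≤ 4 * s := by
  classical
  obtain ⟨w, hw⟩ := h.exists_isPath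
  have h1 : w.length < 5 := by
    have := hw.length_lt
    simpa using this
  have h2 : (w.length : ℝ) ≤ 4 := by
    have : w.length ≤ 4 := by omega
    exact_mod_cast this
  exact (vlnk_walk w).trans (mul_le_mul_of_nonneg_right h2 hs)

private theorem vlnk_tri {q : Cf 5 d} {s : ℝ} (h : Rg 3 q ≤ s) (a b c : Fin 5)
    (hab : ¬ (vlnkG q s).Reachable a b) (hac : ¬ (vlnkG q s).Reachable a c) :
    (vlnkG q s).Reachable b c := by
  classical
  by_contra hbc
  let p : Fin 5 → Fin 3 := fun x =>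
    if (vlnkG q s).Reachable a x then 0 else if (vlnkG q s).Reachable b x then 1 else 2
  have hp : Function.Surjective p := by
    intro y
    fin_cases y
    · exact ⟨a, by simp [p]⟩
    · exact ⟨b, by simp [p, hab]⟩
    · exact ⟨c, by simp [p, hac, hbc]⟩
  obtain ⟨i, j, hij, hd⟩ := lnk h hp
  apply hij
  have hne : i ≠ j := fun h => hij (by rw [h])
  have hadj : (vlnkG q s).Reachable i j := SimpleGraph.Adj.reachable ⟨hne, hd⟩
  have h1 : ∀ x, (vlnkG q s).Reachable x i ↔ (vlnkG q s).Reachable x j :=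
    fun x => ⟨fun h => h.trans hadj, fun h => h.trans hadj.symm⟩
  simp only [p, h1]

theorem two_cl {q : Cf 5 d} {s : ℝ} (h : Rg 3 q ≤ s) (h01 : ‖q 0 - q 1‖ ≤ s) :
    ∃ f : Fin 5 → Bool, f 0 = true ∧ f 1 = true ∧ (∃ i, f i = false) ∧
      ∀ i j, f i = f j → ‖q i - q j‖ ≤ 4 * s := by
  classical
  have hs : 0 ≤ s := (norm_nonneg _).trans h01
  have hr01 : (vlnkG q s).Reachable 0 1 := SimpleGraph.Adj.reachable ⟨by decide, h01⟩
  by_cases hall : ∀ x, (vlnkG q s).Reachable 0 x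
  · refine ⟨fun x => decide (x ≠ 4), by decide, by decide, ⟨4, by decide⟩, fun i j _ => ?_⟩
    exact vlnk_reach hs ((hall i).symm.trans (hall j))
  · push Not at hall
    obtain ⟨y, hy⟩ := hall
    refine ⟨fun x => decide ((vlnkG q s).Reachable 0 x), by simp, by simpa using hr01,
      ⟨y, by simpa using hy⟩, fun i j hij => vlnk_reach hs ?_⟩
    have hij' : (vlnkG q s).Reachable 0 i ↔ (vlnkG q s).Reachable 0 j := by
      simpa using hij
    by_cases hi : (vlnkG q s).Reachable 0 i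
    · exact hi.symm.trans (hij'.1 hi)
    · exact vlnk_tri h 0 i j hi (fun h1 => hi (hij'.2 h1))

private theorem vlnk_dec1 : ∀ p : Fin 5 → Fin 3, Function.Surjective p → p 0 = p 1 →
    ∀ j : Fin 5, 2 ≤ j → p j = p 0 → ∀ a c : Fin 5, a ≠ c →
      ¬ ((a ≤ 1 ∨ a = j) ∧ (c ≤ 1 ∨ c = j)) → p a ≠ p c := by
  decide +kernel

private theorem vlnk_dec2 : ∀ p : Fin 5 → Fin 3, Function.Surjective p → p 0 = p 1 →
    (p 2 = p 0 ∨ p 3 = p 0 ∨ p 4 = p 0) ∨ (p 3 = p 4 ∨ p 2 = p 4 ∨ p 2 = p 3) := by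
  decide +kernel

private theorem vlnk_dec3 : ∀ p : Fin 5 → Fin 3, Function.Surjective p → p 0 = p 1 →
    ¬ (p 2 = p 0 ∨ p 3 = p 0 ∨ p 4 = p 0) → ∀ j k : Fin 5, 2 ≤ j → 2 ≤ k → j ≠ k → p j = p k →
      ∀ a c : Fin 5, a ≠ c → ¬ (a ≤ 1 ∧ c ≤ 1) → ¬ ((a = j ∨ a = k) ∧ (c = j ∨ c = k)) →
      p a ≠ p c := by
  decide +kernel

private theorem vlnk_decT : ∀ p : Fin 5 → Fin 3, Function.Surjective p → p 0 = p 1 →
    p 0 = p 2 → ∀ a c : Fin 5, a ≠ c → ¬ (a ≤ 2 ∧ c ≤ 2) → p a ≠ p c := by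
  decide +kernel

theorem part3 {q : Cf 5 d} {s : ℝ} (h : s ≤ Rg 3 q) (h01 : ‖q 0 - q 1‖ < s) :
    (∃ j : Fin 5, 2 ≤ j ∧ ∀ a c : Fin 5, a ≠ c → ¬ ((a ≤ 1 ∨ a = j) ∧ (c ≤ 1 ∨ c = j)) →
      s ≤ ‖q a - q c‖) ∨
    (∃ i j k : Fin 5, 2 ≤ i ∧ 2 ≤ j ∧ 2 ≤ k ∧ i ≠ j ∧ i ≠ k ∧ j ≠ k ∧
      ∀ a c : Fin 5, a ≠ c → ¬ (a ≤ 1 ∧ c ≤ 1) → ¬ ((a = j ∨ a = k) ∧ (c = j ∨ c = k)) →
      s ≤ ‖q a - q c‖) := by
  obtain ⟨p, hp, hsep⟩ := rg_mem (k := 3) (by norm_num) (by norm_num) q
  have hp01 : p 0 = p 1 := by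
    by_contra hne
    have := hsep 0 1 hne
    linarith
  by_cases hc : p 2 = p 0 ∨ p 3 = p 0 ∨ p 4 = p 0
  · left
    rcases hc with h2 | h2 | h2
    · exact ⟨2, by decide, fun a c hac hn =>
        h.trans (hsep a c (vlnk_dec1 p hp hp01 2 (by decide) h2 a c hac hn))⟩
    · exact ⟨3, by decide, fun a c hac hn =>
        h.trans (hsep a c (vlnk_dec1 p hp hp01 3 (by decide) h2 a c hac hn))⟩
    · exact ⟨4, by decide, fun a c hac hn =>
        h.trans (hsep a c (vlnk_dec1 p hp hp01 4 (by decide) h2 a c hac hn))⟩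
  · right
    rcases (vlnk_dec2 p hp hp01).resolve_left hc with h2 | h2 | h2
    · exact ⟨2, 3, 4, by decide, by decide, by decide, by decide, by decide, by decide,
        fun a c hac hn hn' => h.trans (hsep a c
          (vlnk_dec3 p hp hp01 hc 3 4 (by decide) (by decide) (by decide) h2 a c hac hn hn'))⟩
    · exact ⟨3, 2, 4, by decide, by decide, by decide, by decide, by decide, by decide,
        fun a c hac hn hn' => h.trans (hsep a c
          (vlnk_dec3 p hp hp01 hc 2 4 (by decide) (by decide) (by decide) h2 a c hac hn hn'))⟩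
    · exact ⟨4, 2, 3, by decide, by decide, by decide, by decide, by decide, by decide,
        fun a c hac hn hn' => h.trans (hsep a c
          (vlnk_dec3 p hp hp01 hc 2 3 (by decide) (by decide) (by decide) h2 a c hac hn hn'))⟩

theorem part3T {q : Cf 5 d} {s : ℝ} (h : s ≤ Rg 3 q) (h01 : ‖q 0 - q 1‖ < s)
    (h02 : ‖q 0 - q 2‖ < s) (a c : Fin 5) (hac : a ≠ c) (h2 : ¬ (a ≤ 2 ∧ c ≤ 2)) :
    s ≤ ‖q a - q c‖ := by
  obtain ⟨p, hp, hsep⟩ := rg_mem (k := 3) (by norm_num) (by norm_num) q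
  have hp01 : p 0 = p 1 := by
    by_contra hne
    have := hsep 0 1 hne
    linarith
  have hp02 : p 0 = p 2 := by
    by_contra hne
    have := hsep 0 2 hne
    linarith
  exact h.trans (hsep a c (vlnk_decT p hp hp01 hp02 a c hac h2))

end NB5
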