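import Pool.Agent.NB5.VEn
import Pool.Agent.NB5.VLnk

/-!
# NB5-VBF: facts on crossing states

PLAN. `rg4_pairs`: all pairs but `(0,1)` have distance `≥ ρ`. `Kin = Ham + Pot ≤ R + M²/r + 9 M²/ρ` with
`r = ‖q 0 - q 1‖ ≤ 2ρ ≤ 2` (`r > 0` since the state is free), so `Kin ≤ (2R + 19 M²)/r =: C0/r`
(`R ≥ |Ham| ≥ 0`). `b^200 ≤ Kin ≤ C0/r` gives `r ≤ C0/b^200`.
`lev`, `cn`: `lev k ≥ 1`, `cn n ≥ 1`, `cn n ^ 20 = 2^n`, `lev k ^ 100 = 2^k` (`Real.rpow_natCast`,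
`Real.rpow_mul`).
-/

open MeasureTheory Set Filter Topology Metric
open scoped NNReal ENNReal RealInnerProductSpace

namespace NB5

open HDN

theorem lev_one (k : ℕ) : 1 ≤ lev k := by
  unfold lev
  exact Real.one_le_rpow (by norm_num) (by positivity)

theorem cn_one (n : ℕ) : 1 ≤ cn n := by
  unfold cn
  exact Real.one_le_rpow (by norm_num) (by positivity)

theorem lev_pow (k : ℕ) : lev k ^ 100 = 2 ^ k := by
  unfold lev
  rw [← Real.rpow_natCast, ← Real.rpow_mul (by norm_num)]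
  have : (k : ℝ) / 100 * ((100 : ℕ) : ℝ) = (k : ℝ) := by
    push_cast; ring
  rw [this, Real.rpow_natCast]

theorem cn_powV (n : ℕ) : cn n ^ 20 = 2 ^ n := by
  unfold cn
  rw [← Real.rpow_natCast, ← Real.rpow_mul (by norm_num)]
  have : (n : ℝ) / 20 * ((20 : ℕ) : ℝ) = (n : ℝ) := by
    push_cast; ring
  rw [this, Real.rpow_natCast]

theorem bad_facts (M R : ℝ) : ∃ C : ℝ, 1 ≤ C ∧
    ∀ {d : ℕ} (m : Fin 5 → ℝ) (x : St d) (ρ : ℝ), Mb M m → 0 < ρ → ρ ≤ 1 → x ∈ Inv m R →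
    Closest x.1 → ρ ≤ Rg 4 x.1 → ‖x.1 0 - x.1 1‖ ≤ 2 * ρ →
    √(Kin m x.2) ≤ C / √‖x.1 0 - x.1 1‖ ∧
    ∀ b : ℝ, 1 ≤ b → b ^ 200 ≤ Kin m x.2 → ‖x.1 0 - x.1 1‖ ≤ C / b ^ 200 := by
  have hC0 : 1 ≤ 2 * |R| + 19 * M ^ 2 + 1 := by
    have := abs_nonneg R
    nlinarith [sq_nonneg M]
  refine ⟨2 * |R| + 19 * M ^ 2 + 1, hC0, ?_⟩
  intro d m x ρ hM hρ hρ1 hI hcl hrg hr2
  set C0 := 2 * |R| + 19 * M ^ 2 + 1 with hC0d
  obtain ⟨hfree, hHam, -⟩ := hI
  have hM1 : 1 ≤ M := hM.1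
  have hm0 : ∀ i, 0 < m i := fun i => lt_of_lt_of_le (by positivity) (hM.2 i).1
  have hr : 0 < ‖x.1 0 - x.1 1‖ := norm_pos_iff.2 (sub_ne_zero.2 (hfree 0 1 (by decide)))
  set r := ‖x.1 0 - x.1 1‖ with hrd
  have hmm : ∀ i j, m i * m j ≤ M ^ 2 := fun i j => by
    rw [sq]
    exact mul_le_mul (hM.2 i).2 (hM.2 j).2 (hm0 j).le (by linarith)
  have hpair : ∀ i j : Fin 5, i ≠ j → ¬ (i ≤ 1 ∧ j ≤ 1) →
      m i * m j / ‖x.1 i - x.1 j‖ ≤ 2 * M ^ 2 / r := by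
    intro i j hij hn
    have h1 := rg4_pairs hrg hcl i j hij hn
    have h2 : m i * m j / ‖x.1 i - x.1 j‖ ≤ M ^ 2 / ρ :=
      div_le_div₀ (by positivity) (hmm i j) hρ h1
    refine h2.trans ?_
    rw [div_le_div_iff₀ hρ hr]
    nlinarith [sq_nonneg M]
  have hpot : Pot m x.1 ≤ 19 * M ^ 2 / r := by
    rw [pot_expand]
    have h01 : m 0 * m 1 / ‖x.1 0 - x.1 1‖ ≤ M ^ 2 / r :=
      div_le_div_of_nonneg_right (hmm 0 1) hr.le
    have h02 := hpair 0 2 (by decide) (by decide)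
    have h03 := hpair 0 3 (by decide) (by decide)
    have h04 := hpair 0 4 (by decide) (by decide)
    have h12 := hpair 1 2 (by decide) (by decide)
    have h13 := hpair 1 3 (by decide) (by decide)
    have h14 := hpair 1 4 (by decide) (by decide)
    have h23 := hpair 2 3 (by decide) (by decide)
    have h24 := hpair 2 4 (by decide) (by decide)
    have h34 := hpair 3 4 (by decide) (by decide)
    have e : 19 * M ^ 2 / r = M ^ 2 / r + 9 * (2 * M ^ 2 / r) := by ring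
    rw [e]
    linarith
  have hkin : Kin m x.2 ≤ C0 / r := by
    have h1 : Kin m x.2 = Ham m x + Pot m x.1 := by unfold Ham; ring
    have h2 : Ham m x ≤ |R| := (le_abs_self _).trans (hHam.trans (le_abs_self _))
    have h3 : |R| ≤ 2 * |R| / r := by
      rw [le_div_iff₀ hr]
      have : r ≤ 2 := by linarith
      nlinarith [abs_nonneg R]
    have h4 : C0 / r = 2 * |R| / r + 19 * M ^ 2 / r + 1 / r := by rw [hC0d]; ring
    have h5 : 0 < 1 / r := by positivity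
    rw [h1, h4]
    linarith
  have hC0p : 0 < C0 := by linarith
  refine ⟨?_, ?_⟩
  · refine (Real.sqrt_le_sqrt hkin).trans ?_
    rw [Real.sqrt_div' _ hr.le]
    refine div_le_div_of_nonneg_right ?_ (Real.sqrt_nonneg _)
    rw [Real.sqrt_le_left hC0p.le]
    nlinarith
  · intro b hb hbk
    have hb0 : 0 < b ^ 200 := by positivity
    have h1 := hbk.trans hkin
    rw [le_div_iff₀ hr] at h1
    rw [le_div_iff₀ hb0]
    linarith

end NB5
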