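import Pool.Agent.NB5.VCyl

/-!
# NB5-VCyD: integrals over a ball of functions of the distance to a line

PLAN. `cyl_vol` with `c1 = c2 = 0`: `{y | ‖y‖ ≤ ℓ ∧ ‖perp e y‖ ≤ σ} ⊆ cyl e 0 0 ℓ σ` has volume
`≤ 2ℓ (2σ)^(d-1)` (`|⟪e, y⟫| ≤ ‖y‖`). Dyadic decomposition.
`cyl_dec`: on `{a ‖perp e y‖ ≤ 1}` the integrand is `≤ 1`: `≤ 2ℓ (2/a)^(d-1)`; on
`{2^k < a ‖perp e y‖ ≤ 2^(k+1)}`, `k ≥ 0`, it is `≤ 2^(-kq)`, volume `≤ 2ℓ (2^(k+2)/a)^(d-1)`; the sum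
over `k` of `2^(k(d-1) - kq)` converges because `q ≥ d`.
`cyl_rad` (`d ≥ 4`): `1/(1+t^3) ≤ 1/t^2` for `t > 0`, so on the shell
`{2^(-k-1) ℓ < ‖perp e y‖ ≤ 2^(-k) ℓ}`, `k ≥ 0`, the integrand is `≤ (a 2^(-k-1) ℓ)^(-2)`, volume
`≤ 2ℓ (2^(1-k) ℓ)^(d-1)`; `∑ 2^(-k(d-1)+2k)` converges; `{perp e y = 0}` is a null set (`cyl_vol` with
`σ = 0`), and `‖perp e y‖ ≤ ‖y‖ ≤ ℓ`.
-/

open MeasureTheory Set Filter Topology Metric
open scoped NNReal ENNReal RealInnerProductSpace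

namespace NB5

open HDN

variable {d : ℕ}

private theorem vd_meas (e : Sp d) (τ σ : ℝ) : MeasurableSet (cyl e 0 0 τ σ) := by
  have h1 : Continuous fun u : Sp d => |⟪e, u - 0⟫| := by
    simp only [sub_zero]
    exact (continuous_const.inner continuous_id).abs
  have h2 : Continuous fun u : Sp d => ‖perp e (u - 0)‖ := by
    unfold perp
    simp only [sub_zero]
    have h3 : Continuous fun u : Sp d => (⟪e, u⟫ : ℝ) := continuous_const.inner continuous_id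
    have h4 : Continuous fun u : Sp d => u - ⟪e, u⟫ • e :=
      Continuous.sub continuous_id (h3.smul continuous_const)
    exact h4.norm
  exact (isClosed_le h1 continuous_const).measurableSet.inter
    (isClosed_le h2 continuous_const).measurableSet

private theorem vd_perp_le {e y : Sp d} (he : ‖e‖ = 1) : ‖perp e y‖ ≤ ‖y‖ := by
  have h : ‖perp e y‖ ^ 2 = ‖y‖ ^ 2 - ⟪e, y⟫ ^ 2 := by
    unfold perp
    rw [norm_sub_sq_real, norm_smul, he, inner_smul_right, real_inner_comm, Real.norm_eq_abs,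
      mul_one, sq_abs]
    ring
  have h2 : ‖perp e y‖ ^ 2 ≤ ‖y‖ ^ 2 := by
    rw [h]
    nlinarith [sq_nonneg (⟪e, y⟫ : ℝ)]
  exact (pow_le_pow_iff_left₀ (norm_nonneg _) (norm_nonneg _) two_ne_zero).1 h2

private theorem vd_in {e y : Sp d} (he : ‖e‖ = 1) {ℓ σ : ℝ} (hy : y ∈ closedBall (0 : Sp d) ℓ)
    (hσ : ‖perp e y‖ ≤ σ) : y ∈ cyl e 0 0 ℓ σ := by
  rw [mem_closedBall_zero_iff] at hy
  constructor
  · rw [sub_zero]
    have h := abs_real_inner_le_norm e y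
    rw [he, one_mul] at h
    exact h.trans hy
  · rw [sub_zero]
    exact hσ

private theorem vd_dyad (hd : 2 ≤ d) (e : Sp d) (he : ‖e‖ = 1) {ℓ : ℝ} (hℓ : 0 ≤ ℓ) (f : ℝ → ℝ)
    (w σ : ℕ → ℝ) (hσ : ∀ k, 0 ≤ σ k) (hw : ∀ k, 0 ≤ w k)
    (hf : ∀ r, 0 < r → r ≤ ℓ → ∃ k, r ≤ σ k ∧ f r ≤ w k) {K : ℝ} (hK : 0 ≤ K)
    (hwK : ∀ k, w k * (2 * ℓ * (2 * σ k) ^ (d - 1)) ≤ K * (1 / 2) ^ k) :
    ∫⁻ y in closedBall (0 : Sp d) ℓ, ENNReal.ofReal (f ‖perp e y‖) ≤ ENNReal.ofReal (K * 2) := by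
  have hd1 : 1 ≤ d := by omega
  have hnull : volume (cyl e (0 : Sp d) 0 ℓ 0) = 0 := by
    have h := cyl_vol hd1 e 0 0 he hℓ le_rfl
    have h2 : (2 * ℓ * (2 * (0 : ℝ)) ^ (d - 1)) = 0 := by
      rw [mul_zero, zero_pow (by omega), mul_zero]
    rw [h2, ENNReal.ofReal_zero] at h
    exact le_antisymm h bot_le
  have hae : ∀ᵐ y ∂(volume.restrict (closedBall (0 : Sp d) ℓ)), ENNReal.ofReal (f ‖perp e y‖) ≤
      ∑' k, (cyl e 0 0 ℓ (σ k)).indicator (fun _ => ENNReal.ofReal (w k)) y := by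
    rw [ae_restrict_iff' isClosed_closedBall.measurableSet]
    have h0 : ∀ᵐ y ∂(volume : Measure (Sp d)), y ∉ cyl e (0 : Sp d) 0 ℓ 0 :=
      measure_eq_zero_iff_ae_notMem.1 hnull
    filter_upwards [h0] with y hy hyb
    have hr : 0 < ‖perp e y‖ := by
      by_contra hc
      exact hy (vd_in he hyb (not_lt.1 hc))
    have hr2 : ‖perp e y‖ ≤ ℓ := (vd_perp_le he).trans (mem_closedBall_zero_iff.1 hyb)
    obtain ⟨k, hk1, hk2⟩ := hf _ hr hr2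
    refine le_trans ?_ (ENNReal.le_tsum k)
    rw [Set.indicator_of_mem (vd_in he hyb hk1)]
    exact ENNReal.ofReal_le_ofReal hk2
  calc ∫⁻ y in closedBall (0 : Sp d) ℓ, ENNReal.ofReal (f ‖perp e y‖)
      ≤ ∫⁻ y in closedBall (0 : Sp d) ℓ,
        ∑' k, (cyl e 0 0 ℓ (σ k)).indicator (fun _ => ENNReal.ofReal (w k)) y :=
        lintegral_mono_ae hae
    _ ≤ ∫⁻ y, ∑' k, (cyl e (0 : Sp d) 0 ℓ (σ k)).indicator (fun _ => ENNReal.ofReal (w k)) y :=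
        setLIntegral_le_lintegral _ _
    _ = ∑' k, ∫⁻ y, (cyl e (0 : Sp d) 0 ℓ (σ k)).indicator (fun _ => ENNReal.ofReal (w k)) y :=
        lintegral_tsum fun k => (measurable_const.indicator (vd_meas e ℓ (σ k))).aemeasurable
    _ = ∑' k, ENNReal.ofReal (w k) * volume (cyl e (0 : Sp d) 0 ℓ (σ k)) := by
        refine tsum_congr fun k => ?_
        rw [lintegral_indicator (vd_meas e ℓ (σ k)), setLIntegral_const]
    _ ≤ ∑' k, ENNReal.ofReal (K * (1 / 2) ^ k) := by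
        refine ENNReal.tsum_le_tsum fun k => ?_
        calc ENNReal.ofReal (w k) * volume (cyl e (0 : Sp d) 0 ℓ (σ k))
            ≤ ENNReal.ofReal (w k) * ENNReal.ofReal (2 * ℓ * (2 * σ k) ^ (d - 1)) := by
              gcongr
              exact cyl_vol hd1 e 0 0 he hℓ (hσ k)
          _ = ENNReal.ofReal (w k * (2 * ℓ * (2 * σ k) ^ (d - 1))) :=
              (ENNReal.ofReal_mul (hw k)).symm
          _ ≤ ENNReal.ofReal (K * (1 / 2) ^ k) := ENNReal.ofReal_le_ofReal (hwK k)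
    _ = ENNReal.ofReal (∑' k, K * (1 / 2) ^ k) := by
        rw [ENNReal.ofReal_tsum_of_nonneg]
        · intro k
          positivity
        · exact (summable_geometric_two).mul_left K
    _ = ENNReal.ofReal (K * 2) := by
        rw [tsum_mul_left, tsum_geometric_two]

theorem cyl_dec (hd : 2 ≤ d) (q : ℕ) (hq : d ≤ q) : ∃ C : ℝ, 0 < C ∧
    ∀ (e : Sp d) (a ℓ : ℝ), ‖e‖ = 1 → 0 < a → 0 ≤ ℓ →
    ∫⁻ y in closedBall (0 : Sp d) ℓ, ENNReal.ofReal (1 / (1 + (a * ‖perp e y‖) ^ q)) ≤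
      ENNReal.ofReal (C * ℓ / a ^ (d - 1)) := by
  refine ⟨2 ^ q * 2 * 2 ^ (d - 1) * 2, by positivity, ?_⟩
  intro e a ℓ he ha hℓ
  have key := vd_dyad hd e he hℓ (fun r => 1 / (1 + (a * r) ^ q))
    (fun k => 2 ^ q * (1 / 2) ^ (k * q)) (fun k => 2 ^ k / a) (fun k => by positivity)
    (fun k => by positivity) ?_ (K := 2 ^ q * 2 * 2 ^ (d - 1) * ℓ / a ^ (d - 1)) (by positivity) ?_
  · refine key.trans (ENNReal.ofReal_le_ofReal (le_of_eq ?_))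
    ring
  · intro r hr _
    by_cases h : a * r ≤ 1
    · refine ⟨0, ?_, ?_⟩
      · rw [pow_zero, le_div_iff₀ ha]
        linarith
      · have h1 : (1 : ℝ) / (1 + (a * r) ^ q) ≤ 1 := by
          rw [div_le_one (by positivity)]
          have : 0 ≤ (a * r) ^ q := by positivity
          linarith
        have h2 : (1 : ℝ) ≤ 2 ^ q := one_le_pow₀ one_le_two
        simpa using h1.trans h2
    · push Not at h
      obtain ⟨n, hn1, hn2⟩ := exists_nat_pow_near h.le (one_lt_two : (1 : ℝ) < 2)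
      refine ⟨n + 1, ?_, ?_⟩
      · rw [le_div_iff₀ ha]
        linarith
      · have h1 : (0 : ℝ) < 2 ^ n := by positivity
        have h2 : ((2 : ℝ) ^ n) ^ q ≤ (a * r) ^ q := pow_le_pow_left₀ h1.le hn1 q
        have h3 : (1 : ℝ) / (1 + (a * r) ^ q) ≤ 1 / ((2 : ℝ) ^ n) ^ q := by
          apply one_div_le_one_div_of_le (by positivity)
          linarith
        refine h3.trans (le_of_eq ?_)
        have e1 : ((1 : ℝ) / 2) ^ ((n + 1) * q) = 1 / (2 ^ q * (2 ^ n) ^ q) := by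
          rw [one_div_pow, ← mul_pow, ← pow_succ', ← pow_mul]
        show (1 : ℝ) / ((2 : ℝ) ^ n) ^ q = 2 ^ q * (1 / 2) ^ ((n + 1) * q)
        rw [e1]
        field_simp
  · intro k
    have hm : ∃ m, q = (d - 1) + 1 + m := ⟨q - d, by omega⟩
    obtain ⟨m, hm⟩ := hm
    have e1 : ((1 : ℝ) / 2) ^ (k * q) * (2 ^ k) ^ (d - 1) ≤ (1 / 2) ^ k := by
      rw [hm, mul_add, mul_add, mul_one, pow_add, pow_add]
      have h1 : ((1 : ℝ) / 2) ^ (k * (d - 1)) * (2 ^ k) ^ (d - 1) = 1 := by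
        rw [← pow_mul, ← mul_pow]
        norm_num
      have h2 : ((1 : ℝ) / 2) ^ (k * m) ≤ 1 := pow_le_one₀ (by norm_num) (by norm_num)
      calc ((1 : ℝ) / 2) ^ (k * (d - 1)) * (1 / 2) ^ k * (1 / 2) ^ (k * m) * (2 ^ k) ^ (d - 1)
          = (((1 : ℝ) / 2) ^ (k * (d - 1)) * (2 ^ k) ^ (d - 1)) * (1 / 2) ^ k * (1 / 2) ^ (k * m) := by
            ring
        _ = (1 / 2) ^ k * (1 / 2) ^ (k * m) := by rw [h1, one_mul]
        _ ≤ (1 / 2) ^ k * 1 := by gcongr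
        _ = (1 / 2) ^ k := mul_one _
    show 2 ^ q * (1 / 2) ^ (k * q) * (2 * ℓ * (2 * (2 ^ k / a)) ^ (d - 1)) ≤
      2 ^ q * 2 * 2 ^ (d - 1) * ℓ / a ^ (d - 1) * (1 / 2) ^ k
    have e2 : 2 ^ q * ((1 : ℝ) / 2) ^ (k * q) * (2 * ℓ * (2 * (2 ^ k / a)) ^ (d - 1)) =
        2 ^ q * 2 * 2 ^ (d - 1) * ℓ / a ^ (d - 1) *
          (((1 : ℝ) / 2) ^ (k * q) * (2 ^ k) ^ (d - 1)) := by
      rw [mul_pow 2 (2 ^ k / a), div_pow]
      ring
    rw [e2]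
    gcongr

theorem cyl_rad (hd : 4 ≤ d) : ∃ C : ℝ, 0 < C ∧
    ∀ (e : Sp d) (a ℓ : ℝ), ‖e‖ = 1 → 0 < a → 0 ≤ ℓ →
    ∫⁻ y in closedBall (0 : Sp d) ℓ, ENNReal.ofReal (1 / (1 + (a * ‖perp e y‖) ^ 3)) ≤
      ENNReal.ofReal (C * ℓ ^ (d - 2) / a ^ 2) := by
  refine ⟨4 * 2 * 2 ^ (d - 1) * 2, by positivity, ?_⟩
  intro e a ℓ he ha hℓ
  have key := vd_dyad (by omega) e he hℓ (fun r => 1 / (1 + (a * r) ^ 3))
    (fun k => 4 * 4 ^ k / (a ^ 2 * ℓ ^ 2)) (fun k => ℓ * (1 / 2) ^ k) (fun k => by positivity)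
    (fun k => by positivity) ?_ (K := 4 * 2 * 2 ^ (d - 1) * ℓ ^ (d - 2) / a ^ 2) (by positivity) ?_
  · refine key.trans (ENNReal.ofReal_le_ofReal (le_of_eq ?_))
    ring
  · intro r hr hrl
    have hl : 0 < ℓ := hr.trans_le hrl
    obtain ⟨n, hn1, hn2⟩ := exists_nat_pow_near_of_lt_one (x := r / ℓ) (y := (1 / 2 : ℝ))
      (div_pos hr hl) ((div_le_one hl).2 hrl) (by norm_num) (by norm_num)
    refine ⟨n, ?_, ?_⟩
    · rw [div_le_iff₀ hl] at hn2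
      show r ≤ ℓ * (1 / 2) ^ n
      linarith
    · rw [lt_div_iff₀ hl] at hn1
      have h0 : 0 < a * r := by positivity
      have h1 : (1 : ℝ) / (1 + (a * r) ^ 3) ≤ 1 / (a * r) ^ 2 := by
        apply one_div_le_one_div_of_le (by positivity)
        nlinarith [sq_nonneg (a * r - 1), sq_nonneg (a * r), mul_pos h0 h0,
          mul_nonneg h0.le (sq_nonneg (a * r - 1))]
      have h2 : (1 : ℝ) / (a * r) ^ 2 ≤ 1 / (a * ((1 / 2) ^ (n + 1) * ℓ)) ^ 2 := by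
        apply one_div_le_one_div_of_le (by positivity)
        gcongr
      refine (h1.trans h2).trans (le_of_eq ?_)
      show 1 / (a * ((1 / 2) ^ (n + 1) * ℓ)) ^ 2 = 4 * 4 ^ n / (a ^ 2 * ℓ ^ 2)
      have h4 : (4 : ℝ) ^ n = 2 ^ n * 2 ^ n := by
        rw [← mul_pow]
        norm_num
      rw [h4, one_div_pow, pow_succ]
      field_simp
      ring
  · intro k
    rcases hℓ.eq_or_lt with h0 | h0
    · rw [← h0]
      have : (0 : ℝ) ^ (d - 2) = 0 := zero_pow (by omega)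
      simp [this]
    · have hm : ∃ m, d = m + 4 := ⟨d - 4, by omega⟩
      obtain ⟨m, hm⟩ := hm
      subst hm
      have e0 : m + 4 - 1 = m + 3 := by omega
      have e00 : m + 4 - 2 = m + 2 := by omega
      rw [e0, e00]
      show 4 * 4 ^ k / (a ^ 2 * ℓ ^ 2) * (2 * ℓ * (2 * (ℓ * (1 / 2) ^ k)) ^ (m + 3)) ≤
        4 * 2 * 2 ^ (m + 3) * ℓ ^ (m + 2) / a ^ 2 * (1 / 2) ^ k
      have e1 : 4 * (4 : ℝ) ^ k / (a ^ 2 * ℓ ^ 2) * (2 * ℓ * (2 * (ℓ * (1 / 2) ^ k)) ^ (m + 3)) =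
          4 * 2 * 2 ^ (m + 3) * ℓ ^ (m + 2) / a ^ 2 *
            ((1 / 2) ^ k * ((4 ^ k * (1 / 2) ^ k * (1 / 2) ^ k) * ((1 / 2) ^ k) ^ m)) := by
        rw [mul_pow, mul_pow, pow_add ℓ, pow_add ((1 / 2 : ℝ) ^ k), pow_add ℓ m 2]
        field_simp
      rw [e1]
      have e2 : (4 : ℝ) ^ k * (1 / 2) ^ k * (1 / 2) ^ k = 1 := by
        rw [← mul_pow, ← mul_pow]
        norm_num
      have e3 : ((1 / 2 : ℝ) ^ k) ^ m ≤ 1 :=
        pow_le_one₀ (by positivity) (pow_le_one₀ (by norm_num) (by norm_num))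
      rw [e2, one_mul]
      have e4 : (1 / 2 : ℝ) ^ k * ((1 / 2) ^ k) ^ m ≤ (1 / 2) ^ k * 1 := by gcongr
      rw [mul_one] at e4
      gcongr

end NB5
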