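import Pool.Agent.NB5.VDefs

/-!
# NB5-VCyl: volume of cylinders

PLAN. Let `n : Sp d` be the first basis vector `EuclideanSpace.single ⟨0, _⟩ 1` (`1 ≤ d`), and `ρ` a
linear isometry equivalence with `ρ e = n` (if `e ≠ n` the reflection
`(ℝ ∙ (e - n))ᗮ.reflection`, `Submodule.reflection_sub`, see `exists_rot` in
`Pool/Agent/Helper47/UB/Sphere.lean`). Put `c = ⟪e, c1⟫ • e + perp e c2`; then
`cyl e c1 c2 τ σ = {u | |⟪e, u - c⟫| ≤ τ ∧ ‖perp e (u - c)‖ ≤ σ}` (linearity, `⟪e, perp e v⟫ = 0`,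
`perp e (perp e v) = perp e v`, `perp e e = 0`). `ρ` maps it into the box
`{v | |v 0 - (ρ c) 0| ≤ τ ∧ ∀ i ≠ 0, |v i - (ρ c) i| ≤ σ}` (`ρ (perp e w) = perp n (ρ w)`, the
coordinates `i ≠ 0` of `perp n v` are those of `v`, and `|w i| ≤ ‖w‖`). `ρ` preserves the volume
(`LinearIsometryEquiv.measurePreserving`), and the volume of a box in `EuclideanSpace` is the product
of the side lengths (`EuclideanSpace.volume_preserving_measurableEquiv` or
`PiLp.volume_preserving_ofLp`, `Real.volume_pi_Icc` or `volume_pi`, `Real.volume_Icc`):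
`2τ (2σ)^(d-1)`.
-/

open MeasureTheory Set Filter Topology Metric
open scoped NNReal ENNReal RealInnerProductSpace

namespace NB5

open HDN

private theorem vc_rot {d : ℕ} (e n : Sp d) (h : ‖e‖ = ‖n‖) : ∃ ρ : Sp d ≃ₗᵢ[ℝ] Sp d, ρ e = n :=
  ⟨(ℝ ∙ (e - n))ᗮ.reflection, Submodule.reflection_sub h⟩

private theorem vc_box {d : ℕ} (p R : Fin d → ℝ) :
    volume {v : Sp d | ∀ i, |v i - p i| ≤ R i} = ∏ i, ENNReal.ofReal (2 * R i) := by
  have h1 : {v : Sp d | ∀ i, |v i - p i| ≤ R i} =
      (WithLp.ofLp : Sp d → (Fin d → ℝ)) ⁻¹' (Set.pi Set.univ fun i => Icc (p i - R i) (p i + R i)) := by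
    ext v
    simp only [mem_setOf_eq, mem_preimage, Set.mem_pi, Set.mem_univ, forall_const, mem_Icc]
    refine forall_congr' fun i => ?_
    rw [abs_le]
    constructor
    · rintro ⟨h1, h2⟩
      constructor <;> linarith
    · rintro ⟨h1, h2⟩
      constructor <;> linarith
  have hm : MeasurableSet (Set.pi Set.univ fun i => Icc (p i - R i) (p i + R i)) :=
    MeasurableSet.univ_pi fun i => measurableSet_Icc
  rw [h1, (PiLp.volume_preserving_ofLp (Fin d)).measure_preimage hm.nullMeasurableSet,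
    volume_pi_pi]
  refine Finset.prod_congr rfl fun i _ => ?_
  rw [Real.volume_Icc]
  congr 1
  ring

private theorem vc_coord {d : ℕ} (v : Sp d) (i : Fin d) : |v i| ≤ ‖v‖ := by
  have h := PiLp.norm_apply_le v i
  rwa [Real.norm_eq_abs] at h

theorem cyl_vol {d : ℕ} (hd : 1 ≤ d) (e c1 c2 : Sp d) (he : ‖e‖ = 1) {τ σ : ℝ} (hτ : 0 ≤ τ)
    (hσ : 0 ≤ σ) : volume (cyl e c1 c2 τ σ) ≤ ENNReal.ofReal (2 * τ * (2 * σ) ^ (d - 1)) := by
  have hi : 0 < d := hd
  set i0 : Fin d := ⟨0, hi⟩ with hi0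
  have hn : ‖(EuclideanSpace.single i0 1 : Sp d)‖ = 1 := by
    rw [EuclideanSpace.norm_single]
    simp
  obtain ⟨ρ, hρ⟩ := vc_rot e (EuclideanSpace.single i0 1) (by rw [he, hn])
  set p : Fin d → ℝ := fun i => if i = i0 then ⟪e, c1⟫ else (ρ c2) i with hp
  set R : Fin d → ℝ := fun i => if i = i0 then τ else σ with hR
  have hin : ∀ w : Sp d, (ρ w) i0 = ⟪e, w⟫ := by
    intro w
    rw [← ρ.inner_map_map e w, hρ, EuclideanSpace.inner_single_left]
    simp
  have hsub : cyl e c1 c2 τ σ ⊆ ρ ⁻¹' {v : Sp d | ∀ i, |v i - p i| ≤ R i} := by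
    rintro u ⟨hu1, hu2⟩ i
    by_cases h : i = i0
    · rw [hp, hR]
      simp only
      rw [if_pos h, if_pos h, h, hin, ← inner_sub_right]
      exact hu1
    · rw [hp, hR]
      simp only
      rw [if_neg h, if_neg h]
      have h1 : (ρ u) i - (ρ c2) i = (ρ (perp e (u - c2))) i := by
        unfold perp
        rw [map_sub, map_smul, hρ, map_sub]
        simp [h]
      rw [h1]
      refine (vc_coord _ i).trans ?_
      rw [ρ.norm_map]
      exact hu2
  have hms : MeasurableSet {v : Sp d | ∀ i, |v i - p i| ≤ R i} := by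
    rw [Set.setOf_forall]
    refine MeasurableSet.iInter fun i => ?_
    apply measurableSet_le
    · fun_prop
    · fun_prop
  calc volume (cyl e c1 c2 τ σ) ≤ volume (ρ ⁻¹' {v : Sp d | ∀ i, |v i - p i| ≤ R i}) :=
        measure_mono hsub
    _ = volume {v : Sp d | ∀ i, |v i - p i| ≤ R i} :=
        ρ.measurePreserving.measure_preimage hms.nullMeasurableSet
    _ = ∏ i, ENNReal.ofReal (2 * R i) := vc_box p R
    _ = ENNReal.ofReal (∏ i, (2 * R i)) := by
        rw [ENNReal.ofReal_prod_of_nonneg]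
        intro i _
        rw [hR]
        simp only
        split_ifs <;> positivity
    _ ≤ ENNReal.ofReal (2 * τ * (2 * σ) ^ (d - 1)) := by
        apply ENNReal.ofReal_le_ofReal
        rw [← Finset.mul_prod_erase Finset.univ _ (Finset.mem_univ i0)]
        have h1 : ∀ i ∈ Finset.univ.erase i0, 2 * R i = 2 * σ := by
          intro i hi
          rw [hR]
          simp only
          rw [if_neg (Finset.ne_of_mem_erase hi)]
        rw [Finset.prod_congr rfl h1, Finset.prod_const, Finset.card_erase_of_mem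
          (Finset.mem_univ i0), Finset.card_univ, Fintype.card_fin, hR]
        simp

end NB5
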