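import Pool.Agent.NB5.Defs

/-!
# Volume estimates (project NB5): definitions

Jacobi coordinates without normalisation: `Yc A j q = ∑ a, A j a • q a` (`j : Fin 4`), with weights
`μ j`. The five trees. `b` is the level (`V = b ^ 100`), `A` the matrix of a tree.
-/

open MeasureTheory Set Filter Topology Metric
open scoped NNReal ENNReal RealInnerProductSpace

namespace NB5

open HDN

variable {d : ℕ}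

/-- Jacobi coordinate number `j` of a configuration (of positions or of velocities) -/
noncomputable def Yc (A : Fin 4 → Fin 5 → ℝ) (j : Fin 4) (q : Cf 5 d) : Sp d := ∑ a, A j a • q a

/-- Jacobi systems -/
structure Jac (m : Fin 5 → ℝ) (A : Fin 4 → Fin 5 → ℝ) (μ : Fin 4 → ℝ) : Prop where
  mpos : ∀ i, 0 < m i
  pos : ∀ j, 0 < μ j
  zero : ∀ j, ∑ a, A j a = 0
  orth : ∀ i j, ∑ a, A i a * A j a / m a = if i = j then 1 / μ i else 0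

/-- the five trees: `C = (((01)2)3)4`, `K = ((01)2)(34)`, `H = ((01)(23))4`, `G = (01)((23)4)`,
`L = ((01)4)(23)`. The first coordinate is always `q 0 - q 1`. -/
inductive Tree
  | C
  | K
  | H
  | G
  | L

/-- coordinates of the trees:
`C`: `q0 - q1`, `q2 - X01`, `q3 - X012`, `q4 - X0123`;
`K`: `q0 - q1`, `q2 - X01`, `q3 - q4`, `X34 - X012`;
`H`: `q0 - q1`, `q2 - q3`, `X23 - X01`, `q4 - X0123`;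
`G`: `q0 - q1`, `q2 - q3`, `q4 - X23`, `X234 - X01`;
`L`: `q0 - q1`, `q2 - q3`, `q4 - X01`, `X014 - X23`. -/
noncomputable def TA (t : Tree) (m : Fin 5 → ℝ) : Fin 4 → Fin 5 → ℝ :=
  match t with
  | .C => ![![1, -1, 0, 0, 0],
      ![-(m 0 / (m 0 + m 1)), -(m 1 / (m 0 + m 1)), 1, 0, 0],
      ![-(m 0 / (m 0 + m 1 + m 2)), -(m 1 / (m 0 + m 1 + m 2)), -(m 2 / (m 0 + m 1 + m 2)), 1, 0],
      ![-(m 0 / (m 0 + m 1 + m 2 + m 3)), -(m 1 / (m 0 + m 1 + m 2 + m 3)),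
        -(m 2 / (m 0 + m 1 + m 2 + m 3)), -(m 3 / (m 0 + m 1 + m 2 + m 3)), 1]]
  | .K => ![![1, -1, 0, 0, 0],
      ![-(m 0 / (m 0 + m 1)), -(m 1 / (m 0 + m 1)), 1, 0, 0],
      ![0, 0, 0, 1, -1],
      ![-(m 0 / (m 0 + m 1 + m 2)), -(m 1 / (m 0 + m 1 + m 2)), -(m 2 / (m 0 + m 1 + m 2)),
        m 3 / (m 3 + m 4), m 4 / (m 3 + m 4)]]
  | .H => ![![1, -1, 0, 0, 0],
      ![0, 0, 1, -1, 0],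
      ![-(m 0 / (m 0 + m 1)), -(m 1 / (m 0 + m 1)), m 2 / (m 2 + m 3), m 3 / (m 2 + m 3), 0],
      ![-(m 0 / (m 0 + m 1 + m 2 + m 3)), -(m 1 / (m 0 + m 1 + m 2 + m 3)),
        -(m 2 / (m 0 + m 1 + m 2 + m 3)), -(m 3 / (m 0 + m 1 + m 2 + m 3)), 1]]
  | .G => ![![1, -1, 0, 0, 0],
      ![0, 0, 1, -1, 0],
      ![0, 0, -(m 2 / (m 2 + m 3)), -(m 3 / (m 2 + m 3)), 1],
      ![-(m 0 / (m 0 + m 1)), -(m 1 / (m 0 + m 1)), m 2 / (m 2 + m 3 + m 4),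
        m 3 / (m 2 + m 3 + m 4), m 4 / (m 2 + m 3 + m 4)]]
  | .L => ![![1, -1, 0, 0, 0],
      ![0, 0, 1, -1, 0],
      ![-(m 0 / (m 0 + m 1)), -(m 1 / (m 0 + m 1)), 0, 0, 1],
      ![m 0 / (m 0 + m 1 + m 4), m 1 / (m 0 + m 1 + m 4), -(m 2 / (m 2 + m 3)),
        -(m 3 / (m 2 + m 3)), m 4 / (m 0 + m 1 + m 4)]]

/-- reduced masses of the trees -/
noncomputable def Tμ (t : Tree) (m : Fin 5 → ℝ) : Fin 4 → ℝ :=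
  match t with
  | .C => ![m 0 * m 1 / (m 0 + m 1), (m 0 + m 1) * m 2 / (m 0 + m 1 + m 2),
      (m 0 + m 1 + m 2) * m 3 / (m 0 + m 1 + m 2 + m 3),
      (m 0 + m 1 + m 2 + m 3) * m 4 / (m 0 + m 1 + m 2 + m 3 + m 4)]
  | .K => ![m 0 * m 1 / (m 0 + m 1), (m 0 + m 1) * m 2 / (m 0 + m 1 + m 2),
      m 3 * m 4 / (m 3 + m 4),
      (m 0 + m 1 + m 2) * (m 3 + m 4) / (m 0 + m 1 + m 2 + m 3 + m 4)]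
  | .H => ![m 0 * m 1 / (m 0 + m 1), m 2 * m 3 / (m 2 + m 3),
      (m 0 + m 1) * (m 2 + m 3) / (m 0 + m 1 + m 2 + m 3),
      (m 0 + m 1 + m 2 + m 3) * m 4 / (m 0 + m 1 + m 2 + m 3 + m 4)]
  | .G => ![m 0 * m 1 / (m 0 + m 1), m 2 * m 3 / (m 2 + m 3),
      (m 2 + m 3) * m 4 / (m 2 + m 3 + m 4),
      (m 0 + m 1) * (m 2 + m 3 + m 4) / (m 0 + m 1 + m 2 + m 3 + m 4)]
  | .L => ![m 0 * m 1 / (m 0 + m 1), m 2 * m 3 / (m 2 + m 3),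
      (m 0 + m 1) * m 4 / (m 0 + m 1 + m 4),
      (m 0 + m 1 + m 4) * (m 2 + m 3) / (m 0 + m 1 + m 2 + m 3 + m 4)]

/-- the part of `u` orthogonal to the unit vector `e` -/
noncomputable def perp (e u : Sp d) : Sp d := u - ⟪e, u⟫ • e

/-- cylinder around the direction `e` -/
def cyl (e c1 c2 : Sp d) (τ σ : ℝ) : Set (Sp d) :=
  {u | |⟪e, u - c1⟫| ≤ τ ∧ ‖perp e (u - c2)‖ ≤ σ}

/-- kernel of the angular momentum window -/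
noncomputable def ker1 (T : Sp d →L[ℝ] Sp d) : ℝ≥0∞ := ENNReal.ofReal (1 / (1 + ‖T‖))

/-! ## The sets of states in Jacobi coordinates -/

/-- box of type A: `|u1| ≤ C |y0|^(-1/2)` -/
def BoxA (A : Fin 4 → Fin 5 → ℝ) (C r0 s1 s2 V D1 D2 : ℝ) (x : St d) : Prop :=
  ‖Yc A 0 x.1‖ ≤ r0 ∧ ‖Yc A 0 x.2‖ ≤ C / √‖Yc A 0 x.1‖ ∧
  ‖Yc A 1 x.1‖ ≤ s1 ∧ ‖Yc A 1 x.2‖ ≤ C / √‖Yc A 0 x.1‖ ∧
  ‖Yc A 2 x.1‖ ≤ s2 ∧ ‖Yc A 2 x.2‖ ≤ V ∧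
  ‖Yc A 3 x.1‖ ≤ D1 + D2 / √√‖Yc A 0 x.1‖ ∧ ‖Yc A 3 x.2‖ ≤ V

/-- the function `1 / √|y0|` on a box of type A -/
noncomputable def gA (A : Fin 4 → Fin 5 → ℝ) (C r0 s1 s2 V D1 D2 : ℝ) (x : St d) : ℝ≥0∞ :=
  onSet (BoxA A C r0 s1 s2 V D1 D2 x) (1 / √‖Yc A 0 x.1‖)

/-- box of type P (mode I, three linkages): `|u1| ≤ C (b^100 + |y1|^(-1/2))` -/
def BoxP (A : Fin 4 → Fin 5 → ℝ) (C b : ℝ) (x : St d) : Prop :=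
  ‖Yc A 0 x.1‖ ≤ C / b ^ 200 ∧ ‖Yc A 0 x.2‖ ≤ C / √‖Yc A 0 x.1‖ ∧
  ‖Yc A 1 x.1‖ ≤ C / b ^ 77 ∧ ‖Yc A 1 x.2‖ ≤ C * (b ^ 100 + 1 / √‖Yc A 1 x.1‖) ∧
  ‖Yc A 2 x.1‖ ≤ C / b ^ 77 ∧ ‖Yc A 2 x.2‖ ≤ C * b ^ 100 ∧
  ‖Yc A 3 x.1‖ ≤ C * b ^ 100 ∧ ‖Yc A 3 x.2‖ ≤ C * b ^ 100

/-- the function `|y0|^(-1/2) + |y1|^(-1/2)` on a box of type P -/
noncomputable def gPb (A : Fin 4 → Fin 5 → ℝ) (C b : ℝ) (x : St d) : ℝ≥0∞ :=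
  onSet (BoxP A C b x) (1 / √‖Yc A 0 x.1‖ + 1 / √‖Yc A 1 x.1‖)

/-- box of type X (exits) -/
def BoxX (A : Fin 4 → Fin 5 → ℝ) (C b : ℝ) (x : St d) : Prop :=
  ‖Yc A 0 x.1‖ ≤ C / b ^ 200 ∧ ‖Yc A 0 x.2‖ ≤ C / √‖Yc A 0 x.1‖ ∧
  ‖Yc A 1 x.1‖ ≤ 2 / b ^ 96 ∧ ‖Yc A 1 x.2‖ ≤ C * b ^ 100 ∧
  ‖Yc A 2 x.1‖ ≤ C * b ^ 100 ∧ ‖Yc A 2 x.2‖ ≤ C * b ^ 100 ∧
  ‖Yc A 3 x.1‖ ≤ C * b ^ 100 ∧ ‖Yc A 3 x.2‖ ≤ C * b ^ 100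

/-- the four additional conditions (slow; near; slow pair; small angular momentum of a pair) -/
def CondX (i : Fin 4) (A : Fin 4 → Fin 5 → ℝ) (C β b : ℝ) (x : St d) : Prop :=
  match i with
  | 0 => ‖Yc A 1 x.2‖ ≤ C * b ^ 48
  | 1 => 1 ≤ ‖Yc A 1 x.2‖ ∧ ‖Yc A 2 x.1‖ ≤ C
  | 2 => 1 ≤ ‖Yc A 1 x.2‖ ∧
      ‖Yc A 2 x.2 + β • Yc A 1 x.2‖ ≤ C * (b ^ 10 + b ^ 96 / ‖Yc A 1 x.2‖)
  | 3 => 1 ≤ ‖Yc A 1 x.2‖ ∧ jw (Yc A 2 x.1) (Yc A 2 x.2 + β • Yc A 1 x.2) ≤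
      C * (b ^ 100 * (b ^ 96 / ‖Yc A 1 x.2‖ + 1 / b ^ 3))

/-- the exit weight on a box of type X -/
noncomputable def gXb (i : Fin 4) (A : Fin 4 → Fin 5 → ℝ) (C β b : ℝ) (x : St d) : ℝ≥0∞ :=
  onSet (BoxX A C b x ∧ CondX i A C β b x)
    (b ^ 96 * ‖Yc A 1 x.2‖ * Wt b (Yc A 1 x.1) (Yc A 1 x.2))

end NB5
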