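import Pool.Agent.NB5.VDefs

/-!
# NB5-VTree: the five trees are Jacobi systems
-/

open MeasureTheory Set Filter Topology Metric
open scoped NNReal ENNReal RealInnerProductSpace

namespace NB5

open HDN

variable {m : Fin 5 → ℝ}

private theorem vtree_zero (t : Tree) (hm : ∀ i, 0 < m i) (j : Fin 4) :
    ∑ a, TA t m j a = 0 := by
  have h0 := hm 0
  have h1 := hm 1
  have h2 := hm 2
  have h3 := hm 3
  have h4 := hm 4
  cases t <;> fin_cases j <;> simp [TA, Fin.sum_univ_five] <;> field_simp <;> ring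

private theorem vtree_pos (t : Tree) (hm : ∀ i, 0 < m i) (j : Fin 4) :
    0 < Tμ t m j := by
  have h0 := hm 0
  have h1 := hm 1
  have h2 := hm 2
  have h3 := hm 3
  have h4 := hm 4
  cases t <;> fin_cases j <;> simp [Tμ] <;> positivity

private theorem vtree_diag (t : Tree) (hm : ∀ i, 0 < m i) (i : Fin 4) :
    ∑ a, TA t m i a * TA t m i a / m a = 1 / Tμ t m i := by
  have h0 := hm 0
  have h1 := hm 1
  have h2 := hm 2
  have h3 := hm 3
  have h4 := hm 4
  cases t <;> fin_cases i <;> simp [TA, Tμ, Fin.sum_univ_five] <;> field_simp <;> ring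

private theorem vtree_off (t : Tree) (hm : ∀ i, 0 < m i) (i j : Fin 4) (hij : i < j) :
    ∑ a, TA t m i a * TA t m j a / m a = 0 := by
  have h0 := hm 0
  have h1 := hm 1
  have h2 := hm 2
  have h3 := hm 3
  have h4 := hm 4
  cases t <;> fin_cases i <;> fin_cases j <;> first
    | (exfalso; revert hij; decide)
    | (simp [TA, Fin.sum_univ_five] <;> field_simp <;> ring)

theorem tree_jac (t : Tree) (hm : ∀ i, 0 < m i) : Jac m (TA t m) (Tμ t m) := by
  refine ⟨hm, vtree_pos t hm, vtree_zero t hm, ?_⟩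
  intro i j
  rcases lt_trichotomy i j with h | h | h
  · rw [if_neg h.ne]
    exact vtree_off t hm i j h
  · subst h
    rw [if_pos rfl]
    exact vtree_diag t hm i
  · rw [if_neg h.ne']
    rw [← vtree_off t hm j i h]
    refine Finset.sum_congr rfl fun a _ => ?_
    rw [mul_comm]

private theorem red_bd {M a b : ℝ} (hM : 1 ≤ M) (ha : 1 / M ≤ a) (hb : 1 / M ≤ b)
    (h : a ≤ 5 * M ∨ b ≤ 5 * M) :
    1 / (2 * M) ≤ a * b / (a + b) ∧ a * b / (a + b) ≤ 5 * M := by
  have hM0 : 0 < M := by linarith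
  have hi : 0 < 1 / M := by positivity
  have ha0 : 0 < a := by linarith
  have hb0 : 0 < b := by linarith
  have haM : 1 ≤ a * M := by
    rw [div_le_iff₀ hM0] at ha
    exact ha
  have hbM : 1 ≤ b * M := by
    rw [div_le_iff₀ hM0] at hb
    exact hb
  constructor
  · rw [div_le_div_iff₀ (by positivity) (by positivity)]
    nlinarith [mul_nonneg ha0.le (sub_nonneg.2 hbM), mul_nonneg hb0.le (sub_nonneg.2 haM)]
  · rw [div_le_iff₀ (by positivity)]
    rcases h with h | h
    · nlinarith [mul_nonneg hb0.le (sub_nonneg.2 h), mul_nonneg ha0.le hM0.le]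
    · nlinarith [mul_nonneg ha0.le (sub_nonneg.2 h), mul_nonneg hb0.le hM0.le]

theorem tmu_bd {M : ℝ} (hm : Mb M m) (t : Tree) (j : Fin 4) :
    1 / (2 * M) ≤ Tμ t m j ∧ Tμ t m j ≤ 5 * M := by
  obtain ⟨hM, h⟩ := hm
  have hM0 : 0 < M := by linarith
  have hi : 0 < 1 / M := by positivity
  have h0 := h 0
  have h1 := h 1
  have h2 := h 2
  have h3 := h 3
  have h4 := h 4
  have key : ∀ a b s : ℝ, s = a + b → 1 / M ≤ a → 1 / M ≤ b → (a ≤ 5 * M ∨ b ≤ 5 * M) →
      1 / (2 * M) ≤ a * b / s ∧ a * b / s ≤ 5 * M := by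
    intro a b s hs ha hb hab
    subst hs
    exact red_bd hM ha hb hab
  cases t <;> fin_cases j <;> simp only [Tμ] <;>
    refine key _ _ _ (by ring) ?_ ?_ (Or.inl ?_) <;> linarith [h0.1, h1.1, h2.1, h3.1, h4.1,
      h0.2, h1.2, h2.2, h3.2, h4.2]

theorem mb_perm {M : ℝ} (hm : Mb M m) (s : Equiv.Perm (Fin 5)) : Mb M (m ∘ s) :=
  ⟨hm.1, fun i => hm.2 (s i)⟩

end NB5
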