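import Pool.Agent.NB5.VId
import Pool.Agent.NB5.VTree

/-!
# NB5-VEn: kinetic and potential energy of the clusters

PLAN. The identities of the kinetic energies are
`(a/2) ‖v‖² + (c/2) ‖w‖² = ((a+c)/2) ‖(a v + c w)/(a+c)‖² + (1/2)(a c/(a+c)) ‖v - w‖²` (expand with
`norm_add_sq_real`, `norm_sub_sq_real`, `norm_smul`, `field_simp`, `ring`; or coordinates). Note
`cm3 m 0 1 2 v = ((m 0 + m 1) cm m 0 1 v + m 2 v 2)/(m 0 + m 1 + m 2)`. `pot_expand`: `Fin.sum_univ_five`,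
`norm_sub_rev`; the sums over `univ.erase a` by `decide`-rewriting `Finset.univ.erase a = {...}` or
`Finset.sum_erase_eq_sub` (the diagonal term is `m a * m a / 0 = 0`). `vel_*`: each summand is `≤` the sum,
`1/M ≤ m i`, `M ≥ 1`: e.g. `‖v i‖² ≤ 2 M Kin`, `√(2M) ≤ 2M`. `yc_kin`: `jac_kin`, `tree_jac`, `tmu_bd`.
-/

open MeasureTheory Set Filter Topology Metric
open scoped NNReal ENNReal RealInnerProductSpace

namespace NB5

open HDN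

variable {d : ℕ} {m : Fin 5 → ℝ} {M : ℝ}

private theorem vEn_id {a c : ℝ} (ha : 0 < a) (hc : 0 < c) (v w : Sp d) :
    a * ‖v‖ ^ 2 + c * ‖w‖ ^ 2 = (a + c) * ‖(a + c)⁻¹ • (a • v + c • w)‖ ^ 2 +
      a * c / (a + c) * ‖v - w‖ ^ 2 := by
  have hs : 0 < a + c := by positivity
  rw [norm_smul, mul_pow, norm_add_sq_real, norm_sub_sq_real, norm_smul, norm_smul,
    real_inner_smul_left, real_inner_smul_right, Real.norm_of_nonneg ha.le,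
    Real.norm_of_nonneg hc.le, Real.norm_of_nonneg (inv_pos.2 hs).le]
  field_simp
  ring

private theorem vEn_sq {a r K : ℝ} (hM : 1 ≤ M) (ha : 1 / M ≤ a) (_hr : 0 ≤ r)
    (h : (1 / 2) * (a * r ^ 2) ≤ K) : r ≤ 2 * M * √K := by
  have hM0 : 0 < M := by linarith
  have ha' : 1 ≤ a * M := (div_le_iff₀ hM0).1 ha
  have ha0 : 0 < a := lt_of_lt_of_le (by positivity) ha
  have hK : 0 ≤ K := le_trans (by positivity) h
  have h1 : r ^ 2 ≤ (2 * M * √K) ^ 2 := by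
    rw [mul_pow, Real.sq_sqrt hK]
    have h2 : r ^ 2 ≤ a * M * r ^ 2 := by nlinarith [sq_nonneg r]
    have h3 : a * M * r ^ 2 ≤ 2 * M * K := by nlinarith
    have h4 : 2 * M * K ≤ (2 * M) ^ 2 * K := by nlinarith [mul_nonneg hM0.le hK]
    linarith
  exact abs_le_of_sq_le_sq' h1 (by positivity) |>.2

private theorem vEn_perm (f : Fin 5 → ℝ) {i j k : Fin 5} (hi : 2 ≤ i) (hj : 2 ≤ j) (hk : 2 ≤ k)
    (hij : i ≠ j) (hik : i ≠ k) (hjk : j ≠ k) : f 2 + f 3 + f 4 = f i + f j + f k := by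
  have h : ∀ i j k : Fin 5, 2 ≤ i → 2 ≤ j → 2 ≤ k → i ≠ j → i ≠ k → j ≠ k →
      ({2, 3, 4} : Finset (Fin 5)) = {i, j, k} := by decide
  have h1 := congrArg (fun s => ∑ x ∈ s, f x) (h i j k hi hj hk hij hik hjk)
  rw [Finset.sum_insert (by decide), Finset.sum_insert (by decide), Finset.sum_singleton,
    Finset.sum_insert (by simp [hij, hik]), Finset.sum_insert (by simp [hjk]),
    Finset.sum_singleton] at h1
  linarith

theorem kin_KQ (hm : ∀ i, 0 < m i) (v : Cf 5 d) :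
    Kin m v = KQ m v + (1 / 2) * (m 0 * m 1 / (m 0 + m 1)) * ‖v 0 - v 1‖ ^ 2 := by
  have h := vEn_id (hm 0) (hm 1) (v 0) (v 1)
  unfold Kin KQ cm
  rw [Fin.sum_univ_five]
  linear_combination (1 / 2) * h

theorem KQ_KT (hm : ∀ i, 0 < m i) (v : Cf 5 d) :
    KQ m v = KT m v +
      (1 / 2) * ((m 0 + m 1) * m 2 / (m 0 + m 1 + m 2)) * ‖v 2 - cm m 0 1 v‖ ^ 2 := by
  have h01 : 0 < m 0 + m 1 := add_pos (hm 0) (hm 1)
  have h := vEn_id h01 (hm 2) (cm m 0 1 v) (v 2)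
  have h2 : (m 0 + m 1) • cm m 0 1 v = m 0 • v 0 + m 1 • v 1 := by
    unfold cm
    rw [smul_smul, mul_inv_cancel₀ h01.ne', one_smul]
  rw [h2, norm_sub_rev] at h
  unfold KQ KT cm3
  linear_combination (1 / 2) * h

theorem KQ_KP (hm : ∀ i, 0 < m i) (v : Cf 5 d) :
    KQ m v = KP m v + (1 / 2) * (m 2 * m 3 / (m 2 + m 3)) * ‖v 2 - v 3‖ ^ 2 := by
  have h := vEn_id (hm 2) (hm 3) (v 2) (v 3)
  unfold KQ KP
  rw [show cm m 2 3 v = (m 2 + m 3)⁻¹ • (m 2 • v 2 + m 3 • v 3) from rfl]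
  linear_combination (1 / 2) * h

/-- the same for an arbitrary pair `j, k` -/
theorem KQ_jk (hm : ∀ i, 0 < m i) (v : Cf 5 d) {i j k : Fin 5} (hi : 2 ≤ i) (hj : 2 ≤ j) (hk : 2 ≤ k)
    (hij : i ≠ j) (hik : i ≠ k) (hjk : j ≠ k) :
    KQ m v = (1 / 2) * ((m 0 + m 1) * ‖cm m 0 1 v‖ ^ 2 + (m j + m k) * ‖cm m j k v‖ ^ 2 +
      m i * ‖v i‖ ^ 2) + (1 / 2) * (m j * m k / (m j + m k)) * ‖v j - v k‖ ^ 2 := by
  have h := vEn_id (hm j) (hm k) (v j) (v k)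
  have h2 := vEn_perm (fun x => m x * ‖v x‖ ^ 2) hi hj hk hij hik hjk
  unfold KQ
  rw [show cm m j k v = (m j + m k)⁻¹ • (m j • v j + m k • v k) from rfl]
  have h3 : m 2 * ‖v 2‖ ^ 2 + m 3 * ‖v 3‖ ^ 2 + m 4 * ‖v 4‖ ^ 2 =
      m i * ‖v i‖ ^ 2 + m j * ‖v j‖ ^ 2 + m k * ‖v k‖ ^ 2 := h2
  linear_combination (1 / 2) * h + (1 / 2) * h3

private theorem vEn_erase (m : Fin 5 → ℝ) (q : Cf 5 d) (a : Fin 5) :
    ∑ b ∈ Finset.univ.erase a, m a * m b / ‖q b - q a‖ = ∑ b, m a * m b / ‖q b - q a‖ := by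
  rw [Finset.sum_erase]
  simp

theorem pot_expand (m : Fin 5 → ℝ) (q : Cf 5 d) :
    Pot m q = m 0 * m 1 / ‖q 0 - q 1‖ + m 0 * m 2 / ‖q 0 - q 2‖ + m 0 * m 3 / ‖q 0 - q 3‖ +
      m 0 * m 4 / ‖q 0 - q 4‖ + m 1 * m 2 / ‖q 1 - q 2‖ + m 1 * m 3 / ‖q 1 - q 3‖ +
      m 1 * m 4 / ‖q 1 - q 4‖ + m 2 * m 3 / ‖q 2 - q 3‖ + m 2 * m 4 / ‖q 2 - q 4‖ +
      m 3 * m 4 / ‖q 3 - q 4‖ := by
  unfold Pot
  simp only [vEn_erase, Fin.sum_univ_five, sub_self, norm_zero, div_zero]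
  rw [norm_sub_rev (q 1) (q 0), norm_sub_rev (q 2) (q 0), norm_sub_rev (q 3) (q 0),
    norm_sub_rev (q 4) (q 0), norm_sub_rev (q 2) (q 1), norm_sub_rev (q 3) (q 1),
    norm_sub_rev (q 4) (q 1), norm_sub_rev (q 3) (q 2), norm_sub_rev (q 4) (q 2),
    norm_sub_rev (q 4) (q 3)]
  ring

theorem vel_kin (hm : Mb M m) (v : Cf 5 d) (i : Fin 5) : ‖v i‖ ≤ 2 * M * √(Kin m v) := by
  refine vEn_sq hm.1 (hm.2 i).1 (norm_nonneg _) ?_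
  have hM0 : 0 < M := by linarith [hm.1]
  have hp : ∀ a, 0 ≤ m a * ‖v a‖ ^ 2 := fun a =>
    mul_nonneg (le_trans (by positivity) (hm.2 a).1) (sq_nonneg _)
  unfold Kin
  exact mul_le_mul_of_nonneg_left (Finset.single_le_sum (f := fun a => m a * ‖v a‖ ^ 2)
    (fun a _ => hp a) (Finset.mem_univ i)) (by norm_num)

theorem vel_KQ (hm : Mb M m) (v : Cf 5 d) : ‖cm m 0 1 v‖ ≤ 2 * M * √(KQ m v) ∧
    ∀ j : Fin 5, 2 ≤ j → ‖v j‖ ≤ 2 * M * √(KQ m v) := by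
  have hM0 : 0 < M := by linarith [hm.1]
  have hp : ∀ a, 0 ≤ m a := fun a => le_trans (by positivity) (hm.2 a).1
  have h0 := mul_nonneg (add_nonneg (hp 0) (hp 1)) (sq_nonneg ‖cm m 0 1 v‖)
  have h2 := mul_nonneg (hp 2) (sq_nonneg ‖v 2‖)
  have h3 := mul_nonneg (hp 3) (sq_nonneg ‖v 3‖)
  have h4 := mul_nonneg (hp 4) (sq_nonneg ‖v 4‖)
  refine ⟨vEn_sq hm.1 (a := m 0 + m 1) (by linarith [(hm.2 0).1, hp 1]) (norm_nonneg _) ?_, ?_⟩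
  · unfold KQ
    linarith
  · intro j hj
    refine vEn_sq hm.1 (hm.2 j).1 (norm_nonneg _) ?_
    unfold KQ
    have hc : j = 2 ∨ j = 3 ∨ j = 4 := by
      revert j
      decide
    rcases hc with rfl | rfl | rfl <;> linarith

theorem vel_KT (hm : Mb M m) (v : Cf 5 d) : ‖cm3 m 0 1 2 v‖ ≤ 2 * M * √(KT m v) ∧
    ‖v 3‖ ≤ 2 * M * √(KT m v) ∧ ‖v 4‖ ≤ 2 * M * √(KT m v) := by
  have hM0 : 0 < M := by linarith [hm.1]
  have hp : ∀ a, 0 ≤ m a := fun a => le_trans (by positivity) (hm.2 a).1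
  have h0 := mul_nonneg (add_nonneg (add_nonneg (hp 0) (hp 1)) (hp 2))
    (sq_nonneg ‖cm3 m 0 1 2 v‖)
  have h3 := mul_nonneg (hp 3) (sq_nonneg ‖v 3‖)
  have h4 := mul_nonneg (hp 4) (sq_nonneg ‖v 4‖)
  refine ⟨vEn_sq hm.1 (a := m 0 + m 1 + m 2) (by linarith [(hm.2 0).1, hp 1, hp 2])
    (norm_nonneg _) ?_, vEn_sq hm.1 (hm.2 3).1 (norm_nonneg _) ?_,
    vEn_sq hm.1 (hm.2 4).1 (norm_nonneg _) ?_⟩ <;> unfold KT <;> linarith

theorem vel_KP (hm : Mb M m) (v : Cf 5 d) : ‖cm m 0 1 v‖ ≤ 2 * M * √(KP m v) ∧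
    ‖cm m 2 3 v‖ ≤ 2 * M * √(KP m v) ∧ ‖v 4‖ ≤ 2 * M * √(KP m v) := by
  have hM0 : 0 < M := by linarith [hm.1]
  have hp : ∀ a, 0 ≤ m a := fun a => le_trans (by positivity) (hm.2 a).1
  have h0 := mul_nonneg (add_nonneg (hp 0) (hp 1)) (sq_nonneg ‖cm m 0 1 v‖)
  have h2 := mul_nonneg (add_nonneg (hp 2) (hp 3)) (sq_nonneg ‖cm m 2 3 v‖)
  have h4 := mul_nonneg (hp 4) (sq_nonneg ‖v 4‖)
  refine ⟨vEn_sq hm.1 (a := m 0 + m 1) (by linarith [(hm.2 0).1, hp 1]) (norm_nonneg _) ?_,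
    vEn_sq hm.1 (a := m 2 + m 3) (by linarith [(hm.2 2).1, hp 3]) (norm_nonneg _) ?_,
    vEn_sq hm.1 (hm.2 4).1 (norm_nonneg _) ?_⟩ <;> unfold KP <;> linarith

theorem yc_kin (hm : Mb M m) (t : Tree) (j : Fin 4) (v : Cf 5 d) :
    ‖Yc (TA t m) j v‖ ≤ 4 * M * √(Kin m v) := by
  have hM0 : 0 < M := by linarith [hm.1]
  have hm0 : ∀ a, 0 < m a := fun a => lt_of_lt_of_le (by positivity) (hm.2 a).1
  have hJ := tree_jac t hm0
  have h := jac_kin hJ v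
  have hpos : 0 ≤ ∑ a, m a := Finset.sum_nonneg fun a _ => (hm0 a).le
  have h1 : Tμ t m j / 2 * ‖Yc (TA t m) j v‖ ^ 2 ≤ ∑ j, Tμ t m j / 2 * ‖Yc (TA t m) j v‖ ^ 2 :=
    Finset.single_le_sum (f := fun j => Tμ t m j / 2 * ‖Yc (TA t m) j v‖ ^ 2)
      (fun i _ => mul_nonneg (by linarith [hJ.pos i]) (sq_nonneg _)) (Finset.mem_univ j)
  have h2 : 0 ≤ (∑ a, m a) / 2 * ‖cmv m v‖ ^ 2 := by positivity
  have h3 := vEn_sq (M := 2 * M) (a := Tμ t m j) (r := ‖Yc (TA t m) j v‖) (K := Kin m v)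
    (by linarith [hm.1]) (tmu_bd hm t j).1 (norm_nonneg _) (by linarith)
  calc _ ≤ _ := h3
    _ = _ := by ring

end NB5
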