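import Pool.Agent.NB5.VId

/-!
# NB5-VFub: change of variables to Jacobi coordinates

PLAN. Let `V = Sp d`. The map `Φ x = ((y0, (y1, u1), (y2, u2), (y3, u3), u0), (X, P))`,
`St d → (V × (V × V) × (V × V) × (V × V) × V) × (V × V)`, `y j = Yc A j x.1`, `u j = Yc A j x.2`,
`X = cmv m x.1`, `P = cmv m x.2`, is a linear bijection (inverse by `recf`: `recf_yc`, `yc_recf`,
`cmv_recf`), hence a continuous linear equivalence (`LinearEquiv.toContinuousLinearEquiv`). The image of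
the volume is an additive Haar measure, so `map Φ volume = c0 • volume` with `c0 ≠ ⊤`
(`MeasureTheory.Measure.isAddHaarMeasure_eq_smul`, `ContinuousLinearEquiv.isAddHaarMeasure_map`).
`MeasurableEmbedding.lintegral_map` / `restrict_map` (no measurability of `F`!):
`∫ x in Φ⁻¹(univ ×ˢ (ball ×ˢ ball)), F' (Φ x).1 = c0 * ∫ w in univ ×ˢ (ball ×ˢ ball), F' w.1`
`≤ c0 * (volume (ball ×ˢ ball)) * ∫ w, F' w` (`lintegral_prod_le`, valid for all functions, and
`lintegral_const`, `lintegral_mul_const'`, the volume of the product of the two closed balls is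
finite), and then `lintegral_prod_le` four more times.
-/

open MeasureTheory Set Filter Topology Metric
open scoped NNReal ENNReal RealInnerProductSpace

namespace NB5

open HDN

variable {d : ℕ} {m : Fin 5 → ℝ} {A : Fin 4 → Fin 5 → ℝ} {μ : Fin 4 → ℝ}

set_option synthInstance.maxSize 2000

/-- the space of Jacobi coordinates of states -/
private abbrev JW (d : ℕ) := Sp d × (Sp d × Sp d) × (Sp d × Sp d) × (Sp d × Sp d) × Sp d

private theorem yc_add (A : Fin 4 → Fin 5 → ℝ) (j : Fin 4) (q q' : Cf 5 d) :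
    Yc A j (q + q') = Yc A j q + Yc A j q' := by
  unfold Yc
  rw [← Finset.sum_add_distrib]
  exact Finset.sum_congr rfl fun a _ => by rw [Pi.add_apply, smul_add]

private theorem yc_smul (A : Fin 4 → Fin 5 → ℝ) (j : Fin 4) (r : ℝ) (q : Cf 5 d) :
    Yc A j (r • q) = r • Yc A j q := by
  unfold Yc
  rw [Finset.smul_sum]
  exact Finset.sum_congr rfl fun a _ => by rw [Pi.smul_apply, smul_comm]

private theorem cmv_add (m : Fin 5 → ℝ) (q q' : Cf 5 d) :
    cmv m (q + q') = cmv m q + cmv m q' := by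
  unfold cmv
  rw [← smul_add, ← Finset.sum_add_distrib]
  congr 1
  exact Finset.sum_congr rfl fun a _ => by rw [Pi.add_apply, smul_add]

private theorem cmv_smul (m : Fin 5 → ℝ) (r : ℝ) (q : Cf 5 d) :
    cmv m (r • q) = r • cmv m q := by
  unfold cmv
  have h1 : ∑ a, m a • (r • q) a = r • ∑ a, m a • q a := by
    rw [Finset.smul_sum]
    exact Finset.sum_congr rfl fun a _ => by rw [Pi.smul_apply, smul_comm]
  rw [h1, smul_comm]

private noncomputable def jmap (m : Fin 5 → ℝ) (A : Fin 4 → Fin 5 → ℝ) :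
    St d →ₗ[ℝ] JW d × (Sp d × Sp d) where
  toFun x := ((Yc A 0 x.1, (Yc A 1 x.1, Yc A 1 x.2), (Yc A 2 x.1, Yc A 2 x.2),
    (Yc A 3 x.1, Yc A 3 x.2), Yc A 0 x.2), (cmv m x.1, cmv m x.2))
  map_add' x y := by
    rw [Prod.fst_add, Prod.snd_add]
    simp only [yc_add, cmv_add, Prod.mk_add_mk]
  map_smul' r x := by
    rw [Prod.smul_fst, Prod.smul_snd]
    simp only [yc_smul, cmv_smul, Prod.smul_mk, RingHom.id_apply]

private theorem jmap_bij (h : Jac m A μ) : Function.Bijective (jmap m A : St d →ₗ[ℝ] _) := by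
  constructor
  · intro x x' hx
    have h1 : ((Yc A 0 x.1, (Yc A 1 x.1, Yc A 1 x.2), (Yc A 2 x.1, Yc A 2 x.2),
        (Yc A 3 x.1, Yc A 3 x.2), Yc A 0 x.2), (cmv m x.1, cmv m x.2)) =
        ((Yc A 0 x'.1, (Yc A 1 x'.1, Yc A 1 x'.2), (Yc A 2 x'.1, Yc A 2 x'.2),
        (Yc A 3 x'.1, Yc A 3 x'.2), Yc A 0 x'.2), (cmv m x'.1, cmv m x'.2)) := hx
    simp only [Prod.mk.injEq] at h1
    obtain ⟨⟨a0, ⟨a1, b1⟩, ⟨a2, b2⟩, ⟨a3, b3⟩, b0⟩, c1, c2⟩ := h1
    have e1 : (fun j => Yc A j x.1) = fun j => Yc A j x'.1 := by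
      funext j
      fin_cases j
      · exact a0
      · exact a1
      · exact a2
      · exact a3
    have e2 : (fun j => Yc A j x.2) = fun j => Yc A j x'.2 := by
      funext j
      fin_cases j
      · exact b0
      · exact b1
      · exact b2
      · exact b3
    refine Prod.ext ?_ ?_
    · rw [← recf_yc h x.1, ← recf_yc h x'.1, e1, c1]
    · rw [← recf_yc h x.2, ← recf_yc h x'.2, e2, c2]
  · rintro ⟨⟨y0, ⟨y1, u1⟩, ⟨y2, u2⟩, ⟨y3, u3⟩, u0⟩, c1, c2⟩
    refine ⟨(recf m A μ c1 ![y0, y1, y2, y3], recf m A μ c2 ![u0, u1, u2, u3]), ?_⟩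
    show ((Yc A 0 (recf m A μ c1 ![y0, y1, y2, y3]),
      (Yc A 1 (recf m A μ c1 ![y0, y1, y2, y3]), Yc A 1 (recf m A μ c2 ![u0, u1, u2, u3])),
      (Yc A 2 (recf m A μ c1 ![y0, y1, y2, y3]), Yc A 2 (recf m A μ c2 ![u0, u1, u2, u3])),
      (Yc A 3 (recf m A μ c1 ![y0, y1, y2, y3]), Yc A 3 (recf m A μ c2 ![u0, u1, u2, u3])),
      Yc A 0 (recf m A μ c2 ![u0, u1, u2, u3])),
      (cmv m (recf m A μ c1 ![y0, y1, y2, y3]), cmv m (recf m A μ c2 ![u0, u1, u2, u3]))) = _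
    simp only [yc_recf h, cmv_recf h]
    rfl

private theorem fub5 (G : JW d → ℝ≥0∞) :
    ∫⁻ w, G w ≤ ∫⁻ y : Sp d, ∫⁻ p : Sp d × Sp d, ∫⁻ z : Sp d × Sp d, ∫⁻ z' : Sp d × Sp d,
      ∫⁻ u : Sp d, G (y, p, z, z', u) := by
  refine (lintegral_prod_le _).trans (lintegral_mono fun y => ?_)
  refine (lintegral_prod_le _).trans (lintegral_mono fun p => ?_)
  refine (lintegral_prod_le _).trans (lintegral_mono fun z => ?_)
  exact lintegral_prod_le _

theorem jac_fub (h : Jac m A μ) (R : ℝ) : ∃ c : ℝ≥0∞, c ≠ ⊤ ∧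
    ∀ F : Sp d → Sp d × Sp d → Sp d × Sp d → Sp d × Sp d → Sp d → ℝ≥0∞,
    ∫⁻ x in {x : St d | ‖cmv m x.1‖ ≤ R ∧ ‖cmv m x.2‖ ≤ R},
      F (Yc A 0 x.1) (Yc A 1 x.1, Yc A 1 x.2) (Yc A 2 x.1, Yc A 2 x.2) (Yc A 3 x.1, Yc A 3 x.2)
        (Yc A 0 x.2) ≤
    c * ∫⁻ y : Sp d, ∫⁻ p : Sp d × Sp d, ∫⁻ z : Sp d × Sp d, ∫⁻ z' : Sp d × Sp d, ∫⁻ u : Sp d,
      F y p z z' u := by
  let e : St d ≃L[ℝ] JW d × (Sp d × Sp d) :=
    (LinearEquiv.ofBijective (jmap m A) (jmap_bij h)).toContinuousLinearEquiv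
  have he : ∀ x : St d, e x = ((Yc A 0 x.1, (Yc A 1 x.1, Yc A 1 x.2), (Yc A 2 x.1, Yc A 2 x.2),
    (Yc A 3 x.1, Yc A 3 x.2), Yc A 0 x.2), (cmv m x.1, cmv m x.2)) := fun x => rfl
  have hemb : MeasurableEmbedding e := e.toHomeomorph.measurableEmbedding
  have hS : Measure.IsAddHaarMeasure (volume : Measure (St d)) :=
    Measure.prod.instIsAddHaarMeasure volume volume
  have hH : Measure.IsAddHaarMeasure (Measure.map e (volume : Measure (St d))) :=
    ContinuousLinearEquiv.isAddHaarMeasure_map e volume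
  have i1 : Measure.IsAddHaarMeasure (volume : Measure (Sp d × Sp d)) :=
    Measure.prod.instIsAddHaarMeasure volume volume
  have i2 : Measure.IsAddHaarMeasure (volume : Measure ((Sp d × Sp d) × Sp d)) :=
    Measure.prod.instIsAddHaarMeasure volume volume
  have i3 : Measure.IsAddHaarMeasure (volume : Measure ((Sp d × Sp d) × (Sp d × Sp d) × Sp d)) :=
    Measure.prod.instIsAddHaarMeasure volume volume
  have i4 : Measure.IsAddHaarMeasure
      (volume : Measure ((Sp d × Sp d) × (Sp d × Sp d) × (Sp d × Sp d) × Sp d)) :=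
    Measure.prod.instIsAddHaarMeasure volume volume
  have i5 : Measure.IsAddHaarMeasure (volume : Measure (JW d)) :=
    Measure.prod.instIsAddHaarMeasure volume volume
  have i6 : Measure.IsAddHaarMeasure (volume : Measure (JW d × (Sp d × Sp d))) :=
    Measure.prod.instIsAddHaarMeasure volume volume
  obtain ⟨c0, hc0, hc⟩ : ∃ c0 : ℝ≥0∞, c0 ≠ ⊤ ∧ Measure.map e (volume : Measure (St d)) =
      c0 • (volume : Measure (JW d × (Sp d × Sp d))) :=
    ⟨_, ENNReal.coe_ne_top, Measure.isAddLeftInvariant_eq_smul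
      (Measure.map e (volume : Measure (St d))) (volume : Measure (JW d × (Sp d × Sp d)))⟩
  have hB : (volume : Measure (Sp d × Sp d))
      (closedBall (0 : Sp d) R ×ˢ closedBall (0 : Sp d) R) ≠ ⊤ := by
    rw [Measure.volume_eq_prod, Measure.prod_prod]
    exact ENNReal.mul_ne_top measure_closedBall_lt_top.ne measure_closedBall_lt_top.ne
  refine ⟨c0 * (volume : Measure (Sp d × Sp d))
      (closedBall (0 : Sp d) R ×ˢ closedBall (0 : Sp d) R), ENNReal.mul_ne_top hc0 hB,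
    fun F => ?_⟩
  obtain ⟨B, hBdef⟩ : ∃ B : Set (Sp d × Sp d),
    B = closedBall (0 : Sp d) R ×ˢ closedBall (0 : Sp d) R := ⟨_, rfl⟩
  rw [← hBdef] at hB ⊢
  have hset : {x : St d | ‖cmv m x.1‖ ≤ R ∧ ‖cmv m x.2‖ ≤ R} =
      e ⁻¹' ((univ : Set (JW d)) ×ˢ B) := by
    ext x
    rw [mem_preimage, he, hBdef]
    simp only [mem_setOf_eq, mem_prod, mem_univ, true_and, mem_closedBall_zero_iff]
  have h1 : ∫⁻ x in {x : St d | ‖cmv m x.1‖ ≤ R ∧ ‖cmv m x.2‖ ≤ R},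
      F (Yc A 0 x.1) (Yc A 1 x.1, Yc A 1 x.2) (Yc A 2 x.1, Yc A 2 x.2) (Yc A 3 x.1, Yc A 3 x.2)
        (Yc A 0 x.2) =
      ∫⁻ w in (univ : Set (JW d)) ×ˢ B,
        F w.1.1 w.1.2.1 w.1.2.2.1 w.1.2.2.2.1 w.1.2.2.2.2
        ∂(Measure.map e (volume : Measure (St d))) := by
    rw [hset, hemb.restrict_map, hemb.lintegral_map]
    rfl
  rw [h1, hc, Measure.restrict_smul, lintegral_smul_measure, smul_eq_mul, mul_assoc]
  refine mul_le_mul_right ?_ _
  rw [Measure.volume_eq_prod, ← Measure.prod_restrict, Measure.restrict_univ]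
  refine (lintegral_prod_le _).trans ?_
  have h2 : ∀ w : JW d, ∫⁻ _v in B, F w.1 w.2.1 w.2.2.1 w.2.2.2.1 w.2.2.2.2 =
      F w.1 w.2.1 w.2.2.1 w.2.2.2.1 w.2.2.2.2 * volume B := by
    intro w
    rw [lintegral_const, Measure.restrict_apply_univ]
  have h3 : (∫⁻ w : JW d, ∫⁻ _v in B, F w.1 w.2.1 w.2.2.1 w.2.2.2.1 w.2.2.2.2) =
      volume B * ∫⁻ w : JW d, F w.1 w.2.1 w.2.2.1 w.2.2.2.1 w.2.2.2.2 := by
    rw [lintegral_congr h2, lintegral_mul_const' _ _ hB, mul_comm]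
  refine (le_of_eq h3).trans ?_
  exact mul_le_mul_right (fub5 fun w : JW d => F w.1 w.2.1 w.2.2.1 w.2.2.2.1 w.2.2.2.2) _

end NB5
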