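import Pool.Agent.NB5.VDefs

/-!
# NB5-VId: identities for Jacobi systems

PLAN. `jac_dual`: with `M = ∑ m` let `B` be the `5 × 5` matrix with rows
`j : Fin 4 ↦ (√(μ j) A j a / √(m a))_a` and `(√(m a) / √M)_a`. `orth`, `zero` say `B * Bᵀ = 1`, hence
`Bᵀ * B = 1` (`Matrix.mul_eq_one_comm`; index type `Fin 4 ⊕ Unit` for the rows and an equivalence
with `Fin 5`, or a counting argument), i.e. `∑ j, μ j A j a A j b/(√m_a √m_b) + √m_a √m_b/M = δ_ab`;
multiply by `√m_b/√m_a`. Alternatively avoid square roots: `B' = (μ j A j a / m a)_{a j}` and the column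
`1`, against `(A j b)` and `m b/M`: the products one way are `1`.
`recf_yc` follows from `jac_dual`; the other statements by inserting `q a - X = ∑ j, ...` in both
arguments and `orth`. `cmv m q = (∑ m)⁻¹ • ∑ m a • q a`.
`jac_kin`: `∑ m ‖v a‖² = ∑ m ‖v a - P‖² + M ‖P‖²`. `jac_lop`: `∑ m wedge (q a) (v a) - M⁻¹ wedge (∑ m q)
(∑ m v) = ∑ m wedge (q a - X) (v a - P)`, `wedge` is bilinear (prove `wedge_add_left` etc. by `ext`,
`wedge_apply`, or see `HDN/ConsL.lean`). `jac_pot`: `Pot` depends only on differences.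
-/

open MeasureTheory Set Filter Topology Metric
open scoped NNReal ENNReal RealInnerProductSpace

namespace NB5

open HDN

variable {d : ℕ} {m : Fin 5 → ℝ} {A : Fin 4 → Fin 5 → ℝ} {μ : Fin 4 → ℝ}

/-- the configuration with centre of mass `c` and Jacobi coordinates `y` -/
noncomputable def recf (m : Fin 5 → ℝ) (A : Fin 4 → Fin 5 → ℝ) (μ : Fin 4 → ℝ) (c : Sp d)
    (y : Fin 4 → Sp d) : Cf 5 d := fun a => c + ∑ j, (μ j * A j a / m a) • y j

private theorem VId_pos (h : Jac m A μ) : 0 < ∑ c, m c :=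
  Finset.sum_pos (fun i _ => h.mpos i) ⟨0, Finset.mem_univ _⟩

theorem jac_dual (h : Jac m A μ) (a b : Fin 5) :
    ∑ j, μ j * A j a * A j b / m a = (if a = b then 1 else 0) - m b / ∑ c, m c := by
  have hM := (VId_pos h).ne'
  have hm : ∀ i, m i ≠ 0 := fun i => (h.mpos i).ne'
  have hμ : ∀ j, μ j ≠ 0 := fun j => (h.pos j).ne'
  let B : Matrix (Fin 4 ⊕ Unit) (Fin 5) ℝ := Matrix.of fun i b =>
    Sum.elim (fun j => A j b) (fun _ => m b / ∑ c, m c) i
  let B' : Matrix (Fin 5) (Fin 4 ⊕ Unit) ℝ := Matrix.of fun a i =>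
    Sum.elim (fun j => μ j * A j a / m a) (fun _ => 1) i
  have h1 : B * B' = 1 := by
    ext i j
    rw [Matrix.mul_apply]
    rcases i with i | i <;> rcases j with j | j
    · show ∑ b, A i b * (μ j * A j b / m b) = _
      have e1 : ∑ b, A i b * (μ j * A j b / m b) = μ j * ∑ b, A i b * A j b / m b := by
        rw [Finset.mul_sum]
        refine Finset.sum_congr rfl fun b _ => ?_
        ring
      rw [e1, h.orth]
      by_cases hij : i = j
      · subst hij
        rw [if_pos rfl, Matrix.one_apply_eq, mul_one_div, div_self (hμ i)]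
      · rw [if_neg hij, mul_zero, Matrix.one_apply_ne (fun e => hij (Sum.inl.inj e))]
    · show ∑ b, A i b * 1 = _
      simp only [mul_one]
      rw [h.zero, Matrix.one_apply_ne (by simp)]
    · show ∑ b, m b / (∑ c, m c) * (μ j * A j b / m b) = _
      have e1 : ∑ b, m b / (∑ c, m c) * (μ j * A j b / m b) = μ j / (∑ c, m c) * ∑ b, A j b := by
        rw [Finset.mul_sum]
        refine Finset.sum_congr rfl fun b _ => ?_
        have := hm b
        field_simp
      rw [e1, h.zero, mul_zero, Matrix.one_apply_ne (by simp)]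
    · show ∑ b, m b / (∑ c, m c) * 1 = _
      simp only [mul_one]
      rw [← Finset.sum_div, div_self hM]
      cases i
      cases j
      rw [Matrix.one_apply_eq]
  have e : Fin 4 ⊕ Unit ≃ Fin 5 := Fintype.equivOfCardEq (by simp)
  have h2 : B' * B = 1 := (Matrix.mul_eq_one_comm_of_equiv e).mp h1
  have h3 := congrFun (congrFun h2 a) b
  rw [Matrix.mul_apply, Fintype.sum_sum_type] at h3
  have h4 : ∑ j, (μ j * A j a / m a) * A j b + ∑ _u : Unit, 1 * (m b / ∑ c, m c) =
      if a = b then 1 else 0 := by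
    rw [← Matrix.one_apply]
    exact h3
  have h5 : ∑ _u : Unit, 1 * (m b / ∑ c, m c) = m b / ∑ c, m c := by
    rw [Finset.univ_unique, Finset.sum_singleton, one_mul]
  rw [h5] at h4
  rw [← h4, add_sub_cancel_right]
  refine Finset.sum_congr rfl fun j _ => ?_
  ring

theorem recf_yc (h : Jac m A μ) (q : Cf 5 d) : recf m A μ (cmv m q) (fun j => Yc A j q) = q := by
  funext a
  show cmv m q + ∑ j, (μ j * A j a / m a) • (∑ b, A j b • q b) = q a
  have e1 : ∑ j, (μ j * A j a / m a) • (∑ b, A j b • q b) =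
      ∑ b, ((if a = b then (1 : ℝ) else 0) - m b / ∑ c, m c) • q b := by
    simp only [Finset.smul_sum, smul_smul]
    rw [Finset.sum_comm]
    refine Finset.sum_congr rfl fun b _ => ?_
    rw [← jac_dual h a b, Finset.sum_smul]
    refine Finset.sum_congr rfl fun j _ => ?_
    congr 1
    ring
  rw [e1]
  simp only [sub_smul, Finset.sum_sub_distrib, ite_smul, one_smul, zero_smul]
  rw [Finset.sum_ite_eq, if_pos (Finset.mem_univ a)]
  have e2 : ∑ b, (m b / ∑ c, m c) • q b = cmv m q := by
    unfold cmv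
    rw [Finset.smul_sum]
    refine Finset.sum_congr rfl fun b _ => ?_
    rw [smul_smul]
    congr 1
    ring
  rw [e2]
  abel

private theorem VId_sub (h : Jac m A μ) (q : Cf 5 d) (a : Fin 5) :
    q a - cmv m q = ∑ j, (μ j * A j a / m a) • Yc A j q := by
  have h1 := congrFun (recf_yc h q) a
  have h2 : cmv m q + ∑ j, (μ j * A j a / m a) • Yc A j q = q a := h1
  rw [← h2, add_sub_cancel_left]

private theorem VId_bil {W : Type*} [AddCommGroup W] [Module ℝ W] (h : Jac m A μ)
    (β : Sp d →ₗ[ℝ] Sp d →ₗ[ℝ] W) (q v : Cf 5 d) :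
    ∑ a, m a • β (q a - cmv m q) (v a - cmv m v) = ∑ j, μ j • β (Yc A j q) (Yc A j v) := by
  have e1 : ∀ a, m a • β (q a - cmv m q) (v a - cmv m v) =
      ∑ i, ∑ j, (μ i * μ j * (A i a * A j a / m a)) • β (Yc A i q) (Yc A j v) := by
    intro a
    have hm := (h.mpos a).ne'
    rw [VId_sub h q a, VId_sub h v a]
    simp only [map_sum, map_smul, LinearMap.sum_apply, LinearMap.smul_apply, Finset.smul_sum,
      smul_smul]
    rw [Finset.sum_comm]
    refine Finset.sum_congr rfl fun i _ => Finset.sum_congr rfl fun j _ => ?_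
    congr 1
    field_simp
  simp only [e1]
  rw [Finset.sum_comm]
  refine Finset.sum_congr rfl fun i _ => ?_
  rw [Finset.sum_comm]
  have e2 : ∀ j, ∑ a, (μ i * μ j * (A i a * A j a / m a)) • β (Yc A i q) (Yc A j v) =
      if i = j then μ i • β (Yc A i q) (Yc A i v) else 0 := by
    intro j
    rw [← Finset.sum_smul, ← Finset.mul_sum, h.orth]
    split_ifs with hij
    · subst hij
      congr 1
      have := (h.pos i).ne'
      field_simp
    · rw [mul_zero, zero_smul]
  simp only [e2]
  rw [Finset.sum_ite_eq, if_pos (Finset.mem_univ i)]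

private theorem VId_cm (h : Jac m A μ) (q : Cf 5 d) :
    ∑ a, m a • q a = (∑ a, m a) • cmv m q := by
  unfold cmv
  rw [smul_smul, mul_inv_cancel₀ (VId_pos h).ne', one_smul]

private theorem VId_split {W : Type*} [AddCommGroup W] [Module ℝ W] (h : Jac m A μ)
    (β : Sp d →ₗ[ℝ] Sp d →ₗ[ℝ] W) (q v : Cf 5 d) :
    ∑ a, m a • β (q a) (v a) = (∑ a, m a) • β (cmv m q) (cmv m v) +
      ∑ a, m a • β (q a - cmv m q) (v a - cmv m v) := by
  have e1 : ∀ a, m a • β (q a - cmv m q) (v a - cmv m v) = m a • β (q a) (v a) -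
      β (m a • q a) (cmv m v) - β (cmv m q) (m a • v a) + m a • β (cmv m q) (cmv m v) := by
    intro a
    simp only [map_sub, LinearMap.sub_apply, map_smul, LinearMap.smul_apply, smul_sub]
    abel
  simp only [e1]
  rw [Finset.sum_add_distrib, Finset.sum_sub_distrib, Finset.sum_sub_distrib, ← Finset.sum_smul]
  have e2 : ∑ a, β (m a • q a) (cmv m v) = (∑ a, m a) • β (cmv m q) (cmv m v) := by
    rw [← LinearMap.sum_apply, ← map_sum, VId_cm h, map_smul, LinearMap.smul_apply]
  have e3 : ∑ a, β (cmv m q) (m a • v a) = (∑ a, m a) • β (cmv m q) (cmv m v) := by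
    rw [← map_sum, VId_cm h, map_smul]
  rw [e2, e3]
  abel

/-- `wedge` as a bilinear map -/
private noncomputable def VId_w (d : ℕ) : Sp d →ₗ[ℝ] Sp d →ₗ[ℝ] (Sp d →L[ℝ] Sp d) :=
  LinearMap.mk₂ ℝ wedge
    (fun x y w => by
      ext1 z
      rw [_root_.add_apply, wedge_apply, wedge_apply, wedge_apply, inner_add_left]
      module)
    (fun c x w => by
      ext1 z
      rw [_root_.smul_apply, wedge_apply, wedge_apply, real_inner_smul_left]
      module)
    (fun x y w => by
      ext1 z
      rw [_root_.add_apply, wedge_apply, wedge_apply, wedge_apply, inner_add_left]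
      module)
    (fun c x w => by
      ext1 z
      rw [_root_.smul_apply, wedge_apply, wedge_apply, real_inner_smul_left]
      module)

private theorem VId_w_apply (x w : Sp d) : VId_w d x w = wedge x w := rfl

theorem yc_recf (h : Jac m A μ) (c : Sp d) (y : Fin 4 → Sp d) (j : Fin 4) :
    Yc A j (recf m A μ c y) = y j := by
  unfold Yc recf
  simp only [smul_add, Finset.sum_add_distrib, Finset.smul_sum, smul_smul]
  rw [← Finset.sum_smul, h.zero, zero_smul, zero_add, Finset.sum_comm]
  have e2 : ∀ i, ∑ a, (A j a * (μ i * A i a / m a)) • y i = if j = i then y j else 0 := by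
    intro i
    rw [← Finset.sum_smul]
    have e3 : ∑ a, A j a * (μ i * A i a / m a) = μ i * ∑ a, A j a * A i a / m a := by
      rw [Finset.mul_sum]
      refine Finset.sum_congr rfl fun b _ => ?_
      ring
    rw [e3, h.orth]
    split_ifs with hij
    · subst hij
      rw [mul_one_div, div_self (h.pos j).ne', one_smul]
    · rw [mul_zero, zero_smul]
  simp only [e2]
  rw [Finset.sum_ite_eq, if_pos (Finset.mem_univ j)]

theorem cmv_recf (h : Jac m A μ) (c : Sp d) (y : Fin 4 → Sp d) :
    cmv m (recf m A μ c y) = c := by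
  unfold cmv recf
  simp only [smul_add, Finset.sum_add_distrib, Finset.smul_sum, smul_smul]
  rw [← Finset.sum_smul, ← Finset.mul_sum, inv_mul_cancel₀ (VId_pos h).ne', one_smul,
    Finset.sum_comm]
  have e2 : ∀ i, ∑ a, ((∑ a, m a)⁻¹ * (m a * (μ i * A i a / m a))) • y i = 0 := by
    intro i
    rw [← Finset.sum_smul]
    have e3 : ∑ a, (∑ a, m a)⁻¹ * (m a * (μ i * A i a / m a)) =
        (∑ a, m a)⁻¹ * μ i * ∑ a, A i a := by
      rw [Finset.mul_sum]
      refine Finset.sum_congr rfl fun b _ => ?_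
      have := (h.mpos b).ne'
      field_simp
    rw [e3, h.zero, mul_zero, zero_smul]
  simp only [e2]
  rw [Finset.sum_const_zero, add_zero]

theorem jac_iner (h : Jac m A μ) (x : St d) : Iner m x = ∑ j, μ j * ‖Yc A j x.1‖ ^ 2 := by
  have h1 := VId_bil h (innerₗ (Sp d)) x.1 x.1
  simp only [innerₗ_apply_apply, real_inner_self_eq_norm_sq, smul_eq_mul] at h1
  exact h1

theorem jac_jner (h : Jac m A μ) (x : St d) :
    Jner m x = ∑ j, μ j * ⟪Yc A j x.1, Yc A j x.2⟫ := by
  have h1 := VId_bil h (innerₗ (Sp d)) x.1 x.2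
  simp only [innerₗ_apply_apply, smul_eq_mul] at h1
  exact h1

theorem jac_kin (h : Jac m A μ) (v : Cf 5 d) :
    Kin m v = (∑ a, m a) / 2 * ‖cmv m v‖ ^ 2 + ∑ j, μ j / 2 * ‖Yc A j v‖ ^ 2 := by
  have h1 := VId_bil h (innerₗ (Sp d)) v v
  have h2 := VId_split h (innerₗ (Sp d)) v v
  rw [h1] at h2
  simp only [innerₗ_apply_apply, real_inner_self_eq_norm_sq, smul_eq_mul] at h2
  unfold Kin
  rw [h2, mul_add, Finset.mul_sum]
  congr 1
  · ring
  · refine Finset.sum_congr rfl fun j _ => ?_
    ring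

theorem jac_lop (h : Jac m A μ) (x : St d) :
    Lop m x = ∑ j, μ j • wedge (Yc A j x.1) (Yc A j x.2) := by
  have h1 := VId_bil h (VId_w d) x.1 x.2
  have h2 := VId_split h (VId_w d) x.1 x.2
  rw [h1] at h2
  simp only [VId_w_apply] at h2
  have h3 : (∑ a, m a)⁻¹ • wedge (∑ a, m a • x.1 a) (∑ a, m a • x.2 a) =
      (∑ a, m a) • wedge (cmv m x.1) (cmv m x.2) := by
    rw [VId_cm h, VId_cm h, ← VId_w_apply, map_smul, map_smul, LinearMap.smul_apply, smul_smul,
      smul_smul, VId_w_apply]
    congr 1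
    have := (VId_pos h).ne'
    field_simp
  unfold Lop
  rw [h2, h3, add_sub_cancel_left]

theorem jac_pot (h : Jac m A μ) (q : Cf 5 d) :
    Pot m q = Pot m (recf m A μ 0 (fun j => Yc A j q)) := by
  have e1 : recf m A μ 0 (fun j => Yc A j q) = fun a => q a - cmv m q := by
    funext a
    rw [VId_sub h q a]
    show 0 + _ = _
    rw [zero_add]
  rw [e1]
  unfold Pot
  simp only [sub_sub_sub_cancel_right]

end NB5
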