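import Pool.Agent.NB5.VCyl

/-!
# NB5-VKer: the angular momentum kernel on cylinders

PLAN. Let `e = ‖y‖⁻¹ • y`, `z = (μ ‖y‖)⁻¹ • T e`. `wedge y u e = ⟪u, e⟫ • y - ⟪y, e⟫ • u
= -‖y‖ • perp e u`, so `(T + μ • wedge y u) e = T e - (μ ‖y‖) • perp e u` and (as `‖e‖ = 1` and
`‖perp e v‖ ≤ ‖v‖`) `‖T + μ • wedge y u‖ ≥ μ ‖y‖ ‖perp e (u - z)‖` (`norm_ge`).
`ker_cyl`: put `λ = μ ‖y‖`, `s(u) = ‖perp e (u - z)‖`; the integrand is `≤ 1/(1 + λ s)`. If `σ = 0`
the cylinder is a null set (`cyl_vol`, `d ≥ 3`). Otherwise: on `{s ≥ σ}` the integrand is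
`≤ 1/(λ σ)` and the volume of the cylinder is `≤ 2τ (2σ)^(d-1)`; on
`{2^(-k-1) σ ≤ s < 2^(-k) σ}`, `k ≥ 0`, it is `≤ 2^(k+1)/(λ σ)` and the set is contained in
`cyl e c1 z τ (2^(-k) σ)`; on `{s = 0}` the set is contained in `cyl e c1 z τ 0`, a null set.
Sum: `2τ 2^(d-1) σ^(d-2)/λ · (1 + 2 ∑ 2^(-k(d-2)))`, and `d - 2 ≥ 1`. `C = 2^(d+3)` is enough.
-/

open MeasureTheory Set Filter Topology Metric
open scoped NNReal ENNReal RealInnerProductSpace

namespace NB5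

open HDN

variable {d : ℕ}

private theorem perp_sub (e u v : Sp d) : perp e (u - v) = perp e u - perp e v := by
  simp only [perp, inner_sub_right, sub_smul]
  abel

private theorem perp_smul (e u : Sp d) (c : ℝ) : perp e (c • u) = c • perp e u := by
  simp only [perp, real_inner_smul_right, smul_sub, smul_smul]

private theorem inner_perp {e : Sp d} (he : ‖e‖ = 1) (v : Sp d) : ⟪e, perp e v⟫ = 0 := by
  rw [perp, inner_sub_right, real_inner_smul_right, real_inner_self_eq_norm_sq, he]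
  ring

private theorem perp_perp {e : Sp d} (he : ‖e‖ = 1) (v : Sp d) :
    perp e (perp e v) = perp e v := by
  have h : perp e (perp e v) = perp e v - ⟪e, perp e v⟫ • e := rfl
  rw [h, inner_perp he, zero_smul, sub_zero]

private theorem perp_norm_le {e : Sp d} (he : ‖e‖ = 1) (v : Sp d) : ‖perp e v‖ ≤ ‖v‖ := by
  have h1 : ‖perp e v‖ ^ 2 = ‖v‖ ^ 2 - ⟪e, v⟫ ^ 2 := by
    rw [perp, norm_sub_sq_real, real_inner_smul_right, norm_smul, he, mul_one, Real.norm_eq_abs,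
      sq_abs, real_inner_comm]
    ring
  have h2 : ‖perp e v‖ ^ 2 ≤ ‖v‖ ^ 2 := by
    rw [h1]
    nlinarith [sq_nonneg (⟪e, v⟫ : ℝ)]
  exact le_of_sq_le_sq h2 (norm_nonneg v)

private theorem unit_norm {y : Sp d} (hy : y ≠ 0) : ‖‖y‖⁻¹ • y‖ = 1 := by
  have hy0 : 0 < ‖y‖ := norm_pos_iff.2 hy
  rw [norm_smul, norm_inv, norm_norm, inv_mul_cancel₀ hy0.ne']

theorem norm_ge {μ : ℝ} (hμ : 0 < μ) {y : Sp d} (hy : y ≠ 0) (T : Sp d →L[ℝ] Sp d) :
    ∃ z : Sp d, ∀ u : Sp d,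
      μ * ‖y‖ * ‖perp (‖y‖⁻¹ • y) (u - z)‖ ≤ ‖T + μ • wedge y u‖ := by
  have hy0 : 0 < ‖y‖ := norm_pos_iff.2 hy
  have he1 := unit_norm hy
  obtain ⟨e, he⟩ : ∃ e : Sp d, e = ‖y‖⁻¹ • y := ⟨_, rfl⟩
  rw [← he] at he1 ⊢
  have hye : ‖y‖ • e = y := by
    rw [he, smul_smul, mul_inv_cancel₀ hy0.ne', one_smul]
  have hl : 0 < μ * ‖y‖ := mul_pos hμ hy0
  refine ⟨(μ * ‖y‖)⁻¹ • T e, fun u => ?_⟩
  have h2 : (⟪y, e⟫ : ℝ) = ‖y‖ := by
    rw [he, real_inner_smul_right, real_inner_self_eq_norm_sq]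
    field_simp
  have h3 : (⟪u, e⟫ : ℝ) • y = ‖y‖ • ((⟪e, u⟫ : ℝ) • e) := by
    rw [real_inner_comm, smul_comm, hye]
  have h1 : wedge y u e = -(‖y‖ • perp e u) := by
    rw [wedge_apply, perp, h2, h3, smul_sub, neg_sub]
  have h4 : (T + μ • wedge y u) e = T e - (μ * ‖y‖) • perp e u := by
    rw [add_apply, smul_apply, h1, smul_neg, smul_smul,
      sub_eq_add_neg]
  have h5 : ‖(T + μ • wedge y u) e‖ ≤ ‖T + μ • wedge y u‖ := by
    have h := (T + μ • wedge y u).le_opNorm e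
    rwa [he1, mul_one] at h
  refine le_trans ?_ h5
  rw [h4]
  have h6 : (μ * ‖y‖) • perp e (u - (μ * ‖y‖)⁻¹ • T e)
      = -(perp e (T e - (μ * ‖y‖) • perp e u)) := by
    rw [perp_sub, perp_smul, perp_sub, perp_smul, perp_perp he1, smul_sub, smul_smul,
      mul_inv_cancel₀ hl.ne', one_smul, neg_sub]
  have h7 : μ * ‖y‖ * ‖perp e (u - (μ * ‖y‖)⁻¹ • T e)‖
      = ‖perp e (T e - (μ * ‖y‖) • perp e u)‖ := by
    rw [← norm_neg (perp e (T e - (μ * ‖y‖) • perp e u)), ← h6, norm_smul,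
      Real.norm_of_nonneg hl.le]
  rw [h7]
  exact perp_norm_le he1 _

private theorem cyl_meas (e c1 c2 : Sp d) (τ σ : ℝ) : MeasurableSet (cyl e c1 c2 τ σ) := by
  have h1 : Continuous fun u : Sp d => |(⟪e, u - c1⟫ : ℝ)| := by fun_prop
  have h2 : Continuous fun u : Sp d => ‖perp e (u - c2)‖ := by
    unfold perp
    fun_prop
  exact ((isClosed_le h1 continuous_const).inter (isClosed_le h2 continuous_const)).measurableSet

private theorem dyad {lam s σ : ℝ} (hl : 0 < lam) (hs : 0 ≤ s) (hσ : 0 < σ) (h : s < σ) :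
    ∃ k : ℕ, s ≤ (1 / 2) ^ k * σ ∧ 1 / (1 + lam * s) ≤ 2 ^ (k + 1) / (lam * σ) := by
  have hls : 0 < lam * σ := mul_pos hl hσ
  rcases eq_or_lt_of_le hs with h0 | h0
  · obtain ⟨k, hk⟩ := pow_unbounded_of_one_lt (lam * σ) (one_lt_two (α := ℝ))
    refine ⟨k, by rw [← h0]; positivity, ?_⟩
    rw [← h0, mul_zero, add_zero, div_one, one_le_div hls, pow_succ]
    have : (0 : ℝ) < 2 ^ k := by positivity
    linarith
  · have hex : ∃ k : ℕ, (1 / 2 : ℝ) ^ (k + 1) * σ ≤ s := by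
      obtain ⟨k, hk⟩ := exists_pow_lt_of_lt_one (div_pos h0 hσ) (by norm_num : (1 / 2 : ℝ) < 1)
      refine ⟨k, ?_⟩
      rw [lt_div_iff₀ hσ] at hk
      have : (1 / 2 : ℝ) ^ (k + 1) * σ ≤ (1 / 2 : ℝ) ^ k * σ := by
        rw [pow_succ]
        have : (0 : ℝ) < (1 / 2 : ℝ) ^ k * σ := by positivity
        nlinarith
      linarith
    classical
    refine ⟨Nat.find hex, ?_, ?_⟩
    · rcases Nat.eq_zero_or_pos (Nat.find hex) with hz | hz
      · rw [hz, pow_zero, one_mul]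
        exact h.le
      · have hm := Nat.find_min hex (m := Nat.find hex - 1) (by omega)
        rw [Nat.sub_add_cancel hz, not_le] at hm
        exact hm.le
    · have hk := Nat.find_spec hex
      have h2 : (1 / 2 : ℝ) ^ (Nat.find hex + 1) * 2 ^ (Nat.find hex + 1) = 1 := by
        rw [← mul_pow]
        norm_num
      have hpos : (0 : ℝ) < 2 ^ (Nat.find hex + 1) := by positivity
      rw [div_le_div_iff₀ (by positivity) hls, one_mul]
      have h3 : σ ≤ 2 ^ (Nat.find hex + 1) * s := by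
        calc σ = ((1 / 2 : ℝ) ^ (Nat.find hex + 1) * 2 ^ (Nat.find hex + 1)) * σ := by
              rw [h2, one_mul]
          _ = 2 ^ (Nat.find hex + 1) * ((1 / 2 : ℝ) ^ (Nat.find hex + 1) * σ) := by ring
          _ ≤ 2 ^ (Nat.find hex + 1) * s := mul_le_mul_of_nonneg_left hk hpos.le
      calc lam * σ ≤ lam * (2 ^ (Nat.find hex + 1) * s) := mul_le_mul_of_nonneg_left h3 hl.le
        _ ≤ 2 ^ (Nat.find hex + 1) * (1 + lam * s) := by nlinarith

theorem ker_cyl (hd : 3 ≤ d) : ∃ C : ℝ, 0 < C ∧ ∀ (μ : ℝ) (y : Sp d) (T : Sp d →L[ℝ] Sp d)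
    (c1 c2 : Sp d) (τ σ : ℝ), 0 < μ → y ≠ 0 → 0 ≤ τ → 0 ≤ σ →
    ∫⁻ u in cyl (‖y‖⁻¹ • y) c1 c2 τ σ, ker1 (T + μ • wedge y u) ≤
      ENNReal.ofReal (C * τ * σ ^ (d - 2) / (μ * ‖y‖)) := by
  refine ⟨2 ^ (d + 3), by positivity, fun μ y T c1 c2 τ σ hμ hy hτ hσ => ?_⟩
  obtain ⟨z, hz⟩ := norm_ge hμ hy T
  have hy0 : 0 < ‖y‖ := norm_pos_iff.2 hy
  have he1 := unit_norm hy
  obtain ⟨e, he⟩ : ∃ e : Sp d, e = ‖y‖⁻¹ • y := ⟨_, rfl⟩
  rw [← he] at he1 hz ⊢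
  obtain ⟨lam, hlam⟩ : ∃ lam : ℝ, lam = μ * ‖y‖ := ⟨_, rfl⟩
  have hl : 0 < lam := by
    rw [hlam]
    exact mul_pos hμ hy0
  rw [← hlam] at hz ⊢
  rcases eq_or_lt_of_le hσ with h0 | h0
  · have hv : volume (cyl e c1 c2 τ σ) = 0 := by
      have h := cyl_vol (by omega) e c1 c2 he1 hτ hσ
      rw [← h0, mul_zero, zero_pow (by omega), mul_zero, ENNReal.ofReal_zero] at h
      rw [← h0]
      exact le_antisymm h zero_le
    rw [setLIntegral_measure_zero _ _ hv]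
    exact zero_le
  have hls : 0 < lam * σ := mul_pos hl h0
  have hpt : ∀ u ∈ cyl e c1 c2 τ σ, ker1 (T + μ • wedge y u) ≤
      ENNReal.ofReal (1 / (lam * σ)) + ∑' k : ℕ, (cyl e c1 z τ ((1 / 2) ^ k * σ)).indicator
        (fun _ => ENNReal.ofReal (2 ^ (k + 1) / (lam * σ))) u := by
    intro u hu
    have h1 : ker1 (T + μ • wedge y u) ≤ ENNReal.ofReal (1 / (1 + lam * ‖perp e (u - z)‖)) := by
      refine ENNReal.ofReal_le_ofReal ?_
      have h2 := hz u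
      have h3 : 0 ≤ lam * ‖perp e (u - z)‖ := by positivity
      exact one_div_le_one_div_of_le (by linarith) (by linarith)
    refine h1.trans ?_
    rcases lt_or_ge ‖perp e (u - z)‖ σ with hs | hs
    · obtain ⟨k, hk1, hk2⟩ := dyad hl (norm_nonneg (perp e (u - z))) h0 hs
      refine le_trans ?_ le_add_self
      refine le_trans ?_ (ENNReal.le_tsum k)
      rw [Set.indicator_of_mem]
      · exact ENNReal.ofReal_le_ofReal hk2
      · exact ⟨hu.1, hk1⟩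
    · refine le_trans ?_ le_self_add
      refine ENNReal.ofReal_le_ofReal (one_div_le_one_div_of_le hls ?_)
      have := mul_le_mul_of_nonneg_left hs hl.le
      linarith
  have hmeas : ∀ k : ℕ, Measurable ((cyl e c1 z τ ((1 / 2) ^ k * σ)).indicator
      (fun _ => ENNReal.ofReal (2 ^ (k + 1) / (lam * σ)))) := fun k =>
    measurable_const.indicator (cyl_meas _ _ _ _ _)
  refine (setLIntegral_mono' (cyl_meas _ _ _ _ _) hpt).trans ?_
  rw [lintegral_add_left measurable_const, setLIntegral_const,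
    lintegral_tsum fun k => (hmeas k).aemeasurable]
  obtain ⟨m, rfl⟩ := Nat.exists_eq_add_of_le' hd
  have e1 : m + 3 - 2 = m + 1 := by omega
  have e2 : m + 3 - 1 = m + 2 := by omega
  rw [e1]
  have hA : ENNReal.ofReal (1 / (lam * σ)) * volume (cyl e c1 c2 τ σ) ≤
      ENNReal.ofReal (2 ^ (m + 3) * τ * σ ^ (m + 1) / lam) := by
    refine (mul_le_mul_right (cyl_vol (by omega) e c1 c2 he1 hτ hσ) _).trans ?_
    rw [← ENNReal.ofReal_mul (by positivity), e2]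
    refine ENNReal.ofReal_le_ofReal (le_of_eq ?_)
    rw [mul_pow]
    field_simp
    ring
  have hB : ∀ k : ℕ, ∫⁻ u in cyl e c1 c2 τ σ, (cyl e c1 z τ ((1 / 2) ^ k * σ)).indicator
      (fun _ => ENNReal.ofReal (2 ^ (k + 1) / (lam * σ))) u ≤
      ENNReal.ofReal (2 ^ (m + 4) * τ * σ ^ (m + 1) / lam * (1 / 2) ^ k) := by
    intro k
    refine (setLIntegral_le_lintegral _ _).trans ?_
    rw [lintegral_indicator (cyl_meas _ _ _ _ _), setLIntegral_const]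
    refine (mul_le_mul_right (cyl_vol (by omega) e c1 z he1 hτ (by positivity)) _).trans ?_
    rw [← ENNReal.ofReal_mul (by positivity), e2]
    refine ENNReal.ofReal_le_ofReal ?_
    have h3 : ((1 / 2 : ℝ) ^ k) * 2 ^ k = 1 := by
      rw [← mul_pow]
      norm_num
    have h4 : ((1 / 2 : ℝ) ^ k) ^ (m + 1) ≤ (1 / 2 : ℝ) ^ k := by
      have h5 : (1 / 2 : ℝ) ^ k ≤ 1 := pow_le_one₀ (by norm_num) (by norm_num)
      have h6 : (0 : ℝ) ≤ (1 / 2 : ℝ) ^ k := by positivity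
      calc ((1 / 2 : ℝ) ^ k) ^ (m + 1) = ((1 / 2 : ℝ) ^ k) ^ m * (1 / 2 : ℝ) ^ k := pow_succ _ _
        _ ≤ 1 * (1 / 2 : ℝ) ^ k := mul_le_mul_of_nonneg_right (pow_le_one₀ h6 h5) h6
        _ = (1 / 2 : ℝ) ^ k := one_mul _
    have h7 : 2 ^ (k + 1) / (lam * σ) * (2 * τ * (2 * ((1 / 2) ^ k * σ)) ^ (m + 2))
        = 2 ^ (m + 4) * τ * σ ^ (m + 1) / lam * (((1 / 2 : ℝ) ^ k) ^ (m + 1))
          * (((1 / 2 : ℝ) ^ k) * 2 ^ k) := by
      rw [mul_pow, mul_pow]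
      generalize (1 / 2 : ℝ) ^ k = a
      field_simp
      ring
    rw [h7, h3, mul_one]
    exact mul_le_mul_of_nonneg_left h4 (by positivity)
  have hC : ∑' k : ℕ, ENNReal.ofReal (2 ^ (m + 4) * τ * σ ^ (m + 1) / lam * (1 / 2) ^ k)
      = ENNReal.ofReal (2 ^ (m + 4) * τ * σ ^ (m + 1) / lam * 2) := by
    rw [← ENNReal.ofReal_tsum_of_nonneg (fun k => by positivity)
      (summable_geometric_two.mul_left _), tsum_mul_left, tsum_geometric_two]
  refine (add_le_add hA (ENNReal.tsum_le_tsum hB)).trans ?_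
  rw [hC, ← ENNReal.ofReal_add (by positivity) (by positivity)]
  refine ENNReal.ofReal_le_ofReal ?_
  have h8 : 2 ^ (m + 3) * τ * σ ^ (m + 1) / lam + 2 ^ (m + 4) * τ * σ ^ (m + 1) / lam * 2
      = 5 * (2 ^ (m + 3) * τ * σ ^ (m + 1) / lam) := by ring
  have h9 : 2 ^ (m + 3 + 3) * τ * σ ^ (m + 1) / lam
      = 8 * (2 ^ (m + 3) * τ * σ ^ (m + 1) / lam) := by ring
  rw [h8, h9]
  have h10 : 0 ≤ 2 ^ (m + 3) * τ * σ ^ (m + 1) / lam := by positivity
  linarith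

end NB5
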