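import Pool.Agent.NB5.VKer
import Pool.Agent.NB5.VRad

/-!
# NB5-VLC: the angular momentum window

PLAN. `lintegral_prod_le`. For fixed `y = z.1 ≠ 0` (`z.1 = 0` is a null set) `norm_ge` gives `z0`
with: the `u` of the set lie in `cyl (‖y‖⁻¹ • y) 0 z0 V (L/(μ‖y‖))`, volume `≤ C V (L/(μ‖y‖))^(d-1)`
(`cyl_vol`); so `h(y) := ∫ du ≤ C' V ‖y‖^(-(d-1))` in any case.
* `‖T‖ ≤ K := 2 d² (L + 1)`: `ker1 T ≥ 1/(1+K)`, and `rad'` with `p = d - 1` gives `≤ C D V`.
* `‖T‖ > K`: entries `T_ij = ⟪e_i, T e_j⟫` (`e_i = EuclideanSpace.single i 1`);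
  `‖T‖ ≤ ∑_ij |T_ij|` (or any bound `‖T‖ ≤ d² max |T_ij|`), so there are `i, j` with
  `|T_ij| ≥ ‖T‖/d² > 2(L+1)`. For `(y,u)` in the set let `S = T + μ • wedge y u`, `‖S‖ ≤ L`, with entries
  `S_ij = T_ij + μ (y_i u_j - y_j u_i)`. So `i ≠ j` (otherwise `|T_ii| = |S_ii| ≤ L`). Choose
  `k ≠ i, j` (`d ≥ 3`). The identity `y_i T_jk + y_j T_ki + y_k T_ij = y_i S_jk + y_j S_ki + y_k S_ij`
  gives `|y_k + (y_i T_jk + y_j T_ki)/T_ij| ≤ 3 L ‖y‖/|T_ij|`: `y_k` lies in an interval whose
  position does not depend on `y_k`. For a dyadic shell `ρ/2 < ‖y‖ ≤ ρ`, `ρ = 2^(-n) D`, the set of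
  these `y` has volume `≤ (2ρ)^(d-1) · 6 L ρ/|T_ij|` (Fubini in the coordinate `k`; use
  `EuclideanSpace.volume_preserving_measurableEquiv` and a measure preserving shear, or `volume_pi`
  with `MeasurableEquiv.piFinSuccAbove`), and `h(y) ≤ C' V (ρ/2)^(-(d-1))` on it. Sum over `n`:
  `≤ C'' V L D/|T_ij| ≤ C''' D V/(1 + ‖T‖)`.
Feel free to split this into several lemmas. `slab` (first statement) is the Fubini part.
-/

open MeasureTheory Set Filter Topology Metric
open scoped NNReal ENNReal RealInnerProductSpace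

namespace NB5

open HDN

variable {d : ℕ}

private theorem slab_pi {n : ℕ} (i j k : Fin (n + 1)) (hki : k ≠ i) (hkj : k ≠ j) (α β ρ w : ℝ)
    (hρ : 0 ≤ ρ) (hw : 0 ≤ w) :
    volume {f : Fin (n + 1) → ℝ | (∀ l, l ≠ k → |f l| ≤ ρ) ∧ |f k + α * f i + β * f j| ≤ w} ≤
      ENNReal.ofReal ((2 * ρ) ^ n * (2 * w)) := by
  obtain ⟨i', hi'⟩ := Fin.exists_succAbove_eq hki.symm
  obtain ⟨j', hj'⟩ := Fin.exists_succAbove_eq hkj.symm
  set e := MeasurableEquiv.piFinSuccAbove (fun _ : Fin (n + 1) => ℝ) k with he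
  have hmp : MeasurePreserving e volume volume := volume_preserving_piFinSuccAbove (fun _ => ℝ) k
  set S : Set (ℝ × (Fin n → ℝ)) :=
    {z | (∀ l, |z.2 l| ≤ ρ) ∧ |z.1 + α * z.2 i' + β * z.2 j'| ≤ w} with hS
  have hSm : MeasurableSet S := by
    apply IsClosed.measurableSet
    rw [hS, ofPred_and]
    refine IsClosed.inter ?_ ?_
    · rw [ofPred_forall]
      refine isClosed_iInter fun l => isClosed_le ?_ continuous_const
      fun_prop
    · refine isClosed_le ?_ continuous_const
      fun_prop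
  have hpre : {f : Fin (n + 1) → ℝ | (∀ l, l ≠ k → |f l| ≤ ρ) ∧ |f k + α * f i + β * f j| ≤ w} =
      e ⁻¹' S := by
    ext f
    have h1 : (e f).1 = f k := rfl
    have h2 : ∀ l, (e f).2 l = f (k.succAbove l) := fun l => rfl
    simp only [mem_ofPred_eq, mem_preimage, hS, h1, h2, hi', hj']
    refine and_congr_left fun _ => ?_
    constructor
    · intro h l
      exact h _ (Fin.succAbove_ne k l)
    · intro h l hl
      obtain ⟨l', rfl⟩ := Fin.exists_succAbove_eq hl
      exact h l'
  rw [hpre, hmp.measure_preimage hSm.nullMeasurableSet, Measure.volume_eq_prod,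
    Measure.prod_apply_symm hSm]
  have h3 : ∀ g : Fin n → ℝ, volume ((fun t : ℝ => (t, g)) ⁻¹' S) ≤
      (Set.pi univ fun _ : Fin n => Icc (-ρ) ρ).indicator (fun _ => ENNReal.ofReal (2 * w)) g := by
    intro g
    by_cases hg : g ∈ Set.pi univ fun _ : Fin n => Icc (-ρ) ρ
    · rw [indicator_of_mem hg]
      have hsub : ((fun t : ℝ => (t, g)) ⁻¹' S) ⊆
          Icc (-(α * g i' + β * g j') - w) (-(α * g i' + β * g j') + w) := by
        intro t ht
        have := ht.2
        simp only at this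
        rw [abs_le] at this
        constructor <;> linarith [this.1, this.2]
      refine (measure_mono hsub).trans ?_
      rw [Real.volume_Icc]
      apply ENNReal.ofReal_le_ofReal
      linarith
    · rw [indicator_of_notMem hg]
      have hempty : ((fun t : ℝ => (t, g)) ⁻¹' S) = ∅ := by
        rw [eq_empty_iff_forall_notMem]
        intro t ht
        apply hg
        intro l _
        have := ht.1 l
        simp only at this
        exact abs_le.1 this
      rw [hempty, measure_empty]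
  refine (lintegral_mono h3).trans ?_
  rw [lintegral_indicator_const (MeasurableSet.univ_pi fun _ => measurableSet_Icc),
    volume_pi_pi]
  simp only [Real.volume_Icc, Finset.prod_const, Finset.card_univ, Fintype.card_fin]
  rw [← ENNReal.ofReal_pow (by linarith), ← ENNReal.ofReal_mul (by linarith)]
  apply ENNReal.ofReal_le_ofReal
  apply le_of_eq
  ring

/-- volume of a set of `y` in a ball whose coordinate `k` lies in a short interval depending on two
other coordinates -/
theorem slab (i j k : Fin d) (hki : k ≠ i) (hkj : k ≠ j) (α β ρ w : ℝ) (hρ : 0 ≤ ρ) (hw : 0 ≤ w) :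
    volume {y : Sp d | ‖y‖ ≤ ρ ∧ |y k + α * y i + β * y j| ≤ w} ≤
      ENNReal.ofReal ((2 * ρ) ^ (d - 1) * (2 * w)) := by
  obtain ⟨n, rfl⟩ : ∃ n, d = n + 1 := ⟨d - 1, by have := k.2; omega⟩
  have h := slab_pi i j k hki hkj α β ρ w hρ hw
  rw [Nat.add_sub_cancel]
  refine le_trans ?_ h
  have hmp := PiLp.volume_preserving_ofLp (Fin (n + 1))
  have hm : MeasurableSet {f : Fin (n + 1) → ℝ | (∀ l, l ≠ k → |f l| ≤ ρ) ∧
      |f k + α * f i + β * f j| ≤ w} := by
    apply IsClosed.measurableSet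
    rw [ofPred_and]
    refine IsClosed.inter ?_ ?_
    · simp only [ofPred_forall]
      refine isClosed_iInter fun l => isClosed_iInter fun _ => isClosed_le ?_ continuous_const
      fun_prop
    · refine isClosed_le ?_ continuous_const
      fun_prop
  rw [← hmp.measure_preimage hm.nullMeasurableSet]
  refine measure_mono ?_
  intro y hy
  refine ⟨fun l _ => ?_, hy.2⟩
  have := (PiLp.norm_apply_le y l).trans hy.1
  rwa [Real.norm_eq_abs] at this

/-- the main estimate: the positions lie in a set `A` with thin intersections with balls -/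
private theorem core (hd : 3 ≤ d) {μ L : ℝ} (hμ : 0 < μ) (hL : 0 ≤ L) (T : Sp d →L[ℝ] Sp d)
    (A : Set (Sp d)) (hAm : MeasurableSet A) (κ : ℝ) (hκ : 0 ≤ κ)
    (hA : ∀ ρ : ℝ, 0 ≤ ρ → volume {y : Sp d | y ∈ A ∧ ‖y‖ ≤ ρ} ≤
      ENNReal.ofReal ((2 * ρ) ^ (d - 1) * (2 * (κ * ρ))))
    (hTA : ∀ y u : Sp d, ‖T + μ • wedge y u‖ ≤ L → y ∈ A) {D V : ℝ} (hD : 0 ≤ D) (hV : 0 ≤ V) :
    ∫⁻ z : Sp d × Sp d,
      onSet (‖z.1‖ ≤ D ∧ ‖z.2‖ ≤ V ∧ ‖T + μ • wedge z.1 z.2‖ ≤ L) 1 ≤
      ENNReal.ofReal (8 * V * κ * D * (8 * L / μ) ^ (d - 1)) := by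
  classical
  set S : Set (Sp d × Sp d) :=
    {z | ‖z.1‖ ≤ D ∧ ‖z.2‖ ≤ V ∧ ‖T + μ • wedge z.1 z.2‖ ≤ L} with hS
  have hwc : Continuous fun z : Sp d × Sp d => T + μ • wedge z.1 z.2 := by
    unfold wedge
    have h1 : Continuous fun z : Sp d × Sp d => (innerSL ℝ z.2).smulRight z.1 :=
      (isBoundedBilinearMap_smulRight.continuous).comp
        (((innerSL ℝ).continuous.comp continuous_snd).prodMk continuous_fst)
    have h2 : Continuous fun z : Sp d × Sp d => (innerSL ℝ z.1).smulRight z.2 :=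
      (isBoundedBilinearMap_smulRight.continuous).comp
        (((innerSL ℝ).continuous.comp continuous_fst).prodMk continuous_snd)
    exact continuous_const.add ((h1.sub h2).const_smul μ)
  have hSm : MeasurableSet S := by
    apply IsClosed.measurableSet
    rw [hS, ofPred_and, ofPred_and]
    refine (isClosed_le (continuous_norm.comp continuous_fst) continuous_const).inter
      ((isClosed_le (continuous_norm.comp continuous_snd) continuous_const).inter
        (isClosed_le (continuous_norm.comp hwc) continuous_const))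
  have e1 : (fun z : Sp d × Sp d =>
      onSet (‖z.1‖ ≤ D ∧ ‖z.2‖ ≤ V ∧ ‖T + μ • wedge z.1 z.2‖ ≤ L) 1) =
      S.indicator (fun _ => (1 : ℝ≥0∞)) := by
    funext z
    unfold onSet
    by_cases hz : z ∈ S
    · rw [indicator_of_mem hz, if_pos (show _ ∧ _ ∧ _ from hz), ENNReal.ofReal_one]
    · rw [indicator_of_notMem hz, if_neg (show ¬ (_ ∧ _ ∧ _) from hz)]
  rw [e1, lintegral_indicator_const hSm, one_mul, Measure.volume_eq_prod, Measure.prod_apply hSm]
  -- the function h
  set h : Sp d → ℝ≥0∞ := fun y => volume (Prod.mk y ⁻¹' S) with hh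
  have hbound : ∀ y : Sp d, y ≠ 0 →
      h y ≤ ENNReal.ofReal (2 * V * (2 * (L / (μ * ‖y‖))) ^ (d - 1)) := by
    intro y hy
    obtain ⟨z0, hz0⟩ := norm_ge hμ hy T
    have hyp : 0 < ‖y‖ := norm_pos_iff.2 hy
    have he : ‖(‖y‖⁻¹ • y)‖ = 1 := by
      rw [norm_smul, norm_inv, norm_norm, inv_mul_cancel₀ hyp.ne']
    refine le_trans (measure_mono ?_) (cyl_vol (by omega) (‖y‖⁻¹ • y) 0 z0 he hV
      (div_nonneg hL (mul_pos hμ hyp).le))
    intro u hu
    obtain ⟨-, hu1, hu2⟩ := hu
    constructor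
    · rw [sub_zero]
      refine (abs_real_inner_le_norm _ _).trans ?_
      rw [he, one_mul]
      exact hu1
    · rw [le_div_iff₀ (mul_pos hμ hyp)]
      have := (hz0 u).trans hu2
      linarith
  have hsupp : ∀ y : Sp d, h y ≠ 0 → y ∈ A ∧ ‖y‖ ≤ D := by
    intro y hy
    obtain ⟨u, hu⟩ := nonempty_of_measure_ne_zero hy
    exact ⟨hTA y u hu.2.2, hu.1⟩
  -- the shells
  set r : ℕ → ℝ := fun n => D * (1 / 2) ^ n with hr
  have hr0 : ∀ n, 0 ≤ r n := fun n => mul_nonneg hD (by positivity)
  set B : ℕ → Set (Sp d) := fun n => {y | y ∈ A ∧ (r (n + 1) < ‖y‖ ∧ ‖y‖ ≤ r n)} with hB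
  have hBm : ∀ n, MeasurableSet (B n) := by
    intro n
    refine hAm.inter (MeasurableSet.inter ?_ ?_)
    · exact measurableSet_lt measurable_const measurable_norm
    · exact measurableSet_le measurable_norm measurable_const
  set B0 : Set (Sp d) := {y | y ∈ A ∧ ‖y‖ ≤ 0} with hB0
  have hB00 : volume B0 = 0 := by
    have := hA 0 le_rfl
    rw [mul_zero, mul_zero, mul_zero, mul_zero, ENNReal.ofReal_zero] at this
    exact le_antisymm this zero_le
  have hcov : ∀ y, h y ≠ 0 → y ∈ B0 ∪ ⋃ n, B n := by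
    intro y hy
    obtain ⟨hyA, hyD⟩ := hsupp y hy
    by_cases hy0 : y = 0
    · left
      exact ⟨hyA, by rw [hy0, norm_zero]⟩
    · right
      have hyp : 0 < ‖y‖ := norm_pos_iff.2 hy0
      have hDp : 0 < D := lt_of_lt_of_le hyp hyD
      obtain ⟨n, hn1, hn2⟩ := exists_nat_pow_near_of_lt_one (x := ‖y‖ / D) (y := (1 / 2 : ℝ))
        (div_pos hyp hDp) ((div_le_one hDp).2 hyD) (by norm_num) (by norm_num)
      rw [mem_iUnion]
      refine ⟨n, hyA, ?_, ?_⟩
      · rw [lt_div_iff₀ hDp] at hn1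
        simp only [hr]
        linarith
      · rw [div_le_iff₀ hDp] at hn2
        simp only [hr]
        linarith
  have hUm : MeasurableSet (B0 ∪ ⋃ n, B n) := by
    refine MeasurableSet.union (hAm.inter ?_) (MeasurableSet.iUnion hBm)
    exact measurableSet_le measurable_norm measurable_const
  have h1 : ∫⁻ y, h y ≤ ∫⁻ y in B0 ∪ ⋃ n, B n, h y := by
    rw [← lintegral_indicator hUm]
    refine lintegral_mono fun y => ?_
    by_cases hy : y ∈ B0 ∪ ⋃ n, B n
    · rw [indicator_of_mem hy]
    · have : h y = 0 := by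
        by_contra hc
        exact hy (hcov y hc)
      rw [this]
      exact zero_le
  have h2 : ∫⁻ y in B0 ∪ ⋃ n, B n, h y ≤ ∑' n, ∫⁻ y in B n, h y := by
    refine (lintegral_union_le _ _ _).trans ?_
    rw [setLIntegral_measure_zero _ _ hB00, zero_add]
    exact lintegral_iUnion_le _ _
  set c : ℝ := 4 * V * κ * (8 * L / μ) ^ (d - 1) with hc
  have hLμ : 0 ≤ 8 * L / μ := by positivity
  have hc0 : 0 ≤ c := by positivity
  have h3 : ∀ n, ∫⁻ y in B n, h y ≤ ENNReal.ofReal (c * D * (1 / 2) ^ n) := by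
    intro n
    rcases eq_or_lt_of_le hD with hD0 | hDp
    · have : B n = ∅ := by
        rw [eq_empty_iff_forall_notMem]
        intro y hy
        have h1 := hy.2.1
        have h2 := hy.2.2
        simp only [hr, ← hD0, zero_mul] at h1 h2
        linarith
      rw [this, Measure.restrict_empty, lintegral_zero_measure]
      exact zero_le
    · have hrp : 0 < r n := mul_pos hDp (by positivity)
      have hb : ∀ y ∈ B n, h y ≤ ENNReal.ofReal (2 * V * (4 * L / (μ * r n)) ^ (d - 1)) := by
        intro y hy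
        have hr1 : r (n + 1) = r n / 2 := by simp only [hr, pow_succ]; ring
        have hyr : r n / 2 < ‖y‖ := by rw [← hr1]; exact hy.2.1
        have hy0 : y ≠ 0 := by
          intro hc
          rw [hc, norm_zero] at hyr
          linarith
        refine (hbound y hy0).trans (ENNReal.ofReal_le_ofReal ?_)
        refine mul_le_mul_of_nonneg_left ?_ (by linarith)
        have hyp : 0 < ‖y‖ := norm_pos_iff.2 hy0
        refine pow_le_pow_left₀ (by positivity) ?_ _
        rw [← mul_div_assoc, div_le_div_iff₀ (mul_pos hμ hyp) (mul_pos hμ hrp)]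
        have : μ * r n ≤ 2 * (μ * ‖y‖) := by nlinarith
        nlinarith
      refine (setLIntegral_mono' (hBm n) hb).trans ?_
      rw [setLIntegral_const]
      have hvol : volume (B n) ≤ ENNReal.ofReal ((2 * r n) ^ (d - 1) * (2 * (κ * r n))) := by
        refine le_trans (measure_mono ?_) (hA (r n) (hr0 n))
        intro y hy
        exact ⟨hy.1, hy.2.2⟩
      refine (mul_le_mul_right hvol _).trans ?_
      rw [← ENNReal.ofReal_mul (by positivity)]
      apply ENNReal.ofReal_le_ofReal
      apply le_of_eq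
      have e2 : (4 * L / (μ * r n)) ^ (d - 1) * (2 * r n) ^ (d - 1) = (8 * L / μ) ^ (d - 1) := by
        rw [← mul_pow]
        congr 1
        field_simp
        ring
      calc 2 * V * (4 * L / (μ * r n)) ^ (d - 1) * ((2 * r n) ^ (d - 1) * (2 * (κ * r n)))
          = 2 * V * ((4 * L / (μ * r n)) ^ (d - 1) * (2 * r n) ^ (d - 1)) * (2 * (κ * r n)) := by
            ring
        _ = c * D * (1 / 2) ^ n := by
            rw [e2, hc]
            simp only [hr]
            ring
  refine h1.trans (h2.trans ((ENNReal.tsum_le_tsum h3).trans ?_))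
  rw [← ENNReal.ofReal_tsum_of_nonneg (fun n => by positivity)
    (summable_geometric_two.mul_left (c * D)), tsum_mul_left, tsum_geometric_two]
  apply ENNReal.ofReal_le_ofReal
  apply le_of_eq
  rw [hc]
  ring

/-- entries of an operator -/
private noncomputable def ent (T : Sp d →L[ℝ] Sp d) (i j : Fin d) : ℝ :=
  T (EuclideanSpace.single j 1) i

private theorem norm_le_ent (T : Sp d →L[ℝ] Sp d) : ‖T‖ ≤ ∑ j, ∑ i, |ent T i j| := by
  have hv : ∀ v : Sp d, ‖v‖ ≤ ∑ i, |v i| := by
    intro v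
    conv_lhs => rw [← (EuclideanSpace.basisFun (Fin d) ℝ).sum_repr v]
    refine (norm_sum_le _ _).trans (Finset.sum_le_sum fun i _ => ?_)
    rw [norm_smul]
    simp
  refine ContinuousLinearMap.opNorm_le_bound _ (by positivity) ?_
  intro x
  conv_lhs => rw [← (EuclideanSpace.basisFun (Fin d) ℝ).sum_repr x]
  rw [map_sum, Finset.sum_mul]
  refine (norm_sum_le _ _).trans (Finset.sum_le_sum fun j _ => ?_)
  rw [map_smul, norm_smul, mul_comm]
  refine mul_le_mul ?_ ?_ (norm_nonneg _) (by positivity)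
  · rw [EuclideanSpace.basisFun_apply]
    exact hv _
  · simpa using PiLp.norm_apply_le x j

private theorem ent_le (T : Sp d →L[ℝ] Sp d) (i j : Fin d) : |ent T i j| ≤ ‖T‖ := by
  unfold ent
  have h1 := PiLp.norm_apply_le (T (EuclideanSpace.single j (1 : ℝ))) i
  rw [Real.norm_eq_abs] at h1
  refine h1.trans ((T.le_opNorm _).trans ?_)
  rw [PiLp.norm_single, norm_one, mul_one]

private theorem ent_add (T : Sp d →L[ℝ] Sp d) (μ : ℝ) (y u : Sp d) (i j : Fin d) :
    ent (T + μ • wedge y u) i j = ent T i j + μ * (y i * u j - y j * u i) := by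
  unfold ent
  have h1 : ⟪u, EuclideanSpace.single j (1 : ℝ)⟫ = u j := by
    rw [EuclideanSpace.inner_single_right]; simp
  have h2 : ⟪y, EuclideanSpace.single j (1 : ℝ)⟫ = y j := by
    rw [EuclideanSpace.inner_single_right]; simp
  rw [add_apply, smul_apply, wedge_apply, h1, h2]
  change T (EuclideanSpace.single j 1) i + μ * (u j * y i - y j * u i) = _
  ring

private theorem exists_third (hd : 3 ≤ d) (i j : Fin d) : ∃ k : Fin d, k ≠ i ∧ k ≠ j := by
  have h1 : ({i, j} : Finset (Fin d)).card < (Finset.univ : Finset (Fin d)).card := by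
    have := Finset.card_le_two (a := i) (b := j)
    rw [Finset.card_univ, Fintype.card_fin]
    omega
  obtain ⟨k, _, hk⟩ := Finset.exists_mem_notMem_of_card_lt_card h1
  rw [Finset.mem_insert, Finset.mem_singleton] at hk
  push Not at hk
  exact ⟨k, hk.1, hk.2⟩

theorem lc (hd : 3 ≤ d) {μ L : ℝ} (hμ : 0 < μ) (hL : 0 ≤ L) : ∃ C : ℝ, 0 < C ∧
    ∀ (T : Sp d →L[ℝ] Sp d) (D V : ℝ), 0 ≤ D → 0 ≤ V →
    ∫⁻ z : Sp d × Sp d,
      onSet (‖z.1‖ ≤ D ∧ ‖z.2‖ ≤ V ∧ ‖T + μ • wedge z.1 z.2‖ ≤ L) 1 ≤
      ENNReal.ofReal (C * D * V) * ker1 T := by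
  classical
  set K : ℝ := 2 * (d : ℝ) ^ 2 * (L + 1) with hK
  have hd0 : (0 : ℝ) < d := by
    have : 0 < d := by omega
    exact_mod_cast this
  have hd3 : (3 : ℝ) ≤ d := by exact_mod_cast hd
  have hK0 : 0 < K := by positivity
  have hK1 : 1 ≤ K := by
    rw [hK]
    nlinarith
  set c : ℝ := 8 * (8 * L / μ) ^ (d - 1) with hc
  have hc0 : 0 ≤ c := by positivity
  refine ⟨c * (1 + K + 6 * L * (d : ℝ) ^ 2) + 1, by positivity, ?_⟩
  intro T D V hD hV
  unfold ker1
  have hT0 : 0 ≤ ‖T‖ := norm_nonneg T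
  have hDV : 0 ≤ D * V := mul_nonneg hD hV
  have h6 : 0 ≤ 6 * L * (d : ℝ) ^ 2 := by positivity
  rw [← ENNReal.ofReal_mul (by positivity)]
  obtain ⟨k0, hk0⟩ : ∃ k0 : Fin d, k0 = ⟨0, by omega⟩ := ⟨_, rfl⟩
  by_cases hTK : ‖T‖ ≤ K
  · obtain ⟨i0, hi0, -⟩ := exists_third hd k0 k0
    refine (core hd hμ hL T univ MeasurableSet.univ 1 zero_le_one ?_ (fun _ _ _ => mem_univ _)
      hD hV).trans (ENNReal.ofReal_le_ofReal ?_)
    · intro ρ hρ
      refine le_trans (measure_mono ?_) (slab i0 i0 k0 hi0.symm hi0.symm 0 0 ρ (1 * ρ) hρ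
        (by linarith))
      intro y hy
      refine ⟨hy.2, ?_⟩
      have e0 : y k0 + 0 * y i0 + 0 * y i0 = y k0 := by ring
      rw [e0, one_mul]
      have := (PiLp.norm_apply_le y k0).trans hy.2
      rwa [Real.norm_eq_abs] at this
    · rw [mul_one_div, le_div_iff₀ (by positivity)]
      have e : 8 * V * 1 * D * (8 * L / μ) ^ (d - 1) * (1 + ‖T‖) = c * (1 + ‖T‖) * (D * V) := by
        rw [hc]; ring
      rw [e, mul_assoc _ D V]
      refine mul_le_mul_of_nonneg_right ?_ hDV
      nlinarith [mul_nonneg hc0 h6, mul_nonneg hc0 (sub_nonneg.2 hTK)]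
  · push Not at hTK
    -- a large entry
    obtain ⟨i, j, hij⟩ : ∃ i j : Fin d, ‖T‖ ≤ (d : ℝ) ^ 2 * |ent T i j| := by
      by_contra hcon
      push Not at hcon
      have h1 : ∑ j : Fin d, ∑ i : Fin d, |ent T i j| < ∑ _j : Fin d, ∑ _i : Fin d,
          ‖T‖ / (d : ℝ) ^ 2 := by
        have hne : (Finset.univ : Finset (Fin d)).Nonempty := ⟨k0, Finset.mem_univ _⟩
        refine Finset.sum_lt_sum_of_nonempty hne fun j _ =>
          Finset.sum_lt_sum_of_nonempty hne fun i _ => ?_
        rw [lt_div_iff₀ (by positivity), mul_comm]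
        exact hcon i j
      rw [Finset.sum_const, Finset.sum_const, Finset.card_univ, Fintype.card_fin] at h1
      have h2 := norm_le_ent T
      simp only [nsmul_eq_mul] at h1
      have h3 : (d : ℝ) * (d * (‖T‖ / (d : ℝ) ^ 2)) = ‖T‖ := by
        field_simp
      linarith
    have hpos : 2 * (L + 1) < |ent T i j| := by
      have h1 : 2 * (d : ℝ) ^ 2 * (L + 1) < (d : ℝ) ^ 2 * |ent T i j| := by
        rw [← hK]
        linarith
      have h2 : (d : ℝ) ^ 2 * (2 * (L + 1)) < (d : ℝ) ^ 2 * |ent T i j| := by linarith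
      exact lt_of_mul_lt_mul_left h2 (by positivity)
    have ht0 : 0 < |ent T i j| := by linarith
    have htne : ent T i j ≠ 0 := abs_pos.1 ht0
    -- i ≠ j or nothing
    by_cases hne : i = j
    · have hempty : ∀ y u : Sp d, ‖T + μ • wedge y u‖ ≤ L → y ∈ (∅ : Set (Sp d)) := by
        intro y u hyu
        have h1 := (ent_le (T + μ • wedge y u) i j).trans hyu
        rw [ent_add, hne] at h1
        rw [hne] at hpos
        have e : ent T j j + μ * (y j * u j - y j * u j) = ent T j j := by ring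
        rw [e] at h1
        linarith
      refine (core hd hμ hL T ∅ MeasurableSet.empty 0 le_rfl ?_ hempty hD hV).trans ?_
      · intro ρ _
        have : {y : Sp d | y ∈ (∅ : Set (Sp d)) ∧ ‖y‖ ≤ ρ} = ∅ := by
          ext y
          simp
        rw [this, measure_empty]
        exact zero_le
      · apply ENNReal.ofReal_le_ofReal
        rw [mul_zero, zero_mul, zero_mul]
        positivity
    · obtain ⟨k, hki, hkj⟩ := exists_third hd i j
      set α : ℝ := ent T j k / ent T i j with hα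
      set β : ℝ := ent T k i / ent T i j with hβ
      set κ : ℝ := 3 * L / |ent T i j| with hκ
      have hκ0 : 0 ≤ κ := by positivity
      refine (core hd hμ hL T {y : Sp d | |y k + α * y i + β * y j| ≤ κ * ‖y‖} ?_ κ hκ0 ?_ ?_
        hD hV).trans (ENNReal.ofReal_le_ofReal ?_)
      · apply IsClosed.measurableSet
        refine isClosed_le ?_ ?_
        · fun_prop
        · fun_prop
      · intro ρ hρ
        refine le_trans (measure_mono ?_) (slab i j k hki hkj α β ρ (κ * ρ) hρ (by positivity))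
        intro y hy
        exact ⟨hy.2, hy.1.trans (mul_le_mul_of_nonneg_left hy.2 hκ0)⟩
      · intro y u hyu
        have a1 := (ent_le (T + μ • wedge y u) i j).trans hyu
        have a2 := (ent_le (T + μ • wedge y u) j k).trans hyu
        have a3 := (ent_le (T + μ • wedge y u) k i).trans hyu
        have b1 : |y i| ≤ ‖y‖ := by simpa using PiLp.norm_apply_le y i
        have b2 : |y j| ≤ ‖y‖ := by simpa using PiLp.norm_apply_le y j
        have b3 : |y k| ≤ ‖y‖ := by simpa using PiLp.norm_apply_le y k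
        have key : y i * ent T j k + y j * ent T k i + y k * ent T i j =
            y i * ent (T + μ • wedge y u) j k + y j * ent (T + μ • wedge y u) k i +
              y k * ent (T + μ • wedge y u) i j := by
          rw [ent_add, ent_add, ent_add]
          ring
        have hb : |y i * ent T j k + y j * ent T k i + y k * ent T i j| ≤ 3 * L * ‖y‖ := by
          rw [key]
          have hy0 : 0 ≤ ‖y‖ := norm_nonneg y
          have c1 : |y i * ent (T + μ • wedge y u) j k| ≤ ‖y‖ * L := by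
            rw [abs_mul]
            exact mul_le_mul b1 a2 (abs_nonneg _) hy0
          have c2 : |y j * ent (T + μ • wedge y u) k i| ≤ ‖y‖ * L := by
            rw [abs_mul]
            exact mul_le_mul b2 a3 (abs_nonneg _) hy0
          have c3 : |y k * ent (T + μ • wedge y u) i j| ≤ ‖y‖ * L := by
            rw [abs_mul]
            exact mul_le_mul b3 a1 (abs_nonneg _) hy0
          have := (abs_add_le (y i * ent (T + μ • wedge y u) j k +
            y j * ent (T + μ • wedge y u) k i) (y k * ent (T + μ • wedge y u) i j)).trans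
            (add_le_add_left (abs_add_le _ _) _)
          linarith
        change |y k + α * y i + β * y j| ≤ κ * ‖y‖
        have e : y k + α * y i + β * y j =
            (y i * ent T j k + y j * ent T k i + y k * ent T i j) / ent T i j := by
          rw [hα, hβ]
          field_simp
          ring
        rw [e, abs_div, hκ, div_mul_eq_mul_div]
        exact div_le_div_of_nonneg_right hb ht0.le
      · rw [mul_one_div, le_div_iff₀ (by positivity)]
        have hκ2 : κ * (1 + ‖T‖) ≤ 6 * L * (d : ℝ) ^ 2 := by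
          rw [hκ, div_mul_eq_mul_div, div_le_iff₀ ht0]
          have h1 : 1 ≤ ‖T‖ := hK1.trans hTK.le
          nlinarith [mul_nonneg hL hT0, mul_nonneg hL (sub_nonneg.2 h1),
            mul_nonneg hL (sub_nonneg.2 hij)]
        have e : 8 * V * κ * D * (8 * L / μ) ^ (d - 1) * (1 + ‖T‖) =
            c * (κ * (1 + ‖T‖)) * (D * V) := by
          rw [hc]; ring
        rw [e, mul_assoc _ D V]
        refine mul_le_mul_of_nonneg_right ?_ hDV
        nlinarith [mul_nonneg hc0 (sub_nonneg.2 hκ2), mul_nonneg hc0 hK0.le]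

end NB5
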