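import Pool.Agent.NB5.VDefs

/-!
# NB5-VWin: the energy window

PLAN. If the set is empty there is nothing to do. Otherwise put `t = (2/μ) max (κ - R) 0` and
`t' = min (S^2) ((2/μ)(κ + R))`; the set is contained in `{u | t ≤ ‖u‖^2 ≤ t'}`, i.e. in
`closedBall 0 √t' \ ball 0 √t`, `0 ≤ t ≤ t' ≤ S²`, `t' - t ≤ 4R/μ` (if `κ - R < 0` then
`t' ≤ (2/μ)(κ + R) ≤ 4R/μ`). Volume: `ω ((√t')^d - (√t)^d)` with `ω = volume (ball 0 1)`
(`Measure.addHaar_closedBall`, `Measure.addHaar_ball`, `measure_diff`), and for `0 ≤ y ≤ x ≤ S`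
`x^d - y^d ≤ d x^(d-1) (x - y) ≤ d x^(d-2) (x² - y²)` (since `x (x - y) ≤ x² - y²`).
-/

open MeasureTheory Set Filter Topology Metric
open scoped NNReal ENNReal RealInnerProductSpace

namespace NB5

open HDN

variable {d : ℕ}

private theorem pow_diff {x y : ℝ} (hy : 0 ≤ y) (hxy : y ≤ x) (n : ℕ) :
    x ^ (n + 1) - y ^ (n + 1) ≤ (n + 1) * x ^ n * (x - y) := by
  induction n with
  | zero => simp
  | succ n ih =>
    have hx : 0 ≤ x := hy.trans hxy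
    have h1 : y ^ (n + 1) ≤ x ^ (n + 1) := pow_le_pow_left₀ hy hxy _
    have h2 : x * (x ^ (n + 1) - y ^ (n + 1)) ≤ x * ((n + 1) * x ^ n * (x - y)) :=
      mul_le_mul_of_nonneg_left ih hx
    have h3 : y ^ (n + 1) * (x - y) ≤ x ^ (n + 1) * (x - y) :=
      mul_le_mul_of_nonneg_right h1 (by linarith)
    push_cast
    calc x ^ (n + 1 + 1) - y ^ (n + 1 + 1)
        = x * (x ^ (n + 1) - y ^ (n + 1)) + y ^ (n + 1) * (x - y) := by ring
      _ ≤ x * ((n + 1) * x ^ n * (x - y)) + x ^ (n + 1) * (x - y) := add_le_add h2 h3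
      _ = (n + 1 + 1) * x ^ (n + 1) * (x - y) := by ring

private theorem pow_diff2 {x y s D : ℝ} (hy : 0 ≤ y) (hxy : y ≤ x) (hxs : x ≤ s)
    (hD : x ^ 2 - y ^ 2 ≤ D) (k : ℕ) :
    x ^ (k + 2) - y ^ (k + 2) ≤ (k + 2) * D * s ^ k := by
  have hx : 0 ≤ x := hy.trans hxy
  have h1 := pow_diff hy hxy (k + 1)
  have h2 : x * (x - y) ≤ D := by nlinarith
  have hD0 : 0 ≤ D := by nlinarith
  have h3 : x ^ k ≤ s ^ k := pow_le_pow_left₀ hx hxs k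
  have hk : (0 : ℝ) ≤ k := Nat.cast_nonneg k
  push_cast at h1
  calc x ^ (k + 2) - y ^ (k + 2) ≤ (k + 1 + 1) * x ^ (k + 1) * (x - y) := h1
    _ = (k + 2) * x ^ k * (x * (x - y)) := by ring
    _ ≤ (k + 2) * x ^ k * D := mul_le_mul_of_nonneg_left h2 (by positivity)
    _ ≤ (k + 2) * s ^ k * D :=
        mul_le_mul_of_nonneg_right (mul_le_mul_of_nonneg_left h3 (by positivity)) hD0
    _ = (k + 2) * D * s ^ k := by ring

theorem win (hd : 2 ≤ d) {μ R : ℝ} (hμ : 0 < μ) (hR : 0 ≤ R) : ∃ C : ℝ, 0 < C ∧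
    ∀ κ S : ℝ, 1 ≤ S →
    ∫⁻ u : Sp d, onSet (‖u‖ ≤ S ∧ |μ / 2 * ‖u‖ ^ 2 - κ| ≤ R) 1 ≤
      ENNReal.ofReal (C * S ^ (d - 2)) := by
  obtain ⟨k, rfl⟩ : ∃ k, d = k + 2 := ⟨d - 2, by omega⟩
  have hk2 : k + 2 - 2 = k := by omega
  have hω : volume (ball (0 : Sp (k + 2)) 1) ≠ ∞ := measure_ball_lt_top.ne
  obtain ⟨w, hw⟩ : ∃ w : ℝ, w = (volume (ball (0 : Sp (k + 2)) 1)).toReal := ⟨_, rfl⟩
  have hw0 : 0 ≤ w := hw ▸ ENNReal.toReal_nonneg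
  have hwω : volume (ball (0 : Sp (k + 2)) 1) = ENNReal.ofReal w := by
    rw [hw, ENNReal.ofReal_toReal hω]
  have hD0 : 0 ≤ 4 * R / μ := by positivity
  refine ⟨(k + 2) * (4 * R / μ) * w + 1, by positivity, fun κ s hs => ?_⟩
  rw [hk2]
  have hsp : (0 : ℝ) ≤ s ^ k := by positivity
  -- the set
  have hmeas : MeasurableSet {u : Sp (k + 2) | ‖u‖ ≤ s ∧ |μ / 2 * ‖u‖ ^ 2 - κ| ≤ R} := by
    apply IsClosed.measurableSet
    exact (isClosed_le continuous_norm continuous_const).inter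
      (isClosed_le ((continuous_const.mul (continuous_norm.pow 2)).sub continuous_const).abs
        continuous_const)
  have h1 : ∫⁻ u : Sp (k + 2), onSet (‖u‖ ≤ s ∧ |μ / 2 * ‖u‖ ^ 2 - κ| ≤ R) 1 =
      volume {u : Sp (k + 2) | ‖u‖ ≤ s ∧ |μ / 2 * ‖u‖ ^ 2 - κ| ≤ R} := by
    rw [← lintegral_indicator_one hmeas]
    refine lintegral_congr fun u => ?_
    unfold onSet
    rw [ENNReal.ofReal_one]
    by_cases hu : ‖u‖ ≤ s ∧ |μ / 2 * ‖u‖ ^ 2 - κ| ≤ R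
    · rw [if_pos hu, Set.indicator_of_mem (show u ∈ {u : Sp (k + 2) | ‖u‖ ≤ s ∧
        |μ / 2 * ‖u‖ ^ 2 - κ| ≤ R} from hu)]
      rfl
    · rw [if_neg hu, Set.indicator_of_notMem (show u ∉ {u : Sp (k + 2) | ‖u‖ ≤ s ∧
        |μ / 2 * ‖u‖ ^ 2 - κ| ≤ R} from hu)]
  rw [h1]
  by_cases hne : {u : Sp (k + 2) | ‖u‖ ≤ s ∧ |μ / 2 * ‖u‖ ^ 2 - κ| ≤ R} = ∅
  · rw [hne, measure_empty]
    exact zero_le
  obtain ⟨u0, hu1, hu2⟩ := Set.nonempty_iff_ne_empty.2 hne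
  obtain ⟨t, ht⟩ : ∃ t : ℝ, t = 2 / μ * max (κ - R) 0 := ⟨_, rfl⟩
  obtain ⟨t', ht'⟩ : ∃ t' : ℝ, t' = min (s ^ 2) (2 / μ * (κ + R)) := ⟨_, rfl⟩
  have hμ2 : 0 < 2 / μ := by positivity
  have hmm : 2 / μ * (μ / 2) = 1 := by
    field_simp
  have hbd : ∀ u : Sp (k + 2), ‖u‖ ≤ s → |μ / 2 * ‖u‖ ^ 2 - κ| ≤ R → t ≤ ‖u‖ ^ 2 ∧
      ‖u‖ ^ 2 ≤ t' := by
    intro u h1 h2
    obtain ⟨h3, h4⟩ := abs_le.1 h2
    have h5 : ‖u‖ ^ 2 = 2 / μ * (μ / 2 * ‖u‖ ^ 2) := by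
      rw [← mul_assoc, hmm, one_mul]
    constructor
    · rw [ht, h5]
      refine mul_le_mul_of_nonneg_left (max_le (by linarith) (by positivity)) hμ2.le
    · rw [ht']
      refine le_min (pow_le_pow_left₀ (norm_nonneg _) h1 2) ?_
      rw [h5]
      exact mul_le_mul_of_nonneg_left (by linarith) hμ2.le
  have ht0 : 0 ≤ t := by
    rw [ht]
    exact mul_nonneg hμ2.le (le_max_right _ _)
  have htt' : t ≤ t' := (hbd u0 hu1 hu2).1.trans (hbd u0 hu1 hu2).2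
  have hdiff : t' - t ≤ 4 * R / μ := by
    have h2 : t' ≤ 2 / μ * (κ + R) := ht' ▸ min_le_right _ _
    have h3 : 2 / μ * (κ - R) ≤ t := by
      rw [ht]
      exact mul_le_mul_of_nonneg_left (le_max_left _ _) hμ2.le
    have h4 : 4 * R / μ = 2 / μ * (κ + R) - 2 / μ * (κ - R) := by ring
    linarith
  have hxy : √t ≤ √t' := Real.sqrt_le_sqrt htt'
  have hxs : √t' ≤ s := by
    rw [Real.sqrt_le_left (by linarith)]
    exact ht' ▸ min_le_left _ _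
  have hsub : {u : Sp (k + 2) | ‖u‖ ≤ s ∧ |μ / 2 * ‖u‖ ^ 2 - κ| ≤ R} ⊆
      closedBall 0 (√t') \ ball 0 (√t) := by
    rintro u ⟨h2, h3⟩
    obtain ⟨h4, h5⟩ := hbd u h2 h3
    refine ⟨?_, ?_⟩
    · rw [mem_closedBall_zero_iff]
      exact Real.le_sqrt_of_sq_le h5
    · rw [mem_ball_zero_iff, not_lt]
      rw [Real.sqrt_le_left (norm_nonneg _)]
      exact h4
  refine (measure_mono hsub).trans ?_
  rw [measure_sdiff ((ball_subset_ball hxy).trans ball_subset_closedBall)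
    measurableSet_ball.nullMeasurableSet measure_ball_lt_top.ne,
    Measure.addHaar_closedBall _ _ (Real.sqrt_nonneg _),
    Measure.addHaar_ball _ _ (Real.sqrt_nonneg _), finrank_euclideanSpace_fin, hwω,
    ← ENNReal.ofReal_mul (by positivity), ← ENNReal.ofReal_mul (by positivity),
    ← ENNReal.ofReal_sub _ (by positivity)]
  refine ENNReal.ofReal_le_ofReal ?_
  have h6 : (√t') ^ 2 - (√t) ^ 2 ≤ 4 * R / μ := by
    rw [Real.sq_sqrt (ht0.trans htt'), Real.sq_sqrt ht0]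
    exact hdiff
  have h7 := pow_diff2 (Real.sqrt_nonneg t) hxy hxs h6 k
  have h8 := mul_le_mul_of_nonneg_right h7 hw0
  nlinarith

end NB5
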