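import Pool.Agent.NB5.VLC
import Pool.Agent.NB5.VWin

/-!
# NB5-VMast: the master inequality in coordinates

PLAN. Integrate from the inside: for fixed `y, p, z, z'` the `u`-integral is
`onSet (...)`-part times `∫ onSet (‖u‖ ≤ S y ∧ |μ0/2 ‖u‖² - κ| ≤ R) 1 ≤ C1 (S y)^(d-2)` (`win`); pull the
factors which do not depend on `u` out (`lintegral_const_mul'` needs a finite constant,
`lintegral_const_mul_le`... the inequality `∫⁻ c * f ≤ c * ∫⁻ f` may fail for non-measurable `f` and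
`c = ⊤` only formally: use `lintegral_const_mul''`/`Measurable` for the explicit measurable `f`, all
`f` which occur here at the two inner levels are indicators of closed sets). Then for fixed `y, p, z`:
`T = μ1 • wedge p.1 p.2 + μ2 • wedge z.1 z.2`, `lc` gives
`≤ C2 (D y) (W y) ker1 T`; then `hK` with `T = μ1 • wedge p.1 p.2` (order of the sum:
`T' + μ2 • wedge z.1 z.2`). The functions `a`, `β`, `c` are assumed to be finite valued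
(`onSet`-type), which makes `lintegral_const_mul'` applicable.
-/

open MeasureTheory Set Filter Topology Metric
open scoped NNReal ENNReal RealInnerProductSpace

namespace NB5

open HDN

variable {d : ℕ}

private theorem onSet_ne (p : Prop) (f : ℝ) : onSet p f ≠ ⊤ := by
  unfold onSet
  split_ifs
  · exact ENNReal.ofReal_ne_top
  · exact ENNReal.zero_ne_top

theorem cmaster (hd : 3 ≤ d) (μ : Fin 4 → ℝ) (hμ : ∀ j, 0 < μ j) {R L : ℝ} (hR : 0 ≤ R)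
    (hL : 0 ≤ L) : ∃ C : ℝ, 0 < C ∧
    ∀ (a : Sp d → ℝ≥0∞) (S D W : Sp d → ℝ) (β : Sp d → Sp d × Sp d → ℝ≥0∞)
      (c : Sp d → Sp d × Sp d → Sp d × Sp d → ℝ≥0∞) (K3 : Sp d → Sp d × Sp d → ℝ≥0∞)
      (κ : Sp d → Sp d × Sp d → Sp d × Sp d → Sp d × Sp d → ℝ),
    (∀ y, a y ≠ ⊤) → (∀ y p, β y p ≠ ⊤) → (∀ y p z, c y p z ≠ ⊤) →
    (∀ y, 1 ≤ S y) → (∀ y, 0 ≤ D y) → (∀ y, 0 ≤ W y) →
    (∀ y p (T : Sp d →L[ℝ] Sp d),
      ∫⁻ z : Sp d × Sp d, c y p z * ker1 (T + μ 2 • wedge z.1 z.2) ≤ K3 y p) →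
    ∫⁻ y : Sp d, ∫⁻ p : Sp d × Sp d, ∫⁻ z : Sp d × Sp d, ∫⁻ z' : Sp d × Sp d, ∫⁻ u : Sp d,
      a y * (β y p * (c y p z * (onSet (‖z'.1‖ ≤ D y ∧ ‖z'.2‖ ≤ W y ∧
        ‖(μ 1 • wedge p.1 p.2 + μ 2 • wedge z.1 z.2) + μ 3 • wedge z'.1 z'.2‖ ≤ L) 1 *
        onSet (‖u‖ ≤ S y ∧ |μ 0 / 2 * ‖u‖ ^ 2 - κ y p z z'| ≤ R) 1))) ≤
      ENNReal.ofReal C * ∫⁻ y : Sp d, a y * ENNReal.ofReal (S y ^ (d - 2) * D y * W y) *
        ∫⁻ p : Sp d × Sp d, β y p * K3 y p := by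
  obtain ⟨C1, hC1, hwin⟩ := win (d := d) (by omega) (hμ 0) hR
  obtain ⟨C2, hC2, hlc⟩ := lc (d := d) hd (hμ 3) hL
  refine ⟨C1 * C2, mul_pos hC1 hC2, ?_⟩
  intro a S D W β c K3 κ ha hβ hc hS hD hW hK
  rw [← lintegral_const_mul' _ _ ENNReal.ofReal_ne_top]
  refine lintegral_mono fun y => ?_
  -- the constants
  have e1 : ENNReal.ofReal (C1 * S y ^ (d - 2)) * ENNReal.ofReal (C2 * D y * W y) =
      ENNReal.ofReal (C1 * C2) * ENNReal.ofReal (S y ^ (d - 2) * D y * W y) := by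
    have hS0 : 0 ≤ S y := zero_le_one.trans (hS y)
    rw [← ENNReal.ofReal_mul (by positivity), ← ENNReal.ofReal_mul (by positivity)]
    congr 1
    ring
  have hT1 : ENNReal.ofReal (C1 * S y ^ (d - 2)) ≠ ⊤ := ENNReal.ofReal_ne_top
  have hT2 : ENNReal.ofReal (C2 * D y * W y) ≠ ⊤ := ENNReal.ofReal_ne_top
  set A1 := ENNReal.ofReal (C1 * S y ^ (d - 2)) with hA1
  set A2 := ENNReal.ofReal (C2 * D y * W y) with hA2
  -- the u-integral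
  have s1 : ∀ (p z z' : Sp d × Sp d),
      ∫⁻ u : Sp d, a y * (β y p * (c y p z * (onSet (‖z'.1‖ ≤ D y ∧ ‖z'.2‖ ≤ W y ∧
        ‖(μ 1 • wedge p.1 p.2 + μ 2 • wedge z.1 z.2) + μ 3 • wedge z'.1 z'.2‖ ≤ L) 1 *
        onSet (‖u‖ ≤ S y ∧ |μ 0 / 2 * ‖u‖ ^ 2 - κ y p z z'| ≤ R) 1))) ≤
      (a y * β y p * c y p z * A1) * onSet (‖z'.1‖ ≤ D y ∧ ‖z'.2‖ ≤ W y ∧
        ‖(μ 1 • wedge p.1 p.2 + μ 2 • wedge z.1 z.2) + μ 3 • wedge z'.1 z'.2‖ ≤ L) 1 := by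
    intro p z z'
    have hne : a y * β y p * c y p z * onSet (‖z'.1‖ ≤ D y ∧ ‖z'.2‖ ≤ W y ∧
        ‖(μ 1 • wedge p.1 p.2 + μ 2 • wedge z.1 z.2) + μ 3 • wedge z'.1 z'.2‖ ≤ L) 1 ≠ ⊤ :=
      ENNReal.mul_ne_top (ENNReal.mul_ne_top (ENNReal.mul_ne_top (ha y) (hβ y p)) (hc y p z))
        (onSet_ne _ _)
    have h3 : ∀ u : Sp d, a y * (β y p * (c y p z * (onSet (‖z'.1‖ ≤ D y ∧ ‖z'.2‖ ≤ W y ∧
        ‖(μ 1 • wedge p.1 p.2 + μ 2 • wedge z.1 z.2) + μ 3 • wedge z'.1 z'.2‖ ≤ L) 1 *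
        onSet (‖u‖ ≤ S y ∧ |μ 0 / 2 * ‖u‖ ^ 2 - κ y p z z'| ≤ R) 1))) =
        (a y * β y p * c y p z * onSet (‖z'.1‖ ≤ D y ∧ ‖z'.2‖ ≤ W y ∧
        ‖(μ 1 • wedge p.1 p.2 + μ 2 • wedge z.1 z.2) + μ 3 • wedge z'.1 z'.2‖ ≤ L) 1) *
        onSet (‖u‖ ≤ S y ∧ |μ 0 / 2 * ‖u‖ ^ 2 - κ y p z z'| ≤ R) 1 := fun u => by ring
    simp only [h3]
    rw [lintegral_const_mul' _ _ hne]
    refine (mul_le_mul_right (hwin (κ y p z z') (S y) (hS y)) _).trans (le_of_eq ?_)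
    ring
  -- the z'-integral
  have s2 : ∀ (p z : Sp d × Sp d),
      ∫⁻ z' : Sp d × Sp d, ∫⁻ u : Sp d,
      a y * (β y p * (c y p z * (onSet (‖z'.1‖ ≤ D y ∧ ‖z'.2‖ ≤ W y ∧
        ‖(μ 1 • wedge p.1 p.2 + μ 2 • wedge z.1 z.2) + μ 3 • wedge z'.1 z'.2‖ ≤ L) 1 *
        onSet (‖u‖ ≤ S y ∧ |μ 0 / 2 * ‖u‖ ^ 2 - κ y p z z'| ≤ R) 1))) ≤
      (a y * β y p * A1 * A2) * (c y p z * ker1 (μ 1 • wedge p.1 p.2 + μ 2 • wedge z.1 z.2)) := by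
    intro p z
    have hne : a y * β y p * c y p z * A1 ≠ ⊤ :=
      ENNReal.mul_ne_top (ENNReal.mul_ne_top (ENNReal.mul_ne_top (ha y) (hβ y p)) (hc y p z)) hT1
    refine (lintegral_mono fun z' => s1 p z z').trans ?_
    rw [lintegral_const_mul' _ _ hne]
    refine (mul_le_mul_right (hlc (μ 1 • wedge p.1 p.2 + μ 2 • wedge z.1 z.2) (D y) (W y)
      (hD y) (hW y)) _).trans (le_of_eq ?_)
    rw [← hA2]
    ring
  -- the z-integral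
  have s3 : ∀ (p : Sp d × Sp d),
      ∫⁻ z : Sp d × Sp d, ∫⁻ z' : Sp d × Sp d, ∫⁻ u : Sp d,
      a y * (β y p * (c y p z * (onSet (‖z'.1‖ ≤ D y ∧ ‖z'.2‖ ≤ W y ∧
        ‖(μ 1 • wedge p.1 p.2 + μ 2 • wedge z.1 z.2) + μ 3 • wedge z'.1 z'.2‖ ≤ L) 1 *
        onSet (‖u‖ ≤ S y ∧ |μ 0 / 2 * ‖u‖ ^ 2 - κ y p z z'| ≤ R) 1))) ≤
      (a y * A1 * A2) * (β y p * K3 y p) := by
    intro p
    have hne : a y * β y p * A1 * A2 ≠ ⊤ :=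
      ENNReal.mul_ne_top (ENNReal.mul_ne_top (ENNReal.mul_ne_top (ha y) (hβ y p)) hT1) hT2
    refine (lintegral_mono fun z => s2 p z).trans ?_
    rw [lintegral_const_mul' _ _ hne]
    refine (mul_le_mul_right (hK y p (μ 1 • wedge p.1 p.2)) _).trans (le_of_eq ?_)
    ring
  -- the p-integral
  refine (lintegral_mono fun p => s3 p).trans ?_
  rw [lintegral_const_mul' _ _ (ENNReal.mul_ne_top (ENNReal.mul_ne_top (ha y) hT1) hT2),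
    mul_assoc (a y), e1]
  apply le_of_eq
  ring

end NB5
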