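import Pool.Agent.NB5.VCyD

/-!
# NB5-VPhi: integral of the exit weight over the position

PLAN. `e = ‖u‖⁻¹ • u`, `p = ‖perp e y‖`. `jw y u = ‖u‖ p` (`‖y‖²‖u‖² - ⟪y,u⟫² = ‖u‖² (‖y‖² - ⟪e,y⟫²)`), so
`b^200 * min (jw²) (jw/‖u‖) = min ((b^100 ‖u‖ p)²) (b^200 p)` and
`Wt b y u = 1/(1 + min(A, B)^3) ≤ 1/(1 + A^3) + 1/(1 + B^3) = 1/(1 + (b^100 ‖u‖ p)^6) + 1/(1 + (b^200 p)^3)`.
First term: `cyl_dec` with `q = 6`, `a = b^100 ‖u‖`, `ℓ = 2/b^96`: `≤ C (2/b^96)/(b^100 ‖u‖)^(d-1)`, times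
`b^96 ‖u‖`. Second term, `d = 3`: `cyl_dec` with `q = 3`, `a = b^200`: `≤ C (2/b^96)/b^400`;
`d = 4, 5`: `cyl_rad`, `≤ C (2/b^96)^(d-2)/b^400`, and `b^96 (1/b^96)^(d-2) = 1/b^(96(d-3))`.
`onSet (‖y‖ ≤ ℓ) f` is the indicator of `closedBall 0 ℓ` (`lintegral_indicator`).
-/

open MeasureTheory Set Filter Topology Metric
open scoped NNReal ENNReal RealInnerProductSpace

namespace NB5

open HDN

/-- bound for the integral of the exit weight over the position (`s = ‖u‖`) -/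
noncomputable def phiB (d : ℕ) (b s : ℝ) : ℝ :=
  s * (1 / (b ^ 100 * s) ^ (d - 1) + 1 / (b ^ (96 * (d - 3)) * b ^ 400))

variable {d : ℕ}

private theorem vphi_ind (ℓ : ℝ) (g : Sp d → ℝ) : ∫⁻ y : Sp d, onSet (‖y‖ ≤ ℓ) (g y) =
    ∫⁻ y in closedBall (0 : Sp d) ℓ, ENNReal.ofReal (g y) := by
  rw [← lintegral_indicator measurableSet_closedBall]
  refine lintegral_congr fun y => ?_
  by_cases h : ‖y‖ ≤ ℓ
  · rw [Set.indicator_of_mem (mem_closedBall_zero_iff.2 h)]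
    unfold onSet
    rw [if_pos h]
  · rw [Set.indicator_of_notMem (fun h' => h (mem_closedBall_zero_iff.1 h'))]
    unfold onSet
    rw [if_neg h]

private theorem vphi_perp {e : Sp d} (he : ‖e‖ = 1) (y : Sp d) :
    ‖perp e y‖ ^ 2 = ‖y‖ ^ 2 - ⟪e, y⟫ ^ 2 := by
  unfold perp
  rw [norm_sub_sq_real, inner_smul_right, norm_smul, he, mul_one, Real.norm_eq_abs, sq_abs,
    real_inner_comm e y]
  ring

private theorem vphi_jw {e : Sp d} (he : ‖e‖ = 1) (y : Sp d) {s : ℝ} (hs : 0 < s) :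
    jw y (s • e) = s * ‖perp e y‖ := by
  unfold jw
  rw [norm_smul, he, mul_one, Real.norm_eq_abs, sq_abs, inner_smul_right,
    show ‖y‖ ^ 2 * s ^ 2 - (s * ⟪y, e⟫) ^ 2 = (s * ‖perp e y‖) ^ 2 by
      rw [mul_pow, mul_pow, vphi_perp he, real_inner_comm e y]
      ring]
  exact Real.sqrt_sq (mul_nonneg hs.le (norm_nonneg _))

private theorem vphi_Wt {e : Sp d} (he : ‖e‖ = 1) (y : Sp d) {s b : ℝ} (hs : 0 < s)
    (hb : 1 ≤ b) : Wt b y (s • e) ≤ 1 / (1 + (b ^ 100 * s * ‖perp e y‖) ^ 6) +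
      1 / (1 + (b ^ 200 * ‖perp e y‖) ^ 3) := by
  have hb0 : 0 < b := by linarith
  have hp := norm_nonneg (perp e y)
  unfold Wt
  rw [vphi_jw he y hs, norm_smul, he, mul_one, Real.norm_eq_abs, abs_of_pos hs,
    mul_div_cancel_left₀ _ hs.ne']
  rcases min_choice ((s * ‖perp e y‖) ^ 2) ‖perp e y‖ with h | h
  · rw [h]
    have h1 : (b ^ 200 * (s * ‖perp e y‖) ^ 2) ^ 3 = (b ^ 100 * s * ‖perp e y‖) ^ 6 := by ring
    rw [h1]
    have h2 : 0 ≤ 1 / (1 + (b ^ 200 * ‖perp e y‖) ^ 3) := by positivity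
    linarith
  · rw [h]
    have h2 : 0 ≤ 1 / (1 + (b ^ 100 * s * ‖perp e y‖) ^ 6) := by positivity
    linarith

private theorem vphi_meas (e : Sp d) (a : ℝ) (q : ℕ) :
    Measurable fun y : Sp d => ENNReal.ofReal (1 / (1 + (a * ‖perp e y‖) ^ q)) := by
  have h1 : Measurable fun y : Sp d => ‖perp e y‖ := by
    unfold perp
    have h2 : Continuous fun y : Sp d => ‖y - ⟪e, y⟫ • e‖ := by fun_prop
    exact h2.measurable
  exact ENNReal.measurable_ofReal.comp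
    (measurable_const.div (measurable_const.add ((measurable_const.mul h1).pow_const q)))

private theorem vphi_nn {t : ℝ} (ht : 0 ≤ t) (q : ℕ) : 0 ≤ 1 / (1 + t ^ q) := by positivity

/-- second term, all dimensions -/
private theorem vphi_two (hd : 3 ≤ d) : ∃ C : ℝ, 0 < C ∧
    ∀ (e : Sp d) (a ℓ : ℝ), ‖e‖ = 1 → 0 < a → 0 ≤ ℓ →
    ∫⁻ y in closedBall (0 : Sp d) ℓ, ENNReal.ofReal (1 / (1 + (a * ‖perp e y‖) ^ 3)) ≤
      ENNReal.ofReal (C * ℓ ^ (d - 2) / a ^ 2) := by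
  rcases Nat.lt_or_ge 3 d with h | h
  · exact cyl_rad h
  · have h3 : d = 3 := le_antisymm h hd
    subst h3
    obtain ⟨C, hC, hC2⟩ := cyl_dec (d := 3) (by norm_num) 3 le_rfl
    refine ⟨C, hC, fun e a ℓ he ha hℓ => ?_⟩
    have h4 := hC2 e a ℓ he ha hℓ
    simpa using h4

theorem phi (hd : 3 ≤ d) (hd5 : d ≤ 5) : ∃ C : ℝ, 0 < C ∧ ∀ (b : ℝ) (u : Sp d), 1 ≤ b → u ≠ 0 →
    ∫⁻ y : Sp d, onSet (‖y‖ ≤ 2 / b ^ 96) (b ^ 96 * ‖u‖ * Wt b y u) ≤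
      ENNReal.ofReal (C * phiB d b ‖u‖) := by
  obtain ⟨C1, hC1, h1⟩ := cyl_dec (d := d) (by omega) 6 (by omega)
  obtain ⟨C2, hC2, h2⟩ := vphi_two hd
  refine ⟨2 * C1 + 2 ^ (d - 2) * C2, by positivity, fun b u hb hu => ?_⟩
  have hb0 : 0 < b := by linarith
  have hs : 0 < ‖u‖ := norm_pos_iff.mpr hu
  obtain ⟨s, hs', e, he, hue⟩ : ∃ s : ℝ, 0 < s ∧ ∃ e : Sp d, ‖e‖ = 1 ∧ u = s • e := by
    refine ⟨‖u‖, hs, ‖u‖⁻¹ • u, ?_, ?_⟩
    · rw [norm_smul, norm_inv, norm_norm, inv_mul_cancel₀ hs.ne']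
    · rw [smul_smul, mul_inv_cancel₀ hs.ne', one_smul]
  have hns : ‖u‖ = s := by
    rw [hue, norm_smul, he, mul_one, Real.norm_eq_abs, abs_of_pos hs']
  rw [hns, vphi_ind]
  have hK : 0 ≤ b ^ 96 * s := by positivity
  have hpt : ∀ y : Sp d, ENNReal.ofReal (b ^ 96 * s * Wt b y u) ≤
      ENNReal.ofReal (b ^ 96 * s) *
        (ENNReal.ofReal (1 / (1 + (b ^ 100 * s * ‖perp e y‖) ^ 6)) +
          ENNReal.ofReal (1 / (1 + (b ^ 200 * ‖perp e y‖) ^ 3))) := by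
    intro y
    have hp := norm_nonneg (perp e y)
    have n1 : 0 ≤ b ^ 100 * s * ‖perp e y‖ := mul_nonneg (mul_nonneg (pow_nonneg hb0.le _) hs'.le) hp
    have n2 : 0 ≤ b ^ 200 * ‖perp e y‖ := mul_nonneg (pow_nonneg hb0.le _) hp
    rw [← ENNReal.ofReal_add (vphi_nn n1 6) (vphi_nn n2 3), ← ENNReal.ofReal_mul hK, hue]
    exact ENNReal.ofReal_le_ofReal (mul_le_mul_of_nonneg_left (vphi_Wt he y hs' hb) hK)
  refine (lintegral_mono hpt).trans ?_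
  have hm : Measurable fun y : Sp d =>
      ENNReal.ofReal (1 / (1 + (b ^ 100 * s * ‖perp e y‖) ^ 6)) +
        ENNReal.ofReal (1 / (1 + (b ^ 200 * ‖perp e y‖) ^ 3)) :=
    (vphi_meas e _ 6).add (vphi_meas e _ 3)
  rw [lintegral_const_mul _ hm, lintegral_add_left (vphi_meas e _ 6)]
  have ha1 : 0 < b ^ 100 * s := by positivity
  have ha2 : 0 < b ^ 200 := by positivity
  have hℓ : 0 ≤ 2 / b ^ 96 := by positivity
  have i1 := h1 e (b ^ 100 * s) (2 / b ^ 96) he ha1 hℓ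
  have i2 := h2 e (b ^ 200) (2 / b ^ 96) he ha2 hℓ
  refine (mul_le_mul_right (add_le_add i1 i2) (ENNReal.ofReal (b ^ 96 * s))).trans ?_
  rw [← ENNReal.ofReal_add (by positivity) (by positivity), ← ENNReal.ofReal_mul hK]
  apply ENNReal.ofReal_le_ofReal
  have e1 : b ^ 96 * s * (C1 * (2 / b ^ 96) / (b ^ 100 * s) ^ (d - 1)) =
      2 * C1 * (s * (1 / (b ^ 100 * s) ^ (d - 1))) := by
    field_simp
  have e2 : b ^ 96 * s * (C2 * (2 / b ^ 96) ^ (d - 2) / (b ^ 200) ^ 2) =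
      2 ^ (d - 2) * C2 * (s * (1 / (b ^ (96 * (d - 3)) * b ^ 400))) := by
    have h5 : d - 2 = (d - 3) + 1 := by omega
    have h6 : (2 / b ^ 96) ^ (d - 2) = 2 ^ (d - 2) / (b ^ (96 * (d - 3)) * b ^ 96) := by
      rw [div_pow, h5, ← pow_mul, ← pow_add, Nat.mul_succ]
    rw [h6]
    field_simp
    try ring
  rw [mul_add, e1, e2]
  unfold phiB
  have q1 : 0 ≤ s * (1 / (b ^ 100 * s) ^ (d - 1)) := by positivity
  have q2 : 0 ≤ s * (1 / (b ^ (96 * (d - 3)) * b ^ 400)) := by positivity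
  rw [mul_add s]
  have q3 : 0 ≤ 2 * C1 * (s * (1 / (b ^ (96 * (d - 3)) * b ^ 400))) := by positivity
  have q4 : 0 ≤ 2 ^ (d - 2) * C2 * (s * (1 / (b ^ 100 * s) ^ (d - 1))) := by positivity
  nlinarith

end NB5
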