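import Pool.Agent.NB5.VEn
import Pool.Agent.NB5.VLnk

/-!
# NB5-VS1: facts on states with a hard pair

PLAN. Let `M = P.M`, `r = ‖q 0 - q 1‖ ≤ Cr/b^200`, `Cr = 4 M²`, `x_j = q j - cm m 0 1 q`;
`‖q 0 - cm‖, ‖q 1 - cm‖ ≤ r`. Choose `K` with `Cr/b^200 ≤ 1/(4 b^77)` for `b ≥ K`. `part3` with
`s = 1/(2 b^77)`.
(T) one class `{0, 1, j}`: all the other distances are `≥ s`, so `‖x_k‖ ≥ s - r ≥ 1/(4 b^77)` for `k ≠ j`,
and `‖x_j‖ ≥ Zp/b^200`, `Zp ≥ 1`: `UQ ≤ 2M² b^200 + C b^77`, `KQ = FQ + UQ ≤ C b^200` (`vel_KQ`).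
(P) classes `{0,1}, {j,k}, {i}`: if `‖q j - q k‖ > 1/b^77` then `UQ ≤ C b^77` and it is the first
alternative again. Otherwise let `K'` be the kinetic energy of `{0,1}, {j,k}, i` (`KQ_jk`), `U'` the
potential of the other pairs in `UQ`, `U' ≤ C b^77`: `FQ = K' + hp m j k x - U'`. `hard`:
`hp ≥ -3 FQ`, so `K' = FQ - hp + U' ≤ 4 FQ + U' ≤ C b^200`; `hp = FQ - K' + U' ≤ C b^200`, so
`‖v j - v k‖² ≤ C (b^200 + 1/‖q j - q k‖)`.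
Inner pair: `pot_expand`, `kin_KQ`: `(1/2)(m0 m1/(m0+m1)) ‖v 0 - v 1‖² = Ham - FQ + m0 m1/r +
∑_{j ≥ 2} (m0 mj/‖q0-qj‖ + m1 mj/‖q1-qj‖ - (m0+m1) mj/‖x_j‖) ≤ R + M²/r + 6 M² b^200 ≤ C/r`, because
`FQ ≥ 0`, `‖q0-qj‖, ‖q1-qj‖ ≥ ‖x_j‖ - r ≥ (Zp - Cr)/b^200 ≥ 1/b^200` and `1 ≤ b^200 ≤ Cr/r` (`r > 0` as
the state is free). `Kin` by `kin_KQ` (and `KQ_jk`), `√(a + c) ≤ √a + √c`.
`s1_factsX`: `‖x_2‖ ≤ 2/b^96 < 1/(2 b^77) - r`: `part3T` gives case (T) with `j = 2`.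
-/

open MeasureTheory Set Filter Topology Metric
open scoped NNReal ENNReal RealInnerProductSpace

namespace NB5

open HDN

variable {d : ℕ}

private theorem vs1_pos {m : Fin 5 → ℝ} {M : ℝ} (h : Mb M m) (i : Fin 5) : 0 < m i := by
  have h1 : 0 < M := lt_of_lt_of_le one_pos h.1
  exact lt_of_lt_of_le (by positivity) (h.2 i).1

private theorem vs1_cm0 {m : Fin 5 → ℝ} (hm : ∀ i, 0 < m i) (q : Cf 5 d) :
    ‖q 0 - cm m 0 1 q‖ ≤ ‖q 0 - q 1‖ := by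
  have h0 := hm 0
  have h1 := hm 1
  have hs : 0 < m 0 + m 1 := add_pos h0 h1
  have e : (m 0 + m 1) • (q 0 - cm m 0 1 q) = m 1 • (q 0 - q 1) := by
    unfold cm
    rw [smul_sub, smul_smul, mul_inv_cancel₀ hs.ne', one_smul, add_smul, smul_sub]
    abel
  have e2 : (m 0 + m 1) * ‖q 0 - cm m 0 1 q‖ = m 1 * ‖q 0 - q 1‖ := by
    have := congrArg norm e
    rwa [norm_smul, norm_smul, Real.norm_of_nonneg hs.le, Real.norm_of_nonneg h1.le] at this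
  have e3 : m 1 * ‖q 0 - q 1‖ ≤ (m 0 + m 1) * ‖q 0 - q 1‖ :=
    mul_le_mul_of_nonneg_right (by linarith) (norm_nonneg _)
  rw [← e2] at e3
  exact le_of_mul_le_mul_left e3 hs

private theorem vs1_cm1 {m : Fin 5 → ℝ} (hm : ∀ i, 0 < m i) (q : Cf 5 d) :
    ‖q 1 - cm m 0 1 q‖ ≤ ‖q 0 - q 1‖ := by
  have h0 := hm 0
  have h1 := hm 1
  have hs : 0 < m 0 + m 1 := add_pos h0 h1
  have e : (m 0 + m 1) • (q 1 - cm m 0 1 q) = m 0 • (q 1 - q 0) := by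
    unfold cm
    rw [smul_sub, smul_smul, mul_inv_cancel₀ hs.ne', one_smul, add_smul, smul_sub]
    abel
  have e2 : (m 0 + m 1) * ‖q 1 - cm m 0 1 q‖ = m 0 * ‖q 0 - q 1‖ := by
    have := congrArg norm e
    rwa [norm_smul, norm_smul, Real.norm_of_nonneg hs.le, Real.norm_of_nonneg h0.le,
      norm_sub_rev (q 1) (q 0)] at this
  have e3 : m 0 * ‖q 0 - q 1‖ ≤ (m 0 + m 1) * ‖q 0 - q 1‖ :=
    mul_le_mul_of_nonneg_right (by linarith) (norm_nonneg _)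
  rw [← e2] at e3
  exact le_of_mul_le_mul_left e3 hs

private theorem vs1_mm {m : Fin 5 → ℝ} {M : ℝ} (h : Mb M m) (i j : Fin 5) :
    m i * m j ≤ M ^ 2 := by
  have a1 := (h.2 i).2
  have a2 := (h.2 j).2
  have a4 := vs1_pos h j
  calc m i * m j ≤ M * M := mul_le_mul a1 a2 a4.le (by linarith [h.1])
    _ = M ^ 2 := by ring

private theorem vs1_mm2 {m : Fin 5 → ℝ} {M : ℝ} (h : Mb M m) (j : Fin 5) :
    (m 0 + m 1) * m j ≤ 2 * M ^ 2 := by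
  have a1 := vs1_mm h 0 j
  have a2 := vs1_mm h 1 j
  linarith

/-- `a / y ≤ A t` if `y ≥ 1 / t` -/
private theorem vs1_div {a A y t : ℝ} (hA : a ≤ A) (hA0 : 0 ≤ A) (ht : 0 < t) (hy : 1 / t ≤ y) :
    a / y ≤ A * t := by
  have h1 : a / y ≤ A / (1 / t) := div_le_div₀ hA0 hA (by positivity) hy
  rwa [div_div_eq_mul_div, div_one] at h1

private theorem vs1_mu {m : Fin 5 → ℝ} {M : ℝ} (h : Mb M m) (j k : Fin 5) :
    1 / (2 * M) ≤ m j * m k / (m j + m k) := by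
  have hM0 : 0 < M := lt_of_lt_of_le one_pos h.1
  have a2 := (h.2 j).1
  have a3 := (h.2 k).1
  have p2 := vs1_pos h j
  have p3 := vs1_pos h k
  rw [div_le_iff₀ hM0] at a2 a3
  rw [div_le_div_iff₀ (by positivity) (by positivity)]
  have e1 := mul_le_mul_of_nonneg_left a3 p2.le
  have e2 := mul_le_mul_of_nonneg_left a2 p3.le
  linarith

/-- from the kinetic energy of a pair to the relative velocity -/
private theorem vs1_vel {m : Fin 5 → ℝ} {M : ℝ} (h : Mb M m) (j k : Fin 5) (v : Sp d) {E : ℝ}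
    (hE : (1 / 2) * (m j * m k / (m j + m k)) * ‖v‖ ^ 2 ≤ E) : ‖v‖ ^ 2 ≤ 4 * M * E := by
  have hM0 : 0 < M := lt_of_lt_of_le one_pos h.1
  have h1 := vs1_mu h j k
  have h2 : (1 / 2) * (1 / (2 * M)) * ‖v‖ ^ 2 ≤ E := by
    refine le_trans ?_ hE
    exact mul_le_mul_of_nonneg_right (mul_le_mul_of_nonneg_left h1 (by norm_num)) (sq_nonneg _)
  have h3 := mul_le_mul_of_nonneg_left h2 (show (0 : ℝ) ≤ 4 * M by positivity)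
  have h4 : 4 * M * ((1 / 2) * (1 / (2 * M)) * ‖v‖ ^ 2) = ‖v‖ ^ 2 := by
    field_simp
    ring
  rwa [h4] at h3

private theorem vs1_sqrt_add {x y : ℝ} (hx : 0 ≤ x) (hy : 0 ≤ y) : √(x + y) ≤ √x + √y := by
  rw [Real.sqrt_le_iff]
  refine ⟨by positivity, ?_⟩
  have h1 := Real.sq_sqrt hx
  have h2 := Real.sq_sqrt hy
  have h3 : 0 ≤ √x * √y := by positivity
  nlinarith

private theorem vs1_le_sqrt {x y : ℝ} (h : x ^ 2 ≤ y) : x ≤ √y :=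
  (le_abs_self x).trans (Real.abs_le_sqrt h)

private theorem vs1_sqB {b : ℝ} (hb : 0 ≤ b) : √(b ^ 200) = b ^ 100 := by
  have e : (200 : ℕ) = 100 * 2 := by norm_num
  rw [e, pow_mul]
  exact Real.sqrt_sq (pow_nonneg hb 100)

/-- numbers -/
private theorem vs1_num {b M r : ℝ} (hM : 1 ≤ M) (hb : 16 * M ^ 2 + 9 ≤ b)
    (hr : r ≤ 4 * M ^ 2 / b ^ 200) : 1 ≤ b ∧ b ^ 77 ≤ b ^ 200 ∧ r ≤ 1 / (4 * b ^ 77) ∧
      2 / b ^ 96 < 1 / (4 * b ^ 77) := by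
  have hM2 : 1 ≤ M ^ 2 := one_le_pow₀ hM
  have h1 : 1 ≤ b := by linarith
  have h0 : 0 < b := by linarith
  refine ⟨h1, pow_le_pow_right₀ h1 (by norm_num), hr.trans ?_, ?_⟩
  · rw [div_le_div_iff₀ (by positivity) (by positivity)]
    have h2 : b ≤ b ^ 123 := le_self_pow₀ h1 (by norm_num)
    have h3 : b ^ 200 = b ^ 123 * b ^ 77 := by rw [← pow_add]
    rw [h3, one_mul]
    have h4 : 16 * M ^ 2 ≤ b ^ 123 := by linarith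
    have h5 := mul_le_mul_of_nonneg_right h4 (show 0 ≤ b ^ 77 by positivity)
    linarith
  · rw [div_lt_div_iff₀ (by positivity) (by positivity)]
    have h2 : b ≤ b ^ 19 := le_self_pow₀ h1 (by norm_num)
    have h3 : b ^ 96 = b ^ 19 * b ^ 77 := by rw [← pow_add]
    rw [h3, one_mul]
    have h4 : 8 < b ^ 19 := by linarith
    have h5 := mul_lt_mul_of_pos_right h4 (show 0 < b ^ 77 by positivity)
    linarith

/-- the potential in an arbitrary order -/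
private theorem vs1_UQ (m : Fin 5 → ℝ) (q : Cf 5 d) {i j k : Fin 5} (hi : 2 ≤ i) (hj : 2 ≤ j)
    (hk : 2 ≤ k) (hij : i ≠ j) (hik : i ≠ k) (hjk : j ≠ k) :
    UQ m q = (m 0 + m 1) * m i / ‖q i - cm m 0 1 q‖ + (m 0 + m 1) * m j / ‖q j - cm m 0 1 q‖ +
      (m 0 + m 1) * m k / ‖q k - cm m 0 1 q‖ + m i * m j / ‖q i - q j‖ +
      m i * m k / ‖q i - q k‖ + m j * m k / ‖q j - q k‖ := by
  have key : ∀ i : Fin 5, 2 ≤ i → i = 2 ∨ i = 3 ∨ i = 4 := by decide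
  have e1 := norm_sub_rev (q 3) (q 2)
  have e2 := norm_sub_rev (q 4) (q 2)
  have e3 := norm_sub_rev (q 4) (q 3)
  unfold UQ
  rcases key i hi with rfl | rfl | rfl <;> rcases key j hj with rfl | rfl | rfl <;>
    rcases key k hk with rfl | rfl | rfl <;>
    first
    | exact absurd rfl hij
    | exact absurd rfl hik
    | exact absurd rfl hjk
    | (simp only [e1, e2, e3]; try ring)

private theorem vs1_third : ∀ j : Fin 5, 2 ≤ j → ∃ i k : Fin 5, 2 ≤ i ∧ 2 ≤ k ∧ i ≠ j ∧ i ≠ k ∧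
    j ≠ k := by decide

/-- inner pair -/
private theorem vs1_inner {m : Fin 5 → ℝ} {M R B r : ℝ} (hm : Mb M m) {x : St d}
    (hr0 : 0 < r) (hrr : r = ‖x.1 0 - x.1 1‖) (hH : |Ham m x| ≤ R) (hF : 0 ≤ FQ m x)
    (hB : 1 ≤ B) (hBr : r ≤ 4 * M ^ 2 / B)
    (h0 : ∀ j : Fin 5, 2 ≤ j → 1 / B ≤ ‖x.1 0 - x.1 j‖)
    (h1 : ∀ j : Fin 5, 2 ≤ j → 1 / B ≤ ‖x.1 1 - x.1 j‖) :
    B ≤ 4 * M ^ 2 / r ∧ (1 / 2) * (m 0 * m 1 / (m 0 + m 1)) * ‖x.2 0 - x.2 1‖ ^ 2 ≤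
      (4 * M ^ 2 * R + M ^ 2 + 24 * M ^ 4) / r := by
  have hM := hm.1
  have hM0 : 0 < M := lt_of_lt_of_le one_pos hM
  have hB0 : 0 < B := lt_of_lt_of_le one_pos hB
  have hpos := fun i => vs1_pos hm i
  have hR0 : 0 ≤ R := (abs_nonneg _).trans hH
  have hBr' : B ≤ 4 * M ^ 2 / r := by
    rw [le_div_iff₀ hr0]
    rw [le_div_iff₀ hB0] at hBr
    linarith
  refine ⟨hBr', ?_⟩
  have e1 := kin_KQ hpos x.2
  have e2 : Ham m x = Kin m x.2 - Pot m x.1 := rfl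
  have e3 : FQ m x = KQ m x.2 - UQ m x.1 := rfl
  have hH' := (abs_le.1 hH).2
  have e4 := pot_expand m x.1
  have e5 : UQ m x.1 = (m 0 + m 1) * m 2 / ‖x.1 2 - cm m 0 1 x.1‖ +
    (m 0 + m 1) * m 3 / ‖x.1 3 - cm m 0 1 x.1‖ +
    (m 0 + m 1) * m 4 / ‖x.1 4 - cm m 0 1 x.1‖ + m 2 * m 3 / ‖x.1 2 - x.1 3‖ +
    m 2 * m 4 / ‖x.1 2 - x.1 4‖ + m 3 * m 4 / ‖x.1 3 - x.1 4‖ := rfl
  have p : ∀ j : Fin 5, 0 ≤ (m 0 + m 1) * m j / ‖x.1 j - cm m 0 1 x.1‖ := fun j =>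
    div_nonneg (mul_nonneg (add_pos (hpos 0) (hpos 1)).le (hpos j).le) (norm_nonneg _)
  have q0 : ∀ j : Fin 5, 2 ≤ j → m 0 * m j / ‖x.1 0 - x.1 j‖ ≤ M ^ 2 * B := fun j hj =>
    vs1_div (vs1_mm hm 0 j) (by positivity) hB0 (h0 j hj)
  have q1 : ∀ j : Fin 5, 2 ≤ j → m 1 * m j / ‖x.1 1 - x.1 j‖ ≤ M ^ 2 * B := fun j hj =>
    vs1_div (vs1_mm hm 1 j) (by positivity) hB0 (h1 j hj)
  have a1 := q0 2 (by decide)
  have a2 := q0 3 (by decide)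
  have a3 := q0 4 (by decide)
  have a4 := q1 2 (by decide)
  have a5 := q1 3 (by decide)
  have a6 := q1 4 (by decide)
  have b1 := p 2
  have b2 := p 3
  have b3 := p 4
  have c1 : m 0 * m 1 / ‖x.1 0 - x.1 1‖ ≤ M ^ 2 / r := by
    rw [← hrr]
    exact div_le_div_of_nonneg_right (vs1_mm hm 0 1) hr0.le
  have main : (1 / 2) * (m 0 * m 1 / (m 0 + m 1)) * ‖x.2 0 - x.2 1‖ ^ 2 ≤
      R + M ^ 2 / r + 6 * (M ^ 2 * B) := by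
    linarith
  have d1 : R ≤ R * (4 * M ^ 2 / r) := le_mul_of_one_le_right hR0 (hB.trans hBr')
  have d2 : M ^ 2 * B ≤ M ^ 2 * (4 * M ^ 2 / r) := mul_le_mul_of_nonneg_left hBr' (by positivity)
  refine main.trans ?_
  have d3 : (4 * M ^ 2 * R + M ^ 2 + 24 * M ^ 4) / r
      = R * (4 * M ^ 2 / r) + M ^ 2 / r + 6 * (M ^ 2 * (4 * M ^ 2 / r)) := by
    field_simp
    ring
  rw [d3]
  linarith

/-- first facts -/
private theorem vs1_ctx (P : Par) {m : Fin 5 → ℝ} {b : ℝ} {x : St d} (hm : Mb P.M m)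
    (hb : 16 * P.M ^ 2 + 9 ≤ b) (hI : x ∈ Inv m P.R) (hS : S1 P b m x) :
    0 < ‖x.1 0 - x.1 1‖ ∧ ‖x.1 0 - x.1 1‖ ≤ 1 / (4 * b ^ 77) ∧
    (∀ j : Fin 5, 2 ≤ j → 1 / b ^ 200 ≤ ‖x.1 j - cm m 0 1 x.1‖) ∧
    b ^ 200 ≤ 4 * P.M ^ 2 / ‖x.1 0 - x.1 1‖ ∧
    (1 / 2) * (m 0 * m 1 / (m 0 + m 1)) * ‖x.2 0 - x.2 1‖ ^ 2 ≤
      (4 * P.M ^ 2 * P.R + P.M ^ 2 + 24 * P.M ^ 4) / ‖x.1 0 - x.1 1‖ := by
  have hM := P.hM
  have hM0 : 0 < P.M := lt_of_lt_of_le one_pos hM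
  have hpos := fun i => vs1_pos hm i
  have hrle : ‖x.1 0 - x.1 1‖ ≤ 4 * P.M ^ 2 / b ^ 200 := hS.r_le
  obtain ⟨hb1, hbb, hr2, -⟩ := vs1_num hM hb hrle
  have hb0 : 0 < b := by linarith
  have hB1 : 1 ≤ b ^ 200 := one_le_pow₀ hb1
  have hB0 : 0 < b ^ 200 := by positivity
  have hr0 : 0 < ‖x.1 0 - x.1 1‖ := norm_pos_iff.2 (sub_ne_zero.2 (hI.1 0 1 (by decide)))
  have hM2 : 1 ≤ P.M ^ 2 := one_le_pow₀ hM
  have hZ : 4 * P.M ^ 2 + 1 ≤ P.Zp := by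
    have h6 : P.M ^ 2 ≤ P.M ^ 6 := pow_le_pow_right₀ hM (by norm_num)
    have := P.hZ
    linarith
  have hZ1 : 1 ≤ P.Zp := by linarith
  have hx : ∀ j : Fin 5, 2 ≤ j → 1 / b ^ 200 ≤ ‖x.1 j - cm m 0 1 x.1‖ := fun j hj =>
    (div_le_div_of_nonneg_right hZ1 hB0.le).trans (hS.x_ge j hj)
  have hsub : P.Zp / b ^ 200 - 4 * P.M ^ 2 / b ^ 200 ≥ 1 / b ^ 200 := by
    rw [← sub_div]
    exact div_le_div_of_nonneg_right (by linarith) hB0.le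
  have hc0 := vs1_cm0 hpos x.1
  have hc1 := vs1_cm1 hpos x.1
  have h0 : ∀ j : Fin 5, 2 ≤ j → 1 / b ^ 200 ≤ ‖x.1 0 - x.1 j‖ := by
    intro j hj
    have a1 := hS.x_ge j hj
    have a2 : ‖x.1 j - cm m 0 1 x.1‖ ≤ ‖x.1 0 - cm m 0 1 x.1‖ + ‖x.1 0 - x.1 j‖ := by
      calc ‖x.1 j - cm m 0 1 x.1‖ = ‖(x.1 0 - cm m 0 1 x.1) - (x.1 0 - x.1 j)‖ := by
            congr 1; abel
        _ ≤ _ := norm_sub_le _ _
    linarith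
  have h1 : ∀ j : Fin 5, 2 ≤ j → 1 / b ^ 200 ≤ ‖x.1 1 - x.1 j‖ := by
    intro j hj
    have a1 := hS.x_ge j hj
    have a2 : ‖x.1 j - cm m 0 1 x.1‖ ≤ ‖x.1 1 - cm m 0 1 x.1‖ + ‖x.1 1 - x.1 j‖ := by
      calc ‖x.1 j - cm m 0 1 x.1‖ = ‖(x.1 1 - cm m 0 1 x.1) - (x.1 1 - x.1 j)‖ := by
            congr 1; abel
        _ ≤ _ := norm_sub_le _ _
    linarith
  have hF : 0 ≤ FQ m x := le_trans (by positivity) hS.F_ge
  obtain ⟨k1, k2⟩ := vs1_inner hm hr0 rfl hI.2.1 hF hB1 hrle h0 h1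
  exact ⟨hr0, hr2, hx, k1, k2⟩

private theorem vs1_v01 (P : Par) {m : Fin 5 → ℝ} {x : St d} (hm : Mb P.M m)
    (hr0 : 0 < ‖x.1 0 - x.1 1‖) {D : ℝ}
    (h : (1 / 2) * (m 0 * m 1 / (m 0 + m 1)) * ‖x.2 0 - x.2 1‖ ^ 2 ≤ D / ‖x.1 0 - x.1 1‖) :
    ‖x.2 0 - x.2 1‖ ≤ √(4 * P.M * D) / √‖x.1 0 - x.1 1‖ := by
  have h1 := vs1_vel hm 0 1 (x.2 0 - x.2 1) h
  have h2 := vs1_le_sqrt h1
  have h3 : 4 * P.M * (D / ‖x.1 0 - x.1 1‖) = (4 * P.M * D) / ‖x.1 0 - x.1 1‖ := by ring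
  rw [h3, Real.sqrt_div' _ hr0.le] at h2
  exact h2

/-- small potential energy -/
private theorem vs1_first (P : Par) {m : Fin 5 → ℝ} {b : ℝ} {x : St d} (hm : Mb P.M m)
    (hb1 : 1 ≤ b) (hS : S1 P b m x) (hr0 : 0 < ‖x.1 0 - x.1 1‖) {D : ℝ}
    (hBr : b ^ 200 ≤ 4 * P.M ^ 2 / ‖x.1 0 - x.1 1‖)
    (h : (1 / 2) * (m 0 * m 1 / (m 0 + m 1)) * ‖x.2 0 - x.2 1‖ ^ 2 ≤ D / ‖x.1 0 - x.1 1‖)
    (hU : UQ m x.1 ≤ 30 * P.M ^ 2 * b ^ 200) :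
    ‖cm m 0 1 x.2‖ ≤ 2 * P.M * √(38 * P.M ^ 2) * b ^ 100 ∧
    (∀ j : Fin 5, 2 ≤ j → ‖x.2 j‖ ≤ 2 * P.M * √(38 * P.M ^ 2) * b ^ 100) ∧
    √(Kin m x.2) ≤ √(152 * P.M ^ 4 + D) / √‖x.1 0 - x.1 1‖ := by
  have hM := P.hM
  have hM0 : 0 < P.M := lt_of_lt_of_le one_pos hM
  have hb0 : 0 < b := by linarith
  have hM2 : 1 ≤ P.M ^ 2 := one_le_pow₀ hM
  have hpos := fun i => vs1_pos hm i
  have hK : KQ m x.2 = FQ m x + UQ m x.1 := by unfold FQ; ring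
  have hB0 : 0 < b ^ 200 := by positivity
  have hKQ : KQ m x.2 ≤ 38 * P.M ^ 2 * b ^ 200 := by
    have h1 := hS.F_le
    have h2 : b ^ 200 ≤ P.M ^ 2 * b ^ 200 := le_mul_of_one_le_left hB0.le hM2
    rw [hK]
    linarith
  have hs : √(KQ m x.2) ≤ √(38 * P.M ^ 2) * b ^ 100 := by
    refine (Real.sqrt_le_sqrt hKQ).trans ?_
    rw [Real.sqrt_mul (by positivity), vs1_sqB hb0.le]
  have hs2 : 2 * P.M * √(KQ m x.2) ≤ 2 * P.M * √(38 * P.M ^ 2) * b ^ 100 := by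
    have := mul_le_mul_of_nonneg_left hs (show 0 ≤ 2 * P.M by positivity)
    linarith
  obtain ⟨v1, v2⟩ := vel_KQ hm x.2
  refine ⟨v1.trans hs2, fun j hj => (v2 j hj).trans hs2, ?_⟩
  rw [← Real.sqrt_div' _ hr0.le]
  refine Real.sqrt_le_sqrt ?_
  rw [kin_KQ hpos x.2]
  have h3 : (152 * P.M ^ 4 + D) / ‖x.1 0 - x.1 1‖
      = 38 * P.M ^ 2 * (4 * P.M ^ 2 / ‖x.1 0 - x.1 1‖) + D / ‖x.1 0 - x.1 1‖ := by
    ring
  rw [h3]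
  have h4 := mul_le_mul_of_nonneg_left hBr (show 0 ≤ 38 * P.M ^ 2 by positivity)
  linarith

/-- distance to the centre of mass -/
private theorem vs1_far {m : Fin 5 → ℝ} (hpos : ∀ i, 0 < m i) {q : Cf 5 d} {w : ℝ} {i : Fin 5}
    (hr : ‖q 0 - q 1‖ ≤ 1 / (4 * w)) (h : 1 / (2 * w) ≤ ‖q 0 - q i‖) :
    1 / (4 * w) ≤ ‖q i - cm m 0 1 q‖ := by
  have h1 := vs1_cm0 hpos q
  have h2 : ‖q 0 - q i‖ ≤ ‖q 0 - cm m 0 1 q‖ + ‖q i - cm m 0 1 q‖ := by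
    calc ‖q 0 - q i‖ = ‖(q 0 - cm m 0 1 q) - (q i - cm m 0 1 q)‖ := by congr 1; abel
      _ ≤ _ := norm_sub_le _ _
  have h3 : 1 / (2 * w) = 1 / (4 * w) + 1 / (4 * w) := by
    rcases eq_or_ne w 0 with h | h
    · rw [h]
      norm_num
    · field_simp
      norm_num
  linarith

/-- case (T) -/
private theorem vs1_T {m : Fin 5 → ℝ} {M b : ℝ} {x : St d} (hm : Mb M m) (hb1 : 1 ≤ b)
    (hr : ‖x.1 0 - x.1 1‖ ≤ 1 / (4 * b ^ 77))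
    (hx : ∀ j : Fin 5, 2 ≤ j → 1 / b ^ 200 ≤ ‖x.1 j - cm m 0 1 x.1‖) {j : Fin 5} (hj : 2 ≤ j)
    (h : ∀ a c : Fin 5, a ≠ c → ¬ ((a ≤ 1 ∨ a = j) ∧ (c ≤ 1 ∨ c = j)) →
      1 / (2 * b ^ 77) ≤ ‖x.1 a - x.1 c‖) : UQ m x.1 ≤ 30 * M ^ 2 * b ^ 200 := by
  have hM := hm.1
  have hM0 : 0 < M := lt_of_lt_of_le one_pos hM
  have hb0 : 0 < b := by linarith
  have hpos := fun i => vs1_pos hm i
  obtain ⟨i, k, hi, hk, hij, hik, hjk⟩ := vs1_third j hj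
  have hn : ∀ i : Fin 5, 2 ≤ i → i ≠ j → ¬ (i ≤ 1 ∨ i = j) := by
    intro i hi hij hc
    rcases hc with hc | hc
    · exact absurd (hi.trans hc) (by decide)
    · exact hij hc
  have h0 : ∀ i : Fin 5, 2 ≤ i → i ≠ j → 1 / (2 * b ^ 77) ≤ ‖x.1 0 - x.1 i‖ := by
    intro i hi hij
    refine h 0 i ?_ fun hc => hn i hi hij hc.2
    rintro rfl
    exact absurd hi (by decide)
  rw [vs1_UQ m x.1 hi hj hk hij hik hjk]
  have t1 : (m 0 + m 1) * m i / ‖x.1 i - cm m 0 1 x.1‖ ≤ 2 * M ^ 2 * (4 * b ^ 77) :=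
    vs1_div (vs1_mm2 hm i) (by positivity) (by positivity) (vs1_far hpos hr (h0 i hi hij))
  have t2 : (m 0 + m 1) * m k / ‖x.1 k - cm m 0 1 x.1‖ ≤ 2 * M ^ 2 * (4 * b ^ 77) :=
    vs1_div (vs1_mm2 hm k) (by positivity) (by positivity)
      (vs1_far hpos hr (h0 k hk hjk.symm))
  have t3 : (m 0 + m 1) * m j / ‖x.1 j - cm m 0 1 x.1‖ ≤ 2 * M ^ 2 * b ^ 200 :=
    vs1_div (vs1_mm2 hm j) (by positivity) (by positivity) (hx j hj)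
  have t4 : m i * m j / ‖x.1 i - x.1 j‖ ≤ M ^ 2 * (2 * b ^ 77) :=
    vs1_div (vs1_mm hm i j) (by positivity) (by positivity)
      (h i j hij fun hc => hn i hi hij hc.1)
  have t5 : m i * m k / ‖x.1 i - x.1 k‖ ≤ M ^ 2 * (2 * b ^ 77) :=
    vs1_div (vs1_mm hm i k) (by positivity) (by positivity)
      (h i k hik fun hc => hn i hi hij hc.1)
  have t6 : m j * m k / ‖x.1 j - x.1 k‖ ≤ M ^ 2 * (2 * b ^ 77) :=
    vs1_div (vs1_mm hm j k) (by positivity) (by positivity)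
      (h j k hjk fun hc => hn k hk hjk.symm hc.2)
  have hbb : M ^ 2 * b ^ 77 ≤ M ^ 2 * b ^ 200 :=
    mul_le_mul_of_nonneg_left (pow_le_pow_right₀ hb1 (by norm_num)) (by positivity)
  have hMB : 0 ≤ M ^ 2 * b ^ 200 := by positivity
  linarith

theorem s1_facts (P : Par) : ∃ C K : ℝ, 1 ≤ C ∧ 1 ≤ K ∧
    ∀ {d : ℕ} (m : Fin 5 → ℝ) (b : ℝ) (x : St d), Mb P.M m → K ≤ b → x ∈ Inv m P.R →
    S1 P b m x →
    ‖x.2 0 - x.2 1‖ ≤ C / √‖x.1 0 - x.1 1‖ ∧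
    ((‖cm m 0 1 x.2‖ ≤ C * b ^ 100 ∧ (∀ j : Fin 5, 2 ≤ j → ‖x.2 j‖ ≤ C * b ^ 100) ∧
      √(Kin m x.2) ≤ C / √‖x.1 0 - x.1 1‖) ∨
    (∃ i j k : Fin 5, 2 ≤ i ∧ 2 ≤ j ∧ 2 ≤ k ∧ i ≠ j ∧ i ≠ k ∧ j ≠ k ∧
      ‖x.1 j - x.1 k‖ ≤ 1 / b ^ 77 ∧ ‖cm m 0 1 x.2‖ ≤ C * b ^ 100 ∧ ‖x.2 i‖ ≤ C * b ^ 100 ∧
      ‖cm m j k x.2‖ ≤ C * b ^ 100 ∧
      ‖x.2 j - x.2 k‖ ≤ C * (b ^ 100 + 1 / √‖x.1 j - x.1 k‖) ∧
      √(Kin m x.2) ≤ C * (1 / √‖x.1 0 - x.1 1‖ + 1 / √‖x.1 j - x.1 k‖))) := by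
  obtain ⟨D, hD⟩ : ∃ D, D = 4 * P.M ^ 2 * P.R + P.M ^ 2 + 24 * P.M ^ 4 := ⟨_, rfl⟩
  obtain ⟨c1, hc1⟩ : ∃ c, c = √(4 * P.M * D) := ⟨_, rfl⟩
  obtain ⟨c2, hc2⟩ : ∃ c, c = 2 * P.M * √(38 * P.M ^ 2) := ⟨_, rfl⟩
  obtain ⟨c3, hc3⟩ : ∃ c, c = √(152 * P.M ^ 4 + D) := ⟨_, rfl⟩
  obtain ⟨c4, hc4⟩ : ∃ c, c = √(120 * P.M ^ 3) := ⟨_, rfl⟩
  obtain ⟨c5, hc5⟩ : ∃ c, c = √(144 * P.M ^ 3) := ⟨_, rfl⟩
  obtain ⟨c6, hc6⟩ : ∃ c, c = √(384 * P.M ^ 4 + D) := ⟨_, rfl⟩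
  have hM := P.hM
  have hM0 : 0 < P.M := lt_of_lt_of_le one_pos hM
  have hR := P.hR
  have hM2 : 1 ≤ P.M ^ 2 := one_le_pow₀ hM
  have n1 : 0 ≤ c1 := by rw [hc1]; positivity
  have n2 : 0 ≤ c2 := by rw [hc2]; positivity
  have n3 : 0 ≤ c3 := by rw [hc3]; positivity
  have n4 : 0 ≤ c4 := by rw [hc4]; positivity
  have n5 : 0 ≤ c5 := by rw [hc5]; positivity
  have n6 : 0 ≤ c6 := by rw [hc6]; positivity
  have hD0 : 0 ≤ D := by rw [hD]; positivity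
  refine ⟨1 + c1 + c2 + c3 + c4 + c5 + c6 + P.M, 16 * P.M ^ 2 + 9, by linarith, by linarith, ?_⟩
  intro d m b x hm hb hI hS
  obtain ⟨hr0, hr2, hx, hBr, hin⟩ := vs1_ctx P hm hb hI hS
  rw [← hD] at hin
  have hpos := fun i => vs1_pos hm i
  obtain ⟨hb1, hbb, -, -⟩ := vs1_num hM hb hS.r_le
  have hb0 : 0 < b := by linarith
  have hsr : 0 ≤ √‖x.1 0 - x.1 1‖ := Real.sqrt_nonneg _
  have hb100 : 0 ≤ b ^ 100 := by positivity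
  refine ⟨(vs1_v01 P hm hr0 hin).trans ?_, ?_⟩
  · rw [← hc1]
    exact div_le_div_of_nonneg_right (by linarith) hsr
  have hfirst : UQ m x.1 ≤ 30 * P.M ^ 2 * b ^ 200 →
      (‖cm m 0 1 x.2‖ ≤ (1 + c1 + c2 + c3 + c4 + c5 + c6 + P.M) * b ^ 100 ∧
        (∀ j : Fin 5, 2 ≤ j → ‖x.2 j‖ ≤ (1 + c1 + c2 + c3 + c4 + c5 + c6 + P.M) * b ^ 100) ∧
      √(Kin m x.2) ≤ (1 + c1 + c2 + c3 + c4 + c5 + c6 + P.M) / √‖x.1 0 - x.1 1‖) := by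
    intro hU
    obtain ⟨k1, k2, k3⟩ := vs1_first P hm hb1 hS hr0 hBr hin hU
    rw [← hc2] at k1 k2
    rw [← hc3] at k3
    exact ⟨k1.trans (mul_le_mul_of_nonneg_right (by linarith) hb100),
      fun j hj => (k2 j hj).trans (mul_le_mul_of_nonneg_right (by linarith) hb100),
      k3.trans (div_le_div_of_nonneg_right (by linarith) hsr)⟩
  have h01 : ‖x.1 0 - x.1 1‖ < 1 / (2 * b ^ 77) := by
    refine lt_of_le_of_lt hr2 ?_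
    rw [div_lt_div_iff₀ (by positivity) (by positivity)]
    have : 0 < b ^ 77 := by positivity
    linarith
  rcases part3 hS.R3 h01 with ⟨j, hj, hT⟩ | ⟨i, j, k, hi, hj, hk, hij, hik, hjk, hP⟩
  · exact Or.inl (hfirst (vs1_T hm hb1 hr2 hx hj hT))
  -- case (P)
  have hle : ∀ i : Fin 5, 2 ≤ i → ¬ i ≤ 1 := fun i hi hc => absurd (hi.trans hc) (by decide)
  have hne0 : ∀ i : Fin 5, 2 ≤ i → (0 : Fin 5) ≠ i := by
    rintro i hi rfl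
    exact absurd hi (by decide)
  have h0 : ∀ a : Fin 5, 2 ≤ a → 1 / (2 * b ^ 77) ≤ ‖x.1 0 - x.1 a‖ := by
    intro a ha
    refine hP 0 a (hne0 a ha) (fun hc => hle a ha hc.2) fun hc => ?_
    rcases hc.1 with h | h
    · exact hne0 j hj h
    · exact hne0 k hk h
  have hxx : ∀ a : Fin 5, 2 ≤ a → (m 0 + m 1) * m a / ‖x.1 a - cm m 0 1 x.1‖ ≤
      2 * P.M ^ 2 * (4 * b ^ 77) := fun a ha =>
    vs1_div (vs1_mm2 hm a) (by positivity) (by positivity) (vs1_far hpos hr2 (h0 a ha))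
  have hii : ¬ (i = j ∨ i = k) := by
    rintro (h | h)
    · exact hij h
    · exact hik h
  have t4 : m i * m j / ‖x.1 i - x.1 j‖ ≤ P.M ^ 2 * (2 * b ^ 77) :=
    vs1_div (vs1_mm hm i j) (by positivity) (by positivity)
      (hP i j hij (fun hc => hle i hi hc.1) fun hc => hii hc.1)
  have t5 : m i * m k / ‖x.1 i - x.1 k‖ ≤ P.M ^ 2 * (2 * b ^ 77) :=
    vs1_div (vs1_mm hm i k) (by positivity) (by positivity)
      (hP i k hik (fun hc => hle i hi hc.1) fun hc => hii hc.1)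
  have s1 := hxx i hi
  have s2 := hxx j hj
  have s3 := hxx k hk
  have hUQ := vs1_UQ m x.1 hi hj hk hij hik hjk
  have hbbM : P.M ^ 2 * b ^ 77 ≤ P.M ^ 2 * b ^ 200 :=
    mul_le_mul_of_nonneg_left hbb (by positivity)
  have hMb77 : 0 ≤ P.M ^ 2 * b ^ 77 := by positivity
  have hMB : 0 ≤ P.M ^ 2 * b ^ 200 := by positivity
  by_cases hjk77 : ‖x.1 j - x.1 k‖ ≤ 1 / b ^ 77
  swap
  · push Not at hjk77
    refine Or.inl (hfirst ?_)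
    have t6 : m j * m k / ‖x.1 j - x.1 k‖ ≤ P.M ^ 2 * b ^ 77 :=
      vs1_div (vs1_mm hm j k) (by positivity) (by positivity) hjk77.le
    rw [hUQ]
    linarith
  right
  refine ⟨i, j, k, hi, hj, hk, hij, hik, hjk, hjk77, ?_⟩
  have hρ0 : 0 < ‖x.1 j - x.1 k‖ := norm_pos_iff.2 (sub_ne_zero.2 (hI.1 j k hjk))
  have hKjk := KQ_jk hpos x.2 hi hj hk hij hik hjk
  obtain ⟨K', hK'⟩ : ∃ K', K' = (1 / 2) * ((m 0 + m 1) * ‖cm m 0 1 x.2‖ ^ 2 +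
    (m j + m k) * ‖cm m j k x.2‖ ^ 2 + m i * ‖x.2 i‖ ^ 2) := ⟨_, rfl⟩
  rw [← hK'] at hKjk
  have hFQ : FQ m x = KQ m x.2 - UQ m x.1 := rfl
  have hhp : hp m j k x = (1 / 2) * (m j * m k / (m j + m k)) * ‖x.2 j - x.2 k‖ ^ 2 -
    m j * m k / ‖x.1 j - x.1 k‖ := rfl
  have hhard := hS.hard j k hj hk hjk
  have hFle := hS.F_le
  have hBM : b ^ 200 ≤ P.M ^ 2 * b ^ 200 := le_mul_of_one_le_left (by positivity) hM2
  have hK'le : K' ≤ 60 * (P.M ^ 2 * b ^ 200) := by linarith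
  have g0 : 0 ≤ (m 0 + m 1) * ‖cm m 0 1 x.2‖ ^ 2 :=
    mul_nonneg (add_pos (hpos 0) (hpos 1)).le (sq_nonneg _)
  have g1 : 0 ≤ (m j + m k) * ‖cm m j k x.2‖ ^ 2 :=
    mul_nonneg (add_pos (hpos j) (hpos k)).le (sq_nonneg _)
  have g2 : 0 ≤ m i * ‖x.2 i‖ ^ 2 := mul_nonneg (hpos i).le (sq_nonneg _)
  have hK'0 : 0 ≤ K' := by rw [hK']; linarith
  have hrel : (1 / 2) * (m j * m k / (m j + m k)) * ‖x.2 j - x.2 k‖ ^ 2 ≤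
      36 * (P.M ^ 2 * b ^ 200) + P.M ^ 2 / ‖x.1 j - x.1 k‖ := by
    have h5 : m j * m k / ‖x.1 j - x.1 k‖ ≤ P.M ^ 2 / ‖x.1 j - x.1 k‖ :=
      div_le_div_of_nonneg_right (vs1_mm hm j k) hρ0.le
    linarith
  -- velocities
  have vv : ∀ (a : ℝ) (v : Sp d), 1 / P.M ≤ a → a * ‖v‖ ^ 2 ≤ 2 * K' → ‖v‖ ≤ c4 * b ^ 100 := by
    intro a v ha hv
    have h1 : 1 / P.M * ‖v‖ ^ 2 ≤ 2 * K' :=
      (mul_le_mul_of_nonneg_right ha (sq_nonneg _)).trans hv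
    have h2 := mul_le_mul_of_nonneg_left h1 hM0.le
    have h3 : P.M * (1 / P.M * ‖v‖ ^ 2) = ‖v‖ ^ 2 := by field_simp
    rw [h3] at h2
    have h4 : P.M * (2 * K') ≤ P.M * (2 * (60 * (P.M ^ 2 * b ^ 200))) :=
      mul_le_mul_of_nonneg_left (by linarith) hM0.le
    have h5 : ‖v‖ ^ 2 ≤ 120 * P.M ^ 3 * b ^ 200 := by
      have : P.M * (2 * (60 * (P.M ^ 2 * b ^ 200))) = 120 * P.M ^ 3 * b ^ 200 := by ring
      linarith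
    refine (vs1_le_sqrt h5).trans ?_
    rw [Real.sqrt_mul (by positivity), vs1_sqB hb0.le, ← hc4]
  have hc4C : c4 * b ^ 100 ≤ (1 + c1 + c2 + c3 + c4 + c5 + c6 + P.M) * b ^ 100 :=
    mul_le_mul_of_nonneg_right (by linarith) hb100
  have hm1 := fun i => (hm.2 i).1
  have hsρ : 0 < √‖x.1 j - x.1 k‖ := Real.sqrt_pos.2 hρ0
  have hsr0 : 0 < √‖x.1 0 - x.1 1‖ := Real.sqrt_pos.2 hr0
  refine ⟨(vv (m 0 + m 1) _ (by linarith [hm1 0, hpos 1]) (by rw [hK']; linarith)).trans hc4C,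
    (vv (m i) _ (hm1 i) (by rw [hK']; linarith)).trans hc4C,
    (vv (m j + m k) _ (by linarith [hm1 j, hpos k]) (by rw [hK']; linarith)).trans hc4C, ?_, ?_⟩
  · have h1 := vs1_vel hm j k (x.2 j - x.2 k) hrel
    have h2 : 4 * P.M * (36 * (P.M ^ 2 * b ^ 200) + P.M ^ 2 / ‖x.1 j - x.1 k‖) ≤
        144 * P.M ^ 3 * (b ^ 200 + 1 / ‖x.1 j - x.1 k‖) := by
      have e1 : 144 * P.M ^ 3 * (b ^ 200 + 1 / ‖x.1 j - x.1 k‖) =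
        4 * P.M * (36 * (P.M ^ 2 * b ^ 200) + P.M ^ 2 / ‖x.1 j - x.1 k‖) +
          140 * P.M ^ 3 * (1 / ‖x.1 j - x.1 k‖) := by ring
      have e2 : 0 ≤ 140 * P.M ^ 3 * (1 / ‖x.1 j - x.1 k‖) := by positivity
      linarith
    refine (vs1_le_sqrt (h1.trans h2)).trans ?_
    rw [Real.sqrt_mul (by positivity), ← hc5]
    have h3 : √(b ^ 200 + 1 / ‖x.1 j - x.1 k‖) ≤ b ^ 100 + 1 / √‖x.1 j - x.1 k‖ := by
      refine (vs1_sqrt_add (by positivity) (by positivity)).trans ?_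
      rw [vs1_sqB hb0.le, Real.sqrt_div' _ hρ0.le, Real.sqrt_one]
    refine (mul_le_mul_of_nonneg_left h3 n5).trans
      (mul_le_mul_of_nonneg_right (by linarith) (by positivity))
  · have h1 : Kin m x.2 ≤ (384 * P.M ^ 4 + D) / ‖x.1 0 - x.1 1‖ + P.M ^ 2 / ‖x.1 j - x.1 k‖ := by
      rw [kin_KQ hpos x.2]
      have h3 : (384 * P.M ^ 4 + D) / ‖x.1 0 - x.1 1‖
          = 96 * P.M ^ 2 * (4 * P.M ^ 2 / ‖x.1 0 - x.1 1‖) + D / ‖x.1 0 - x.1 1‖ := by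
        ring
      rw [h3]
      have h4 := mul_le_mul_of_nonneg_left hBr (show 0 ≤ 96 * P.M ^ 2 by positivity)
      linarith
    refine (Real.sqrt_le_sqrt h1).trans ((vs1_sqrt_add (by positivity) (by positivity)).trans ?_)
    rw [Real.sqrt_div' _ hr0.le, Real.sqrt_div' _ hρ0.le, Real.sqrt_sq hM0.le, ← hc6]
    have h5 : c6 / √‖x.1 0 - x.1 1‖ ≤
        (1 + c1 + c2 + c3 + c4 + c5 + c6 + P.M) * (1 / √‖x.1 0 - x.1 1‖) := by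
      rw [mul_one_div]
      exact div_le_div_of_nonneg_right (by linarith) hsr
    have h6 : P.M / √‖x.1 j - x.1 k‖ ≤
        (1 + c1 + c2 + c3 + c4 + c5 + c6 + P.M) * (1 / √‖x.1 j - x.1 k‖) := by
      rw [mul_one_div]
      exact div_le_div_of_nonneg_right (by linarith) hsρ.le
    rw [mul_add]
    exact add_le_add h5 h6

theorem s1_factsX (P : Par) : ∃ C K : ℝ, 1 ≤ C ∧ 1 ≤ K ∧
    ∀ {d : ℕ} (m : Fin 5 → ℝ) (b : ℝ) (x : St d), Mb P.M m → K ≤ b → x ∈ Inv m P.R →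
    S1 P b m x → ‖x.1 2 - cm m 0 1 x.1‖ ≤ 2 / b ^ 96 →
    ‖x.2 0 - x.2 1‖ ≤ C / √‖x.1 0 - x.1 1‖ ∧ ‖cm m 0 1 x.2‖ ≤ C * b ^ 100 ∧
    (∀ j : Fin 5, 2 ≤ j → ‖x.2 j‖ ≤ C * b ^ 100) := by
  obtain ⟨D, hD⟩ : ∃ D, D = 4 * P.M ^ 2 * P.R + P.M ^ 2 + 24 * P.M ^ 4 := ⟨_, rfl⟩
  obtain ⟨c1, hc1⟩ : ∃ c, c = √(4 * P.M * D) := ⟨_, rfl⟩
  obtain ⟨c2, hc2⟩ : ∃ c, c = 2 * P.M * √(38 * P.M ^ 2) := ⟨_, rfl⟩
  have hM := P.hM
  have hM0 : 0 < P.M := lt_of_lt_of_le one_pos hM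
  have hM2 : 1 ≤ P.M ^ 2 := one_le_pow₀ hM
  have n1 : 0 ≤ c1 := by rw [hc1]; positivity
  have n2 : 0 ≤ c2 := by rw [hc2]; positivity
  refine ⟨1 + c1 + c2, 16 * P.M ^ 2 + 9, by linarith, by linarith, ?_⟩
  intro d m b x hm hb hI hS hx2
  obtain ⟨hr0, hr2, hx, hBr, hin⟩ := vs1_ctx P hm hb hI hS
  rw [← hD] at hin
  have hpos := fun i => vs1_pos hm i
  obtain ⟨hb1, hbb, -, hb96⟩ := vs1_num hM hb hS.r_le
  have hb0 : 0 < b := by linarith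
  have hb100 : 0 ≤ b ^ 100 := by positivity
  refine ⟨(vs1_v01 P hm hr0 hin).trans ?_, ?_⟩
  · rw [← hc1]
    exact div_le_div_of_nonneg_right (by linarith) (Real.sqrt_nonneg _)
  have h2 : 1 / (2 * b ^ 77) = 1 / (4 * b ^ 77) + 1 / (4 * b ^ 77) := by
    field_simp
    norm_num
  have h4 : 0 < 1 / (4 * b ^ 77) := by positivity
  have h01 : ‖x.1 0 - x.1 1‖ < 1 / (2 * b ^ 77) := by linarith
  have h02 : ‖x.1 0 - x.1 2‖ < 1 / (2 * b ^ 77) := by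
    have a1 := vs1_cm0 hpos x.1
    have a2 : ‖x.1 0 - x.1 2‖ ≤ ‖x.1 0 - cm m 0 1 x.1‖ + ‖x.1 2 - cm m 0 1 x.1‖ := by
      calc ‖x.1 0 - x.1 2‖ = ‖(x.1 0 - cm m 0 1 x.1) - (x.1 2 - cm m 0 1 x.1)‖ := by
            congr 1; abel
        _ ≤ _ := norm_sub_le _ _
    linarith
  have hdec : ∀ a c : Fin 5, ¬ ((a ≤ 1 ∨ a = 2) ∧ (c ≤ 1 ∨ c = 2)) → ¬ (a ≤ 2 ∧ c ≤ 2) := by
    decide
  have hU := vs1_T hm hb1 hr2 hx (j := 2) (by decide) fun a c hac hn =>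
    part3T hS.R3 h01 h02 a c hac (hdec a c hn)
  obtain ⟨k1, k2, -⟩ := vs1_first P hm hb1 hS hr0 hBr hin hU
  rw [← hc2] at k1 k2
  exact ⟨k1.trans (mul_le_mul_of_nonneg_right (by linarith) hb100),
    fun j hj => (k2 j hj).trans (mul_le_mul_of_nonneg_right (by linarith) hb100)⟩

end NB5
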