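import Pool.Agent.NB5.VEn
import Pool.Agent.NB5.VLnk

/-!
# NB5-VS3: facts on states with a compact triple

PLAN. `M = P.M`. Choose `K` with `K3/b^96 ≤ 1/(8 b^77)` for `b ≥ K` (`K3 = P.K3`). `part3T` with
`s = 1/(2 b^77)`: all distances between different ones of `{0,1,2}, 3, 4` are `≥ s`; the distances of `3, 4`
to `cm3 m 0 1 2 q` are `≥ 1/(4 b^77)` (`‖q i - cm3‖ ≤ K3/b^96`). So `UT ≤ C b^77` and
`KT = FT + UT ≤ 41 b^200` (large `b`) `≤ C b^200`: `vel_KT`. Let `EI = Kin m v - KT m v` be the inner kinetic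
energy of the triple and `UI = m0 m1/.. + m0 m2/.. + m1 m2/..`. `Ham = KT + EI - UI - UX`, `UX ≤ C b^77`
the potential of the other 7 pairs (`pot_expand`). So `EI - UI = Ham - FT - UT + UX ≤ R - b^200/2 + C b^77 < 0`
and `≤ -b^200/3` for `b ≥ K`: hence `UI ≥ b^200/3`, and if `(i, j)` is the closest pair of the triple, `r` its
distance, `UI ≤ 3 M²/r`: `r ≤ 9 M²/b^200`; `EI ≤ UI ≤ 3 M²/r`, `Kin = KT + EI ≤ C b^200 + 3M²/r ≤ C/r`.
`σ`: `1`, `swap 0 2` or `swap 1 2` (so that `σ 0, σ 1` is the closest pair).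
-/

open MeasureTheory Set Filter Topology Metric
open scoped NNReal ENNReal RealInnerProductSpace

namespace NB5

open HDN

private theorem VS3_cm {d : ℕ} {m : Fin 5 → ℝ} (hm : ∀ i, 0 < m i) (q : Cf 5 d) {δ : ℝ}
    (hδ : 0 ≤ δ) (h1 : ‖q 0 - q 1‖ ≤ δ) (h2 : ‖q 0 - q 2‖ ≤ δ) :
    ‖q 0 - cm3 m 0 1 2 q‖ ≤ δ := by
  have h0 := hm 0
  have h1' := hm 1
  have h2' := hm 2
  have hs : 0 < m 0 + m 1 + m 2 := by positivity
  have e : q 0 - cm3 m 0 1 2 q =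
      (m 0 + m 1 + m 2)⁻¹ • (m 1 • (q 0 - q 1) + m 2 • (q 0 - q 2)) := by
    have e1 : q 0 = (m 0 + m 1 + m 2)⁻¹ • ((m 0 + m 1 + m 2) • q 0) := by
      rw [smul_smul, inv_mul_cancel₀ hs.ne', one_smul]
    have e2 : q 0 - cm3 m 0 1 2 q = (m 0 + m 1 + m 2)⁻¹ • ((m 0 + m 1 + m 2) • q 0) -
        cm3 m 0 1 2 q := by rw [← e1]
    rw [e2]
    unfold cm3
    rw [← smul_sub]
    congr 1
    module
  rw [e, norm_smul, Real.norm_eq_abs, abs_of_pos (inv_pos.2 hs)]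
  have e3 : ‖m 1 • (q 0 - q 1) + m 2 • (q 0 - q 2)‖ ≤ (m 0 + m 1 + m 2) * δ := by
    refine (norm_add_le _ _).trans ?_
    rw [norm_smul, norm_smul, Real.norm_eq_abs, Real.norm_eq_abs, abs_of_pos h1', abs_of_pos h2']
    have a1 := mul_le_mul_of_nonneg_left h1 h1'.le
    have a2 := mul_le_mul_of_nonneg_left h2 h2'.le
    have a3 : 0 ≤ m 0 * δ := by positivity
    linarith
  have e4 := mul_le_mul_of_nonneg_left e3 (inv_pos.2 hs).le
  rwa [← mul_assoc, inv_mul_cancel₀ hs.ne', one_mul] at e4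

/-- a term of the potential -/
private theorem VS3_term {M a c r s : ℝ} (ha0 : 0 ≤ a) (hc0 : 0 ≤ c) (hac : a * c ≤ M)
    (hs : 0 < s) (hr : s ≤ r) : a * c / r ≤ M / s :=
  div_le_div₀ ((mul_nonneg ha0 hc0).trans hac) hac hs hr

private theorem VS3_perm {d : ℕ} (m : Fin 5 → ℝ) (q : Cf 5 d) (σ : Equiv.Perm (Fin 5))
    (hσ : σ = 1 ∨ σ = Equiv.swap 0 2 ∨ σ = Equiv.swap 1 2) :
    σ 3 = 3 ∧ σ 4 = 4 ∧ (∀ i : Fin 5, i ≤ 2 → σ i ≤ 2) ∧
      cm3 (m ∘ σ) 0 1 2 (q ∘ σ) = cm3 m 0 1 2 q := by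
  rcases hσ with h | h | h
  · subst h
    refine ⟨rfl, rfl, fun i hi => hi, rfl⟩
  · subst h
    refine ⟨by decide, by decide, by decide, ?_⟩
    have a0 : (Equiv.swap (0 : Fin 5) 2) 0 = 2 := by decide
    have a1 : (Equiv.swap (0 : Fin 5) 2) 1 = 1 := by decide
    have a2 : (Equiv.swap (0 : Fin 5) 2) 2 = 0 := by decide
    simp only [cm3, Function.comp, a0, a1, a2]
    congr 1
    · congr 1
      ring
    · abel
  · subst h
    refine ⟨by decide, by decide, by decide, ?_⟩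
    have a0 : (Equiv.swap (1 : Fin 5) 2) 0 = 0 := by decide
    have a1 : (Equiv.swap (1 : Fin 5) 2) 1 = 2 := by decide
    have a2 : (Equiv.swap (1 : Fin 5) 2) 2 = 1 := by decide
    simp only [cm3, Function.comp, a0, a1, a2]
    congr 1
    · congr 1
      ring
    · abel

private theorem VS3_pick (a c e : ℝ) : (a ≤ c ∧ a ≤ e) ∨ (c ≤ a ∧ c ≤ e) ∨ (e ≤ a ∧ e ≤ c) := by
  rcases le_total a c with h | h <;> rcases le_total c e with h' | h' <;>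
    rcases le_total a e with h'' | h'' <;> first
    | exact Or.inl ⟨by linarith, by linarith⟩
    | exact Or.inr (Or.inl ⟨by linarith, by linarith⟩)
    | exact Or.inr (Or.inr ⟨by linarith, by linarith⟩)

theorem s3_fct (P : Par) : ∃ C K : ℝ, 1 ≤ C ∧ 1 ≤ K ∧
    ∀ {d : ℕ} (m : Fin 5 → ℝ) (b : ℝ) (x : St d), Mb P.M m → K ≤ b → x ∈ Inv m P.R →
    S3 P b m x →
    ‖cm3 m 0 1 2 x.2‖ ≤ C * b ^ 100 ∧ ‖x.2 3‖ ≤ C * b ^ 100 ∧ ‖x.2 4‖ ≤ C * b ^ 100 ∧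
    ∃ σ : Equiv.Perm (Fin 5), σ 3 = 3 ∧ σ 4 = 4 ∧
      (∀ q : Cf 5 d, cm3 (m ∘ σ) 0 1 2 (q ∘ σ) = cm3 m 0 1 2 q) ∧
      (∀ i j : Fin 5, i ≤ 2 → j ≤ 2 → ‖(rel σ x).1 i - (rel σ x).1 j‖ ≤ C / b ^ 96) ∧
      ‖(rel σ x).1 0 - (rel σ x).1 1‖ ≤ C / b ^ 200 ∧
      √(Kin m x.2) ≤ C / √‖(rel σ x).1 0 - (rel σ x).1 1‖ := by
  obtain ⟨M, Zp, Kg, R, k0, hM, hZ, hK, hR⟩ := P
  simp only
  have hM2 : 1 ≤ M ^ 2 := one_le_pow₀ hM
  have hM4 : M ^ 2 ≤ M ^ 4 := pow_le_pow_right₀ hM (by norm_num)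
  have hM1 : M ≤ M ^ 4 := by
    calc M = M ^ 1 := (pow_one M).symm
      _ ≤ M ^ 4 := pow_le_pow_right₀ hM (by norm_num)
  refine ⟨200 * M ^ 4, 2000 * M ^ 4 + 12 * R, by linarith, by linarith, ?_⟩
  intro d m b x hmb hb hinv hS
  obtain ⟨hdT, hFge, hFle, hR3⟩ := hS
  have hK3 : (Par.K3 ⟨M, Zp, Kg, R, k0, hM, hZ, hK, hR⟩) = 128 * M ^ 4 := by
    simp only [Par.K3, Par.K2]
    ring
  rw [hK3] at hdT
  obtain ⟨hfree, hham, -, -, -, -⟩ := hinv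
  have hm0 : ∀ i, 0 < m i := fun i => by
    have h1 := (hmb.2 i).1
    have h2 : (0 : ℝ) < 1 / M := by positivity
    exact h2.trans_le h1
  have hmM : ∀ i, m i ≤ M := fun i => (hmb.2 i).2
  have hmm : ∀ i j, m i * m j ≤ M ^ 2 := fun i j => by
    rw [sq]
    exact mul_le_mul (hmM i) (hmM j) (hm0 j).le (by linarith)
  have hb1 : 1 ≤ b := by linarith
  have hb0 : 0 < b := by linarith
  have hp77 : 0 < b ^ 77 := by positivity
  have hp96 : 0 < b ^ 96 := by positivity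
  have hp200 : 0 < b ^ 200 := by positivity
  have hbpow : ∀ n : ℕ, 1 ≤ n → b ≤ b ^ n := fun n hn => by
    calc b = b ^ 1 := (pow_one b).symm
      _ ≤ b ^ n := pow_le_pow_right₀ hb1 hn
  -- the compact triple is small
  have hδ : 128 * M ^ 4 / b ^ 96 ≤ 1 / (8 * b ^ 77) := by
    rw [div_le_div_iff₀ hp96 (by positivity)]
    have e1 : b ^ 96 = b ^ 19 * b ^ 77 := by ring
    rw [e1]
    have e2 : 1024 * M ^ 4 ≤ b ^ 19 := by
      have := hbpow 19 (by norm_num)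
      linarith
    have e3 := mul_le_mul_of_nonneg_right e2 hp77.le
    linarith
  set s : ℝ := 1 / (2 * b ^ 77) with hs_def
  have hs0 : 0 < s := by positivity
  have hs4 : 1 / (8 * b ^ 77) = s / 4 := by
    rw [hs_def]
    field_simp
    norm_num
  rw [hs4] at hδ
  have h01 : ‖x.1 0 - x.1 1‖ ≤ s / 4 := (hdT 0 1 (by decide) (by decide)).trans hδ
  have h02 : ‖x.1 0 - x.1 2‖ ≤ s / 4 := (hdT 0 2 (by decide) (by decide)).trans hδ
  have hsep := part3T hR3 (by linarith) (by linarith)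
  have hcm : ‖x.1 0 - cm3 m 0 1 2 x.1‖ ≤ s / 4 := VS3_cm hm0 x.1 (by positivity) h01 h02
  have hc3 : s / 2 ≤ ‖x.1 3 - cm3 m 0 1 2 x.1‖ := by
    have h1 := hsep 3 0 (by decide) (by decide)
    have h2 : ‖x.1 3 - x.1 0‖ ≤ ‖x.1 3 - cm3 m 0 1 2 x.1‖ + ‖x.1 0 - cm3 m 0 1 2 x.1‖ := by
      have := norm_sub_le (x.1 3 - cm3 m 0 1 2 x.1) (x.1 0 - cm3 m 0 1 2 x.1)
      rwa [sub_sub_sub_cancel_right] at this
    linarith
  have hc4 : s / 2 ≤ ‖x.1 4 - cm3 m 0 1 2 x.1‖ := by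
    have h1 := hsep 4 0 (by decide) (by decide)
    have h2 : ‖x.1 4 - x.1 0‖ ≤ ‖x.1 4 - cm3 m 0 1 2 x.1‖ + ‖x.1 0 - cm3 m 0 1 2 x.1‖ := by
      have := norm_sub_le (x.1 4 - cm3 m 0 1 2 x.1) (x.1 0 - cm3 m 0 1 2 x.1)
      rwa [sub_sub_sub_cancel_right] at this
    linarith
  have h34 : s ≤ ‖x.1 3 - x.1 4‖ := hsep 3 4 (by decide) (by decide)
  have hUT0 : 0 ≤ UT m x.1 := by
    have h0 := hm0 0
    have h1 := hm0 1
    have h2 := hm0 2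
    have h3 := hm0 3
    have h4 := hm0 4
    unfold UT
    positivity
  have hsum : m 0 + m 1 + m 2 ≤ 3 * M := by linarith [hmM 0, hmM 1, hmM 2]
  have hsum0 : 0 ≤ m 0 + m 1 + m 2 := by linarith [hm0 0, hm0 1, hm0 2]
  have hUT : UT m x.1 ≤ 26 * M ^ 2 * b ^ 77 := by
    unfold UT
    have t1 : (m 0 + m 1 + m 2) * m 3 / ‖x.1 3 - cm3 m 0 1 2 x.1‖ ≤ 3 * M ^ 2 / (s / 2) := by
      refine VS3_term hsum0 (hm0 3).le ?_ (by positivity) hc3
      calc (m 0 + m 1 + m 2) * m 3 ≤ (3 * M) * M :=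
            mul_le_mul hsum (hmM 3) (hm0 3).le (by linarith)
        _ = 3 * M ^ 2 := by ring
    have t2 : (m 0 + m 1 + m 2) * m 4 / ‖x.1 4 - cm3 m 0 1 2 x.1‖ ≤ 3 * M ^ 2 / (s / 2) := by
      refine VS3_term hsum0 (hm0 4).le ?_ (by positivity) hc4
      calc (m 0 + m 1 + m 2) * m 4 ≤ (3 * M) * M :=
            mul_le_mul hsum (hmM 4) (hm0 4).le (by linarith)
        _ = 3 * M ^ 2 := by ring
    have t3 : m 3 * m 4 / ‖x.1 3 - x.1 4‖ ≤ M ^ 2 / s :=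
      VS3_term (hm0 3).le (hm0 4).le (hmm 3 4) hs0 h34
    have e1 : 3 * M ^ 2 / (s / 2) = 12 * M ^ 2 * b ^ 77 := by
      rw [hs_def]
      field_simp
      norm_num
    have e2 : M ^ 2 / s = 2 * M ^ 2 * b ^ 77 := by
      rw [hs_def]
      field_simp
    rw [e1] at t1 t2
    rw [e2] at t3
    linarith
  have hb123 : b ^ 77 * b ≤ b ^ 200 := by
    have e1 : b ^ 200 = b ^ 77 * b ^ 123 := by ring
    rw [e1]
    exact mul_le_mul_of_nonneg_left (hbpow 123 (by norm_num)) hp77.le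
  have hmb77 : 2000 * M ^ 2 * b ^ 77 ≤ b ^ 200 := by
    refine le_trans ?_ hb123
    have e1 : 2000 * M ^ 2 ≤ b := by linarith
    have := mul_le_mul_of_nonneg_left e1 hp77.le
    linarith
  have hKTe : KT m x.2 = FT m x + UT m x.1 := by
    unfold FT
    ring
  have hKT : KT m x.2 ≤ 41 * b ^ 200 := by
    rw [hKTe]
    have h1 : 0 ≤ M ^ 2 * b ^ 77 := by positivity
    linarith
  have hsq : 2 * M * √(KT m x.2) ≤ 200 * M ^ 4 * b ^ 100 := by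
    have h1 : √(KT m x.2) ≤ 7 * b ^ 100 := by
      rw [Real.sqrt_le_left (by positivity)]
      have : (7 * b ^ 100) ^ 2 = 49 * b ^ 200 := by ring
      rw [this]
      linarith
    have h2 : 2 * M * √(KT m x.2) ≤ 2 * M * (7 * b ^ 100) :=
      mul_le_mul_of_nonneg_left h1 (by linarith)
    have h3 : M * b ^ 100 ≤ M ^ 4 * b ^ 100 := mul_le_mul_of_nonneg_right hM1 (by positivity)
    have h4 : 0 ≤ M ^ 4 * b ^ 100 := by positivity
    have h5 : 2 * M * (7 * b ^ 100) = 14 * (M * b ^ 100) := by ring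
    rw [h5] at h2
    linarith
  have hvel := vel_KT hmb x.2
  refine ⟨hvel.1.trans hsq, hvel.2.1.trans hsq, hvel.2.2.trans hsq, ?_⟩
  -- the energies
  have hne : ∀ i j : Fin 5, i ≠ j → 0 < ‖x.1 i - x.1 j‖ := fun i j hij => by
    rw [norm_pos_iff, sub_ne_zero]
    exact hfree i j hij
  set a := ‖x.1 0 - x.1 1‖ with ha
  set c := ‖x.1 0 - x.1 2‖ with hc
  set e := ‖x.1 1 - x.1 2‖ with he
  have ha0 : 0 < a := hne 0 1 (by decide)
  have hc0 : 0 < c := hne 0 2 (by decide)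
  have he0 : 0 < e := hne 1 2 (by decide)
  have hpot := pot_expand m x.1
  have hUX : Pot m x.1 ≤ m 0 * m 1 / a + m 0 * m 2 / c + m 1 * m 2 / e + 14 * M ^ 2 * b ^ 77 := by
    rw [hpot]
    have e2 : M ^ 2 / s = 2 * M ^ 2 * b ^ 77 := by
      rw [hs_def]
      field_simp
    have t : ∀ i j : Fin 5, i ≠ j → ¬ (i ≤ 2 ∧ j ≤ 2) →
        m i * m j / ‖x.1 i - x.1 j‖ ≤ 2 * M ^ 2 * b ^ 77 := fun i j hij h2 => by
      rw [← e2]
      exact VS3_term (hm0 i).le (hm0 j).le (hmm i j) hs0 (hsep i j hij h2)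
    have t1 := t 0 3 (by decide) (by decide)
    have t2 := t 0 4 (by decide) (by decide)
    have t3 := t 1 3 (by decide) (by decide)
    have t4 := t 1 4 (by decide) (by decide)
    have t5 := t 2 3 (by decide) (by decide)
    have t6 := t 2 4 (by decide) (by decide)
    have t7 := t 3 4 (by decide) (by decide)
    linarith
  have hEI : KT m x.2 ≤ Kin m x.2 := by
    have h1 := kin_KQ hm0 x.2
    have h2 := KQ_KT hm0 x.2
    have p0 := hm0 0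
    have p1 := hm0 1
    have p2 := hm0 2
    have h3 : 0 ≤ (1 / 2) * (m 0 * m 1 / (m 0 + m 1)) * ‖x.2 0 - x.2 1‖ ^ 2 := by positivity
    have h4 : 0 ≤ (1 / 2) * ((m 0 + m 1) * m 2 / (m 0 + m 1 + m 2)) *
      ‖x.2 2 - cm m 0 1 x.2‖ ^ 2 := by positivity
    linarith
  have hHam : Kin m x.2 - Pot m x.1 ≤ R := (abs_le.1 hham).2
  have hRb : 12 * R ≤ b ^ 200 := by
    have := hbpow 200 (by norm_num)
    have h4 : 0 ≤ M ^ 4 := by positivity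
    linarith
  have hUI : Kin m x.2 - KT m x.2 + b ^ 200 / 3 ≤ m 0 * m 1 / a + m 0 * m 2 / c + m 1 * m 2 / e := by
    have h1 : b ^ 200 / 2 ≤ KT m x.2 := by
      rw [hKTe]
      linarith
    linarith
  -- the closest pair
  have key : ∀ r : ℝ, 0 < r → r ≤ a → r ≤ c → r ≤ e →
      r ≤ 200 * M ^ 4 / b ^ 200 ∧ √(Kin m x.2) ≤ 200 * M ^ 4 / √r := by
    intro r hr hra hrc hre
    have u1 : m 0 * m 1 / a ≤ M ^ 2 / r := VS3_term (hm0 0).le (hm0 1).le (hmm 0 1) hr hra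
    have u2 : m 0 * m 2 / c ≤ M ^ 2 / r := VS3_term (hm0 0).le (hm0 2).le (hmm 0 2) hr hrc
    have u3 : m 1 * m 2 / e ≤ M ^ 2 / r := VS3_term (hm0 1).le (hm0 2).le (hmm 1 2) hr hre
    have h1 : b ^ 200 ≤ 9 * (M ^ 2 / r) := by linarith
    have h2 : b ^ 200 * r ≤ 9 * M ^ 2 := by
      have := mul_le_mul_of_nonneg_right h1 hr.le
      have h3 : 9 * (M ^ 2 / r) * r = 9 * M ^ 2 := by
        field_simp
      linarith
    constructor
    · rw [le_div_iff₀ hp200, mul_comm]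
      linarith
    · have h3 : Kin m x.2 ≤ 372 * (M ^ 2 / r) := by
        have : Kin m x.2 ≤ KT m x.2 + 3 * (M ^ 2 / r) := by linarith
        linarith
      have h4 : 372 * (M ^ 2 / r) ≤ (200 * M ^ 4 / √r) ^ 2 := by
        rw [div_pow, Real.sq_sqrt hr.le, mul_pow]
        have h5 : 372 * (M ^ 2 / r) = (372 * M ^ 2) / r := by ring
        rw [h5]
        refine div_le_div_of_nonneg_right ?_ hr.le
        have h6 : M ^ 2 * 1 ≤ M ^ 4 * M ^ 4 :=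
          mul_le_mul hM4 (one_le_pow₀ hM) zero_le_one (by positivity)
        have h7 : 200 ^ 2 * (M ^ 4) ^ 2 = 40000 * (M ^ 4 * M ^ 4) := by ring
        have h8 : 0 ≤ M ^ 4 * M ^ 4 := by positivity
        rw [h7]
        linarith
      calc √(Kin m x.2) ≤ √((200 * M ^ 4 / √r) ^ 2) := Real.sqrt_le_sqrt (h3.trans h4)
        _ = 200 * M ^ 4 / √r := Real.sqrt_sq (by positivity)
  have hfin : ∀ σ : Equiv.Perm (Fin 5), (σ = 1 ∨ σ = Equiv.swap 0 2 ∨ σ = Equiv.swap 1 2) →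
      (0 < ‖x.1 (σ 0) - x.1 (σ 1)‖ ∧ ‖x.1 (σ 0) - x.1 (σ 1)‖ ≤ a ∧
        ‖x.1 (σ 0) - x.1 (σ 1)‖ ≤ c ∧ ‖x.1 (σ 0) - x.1 (σ 1)‖ ≤ e) →
      ∃ σ : Equiv.Perm (Fin 5), σ 3 = 3 ∧ σ 4 = 4 ∧
      (∀ q : Cf 5 d, cm3 (m ∘ σ) 0 1 2 (q ∘ σ) = cm3 m 0 1 2 q) ∧
      (∀ i j : Fin 5, i ≤ 2 → j ≤ 2 →
        ‖(rel σ x).1 i - (rel σ x).1 j‖ ≤ 200 * M ^ 4 / b ^ 96) ∧
      ‖(rel σ x).1 0 - (rel σ x).1 1‖ ≤ 200 * M ^ 4 / b ^ 200 ∧
      √(Kin m x.2) ≤ 200 * M ^ 4 / √‖(rel σ x).1 0 - (rel σ x).1 1‖ := by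
    intro σ hσ hd
    have h1 := VS3_perm m x.1 σ hσ
    have h2 := key _ hd.1 hd.2.1 hd.2.2.1 hd.2.2.2
    refine ⟨σ, h1.1, h1.2.1, fun q => (VS3_perm m q σ hσ).2.2.2, ?_, h2.1, h2.2⟩
    intro i j hi hj
    have h3 := hdT (σ i) (σ j) (h1.2.2.1 i hi) (h1.2.2.1 j hj)
    refine h3.trans ?_
    refine div_le_div_of_nonneg_right ?_ hp96.le
    linarith
  have b0 : (Equiv.swap (0 : Fin 5) 2) 0 = 2 := by decide
  have b1 : (Equiv.swap (0 : Fin 5) 2) 1 = 1 := by decide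
  have c0 : (Equiv.swap (1 : Fin 5) 2) 0 = 0 := by decide
  have c1 : (Equiv.swap (1 : Fin 5) 2) 1 = 2 := by decide
  rcases VS3_pick a c e with h | h | h
  · exact hfin 1 (Or.inl rfl) ⟨ha0, le_rfl, h.1, h.2⟩
  · refine hfin (Equiv.swap 1 2) (Or.inr (Or.inr rfl)) ?_
    rw [c0, c1]
    exact ⟨hc0, h.1, le_rfl, h.2⟩
  · refine hfin (Equiv.swap 0 2) (Or.inr (Or.inl rfl)) ?_
    rw [b0, b1, norm_sub_rev]
    exact ⟨he0, h.1, h.2, le_rfl⟩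

end NB5
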