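import Pool.Agent.NB5.VFub
import Pool.Agent.NB5.VMast
import Pool.Agent.NB5.MMeas

/-!
# NB5-VSt: the master inequality for functions of the state

PLAN. Let `x ∈ Inv m R`, `y j = Yc A j x.1`, `u j = Yc A j x.2`. `jac_kin`, `jac_pot`,
`‖cmv m x.2‖ ≤ R`, `|Ham m x| ≤ R`: `|μ 0/2 ‖u 0‖² - κ| ≤ R' := R + (∑ m)/2 R²` with
`κ = Pot m (recf m A μ 0 y) - ∑_{j ≥ 1} μ j/2 ‖u j‖²` (a function of `y 0, (y j, u j)_{j ≥ 1}`).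
`jac_lop`, `‖Lop m x‖ ≤ R`, `‖wedge a c‖ ≤ 2 ‖a‖ ‖c‖`: if `a (y 0) ≠ 0` and `‖u 0‖ ≤ S (y 0)` then
`‖(μ1 • wedge y1 u1 + μ2 • wedge y2 u2) + μ3 • wedge y3 u3‖ ≤ R + 2 μ0 ‖y0‖ ‖u0‖ ≤ L := R + 2 μ0 B`.
So `g x ≤ F (...)` on `Inv m R` for the integrand `F` of `cmaster` (with `R', L`); if `a (y 0) = 0` then
`g x = 0`. `setLIntegral_mono'` (`measurableSet_inv`), `lintegral_mono_set`
(`Inv m R ⊆ {‖cmv m x.1‖ ≤ R ∧ ‖cmv m x.2‖ ≤ R}`), `jac_fub`, `cmaster`;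
`C = (c.toReal + 1) * C_master`.
-/

open MeasureTheory Set Filter Topology Metric
open scoped NNReal ENNReal RealInnerProductSpace

namespace NB5

open HDN

variable {d : ℕ} {m : Fin 5 → ℝ} {A : Fin 4 → Fin 5 → ℝ} {μ : Fin 4 → ℝ}

private theorem vst_wedge (x w : Sp d) : ‖wedge x w‖ ≤ 2 * (‖x‖ * ‖w‖) := by
  unfold wedge
  refine (norm_sub_le _ _).trans ?_
  rw [ContinuousLinearMap.norm_smulRight_apply, ContinuousLinearMap.norm_smulRight_apply,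
    innerSL_apply_norm, innerSL_apply_norm]
  apply le_of_eq
  ring

private theorem vst_onSet_pos {p : Prop} (hp : p) (f : ℝ) : onSet p f = ENNReal.ofReal f := by
  unfold onSet
  rw [if_pos hp]

private theorem vst_onSet_neg {p : Prop} (hp : ¬ p) (f : ℝ) : onSet p f = 0 := by
  unfold onSet
  rw [if_neg hp]

/-- the function `κ` -/
private noncomputable def vstK (m : Fin 5 → ℝ) (A : Fin 4 → Fin 5 → ℝ) (μ : Fin 4 → ℝ)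
    (y : Sp d) (p z z' : Sp d × Sp d) : ℝ :=
  Pot m (recf m A μ 0 ![y, p.1, z.1, z'.1]) -
    (μ 1 / 2 * ‖p.2‖ ^ 2 + μ 2 / 2 * ‖z.2‖ ^ 2 + μ 3 / 2 * ‖z'.2‖ ^ 2)

private theorem vst_energy (hj : Jac m A μ) (x : St d) :
    μ 0 / 2 * ‖Yc A 0 x.2‖ ^ 2 - vstK m A μ (Yc A 0 x.1) (Yc A 1 x.1, Yc A 1 x.2)
      (Yc A 2 x.1, Yc A 2 x.2) (Yc A 3 x.1, Yc A 3 x.2) =
      Ham m x - (∑ a, m a) / 2 * ‖cmv m x.2‖ ^ 2 := by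
  have h1 := jac_kin hj x.2
  have h2 := jac_pot hj x.1
  have h3 : (fun j => Yc A j x.1) = ![Yc A 0 x.1, Yc A 1 x.1, Yc A 2 x.1, Yc A 3 x.1] := by
    funext j
    fin_cases j <;> rfl
  rw [h3] at h2
  rw [Fin.sum_univ_four] at h1
  unfold vstK Ham
  rw [h1, h2]
  ring

private theorem vst_lop (hj : Jac m A μ) (x : St d) :
    (μ 1 • wedge (Yc A 1 x.1) (Yc A 1 x.2) + μ 2 • wedge (Yc A 2 x.1) (Yc A 2 x.2)) +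
      μ 3 • wedge (Yc A 3 x.1) (Yc A 3 x.2) =
      Lop m x - μ 0 • wedge (Yc A 0 x.1) (Yc A 0 x.2) := by
  have h1 := jac_lop hj x
  rw [Fin.sum_univ_four] at h1
  rw [h1]
  abel

theorem smaster (hd : 3 ≤ d) (hj : Jac m A μ) {R B : ℝ} (hR : 0 ≤ R) (hB : 0 ≤ B) :
    ∃ C : ℝ, 0 < C ∧
    ∀ (g : St d → ℝ≥0∞) (a : Sp d → ℝ≥0∞) (S D W : Sp d → ℝ) (β : Sp d → Sp d × Sp d → ℝ≥0∞)
      (c : Sp d → Sp d × Sp d → Sp d × Sp d → ℝ≥0∞) (K3 : Sp d → Sp d × Sp d → ℝ≥0∞),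
    (∀ y, a y ≠ ⊤) → (∀ y p, β y p ≠ ⊤) → (∀ y p z, c y p z ≠ ⊤) →
    (∀ y, 1 ≤ S y) → (∀ y, 0 ≤ D y) → (∀ y, 0 ≤ W y) →
    (∀ y, a y ≠ 0 → ‖y‖ * S y ≤ B) →
    (∀ y p (T : Sp d →L[ℝ] Sp d),
      ∫⁻ z : Sp d × Sp d, c y p z * ker1 (T + μ 2 • wedge z.1 z.2) ≤ K3 y p) →
    (∀ x ∈ Inv m R, g x ≤ a (Yc A 0 x.1) * (β (Yc A 0 x.1) (Yc A 1 x.1, Yc A 1 x.2) *
      (c (Yc A 0 x.1) (Yc A 1 x.1, Yc A 1 x.2) (Yc A 2 x.1, Yc A 2 x.2) *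
        onSet (‖Yc A 3 x.1‖ ≤ D (Yc A 0 x.1) ∧ ‖Yc A 3 x.2‖ ≤ W (Yc A 0 x.1) ∧
          ‖Yc A 0 x.2‖ ≤ S (Yc A 0 x.1)) 1))) →
    ∫⁻ x in Inv m R, g x ≤
      ENNReal.ofReal C * ∫⁻ y : Sp d, a y * ENNReal.ofReal (S y ^ (d - 2) * D y * W y) *
        ∫⁻ p : Sp d × Sp d, β y p * K3 y p := by
  have hM : 0 ≤ ∑ a, m a := Finset.sum_nonneg fun a _ => (hj.mpos a).le
  have hR' : 0 ≤ R + (∑ a, m a) / 2 * R ^ 2 := by positivity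
  have hμ0 := hj.pos 0
  have hL : 0 ≤ R + 2 * μ 0 * B := by positivity
  obtain ⟨C1, hC1, hmas⟩ := cmaster (d := d) hd μ hj.pos hR' hL
  obtain ⟨c0, hc0, hfub⟩ := jac_fub (d := d) hj R
  refine ⟨(c0.toReal + 1) * C1, by positivity, ?_⟩
  intro g a S D W β c K3 ha hβ hc hS hD hW haS hK hg
  have key : ∀ x ∈ Inv m R, g x ≤ a (Yc A 0 x.1) * (β (Yc A 0 x.1) (Yc A 1 x.1, Yc A 1 x.2) *
      (c (Yc A 0 x.1) (Yc A 1 x.1, Yc A 1 x.2) (Yc A 2 x.1, Yc A 2 x.2) *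
        (onSet (‖(Yc A 3 x.1, Yc A 3 x.2).1‖ ≤ D (Yc A 0 x.1) ∧
          ‖(Yc A 3 x.1, Yc A 3 x.2).2‖ ≤ W (Yc A 0 x.1) ∧
          ‖(μ 1 • wedge (Yc A 1 x.1, Yc A 1 x.2).1 (Yc A 1 x.1, Yc A 1 x.2).2 +
            μ 2 • wedge (Yc A 2 x.1, Yc A 2 x.2).1 (Yc A 2 x.1, Yc A 2 x.2).2) +
            μ 3 • wedge (Yc A 3 x.1, Yc A 3 x.2).1 (Yc A 3 x.1, Yc A 3 x.2).2‖ ≤
              R + 2 * μ 0 * B) 1 *
        onSet (‖Yc A 0 x.2‖ ≤ S (Yc A 0 x.1) ∧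
          |μ 0 / 2 * ‖Yc A 0 x.2‖ ^ 2 - vstK m A μ (Yc A 0 x.1) (Yc A 1 x.1, Yc A 1 x.2)
            (Yc A 2 x.1, Yc A 2 x.2) (Yc A 3 x.1, Yc A 3 x.2)| ≤
              R + (∑ a, m a) / 2 * R ^ 2) 1))) := by
    intro x hx
    refine (hg x hx).trans ?_
    obtain ⟨-, hH, hLo, -, hP, -⟩ := hx
    by_cases h0 : a (Yc A 0 x.1) = 0
    · rw [h0, zero_mul, zero_mul]
    refine mul_le_mul_right (mul_le_mul_right (mul_le_mul_right ?_ _) _) _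
    by_cases hcond : ‖Yc A 3 x.1‖ ≤ D (Yc A 0 x.1) ∧ ‖Yc A 3 x.2‖ ≤ W (Yc A 0 x.1) ∧
          ‖Yc A 0 x.2‖ ≤ S (Yc A 0 x.1)
    · obtain ⟨c1, c2, c3⟩ := hcond
      have e1 : ‖(μ 1 • wedge (Yc A 1 x.1) (Yc A 1 x.2) + μ 2 • wedge (Yc A 2 x.1) (Yc A 2 x.2)) +
          μ 3 • wedge (Yc A 3 x.1) (Yc A 3 x.2)‖ ≤ R + 2 * μ 0 * B := by
        rw [vst_lop hj x]
        refine (norm_sub_le _ _).trans ?_
        rw [norm_smul, Real.norm_of_nonneg hμ0.le]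
        have h1 := vst_wedge (Yc A 0 x.1) (Yc A 0 x.2)
        have h2 : ‖Yc A 0 x.1‖ * ‖Yc A 0 x.2‖ ≤ B :=
          (mul_le_mul_of_nonneg_left c3 (norm_nonneg _)).trans (haS _ h0)
        have h3 : μ 0 * ‖wedge (Yc A 0 x.1) (Yc A 0 x.2)‖ ≤ μ 0 * (2 * B) :=
          mul_le_mul_of_nonneg_left (h1.trans (by linarith)) hμ0.le
        linarith
      have e2 : |μ 0 / 2 * ‖Yc A 0 x.2‖ ^ 2 - vstK m A μ (Yc A 0 x.1) (Yc A 1 x.1, Yc A 1 x.2)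
            (Yc A 2 x.1, Yc A 2 x.2) (Yc A 3 x.1, Yc A 3 x.2)| ≤
              R + (∑ a, m a) / 2 * R ^ 2 := by
        rw [vst_energy hj x]
        refine (abs_sub _ _).trans ?_
        have h1 : ‖cmv m x.2‖ ^ 2 ≤ R ^ 2 := pow_le_pow_left₀ (norm_nonneg _) hP 2
        have h2 : |(∑ a, m a) / 2 * ‖cmv m x.2‖ ^ 2| ≤ (∑ a, m a) / 2 * R ^ 2 := by
          rw [abs_of_nonneg (by positivity)]
          exact mul_le_mul_of_nonneg_left h1 (by positivity)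
        linarith
      rw [vst_onSet_pos ⟨c1, c2, c3⟩, vst_onSet_pos ⟨c1, c2, e1⟩, vst_onSet_pos ⟨c3, e2⟩,
        ENNReal.ofReal_one, mul_one]
    · rw [vst_onSet_neg hcond]
      exact bot_le
  refine (setLIntegral_mono' (measurableSet_inv m R) key).trans ?_
  have hsub : (Inv m R : Set (St d)) ⊆ {x : St d | ‖cmv m x.1‖ ≤ R ∧ ‖cmv m x.2‖ ≤ R} :=
    fun x hx => ⟨hx.2.2.2.1, hx.2.2.2.2.1⟩
  refine (lintegral_mono_set hsub).trans ?_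
  refine (hfub (fun y p z z' u => a y * (β y p * (c y p z * (onSet (‖z'.1‖ ≤ D y ∧ ‖z'.2‖ ≤ W y ∧
        ‖(μ 1 • wedge p.1 p.2 + μ 2 • wedge z.1 z.2) + μ 3 • wedge z'.1 z'.2‖ ≤
          R + 2 * μ 0 * B) 1 *
        onSet (‖u‖ ≤ S y ∧ |μ 0 / 2 * ‖u‖ ^ 2 - vstK m A μ y p z z'| ≤
          R + (∑ a, m a) / 2 * R ^ 2) 1))))).trans ?_
  refine (mul_le_mul_right (hmas a S D W β c K3 (vstK m A μ) ha hβ hc hS hD hW hK) _).trans ?_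
  rw [← mul_assoc]
  refine mul_le_mul_left ?_ _
  rw [ENNReal.ofReal_mul (by positivity)]
  refine mul_le_mul_left ?_ _
  calc c0 = ENNReal.ofReal c0.toReal := (ENNReal.ofReal_toReal hc0).symm
    _ ≤ ENNReal.ofReal (c0.toReal + 1) := ENNReal.ofReal_le_ofReal (by linarith)

end NB5
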