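import Pool.Agent.NB5.VBF
import Pool.Agent.NB5.VGeo
import Pool.Agent.NB5.VPos
import Pool.Agent.NB5.VRel

/-!
# NB5-VTBT: bad crossing states (`BadT`) are in boxes of type A

PLAN. Let `ρ = 1/cn n ^ 20`. `r = ‖q 0 - q 1‖ ≤ ‖q 0 - q 2‖ ≤ 2ρ`: `bad_facts`. `w = v 2 - V_Q`.
Trees `C`, `K` and `σ 0 = 0, σ 1 = 1, σ 2 = 2`: `Yc 1 = q 2 - cm m 0 1 q`, `≤ 4ρ` (`ycC1_le`), `Yc 1` of the
velocities is `w`; `yc_kin` for `j = 0, 1` (`kin_relV`); `yc_vel3` and `vel_KT` for `j ≥ 2`.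
(B1) `‖w‖ ≤ cn^22`, `KT ≤ cn^16`: `σ = 1`, tree `C`. `jpos` with `V = C cn^8`, `E = C cn^2`
(`‖Y0‖‖U0‖ ≤ C √r ≤ C`, `‖Y1‖ ‖w‖ ≤ 4 cn^(-20) cn^22`), `√E ≤ C cn ≤ C cn^8`.
(B2) level `k`, `b = lev k`: `ρ ≤ Rg 4 ≤ Rg 3 < 32/b^77` (`rg34`); `s = 64/b^77`: `geoTT`.
`r ≤ C/b^200` by `bad_facts` as `b^200 ≤ KT ≤ KQ ≤ Kin` resp. `b^200 ≤ KQ ≤ Kin` (`KQ_KT`, `kin_KQ`);
`KT ≤ 4 b^200`, so velocities number `2, 3` are `≤ C b^100`. `jpos` with `V = C b^100`: in the slow case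
`E = C cn^2`, `√E ≤ C cn ≤ C cn^8 ≤ C b^100` since `cn^16 ≤ KT < 4 b^200`; in the fast case
`‖w‖ ≤ C √KQ ≤ C b^100`, `E = C`.
(`tree_jac`, `tmu_bd`, `inv_relV`; the cases of `BadCore` are in the order B1, slow, fast.)
-/

open MeasureTheory Set Filter Topology Metric
open scoped NNReal ENNReal RealInnerProductSpace

namespace NB5

open HDN

private theorem vtbt_core {M R C1 C2 : ℝ} {d : ℕ} {m : Fin 5 → ℝ} {x : St d} (hm : Mb M m)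
    (hC1 : 1 ≤ C1) (hC20 : 1 ≤ C2)
    (hC2 : ∀ {d : ℕ} {m : Fin 5 → ℝ} {A : Fin 4 → Fin 5 → ℝ} {μ : Fin 4 → ℝ}, Jac m A μ →
      (∀ j, 1 / (2 * M) ≤ μ j ∧ μ j ≤ 5 * M) → ∀ x : St d, Iner m x ≤ R * (1 + |Jner m x|) →
      ∀ E V : ℝ, 1 ≤ E → 0 ≤ V →
      (∀ j, ‖Yc A j x.1‖ * ‖Yc A j x.2‖ ≤ E + V * ‖Yc A j x.1‖) →
      ∀ j, ‖Yc A j x.1‖ ≤ C2 * (V + √E))
    (hx : x ∈ Inv m R) {ρ e X : ℝ} (hρ0 : 0 < ρ) (hρ : ρ ≤ 1) (h02 : ‖x.1 0 - x.1 2‖ ≤ 2 * ρ)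
    (h01 : ‖x.1 0 - x.1 1‖ ≤ 2 * ρ)
    (hK : √(Kin m x.2) ≤ C1 / √‖x.1 0 - x.1 1‖) (hX : 1 ≤ X) (hKT : √(KT m x.2) ≤ 2 * X)
    (he : 1 ≤ e) (heX : e ≤ 2 * X)
    (hW : ρ * ‖x.2 2 - cm m 0 1 x.2‖ ≤ e ^ 2 ∨ ‖x.2 2 - cm m 0 1 x.2‖ ≤ 8 * M * X)
    (σ : Equiv.Perm (Fin 5)) (s0 : σ 0 = 0) (s1 : σ 1 = 1) (s2 : σ 2 = 2) (t : Tree)
    (ht : t = .C ∨ t = .K) :
    ‖Yc (TA t (m ∘ σ)) 0 (rel σ x).1‖ = ‖x.1 0 - x.1 1‖ ∧
    ‖Yc (TA t (m ∘ σ)) 0 (rel σ x).2‖ ≤ 4 * M * C1 / √‖x.1 0 - x.1 1‖ ∧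
    ‖Yc (TA t (m ∘ σ)) 1 (rel σ x).1‖ ≤ 4 * ρ ∧
    ‖Yc (TA t (m ∘ σ)) 1 (rel σ x).2‖ ≤ 4 * M * C1 / √‖x.1 0 - x.1 1‖ ∧
    ‖Yc (TA t (m ∘ σ)) 2 (rel σ x).2‖ ≤ 8 * M * X ∧
    ‖Yc (TA t (m ∘ σ)) 3 (rel σ x).2‖ ≤ 8 * M * X ∧
    ∀ j, ‖Yc (TA t (m ∘ σ)) j (rel σ x).1‖ ≤ C2 * (8 * M * X + 16 * M * C1 * X) := by
  have hM : 1 ≤ M := hm.1
  have hmp : ∀ i, 0 < m i := fun i => lt_of_lt_of_le (by positivity) (hm.2 i).1
  have hmσ : Mb M (m ∘ σ) := mb_perm hm σ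
  have hmσp : ∀ i, 0 < (m ∘ σ) i := fun i => hmp (σ i)
  have hfree := hx.1
  set r := ‖x.1 0 - x.1 1‖ with hr
  have hr0 : 0 < r := norm_pos_iff.2 (sub_ne_zero.2 (hfree 0 1 (by decide)))
  have hsr : 0 < √r := Real.sqrt_pos.2 hr0
  have e0 : Yc (TA t (m ∘ σ)) 0 (rel σ x).1 = x.1 0 - x.1 1 := by
    rw [yc0]
    show x.1 (σ 0) - x.1 (σ 1) = _
    rw [s0, s1]
  have hU : ∀ j, ‖Yc (TA t (m ∘ σ)) j (rel σ x).2‖ ≤ 4 * M * C1 / √r := by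
    intro j
    have h1 := yc_kin hmσ t j (rel σ x).2
    have h2 : Kin (m ∘ σ) (rel σ x).2 = Kin m x.2 := kin_relV m σ x.2
    rw [h2] at h1
    calc _ ≤ 4 * M * √(Kin m x.2) := h1
      _ ≤ 4 * M * (C1 / √r) := mul_le_mul_of_nonneg_left hK (by positivity)
      _ = 4 * M * C1 / √r := by ring
  have hY1 : ‖Yc (TA t (m ∘ σ)) 1 (rel σ x).1‖ ≤ 4 * ρ := by
    have h1 : ‖(rel σ x).1 0 - (rel σ x).1 2‖ ≤ 4 * ρ := by
      show ‖x.1 (σ 0) - x.1 (σ 2)‖ ≤ 4 * ρ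
      rw [s0, s2]
      linarith
    have h2 : ‖(rel σ x).1 1 - (rel σ x).1 2‖ ≤ 4 * ρ := by
      show ‖x.1 (σ 1) - x.1 (σ 2)‖ ≤ 4 * ρ
      rw [s1, s2]
      have h3 : x.1 1 - x.1 2 = (x.1 0 - x.1 2) - (x.1 0 - x.1 1) := by abel
      rw [h3]
      exact (norm_sub_le _ _).trans (by linarith)
    rcases ht with rfl | rfl
    · exact (ycC1_le hmσp _ h1 h2).1
    · exact (ycC1_le hmσp _ h1 h2).2
  have hcm : cm (m ∘ σ) 0 1 (rel σ x).2 = cm m 0 1 x.2 := by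
    show ((m (σ 0)) + (m (σ 1)))⁻¹ • (m (σ 0) • x.2 (σ 0) + m (σ 1) • x.2 (σ 1)) = _
    rw [s0, s1]
    rfl
  have hcm3 : cm3 (m ∘ σ) 0 1 2 (rel σ x).2 = cm3 m 0 1 2 x.2 := by
    show ((m (σ 0)) + (m (σ 1)) + m (σ 2))⁻¹ •
      (m (σ 0) • x.2 (σ 0) + m (σ 1) • x.2 (σ 1) + m (σ 2) • x.2 (σ 2)) = _
    rw [s0, s1, s2]
    rfl
  have hU1 : ‖Yc (TA t (m ∘ σ)) 1 (rel σ x).2‖ = ‖x.2 2 - cm m 0 1 x.2‖ := by
    have h1 : (rel σ x).2 2 = x.2 2 := by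
      show x.2 (σ 2) = _
      rw [s2]
    rcases ht with rfl | rfl
    · rw [ycC1 hmσp, hcm, h1]
    · rw [ycK1 hmσp, hcm, h1]
  have hkt := vel_KT hm x.2
  have hkt' : 2 * M * √(KT m x.2) ≤ 4 * M * X := by
    calc 2 * M * √(KT m x.2) ≤ 2 * M * (2 * X) := mul_le_mul_of_nonneg_left hKT (by positivity)
      _ = 4 * M * X := by ring
  have hdec : ∀ i : Fin 5, i ≠ 0 → i ≠ 1 → i ≠ 2 → i = 3 ∨ i = 4 := by decide
  have hσi : ∀ i : Fin 5, i ≠ 0 → i ≠ 1 → i ≠ 2 → ‖(rel σ x).2 i‖ ≤ 4 * M * X := by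
    intro i h0 h1 h2
    show ‖x.2 (σ i)‖ ≤ _
    have h3 := hdec (σ i) (fun h => h0 (σ.injective (h.trans s0.symm)))
      (fun h => h1 (σ.injective (h.trans s1.symm))) (fun h => h2 (σ.injective (h.trans s2.symm)))
    rcases h3 with h3 | h3 <;> rw [h3]
    · exact hkt.2.1.trans hkt'
    · exact hkt.2.2.trans hkt'
  have hUj : ∀ j : Fin 4, 2 ≤ j → ‖Yc (TA t (m ∘ σ)) j (rel σ x).2‖ ≤ 8 * M * X := by
    intro j hj
    have h1 := yc_vel3 hmσp t ht (rel σ x).2 (V := 4 * M * X)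
      (by rw [hcm3]; exact hkt.1.trans hkt') (hσi 3 (by decide) (by decide) (by decide))
      (hσi 4 (by decide) (by decide) (by decide)) j hj
    calc _ ≤ 2 * (4 * M * X) := h1
      _ = 8 * M * X := by ring
  have hMC : 1 ≤ M * C1 := by nlinarith
  have hE1 : 1 ≤ 8 * M * C1 * e ^ 2 := by
    have : 1 ≤ e ^ 2 := one_le_pow₀ he
    nlinarith
  have hVX : 0 ≤ 8 * M * X := by positivity
  refine ⟨by rw [e0], hU 0, hY1, hU 1, hUj 2 le_rfl, hUj 3 (by decide), ?_⟩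
  intro j
  have key := hC2 (tree_jac t hmσp) (fun j => tmu_bd hmσ t j) (rel σ x)
    ((inv_relV m R σ x).2 hx).2.2.2.2.2 (8 * M * C1 * e ^ 2) (8 * M * X) hE1 hVX ?_ j
  · refine key.trans (mul_le_mul_of_nonneg_left ?_ (by positivity))
    have h1 : √(8 * M * C1 * e ^ 2) ≤ 8 * M * C1 * e := by
      refine Real.sqrt_le_iff.2 ⟨by positivity, ?_⟩
      have h2 : 1 ≤ 8 * M * C1 := by nlinarith
      have h3 : 0 ≤ 8 * M * C1 * e ^ 2 := by positivity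
      nlinarith
    have h4 : 8 * M * C1 * e ≤ 8 * M * C1 * (2 * X) := mul_le_mul_of_nonneg_left heX (by positivity)
    nlinarith
  · intro j
    have hn : 0 ≤ ‖Yc (TA t (m ∘ σ)) j (rel σ x).1‖ := norm_nonneg _
    have hcase : ∀ i : Fin 4, i = 0 ∨ i = 1 ∨ 2 ≤ i := by decide
    rcases hcase j with rfl | rfl | hj
    · rw [e0]
      have h1 : r * ‖Yc (TA t (m ∘ σ)) 0 (rel σ x).2‖ ≤ r * (4 * M * C1 / √r) :=
        mul_le_mul_of_nonneg_left (hU 0) hr0.le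
      have h2 : r * (4 * M * C1 / √r) = 4 * M * C1 * √r := by
        rw [mul_div_assoc', div_eq_iff hsr.ne']
        calc r * (4 * M * C1) = 4 * M * C1 * r := by ring
          _ = 4 * M * C1 * (√r * √r) := by rw [Real.mul_self_sqrt hr0.le]
          _ = 4 * M * C1 * √r * √r := by ring
      have h3 : √r ≤ 2 := by
        refine Real.sqrt_le_iff.2 ⟨by norm_num, ?_⟩
        linarith
      have h4 : 4 * M * C1 * √r ≤ 4 * M * C1 * 2 := mul_le_mul_of_nonneg_left h3 (by positivity)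
      have h5 : 8 * M * C1 * 1 ≤ 8 * M * C1 * e ^ 2 :=
        mul_le_mul_of_nonneg_left (one_le_pow₀ he) (by positivity)
      have h6 : 0 ≤ 8 * M * X * ‖x.1 0 - x.1 1‖ := by positivity
      rw [← hr] at h6 ⊢
      linarith
    · rw [hU1]
      rcases hW with hW | hW
      · have h1 : ‖Yc (TA t (m ∘ σ)) 1 (rel σ x).1‖ * ‖x.2 2 - cm m 0 1 x.2‖ ≤
            4 * ρ * ‖x.2 2 - cm m 0 1 x.2‖ := mul_le_mul_of_nonneg_right hY1 (norm_nonneg _)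
        have h2 : 4 * e ^ 2 ≤ 8 * M * C1 * e ^ 2 :=
          mul_le_mul_of_nonneg_right (by nlinarith) (by positivity)
        have h3 : 0 ≤ 8 * M * X * ‖Yc (TA t (m ∘ σ)) 1 (rel σ x).1‖ := by positivity
        linarith
      · have h1 : ‖Yc (TA t (m ∘ σ)) 1 (rel σ x).1‖ * ‖x.2 2 - cm m 0 1 x.2‖ ≤
            ‖Yc (TA t (m ∘ σ)) 1 (rel σ x).1‖ * (8 * M * X) := mul_le_mul_of_nonneg_left hW hn
        linarith
    · have h1 : ‖Yc (TA t (m ∘ σ)) j (rel σ x).1‖ * ‖Yc (TA t (m ∘ σ)) j (rel σ x).2‖ ≤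
            ‖Yc (TA t (m ∘ σ)) j (rel σ x).1‖ * (8 * M * X) :=
        mul_le_mul_of_nonneg_left (hUj j hj) hn
      linarith

theorem tbT (M R : ℝ) : ∃ C : ℝ, 1 ≤ C ∧
    ∀ {d : ℕ} (m : Fin 5 → ℝ) (n : ℕ) (x : St d), Mb M m → x ∈ Inv m R → BadT n m x →
    ∃ (σ : Equiv.Perm (Fin 5)) (t : Tree),
      √(Kin m x.2) ≤ C / √‖Yc (TA t (m ∘ σ)) 0 (rel σ x).1‖ ∧
      (BoxA (TA t (m ∘ σ)) C (C / cn n ^ 20) (C / cn n ^ 20) (C * cn n ^ 8) (C * cn n ^ 8)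
        (C * cn n ^ 8) 0 (rel σ x) ∨
      ∃ k : ℕ, 1 / cn n ^ 20 ≤ C / lev k ^ 77 ∧
        BoxA (TA t (m ∘ σ)) C (C / lev k ^ 200) (C / cn n ^ 20) (C / lev k ^ 77)
          (C * lev k ^ 100) (C * lev k ^ 100) 0 (rel σ x)) := by
  by_cases hMR : 1 ≤ M ∧ 0 ≤ R
  swap
  · refine ⟨1, le_rfl, fun m n x hm hx => absurd ⟨hm.1, (abs_nonneg _).trans hx.2.1⟩ hMR⟩
  obtain ⟨hM, hR⟩ := hMR
  have hM0 : 0 < M := by linarith
  obtain ⟨C1, hC1, hbad⟩ := bad_facts M R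
  obtain ⟨C2, hC2, hpos⟩ := jpos (R := R) (l := 1 / (2 * M)) (u := 5 * M) hR (by positivity)
    (by positivity)
  have hC10 : 0 < C1 := by linarith
  have hC20 : 0 < C2 := by linarith
  refine ⟨576 + C1 + 4 * M * C1 + 8 * M + C2 * (8 * M + 16 * M * C1), ?_, ?_⟩
  · have : 0 ≤ C1 + 4 * M * C1 + 8 * M + C2 * (8 * M + 16 * M * C1) := by positivity
    linarith
  intro d m n x hm hx hT
  set C := 576 + C1 + 4 * M * C1 + 8 * M + C2 * (8 * M + 16 * M * C1) with hC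
  have p1 : 0 ≤ 4 * M * C1 := by positivity
  have p2 : 0 ≤ 8 * M := by positivity
  have p3 : 0 ≤ C2 * (8 * M + 16 * M * C1) := by positivity
  have c576 : 576 ≤ C := by linarith
  have cC1 : C1 ≤ C := by linarith
  have c4 : 4 * M * C1 ≤ C := by linarith
  have c8 : 8 * M ≤ C := by linarith
  have cC2 : C2 * (8 * M + 16 * M * C1) ≤ C := by linarith
  obtain ⟨hcl, hr4, h02, hcore⟩ := hT
  have hc1 : 1 ≤ cn n := cn_one n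
  have hc0 : 0 < cn n := by linarith
  have hc20 : 0 < cn n ^ 20 := by positivity
  have hρ0 : 0 < 1 / cn n ^ 20 := by positivity
  have hρ1 : 1 / cn n ^ 20 ≤ 1 := by
    rw [div_le_one hc20]
    exact one_le_pow₀ hc1
  have h02' : ‖x.1 0 - x.1 2‖ ≤ 2 * (1 / cn n ^ 20) := by
    calc _ ≤ 2 / cn n ^ 20 := h02
      _ = 2 * (1 / cn n ^ 20) := by ring
  have h01 : ‖x.1 0 - x.1 1‖ ≤ 2 * (1 / cn n ^ 20) := (hcl 0 2 (by decide)).trans h02'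
  obtain ⟨hK, hrb⟩ := hbad m x (1 / cn n ^ 20) hm hρ0 hρ1 hx hcl hr4 h01
  have hmp : ∀ i, 0 < m i := fun i => lt_of_lt_of_le (by positivity) (hm.2 i).1
  have hQT : KT m x.2 ≤ KQ m x.2 := by
    rw [KQ_KT hmp]
    have h0 := hmp 0
    have h1 := hmp 1
    have h2 := hmp 2
    have : 0 ≤ (1 / 2) * ((m 0 + m 1) * m 2 / (m 0 + m 1 + m 2)) *
      ‖x.2 2 - cm m 0 1 x.2‖ ^ 2 := by positivity
    linarith
  have hKQ : KQ m x.2 ≤ Kin m x.2 := by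
    rw [kin_KQ hmp]
    have h0 := hmp 0
    have h1 := hmp 1
    have : 0 ≤ (1 / 2) * (m 0 * m 1 / (m 0 + m 1)) * ‖x.2 0 - x.2 1‖ ^ 2 := by positivity
    linarith
  have hKTs : ∀ X : ℝ, 0 ≤ X → KT m x.2 ≤ 4 * X ^ 2 → √(KT m x.2) ≤ 2 * X := by
    intro X hX h
    refine Real.sqrt_le_iff.2 ⟨by positivity, ?_⟩
    calc _ ≤ 4 * X ^ 2 := h
      _ = (2 * X) ^ 2 := by ring
  have hr0 : 0 < ‖x.1 0 - x.1 1‖ := norm_pos_iff.2 (sub_ne_zero.2 (hx.1 0 1 (by decide)))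
  have hsr : 0 < √‖x.1 0 - x.1 1‖ := Real.sqrt_pos.2 hr0
  have hc8 : cn n ≤ cn n ^ 8 := by
    calc cn n = cn n ^ 1 := (pow_one _).symm
      _ ≤ cn n ^ 8 := pow_le_pow_right₀ hc1 (by norm_num)
  have hslow : ‖x.2 2 - cm m 0 1 x.2‖ ≤ cn n ^ 22 →
      1 / cn n ^ 20 * ‖x.2 2 - cm m 0 1 x.2‖ ≤ cn n ^ 2 := by
    intro h
    calc 1 / cn n ^ 20 * ‖x.2 2 - cm m 0 1 x.2‖ ≤ 1 / cn n ^ 20 * cn n ^ 22 :=
          mul_le_mul_of_nonneg_left h hρ0.le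
      _ = cn n ^ 2 := by
        rw [div_mul_eq_mul_div, one_mul, div_eq_iff hc20.ne']
        ring
  -- the box
  have hbox : ∀ (σ : Equiv.Perm (Fin 5)) (t : Tree) (X r0 s2 : ℝ), 1 ≤ X →
      ‖x.1 0 - x.1 1‖ ≤ r0 →
      ‖Yc (TA t (m ∘ σ)) 0 (rel σ x).1‖ = ‖x.1 0 - x.1 1‖ ∧
      ‖Yc (TA t (m ∘ σ)) 0 (rel σ x).2‖ ≤ 4 * M * C1 / √‖x.1 0 - x.1 1‖ ∧
      ‖Yc (TA t (m ∘ σ)) 1 (rel σ x).1‖ ≤ 4 * (1 / cn n ^ 20) ∧
      ‖Yc (TA t (m ∘ σ)) 1 (rel σ x).2‖ ≤ 4 * M * C1 / √‖x.1 0 - x.1 1‖ ∧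
      ‖Yc (TA t (m ∘ σ)) 2 (rel σ x).2‖ ≤ 8 * M * X ∧
      ‖Yc (TA t (m ∘ σ)) 3 (rel σ x).2‖ ≤ 8 * M * X ∧
      (∀ j, ‖Yc (TA t (m ∘ σ)) j (rel σ x).1‖ ≤ C2 * (8 * M * X + 16 * M * C1 * X)) →
      ‖Yc (TA t (m ∘ σ)) 2 (rel σ x).1‖ ≤ s2 →
      BoxA (TA t (m ∘ σ)) C r0 (C / cn n ^ 20) s2 (C * X) (C * X) 0 (rel σ x) := by
    intro σ t X r0 s2 hX hr ⟨a1, a2, a3, a4, a5, a6, a7⟩ h2
    have hX0 : 0 < X := by linarith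
    have b1 : 4 * M * C1 / √‖x.1 0 - x.1 1‖ ≤ C / √‖x.1 0 - x.1 1‖ :=
      div_le_div_of_nonneg_right c4 hsr.le
    have b2 : 8 * M * X ≤ C * X := mul_le_mul_of_nonneg_right c8 hX0.le
    refine ⟨by rw [a1]; exact hr, ?_, ?_, ?_, h2, a5.trans b2, ?_, a6.trans b2⟩
    · rw [a1]
      exact a2.trans b1
    · calc _ ≤ 4 * (1 / cn n ^ 20) := a3
        _ = 4 / cn n ^ 20 := by ring
        _ ≤ C / cn n ^ 20 := div_le_div_of_nonneg_right (by linarith) hc20.le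
    · rw [a1]
      exact a4.trans b1
    · rw [zero_div, add_zero]
      calc _ ≤ C2 * (8 * M * X + 16 * M * C1 * X) := a7 3
        _ = C2 * (8 * M + 16 * M * C1) * X := by ring
        _ ≤ C * X := mul_le_mul_of_nonneg_right cC2 hX0.le
  have hkin : ∀ (σ : Equiv.Perm (Fin 5)) (t : Tree),
      ‖Yc (TA t (m ∘ σ)) 0 (rel σ x).1‖ = ‖x.1 0 - x.1 1‖ →
      √(Kin m x.2) ≤ C / √‖Yc (TA t (m ∘ σ)) 0 (rel σ x).1‖ := by
    intro σ t h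
    rw [h]
    exact hK.trans (div_le_div_of_nonneg_right cC1 hsr.le)
  rcases hcore with ⟨hw, hkt⟩ | ⟨hw, hkt, k, hk1, hk2, hk3⟩ | ⟨hw, k, hk1, hk2, hk3⟩
  · -- B1
    have hX : 1 ≤ cn n ^ 8 := one_le_pow₀ hc1
    have key := vtbt_core hm hC1 hC2 hpos hx hρ0 hρ1 h02' h01 hK hX
      (hKTs _ (by positivity) (hkt.trans (by
        have : 0 ≤ cn n ^ 16 := by positivity
        nlinarith))) hc1 (hc8.trans (by linarith)) (Or.inl (hslow hw)) 1 rfl rfl rfl .C (Or.inl rfl)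
    refine ⟨1, .C, hkin _ _ key.1, Or.inl (hbox 1 .C _ _ _ hX ?_ key ?_)⟩
    · calc _ ≤ 2 * (1 / cn n ^ 20) := h01
        _ = 2 / cn n ^ 20 := by ring
        _ ≤ C / cn n ^ 20 := div_le_div_of_nonneg_right (by linarith) hc20.le
    · calc _ ≤ C2 * (8 * M * cn n ^ 8 + 16 * M * C1 * cn n ^ 8) := key.2.2.2.2.2.2 2
        _ = C2 * (8 * M + 16 * M * C1) * cn n ^ 8 := by ring
        _ ≤ C * cn n ^ 8 := mul_le_mul_of_nonneg_right cC2 (by positivity)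
  all_goals
    have hl1 : 1 ≤ lev k := lev_one k
    have hl0 : 0 < lev k := by linarith
    have hX : 1 ≤ lev k ^ 100 := one_le_pow₀ hl1
    have hρs : 1 / cn n ^ 20 < 32 / lev k ^ 77 := lt_of_le_of_lt (hr4.trans (rg34 _)) hk3
    have hss : 2 * (32 / lev k ^ 77) = 64 / lev k ^ 77 := by ring
    obtain ⟨σ, t, s0, s1, s2, ht, hY2⟩ := geoTT hmp (s := 64 / lev k ^ 77)
      (hk3.le.trans (div_le_div_of_nonneg_right (by norm_num) (by positivity)))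
      (h01.trans (by linarith)) (h02'.trans (by linarith))
    have hY2' : ‖Yc (TA t (m ∘ σ)) 2 (rel σ x).1‖ ≤ C / lev k ^ 77 := by
      calc _ ≤ 9 * (64 / lev k ^ 77) := hY2
        _ = 576 / lev k ^ 77 := by ring
        _ ≤ C / lev k ^ 77 := div_le_div_of_nonneg_right c576 (by positivity)
    have hρC : 1 / cn n ^ 20 ≤ C / lev k ^ 77 :=
      hρs.le.trans (div_le_div_of_nonneg_right (by linarith) (by positivity))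
  · -- slow
    have hKTX : KT m x.2 ≤ 4 * (lev k ^ 100) ^ 2 := by
      calc _ ≤ 4 * lev k ^ 200 := hk2.le
        _ = 4 * (lev k ^ 100) ^ 2 := by ring
    have hs := hKTs _ (by positivity) hKTX
    have hc8X : cn n ^ 8 ≤ 2 * lev k ^ 100 := by
      refine le_trans ?_ hs
      refine Real.le_sqrt_of_sq_le ?_
      calc (cn n ^ 8) ^ 2 = cn n ^ 16 := by ring
        _ ≤ _ := hkt
    have key := vtbt_core hm hC1 hC2 hpos hx hρ0 hρ1 h02' h01 hK hX hs hc1 (hc8.trans hc8X)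
      (Or.inl (hslow hw)) σ s0 s1 s2 t ht
    refine ⟨σ, t, hkin _ _ key.1, Or.inr ⟨k, hρC, hbox σ t _ _ _ hX ?_ key hY2'⟩⟩
    refine (hrb (lev k) hl1 (hk1.trans (hQT.trans hKQ))).trans ?_
    exact div_le_div_of_nonneg_right cC1 (by positivity)
  · -- fast
    have hKQX : KQ m x.2 ≤ 4 * (lev k ^ 100) ^ 2 := by
      calc _ ≤ 4 * lev k ^ 200 := hk2.le
        _ = 4 * (lev k ^ 100) ^ 2 := by ring
    have hs := hKTs _ (by positivity) (hQT.trans hKQX)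
    have hsQ : √(KQ m x.2) ≤ 2 * lev k ^ 100 := by
      refine Real.sqrt_le_iff.2 ⟨by positivity, ?_⟩
      calc _ ≤ 4 * (lev k ^ 100) ^ 2 := hKQX
        _ = (2 * lev k ^ 100) ^ 2 := by ring
    have hW : ‖x.2 2 - cm m 0 1 x.2‖ ≤ 8 * M * lev k ^ 100 := by
      have hv := vel_KQ hm x.2
      have h1 := hv.1
      have h2 := hv.2 2 le_rfl
      have h3 := norm_sub_le (x.2 2) (cm m 0 1 x.2)
      have h4 : 2 * M * √(KQ m x.2) ≤ 2 * M * (2 * lev k ^ 100) :=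
        mul_le_mul_of_nonneg_left hsQ (by positivity)
      linarith
    have key := vtbt_core hm hC1 hC2 hpos hx hρ0 hρ1 h02' h01 hK hX hs le_rfl
      (show (1 : ℝ) ≤ 2 * lev k ^ 100 by linarith) (Or.inr hW) σ s0 s1 s2 t ht
    refine ⟨σ, t, hkin _ _ key.1, Or.inr ⟨k, hρC, hbox σ t _ _ _ hX ?_ key hY2'⟩⟩
    refine (hrb (lev k) hl1 (hk1.trans hKQ)).trans ?_
    exact div_le_div_of_nonneg_right cC1 (by positivity)

end NB5
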