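import Pool.Agent.NB5.VS1
import Pool.Agent.NB5.VGeo
import Pool.Agent.NB5.VPos
import Pool.Agent.NB5.VRel

/-!
# NB5-VTP1: states of `S1` with small third linkage are in a box of type P

PLAN. `s = 1/b^77`, `‖q 0 - q 1‖ ≤ Cr/b^200 ≤ s` for `b ≥ K`. First alternative of `s1_facts`: `geoT`;
`yc_vel` for `(m ∘ σ)`, `(rel σ x).2` (`cm (m ∘ σ) 0 1 (x.2 ∘ σ) = cm m 0 1 x.2` as `σ 0 = 0, σ 1 = 1`) gives
`‖Yc .. j ..‖ ≤ 2 C b^100` for `j ≥ 1`. Second alternative: `geoP`; `Yc .. 1 = q j - q k` (`ycH1`, `ycG1`,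
`ycL1`), `yc_vel2` for `j ≥ 2` (`cm (m ∘ σ) 2 3 (x.2 ∘ σ) = cm m j k x.2`). `yc0`. Positions:
`jpos` for `rel σ x ∈ Inv (m ∘ σ) R` (`inv_rel`), `tree_jac`, `tmu_bd`, with `E = C`, `V = C b^100`:
`‖Y0‖ ‖U0‖ ≤ C √‖Y0‖ ≤ C`, `‖Y1‖ C (b^100 + 1/√‖Y1‖) ≤ C b^100 ‖Y1‖ + C √‖Y1‖`,
`√t ≤ 1 + t`. `Kin`: `kin_rel` is not needed (it is `Kin m x.2` in `s1_facts`). In the first alternative
`1/√‖Y1‖ ≥ 0`.
-/

open MeasureTheory Set Filter Topology Metric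
open scoped NNReal ENNReal RealInnerProductSpace

namespace NB5

open HDN

private theorem sqrt_le_one_add {t : ℝ} (ht : 0 ≤ t) : √t ≤ 1 + t := by
  rw [Real.sqrt_le_left (by linarith)]
  nlinarith

private theorem mul_inv_sqrt {t : ℝ} (ht : 0 ≤ t) : t * (1 / √t) ≤ 1 + t := by
  rw [mul_one_div, Real.div_sqrt]
  exact sqrt_le_one_add ht

private theorem box_of {d : ℕ} {C₁ C₂ Cr b : ℝ} (hC₁ : 1 ≤ C₁) (hC₂ : 1 ≤ C₂) (hCr : 0 ≤ Cr)
    (hb : 1 ≤ b) {A : Fin 4 → Fin 5 → ℝ} {y : St d}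
    (hpos : ∀ E V : ℝ, 1 ≤ E → 0 ≤ V →
      (∀ j, ‖Yc A j y.1‖ * ‖Yc A j y.2‖ ≤ E + V * ‖Yc A j y.1‖) →
      ∀ j, ‖Yc A j y.1‖ ≤ C₂ * (V + √E))
    (h0 : ‖Yc A 0 y.1‖ ≤ Cr / b ^ 200) (h0' : ‖Yc A 0 y.2‖ ≤ C₁ / √‖Yc A 0 y.1‖)
    (h1 : ‖Yc A 1 y.1‖ ≤ 9 / b ^ 77)
    (h1' : ‖Yc A 1 y.2‖ ≤ 2 * C₁ * (b ^ 100 + 1 / √‖Yc A 1 y.1‖))
    (h2 : ‖Yc A 2 y.1‖ ≤ 9 / b ^ 77) (h2' : ‖Yc A 2 y.2‖ ≤ 2 * C₁ * b ^ 100)
    (h3' : ‖Yc A 3 y.2‖ ≤ 2 * C₁ * b ^ 100) :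
    BoxP A (Cr + 9 + 2 * C₁ + 6 * C₂ * C₁) b y := by
  have hb0 : 0 < b := by linarith
  have hb100 : 1 ≤ b ^ 100 := one_le_pow₀ hb
  have hcc : 0 ≤ 6 * C₂ * C₁ := by positivity
  have c9 : 9 ≤ Cr + 9 + 2 * C₁ + 6 * C₂ * C₁ := by linarith
  have c2 : 2 * C₁ ≤ Cr + 9 + 2 * C₁ + 6 * C₂ * C₁ := by linarith
  have c1 : C₁ ≤ Cr + 9 + 2 * C₁ + 6 * C₂ * C₁ := by linarith
  have cr : Cr ≤ Cr + 9 + 2 * C₁ + 6 * C₂ * C₁ := by linarith
  have c6 : 6 * C₂ * C₁ ≤ Cr + 9 + 2 * C₁ + 6 * C₂ * C₁ := by linarith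
  have key := hpos (2 * C₁) (4 * C₁ * b ^ 100) (by linarith) (by positivity) (by
    have hV : ∀ t : ℝ, 0 ≤ t → 2 * C₁ * (1 + t) ≤ 2 * C₁ + 4 * C₁ * b ^ 100 * t := by
      intro t ht
      have e1 : 2 * C₁ * t * 1 ≤ 2 * C₁ * t * b ^ 100 :=
        mul_le_mul_of_nonneg_left hb100 (by positivity)
      have e2 : 0 ≤ 2 * C₁ * t * b ^ 100 := by positivity
      nlinarith
    intro j
    fin_cases j
    · change ‖Yc A 0 y.1‖ * ‖Yc A 0 y.2‖ ≤ 2 * C₁ + 4 * C₁ * b ^ 100 * ‖Yc A 0 y.1‖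
      have hn := norm_nonneg (Yc A 0 y.1)
      refine (mul_le_mul_of_nonneg_left h0' hn).trans ?_
      have e1 : ‖Yc A 0 y.1‖ * (C₁ / √‖Yc A 0 y.1‖) =
          C₁ * (‖Yc A 0 y.1‖ * (1 / √‖Yc A 0 y.1‖)) := by ring
      rw [e1]
      have e2 := mul_le_mul_of_nonneg_left (mul_inv_sqrt hn) (by linarith : (0 : ℝ) ≤ C₁)
      have e3 := hV _ hn
      have e4 : 0 ≤ C₁ * (1 + ‖Yc A 0 y.1‖) := by positivity
      linarith
    · change ‖Yc A 1 y.1‖ * ‖Yc A 1 y.2‖ ≤ 2 * C₁ + 4 * C₁ * b ^ 100 * ‖Yc A 1 y.1‖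
      have hn := norm_nonneg (Yc A 1 y.1)
      refine (mul_le_mul_of_nonneg_left h1' hn).trans ?_
      have e1 : ‖Yc A 1 y.1‖ * (2 * C₁ * (b ^ 100 + 1 / √‖Yc A 1 y.1‖)) =
          2 * C₁ * b ^ 100 * ‖Yc A 1 y.1‖ +
            2 * C₁ * (‖Yc A 1 y.1‖ * (1 / √‖Yc A 1 y.1‖)) := by ring
      rw [e1]
      have e2 := mul_le_mul_of_nonneg_left (mul_inv_sqrt hn) (by linarith : (0 : ℝ) ≤ 2 * C₁)
      have e3 : 2 * C₁ * ‖Yc A 1 y.1‖ * 1 ≤ 2 * C₁ * ‖Yc A 1 y.1‖ * b ^ 100 :=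
        mul_le_mul_of_nonneg_left hb100 (by positivity)
      linarith
    · change ‖Yc A 2 y.1‖ * ‖Yc A 2 y.2‖ ≤ 2 * C₁ + 4 * C₁ * b ^ 100 * ‖Yc A 2 y.1‖
      have hn := norm_nonneg (Yc A 2 y.1)
      refine (mul_le_mul_of_nonneg_left h2' hn).trans ?_
      have e2 : 0 ≤ 2 * C₁ * b ^ 100 * ‖Yc A 2 y.1‖ := by positivity
      linarith
    · change ‖Yc A 3 y.1‖ * ‖Yc A 3 y.2‖ ≤ 2 * C₁ + 4 * C₁ * b ^ 100 * ‖Yc A 3 y.1‖
      have hn := norm_nonneg (Yc A 3 y.1)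
      refine (mul_le_mul_of_nonneg_left h3' hn).trans ?_
      have e2 : 0 ≤ 2 * C₁ * b ^ 100 * ‖Yc A 3 y.1‖ := by positivity
      linarith)
  refine ⟨?_, ?_, ?_, ?_, ?_, ?_, ?_, ?_⟩
  · exact h0.trans (by gcongr)
  · exact h0'.trans (by gcongr)
  · exact h1.trans (by gcongr)
  · exact h1'.trans (by gcongr)
  · exact h2.trans (by gcongr)
  · exact h2'.trans (by gcongr)
  · refine (key 3).trans ?_
    have e1 : √(2 * C₁) ≤ 2 * C₁ := by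
      rw [Real.sqrt_le_left (by linarith)]
      nlinarith
    have e2 : 2 * C₁ * 1 ≤ 2 * C₁ * b ^ 100 := mul_le_mul_of_nonneg_left hb100 (by linarith)
    calc C₂ * (4 * C₁ * b ^ 100 + √(2 * C₁)) ≤ C₂ * (6 * C₁ * b ^ 100) := by
          refine mul_le_mul_of_nonneg_left ?_ (by linarith)
          linarith
      _ = 6 * C₂ * C₁ * b ^ 100 := by ring
      _ ≤ (Cr + 9 + 2 * C₁ + 6 * C₂ * C₁) * b ^ 100 := by gcongr
  · exact h3'.trans (by gcongr)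

theorem tp1 (P : Par) : ∃ C K : ℝ, 1 ≤ C ∧ 1 ≤ K ∧
    ∀ {d : ℕ} (m : Fin 5 → ℝ) (b : ℝ) (x : St d), Mb P.M m → K ≤ b → x ∈ Inv m P.R →
    S1 P b m x → Rg 3 x.1 ≤ 1 / b ^ 77 →
    ∃ (σ : Equiv.Perm (Fin 5)) (t : Tree), BoxP (TA t (m ∘ σ)) C b (rel σ x) ∧
      √(Kin m x.2) ≤ C * (1 / √‖Yc (TA t (m ∘ σ)) 0 (rel σ x).1‖ +
        1 / √‖Yc (TA t (m ∘ σ)) 1 (rel σ x).1‖) := by
  have hM := P.hM
  have hR := P.hR
  obtain ⟨C₁, K₁, hC₁, hK₁, facts⟩ := s1_facts P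
  obtain ⟨C₂, hC₂, hjp⟩ := jpos (R := P.R) (l := 1 / (2 * P.M)) (u := 5 * P.M) (by linarith)
    (by positivity) (by linarith)
  have hCr : 0 ≤ P.Cr := by
    have e : P.Cr = 4 * P.M ^ 2 := rfl
    rw [e]
    positivity
  have hcc : 0 ≤ 6 * C₂ * C₁ := by positivity
  refine ⟨P.Cr + 9 + 2 * C₁ + 6 * C₂ * C₁, K₁ + P.Cr, by linarith, by linarith, ?_⟩
  intro d m b x hm hb hx hS hRg
  have hb1 : 1 ≤ b := by linarith
  have hb0 : 0 < b := by linarith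
  have hmpos : ∀ i, 0 < m i := fun i => lt_of_lt_of_le (by positivity) (hm.2 i).1
  have hr : ‖x.1 0 - x.1 1‖ ≤ P.Cr / b ^ 200 := hS.r_le
  have h01 : ‖x.1 0 - x.1 1‖ ≤ 1 / b ^ 77 := by
    refine hr.trans ?_
    rw [div_le_div_iff₀ (by positivity) (by positivity), one_mul]
    have e1 : P.Cr ≤ b ^ 123 := by
      have : b ≤ b ^ 123 := le_self_pow₀ hb1 (by norm_num)
      linarith
    calc P.Cr * b ^ 77 ≤ b ^ 123 * b ^ 77 := by gcongr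
      _ = b ^ 200 := by ring
  obtain ⟨hv01, hcase⟩ := facts m b x hm (by linarith) hx hS
  have hjac : ∀ (σ : Equiv.Perm (Fin 5)) (t : Tree), ∀ E V : ℝ, 1 ≤ E → 0 ≤ V →
      (∀ j, ‖Yc (TA t (m ∘ σ)) j (rel σ x).1‖ * ‖Yc (TA t (m ∘ σ)) j (rel σ x).2‖ ≤
        E + V * ‖Yc (TA t (m ∘ σ)) j (rel σ x).1‖) →
      ∀ j, ‖Yc (TA t (m ∘ σ)) j (rel σ x).1‖ ≤ C₂ * (V + √E) := by
    intro σ t
    have hm' : Mb P.M (m ∘ σ) := ⟨hm.1, fun i => hm.2 (σ i)⟩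
    have hinv : rel σ x ∈ Inv (m ∘ σ) P.R := by
      first
        | exact (inv_relV m P.R σ x).2 hx
        | exact (inv_rel m P.R σ x).2 hx
    exact hjp (tree_jac t fun i => hmpos (σ i)) (fun j => tmu_bd hm' t j) (rel σ x)
      hinv.2.2.2.2.2
  have hcm01 : ∀ σ : Equiv.Perm (Fin 5), σ 0 = 0 → σ 1 = 1 → ∀ q : Cf 5 d,
      cm (m ∘ σ) 0 1 (q ∘ σ) = cm m 0 1 q := by
    intro σ s0 s1 q
    simp only [cm, Function.comp_apply, s0, s1]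
  rcases hcase with ⟨hV, hVj, hKin⟩ | ⟨i, j, k, hi, hj, hk, hij, hik, hjk, hjk', hV, hVi, hVjk, hw,
    hKin⟩
  · obtain ⟨σ, t, s0, s1, g1, g2⟩ := geoT hmpos hRg h01
    have e0 : Yc (TA t (m ∘ σ)) 0 (rel σ x).1 = x.1 0 - x.1 1 := by
      rw [yc0]
      simp only [rel, Function.comp_apply, s0, s1]
    have e0' : Yc (TA t (m ∘ σ)) 0 (rel σ x).2 = x.2 0 - x.2 1 := by
      rw [yc0]
      simp only [rel, Function.comp_apply, s0, s1]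
    have hvel : ∀ j : Fin 4, 1 ≤ j → ‖Yc (TA t (m ∘ σ)) j (rel σ x).2‖ ≤ 2 * C₁ * b ^ 100 := by
      intro j hj
      rw [mul_assoc]
      refine yc_vel (m := m ∘ σ) (fun i => hmpos (σ i)) t (rel σ x).2 ?_ ?_ j hj
      · have e : cm (m ∘ σ) 0 1 (rel σ x).2 = cm m 0 1 x.2 := hcm01 σ s0 s1 x.2
        rw [e]
        exact hV
      · intro l hl
        refine hVj (σ l) ?_
        have hinj := σ.injective
        by_contra hlt
        push Not at hlt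
        have h01' : ∀ z : Fin 5, z < 2 → z = 0 ∨ z = 1 := by decide
        rcases h01' _ hlt with h | h
        · have h2 : l = 0 := hinj (h.trans s0.symm)
          subst h2
          exact absurd hl (by decide)
        · have h2 : l = 1 := hinj (h.trans s1.symm)
          subst h2
          exact absurd hl (by decide)
    refine ⟨σ, t, ?_, ?_⟩
    · have h4 : 4 * (1 / b ^ 77) ≤ 9 / b ^ 77 := by
        rw [mul_one_div]
        gcongr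
        norm_num
      refine box_of hC₁ hC₂ hCr hb1 (hjac σ t) ?_ ?_ (g1.trans h4) ?_ (g2.trans h4)
        (hvel 2 (by decide)) (hvel 3 (by decide))
      · rw [e0]
        exact hr
      · rw [e0, e0']
        exact hv01
      · refine (hvel 1 le_rfl).trans ?_
        have : 0 ≤ 1 / √‖Yc (TA t (m ∘ σ)) 1 (rel σ x).1‖ := by positivity
        gcongr
        linarith
    · refine hKin.trans ?_
      rw [e0]
      have h5 : 0 ≤ 1 / √‖Yc (TA t (m ∘ σ)) 1 (rel σ x).1‖ := by positivity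
      have h6 : 0 ≤ 1 / √‖x.1 0 - x.1 1‖ := by positivity
      rw [div_eq_mul_one_div]
      exact mul_le_mul (by linarith) (by linarith) h6 (by linarith)
  · obtain ⟨σ, t, s0, s1, s2, s3, s4, ht, g2⟩ := geoP (m := m) hmpos hRg h01 hi hj hk hij hik hjk
      hjk'
    have e0 : Yc (TA t (m ∘ σ)) 0 (rel σ x).1 = x.1 0 - x.1 1 := by
      rw [yc0]
      simp only [rel, Function.comp_apply, s0, s1]
    have e0' : Yc (TA t (m ∘ σ)) 0 (rel σ x).2 = x.2 0 - x.2 1 := by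
      rw [yc0]
      simp only [rel, Function.comp_apply, s0, s1]
    have e1 : ∀ q : Cf 5 d, Yc (TA t (m ∘ σ)) 1 (q ∘ σ) = q j - q k := by
      intro q
      rcases ht with rfl | rfl | rfl
      · rw [ycH1]
        simp only [Function.comp_apply, s2, s3]
      · rw [ycG1]
        simp only [Function.comp_apply, s2, s3]
      · rw [ycL1]
        simp only [Function.comp_apply, s2, s3]
    have e1p : Yc (TA t (m ∘ σ)) 1 (rel σ x).1 = x.1 j - x.1 k := e1 x.1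
    have e1v : Yc (TA t (m ∘ σ)) 1 (rel σ x).2 = x.2 j - x.2 k := e1 x.2
    have hvel : ∀ l : Fin 4, 2 ≤ l → ‖Yc (TA t (m ∘ σ)) l (rel σ x).2‖ ≤ 2 * C₁ * b ^ 100 := by
      intro l hl
      rw [mul_assoc]
      refine yc_vel2 (m := m ∘ σ) (fun i => hmpos (σ i)) t ht (rel σ x).2 ?_ ?_ ?_ l hl
      · have e : cm (m ∘ σ) 0 1 (rel σ x).2 = cm m 0 1 x.2 := hcm01 σ s0 s1 x.2
        rw [e]
        exact hV
      · have e : cm (m ∘ σ) 2 3 (rel σ x).2 = cm m j k x.2 := by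
          simp only [cm, rel, Function.comp_apply, s2, s3]
        rw [e]
        exact hVjk
      · have e : (rel σ x).2 4 = x.2 i := by
          simp only [rel, Function.comp_apply, s4]
        rw [e]
        exact hVi
    refine ⟨σ, t, ?_, ?_⟩
    · have h9 : 9 * (1 / b ^ 77) = 9 / b ^ 77 := by rw [mul_one_div]
      refine box_of hC₁ hC₂ hCr hb1 (hjac σ t) ?_ ?_ ?_ ?_ (g2.trans (le_of_eq h9))
        (hvel 2 le_rfl) (hvel 3 (by decide))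
      · rw [e0]
        exact hr
      · rw [e0, e0']
        exact hv01
      · rw [e1p]
        refine hjk'.trans ?_
        gcongr
        norm_num
      · rw [e1p, e1v]
        refine hw.trans ?_
        have : 0 ≤ b ^ 100 + 1 / √‖x.1 j - x.1 k‖ := by positivity
        gcongr
        linarith
    · refine hKin.trans ?_
      rw [e0, e1p]
      have h6 : 0 ≤ 1 / √‖x.1 0 - x.1 1‖ + 1 / √‖x.1 j - x.1 k‖ := by positivity
      exact mul_le_mul_of_nonneg_right (by linarith) h6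

end NB5
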