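import Pool.Agent.NB5.VS1
import Pool.Agent.NB5.VPos
import Pool.Agent.NB5.VRel
import Pool.Agent.NB5.VYc
import Pool.Agent.NB5.JwL

/-!
# NB5-VTX: exits which are not good are in a box of type X

PLAN. `w = v 2 - V_Q`, `V_Q = cm m 0 1 v`, `X_Q = cm m 0 1 q`, `M_T = m 0 + m 1 + m 2`, `θ = m 2/M_T`,
`θ' = (m 0 + m 1)/M_T`, `cm3 m 0 1 2 v = V_Q + θ w = v 2 - θ' w`. `σ = 1` or `σ = swap 3 4`, trees `C`, `K`:
`Yc 1 = x_2` resp. `w` (`ycC1`, `ycK1`; the masses `0,1,2` do not change), `Yc 2` by `ycC2`, `ycK2`.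
`BoxX`: `s1_factsX`, `yc_vel`, `S1.r_le`, `jpos` (`E = C`, `V = C b^100`: `‖Y0‖‖U0‖ ≤ C √r ≤ C`).
`¬ Good`: one of its fields fails.
* `w_ge` fails: condition `0` (`C ≥ Kg`), tree `C`, `l = 0`. Otherwise `‖w‖ ≥ Kg b^48 ≥ 1` (`Kg ≥ 1`).
* `far3` fails: tree `C`, condition `1`: `‖q 3 - cm3‖ ≤ ‖x_3‖ + ‖θ x_2‖ ≤ 3`; `far4`: the same with
  `swap 3 4`; `far34`: tree `K`.
* `pairs`, `j = 3` (`j = 4`: `swap 3 4`), pair `(Q, 3)`: tree `C`, `U2 + θ U1 = v 3 - cm3 + θ w = v 3 - V_Q`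
  (`l = 1`), `Y2 + θ Y1 = q 3 - X_Q`. First part of `GoodPair` fails: condition `2`. Second part fails:
  `jw Y2 (U2 + θ U1) ≤ jw (Y2 + θ Y1) (U2 + θ U1) + θ ‖Y1‖ ‖U2 + θ U1‖` (`jw` is the norm of the bivector:
  `jw x w = ‖w‖ ‖perp e x‖`, `e = w/‖w‖`, hence subadditive in `x`, and `jw x w ≤ ‖x‖ ‖w‖`,
  `jw (-x) (-w) = jw x w`), and the last term is `≤ C b^4 ≤ C b^97`: condition `3`. Pair `(2, 3)`:
  `U2 - θ' U1 = v 3 - v 2` (`l = 2`), `Y2 - θ' Y1 = q 3 - q 2`, the same.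
* `v34` fails: tree `K`, condition `2`, `l = 0`; `j34`: tree `K`, condition `3`, `l = 0`:
  `b^97 = b^100/b^3`.
-/

open MeasureTheory Set Filter Topology Metric
open scoped NNReal ENNReal RealInnerProductSpace

namespace NB5

open HDN

/-- the three values of the coefficient of `w` -/
noncomputable def Xb (m : Fin 5 → ℝ) : Fin 3 → ℝ :=
  ![0, m 2 / (m 0 + m 1 + m 2), -((m 0 + m 1) / (m 0 + m 1 + m 2))]

section Aux

variable {d : ℕ}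

private theorem VTX_cm3a {m : Fin 5 → ℝ} (hm : ∀ i, 0 < m i) (q : Cf 5 d) :
    q 3 - cm3 m 0 1 2 q + (m 2 / (m 0 + m 1 + m 2)) • (q 2 - cm m 0 1 q) = q 3 - cm m 0 1 q := by
  have h0 := hm 0
  have h1 := hm 1
  have h2 := hm 2
  unfold cm3 cm
  match_scalars <;> field_simp <;> ring

private theorem VTX_cm3b {m : Fin 5 → ℝ} (hm : ∀ i, 0 < m i) (q : Cf 5 d) :
    q 3 - cm3 m 0 1 2 q + (-((m 0 + m 1) / (m 0 + m 1 + m 2))) • (q 2 - cm m 0 1 q) =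
      q 3 - q 2 := by
  have h0 := hm 0
  have h1 := hm 1
  have h2 := hm 2
  unfold cm3 cm
  match_scalars <;> field_simp <;> ring

private theorem VTX_box_mono {A : Fin 4 → Fin 5 → ℝ} {C C' b : ℝ} {x : St d} (hb : 0 < b)
    (hC : C ≤ C') (h : BoxX A C b x) : BoxX A C' b x := by
  obtain ⟨h1, h2, h3, h4, h5, h6, h7, h8⟩ := h
  have hb200 : 0 < b ^ 200 := by positivity
  have hb100 : 0 < b ^ 100 := by positivity
  have e : C * b ^ 100 ≤ C' * b ^ 100 := mul_le_mul_of_nonneg_right hC hb100.le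
  exact ⟨h1.trans (div_le_div_of_nonneg_right hC hb200.le),
    h2.trans (div_le_div_of_nonneg_right hC (Real.sqrt_nonneg _)), h3, h4.trans e, h5.trans e,
    h6.trans e, h7.trans e, h8.trans e⟩

private theorem VTX_pairv {b Kg C0 β : ℝ} (hb : 1 ≤ b) (hKg : 1 ≤ Kg) (hC0 : 1 ≤ C0)
    {Y1 U1 Y2 U2 X V Y U : Sp d} (hβ : |β| ≤ 1)
    (hY : Y2 + β • Y1 = Y - X) (hU : U2 + β • U1 = U - V) (hY1 : ‖Y1‖ ≤ 2 / b ^ 96)
    (hUV : ‖U - V‖ ≤ 2 * C0 * b ^ 100) (hng : ¬ GoodPair Kg b ‖U1‖ X V Y U) :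
    ‖U2 + β • U1‖ ≤ (Kg + 4 * C0) * (b ^ 10 + b ^ 96 / ‖U1‖) ∨
      jw Y2 (U2 + β • U1) ≤ (Kg + 4 * C0) * (b ^ 100 * (b ^ 96 / ‖U1‖ + 1 / b ^ 3)) := by
  have hb0 : 0 < b := by linarith
  have hq : 0 ≤ b ^ 96 / ‖U1‖ := by positivity
  unfold GoodPair at hng
  rw [not_and_or, not_le, not_le] at hng
  rcases hng with h | h
  · left
    rw [hU, norm_sub_rev]
    refine h.le.trans ?_
    have h1 : 0 ≤ b ^ 10 := by positivity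
    have h2 : Kg * b ^ 96 / ‖U1‖ = Kg * (b ^ 96 / ‖U1‖) := by ring
    rw [h2]
    nlinarith [mul_nonneg (show (0 : ℝ) ≤ Kg - 1 by linarith) h1,
      mul_nonneg (show (0 : ℝ) ≤ C0 by linarith) h1, mul_nonneg (show (0 : ℝ) ≤ C0 by linarith) hq]
  · right
    have h1 : jw (X - Y) (V - U) = jw (Y2 + β • Y1) (U2 + β • U1) := by
      rw [hY, hU, ← jw_neg_left, ← jw_neg_right, neg_sub, neg_sub]
    rw [h1] at h
    have h2 : Y2 = (Y2 + β • Y1) + (-(β • Y1)) := by abel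
    have h3 : jw Y2 (U2 + β • U1) ≤ jw (Y2 + β • Y1) (U2 + β • U1)
        + jw (-(β • Y1)) (U2 + β • U1) := by
      conv_lhs => rw [h2]
      exact jw_add_left_le _ _ _
    have h4 : jw (-(β • Y1)) (U2 + β • U1) ≤ 4 * C0 * (b ^ 100 * (1 / b ^ 3)) := by
      refine (jw_le _ _).trans ?_
      rw [norm_neg, norm_smul, Real.norm_eq_abs, hU]
      have h5 : |β| * ‖Y1‖ ≤ 2 / b ^ 96 := by
        calc |β| * ‖Y1‖ ≤ 1 * (2 / b ^ 96) :=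
              mul_le_mul hβ hY1 (norm_nonneg _) zero_le_one
          _ = 2 / b ^ 96 := one_mul _
      calc |β| * ‖Y1‖ * ‖U - V‖ ≤ (2 / b ^ 96) * (2 * C0 * b ^ 100) :=
            mul_le_mul h5 hUV (norm_nonneg _) (by positivity)
        _ = 4 * C0 * b ^ 4 := by
            field_simp
            ring
        _ ≤ 4 * C0 * b ^ 97 := by
            refine mul_le_mul_of_nonneg_left (pow_le_pow_right₀ hb (by norm_num)) (by linarith)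
        _ = 4 * C0 * (b ^ 100 * (1 / b ^ 3)) := by
            field_simp
    have h6 : 0 ≤ C0 * (b ^ 100 * (b ^ 96 / ‖U1‖)) :=
      mul_nonneg (by linarith) (mul_nonneg (pow_nonneg hb0.le 100) hq)
    have h7 : (Kg + 4 * C0) * (b ^ 100 * (b ^ 96 / ‖U1‖ + 1 / b ^ 3))
        = Kg * b ^ 100 * (b ^ 96 / ‖U1‖ + 1 / b ^ 3) + 4 * (C0 * (b ^ 100 * (b ^ 96 / ‖U1‖)))
          + 4 * C0 * (b ^ 100 * (1 / b ^ 3)) := by ring
    rw [h7]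
    linarith

private theorem VTX_theta {m : Fin 5 → ℝ} (hm : ∀ i, 0 < m i) :
    |m 2 / (m 0 + m 1 + m 2)| ≤ 1 ∧ |(-((m 0 + m 1) / (m 0 + m 1 + m 2)))| ≤ 1 := by
  have h0 := hm 0
  have h1 := hm 1
  have h2 := hm 2
  constructor
  · rw [abs_of_nonneg (by positivity), div_le_one (by positivity)]
    linarith
  · rw [abs_neg, abs_of_nonneg (by positivity), div_le_one (by positivity)]
    linarith

private theorem VTX_fin4 : ∀ j : Fin 4, ¬ j = 0 → 1 ≤ j := by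
  decide

private theorem VTX_box (P : Par) : ∃ C0 C K : ℝ, 1 ≤ C0 ∧ 1 ≤ C ∧ 1 ≤ K ∧
    ∀ {d : ℕ} (m : Fin 5 → ℝ) (b : ℝ) (x : St d), Mb P.M m → K ≤ b → x ∈ Inv m P.R →
    S1 P b m x → ‖x.1 2 - cm m 0 1 x.1‖ ≤ 2 / b ^ 96 →
    ‖cm m 0 1 x.2‖ ≤ C0 * b ^ 100 ∧ (∀ j : Fin 5, 2 ≤ j → ‖x.2 j‖ ≤ C0 * b ^ 100) ∧
    ∀ σ : Equiv.Perm (Fin 5), σ 0 = 0 → σ 1 = 1 → σ 2 = 2 → ∀ t : Tree, (t = .C ∨ t = .K) →
      Yc (TA t (m ∘ σ)) 1 (rel σ x).1 = x.1 2 - cm m 0 1 x.1 ∧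
      Yc (TA t (m ∘ σ)) 1 (rel σ x).2 = x.2 2 - cm m 0 1 x.2 ∧
      BoxX (TA t (m ∘ σ)) C b (rel σ x) := by
  obtain ⟨C0, K, hC0, hK, hfacts⟩ := s1_factsX P
  have hM0 : 0 < P.M := lt_of_lt_of_le one_pos P.hM
  obtain ⟨C1, hC1, hjpos⟩ := jpos (R := P.R) (l := 1 / (2 * P.M)) (u := 5 * P.M)
    (zero_le_one.trans P.hR) (by positivity) (by positivity)
  have hCr : 0 ≤ P.Cr := by
    unfold Par.Cr
    positivity
  set E : ℝ := C0 * (1 + P.Cr) with hE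
  have hE1 : 1 ≤ E := by
    have : 1 * 1 ≤ C0 * (1 + P.Cr) := mul_le_mul hC0 (by linarith) zero_le_one (by linarith)
    linarith
  refine ⟨C0, P.Cr + 2 * C0 + C1 * (2 * C0 + √E), K, hC0, ?_, hK, ?_⟩
  · have : 0 ≤ C1 * (2 * C0 + √E) := by positivity
    linarith
  intro d m b x hm hb hx hS hx2
  obtain ⟨hv0, hvc, hvj⟩ := hfacts m b x hm hb hx hS hx2
  have hb1 : 1 ≤ b := hK.trans hb
  have hb0 : 0 < b := by linarith
  have hb100 : 1 ≤ b ^ 100 := one_le_pow₀ hb1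
  have hb200 : 1 ≤ b ^ 200 := one_le_pow₀ hb1
  refine ⟨hvc, hvj, ?_⟩
  intro σ s0 s1 s2 t ht
  have hmpos : ∀ i, 0 < m i := fun i => lt_of_lt_of_le (by positivity) (hm.2 i).1
  have hmpos' : ∀ i, 0 < (m ∘ σ) i := fun i => hmpos (σ i)
  have hcm : ∀ q : Cf 5 d, cm (m ∘ σ) 0 1 (q ∘ σ) = cm m 0 1 q := by
    intro q
    unfold cm
    simp only [Function.comp_apply, s0, s1]
  have hq2 : ∀ q : Cf 5 d, (q ∘ σ) 2 = q 2 := fun q => by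
    rw [Function.comp_apply, s2]
  have hY1 : ∀ q : Cf 5 d, Yc (TA t (m ∘ σ)) 1 (q ∘ σ) = q 2 - cm m 0 1 q := by
    intro q
    rcases ht with rfl | rfl
    · rw [ycC1 hmpos', hcm, hq2]
    · rw [ycK1 hmpos', hcm, hq2]
  have hY0 : ∀ q : Cf 5 d, Yc (TA t (m ∘ σ)) 0 (q ∘ σ) = q 0 - q 1 := by
    intro q
    rw [yc0]
    simp only [Function.comp_apply, s0, s1]
  have hx' : rel σ x ∈ Inv (m ∘ σ) P.R := (inv_relV m P.R σ x).2 hx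
  have hvel : ∀ j : Fin 4, 1 ≤ j → ‖Yc (TA t (m ∘ σ)) j (rel σ x).2‖ ≤ 2 * (C0 * b ^ 100) := by
    intro j hj
    refine yc_vel hmpos' t _ ?_ ?_ j hj
    · have h1 : cm (m ∘ σ) 0 1 (rel σ x).2 = cm m 0 1 x.2 := hcm x.2
      rw [h1]
      exact hvc
    · intro k hk
      show ‖x.2 (σ k)‖ ≤ C0 * b ^ 100
      apply hvj
      by_contra hcon
      have h3 : σ k = 0 ∨ σ k = 1 := by
        have h4 : σ k < 2 := not_le.1 hcon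
        revert h4
        generalize σ k = z
        revert z
        decide
      rcases h3 with h3 | h3
      · have h4 : k = 0 := σ.injective (h3.trans s0.symm)
        rw [h4] at hk
        exact absurd hk (by decide)
      · have h4 : k = 1 := σ.injective (h3.trans s1.symm)
        rw [h4] at hk
        exact absurd hk (by decide)
  have e01 : Yc (TA t (m ∘ σ)) 0 (rel σ x).1 = x.1 0 - x.1 1 := hY0 x.1
  have e02 : Yc (TA t (m ∘ σ)) 0 (rel σ x).2 = x.2 0 - x.2 1 := hY0 x.2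
  have e11 : Yc (TA t (m ∘ σ)) 1 (rel σ x).1 = x.1 2 - cm m 0 1 x.1 := hY1 x.1
  have e12 : Yc (TA t (m ∘ σ)) 1 (rel σ x).2 = x.2 2 - cm m 0 1 x.2 := hY1 x.2
  have hrle : ‖x.1 0 - x.1 1‖ ≤ P.Cr := by
    refine hS.r_le.trans (div_le_self hCr hb200)
  have hpos : ∀ j, ‖Yc (TA t (m ∘ σ)) j (rel σ x).1‖ ≤ C1 * (2 * C0 * b ^ 100 + √E) := by
    refine hjpos (tree_jac t hmpos') (fun j => tmu_bd (mb_perm hm σ) t j) (rel σ x)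
      hx'.2.2.2.2.2 E (2 * C0 * b ^ 100) hE1 (by positivity) ?_
    intro j
    have hnn : 0 ≤ 2 * C0 * b ^ 100 * ‖Yc (TA t (m ∘ σ)) j (rel σ x).1‖ := by positivity
    by_cases hj : j = 0
    · rw [hj] at hnn ⊢
      rw [e01] at hnn ⊢
      rw [e02]
      have h1 : ‖x.1 0 - x.1 1‖ * ‖x.2 0 - x.2 1‖ ≤ C0 * √‖x.1 0 - x.1 1‖ := by
        rcases (norm_nonneg (x.1 0 - x.1 1)).eq_or_lt with h | h
        · rw [← h, zero_mul, Real.sqrt_zero, mul_zero]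
        · have h2 := mul_le_mul_of_nonneg_left hv0 h.le
          refine h2.trans (le_of_eq ?_)
          have h3 : √‖x.1 0 - x.1 1‖ * √‖x.1 0 - x.1 1‖ = ‖x.1 0 - x.1 1‖ :=
            Real.mul_self_sqrt h.le
          have h4 : √‖x.1 0 - x.1 1‖ ≠ 0 := (Real.sqrt_pos.2 h).ne'
          conv_lhs => rw [← h3]
          rw [h3]
          rw [mul_div_assoc', div_eq_iff h4]
          linear_combination -C0 * h3
      have h5 : √‖x.1 0 - x.1 1‖ ≤ 1 + P.Cr := by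
        rw [Real.sqrt_le_left (by linarith)]
        nlinarith
      have h6 : C0 * √‖x.1 0 - x.1 1‖ ≤ E := mul_le_mul_of_nonneg_left h5 (by linarith)
      linarith
    · have hj1 : 1 ≤ j := VTX_fin4 j hj
      have h1 := mul_le_mul_of_nonneg_left (hvel j hj1)
        (norm_nonneg (Yc (TA t (m ∘ σ)) j (rel σ x).1))
      have h2 : ‖Yc (TA t (m ∘ σ)) j (rel σ x).1‖ * (2 * (C0 * b ^ 100))
          = 2 * C0 * b ^ 100 * ‖Yc (TA t (m ∘ σ)) j (rel σ x).1‖ := by ring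
      linarith
  have hsE : 0 ≤ √E := Real.sqrt_nonneg _
  have hpos' : ∀ j, ‖Yc (TA t (m ∘ σ)) j (rel σ x).1‖
      ≤ (P.Cr + 2 * C0 + C1 * (2 * C0 + √E)) * b ^ 100 := by
    intro j
    refine (hpos j).trans ?_
    have h1 : √E ≤ √E * b ^ 100 := le_mul_of_one_le_right hsE hb100
    have h2 : C1 * (2 * C0 * b ^ 100 + √E) ≤ C1 * ((2 * C0 + √E) * b ^ 100) := by
      refine mul_le_mul_of_nonneg_left ?_ (by linarith)
      linarith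
    have h3 : 0 ≤ (P.Cr + 2 * C0) * b ^ 100 := by positivity
    linarith
  have hvel' : ∀ j : Fin 4, 1 ≤ j → ‖Yc (TA t (m ∘ σ)) j (rel σ x).2‖
      ≤ (P.Cr + 2 * C0 + C1 * (2 * C0 + √E)) * b ^ 100 := by
    intro j hj
    refine (hvel j hj).trans ?_
    have h3 : 0 ≤ (P.Cr + C1 * (2 * C0 + √E)) * b ^ 100 := by positivity
    linarith
  have hCC : 0 ≤ C1 * (2 * C0 + √E) := by positivity
  refine ⟨e11, e12, ?_, ?_, ?_, hvel' 1 le_rfl, hpos' 2, hvel' 2 (by decide), hpos' 3,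
    hvel' 3 (by decide)⟩
  · rw [e01]
    exact hS.r_le.trans (div_le_div_of_nonneg_right (by linarith) (by positivity))
  · rw [e01, e02]
    exact hv0.trans (div_le_div_of_nonneg_right (by linarith) (Real.sqrt_nonneg _))
  · rw [e11]
    exact hx2

end Aux

theorem tx (P : Par) : ∃ C K : ℝ, 1 ≤ C ∧ 1 ≤ K ∧
    ∀ {d : ℕ} (m : Fin 5 → ℝ) (b : ℝ) (x : St d), Mb P.M m → K ≤ b → x ∈ Inv m P.R →
    S1 P b m x → ‖x.1 2 - cm m 0 1 x.1‖ ≤ 2 / b ^ 96 → ¬ Good P b m x →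
    ∃ (σ : Equiv.Perm (Fin 5)) (t : Tree) (i : Fin 4) (l : Fin 3),
      Yc (TA t (m ∘ σ)) 1 (rel σ x).1 = x.1 2 - cm m 0 1 x.1 ∧
      Yc (TA t (m ∘ σ)) 1 (rel σ x).2 = x.2 2 - cm m 0 1 x.2 ∧
      BoxX (TA t (m ∘ σ)) C b (rel σ x) ∧
      CondX i (TA t (m ∘ σ)) C (Xb (m ∘ σ) l) b (rel σ x) := by
  obtain ⟨C0, C1, K, hC0, hC1, hK, hbox⟩ := VTX_box P
  have hKg : 1 ≤ P.Kg := by
    refine le_trans ?_ P.hK
    have h1 : (1 : ℝ) ≤ P.M ^ 6 := one_le_pow₀ P.hM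
    linarith
  refine ⟨C1 + P.Kg + 4 * C0, K, by linarith, hK, ?_⟩
  intro d m b x hm hb hx hS hx2 hng
  have hM0 : 0 < P.M := lt_of_lt_of_le one_pos P.hM
  have hb1 : 1 ≤ b := hK.trans hb
  have hb0 : 0 < b := by linarith
  obtain ⟨hvc, hvj, hB⟩ := hbox m b x hm hb hx hS hx2
  have hmpos : ∀ i, 0 < m i := fun i => lt_of_lt_of_le (by positivity) (hm.2 i).1
  -- it suffices to find a permutation, a tree and a condition
  have main : ∀ σ : Equiv.Perm (Fin 5), σ 0 = 0 → σ 1 = 1 → σ 2 = 2 → ∀ t : Tree,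
      (t = .C ∨ t = .K) → ∀ (i : Fin 4) (l : Fin 3),
      CondX i (TA t (m ∘ σ)) (C1 + P.Kg + 4 * C0) (Xb (m ∘ σ) l) b (rel σ x) →
      ∃ (σ : Equiv.Perm (Fin 5)) (t : Tree) (i : Fin 4) (l : Fin 3),
      Yc (TA t (m ∘ σ)) 1 (rel σ x).1 = x.1 2 - cm m 0 1 x.1 ∧
      Yc (TA t (m ∘ σ)) 1 (rel σ x).2 = x.2 2 - cm m 0 1 x.2 ∧
      BoxX (TA t (m ∘ σ)) (C1 + P.Kg + 4 * C0) b (rel σ x) ∧
      CondX i (TA t (m ∘ σ)) (C1 + P.Kg + 4 * C0) (Xb (m ∘ σ) l) b (rel σ x) := by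
    intro σ s0 s1 s2 t ht i l hc
    obtain ⟨h1, h2, h3⟩ := hB σ s0 s1 s2 t ht
    exact ⟨σ, t, i, l, h1, h2, VTX_box_mono hb0 (by linarith) h3, hc⟩
  have one0 : (1 : Equiv.Perm (Fin 5)) 0 = 0 := rfl
  have one1 : (1 : Equiv.Perm (Fin 5)) 1 = 1 := rfl
  have one2 : (1 : Equiv.Perm (Fin 5)) 2 = 2 := rfl
  by_cases hw : P.Kg * b ^ 48 ≤ ‖x.2 2 - cm m 0 1 x.2‖
  swap
  · refine main 1 one0 one1 one2 .C (Or.inl rfl) 0 0 ?_
    show ‖Yc (TA .C (m ∘ (1 : Equiv.Perm (Fin 5)))) 1 (rel 1 x).2‖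
      ≤ (C1 + P.Kg + 4 * C0) * b ^ 48
    rw [(hB 1 one0 one1 one2 .C (Or.inl rfl)).2.1]
    refine (not_le.1 hw).le.trans (mul_le_mul_of_nonneg_right (by linarith) (by positivity))
  have hw1 : 1 ≤ ‖x.2 2 - cm m 0 1 x.2‖ := by
    refine le_trans ?_ hw
    have h1 : 1 ≤ b ^ 48 := one_le_pow₀ hb1
    calc (1 : ℝ) = 1 * 1 := (one_mul 1).symm
      _ ≤ P.Kg * b ^ 48 := mul_le_mul hKg h1 zero_le_one (by linarith)
  have hq : 0 ≤ b ^ 96 / ‖x.2 2 - cm m 0 1 x.2‖ := by positivity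
  -- the pairs with the body `σ 3`
  have hcmσ : ∀ σ : Equiv.Perm (Fin 5), σ 0 = 0 → σ 1 = 1 → σ 2 = 2 → ∀ q : Cf 5 d,
      cm (m ∘ σ) 0 1 (q ∘ σ) = cm m 0 1 q := by
    intro σ s0 s1 s2 q
    unfold cm
    simp only [Function.comp_apply, s0, s1]
  have hq2σ : ∀ σ : Equiv.Perm (Fin 5), σ 0 = 0 → σ 1 = 1 → σ 2 = 2 → ∀ q : Cf 5 d,
      (q ∘ σ) 2 = q 2 := fun σ _ _ s2 q => by
    rw [Function.comp_apply, s2]
  have hfar : ∀ σ : Equiv.Perm (Fin 5), σ 0 = 0 → σ 1 = 1 → σ 2 = 2 →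
      ‖x.1 (σ 3) - cm m 0 1 x.1‖ < 1 →
      CondX 1 (TA .C (m ∘ σ)) (C1 + P.Kg + 4 * C0) (Xb (m ∘ σ) 0) b (rel σ x) := by
    intro σ s0 s1 s2 h
    show 1 ≤ ‖Yc (TA .C (m ∘ σ)) 1 (rel σ x).2‖ ∧
      ‖Yc (TA .C (m ∘ σ)) 2 (rel σ x).1‖ ≤ C1 + P.Kg + 4 * C0
    refine ⟨?_, ?_⟩
    · rw [(hB σ s0 s1 s2 .C (Or.inl rfl)).2.1]
      exact hw1
    · have hmpos' : ∀ i, 0 < (m ∘ σ) i := fun i => hmpos (σ i)
      rw [ycC2 hmpos']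
      have h1 := VTX_cm3a hmpos' (rel σ x).1
      have h2 : cm (m ∘ σ) 0 1 (rel σ x).1 = cm m 0 1 x.1 := hcmσ σ s0 s1 s2 x.1
      have h3 : (rel σ x).1 2 = x.1 2 := hq2σ σ s0 s1 s2 x.1
      have h4 : (rel σ x).1 3 = x.1 (σ 3) := rfl
      rw [h2, h3, h4] at h1
      have h5 : (rel σ x).1 3 - cm3 (m ∘ σ) 0 1 2 (rel σ x).1
          = (x.1 (σ 3) - cm m 0 1 x.1)
            - ((m ∘ σ) 2 / ((m ∘ σ) 0 + (m ∘ σ) 1 + (m ∘ σ) 2)) • (x.1 2 - cm m 0 1 x.1) := by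
        rw [h4, ← h1]
        abel
      rw [h5]
      refine (norm_sub_le _ _).trans ?_
      rw [norm_smul, Real.norm_eq_abs]
      have h6 : ‖x.1 2 - cm m 0 1 x.1‖ ≤ 2 :=
        hx2.trans (div_le_self (by norm_num) (one_le_pow₀ hb1))
      have h7 := mul_le_mul (VTX_theta hmpos').1 h6 (norm_nonneg _) zero_le_one
      linarith
  have hpair : ∀ σ : Equiv.Perm (Fin 5), σ 0 = 0 → σ 1 = 1 → σ 2 = 2 → 2 ≤ σ 3 →
      ¬ (GoodPair P.Kg b ‖x.2 2 - cm m 0 1 x.2‖ (cm m 0 1 x.1) (cm m 0 1 x.2) (x.1 (σ 3))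
          (x.2 (σ 3)) ∧
        GoodPair P.Kg b ‖x.2 2 - cm m 0 1 x.2‖ (x.1 2) (x.2 2) (x.1 (σ 3)) (x.2 (σ 3))) →
      ∃ (i : Fin 4) (l : Fin 3),
        CondX i (TA .C (m ∘ σ)) (C1 + P.Kg + 4 * C0) (Xb (m ∘ σ) l) b (rel σ x) := by
    intro σ s0 s1 s2 s3 h
    have hmpos' : ∀ i, 0 < (m ∘ σ) i := fun i => hmpos (σ i)
    obtain ⟨e11, e12, _⟩ := hB σ s0 s1 s2 .C (Or.inl rfl)
    have e21 : Yc (TA .C (m ∘ σ)) 2 (rel σ x).1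
        = (rel σ x).1 3 - cm3 (m ∘ σ) 0 1 2 (rel σ x).1 := ycC2 hmpos' _
    have e22 : Yc (TA .C (m ∘ σ)) 2 (rel σ x).2
        = (rel σ x).2 3 - cm3 (m ∘ σ) 0 1 2 (rel σ x).2 := ycC2 hmpos' _
    have hc1 : cm (m ∘ σ) 0 1 (rel σ x).1 = cm m 0 1 x.1 := hcmσ σ s0 s1 s2 x.1
    have hc2 : cm (m ∘ σ) 0 1 (rel σ x).2 = cm m 0 1 x.2 := hcmσ σ s0 s1 s2 x.2
    have h21 : (rel σ x).1 2 = x.1 2 := hq2σ σ s0 s1 s2 x.1
    have h22 : (rel σ x).2 2 = x.2 2 := hq2σ σ s0 s1 s2 x.2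
    have h31 : (rel σ x).1 3 = x.1 (σ 3) := rfl
    have h32 : (rel σ x).2 3 = x.2 (σ 3) := rfl
    have key : ∀ (l : Fin 3) (X V : Sp d), |Xb (m ∘ σ) l| ≤ 1 →
        Yc (TA .C (m ∘ σ)) 2 (rel σ x).1 + Xb (m ∘ σ) l • (x.1 2 - cm m 0 1 x.1)
          = x.1 (σ 3) - X →
        Yc (TA .C (m ∘ σ)) 2 (rel σ x).2 + Xb (m ∘ σ) l • (x.2 2 - cm m 0 1 x.2)
          = x.2 (σ 3) - V → ‖x.2 (σ 3) - V‖ ≤ 2 * C0 * b ^ 100 →
        ¬ GoodPair P.Kg b ‖x.2 2 - cm m 0 1 x.2‖ X V (x.1 (σ 3)) (x.2 (σ 3)) →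
        ∃ (i : Fin 4) (l : Fin 3),
          CondX i (TA .C (m ∘ σ)) (C1 + P.Kg + 4 * C0) (Xb (m ∘ σ) l) b (rel σ x) := by
      intro l X V hβ hY hU hUV hg
      rcases VTX_pairv hb1 hKg hC0 hβ hY hU hx2 hUV hg with h | h
      · refine ⟨2, l, ?_⟩
        show 1 ≤ ‖Yc (TA .C (m ∘ σ)) 1 (rel σ x).2‖ ∧
          ‖Yc (TA .C (m ∘ σ)) 2 (rel σ x).2 + Xb (m ∘ σ) l • Yc (TA .C (m ∘ σ)) 1 (rel σ x).2‖
          ≤ (C1 + P.Kg + 4 * C0) * (b ^ 10 + b ^ 96 / ‖Yc (TA .C (m ∘ σ)) 1 (rel σ x).2‖)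
        rw [e12]
        exact ⟨hw1, h.trans (mul_le_mul_of_nonneg_right (by linarith) (by positivity))⟩
      · refine ⟨3, l, ?_⟩
        show 1 ≤ ‖Yc (TA .C (m ∘ σ)) 1 (rel σ x).2‖ ∧
          jw (Yc (TA .C (m ∘ σ)) 2 (rel σ x).1)
            (Yc (TA .C (m ∘ σ)) 2 (rel σ x).2
              + Xb (m ∘ σ) l • Yc (TA .C (m ∘ σ)) 1 (rel σ x).2)
          ≤ (C1 + P.Kg + 4 * C0) * (b ^ 100 * (b ^ 96 /
            ‖Yc (TA .C (m ∘ σ)) 1 (rel σ x).2‖ + 1 / b ^ 3))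
        rw [e12]
        exact ⟨hw1, h.trans (mul_le_mul_of_nonneg_right (by linarith) (by positivity))⟩
    have hσ3 := hvj (σ 3) s3
    rw [not_and_or] at h
    rcases h with h | h
    · refine key 1 (cm m 0 1 x.1) (cm m 0 1 x.2) (VTX_theta hmpos').1 ?_ ?_ ?_ h
      · have h1 := VTX_cm3a hmpos' (rel σ x).1
        rw [hc1, h21] at h1
        rw [e21]
        exact h1
      · have h1 := VTX_cm3a hmpos' (rel σ x).2
        rw [hc2, h22] at h1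
        rw [e22]
        exact h1
      · refine (norm_sub_le _ _).trans ?_
        linarith
    · refine key 2 (x.1 2) (x.2 2) (VTX_theta hmpos').2 ?_ ?_ ?_ h
      · have h1 := VTX_cm3b hmpos' (rel σ x).1
        rw [hc1, h21] at h1
        rw [e21]
        exact h1
      · have h1 := VTX_cm3b hmpos' (rel σ x).2
        rw [hc2, h22] at h1
        rw [e22]
        exact h1
      · refine (norm_sub_le _ _).trans ?_
        have h1 := hvj 2 le_rfl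
        linarith
  have sw0 : Equiv.swap (3 : Fin 5) 4 0 = 0 := by decide
  have sw1 : Equiv.swap (3 : Fin 5) 4 1 = 1 := by decide
  have sw2 : Equiv.swap (3 : Fin 5) 4 2 = 2 := by decide
  have sw3 : Equiv.swap (3 : Fin 5) 4 3 = 4 := by decide
  by_cases f3 : 1 ≤ ‖x.1 3 - cm m 0 1 x.1‖
  swap
  · exact main 1 one0 one1 one2 .C (Or.inl rfl) 1 0 (hfar 1 one0 one1 one2 (not_le.1 f3))
  by_cases f4 : 1 ≤ ‖x.1 4 - cm m 0 1 x.1‖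
  swap
  · refine main (Equiv.swap 3 4) sw0 sw1 sw2 .C (Or.inl rfl) 1 0
      (hfar (Equiv.swap 3 4) sw0 sw1 sw2 ?_)
    rw [sw3]
    exact not_le.1 f4
  have hmpos1 : ∀ i, 0 < (m ∘ (1 : Equiv.Perm (Fin 5))) i := fun i => hmpos i
  have eK1 := (hB 1 one0 one1 one2 .K (Or.inr rfl)).2.1
  have eK21 : Yc (TA .K (m ∘ (1 : Equiv.Perm (Fin 5)))) 2 (rel 1 x).1 = x.1 3 - x.1 4 :=
    ycK2 _ _
  have eK22 : Yc (TA .K (m ∘ (1 : Equiv.Perm (Fin 5)))) 2 (rel 1 x).2 = x.2 3 - x.2 4 :=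
    ycK2 _ _
  by_cases f34 : 1 ≤ ‖x.1 3 - x.1 4‖
  swap
  · refine main 1 one0 one1 one2 .K (Or.inr rfl) 1 0 ?_
    show 1 ≤ ‖Yc (TA .K (m ∘ (1 : Equiv.Perm (Fin 5)))) 1 (rel 1 x).2‖ ∧
      ‖Yc (TA .K (m ∘ (1 : Equiv.Perm (Fin 5)))) 2 (rel 1 x).1‖ ≤ C1 + P.Kg + 4 * C0
    rw [eK1, eK21]
    exact ⟨hw1, (not_le.1 f34).le.trans (by linarith)⟩
  by_cases v34 : b ^ 10 ≤ ‖x.2 3 - x.2 4‖
  swap
  · refine main 1 one0 one1 one2 .K (Or.inr rfl) 2 0 ?_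
    show 1 ≤ ‖Yc (TA .K (m ∘ (1 : Equiv.Perm (Fin 5)))) 1 (rel 1 x).2‖ ∧
      ‖Yc (TA .K (m ∘ (1 : Equiv.Perm (Fin 5)))) 2 (rel 1 x).2
        + (0 : ℝ) • Yc (TA .K (m ∘ (1 : Equiv.Perm (Fin 5)))) 1 (rel 1 x).2‖
      ≤ (C1 + P.Kg + 4 * C0) * (b ^ 10 + b ^ 96 /
        ‖Yc (TA .K (m ∘ (1 : Equiv.Perm (Fin 5)))) 1 (rel 1 x).2‖)
    rw [eK1, eK22, zero_smul, add_zero]
    refine ⟨hw1, (not_le.1 v34).le.trans ?_⟩
    have h1 : 0 ≤ b ^ 10 := by positivity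
    have h2 : 1 ≤ C1 + P.Kg + 4 * C0 := by linarith
    calc b ^ 10 ≤ 1 * (b ^ 10 + b ^ 96 / ‖x.2 2 - cm m 0 1 x.2‖) := by linarith
      _ ≤ _ := mul_le_mul_of_nonneg_right h2 (by linarith)
  by_cases j34 : b ^ 97 ≤ jw (x.1 3 - x.1 4) (x.2 3 - x.2 4)
  swap
  · refine main 1 one0 one1 one2 .K (Or.inr rfl) 3 0 ?_
    show 1 ≤ ‖Yc (TA .K (m ∘ (1 : Equiv.Perm (Fin 5)))) 1 (rel 1 x).2‖ ∧
      jw (Yc (TA .K (m ∘ (1 : Equiv.Perm (Fin 5)))) 2 (rel 1 x).1)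
        (Yc (TA .K (m ∘ (1 : Equiv.Perm (Fin 5)))) 2 (rel 1 x).2
        + (0 : ℝ) • Yc (TA .K (m ∘ (1 : Equiv.Perm (Fin 5)))) 1 (rel 1 x).2)
      ≤ (C1 + P.Kg + 4 * C0) * (b ^ 100 * (b ^ 96 /
        ‖Yc (TA .K (m ∘ (1 : Equiv.Perm (Fin 5)))) 1 (rel 1 x).2‖ + 1 / b ^ 3))
    rw [eK1, eK21, eK22, zero_smul, add_zero]
    refine ⟨hw1, (not_le.1 j34).le.trans ?_⟩
    have h2 : 1 ≤ C1 + P.Kg + 4 * C0 := by linarith
    have h3 : b ^ 97 = b ^ 100 * (1 / b ^ 3) := by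
      field_simp
    have h4 : 0 ≤ b ^ 100 * (b ^ 96 / ‖x.2 2 - cm m 0 1 x.2‖) := by positivity
    have h5 : 0 ≤ b ^ 100 * (b ^ 96 / ‖x.2 2 - cm m 0 1 x.2‖ + 1 / b ^ 3) := by positivity
    calc b ^ 97 ≤ 1 * (b ^ 100 * (b ^ 96 / ‖x.2 2 - cm m 0 1 x.2‖ + 1 / b ^ 3)) := by
          rw [h3]
          linarith
      _ ≤ _ := mul_le_mul_of_nonneg_right h2 h5
  by_cases hp3 : GoodPair P.Kg b ‖x.2 2 - cm m 0 1 x.2‖ (cm m 0 1 x.1) (cm m 0 1 x.2) (x.1 3)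
      (x.2 3) ∧ GoodPair P.Kg b ‖x.2 2 - cm m 0 1 x.2‖ (x.1 2) (x.2 2) (x.1 3) (x.2 3)
  swap
  · obtain ⟨i, l, h⟩ := hpair 1 one0 one1 one2 (by decide) hp3
    exact main 1 one0 one1 one2 .C (Or.inl rfl) i l h
  by_cases hp4 : GoodPair P.Kg b ‖x.2 2 - cm m 0 1 x.2‖ (cm m 0 1 x.1) (cm m 0 1 x.2) (x.1 4)
      (x.2 4) ∧ GoodPair P.Kg b ‖x.2 2 - cm m 0 1 x.2‖ (x.1 2) (x.2 2) (x.1 4) (x.2 4)
  swap
  · obtain ⟨i, l, h⟩ := hpair (Equiv.swap 3 4) sw0 sw1 sw2 (by rw [sw3]; decide)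
      (by rw [sw3]; exact hp4)
    exact main (Equiv.swap 3 4) sw0 sw1 sw2 .C (Or.inl rfl) i l h
  refine absurd ⟨hw, f3, f4, f34, ?_, v34, j34⟩ hng
  intro j hj
  have h : j = 3 ∨ j = 4 := by
    revert hj
    revert j
    decide
  rcases h with rfl | rfl
  · exact hp3
  · exact hp4

end NB5
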