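import Pool.Agent.NB5.VSt
import Pool.Agent.NB5.VPhi

/-!
# NB5-VXM: master inequality for the exit integrals

PLAN. `smaster` with `a y = onSet (‖y‖ ≤ C/b^200) 1`, `S y = 1 + C/√‖y‖`, `D y = W y = C b^100`,
`β y p = onSet (‖p.1‖ ≤ 2/b^96 ∧ ‖p.2‖ ≤ C b^100) (b^96 ‖p.2‖ Wt b p.1 p.2)`, `c y p z = c p.2 z`,
`K3 y p = k3 p.2`, `B = C + C²`. Outer integral: for `‖y‖ ≤ C/b^200`: `S y ≤ 2C/√‖y‖`,
`∫ a S^(d-2) D W dy ≤ C' b^200 ∫_{‖y‖ ≤ C/b^200} ‖y‖^(-(d-2)/2) dy ≤ C'' b^200 b^(-200 (d - (d-2)/2))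
= C'' b^(-100 d)` (`rad'`). Inner integral: `∫ p, β p * k3 p.2 = ∫ over the swapped product
(`Measure.prod_swap`, `MeasurableEquiv.prodComm`, no measurability) `≤ ∫ u, ∫ y, ...`
(`lintegral_prod_le`) and for fixed `u ≠ 0` the factor `k3 u` comes out (`lintegral_mul_const` for the
measurable function of `y`), `phi`. `u = 0`: the factor `‖u‖` makes everything `0`.
-/

open MeasureTheory Set Filter Topology Metric
open scoped NNReal ENNReal RealInnerProductSpace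

namespace NB5

open HDN

variable {d : ℕ} {m : Fin 5 → ℝ} {A : Fin 4 → Fin 5 → ℝ} {μ : Fin 4 → ℝ}

private theorem vxm_ne (p : Prop) (f : ℝ) : onSet p f ≠ ⊤ := by
  unfold onSet
  split_ifs
  · exact ENNReal.ofReal_ne_top
  · exact ENNReal.zero_ne_top

private theorem vxm_pos {p : Prop} (h : p) (f : ℝ) : onSet p f = ENNReal.ofReal f := if_pos h

private theorem vxm_neg {p : Prop} (h : ¬ p) (f : ℝ) : onSet p f = 0 := if_neg h

private theorem vxm_and (p q : Prop) (f : ℝ) : onSet (p ∧ q) f = onSet q 1 * onSet p f := by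
  by_cases hq : q
  · rw [vxm_pos hq, ENNReal.ofReal_one, one_mul]
    by_cases hp : p
    · rw [vxm_pos hp, vxm_pos ⟨hp, hq⟩]
    · rw [vxm_neg hp, vxm_neg (fun h => hp h.1)]
  · rw [vxm_neg hq, zero_mul, vxm_neg (fun h => hq h.2)]

private theorem vxm_meas {r : ℝ} {f : Sp d → ℝ} (hf : Measurable f) :
    Measurable fun y : Sp d => onSet (‖y‖ ≤ r) (f y) := by
  have h1 : (fun y : Sp d => onSet (‖y‖ ≤ r) (f y)) =
      (closedBall (0 : Sp d) r).indicator (fun y => ENNReal.ofReal (f y)) := by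
    funext y
    by_cases hy : ‖y‖ ≤ r
    · have h2 : y ∈ closedBall (0 : Sp d) r := by simpa using hy
      rw [indicator_of_mem h2, vxm_pos hy]
    · have h2 : y ∉ closedBall (0 : Sp d) r := by simpa using hy
      rw [indicator_of_notMem h2, vxm_neg hy]
  rw [h1]
  exact hf.ennreal_ofReal.indicator measurableSet_closedBall

private theorem vxm_wt (b : ℝ) (u : Sp d) : Measurable fun y : Sp d => Wt b y u := by
  unfold Wt jw
  fun_prop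

/-- the inner integral -/
private theorem vxm_inner {C Cp b : ℝ} (hCp : 0 < Cp) (k3 : Sp d → ℝ≥0∞)
    (hphi : ∀ u : Sp d, u ≠ 0 →
      ∫⁻ y : Sp d, onSet (‖y‖ ≤ 2 / b ^ 96) (b ^ 96 * ‖u‖ * Wt b y u) ≤
        ENNReal.ofReal (Cp * phiB d b ‖u‖)) :
    ∫⁻ p : Sp d × Sp d, onSet (‖p.1‖ ≤ 2 / b ^ 96 ∧ ‖p.2‖ ≤ C * b ^ 100)
      (b ^ 96 * ‖p.2‖ * Wt b p.1 p.2) * k3 p.2 ≤
    ENNReal.ofReal Cp * ∫⁻ u : Sp d, onSet (‖u‖ ≤ C * b ^ 100) (phiB d b ‖u‖) * k3 u := by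
  set F : Sp d × Sp d → ℝ≥0∞ := fun p => onSet (‖p.1‖ ≤ 2 / b ^ 96 ∧ ‖p.2‖ ≤ C * b ^ 100)
      (b ^ 96 * ‖p.2‖ * Wt b p.1 p.2) * k3 p.2 with hF
  have h1 : ∫⁻ p : Sp d × Sp d, F p = ∫⁻ p : Sp d × Sp d, F p.swap := by
    have h2 : MeasurePreserving (MeasurableEquiv.prodComm : Sp d × Sp d ≃ᵐ Sp d × Sp d)
        volume volume := by
      rw [Measure.volume_eq_prod]
      exact Measure.measurePreserving_swap
    exact h2.lintegral_map_equiv F MeasurableEquiv.prodComm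
  rw [h1, Measure.volume_eq_prod]
  refine (lintegral_prod_le _).trans ?_
  rw [← lintegral_const_mul' _ _ ENNReal.ofReal_ne_top]
  refine lintegral_mono fun u => ?_
  simp only [hF, Prod.swap_prod_mk, vxm_and, Prod.fst_swap, Prod.snd_swap]
  by_cases hu : u = 0
  · have h3 : ∀ y : Sp d, onSet (‖u‖ ≤ C * b ^ 100) 1 *
        onSet (‖y‖ ≤ 2 / b ^ 96) (b ^ 96 * ‖u‖ * Wt b y u) * k3 u = 0 := by
      intro y
      have h4 : onSet (‖y‖ ≤ 2 / b ^ 96) (b ^ 96 * ‖u‖ * Wt b y u) = 0 := by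
        rw [hu, norm_zero, mul_zero, zero_mul]
        unfold onSet
        split_ifs
        · exact ENNReal.ofReal_zero
        · rfl
      rw [h4, mul_zero, zero_mul]
    simp only [h3, lintegral_zero]
    exact zero_le
  · have hm : Measurable fun y : Sp d =>
        onSet (‖y‖ ≤ 2 / b ^ 96) (b ^ 96 * ‖u‖ * Wt b y u) :=
      vxm_meas ((vxm_wt b u).const_mul _)
    rw [lintegral_mul_const _ (hm.const_mul _), lintegral_const_mul _ hm, ← mul_assoc]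
    gcongr ?_ * k3 u
    by_cases hub : ‖u‖ ≤ C * b ^ 100
    · rw [vxm_pos hub, vxm_pos hub, ENNReal.ofReal_one, one_mul,
        ← ENNReal.ofReal_mul hCp.le]
      exact hphi u hu
    · rw [vxm_neg hub, zero_mul]
      exact zero_le

/-- the outer integral -/
private theorem vxm_outer (hd : 3 ≤ d) {C Cr : ℝ} (hC : 1 ≤ C) (hCr : 0 < Cr)
    (hrad : ∀ r : ℝ, 0 ≤ r → ∫⁻ y : Sp d, onSet (‖y‖ ≤ r) (‖y‖ ^ (-(((d : ℝ) - 2) / 2))) ≤
      ENNReal.ofReal (Cr * r ^ ((d : ℝ) - ((d : ℝ) - 2) / 2))) {b : ℝ} (hb : 1 ≤ b) :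
    ∫⁻ y : Sp d, onSet (‖y‖ ≤ C / b ^ 200) 1 *
      ENNReal.ofReal ((1 + C / √‖y‖) ^ (d - 2) * (C * b ^ 100) * (C * b ^ 100)) ≤
    ENNReal.ofReal ((2 * C) ^ (d - 2) * C ^ 2 * Cr * C ^ ((d : ℝ) - ((d : ℝ) - 2) / 2) /
      b ^ (100 * d)) := by
  have hb0 : 0 < b := by linarith
  have hC0 : 0 < C := by linarith
  have : Nonempty (Fin d) := ⟨⟨0, by omega⟩⟩
  have : Nontrivial (Sp d) := inferInstance
  have h0 : ∀ᵐ y : Sp d, y ≠ 0 := by
    have : volume ({(0 : Sp d)} : Set (Sp d)) = 0 := measure_singleton _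
    exact compl_mem_ae_iff.2 this
  set K : ℝ := (2 * C) ^ (d - 2) * C ^ 2 * b ^ 200 with hK
  have hK0 : 0 < K := by positivity
  have hpt : ∀ᵐ y : Sp d, onSet (‖y‖ ≤ C / b ^ 200) 1 *
      ENNReal.ofReal ((1 + C / √‖y‖) ^ (d - 2) * (C * b ^ 100) * (C * b ^ 100)) ≤
      ENNReal.ofReal K * onSet (‖y‖ ≤ C / b ^ 200) (‖y‖ ^ (-(((d : ℝ) - 2) / 2))) := by
    filter_upwards [h0] with y hy
    by_cases hyr : ‖y‖ ≤ C / b ^ 200
    · rw [vxm_pos hyr, vxm_pos hyr, ENNReal.ofReal_one, one_mul, ← ENNReal.ofReal_mul hK0.le]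
      apply ENNReal.ofReal_le_ofReal
      have hy0 : 0 < ‖y‖ := norm_pos_iff.2 hy
      have hs0 : 0 < √‖y‖ := Real.sqrt_pos.2 hy0
      have hyC : ‖y‖ ≤ C := hyr.trans (div_le_self hC0.le (one_le_pow₀ hb))
      have hsC : √‖y‖ ≤ C := by
        rw [Real.sqrt_le_left hC0.le]
        nlinarith
      have h1 : 1 + C / √‖y‖ ≤ 2 * C / √‖y‖ := by
        have h2 : 1 ≤ C / √‖y‖ := (one_le_div hs0).2 hsC
        have h3 : 2 * C / √‖y‖ = C / √‖y‖ + C / √‖y‖ := by ring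
        linarith
      have h4 : (1 + C / √‖y‖) ^ (d - 2) ≤ (2 * C) ^ (d - 2) * ‖y‖ ^ (-(((d : ℝ) - 2) / 2)) := by
        have h5 : (1 + C / √‖y‖) ^ (d - 2) ≤ (2 * C / √‖y‖) ^ (d - 2) := by
          gcongr
        refine h5.trans (le_of_eq ?_)
        rw [div_pow, div_eq_mul_inv]
        congr 1
        rw [Real.rpow_neg hy0.le]
        congr 1
        rw [Real.sqrt_eq_rpow, ← Real.rpow_natCast, ← Real.rpow_mul hy0.le]
        congr 1
        rw [Nat.cast_sub (by omega)]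
        push_cast
        ring
      calc (1 + C / √‖y‖) ^ (d - 2) * (C * b ^ 100) * (C * b ^ 100)
          ≤ ((2 * C) ^ (d - 2) * ‖y‖ ^ (-(((d : ℝ) - 2) / 2))) * (C * b ^ 100) *
            (C * b ^ 100) := by gcongr
        _ = K * ‖y‖ ^ (-(((d : ℝ) - 2) / 2)) := by rw [hK]; ring
    · rw [vxm_neg hyr, zero_mul]
      exact zero_le
  refine (lintegral_mono_ae hpt).trans ?_
  rw [lintegral_const_mul' _ _ ENNReal.ofReal_ne_top]
  refine (mul_le_mul_right (hrad (C / b ^ 200) (by positivity)) _).trans ?_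
  rw [← ENNReal.ofReal_mul hK0.le]
  apply ENNReal.ofReal_le_ofReal
  have e1 : (C / b ^ 200) ^ ((d : ℝ) - ((d : ℝ) - 2) / 2) =
      C ^ ((d : ℝ) - ((d : ℝ) - 2) / 2) / (b ^ 100) ^ (d + 2) := by
    rw [Real.div_rpow hC0.le (by positivity)]
    congr 1
    have e2 : b ^ 200 = (b ^ 100) ^ (2 : ℝ) := by
      rw [Real.rpow_two]
      ring
    rw [e2, ← Real.rpow_mul (by positivity), ← Real.rpow_natCast (b ^ 100) (d + 2)]
    congr 1
    push_cast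
    ring
  rw [e1, hK]
  apply le_of_eq
  have e3 : (b ^ 100) ^ (d + 2) = b ^ 200 * b ^ (100 * d) := by
    rw [← pow_mul, ← pow_add]
    congr 1
    ring
  rw [e3]
  field_simp

theorem xmaster (hd : 3 ≤ d) (hd5 : d ≤ 5) (hj : Jac m A μ) {R C : ℝ} (hR : 0 ≤ R) (hC : 1 ≤ C) :
    ∃ C' : ℝ, 0 < C' ∧ ∀ (b : ℝ) (g : St d → ℝ≥0∞) (c : Sp d → Sp d × Sp d → ℝ≥0∞)
      (k3 : Sp d → ℝ≥0∞), 1 ≤ b → (∀ u z, c u z ≠ ⊤) →
    (∀ u (T : Sp d →L[ℝ] Sp d),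
      ∫⁻ z : Sp d × Sp d, c u z * ker1 (T + μ 2 • wedge z.1 z.2) ≤ k3 u) →
    (∀ x, g x ≤ onSet (BoxX A C b x) (b ^ 96 * ‖Yc A 1 x.2‖ * Wt b (Yc A 1 x.1) (Yc A 1 x.2)) *
      c (Yc A 1 x.2) (Yc A 2 x.1, Yc A 2 x.2)) →
    ∫⁻ x in Inv m R, g x ≤ ENNReal.ofReal (C' / b ^ (100 * d)) *
      ∫⁻ u : Sp d, onSet (‖u‖ ≤ C * b ^ 100) (phiB d b ‖u‖) * k3 u := by
  set B : ℝ := C + C ^ 2 with hB
  have hC0 : 0 < C := by linarith
  have hB0 : 0 ≤ B := by positivity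
  obtain ⟨C1, hC1, hsm⟩ := smaster (d := d) hd hj hR hB0
  obtain ⟨Cp, hCp, hphi⟩ := phi (d := d) hd hd5
  have hdr : (3 : ℝ) ≤ d := by exact_mod_cast hd
  obtain ⟨Cr, hCr, hrad⟩ := rad' d (((d : ℝ) - 2) / 2) (by linarith) (by linarith)
  set Q : ℝ := (2 * C) ^ (d - 2) * C ^ 2 * Cr * C ^ ((d : ℝ) - ((d : ℝ) - 2) / 2) with hQ
  have hQ0 : 0 < Q := by
    have : 0 < C ^ ((d : ℝ) - ((d : ℝ) - 2) / 2) := Real.rpow_pos_of_pos hC0 _
    positivity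
  refine ⟨C1 * Q * Cp, by positivity, ?_⟩
  intro b g c k3 hb hc hk3 hg
  have hb0 : 0 < b := by linarith
  have key := hsm g (fun y => onSet (‖y‖ ≤ C / b ^ 200) 1) (fun y => 1 + C / √‖y‖)
    (fun _ => C * b ^ 100) (fun _ => C * b ^ 100)
    (fun _ p => onSet (‖p.1‖ ≤ 2 / b ^ 96 ∧ ‖p.2‖ ≤ C * b ^ 100)
      (b ^ 96 * ‖p.2‖ * Wt b p.1 p.2)) (fun _ p z => c p.2 z) (fun _ p => k3 p.2)
    (fun y => vxm_ne _ _) (fun y p => vxm_ne _ _) (fun y p z => hc p.2 z)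
    (fun y => by
      have : 0 ≤ C / √‖y‖ := by positivity
      linarith)
    (fun y => by positivity) (fun y => by positivity) ?_ (fun y p T => hk3 p.2 T) ?_
  · refine key.trans ?_
    have hJ := vxm_inner (C := C) hCp k3 (fun u hu => hphi b u hb hu)
    have hO := vxm_outer hd hC hCr hrad hb
    have hm : Measurable fun y : Sp d => onSet (‖y‖ ≤ C / b ^ 200) 1 *
        ENNReal.ofReal ((1 + C / √‖y‖) ^ (d - 2) * (C * b ^ 100) * (C * b ^ 100)) := by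
      refine (vxm_meas measurable_const).mul ?_
      fun_prop
    rw [lintegral_mul_const _ hm]
    calc ENNReal.ofReal C1 * ((∫⁻ y : Sp d, onSet (‖y‖ ≤ C / b ^ 200) 1 *
          ENNReal.ofReal ((1 + C / √‖y‖) ^ (d - 2) * (C * b ^ 100) * (C * b ^ 100))) *
          ∫⁻ p : Sp d × Sp d, onSet (‖p.1‖ ≤ 2 / b ^ 96 ∧ ‖p.2‖ ≤ C * b ^ 100)
            (b ^ 96 * ‖p.2‖ * Wt b p.1 p.2) * k3 p.2)
        ≤ ENNReal.ofReal C1 * (ENNReal.ofReal (Q / b ^ (100 * d)) * (ENNReal.ofReal Cp *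
          ∫⁻ u : Sp d, onSet (‖u‖ ≤ C * b ^ 100) (phiB d b ‖u‖) * k3 u)) := by
          gcongr
      _ = ENNReal.ofReal (C1 * Q * Cp / b ^ (100 * d)) *
          ∫⁻ u : Sp d, onSet (‖u‖ ≤ C * b ^ 100) (phiB d b ‖u‖) * k3 u := by
          rw [← mul_assoc, ← mul_assoc, ← ENNReal.ofReal_mul hC1.le,
            ← ENNReal.ofReal_mul (by positivity)]
          congr 2
          ring
  · intro y hy
    have hyr : ‖y‖ ≤ C / b ^ 200 := by
      by_contra h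
      exact hy (vxm_neg h _)
    have hyC : ‖y‖ ≤ C := hyr.trans (div_le_self hC0.le (one_le_pow₀ hb))
    have hsC : √‖y‖ ≤ C := by
      rw [Real.sqrt_le_left hC0.le]
      nlinarith
    have h1 : ‖y‖ * (C / √‖y‖) = C * √‖y‖ := by
      rcases (norm_nonneg y).eq_or_lt with h | h
      · rw [← h]; simp
      · have hs0 : 0 < √‖y‖ := Real.sqrt_pos.2 h
        have h2 : ‖y‖ = √‖y‖ * √‖y‖ := (Real.mul_self_sqrt h.le).symm
        field_simp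
        nlinarith
    have h3 : ‖y‖ * (1 + C / √‖y‖) = ‖y‖ + C * √‖y‖ := by
      rw [mul_add, mul_one, h1]
    rw [h3, hB]
    nlinarith
  · intro x hx
    refine (hg x).trans ?_
    by_cases hbx : BoxX A C b x
    · obtain ⟨h1, h2, h3, h4, h5, h6, h7, h8⟩ := hbx
      have h2' : ‖Yc A 0 x.2‖ ≤ 1 + C / √‖Yc A 0 x.1‖ := by linarith
      rw [vxm_pos (show BoxX A C b x from ⟨h1, h2, h3, h4, h5, h6, h7, h8⟩), vxm_pos h1,
        vxm_pos (show ‖Yc A 1 x.1‖ ≤ 2 / b ^ 96 ∧ ‖Yc A 1 x.2‖ ≤ C * b ^ 100 from ⟨h3, h4⟩),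
        vxm_pos (show ‖Yc A 3 x.1‖ ≤ C * b ^ 100 ∧ ‖Yc A 3 x.2‖ ≤ C * b ^ 100 ∧
          ‖Yc A 0 x.2‖ ≤ 1 + C / √‖Yc A 0 x.1‖ from ⟨h7, h8, h2'⟩), ENNReal.ofReal_one,
        one_mul, mul_one]
    · rw [vxm_neg hbx, zero_mul]
      exact zero_le

end NB5
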